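import Pool.Agent.H63.MA.SymC
import Pool.Agent.H38.ML.Basic

/-!
# MA-GDEF: definitions for the Galois part

`K` a number field containing a primitive `p`-th root of unity `ζ`, `Ω` an algebraic closure of `K`, `Γ = Gal(Ω/K)`.
* `LD p ζ Ω v π`: for a prime `v`, a prime `P` of the ring of all integers over `v`, a root `w ^ p = π`, and `t` in the inertia group of `P`
  with `t w = ζ w`.
* `kc p ζ Ω a`: the Kummer character of `a`, `kk` its values in `ZMod p`: `σ B = ζ ^ kk a σ * B` for `B ^ p = a`.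
* `Lev f`: the function `f` on `Γ` is of finite level. `Tv E`: the 2-cochain `E` with values in `ZMod p` is a coboundary of finite level.
* `cu a b`: the cup product cochain. `Ep p G`: exponent `p` and class `≤ 2`. `GD`: coordinates of such a group.
-/

set_option autoImplicit false

open scoped NumberField
open IsDedekindDomain

noncomputable section

namespace H63.MA

section defs

variable {K : Type} [Field K] [NumberField K]

/-- local data at `v` -/
structure LD (p : ℕ) (ζ : K) (Ω : Type) [Field Ω] [Algebra K Ω] (v : Pl K) (π : Kˣ) where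
  P : Ideal (𝓞 Ω)
  prime : P.IsPrime
  under : P.under (𝓞 K) = v.asIdeal
  w : Ω
  hw : w ^ p = algebraMap K Ω (π : K)
  t : Gal(Ω/K)
  ht : t ∈ P.inertia Gal(Ω/K)
  act : t w = algebraMap K Ω ζ * w

/-- the residue symbol of `x / π ^ ord x` -/
def lgv (p : ℕ) (ζ : K) (v : Pl K) (π x : Kˣ) : ZMod p := lg p ζ v (x * π ^ (-ord v x))

variable {Ω : Type} [Field Ω] [Algebra K Ω]

/-- `χ` is the Kummer character of `a` -/
def IsKC (p : ℕ) (ζ : K) (a : Kˣ) (χ : Gal(Ω/K) →* Multiplicative (ZMod p)) : Prop :=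
  H38.ML.FT χ ∧ ∀ B : Ω, B ^ p = algebraMap K Ω (a : K) → ∀ σ : Gal(Ω/K),
    σ B = algebraMap K Ω ζ ^ (Multiplicative.toAdd (χ σ)).val * B

open Classical in
/-- the Kummer character of `a` -/
def kc (p : ℕ) (ζ : K) (Ω : Type) [Field Ω] [Algebra K Ω] (a : Kˣ) :
    Gal(Ω/K) →* Multiplicative (ZMod p) :=
  if h : ∃ χ : Gal(Ω/K) →* Multiplicative (ZMod p), IsKC p ζ a χ then h.choose else 1

/-- the values of the Kummer character in `ZMod p` -/
def kk (p : ℕ) (ζ : K) (a : Kˣ) (σ : Gal(Ω/K)) : ZMod p := Multiplicative.toAdd (kc p ζ Ω a σ)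

/-- the cup product cochain of two Kummer characters -/
def cu (p : ℕ) (ζ : K) (a b : Kˣ) (σ τ : Gal(Ω/K)) : ZMod p := kk p ζ a σ * kk p ζ b τ

/-- functions of finite level -/
def Lev {X : Type} (f : Gal(Ω/K) → X) : Prop :=
  ∃ E : IntermediateField K Ω, FiniteDimensional K E ∧ ∀ σ, ∀ u ∈ E.fixingSubgroup, f (σ * u) = f σ

/-- the 2-cochain `E` is a coboundary of finite level -/
def Tv {p : ℕ} (E : Gal(Ω/K) → Gal(Ω/K) → ZMod p) : Prop :=
  ∃ l : Gal(Ω/K) → ZMod p, Lev l ∧ ∀ σ τ, l (σ * τ) = l σ + l τ + E σ τ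

end defs

/-- exponent `p` and nilpotency class at most `2` -/
structure Ep (p : ℕ) (G : Type) [Group G] : Prop where
  exp : ∀ g : G, g ^ p = 1
  cls : ∀ g h k : G, k * (g * h * g⁻¹ * h⁻¹) = g * h * g⁻¹ * h⁻¹ * k

/-- coordinates of a group of exponent `p` and class at most `2`: `π` is the projection to the quotient by
the commutator subgroup, `g i` are representatives of the nontrivial conjugacy classes, `Θ i` is the annihilator of the image of the
centralizer of `g i` -/
structure GD (p m N : ℕ) (G : Type) [Group G] where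
  π : G →* Multiplicative (Fin m → ZMod p)
  sur : Function.Surjective π
  cen : ∀ g, π g = 1 → ∀ h, g * h = h * g
  com : ∀ g, π g = 1 → g ∈ commutator G
  g : Fin N → G
  ne : ∀ i, g i ≠ 1
  cls : ∀ h, h ≠ 1 → ∃ i, IsConj h (g i)
  uni : ∀ i j, IsConj (g i) (g j) → i = j
  Θ : Fin N → Submodule (ZMod p) (Fin m → ZMod p)
  mem : ∀ i θ, θ ∈ Θ i ↔ ∀ h, h * g i = g i * h →
    ∑ k, θ k * (Multiplicative.toAdd (π h)) k = 0
  card : ∀ i, Nat.card (Θ i) = Nat.card {h : G // IsConj h (g i)}
  ann : ∀ i (h : G), (∀ θ ∈ Θ i, ∑ k, θ k * (Multiplicative.toAdd (π h)) k = 0) →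
    h * g i = g i * h

end H63.MA
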