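import Pool.Agent.H63.MA.GTriv

/-!
# MA-GSYM: norms give trivial cup products

`sym2`: `A, B, c, d ∈ Kˣ`; `σ, τ ∈ Γ` with `kk A τ = 1`, `kk c τ = 0`, `kk A σ = 0`, `kk c σ = 1`; `z, y ∈ Ω` nonzero, fixed by
`N = {u : kk A u = 0, kk c u = 0}`; `∏_{i<p} τ^i z = B`, `∏_{i<p} σ^i y = d`, `σ z * y = z * τ y`. Then `cu A B + cu c d` is trivial.

Proof. `N` is normal in `Γ` and `Γ/N` is commutative of exponent `p`, so all elements of the `Γ`-orbits of `z` and `y` are fixed by `N`, and on the group `X` of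
nonzero `N`-fixed elements of `Ω` the automorphisms `σ, τ` commute and have order dividing `p`; every `s ∈ Γ` acts on `X` as `σ^i τ^j`, `i = (kk c s).val`,
`j = (kk A s).val`. Let `b_τ = z⁻¹`, `b_σ = y⁻¹`. In the semidirect product `X ⋊ MulAut X` (`SemidirectProduct`) the elements `V_σ = (b_σ, σ)`, `V_τ = (b_τ, τ)`
commute (`b_σ σ(b_τ) = b_τ τ(b_σ)` is the hypothesis `σ z * y = z * τ y` inverted), `V_τ^p = (∏ τ^i b_τ, 1) = (B⁻¹, 1)`, `V_σ^p = (d⁻¹, 1)`; these two are fixed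
by `σ, τ`, so central in the subgroup generated. Let `V_σ^i V_τ^j = (Λ₀(i,j), σ^i τ^j)` for `i, j ∈ ℕ`, and `Λ₁(s) = Λ₀((kk c s).val, (kk A s).val)`.
Since `kk` is a homomorphism, `Λ₁(s) s(Λ₁(s')) = Λ₁(s s') d^{-ε} B^{-ε'}` where `ε = 1` if `(kk c s).val + (kk c s').val ≥ p`, `0` otherwise, `ε'` the same for `A`.
Let `β^p = B`, `δ^p = d`, `μ(s) = β^{(kk A s).val} δ^{(kk c s).val}`: `μ(s) s(μ(s')) = ζ^{kk B s * kk A s' + kk d s * kk c s'} μ(s s') B^{ε'} d^{ε}`.
So `Λ = μ Λ₁` satisfies the hypothesis of `tv_of_pre` for `E = cu B A + cu d c`. It is of finite level (it depends only on `kk A s`, `kk c s`). Then use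
`tv_swap` twice: `cu A B + cu c d = (cu A B + cu B A) + (cu c d + cu d c) - (cu B A + cu d c)`.

`sym1`: the same with one variable: `kk A τ = 1`, `z` fixed by `{u : kk A u = 0}`, `∏ τ^i z = B`: `cu A B` is trivial (`Λ₁(s) = ∏_{l < j} τ^l z⁻¹`).
-/

set_option autoImplicit false

open scoped NumberField
open IsDedekindDomain

noncomputable section

namespace H63.MA

variable {K : Type} [Field K] [NumberField K] {Ω : Type} [Field Ω] [Algebra K Ω] [IsAlgClosure K Ω]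
  {p : ℕ} {ζ : K}

theorem GSym_pow (a : Kˣ) (s : Gal(Ω/K)) (i : ℕ) : kk p ζ a (s ^ i) = i * kk p ζ a s := by
  induction i with
  | zero => rw [pow_zero, kk_one, Nat.cast_zero, zero_mul]
  | succ i ih =>
    rw [pow_succ, kk_mul, ih]
    push_cast
    ring

theorem GSym_iter (P : Ω → Prop) (σ : Gal(Ω/K)) (y : Ω) (V : {x : Ω // P x} → {x : Ω // P x})
    (hV : ∀ x, ((V x : {x : Ω // P x}) : Ω) = y⁻¹ * σ (x : Ω)) (i : ℕ) (x : {x : Ω // P x}) :
    ((V^[i] x : {x : Ω // P x}) : Ω) =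
      (∏ l ∈ Finset.range i, (σ ^ l) y)⁻¹ * (σ ^ i) (x : Ω) := by
  induction i with
  | zero => simp
  | succ i ih =>
    rw [Function.iterate_succ_apply', hV, ih, Finset.prod_range_succ', map_mul, map_inv₀, map_prod]
    have e1 : ∀ l, σ ((σ ^ l) y) = (σ ^ (l + 1)) y := by
      intro l
      rw [pow_succ']
      rfl
    have e2 : σ ((σ ^ i) (x : Ω)) = (σ ^ (i + 1)) (x : Ω) := by
      rw [pow_succ']
      rfl
    simp only [e1, e2]
    rw [pow_zero, AlgEquiv.one_apply, mul_inv]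
    ring

theorem GSym_per (P : Ω → Prop) (σ : Gal(Ω/K)) (y : Ω) (V : {x : Ω // P x} → {x : Ω // P x})
    (hV : ∀ x, ((V x : {x : Ω // P x}) : Ω) = y⁻¹ * σ (x : Ω)) (d : K)
    (hd : ∏ l ∈ Finset.range p, (σ ^ l) y = algebraMap K Ω d)
    (hσ : ∀ x : {x : Ω // P x}, (σ ^ p) (x : Ω) = x) (i e : ℕ) (x : {x : Ω // P x}) :
    ((V^[i + p * e] x : {x : Ω // P x}) : Ω) =
      (algebraMap K Ω d ^ e)⁻¹ * ((V^[i] x : {x : Ω // P x}) : Ω) := by
  induction e with
  | zero => simp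
  | succ e ih =>
    have e1 : i + p * (e + 1) = p + (i + p * e) := by ring
    rw [e1, Function.iterate_add_apply, GSym_iter P σ y V hV p, hd, hσ, ih, pow_succ, mul_inv]
    ring

theorem GSym_main (hp : p.Prime) (hζ : IsPrimitiveRoot ζ p) (A B c d : Kˣ) (σ τ : Gal(Ω/K))
    (z y : Ω)
    (h0 : ∀ s : Gal(Ω/K), kk p ζ A (σ ^ (kk p ζ c s).val * τ ^ (kk p ζ A s).val) = kk p ζ A s ∧
      kk p ζ c (σ ^ (kk p ζ c s).val * τ ^ (kk p ζ A s).val) = kk p ζ c s)
    (hz : z ≠ 0) (hy : y ≠ 0)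
    (hf : ∀ u : Gal(Ω/K), kk p ζ A u = 0 → kk p ζ c u = 0 → u z = z ∧ u y = y)
    (hB : ∏ i ∈ Finset.range p, (τ ^ i) z = algebraMap K Ω (B : K))
    (hd : ∏ i ∈ Finset.range p, (σ ^ i) y = algebraMap K Ω (d : K))
    (hc : σ z * y = z * τ y) :
    Tv (fun s s' : Gal(Ω/K) => cu p ζ A B s s' + cu p ζ c d s s') := by
  classical
  have hac : IsAlgClosed Ω := IsAlgClosure.isAlgClosed K
  have : NeZero p := ⟨hp.ne_zero⟩
  have hz1 : algebraMap K Ω ζ ^ p = 1 := by rw [← map_pow, hζ.pow_eq_one, map_one]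
  have hB0 : algebraMap K Ω (B : K) ≠ 0 := (map_ne_zero _).2 B.ne_zero
  have hd0 : algebraMap K Ω (d : K) ≠ 0 := (map_ne_zero _).2 d.ne_zero
  -- the fixed elements
  obtain ⟨P, hP⟩ : ∃ P : Ω → Prop, P = fun x => ∀ u : Gal(Ω/K), kk p ζ A u = 0 →
    kk p ζ c u = 0 → u x = x := ⟨_, rfl⟩
  have hPs : ∀ (s : Gal(Ω/K)) (x : Ω), P x → P (s x) := by
    intro s x hx
    rw [hP] at hx ⊢
    intro u hu1 hu2
    have h1 := hx (s⁻¹ * u * s) (by rw [kk_mul, kk_mul, hu1, add_zero, ← kk_mul, inv_mul_cancel,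
      kk_one]) (by rw [kk_mul, kk_mul, hu2, add_zero, ← kk_mul, inv_mul_cancel, kk_one])
    have h2 := congrArg s h1
    rw [← AlgEquiv.mul_apply, mul_assoc, mul_inv_cancel_left] at h2
    exact h2
  have hPm : ∀ x x' : Ω, P x → P x' → P (x * x') := by
    intro x x' hx hx'
    rw [hP] at hx hx' ⊢
    intro u hu1 hu2
    rw [map_mul, hx u hu1 hu2, hx' u hu1 hu2]
  have hPi : ∀ x : Ω, P x → P x⁻¹ := by
    intro x hx
    rw [hP] at hx ⊢
    intro u hu1 hu2
    rw [map_inv₀, hx u hu1 hu2]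
  have hP1 : P 1 := by
    rw [hP]
    intro u _ _
    exact map_one u
  have hPz : P z := by
    rw [hP]
    exact fun u hu1 hu2 => (hf u hu1 hu2).1
  have hPy : P y := by
    rw [hP]
    exact fun u hu1 hu2 => (hf u hu1 hu2).2
  -- automorphisms with the same values act in the same way
  have hsame : ∀ (s t : Gal(Ω/K)) (x : Ω), P x → kk p ζ A s = kk p ζ A t →
      kk p ζ c s = kk p ζ c t → s x = t x := by
    intro s t x hx h1 h2
    rw [hP] at hx
    have h3 := hx (t⁻¹ * s) (by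
      rw [kk_mul, h1, ← kk_mul, inv_mul_cancel, kk_one]) (by
      rw [kk_mul, h2, ← kk_mul, inv_mul_cancel, kk_one])
    have h4 := congrArg t h3
    rw [← AlgEquiv.mul_apply, mul_inv_cancel_left] at h4
    exact h4
  have hpow : ∀ (t : Gal(Ω/K)) (x : Ω), P x → (t ^ p) x = x := by
    intro t x hx
    have h1 := hsame (t ^ p) 1 x hx (by rw [GSym_pow, kk_one, ZMod.natCast_self, zero_mul])
      (by rw [GSym_pow, kk_one, ZMod.natCast_self, zero_mul])
    rw [h1]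
    rfl
  -- the two commuting maps
  obtain ⟨V, hV⟩ : ∃ V : {x : Ω // P x} → {x : Ω // P x},
      ∀ x, ((V x : {x : Ω // P x}) : Ω) = y⁻¹ * σ (x : Ω) :=
    ⟨fun x => ⟨y⁻¹ * σ (x : Ω), hPm _ _ (hPi _ hPy) (hPs σ _ x.2)⟩, fun x => rfl⟩
  obtain ⟨W, hW⟩ : ∃ W : {x : Ω // P x} → {x : Ω // P x},
      ∀ x, ((W x : {x : Ω // P x}) : Ω) = z⁻¹ * τ (x : Ω) :=
    ⟨fun x => ⟨z⁻¹ * τ (x : Ω), hPm _ _ (hPi _ hPz) (hPs τ _ x.2)⟩, fun x => rfl⟩
  have hcomm : Function.Commute V W := by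
    intro x
    apply Subtype.ext
    rw [hV, hW, hW, hV, map_mul, map_mul, map_inv₀, map_inv₀]
    have e1 : σ (τ (x : Ω)) = τ (σ (x : Ω)) :=
      hsame (σ * τ) (τ * σ) x x.2 (by rw [kk_mul, kk_mul, add_comm])
        (by rw [kk_mul, kk_mul, add_comm])
    have e2 : y⁻¹ * (σ z)⁻¹ = z⁻¹ * (τ y)⁻¹ := by
      rw [← mul_inv, ← mul_inv, mul_comm y, hc]
    rw [e1, ← mul_assoc, ← mul_assoc, e2]
  obtain ⟨a, ha⟩ : ∃ a : Gal(Ω/K) → ℕ, a = fun s => (kk p ζ c s).val := ⟨_, rfl⟩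
  obtain ⟨b, hb⟩ : ∃ b : Gal(Ω/K) → ℕ, b = fun s => (kk p ζ A s).val := ⟨_, rfl⟩
  have hae : ∀ s s', a s + a s' = a (s * s') + p * ((a s + a s') / p) := by
    intro s s'
    have e1 : a (s * s') = (a s + a s') % p := by
      rw [ha]
      simp only
      rw [kk_mul, ZMod.val_add]
    rw [e1, Nat.mod_add_div]
  have hbe : ∀ s s', b s + b s' = b (s * s') + p * ((b s + b s') / p) := by
    intro s s'
    have e1 : b (s * s') = (b s + b s') % p := by
      rw [hb]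
      simp only
      rw [kk_mul, ZMod.val_add]
    rw [e1, Nat.mod_add_div]
  have hVp : ∀ x : {x : Ω // P x}, (σ ^ p) (x : Ω) = x := fun x => hpow σ x x.2
  have hWp : ∀ x : {x : Ω // P x}, (τ ^ p) (x : Ω) = x := fun x => hpow τ x x.2
  obtain ⟨o, ho⟩ : ∃ o : {x : Ω // P x}, (o : Ω) = 1 := ⟨⟨1, hP1⟩, rfl⟩
  obtain ⟨T, hT⟩ : ∃ T : Gal(Ω/K) → {x : Ω // P x} → {x : Ω // P x},
    ∀ s x, T s x = V^[a s] (W^[b s] x) := ⟨_, fun _ _ => rfl⟩
  obtain ⟨L, hL⟩ : ∃ L : Gal(Ω/K) → Ω, ∀ s, L s = ((T s o : {x : Ω // P x}) : Ω) :=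
    ⟨_, fun _ => rfl⟩
  have hTx : ∀ s (x : {x : Ω // P x}), ((T s x : {x : Ω // P x}) : Ω) = L s * s (x : Ω) := by
    intro s x
    have e1 : ∀ x : {x : Ω // P x}, ((T s x : {x : Ω // P x}) : Ω) =
        (∏ l ∈ Finset.range (a s), (σ ^ l) y)⁻¹ * ((σ ^ (a s))
          ((∏ l ∈ Finset.range (b s), (τ ^ l) z)⁻¹) * s (x : Ω)) := by
      intro x
      rw [hT, GSym_iter P σ y V hV, GSym_iter P τ z W hW, map_mul]
      congr 2
      have h1 := h0 s
      have h2 := hsame (σ ^ (kk p ζ c s).val * τ ^ (kk p ζ A s).val) s x x.2 h1.1 h1.2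
      rw [ha, hb]
      exact h2
    rw [hL, e1, e1, ho, map_one, mul_one, mul_assoc]
  have hL0 : ∀ s, L s ≠ 0 := by
    intro s
    rw [hL, hT, GSym_iter P σ y V hV, GSym_iter P τ z W hW, ho, map_one, mul_one]
    apply mul_ne_zero
    · apply inv_ne_zero
      apply Finset.prod_ne_zero_iff.2
      intro l _
      exact (map_ne_zero _).2 hy
    · apply (map_ne_zero _).2
      apply inv_ne_zero
      apply Finset.prod_ne_zero_iff.2
      intro l _
      exact (map_ne_zero _).2 hz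
  have hLL : ∀ s s', L s * s (L s') = (algebraMap K Ω (d : K) ^ ((a s + a s') / p))⁻¹ *
      (algebraMap K Ω (B : K) ^ ((b s + b s') / p))⁻¹ * L (s * s') := by
    intro s s'
    have e1 : L s * s (L s') = ((T s (T s' o) : {x : Ω // P x}) : Ω) := by
      rw [hTx, hL s']
    have e2 : T s (T s' o) = V^[a s + a s'] (W^[b s + b s'] o) := by
      rw [hT, hT, Function.iterate_add_apply, Function.iterate_add_apply]
      congr 1
      exact ((hcomm.iterate_iterate (a s') (b s)) (W^[b s'] o)).symm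
    have ha' := hae s s'
    have hb' := hbe s s'
    generalize (a s + a s') / p = ε at ha' ⊢
    generalize (b s + b s') / p = ε' at hb' ⊢
    rw [e1, e2, ha', hb', GSym_per P σ y V hV (d : K) hd hVp]
    rw [GSym_iter P σ y V hV, GSym_per P τ z W hW (B : K) hB hWp, map_mul, map_inv₀, map_pow,
      AlgEquiv.commutes, hL, hT, GSym_iter P σ y V hV]
    ring
  -- the correction
  obtain ⟨β, hβ⟩ := IsAlgClosed.exists_pow_nat_eq (algebraMap K Ω (B : K)) hp.pos
  obtain ⟨δ, hδ⟩ := IsAlgClosed.exists_pow_nat_eq (algebraMap K Ω (d : K)) hp.pos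
  have hβ0 : β ≠ 0 := gkum_ne hp B β hβ
  have hδ0 : δ ≠ 0 := gkum_ne hp d δ hδ
  have hpre : Tv (fun s s' : Gal(Ω/K) => cu p ζ B A s s' + cu p ζ d c s s') := by
    refine tv_of_pre hp hζ _ (fun s => β ^ b s * δ ^ a s * L s) ?_ ?_ ?_
    · intro s
      exact mul_ne_zero (mul_ne_zero (pow_ne_zero _ hβ0) (pow_ne_zero _ hδ0)) (hL0 s)
    · obtain ⟨E, hE, h1⟩ := gtriv_lev (gtriv_kk (Ω := Ω) hp hζ A) (gtriv_kk (Ω := Ω) hp hζ c)
        (fun x x' => (x, x'))
      refine ⟨E, hE, fun s u hu => ?_⟩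
      have h2 := h1 s u hu
      rw [Prod.mk.injEq] at h2
      have e1 : b (s * u) = b s := by
        rw [hb]
        simp only
        rw [h2.1]
      have e2 : a (s * u) = a s := by
        rw [ha]
        simp only
        rw [h2.2]
      have e3 : L (s * u) = L s := by
        rw [hL, hL, hT, hT, e1, e2]
      show β ^ b (s * u) * δ ^ a (s * u) * L (s * u) = β ^ b s * δ ^ a s * L s
      rw [e1, e2, e3]
    · intro s s'
      show algebraMap K Ω ζ ^ (cu p ζ B A s s' + cu p ζ d c s s').val *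
        (β ^ b (s * s') * δ ^ a (s * s') * L (s * s')) =
        β ^ b s * δ ^ a s * L s * s (β ^ b s' * δ ^ a s' * L s')
      have e1 := kk_root hp hζ B β hβ s
      have e2 := kk_root hp hζ d δ hδ s
      have e3 : algebraMap K Ω ζ ^ (cu p ζ B A s s' + cu p ζ d c s s').val =
          (algebraMap K Ω ζ ^ (kk p ζ B s).val) ^ b s' *
            (algebraMap K Ω ζ ^ (kk p ζ d s).val) ^ a s' := by
        rw [← pow_mul, ← pow_mul, ← pow_add]
        have e4 : ((kk p ζ B s).val * b s' + (kk p ζ d s).val * a s') % p =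
            (cu p ζ B A s s' + cu p ζ d c s s').val := by
          rw [← ZMod.val_natCast]
          congr 1
          push_cast
          rw [ha, hb]
          simp only [ZMod.natCast_zmod_val]
          rfl
        rw [← e4]
        exact (pow_eq_pow_mod _ hz1).symm
      have e5 : β ^ b s * β ^ b s' = β ^ b (s * s') *
          algebraMap K Ω (B : K) ^ ((b s + b s') / p) := by
        have hb' := hbe s s'
        generalize (b s + b s') / p = ε' at hb' ⊢
        rw [← pow_add, hb', pow_add, pow_mul, hβ]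
      have e6 : δ ^ a s * δ ^ a s' = δ ^ a (s * s') *
          algebraMap K Ω (d : K) ^ ((a s + a s') / p) := by
        have ha' := hae s s'
        generalize (a s + a s') / p = ε at ha' ⊢
        rw [← pow_add, ha', pow_add, pow_mul, hδ]
      have e7 := hLL s s'
      rw [map_mul, map_mul, map_pow, map_pow, e1, e2, mul_pow, mul_pow, e3]
      calc _ = (algebraMap K Ω ζ ^ (kk p ζ B s).val) ^ b s' *
            (algebraMap K Ω ζ ^ (kk p ζ d s).val) ^ a s' *
            ((β ^ b (s * s') * algebraMap K Ω (B : K) ^ ((b s + b s') / p)) *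
              (δ ^ a (s * s') * algebraMap K Ω (d : K) ^ ((a s + a s') / p)) *
              ((algebraMap K Ω (d : K) ^ ((a s + a s') / p))⁻¹ *
              (algebraMap K Ω (B : K) ^ ((b s + b s') / p))⁻¹ * L (s * s'))) := by
            have f1 : algebraMap K Ω (B : K) ^ ((b s + b s') / p) ≠ 0 := pow_ne_zero _ hB0
            have f2 : algebraMap K Ω (d : K) ^ ((a s + a s') / p) ≠ 0 := pow_ne_zero _ hd0
            field_simp
        _ = _ := by
            rw [← e5, ← e6, ← e7]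
            ring
  have hfin := tv_add _ _ (tv_add _ _ (tv_swap (Ω := Ω) hp hζ A B) (tv_swap (Ω := Ω) hp hζ c d))
    (tv_smul (-1) _ hpre)
  have hfun : (fun s s' : Gal(Ω/K) => cu p ζ A B s s' + cu p ζ c d s s') =
      fun s s' => cu p ζ A B s s' + cu p ζ B A s s' + (cu p ζ c d s s' + cu p ζ d c s s') +
        -1 * (cu p ζ B A s s' + cu p ζ d c s s') := by
    funext s s'
    ring
  rw [hfun]
  exact hfin

theorem sym1 (hp : p.Prime) (hζ : IsPrimitiveRoot ζ p) (A B : Kˣ) (τ : Gal(Ω/K)) (z : Ω)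
    (h1 : kk p ζ A τ = 1) (hz : z ≠ 0) (hf : ∀ u : Gal(Ω/K), kk p ζ A u = 0 → u z = z)
    (hn : ∏ i ∈ Finset.range p, (τ ^ i) z = algebraMap K Ω (B : K)) :
    Tv (fun s s' : Gal(Ω/K) => cu p ζ A B s s') := by
  have : NeZero p := ⟨hp.ne_zero⟩
  have hone : ∀ s : Gal(Ω/K), kk p ζ (1 : Kˣ) s = 0 := fun s => gkum_one_arg hp hζ s
  have hmain := GSym_main hp hζ A B 1 1 (1 : Gal(Ω/K)) τ z 1 (by
      intro s
      rw [hone, hone, ZMod.val_zero, pow_zero, one_mul, GSym_pow, h1, mul_one,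
        ZMod.natCast_zmod_val]
      exact ⟨rfl, rfl⟩) hz one_ne_zero (fun u hu _ => ⟨hf u hu, map_one u⟩) hn (by simp) (by simp)
  have hfun : (fun s s' : Gal(Ω/K) => cu p ζ A B s s') =
      fun s s' => cu p ζ A B s s' + cu p ζ (1 : Kˣ) 1 s s' := by
    funext s s'
    have e1 : cu p ζ (1 : Kˣ) 1 s s' = 0 := by
      unfold cu
      rw [hone, zero_mul]
    rw [e1, add_zero]
  rw [hfun]
  exact hmain

theorem sym2 (hp : p.Prime) (hζ : IsPrimitiveRoot ζ p) (A B c d : Kˣ) (σ τ : Gal(Ω/K)) (z y : Ω)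
    (h1 : kk p ζ A τ = 1) (h2 : kk p ζ c τ = 0) (h3 : kk p ζ A σ = 0) (h4 : kk p ζ c σ = 1)
    (hz : z ≠ 0) (hy : y ≠ 0)
    (hf : ∀ u : Gal(Ω/K), kk p ζ A u = 0 → kk p ζ c u = 0 → u z = z ∧ u y = y)
    (hB : ∏ i ∈ Finset.range p, (τ ^ i) z = algebraMap K Ω (B : K))
    (hd : ∏ i ∈ Finset.range p, (σ ^ i) y = algebraMap K Ω (d : K))
    (hc : σ z * y = z * τ y) :
    Tv (fun s s' : Gal(Ω/K) => cu p ζ A B s s' + cu p ζ c d s s') := by
  have : NeZero p := ⟨hp.ne_zero⟩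
  refine GSym_main hp hζ A B c d σ τ z y ?_ hz hy hf hB hd hc
  intro s
  constructor
  · rw [kk_mul, GSym_pow, GSym_pow, h3, h1, mul_zero, zero_add, mul_one, ZMod.natCast_zmod_val]
  · rw [kk_mul, GSym_pow, GSym_pow, h4, h2, mul_zero, add_zero, mul_one, ZMod.natCast_zmod_val]

end H63.MA
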