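import Pool.Agent.H63.MA.SymA

/-!
# MA-KUMA: the Kummer extension `L = K(γ)`, `γ^p = c`, of degree `p`: Galois group, norm, Hilbert 90

* `kum_pow`: `σ^i γ = ζ^i γ` by induction (`σ` fixes `ζ`).
* `kum_gen`: `γ ∉ K`: otherwise `σ γ = γ`, `ζ = 1`. As `[L:K] = p` is prime, `L = K(γ)`
  (`IntermediateField`: the degree of `K(γ)` divides `p`), so an automorphism is determined by its value on `γ`, which is a
  root of `X^p - c`, i.e. `ζ^i γ` (`p` different values), so every automorphism is `σ^i`, `i < p`, `σ^p = 1`, and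
  `#Aut = p = [L:K]`: Galois (`IsGalois.of_card_aut_eq_finrank`).
* `kum_not_pow`: if `c = y^p` in `K` then `γ = ζ^i y ∈ K`.
* `kum_norm`: `Algebra.norm_eq_prod_automorphisms`.
* `mone_sum`, `kum_norm_γ`: `∏ ζ^i γ = ζ^(p(p-1)/2) γ^p = c r^p` with `r = 1` for odd `p` and `r = i` (`i^2 = -1`) for `p = 2`.
* `kum_h90`: Hilbert 90 for the cyclic group generated by `σ` (Mathlib: `groupCohomology.exists_div_of_norm_eq_one` for cyclic
  extensions (search `Hilbert90`), or derive it from the general Noether form `H^1(Gal, L^*) = 1`, or directly: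
  `x ↦ ∑_i (∏_{j<i} σ^j x) σ^i t` for a suitable `t` by independence of characters).
* `kum_exists`: if `c` is not a `p`-th power in `K`, `X^p - c` is irreducible (`X_pow_sub_C_irreducible_of_prime`,
  file `KummerPolynomial`/`KummerExtension`); take `L = AdjoinRoot (X^p - c)`; `σ` exists since `ζ γ` is another root.
-/

set_option autoImplicit false

open scoped NumberField
open IsDedekindDomain

noncomputable section

namespace H63.MA

/-- the norm as a homomorphism of unit groups -/
def Nm (K L : Type) [Field K] [Field L] [Algebra K L] : Lˣ →* Kˣ :=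
  Units.map (Algebra.norm K : L →* K)

/-- the action of an automorphism on the unit group -/
def au {K L : Type} [Field K] [Field L] [Algebra K L] (s : L ≃ₐ[K] L) : Lˣ →* Lˣ :=
  Units.map (s : L →* L)

/-- the product of the powers of `ζ` -/
theorem mone_sum {K : Type} [Field K] {p : ℕ} (hp : p.Prime) (hp2 : MOne p K) {ζ : K}
    (hζ : IsPrimitiveRoot ζ p) : ∃ r : Kˣ, r ^ (2 * p) = 1 ∧
      ζ ^ (∑ i ∈ Finset.range p, i) = ((r ^ p : Kˣ) : K) := by
  by_cases h2 : p = 2
  · obtain ⟨i, hi⟩ := hp2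
    have hi0 : i ≠ 0 := by
      rintro rfl
      rw [zero_pow hp.ne_zero] at hi
      exact neg_ne_zero.2 one_ne_zero hi.symm
    have h3 : (Units.mk0 i hi0) ^ p = -1 := by
      apply Units.ext
      rw [Units.val_pow_eq_pow_val, Units.val_mk0, hi, Units.val_neg, Units.val_one]
    refine ⟨Units.mk0 i hi0, ?_, ?_⟩
    · rw [mul_comm, pow_mul, h3, neg_one_sq]
    · rw [h3, Units.val_neg, Units.val_one]
      subst h2
      have h4 : (∑ i ∈ Finset.range 2, i) = 1 := by decide
      rw [h4, pow_one]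
      exact hζ.eq_neg_one_of_two_right
  · refine ⟨1, one_pow _, ?_⟩
    rw [one_pow, Units.val_one]
    obtain ⟨k, hk⟩ := hp.odd_of_ne_two h2
    have h3 : (∑ i ∈ Finset.range p, i) = p * k := by
      have h4 := Finset.sum_range_id_mul_two p
      have h5 : p - 1 = 2 * k := by omega
      rw [h5] at h4
      have h6 : (∑ i ∈ Finset.range p, i) * 2 = (p * k) * 2 := by rw [h4]; ring
      exact Nat.eq_of_mul_eq_mul_right two_pos h6
    rw [h3, pow_mul, hζ.pow_eq_one, one_pow]

section

variable {K : Type} [Field K] [NumberField K] {L : Type} [Field L] [NumberField L] [Algebra K L]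
  {p : ℕ} (hp : p.Prime) {ζ : K} (hζ : IsPrimitiveRoot ζ p) {c : Kˣ} (H : Kum p K ζ c L)

omit [NumberField K] [NumberField L] in
private theorem kuma_fd' {p : ℕ} (hp : p.Prime) (h : Module.finrank K L = p) :
    FiniteDimensional K L := FiniteDimensional.of_finrank_pos (by rw [h]; exact hp.pos)

include hp H in
theorem kuma_fd : FiniteDimensional K L := kuma_fd' hp H.deg

include hp hζ H

theorem kuma_ne : H.σ (H.γ : L) ≠ H.γ := by
  intro h
  rw [H.hσ] at h
  have h1 : algebraMap K L ζ = 1 := by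
    have h2 : algebraMap K L ζ * (H.γ : L) = 1 * (H.γ : L) := by rw [one_mul]; exact h
    exact mul_right_cancel₀ H.γ.ne_zero h2
  have h3 : ζ = 1 := by
    apply (algebraMap K L).injective
    rw [h1, map_one]
  rw [h3] at hζ
  exact hp.one_lt.ne' (hζ.unique IsPrimitiveRoot.one)

theorem kuma_top (M : IntermediateField K L) (hM : (H.γ : L) ∈ M) : M = ⊤ := by
  have hso : IsSimpleOrder (IntermediateField K L) :=
    IntermediateField.isSimpleOrder_of_finrank_prime K L (by rw [H.deg]; exact hp)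
  rcases hso.eq_bot_or_eq_top M with h | h
  · exfalso
    rw [h, IntermediateField.mem_bot] at hM
    obtain ⟨y, hy⟩ := hM
    apply kuma_ne hp hζ H
    rw [← hy]
    exact AlgEquiv.commutes _ _
  · exact h

theorem kuma_one (s : L ≃ₐ[K] L) (hs : s (H.γ : L) = H.γ) : s = 1 := by
  have h1 : IntermediateField.fixedField (Subgroup.zpowers s) = (⊤ : IntermediateField K L) := by
    apply kuma_top hp hζ H
    rw [IntermediateField.mem_fixedField_iff]
    intro f hf
    obtain ⟨n, rfl⟩ := Subgroup.mem_zpowers_iff.1 hf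
    have h2 : s • (H.γ : L) = H.γ := hs
    have h3 : s ∈ MulAction.stabilizer (L ≃ₐ[K] L) (H.γ : L) := h2
    exact Subgroup.zpow_mem _ h3 n
  apply AlgEquiv.ext
  intro x
  have h2 : x ∈ IntermediateField.fixedField (Subgroup.zpowers s) := by
    rw [h1]
    exact IntermediateField.mem_top
  rw [IntermediateField.mem_fixedField_iff] at h2
  exact h2 s (Subgroup.mem_zpowers s)

theorem kum_pow (i : ℕ) : (H.σ ^ i) (H.γ : L) = algebraMap K L (ζ ^ i) * H.γ := by
  induction i with
  | zero => simp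
  | succ i ih =>
    rw [pow_succ, AlgEquiv.mul_apply, H.hσ, map_mul, AlgEquiv.commutes, ih, map_pow, map_pow,
      pow_succ]
    ring

theorem kum_σ_pow : H.σ ^ p = 1 := by
  apply kuma_one hp hζ H
  rw [kum_pow hp hζ H, hζ.pow_eq_one, map_one, one_mul]

theorem kuma_root (x : L) (hx : x ^ p = algebraMap K L c) :
    ∃ i < p, x = algebraMap K L (ζ ^ i) * H.γ := by
  have hp0 : NeZero p := ⟨hp.ne_zero⟩
  have hz : IsPrimitiveRoot (algebraMap K L ζ) p := hζ.map_of_injective (algebraMap K L).injective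
  have h2 : (x / (H.γ : L)) ^ p = 1 := by
    rw [div_pow, hx, ← H.hγ, div_self (pow_ne_zero _ H.γ.ne_zero)]
  obtain ⟨l, hl, hl2⟩ := hz.eq_pow_of_pow_eq_one h2
  exact ⟨l, hl, by rw [map_pow, hl2, div_mul_cancel₀ _ H.γ.ne_zero]⟩

theorem kum_gen (s : L ≃ₐ[K] L) : ∃ i < p, s = H.σ ^ i := by
  obtain ⟨i, hi, hi2⟩ := kuma_root hp hζ H (s (H.γ : L)) (by
    rw [← map_pow, H.hγ, AlgEquiv.commutes])
  refine ⟨i, hi, ?_⟩
  have h1 : (H.σ ^ i)⁻¹ * s = 1 := by
    apply kuma_one hp hζ H
    rw [AlgEquiv.mul_apply, hi2, ← kum_pow hp hζ H i, ← AlgEquiv.mul_apply, inv_mul_cancel]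
    rfl
  exact (inv_mul_eq_one.1 h1).symm

theorem kuma_fixedField :
    IntermediateField.fixedField (Subgroup.zpowers H.σ) = (⊥ : IntermediateField K L) := by
  have hso : IsSimpleOrder (IntermediateField K L) :=
    IntermediateField.isSimpleOrder_of_finrank_prime K L (by rw [H.deg]; exact hp)
  rcases hso.eq_bot_or_eq_top (IntermediateField.fixedField (Subgroup.zpowers H.σ)) with h | h
  · exact h
  · exfalso
    have h2 : (H.γ : L) ∈ IntermediateField.fixedField (Subgroup.zpowers H.σ) := by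
      rw [h]
      exact IntermediateField.mem_top
    rw [IntermediateField.mem_fixedField_iff] at h2
    exact kuma_ne hp hζ H (h2 H.σ (Subgroup.mem_zpowers _))

theorem kum_galois : IsGalois K L := by
  have hfd : FiniteDimensional K L := kuma_fd hp H
  apply IsGalois.of_fixedField_eq_bot
  rw [eq_bot_iff, ← kuma_fixedField hp hζ H]
  intro x hx
  rw [IntermediateField.mem_fixedField_iff] at hx ⊢
  exact fun f _ => hx f (Subgroup.mem_top f)

theorem kum_fixed (x : L) (hx : H.σ x = x) : ∃ y : K, algebraMap K L y = x := by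
  have h1 : x ∈ IntermediateField.fixedField (Subgroup.zpowers H.σ) := by
    rw [IntermediateField.mem_fixedField_iff]
    intro f hf
    obtain ⟨n, rfl⟩ := Subgroup.mem_zpowers_iff.1 hf
    have h2 : H.σ • x = x := hx
    have h3 : H.σ ∈ MulAction.stabilizer (L ≃ₐ[K] L) x := h2
    exact Subgroup.zpow_mem _ h3 n
  rw [kuma_fixedField hp hζ H, IntermediateField.mem_bot] at h1
  exact h1

theorem kum_not_pow : ¬ IsPow p c := by
  rintro ⟨y, hy⟩
  obtain ⟨i, -, hi⟩ := kuma_root hp hζ H (algebraMap K L y) (by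
    rw [← map_pow, ← Units.val_pow_eq_pow_val, hy])
  apply kuma_ne hp hζ H
  have h1 : (H.γ : L) = algebraMap K L ((ζ ^ i)⁻¹ * y) := by
    rw [map_mul, hi, ← mul_assoc, ← map_mul, inv_mul_cancel₀
      (pow_ne_zero _ (hζ.ne_zero hp.ne_zero)), map_one, one_mul]
  rw [h1]
  exact AlgEquiv.commutes _ _

omit hp hζ H in
theorem kuma_inc_inj (K L : Type) [Field K] [Field L] [Algebra K L] :
    Function.Injective (inc K L) := by
  intro x y h
  apply Units.ext
  exact (algebraMap K L).injective (congrArg Units.val h)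

theorem kuma_inj (i j : ℕ) (hi : i < p) (hj : j < p) (h : H.σ ^ i = H.σ ^ j) : i = j := by
  have h1 : (H.σ ^ i) (H.γ : L) = (H.σ ^ j) (H.γ : L) := by rw [h]
  rw [kum_pow hp hζ H, kum_pow hp hζ H] at h1
  have h2 := (algebraMap K L).injective (mul_right_cancel₀ H.γ.ne_zero h1)
  exact hζ.pow_inj hi hj h2

theorem kum_norm (x : Lˣ) : inc K L (Nm K L x) = ∏ i ∈ Finset.range p, au (H.σ ^ i) x := by
  classical
  have hfd : FiniteDimensional K L := kuma_fd hp H
  have hg : IsGalois K L := kum_galois hp hζ H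
  apply Units.ext
  have h1 : ((inc K L (Nm K L x) : Lˣ) : L) = algebraMap K L (Algebra.norm K (x : L)) := rfl
  rw [h1, Algebra.norm_eq_prod_automorphisms, Units.coe_prod]
  symm
  refine Finset.prod_bij (fun i _ => H.σ ^ i) (fun _ _ => Finset.mem_univ _) ?_ ?_ ?_
  · intro i hi j hj h
    exact kuma_inj hp hζ H i j (Finset.mem_range.1 hi) (Finset.mem_range.1 hj) h
  · intro s _
    obtain ⟨i, hi, hs⟩ := kum_gen hp hζ H s
    exact ⟨i, Finset.mem_range.2 hi, hs.symm⟩
  · intro i _
    rfl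

theorem kum_norm_inc (x : Kˣ) : Nm K L (inc K L x) = x ^ p := by
  have hfd : FiniteDimensional K L := kuma_fd hp H
  apply Units.ext
  have h1 : ((Nm K L (inc K L x) : Kˣ) : K) = Algebra.norm K (algebraMap K L (x : K)) := rfl
  rw [h1, Algebra.norm_algebraMap, H.deg]
  rfl

theorem kum_norm_γ (hp2 : MOne p K) : ∃ r : Kˣ, r ^ (2 * p) = 1 ∧ Nm K L H.γ = c * r ^ p := by
  obtain ⟨r, hr, hr1⟩ := mone_sum hp hp2 hζ
  refine ⟨r, hr, ?_⟩
  apply kuma_inc_inj K L
  rw [kum_norm hp hζ H]
  apply Units.ext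
  rw [Units.coe_prod]
  have h1 : ∀ i ∈ Finset.range p, ((au (H.σ ^ i) H.γ : Lˣ) : L) =
      algebraMap K L (ζ ^ i) * H.γ := fun i _ => kum_pow hp hζ H i
  rw [Finset.prod_congr rfl h1, Finset.prod_mul_distrib, Finset.prod_const, Finset.card_range,
    H.hγ, ← map_prod, Finset.prod_pow_eq_pow_sum, hr1, mul_comm c]
  exact (map_mul (algebraMap K L) _ _).symm

theorem kum_norm_σ (x : Lˣ) : Nm K L (au H.σ x) = Nm K L x := by
  classical
  have hfd : FiniteDimensional K L := kuma_fd hp H
  have hg : IsGalois K L := kum_galois hp hζ H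
  apply kuma_inc_inj K L
  apply Units.ext
  have h1 : ∀ x : Lˣ, ((inc K L (Nm K L x) : Lˣ) : L) = algebraMap K L (Algebra.norm K (x : L)) :=
    fun x => rfl
  rw [h1, h1, Algebra.norm_eq_prod_automorphisms, Algebra.norm_eq_prod_automorphisms]
  have h2 : ((au H.σ x : Lˣ) : L) = H.σ (x : L) := rfl
  rw [h2]
  exact Equiv.prod_comp (Equiv.mulRight H.σ) (fun s : L ≃ₐ[K] L => s (x : L))

theorem kum_h90 (x : Lˣ) (hx : Nm K L x = 1) : ∃ y : Lˣ, x = au H.σ y * y⁻¹ := by
  have hfd : FiniteDimensional K L := kuma_fd hp H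
  have hg : IsGalois K L := kum_galois hp hζ H
  have hgen : ∀ s : L ≃ₐ[K] L, s ∈ Subgroup.zpowers H.σ := by
    intro s
    obtain ⟨i, -, rfl⟩ := kum_gen hp hζ H s
    exact Subgroup.pow_mem _ (Subgroup.mem_zpowers _) i
  have hcyc : IsCyclic (L ≃ₐ[K] L) := ⟨⟨H.σ, hgen⟩⟩
  obtain ⟨y, hy⟩ := groupCohomology.exists_div_of_norm_eq_one hgen (x := (x : L))
    (congrArg Units.val hx)
  refine ⟨y⁻¹, ?_⟩
  apply Units.ext
  rw [map_inv, inv_inv, Units.val_mul, Units.val_inv_eq_inv_val, ← hy, div_eq_mul_inv, mul_comm]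
  rfl

end

theorem inc_injective (K L : Type) [Field K] [Field L] [Algebra K L] :
    Function.Injective (inc K L) := kuma_inc_inj K L

theorem kum_exists {K : Type} [Field K] [NumberField K] {p : ℕ} (hp : p.Prime) {ζ : K}
    (hζ : IsPrimitiveRoot ζ p) {c : Kˣ} (hc : ¬ IsPow p c) :
    ∃ (L : Type) (_ : Field L) (_ : NumberField L) (_ : Algebra K L), Nonempty (Kum p K ζ c L) := by
  classical
  have hp0 : NeZero p := ⟨hp.ne_zero⟩
  have hirr : Irreducible (Polynomial.X ^ p - Polynomial.C (c : K)) := by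
    refine X_pow_sub_C_irreducible_of_prime hp fun b hb => ?_
    have hb0 : b ≠ 0 := by
      rintro rfl
      rw [zero_pow hp.ne_zero] at hb
      exact c.ne_zero hb.symm
    exact hc ⟨Units.mk0 b hb0, Units.ext hb⟩
  let L := (Polynomial.X ^ p - Polynomial.C (c : K)).SplittingField
  have hprim : (primitiveRoots p K).Nonempty := ⟨ζ, (mem_primitiveRoots hp.pos).2 hζ⟩
  have hfd : FiniteDimensional K L :=
    Polynomial.IsSplittingField.finiteDimensional L (Polynomial.X ^ p - Polynomial.C (c : K))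
  have hL : NumberField L := NumberField.of_module_finite K L
  have hdeg : Module.finrank K L = p := finrank_of_isSplittingField_X_pow_sub_C hprim hirr L
  have hγ : (rootOfSplitsXPowSubC hp.pos (c : K) L) ^ p = algebraMap K L (c : K) :=
    rootOfSplitsXPowSubC_pow (c : K) L
  have hγ0 : rootOfSplitsXPowSubC hp.pos (c : K) L ≠ 0 := by
    intro h0
    rw [h0, zero_pow hp.ne_zero] at hγ
    have h1 : algebraMap K L (c : K) = algebraMap K L 0 := by rw [map_zero]; exact hγ.symm
    exact c.ne_zero ((algebraMap K L).injective h1)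
  refine ⟨L, inferInstance, hL, inferInstance, ⟨{
    γ := Units.mk0 _ hγ0
    σ := (autEquivZmod hirr L hζ).symm (Multiplicative.ofAdd (1 : ZMod p))
    hγ := hγ
    hσ := ?_
    deg := hdeg }⟩⟩
  have h1 := autEquivZmod_symm_apply_natCast hirr L hγ hζ 1
  rw [Nat.cast_one, pow_one, Algebra.smul_def] at h1
  exact h1

end H63.MA
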