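import Pool.Agent.H38.BG.TFrob
import Pool.Agent.H63.MA.GSym
import Pool.Agent.H63.MA.KumA

/-!
# MA-GHEIS: a trivial sum of cup products has trivial tame symbols

`b_eq`: for `ord v π = 1`: `B v c x = lgv c * ord x - ord c * lgv x` (as in `RMkB.B_eq`: write `c = π^m c₀`, `x = π^n x₀`, then the argument of `lg` in `B` is
`c₀^n x₀^{-m}`).

`tv_loc`: if `∑_j cu (A j) (B j)` is trivial then `∑_j B v (A j) (B j) = 0` for all `v ∤ p`.
Proof. Let `A j = π^{a_j} A'_j`, `C j = π^{c_j} C'_j` with `A'_j`, `C'_j` of order `0`. `cu π π` is trivial (`gheis_self`: `∏ τ^i w = π r^p` for `w^p = π`), so the sum of the `cu (π^{a_j}) (C'_j)` and `cu (A'_j) (C_j)` is trivial; replace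
the families by these ones. Then `φ` below maps the inertia group to elements of exponent `p`, and `H38.BG.tfrob` is used instead of `ld_frob`.
Let `l` be as in `Tv`. The generalised Heisenberg group `Hs` = triples `(x, y, z)`, `x y : ι → ZMod p`, `z : ZMod p`, with
`(x,y,z)(x',y',z') = (x+x', y+y', z+z'+∑ x_j y'_j)`, is finite (`(x,y,z)^n = (n x, n y, n z + n(n-1)/2 ∑ x_j y_j)`). `φ σ = ((kk (A j) σ)_j, (kk (B j) σ)_j, l σ)` is a homomorphism of finite type. Let `ord v π = 1`, `L : LD p ζ Ω v π`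
(`exists_LD`); `ld_frob` (with the family of all `A j`, `B j`, indexed by `Fin`) gives `F` such that `φ F`, `φ t` commute, so
`∑_j (kk (A j) F * kk (B j) t - kk (A j) t * kk (B j) F) = 0`, which is `∑_j (lgv (A j) * ord (B j) - ord (A j) * lgv (B j)) = ∑_j B v (A j) (B j)` by
`ld_kk_t` and `b_eq`.
-/

set_option autoImplicit false

open scoped NumberField
open IsDedekindDomain

noncomputable section

namespace H63.MA

variable {K : Type} [Field K] [NumberField K] {Ω : Type} [Field Ω] [Algebra K Ω] [IsAlgClosure K Ω]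
  {p : ℕ} {ζ : K}

/-- the generalised Heisenberg group -/
@[ext] structure GHeisG (p : ℕ) (ι : Type) where
  /-- first coordinate -/
  x : ι → ZMod p
  /-- second coordinate -/
  y : ι → ZMod p
  /-- central coordinate -/
  z : ZMod p

instance gheis_mul (p : ℕ) (ι : Type) [Fintype ι] : Mul (GHeisG p ι) :=
  ⟨fun g h => ⟨g.x + h.x, g.y + h.y, g.z + h.z + ∑ j, g.x j * h.y j⟩⟩

instance gheis_one (p : ℕ) (ι : Type) : One (GHeisG p ι) := ⟨⟨0, 0, 0⟩⟩

instance gheis_inv (p : ℕ) (ι : Type) [Fintype ι] : Inv (GHeisG p ι) :=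
  ⟨fun g => ⟨-g.x, -g.y, -g.z + ∑ j, g.x j * g.y j⟩⟩

theorem gheis_mul_x {p : ℕ} {ι : Type} [Fintype ι] (g h : GHeisG p ι) :
    (g * h).x = g.x + h.x := rfl

theorem gheis_mul_y {p : ℕ} {ι : Type} [Fintype ι] (g h : GHeisG p ι) :
    (g * h).y = g.y + h.y := rfl

theorem gheis_mul_z {p : ℕ} {ι : Type} [Fintype ι] (g h : GHeisG p ι) :
    (g * h).z = g.z + h.z + ∑ j, g.x j * h.y j := rfl

theorem gheis_one_x {p : ℕ} {ι : Type} : (1 : GHeisG p ι).x = 0 := rfl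

theorem gheis_one_y {p : ℕ} {ι : Type} : (1 : GHeisG p ι).y = 0 := rfl

theorem gheis_one_z {p : ℕ} {ι : Type} : (1 : GHeisG p ι).z = 0 := rfl

theorem gheis_inv_x {p : ℕ} {ι : Type} [Fintype ι] (g : GHeisG p ι) : (g⁻¹).x = -g.x := rfl

theorem gheis_inv_y {p : ℕ} {ι : Type} [Fintype ι] (g : GHeisG p ι) : (g⁻¹).y = -g.y := rfl

theorem gheis_inv_z {p : ℕ} {ι : Type} [Fintype ι] (g : GHeisG p ι) :
    (g⁻¹).z = -g.z + ∑ j, g.x j * g.y j := rfl

instance gheis_group (p : ℕ) (ι : Type) [Fintype ι] : Group (GHeisG p ι) where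
  mul_assoc g h k := by
    apply GHeisG.ext
    · rw [gheis_mul_x, gheis_mul_x, gheis_mul_x, gheis_mul_x, add_assoc]
    · rw [gheis_mul_y, gheis_mul_y, gheis_mul_y, gheis_mul_y, add_assoc]
    · rw [gheis_mul_z, gheis_mul_z, gheis_mul_z, gheis_mul_z, gheis_mul_x, gheis_mul_y]
      simp only [Pi.add_apply, add_mul, mul_add, Finset.sum_add_distrib]
      ring
  one_mul g := by
    apply GHeisG.ext
    · rw [gheis_mul_x, gheis_one_x, zero_add]
    · rw [gheis_mul_y, gheis_one_y, zero_add]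
    · rw [gheis_mul_z, gheis_one_z, gheis_one_x]
      simp
  mul_one g := by
    apply GHeisG.ext
    · rw [gheis_mul_x, gheis_one_x, add_zero]
    · rw [gheis_mul_y, gheis_one_y, add_zero]
    · rw [gheis_mul_z, gheis_one_z, gheis_one_y]
      simp
  inv_mul_cancel g := by
    apply GHeisG.ext
    · rw [gheis_mul_x, gheis_inv_x, gheis_one_x, neg_add_cancel]
    · rw [gheis_mul_y, gheis_inv_y, gheis_one_y, neg_add_cancel]
    · rw [gheis_mul_z, gheis_inv_z, gheis_inv_x, gheis_one_z]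
      simp only [Pi.neg_apply, neg_mul, Finset.sum_neg_distrib]
      ring

theorem gheis_pow {p : ℕ} {ι : Type} [Fintype ι] (g : GHeisG p ι) (n : ℕ) :
    g ^ n = ⟨n • g.x, n • g.y, n * g.z + (n.choose 2 : ℕ) * ∑ j, g.x j * g.y j⟩ := by
  induction n with
  | zero =>
    rw [pow_zero]
    apply GHeisG.ext
    · exact (zero_nsmul g.x).symm
    · exact (zero_nsmul g.y).symm
    · rw [gheis_one_z]
      simp
  | succ n ih =>
    rw [pow_succ, ih]
    apply GHeisG.ext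
    · exact (succ_nsmul g.x n).symm
    · exact (succ_nsmul g.y n).symm
    · rw [gheis_mul_z]
      have h1 : ∑ j, (n • g.x) j * g.y j = n * ∑ j, g.x j * g.y j := by
        rw [Finset.mul_sum]
        refine Finset.sum_congr rfl fun j _ => ?_
        rw [Pi.smul_apply, nsmul_eq_mul, mul_assoc]
      have h2 : (n + 1).choose 2 = n + n.choose 2 := by
        rw [Nat.choose_succ_succ' n 1, Nat.choose_one_right]
      have h3 : (((n + 1).choose 2 : ℕ) : ZMod p) = n + (n.choose 2 : ℕ) := by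
        rw [h2]
        push_cast
        ring
      simp only [h1, h3]
      push_cast
      ring

theorem gheis_finite {p : ℕ} [NeZero p] {ι : Type} [Fintype ι] : Finite (GHeisG p ι) := by
  let f : GHeisG p ι → (ι → ZMod p) × (ι → ZMod p) × ZMod p := fun g => (g.x, g.y, g.z)
  apply Finite.of_injective f
  intro g h hgh
  have h1 := congrArg Prod.fst hgh
  have h2 := congrArg (fun w => w.2.1) hgh
  have h3 := congrArg (fun w => w.2.2) hgh
  exact GHeisG.ext h1 h2 h3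

theorem gheis_exp {p : ℕ} {ι : Type} [Fintype ι] (g : GHeisG p ι)
    (h : ∑ j, g.x j * g.y j = 0) : g ^ p = 1 := by
  rw [gheis_pow]
  apply GHeisG.ext
  · rw [gheis_one_x]
    funext j
    simp
  · rw [gheis_one_y]
    funext j
    simp
  · rw [gheis_one_z, h]
    simp

/-- the homomorphism to the Heisenberg group -/
def gheis_hom (ζ : K) {ι : Type} [Fintype ι] (A C : ι → Kˣ) (l : Gal(Ω/K) → ZMod p)
    (hl : ∀ σ τ, l (σ * τ) = l σ + l τ + ∑ j, cu p ζ (A j) (C j) σ τ) :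
    Gal(Ω/K) →* GHeisG p ι :=
  MonoidHom.mk' (fun σ => ⟨fun j => kk p ζ (A j) σ, fun j => kk p ζ (C j) σ, l σ⟩) (by
    intro σ τ
    apply GHeisG.ext
    · funext j
      rw [gheis_mul_x, Pi.add_apply]
      exact kk_mul _ _ _
    · funext j
      rw [gheis_mul_y, Pi.add_apply]
      exact kk_mul _ _ _
    · rw [gheis_mul_z]
      exact hl σ τ)

theorem gheis_hom_ft (hp : p.Prime) (hζ : IsPrimitiveRoot ζ p) {ι : Type} [Fintype ι]
    (A C : ι → Kˣ) (l : Gal(Ω/K) → ZMod p)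
    (hl : ∀ σ τ, l (σ * τ) = l σ + l τ + ∑ j, cu p ζ (A j) (C j) σ τ) (hL : Lev l) :
    H38.ML.FT (gheis_hom ζ A C l hl) := by
  obtain ⟨E, hE, hE'⟩ := hL
  have hA := fun j => (kc_is (Ω := Ω) hp hζ (A j)).1
  have hC := fun j => (kc_is (Ω := Ω) hp hζ (C j)).1
  choose EA hEA hEA' using hA
  choose EC hEC hEC' using hC
  have hl1 : l 1 = 0 := by
    have h1 := hl 1 1
    have h2 : ∑ j, cu p ζ (A j) (C j) (1 : Gal(Ω/K)) 1 = 0 := by
      refine Finset.sum_eq_zero fun j _ => ?_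
      unfold cu
      rw [kk_one, zero_mul]
    rw [h2, mul_one, add_zero] at h1
    exact (left_eq_add.1 h1)
  refine ⟨E ⊔ ((⨆ j, EA j) ⊔ (⨆ j, EC j)), ?_, ?_⟩
  · have h1 : FiniteDimensional K ↥(⨆ j, EA j) :=
      IntermediateField.finiteDimensional_iSup_of_finite
    have h2 : FiniteDimensional K ↥(⨆ j, EC j) :=
      IntermediateField.finiteDimensional_iSup_of_finite
    have h3 : FiniteDimensional K ↥((⨆ j, EA j) ⊔ (⨆ j, EC j)) :=
      IntermediateField.finiteDimensional_sup _ _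
    exact IntermediateField.finiteDimensional_sup _ _
  · intro u hu
    have hu1 : u ∈ E.fixingSubgroup :=
      IntermediateField.fixingSubgroup_antitone le_sup_left hu
    have huA : ∀ j, u ∈ (EA j).fixingSubgroup := fun j =>
      IntermediateField.fixingSubgroup_antitone
        ((le_iSup EA j).trans (le_sup_left.trans le_sup_right)) hu
    have huC : ∀ j, u ∈ (EC j).fixingSubgroup := fun j =>
      IntermediateField.fixingSubgroup_antitone
        ((le_iSup EC j).trans (le_sup_right.trans le_sup_right)) hu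
    rw [MonoidHom.mem_ker]
    apply GHeisG.ext
    · funext j
      have h1 := hEA' j (huA j)
      rw [MonoidHom.mem_ker] at h1
      change kk p ζ (A j) u = 0
      unfold kk
      rw [h1]
      rfl
    · funext j
      have h1 := hEC' j (huC j)
      rw [MonoidHom.mem_ker] at h1
      change kk p ζ (C j) u = 0
      unfold kk
      rw [h1]
      rfl
    · change l u = 0
      have h1 := hE' 1 u hu1
      rw [one_mul] at h1
      rw [h1, hl1]

theorem b_eq {K : Type} [Field K] [NumberField K] {p : ℕ} {ζ : K} (hp : p.Prime)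
    (hζ : IsPrimitiveRoot ζ p) {v : Pl K} (hv : ¬ Above p v) {π : Kˣ} (hπ : ord v π = 1)
    (c x : Kˣ) : B p ζ v c x = lgv p ζ v π c * ord v x - ord v c * lgv p ζ v π x := by
  have hu : ∀ y : Kˣ, ord v (y * π ^ (-ord v y)) = 0 := by
    intro y
    rw [ord_mul, ord_zpow, hπ]
    ring
  unfold B lgv
  have hc := hu c
  have hx := hu x
  have h1 : c ^ ord v x * (x ^ ord v c)⁻¹ =
      (c * π ^ (-ord v c)) ^ ord v x * (x * π ^ (-ord v x)) ^ (-ord v c) := by
    rw [mul_zpow, mul_zpow, ← zpow_mul, ← zpow_mul, mul_mul_mul_comm, ← zpow_add,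
      ← zpow_neg]
    have h2 : -ord v c * ord v x + -ord v x * -ord v c = 0 := by ring
    rw [h2, zpow_zero, mul_one]
  have hc' : ord v ((c * π ^ (-ord v c)) ^ ord v x) = 0 := by
    rw [ord_zpow, hc, mul_zero]
  have hx' : ord v ((x * π ^ (-ord v x)) ^ (-ord v c)) = 0 := by
    rw [ord_zpow, hx, mul_zero]
  rw [h1, lg_mul hp hζ hv hc' hx', lg_zpow hp hζ hv hc, lg_zpow hp hζ hv hx]
  push_cast
  ring

/-- the cup product of `π` with itself is trivial -/
theorem gheis_self (hp : p.Prime) (hp2 : MOne p K) (hζ : IsPrimitiveRoot ζ p) (π : Kˣ)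
    (t : Gal(Ω/K)) (ht : kk p ζ π t = 1) : Tv (fun σ τ : Gal(Ω/K) => cu p ζ π π σ τ) := by
  have hne : NeZero p := ⟨hp.ne_zero⟩
  have hF : Fact (1 < p) := ⟨hp.one_lt⟩
  obtain ⟨r, -, hr⟩ := mone_sum hp hp2 hζ
  obtain ⟨w, hw⟩ := gkum_root (K := K) (Ω := Ω) hp π
  have hw0 : w ≠ 0 := by
    rintro rfl
    rw [zero_pow hp.ne_zero] at hw
    exact π.ne_zero ((map_eq_zero _).1 hw.symm)
  have hact : ∀ σ : Gal(Ω/K), σ w = algebraMap K Ω ζ ^ (kk p ζ π σ).val * w :=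
    kk_root hp hζ π w hw
  have htw : t w = algebraMap K Ω ζ * w := by
    rw [hact, ht, ZMod.val_one, pow_one]
  have hpow : ∀ i : ℕ, (t ^ i) w = algebraMap K Ω ζ ^ i * w := by
    intro i
    induction i with
    | zero => rw [pow_zero, pow_zero, one_mul]; rfl
    | succ i ih =>
      rw [pow_succ, AlgEquiv.mul_apply, htw, map_mul, AlgEquiv.commutes, ih, pow_succ]
      ring
  have h := sym1 hp hζ π (π * r ^ p) t w ht hw0 (fun u hu => by
    rw [hact, hu, ZMod.val_zero, pow_zero, one_mul]) (by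
    simp only [hpow]
    rw [Finset.prod_mul_distrib, Finset.prod_const, Finset.card_range, hw,
      Finset.prod_pow_eq_pow_sum, ← map_pow, hr, ← map_mul, mul_comm, ← Units.val_mul])
  have e : (fun σ τ : Gal(Ω/K) => cu p ζ π (π * r ^ p) σ τ) = fun σ τ => cu p ζ π π σ τ := by
    funext σ τ
    unfold cu
    rw [kk_mul_arg hp hζ, (kk_eq_zero_iff (Ω := Ω) hp hζ (r ^ p)).2 ⟨r, rfl⟩ τ, add_zero]
  rwa [e] at h

theorem tv_loc (Ω : Type) [Field Ω] [Algebra K Ω] [IsAlgClosure K Ω] (hp : p.Prime) (hp2 : MOne p K)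
    (hζ : IsPrimitiveRoot ζ p) {ι : Type} [Fintype ι] (A C : ι → Kˣ)
    (h : Tv (fun σ τ : Gal(Ω/K) => ∑ j, cu p ζ (A j) (C j) σ τ)) (v : Pl K) (hv : ¬ Above p v) :
    ∑ j, B p ζ v (A j) (C j) = 0 := by
  classical
  have hne : NeZero p := ⟨hp.ne_zero⟩
  obtain ⟨π, hπ⟩ := exists_unif v
  obtain ⟨L⟩ := exists_LD Ω hp hζ hv hπ
  obtain ⟨A', hA'⟩ : ∃ A' : ι → Kˣ, ∀ j, A' j = A j * π ^ (-ord v (A j)) :=
    ⟨fun j => A j * π ^ (-ord v (A j)), fun _ => rfl⟩
  obtain ⟨C', hC'⟩ : ∃ C' : ι → Kˣ, ∀ j, C' j = C j * π ^ (-ord v (C j)) :=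
    ⟨fun j => C j * π ^ (-ord v (C j)), fun _ => rfl⟩
  have hA0 : ∀ j, ord v (A' j) = 0 := fun j => by
    rw [hA', ord_mul, ord_zpow, hπ]
    ring
  have hC0 : ∀ j, ord v (C' j) = 0 := fun j => by
    rw [hC', ord_mul, ord_zpow, hπ]
    ring
  obtain ⟨A₂, hA₂, hA₂'⟩ : ∃ A₂ : ι ⊕ ι → Kˣ, (∀ j, A₂ (Sum.inl j) = π ^ ord v (A j)) ∧
      ∀ j, A₂ (Sum.inr j) = A' j :=
    ⟨Sum.elim (fun j => π ^ ord v (A j)) A', fun _ => rfl, fun _ => rfl⟩
  obtain ⟨C₂, hC₂, hC₂'⟩ : ∃ C₂ : ι ⊕ ι → Kˣ, (∀ j, C₂ (Sum.inl j) = C' j) ∧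
      ∀ j, C₂ (Sum.inr j) = C j := ⟨Sum.elim C' C, fun _ => rfl, fun _ => rfl⟩
  have hkA : ∀ j (σ : Gal(Ω/K)), kk p ζ (A j) σ = ord v (A j) * kk p ζ π σ + kk p ζ (A' j) σ := by
    intro j σ
    rw [hA', kk_mul_arg hp hζ, kk_zpow_arg hp hζ]
    push_cast
    ring
  have hkC : ∀ j (σ : Gal(Ω/K)), kk p ζ (C j) σ = ord v (C j) * kk p ζ π σ + kk p ζ (C' j) σ := by
    intro j σ
    rw [hC', kk_mul_arg hp hζ, kk_zpow_arg hp hζ]
    push_cast
    ring
  have hself := gheis_self hp hp2 hζ π L.t (by rw [ld_kk_t hp hζ hv hπ L, hπ, Int.cast_one])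
  have hT : Tv (fun σ τ : Gal(Ω/K) => ∑ j, cu p ζ (A₂ j) (C₂ j) σ τ) := by
    have h1 := tv_add _ _ h (tv_smul (-∑ j, (ord v (A j) : ZMod p) * ord v (C j)) _ hself)
    have e : (fun σ τ : Gal(Ω/K) => ∑ j, cu p ζ (A j) (C j) σ τ +
        -(∑ j, (ord v (A j) : ZMod p) * ord v (C j)) * cu p ζ π π σ τ) =
        fun σ τ => ∑ j, cu p ζ (A₂ j) (C₂ j) σ τ := by
      funext σ τ
      rw [Fintype.sum_sum_type, ← Finset.sum_add_distrib, neg_mul, Finset.sum_mul,
        ← sub_eq_add_neg, ← Finset.sum_sub_distrib]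
      refine Finset.sum_congr rfl fun j _ => ?_
      unfold cu
      rw [hA₂, hA₂', hC₂, hC₂', kk_zpow_arg hp hζ, hkA, hkC]
      ring
    rw [← e]
    exact h1
  obtain ⟨l, hL, hl⟩ := hT
  have hfin : Finite (GHeisG p (ι ⊕ ι)) := gheis_finite
  let e : (ι ⊕ ι) ⊕ (ι ⊕ ι) ≃ Fin (Fintype.card ((ι ⊕ ι) ⊕ (ι ⊕ ι))) := Fintype.equivFin _
  obtain ⟨F, -, hcomm, hF⟩ := H38.BG.tfrob hp hζ hv hπ L
    (gheis_hom ζ A₂ C₂ l hl) (gheis_hom_ft hp hζ A₂ C₂ l hl hL) (by
      intro τ hτ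
      apply gheis_exp
      change ∑ j, kk p ζ (A₂ j) τ * kk p ζ (C₂ j) τ = 0
      refine Finset.sum_eq_zero fun j _ => ?_
      rw [ld_kk hp hζ hv hπ L τ hτ (A₂ j), ld_kk hp hζ hv hπ L τ hτ (C₂ j)]
      rcases j with j | j
      · rw [hC₂, hC0, Int.cast_zero]
        ring
      · rw [hA₂', hA0, Int.cast_zero]
        ring)
    (fun k => Sum.elim A₂ C₂ (e.symm k))
  have hFA : ∀ j, kk p ζ (A₂ j) F = lgv p ζ v π (A₂ j) := by
    intro j
    have h1 := hF (e (Sum.inl j))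
    rwa [Equiv.symm_apply_apply] at h1
  have hFC : ∀ j, kk p ζ (C₂ j) F = lgv p ζ v π (C₂ j) := by
    intro j
    have h1 := hF (e (Sum.inr j))
    rwa [Equiv.symm_apply_apply] at h1
  have h2 : l F + l L.t + ∑ j, kk p ζ (A₂ j) F * kk p ζ (C₂ j) L.t =
      l L.t + l F + ∑ j, kk p ζ (A₂ j) L.t * kk p ζ (C₂ j) F := congrArg GHeisG.z hcomm
  have h3 : ∑ j, kk p ζ (A₂ j) F * kk p ζ (C₂ j) L.t =
      ∑ j, kk p ζ (A₂ j) L.t * kk p ζ (C₂ j) F := by
    rw [add_comm (l L.t) (l F)] at h2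
    exact add_left_cancel h2
  have h5 : ∑ j, B p ζ v (A₂ j) (C₂ j) = 0 := by
    have h4 : ∑ j, B p ζ v (A₂ j) (C₂ j) =
        ∑ j, (kk p ζ (A₂ j) F * kk p ζ (C₂ j) L.t - kk p ζ (A₂ j) L.t * kk p ζ (C₂ j) F) := by
      refine Finset.sum_congr rfl fun j _ => ?_
      rw [b_eq hp hζ hv hπ, hFA, hFC, ld_kk_t hp hζ hv hπ L, ld_kk_t hp hζ hv hπ L]
    rw [h4, Finset.sum_sub_distrib, h3, sub_self]
  have hlA : ∀ j, lgv p ζ v π (A' j) = lgv p ζ v π (A j) := by
    intro j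
    unfold lgv
    rw [hA0, neg_zero, zpow_zero, mul_one, hA']
  have hlC : ∀ j, lgv p ζ v π (C' j) = lgv p ζ v π (C j) := by
    intro j
    unfold lgv
    rw [hC0, neg_zero, zpow_zero, mul_one, hC']
  rw [← h5, Fintype.sum_sum_type, ← Finset.sum_add_distrib]
  refine Finset.sum_congr rfl fun j _ => ?_
  rw [b_eq hp hζ hv hπ, b_eq hp hζ hv hπ, b_eq hp hζ hv hπ, hA₂, hA₂', hC₂, hC₂', hlA, hlC, hA0,
    hC0, ord_zpow, hπ, Int.cast_zero]
  push_cast
  ring

end H63.MA
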