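import Pool.Agent.H63.MA.KumA

/-!
# MA-KUMB: primes of `L` over primes of `K`, `L/K` cyclic Kummer of degree `p`

`Over w v` means `w ∩ 𝓞 K = v`.
* `exists_below`, `below_unique`: `w.asIdeal.comap` is a nonzero prime (`Ideal.comap_ne_bot...`, `IsIntegral`).
* `exists_over`: lying over. `over_finite`: `w ∣ v 𝓞 L` (`Ideal.primesOver_finite`).
* `ord_inc`: `ord w (x) = e * ord v x` for `x ∈ K`, `e = e(w|v) ≥ 1`: Mathlib `IsDedekindDomain.HeightOneSpectrum.valuation_comap`
  (or `intValuation_comap`), applied to `HeightOneSpectrum`s.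
* `over_conj`: the Galois group acts transitively on the primes over `v` (Mathlib: `Ideal.exists_smul_eq_of_under_eq`,
  `IsGaloisGroup`, or `Ideal.exists_map_eq_of_isGalois`) and all automorphisms are powers of `σ`: for `w w'` over `v` there is
  `i < p` with `w' = σ^i w`, expressed by `ord w' y = ord w (σ^j y)` for a suitable `j < p` and all `y` (the valuation of the
  image prime is the transported valuation: characterise `v.valuation` by `intValuation_le_pow_iff_mem` /
  multiplicity of the prime in `(y)`).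
* `card_over`, `efg`: `g e f = p` (`Ideal.ncard_primesOver_mul_ramificationIdxIn_mul_inertiaDegIn` or
  `Ideal.sum_ramification_inertia`), so the number `g` of primes over `v` is `1` or `p`; if `g = p` then `e = 1` and the residue
  fields agree.
* `res_field`: if `f = 1` (that is `e = p` or `g = p`) every `z ∈ L` with `ord w z = 0` is congruent modulo `w` to an element
  of `𝓞 K` outside `v` (`𝓞 K / v → 𝓞 L / w` is bijective; write `z = a / s` with `a s ∈ 𝓞 L ∖ w`).
* `σ_of_unique`: if `w` is the only prime over `v` it is stable under `σ`.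
-/

set_option autoImplicit false

set_option linter.unusedSectionVars false

open scoped NumberField
open IsDedekindDomain

noncomputable section

namespace H63.MA

section gen

variable {K : Type} [Field K] [NumberField K] {L : Type} [Field L] [NumberField L] [Algebra K L]

private theorem kumb_liesOver {w : Pl L} {v : Pl K} (h : Over w v) :
    w.asIdeal.LiesOver v.asIdeal := ⟨h.symm⟩

theorem exists_below (w : Pl L) : ∃ v : Pl K, Over w v := ⟨w.under (𝓞 K), rfl⟩

theorem below_unique {w : Pl L} {v v' : Pl K} (h : Over w v) (h' : Over w v') : v = v' :=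
  HeightOneSpectrum.ext (h.symm.trans h')

theorem exists_over (v : Pl K) : ∃ w : Pl L, Over w v := by
  obtain ⟨Q, hQ, hQv⟩ := Ideal.exists_maximal_ideal_liesOver_of_isIntegral (S := 𝓞 L) v.asIdeal
  exact ⟨⟨Q, hQ.isPrime, Ideal.ne_bot_of_liesOver_of_ne_bot v.ne_bot Q⟩, hQv.over.symm⟩

private theorem kumb_image (v : Pl K) :
    (fun w : Pl L => w.asIdeal) '' {w : Pl L | Over w v} = v.asIdeal.primesOver (𝓞 L) := by
  ext Q
  constructor
  · rintro ⟨w, hw, rfl⟩
    exact ⟨w.isPrime, kumb_liesOver hw⟩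
  · rintro ⟨h1, h2⟩
    exact ⟨⟨Q, h1, Ideal.ne_bot_of_liesOver_of_ne_bot v.ne_bot Q⟩, h2.over.symm, rfl⟩

private theorem kumb_inj : Function.Injective (fun w : Pl L => w.asIdeal) :=
  fun _ _ h => HeightOneSpectrum.ext h

theorem over_finite (v : Pl K) : {w : Pl L | Over w v}.Finite := by
  have h1 : (v.asIdeal.primesOver (𝓞 L)).Finite := IsDedekindDomain.primesOver_finite v.asIdeal (𝓞 L)
  rw [← kumb_image v] at h1
  exact h1.of_finite_image (kumb_inj.injOn)

private theorem kumb_ncard (v : Pl K) :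
    {w : Pl L | Over w v}.ncard = (v.asIdeal.primesOver (𝓞 L)).ncard := by
  rw [← kumb_image v, Set.ncard_image_of_injective _ kumb_inj]

private theorem kumb_ord {w : Pl L} {v : Pl K} (h : Over w v) (x : Kˣ) :
    ord w (inc K L x) = (v.asIdeal.ramificationIdx' w.asIdeal : ℤ) * ord v x := by
  have := kumb_liesOver h
  have h1 := HeightOneSpectrum.valuation_liesOver L v w (x : K)
  unfold ord inc
  rw [Units.coe_map, MonoidHom.coe_coe, ← h1, WithZero.log_pow]
  simp

private theorem kumb_e_ne {w : Pl L} {v : Pl K} (h : Over w v) :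
    v.asIdeal.ramificationIdx' w.asIdeal ≠ 0 := by
  have := kumb_liesOver h
  exact Ideal.IsDedekindDomain.ramificationIdx'_ne_zero_of_liesOver w.asIdeal v.ne_bot

theorem ord_inc {w : Pl L} {v : Pl K} (h : Over w v) :
    ∃ e : ℕ, 1 ≤ e ∧ ∀ x : Kˣ, ord w (inc K L x) = e * ord v x :=
  ⟨_, Nat.one_le_iff_ne_zero.mpr (kumb_e_ne h), kumb_ord h⟩

theorem above_over {w : Pl L} {v : Pl K} (h : Over w v) (p : ℕ) : Above p w ↔ Above p v := by
  unfold Above
  rw [← h, Ideal.mem_comap, map_natCast]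

private theorem kumb_lt_one {w : Pl L} {v : Pl K} (h : Over w v) (x : K) :
    w.valuation L (algebraMap K L x) < 1 ↔ v.valuation K x < 1 := by
  have := kumb_liesOver h
  rw [← HeightOneSpectrum.valuation_liesOver L v w x]
  constructor
  · intro h1
    by_contra h2
    rw [not_lt] at h2
    exact absurd h1 (not_lt.mpr (one_le_pow₀ h2))
  · intro h1
    exact pow_lt_one₀ zero_le h1 (kumb_e_ne h)

private theorem kumb_eq_one {w : Pl L} {v : Pl K} (h : Over w v) (x : K) :
    w.valuation L (algebraMap K L x) = 1 → v.valuation K x = 1 := by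
  have := kumb_liesOver h
  rw [← HeightOneSpectrum.valuation_liesOver L v w x]
  intro h1
  rcases lt_trichotomy (v.valuation K x) 1 with h2 | h2 | h2
  · exact absurd h1 (pow_lt_one₀ zero_le h2 (kumb_e_ne h)).ne
  · exact h2
  · exact absurd h1 (one_lt_pow₀ h2 (kumb_e_ne h)).ne'

/-- congruences transfer: for `x ∈ K`, `x ≡ 1` modulo `w` iff modulo `v` -/
theorem one1_over {w : Pl L} {v : Pl K} (h : Over w v) (x : Kˣ) :
    One1 w (inc K L x) ↔ One1 v x := by
  unfold One1 inc
  rw [Units.coe_map, MonoidHom.coe_coe]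
  have h1 := kumb_lt_one h ((x : K) - 1)
  rwa [map_sub, map_one] at h1

private theorem kumb_nm {w : Pl L} {v : Pl K} (h : Over w v) :
    nm w = nm v ^ w.asIdeal.inertiaDeg (𝓞 K) := by
  have := kumb_liesOver h
  exact (Ideal.absNorm_pow_inertiaDeg v.asIdeal w.asIdeal).symm

/-- the norm of `w` is a power of the norm of `v` -/
theorem nm_over {w : Pl L} {v : Pl K} (h : Over w v) : ∃ f : ℕ, 1 ≤ f ∧ nm w = nm v ^ f :=
  ⟨_, Ideal.inertiaDeg_pos w.asIdeal (𝓞 K), kumb_nm h⟩

/-- residue degree one: every `w`-unit of `L` is congruent to a `v`-unit of `K` -/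
private theorem kumb_res {w : Pl L} {v : Pl K} (h : Over w v)
    (hf : w.asIdeal.inertiaDeg (𝓞 K) = 1) (z : Lˣ) (hz : ord w z = 0) :
    ∃ r : Kˣ, ord v r = 0 ∧ One1 w (z * (inc K L r)⁻¹) := by
  have := kumb_liesOver h
  have hz1 : w.valuation L (z : L) = 1 := (ord_eq_zero_iff w z).mp hz
  obtain ⟨a, ha⟩ := w.exists_valuation_sub_lt_of_integer (K := L) (x := (z : L)) hz1.le 1
  rw [Units.val_one] at ha
  -- the residue field map is surjective
  have : v.asIdeal.IsMaximal := v.isMaximal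
  have : w.asIdeal.IsMaximal := w.isMaximal
  let : Field (𝓞 K ⧸ v.asIdeal) := Ideal.Quotient.field v.asIdeal
  let : Field (𝓞 L ⧸ w.asIdeal) := Ideal.Quotient.field w.asIdeal
  have hfr : Module.finrank (𝓞 K ⧸ v.asIdeal) (𝓞 L ⧸ w.asIdeal) = 1 := by
    rw [← Ideal.inertiaDeg_eq_of_isMaximal v.asIdeal w.asIdeal, hf]
  have hsurj : Function.Surjective (algebraMap (𝓞 K ⧸ v.asIdeal) (𝓞 L ⧸ w.asIdeal)) :=
    (Algebra.finrank_eq_one_iff_bijective_algebraMap.mp hfr).2
  obtain ⟨t', ht'⟩ := hsurj (Ideal.Quotient.mk w.asIdeal a)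
  obtain ⟨t, rfl⟩ := Ideal.Quotient.mk_surjective t'
  have ht : a - algebraMap (𝓞 K) (𝓞 L) t ∈ w.asIdeal := by
    rw [← Ideal.Quotient.eq, ← ht']
    rfl
  have h2 : w.valuation L (algebraMap (𝓞 L) L (a - algebraMap (𝓞 K) (𝓞 L) t)) < 1 :=
    (w.valuation_lt_one_iff_mem _).mpr ht
  have h3 : algebraMap (𝓞 L) L (algebraMap (𝓞 K) (𝓞 L) t) =
      algebraMap K L (algebraMap (𝓞 K) K t) := by
    rw [← IsScalarTower.algebraMap_apply (𝓞 K) (𝓞 L) L,
      ← IsScalarTower.algebraMap_apply (𝓞 K) K L]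
  rw [map_sub, h3] at h2
  set tK : K := algebraMap (𝓞 K) K t with htK
  -- z is close to t
  have h4 : w.valuation L ((z : L) - algebraMap K L tK) < 1 := by
    have e : (z : L) - algebraMap K L tK =
        -(algebraMap (𝓞 L) L a - z) + (algebraMap (𝓞 L) L a - algebraMap K L tK) := by ring
    rw [e]
    apply Valuation.map_add_lt _ _ h2
    rwa [Valuation.map_neg]
  have h5 : w.valuation L (algebraMap K L tK) = 1 := by
    have e : algebraMap K L tK = (z : L) - ((z : L) - algebraMap K L tK) := by ring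
    rw [e, Valuation.map_sub_eq_of_lt_left _ (by rw [hz1]; exact h4), hz1]
  have h6 : v.valuation K tK = 1 := kumb_eq_one h tK h5
  have htK0 : tK ≠ 0 := by
    intro h0
    rw [h0, map_zero] at h6
    exact zero_ne_one h6
  refine ⟨Units.mk0 tK htK0, ?_, ?_⟩
  · rw [ord_eq_zero_iff]
    exact h6
  · unfold One1
    have e : (((z * (inc K L (Units.mk0 tK htK0))⁻¹ : Lˣ) : L)) - 1 =
        ((z : L) - algebraMap K L tK) * (algebraMap K L tK)⁻¹ := by
      have h7 : algebraMap K L tK ≠ 0 := by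
        intro h0
        rw [h0, map_zero] at h5
        exact zero_ne_one h5
      have h8 : ((inc K L (Units.mk0 tK htK0) : Lˣ) : L) = algebraMap K L tK := rfl
      rw [Units.val_mul, Units.val_inv_eq_inv_val, h8, sub_mul, mul_inv_cancel₀ h7]
    rw [e, map_mul, map_inv₀, h5, inv_one, mul_one]
    exact h4

end gen

section kum

variable {K : Type} [Field K] [NumberField K] {L : Type} [Field L] [NumberField L] [Algebra K L]
  {p : ℕ} (hp : p.Prime) {ζ : K} (hζ : IsPrimitiveRoot ζ p) {c : Kˣ} (H : Kum p K ζ c L)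

open scoped Pointwise in
private theorem kumb_int_smul (s : L ≃ₐ[K] L) {w w' : Pl L} (h : s • w.asIdeal = w'.asIdeal)
    (a : 𝓞 L) : w'.intValuation (s • a) = w.intValuation a := by
  have key : ∀ n : ℕ, w'.intValuation (s • a) ≤ WithZero.exp (-(n : ℤ)) ↔
      w.intValuation a ≤ WithZero.exp (-(n : ℤ)) := by
    intro n
    rw [HeightOneSpectrum.intValuation_le_pow_iff_mem, HeightOneSpectrum.intValuation_le_pow_iff_mem,
      ← h, ← smul_pow', Ideal.smul_mem_pointwise_smul_iff]
  rcases eq_or_ne a 0 with rfl | ha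
  · simp
  have hsa : s • a ≠ 0 := by
    rwa [Ne, smul_eq_zero_iff_eq]
  apply le_antisymm
  · rw [HeightOneSpectrum.intValuation_eq_exp_neg_multiplicity w ha, key,
      HeightOneSpectrum.intValuation_eq_exp_neg_multiplicity w ha]
  · rw [HeightOneSpectrum.intValuation_eq_exp_neg_multiplicity w' hsa, ← key,
      HeightOneSpectrum.intValuation_eq_exp_neg_multiplicity w' hsa]

open scoped Pointwise in
private theorem kumb_val_smul (s : L ≃ₐ[K] L) {w w' : Pl L} (h : s • w.asIdeal = w'.asIdeal)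
    (y : L) : w'.valuation L (s y) = w.valuation L y := by
  obtain ⟨a, b, hb, rfl⟩ := IsFractionRing.div_surjective (A := 𝓞 L) y
  have e : ∀ a : 𝓞 L, s (algebraMap (𝓞 L) L a) = algebraMap (𝓞 L) L (s • a) := fun a => rfl
  rw [map_div₀, map_div₀, map_div₀, e, e, HeightOneSpectrum.valuation_of_algebraMap,
    HeightOneSpectrum.valuation_of_algebraMap, HeightOneSpectrum.valuation_of_algebraMap,
    HeightOneSpectrum.valuation_of_algebraMap, kumb_int_smul s h, kumb_int_smul s h]

private theorem kumb_ord_smul (s : L ≃ₐ[K] L) {w w' : Pl L}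
    (h : ∀ y : L, w'.valuation L (s y) = w.valuation L y) (y : Lˣ) :
    ord w' (au s y) = ord w y := by
  unfold ord au
  rw [Units.coe_map]
  congr 2
  exact h y

include hp hζ H

open scoped Pointwise in
private theorem kumb_trans {v : Pl K} {w w' : Pl L} (h : Over w v) (h' : Over w' v) :
    ∃ s : L ≃ₐ[K] L, s • w.asIdeal = w'.asIdeal := by
  have := kumb_liesOver h
  have := kumb_liesOver h'
  have : IsGalois K L := kum_galois hp hζ H
  exact Ideal.exists_smul_eq_of_isGaloisGroup v.asIdeal w.asIdeal w'.asIdeal (L ≃ₐ[K] L)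

theorem over_conj {v : Pl K} {w w' : Pl L} (h : Over w v) (h' : Over w' v) :
    ∃ j < p, ∀ y : Lˣ, ord w' y = ord w (au (H.σ ^ j) y) := by
  obtain ⟨s, hs⟩ := kumb_trans hp hζ H h' h
  obtain ⟨j, hj, rfl⟩ := kum_gen hp hζ H s
  exact ⟨j, hj, fun y => (kumb_ord_smul (H.σ ^ j) (kumb_val_smul (H.σ ^ j) hs) y).symm⟩

private theorem kumb_fund (v : Pl K) {w : Pl L} (h : Over w v) :
    {w : Pl L | Over w v}.ncard *
      (v.asIdeal.ramificationIdx' w.asIdeal * w.asIdeal.inertiaDeg (𝓞 K)) = p := by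
  have := kumb_liesOver h
  have : IsGalois K L := kum_galois hp hζ H
  have h1 := Ideal.ncard_primesOver_mul_ramificationIdxIn_mul_inertiaDegIn v.asIdeal (𝓞 L)
    (L ≃ₐ[K] L)
  rw [Ideal.ramificationIdxIn_eq_ramificationIdx v.asIdeal w.asIdeal (L ≃ₐ[K] L),
    Ideal.inertiaDegIn_eq_inertiaDeg v.asIdeal w.asIdeal (L ≃ₐ[K] L),
    ← Ideal.ramificationIdx'_eq_ramificationIdx v.asIdeal w.asIdeal v.ne_bot,
    ← kumb_ncard v, IsGalois.card_aut_eq_finrank, H.deg] at h1
  exact h1

theorem card_over (v : Pl K) :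
    {w : Pl L | Over w v}.ncard = 1 ∨ {w : Pl L | Over w v}.ncard = p := by
  obtain ⟨w, hw⟩ := exists_over (L := L) v
  have h1 := kumb_fund hp hζ H v hw
  exact (Nat.dvd_prime hp).mp (Dvd.intro _ h1)

/-- `g = p`: then `e = f = 1` -/
theorem split_case {v : Pl K} (hg : {w : Pl L | Over w v}.ncard = p) {w : Pl L} (h : Over w v) :
    (∀ x : Kˣ, ord w (inc K L x) = ord v x) ∧ nm w = nm v ∧
      ∀ z : Lˣ, ord w z = 0 → ∃ r : Kˣ, ord v r = 0 ∧ One1 w (z * (inc K L r)⁻¹) := by
  have h1 := kumb_fund hp hζ H v h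
  rw [hg] at h1
  have h2 : v.asIdeal.ramificationIdx' w.asIdeal * w.asIdeal.inertiaDeg (𝓞 K) = 1 :=
    Nat.eq_of_mul_eq_mul_left hp.pos (by rw [h1, mul_one])
  have he := Nat.eq_one_of_mul_eq_one_right h2
  have hf := Nat.eq_one_of_mul_eq_one_left h2
  refine ⟨fun x => ?_, ?_, fun z hz => kumb_res h hf z hz⟩
  · rw [kumb_ord h, he]
    simp
  · rw [kumb_nm h, hf, pow_one]

/-- `g = 1`: either `e = p`, `f = 1` or `e = 1`, `f = p` -/
theorem nonsplit_case {v : Pl K} (hg : {w : Pl L | Over w v}.ncard = 1) {w : Pl L} (h : Over w v) :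
    ((∀ x : Kˣ, ord w (inc K L x) = p * ord v x) ∧ nm w = nm v ∧
      ∀ z : Lˣ, ord w z = 0 → ∃ r : Kˣ, ord v r = 0 ∧ One1 w (z * (inc K L r)⁻¹)) ∨
    ((∀ x : Kˣ, ord w (inc K L x) = ord v x) ∧ nm w = nm v ^ p) := by
  have h1 := kumb_fund hp hζ H v h
  rw [hg, one_mul] at h1
  rcases (Nat.dvd_prime hp).mp (Dvd.intro _ h1) with he | he
  · right
    rw [he, one_mul] at h1
    refine ⟨fun x => ?_, ?_⟩
    · rw [kumb_ord h, he]
      simp
    · rw [kumb_nm h, h1]
  · left
    have hf : w.asIdeal.inertiaDeg (𝓞 K) = 1 := by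
      rw [he] at h1
      exact Nat.eq_of_mul_eq_mul_left hp.pos (by rw [h1, mul_one])
    refine ⟨fun x => ?_, ?_, fun z hz => kumb_res h hf z hz⟩
    · rw [kumb_ord h, he]
    · rw [kumb_nm h, hf, pow_one]

open scoped Pointwise in
private theorem kumb_stable {v : Pl K} (hg : {w : Pl L | Over w v}.ncard = 1) {w : Pl L}
    (h : Over w v) (y : L) : w.valuation L (H.σ y) = w.valuation L y := by
  have := kumb_liesOver h
  have : IsGalois K L := kum_galois hp hζ H
  have : w.asIdeal.IsPrime := w.isPrime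
  have hP : (H.σ • w.asIdeal).IsPrime := inferInstance
  have hLO : (H.σ • w.asIdeal).LiesOver v.asIdeal := inferInstance
  have hne : H.σ • w.asIdeal ≠ ⊥ := Ideal.ne_bot_of_liesOver_of_ne_bot v.ne_bot _
  have h2 : Over (⟨H.σ • w.asIdeal, hP, hne⟩ : Pl L) v := hLO.over.symm
  obtain ⟨w0, hw0⟩ := Set.ncard_eq_one.mp hg
  have e1 : w ∈ {w : Pl L | Over w v} := h
  have e2 : (⟨H.σ • w.asIdeal, hP, hne⟩ : Pl L) ∈ {w : Pl L | Over w v} := h2
  rw [hw0, Set.mem_singleton_iff] at e1 e2
  have e3 : H.σ • w.asIdeal = w.asIdeal := by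
    have := congrArg HeightOneSpectrum.asIdeal (e2.trans e1.symm)
    exact this
  exact kumb_val_smul H.σ e3 y

theorem nonsplit_stable {v : Pl K} (hg : {w : Pl L | Over w v}.ncard = 1) {w : Pl L}
    (h : Over w v) (y : Lˣ) : ord w (au H.σ y) = ord w y :=
  kumb_ord_smul H.σ (kumb_stable hp hζ H hg h) y

/-- stable primes: congruences modulo `w` are transported by `σ` -/
theorem nonsplit_one1 {v : Pl K} (hg : {w : Pl L | Over w v}.ncard = 1) {w : Pl L}
    (h : Over w v) (y : Lˣ) : One1 w (au H.σ y) ↔ One1 w y := by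
  unfold One1
  have e : ((au H.σ y : Lˣ) : L) - 1 = H.σ ((y : L) - 1) := by
    rw [map_sub, map_one]
    rfl
  rw [e, kumb_stable hp hζ H hg h]

end kum

end H63.MA
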