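import Pool.Agent.H63.MA.GaussA
import Pool.Agent.H63.MA.KumB

/-!
# MA-GAUSSB: the element `a = g^p` is locally primary at `p` if `θ(p) = 0`

Setting of `GaussA`; `L ∋ ξ` primitive `q`-th root of unity, `g = ∑ ζ^{θ x} ξ^x`, `a = g^p ∈ K`, and `θ(p) = 0`. Then `Prim p a`.

Proof. Write `g = ∑_{i ∈ ZMod p} ζ^i θ_i` with the periods `θ_i = ∑_{θ x = i} ξ^x ∈ R := ℤ[ξ] ⊂ 𝓞 L`. Let
`A ⊂ R` be the subring of the elements `x = P(ξ)`, `P ∈ ℤ[X]`, with `P(ξ^p) = P(ξ)` (well defined: `P(ξ) ↦ P(ξ^p)` is the ring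
automorphism `s` of `ℤ[ξ] = ℤ[X]/Φ_q`, a restriction of a Galois automorphism of `ℚ(ξ)/ℚ`). `θ_i ∈ A` because
`s θ_i = ∑_{θ x = i} ξ^{p x} = θ_{i + θ(p)} = θ_i`. For `x = P(ξ) ∈ A`: `x^p ≡ P(ξ^p) = x` modulo `p R`. And
`x ∈ A ∩ p R ⇒ x/p ∈ A` (`s` is injective and additive).
Claim: let `w` be a prime of `L` above `p` and `n ≥ 1`. For every `x ∈ A` there is `t ∈ ℤ` with
`w (x - t) ≤ w (p^n)` (so `A ⊂ ℤ + p^n 𝓞_w`). Proof: Let `J_n` be the set of `x ∈ A` with `w (x) ≤ w(p)^n`. (a) `x^p ≡ x mod p`, i.e.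
`∏_{i<p} (x - i) ∈ p R`. (b) for `x ∈ A` let `i < p` be an integer with `w (x - i) < 1` (exists by (a)); the other factors
`x - i'`, `i' ≢ i`, are `w`-units, so by (a) `w (x - i) ≤ w (p)`. (c) Let `x ∈ A`, `w (x) ≤ w (p)^n` for some `n ≥ 1`. Choose
`y ∈ A` with `w (y - 1) < 1`, and `w' (y) < 1`  for all the other primes `w'` over `p` not below the same prime of `A` ...
simpler: iterate (b) with powers: for `x ∈ A` the sequence `x_m = x^{p^m}` satisfies `x_{m+1} ≡ x_m mod p^{m+1} R`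
(`u ≡ v mod p^k ⇒ u^p ≡ v^p mod p^{k+1}`), so it converges `p`-adically; at `w`, `x ≡ i` modulo `w(p)` by (b), so
`x^{p^m} ≡ i^{p^m}` modulo `w(p)^{m+1}`, an integer. So every `x ∈ A` satisfies: `x^{p^{n-1}}` is congruent to an integer modulo
`w(p)^n`. Apply this to `x = x₀` and use `x₀ - x₀^{p^{n-1}} ∈ A ∩ p R = p A` (as `x₀^{p} ≡ x₀ mod p R`):
`x₀ = x₀^{p^{n-1}} + p x₁` with `x₁ ∈ A`; by induction on `n`, `x₁ ≡ t₁ mod w(p)^{n-1}`, so `x₀ ≡ t + p t₁ mod w(p)^n`. This proves the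
claim.
Now let `v` be a prime of `K` above `p`, `w` over `v` in `L`, `n = 3`, `t_i ∈ ℤ` with `w (θ_i - t_i) ≤ w (p)^3`, `y = ∑ ζ^i t_i ∈ K`. So
`w (g - y) ≤ w(p)^3 < w(p)^2`. `g` is a `w`-unit (`g g' = ± q`, see `GaussA`; or: `a` has `ord = 0` at the primes not above `q`, provable in the
same way), so `y` too (in particular `y ≠ 0`), `w (g/y - 1) < w (p)^2` and `w (a / y^p - 1) < w(p^2)`. As `a/y^p` and `p²` lie in `K`,
the same holds for `v` (`ord_inc`: the `w`-values of elements of `K` are powers, with a positive exponent, of the `v`-values).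
-/

set_option autoImplicit false

open scoped NumberField
open IsDedekindDomain

noncomputable section

namespace H63.MA

section alg

theorem gaussb_int_unit {O : Type} [CommRing O] [IsLocalRing O] {p : ℕ} (hp : p.Prime)
    (hpO : ¬ IsUnit (p : O)) {m : ℤ} (hm : ¬ (p : ℤ) ∣ m) : IsUnit (m : O) := by
  have h0 : IsCoprime (p : ℤ) m :=
    ((Nat.prime_iff_prime_int.1 hp).coprime_iff_not_dvd).2 hm
  obtain ⟨a, b, hab⟩ := h0
  have h1 : (a : O) * p + b * m = 1 := by exact_mod_cast congrArg (Int.cast : ℤ → O) hab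
  rcases IsLocalRing.isUnit_or_isUnit_of_add_one h1 with h | h
  · exact absurd (isUnit_of_mul_isUnit_right h) hpO
  · exact isUnit_of_mul_isUnit_right h

theorem gaussb_prod (p : ℕ) [Fact p.Prime] :
    (Polynomial.X ^ p - Polynomial.X : Polynomial (ZMod p)) =
      ∏ a : ZMod p, (Polynomial.X - Polynomial.C a) := by
  have h := FiniteField.roots_X_pow_card_sub_X (ZMod p)
  rw [ZMod.card] at h
  have hp1 : 1 < p := (Fact.out : p.Prime).one_lt
  have hmon : (Polynomial.X ^ p - Polynomial.X : Polynomial (ZMod p)).Monic :=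
    Polynomial.monic_X_pow_sub (by rw [Polynomial.degree_X]; exact_mod_cast hp1)
  have hdeg : (Polynomial.X ^ p - Polynomial.X : Polynomial (ZMod p)).natDegree = p :=
    FiniteField.X_pow_card_sub_X_natDegree_eq (ZMod p) hp1
  have h2 := Polynomial.prod_multiset_X_sub_C_of_monic_of_roots_card_eq hmon (by
    rw [h, hdeg]; simp)
  rw [h] at h2
  exact h2.symm

theorem gaussb_local {B : Type} [CommRing B] [IsLocalRing B] (p : ℕ) [Fact p.Prime]
    [Algebra (ZMod p) B] (z : B) (hz : z ^ p = z) : ∃ a : ZMod p, z = algebraMap _ _ a := by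
  classical
  have h1 := congrArg (Polynomial.aeval z) (gaussb_prod p)
  rw [map_sub, map_pow, Polynomial.aeval_X, hz, sub_self, map_prod] at h1
  simp only [map_sub, Polynomial.aeval_X, Polynomial.aeval_C] at h1
  have h2 : ∃ a : ZMod p, ¬ IsUnit (z - algebraMap (ZMod p) B a) := by
    by_contra! h
    have h3 : IsUnit (∏ a : ZMod p, (z - algebraMap (ZMod p) B a)) := by
      rw [IsUnit.prod_univ_iff]
      exact h
    rw [← h1] at h3
    exact not_isUnit_zero h3
  obtain ⟨a, ha⟩ := h2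
  have h3 : ∀ b ∈ Finset.univ.erase a, IsUnit (z - algebraMap (ZMod p) B b) := by
    intro b hb
    by_contra hb2
    have h4 : z - algebraMap (ZMod p) B a ∈ nonunits B := ha
    have h5 : z - algebraMap (ZMod p) B b ∈ nonunits B := hb2
    have h6 : (z - algebraMap (ZMod p) B b) - (z - algebraMap (ZMod p) B a) ∈ nonunits B := by
      rw [← IsLocalRing.mem_maximalIdeal] at h4 h5 ⊢
      exact Ideal.sub_mem _ h5 h4
    apply h6
    have e : (z - algebraMap (ZMod p) B b) - (z - algebraMap (ZMod p) B a) =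
        algebraMap (ZMod p) B (a - b) := by
      rw [map_sub]; ring
    rw [e]
    apply IsUnit.map
    rw [isUnit_iff_ne_zero, sub_ne_zero]
    exact (Finset.ne_of_mem_erase hb).symm
  refine ⟨a, ?_⟩
  rw [← Finset.mul_prod_erase _ _ (Finset.mem_univ a)] at h1
  have h4 : IsUnit (∏ b ∈ Finset.univ.erase a, (z - algebraMap (ZMod p) B b)) := by
    rw [IsUnit.prod_iff]
    exact h3
  have h5 := (h4.mul_left_eq_zero).1 h1.symm
  exact sub_eq_zero.1 h5

theorem gaussb_one {O : Type} [CommRing O] [IsLocalRing O] {p : ℕ} (hp : p.Prime)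
    (hpO : ¬ IsUnit (p : O)) (x : O) (hx : (p : O) ∣ x ^ p - x) : ∃ t : ℤ, (p : O) ∣ x - t := by
  have : Fact p.Prime := ⟨hp⟩
  let I : Ideal O := Ideal.span {(p : O)}
  have hchar : CharP (O ⧸ I) p := CharP.quotient O p hpO
  have hnt : Nontrivial (O ⧸ I) := by
    apply Ideal.Quotient.nontrivial_iff.2
    intro h
    exact hpO (Ideal.span_singleton_eq_top.1 h)
  have hloc : IsLocalRing (O ⧸ I) :=
    IsLocalRing.of_surjective' (Ideal.Quotient.mk I) Ideal.Quotient.mk_surjective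
  let : Algebra (ZMod p) (O ⧸ I) := ZMod.algebra _ p
  have h1 : (Ideal.Quotient.mk I x) ^ p = Ideal.Quotient.mk I x := by
    rw [← map_pow, Ideal.Quotient.eq, Ideal.mem_span_singleton]
    exact hx
  obtain ⟨a, ha⟩ := gaussb_local p _ h1
  refine ⟨(a.val : ℤ), ?_⟩
  rw [← Ideal.mem_span_singleton, ← Ideal.Quotient.eq, ha]
  conv_lhs => rw [← ZMod.natCast_zmod_val a]
  rw [map_natCast, Int.cast_natCast, map_natCast]

theorem gaussb_main {O : Type} [CommRing O] [IsLocalRing O] {A : Type} [CommRing A] {p : ℕ}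
    (hp : p.Prime) (hpO : ¬ IsUnit (p : O)) (hA : ∀ x : A, (p : A) ∣ x ^ p - x) (φ : A →+* O)
    (n : ℕ) : ∀ x : A, ∃ t : ℤ, (p : O) ^ n ∣ φ x - t := by
  induction n with
  | zero => intro x; exact ⟨0, by simp⟩
  | succ n ih =>
    intro x
    obtain ⟨i, hi⟩ := gaussb_one hp hpO (φ x) (by
      have := map_dvd φ (hA x)
      simpa using this)
    have h1 : (p : O) ^ (n + 1) ∣ φ x ^ p ^ n - (i : O) ^ p ^ n := dvd_sub_pow_of_dvd_sub hi n
    have h2 : ∀ m : ℕ, (p : A) ∣ x ^ (p ^ m) - x := by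
      intro m
      induction m with
      | zero => simp
      | succ m ihm =>
        have e : x ^ (p ^ (m + 1)) - x = ((x ^ p ^ m) ^ p - x ^ p ^ m) + (x ^ p ^ m - x) := by
          rw [← pow_mul, ← pow_succ]; ring
        rw [e]
        exact dvd_add (hA _) ihm
    obtain ⟨y, hy⟩ := h2 n
    obtain ⟨t, ht⟩ := ih y
    refine ⟨i ^ p ^ n - p * t, ?_⟩
    have h3 := congrArg φ hy
    rw [map_sub, map_pow, map_mul, map_natCast] at h3
    have h4 : φ x - ((i ^ p ^ n - p * t : ℤ) : O) =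
        (φ x ^ p ^ n - (i : O) ^ p ^ n) - p * (φ y - t) := by
      push_cast
      linear_combination (-1 : O) * h3
    rw [h4]
    exact dvd_sub h1 (by rw [pow_succ']; exact mul_dvd_mul_left _ ht)

end alg

section grp

/-- the map `x ↦ x ^ p` on the group ring of `ZMod q` -/
def gaussbS (p q : ℕ) : MonoidAlgebra ℤ (Multiplicative (ZMod q)) →+*
    MonoidAlgebra ℤ (Multiplicative (ZMod q)) :=
  MonoidAlgebra.mapDomainRingHom ℤ (powMonoidHom p)

theorem gaussb_frob {p : ℕ} (hp : p.Prime) (q : ℕ) {O : Type} [CommRing O]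
    (hpO : ¬ IsUnit (p : O)) (φ : MonoidAlgebra ℤ (Multiplicative (ZMod q)) →+* O)
    (x : MonoidAlgebra ℤ (Multiplicative (ZMod q))) :
    (p : MonoidAlgebra ℤ (Multiplicative (ZMod q))) ∣ x ^ p - gaussbS p q x := by
  have : Fact p.Prime := ⟨hp⟩
  let R := MonoidAlgebra ℤ (Multiplicative (ZMod q))
  have hpR : (p : R) ∈ nonunits R := by
    intro h
    apply hpO
    have := h.map φ
    rwa [map_natCast] at this
  let I : Ideal R := Ideal.span {(p : R)}
  have hchar : CharP (R ⧸ I) p := CharP.quotient R p hpR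
  have hcomp : (frobenius (R ⧸ I) p).comp (Ideal.Quotient.mk I) =
      (Ideal.Quotient.mk I).comp (gaussbS p q) := by
    apply MonoidAlgebra.ringHom_ext'
    · exact RingHom.ext_int _ _
    · apply MonoidHom.ext
      intro m
      change frobenius (R ⧸ I) p (Ideal.Quotient.mk I (MonoidAlgebra.of ℤ _ m)) =
        Ideal.Quotient.mk I (gaussbS p q (MonoidAlgebra.of ℤ _ m))
      rw [frobenius_def, ← map_pow, ← map_pow]
      congr 1
      simp [gaussbS]
  have h1 := RingHom.congr_fun hcomp x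
  rw [RingHom.comp_apply, RingHom.comp_apply, frobenius_def, ← map_pow, Ideal.Quotient.eq,
    Ideal.mem_span_singleton] at h1
  exact h1

/-- the fixed ring -/
def gaussbA (p q : ℕ) : Subring (MonoidAlgebra ℤ (Multiplicative (ZMod q))) :=
  RingHom.eqLocus (gaussbS p q) (RingHom.id _)

theorem gaussb_fixed {p : ℕ} (hp : p.Prime) (q : ℕ) {O : Type} [CommRing O]
    (hpO : ¬ IsUnit (p : O)) (φ : MonoidAlgebra ℤ (Multiplicative (ZMod q)) →+* O)
    (x : gaussbA p q) : (p : gaussbA p q) ∣ x ^ p - x := by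
  obtain ⟨y, hy⟩ := gaussb_frob hp q hpO φ (x : MonoidAlgebra ℤ (Multiplicative (ZMod q)))
  have hx : gaussbS p q (x : MonoidAlgebra ℤ (Multiplicative (ZMod q))) = x := x.2
  rw [hx] at hy
  have h1 := congrArg (gaussbS p q) hy
  rw [map_sub, map_pow, map_mul, map_natCast, hx, hy] at h1
  have h2 : gaussbS p q y = y := by
    have h3 : (p : ℤ) • y = (p : ℤ) • gaussbS p q y := by
      rw [← Int.cast_smul_eq_zsmul ℤ, ← Int.cast_smul_eq_zsmul ℤ]
      simpa [Algebra.smul_def] using h1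
    exact ((smul_right_injective _ (by exact_mod_cast hp.ne_zero)) h3).symm
  refine ⟨⟨y, h2⟩, ?_⟩
  ext1
  push_cast
  exact hy

open Classical in
/-- the periods in the group ring -/
def gaussbT (p q : ℕ) [NeZero q] (θ : (ZMod q)ˣ →* Multiplicative (ZMod p)) (i : ZMod p) :
    MonoidAlgebra ℤ (Multiplicative (ZMod q)) :=
  ∑ x ∈ Finset.univ.filter fun x : (ZMod q)ˣ => θ x = Multiplicative.ofAdd i,
    MonoidAlgebra.of ℤ _ (Multiplicative.ofAdd (x : ZMod q))

theorem gaussbT_mem (p q : ℕ) [NeZero q] (θ : (ZMod q)ˣ →* Multiplicative (ZMod p)) (i : ZMod p)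
    (u : (ZMod q)ˣ) (hu : (u : ZMod q) = (p : ZMod q)) (hθ : θ u = 1) :
    gaussbT p q θ i ∈ gaussbA p q := by
  classical
  change gaussbS p q _ = _
  rw [RingHom.id_apply, gaussbT, map_sum]
  refine Finset.sum_bij' (fun x _ => u * x) (fun x _ => u⁻¹ * x) ?_ ?_ ?_ ?_ ?_
  · intro x hx
    rw [Finset.mem_filter] at hx ⊢
    exact ⟨Finset.mem_univ _, by rw [map_mul, hθ, one_mul, hx.2]⟩
  · intro x hx
    rw [Finset.mem_filter] at hx ⊢
    exact ⟨Finset.mem_univ _, by rw [map_mul, map_inv, hθ, inv_one, one_mul, hx.2]⟩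
  · intro x _; simp
  · intro x _; simp
  · intro x _
    simp [gaussbS, ← ofAdd_nsmul, hu]

end grp

section loc

open Classical in
/-- the Gauss sum in a domain: it divides `q` -/
theorem gaussb_unit {O : Type} [CommRing O] [IsDomain O] {p q : ℕ} (hp : p.Prime) (hq : q.Prime)
    [NeZero q] {ζ ξ : O} (hζ : IsPrimitiveRoot ζ p) (hξ : IsPrimitiveRoot ξ q)
    (hqO : IsUnit (q : O)) (θ : (ZMod q)ˣ →* Multiplicative (ZMod p))
    (hθ : Function.Surjective θ) :
    IsUnit (∑ x : (ZMod q)ˣ, ζ ^ (Multiplicative.toAdd (θ x)).val * ξ ^ (x : ZMod q).val) := by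
  have : Fact q.Prime := ⟨hq⟩
  have : Fact p.Prime := ⟨hp⟩
  have : NeZero p := ⟨hp.ne_zero⟩
  let ζu : Oˣ := Units.mk ζ (ζ ^ (p - 1))
    (by rw [← pow_succ', Nat.sub_add_cancel hp.one_lt.le, hζ.pow_eq_one])
    (by rw [← pow_succ, Nat.sub_add_cancel hp.one_lt.le, hζ.pow_eq_one])
  have hζu : ζu ^ p = 1 := by
    ext
    rw [Units.val_pow_eq_pow_val, Units.val_one]
    exact hζ.pow_eq_one
  let χ : MulChar (ZMod q) O :=
    MulChar.ofUnitHom ((AddChar.zmodChar p hζu).toMonoidHom.comp θ)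
  have hχ : ∀ x : (ZMod q)ˣ, χ x = ζ ^ (Multiplicative.toAdd (θ x)).val := by
    intro x
    change MulChar.ofUnitHom _ _ = _
    rw [MulChar.ofUnitHom_coe]
    change ((AddChar.zmodChar p hζu (Multiplicative.toAdd (θ x)) : Oˣ) : O) = _
    rw [AddChar.zmodChar_apply, Units.val_pow_eq_pow_val]
  have hχ1 : χ ≠ 1 := by
    intro h
    obtain ⟨u, hu⟩ := hθ (Multiplicative.ofAdd 1)
    have h1 := hχ u
    rw [h, MulChar.one_apply_coe, hu, toAdd_ofAdd, ZMod.val_one, pow_one] at h1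
    exact hζ.ne_one hp.one_lt h1.symm
  have hψ := AddChar.zmodChar_primitive_of_primitive_root q hξ
  have h1 := gaussSum_mul_gaussSum_eq_card hχ1 hψ
  rw [ZMod.card] at h1
  have h2 : gaussSum χ (AddChar.zmodChar q ((IsPrimitiveRoot.iff_def ξ q).mp hξ).left) =
      ∑ x : (ZMod q)ˣ, ζ ^ (Multiplicative.toAdd (θ x)).val * ξ ^ (x : ZMod q).val := by
    rw [gaussSum]
    symm
    apply Fintype.sum_of_injective (fun x : (ZMod q)ˣ => (x : ZMod q)) Units.val_injective
    · intro x hx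
      have hx0 : ¬ IsUnit x := by
        intro h
        exact hx ⟨h.unit, rfl⟩
      rw [MulChar.map_nonunit _ hx0, zero_mul]
    · intro x
      rw [hχ, AddChar.zmodChar_apply]
  rw [← h2]
  rw [← h1] at hqO
  exact isUnit_of_mul_isUnit_left hqO

end loc

theorem gauss_prim {K : Type} [Field K] [NumberField K] {p : ℕ} (hp : p.Prime) (hp2 : MOne p K)
    {ζ : K} (hζ : IsPrimitiveRoot ζ p) (q : ℕ) (hq : q.Prime) [NeZero q] (hqp : q ≠ p)
    (θ : (ZMod q)ˣ →* Multiplicative (ZMod p)) (hθ : Function.Surjective θ)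
    (hθp : ∀ u : (ZMod q)ˣ, (u : ZMod q) = (p : ZMod q) → θ u = 1) (a : Kˣ)
    (L : Type) [Field L] [NumberField L] [Algebra K L] (ξ : L) (hξ : IsPrimitiveRoot ξ q)
    (ha : algebraMap K L a = gs p q (algebraMap K L ζ) ξ θ ^ p) : Prim p a := by
  classical
  intro v hv
  obtain ⟨w, hw⟩ := exists_over (L := L) v
  have hwp : Above p w := (above_over hw p).2 hv
  have : NeZero p := ⟨hp.ne_zero⟩
  let V := (w.valuation L).valuationSubring
  have hmem : ∀ x : L, x ∈ V ↔ w.valuation L x ≤ 1 := fun x => Iff.rfl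
  have hp1 : w.valuation L (p : L) < 1 := by
    have h : w.valuation L (algebraMap (𝓞 L) L (p : 𝓞 L)) < 1 :=
      (w.valuation_lt_one_iff_mem (K := L) (p : 𝓞 L)).2 hwp
    rwa [map_natCast] at h
  have hpO : ¬ IsUnit (p : V) := by
    intro h
    obtain ⟨c, hc⟩ := h.exists_right_inv
    have h1 := congrArg (fun x : V => w.valuation L (x : L)) hc
    simp only [MulMemClass.coe_mul, map_mul, OneMemClass.coe_one, map_one] at h1
    have h2 : w.valuation L (c : L) ≤ 1 := (hmem _).1 c.2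
    have h3 : w.valuation L (((p : V) : L)) < 1 := by simpa using hp1
    have h4 := mul_lt_one_of_nonneg_of_lt_one_left zero_le h3 h2
    rw [h1] at h4
    exact lt_irrefl _ h4
  have hroot : ∀ (n : ℕ) (x : L), n ≠ 0 → x ^ n = 1 → w.valuation L x = 1 := by
    intro n x hn hx
    have h1 : w.valuation L x ^ n = 1 := by rw [← map_pow, hx, map_one]
    exact (pow_eq_one_iff.1 h1).resolve_right hn
  have hξ1 : w.valuation L ξ = 1 := hroot q ξ hq.ne_zero hξ.pow_eq_one
  have hζL : IsPrimitiveRoot (algebraMap K L ζ) p := hζ.map_of_injective (algebraMap K L).injective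
  have hζ1 : w.valuation L (algebraMap K L ζ) = 1 := hroot p _ hp.ne_zero hζL.pow_eq_one
  let ξO : V := ⟨ξ, hξ1.le⟩
  let ζO : V := ⟨algebraMap K L ζ, hζ1.le⟩
  have hξO : IsPrimitiveRoot ξO q :=
    IsPrimitiveRoot.of_map_of_injective (f := V.subtype) hξ Subtype.val_injective
  have hζO : IsPrimitiveRoot ζO p :=
    IsPrimitiveRoot.of_map_of_injective (f := V.subtype) hζL Subtype.val_injective
  let φ0 : MonoidAlgebra ℤ (Multiplicative (ZMod q)) →+* V :=
    (MonoidAlgebra.lift ℤ V (Multiplicative (ZMod q))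
      (AddChar.zmodChar q hξO.pow_eq_one).toMonoidHom).toRingHom
  let φ : gaussbA p q →+* V := φ0.comp (gaussbA p q).subtype
  have hqp' : ¬ (p : ℤ) ∣ (q : ℤ) := by
    intro h
    have h1 : p ∣ q := by exact_mod_cast h
    exact hqp ((Nat.prime_dvd_prime_iff_eq hp hq).1 h1).symm
  have hqO : IsUnit (q : V) := by
    have := gaussb_int_unit (O := V) hp hpO hqp'
    rwa [Int.cast_natCast] at this
  -- the unit `p` modulo `q`
  have hcop : Nat.Coprime p q := (Nat.coprime_primes hp hq).2 (Ne.symm hqp)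
  have hu := hθp (ZMod.unitOfCoprime p hcop) (ZMod.coe_unitOfCoprime p hcop)
  have hT : ∀ i : ZMod p, gaussbT p q θ i ∈ gaussbA p q := fun i =>
    gaussbT_mem p q θ i _ (ZMod.coe_unitOfCoprime p hcop) hu
  have ht : ∀ i : ZMod p, ∃ t : ℤ, (p : V) ^ 3 ∣ φ ⟨_, hT i⟩ - t := fun i =>
    gaussb_main hp hpO (gaussb_fixed hp q hpO φ0) φ 3 _
  choose t ht using ht
  have hφ : ∀ i : ZMod p, φ ⟨_, hT i⟩ =
      ∑ x ∈ Finset.univ.filter (fun x : (ZMod q)ˣ => θ x = Multiplicative.ofAdd i),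
        ξO ^ (x : ZMod q).val := by
    intro i
    change φ0 (gaussbT p q θ i) = _
    rw [gaussbT, map_sum]
    refine Finset.sum_congr rfl fun x _ => ?_
    change MonoidAlgebra.lift ℤ V (Multiplicative (ZMod q)) _ _ = _
    rw [MonoidAlgebra.lift_of]
    change AddChar.zmodChar q hξO.pow_eq_one (x : ZMod q) = _
    rw [AddChar.zmodChar_apply]
  let gO : V := ∑ x : (ZMod q)ˣ, ζO ^ (Multiplicative.toAdd (θ x)).val * ξO ^ (x : ZMod q).val
  have hgu : IsUnit gO := gaussb_unit hp hq hζO hξO hqO θ hθ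
  have hgO : (gO : L) = gs p q (algebraMap K L ζ) ξ θ := by
    simp only [gO, gs]
    push_cast
    rfl
  have hgO2 : gO = ∑ i : ZMod p, ζO ^ i.val * φ ⟨_, hT i⟩ := by
    simp only [hφ, Finset.mul_sum]
    refine (Finset.sum_fiberwise Finset.univ
      (fun x : (ZMod q)ˣ => Multiplicative.toAdd (θ x)) _).symm.trans ?_
    refine Finset.sum_congr rfl fun i _ => ?_
    refine Finset.sum_congr ?_ fun x hx => ?_
    · ext x
      simp only [Finset.mem_filter, Finset.mem_univ, true_and]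
      exact Iff.rfl
    · rw [Finset.mem_filter] at hx
      rw [hx.2, toAdd_ofAdd]
  let yO : V := ∑ i : ZMod p, ζO ^ i.val * (t i : V)
  have hdiff : (p : V) ^ 3 ∣ gO - yO := by
    rw [hgO2, ← Finset.sum_sub_distrib]
    refine Finset.dvd_sum fun i _ => ?_
    rw [← mul_sub]
    exact Dvd.dvd.mul_left (ht i) _
  have hyu : IsUnit yO := by
    by_contra h
    apply (IsLocalRing.mem_maximalIdeal gO).1 ?_ hgu
    have h1 : gO = yO + (gO - yO) := by ring
    rw [h1]
    refine Ideal.add_mem _ ((IsLocalRing.mem_maximalIdeal _).2 h) ?_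
    obtain ⟨c, hc⟩ := hdiff
    rw [hc]
    apply Ideal.mul_mem_right
    apply Ideal.pow_mem_of_mem _ _ _ (by norm_num)
    exact (IsLocalRing.mem_maximalIdeal _).2 hpO
  let yK : K := ∑ i : ZMod p, ζ ^ i.val * (t i : K)
  have hyK : algebraMap K L yK = (yO : L) := by
    simp only [yK, yO, map_sum, map_mul, map_pow, map_intCast]
    push_cast
    rfl
  have hyO1 : w.valuation L (yO : L) = 1 := by
    obtain ⟨c, hc⟩ := hyu.exists_right_inv
    have h1 := congrArg (fun x : V => w.valuation L (x : L)) hc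
    simp only [MulMemClass.coe_mul, map_mul, OneMemClass.coe_one, map_one] at h1
    exact eq_one_of_one_le_mul_left ((hmem _).1 yO.2) ((hmem _).1 c.2) h1.ge
  have hyK0 : yK ≠ 0 := by
    intro h
    rw [← hyK, h, map_zero, map_zero] at hyO1
    exact zero_ne_one hyO1
  refine ⟨Units.mk0 yK hyK0, ?_⟩
  have hLO : w.asIdeal.LiesOver v.asIdeal := ⟨hw.symm⟩
  have he : v.asIdeal.ramificationIdx' w.asIdeal ≠ 0 :=
    Ideal.IsDedekindDomain.ramificationIdx'_ne_zero_of_liesOver w.asIdeal v.ne_bot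
  have hz : w.valuation L (algebraMap K L (((a * ((Units.mk0 yK hyK0) ^ p)⁻¹ : Kˣ) : K) - 1)) ≤
      w.valuation L (algebraMap K L ((p : K) ^ 3)) := by
    have h1 : algebraMap K L (((a * ((Units.mk0 yK hyK0) ^ p)⁻¹ : Kˣ) : K) - 1) =
        ((gO ^ p - yO ^ p : V) : L) / (yO : L) ^ p := by
      have hyL : (yO : L) ≠ 0 := by
        intro h
        rw [h, map_zero] at hyO1
        exact zero_ne_one hyO1
      rw [map_sub, map_one, Units.val_mul, map_mul, ha, Units.val_inv_eq_inv_val,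
        Units.val_pow_eq_pow_val, Units.val_mk0, map_inv₀, map_pow, hyK, ← hgO]
      push_cast
      field_simp
    rw [h1, map_div₀, map_pow, hyO1, one_pow, div_one]
    obtain ⟨c, hc⟩ := hdiff.trans (sub_dvd_pow_sub_pow gO yO p)
    rw [hc, map_pow, map_natCast]
    push_cast
    rw [map_mul]
    exact mul_le_of_le_one_right' ((hmem _).1 c.2)
  rw [← HeightOneSpectrum.valuation_liesOver L v w, ← HeightOneSpectrum.valuation_liesOver L v w]
    at hz
  have hz2 := (pow_le_pow_iff_left₀ zero_le zero_le he).1 hz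
  refine lt_of_le_of_lt hz2 ?_
  have hvp : v.valuation K (p : K) < 1 := by
    have h : v.valuation K (algebraMap (𝓞 K) K (p : 𝓞 K)) < 1 :=
      (v.valuation_lt_one_iff_mem (K := K) (p : 𝓞 K)).2 hv
    rwa [map_natCast] at h
  have hvp0 : 0 < v.valuation K (p : K) := by
    rw [zero_lt_iff, Valuation.ne_zero_iff]
    exact_mod_cast hp.ne_zero
  rw [map_pow, map_pow]
  exact pow_lt_pow_right_of_lt_one₀ hvp0 hvp (by norm_num)

end H63.MA
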