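import Pool.Agent.H63.MA.SymB

/-!
# MA-SYMC: the tame symbol `B p ζ v c x = lg (c ^ ord x / x ^ ord c)`

`v ∤ p`. Everything from `SymB` (the argument of `lg` always has `ord = 0`).
* bilinearity: `(c c') ^ ord x / x ^ (ord c + ord c') = (c ^ ord x / x ^ ord c) (c' ^ ord x / x ^ ord c')` and `lg_mul`.
* `B_self`: the argument is `1`. `B_symm`: the argument for `(x, c)` is the inverse.
* `B_of_one1`: `ord x = 0` and `lg x = 0`. `B_unit`: `ord c = 0`.
* `B_unram`: if `p ∣ ord c`, the homomorphism `B c ·` kills all `x` with `ord x = 0` (value `- ord c * lg x`), so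
  `B c x = ord x * B c π` for every `π` with `ord π = 1` (apply it to `x * π ^ (- ord x)`).
* `spl_iff`: if `B c · = 0`: testing `x` with `ord x = 0`, `lg x = 1` gives `p ∣ ord c` (as `ZMod` statement, `ord c = 0`
  in `ZMod p`); write `ord c = p m`, `c = π ^ (p m) c'`, `ord c' = 0`; testing `x = π` gives `lg c' = 0`; use
  `lg_eq_zero_iff`. Conversely `B` of a `p`-th power is `0` and `B_of_one1` with `B_symm`.
* `finite_B`: `B v c x = 0` if `ord v c = ord v x = 0`.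
* `exists_pair`: `c₁` with `ord = 0`, `lg = 1` and `c₂ = π`: `B c₁ π = 1`.
-/

set_option autoImplicit false

open scoped NumberField
open IsDedekindDomain

noncomputable section

namespace H63.MA

variable {K : Type} [Field K] [NumberField K] {p : ℕ} (hp : p.Prime) {ζ : K}
  (hζ : IsPrimitiveRoot ζ p) {v : Pl K} (hv : ¬ Above p v)

include hp hζ hv

omit hp hζ hv in
private theorem SymC_ord (v : Pl K) (c x : Kˣ) :
    ord v (c ^ ord v x * (x ^ ord v c)⁻¹) = 0 := by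
  rw [ord_mul, ord_inv, ord_zpow, ord_zpow]
  ring

theorem B_mul_left (c c' x : Kˣ) : B p ζ v (c * c') x = B p ζ v c x + B p ζ v c' x := by
  unfold B
  rw [← lg_mul hp hζ hv (SymC_ord v c x) (SymC_ord v c' x)]
  congr 1
  rw [ord_mul, mul_zpow, zpow_add, mul_inv, mul_mul_mul_comm]

theorem B_mul_right (c x x' : Kˣ) : B p ζ v c (x * x') = B p ζ v c x + B p ζ v c x' := by
  unfold B
  rw [← lg_mul hp hζ hv (SymC_ord v c x) (SymC_ord v c x')]
  congr 1
  rw [ord_mul, mul_zpow, zpow_add, mul_inv, mul_mul_mul_comm]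

theorem B_one_left (x : Kˣ) : B p ζ v 1 x = 0 := by
  unfold B
  rw [ord_one, one_zpow, zpow_zero, inv_one, mul_one]
  exact lg_one hp hζ hv

theorem B_one_right (c : Kˣ) : B p ζ v c 1 = 0 := by
  unfold B
  rw [ord_one, one_zpow, zpow_zero, inv_one, mul_one]
  exact lg_one hp hζ hv

theorem B_inv_left (c x : Kˣ) : B p ζ v c⁻¹ x = -B p ζ v c x := by
  have h := B_mul_left hp hζ hv c c⁻¹ x
  rw [mul_inv_cancel, B_one_left hp hζ hv] at h
  exact (neg_eq_of_add_eq_zero_right h.symm).symm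

theorem B_inv_right (c x : Kˣ) : B p ζ v c x⁻¹ = -B p ζ v c x := by
  have h := B_mul_right hp hζ hv c x x⁻¹
  rw [mul_inv_cancel, B_one_right hp hζ hv] at h
  exact (neg_eq_of_add_eq_zero_right h.symm).symm

theorem B_zpow_left (c x : Kˣ) (n : ℤ) : B p ζ v (c ^ n) x = n * B p ζ v c x := by
  unfold B
  rw [← lg_zpow hp hζ hv (SymC_ord v c x) n]
  congr 1
  rw [ord_zpow, mul_zpow, inv_zpow, ← zpow_mul, ← zpow_mul, ← zpow_mul, mul_comm n (ord v x),
    mul_comm n (ord v c)]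

theorem B_zpow_right (c x : Kˣ) (n : ℤ) : B p ζ v c (x ^ n) = n * B p ζ v c x := by
  unfold B
  rw [← lg_zpow hp hζ hv (SymC_ord v c x) n]
  congr 1
  rw [ord_zpow, mul_zpow, inv_zpow, ← zpow_mul, ← zpow_mul, ← zpow_mul, mul_comm n (ord v x),
    mul_comm n (ord v c)]

theorem B_self (c : Kˣ) : B p ζ v c c = 0 := by
  unfold B
  rw [mul_inv_cancel]
  exact lg_one hp hζ hv

theorem B_symm (c x : Kˣ) : B p ζ v c x = -B p ζ v x c := by
  unfold B
  have h := lg_zpow hp hζ hv (SymC_ord v x c) (-1)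
  rw [zpow_neg_one, mul_inv, inv_inv, mul_comm] at h
  rw [h]
  push_cast
  ring

theorem B_of_one1 (c : Kˣ) {x : Kˣ} (hx : One1 v x) : B p ζ v c x = 0 := by
  unfold B
  rw [ord_of_one1 hx, zpow_zero, one_mul]
  exact lg_of_one1 hp hζ hv (one1_inv (one1_zpow hx _))

theorem B_unit {c : Kˣ} (hc : ord v c = 0) (x : Kˣ) : B p ζ v c x = ord v x * lg p ζ v c := by
  unfold B
  rw [hc, zpow_zero, inv_one, mul_one, lg_zpow hp hζ hv hc]

private theorem SymC_unit {c x : Kˣ} (hx : ord v x = 0) :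
    B p ζ v c x = -((ord v c : ℤ) : ZMod p) * lg p ζ v x := by
  unfold B
  rw [hx, zpow_zero, one_mul, ← zpow_neg, lg_zpow hp hζ hv hx]
  push_cast
  ring

theorem B_unram {c : Kˣ} (hc : (p : ℤ) ∣ ord v c) {π : Kˣ} (hπ : ord v π = 1) (x : Kˣ) :
    B p ζ v c x = ord v x * B p ζ v c π := by
  have h1 : ord v (x * (π ^ ord v x)⁻¹) = 0 := by
    rw [ord_mul, ord_inv, ord_zpow, hπ]
    ring
  have h2 := SymC_unit hp hζ hv (c := c) h1
  have h3 : ((ord v c : ℤ) : ZMod p) = 0 := (ZMod.intCast_zmod_eq_zero_iff_dvd _ _).2 hc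
  rw [h3, neg_zero, zero_mul] at h2
  have h4 := B_mul_right hp hζ hv c (x * (π ^ ord v x)⁻¹) (π ^ ord v x)
  rw [inv_mul_cancel_right, h2, zero_add, B_zpow_right hp hζ hv] at h4
  exact h4

private theorem SymC_dvd {c : Kˣ} (h : Spl p ζ v c) : (p : ℤ) ∣ ord v c := by
  obtain ⟨z, hz, hz1⟩ := exists_lg hp hζ hv 1
  have h1 := h z
  rw [SymC_unit hp hζ hv hz, hz1, mul_one, neg_eq_zero] at h1
  exact (ZMod.intCast_zmod_eq_zero_iff_dvd _ _).1 h1

private theorem SymC_pow (y x : Kˣ) : B p ζ v (y ^ p) x = 0 := by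
  have h := B_zpow_left hp hζ hv y x (p : ℤ)
  rw [zpow_natCast] at h
  rw [h]
  simp

theorem spl_iff (c : Kˣ) : Spl p ζ v c ↔ ∃ y : Kˣ, One1 v (c * (y ^ p)⁻¹) := by
  constructor
  · intro h
    obtain ⟨m, hm⟩ := SymC_dvd hp hζ hv h
    obtain ⟨π, hπ⟩ := exists_unif v
    have h1 : ord v (c * ((π ^ m) ^ p)⁻¹) = 0 := by
      rw [ord_mul, ord_inv, ord_pow, ord_zpow, hπ, hm]
      ring
    have h2 : B p ζ v (c * ((π ^ m) ^ p)⁻¹) π = 0 := by
      rw [B_mul_left hp hζ hv, B_inv_left hp hζ hv, SymC_pow hp hζ hv, h π]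
      simp
    rw [B_unit hp hζ hv h1, hπ, Int.cast_one, one_mul] at h2
    obtain ⟨y, -, hy⟩ := (lg_eq_zero_iff hp hζ hv h1).1 h2
    refine ⟨π ^ m * y, ?_⟩
    rw [mul_pow, mul_inv, ← mul_assoc]
    exact hy
  · rintro ⟨y, hy⟩ x
    have h1 : c = (c * (y ^ p)⁻¹) * y ^ p := by rw [inv_mul_cancel_right]
    rw [h1, B_mul_left hp hζ hv, SymC_pow hp hζ hv, B_symm hp hζ hv, B_of_one1 hp hζ hv x hy]
    simp

theorem spl_dvd {c : Kˣ} (h : Spl p ζ v c) : (p : ℤ) ∣ ord v c := SymC_dvd hp hζ hv h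

theorem exists_pair : ∃ c₁ c₂ : Kˣ, B p ζ v c₁ c₂ = 1 := by
  obtain ⟨z, hz, hz1⟩ := exists_lg hp hζ hv 1
  obtain ⟨π, hπ⟩ := exists_unif v
  refine ⟨z, π, ?_⟩
  rw [B_unit hp hζ hv hz, hπ, hz1]
  simp

omit hv in
theorem finite_B (c x : Kˣ) : {v : Pl K | ¬ Above p v ∧ B p ζ v c x ≠ 0}.Finite := by
  refine ((finite_ord c).union (finite_ord x)).subset ?_
  rintro w ⟨hw, hne⟩
  by_contra hcon
  rw [Set.mem_union, not_or] at hcon
  have h1 : ord w c = 0 := by
    by_contra h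
    exact hcon.1 h
  have h2 : ord w x = 0 := by
    by_contra h
    exact hcon.2 h
  apply hne
  unfold B
  rw [h1, h2, zpow_zero, zpow_zero, inv_one, mul_one]
  exact lg_one hp hζ hw

end H63.MA
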