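import Pool.Agent.H63.MA.PzS
import Pool.Agent.H63.MA.SymC

/-!
# MA-QEX: existence of auxiliary primes `q`

Let `ℓ, ℓ'` be prime numbers different from `p` (possibly equal) and `M` a bound. There is a prime `q > M`, `p ∣ q - 1`, and a surjective
homomorphism `θ : (ZMod q)ˣ → ZMod p` with `θ(p) = 0`, `θ(-1) = 0`, `θ(ℓ) ≠ 0`, `θ(ℓ') ≠ 0`.

For `p = 2` (`qex_two`): Dirichlet's theorem gives a prime `q ≡ 1 mod 8` which is a nonsquare modulo `ℓ` and `ℓ'`, and quadratic reciprocity.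

Proof. `K₀ = ℚ(ζ)` = `CyclotomicField p ℚ`, `[K₀:ℚ] = p - 1`. If a rational number `r` is a `p`-th power in `K₀`, `r = y^p`, then
`r^{p-1} = N(y)^p`, so `r` is a `p`-th power in `ℚ` (`gcd(p, p-1) = 1`). Hence `p, ℓ` are independent (`Ind2`), `p, ℓ'` too
(valuations of `p^i ℓ^j`), and `p` is not a `p`-th power. By `pz_spl`, `pz_spl2`, the set of primes `v` of `K₀` with `Spl v p`, not
`Spl v ℓ`, not `Spl v ℓ'` has prime zeta function `≥ (1/p - 2/p²) log (1/(s-1)) - C → ∞` (`p ≥ 3`), while the primes with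
`nm v` not a prime number (`pz_deg`) and finitely many others contribute `O(1)`. So there is such a `v` with `nm v = q` a
prime number, `q > M`, `q ∤ p ℓ ℓ'`, and `q ≡ 1 mod p` (`dvd_nm`). The residue field of `v` is `ZMod q`; `θ(u) := lg v (n)` for a positive
integer `n ≡ u mod q` is a homomorphism (`lg_mul`, `lg_of_one1`). For a rational integer `n` prime to `q`: `Spl v n ↔ lg v n = 0`
(`B_unit`). So `θ(p) = 0`, `θ(ℓ), θ(ℓ') ≠ 0`, and `θ` is surjective because its image is a nonzero subgroup of `ZMod p`.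
-/

set_option autoImplicit false

open scoped NumberField
open IsDedekindDomain

noncomputable section

namespace H63.MA

section qex

variable {K : Type} [Field K] [NumberField K]

open Classical in
/-- a natural number as a unit -/
def qxc (K : Type) [Field K] [NumberField K] (n : ℕ) : Kˣ :=
  if h : (n : K) ≠ 0 then Units.mk0 (n : K) h else 1

theorem qxc_val {n : ℕ} (hn : n ≠ 0) : ((qxc K n : Kˣ) : K) = n := by
  unfold qxc
  rw [dif_pos (by exact_mod_cast hn), Units.val_mk0]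

theorem qxc_mul {n m : ℕ} (hn : n ≠ 0) (hm : m ≠ 0) : qxc K (n * m) = qxc K n * qxc K m := by
  apply Units.ext
  rw [Units.val_mul, qxc_val hn, qxc_val hm, qxc_val (Nat.mul_ne_zero hn hm)]
  push_cast
  rfl

theorem qxc_one : qxc K 1 = 1 := by
  apply Units.ext
  rw [qxc_val one_ne_zero]
  simp

theorem qx_notMem {v : Pl K} {q : ℕ} (hq : (q : 𝓞 K) ∈ v.asIdeal) {n : ℕ} (hn : Nat.Coprime n q) :
    (n : 𝓞 K) ∉ v.asIdeal := by
  intro h
  apply v.isPrime.ne_top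
  rw [Ideal.eq_top_iff_one]
  obtain ⟨a, b, hab⟩ := (Nat.isCoprime_iff_coprime.2 hn)
  have h1 : (1 : 𝓞 K) = (a : 𝓞 K) * (n : 𝓞 K) + (b : 𝓞 K) * (q : 𝓞 K) := by
    have := congrArg (fun z : ℤ => (z : 𝓞 K)) hab
    push_cast at this
    exact this.symm
  rw [h1]
  exact v.asIdeal.add_mem (v.asIdeal.mul_mem_left _ h) (v.asIdeal.mul_mem_left _ hq)

theorem qx_ord {v : Pl K} {q : ℕ} (hq : (q : 𝓞 K) ∈ v.asIdeal) {n : ℕ} (hn0 : n ≠ 0)
    (hn : Nat.Coprime n q) : ord v (qxc K n) = 0 := by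
  rw [ord_eq_zero_iff, qxc_val hn0]
  have h1 : (n : K) = algebraMap (𝓞 K) K (n : 𝓞 K) := (map_natCast _ _).symm
  rw [h1, HeightOneSpectrum.valuation_eq_one_iff_notMem]
  exact qx_notMem hq hn

theorem qx_one1 {v : Pl K} {q : ℕ} (hq : (q : 𝓞 K) ∈ v.asIdeal) {n m : ℕ} (hn0 : n ≠ 0)
    (hm0 : m ≠ 0) (hm : Nat.Coprime m q) (h : (n : ZMod q) = (m : ZMod q)) :
    One1 v (qxc K n * (qxc K m)⁻¹) := by
  unfold One1
  have hmK : (m : K) ≠ 0 := by exact_mod_cast hm0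
  have h1 : ((qxc K n * (qxc K m)⁻¹ : Kˣ) : K) - 1 = ((n : K) - m) * (m : K)⁻¹ := by
    rw [Units.val_mul, Units.val_inv_eq_inv_val, qxc_val hn0, qxc_val hm0]
    field_simp
  have h2 : v.valuation K (m : K) = 1 := by
    have := (ord_eq_zero_iff v (qxc K m)).1 (qx_ord hq hm0 hm)
    rwa [qxc_val hm0] at this
  rw [h1, map_mul, map_inv₀, h2, inv_one, mul_one]
  have h3 : (n : K) - m = algebraMap (𝓞 K) K ((n : 𝓞 K) - (m : 𝓞 K)) := by
    rw [map_sub, map_natCast, map_natCast]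
  rw [h3, HeightOneSpectrum.valuation_lt_one_iff_mem]
  have h4 : (q : ℤ) ∣ (n : ℤ) - m := by
    rw [← ZMod.intCast_zmod_eq_zero_iff_dvd]
    push_cast
    rw [h, sub_self]
  obtain ⟨k, hk⟩ := h4
  have h5 : (n : 𝓞 K) - (m : 𝓞 K) = (k : 𝓞 K) * (q : 𝓞 K) := by
    have := congrArg (fun z : ℤ => (z : 𝓞 K)) hk
    push_cast at this
    rw [this, mul_comm]
  rw [h5]
  exact v.asIdeal.mul_mem_left _ hq

theorem qx_lg {p : ℕ} (hp : p.Prime) {ζ : K} (hζ : IsPrimitiveRoot ζ p) {v : Pl K}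
    (hv : ¬ Above p v) {q : ℕ} (hq : (q : 𝓞 K) ∈ v.asIdeal) {n m : ℕ} (hn0 : n ≠ 0)
    (hm0 : m ≠ 0) (hm : Nat.Coprime m q) (h : (n : ZMod q) = (m : ZMod q)) :
    lg p ζ v (qxc K n) = lg p ζ v (qxc K m) := by
  have h1 := qx_one1 hq hn0 hm0 hm h
  have h2 : qxc K n = (qxc K n * (qxc K m)⁻¹) * qxc K m := by group
  rw [h2, lg_mul hp hζ hv (ord_of_one1 h1) (qx_ord hq hm0 hm), lg_of_one1 hp hζ hv h1, zero_add]

/-- the homomorphism -/
theorem qx_theta {p : ℕ} (hp : p.Prime) {ζ : K} (hζ : IsPrimitiveRoot ζ p) {v : Pl K}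
    (hv : ¬ Above p v) {q : ℕ} (hqp : q.Prime) (hq : (q : 𝓞 K) ∈ v.asIdeal) :
    ∃ θ : (ZMod q)ˣ →* Multiplicative (ZMod p), ∀ (u : (ZMod q)ˣ) (n : ℕ), n ≠ 0 →
      Nat.Coprime n q → (u : ZMod q) = (n : ZMod q) →
      Multiplicative.toAdd (θ u) = lg p ζ v (qxc K n) := by
  have hF : Fact q.Prime := ⟨hqp⟩
  have hNZ : NeZero q := ⟨hqp.ne_zero⟩
  have hu0 : ∀ u : (ZMod q)ˣ, (u : ZMod q).val ≠ 0 := by
    intro u h0
    rw [ZMod.val_eq_zero] at h0
    exact u.ne_zero h0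
  have hucop : ∀ u : (ZMod q)ˣ, Nat.Coprime (u : ZMod q).val q := fun u => ZMod.val_coe_unit_coprime u
  refine ⟨{ toFun := fun u => Multiplicative.ofAdd (lg p ζ v (qxc K (u : ZMod q).val))
            map_one' := ?_
            map_mul' := ?_ }, ?_⟩
  · have h1 : ((1 : (ZMod q)ˣ) : ZMod q).val = 1 := by
      have : Fact (1 < q) := ⟨hqp.one_lt⟩
      rw [Units.val_one, ZMod.val_one]
    rw [h1, qxc_one, lg_one hp hζ hv]
    rfl
  · intro u w
    rw [← ofAdd_add]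
    congr 1
    rw [← lg_mul hp hζ hv (qx_ord hq (hu0 u) (hucop u)) (qx_ord hq (hu0 w) (hucop w)),
      ← qxc_mul (hu0 u) (hu0 w)]
    refine qx_lg hp hζ hv hq (hu0 _) (Nat.mul_ne_zero (hu0 u) (hu0 w))
      (Nat.Coprime.mul_left (hucop u) (hucop w)) ?_
    push_cast
    rw [ZMod.natCast_zmod_val, ZMod.natCast_zmod_val, ZMod.natCast_zmod_val]
  · intro u n hn0 hn hun
    show lg p ζ v (qxc K (u : ZMod q).val) = _
    refine qx_lg hp hζ hv hq (hu0 u) hn0 hn ?_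
    rw [ZMod.natCast_zmod_val]
    exact hun

theorem qx_spl {p : ℕ} (hp : p.Prime) {ζ : K} (hζ : IsPrimitiveRoot ζ p) {v : Pl K}
    (hv : ¬ Above p v) {c : Kˣ} (hc : ord v c = 0) : Spl p ζ v c ↔ lg p ζ v c = 0 := by
  constructor
  · intro h
    obtain ⟨π, hπ⟩ := exists_unif v
    have h1 := h π
    rw [B_unit hp hζ hv hc, hπ] at h1
    simpa using h1
  · intro h x
    rw [B_unit hp hζ hv hc, h, mul_zero]

end qex

theorem qx_ind {p : ℕ} (hp : p.Prime) {l : ℕ} (hl : l.Prime) (hlp : l ≠ p) {K : Type} [Field K]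
    [NumberField K] [IsCyclotomicExtension {p} ℚ K] : Ind2 p (qxc K p) (qxc K l) := by
  have hpF : Fact p.Prime := ⟨hp⟩
  have hlF : Fact l.Prime := ⟨hl⟩
  have hNZ : NeZero p := ⟨hp.ne_zero⟩
  rintro i j ⟨y, hy⟩
  have hp0 : (p : ℚ) ≠ 0 := by exact_mod_cast hp.ne_zero
  have hl0 : (l : ℚ) ≠ 0 := by exact_mod_cast hl.ne_zero
  have h1 : (y : K) ^ p = algebraMap ℚ K ((p : ℚ) ^ i * (l : ℚ) ^ j) := by
    have h2 := congrArg (fun z : Kˣ => (z : K)) hy
    simp only [Units.val_pow_eq_pow_val, Units.val_mul, Units.val_zpow_eq_zpow_val] at h2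
    rw [h2, qxc_val hp.ne_zero, qxc_val hl.ne_zero, map_mul, map_zpow₀, map_zpow₀, map_natCast,
      map_natCast]
  have h3 := congrArg (Algebra.norm ℚ) h1
  rw [map_pow, Algebra.norm_algebraMap,
    IsCyclotomicExtension.finrank (n := p) K (Polynomial.cyclotomic.irreducible_rat hp.pos),
    Nat.totient_prime hp] at h3
  obtain ⟨z, hz⟩ : ∃ z : ℚ, z = Algebra.norm ℚ (y : K) := ⟨_, rfl⟩
  rw [← hz] at h3
  have hcop : IsCoprime (p : ℤ) ((p - 1 : ℕ) : ℤ) := by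
    rw [Nat.isCoprime_iff_coprime]
    have := Nat.coprime_self_sub_right (n := p) (m := 1) hp.one_lt.le
    exact this.2 (Nat.coprime_one_right p)
  have hval : ∀ (r : ℕ) [Fact r.Prime], (p : ℤ) ∣ i * padicValRat r p + j * padicValRat r l := by
    intro r hr
    have h4 := congrArg (padicValRat r) h3
    rw [padicValRat.pow, padicValRat.pow, padicValRat.mul (zpow_ne_zero _ hp0)
      (zpow_ne_zero _ hl0), padicValRat.zpow, padicValRat.zpow] at h4
    exact hcop.dvd_of_dvd_mul_left (Dvd.intro _ h4)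
  constructor
  · have h5 := hval p
    rw [padicValRat.self hp.one_lt] at h5
    have h6 : padicValRat p (l : ℚ) = 0 := by
      rw [padicValRat.of_nat, padicValNat.eq_zero_of_not_dvd, Nat.cast_zero]
      intro h
      exact hlp ((Nat.prime_dvd_prime_iff_eq hp hl).1 h).symm
    rw [h6] at h5
    simpa using h5
  · have h5 := hval l
    rw [padicValRat.self hl.one_lt] at h5
    have h6 : padicValRat l (p : ℚ) = 0 := by
      rw [padicValRat.of_nat, padicValNat.eq_zero_of_not_dvd, Nat.cast_zero]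
      intro h
      exact hlp ((Nat.prime_dvd_prime_iff_eq hl hp).1 h)
    rw [h6] at h5
    simpa using h5

theorem qex_char (q : ℕ) [Fact q.Prime] :
    ∃ θ : (ZMod q)ˣ →* Multiplicative (ZMod 2), ∀ u, θ u = 1 ↔ IsSquare (u : ZMod q) := by
  classical
  have hd : ∀ u : (ZMod q)ˣ, quadraticChar (ZMod q) (u : ZMod q) = 1 ∨
      quadraticChar (ZMod q) (u : ZMod q) = -1 := fun u => quadraticChar_dichotomy u.ne_zero
  refine ⟨{ toFun := fun u => if quadraticChar (ZMod q) (u : ZMod q) = 1 then 1 else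
              Multiplicative.ofAdd (1 : ZMod 2)
            map_one' := ?_
            map_mul' := ?_ }, fun u => ?_⟩
  · rw [Units.val_one, map_one, if_pos rfl]
  · intro u v
    rw [Units.val_mul, map_mul]
    rcases hd u with h1 | h1 <;> rcases hd v with h2 | h2 <;> rw [h1, h2] <;> decide
  · rw [← quadraticChar_one_iff_isSquare (F := ZMod q) u.ne_zero]
    change (if quadraticChar (ZMod q) (u : ZMod q) = 1 then (1 : Multiplicative (ZMod 2)) else
              Multiplicative.ofAdd (1 : ZMod 2)) = 1 ↔ _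
    rcases hd u with h1 | h1 <;> rw [h1] <;> decide

theorem qex_two (l l' M : ℕ) (hl : l.Prime) (hl' : l'.Prime) (hl2 : l ≠ 2) (hl2' : l' ≠ 2) :
    ∃ q : ℕ, q.Prime ∧ M < q ∧ q % 8 = 1 ∧ ¬ IsSquare (l : ZMod q) ∧
      ¬ IsSquare (l' : ZMod q) := by
  have hF : Fact l.Prime := ⟨hl⟩
  have hF' : Fact l'.Prime := ⟨hl'⟩
  have hns : ∀ (r : ℕ) [Fact r.Prime], r ≠ 2 → ∃ a : ZMod r, ¬ IsSquare a := by
    intro r _ hr
    refine FiniteField.exists_nonsquare ?_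
    rwa [ZMod.ringChar_zmod_n]
  obtain ⟨a, ha⟩ := hns l hl2
  obtain ⟨a', ha'⟩ := hns l' hl2'
  have hNZ : NeZero l := ⟨hl.ne_zero⟩
  have hNZ' : NeZero l' := ⟨hl'.ne_zero⟩
  have c8 : ∀ r : ℕ, r.Prime → r ≠ 2 → Nat.Coprime 8 r := by
    intro r hr h2
    have : Nat.Coprime (2 ^ 3) r := Nat.Coprime.pow_left 3 ((Nat.coprime_primes Nat.prime_two hr).2 (Ne.symm h2))
    exact this
  -- a residue class
  obtain ⟨k, hk8, hkl, hkl'⟩ : ∃ k : ℕ, k ≡ 1 [MOD 8] ∧ ¬ IsSquare (k : ZMod l) ∧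
      ¬ IsSquare (k : ZMod l') := by
    by_cases hll : l = l'
    · subst hll
      obtain ⟨k, h1, h2⟩ := Nat.chineseRemainder (c8 l hl hl2) 1 a.val
      refine ⟨k, h1, ?_, ?_⟩ <;>
      · have h3 : (k : ZMod l) = a := by
          rw [(ZMod.natCast_eq_natCast_iff _ _ _).2 h2, ZMod.natCast_zmod_val]
        rwa [h3]
    · obtain ⟨k0, h1, h2⟩ := Nat.chineseRemainder (c8 l hl hl2) 1 a.val
      have hc : Nat.Coprime (8 * l) l' :=
        Nat.Coprime.mul_left (c8 l' hl' hl2') ((Nat.coprime_primes hl hl').2 hll)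
      obtain ⟨k, h3, h4⟩ := Nat.chineseRemainder hc k0 a'.val
      refine ⟨k, (h3.of_mul_right l).trans h1, ?_, ?_⟩
      · have h5 : (k : ZMod l) = a := by
          rw [(ZMod.natCast_eq_natCast_iff _ _ _).2 ((h3.of_mul_left 8).trans h2),
            ZMod.natCast_zmod_val]
        rwa [h5]
      · have h5 : (k : ZMod l') = a' := by
          rw [(ZMod.natCast_eq_natCast_iff _ _ _).2 h4, ZMod.natCast_zmod_val]
        rwa [h5]
  have hcop : Nat.Coprime k (8 * l * l') := by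
    have h0 : ∀ r : ℕ, r.Prime → ¬ IsSquare (k : ZMod r) → Nat.Coprime k r := by
      intro r hr h
      rw [Nat.coprime_comm, hr.coprime_iff_not_dvd]
      intro hd
      apply h
      rw [(ZMod.natCast_eq_zero_iff _ _).2 hd]
      exact IsSquare.zero
    have h8 : Nat.Coprime k 8 := by
      have : Nat.gcd k 8 = Nat.gcd 1 8 := hk8.gcd_eq
      rw [Nat.coprime_iff_gcd_eq_one, this]
      decide
    exact Nat.Coprime.mul_right (Nat.Coprime.mul_right h8 (h0 l hl hkl)) (h0 l' hl' hkl')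
  have hNZQ : NeZero (8 * l * l') := ⟨Nat.mul_ne_zero (Nat.mul_ne_zero (by norm_num) hl.ne_zero) hl'.ne_zero⟩
  have hu : IsUnit (k : ZMod (8 * l * l')) := (ZMod.isUnit_iff_coprime k (8 * l * l')).2 hcop
  obtain ⟨q, hqM, hq, hqk⟩ := Nat.forall_exists_prime_gt_and_eq_mod hu (M + l + l' + 8)
  have hqk' : q ≡ k [MOD 8 * l * l'] := (ZMod.natCast_eq_natCast_iff _ _ _).1 hqk
  have e8 : q ≡ 1 [MOD 8] := ((hqk'.of_mul_right l').of_mul_right l).trans hk8
  have el : q ≡ k [MOD l] := (hqk'.of_mul_right l').of_mul_left 8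
  have el' : q ≡ k [MOD l'] := hqk'.of_mul_left (8 * l)
  have hq8 : q % 8 = 1 := by
    have : q % 8 = 1 % 8 := e8
    omega
  have hFq : Fact q.Prime := ⟨hq⟩
  refine ⟨q, hq, by omega, hq8, ?_, ?_⟩
  · rw [ZMod.exists_sq_eq_prime_iff_of_mod_four_eq_one (by omega) hl2,
      (ZMod.natCast_eq_natCast_iff _ _ _).2 el]
    exact hkl
  · rw [ZMod.exists_sq_eq_prime_iff_of_mod_four_eq_one (by omega) hl2',
      (ZMod.natCast_eq_natCast_iff _ _ _).2 el']
    exact hkl'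

theorem exists_q_two (l l' M : ℕ) (hl : l.Prime) (hl' : l'.Prime) (hl2 : l ≠ 2) (hl2' : l' ≠ 2) :
    ∃ q : ℕ, q.Prime ∧ M < q ∧ 2 ∣ q - 1 ∧ ∃ θ : (ZMod q)ˣ →* Multiplicative (ZMod 2),
      Function.Surjective θ ∧ (∀ u : (ZMod q)ˣ, (u : ZMod q) = ((2 : ℕ) : ZMod q) → θ u = 1) ∧
      (∀ u : (ZMod q)ˣ, (u : ZMod q) = -1 → θ u = 1) ∧
      (∀ u : (ZMod q)ˣ, (u : ZMod q) = (l : ZMod q) → θ u ≠ 1) ∧
      (∀ u : (ZMod q)ˣ, (u : ZMod q) = (l' : ZMod q) → θ u ≠ 1) := by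
  obtain ⟨q, hq, hqM, hq8, h1, h2⟩ := qex_two l l' (M + l + l') hl hl' hl2 hl2'
  have hF : Fact q.Prime := ⟨hq⟩
  have hq2 : q ≠ 2 := by
    rintro rfl
    omega
  obtain ⟨θ, hθ⟩ := qex_char q
  refine ⟨q, hq, by omega, by omega, θ, ?_, fun u hu => ?_, fun u hu => ?_, fun u hu => ?_,
    fun u hu => ?_⟩
  · have hcl : Nat.Coprime l q := (Nat.coprime_primes hl hq).2 (by omega)
    obtain ⟨u, hu⟩ : ∃ u : (ZMod q)ˣ, (u : ZMod q) = (l : ZMod q) :=
      ⟨ZMod.unitOfCoprime l hcl, ZMod.coe_unitOfCoprime l hcl⟩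
    have hu1 : θ u ≠ 1 := by
      rw [Ne, hθ, hu]
      exact h1
    have key : ∀ x y : Multiplicative (ZMod 2), x ≠ 1 → y = 1 ∨ y = x := by decide
    intro y
    rcases key (θ u) y hu1 with h | h
    · exact ⟨1, by rw [map_one, h]⟩
    · exact ⟨u, h.symm⟩
  · rw [hθ, hu]
    have h3 := (ZMod.exists_sq_eq_two_iff hq2).2 (Or.inl hq8)
    exact_mod_cast h3
  · rw [hθ, hu]
    exact ZMod.exists_sq_eq_neg_one_iff.2 (by omega)
  · rw [Ne, hθ, hu]
    exact h1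
  · rw [Ne, hθ, hu]
    exact h2

theorem exists_q {p : ℕ} (hp : p.Prime) (l l' M : ℕ) (hl : l.Prime) (hl' : l'.Prime)
    (hlp : l ≠ p) (hlp' : l' ≠ p) :
    ∃ q : ℕ, q.Prime ∧ M < q ∧ p ∣ q - 1 ∧ ∃ θ : (ZMod q)ˣ →* Multiplicative (ZMod p),
      Function.Surjective θ ∧ (∀ u : (ZMod q)ˣ, (u : ZMod q) = (p : ZMod q) → θ u = 1) ∧
      (∀ u : (ZMod q)ˣ, (u : ZMod q) = -1 → θ u = 1) ∧
      (∀ u : (ZMod q)ˣ, (u : ZMod q) = (l : ZMod q) → θ u ≠ 1) ∧
      (∀ u : (ZMod q)ˣ, (u : ZMod q) = (l' : ZMod q) → θ u ≠ 1) := by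
  by_cases hp2 : p = 2
  · subst hp2
    exact exists_q_two l l' M hl hl' hlp hlp'
  have hpF : Fact p.Prime := ⟨hp⟩
  have hNZ : NeZero p := ⟨hp.ne_zero⟩
  have hp3 : 3 ≤ p := by
    have := hp.two_le
    omega
  have hQ : NeZero ((p : ℕ) : ℚ) := ⟨by exact_mod_cast hp.ne_zero⟩
  obtain ⟨K, iF, iN, iC⟩ : ∃ (K : Type) (_ : Field K) (_ : NumberField K),
      IsCyclotomicExtension {p} ℚ K := by
    refine ⟨CyclotomicField p ℚ, inferInstance, inferInstance, ?_⟩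
    have e : ∀ (i1 i2 : Algebra ℚ (CyclotomicField p ℚ)),
        @IsCyclotomicExtension {p} ℚ (CyclotomicField p ℚ) _ _ i1 →
        @IsCyclotomicExtension {p} ℚ (CyclotomicField p ℚ) _ _ i2 := by
      intro i1 i2 h
      have h12 : i1 = i2 := Subsingleton.elim _ _
      rw [← h12]
      exact h
    exact e _ _ (CyclotomicField.isCyclotomicExtension p ℚ)
  obtain ⟨ζ, hζ⟩ : ∃ ζ : K, IsPrimitiveRoot ζ p :=
    ⟨IsCyclotomicExtension.zeta p ℚ K, IsCyclotomicExtension.zeta_spec p ℚ K⟩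
  have hI := qx_ind hp hl hlp (K := K)
  have hI' := qx_ind hp hl' hlp' (K := K)
  have hnp : ¬ IsPow p (qxc K p) := by
    intro h
    have h1 := (hI 1 0 (by rw [zpow_one, zpow_zero, mul_one]; exact h)).1
    have h2 := Int.le_of_dvd one_pos h1
    have h3 := hp.two_le
    omega
  obtain ⟨C0, hC0⟩ := pz_spl hp hζ hnp
  obtain ⟨C1, hC1⟩ := pz_spl2 hp hζ hI
  obtain ⟨C2, hC2⟩ := pz_spl2 hp hζ hI'
  obtain ⟨C3, hC3⟩ := pz_deg K
  obtain ⟨X, hX⟩ : ∃ X, X = M + p + l + l' := ⟨_, rfl⟩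
  have hfin : {v : Pl K | nm v ≤ X}.Finite := by
    have h1 := (Ideal.finite_setOfPred_absNorm_le (S := 𝓞 K) X).preimage
      (f := fun v : Pl K => v.asIdeal) (fun v _ w _ h => HeightOneSpectrum.ext h)
    exact h1
  obtain ⟨C4, hC4⟩ := pz_finite hfin
  -- the prime
  obtain ⟨v, hvp, hsp, hsl, hsl', hnv, hXv⟩ : ∃ v : Pl K, ¬ Above p v ∧ Spl p ζ v (qxc K p) ∧
      ¬ Spl p ζ v (qxc K l) ∧ ¬ Spl p ζ v (qxc K l') ∧ (nm v).Prime ∧ X < nm v := by
    by_contra hcon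
    push Not at hcon
    have hpR : (3 : ℝ) ≤ p := by exact_mod_cast hp3
    have hbound : ∀ s : ℝ, 1 < s → s ≤ 2 →
        (1 / (p : ℝ) - 2 / (p : ℝ) ^ 2) * Real.log (1 / (s - 1)) ≤
          C0 / p + C1 / p ^ 2 + C2 / p ^ 2 + C3 + C4 := by
      intro s hs hs2
      have b0 := abs_le.1 (hC0 s hs hs2)
      have b1 := abs_le.1 (hC1 s hs hs2)
      have b2 := abs_le.1 (hC2 s hs hs2)
      have b3 := hC3 s hs
      have b4 := hC4 s hs
      obtain ⟨S0, hS0⟩ : ∃ S, S = {v : Pl K | ¬ Above p v ∧ Spl p ζ v (qxc K p)} := ⟨_, rfl⟩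
      obtain ⟨S1, hS1⟩ : ∃ S, S = {v : Pl K | ¬ Above p v ∧ Spl p ζ v (qxc K p) ∧
        Spl p ζ v (qxc K l)} := ⟨_, rfl⟩
      obtain ⟨S2, hS2⟩ : ∃ S, S = {v : Pl K | ¬ Above p v ∧ Spl p ζ v (qxc K p) ∧
        Spl p ζ v (qxc K l')} := ⟨_, rfl⟩
      obtain ⟨S3, hS3⟩ : ∃ S, S = {v : Pl K | ¬ (nm v).Prime} := ⟨_, rfl⟩
      obtain ⟨S4, hS4⟩ : ∃ S, S = {v : Pl K | nm v ≤ X} := ⟨_, rfl⟩
      rw [← hS0] at b0
      rw [← hS1] at b1
      rw [← hS2] at b2
      rw [← hS3] at b3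
      rw [← hS4] at b4
      have hsub : S0 ⊆ (S1 ∪ S2) ∪ (S3 ∪ S4) := by
        intro v hv
        rw [hS0] at hv
        obtain ⟨k1, k2⟩ := hv
        by_cases k3 : Spl p ζ v (qxc K l)
        · left; left
          rw [hS1]
          exact ⟨k1, k2, k3⟩
        by_cases k4 : Spl p ζ v (qxc K l')
        · left; right
          rw [hS2]
          exact ⟨k1, k2, k4⟩
        by_cases k5 : (nm v).Prime
        · right; right
          rw [hS4]
          exact hcon v k1 k2 k3 k4 k5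
        · right; left
          rw [hS3]
          exact k5
      have hun : ∀ A A' : Set (Pl K), PZ (A ∪ A') s ≤ PZ A s + PZ A' s := by
        intro A A'
        have h1 := pz_add A A' hs
        have h2 := pz_nonneg (A ∩ A') s
        linarith
      have h5 := (pz_mono hsub hs).trans (hun _ _)
      have h6 := hun S1 S2
      have h7 := hun S3 S4
      have hpp : (0 : ℝ) < p := by linarith
      have e0 : (1 / (p : ℝ)) * (Real.log (1 / (s - 1)) - C0) ≤ PZ S0 s := by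
        rw [div_mul_eq_mul_div, one_mul, div_le_iff₀ hpp]
        linarith [b0.1]
      have e1 : PZ S1 s ≤ (1 / (p : ℝ) ^ 2) * (Real.log (1 / (s - 1)) + C1) := by
        rw [div_mul_eq_mul_div, one_mul, le_div_iff₀ (by positivity)]
        linarith [b1.2]
      have e2 : PZ S2 s ≤ (1 / (p : ℝ) ^ 2) * (Real.log (1 / (s - 1)) + C2) := by
        rw [div_mul_eq_mul_div, one_mul, le_div_iff₀ (by positivity)]
        linarith [b2.2]
      have e3 : (1 / (p : ℝ)) * (Real.log (1 / (s - 1)) - C0) =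
          1 / p * Real.log (1 / (s - 1)) - C0 / p := by ring
      have e4 : ∀ c : ℝ, (1 / (p : ℝ) ^ 2) * (Real.log (1 / (s - 1)) + c) =
          1 / p ^ 2 * Real.log (1 / (s - 1)) + c / p ^ 2 := by intro c; ring
      rw [e3] at e0
      rw [e4] at e1 e2
      have e5 : (1 / (p : ℝ) - 2 / (p : ℝ) ^ 2) * Real.log (1 / (s - 1)) =
          1 / p * Real.log (1 / (s - 1)) - 2 * (1 / p ^ 2 * Real.log (1 / (s - 1))) := by ring
      rw [e5]
      linarith
    obtain ⟨D, hD⟩ : ∃ D, D = C0 / p + C1 / p ^ 2 + C2 / p ^ 2 + C3 + C4 := ⟨_, rfl⟩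
    rw [← hD] at hbound
    obtain ⟨κ, hκ⟩ : ∃ κ, κ = 1 / (p : ℝ) - 2 / (p : ℝ) ^ 2 := ⟨_, rfl⟩
    have hκ0 : 0 < κ := by
      rw [hκ]
      have h1 : 1 / (p : ℝ) - 2 / (p : ℝ) ^ 2 = (p - 2) / p ^ 2 := by
        field_simp
      rw [h1]
      apply div_pos
      · linarith
      · positivity
    rw [← hκ] at hbound
    obtain ⟨T, hT⟩ : ∃ T, T = max 0 (D / κ + 1) := ⟨_, rfl⟩
    have hT0 : 0 ≤ T := by rw [hT]; exact le_max_left _ _
    have hT1 : D / κ + 1 ≤ T := by rw [hT]; exact le_max_right _ _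
    have h1 := hbound (1 + Real.exp (-T)) (by linarith [Real.exp_pos (-T)]) (by
      have : Real.exp (-T) ≤ 1 := Real.exp_le_one_iff.2 (by linarith)
      linarith)
    rw [add_sub_cancel_left, one_div, Real.log_inv, Real.log_exp, neg_neg] at h1
    have h2 : κ * (D / κ + 1) ≤ κ * T := mul_le_mul_of_nonneg_left hT1 hκ0.le
    rw [mul_add, mul_div_cancel₀ _ hκ0.ne', mul_one] at h2
    linarith
  -- conclusion
  obtain ⟨q, hq⟩ : ∃ q, q = nm v := ⟨_, rfl⟩
  rw [← hq] at hnv hXv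
  have hqv : (q : 𝓞 K) ∈ v.asIdeal := by
    rw [hq]
    exact Ideal.absNorm_mem v.asIdeal
  have hqF : Fact q.Prime := ⟨hnv⟩
  obtain ⟨θ, hθ⟩ := qx_theta hp hζ hvp hnv hqv
  have hcop : ∀ r : ℕ, r.Prime → r < q → Nat.Coprime r q := by
    intro r hr hrq
    exact (Nat.coprime_primes hr hnv).2 (by omega)
  have hcp := hcop p hp (by omega)
  have hcl := hcop l hl (by omega)
  have hcl' := hcop l' hl' (by omega)
  have hnl : ∀ r : ℕ, r.Prime → Nat.Coprime r q → ¬ Spl p ζ v (qxc K r) →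
      ∀ u : (ZMod q)ˣ, (u : ZMod q) = (r : ZMod q) → θ u ≠ 1 := by
    intro r hr hrq hns u hu h1
    have h2 := hθ u r hr.ne_zero hrq hu
    rw [h1, toAdd_one] at h2
    exact hns ((qx_spl hp hζ hvp (qx_ord hqv hr.ne_zero hrq)).2 h2.symm)
  have hneg : ∀ u : (ZMod q)ˣ, (u : ZMod q) = -1 → θ u = 1 := by
    intro u hu
    have h1 : u ^ 2 = 1 := by
      apply Units.ext
      rw [Units.val_pow_eq_pow_val, hu, neg_one_sq, Units.val_one]
    have h2 := congrArg (fun z => Multiplicative.toAdd (θ z)) h1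
    simp only [map_pow, toAdd_pow, map_one, toAdd_one, nsmul_eq_mul] at h2
    have h3 : ((2 : ℕ) : ZMod p) ≠ 0 := by
      rw [Ne, ZMod.natCast_eq_zero_iff]
      intro hd
      exact hp2 ((Nat.prime_dvd_prime_iff_eq hp Nat.prime_two).1 hd)
    exact toAdd_eq_zero.1 ((mul_eq_zero.1 h2).resolve_left h3)
  refine ⟨q, hnv, by omega, ?_, θ, ?_, ?_, hneg, hnl l hl hcl hsl, hnl l' hl' hcl' hsl'⟩
  · have := dvd_nm hp hζ hvp
    rwa [← hq] at this
  · intro y
    obtain ⟨u, hu⟩ : ∃ u : (ZMod q)ˣ, (u : ZMod q) = (l : ZMod q) :=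
      ⟨ZMod.unitOfCoprime l hcl, ZMod.coe_unitOfCoprime l hcl⟩
    have h1 := hnl l hl hcl hsl u hu
    obtain ⟨a, ha⟩ : ∃ a : ZMod p, a = Multiplicative.toAdd (θ u) := ⟨_, rfl⟩
    have ha0 : a ≠ 0 := by
      intro h0
      apply h1
      rw [ha] at h0
      exact toAdd_eq_zero.1 h0
    refine ⟨u ^ (Multiplicative.toAdd y / a).val, ?_⟩
    apply Multiplicative.toAdd.injective
    rw [map_pow, toAdd_pow, ← ha, nsmul_eq_mul, ZMod.natCast_zmod_val, div_mul_cancel₀ _ ha0]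
  · intro u hu
    have h2 := hθ u p hp.ne_zero hcp hu
    rw [(qx_spl hp hζ hvp (qx_ord hqv hp.ne_zero hcp)).1 hsp] at h2
    exact toAdd_eq_zero.1 h2

end H63.MA
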