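import Pool.Agent.H63.MA.Scal
import Pool.Agent.H63.MA.QEx
import Pool.Agent.H63.MA.GaussB

/-!
# MA-NORMZ: the reciprocity law: `lam v = 1` at all primes of prime norm

`exists_rec_one`: there is `lam` with `IsRec p ζ lam` and `lam v = 1` for all `v ∤ p` with `nm v` a prime number.

Proof. Let `lam` be as in `exists_rec`. Claim: for `q, θ` with `θ(p) = 0`, `θ` surjective, `q ≠ p`, and `a` as in `gauss_exists`
(`Prim p a` by `gauss_prim`), there is `κ ≠ 0` with `lam v = κ` for all `v ∤ p q` with `θ(nm v) ≠ 0`.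
Proof of the claim: assume that there is at least one such `v` (otherwise nothing to prove); then `lg v a ≠ 0`, `ord v a = 0`, so `a` is
not a `p`-th power. Let `𝔣 = (p q)`, `f₁ v = lam v * lg v a`, `f₂ v = θ(nm v)` for `v ∤ p q`, `0` otherwise. Both are `IsRay`:
for `x ≡ 1 mod p q` integral: `∑ f₁ v ord v x = ∑_v lam v B v a x = 0` (for `v ∤ p q`: `B v a x = ord v x * lg v a` by `B_unit`; for `v ∣ q`:
`B v a x = 0` by `B_of_one1`; `v ∣ p`: `lam v = 0`), and `∑ θ(nm v) ord v x = θ(∏ nm v ^ ord v x) = θ(|N x|)`, where the norm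
`N_{K/ℚ}(x) ≡ 1 mod q` (product over the embeddings / determinant of the multiplication by `x` on `𝓞 K / q`) and is positive
because `K` has no real place; so it is `θ(1) = 0`. Both vanish on the `v ∤ p q` with `Spl v a` (`lg v a = 0`, `θ(nm v) = - lg v a`). If
`f₁, f₂` were independent, `den_ray` with `m = 2` would contradict `pz_spl` for `a`. So `i f₁ + j f₂ = 0` with `(i,j) ≠ 0`. `f₂ ≠ 0` by
assumption, so `i ≠ 0`. `f₁ ≠ 0`: the family `lam v * B v a ·` (`IsFam`; the sum is `0` by `IsRec.sum`) is not zero (`IsRec.non`), so by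
`fam_zero_of` it is nonzero at some `v ∤ p q`, where it is `ord v x * f₁ v`. So `f₁ = κ' f₂` with `κ' ≠ 0`, `lam v lg v a = κ' θ(nm v) = - κ' lg v a`,
`κ = -κ'`.
Now let `v₀, v` be primes of prime norm not above `p`, `l = nm v₀`, `l' = nm v`. `exists_q` (with `M` larger than `p, l, l'`) and the
claim: `lam v₀ = lam v ≠ 0`. So `lam` is constant `= κ₀ ≠ 0` on the primes of prime norm; divide `lam` by `κ₀`. (If there is no prime of
prime norm at all nothing has to be done.)
-/

set_option autoImplicit false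

open scoped NumberField
open IsDedekindDomain

noncomputable section

namespace H63.MA

/-! ### the additive version of `θ` -/

open Classical in
/-- the additive version of `θ`, extended to `ZMod q` -/
private def nz_th {p q : ℕ} (θ : (ZMod q)ˣ →* Multiplicative (ZMod p)) (z : ZMod q) : ZMod p :=
  if h : IsUnit z then Multiplicative.toAdd (θ h.unit) else 0

private theorem nz_th_unit {p q : ℕ} (θ : (ZMod q)ˣ →* Multiplicative (ZMod p)) (u : (ZMod q)ˣ) :
    nz_th θ (u : ZMod q) = Multiplicative.toAdd (θ u) := by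
  unfold nz_th
  rw [dif_pos u.isUnit]
  congr 2
  exact Units.ext (IsUnit.unit_spec _)

private theorem nz_th_mul {p q : ℕ} (θ : (ZMod q)ˣ →* Multiplicative (ZMod p)) {z w : ZMod q}
    (hz : IsUnit z) (hw : IsUnit w) : nz_th θ (z * w) = nz_th θ z + nz_th θ w := by
  obtain ⟨u, rfl⟩ := hz
  obtain ⟨u', rfl⟩ := hw
  rw [← Units.val_mul, nz_th_unit, nz_th_unit, nz_th_unit, map_mul, toAdd_mul]

private theorem nz_th_one {p q : ℕ} (θ : (ZMod q)ˣ →* Multiplicative (ZMod p)) :
    nz_th θ (1 : ZMod q) = 0 := by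
  rw [← Units.val_one, nz_th_unit, map_one, toAdd_one]

private theorem nz_th_pow {p q : ℕ} (θ : (ZMod q)ˣ →* Multiplicative (ZMod p)) {z : ZMod q}
    (hz : IsUnit z) (n : ℕ) : nz_th θ (z ^ n) = n * nz_th θ z := by
  induction n with
  | zero => rw [pow_zero, nz_th_one, Nat.cast_zero, zero_mul]
  | succ n ih =>
    rw [pow_succ, nz_th_mul θ (hz.pow n) hz, ih]
    push_cast
    ring

private theorem nz_th_prod {ι : Type} {p q : ℕ} (θ : (ZMod q)ˣ →* Multiplicative (ZMod p))
    (T : Finset ι) (f : ι → ZMod q) (hf : ∀ i ∈ T, IsUnit (f i)) :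
    IsUnit (∏ i ∈ T, f i) ∧ nz_th θ (∏ i ∈ T, f i) = ∑ i ∈ T, nz_th θ (f i) := by
  classical
  induction T using Finset.induction_on with
  | empty => exact ⟨by simp, by simp [nz_th_one]⟩
  | insert a s ha ih =>
    obtain ⟨h1, h2⟩ := ih fun i hi => hf i (Finset.mem_insert_of_mem hi)
    have h3 := hf a (Finset.mem_insert_self _ _)
    rw [Finset.prod_insert ha, Finset.sum_insert ha]
    exact ⟨h3.mul h1, by rw [nz_th_mul θ h3 h1, h2]⟩

variable {K : Type} [Field K] [NumberField K]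

/-! ### norms -/

private theorem nz_unit {q : ℕ} (hq : q.Prime) {v : Pl K} (hv : ¬ Above q v) :
    IsUnit (nm v : ZMod q) := by
  haveI : Fact q.Prime := ⟨hq⟩
  rw [isUnit_iff_ne_zero, Ne, ZMod.natCast_eq_zero_iff]
  intro hd
  rw [← symb_card] at hd
  haveI : v.asIdeal.IsMaximal := v.isMaximal
  letI : Field (symbK v) := Ideal.Quotient.field v.asIdeal
  haveI : Finite (symbK v) := Ideal.finiteQuotientOfFreeOfNeBot _ v.ne_bot
  obtain ⟨x, hx⟩ := exists_prime_addOrderOf_dvd_card' (G := symbK v) q hd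
  have h1 : q • x = 0 := by
    rw [← hx]
    exact addOrderOf_nsmul_eq_zero x
  have h2 : x ≠ 0 := by
    rintro rfl
    rw [addOrderOf_zero] at hx
    exact hq.one_lt.ne hx
  rw [nsmul_eq_mul] at h1
  have h3 := (mul_eq_zero.1 h1).resolve_right h2
  apply hv
  unfold Above
  rw [← Ideal.Quotient.eq_zero_iff_mem, map_natCast]
  exact h3

private theorem nz_ord (v : Pl K) (x : Kˣ) (a : 𝓞 K) (ha : a ≠ 0)
    (hx : (x : K) = algebraMap (𝓞 K) K a) :
    ord v x = ((Associates.mk v.asIdeal).count (Associates.mk (Ideal.span {a})).factors : ℤ) := by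
  unfold ord
  rw [hx, HeightOneSpectrum.valuation_of_algebraMap, v.intValuation_if_neg ha]
  simp

private theorem nz_absNorm (x : Kˣ) (a : 𝓞 K) (ha : a ≠ 0)
    (hx : (x : K) = algebraMap (𝓞 K) K a) (T : Finset (Pl K)) (hT : ∀ v, ord v x ≠ 0 → v ∈ T) :
    Ideal.absNorm (Ideal.span {a}) = ∏ v ∈ T, nm v ^ (ord v x).toNat := by
  classical
  have hI : Ideal.span {a} ≠ 0 := by
    rw [Ne, Ideal.zero_eq_bot, Ideal.span_singleton_eq_bot]
    exact ha
  have hpow : ∀ v : Pl K, v.maxPowDividing (Ideal.span {a}) = v.asIdeal ^ (ord v x).toNat := by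
    intro v
    unfold HeightOneSpectrum.maxPowDividing
    rw [nz_ord v x a ha hx]
    simp
  have h1 := Ideal.finprod_heightOneSpectrum_factorization hI
  rw [finprod_eq_prod_of_mulSupport_subset (s := T) _ (by
    intro v hv
    rw [Function.mem_mulSupport, hpow] at hv
    refine hT v fun h0 => hv ?_
    rw [h0]
    simp)] at h1
  rw [← h1, map_prod]
  refine Finset.prod_congr rfl fun v _ => ?_
  rw [hpow, map_pow]
  rfl

private theorem nz_norm_mod (q : ℕ) (a : 𝓞 K) (ha : a - 1 ∈ Ideal.span {(q : 𝓞 K)}) :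
    ((Algebra.norm ℤ a : ℤ) : ZMod q) = 1 := by
  classical
  obtain ⟨c, hc⟩ := Ideal.mem_span_singleton'.1 ha
  have ha' : a = 1 + (q : ℤ) • c := by
    rw [zsmul_eq_mul]
    push_cast
    rw [mul_comm, hc]
    ring
  set b := NumberField.RingOfIntegers.basis K
  rw [Algebra.norm_eq_matrix_det b a, ha', map_add, map_one, map_zsmul]
  have h2 : ((Matrix.det (1 + (q : ℤ) • Algebra.leftMulMatrix b c) : ℤ) : ZMod q) =
      Matrix.det ((1 + (q : ℤ) • Algebra.leftMulMatrix b c).map (Int.castRingHom (ZMod q))) := by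
    rw [← RingHom.mapMatrix_apply, ← RingHom.map_det]
    rfl
  rw [h2]
  have h3 : (1 + (q : ℤ) • Algebra.leftMulMatrix b c).map (Int.castRingHom (ZMod q)) = 1 := by
    rw [← RingHom.mapMatrix_apply, map_add, map_one, map_zsmul]
    ext i j
    simp
  rw [h3, Matrix.det_one]

private theorem nz_norm_sum {p q : ℕ} (hq : q.Prime)
    (θ : (ZMod q)ˣ →* Multiplicative (ZMod p)) (hneg : nz_th θ (-1 : ZMod q) = 0) (x : Kˣ)
    (a : 𝓞 K)
    (hx : (x : K) = algebraMap (𝓞 K) K a) (ha : a - 1 ∈ Ideal.span {(q : 𝓞 K)}) :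
    ∑ᶠ v, nz_th θ (nm v : ZMod q) * (ord v x : ZMod p) = 0 ∧
      ∀ v, Above q v → ord v x = 0 := by
  have ha0 : a ≠ 0 := by
    rintro rfl
    rw [map_zero] at hx
    exact x.ne_zero hx
  have hq0 : ∀ v, Above q v → ord v x = 0 := by
    intro v hv
    refine ord_of_one1 ?_
    unfold One1
    have h1 : (x : K) - 1 = algebraMap (𝓞 K) K (a - 1) := by rw [hx, map_sub, map_one]
    rw [h1, symb_mem]
    exact (Ideal.span_singleton_le_iff_mem _).2 hv ha
  refine ⟨?_, hq0⟩
  set T := (finite_ord x).toFinset with hT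
  have hTm : ∀ v, v ∈ T ↔ ord v x ≠ 0 := fun v => (finite_ord x).mem_toFinset
  have h0 : ∀ v, 0 ≤ ord v x := fun v => by
    rw [nz_ord v x a ha0 hx]
    exact Nat.cast_nonneg _
  have h1 := nz_absNorm x a ha0 hx T (fun v hv => (hTm v).2 hv)
  have hu : ∀ v ∈ T, IsUnit (nm v : ZMod q) := by
    intro v hv
    refine nz_unit hq fun h => (hTm v).1 hv (hq0 v h)
  rw [finsum_eq_sum_of_support_subset (s := T) _ (by
    intro v hv
    rw [Function.mem_support] at hv
    refine (hTm v).2 fun h => hv ?_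
    rw [h, Int.cast_zero, mul_zero])]
  have h2 := (nz_th_prod θ T (fun v => (nm v : ZMod q) ^ (ord v x).toNat)
    (fun v hv => (hu v hv).pow _)).2
  have h3 : ∑ v ∈ T, nz_th θ ((nm v : ZMod q) ^ (ord v x).toNat) =
      ∑ v ∈ T, nz_th θ (nm v : ZMod q) * (ord v x : ZMod p) := by
    refine Finset.sum_congr rfl fun v hv => ?_
    rw [nz_th_pow θ (hu v hv), mul_comm]
    congr 1
    have : ((ord v x).toNat : ℤ) = ord v x := Int.toNat_of_nonneg (h0 v)
    rw [← this]
    simp
  rw [← h3, ← h2]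
  have h4 : ∏ v ∈ T, (nm v : ZMod q) ^ (ord v x).toNat =
      ((Ideal.absNorm (Ideal.span {a}) : ℕ) : ZMod q) := by
    rw [h1]
    push_cast
    rfl
  rw [h4, Ideal.absNorm_span_singleton]
  have h5 := nz_norm_mod q a ha
  rcases Int.natAbs_eq (Algebra.norm ℤ a) with h | h
  · have h6 : (((Algebra.norm ℤ a).natAbs : ℕ) : ZMod q) = 1 := by
      rw [← h5]
      conv_rhs => rw [h]
      simp
    rw [h6, nz_th_one]
  · have h6 : (((Algebra.norm ℤ a).natAbs : ℕ) : ZMod q) = -1 := by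
      rw [← h5]
      conv_rhs => rw [h]
      simp
    rw [h6, hneg]

/-! ### the claim for one auxiliary prime -/

private theorem nz_above_mul {p q : ℕ} {v : Pl K}
    (h : v.asIdeal ∣ Ideal.span {((p * q : ℕ) : 𝓞 K)}) : Above p v ∨ Above q v := by
  rw [Ideal.dvd_span_singleton] at h
  push_cast at h
  exact v.isPrime.mem_or_mem h

private theorem nz_claim {p : ℕ} (hp : p.Prime) {ζ : K} (hζ : IsPrimitiveRoot ζ p)
    {lam : Pl K → ZMod p} (hlam : IsRec p ζ lam) {q : ℕ} (hq : q.Prime)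
    (θ : (ZMod q)ˣ →* Multiplicative (ZMod p)) (hneg : nz_th θ (-1 : ZMod q) = 0) (a : Kˣ)
    (hprim : Prim p a)
    (ha : ∀ v : Pl K, ¬ Above p v → ¬ Above q v → ord v a = 0 ∧
      lg p ζ v a = -nz_th θ (nm v : ZMod q)) :
    ∃ κ : ZMod p, κ ≠ 0 ∧ ∀ v : Pl K, ¬ Above p v → ¬ Above q v →
      nz_th θ (nm v : ZMod q) ≠ 0 → lam v = κ := by
  classical
  haveI : Fact p.Prime := ⟨hp⟩
  by_cases hex : ∃ v : Pl K, ¬ Above p v ∧ ¬ Above q v ∧ nz_th θ (nm v : ZMod q) ≠ 0
  swap
  · refine ⟨1, one_ne_zero, fun v h1 h2 h3 => absurd ⟨v, h1, h2, h3⟩ hex⟩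
  obtain ⟨v₀, hv₀p, hv₀q, hv₀⟩ := hex
  -- `a` is not a `p`-th power
  have hspl : ∀ v : Pl K, ¬ Above p v → ¬ Above q v → Spl p ζ v a → lg p ζ v a = 0 := by
    intro v h1 h2 h3
    obtain ⟨π, hπ⟩ := exists_unif v
    have h4 := h3 π
    rw [B_unit hp hζ h1 (ha v h1 h2).1, hπ, Int.cast_one, one_mul] at h4
    exact h4
  have hnp : ¬ IsPow p a := by
    rintro ⟨y, rfl⟩
    have h1 : Spl p ζ v₀ (y ^ p) := by
      intro x
      have h2 := B_zpow_left hp hζ hv₀p y x (p : ℤ)
      rw [zpow_natCast] at h2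
      rw [h2, Int.cast_natCast, CharP.cast_eq_zero, zero_mul]
    have h3 := hspl v₀ hv₀p hv₀q h1
    rw [(ha v₀ hv₀p hv₀q).2] at h3
    exact hv₀ (neg_eq_zero.1 h3)
  set f₁ : Pl K → ZMod p := fun v => if Above p v ∨ Above q v then 0 else lam v * lg p ζ v a
    with hf₁
  set f₂ : Pl K → ZMod p := fun v => if Above p v ∨ Above q v then 0 else
    nz_th θ (nm v : ZMod q) with hf₂
  set 𝔣 : Ideal (𝓞 K) := Ideal.span {((p * q : ℕ) : 𝓞 K)} with h𝔣
  have h𝔣0 : 𝔣 ≠ ⊥ := by
    rw [h𝔣, Ne, Ideal.span_singleton_eq_bot]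
    exact_mod_cast mul_ne_zero hp.ne_zero hq.ne_zero
  have hsubp : ∀ b : 𝓞 K, b ∈ 𝔣 → b ∈ Ideal.span {(p : 𝓞 K)} := by
    intro b hb
    rw [Ideal.mem_span_singleton] at hb ⊢
    refine dvd_trans ?_ hb
    push_cast
    exact dvd_mul_right _ _
  have hsubq : ∀ b : 𝓞 K, b ∈ 𝔣 → b ∈ Ideal.span {(q : 𝓞 K)} := by
    intro b hb
    rw [Ideal.mem_span_singleton] at hb ⊢
    refine dvd_trans ?_ hb
    push_cast
    exact dvd_mul_left _ _
  have hone : ∀ (l : ℕ) (v : Pl K) (x : Kˣ) (b : 𝓞 K), Above l v → (x : K) = algebraMap (𝓞 K) K b →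
      b - 1 ∈ Ideal.span {(l : 𝓞 K)} → One1 v x := by
    intro l v x b hv hx hb
    unfold One1
    have h1 : (x : K) - 1 = algebraMap (𝓞 K) K (b - 1) := by rw [hx, map_sub, map_one]
    rw [h1, symb_mem]
    exact (Ideal.span_singleton_le_iff_mem _).2 hv hb
  have hray1 : IsRay p 𝔣 f₁ := by
    refine ⟨fun v hv => ?_, fun x b hx hb => ?_⟩
    · simp only [hf₁]
      rw [if_pos (nz_above_mul hv)]
    · have h1 := hlam.sum a hprim x
      rw [← h1]
      refine finsum_congr fun v => ?_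
      simp only [hf₁]
      by_cases hvp : Above p v
      · rw [if_pos (Or.inl hvp), hlam.above v hvp, zero_mul, zero_mul]
      · by_cases hvq : Above q v
        · rw [if_pos (Or.inr hvq), zero_mul,
            B_of_one1 hp hζ hvp a (hone q v x b hvq hx (hsubq _ hb)), mul_zero]
        · rw [if_neg (not_or.2 ⟨hvp, hvq⟩), B_unit hp hζ hvp (ha v hvp hvq).1]
          ring
  have hray2 : IsRay p 𝔣 f₂ := by
    refine ⟨fun v hv => ?_, fun x b hx hb => ?_⟩
    · simp only [hf₂]
      rw [if_pos (nz_above_mul hv)]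
    · obtain ⟨h1, h2⟩ := nz_norm_sum hq θ hneg x b hx (hsubq _ hb)
      rw [← h1]
      refine finsum_congr fun v => ?_
      simp only [hf₂]
      by_cases hv : Above p v ∨ Above q v
      · have h3 : ord v x = 0 := by
          rcases hv with hv | hv
          · exact ord_of_one1 (hone p v x b hv hx (hsubp _ hb))
          · exact ord_of_one1 (hone q v x b hv hx (hsubq _ hb))
        rw [h3, Int.cast_zero, mul_zero, mul_zero]
      · rw [if_neg hv]
  -- a relation
  have hrel : ∃ c : Fin 2 → ZMod p, (∀ v, ∑ i, c i * (![f₁, f₂] i) v = 0) ∧ c ≠ 0 := by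
    by_contra hno
    push Not at hno
    obtain ⟨C, hC⟩ := den_ray hp h𝔣0 (m := 2) ![f₁, f₂] (by
      intro i
      fin_cases i
      · exact hray1
      · exact hray2) hno
    obtain ⟨C', hC'⟩ := pz_spl hp hζ hnp
    have hsub : {v : Pl K | ¬ Above p v ∧ Spl p ζ v a} ⊆
        {v : Pl K | ∀ i, (![f₁, f₂] i) v = 0} := by
      rintro v ⟨hv, hs⟩ i
      have h1 : f₁ v = 0 ∧ f₂ v = 0 := by
        simp only [hf₁, hf₂]
        by_cases hvq : Above q v
        · exact ⟨if_pos (Or.inr hvq), if_pos (Or.inr hvq)⟩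
        · have h2 := hspl v hv hvq hs
          have h3 : nz_th θ (nm v : ZMod q) = 0 := by
            rw [(ha v hv hvq).2] at h2
            exact neg_eq_zero.1 h2
          rw [if_neg (not_or.2 ⟨hv, hvq⟩), if_neg (not_or.2 ⟨hv, hvq⟩), h2, h3, mul_zero]
          exact ⟨rfl, rfl⟩
      fin_cases i
      · exact h1.1
      · exact h1.2
    have hp3 : (2 : ℝ) ≤ p := by exact_mod_cast hp.two_le
    set D : ℝ := |C| + p * |C'| + 1 with hD
    have hDpos : 0 < D := by positivity
    set s : ℝ := 1 + Real.exp (-D) with hs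
    have he1 : Real.exp (-D) ≤ 1 := Real.exp_le_one_iff.2 (by linarith)
    have he0 : 0 < Real.exp (-D) := Real.exp_pos _
    have hs1 : 1 < s := by rw [hs]; linarith
    have hs2 : s ≤ 2 := by rw [hs]; linarith
    have hlog : Real.log (1 / (s - 1)) = D := by
      rw [hs, add_sub_cancel_left, one_div, Real.log_inv, Real.log_exp, neg_neg]
    have h1 := hC s hs1 hs2
    have h2 := (abs_le.1 (hC' s hs1 hs2)).1
    rw [hlog] at h1 h2
    have h3 := pz_mono hsub hs1
    have h4 : (p : ℝ) ^ 2 * PZ {v : Pl K | ¬ Above p v ∧ Spl p ζ v a} s ≤ D + C :=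
      (mul_le_mul_of_nonneg_left h3 (by positivity)).trans h1
    have h5 : (p : ℝ) * (D - C') ≤
        (p : ℝ) ^ 2 * PZ {v : Pl K | ¬ Above p v ∧ Spl p ζ v a} s := by
      have h6 : D - C' ≤ p * PZ {v : Pl K | ¬ Above p v ∧ Spl p ζ v a} s := by linarith
      calc (p : ℝ) * (D - C') ≤ p * (p * PZ {v : Pl K | ¬ Above p v ∧ Spl p ζ v a} s) :=
            mul_le_mul_of_nonneg_left h6 (by positivity)
        _ = _ := by ring
    have h7 : (p : ℝ) * D ≤ D + C + p * C' := by linarith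
    have h8 : 2 * D ≤ p * D := mul_le_mul_of_nonneg_right hp3 hDpos.le
    have h9 : C ≤ |C| := le_abs_self C
    have h10 : (p : ℝ) * C' ≤ p * |C'| := mul_le_mul_of_nonneg_left (le_abs_self C') (by positivity)
    linarith
  obtain ⟨c, hc, hc0⟩ := hrel
  have hc' : ∀ v, c 0 * f₁ v + c 1 * f₂ v = 0 := by
    intro v
    have := hc v
    rw [Fin.sum_univ_two] at this
    exact this
  have hf₂v : f₂ v₀ ≠ 0 := by
    simp only [hf₂]
    rw [if_neg (not_or.2 ⟨hv₀p, hv₀q⟩)]
    exact hv₀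
  have hi : c 0 ≠ 0 := by
    intro h0
    have h1 := hc' v₀
    rw [h0, zero_mul, zero_add] at h1
    have h2 := (mul_eq_zero.1 h1).resolve_right hf₂v
    apply hc0
    funext i
    fin_cases i
    · exact h0
    · exact h2
  -- `f₁` is not zero
  have hf₁n : ∃ v, f₁ v ≠ 0 := by
    by_contra hno
    push Not at hno
    have hfam : IsFam p fun v x => lam v * B p ζ v a x := by
      refine ⟨fun v x y => ?_, fun v hv x => ?_, fun v x hx => ?_, ?_, fun x => hlam.sum a hprim x⟩
      · by_cases hv : Above p v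
        · simp only [hlam.above v hv, zero_mul, add_zero]
        · simp only [B_mul_right hp hζ hv]
          ring
      · simp only [hlam.above v hv, zero_mul]
      · by_cases hv : Above p v
        · simp only [hlam.above v hv, zero_mul]
        · simp only [B_of_one1 hp hζ hv _ hx, mul_zero]
      · refine (finite_ord a).subset fun v hv => ?_
        obtain ⟨x, ho, hx⟩ := hv
        intro h0
        apply hx
        by_cases hv : Above p v
        · simp only [hlam.above v hv, zero_mul]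
        · simp only [B_unit hp hζ hv h0, ho, Int.cast_zero, zero_mul, mul_zero]
    obtain ⟨w, hw, hws⟩ := hlam.non a hprim hnp
    have hws' : ∃ x, B p ζ w a x ≠ 0 := by
      by_contra h
      push Not at h
      exact hws h
    obtain ⟨x, hx⟩ := hws'
    have h1 := fam_zero_of hfam {v | Above p v ∨ Above q v}
      ((finite_above (K := K) hp.ne_zero).union (finite_above (K := K) hq.ne_zero)) (by
        intro v hv y
        have hv' : ¬ Above p v ∧ ¬ Above q v := not_or.1 hv
        have h2 := hno v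
        simp only [hf₁] at h2
        rw [if_neg (not_or.2 hv')] at h2
        simp only [B_unit hp hζ hv'.1 (ha v hv'.1 hv'.2).1]
        calc lam v * ((ord v y : ZMod p) * lg p ζ v a) =
            (ord v y : ZMod p) * (lam v * lg p ζ v a) := by ring
          _ = 0 := by rw [h2, mul_zero]) w x
    exact (mul_ne_zero hw hx) h1
  obtain ⟨w, hw⟩ := hf₁n
  have hj : c 1 ≠ 0 := by
    intro h0
    have h1 := hc' w
    rw [h0, zero_mul, add_zero] at h1
    exact (mul_ne_zero hi hw) h1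
  refine ⟨c 1 / c 0, div_ne_zero hj hi, fun v hvp hvq hv => ?_⟩
  have h1 := hc' v
  simp only [hf₁, hf₂] at h1
  rw [if_neg (not_or.2 ⟨hvp, hvq⟩), if_neg (not_or.2 ⟨hvp, hvq⟩), (ha v hvp hvq).2] at h1
  have h2 : (c 0 * lam v - c 1) * nz_th θ (nm v : ZMod q) = 0 := by linear_combination -h1
  have h3 := (mul_eq_zero.1 h2).resolve_right hv
  rw [eq_div_iff hi]
  linear_combination h3

private theorem nz_not_above {l q : ℕ} (hl : l.Prime) (hq : q.Prime) (hlq : l ≠ q) {v : Pl K}
    (hv : Above l v) : ¬ Above q v := by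
  intro h
  have hcop : IsCoprime (l : ℤ) (q : ℤ) := by
    rw [Nat.isCoprime_iff_coprime]
    exact (Nat.coprime_primes hl hq).2 hlq
  obtain ⟨a, b, hab⟩ := hcop
  have h1 : ((a * l + b * q : ℤ) : 𝓞 K) = 1 := by rw [hab, Int.cast_one]
  have h2 : (1 : 𝓞 K) ∈ v.asIdeal := by
    rw [← h1]
    push_cast
    exact v.asIdeal.add_mem (v.asIdeal.mul_mem_left _ hv) (v.asIdeal.mul_mem_left _ h)
  exact v.isPrime.ne_top ((Ideal.eq_top_iff_one _).2 h2)

theorem exists_rec_one (K : Type) [Field K] [NumberField K] {p : ℕ} (hp : p.Prime) (hp2 : MOne p K)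
    {ζ : K} (hζ : IsPrimitiveRoot ζ p) :
    ∃ lam : Pl K → ZMod p, IsRec p ζ lam ∧
      ∀ v : Pl K, ¬ Above p v → (nm v).Prime → lam v = 1 := by
  classical
  haveI : Fact p.Prime := ⟨hp⟩
  obtain ⟨lam, hlam⟩ := exists_rec hp hp2 hζ
  by_cases hex : ∃ v : Pl K, ¬ Above p v ∧ (nm v).Prime
  swap
  · exact ⟨lam, hlam, fun v h1 h2 => absurd ⟨v, h1, h2⟩ hex⟩
  obtain ⟨v₀, hv₀, hl⟩ := hex
  have habove : ∀ v : Pl K, Above (nm v) v := fun v => Ideal.absNorm_mem v.asIdeal
  have hnp : ∀ v : Pl K, ¬ Above p v → nm v ≠ p := by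
    intro v hv h
    have := habove v
    rw [h] at this
    exact hv this
  have key : ∀ v : Pl K, ¬ Above p v → (nm v).Prime → lam v = lam v₀ ∧ lam v₀ ≠ 0 := by
    intro v hv hl'
    obtain ⟨q, hq, hqM, -, θ, hθ, hθp, hθm, hθl, hθl'⟩ := exists_q hp (nm v₀) (nm v)
      (p + nm v₀ + nm v) hl hl' (hnp v₀ hv₀) (hnp v hv)
    haveI : NeZero q := ⟨hq.ne_zero⟩
    have hqp : q ≠ p := by omega
    obtain ⟨a, ha, L, _, _, _, ξ, hξ, hag, -⟩ := gauss_exists hp hp2 hζ q hq hqp θ hθ
    have hprim := gauss_prim hp hp2 hζ q hq hqp θ hθ hθp a L ξ hξ hag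
    have ha' : ∀ v : Pl K, ¬ Above p v → ¬ Above q v → ord v a = 0 ∧
        lg p ζ v a = -nz_th θ (nm v : ZMod q) := by
      intro w hw hwq
      obtain ⟨h1, h2⟩ := ha w hw hwq
      refine ⟨h1, ?_⟩
      have hu := nz_unit hq hwq
      rw [h2 hu.unit (IsUnit.unit_spec hu), ← nz_th_unit, IsUnit.unit_spec]
    have hneg : nz_th θ (-1 : ZMod q) = 0 := by
      have h1 : ((-1 : (ZMod q)ˣ) : ZMod q) = -1 := by rw [Units.val_neg, Units.val_one]
      rw [← h1, nz_th_unit, hθm _ h1, toAdd_one]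
    obtain ⟨κ, hκ, hκv⟩ := nz_claim hp hζ hlam hq θ hneg a hprim ha'
    have hq1 : ¬ Above q v₀ := nz_not_above hl hq (by omega) (habove v₀)
    have hq2 : ¬ Above q v := nz_not_above hl' hq (by omega) (habove v)
    have e1 : nz_th θ (nm v₀ : ZMod q) ≠ 0 := by
      have hu := nz_unit hq hq1
      have h3 := hθl hu.unit (IsUnit.unit_spec hu)
      rw [← IsUnit.unit_spec hu, nz_th_unit]
      exact fun h => h3 (Multiplicative.toAdd.injective h)
    have e2 : nz_th θ (nm v : ZMod q) ≠ 0 := by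
      have hu := nz_unit hq hq2
      have h3 := hθl' hu.unit (IsUnit.unit_spec hu)
      rw [← IsUnit.unit_spec hu, nz_th_unit]
      exact fun h => h3 (Multiplicative.toAdd.injective h)
    have k1 := hκv v₀ hv₀ hq1 e1
    have k2 := hκv v hv hq2 e2
    exact ⟨k2.trans k1.symm, by rw [k1]; exact hκ⟩
  have hk0 : lam v₀ ≠ 0 := (key v₀ hv₀ hl).2
  refine ⟨fun v => (lam v₀)⁻¹ * lam v, ⟨fun v hv => ?_, fun c hc x => ?_, fun c hc hcp => ?_⟩,
    fun v hv hn => ?_⟩
  · simp only [hlam.above v hv, mul_zero]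
  · have hfin : (Function.support fun v => lam v * B p ζ v c x).Finite := by
      refine (finite_B hp hζ c x).subset fun v hv => ?_
      rw [Function.mem_support] at hv
      refine ⟨fun h => hv ?_, fun h => hv ?_⟩
      · rw [hlam.above v h, zero_mul]
      · rw [h, mul_zero]
    have h1 := hlam.sum c hc x
    have h2 := mul_finsum' (fun v => lam v * B p ζ v c x) (lam v₀)⁻¹ hfin
    rw [h1, mul_zero] at h2
    rw [h2]
    exact finsum_congr fun v => by ring
  · obtain ⟨v, h1, h2⟩ := hlam.non c hc hcp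
    exact ⟨v, mul_ne_zero (inv_ne_zero hk0) h1, h2⟩
  · have := (key v hv hn).1
    simp only [this]
    exact inv_mul_cancel₀ hk0

end H63.MA
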