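import Pool.Agent.H63.MA.Ray

/-!
# MA-RAYC: additive ray class characters with values in `ZMod p`

`ep p a = exp(2 π i a / p)`.
* `ep_*`: elementary.
* `ray_rc`: if `IsRay p 𝔣 f`, then `χ(I) = ep (∑_v mult_v(I) f(v))` for `I ≠ 0` prime to `𝔣`, `0` otherwise, is a ray class
  character (`mult_v(I)` = multiplicity of `v` in `I`; additive in `I`). `ray`: for `x - 1 ∈ 𝔣`, `x ≠ 0`: `(x)` is prime to `𝔣`
  and `mult_v((x)) = ord v x`. Then `χ(v) = ep (f v)` for `v ∤ 𝔣`.
* `ray_lin`: linear combinations.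
-/

set_option autoImplicit false

open scoped NumberField
open IsDedekindDomain

noncomputable section

namespace H63.MA

/-- the additive character of `ZMod p` -/
def ep (p : ℕ) (a : ZMod p) : ℂ := Complex.exp (2 * Real.pi * Complex.I * ((a.val : ℂ) / p))

theorem rayc_std {p : ℕ} [NeZero p] (a : ZMod p) : ep p a = ZMod.stdAddChar a := by
  rw [ZMod.stdAddChar_apply, ZMod.toCircle_apply, ep]
  congr 1
  ring

theorem ep_zero (p : ℕ) : ep p 0 = 1 := by
  unfold ep
  rw [ZMod.val_zero]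
  simp

theorem ep_add {p : ℕ} (hp : p.Prime) (a b : ZMod p) : ep p (a + b) = ep p a * ep p b := by
  have : NeZero p := ⟨hp.ne_zero⟩
  rw [rayc_std, rayc_std, rayc_std, AddChar.map_add_eq_mul]

theorem ep_norm (p : ℕ) (a : ZMod p) : ‖ep p a‖ = 1 := by
  have h : ep p a = Complex.exp (((2 * Real.pi * ((a.val : ℝ) / p) : ℝ) : ℂ) * Complex.I) := by
    unfold ep
    congr 1
    push_cast
    ring
  rw [h, Complex.norm_exp_ofReal_mul_I]

theorem ep_eq_one {p : ℕ} (hp : p.Prime) (a : ZMod p) : ep p a = 1 ↔ a = 0 := by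
  have : NeZero p := ⟨hp.ne_zero⟩
  rw [rayc_std]
  constructor
  · intro h
    apply ZMod.injective_stdAddChar
    rw [h, AddChar.map_zero_eq_one]
  · rintro rfl
    rw [AddChar.map_zero_eq_one]

theorem ep_sum {p : ℕ} (hp : p.Prime) [NeZero p] (b : ZMod p) :
    ∑ a : ZMod p, ep p (a * b) = if b = 0 then (p : ℂ) else 0 := by
  have h := AddChar.sum_mulShift b (ZMod.isPrimitive_stdAddChar p)
  simp only [rayc_std]
  rw [h, ZMod.card]
  split_ifs <;> simp

variable {K : Type} [Field K] [NumberField K]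

theorem rayc_supp {p : ℕ} (f : Pl K → ZMod p) (x : Kˣ) :
    (Function.support fun v => f v * (ord v x : ZMod p)).Finite := by
  refine (finite_ord x).subset fun v hv => ?_
  intro h0
  apply hv
  show f v * (ord v x : ZMod p) = 0
  have h1 : ord v x = 0 := h0
  rw [h1, Int.cast_zero, mul_zero]

theorem ray_lin {p : ℕ} {𝔣 : Ideal (𝓞 K)} {f g : Pl K → ZMod p} (hf : IsRay p 𝔣 f)
    (hg : IsRay p 𝔣 g) (a b : ZMod p) : IsRay p 𝔣 fun v => a * f v + b * g v where
  zero := fun v hv => by rw [hf.zero v hv, hg.zero v hv, mul_zero, mul_zero, add_zero]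
  ray := fun x y hxy hy => by
    have h1 := hf.ray x y hxy hy
    have h2 := hg.ray x y hxy hy
    have h3 : ∀ v : Pl K, (a * f v + b * g v) * (ord v x : ZMod p) =
        (a * (f v * (ord v x : ZMod p))) + (b * (g v * (ord v x : ZMod p))) := fun v => by ring
    have h4 : (Function.support fun v => a * (f v * (ord v x : ZMod p))).Finite := by
      refine (rayc_supp f x).subset fun v hv h0 => hv ?_
      show a * (f v * (ord v x : ZMod p)) = 0
      have h5 : f v * (ord v x : ZMod p) = 0 := h0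
      rw [h5, mul_zero]
    have h4' : (Function.support fun v => b * (g v * (ord v x : ZMod p))).Finite := by
      refine (rayc_supp g x).subset fun v hv h0 => hv ?_
      show b * (g v * (ord v x : ZMod p)) = 0
      have h5 : g v * (ord v x : ZMod p) = 0 := h0
      rw [h5, mul_zero]
    rw [finsum_congr h3, finsum_add_distrib h4 h4', ← mul_finsum' _ _ (rayc_supp f x),
      ← mul_finsum' _ _ (rayc_supp g x), h1, h2, mul_zero, mul_zero, add_zero]

open Classical in
/-- multiplicity of a prime in an ideal -/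
def rcm (v : Pl K) (I : Ideal (𝓞 K)) : ℕ :=
  (Associates.mk v.asIdeal).count (Associates.mk I).factors

theorem rcm_irr (v : Pl K) : Irreducible (Associates.mk v.asIdeal) :=
  Associates.irreducible_mk.2 v.irreducible

theorem rcm_mul (v : Pl K) {I J : Ideal (𝓞 K)} (hI : I ≠ ⊥) (hJ : J ≠ ⊥) :
    rcm v (I * J) = rcm v I + rcm v J := by
  classical
  unfold rcm
  rw [← Associates.mk_mul_mk]
  exact Associates.count_mul (Associates.mk_ne_zero.2 hI) (Associates.mk_ne_zero.2 hJ) (rcm_irr v)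

theorem rcm_finite {I : Ideal (𝓞 K)} (hI : I ≠ ⊥) : {v : Pl K | rcm v I ≠ 0}.Finite := by
  classical
  refine (Ideal.finite_factors (I := I) hI).subset fun v hv => ?_
  exact (Associates.count_ne_zero_iff_dvd hI v.irreducible).1 hv

theorem rcm_self (v : Pl K) : rcm v v.asIdeal = 1 := by
  classical
  exact Associates.count_self (rcm_irr v)

theorem rcm_ne {v w : Pl K} (h : v ≠ w) : rcm v w.asIdeal = 0 := by
  classical
  refine Associates.count_eq_zero_of_ne (rcm_irr v) (rcm_irr w) fun he => h ?_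
  exact HeightOneSpectrum.ext (associated_iff_eq.1 (Associates.mk_eq_mk_iff_associated.1 he))

theorem rcm_ord (v : Pl K) {a : 𝓞 K} (ha : a ≠ 0) {x : Kˣ} (hx : (x : K) = algebraMap (𝓞 K) K a) :
    ord v x = rcm v (Ideal.span {a}) := by
  classical
  unfold ord rcm
  rw [hx, HeightOneSpectrum.valuation_of_algebraMap, HeightOneSpectrum.intValuation_if_neg v ha,
    WithZero.log_exp, neg_neg]

theorem rcm_supp {p : ℕ} (f : Pl K → ZMod p) {I : Ideal (𝓞 K)} (hI : I ≠ ⊥) :
    (Function.support fun v => f v * (rcm v I : ZMod p)).Finite := by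
  refine (rcm_finite hI).subset fun v hv h0 => hv ?_
  show f v * (rcm v I : ZMod p) = 0
  have h1 : rcm v I = 0 := h0
  rw [h1, Nat.cast_zero, mul_zero]

/-- the additive function on ideals attached to a function on the primes -/
def rcs {p : ℕ} (f : Pl K → ZMod p) (I : Ideal (𝓞 K)) : ZMod p := ∑ᶠ v, f v * (rcm v I : ZMod p)

theorem rcs_mul {p : ℕ} (f : Pl K → ZMod p) {I J : Ideal (𝓞 K)} (hI : I ≠ ⊥) (hJ : J ≠ ⊥) :
    rcs f (I * J) = rcs f I + rcs f J := by
  unfold rcs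
  rw [← finsum_add_distrib (rcm_supp f hI) (rcm_supp f hJ)]
  refine finsum_congr fun v => ?_
  rw [rcm_mul v hI hJ]
  push_cast
  ring

theorem rcs_one {p : ℕ} (f : Pl K → ZMod p) : rcs f (1 : Ideal (𝓞 K)) = 0 := by
  have h1 : (1 : Ideal (𝓞 K)) ≠ ⊥ := by rw [Ideal.one_eq_top]; exact top_ne_bot
  have h := rcs_mul f h1 h1
  rw [mul_one] at h
  exact left_eq_add.1 h

theorem rcs_prime {p : ℕ} (f : Pl K → ZMod p) (v : Pl K) : rcs f v.asIdeal = f v := by
  unfold rcs
  rw [finsum_eq_single _ v]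
  · rw [rcm_self, Nat.cast_one, mul_one]
  · intro w hw
    rw [rcm_ne hw, Nat.cast_zero, mul_zero]

theorem rcs_span {p : ℕ} (f : Pl K → ZMod p) {a : 𝓞 K} (ha : a ≠ 0) {x : Kˣ}
    (hx : (x : K) = algebraMap (𝓞 K) K a) :
    rcs f (Ideal.span {a}) = ∑ᶠ v, f v * (ord v x : ZMod p) := by
  unfold rcs
  refine finsum_congr fun v => ?_
  rw [rcm_ord v ha hx, Int.cast_natCast]

theorem rayc_coprime (v : Pl K) {𝔣 : Ideal (𝓞 K)} (h : ¬ v.asIdeal ∣ 𝔣) :
    IsCoprime v.asIdeal 𝔣 := by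
  rw [Ideal.isCoprime_iff_sup_eq]
  have hmax := v.isMaximal
  refine hmax.1.2 _ (lt_of_le_of_ne le_sup_left fun he => h ?_)
  rw [Ideal.dvd_iff_le]
  rw [he]
  exact le_sup_right

theorem ray_rc {p : ℕ} (hp : p.Prime) {𝔣 : Ideal (𝓞 K)} (h𝔣 : 𝔣 ≠ ⊥) {f : Pl K → ZMod p}
    (hf : IsRay p 𝔣 f) : ∃ χ : RC K 𝔣, (∀ v : Pl K, ¬ v.asIdeal ∣ 𝔣 → χ.χ v.asIdeal = ep p (f v)) ∧
      ((∃ v, f v ≠ 0) → χ.Non) := by
  classical
  have h1 : (1 : Ideal (𝓞 K)) ≠ ⊥ := by rw [Ideal.one_eq_top]; exact top_ne_bot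
  let χ : Ideal (𝓞 K) →*₀ ℂ :=
    { toFun := fun I => if I ≠ ⊥ ∧ IsCoprime I 𝔣 then ep p (rcs f I) else 0
      map_zero' := by
        rw [if_neg]
        rintro ⟨h, -⟩
        exact h rfl
      map_one' := by
        rw [if_pos ⟨h1, isCoprime_one_left⟩, rcs_one, ep_zero]
      map_mul' := by
        intro I J
        by_cases hI : I ≠ ⊥ ∧ IsCoprime I 𝔣
        · by_cases hJ : J ≠ ⊥ ∧ IsCoprime J 𝔣
          · rw [if_pos hI, if_pos hJ, if_pos ⟨mul_ne_zero hI.1 hJ.1, hI.2.mul_left hJ.2⟩,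
              rcs_mul f hI.1 hJ.1, ep_add hp]
          · rw [if_neg hJ, mul_zero, if_neg]
            rintro ⟨ha, hb⟩
            refine hJ ⟨?_, hb.of_mul_left_right⟩
            rintro rfl
            exact ha (Ideal.mul_bot I)
        · rw [if_neg hI, zero_mul, if_neg]
          rintro ⟨ha, hb⟩
          refine hI ⟨?_, hb.of_mul_left_left⟩
          rintro rfl
          exact ha (Ideal.bot_mul J) }
  have hχ : ∀ I, I ≠ ⊥ → IsCoprime I 𝔣 → χ I = ep p (rcs f I) := fun I ha hb =>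
    if_pos ⟨ha, hb⟩
  have hχ0 : ∀ I, ¬ IsCoprime I 𝔣 → χ I = 0 := fun I h => if_neg fun h' => h h'.2
  have hv : ∀ v : Pl K, ¬ v.asIdeal ∣ 𝔣 → χ v.asIdeal = ep p (f v) := by
    intro v hv
    rw [hχ _ v.ne_bot (rayc_coprime v hv), rcs_prime]
  refine ⟨⟨χ, ?_, hχ0, ?_⟩, hv, ?_⟩
  · intro I ha hb
    rw [hχ I ha hb, ep_norm]
  · intro x hx hx1
    have hcop : IsCoprime (Ideal.span {x}) 𝔣 := by
      rw [Ideal.isCoprime_iff_exists]
      refine ⟨x, Ideal.mem_span_singleton_self x, 1 - x, ?_, by ring⟩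
      have := 𝔣.neg_mem hx1
      rwa [neg_sub] at this
    have hne : Ideal.span {x} ≠ (⊥ : Ideal (𝓞 K)) := by
      rw [Ne, Ideal.span_singleton_eq_bot]
      exact hx
    have hx' : algebraMap (𝓞 K) K x ≠ 0 := by
      rwa [Ne, FaithfulSMul.algebraMap_eq_zero_iff]
    rw [hχ _ hne hcop, rcs_span f hx (x := Units.mk0 _ hx') rfl,
      hf.ray (Units.mk0 _ hx') x rfl hx1, ep_zero]
  · rintro ⟨v, hfv⟩
    have hnd : ¬ v.asIdeal ∣ 𝔣 := fun h => hfv (hf.zero v h)
    refine ⟨v.asIdeal, v.ne_bot, rayc_coprime v hnd, ?_⟩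
    show χ v.asIdeal ≠ 1
    rw [hv v hnd, Ne, ep_eq_one hp]
    exact hfv

end H63.MA
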