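import Pool.Agent.H38.TD.Reg
import Pool.Agent.H38.ML.Spec
import Pool.Agent.H63.MA.GDef

/-!
# MA-GBETA: index and number of classes for regular groups of exponent `p`

`G` transitive on `Fin n`, `#G = n ≥ 2`, `g^p = 1` for all `g ∈ G`, `p` prime. `n` is a power of `p` (Cauchy), every `g ≠ 1` has order `p`.
* `ind_reg`: `indG G = n - n / p`, and every `g ≠ 1` has `ind g = indG G` (`H38.ML.regind_orbs`: `orbs (zpowers g) * orderOf g = n`).
* `beta_reg`: if `K` contains a primitive `p`-th root of unity then `betaAll K Ω G + 1 = Nat.card (ConjClasses G)`: `KConj g h` iff `g, h` are conjugate: if `h = x g^a x⁻¹` with `a` such that `σ ζ' = ζ'^a` for all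
  `ζ'^(#G) = 1`, take `ζ'` the image of the `p`-th root of unity of `K` (`p ∣ #G`): `ζ' = ζ'^a`, so `a ≡ 1 mod p` and `g^a = g`; conversely `σ = 1`, `a = 1`. So `betaAll` is the number of conjugacy classes of elements
  `≠ 1`. (Compare `H38/ML/Classes.lean`, `kconj_iff`.)
* `minfac_reg`: `n.minFac = p`.
-/

set_option autoImplicit false

open scoped NumberField
open IsDedekindDomain H38.ML

noncomputable section

namespace H63.MA

theorem gbeta_ord {n : ℕ} (G : Subgroup (Equiv.Perm (Fin n))) {p : ℕ} (hp : p.Prime)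
    (hexp : ∀ g : G, g ^ p = 1) (g : G) (hg : g ≠ 1) :
    orderOf (g : Equiv.Perm (Fin n)) = p := by
  have : Fact p.Prime := ⟨hp⟩
  rw [Subgroup.orderOf_coe]
  exact orderOf_eq_prime (hexp g) hg

theorem gbeta_ind {n : ℕ} (hn : 2 ≤ n) (G : Subgroup (Equiv.Perm (Fin n)))
    (hG : MulAction.IsPretransitive G (Fin n)) (hcard : Nat.card G = n) {p : ℕ} (hp : p.Prime)
    (hexp : ∀ g : G, g ^ p = 1) (g : G) (hg : g ≠ 1) :
    H38.ML.ind (g : Equiv.Perm (Fin n)) = n - n / p := by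
  have h1 := regind_orbs hn G hG hcard (g : Equiv.Perm (Fin n)) g.2
  rw [gbeta_ord G hp hexp g hg] at h1
  unfold H38.ML.ind
  congr 1
  exact (Nat.div_eq_of_eq_mul_left hp.pos h1.symm).symm

theorem ind_reg {n : ℕ} (hn : 2 ≤ n) (G : Subgroup (Equiv.Perm (Fin n)))
    (hG : MulAction.IsPretransitive G (Fin n)) (hcard : Nat.card G = n) {p : ℕ} (hp : p.Prime)
    (hexp : ∀ g : G, g ^ p = 1) : H38.ML.indG G = n - n / p ∧ 0 < n - n / p ∧
      ∀ g : G, g ≠ 1 → H38.ML.ind (g : Equiv.Perm (Fin n)) = H38.ML.indG G := by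
  have hG1 : G ≠ ⊥ := by
    rintro rfl
    rw [Subgroup.card_bot] at hcard
    omega
  obtain ⟨g, hg, hi⟩ := exists_least G hG1
  have h1 : H38.ML.indG G = n - n / p := by
    rw [← hi]
    exact gbeta_ind hn G hG hcard hp hexp g hg
  refine ⟨h1, ?_, fun g hg => ?_⟩
  · have : n / p < n := Nat.div_lt_self (by omega) hp.one_lt
    omega
  · rw [h1]
    exact gbeta_ind hn G hG hcard hp hexp g hg

theorem gbeta_pow {n : ℕ} (hn : 2 ≤ n) (G : Subgroup (Equiv.Perm (Fin n)))
    (hcard : Nat.card G = n) {p : ℕ} (hp : p.Prime) (hexp : ∀ g : G, g ^ p = 1) :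
    ∃ k : ℕ, k ≠ 0 ∧ n = p ^ k := by
  have : Fact p.Prime := ⟨hp⟩
  have h1 : IsPGroup p G := fun g => ⟨1, by rw [pow_one]; exact hexp g⟩
  obtain ⟨k, hk⟩ := IsPGroup.iff_card.1 h1
  rw [hcard] at hk
  refine ⟨k, ?_, hk⟩
  rintro rfl
  rw [pow_zero] at hk
  omega

theorem minfac_reg {n : ℕ} (hn : 2 ≤ n) (G : Subgroup (Equiv.Perm (Fin n)))
    (hcard : Nat.card G = n) {p : ℕ} (hp : p.Prime) (hexp : ∀ g : G, g ^ p = 1) :
    n.minFac = p := by
  obtain ⟨k, hk, rfl⟩ := gbeta_pow hn G hcard hp hexp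
  exact hp.pow_minFac hk

theorem gbeta_kconj {n : ℕ} (hn : 2 ≤ n) (G : Subgroup (Equiv.Perm (Fin n)))
    (hcard : Nat.card G = n) {p : ℕ} (hp : p.Prime)
    (hexp : ∀ g : G, g ^ p = 1) (K : IntermediateField ℚ QBar) (ζ : K)
    (hζ : IsPrimitiveRoot ζ p) (g h : G) : Spec.KConj K QBar G g h ↔ IsConj g h := by
  rw [isConj_iff]
  constructor
  · rintro ⟨σ, a, x, ha, hx⟩
    have hz : IsPrimitiveRoot (algebraMap K QBar ζ) p :=
      hζ.map_of_injective (algebraMap K QBar).injective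
    have hpn : p ∣ Nat.card G := by
      obtain ⟨k, hk, hnk⟩ := gbeta_pow hn G hcard hp hexp
      rw [hcard, hnk]
      exact dvd_pow_self p hk
    have h1 := ha (algebraMap K QBar ζ) ((hz.pow_eq_one_iff_dvd _).2 hpn)
    rw [AlgEquiv.commutes] at h1
    have ha0 : a ≠ 0 := by
      rintro rfl
      rw [pow_zero] at h1
      exact hz.ne_one hp.one_lt h1
    obtain ⟨b, rfl⟩ := Nat.exists_eq_succ_of_ne_zero ha0
    have hz0 : algebraMap K QBar ζ ≠ 0 := hz.ne_zero hp.ne_zero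
    have h2 : (algebraMap K QBar ζ) ^ b = 1 := by
      rw [Nat.succ_eq_add_one, pow_succ] at h1
      exact (mul_eq_right₀ hz0).1 h1.symm
    obtain ⟨c, rfl⟩ := (hz.pow_eq_one_iff_dvd b).1 h2
    refine ⟨x, ?_⟩
    rw [hx, Nat.succ_eq_add_one, pow_succ, pow_mul, hexp, one_pow, one_mul]
  · rintro ⟨x, hx⟩
    refine ⟨1, 1, x, fun z _ => ?_, ?_⟩
    · rw [pow_one]
      rfl
    · rw [pow_one, hx]

theorem beta_reg {n : ℕ} (hn : 2 ≤ n) (G : Subgroup (Equiv.Perm (Fin n)))
    (hG : MulAction.IsPretransitive G (Fin n)) (hcard : Nat.card G = n) {p : ℕ} (hp : p.Prime)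
    (hexp : ∀ g : G, g ^ p = 1) (K : IntermediateField ℚ QBar) (ζ : K)
    (hζ : IsPrimitiveRoot ζ p) : Spec.betaAll K QBar G + 1 = Nat.card (ConjClasses G) := by
  classical
  have hk := gbeta_kconj hn G hcard hp hexp K ζ hζ
  have hind : ∀ g : G, g ≠ 1 → Spec.ind (g : Equiv.Perm (Fin n)) = Spec.indG G :=
    (ind_reg hn G hG hcard hp hexp).2.2
  unfold Spec.betaAll
  rw [← Finite.card_option]
  refine Nat.card_congr (Equiv.ofBijective
    (fun o : Option (Quot fun g h : {g : G // g ≠ 1 ∧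
      Spec.ind (g : Equiv.Perm (Fin n)) = Spec.indG G} => Spec.KConj K QBar G g.1 h.1) =>
      o.elim (ConjClasses.mk (1 : G)) (Quot.lift (fun g => ConjClasses.mk g.1)
        (fun g h hgh => ConjClasses.mk_eq_mk_iff_isConj.2 ((hk _ _).1 hgh)))) ⟨?_, ?_⟩)
  · rintro (_ | q) (_ | q') hgh
    · rfl
    · exfalso
      induction q' using Quot.ind with
      | mk h =>
        have h1 : IsConj (1 : G) h.1 := ConjClasses.mk_eq_mk_iff_isConj.1 hgh
        exact h.2.1 (isConj_one_right.1 h1)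
    · exfalso
      induction q using Quot.ind with
      | mk g =>
        have h1 : IsConj g.1 (1 : G) := ConjClasses.mk_eq_mk_iff_isConj.1 hgh
        exact g.2.1 (isConj_one_left.1 h1)
    · induction q using Quot.ind with
      | mk g =>
        induction q' using Quot.ind with
        | mk h =>
          have h1 : IsConj g.1 h.1 := ConjClasses.mk_eq_mk_iff_isConj.1 hgh
          exact congrArg some (Quot.sound ((hk _ _).2 h1))
  · intro c
    obtain ⟨g, rfl⟩ := ConjClasses.mk_surjective c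
    by_cases hg : g = 1
    · subst hg
      exact ⟨none, rfl⟩
    · exact ⟨some (Quot.mk _ ⟨g, hg, hind g hg⟩), rfl⟩

end H63.MA
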