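import Pool.Agent.H63.MA.GLoc
import Pool.Agent.H38.ML.EmbOrb
import Pool.Agent.H38.ML.Disc

/-!
# MA-GDISC: lower bound for the relative discriminant

`disc_low`: `L ⊆ Ω` finite Galois over `K`, `s^p = 1` for all `s ∈ Gal(L/K)`; `T` a finite set of primes `v ∤ p`, for each of which there is a prime `P` of `𝓞 Ω` over `v` and `t` in its inertia group with
`t ∉ L.fixingSubgroup`. Then `∏_{v ∈ T} nm v ^ (n - n/p) ≤ N(different of L/K)`, `n = [L:K]`.

Proof. For `v ∈ T` and every prime `Q` of `𝓞 L` over `v` the ramification index `e` is a multiple of `p`: all `Q` over `v` have the same `e` (`L/K` Galois), equal to the order of the inertia group of `Q` in `Gal(L/K)`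
(`Ideal.card_inertia_eq_ramificationIdxIn`, see `H38/TD/RamF.lean`), and for `Q` below `P` this group contains `res L t ≠ 1`, an element of order `p`. By `pow_sub_one_dvd_differentIdeal` `Q^{e-1}` divides the different
(`dexp K L Q ≥ e - 1`). So the different is divisible by `∏_{v ∈ T} ∏_{Q ∣ v} Q^{e_v - 1}` (different primes), whose norm is `∏_v nm v ^ (∑_Q f_Q (e_v - 1))`, and `∑_Q e_v f_Q = n` (`Ideal.sum_ramification_inertia`, see
`H38/ML/Disc.lean`), `∑_Q f_Q (e_v - 1) = n - n/e_v ≥ n - n/p`. The norm of a divisor of the (nonzero) different is at most the norm of the different.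
-/

set_option autoImplicit false

open scoped NumberField Pointwise
open IsDedekindDomain

noncomputable section

namespace H63.MA

variable {K : Type} [Field K] [NumberField K] {Ω : Type} [Field Ω] [Algebra K Ω] [IsAlgClosure K Ω]
  {p : ℕ} {ζ : K}

/-- the ramification index over a prime with a nontrivial inertia element -/
theorem gdisc_ram (hp : p.Prime) (L : IntermediateField K Ω) [FiniteDimensional K L]
    [NumberField L] [IsGalois K L] (hL : ∀ s : Gal(L/K), s ^ p = 1) (v : Pl K)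
    (P : Ideal (𝓞 Ω)) (t : Gal(Ω/K)) (hP : P.IsPrime) (hPv : P.under (𝓞 K) = v.asIdeal)
    (ht : t ∈ P.inertia Gal(Ω/K)) (htL : t ∉ L.fixingSubgroup) (Q : Ideal (𝓞 L))
    (hQ : Q.IsPrime) (hQv : Q.LiesOver v.asIdeal) : p ≤ Q.ramificationIdx (𝓞 K) := by
  have hfp : Fact p.Prime := ⟨hp⟩
  have hvp := v.isPrime
  have hQ0 : (P.under (𝓞 L)).IsPrime := inferInstance
  have hQ0v : (P.under (𝓞 L)).LiesOver v.asIdeal := ⟨by rw [Ideal.under_under, hPv]⟩
  have hin : H38.ML.res L t ∈ (P.under (𝓞 L)).inertia Gal(L/K) := by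
    intro x
    change algebraMap (𝓞 L) (𝓞 Ω) (H38.ML.res L t • x - x) ∈ P
    have h1 := ht (algebraMap (𝓞 L) (𝓞 Ω) x)
    have h2 : algebraMap (𝓞 L) (𝓞 Ω) (H38.ML.res L t • x - x) =
        t • algebraMap (𝓞 L) (𝓞 Ω) x - algebraMap (𝓞 L) (𝓞 Ω) x := by
      rw [map_sub]
      congr 1
      apply NumberField.RingOfIntegers.ext
      exact AlgEquiv.restrictNormal_commutes t L (x : L)
    rw [h2]
    exact h1
  have hne : H38.ML.res L t ≠ 1 := by
    intro h
    apply htL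
    rw [← IntermediateField.restrictNormalHom_ker L, MonoidHom.mem_ker]
    exact h
  have hord : orderOf (H38.ML.res L t) = p := orderOf_eq_prime (hL _) hne
  have hle : Subgroup.zpowers (H38.ML.res L t) ≤ (P.under (𝓞 L)).inertia Gal(L/K) := by
    rw [Subgroup.zpowers_le]
    exact hin
  have hdvd : p ∣ Nat.card ((P.under (𝓞 L)).inertia Gal(L/K)) := by
    rw [← hord, ← Nat.card_zpowers]
    exact Subgroup.card_dvd_of_le hle
  have hcard : Nat.card ((P.under (𝓞 L)).inertia Gal(L/K)) = Q.ramificationIdx (𝓞 K) := by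
    rw [Ideal.card_inertia_eq_ramificationIdxIn (G := Gal(L/K)) v.asIdeal (P.under (𝓞 L)),
      Ideal.ramificationIdxIn_eq_ramificationIdx v.asIdeal Q Gal(L/K)]
  rw [← hcard]
  exact Nat.le_of_dvd Nat.card_pos hdvd

/-- powers of the primes above `v` divide the different -/
theorem gdisc_dvd (K L : Type) [Field K] [NumberField K] [Field L] [NumberField L] [Algebra K L]
    (v : Pl K) (Q : Ideal (𝓞 L)) (hQ : Q.IsPrime) (hQv : Q.LiesOver v.asIdeal) :
    Q ^ (Q.ramificationIdx (𝓞 K) - 1) ∣ differentIdeal (𝓞 K) (𝓞 L) := by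
  have hvm : v.asIdeal.IsMaximal := v.isMaximal
  have hvp := v.isPrime
  apply pow_sub_one_dvd_differentIdeal (𝓞 K) Q (Q.ramificationIdx (𝓞 K)) v.ne_bot
  rw [Ideal.dvd_iff_le, ← Ideal.ramificationIdx'_eq_ramificationIdx v.asIdeal Q v.ne_bot]
  exact Ideal.le_pow_ramificationIdx'

theorem disc_low (hp : p.Prime) (L : IntermediateField K Ω) [FiniteDimensional K L]
    [NumberField L] [IsGalois K L] (hL : ∀ s : Gal(L/K), s ^ p = 1) (T : Finset (Pl K))
    (hT : ∀ v ∈ T, ¬ Above p v ∧ ∃ (P : Ideal (𝓞 Ω)) (t : Gal(Ω/K)), P.IsPrime ∧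
      P.under (𝓞 K) = v.asIdeal ∧ t ∈ P.inertia Gal(Ω/K) ∧ t ∉ L.fixingSubgroup) :
    ∏ v ∈ T, nm v ^ (Module.finrank K L - Module.finrank K L / p) ≤
      Ideal.absNorm (differentIdeal (𝓞 K) (𝓞 L)) := by
  classical
  have hfin : ∀ v : Pl K, (v.asIdeal.primesOver (𝓞 L)).Finite := fun v => by
    have := v.isMaximal
    exact IsDedekindDomain.primesOver_finite v.asIdeal (𝓞 L)
  let W : Pl K → Finset (Ideal (𝓞 L)) := fun v => (hfin v).toFinset
  have hW : ∀ v Q, Q ∈ W v ↔ Q.IsPrime ∧ Q.LiesOver v.asIdeal := fun v Q => by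
    simp only [W, Set.Finite.mem_toFinset]
    rfl
  have hWbot : ∀ v, ∀ Q ∈ W v, Q ≠ ⊥ := by
    rintro v Q hQ rfl
    have h1 := ((hW v _).1 hQ).2.over
    rw [Ideal.under_bot] at h1
    exact v.ne_bot h1
  have hWmax : ∀ v, ∀ Q ∈ W v, Q.IsMaximal := fun v Q hQ =>
    ((hW v Q).1 hQ).1.isMaximal (hWbot v Q hQ)
  have hWdisj : ∀ v ∈ T, ∀ v' ∈ T, v ≠ v' → Disjoint (W v) (W v') := by
    intro v _ v' _ hne
    rw [Finset.disjoint_left]
    intro Q hQ hQ'
    apply hne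
    apply IsDedekindDomain.HeightOneSpectrum.ext
    rw [((hW v Q).1 hQ).2.over, ((hW v' Q).1 hQ').2.over]
  -- the product divides the different
  have hdvd : ∏ Q ∈ T.biUnion W, Q ^ (Q.ramificationIdx (𝓞 K) - 1) ∣
      differentIdeal (𝓞 K) (𝓞 L) := by
    apply Finset.prod_dvd_of_coprime
    · intro Q hQ Q' hQ' hne
      rw [Finset.mem_coe, Finset.mem_biUnion] at hQ hQ'
      obtain ⟨v, -, hv⟩ := hQ
      obtain ⟨v', -, hv'⟩ := hQ'
      have h1 := hWmax v Q hv
      have h2 := hWmax v' Q' hv'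
      exact (Ideal.isCoprime_of_isMaximal hne).pow
    · intro Q hQ
      rw [Finset.mem_biUnion] at hQ
      obtain ⟨v, -, hv⟩ := hQ
      exact gdisc_dvd K L v Q ((hW v Q).1 hv).1 ((hW v Q).1 hv).2
  have hne := H38.ML.different_ne K L
  have hpos : 0 < Ideal.absNorm (differentIdeal (𝓞 K) (𝓞 L)) :=
    Nat.pos_of_ne_zero fun h => hne (Ideal.absNorm_eq_zero_iff.1 h)
  refine le_trans ?_ (Nat.le_of_dvd hpos (map_dvd Ideal.absNorm hdvd))
  rw [map_prod, Finset.prod_biUnion hWdisj]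
  refine Finset.prod_le_prod' fun v hv => ?_
  obtain ⟨-, P, t, hP, hPv, ht, htL⟩ := hT v hv
  have hvm : v.asIdeal.IsMaximal := v.isMaximal
  have hN : 1 ≤ nm v := (one_lt_nm v).le
  have h1 : ∀ Q ∈ W v, Ideal.absNorm (Q ^ (Q.ramificationIdx (𝓞 K) - 1)) =
      nm v ^ (Q.inertiaDeg (𝓞 K) * (Q.ramificationIdx (𝓞 K) - 1)) := by
    intro Q hQ
    have hQ1 := ((hW v Q).1 hQ).1
    have hQ2 := ((hW v Q).1 hQ).2
    unfold nm
    rw [map_pow, pow_mul, Ideal.absNorm_pow_inertiaDeg v.asIdeal Q]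
  rw [Finset.prod_congr rfl h1, Finset.prod_pow_eq_pow_sum]
  apply Nat.pow_le_pow_right hN
  -- the sum formula
  have hft : Fintype (v.asIdeal.primesOver (𝓞 L)) := (hfin v).fintype
  have h2 : Module.finrank (𝓞 K) (𝓞 L) = Module.finrank K L :=
    (IsFractionRing.finrank_eq (𝓞 K) K (𝓞 L) L).symm
  have h3 : ∑ Q ∈ W v, Q.ramificationIdx (𝓞 K) * Q.inertiaDeg (𝓞 K) = Module.finrank K L := by
    rw [← h2, ← Ideal.sum_ramification_inertia_eq_finrank v.asIdeal,
      Finset.sum_set_coe (v.asIdeal.primesOver (𝓞 L))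
        (f := fun Q => Q.ramificationIdx (𝓞 K) * Q.inertiaDeg (𝓞 K))]
    apply Finset.sum_congr _ fun _ _ => rfl
    ext Q
    rw [Set.mem_toFinset, Set.Finite.mem_toFinset]
  have h4 : ∀ Q ∈ W v, p ≤ Q.ramificationIdx (𝓞 K) := fun Q hQ =>
    gdisc_ram hp L hL v P t hP hPv ht htL Q ((hW v Q).1 hQ).1 ((hW v Q).1 hQ).2
  have h5 : p * ∑ Q ∈ W v, Q.inertiaDeg (𝓞 K) ≤ Module.finrank K L := by
    rw [← h3, Finset.mul_sum]
    exact Finset.sum_le_sum fun Q hQ => Nat.mul_le_mul_right _ (h4 Q hQ)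
  have h6 : ∑ Q ∈ W v, Q.inertiaDeg (𝓞 K) * (Q.ramificationIdx (𝓞 K) - 1) +
      ∑ Q ∈ W v, Q.inertiaDeg (𝓞 K) = Module.finrank K L := by
    rw [← h3, ← Finset.sum_add_distrib]
    refine Finset.sum_congr rfl fun Q hQ => ?_
    have h7 : 1 ≤ Q.ramificationIdx (𝓞 K) := hp.one_le.trans (h4 Q hQ)
    obtain ⟨e, he⟩ : ∃ e, Q.ramificationIdx (𝓞 K) = e + 1 := ⟨_, (Nat.sub_add_cancel h7).symm⟩
    rw [he, Nat.add_sub_cancel]
    ring
  have h8 : ∑ Q ∈ W v, Q.inertiaDeg (𝓞 K) ≤ Module.finrank K L / p := by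
    rw [Nat.le_div_iff_mul_le hp.pos, mul_comm]
    exact h5
  omega

end H63.MA
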