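import Pool.Agent.H38.ML.Mult
import Pool.Agent.H38.ML.Spec
import Pool.Agent.H38.ML.RegInd
import Pool.Agent.H63.MA.GDef

/-!
# MA-GSMALL: small fields with a regular group come from homomorphisms

`small_rho`: `G` transitive on `Fin n` with `#G = n`, `n ≥ 2`, `L` with `Spec.IsSmall K Ω G L` (`Ω = QBar`), `i₀ : Fin n`. Then there is a surjective `ρ : Gal(Ω/K) → G` of finite type with `L = fieldOf i₀ ρ`, and
`L.fixingSubgroup = ker ρ`.
Proof. Let `e : (L →ₐ[K] Ω) ≃ Fin n` be the numbering. For `σ ∈ Γ` let `ρ σ` be the permutation `i ↦ e (σ ∘ e⁻¹ i)`; it is in `G` by the property of `e` (with this `σ`), `ρ` is a homomorphism, surjective onto `G` by the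
property of `e`. `ρ σ` fixes `e (L.val)` iff `σ ∈ L.fixingSubgroup`; since all stabilisers in `G` are trivial (`H38.ML.regind_stab`), `L.fixingSubgroup = ker ρ = (stabilizer i₀).comap ρ`; so `ρ` is of
finite type (`[L:K] = n` finite) and `L = fixedField L.fixingSubgroup = fieldOf i₀ ρ` (Galois theory, `Ω/K` infinite Galois, `L/K` finite: `InfiniteGalois.fixedField_fixingSubgroup` or
`IntermediateField.fixedField_fixingSubgroup`-like lemma; see `H38.ML.fixing_fixedField`).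

`field_gal`: for `ρ` surjective of finite type to a regular `G`, `L = fieldOf i₀ ρ`: `L.fixingSubgroup = ker ρ`, `L/K` is Galois, `[L:K] = n`, and `s^p = 1` for all `s ∈ Gal(L/K)` if `g^p = 1` for all `g ∈ G`
(`H38.ML.fixing_fixedField`, `InfiniteGalois.normal_iff_isGalois`, `small_field`; every `s ∈ Gal(L/K)` is a restriction of some `σ`, `ρ (σ^p) = 1`).
-/

set_option autoImplicit false

open scoped NumberField
open IsDedekindDomain H38.ML

noncomputable section

namespace H63.MA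

/-- the trivial stabilizers -/
theorem gsmall_comap {n : ℕ} (hn : 2 ≤ n) (G : Subgroup (Equiv.Perm (Fin n)))
    (hG : MulAction.IsPretransitive G (Fin n)) (hcard : Nat.card G = n) {Γ : Type} [Group Γ]
    (ρ : Γ →* G) (i : Fin n) : (MulAction.stabilizer G i).comap ρ = ρ.ker := by
  ext σ
  rw [Subgroup.mem_comap, MulAction.mem_stabilizer_iff, MonoidHom.mem_ker]
  constructor
  · intro h
    exact Subtype.ext (regind_stab hn G hG hcard (ρ σ) (ρ σ).2 i h)
  · intro h
    rw [h, one_smul]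

theorem gsmall_comp {K : IntermediateField ℚ QBar} (L : IntermediateField K QBar)
    (σ τ : Gal(QBar/K)) (φ : L →ₐ[K] QBar) :
    ((σ : Gal(QBar/K)) : QBar →ₐ[K] QBar).comp
      (((τ : Gal(QBar/K)) : QBar →ₐ[K] QBar).comp φ) =
      ((σ * τ : Gal(QBar/K)) : QBar →ₐ[K] QBar).comp φ := by
  ext x
  rfl

theorem gsmall_comp_one {K : IntermediateField ℚ QBar} (L : IntermediateField K QBar)
    (φ : L →ₐ[K] QBar) :
    ((1 : Gal(QBar/K)) : QBar →ₐ[K] QBar).comp φ = φ := by
  ext x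
  rfl

/-- the permutation induced by `σ` -/
def gsmallPerm {n : ℕ} {K : IntermediateField ℚ QBar} (L : IntermediateField K QBar)
    (e : (L →ₐ[K] QBar) ≃ Fin n) (σ : Gal(QBar/K)) : Equiv.Perm (Fin n) where
  toFun i := e (((σ : Gal(QBar/K)) : QBar →ₐ[K] QBar).comp (e.symm i))
  invFun i := e (((σ⁻¹ : Gal(QBar/K)) : QBar →ₐ[K] QBar).comp (e.symm i))
  left_inv i := by
    simp only [Equiv.symm_apply_apply]
    rw [gsmall_comp, inv_mul_cancel, gsmall_comp_one, Equiv.apply_symm_apply]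
  right_inv i := by
    simp only [Equiv.symm_apply_apply]
    rw [gsmall_comp, mul_inv_cancel, gsmall_comp_one, Equiv.apply_symm_apply]

theorem gsmallPerm_apply {n : ℕ} {K : IntermediateField ℚ QBar} (L : IntermediateField K QBar)
    (e : (L →ₐ[K] QBar) ≃ Fin n) (σ : Gal(QBar/K)) (φ : L →ₐ[K] QBar) :
    gsmallPerm L e σ (e φ) = e (((σ : Gal(QBar/K)) : QBar →ₐ[K] QBar).comp φ) := by
  change e (((σ : Gal(QBar/K)) : QBar →ₐ[K] QBar).comp (e.symm (e φ))) = _
  rw [Equiv.symm_apply_apply]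

theorem small_rho {n : ℕ} (hn : 2 ≤ n) (G : Subgroup (Equiv.Perm (Fin n)))
    (hG : MulAction.IsPretransitive G (Fin n)) (hcard : Nat.card G = n)
    (K : IntermediateField ℚ QBar) [NumberField K] (i₀ : Fin n)
    (L : IntermediateField K QBar) (hL : Spec.IsSmall K QBar G L) :
    ∃ ρ : Gal(QBar/K) →* G, Function.Surjective ρ ∧ FT ρ ∧ L = fieldOf i₀ ρ := by
  have hgal : IsGalois K QBar := IsAlgClosure.isGalois K QBar
  obtain ⟨hr, e, he⟩ := hL
  have hfin : FiniteDimensional K L := Module.finite_of_finrank_pos (by omega)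
  have hmem : ∀ σ : Gal(QBar/K), gsmallPerm L e σ ∈ G := fun σ =>
    (he _).2 ⟨σ, fun φ => gsmallPerm_apply L e σ φ⟩
  have hmul : ∀ σ τ : Gal(QBar/K),
      gsmallPerm L e (σ * τ) = gsmallPerm L e σ * gsmallPerm L e τ := by
    intro σ τ
    apply Equiv.ext
    intro i
    obtain ⟨φ, rfl⟩ := e.surjective i
    rw [Equiv.Perm.mul_apply, gsmallPerm_apply, gsmallPerm_apply, gsmallPerm_apply, gsmall_comp]
  let ρ : Gal(QBar/K) →* G := MonoidHom.mk' (fun σ => ⟨gsmallPerm L e σ, hmem σ⟩)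
    (fun σ τ => Subtype.ext (hmul σ τ))
  have hρ : ∀ σ, ((ρ σ : G) : Equiv.Perm (Fin n)) = gsmallPerm L e σ := fun σ => rfl
  have hker : L.fixingSubgroup = ρ.ker := by
    rw [← gsmall_comap hn G hG hcard ρ (e L.val)]
    ext σ
    rw [Subgroup.mem_comap, MulAction.mem_stabilizer_iff]
    have h1 : ρ σ • (e L.val) = e (((σ : Gal(QBar/K)) : QBar →ₐ[K] QBar).comp L.val) :=
      gsmallPerm_apply L e σ L.val
    rw [h1, EmbeddingLike.apply_eq_iff_eq]
    have h2 := small_comp_val_eq_iff L σ 1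
    rw [gsmall_comp_one, inv_one, one_mul] at h2
    exact h2.symm
  refine ⟨ρ, ?_, ⟨L, hfin, hker.le⟩, ?_⟩
  · rintro ⟨π, hπ⟩
    obtain ⟨σ, hσ⟩ := (he π).1 hπ
    refine ⟨σ, Subtype.ext ?_⟩
    apply Equiv.ext
    intro i
    obtain ⟨φ, rfl⟩ := e.surjective i
    rw [hρ, gsmallPerm_apply, hσ]
  · unfold fieldOf
    rw [gsmall_comap hn G hG hcard ρ i₀, ← hker]
    exact (InfiniteGalois.fixedField_fixingSubgroup L).symm

theorem field_gal {n : ℕ} (hn : 2 ≤ n) (G : Subgroup (Equiv.Perm (Fin n)))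
    (hG : MulAction.IsPretransitive G (Fin n)) (hcard : Nat.card G = n)
    (K : IntermediateField ℚ QBar) [NumberField K] (i₀ : Fin n) (ρ : Gal(QBar/K) →* G)
    (hρ : Function.Surjective ρ) (hft : FT ρ) (p : ℕ) (hexp : ∀ g : G, g ^ p = 1) :
    (fieldOf i₀ ρ).fixingSubgroup = ρ.ker ∧ FiniteDimensional K (fieldOf i₀ ρ) ∧
      IsGalois K (fieldOf i₀ ρ) ∧ Module.finrank K (fieldOf i₀ ρ) = n ∧
      ∀ s : Gal(fieldOf i₀ ρ/K), s ^ p = 1 := by
  have hgal : IsGalois K QBar := IsAlgClosure.isGalois K QBar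
  obtain ⟨h1, h2, -, -⟩ := small_field G hG K i₀ ρ hρ hft
  obtain ⟨E, hE, hle⟩ := hft
  have hfix : (fieldOf i₀ ρ).fixingSubgroup = ρ.ker := by
    have h3 : (fieldOf i₀ ρ).fixingSubgroup = (MulAction.stabilizer G i₀).comap ρ := by
      refine (fixing_fixedField _ E ?_).1
      rw [gsmall_comap hn G hG hcard ρ i₀]
      exact hle
    rw [h3, gsmall_comap hn G hG hcard ρ i₀]
  have hG2 : IsGalois K (fieldOf i₀ ρ) := by
    rw [← InfiniteGalois.normal_iff_isGalois, hfix]
    infer_instance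
  refine ⟨hfix, h1, hG2, h2, ?_⟩
  intro s
  obtain ⟨σ, rfl⟩ := AlgEquiv.restrictNormalHom_surjective (F := K) (K₁ := fieldOf i₀ ρ) QBar s
  rw [← map_pow]
  have h4 : σ ^ p ∈ (AlgEquiv.restrictNormalHom (F := K) (K₁ := QBar) (fieldOf i₀ ρ)).ker := by
    rw [IntermediateField.restrictNormalHom_ker, hfix, MonoidHom.mem_ker, map_pow, hexp]
  exact h4

end H63.MA
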