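import Pool.Agent.H63.MA.GTw
import Pool.Agent.H63.MA.GBeta
import Pool.Agent.H63.MA.GSmall
import Pool.Agent.H63.MA.GDisc

/-!
# MA-GDISU: the relative discriminant of the field of a homomorphism

`K ⊆ QBar` a number field with a primitive `p`-th root of unity `ζ`, `G` regular of degree `n ≥ 2`, `Ep p G`, `D : RD0`, `L : LDs D QBar`.
* `disc_up`: there is `C > 0` such that for all surjective `ρ : Γ → G` of finite type and all finite sets `T` of primes outside `S0` with `ρ (t v) = 1` for `v ∉ S0 ∪ T`: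
  `relDisc K (fieldOf i₀ ρ) ≤ C (∏_{v ∈ T} nm v)^{indG G}`. Proof: `H38.ML.disc_bound` with `S` = the set of the ideals `v.asIdeal`, `v ∈ S0` or `n! ∈ v` (finite), `T` = the ideals of the `v ∈ T` outside `S`, hence
  `w = indG G`. For `v ∉ S0`, `P = (L.ld v).P`: by `ld_gen` the image `ρ(inertia group of P)` is generated by `ρ (t v)`, so it has order `≤ p = n.minFac` (`minfac_reg`), and order `1` if `ρ (t v) = 1`;
  `small_field`: `embOrb (fieldOf i₀ ρ) (inertia) = orbs (image)`; `H38.TD.reg_orbs` gives `n ≤ indG G + orbs`, and `orbs ⊥ = n` (`H38.ML.orbs_bot`). (For `v ∈ T` with `v ∈ S` drop it from `T`; `nm v ≥ 1`.)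
* `disc_lo`: for all surjective `ρ` of finite type and finite sets `T` of primes `v ∉ S0` with `ρ (t v) ≠ 1`: `(∏_{v ∈ T} nm v)^{indG G} ≤ relDisc K (fieldOf i₀ ρ)`: `disc_low` with `field_gal` (`[L:K] = n`,
  `L.fixingSubgroup = ker ρ`) and `ind_reg`. `H38.ML.relDisc` is `dif_pos` for a number field.
-/

set_option autoImplicit false

open scoped NumberField
open IsDedekindDomain H38.ML

noncomputable section

namespace H63.MA

theorem gdisu_t {K : Type} [Field K] [NumberField K] {p : ℕ} {ζ : K} {D : RD0 K p ζ} {Ω : Type}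
    [Field Ω] [Algebra K Ω] (L : LDs D Ω) (v : Pl K) (h : v ∉ D.S0) : L.t v = (L.ld v h).t := by
  unfold LDs.t
  rw [dif_pos h]

theorem gdisu_fin {K : Type} [Field K] [NumberField K] (n : ℕ) :
    {v : Ideal (𝓞 K) | v.IsPrime ∧ v ≠ ⊥ ∧ ((n.factorial : ℕ) : 𝓞 K) ∈ v}.Finite := by
  have h0 : Ideal.span {((n.factorial : ℕ) : 𝓞 K)} ≠ 0 := by
    rw [Ne, Ideal.zero_eq_bot, Ideal.span_singleton_eq_bot]
    exact_mod_cast n.factorial_ne_zero
  refine ((Ideal.finite_factors h0).image fun v : Pl K => v.asIdeal).subset ?_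
  rintro v ⟨hv, hv0, hn⟩
  refine ⟨⟨v, hv, hv0⟩, ?_, rfl⟩
  change v ∣ Ideal.span {((n.factorial : ℕ) : 𝓞 K)}
  rw [Ideal.dvd_span_singleton]
  exact hn

theorem gdisu_map {K : Type} [Field K] [NumberField K] {Ω : Type} [Field Ω] [Algebra K Ω]
    [IsAlgClosure K Ω] {p : ℕ} {ζ : K} (hp : p.Prime) (hζ : IsPrimitiveRoot ζ p)
    (D : RD0 K p ζ) (L : LDs D Ω) {G : Type} [Group G] [Finite G] (hE : Ep p G)
    (ρ : Gal(Ω/K) →* G) (hft : FT ρ) (v : Pl K) (hv : v ∉ D.S0) :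
    (((L.ld v hv).P.inertia Gal(Ω/K)).map ρ) ≤ Subgroup.zpowers (ρ (L.t v)) := by
  rintro _ ⟨τ, hτ, rfl⟩
  have h1 := ld_gen hp hζ (fun h => hv (D.above v h)) (D.pi_self v hv) (L.ld v hv) hE ρ hft τ hτ
  rw [h1, gdisu_t L v hv]
  exact Subgroup.npow_mem_zpowers _ _

theorem disc_up {n : ℕ} (hn : 2 ≤ n) (G : Subgroup (Equiv.Perm (Fin n)))
    (hG : MulAction.IsPretransitive G (Fin n)) (hcard : Nat.card G = n) {p : ℕ} (hp : p.Prime)
    (hE : Ep p G) (K : IntermediateField ℚ QBar) [NumberField K] {ζ : K}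
    (hζ : IsPrimitiveRoot ζ p) (D : RD0 K p ζ) (L : LDs D QBar) (i₀ : Fin n) :
    ∃ C : ℝ, 0 < C ∧ ∀ (ρ : Gal(QBar/K) →* G), Function.Surjective ρ → FT ρ →
      ∀ T : Finset (Pl K), (∀ v ∈ T, v ∉ D.S0) → (∀ v, v ∉ D.S0 → v ∉ T → ρ (L.t v) = 1) →
        (H38.ML.relDisc K (fieldOf i₀ ρ) : ℝ) ≤ C * (∏ v ∈ T, (nm v : ℝ)) ^ H38.ML.indG G := by
  classical
  set S : Set (Ideal (𝓞 K)) := ((D.S0.image fun v : Pl K => v.asIdeal : Finset (Ideal (𝓞 K))) :
    Set (Ideal (𝓞 K))) ∪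
    {v : Ideal (𝓞 K) | v.IsPrime ∧ v ≠ ⊥ ∧ ((n.factorial : ℕ) : 𝓞 K) ∈ v} with hS
  have hSf : S.Finite := (Finset.finite_toSet _).union (gdisu_fin n)
  obtain ⟨C, hC, hb⟩ := disc_bound QBar n S hSf (fun v hv hv0 hvS hmem =>
    hvS (Or.inr ⟨hv, hv0, hmem⟩))
  refine ⟨C, by exact_mod_cast hC, fun ρ hρ hft T hT hT1 => ?_⟩
  obtain ⟨hfd, hdeg, -, hemb⟩ := small_field G hG K i₀ ρ hρ hft
  have hnf : NumberField (fieldOf i₀ ρ) := NumberField.of_module_finite K (fieldOf i₀ ρ)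
  set T₀ : Finset (Pl K) := T.filter fun v => v.asIdeal ∉ S with hT₀
  have hS0 : ∀ v : Pl K, v.asIdeal ∉ S → v ∉ D.S0 := by
    intro v hv h
    exact hv (Or.inl (Finset.mem_coe.2 (Finset.mem_image_of_mem _ h)))
  have hmin : n.minFac = p := minfac_reg hn G hcard hp hE.exp
  have hmain := hb (fieldOf i₀ ρ) hfd hnf hdeg (T₀.image fun v => v.asIdeal) (H38.ML.indG G)
    (by
      intro v hv
      obtain ⟨w, -, rfl⟩ := Finset.mem_image.1 hv
      exact ⟨w.isPrime, w.ne_bot⟩)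
    (by
      intro v hv
      obtain ⟨w, hw, rfl⟩ := Finset.mem_image.1 hv
      have hwS := (Finset.mem_filter.1 hw).2
      have hw0 := hS0 w hwS
      refine ⟨(L.ld w hw0).P, (L.ld w hw0).prime, (L.ld w hw0).under, ?_⟩
      rw [hemb]
      refine H38.TD.reg_orbs hn G hG hcard _ ?_
      rw [hmin]
      have h1 := gdisu_map hp hζ D L hE ρ hft w hw0
      refine le_trans (Subgroup.card_le_of_le h1) ?_
      rw [Nat.card_zpowers]
      exact Nat.le_of_dvd hp.pos (orderOf_dvd_of_pow_eq_one (hE.exp _)))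
    (by
      intro v hv hv0 hvS hvT
      have hw0 : (⟨v, hv, hv0⟩ : Pl K) ∉ D.S0 := hS0 ⟨v, hv, hv0⟩ hvS
      have hwT : (⟨v, hv, hv0⟩ : Pl K) ∉ T := by
        intro h
        exact hvT (Finset.mem_image.2 ⟨⟨v, hv, hv0⟩, Finset.mem_filter.2 ⟨h, hvS⟩, rfl⟩)
      refine ⟨(L.ld _ hw0).P, (L.ld _ hw0).prime, (L.ld _ hw0).under, ?_⟩
      rw [hemb]
      have h1 := gdisu_map hp hζ D L hE ρ hft _ hw0
      rw [hT1 _ hw0 hwT, Subgroup.zpowers_one_eq_bot, le_bot_iff] at h1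
      rw [h1, Subgroup.map_bot, orbs_bot])
  have hrel : H38.ML.relDisc K (fieldOf i₀ ρ) =
      Ideal.absNorm (differentIdeal (𝓞 K) (𝓞 (fieldOf i₀ ρ))) := by
    unfold H38.ML.relDisc
    rw [dif_pos hnf]
  rw [hrel]
  have hprod : ∏ v ∈ T₀.image (fun v : Pl K => v.asIdeal), Ideal.absNorm v ≤ ∏ v ∈ T, nm v := by
    rw [Finset.prod_image (fun a _ b _ h => HeightOneSpectrum.ext h)]
    refine Finset.prod_le_prod_of_subset_of_one_le' (Finset.filter_subset _ _) fun v _ _ => ?_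
    exact Nat.one_le_iff_ne_zero.2 fun h => v.ne_bot (Ideal.absNorm_eq_zero_iff.1 h)
  have h2 : Ideal.absNorm (differentIdeal (𝓞 K) (𝓞 (fieldOf i₀ ρ))) ≤
      C * (∏ v ∈ T, nm v) ^ H38.ML.indG G :=
    le_trans hmain (Nat.mul_le_mul_left _ (Nat.pow_le_pow_left hprod _))
  exact_mod_cast h2

theorem disc_lo {n : ℕ} (hn : 2 ≤ n) (G : Subgroup (Equiv.Perm (Fin n)))
    (hG : MulAction.IsPretransitive G (Fin n)) (hcard : Nat.card G = n) {p : ℕ} (hp : p.Prime)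
    (hE : Ep p G) (K : IntermediateField ℚ QBar) [NumberField K] {ζ : K}
    (hζ : IsPrimitiveRoot ζ p) (D : RD0 K p ζ) (L : LDs D QBar) (i₀ : Fin n)
    (ρ : Gal(QBar/K) →* G) (hρ : Function.Surjective ρ) (hft : FT ρ) (T : Finset (Pl K))
    (hT : ∀ v ∈ T, v ∉ D.S0 ∧ ρ (L.t v) ≠ 1) :
    (∏ v ∈ T, (nm v : ℝ)) ^ H38.ML.indG G ≤ (H38.ML.relDisc K (fieldOf i₀ ρ) : ℝ) := by
  obtain ⟨hker, hfd, hgal, hdeg, hexp⟩ := field_gal hn G hG hcard K i₀ ρ hρ hft p hE.exp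
  have hnf : NumberField (fieldOf i₀ ρ) := NumberField.of_module_finite K (fieldOf i₀ ρ)
  have h1 := disc_low hp (fieldOf i₀ ρ) hexp T (fun v hv => ?_)
  · have hrel : H38.ML.relDisc K (fieldOf i₀ ρ) =
        Ideal.absNorm (differentIdeal (𝓞 K) (𝓞 (fieldOf i₀ ρ))) := by
      unfold H38.ML.relDisc
      rw [dif_pos hnf]
    rw [hrel]
    rw [hdeg, ← (ind_reg hn G hG hcard hp hE.exp).1, Finset.prod_pow] at h1
    exact_mod_cast h1
  · obtain ⟨hv0, hv1⟩ := hT v hv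
    refine ⟨fun h => hv0 (D.above v h), (L.ld v hv0).P, L.t v, (L.ld v hv0).prime,
      (L.ld v hv0).under, ?_, ?_⟩
    · rw [gdisu_t L v hv0]
      exact (L.ld v hv0).ht
    · rw [hker, MonoidHom.mem_ker]
      exact hv1

end H63.MA
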