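import Mathlib

/-!
# MA-FTPG: a map of vector spaces over a prime field which preserves lines comes from a linear map

`F = ZMod p`, `V`, `X` vector spaces over `F`, `dim V ≥ 3` (every pair `u, v` can be extended by `w` outside their span),
`f : V → X` with: `f u`, `f v` are linearly independent if `u, v` are, and `f (u + v) ∈ span (f u, f v)` if `u, v` are linearly
independent; `f v ≠ 0` for `v ≠ 0`; `f (a v) ∈ span (f v)`. Then there is a linear `g : V → X` with `g v = a • f v`, `a ≠ 0`, for
every `v` (`a` depends on `v`).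

Proof. Write `u ~ v` for proportional by a nonzero scalar. Fix `e ≠ 0` and put `E = f e`. For `v ∉ F e`:
`f (v + e) = α f v + β E`, and `α, β ≠ 0` because `v + e, v` are independent and `v + e, e` are independent. Put
`g₀ v = (α/β) f v`; so `f (v + e) ~ g₀ v + E`, and `g₀ v` is the only multiple of `f v` with this property (`f v`, `E` independent).
(1) If `u, v, e` are independent then `g₀ (u + v) = g₀ u + g₀ v`: first, the images of three independent vectors are
independent (`f u, f v` span a plane containing `f (u + a v)`; if `E` were in this plane, `E = f e ~ f(u + a v)` for some `a` or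
`~ f v`, because the `p + 1` pairwise non proportional vectors `f v`, `f (u + a v)` exhaust the lines of the plane, contradiction to
independence of `f e` and `f (u + a v)`).
`f (u + v + e) ∈ span (f (u + e), f v) ∩ span (f (v + e), f u) = span (g₀ u + E, f v) ∩ span (g₀ v + E, f u)`, so
`f (u+v+e) ~ g₀ u + g₀ v + E` (the coefficient of `E` is not `0`, by comparing coefficients in the basis `f u, f v, E`);
also `f (u + v + e) ∈ span (f (u + v), E)` and `f (u + v) ∈ span (f u, f v)`, so `f (u + v) ~ g₀ u + g₀ v`, and by uniqueness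
`g₀ (u + v) = g₀ u + g₀ v`.
(2) `g₀ (a v) = a g₀ v`-type statements and the case of dependent `u, v, e`: choose `w` outside `span (u, v, e)`... (if only
`dim V ≥ 3`, `u, v` dependent modulo `e`: `v = a u + b e`, choose `w ∉ span (u, e)`.) For `u, v, u + v ∉ F e` with
`u, v, e` dependent: `g₀ (u + v) + g₀ w = g₀ (u + v + w) = g₀ u + g₀ (v + w) = g₀ u + g₀ v + g₀ w` by (1), applied to the
independent triples `(u + v, w, e)`, `(u, v + w, e)`, `(v, w, e)`. If `u ∉ F e` and `v ∈ F e`, define `g v := g₀ (u + v) - g₀ u` for `v ∈ F e`;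
by (1): independent of `u`: `g₀ (u + v) - g₀ u = g₀ (u + w + v) - g₀ (u + w) = g₀ (w + v) - g₀ w` for `u, w, e` independent, and
for dependent `u, w` go through a third vector. `g v` is a multiple of `E`: by (2) `g v = g₀ (u+v) - g₀ u ∈ span (f u, E)` and
`∈ span (f w, E)`, so `∈ F E`; it is nonzero for `v ≠ 0` since `f (u + v)` and `f u` are independent.
So `g` is additive, hence `ZMod p`-linear, and `g v ~ f v` for all `v ≠ 0`.
-/

set_option autoImplicit false

namespace H63.MA

section Ftpg

variable {V X : Type} [AddCommGroup V] [AddCommGroup X]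

/-- linear independence of two vectors -/
def FtI2 (p : ℕ) [Module (ZMod p) V] (u v : V) : Prop :=
  ∀ s t : ZMod p, s • u + t • v = 0 → s = 0 ∧ t = 0

/-- linear independence of three vectors -/
def FtI3 (p : ℕ) [Module (ZMod p) V] (u v w : V) : Prop :=
  ∀ s t r : ZMod p, s • u + t • v + r • w = 0 → s = 0 ∧ t = 0 ∧ r = 0

/-- the hypotheses -/
structure FtH (p : ℕ) [Module (ZMod p) V] [Module (ZMod p) X] (f : V → X) : Prop where
  h3 : ∀ u v : V, ∃ w : V, ∀ a b : ZMod p, a • u + b • v ≠ w
  h0 : f 0 = 0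
  hs : ∀ (a : ZMod p) (v : V), ∃ b : ZMod p, f (a • v) = b • f v
  hi : ∀ u v, FtI2 p u v → FtI2 p (f u) (f v)
  hl : ∀ u v, FtI2 p u v → ∃ a b : ZMod p, f (u + v) = a • f u + b • f v

variable {p : ℕ} [hp : Fact p.Prime] [Module (ZMod p) V] [Module (ZMod p) X] {f : V → X}

theorem ft_i3_of {u v w : V} (h : FtI2 p u v) (hw : ∀ a b : ZMod p, a • u + b • v ≠ w) :
    FtI3 p u v w := by
  intro s t r hst
  have hr : r = 0 := by
    by_contra hr
    apply hw (-(r⁻¹ * s)) (-(r⁻¹ * t))
    have h1 : r⁻¹ • (s • u + t • v + r • w) = 0 := by rw [hst, smul_zero]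
    rw [smul_add, smul_add, smul_smul, smul_smul, smul_smul, inv_mul_cancel₀ hr, one_smul] at h1
    rw [neg_smul, neg_smul]
    have h2 : w = -((r⁻¹ * s) • u + (r⁻¹ * t) • v) := by
      rw [eq_neg_iff_add_eq_zero, add_comm]
      exact h1
    rw [h2]
    abel
  rw [hr, zero_smul, add_zero] at hst
  obtain ⟨h1, h2⟩ := h s t hst
  exact ⟨h1, h2, hr⟩

theorem ft_one_ne : (1 : ZMod p) ≠ 0 := one_ne_zero

/-- the images of three independent vectors are independent -/
theorem ft_a (H : FtH p f) {a b c : V} (h : FtI3 p a b c) : FtI3 p (f a) (f b) (f c) := by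
  have hab : FtI2 p a b := by
    intro s t hst
    have h1 := h s t 0 (by rw [zero_smul, add_zero, hst])
    exact ⟨h1.1, h1.2.1⟩
  have hbc : FtI2 p b c := by
    intro s t hst
    have h1 := h 0 s t (by rw [zero_smul, zero_add, hst])
    exact h1.2
  intro s t r hst
  by_cases hr : r = 0
  · rw [hr, zero_smul, add_zero] at hst
    obtain ⟨h1, h2⟩ := H.hi a b hab s t hst
    exact ⟨h1, h2, hr⟩
  exfalso
  -- f c = x f a + y f b
  obtain ⟨x, y, hxy⟩ : ∃ x y : ZMod p, f c = x • f a + y • f b := by
    refine ⟨-(r⁻¹ * s), -(r⁻¹ * t), ?_⟩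
    have h1 : r⁻¹ • (s • f a + t • f b + r • f c) = 0 := by rw [hst, smul_zero]
    rw [smul_add, smul_add, smul_smul, smul_smul, smul_smul, inv_mul_cancel₀ hr, one_smul] at h1
    have h2 : f c = -((r⁻¹ * s) • f a + (r⁻¹ * t) • f b) := by
      rw [eq_neg_iff_add_eq_zero, add_comm]
      exact h1
    rw [h2, neg_smul, neg_smul]
    abel
  have hx : x ≠ 0 := by
    rintro rfl
    rw [zero_smul, zero_add] at hxy
    have h1 := H.hi b c hbc (-y) 1 (by rw [one_smul, hxy, neg_smul]; abel)
    exact ft_one_ne h1.2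
  have hex : ∀ q : ZMod p, ∃ α β : ZMod p, α ≠ 0 ∧ f (a + q • b) = α • f a + β • f b := by
    intro q
    have hqb : FtI2 p (a + q • b) b := by
      intro s' t' h1
      have h2 := hab s' (s' * q + t') (by
        rw [add_smul, mul_smul, ← add_assoc, ← smul_add]
        exact h1)
      refine ⟨h2.1, ?_⟩
      have h3 := h2.2
      rw [h2.1, zero_mul, zero_add] at h3
      exact h3
    have hform : ∃ α β : ZMod p, f (a + q • b) = α • f a + β • f b := by
      by_cases hq : q = 0
      · exact ⟨1, 0, by rw [hq, zero_smul, add_zero, one_smul, zero_smul, add_zero]⟩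
      · have h1 : FtI2 p a (q • b) := by
          intro s' t' h2
          have h3 := hab s' (t' * q) (by rw [mul_smul]; exact h2)
          refine ⟨h3.1, ?_⟩
          rcases mul_eq_zero.1 h3.2 with h4 | h4
          · exact h4
          · exact absurd h4 hq
        obtain ⟨α, β, h2⟩ := H.hl _ _ h1
        obtain ⟨γ, h3⟩ := H.hs q b
        exact ⟨α, β * γ, by rw [h2, h3, mul_smul]⟩
    obtain ⟨α, β, h1⟩ := hform
    refine ⟨α, β, ?_, h1⟩
    rintro rfl
    rw [zero_smul, zero_add] at h1
    have h2 := H.hi _ _ hqb 1 (-β) (by rw [one_smul, h1, neg_smul]; abel)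
    exact ft_one_ne h2.1
  choose α β hα hαβ using hex
  have hinj : Function.Injective (fun q : ZMod p => β q / α q) := by
    intro q q' hqq
    by_contra hne
    have h1 : β q * α q' = β q' * α q := (div_eq_div_iff (hα q) (hα q')).1 hqq
    have h2 : FtI2 p (a + q • b) (a + q' • b) := by
      intro s' t' h3
      have h4 := hab (s' + t') (s' * q + t' * q') (by
        rw [add_smul, add_smul, mul_smul, mul_smul]
        rw [smul_add, smul_add] at h3
        rw [← h3]
        abel)
      have h5 : t' = -s' := by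
        have := h4.1
        rw [add_comm] at this
        exact eq_neg_of_add_eq_zero_left this
      have h6 : s' * (q - q') = 0 := by
        have h7 := h4.2
        rw [h5] at h7
        rw [← h7]
        ring
      rcases mul_eq_zero.1 h6 with h7 | h7
      · exact ⟨h7, by rw [h5, h7, neg_zero]⟩
      · exact absurd (sub_eq_zero.1 h7) hne
    have h3 := H.hi _ _ h2 (α q') (-(α q)) (by
      rw [hαβ, hαβ, smul_add, smul_add, smul_smul, smul_smul, smul_smul, smul_smul]
      have e1 : α q' * α q = -(-(α q) * α q') := by ring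
      have e2 : α q' * β q = -(-(α q) * β q') := by
        rw [mul_comm, h1]
        ring
      rw [e1, e2, neg_smul, neg_smul]
      abel)
    exact hα q' h3.1
  obtain ⟨q, hq⟩ := (Finite.injective_iff_surjective.1 hinj) (y / x)
  have hq' : β q * x = y * α q := (div_eq_div_iff (hα q) hx).1 hq
  have h2 : FtI2 p (a + q • b) c := by
    intro s' t' h3
    have h4 := h s' (s' * q) t' (by
      rw [mul_smul, ← smul_add]
      exact h3)
    exact ⟨h4.1, h4.2.2⟩
  have h3 := H.hi _ _ h2 x (-(α q)) (by
    rw [hαβ, hxy, smul_add, smul_add, smul_smul, smul_smul, smul_smul, smul_smul]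
    have e1 : x * α q = -(-(α q) * x) := by ring
    have e2 : x * β q = -(-(α q) * y) := by
      rw [mul_comm, hq']
      ring
    rw [e1, e2, neg_smul, neg_smul]
    abel)
  exact hx h3.1

/-- the normalising constant -/
theorem ft_b (H : FtH p f) {e v : V} (h : FtI2 p v e) :
    ∃ c : ZMod p, c ≠ 0 ∧ ∃ β : ZMod p, β ≠ 0 ∧ f (v + e) = β • (c • f v + f e) := by
  obtain ⟨a, b, hab⟩ := H.hl v e h
  have hb : b ≠ 0 := by
    rintro rfl
    rw [zero_smul, add_zero] at hab
    have h1 : FtI2 p (v + e) v := by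
      intro s t h2
      have h3 := h (s + t) s (by
        rw [smul_add] at h2
        rw [add_smul, ← h2]
        abel)
      refine ⟨h3.2, ?_⟩
      have h4 := h3.1
      rw [h3.2, zero_add] at h4
      exact h4
    have h2 := H.hi _ _ h1 1 (-a) (by rw [one_smul, hab, neg_smul]; abel)
    exact ft_one_ne h2.1
  have ha : a ≠ 0 := by
    rintro rfl
    rw [zero_smul, zero_add] at hab
    have h1 : FtI2 p (v + e) e := by
      intro s t h2
      have h3 := h s (s + t) (by
        rw [smul_add] at h2
        rw [add_smul, ← h2]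
        abel)
      refine ⟨h3.1, ?_⟩
      have h4 := h3.2
      rw [h3.1, zero_add] at h4
      exact h4
    have h2 := H.hi _ _ h1 1 (-b) (by rw [one_smul, hab, neg_smul]; abel)
    exact ft_one_ne h2.1
  refine ⟨b⁻¹ * a, mul_ne_zero (inv_ne_zero hb) ha, b, hb, ?_⟩
  rw [hab, smul_add, smul_smul, ← mul_assoc, mul_inv_cancel₀ hb, one_mul]

/-- additivity for independent triples -/
theorem ft_c (H : FtH p f) {e : V} (c : V → ZMod p)
    (hc : ∀ v, FtI2 p v e → c v ≠ 0 ∧ ∃ β : ZMod p, β ≠ 0 ∧ f (v + e) = β • (c v • f v + f e))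
    {u v : V} (h : FtI3 p u v e) : c (u + v) • f (u + v) = c u • f u + c v • f v := by
  have hue : FtI2 p u e := by
    intro s t hst
    have h1 := h s 0 t (by rw [zero_smul, add_zero, hst])
    exact ⟨h1.1, h1.2.2⟩
  have hve : FtI2 p v e := by
    intro s t hst
    have h1 := h 0 s t (by rw [zero_smul, zero_add, hst])
    exact h1.2
  have huv : FtI2 p u v := by
    intro s t hst
    have h1 := h s t 0 (by rw [zero_smul, add_zero, hst])
    exact ⟨h1.1, h1.2.1⟩
  have huve : FtI2 p (u + v) e := by
    intro s t hst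
    have h1 := h s s t (by rw [← smul_add, hst])
    exact ⟨h1.1, h1.2.2⟩
  have h1 : FtI2 p (u + e) v := by
    intro s t hst
    have h2 := h s t s (by
      rw [smul_add] at hst
      rw [← hst]
      abel)
    exact ⟨h2.1, h2.2.1⟩
  have h2 : FtI2 p (v + e) u := by
    intro s t hst
    have h3 := h t s s (by
      rw [smul_add] at hst
      rw [← hst]
      abel)
    exact ⟨h3.2.1, h3.1⟩
  obtain ⟨-, βu, hβu, hu⟩ := hc u hue
  obtain ⟨-, βv, hβv, hv⟩ := hc v hve
  obtain ⟨-, β, hβ, huv'⟩ := hc (u + v) huve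
  obtain ⟨x1, y1, e1⟩ := H.hl _ _ h1
  obtain ⟨x2, y2, e2⟩ := H.hl _ _ h2
  obtain ⟨s, t, e3⟩ := H.hl _ _ huv
  rw [hu] at e1
  rw [hv] at e2
  have a1 : u + e + v = u + v + e := by abel
  have a2 : v + e + u = u + v + e := by abel
  rw [a1] at e1
  rw [a2] at e2
  rw [e3] at huv'
  obtain ⟨A, hA⟩ : ∃ A, A = f u := ⟨_, rfl⟩
  obtain ⟨B, hB⟩ : ∃ B, B = f v := ⟨_, rfl⟩
  obtain ⟨E, hE⟩ : ∃ E, E = f e := ⟨_, rfl⟩
  have hind := ft_a H h
  rw [← hA, ← hB, ← hE] at hind
  rw [← hA, ← hB, ← hE] at e1 e2 huv'
  rw [e3, ← hA, ← hB]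
  -- compare
  have c1 := hind (x1 * βu * c u - y2) (y1 - x2 * βv * c v) (x1 * βu - x2 * βv) (by
    have h5 : x1 • βu • (c u • A + E) + y1 • B = x2 • βv • (c v • B + E) + y2 • A := by
      rw [← e1, ← e2]
    have h6 : (x1 * βu * c u - y2) • A + (y1 - x2 * βv * c v) • B + (x1 * βu - x2 * βv) • E =
        (x1 • βu • (c u • A + E) + y1 • B) - (x2 • βv • (c v • B + E) + y2 • A) := by
      simp only [sub_smul, smul_add, smul_smul, mul_assoc]
      abel
    rw [h6, h5, sub_self])
  have c2 := hind (x1 * βu * c u - β * c (u + v) * s) (y1 - β * c (u + v) * t)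
    (x1 * βu - β) (by
    have h5 : x1 • βu • (c u • A + E) + y1 • B = β • (c (u + v) • (s • A + t • B) + E) := by
      rw [← e1, ← huv']
    have h6 : (x1 * βu * c u - β * c (u + v) * s) • A + (y1 - β * c (u + v) * t) • B +
        (x1 * βu - β) • E =
        (x1 • βu • (c u • A + E) + y1 • B) - β • (c (u + v) • (s • A + t • B) + E) := by
      simp only [sub_smul, smul_add, smul_smul, mul_assoc]
      abel
    rw [h6, h5, sub_self])
  obtain ⟨c11, c12, c13⟩ := c1
  obtain ⟨c21, c22, c23⟩ := c2
  have d1 : x1 * βu = β := sub_eq_zero.1 c23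
  have d2 : x2 * βv = β := by
    rw [← d1]
    exact (sub_eq_zero.1 c13).symm
  have d3 : c u = c (u + v) * s := by
    rw [d1] at c21
    have h7 : β * (c u - c (u + v) * s) = 0 := by
      rw [← c21]
      ring
    rcases mul_eq_zero.1 h7 with h8 | h8
    · exact absurd h8 hβ
    · exact sub_eq_zero.1 h8
  have d4 : c v = c (u + v) * t := by
    have h9 : y1 = β * c v := by
      rw [← d2]
      exact sub_eq_zero.1 c12
    rw [h9] at c22
    have h7 : β * (c v - c (u + v) * t) = 0 := by
      rw [← c22]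
      ring
    rcases mul_eq_zero.1 h7 with h8 | h8
    · exact absurd h8 hβ
    · exact sub_eq_zero.1 h8
  rw [d3, d4, smul_add, smul_smul, smul_smul]

/-- not a multiple of `e` -/
def FtN (p : ℕ) [Module (ZMod p) V] (e v : V) : Prop := ∀ a : ZMod p, v ≠ a • e

theorem ft_n_i2 {e v : V} (he : e ≠ 0) (h : FtN p e v) : FtI2 p v e := by
  intro s t hst
  have hs : s = 0 := by
    by_contra hs
    apply h (-(s⁻¹ * t))
    have h1 : s⁻¹ • (s • v + t • e) = 0 := by rw [hst, smul_zero]
    rw [smul_add, smul_smul, smul_smul, inv_mul_cancel₀ hs, one_smul] at h1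
    rw [neg_smul]
    exact eq_neg_of_add_eq_zero_left h1
  rw [hs, zero_smul, zero_add] at hst
  refine ⟨hs, ?_⟩
  by_contra ht
  apply he
  have h1 : t⁻¹ • (t • e) = 0 := by rw [hst, smul_zero]
  rwa [smul_smul, inv_mul_cancel₀ ht, one_smul] at h1

theorem ft_i3 {e u w : V} (he : e ≠ 0) (hu : FtN p e u)
    (hw : ∀ a b : ZMod p, a • u + b • e ≠ w) : FtI3 p u w e := by
  intro s t r h
  have h1 := ft_i3_of (ft_n_i2 he hu) hw s r t (by
    rw [← h]
    abel)
  exact ⟨h1.1, h1.2.2, h1.2.1⟩

theorem ft_n_add {e v : V} (h : FtN p e v) (a : ZMod p) : FtN p e (v + a • e) := by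
  intro b hb
  apply h (b - a)
  rw [sub_smul, ← hb]
  abel

theorem ft_n_of {e u w : V} (hw : ∀ a b : ZMod p, a • u + b • e ≠ w) : FtN p e w := by
  intro a ha
  apply hw 0 a
  rw [zero_smul, zero_add, ha]

/-- additivity outside the line of `e` -/
theorem ft_star (H : FtH p f) {e : V} (he : e ≠ 0) (c : V → ZMod p)
    (hc : ∀ v, FtI2 p v e → c v ≠ 0 ∧ ∃ β : ZMod p, β ≠ 0 ∧ f (v + e) = β • (c v • f v + f e))
    {u v : V} (hu : FtN p e u) (hv : FtN p e v) (huv : FtN p e (u + v)) :
    c (u + v) • f (u + v) = c u • f u + c v • f v := by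
  by_cases h : ∀ a b : ZMod p, a • u + b • e ≠ v
  · exact ft_c H c hc (ft_i3 he hu h)
  · push Not at h
    obtain ⟨a, b, hab⟩ := h
    obtain ⟨w, hw⟩ := H.h3 u e
    have h1 : FtI3 p (u + v) w e := by
      apply ft_i3 he huv
      intro x y hxy
      apply hw (x + x * a) (x * b + y)
      rw [← hxy, ← hab, add_smul, add_smul, mul_smul, mul_smul, smul_add, smul_add]
      abel
    have h2 : FtI3 p u (v + w) e := by
      apply ft_i3 he hu
      intro x y hxy
      apply hw (x - a) (y - b)
      have : w = (x • u + y • e) - v := by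
        rw [hxy]
        abel
      rw [this, ← hab, sub_smul, sub_smul]
      abel
    have h3 : FtI3 p v w e := by
      apply ft_i3 he hv
      intro x y hxy
      apply hw (x * a) (x * b + y)
      rw [← hxy, ← hab, add_smul, mul_smul, mul_smul, smul_add]
      abel
    have e1 := ft_c H c hc h1
    have e2 := ft_c H c hc h2
    have e3 := ft_c H c hc h3
    rw [← add_assoc] at e2
    rw [e1, e3, ← add_assoc] at e2
    exact add_right_cancel e2

/-- the increment does not depend on the base point -/
theorem ft_incr (H : FtH p f) {e : V} (he : e ≠ 0) (c : V → ZMod p)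
    (hc : ∀ v, FtI2 p v e → c v ≠ 0 ∧ ∃ β : ZMod p, β ≠ 0 ∧ f (v + e) = β • (c v • f v + f e))
    {u w : V} (hu : FtN p e u) (hw : FtN p e w) (b : ZMod p) :
    c (u + b • e) • f (u + b • e) - c u • f u = c (w + b • e) • f (w + b • e) - c w • f w := by
  have key : ∀ u w : V, FtN p e u → FtN p e w → FtN p e (u + w) →
      c (u + b • e) • f (u + b • e) - c u • f u = c (w + b • e) • f (w + b • e) - c w • f w := by
    intro u w hu hw huw
    have h1 := ft_star H he c hc (ft_n_add hu b) hw (by
      have : u + b • e + w = u + w + b • e := by abel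
      rw [this]
      exact ft_n_add huw b)
    have h2 := ft_star H he c hc (ft_n_add hw b) hu (by
      have : w + b • e + u = u + w + b • e := by abel
      rw [this]
      exact ft_n_add huw b)
    have h3 : u + b • e + w = w + b • e + u := by abel
    rw [h3, h2] at h1
    rw [sub_eq_sub_iff_add_eq_add]
    exact h1.symm
  by_cases huw : FtN p e (u + w)
  · exact key u w hu hw huw
  · unfold FtN at huw
    push Not at huw
    obtain ⟨a, ha⟩ := huw
    obtain ⟨x, hx⟩ := H.h3 u e
    have hxN : FtN p e x := ft_n_of hx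
    have h1 : FtN p e (u + x) := by
      intro y hy
      apply hx (-1) y
      rw [← hy, neg_one_smul]
      abel
    have h2 : FtN p e (x + w) := by
      intro y hy
      apply hx 1 (y - a)
      have : x = (x + w) - (u + w) + u := by abel
      rw [this, hy, ha, one_smul, sub_smul]
      abel
    rw [key u x hu hxN h1, key x w hxN hw h2]

end Ftpg

theorem ftpg {p : ℕ} [Fact p.Prime] {V X : Type} [AddCommGroup V] [Module (ZMod p) V]
    [AddCommGroup X] [Module (ZMod p) X] (f : V → X)
    (h3 : ∀ u v : V, ∃ w : V, w ∉ Submodule.span (ZMod p) {u, v})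
    (h0 : f 0 = 0)
    (hs : ∀ (a : ZMod p) (v : V), f (a • v) ∈ Submodule.span (ZMod p) {f v})
    (hi : ∀ u v : V, LinearIndependent (ZMod p) ![u, v] → LinearIndependent (ZMod p) ![f u, f v])
    (hl : ∀ u v : V, LinearIndependent (ZMod p) ![u, v] →
      f (u + v) ∈ Submodule.span (ZMod p) {f u, f v}) :
    ∃ g : V →ₗ[ZMod p] X, ∀ v, ∃ a : ZMod p, a ≠ 0 ∧ g v = a • f v := by
  classical
  have hI2 : ∀ {Z : Type} [AddCommGroup Z] [Module (ZMod p) Z] (u v : Z),
      LinearIndependent (ZMod p) ![u, v] ↔ FtI2 p u v := by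
    intro Z _ _ u v
    exact LinearIndependent.pair_iff
  have H : FtH p f := by
    refine ⟨?_, h0, ?_, ?_, ?_⟩
    · intro u v
      obtain ⟨w, hw⟩ := h3 u v
      refine ⟨w, fun a b hab => hw ?_⟩
      rw [Submodule.mem_span_pair]
      exact ⟨a, b, hab⟩
    · intro a v
      obtain ⟨b, hb⟩ := Submodule.mem_span_singleton.1 (hs a v)
      exact ⟨b, hb.symm⟩
    · intro u v h
      rw [← hI2] at h ⊢
      exact hi u v h
    · intro u v h
      rw [← hI2] at h
      obtain ⟨a, b, hab⟩ := Submodule.mem_span_pair.1 (hl u v h)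
      exact ⟨a, b, hab.symm⟩
  -- a nonzero vector
  obtain ⟨e, he'⟩ := H.h3 0 0
  have he : e ≠ 0 := by
    intro h
    apply he' 0 0
    rw [h, smul_zero, add_zero]
  have hcex : ∀ v : V, ∃ c : ZMod p, FtI2 p v e →
      c ≠ 0 ∧ ∃ β : ZMod p, β ≠ 0 ∧ f (v + e) = β • (c • f v + f e) := by
    intro v
    by_cases h : FtI2 p v e
    · obtain ⟨c, hc⟩ := ft_b H h
      exact ⟨c, fun _ => hc⟩
    · exact ⟨0, fun h' => absurd h' h⟩
  choose c hc using hcex
  obtain ⟨u0, hu0⟩ := H.h3 0 e
  have hu0N : FtN p e u0 := ft_n_of hu0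
  let g0 : V → X := fun v => c v • f v
  let g : V → X := fun v => if FtN p e v then g0 v else g0 (u0 + v) - g0 u0
  have hstar : ∀ u v : V, FtN p e u → FtN p e v → FtN p e (u + v) → g0 (u + v) = g0 u + g0 v :=
    fun u v hu hv huv => ft_star H he c hc hu hv huv
  have hincr : ∀ (u : V) (b : ZMod p), FtN p e u → g (b • e) = g0 (u + b • e) - g0 u := by
    intro u b hu
    have h1 : ¬ FtN p e (b • e) := fun h => h b rfl
    show (if FtN p e (b • e) then g0 (b • e) else g0 (u0 + b • e) - g0 u0) = _
    rw [if_neg h1]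
    exact ft_incr H he c hc hu0N hu b
  have hgN : ∀ v, FtN p e v → g v = g0 v := fun v hv => if_pos hv
  have hnot : ∀ v, ¬ FtN p e v → ∃ b : ZMod p, v = b • e := by
    intro v hv
    unfold FtN at hv
    push Not at hv
    exact hv
  have hadd : ∀ v w, g (v + w) = g v + g w := by
    intro v w
    by_cases hv : FtN p e v
    · by_cases hw : FtN p e w
      · by_cases hvw : FtN p e (v + w)
        · rw [hgN _ hvw, hgN _ hv, hgN _ hw, hstar v w hv hw hvw]
        · obtain ⟨b, hb⟩ := hnot _ hvw
          obtain ⟨u, hu⟩ := H.h3 v e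
          have huN : FtN p e u := ft_n_of hu
          have huv : FtN p e (u + v) := by
            intro y hy
            apply hu (-1) y
            rw [← hy, neg_one_smul]
            abel
          have huvw : FtN p e (u + v + w) := by
            rw [add_assoc, hb]
            exact ft_n_add huN b
          have e1 : u + b • e = u + v + w := by rw [← hb, add_assoc]
          rw [hb, hincr u b huN, e1, hstar _ _ huv hw huvw, hstar _ _ huN hv huv, hgN _ hv, hgN _ hw]
          abel
      · obtain ⟨b, rfl⟩ := hnot _ hw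
        rw [hincr v b hv, hgN _ hv, hgN _ (ft_n_add hv b)]
        abel
    · obtain ⟨b, rfl⟩ := hnot _ hv
      by_cases hw : FtN p e w
      · rw [hincr w b hw, hgN _ hw, add_comm (b • e) w, hgN _ (ft_n_add hw b)]
        abel
      · obtain ⟨b', rfl⟩ := hnot _ hw
        rw [← add_smul, hincr u0 _ hu0N, hincr u0 b hu0N, hincr (u0 + b • e) b' (ft_n_add hu0N b),
          add_smul, ← add_assoc]
        abel
  have hg0 : g 0 = 0 := by
    have h1 := hadd 0 0
    rw [add_zero] at h1
    exact left_eq_add.1 h1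
  let G : V →+ X := { toFun := g, map_zero' := hg0, map_add' := hadd }
  refine ⟨AddMonoidHom.toZModLinearMap p G, ?_⟩
  intro v
  show ∃ a : ZMod p, a ≠ 0 ∧ g v = a • f v
  by_cases hv : FtN p e v
  · exact ⟨c v, (hc v (ft_n_i2 he hv)).1, hgN v hv⟩
  · obtain ⟨b, rfl⟩ := hnot _ hv
    by_cases hb : b = 0
    · refine ⟨1, one_ne_zero, ?_⟩
      rw [hb, zero_smul, hg0, h0, smul_zero]
    · -- two independent vectors modulo e
      have hspan : ∀ u : V, FtN p e u → ∃ x y : ZMod p, g (b • e) = x • f u + y • f e := by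
        intro u hu
        have h1 : FtI2 p u (b • e) := by
          intro s t hst
          have h2 := ft_n_i2 he hu s (t * b) (by rw [mul_smul]; exact hst)
          refine ⟨h2.1, ?_⟩
          rcases mul_eq_zero.1 h2.2 with h3 | h3
          · exact h3
          · exact absurd h3 hb
        obtain ⟨s, t, hst⟩ := H.hl _ _ h1
        obtain ⟨r, hr⟩ := H.hs b e
        refine ⟨c (u + b • e) * s - c u, c (u + b • e) * t * r, ?_⟩
        rw [hincr u b hu]
        show c (u + b • e) • f (u + b • e) - c u • f u = _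
        rw [hst, hr, sub_smul, smul_add, smul_smul, smul_smul, smul_smul]
        abel
      obtain ⟨w, hw⟩ := H.h3 u0 e
      have hwN : FtN p e w := ft_n_of hw
      obtain ⟨x, y, hxy⟩ := hspan u0 hu0N
      obtain ⟨x', y', hxy'⟩ := hspan w hwN
      have hI3 := ft_a H (ft_i3 he hu0N hw)
      have h1 := hI3 x (-x') (y - y') (by
        have h2 : x • f u0 + y • f e - (x' • f w + y' • f e) = 0 := by
          rw [← hxy, ← hxy', sub_self]
        rw [← h2, neg_smul, sub_smul]
        abel)
      have hgE : g (b • e) = y • f e := by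
        rw [hxy, h1.1, zero_smul, zero_add]
      -- g (b e) is not zero
      have hu0b : FtI2 p (u0 + b • e) u0 := by
        intro s t hst
        have h2 := ft_n_i2 he hu0N (s + t) (s * b) (by
          rw [add_smul, mul_smul, ← hst, smul_add]
          abel)
        have h3 : s = 0 := by
          rcases mul_eq_zero.1 h2.2 with h4 | h4
          · exact h4
          · exact absurd h4 hb
        refine ⟨h3, ?_⟩
        have h4 := h2.1
        rw [h3, zero_add] at h4
        exact h4
      have hy : y ≠ 0 := by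
        rintro rfl
        rw [zero_smul, hincr u0 b hu0N] at hgE
        have h2 := H.hi _ _ hu0b (c (u0 + b • e)) (-(c u0)) (by
          rw [neg_smul, ← sub_eq_add_neg]
          exact hgE)
        exact (hc _ (ft_n_i2 he (ft_n_add hu0N b))).1 h2.1
      -- f (b e) = r f e with r not zero
      obtain ⟨r, hr⟩ := H.hs b e
      have hr0 : r ≠ 0 := by
        rintro rfl
        rw [zero_smul] at hr
        have h1 : FtI2 p u0 (b • e) := by
          intro s t hst
          have h2 := ft_n_i2 he hu0N s (t * b) (by rw [mul_smul]; exact hst)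
          refine ⟨h2.1, ?_⟩
          rcases mul_eq_zero.1 h2.2 with h3 | h3
          · exact h3
          · exact absurd h3 hb
        have h2 := H.hi _ _ h1 0 1 (by rw [hr, zero_smul, smul_zero, add_zero])
        exact one_ne_zero h2.2
      refine ⟨y * r⁻¹, mul_ne_zero hy (inv_ne_zero hr0), ?_⟩
      rw [hgE, hr, smul_smul, mul_assoc, inv_mul_cancel₀ hr0, mul_one]

end H63.MA
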