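import Pool.Agent.H63.MA.Uni
import Pool.Agent.H63.MA.Ftpg

/-!
# MA-LIN: normalised relations, linear in `c`

There is `k : Kˣ → Pl K → ZMod p` such that `k c` is a relation for every `c` which is locally primary at `p`, nonzero if `c` is not
a `p`-th power, and `c ↦ (k c v * B v c ·)_v` is additive on the group `P` of these `c`.

Proof. `V = Additive P / p`, where `P = {c | Prim p c}` (a subgroup of `Kˣ` containing all `p`-th powers: closed under products:
`(c y^{-p} - 1)` small), a module over `ZMod p` (`AddCommGroup.zmodModule`, quotient by the subgroup of `p`-th powers of elements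
of `Kˣ`, which lie in `P`: so `V = P / (Kˣ)^p`). `X` = all functions `Pl K → Kˣ → ZMod p`. For a non-`p`-th power
`c` choose a nonzero relation (`rel_exists`) and put `f [c]` = its family for a chosen representative of the class `[c]`;
`f 0 = 0`. A relation for `c` is a relation for `c y^p` (`B v (c y^p) = B v c`, `Spl` the same), and by `rel_unique`
all nonzero relations for `c` are proportional. The hypotheses of `ftpg`: `hi` is `rel_indep` (linear independence of `[c], [c']` is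
`Ind2`), `hl` is `rel_col`, `hs`: `IsRel (c^a)` for `p ∤ a`: `B v (c^a) = a B v c`, so `k` is a relation for `c^a` as well.
`h3`: the space `V` is infinite: by `weak_approx_prim` for three (any number of) different primes `v_i ∤ p` there are `c_i ∈ P` with
`ord v_i c_j = δ_ij`, so `[c_1], [c_2], [c_3]` are independent modulo `p`-th powers, and not all of them lie in a plane.
`ftpg` gives a linear `g` with `g [c] = a • f [c]`, `a ≠ 0`; `k c v` is then determined: for `v` with `Spl v c` or `v ∣ p` put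
`k c v = 0`, otherwise `a` times the value of the chosen relation for the representative (and `B v c = B v rep`).
-/

set_option autoImplicit false

open scoped NumberField
open IsDedekindDomain

noncomputable section

namespace H63.MA

variable {K : Type} [Field K] [NumberField K] {p : ℕ} (hp : p.Prime) (hp2 : MOne p K) {ζ : K}
  (hζ : IsPrimitiveRoot ζ p)

theorem lin_cast_ne (hp : p.Prime) (v : Pl K) : v.valuation K ((p : K) ^ 2) ≠ 0 := by
  rw [Ne, Valuation.zero_iff]
  exact pow_ne_zero 2 (by exact_mod_cast hp.ne_zero)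

theorem lin_cast_le (v : Pl K) : v.valuation K ((p : K) ^ 2) ≤ 1 := by
  have h1 : algebraMap (𝓞 K) K ((p : 𝓞 K) ^ 2) = (p : K) ^ 2 := by
    rw [map_pow, map_natCast]
  rw [← h1]
  exact v.valuation_le_one _

theorem lin_loc_one (hp : p.Prime) (v : Pl K) (y : Kˣ) : LocP p v (y ^ p) := by
  refine ⟨y, ?_⟩
  rw [mul_inv_cancel, Units.val_one, sub_self, map_zero]
  exact zero_lt_iff.2 (lin_cast_ne hp v)

theorem lin_loc_mul {v : Pl K} {c c' : Kˣ} (h : LocP p v c) (h' : LocP p v c') :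
    LocP p v (c * c') := by
  obtain ⟨y, hy⟩ := h
  obtain ⟨z, hz⟩ := h'
  refine ⟨y * z, ?_⟩
  have h1 : c * c' * ((y * z) ^ p)⁻¹ = (c * (y ^ p)⁻¹) * (c' * (z ^ p)⁻¹) := by
    rw [mul_pow, mul_inv, mul_mul_mul_comm]
  rw [h1]
  set u : Kˣ := c * (y ^ p)⁻¹
  set w : Kˣ := c' * (z ^ p)⁻¹
  have hw1 : v.valuation K (w : K) = 1 := symA_one1 (lt_of_lt_of_le hz (lin_cast_le v))
  have h2 : ((u * w : Kˣ) : K) - 1 = ((u : K) - 1) * w + ((w : K) - 1) := by
    rw [Units.val_mul]
    ring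
  rw [h2]
  refine lt_of_le_of_lt (Valuation.map_add _ _ _) (max_lt ?_ hz)
  rw [map_mul, hw1, mul_one]
  exact hy

theorem lin_loc_inv {v : Pl K} {c : Kˣ} (h : LocP p v c) : LocP p v c⁻¹ := by
  obtain ⟨y, hy⟩ := h
  refine ⟨y⁻¹, ?_⟩
  have h1 : c⁻¹ * ((y⁻¹) ^ p)⁻¹ = (c * (y ^ p)⁻¹)⁻¹ := by
    rw [inv_pow, mul_inv]
  rw [h1]
  set u : Kˣ := c * (y ^ p)⁻¹
  have hu1 : v.valuation K (u : K) = 1 := symA_one1 (lt_of_lt_of_le hy (lin_cast_le v))
  have h2 : ((u⁻¹ : Kˣ) : K) - 1 = -(((u : K) - 1) * (u : K)⁻¹) := by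
    rw [Units.val_inv_eq_inv_val]
    have := u.ne_zero
    field_simp
    ring
  rw [h2, Valuation.map_neg, map_mul, map_inv₀, hu1, inv_one, mul_one]
  exact hy

/-- the subgroup of elements locally primary at `p` -/
def linP (K : Type) [Field K] [NumberField K] {p : ℕ} (hp : p.Prime) : Subgroup Kˣ where
  carrier := {c | Prim p c}
  mul_mem' := fun {a b} ha hb v hv => lin_loc_mul (ha v hv) (hb v hv)
  one_mem' := fun v _ => by
    have := lin_loc_one hp v 1
    rwa [one_pow] at this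
  inv_mem' := fun {a} ha v hv => lin_loc_inv (ha v hv)

theorem lin_mem {hp : p.Prime} {c : Kˣ} : c ∈ linP K hp ↔ Prim p c := Iff.rfl

include hp hp2 hζ

theorem prim_mul {c c' : Kˣ} (h : Prim p c) (h' : Prim p c') : Prim p (c * c') :=
  (linP K hp).mul_mem (lin_mem.2 h) (lin_mem.2 h')

theorem prim_zpow {c : Kˣ} (h : Prim p c) (n : ℤ) : Prim p (c ^ n) :=
  (linP K hp).zpow_mem (lin_mem.2 h) n

theorem prim_pow (y : Kˣ) : Prim p (y ^ p) := fun v _ => lin_loc_one hp v y

omit hp hp2 hζ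

theorem lin_infinite (S : Finset (Pl K)) : ∃ v : Pl K, v ∉ S := by
  classical
  have hN : ∀ v ∈ S, ((∏ v ∈ S, nm v : ℕ) : 𝓞 K) ∈ v.asIdeal := by
    intro v hv
    have h1 : nm v ∣ ∏ v ∈ S, nm v := Finset.dvd_prod_of_mem _ hv
    obtain ⟨m, hm⟩ := h1
    rw [hm, Nat.cast_mul]
    exact Ideal.mul_mem_right _ _ (Ideal.absNorm_mem v.asIdeal)
  have hpos : 0 < ∏ v ∈ S, nm v := Finset.prod_pos fun v _ => lt_trans zero_lt_one (one_lt_nm v)
  set N := ∏ v ∈ S, nm v with hNdef
  have hnu : ¬ IsUnit ((N + 1 : ℕ) : 𝓞 K) := by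
    intro hu
    have h1 := (NumberField.isUnit_iff_norm (K := K)).1 hu
    rw [RingOfIntegers.coe_norm] at h1
    have h2 : (((N + 1 : ℕ) : 𝓞 K) : K) = algebraMap ℚ K ((N + 1 : ℕ) : ℚ) := by
      simp
    rw [h2, Algebra.norm_algebraMap] at h1
    rw [abs_of_nonneg (by positivity)] at h1
    have h3 : ((N + 1 : ℕ) : ℚ) = 1 := by
      rwa [pow_eq_one_iff_of_nonneg (by positivity)] at h1
      exact (Module.finrank_pos (R := ℚ) (M := K)).ne'
    have h4 : N + 1 = 1 := by exact_mod_cast h3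
    omega
  obtain ⟨M, hM, hle⟩ := Ideal.exists_le_maximal (Ideal.span {((N + 1 : ℕ) : 𝓞 K)})
    (by rwa [Ne, Ideal.span_singleton_eq_top])
  have hmem : ((N + 1 : ℕ) : 𝓞 K) ∈ M := hle (Ideal.subset_span rfl)
  have hM0 : M ≠ ⊥ := by
    rintro rfl
    rw [Ideal.mem_bot] at hmem
    have : N + 1 = 0 := by exact_mod_cast hmem
    omega
  refine ⟨⟨M, hM.isPrime, hM0⟩, fun hS => ?_⟩
  have h1 := hN _ hS
  apply hM.ne_top
  rw [Ideal.eq_top_iff_one]
  have h2 : (1 : 𝓞 K) = ((N + 1 : ℕ) : 𝓞 K) - ((N : ℕ) : 𝓞 K) := by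
    push_cast
    ring
  rw [h2]
  exact Ideal.sub_mem _ hmem h1

/-- the subgroup of `p`-th powers, additively -/
def linN (K : Type) [Field K] [NumberField K] {p : ℕ} (hp : p.Prime) :
    AddSubgroup (Additive (linP K hp)) where
  carrier := {c | IsPow p ((Additive.toMul c : linP K hp) : Kˣ)}
  add_mem' := fun {a b} ha hb => by
    obtain ⟨y, hy⟩ := ha
    obtain ⟨z, hz⟩ := hb
    refine ⟨y * z, ?_⟩
    rw [mul_pow, hy, hz]
    rfl
  zero_mem' := ⟨1, one_pow p⟩
  neg_mem' := fun {a} ha => by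
    obtain ⟨y, hy⟩ := ha
    refine ⟨y⁻¹, ?_⟩
    rw [inv_pow, hy]
    rfl

/-- the elements locally primary at `p` modulo `p`-th powers -/
def linV (K : Type) [Field K] [NumberField K] {p : ℕ} (hp : p.Prime) : Type :=
  Additive (linP K hp) ⧸ linN K hp

instance linVgroup (K : Type) [Field K] [NumberField K] {p : ℕ} (hp : p.Prime) :
    AddCommGroup (linV K hp) :=
  inferInstanceAs (AddCommGroup (Additive (linP K hp) ⧸ linN K hp))

/-- the class of an element -/
def linc (hp : p.Prime) (c : Kˣ) (h : Prim p c) : linV K hp :=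
  QuotientAddGroup.mk (Additive.ofMul (⟨c, h⟩ : linP K hp))

theorem linc_mul (hp : p.Prime) {c c' : Kˣ} (h : Prim p c) (h' : Prim p c')
    (h'' : Prim p (c * c')) : linc hp (c * c') h'' = linc hp c h + linc hp c' h' := rfl

theorem linc_eq_zero (hp : p.Prime) {c : Kˣ} (h : Prim p c) : linc hp c h = 0 ↔ IsPow p c :=
  QuotientAddGroup.eq_zero_iff (N := linN K hp) (Additive.ofMul (⟨c, h⟩ : linP K hp))

theorem linc_surj (hp : p.Prime) (q : linV K hp) : ∃ (c : Kˣ) (h : Prim p c), linc hp c h = q := by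
  obtain ⟨x, rfl⟩ := QuotientAddGroup.mk_surjective q
  exact ⟨((Additive.toMul x : linP K hp) : Kˣ), (Additive.toMul x : linP K hp).2, rfl⟩

theorem linc_nsmul (hp : p.Prime) {c : Kˣ} (h : Prim p c) (n : ℕ) (h' : Prim p (c ^ n)) :
    linc hp (c ^ n) h' = n • linc hp c h := rfl

theorem linV_tors (hp : p.Prime) (q : linV K hp) : p • q = 0 := by
  obtain ⟨c, h, rfl⟩ := linc_surj hp q
  have h' : Prim p (c ^ p) := (linP K hp).pow_mem (lin_mem.2 h) p
  rw [← linc_nsmul hp h p h', linc_eq_zero]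
  exact ⟨c, rfl⟩

/-- `linV` is a vector space over `ZMod p` -/
instance linMod (hp : p.Prime) : Module (ZMod p) (linV K hp) :=
  AddCommGroup.zmodModule (linV_tors hp)

theorem linc_eq (hp : p.Prime) {c c' : Kˣ} (h : Prim p c) (h' : Prim p c')
    (he : linc hp c h = linc hp c' h') : ∃ y : Kˣ, c' = c * y ^ p := by
  have h1 : linc hp (c⁻¹ * c') ((linP K hp).mul_mem ((linP K hp).inv_mem (lin_mem.2 h)) h') = 0 := by
    rw [linc_mul hp ((linP K hp).inv_mem (lin_mem.2 h)) h', ← he]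
    exact neg_add_cancel (linc hp c h)
  rw [linc_eq_zero] at h1
  obtain ⟨y, hy⟩ := h1
  exact ⟨y, by rw [hy, mul_inv_cancel_left]⟩

section rel

/-- the family of a relation -/
def linf (p : ℕ) (ζ : K) (c : Kˣ) (k : Pl K → ZMod p) : Pl K → Kˣ → ZMod p :=
  fun v x => k v * B p ζ v c x

theorem lin_B_pow (hp : p.Prime) (hζ : IsPrimitiveRoot ζ p) {v : Pl K} (hv : ¬ Above p v)
    (c y x : Kˣ) : B p ζ v (c * y ^ p) x = B p ζ v c x := by
  have h1 := B_zpow_left hp hζ hv y x (p : ℤ)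
  rw [zpow_natCast] at h1
  rw [B_mul_left hp hζ hv, h1]
  simp

theorem lin_rel_pow (hp : p.Prime) (hζ : IsPrimitiveRoot ζ p) {c : Kˣ} (y : Kˣ)
    {k : Pl K → ZMod p} (h : IsRel p ζ c k) :
    IsRel p ζ (c * y ^ p) k ∧ linf p ζ (c * y ^ p) k = linf p ζ c k := by
  have hf : linf p ζ (c * y ^ p) k = linf p ζ c k := by
    funext v x
    unfold linf
    by_cases hv : Above p v
    · rw [h.1 v (Or.inl hv), zero_mul, zero_mul]
    · rw [lin_B_pow hp hζ hv]
  refine ⟨⟨fun v hv => ?_, fun x => ?_⟩, hf⟩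
  · by_cases hv' : Above p v
    · exact h.1 v (Or.inl hv')
    · refine h.1 v (Or.inr fun x => ?_)
      have := hv.resolve_left hv' x
      rwa [lin_B_pow hp hζ hv'] at this
  · have h2 : ∀ v, k v * B p ζ v (c * y ^ p) x = k v * B p ζ v c x := fun v =>
      congrFun (congrFun hf v) x
    simp_rw [h2]
    exact h.2 x

theorem lin_rel_npow (hp : p.Prime) (hζ : IsPrimitiveRoot ζ p) {c : Kˣ} (n : ℕ)
    (hn : (n : ZMod p) ≠ 0) {k : Pl K → ZMod p} (h : IsRel p ζ c k) :
    IsRel p ζ (c ^ n) k ∧ linf p ζ (c ^ n) k = (n : ZMod p) • linf p ζ c k := by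
  have : Fact p.Prime := ⟨hp⟩
  have hB : ∀ v, ¬ Above p v → ∀ x, B p ζ v (c ^ n) x = n * B p ζ v c x := by
    intro v hv x
    have h1 := B_zpow_left hp hζ hv c x (n : ℤ)
    rwa [zpow_natCast, Int.cast_natCast] at h1
  have hf : linf p ζ (c ^ n) k = (n : ZMod p) • linf p ζ c k := by
    funext v x
    simp only [Pi.smul_apply, smul_eq_mul]
    unfold linf
    by_cases hv : Above p v
    · rw [h.1 v (Or.inl hv)]
      ring
    · rw [hB v hv]
      ring
  refine ⟨⟨fun v hv => ?_, fun x => ?_⟩, hf⟩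
  · by_cases hv' : Above p v
    · exact h.1 v (Or.inl hv')
    · refine h.1 v (Or.inr fun x => ?_)
      have := hv.resolve_left hv' x
      rw [hB v hv'] at this
      exact (mul_eq_zero.1 this).resolve_left hn
  · have h2 : ∀ v, k v * B p ζ v (c ^ n) x = (n : ZMod p) * (k v * B p ζ v c x) := fun v =>
      congrFun (congrFun hf v) x
    simp_rw [h2]
    have h3 := smul_finsum (n : ZMod p) fun v => k v * B p ζ v c x
    simp only [smul_eq_mul] at h3
    rw [← h3, h.2 x, mul_zero]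

theorem lin_rel_smul (hp : p.Prime) {c : Kˣ} (a : ZMod p) {k : Pl K → ZMod p}
    (h : IsRel p ζ c k) :
    IsRel p ζ c (fun v => a * k v) ∧ linf p ζ c (fun v => a * k v) = a • linf p ζ c k := by
  have hf : linf p ζ c (fun v => a * k v) = a • linf p ζ c k := by
    funext v x
    simp only [Pi.smul_apply, smul_eq_mul]
    unfold linf
    ring
  have : Fact p.Prime := ⟨hp⟩
  refine ⟨⟨fun v hv => ?_, fun x => ?_⟩, hf⟩
  · change a * k v = 0
    rw [h.1 v hv, mul_zero]
  have h2 : ∀ v, a * k v * B p ζ v c x = a * (k v * B p ζ v c x) := fun v => mul_assoc _ _ _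
  simp_rw [h2]
  have h3 := smul_finsum a fun v => k v * B p ζ v c x
  simp only [smul_eq_mul] at h3
  rw [← h3, h.2 x, mul_zero]

end rel

theorem lin_nsmul_cast (hp : p.Prime) (a : ZMod p) (q : linV K hp) :
    a • q = a.val • q := by
  have : Fact p.Prime := ⟨hp⟩
  have h1 : ((a.val : ℕ) : ZMod p) • q = a.val • q := Nat.cast_smul_eq_nsmul (ZMod p) a.val q
  rwa [ZMod.natCast_zmod_val] at h1

theorem lin_comb (hp : p.Prime) {c c' : Kˣ} (h : Prim p c) (h' : Prim p c') (a b : ZMod p) :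
    a • linc hp c h + b • linc hp c' h' = linc hp (c ^ a.val * c' ^ b.val)
      ((linP K hp).mul_mem ((linP K hp).pow_mem (lin_mem.2 h) _)
        ((linP K hp).pow_mem (lin_mem.2 h') _)) := by
  rw [lin_nsmul_cast hp a, lin_nsmul_cast hp b]
  rfl

theorem lin_h3 (hp : p.Prime) (u v : linV K hp) :
    ∃ w : linV K hp, w ∉ Submodule.span (ZMod p) {u, v} := by
  classical
  have hfact : Fact p.Prime := ⟨hp⟩
  obtain ⟨c, h, rfl⟩ := linc_surj hp u
  obtain ⟨c', h', rfl⟩ := linc_surj hp v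
  obtain ⟨v0, hv0⟩ := lin_infinite ((finite_above (K := K) hp.ne_zero).toFinset ∪
    (finite_ord c).toFinset ∪ (finite_ord c').toFinset)
  simp only [Finset.mem_union, Set.Finite.mem_toFinset, Set.mem_ofPred_eq, not_or, not_not] at hv0
  obtain ⟨⟨hab, ho⟩, ho'⟩ := hv0
  obtain ⟨π, hπ⟩ := exists_unif v0
  obtain ⟨x, hx, hx1⟩ := weak_approx_prim hp.ne_zero {v0}
    (fun w hw => by rwa [Finset.mem_singleton.1 hw]) (fun _ => π)
  have hx2 : ord v0 x = 1 := by
    have h1 := ord_of_one1 (hx1 v0 (Finset.mem_singleton_self v0))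
    rw [ord_mul, ord_inv, hπ] at h1
    omega
  refine ⟨linc hp x hx, fun hmem => ?_⟩
  obtain ⟨a, b, hab'⟩ := Submodule.mem_span_pair.1 hmem
  rw [lin_comb hp h h' a b] at hab'
  obtain ⟨y, hy⟩ := linc_eq hp _ _ hab'
  rw [hy, ord_mul, ord_mul, ord_pow, ord_pow, ord_pow, ho, ho', mul_zero, mul_zero, add_zero,
    zero_add] at hx2
  have h1 : (p : ℤ) ∣ 1 := ⟨_, hx2.symm⟩
  have h2 : p ∣ 1 := by exact_mod_cast h1
  exact hp.one_lt.ne' (Nat.dvd_one.1 h2)

theorem lin_ind2 (hp : p.Prime) {c c' : Kˣ} (h : Prim p c) (h' : Prim p c')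
    (hi :
      ∀ s t : ZMod p, s • linc hp c h + t • linc hp c' h' = 0 → s = 0 ∧ t = 0) : Ind2 p c c' := by
  have hfact : Fact p.Prime := ⟨hp⟩
  intro i j hij
  have h1 : ((i : ZMod p)) • linc hp c h + ((j : ZMod p)) • linc hp c' h' = 0 := by
    rw [lin_comb hp h h', linc_eq_zero]
    obtain ⟨y, hy⟩ := hij
    have e : ∀ n : ℤ, ∃ m : ℤ, (((n : ZMod p)).val : ℤ) = n + m * p := by
      intro n
      have h2 : (((((n : ZMod p)).val : ℕ) : ℤ) : ZMod p) = ((n : ℤ) : ZMod p) := by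
        rw [Int.cast_natCast, ZMod.natCast_zmod_val]
      rw [← sub_eq_zero, ← Int.cast_sub, ZMod.intCast_zmod_eq_zero_iff_dvd] at h2
      obtain ⟨m, hm⟩ := h2
      exact ⟨m, by linarith⟩
    obtain ⟨m, hm⟩ := e i
    obtain ⟨m', hm'⟩ := e j
    refine ⟨y * (c ^ m * c' ^ m'), ?_⟩
    rw [← zpow_natCast c, ← zpow_natCast c', hm, hm', zpow_add, zpow_add, mul_pow, hy, mul_pow,
      zpow_mul, zpow_mul, zpow_natCast, zpow_natCast]
    rw [mul_mul_mul_comm]
  obtain ⟨h2, h3⟩ := hi _ _ h1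
  exact ⟨(ZMod.intCast_zmod_eq_zero_iff_dvd _ _).1 h2, (ZMod.intCast_zmod_eq_zero_iff_dvd _ _).1 h3⟩

include hp hp2 hζ

theorem exists_lin : ∃ k : Kˣ → Pl K → ZMod p,
    (∀ c, Prim p c → IsRel p ζ c (k c)) ∧ (∀ c, Prim p c → ¬ IsPow p c → ∃ v, k c v ≠ 0) ∧
    ∀ c c', Prim p c → Prim p c' → ∀ v x, k (c * c') v * B p ζ v (c * c') x =
      k c v * B p ζ v c x + k c' v * B p ζ v c' x := by
  classical
  have hfact : Fact p.Prime := ⟨hp⟩
  have hk : ∀ c : Kˣ, ∃ k : Pl K → ZMod p, Prim p c → ¬ IsPow p c →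
      IsRel p ζ c k ∧ ∃ v, k v ≠ 0 := by
    intro c
    by_cases h : Prim p c ∧ ¬ IsPow p c
    · obtain ⟨k, hk⟩ := rel_exists hp hp2 hζ h.1 h.2
      exact ⟨k, fun _ _ => hk⟩
    · exact ⟨0, fun h1 h2 => absurd ⟨h1, h2⟩ h⟩
  choose k0 hk0 using hk
  choose rep hrep hrepq using linc_surj (K := K) hp
  let f : linV K hp → (Pl K → Kˣ → ZMod p) := fun q =>
    if q = 0 then 0 else linf p ζ (rep q) (k0 (rep q))
  have hf0 : f 0 = 0 := if_pos rfl
  have hfq : ∀ q : linV K hp, q ≠ 0 → f q = linf p ζ (rep q) (k0 (rep q)) := fun q hq => if_neg hq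
  have hnp : ∀ q : linV K hp, q ≠ 0 → ¬ IsPow p (rep q) := by
    intro q hq h
    rw [← linc_eq_zero hp (hrep q), hrepq] at h
    exact hq h
  have hR : ∀ q : linV K hp, q ≠ 0 → IsRel p ζ (rep q) (k0 (rep q)) ∧ ∃ v, k0 (rep q) v ≠ 0 :=
    fun q hq => hk0 (rep q) (hrep q) (hnp q hq)
  -- a relation for the representative is one for every element of the class
  have hT : ∀ (c : Kˣ) (h : Prim p c), ¬ IsPow p c →
      IsRel p ζ c (k0 (rep (linc hp c h))) ∧
      linf p ζ c (k0 (rep (linc hp c h))) = f (linc hp c h) := by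
    intro c h hc
    have hq : linc hp c h ≠ 0 := fun h0 => hc ((linc_eq_zero hp h).1 h0)
    obtain ⟨y, hy⟩ := linc_eq hp (hrep (linc hp c h)) h (hrepq _)
    have h1 := lin_rel_pow hp hζ y (hR _ hq).1
    rw [← hy] at h1
    rw [hfq _ hq]
    exact h1
  have hD : ∀ (c : Kˣ) (h : Prim p c), ¬ IsPow p c → ∀ k : Pl K → ZMod p, IsRel p ζ c k →
      (∃ v, k v ≠ 0) → ∃ b : ZMod p, b ≠ 0 ∧ linf p ζ c k = b • f (linc hp c h) := by
    intro c h hc k hk hkne
    have hq : linc hp c h ≠ 0 := fun h0 => hc ((linc_eq_zero hp h).1 h0)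
    obtain ⟨h1, h2⟩ := hT c h hc
    obtain ⟨a, a', haa, ha⟩ := rel_unique hp hζ hc hk h1
    obtain ⟨v1, hv1⟩ := hkne
    obtain ⟨v2, hv2⟩ := (hR _ hq).2
    have ha0 : a ≠ 0 := by
      rintro rfl
      have h3 := ha v2
      rw [zero_mul, zero_add, mul_eq_zero] at h3
      rcases haa with h4 | h4
      · exact h4 rfl
      · exact h3.elim h4 hv2
    have ha0' : a' ≠ 0 := by
      rintro rfl
      have h3 := ha v1
      rw [zero_mul, add_zero, mul_eq_zero] at h3
      exact h3.elim ha0 hv1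
    refine ⟨-(a⁻¹ * a'), neg_ne_zero.2 (mul_ne_zero (inv_ne_zero ha0) ha0'), ?_⟩
    rw [← h2]
    funext v x
    simp only [Pi.smul_apply, smul_eq_mul]
    unfold linf
    have h3 : k v = -(a⁻¹ * a') * k0 (rep (linc hp c h)) v := by
      have h4 := ha v
      field_simp
      linear_combination h4
    rw [h3, mul_assoc]
  obtain ⟨g, hg⟩ := ftpg (p := p) f (lin_h3 hp) hf0 (by
    intro a q
    rw [Submodule.mem_span_singleton]
    by_cases ha : a = 0
    · exact ⟨0, by rw [ha, zero_smul, zero_smul, hf0]⟩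
    by_cases hq : q = 0
    · exact ⟨0, by rw [hq, smul_zero, zero_smul, hf0]⟩
    have haq : a • q ≠ 0 := by
      intro h0
      have h1 : a⁻¹ • (a • q) = 0 := by rw [h0, smul_zero]
      rw [smul_smul, inv_mul_cancel₀ ha, one_smul] at h1
      exact hq h1
    have hac : ((a.val : ℕ) : ZMod p) = a := ZMod.natCast_zmod_val a
    obtain ⟨h1, h2⟩ := lin_rel_npow hp hζ a.val (by rwa [hac]) (hR q hq).1
    have hpr : Prim p (rep q ^ a.val) := (linP K hp).pow_mem (lin_mem.2 (hrep q)) _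
    have hcl : linc hp (rep q ^ a.val) hpr = a • q := by
      rw [linc_nsmul hp (hrep q) _ hpr, hrepq, lin_nsmul_cast hp a q]
    obtain ⟨b, hb, hb1⟩ := hD (rep q ^ a.val) hpr (fun h0 => by
      rw [← linc_eq_zero hp hpr, hcl] at h0
      exact haq h0) _ h1 (hR q hq).2
    rw [hcl, h2, hac, ← hfq q hq] at hb1
    refine ⟨b⁻¹ * a, ?_⟩
    rw [mul_smul, hb1, smul_smul, inv_mul_cancel₀ hb, one_smul]) (by
    intro u v huv
    rw [LinearIndependent.pair_iff] at huv ⊢
    have hu : u ≠ 0 := by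
      rintro rfl
      have := (huv 1 0 (by rw [smul_zero, zero_smul, add_zero])).1
      exact one_ne_zero this
    have hv : v ≠ 0 := by
      rintro rfl
      have := (huv 0 1 (by rw [smul_zero, zero_smul, add_zero])).2
      exact one_ne_zero this
    intro s t hst
    have hI : Ind2 p (rep u) (rep v) := by
      refine lin_ind2 hp (hrep u) (hrep v) ?_
      intro s t h
      rw [hrepq, hrepq] at h
      exact huv s t h
    refine rel_indep hp hζ hI (hR u hu).1 (hR v hv).1 (hR u hu).2 (hR v hv).2 s t ?_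
    intro w x
    rw [hfq u hu, hfq v hv] at hst
    exact congrFun (congrFun hst w) x) (by
    intro u v huv
    rw [LinearIndependent.pair_iff] at huv
    have hu : u ≠ 0 := by
      rintro rfl
      have := (huv 1 0 (by rw [smul_zero, zero_smul, add_zero])).1
      exact one_ne_zero this
    have hv : v ≠ 0 := by
      rintro rfl
      have := (huv 0 1 (by rw [smul_zero, zero_smul, add_zero])).2
      exact one_ne_zero this
    have huv0 : u + v ≠ 0 := by
      intro h0
      have := (huv 1 1 (by rw [one_smul, one_smul, h0])).1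
      exact one_ne_zero this
    have hI : Ind2 p (rep u) (rep v) := by
      refine lin_ind2 hp (hrep u) (hrep v) ?_
      intro s t h
      rw [hrepq, hrepq] at h
      exact huv s t h
    have hpr : Prim p (rep u * rep v) := (linP K hp).mul_mem (hrep u) (hrep v)
    have hcl : linc hp (rep u * rep v) hpr = u + v := by
      rw [linc_mul hp (hrep u) (hrep v) hpr, hrepq, hrepq]
    obtain ⟨h1, h2⟩ := hT (rep u * rep v) hpr (fun h0 => by
      rw [← linc_eq_zero hp hpr, hcl] at h0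
      exact huv0 h0)
    rw [hcl] at h1 h2
    obtain ⟨a, a', haa⟩ := rel_col hp hζ hI (hR u hu).1 (hR v hv).1 h1 (hR u hu).2 (hR v hv).2
      (hR _ huv0).2
    rw [Submodule.mem_span_pair]
    refine ⟨a, a', ?_⟩
    rw [← h2, hfq u hu, hfq v hv]
    funext w x
    exact (haa w x).symm)
  choose a ha0 ha using hg
  have hmain : ∀ c : Kˣ, ∃ k : Pl K → ZMod p, (∀ h : Prim p c, IsRel p ζ c k ∧
      linf p ζ c k = g (linc hp c h)) ∧ (Prim p c → ¬ IsPow p c → ∃ v, k v ≠ 0) := by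
    intro c
    by_cases h : Prim p c
    swap
    · exact ⟨0, fun h' => absurd h' h, fun h' => absurd h' h⟩
    by_cases hc : IsPow p c
    · refine ⟨0, fun h' => ⟨⟨fun v _ => rfl, fun x => ?_⟩, ?_⟩, fun _ h' => absurd hc h'⟩
      · simp
      · rw [(linc_eq_zero hp h').2 hc, map_zero]
        funext v x
        unfold linf
        simp
    · have hq : linc hp c h ≠ 0 := fun h0 => hc ((linc_eq_zero hp h).1 h0)
      obtain ⟨h1, h2⟩ := hT c h hc
      obtain ⟨h3, h4⟩ := lin_rel_smul hp (a (linc hp c h)) h1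
      refine ⟨_, fun h' => ⟨h3, ?_⟩, fun _ _ => ?_⟩
      · rw [h4, h2, ha]
      · obtain ⟨v, hv⟩ := (hR _ hq).2
        exact ⟨v, mul_ne_zero (ha0 _) hv⟩
  choose k hk1 hk2 using hmain
  refine ⟨k, fun c hc => (hk1 c hc).1, hk2, fun c c' hc hc' v x => ?_⟩
  have hcc : Prim p (c * c') := (linP K hp).mul_mem hc hc'
  have h1 := (hk1 (c * c') hcc).2
  rw [linc_mul hp hc hc' hcc, map_add, ← (hk1 c hc).2, ← (hk1 c' hc').2] at h1
  exact congrFun (congrFun h1 v) x

end H63.MA
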