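import Pool.Agent.H63.MA.SymA

/-!
# MA-CLFIN: finite sets of primes generating the class group

* `exists_clone`: there is a finite set `T` with `ClOne T`; `clone_mono`: supersets also have the property.
  Proof: the class group is finite. For every class choose an integral ideal in it, `T` = the primes dividing one of the chosen
  ideals. For a prime `v` choose the chosen ideal `J` in the inverse class: `v * J = (x)`, `x ≠ 0`, and `ord v x = 1`,
  `ord w x = 0` for `w ∉ T`, `w ≠ v` (if `v ∉ T`).
* `tgen`: with `ClOne T`, every `x ∈ K^*` has the same exponents outside `T` as the product of `g v ^ ord v x`, where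
  `g v` is the element given by `ClOne` for `v`. Formulated as follows: for every function `m : Pl K → ℤ` with finite support
  there is `x : Kˣ` with `ord v x = m v` for all `v ∉ T`.
-/

set_option autoImplicit false

open scoped NumberField
open IsDedekindDomain

noncomputable section

namespace H63.MA

variable {K : Type} [Field K] [NumberField K]

theorem exists_clone (K : Type) [Field K] [NumberField K] : ∃ T : Finset (Pl K), ClOne T := by
  classical
  have hsurj := ClassGroup.mk0_surjective (R := 𝓞 K)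
  choose J hJ using hsurj
  have hfin : ∀ c : ClassGroup (𝓞 K), {v : Pl K | v.asIdeal ∣ (J c : Ideal (𝓞 K))}.Finite := by
    intro c
    exact Ideal.finite_factors (nonZeroDivisors.ne_zero (J c).2)
  refine ⟨(Finset.univ : Finset (ClassGroup (𝓞 K))).biUnion (fun c => (hfin c).toFinset), ?_⟩
  intro v hv
  have hvT : ∀ c, ¬ v.asIdeal ∣ (J c : Ideal (𝓞 K)) := by
    intro c hd
    apply hv
    rw [Finset.mem_biUnion]
    exact ⟨c, Finset.mem_univ c, (Set.Finite.mem_toFinset _).2 hd⟩
  have hv0 : v.asIdeal ∈ nonZeroDivisors (Ideal (𝓞 K)) := mem_nonZeroDivisors_of_ne_zero v.ne_bot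
  set c : ClassGroup (𝓞 K) := (ClassGroup.mk0 ⟨v.asIdeal, hv0⟩)⁻¹ with hc
  have hJ0 := (J c).2
  have hprod : ClassGroup.mk0 (⟨v.asIdeal * (J c : Ideal (𝓞 K)), mul_mem hv0 hJ0⟩ :
      nonZeroDivisors (Ideal (𝓞 K))) = 1 := by
    have e : (⟨v.asIdeal * (J c : Ideal (𝓞 K)), mul_mem hv0 hJ0⟩ :
      nonZeroDivisors (Ideal (𝓞 K))) = ⟨v.asIdeal, hv0⟩ * J c := rfl
    rw [e, map_mul, hJ c, hc, mul_inv_cancel]
  rw [ClassGroup.mk0_eq_one_iff] at hprod
  obtain ⟨x, hx⟩ := hprod.principal
  rw [Ideal.submodule_span_eq] at hx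
  have hx0 : x ≠ 0 := by
    intro h
    rw [h, Ideal.span_singleton_eq_bot.2 rfl] at hx
    exact (nonZeroDivisors.ne_zero (mul_mem hv0 hJ0)) hx
  have hxK : algebraMap (𝓞 K) K x ≠ 0 := by
    rw [Ne, FaithfulSMul.algebraMap_eq_zero_iff]
    exact hx0
  refine ⟨Units.mk0 _ hxK, ?_, ?_⟩
  · have h1 : v.asIdeal ∣ Ideal.span {x} := by
      rw [← hx]; exact Dvd.intro _ rfl
    have h2 : ¬ v.asIdeal ^ 2 ∣ Ideal.span {x} := by
      intro h
      rw [← hx, pow_two] at h
      exact hvT c ((mul_dvd_mul_iff_left v.ne_bot).1 h)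
    have h3 : 0 < ord v (Units.mk0 _ hxK) := by
      rw [ord_pos_iff, Units.val_mk0, HeightOneSpectrum.valuation_of_algebraMap,
        HeightOneSpectrum.intValuation_lt_one_iff_dvd]
      exact h1
    have h4 : ¬ 2 ≤ ord v (Units.mk0 _ hxK) := by
      intro h
      apply h2
      rw [← HeightOneSpectrum.intValuation_le_pow_iff_dvd,
        ← HeightOneSpectrum.valuation_of_algebraMap (K := K)]
      have h5 := val_eq v (Units.mk0 _ hxK)
      rw [Units.val_mk0] at h5
      rw [h5, WithZero.exp_le_exp]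
      push_cast
      omega
    omega
  · intro w hw hwv
    rw [ord_eq_zero_iff, Units.val_mk0, HeightOneSpectrum.valuation_of_algebraMap]
    refine le_antisymm (HeightOneSpectrum.intValuation_le_one w x) (not_lt.1 ?_)
    rw [HeightOneSpectrum.intValuation_lt_one_iff_dvd, ← hx]
    intro h
    rcases (HeightOneSpectrum.prime w).dvd_or_dvd h with h1 | h1
    · apply hwv
      apply HeightOneSpectrum.ext
      have hvm : v.asIdeal.IsMaximal := v.isMaximal
      have hle : v.asIdeal ≤ w.asIdeal := Ideal.le_of_dvd h1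
      exact (hvm.eq_of_le w.isPrime.ne_top hle).symm
    · apply hw
      rw [Finset.mem_biUnion]
      exact ⟨c, Finset.mem_univ c, (Set.Finite.mem_toFinset _).2 h1⟩

theorem clone_mono {T T' : Finset (Pl K)} (h : ClOne T) (hT : T ⊆ T') : ClOne T' := by
  intro v hv
  obtain ⟨x, hx1, hx2⟩ := h v (fun h' => hv (hT h'))
  exact ⟨x, hx1, fun w hw hwv => hx2 w (fun h' => hw (hT h')) hwv⟩

theorem clone_ord {T : Finset (Pl K)} (h : ClOne T) (m : Pl K → ℤ)
    (hm : {v : Pl K | m v ≠ 0}.Finite) : ∃ x : Kˣ, ∀ v, v ∉ T → ord v x = m v := by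
  classical
  choose! g hg1 hg2 using h
  refine ⟨∏ v ∈ hm.toFinset.filter (fun v => v ∉ T), g v ^ m v, fun w hw => ?_⟩
  rw [ord_prod]
  by_cases hwm : m w = 0
  · rw [hwm]
    refine Finset.sum_eq_zero (fun v hv => ?_)
    rw [Finset.mem_filter, Set.Finite.mem_toFinset] at hv
    have hne : w ≠ v := by
      intro h
      exact hv.1 (h ▸ hwm)
    rw [ord_zpow, hg2 v hv.2 w hw hne, mul_zero]
  · rw [Finset.sum_eq_single w]
    · rw [ord_zpow, hg1 w hw, mul_one]
    · intro v hv hvw
      rw [Finset.mem_filter] at hv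
      rw [ord_zpow, hg2 v hv.2 w hw (Ne.symm hvw), mul_zero]
    · intro h
      exfalso
      apply h
      rw [Finset.mem_filter, Set.Finite.mem_toFinset]
      exact ⟨hwm, hw⟩

end H63.MA
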