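import Pool.Agent.H63.MA.KumF
import Pool.Agent.H63.MA.ClFin

/-!
# MA-RELA: the relation between the tame symbols of `c` (existence)

`IsRel c k`: `k v = 0` for `v ∣ p` and for the `v` where `c` is locally a `p`-th power, and `∑_v k v * B v c x = 0` for all
`x ∈ K^*`. Theorem: if `c` is locally primary at `p` and not a `p`-th power in `K`, there is a nonzero `k` with `IsRel c k`.

Proof. Let `T₀` be finite with `ClOne T₀` (`exists_clone`, `clone_mono`), containing the primes above `p` and those with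
`p ∤ ord v c` (`finite_above`, `finite_ord`). For a finite set `F` of primes with `Spl v c`, `v ∤ p`, put `T = T₀ ∪ F`; then
`nsp T = nsp T₀`, and `rel_tunit` (with the `L` of `kum_exists`) gives a nonzero `k_F`, supported in `nsp T₀`, which kills the
symbols of all `x ∈ U_T`. There are finitely many functions supported on `nsp T₀`, the sets `X_F` of nonzero good functions
decrease with `F` and are nonempty, so some `k` lies in all `X_F` (otherwise choose for every `k` an `F_k` with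
`k ∉ X_{F_k}` and take the union). So `S x := ∑_{v ∈ nsp T₀} k v * B v c x = 0` for all `x` with `ord v x = 0` unless `v ∈ T₀` or
`Spl v c`.
For `v ∉ T₀` which is not `Spl` (so `p ∣ ord v c`) let `g v` be the element of `ClOne T₀` for `v`, and `B v c (g v) ≠ 0` by
`B_unram` (otherwise `B v c · = 0`). Extend `k` by `k v := - S (g v) / B v c (g v)`. For `x ∈ K^*`: the element
`x' = x / ∏_{v ∉ T₀, not Spl} g v ^ ord v x` has `ord v x' = 0` for all `v ∉ T₀` which are not `Spl`, so `S x' = 0`, hence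
`S x = ∑_v ord v x * S (g v) = - ∑_v ord v x * k v * B v c (g v) = - ∑_{v ∉ T₀} k v * B v c x` (`B_unram`).
So `∑_v k v * B v c x = 0`. The sum is a `finsum` with finite support by `finite_B`.
-/

set_option autoImplicit false

open scoped NumberField
open IsDedekindDomain

noncomputable section

namespace H63.MA

variable {K : Type} [Field K] [NumberField K]

/-- a linear relation between the tame symbols of `c` -/
def IsRel (p : ℕ) (ζ : K) (c : Kˣ) (k : Pl K → ZMod p) : Prop :=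
  (∀ v, Above p v ∨ Spl p ζ v c → k v = 0) ∧ ∀ x : Kˣ, ∑ᶠ v, k v * B p ζ v c x = 0

/-- extension of a relation on the units outside split primes to a global relation (second half of the proof) -/
theorem rel_extend {p : ℕ} (hp : p.Prime) {ζ : K} (hζ : IsPrimitiveRoot ζ p) {c : Kˣ}
    (T : Finset (Pl K)) (hcl : ClOne T) (hT : ∀ v, Above p v → v ∈ T)
    (hr : ∀ v : Pl K, ¬ (p : ℤ) ∣ ord v c → v ∈ T) (k : Pl K → ZMod p)
    (hk0 : ∀ v, v ∉ nsp p ζ c T → k v = 0)
    (hk : ∀ x : Kˣ, (∀ v, v ∉ T → ¬ Spl p ζ v c → ord v x = 0) →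
      ∑ v ∈ nsp p ζ c T, k v * B p ζ v c x = 0) :
    ∃ k' : Pl K → ZMod p, IsRel p ζ c k' ∧ ∀ v ∈ nsp p ζ c T, k' v = k v := by
  classical
  haveI : Fact p.Prime := ⟨hp⟩
  have hnsp : ∀ v, v ∈ nsp p ζ c T ↔ v ∈ T ∧ ¬ Above p v ∧ ¬ Spl p ζ v c := by
    intro v
    simp [nsp]
  let S : Kˣ → ZMod p := fun x => ∑ v ∈ nsp p ζ c T, k v * B p ζ v c x
  have hSmul : ∀ x y, S (x * y) = S x + S y := by
    intro x y
    simp only [S]
    rw [← Finset.sum_add_distrib]
    refine Finset.sum_congr rfl fun v hv => ?_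
    rw [B_mul_right hp hζ ((hnsp v).1 hv).2.1]
    ring
  have hSzpow : ∀ x (n : ℤ), S (x ^ n) = n * S x := by
    intro x n
    simp only [S]
    rw [Finset.mul_sum]
    refine Finset.sum_congr rfl fun v hv => ?_
    rw [B_zpow_right hp hζ ((hnsp v).1 hv).2.1]
    ring
  have hSone : S 1 = 0 := by
    have := hSzpow 1 0
    rw [zpow_zero, Int.cast_zero, zero_mul] at this
    exact this
  have hSprod : ∀ (A : Finset (Pl K)) (f : Pl K → Kˣ), S (∏ v ∈ A, f v) = ∑ v ∈ A, S (f v) := by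
    intro A f
    induction A using Finset.induction_on with
    | empty => rw [Finset.prod_empty, Finset.sum_empty, hSone]
    | insert a s ha ih => rw [Finset.prod_insert ha, Finset.sum_insert ha, hSmul, ih]
  have hgex : ∀ v : Pl K, ∃ x : Kˣ, v ∉ T → ord v x = 1 ∧ ∀ w, w ∉ T → w ≠ v → ord w x = 0 := by
    intro v
    by_cases hv : v ∈ T
    · exact ⟨1, fun h => absurd hv h⟩
    · obtain ⟨x, hx⟩ := hcl v hv
      exact ⟨x, fun _ => hx⟩
  choose g hg using hgex
  have hab : ∀ v, v ∉ T → ¬ Above p v := fun v hv h => hv (hT v h)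
  have hdvd : ∀ v, v ∉ T → (p : ℤ) ∣ ord v c := by
    intro v hv
    by_contra h
    exact hv (hr v h)
  have hBg : ∀ v, v ∉ T → ∀ x, B p ζ v c x = ord v x * B p ζ v c (g v) := fun v hv x =>
    B_unram hp hζ (hab v hv) (hdvd v hv) (hg v hv).1 x
  have hBne : ∀ v, v ∉ T → ¬ Spl p ζ v c → B p ζ v c (g v) ≠ 0 := by
    intro v hv hs h0
    apply hs
    intro x
    rw [hBg v hv x, h0, mul_zero]
  let k' : Pl K → ZMod p := fun v =>
    if v ∈ nsp p ζ c T then k v else if v ∈ T ∨ Spl p ζ v c then 0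
      else -(S (g v) / B p ζ v c (g v))
  have hk'1 : ∀ v ∈ nsp p ζ c T, k' v = k v := fun v hv => if_pos hv
  have hk'2 : ∀ v, v ∉ T → ¬ Spl p ζ v c → k' v = -(S (g v) / B p ζ v c (g v)) := by
    intro v hv hs
    have h1 : v ∉ nsp p ζ c T := fun h => hv ((hnsp v).1 h).1
    simp only [k']
    rw [if_neg h1, if_neg (not_or.2 ⟨hv, hs⟩)]
  have hk'3 : ∀ v, v ∉ nsp p ζ c T → (v ∈ T ∨ Spl p ζ v c) → k' v = 0 := by
    intro v h1 h2
    simp only [k']
    rw [if_neg h1, if_pos h2]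
  refine ⟨k', ⟨?_, ?_⟩, hk'1⟩
  · intro v hv
    have h1 : v ∉ nsp p ζ c T := by
      intro h
      rcases hv with h2 | h2
      · exact ((hnsp v).1 h).2.1 h2
      · exact ((hnsp v).1 h).2.2 h2
    exact hk'3 v h1 (hv.imp (hT v) id)
  · intro x
    let A : Finset (Pl K) := (finite_ord x).toFinset.filter fun v => v ∉ T ∧ ¬ Spl p ζ v c
    have hA : ∀ v, v ∈ A ↔ ord v x ≠ 0 ∧ v ∉ T ∧ ¬ Spl p ζ v c := by
      intro v
      simp [A]
    have hdis : Disjoint (nsp p ζ c T) A := by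
      rw [Finset.disjoint_left]
      intro v h1 h2
      exact ((hA v).1 h2).2.1 ((hnsp v).1 h1).1
    have hsupp : (Function.support fun v => k' v * B p ζ v c x) ⊆
        ((nsp p ζ c T ∪ A : Finset (Pl K)) : Set (Pl K)) := by
      intro v hv
      rw [Function.mem_support] at hv
      have h1 := left_ne_zero_of_mul hv
      have h2 := right_ne_zero_of_mul hv
      rw [Finset.mem_coe, Finset.mem_union]
      by_cases h3 : v ∈ nsp p ζ c T
      · exact Or.inl h3
      · right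
        have h4 : ¬ (v ∈ T ∨ Spl p ζ v c) := fun h => h1 (hk'3 v h3 h)
        rw [not_or] at h4
        rw [hA]
        refine ⟨fun h5 => h2 ?_, h4⟩
        rw [hBg v h4.1, h5]
        simp
    rw [finsum_eq_sum_of_support_subset _ hsupp, Finset.sum_union hdis]
    have h1 : ∑ v ∈ nsp p ζ c T, k' v * B p ζ v c x = S x :=
      Finset.sum_congr rfl fun v hv => by rw [hk'1 v hv]
    have h2 : ∑ v ∈ A, k' v * B p ζ v c x = -∑ v ∈ A, (ord v x : ZMod p) * S (g v) := by
      rw [← Finset.sum_neg_distrib]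
      refine Finset.sum_congr rfl fun v hv => ?_
      obtain ⟨-, hvT, hvs⟩ := (hA v).1 hv
      rw [hk'2 v hvT hvs, hBg v hvT x]
      have h3 := hBne v hvT hvs
      field_simp
    have h3 : S (x * ∏ v ∈ A, g v ^ (-ord v x)) = 0 := by
      apply hk
      intro w hwT hws
      rw [ord_mul, ord_prod]
      have h4 : ∀ v ∈ A, v ≠ w → ord w (g v ^ (-ord v x)) = 0 := by
        intro v hv hvw
        obtain ⟨-, hvT, -⟩ := (hA v).1 hv
        rw [ord_zpow, (hg v hvT).2 w hwT (Ne.symm hvw), mul_zero]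
      by_cases hwA : w ∈ A
      · rw [Finset.sum_eq_single w h4 (fun h => absurd hwA h), ord_zpow, (hg w hwT).1]
        ring
      · rw [Finset.sum_eq_zero (fun v hv => h4 v hv (fun h => hwA (h ▸ hv))), add_zero]
        by_contra h5
        exact hwA ((hA w).2 ⟨h5, hwT, hws⟩)
    rw [hSmul, hSprod] at h3
    have h4 : ∑ v ∈ A, S (g v ^ (-ord v x)) = -∑ v ∈ A, (ord v x : ZMod p) * S (g v) := by
      rw [← Finset.sum_neg_distrib]
      refine Finset.sum_congr rfl fun v _ => ?_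
      rw [hSzpow]
      push_cast
      ring
    rw [h4] at h3
    rw [h1, h2]
    exact h3

theorem rel_exists {p : ℕ} (hp : p.Prime) (hp2 : MOne p K) {ζ : K} (hζ : IsPrimitiveRoot ζ p) {c : Kˣ}
    (hc : Prim p c) (hc0 : ¬ IsPow p c) : ∃ k : Pl K → ZMod p, IsRel p ζ c k ∧ ∃ v, k v ≠ 0 := by
  classical
  haveI : Fact p.Prime := ⟨hp⟩
  obtain ⟨T1, hT1⟩ := exists_clone K
  obtain ⟨L, _, _, _, ⟨H⟩⟩ := kum_exists hp hζ hc0
  let T : Finset (Pl K) := T1 ∪ (finite_above (K := K) hp.ne_zero).toFinset ∪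
    (finite_ord c).toFinset
  have hcl : ClOne T := clone_mono hT1 (by
    intro v hv
    simp [T, hv])
  have hT : ∀ v, Above p v → v ∈ T := by
    intro v hv
    simp [T, hv]
  have hr : ∀ v : Pl K, ¬ (p : ℤ) ∣ ord v c → v ∈ T := by
    intro v hv
    have h1 : ord v c ≠ 0 := fun h => hv (by rw [h]; exact dvd_zero _)
    simp [T, h1]
  have hnsp : ∀ (T : Finset (Pl K)) v, v ∈ nsp p ζ c T ↔ v ∈ T ∧ ¬ Above p v ∧ ¬ Spl p ζ v c := by
    intro T v
    simp [nsp]
  let N := nsp p ζ c T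
  let ext : (N → ZMod p) → Pl K → ZMod p := fun κ v => if h : v ∈ N then κ ⟨v, h⟩ else 0
  have key : ∃ κ : N → ZMod p, (∃ v ∈ N, ext κ v ≠ 0) ∧
      ∀ x : Kˣ, (∀ v, v ∉ T → ¬ Spl p ζ v c → ord v x = 0) →
        ∑ v ∈ N, ext κ v * B p ζ v c x = 0 := by
    by_contra hcon
    push Not at hcon
    have h1 : ∀ κ : N → ZMod p, ∃ x : Kˣ, (∀ v, v ∉ T → ¬ Spl p ζ v c → ord v x = 0) ∧
        ((∃ v ∈ N, ext κ v ≠ 0) → ∑ v ∈ N, ext κ v * B p ζ v c x ≠ 0) := by
      intro κ
      by_cases h : ∃ v ∈ N, ext κ v ≠ 0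
      · obtain ⟨x, hx1, hx2⟩ := hcon κ h
        exact ⟨x, hx1, fun _ => hx2⟩
      · exact ⟨1, fun v _ _ => ord_one v, fun h' => absurd h' h⟩
    choose X hX1 hX2 using h1
    let F : Finset (Pl K) := (Finset.univ.biUnion fun κ => (finite_ord (X κ)).toFinset).filter
      fun v => Spl p ζ v c
    have hF : ∀ v, v ∈ F ↔ (∃ κ, ord v (X κ) ≠ 0) ∧ Spl p ζ v c := by
      intro v
      simp [F]
    obtain ⟨k, ⟨v₀, hv₀, hkv₀⟩, hk0, hk⟩ := rel_tunit hp hp2 hζ H (T ∪ F)
      (clone_mono hcl Finset.subset_union_left)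
      (fun v hv => Finset.mem_union_left _ (hT v hv))
      (fun v hv => Finset.mem_union_left _ (hr v hv)) hc
    have hNN : nsp p ζ c (T ∪ F) = N := by
      ext v
      rw [hnsp, hnsp, Finset.mem_union, hF]
      constructor
      · rintro ⟨h | h, h2, h3⟩
        · exact ⟨h, h2, h3⟩
        · exact absurd h.2 h3
      · rintro ⟨h, h2, h3⟩
        exact ⟨Or.inl h, h2, h3⟩
    rw [hNN] at hv₀ hk0 hk
    have hext : ext (fun v : N => k v) = k := by
      funext v
      by_cases h : v ∈ N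
      · simp [ext, h]
      · simp [ext, h, hk0 v h]
    have h2 := hX2 (fun v : N => k v) (by
      rw [hext]
      exact ⟨v₀, hv₀, hkv₀⟩)
    rw [hext] at h2
    apply h2
    apply hk
    intro v hv
    rw [Finset.mem_union, not_or] at hv
    by_cases hs : Spl p ζ v c
    · by_contra h3
      exact hv.2 ((hF v).2 ⟨⟨_, h3⟩, hs⟩)
    · exact hX1 _ v hv.1 hs
  obtain ⟨κ, ⟨v₀, hv₀, hκ⟩, hκ2⟩ := key
  obtain ⟨k', hk', hk'2⟩ := rel_extend hp hζ T hcl hT hr (ext κ) (by
    intro v hv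
    have : v ∉ N := hv
    simp [ext, this]) hκ2
  exact ⟨k', hk', v₀, by rw [hk'2 v₀ hv₀]; exact hκ⟩

end H63.MA
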