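import Pool.Agent.H63.MA.SymA

/-!
# MA-WA: weak approximation (multiplicative form)

For finitely many primes `v`, elements `y v ∈ K^*` and a bound `δ > 0` there is `x ∈ K^*` with `v (x / y v - 1) < δ`
for all `v ∈ T`.
Proof. Additive weak approximation for finitely many inequivalent valuations: for every `v ∈ T` there is `e v ∈ K`
with `v (e v - 1)` small and `w (e v)` small for the other `w ∈ T`; then `x = ∑_v e v * y v` satisfies
`v (x - y v) < δ' := δ * v (y v)` (and `x ≠ 0` if `T` is nonempty and `δ ≤ 1`; replace `δ` by `min δ 1`; for empty `T` take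
`x = 1`). The `e v` come from the Chinese remainder theorem in `𝓞 K`: choose `n` large and `e v : 𝓞 K` with
`e v - 1 ∈ v ^ n` and `e v ∈ w ^ n` for the other `w` (`IsDedekindDomain.exists_forall_sub_mem_ideal`, the values of
elements of `v ^ n` are `≤ exp (-n)`, `intValuation_le_pow_iff_mem`). As `ℤᵐ⁰` values are powers of `exp 1`, `n` large
makes `exp (-n) * v (y w)` smaller than any given nonzero bound, for the finitely many pairs.
-/

set_option autoImplicit false

open scoped NumberField
open IsDedekindDomain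

noncomputable section

namespace H63.MA

variable {K : Type} [Field K] [NumberField K]

theorem wa_small (a b : WithZero (Multiplicative ℤ)) (hb : b ≠ 0) :
    ∃ n0 : ℕ, ∀ n : ℕ, n0 ≤ n → WithZero.exp (-(n : ℤ)) * a < b := by
  by_cases ha : a = 0
  · refine ⟨0, fun n _ => ?_⟩
    rw [ha, mul_zero]
    exact zero_lt_iff.2 hb
  · refine ⟨(WithZero.log a - WithZero.log b).toNat + 1, fun n hn => ?_⟩
    rw [← WithZero.exp_log ha, ← WithZero.exp_log hb, ← WithZero.exp_add, WithZero.exp_lt_exp]
    have := Int.self_le_toNat (WithZero.log a - WithZero.log b)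
    omega

theorem wa_small_finset {ι : Type*} (s : Finset ι) (a b : ι → WithZero (Multiplicative ℤ))
    (hb : ∀ i ∈ s, b i ≠ 0) :
    ∃ n : ℕ, ∀ i ∈ s, WithZero.exp (-(n : ℤ)) * a i < b i := by
  classical
  induction s using Finset.induction_on with
  | empty => exact ⟨0, by simp⟩
  | insert j s hj ih =>
    obtain ⟨n, hn⟩ := ih (fun i hi => hb i (Finset.mem_insert_of_mem hi))
    obtain ⟨m, hm⟩ := wa_small (a j) (b j) (hb j (Finset.mem_insert_self _ _))
    refine ⟨max n m, fun i hi => ?_⟩
    rcases Finset.mem_insert.1 hi with rfl | hi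
    · exact hm _ (le_max_right _ _)
    · refine lt_of_le_of_lt ?_ (hn i hi)
      gcongr
      rw [WithZero.exp_le_exp]
      have := le_max_left n m
      omega

open Classical in
/-- integral idempotents: `e ≡ 1` at `v`, `e ≡ 0` at the other primes of `T`, to precision `n` -/
theorem wa_idem (T : Finset (Pl K)) (n : ℕ) (v : Pl K) :
    ∃ e : K, ∀ w ∈ T, w.valuation K (e - if w = v then 1 else 0) ≤ WithZero.exp (-(n : ℤ)) := by
  classical
  obtain ⟨y, hy⟩ := IsDedekindDomain.exists_forall_sub_mem_ideal (s := T)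
    (fun w : Pl K => w.asIdeal) (fun _ => n) (fun w _ => w.prime)
    (fun w _ w' _ h h' => h (HeightOneSpectrum.ext h')) (fun w => if (w : Pl K) = v then 1 else 0)
  refine ⟨algebraMap (𝓞 K) K y, fun w hw => ?_⟩
  have h1 := hy w hw
  have h2 : algebraMap (𝓞 K) K y - (if w = v then 1 else 0) =
      algebraMap (𝓞 K) K (y - if w = v then 1 else 0) := by
    rw [map_sub]
    congr 1
    split_ifs <;> simp
  rw [h2, HeightOneSpectrum.valuation_of_algebraMap, HeightOneSpectrum.intValuation_le_pow_iff_mem]
  exact h1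

theorem weak_approx (T : Finset (Pl K)) (y : Pl K → Kˣ) (δ : Pl K → WithZero (Multiplicative ℤ))
    (hδ : ∀ v ∈ T, δ v ≠ 0) :
    ∃ x : Kˣ, ∀ v ∈ T, v.valuation K (((x * (y v)⁻¹ : Kˣ) : K) - 1) < δ v := by
  classical
  rcases T.eq_empty_or_nonempty with rfl | hTne
  · exact ⟨1, by simp⟩
  obtain ⟨n, hn⟩ := wa_small_finset (T ×ˢ T) (fun q => q.1.valuation K (y q.2 : K))
    (fun q => min (δ q.1) 1 * q.1.valuation K (y q.1 : K)) (by
      intro q hq
      rw [Finset.mem_product] at hq
      apply mul_ne_zero
      · intro h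
        rcases min_choice (δ q.1) 1 with h' | h'
        · rw [h'] at h; exact hδ _ hq.1 h
        · rw [h'] at h; exact one_ne_zero h
      · rw [Valuation.ne_zero_iff]
        exact (y q.1).ne_zero)
  choose e he using fun v : Pl K => wa_idem T n v
  set X : K := ∑ v ∈ T, e v * (y v : K) with hX
  have hval : ∀ w ∈ T, w.valuation K (X - (y w : K)) <
      min (δ w) 1 * w.valuation K (y w : K) := by
    intro w hw
    have h1 : X - (y w : K) = ∑ v ∈ T, (e v - if w = v then 1 else 0) * (y v : K) := by
      have h2 : (y w : K) = ∑ v ∈ T, (if w = v then 1 else 0) * (y v : K) := by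
        rw [Finset.sum_eq_single w]
        · simp
        · intro v _ hvw
          rw [if_neg (Ne.symm hvw), zero_mul]
        · intro h; exact absurd hw h
      rw [h2, hX, ← Finset.sum_sub_distrib]
      apply Finset.sum_congr rfl
      intro v _
      ring
    rw [h1]
    apply Valuation.map_sum_lt
    · apply mul_ne_zero
      · intro h
        rcases min_choice (δ w) 1 with h' | h'
        · rw [h'] at h; exact hδ _ hw h
        · rw [h'] at h; exact one_ne_zero h
      · rw [Valuation.ne_zero_iff]
        exact (y w).ne_zero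
    · intro v hv
      rw [map_mul]
      refine lt_of_le_of_lt ?_ (hn (w, v) (Finset.mem_product.2 ⟨hw, hv⟩))
      gcongr
      exact he v w hw
  have hX0 : X ≠ 0 := by
    obtain ⟨w, hw⟩ := hTne
    intro h
    have h1 := hval w hw
    rw [h, zero_sub, Valuation.map_neg] at h1
    have h2 : min (δ w) 1 * w.valuation K (y w : K) ≤ 1 * w.valuation K (y w : K) := by
      gcongr
      exact min_le_right _ _
    rw [one_mul] at h2
    exact absurd (lt_of_lt_of_le h1 h2) (lt_irrefl _)
  refine ⟨Units.mk0 X hX0, fun w hw => ?_⟩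
  have hy0 : (y w : K) ≠ 0 := (y w).ne_zero
  have h1 : (((Units.mk0 X hX0 * (y w)⁻¹ : Kˣ) : K) - 1) = (X - (y w : K)) * (y w : K)⁻¹ := by
    rw [Units.val_mul, Units.val_mk0, Units.val_inv_eq_inv_val, sub_mul, mul_inv_cancel₀ hy0]
  have hv0 : w.valuation K (y w : K) ≠ 0 := by
    rw [Valuation.ne_zero_iff]; exact hy0
  rw [h1, map_mul, map_inv₀]
  have h2 := hval w hw
  have h3 : w.valuation K (X - (y w : K)) * (w.valuation K (y w : K))⁻¹ < min (δ w) 1 := by
    rw [mul_inv_lt_iff₀ (zero_lt_iff.2 hv0)]
    exact h2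
  exact lt_of_lt_of_le h3 (min_le_left _ _)

/-- the form used most: congruence to `y v` modulo `v` for all `v ∈ T`, and `LocP` for the `v ∣ p` -/
theorem weak_approx_one (T : Finset (Pl K)) (y : Pl K → Kˣ) :
    ∃ x : Kˣ, ∀ v ∈ T, One1 v (x * (y v)⁻¹) :=
  weak_approx T y (fun _ => 1) (fun _ _ => one_ne_zero)

/-- approximation by elements which are `p`-th powers locally at all `v ∣ p` -/
theorem weak_approx_prim {p : ℕ} (hp : p ≠ 0) (T : Finset (Pl K)) (hT : ∀ v ∈ T, ¬ Above p v)
    (y : Pl K → Kˣ) : ∃ x : Kˣ, Prim p x ∧ ∀ v ∈ T, One1 v (x * (y v)⁻¹) := by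
  classical
  have hpK : (p : K) ≠ 0 := by exact_mod_cast hp
  obtain ⟨x, hx⟩ := weak_approx (T ∪ (finite_above (K := K) hp).toFinset)
    (fun v => if Above p v then 1 else y v)
    (fun v => if Above p v then v.valuation K ((p : K) ^ 2) else 1) (by
      intro v _
      by_cases h : Above p v
      · simp only [h, if_true]
        rw [Valuation.ne_zero_iff]
        exact pow_ne_zero 2 hpK
      · simp only [h, if_false]
        exact one_ne_zero)
  refine ⟨x, ?_, ?_⟩
  · intro v hv
    have h1 := hx v (Finset.mem_union_right _ ((finite_above (K := K) hp).mem_toFinset.2 hv))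
    simp only [hv, if_true] at h1
    refine ⟨1, ?_⟩
    rw [one_pow]
    exact h1
  · intro v hv
    have h1 := hx v (Finset.mem_union_left _ hv)
    simp only [hT v hv, if_false] at h1
    exact h1

end H63.MA
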