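import Pool.Agent.H63.MA.RDef
import Pool.Agent.H63.MA.RelA
import Pool.Agent.H63.MA.WA
import Pool.Agent.H63.MA.Lin

/-!
# MA-RMKA: construction of the first part of the reciprocity data

`S0` = a finite set with `ClOne S0` containing the primes above `p`.
* `unit_pow`: an `S0`-unit `u` with `PS S0 u` is a `p`-th power. Proof: otherwise `rel_exists` gives a nonzero relation
  `k`. For `v ∈ S0` `k v = 0` (`v ∣ p`, or `Spl v u`). For `v ∉ S0`, take `x` with `ord v x = 1`, `ord w x = 0` for the other `w ∉ S0`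
  (`ClOne`): for `w ∉ S0`, `B w u x = ord w x * lg w u` (`B_unit`), so the relation says `k v * lg v u = 0`, and `lg v u ≠ 0` if not
  `Spl v u`, `k v = 0` otherwise. So `k = 0`.
* `PS S0` is a subgroup of `Kˣ` containing the `p`-th powers, of finite index: it contains all `x` with
  `x ≡ 1` modulo `v^e` for `v ∈ S0` (`e` such that `v(x-1) < v(p²)`, resp. `e = 1`), and
  `Kˣ / {x : x ≡ 1 mod v^e (v ∈ S0)}` modulo `p`-th powers is finite (`ord v` modulo `p` and the finite groups `(𝓞/v^e)^*`).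
* Let `Q = Kˣ / PS S0` (finite, exponent `p`), `Rq = Kˣ / (PS S0 * UT S0)`, `Q → Rq` the projection; both are modules over `ZMod p` and
  there is a linear section `s : Rq → Q`. For `v ∉ S0` let `g v` be the generator given by `ClOne`, and choose `u v ∈ UT S0` with
  `[g v * u v] = s [g v]` in `Q` (`s [g v] - [g v]` lies in the kernel of `Q → Rq`, the image of `UT S0`). `pi v = g v * u v`,
  `q v` = coordinates of `[g v] ∈ Rq` in a basis (`Rq ≃ Fin r → ZMod p`), `q v = 0` for `v ∈ S0`.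
  `prim_of`: `∑ m v q v = 0` gives `∏ [pi v]^{m v} = s (∑ m v [g v]) = 0` in `Q`.
* `M0 = ∏_{v ∈ S0} v^e`: for `x` integral, `x ≡ 1 mod M0`: `x ∈ PS S0`, `x` is, up to an `S0`-unit, `∏_{v ∉ S0} (g v)^{ord v x}`, so
  `∑ ord v x • [g v] = [x] = 0` in `Rq`, and `ray_q`.
* `q_non`: the classes `[g v]`, `v ∉ S0`, span `Rq` (`Kˣ` is generated by `UT S0` and the `g v`), so a linear form which kills
  all `q v` is `0`.
-/

set_option autoImplicit false

open scoped NumberField
open IsDedekindDomain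

noncomputable section

namespace H63.MA

theorem RMkA_lin0 {p : ℕ} (hp : p.Prime) {G A : Type} [CommGroup G] [AddCommGroup A]
    [Module (ZMod p) A] [Finite A] (cl : G → A) (hmul : ∀ x y, cl (x * y) = cl x + cl y)
    (P U : Subgroup G) (hzero : ∀ x, cl x = 0 ↔ x ∈ P) (hsurj : Function.Surjective cl)
    {ι : Type} (g : ι → G) (Q : ι → Prop)
    (hQ : ∀ x : G, ∃ (m : ι →₀ ℤ) (w : G), w ∈ U ∧ (∀ i ∈ m.support, Q i) ∧
      x = (m.prod fun v n => g v ^ n) * w) :
    ∃ (u : ι → G) (r : ℕ) (q : ι → Fin r → ZMod p), (∀ i, u i ∈ U) ∧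
      (∀ m : ι →₀ ℤ, (m.sum fun v n => (n : ZMod p) • q v) = 0 →
        (m.prod fun v n => (g v * u v) ^ n) ∈ P) ∧
      (∀ m : ι →₀ ℤ, ∀ w ∈ U, (m.prod fun v n => g v ^ n) * w ∈ P →
        (m.sum fun v n => (n : ZMod p) • q v) = 0) ∧
      ∀ κ : Fin r → ZMod p, κ ≠ 0 → ∃ v, Q v ∧ ∑ i, κ i * q v i ≠ 0 := by
  classical
  have : Fact p.Prime := ⟨hp⟩
  have hone : cl 1 = 0 := by
    have h1 := hmul 1 1
    rw [mul_one] at h1
    exact left_eq_add.mp h1
  have hinv : ∀ x, cl x⁻¹ = -cl x := by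
    intro x
    have h1 := hmul x x⁻¹
    rw [mul_inv_cancel, hone] at h1
    exact (neg_eq_of_add_eq_zero_right h1.symm).symm
  have hpow : ∀ (x : G) (n : ℕ), cl (x ^ n) = n • cl x := by
    intro x n
    induction n with
    | zero => rw [pow_zero, hone, zero_smul]
    | succ n ih => rw [pow_succ, hmul, ih, succ_nsmul]
  have hzpow : ∀ (x : G) (n : ℤ), cl (x ^ n) = n • cl x := by
    intro x n
    obtain ⟨m, rfl | rfl⟩ := n.eq_nat_or_neg
    · rw [zpow_natCast, hpow, natCast_zsmul]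
    · rw [zpow_neg, zpow_natCast, hinv, hpow, neg_smul, natCast_zsmul]
  have hprod : ∀ (s : Finset ι) (f : ι → G), cl (∏ i ∈ s, f i) = ∑ i ∈ s, cl (f i) := by
    intro s f
    induction s using Finset.induction_on with
    | empty => rw [Finset.prod_empty, Finset.sum_empty, hone]
    | insert a s ha ih => rw [Finset.prod_insert ha, Finset.sum_insert ha, hmul, ih]
  obtain ⟨W, hW⟩ : ∃ W : Submodule (ZMod p) A, ∀ z : A, z ∈ W ↔ ∃ x ∈ U, cl x = z := by
    let W0 : AddSubgroup A :=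
      { carrier := cl '' (U : Set G)
        add_mem' := by
          rintro _ _ ⟨x, hx, rfl⟩ ⟨y, hy, rfl⟩
          exact ⟨x * y, U.mul_mem hx hy, hmul x y⟩
        zero_mem' := ⟨1, U.one_mem, hone⟩
        neg_mem' := by
          rintro _ ⟨x, hx, rfl⟩
          exact ⟨x⁻¹, U.inv_mem hx, hinv x⟩ }
    refine ⟨AddSubgroup.toZModSubmodule p W0, fun z => ?_⟩
    rw [AddSubgroup.mem_toZModSubmodule]
    exact Iff.rfl
  obtain ⟨s, hs⟩ := W.mkQ.exists_rightInverse_of_surjective (Submodule.range_mkQ W)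
  have hs' : ∀ z, W.mkQ (s z) = z := fun z => LinearMap.congr_fun hs z
  have hfinM : Module.Finite (ZMod p) A := Module.Finite.of_finite
  let e := (Module.finBasis (ZMod p) (A ⧸ W)).equivFun
  have hu : ∀ i, ∃ u ∈ U, cl u = s (W.mkQ (cl (g i))) - cl (g i) := by
    intro i
    rw [← hW, ← Submodule.Quotient.mk_eq_zero W, Submodule.Quotient.mk_sub, sub_eq_zero]
    exact hs' _
  choose u huU hu using hu
  have hgu : ∀ i, cl (g i * u i) = s (W.mkQ (cl (g i))) := by
    intro i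
    rw [hmul, hu]
    abel
  refine ⟨u, _, fun i => e (W.mkQ (cl (g i))), huU, ?_, ?_, ?_⟩
  · intro m hm
    rw [← hzero, Finsupp.prod, hprod]
    have h1 : ∑ i ∈ m.support, cl ((g i * u i) ^ m i) =
        s (e.symm (m.sum fun v n => (n : ZMod p) • e (W.mkQ (cl (g v))))) := by
      rw [Finsupp.sum, map_sum, map_sum]
      apply Finset.sum_congr rfl
      intro i _
      rw [hzpow, hgu, map_smul, map_smul, LinearEquiv.symm_apply_apply, Int.cast_smul_eq_zsmul]
    rw [h1, hm, map_zero, map_zero]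
  · intro m w hw hmw
    rw [← hzero, hmul, Finsupp.prod, hprod] at hmw
    have h1 : W.mkQ (cl w) = 0 := by
      rw [Submodule.mkQ_apply, Submodule.Quotient.mk_eq_zero, hW]
      exact ⟨w, hw, rfl⟩
    have h2 := congrArg W.mkQ hmw
    rw [map_add, h1, add_zero, map_zero, map_sum] at h2
    have h3 : (m.sum fun v n => (n : ZMod p) • e (W.mkQ (cl (g v)))) =
        e (∑ i ∈ m.support, W.mkQ (cl (g i ^ m i))) := by
      rw [Finsupp.sum, map_sum]
      apply Finset.sum_congr rfl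
      intro i _
      rw [hzpow, ← Int.cast_smul_eq_zsmul (ZMod p), map_smul, map_smul]
    rw [h3, h2, map_zero]
  · intro κ hκ
    by_contra hcon
    push Not at hcon
    apply hκ
    funext j
    obtain ⟨z, hz⟩ := W.mkQ_surjective (e.symm (Pi.single j 1))
    obtain ⟨x, rfl⟩ := hsurj z
    obtain ⟨m, w, hw, hmQ, hx⟩ := hQ x
    have h1 : W.mkQ (cl w) = 0 := by
      rw [Submodule.mkQ_apply, Submodule.Quotient.mk_eq_zero, hW]
      exact ⟨w, hw, rfl⟩
    rw [hx, hmul, Finsupp.prod, hprod, map_add, h1, add_zero, map_sum] at hz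
    have h4 : ∑ i ∈ m.support, (m i : ZMod p) • e (W.mkQ (cl (g i))) = Pi.single j 1 := by
      have h5 := congrArg e hz
      rw [LinearEquiv.apply_symm_apply, map_sum] at h5
      rw [← h5]
      apply Finset.sum_congr rfl
      intro i _
      rw [hzpow, ← Int.cast_smul_eq_zsmul (ZMod p), map_smul, map_smul]
    have h6 : ∑ i, κ i * (Pi.single j (1 : ZMod p) : Fin _ → ZMod p) i = κ j := by
      rw [Finset.sum_eq_single j]
      · rw [Pi.single_eq_same, mul_one]
      · intro b _ hb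
        rw [Pi.single_eq_of_ne hb, mul_zero]
      · intro h
        exact absurd (Finset.mem_univ j) h
    rw [Pi.zero_apply, ← h6, ← h4]
    simp only [Finset.sum_apply, Pi.smul_apply, smul_eq_mul, Finset.mul_sum]
    rw [Finset.sum_comm]
    apply Finset.sum_eq_zero
    intro i hi
    have h7 := hcon i (hmQ i hi)
    calc ∑ y, κ y * ((m i : ZMod p) * e (W.mkQ (cl (g i))) y)
        = (m i : ZMod p) * ∑ y, κ y * e (W.mkQ (cl (g i))) y := by
          rw [Finset.mul_sum]
          apply Finset.sum_congr rfl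
          intro y _
          ring
      _ = 0 := by rw [h7, mul_zero]

theorem RMkA_lin {p : ℕ} (hp : p.Prime) {G : Type} [CommGroup G] (P U : Subgroup G)
    (hP : ∀ y : G, y ^ p ∈ P) (hfin : Finite (G ⧸ P)) {ι : Type} (g : ι → G) (Q : ι → Prop)
    (hQ : ∀ x : G, ∃ (m : ι →₀ ℤ) (w : G), w ∈ U ∧ (∀ i ∈ m.support, Q i) ∧
      x = (m.prod fun v n => g v ^ n) * w) :
    ∃ (u : ι → G) (r : ℕ) (q : ι → Fin r → ZMod p), (∀ i, u i ∈ U) ∧
      (∀ m : ι →₀ ℤ, (m.sum fun v n => (n : ZMod p) • q v) = 0 →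
        (m.prod fun v n => (g v * u v) ^ n) ∈ P) ∧
      (∀ m : ι →₀ ℤ, ∀ w ∈ U, (m.prod fun v n => g v ^ n) * w ∈ P →
        (m.sum fun v n => (n : ZMod p) • q v) = 0) ∧
      ∀ κ : Fin r → ZMod p, κ ≠ 0 → ∃ v, Q v ∧ ∑ i, κ i * q v i ≠ 0 := by
  have hx : ∀ z : Additive (G ⧸ P), p • z = 0 := by
    intro z
    obtain ⟨x, hx⟩ := QuotientGroup.mk_surjective (Additive.toMul z)
    have h1 : (QuotientGroup.mk (x ^ p) : G ⧸ P) = 1 := (QuotientGroup.eq_one_iff _).2 (hP x)
    have h2 : z = Additive.ofMul (QuotientGroup.mk x) := by rw [hx]; rfl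
    rw [h2]
    exact congrArg Additive.ofMul h1
  have hfin' : Finite (Additive (G ⧸ P)) := hfin
  exact @RMkA_lin0 p hp G (Additive (G ⧸ P)) _ _ (AddCommGroup.zmodModule hx) hfin'
    (fun x => Additive.ofMul (QuotientGroup.mk x)) (fun x y => rfl) P U
    (fun x => (QuotientGroup.eq_one_iff x)) QuotientGroup.mk_surjective ι g Q hQ

section RMkAs

variable {K : Type} [Field K] [NumberField K] {p : ℕ}

theorem RMkA_loc (v : Pl K) (N : ℕ) (x : K) (hx : v.valuation K x ≤ 1) :
    ∃ a : 𝓞 K, v.valuation K (algebraMap (𝓞 K) K a - x) ≤ WithZero.exp (-(N : ℤ)) := by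
  obtain ⟨a, ha⟩ := v.exists_valuation_sub_lt_of_integer hx
    (Units.mk0 (WithZero.exp (-(N : ℤ))) WithZero.exp_ne_zero)
  exact ⟨a, le_of_lt (by simpa using ha)⟩

theorem RMkA_mul (hp : p.Prime) (hp2 : MOne p K) {ζ : K} (hζ : IsPrimitiveRoot ζ p)
    {S0 : Finset (Pl K)} {x y : Kˣ} (hx : PS p ζ S0 x) (hy : PS p ζ S0 y) :
    PS p ζ S0 (x * y) := by
  refine ⟨prim_mul hp hp2 hζ hx.1 hy.1, fun v hv ha z => ?_⟩
  rw [B_mul_left hp hζ ha, hx.2 v hv ha z, hy.2 v hv ha z, add_zero]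

theorem RMkA_inv (hp : p.Prime) (hp2 : MOne p K) {ζ : K} (hζ : IsPrimitiveRoot ζ p)
    {S0 : Finset (Pl K)} {x : Kˣ} (hx : PS p ζ S0 x) : PS p ζ S0 x⁻¹ := by
  refine ⟨?_, fun v hv ha z => ?_⟩
  · have h1 := prim_zpow hp hp2 hζ hx.1 (-1)
    rwa [zpow_neg_one] at h1
  · rw [B_inv_left hp hζ ha, hx.2 v hv ha z, neg_zero]

theorem RMkA_pow (hp : p.Prime) (hp2 : MOne p K) {ζ : K} (hζ : IsPrimitiveRoot ζ p)
    (S0 : Finset (Pl K)) (y : Kˣ) : PS p ζ S0 (y ^ p) := by
  refine ⟨prim_pow hp hp2 hζ y, fun v hv ha z => ?_⟩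
  have h1 := B_zpow_left hp hζ ha y z (p : ℤ)
  rw [zpow_natCast] at h1
  rw [h1, Int.cast_natCast, ZMod.natCast_self, zero_mul]

/-- the subgroup `PS` -/
def RMkA_G (hp : p.Prime) (hp2 : MOne p K) {ζ : K} (hζ : IsPrimitiveRoot ζ p)
    (S0 : Finset (Pl K)) : Subgroup Kˣ where
  carrier := {x | PS p ζ S0 x}
  mul_mem' := fun hx hy => RMkA_mul hp hp2 hζ hx hy
  one_mem' := by
    have h1 := RMkA_pow hp hp2 hζ S0 (1 : Kˣ)
    rwa [one_pow] at h1
  inv_mem' := fun hx => RMkA_inv hp hp2 hζ hx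

theorem RMkA_near (hp : p.Prime) {ζ : K} (hζ : IsPrimitiveRoot ζ p) (S0 : Finset (Pl K))
    (hS : ∀ v, Above p v → v ∈ S0) (n : ℕ) (hn1 : 1 ≤ n)
    (hn : ∀ v ∈ S0, WithZero.exp (-(n : ℤ)) < v.valuation K ((p : K) ^ 2)) (x : Kˣ)
    (hx : ∀ v ∈ S0, v.valuation K ((x : K) - 1) ≤ WithZero.exp (-(n : ℤ))) : PS p ζ S0 x := by
  refine ⟨fun v hv => ⟨1, ?_⟩, fun v hv ha => ?_⟩
  · rw [one_pow, inv_one, mul_one]
    exact lt_of_le_of_lt (hx v (hS v hv)) (hn v (hS v hv))
  · rw [spl_iff hp hζ ha]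
    refine ⟨1, ?_⟩
    rw [one_pow, inv_one, mul_one]
    refine lt_of_le_of_lt (hx v hv) ?_
    rw [← WithZero.exp_zero, WithZero.exp_lt_exp]
    omega

theorem RMkA_fin (hp : p.Prime) (hp2 : MOne p K) {ζ : K} (hζ : IsPrimitiveRoot ζ p)
    (S0 : Finset (Pl K)) (hS : ∀ v, Above p v → v ∈ S0) (n : ℕ) (hn1 : 1 ≤ n)
    (hn : ∀ v ∈ S0, WithZero.exp (-(n : ℤ)) < v.valuation K ((p : K) ^ 2)) :
    Finite (Kˣ ⧸ RMkA_G hp hp2 hζ S0) := by
  classical
  have hp0 : (0 : ℤ) < p := by exact_mod_cast hp.pos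
  have hrep : ∀ q : Kˣ ⧸ RMkA_G hp hp2 hζ S0, ∃ x : Kˣ,
      (QuotientGroup.mk x : Kˣ ⧸ RMkA_G hp hp2 hζ S0) = q ∧
        ∀ v ∈ S0, 0 ≤ ord v x ∧ ord v x < p := by
    intro q
    obtain ⟨x, rfl⟩ := QuotientGroup.mk_surjective q
    choose π hπ using fun v : Pl K => exists_unif v
    obtain ⟨y, hy⟩ := weak_approx_one S0 (fun v => π v ^ (-(ord v x / p)))
    refine ⟨x * y ^ p, ?_, fun v hv => ?_⟩
    · rw [QuotientGroup.eq]
      have h1 : (x * y ^ p)⁻¹ * x = (y ^ p)⁻¹ := by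
        rw [mul_inv_rev, mul_assoc, inv_mul_cancel, mul_one]
      rw [h1]
      exact RMkA_inv hp hp2 hζ (RMkA_pow hp hp2 hζ S0 y)
    · have h1 := ord_of_one1 (hy v hv)
      rw [ord_mul, ord_inv, ord_zpow, hπ, mul_one] at h1
      have h2 : ord v y = -(ord v x / p) := by linarith
      rw [ord_mul, ord_pow, h2]
      have h3 := Int.emod_nonneg (ord v x) hp0.ne'
      have h4 := Int.emod_lt_of_pos (ord v x) hp0
      have h5 := Int.emod_add_mul_ediv (ord v x) p
      constructor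
      · linarith
      · linarith
  choose X hX1 hX2 using hrep
  have ha : ∀ (q : Kˣ ⧸ RMkA_G hp hp2 hζ S0) (v : Pl K), ∃ a : 𝓞 K, v ∈ S0 →
      v.valuation K (algebraMap (𝓞 K) K a - (X q : K)) ≤ WithZero.exp (-((n + p : ℕ) : ℤ)) := by
    intro q v
    by_cases hv : v ∈ S0
    · obtain ⟨a, ha⟩ := RMkA_loc v (n + p) (X q : K) ((ord_nonneg_iff v (X q)).1 (hX2 q v hv).1)
      exact ⟨a, fun _ => ha⟩
    · exact ⟨0, fun h => absurd h hv⟩
  choose a ha using ha
  have hfin : ∀ v : S0, Finite (𝓞 K ⧸ v.1.asIdeal ^ (n + p)) := fun v =>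
    Ideal.finiteQuotientOfFreeOfNeBot _ (pow_ne_zero _ v.1.ne_bot)
  let code : (Kˣ ⧸ RMkA_G hp hp2 hζ S0) → ∀ v : S0, 𝓞 K ⧸ v.1.asIdeal ^ (n + p) :=
    fun q v => Ideal.Quotient.mk _ (a q v)
  apply Finite.of_injective code
  intro q q' hqq
  rw [← hX1 q, ← hX1 q', QuotientGroup.eq]
  apply RMkA_near hp hζ S0 hS n hn1 hn
  intro v hv
  have h1 : a q v - a q' v ∈ v.asIdeal ^ (n + p) := by
    have h2 := congrFun hqq ⟨v, hv⟩
    exact Ideal.Quotient.eq.1 h2
  have h2 : v.valuation K (algebraMap (𝓞 K) K (a q v) - algebraMap (𝓞 K) K (a q' v)) ≤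
      WithZero.exp (-((n + p : ℕ) : ℤ)) := by
    rw [← map_sub, HeightOneSpectrum.valuation_of_algebraMap,
      HeightOneSpectrum.intValuation_le_pow_iff_mem]
    exact h1
  have h3 := ha q v hv
  have h4 := ha q' v hv
  have h5 : v.valuation K ((X q' : K) - X q) ≤ WithZero.exp (-((n + p : ℕ) : ℤ)) := by
    have h6 : (X q' : K) - X q = (algebraMap (𝓞 K) K (a q v) - (X q : K)) -
        ((algebraMap (𝓞 K) K (a q v) - algebraMap (𝓞 K) K (a q' v)) +
          (algebraMap (𝓞 K) K (a q' v) - (X q' : K))) := by ring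
    rw [h6]
    refine (Valuation.map_sub _ _ _).trans (max_le h3 ((Valuation.map_add _ _ _).trans
      (max_le h2 h4)))
  have h7 : (((X q)⁻¹ * X q' : Kˣ) : K) - 1 = ((X q' : K) - X q) * (X q : K)⁻¹ := by
    rw [Units.val_mul, Units.val_inv_eq_inv_val, sub_mul, mul_inv_cancel₀ (X q).ne_zero]
    ring
  rw [h7, map_mul, map_inv₀, val_eq v (X q), ← WithZero.exp_neg, neg_neg]
  calc v.valuation K ((X q' : K) - X q) * WithZero.exp (ord v (X q))
      ≤ WithZero.exp (-((n + p : ℕ) : ℤ)) * WithZero.exp (ord v (X q)) := by gcongr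
    _ = WithZero.exp (-((n + p : ℕ) : ℤ) + ord v (X q)) := by rw [WithZero.exp_add]
    _ ≤ WithZero.exp (-(n : ℤ)) := by
        rw [WithZero.exp_le_exp]
        have h8 := (hX2 q v hv).2
        push_cast
        linarith

end RMkAs

theorem unit_pow {K : Type} [Field K] [NumberField K] {p : ℕ} (hp : p.Prime) (hp2 : MOne p K) {ζ : K}
    (hζ : IsPrimitiveRoot ζ p) (S0 : Finset (Pl K)) (hcl : ClOne S0)
    (hS : ∀ v, Above p v → v ∈ S0) (u : Kˣ) (hu : TUnit S0 u) (h : PS p ζ S0 u) : IsPow p u := by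
  by_contra hn
  have : Fact p.Prime := ⟨hp⟩
  obtain ⟨k, hk, v, hkv⟩ := rel_exists hp hp2 hζ h.1 hn
  apply hkv
  by_cases hv : Above p v ∨ Spl p ζ v u
  · exact hk.1 v hv
  · rw [not_or] at hv
    have hvS : v ∉ S0 := fun h1 => hv.2 (h.2 v h1 hv.1)
    obtain ⟨x, hx1, hx2⟩ := hcl v hvS
    have h1 := hk.2 x
    rw [finsum_eq_single _ v (by
      intro w hw
      by_cases hwS : w ∈ S0
      · by_cases hwa : Above p w
        · rw [hk.1 w (Or.inl hwa), zero_mul]
        · rw [hk.1 w (Or.inr (h.2 w hwS hwa)), zero_mul]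
      · have hwa : ¬ Above p w := fun h2 => hwS (hS w h2)
        rw [B_unit hp hζ hwa (hu w hwS), hx2 w hwS hw, Int.cast_zero, zero_mul, mul_zero]),
      B_unit hp hζ hv.1 (hu v hvS), hx1, Int.cast_one, one_mul] at h1
    rcases mul_eq_zero.1 h1 with h2 | h2
    · exact h2
    · exfalso
      apply hv.2
      intro z
      rw [B_unit hp hζ hv.1 (hu v hvS), h2, mul_zero]

theorem exists_RD0 (K : Type) [Field K] [NumberField K] {p : ℕ} (hp : p.Prime) (hp2 : MOne p K) {ζ : K}
    (hζ : IsPrimitiveRoot ζ p) : ∃ D : RD0 K p ζ, ∀ (x : Kˣ) (a : 𝓞 K),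
      (x : K) = algebraMap (𝓞 K) K a → a - 1 ∈ D.M0 → PS p ζ D.S0 x := by
  classical
  have : Fact p.Prime := ⟨hp⟩
  have hpK : (p : K) ≠ 0 := by exact_mod_cast hp.ne_zero
  obtain ⟨T1, hT1⟩ := exists_clone K
  obtain ⟨S0, hS0⟩ : ∃ S0 : Finset (Pl K), S0 = T1 ∪ (finite_above (K := K) hp.ne_zero).toFinset :=
    ⟨_, rfl⟩
  have hcl : ClOne S0 := clone_mono hT1 (by rw [hS0]; exact Finset.subset_union_left)
  have hS : ∀ v, Above p v → v ∈ S0 := by
    intro v hv
    rw [hS0, Finset.mem_union, Set.Finite.mem_toFinset]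
    exact Or.inr hv
  obtain ⟨n0, hn0⟩ := wa_small_finset S0 (fun _ => 1) (fun v => v.valuation K ((p : K) ^ 2)) (by
    intro v _
    rw [Valuation.ne_zero_iff]
    exact pow_ne_zero 2 hpK)
  obtain ⟨n, hnn⟩ : ∃ n : ℕ, n = n0 + 1 := ⟨_, rfl⟩
  have hn1 : 1 ≤ n := by omega
  have hn : ∀ v ∈ S0, WithZero.exp (-(n : ℤ)) < v.valuation K ((p : K) ^ 2) := by
    intro v hv
    refine lt_of_le_of_lt ?_ (hn0 v hv)
    rw [mul_one, WithZero.exp_le_exp]
    omega
  have hfin := RMkA_fin hp hp2 hζ S0 hS n hn1 hn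
  have hgex : ∀ v : Pl K, ∃ x : Kˣ, v ∉ S0 → ord v x = 1 ∧ ∀ w, w ∉ S0 → w ≠ v → ord w x = 0 := by
    intro v
    by_cases hv : v ∈ S0
    · exact ⟨1, fun h => absurd hv h⟩
    · obtain ⟨x, hx⟩ := hcl v hv
      exact ⟨x, fun _ => hx⟩
  choose g hg using hgex
  have hgen : ∀ x : Kˣ, ∃ (m : Pl K →₀ ℤ) (w : Kˣ), w ∈ UT S0 ∧ (∀ i ∈ m.support, i ∉ S0) ∧
      x = (m.prod fun v n => g v ^ n) * w := by
    intro x
    obtain ⟨m, hm⟩ : ∃ m : Pl K →₀ ℤ, ∀ v, m v = if v ∈ S0 then 0 else ord v x := by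
      refine ⟨Finsupp.ofSupportFinite (fun v => if v ∈ S0 then 0 else ord v x) ?_, fun v => rfl⟩
      refine (finite_ord x).subset ?_
      intro v hv
      rw [Function.mem_support] at hv
      intro h0
      apply hv
      split_ifs
      · rfl
      · exact h0
    have hmS : ∀ i ∈ m.support, i ∉ S0 := by
      intro i hi his
      apply Finsupp.mem_support_iff.1 hi
      rw [hm, if_pos his]
    refine ⟨m, (m.prod fun v n => g v ^ n)⁻¹ * x, ?_, hmS, ?_⟩
    · intro v hv
      rw [ord_mul, ord_inv, Finsupp.prod, ord_prod]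
      have h1 : ∑ i ∈ m.support, ord v (g i ^ m i) = ord v x := by
        rw [Finset.sum_eq_single v]
        · rw [ord_zpow, (hg v hv).1, mul_one, hm, if_neg hv]
        · intro i hi hiv
          rw [ord_zpow, (hg i (hmS i hi)).2 v hv (Ne.symm hiv), mul_zero]
        · intro h
          rw [Finsupp.notMem_support_iff.1 h, zpow_zero, ord_one]
      rw [h1, neg_add_cancel]
    · rw [mul_inv_cancel_left]
  obtain ⟨u, r, q, hu, hA, hB, hnon⟩ := RMkA_lin hp (RMkA_G hp hp2 hζ S0) (UT S0)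
    (fun y => RMkA_pow hp hp2 hζ S0 y) hfin g (fun v => v ∉ S0) hgen
  have hM0 : ∀ v : Pl K, v ∈ S0 → (∏ w ∈ S0, w.asIdeal ^ n) ≤ v.asIdeal ^ n := fun v hv =>
    Ideal.le_of_dvd (Finset.dvd_prod_of_mem _ hv)
  have hray : ∀ (x : Kˣ) (a : 𝓞 K), (x : K) = algebraMap (𝓞 K) K a →
      a - 1 ∈ (∏ w ∈ S0, w.asIdeal ^ n) → PS p ζ S0 x := by
    intro x a hxa ha
    apply RMkA_near hp hζ S0 hS n hn1 hn
    intro v hv
    have h1 : (x : K) - 1 = algebraMap (𝓞 K) K (a - 1) := by rw [hxa, map_sub, map_one]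
    rw [h1, HeightOneSpectrum.valuation_of_algebraMap,
      HeightOneSpectrum.intValuation_le_pow_iff_mem]
    exact hM0 v hv ha
  refine ⟨{ S0 := S0
            above := hS
            pi := fun v => g v * u v
            pi_self := ?_
            pi_ne := ?_
            r := r
            q := fun v => if v ∈ S0 then 0 else q v
            q_zero := ?_
            prim_of := ?_
            M0 := ∏ w ∈ S0, w.asIdeal ^ n
            M0_ne := ?_
            M0_dvd := ?_
            ray_q := ?_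
            unit := ?_
            q_non := ?_ }, hray⟩
  · intro v hv
    rw [ord_mul, (hg v hv).1, hu v v hv, add_zero]
  · intro v w hv hw hwv
    rw [ord_mul, (hg v hv).2 w hw hwv, hu v w hw, add_zero]
  · intro v hv
    exact if_pos hv
  · intro m hm hsum
    apply hA m
    rw [← hsum]
    apply Finset.sum_congr rfl
    intro v hv
    have hvS : v ∉ S0 := fun h => (Finsupp.mem_support_iff.1 hv) (hm v h)
    simp only [if_neg hvS]
  · rw [← Ideal.zero_eq_bot]
    exact Finset.prod_ne_zero_iff.2 fun w _ => pow_ne_zero _ w.ne_bot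
  · intro v
    constructor
    · intro h
      obtain ⟨w, hw, h1⟩ := (HeightOneSpectrum.prime v).exists_mem_finset_dvd h
      have h2 : v.asIdeal ∣ w.asIdeal := (HeightOneSpectrum.prime v).dvd_of_dvd_pow h1
      have h3 : w.asIdeal ≤ v.asIdeal := Ideal.le_of_dvd h2
      have h4 : w = v := HeightOneSpectrum.ext (w.isMaximal.eq_of_le v.isPrime.ne_top h3)
      rw [← h4]
      exact hw
    · intro h
      exact (dvd_pow_self _ (by omega)).trans (Finset.dvd_prod_of_mem _ h)
  · intro κ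
    constructor
    · intro v hv
      have hvS : v ∈ S0 := by
        obtain ⟨w, hw, h1⟩ := (HeightOneSpectrum.prime v).exists_mem_finset_dvd hv
        have h2 : v.asIdeal ∣ w.asIdeal := (HeightOneSpectrum.prime v).dvd_of_dvd_pow h1
        have h3 : w.asIdeal ≤ v.asIdeal := Ideal.le_of_dvd h2
        have h4 : w = v := HeightOneSpectrum.ext (w.isMaximal.eq_of_le v.isPrime.ne_top h3)
        rw [← h4]
        exact hw
      simp only [if_pos hvS, Pi.zero_apply, mul_zero, Finset.sum_const_zero]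
    · intro x a hxa ha
      have hPS := hray x a hxa ha
      let m : Pl K →₀ ℤ := Finsupp.ofSupportFinite (fun v => if v ∈ S0 then 0 else ord v x)
        ((finite_ord x).subset (by
          intro v hv
          rw [Function.mem_support] at hv
          by_cases hvS : v ∈ S0
          · exact absurd (if_pos hvS) hv
          · rw [if_neg hvS] at hv
            exact hv))
      have hm : ∀ v, m v = if v ∈ S0 then 0 else ord v x := fun v => rfl
      have hmS : ∀ v ∈ m.support, v ∉ S0 := by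
        intro v hv hvS
        rw [Finsupp.mem_support_iff, hm, if_pos hvS] at hv
        exact hv rfl
      have hw : x * (m.prod fun v n => g v ^ n)⁻¹ ∈ UT S0 := by
        rw [mem_UT]
        intro w hwS
        rw [ord_mul, ord_inv, Finsupp.prod, ord_prod]
        have h4 : ∀ v ∈ m.support, v ≠ w → ord w (g v ^ m v) = 0 := by
          intro v hv hvw
          rw [ord_zpow, (hg v (hmS v hv)).2 w hwS (Ne.symm hvw), mul_zero]
        by_cases hwm : w ∈ m.support
        · rw [Finset.sum_eq_single w h4 (fun h => absurd hwm h), ord_zpow, (hg w hwS).1, hm,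
            if_neg hwS]
          ring
        · rw [Finset.sum_eq_zero (fun v hv => h4 v hv (fun h => hwm (h ▸ hv)))]
          rw [Finsupp.notMem_support_iff, hm, if_neg hwS] at hwm
          rw [hwm]
          ring
      have h1 := hB m _ hw (by
        rw [mul_comm, mul_assoc, inv_mul_cancel, mul_one]
        exact hPS)
      have hsupp : (Function.support fun v : Pl K =>
          (∑ i, κ i * (if v ∈ S0 then (0 : Fin r → ZMod p) else q v) i) * (ord v x : ZMod p)) ⊆
          ((m.support : Finset (Pl K)) : Set (Pl K)) := by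
        intro v hv
        rw [Function.mem_support] at hv
        rw [Finset.mem_coe, Finsupp.mem_support_iff, hm]
        by_cases hvS : v ∈ S0
        · exfalso
          apply hv
          simp only [if_pos hvS, Pi.zero_apply, mul_zero, Finset.sum_const_zero, zero_mul]
        · rw [if_neg hvS]
          intro h0
          apply hv
          rw [h0, Int.cast_zero, mul_zero]
      rw [finsum_eq_sum_of_support_subset _ hsupp]
      have h2 : ∀ v ∈ m.support,
          (∑ i, κ i * (if v ∈ S0 then (0 : Fin r → ZMod p) else q v) i) * (ord v x : ZMod p) =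
          ∑ i, κ i * (((m v : ZMod p) • q v) i) := by
        intro v hv
        have hvS := hmS v hv
        rw [hm, if_neg hvS, if_neg hvS, Finset.sum_mul]
        apply Finset.sum_congr rfl
        intro i _
        rw [Pi.smul_apply, smul_eq_mul]
        ring
      rw [Finset.sum_congr rfl h2, Finset.sum_comm]
      have h3 : ∀ i, ∑ v ∈ m.support, κ i * (((m v : ZMod p) • q v) i) = 0 := by
        intro i
        rw [← Finset.mul_sum]
        have h5 := congrFun h1 i
        rw [Finsupp.sum, Finset.sum_apply, Pi.zero_apply] at h5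
        rw [h5, mul_zero]
      exact Finset.sum_eq_zero fun i _ => h3 i
  · intro w hw hPS
    exact unit_pow hp hp2 hζ S0 hcl hS w hw hPS
  · intro κ hκ
    obtain ⟨v, hv, h1⟩ := hnon κ hκ
    exact ⟨v, by simpa only [if_neg hv] using h1⟩

end H63.MA
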