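import Pool.Agent.H63.MA.GKum

/-!
# MA-GKUS: Kummer theory: every character is a Kummer character; surjectivity

* `kum_sub`: let `U ≤ Γ`, `χ : U → ZMod p` a homomorphism trivial on `U ∩ E.fixingSubgroup`, `E/K` finite. Replace `E` by its
  normal closure. The restrictions to `E` of the elements of `U` form a finite subgroup `Δ` of `Gal(E/K)` and `χ` factors through `Δ`. By the
  linear independence of the automorphisms `δ ∈ Δ` (`linearIndependent_monoidHom`) there is `x ∈ E` with `B = ∑_{δ ∈ Δ} ζ^{-χ δ} δ x ≠ 0`; then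
  `u B = ζ^{χ u} B`.
* `kc_all`: `kum_sub` with `U = ⊤`: `B^p` is fixed by `Γ`, so `B^p = a ∈ K`.
* `kk_surj`: let `a : Fin m → Kˣ` be such that `∏ a k ^ (θ k).val` is not a `p`-th power for `θ ≠ 0`. The image of `σ ↦ (kk (a k) σ)_k` is a
  subgroup (subspace) of `(ZMod p)^m`; if it is proper there is `θ ≠ 0` with `∑ θ k kk (a k) σ = 0` for all `σ`, i.e. `kk (∏ a k ^ θ k) = 0`.
-/

set_option autoImplicit false

open scoped NumberField
open IsDedekindDomain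

noncomputable section

namespace H63.MA

variable {K : Type} [Field K] [NumberField K] {Ω : Type} [Field Ω] [Algebra K Ω] [IsAlgClosure K Ω]
  {p : ℕ} {ζ : K}

theorem gkus_pow_add (hζ : IsPrimitiveRoot ζ p) (hp : p.Prime) (a b : ZMod p) :
    algebraMap K Ω ζ ^ (a + b).val = algebraMap K Ω ζ ^ a.val * algebraMap K Ω ζ ^ b.val := by
  have : NeZero p := ⟨hp.ne_zero⟩
  have h1 : algebraMap K Ω ζ ^ p = 1 := by rw [← map_pow, hζ.pow_eq_one, map_one]
  rw [← pow_add, ZMod.val_add, ← pow_eq_pow_mod _ h1]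

theorem kum_sub (hp : p.Prime) (hζ : IsPrimitiveRoot ζ p) (U : Subgroup Gal(Ω/K))
    (χ : U →* Multiplicative (ZMod p)) (E : IntermediateField K Ω) [FiniteDimensional K E]
    (hE : ∀ u : U, (u : Gal(Ω/K)) ∈ E.fixingSubgroup → χ u = 1) :
    ∃ B : Ω, B ≠ 0 ∧ ∀ u : U,
      (u : Gal(Ω/K)) B = algebraMap K Ω ζ ^ (Multiplicative.toAdd (χ u)).val * B := by
  classical
  have : Fintype (E →ₐ[K] Ω) := Fintype.ofFinite _
  have hz0 : algebraMap K Ω ζ ≠ 0 := by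
    intro h
    exact hζ.ne_zero hp.ne_zero ((map_eq_zero _).1 h)
  -- the restriction
  obtain ⟨r, hr⟩ : ∃ r : U → (E →ₐ[K] Ω), ∀ u x, r u x = (u : Gal(Ω/K)) (x : Ω) :=
    ⟨fun u => ((u : Gal(Ω/K)) : Ω →ₐ[K] Ω).comp E.val, fun u x => rfl⟩
  have hχ : ∀ u v : U, r u = r v → χ u = χ v := by
    intro u v huv
    have h1 : χ (v⁻¹ * u) = 1 := by
      apply hE
      rw [IntermediateField.mem_fixingSubgroup_iff]
      intro x hx
      have h2 := DFunLike.congr_fun huv ⟨x, hx⟩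
      rw [hr, hr] at h2
      simp only at h2
      rw [Subgroup.coe_mul, AlgEquiv.mul_apply, h2, ← AlgEquiv.mul_apply, ← Subgroup.coe_mul,
        inv_mul_cancel]
      rfl
    rw [map_mul, map_inv] at h1
    exact (inv_mul_eq_one.1 h1).symm
  obtain ⟨c, hc⟩ : ∃ c : (E →ₐ[K] Ω) → Ω, c = fun φ => if h : ∃ v : U, r v = φ then
      (algebraMap K Ω ζ ^ (Multiplicative.toAdd (χ h.choose)).val)⁻¹ else 0 := ⟨_, rfl⟩
  have hc1 : ∀ v : U, c (r v) = (algebraMap K Ω ζ ^ (Multiplicative.toAdd (χ v)).val)⁻¹ := by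
    intro v
    have h : ∃ w : U, r w = r v := ⟨v, rfl⟩
    rw [hc]
    simp only [dif_pos h]
    rw [hχ _ _ h.choose_spec]
  have hc2 : ∀ φ, (¬ ∃ v : U, r v = φ) → c φ = 0 := by
    intro φ h
    rw [hc]
    simp only [dif_neg h]
  have hcK : ∀ (φ) (u : U), (u : Gal(Ω/K)) (c φ) = c φ := by
    intro φ u
    by_cases h : ∃ v : U, r v = φ
    · obtain ⟨v, rfl⟩ := h
      rw [hc1, map_inv₀, map_pow, AlgEquiv.commutes]
    · rw [hc2 φ h, map_zero]
  -- composition with `u`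
  obtain ⟨T, hT⟩ : ∃ T : U → (E →ₐ[K] Ω) → (E →ₐ[K] Ω), ∀ u φ x,
      T u φ x = (u : Gal(Ω/K)) (φ x) :=
    ⟨fun u φ => ((u : Gal(Ω/K)) : Ω →ₐ[K] Ω).comp φ, fun u φ x => rfl⟩
  have hTinv : ∀ (u : U) (φ), T u⁻¹ (T u φ) = φ := by
    intro u φ
    ext x
    rw [hT, hT, ← AlgEquiv.mul_apply, ← Subgroup.coe_mul, inv_mul_cancel]
    rfl
  have hTb : ∀ u : U, Function.Bijective (T u) := by
    intro u
    constructor
    · intro φ ψ h
      rw [← hTinv u φ, h, hTinv u ψ]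
    · intro φ
      refine ⟨T u⁻¹ φ, ?_⟩
      have := hTinv u⁻¹ φ
      rwa [inv_inv] at this
  have hTr : ∀ u v : U, T u (r v) = r (u * v) := by
    intro u v
    ext x
    rw [hT, hr, hr, ← AlgEquiv.mul_apply, ← Subgroup.coe_mul]
  have hcT : ∀ (u : U) (φ), c φ =
      algebraMap K Ω ζ ^ (Multiplicative.toAdd (χ u)).val * c (T u φ) := by
    intro u φ
    by_cases h : ∃ v : U, r v = φ
    · obtain ⟨v, rfl⟩ := h
      rw [hTr, hc1, hc1, map_mul, toAdd_mul, gkus_pow_add hζ hp, mul_inv, ← mul_assoc,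
        mul_inv_cancel₀ (pow_ne_zero _ hz0), one_mul]
    · rw [hc2 φ h, hc2, mul_zero]
      rintro ⟨v, hv⟩
      apply h
      refine ⟨u⁻¹ * v, ?_⟩
      rw [← hTr, hv, hTinv]
  -- independence
  have hne : ∃ x : E, ∑ φ : (E →ₐ[K] Ω), c φ * φ x ≠ 0 := by
    by_contra hcon
    push Not at hcon
    have hli := linearIndependent_toLinearMap K E Ω
    rw [Fintype.linearIndependent_iff] at hli
    have h1 := hli c (by
      ext x
      rw [LinearMap.sum_apply]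
      simpa using hcon x) (r 1)
    rw [hc1] at h1
    exact inv_ne_zero (pow_ne_zero _ hz0) h1
  obtain ⟨x, hx⟩ := hne
  refine ⟨_, hx, fun u => ?_⟩
  rw [map_sum]
  calc ∑ φ : (E →ₐ[K] Ω), (u : Gal(Ω/K)) (c φ * φ x) =
      ∑ φ : (E →ₐ[K] Ω), algebraMap K Ω ζ ^ (Multiplicative.toAdd (χ u)).val *
        (c (T u φ) * T u φ x) := by
        refine Finset.sum_congr rfl fun φ _ => ?_
        rw [map_mul, hcK, hcT u φ, hT, mul_assoc]
    _ = algebraMap K Ω ζ ^ (Multiplicative.toAdd (χ u)).val *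
        ∑ φ : (E →ₐ[K] Ω), c (T u φ) * T u φ x := by rw [Finset.mul_sum]
    _ = _ := by
        rw [(hTb u).sum_comp (fun φ => c φ * φ x)]

theorem kc_all (hp : p.Prime) (hζ : IsPrimitiveRoot ζ p)
    (χ : Gal(Ω/K) →* Multiplicative (ZMod p)) (hχ : H38.ML.FT χ) : ∃ a : Kˣ, χ = kc p ζ Ω a := by
  have : IsGalois K Ω := IsAlgClosure.isGalois K Ω
  have : NeZero p := ⟨hp.ne_zero⟩
  have hχ' := hχ
  obtain ⟨E, hEf, hE⟩ := hχ
  have := hEf
  obtain ⟨B, hB0, hB⟩ := kum_sub hp hζ (⊤ : Subgroup Gal(Ω/K)) (χ.comp (Subgroup.subtype ⊤)) E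
    (fun u hu => hE hu)
  have hB' : ∀ σ : Gal(Ω/K), σ B = algebraMap K Ω ζ ^ (Multiplicative.toAdd (χ σ)).val * B :=
    fun σ => hB ⟨σ, Subgroup.mem_top σ⟩
  have hz1 : algebraMap K Ω ζ ^ p = 1 := by rw [← map_pow, hζ.pow_eq_one, map_one]
  have hfix : ∀ σ : Gal(Ω/K), σ (B ^ p) = B ^ p := by
    intro σ
    rw [map_pow, hB' σ, mul_pow, ← pow_mul, mul_comm _ p, pow_mul, hz1, one_pow, one_mul]
  obtain ⟨a, ha⟩ := (InfiniteGalois.mem_range_algebraMap_iff_fixed (B ^ p)).2 hfix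
  have ha0 : a ≠ 0 := by
    rintro rfl
    rw [map_zero] at ha
    exact pow_ne_zero p hB0 ha.symm
  refine ⟨Units.mk0 a ha0, ?_⟩
  refine isKC_unique hp hζ (Units.mk0 a ha0) χ _ ⟨hχ', ?_⟩ (kc_is hp hζ _)
  intro B₁ hB₁ σ
  have hzp : IsPrimitiveRoot (algebraMap K Ω ζ) p := hζ.map_of_injective (algebraMap K Ω).injective
  have h1 : (B₁ / B) ^ p = 1 := by
    rw [div_pow, hB₁, Units.val_mk0, ha]
    exact div_self (pow_ne_zero p hB0)
  obtain ⟨i, -, hi⟩ := hzp.eq_pow_of_pow_eq_one h1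
  have h2 : B₁ = algebraMap K Ω ζ ^ i * B := by
    rw [hi]
    field_simp
  rw [h2, map_mul, map_pow, AlgEquiv.commutes, hB' σ]
  ring

theorem kk_surj (hp : p.Prime) (hζ : IsPrimitiveRoot ζ p) {m : ℕ} (a : Fin m → Kˣ)
    (ha : ∀ θ : Fin m → ZMod p, θ ≠ 0 → ¬ IsPow p (∏ k, a k ^ (θ k).val)) (y : Fin m → ZMod p) :
    ∃ σ : Gal(Ω/K), ∀ k, kk p ζ (a k) σ = y k := by
  have : Fact p.Prime := ⟨hp⟩
  obtain ⟨S, hS⟩ : ∃ S : AddSubgroup (Fin m → ZMod p), ∀ v, v ∈ S ↔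
      ∃ σ : Gal(Ω/K), ∀ k, kk p ζ (a k) σ = v k := by
    refine ⟨{ carrier := {v | ∃ σ : Gal(Ω/K), ∀ k, kk p ζ (a k) σ = v k}
              add_mem' := ?_
              zero_mem' := ⟨1, fun k => kk_one (a k)⟩
              neg_mem' := ?_ }, fun v => Iff.rfl⟩
    · rintro v w ⟨σ, hσ⟩ ⟨τ, hτ⟩
      refine ⟨σ * τ, fun k => ?_⟩
      rw [kk_mul, hσ, hτ]
      rfl
    · rintro v ⟨σ, hσ⟩
      refine ⟨σ⁻¹, fun k => ?_⟩
      have h1 := kk_mul (p := p) (ζ := ζ) (a k) σ⁻¹ σ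
      rw [inv_mul_cancel, kk_one, hσ] at h1
      exact (neg_eq_of_add_eq_zero_left h1.symm).symm
  by_contra hcon
  have hlt : AddSubgroup.toZModSubmodule p S < ⊤ := by
    rw [lt_top_iff_ne_top]
    intro htop
    apply hcon
    rw [← hS]
    have : y ∈ AddSubgroup.toZModSubmodule p S := by rw [htop]; exact Submodule.mem_top
    exact this
  obtain ⟨f, hf0, hfS⟩ := Submodule.exists_le_ker_of_lt_top _ hlt
  have hfv : ∀ v : Fin m → ZMod p, f v = ∑ k, f (Pi.single k 1) * v k := by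
    intro v
    conv_lhs => rw [pi_eq_sum_univ' v]
    rw [map_sum]
    refine Finset.sum_congr rfl fun k _ => ?_
    rw [map_smul, smul_eq_mul, mul_comm]
  have hθ : (fun k => f (Pi.single k 1)) ≠ 0 := by
    intro h
    apply hf0
    ext v
    have h1 := congrFun h v
    simpa using h1
  apply ha _ hθ
  rw [← kk_eq_zero_iff (Ω := Ω) hp hζ]
  intro σ
  rw [kk_prod_arg hp hζ]
  have h2 : (fun k => kk p ζ (a k) σ) ∈ S := (hS _).2 ⟨σ, fun k => rfl⟩
  have h3 : f (fun k => kk p ζ (a k) σ) = 0 := hfS h2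
  rw [hfv] at h3
  rw [← h3]
  refine Finset.sum_congr rfl fun k _ => ?_
  rw [← zpow_natCast, kk_zpow_arg hp hζ]
  simp

end H63.MA
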