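import Pool.Agent.H63.MA.GKum
import Pool.Agent.H38.TD.LocT

/-!
# MA-GLOC: inertia and Kummer characters

* `ord_eq_od`: the two definitions of the order agree (`H38.TD.od`, `valuationOfNeZero_eq`).
* `exists_LD`: a prime `P` of `𝓞 Ω` over `v` exists (lying over for integral extensions, see how `H38` does it), `w` a root of `π`;
  `H38.TD.ram_move` gives `τ` in the inertia group of `P` with `τ w ≠ w`, so `τ w = ζ^k w`, `p ∤ k`, and a power of `τ` does the job.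
* `ld_kk`: for `τ` in the inertia group and `a ∈ Kˣ`, `kk a τ = ord v a * kk π τ`: write `n = ord v a`, `C = B / w^n`, `C^p = a π^{-n}` has
  `ord = 0`, so `τ C = C` by `H38.TD.inert_fix`, and `τ w = ζ^{kk π τ} w`. In particular `kk a t = ord v a`.
-/

set_option autoImplicit false

open scoped NumberField
open IsDedekindDomain

noncomputable section

namespace H63.MA

variable {K : Type} [Field K] [NumberField K] {Ω : Type} [Field Ω] [Algebra K Ω] [IsAlgClosure K Ω]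
  {p : ℕ} {ζ : K}

theorem gloc_over (K : Type) [Field K] [NumberField K] (Ω : Type) [Field Ω] [Algebra K Ω]
    [IsAlgClosure K Ω] (v : Ideal (𝓞 K)) (hv : v.IsPrime) :
    ∃ 𝔓 : Ideal (𝓞 Ω), 𝔓.IsPrime ∧ 𝔓.under (𝓞 K) = v := by
  obtain ⟨Q, hQ, hQv⟩ := Ideal.exists_ideal_over_prime_of_isIntegral v (⊥ : Ideal (𝓞 Ω)) (by
    rw [← RingHom.ker_eq_comap_bot]
    have : Function.Injective (algebraMap (𝓞 K) (𝓞 Ω)) :=
      NumberField.RingOfIntegers.algebraMap.injective K Ω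
    rw [(RingHom.injective_iff_ker_eq_bot _).mp this]
    exact bot_le)
  exact ⟨Q, hQv.1, hQv.2⟩

theorem gloc_root (Ω : Type) [Field Ω] [Algebra K Ω] [IsAlgClosure K Ω] (hp : p.Prime)
    (a : Kˣ) : ∃ B : Ω, B ^ p = algebraMap K Ω (a : K) := by
  have hac : IsAlgClosed Ω := IsAlgClosure.isAlgClosed K
  exact IsAlgClosed.exists_pow_nat_eq _ hp.pos

theorem ord_eq_od (v : Pl K) (x : Kˣ) : ord v x = H38.TD.od v x := by
  unfold ord H38.TD.od
  rw [← HeightOneSpectrum.valuationOfNeZero_eq v x]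
  rfl

theorem exists_LD (Ω : Type) [Field Ω] [Algebra K Ω] [IsAlgClosure K Ω] (hp : p.Prime)
    (hζ : IsPrimitiveRoot ζ p) {v : Pl K} (hv : ¬ Above p v) {π : Kˣ} (hπ : ord v π = 1) :
    Nonempty (LD p ζ Ω v π) := by
  obtain ⟨P, hP, hPv⟩ := gloc_over K Ω v.asIdeal v.isPrime
  obtain ⟨w, hw⟩ := gloc_root (p := p) Ω hp π
  have hinj := (algebraMap K Ω).injective
  have hw0 : w ≠ 0 := by
    intro h0
    rw [h0, zero_pow hp.ne_zero] at hw
    exact π.ne_zero (hinj (by rw [map_zero]; exact hw.symm))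
  have hζΩ : IsPrimitiveRoot (algebraMap K Ω ζ) p := hζ.map_of_injective hinj
  obtain ⟨τ, hτ, hτw⟩ := H38.TD.ram_move p hp ζ hζ v P hP hPv π (by rw [← ord_eq_od]; exact hπ) w hw
  obtain ⟨k, hk⟩ := H38.TD.root_ratio (K := K) hp.pos hζ (x := τ w) hw0
    (by rw [← map_pow, hw, AlgEquiv.commutes])
  have hpk : ¬ p ∣ k := by
    intro hd
    apply hτw
    rw [hk, (hζΩ.pow_eq_one_iff_dvd k).2 hd, one_mul]
  have hco : Nat.Coprime k p := ((Nat.Prime.coprime_iff_not_dvd hp).2 hpk).symm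
  obtain ⟨l, hl⟩ : ∃ l : ℕ, k * l ≡ 1 [MOD p] := by
    obtain ⟨l, hl⟩ := Nat.exists_mul_mod_eq_one_of_coprime hco hp.one_lt
    exact ⟨l, by rw [Nat.ModEq, hl.2, Nat.mod_eq_of_lt hp.one_lt]⟩
  have hpow : ∀ l : ℕ, (τ ^ l) w = algebraMap K Ω ζ ^ (k * l) * w := by
    intro l
    induction l with
    | zero => simp
    | succ l ih =>
      rw [pow_succ', AlgEquiv.mul_apply, ih, map_mul, map_pow, AlgEquiv.commutes, hk, Nat.mul_succ,
        pow_add]
      ring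
  refine ⟨⟨P, hP, hPv, w, hw, τ ^ l, Subgroup.pow_mem _ hτ l, ?_⟩⟩
  rw [hpow l]
  congr 1
  have h1 : algebraMap K Ω ζ ^ (k * l) = algebraMap K Ω ζ ^ 1 := by
    rw [pow_eq_pow_mod (k * l) hζΩ.pow_eq_one, show k * l % p = 1 % p from hl,
      ← pow_eq_pow_mod 1 hζΩ.pow_eq_one]
  rw [h1, pow_one]

theorem ld_kk (hp : p.Prime) (hζ : IsPrimitiveRoot ζ p) {v : Pl K} (hv : ¬ Above p v) {π : Kˣ}
    (hπ : ord v π = 1) (L : LD p ζ Ω v π) (τ : Gal(Ω/K)) (hτ : τ ∈ L.P.inertia Gal(Ω/K))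
    (a : Kˣ) : kk p ζ a τ = ord v a * kk p ζ π τ := by
  obtain ⟨x, hx⟩ : ∃ x : Kˣ, x = a * π ^ (-ord v a) := ⟨_, rfl⟩
  have hax : a = x * π ^ ord v a := by
    rw [hx, mul_assoc, ← zpow_add, neg_add_cancel, zpow_zero, mul_one]
  have hox : H38.TD.od v x = 0 := by
    rw [hx, H38.TD.od_mul, H38.TD.od_zpow, ← ord_eq_od, ← ord_eq_od, hπ]
    ring
  obtain ⟨C, hC⟩ := gloc_root (p := p) Ω hp x
  have hfix := H38.TD.inert_fix p hp ζ hζ v hv L.P L.prime L.under x (by rw [hox]; exact dvd_zero _)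
    C hC τ hτ
  have hkx : kk p ζ x τ = 0 := by
    have h1 := kk_of_root hp hζ x C hC τ 0 (by rw [zpow_zero, one_mul]; exact hfix)
    rw [h1, Int.cast_zero]
  have h2 : kk p ζ (x * π ^ ord v a) τ = ord v a * kk p ζ π τ := by
    rw [kk_mul_arg hp hζ, kk_zpow_arg hp hζ, hkx, zero_add]
  rw [← hax] at h2
  exact h2

theorem ld_kk_t (hp : p.Prime) (hζ : IsPrimitiveRoot ζ p) {v : Pl K} (hv : ¬ Above p v) {π : Kˣ}
    (hπ : ord v π = 1) (L : LD p ζ Ω v π) (a : Kˣ) : kk p ζ a L.t = ord v a := by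
  have h1 : kk p ζ π L.t = 1 := by
    have h2 := kk_of_root hp hζ π L.w L.hw L.t 1 (by rw [zpow_one]; exact L.act)
    rw [h2, Int.cast_one]
  rw [ld_kk hp hζ hv hπ L L.t L.ht a, h1, mul_one]

end H63.MA
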