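import Pool.Agent.H63.MA.Ray

/-!
# MA-RDEF: the reciprocity data of `K` (definitions)

`S0` a finite set of primes containing the primes above `p`, `pi v` a generator of `v` up to `S0`-units, `q v ∈ (ZMod p)^r` the
class of `v`, such that a product of `pi v` with total class `0` is a `p`-th power locally at `S0`.
`LL v x` is the residue symbol of `x / (pi v)^{ord v x}` at `v ∉ S0`.
-/

set_option autoImplicit false

open scoped NumberField
open IsDedekindDomain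

noncomputable section

namespace H63.MA

/-- a `p`-th power locally at all `v ∈ S` -/
def PS {K : Type} [Field K] [NumberField K] (p : ℕ) (ζ : K) (S : Finset (Pl K)) (c : Kˣ) : Prop :=
  Prim p c ∧ ∀ v ∈ S, ¬ Above p v → Spl p ζ v c

/-- first part of the reciprocity data -/
structure RD0 (K : Type) [Field K] [NumberField K] (p : ℕ) (ζ : K) where
  S0 : Finset (Pl K)
  above : ∀ v, Above p v → v ∈ S0
  pi : Pl K → Kˣ
  pi_self : ∀ v, v ∉ S0 → ord v (pi v) = 1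
  pi_ne : ∀ v w, v ∉ S0 → w ∉ S0 → w ≠ v → ord w (pi v) = 0
  r : ℕ
  q : Pl K → Fin r → ZMod p
  q_zero : ∀ v ∈ S0, q v = 0
  prim_of : ∀ m : Pl K →₀ ℤ, (∀ v ∈ S0, m v = 0) → (m.sum fun v n => (n : ZMod p) • q v) = 0 →
    PS p ζ S0 (m.prod fun v n => pi v ^ n)
  M0 : Ideal (𝓞 K)
  M0_ne : M0 ≠ ⊥
  M0_dvd : ∀ v : Pl K, v.asIdeal ∣ M0 ↔ v ∈ S0
  ray_q : ∀ κ : Fin r → ZMod p, IsRay p M0 fun v => ∑ i, κ i * q v i
  unit : ∀ u : Kˣ, TUnit S0 u → PS p ζ S0 u → IsPow p u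
  q_non : ∀ κ : Fin r → ZMod p, κ ≠ 0 → ∃ v, ∑ i, κ i * q v i ≠ 0

/-- the residue symbol at `v ∉ S0`, normalised by `LL v (pi v) = 0` -/
def RD0.LL {K : Type} [Field K] [NumberField K] {p : ℕ} {ζ : K} (D : RD0 K p ζ) (v : Pl K) (x : Kˣ) :
    ZMod p := lg p ζ v (x * D.pi v ^ (-ord v x))

/-- the good primes: outside `S0` and of prime norm -/
def RD0.Gd {K : Type} [Field K] [NumberField K] {p : ℕ} {ζ : K} (D : RD0 K p ζ) (v : Pl K) : Prop :=
  v ∉ D.S0 ∧ (nm v).Prime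

open Classical in
/-- the reciprocity data -/
structure RD (K : Type) [Field K] [NumberField K] (p : ℕ) (ζ : K) extends RD0 K p ζ where
  ray_L : ∀ w, w ∉ S0 → IsRay p (M0 * w.asIdeal)
    fun v => if v ∈ S0 ∨ v = w then 0 else toRD0.LL w (pi v)
  lam : Pl K → ZMod p
  rec1 : ∀ b : Kˣ, ∃ κ : Fin r → ZMod p, ∀ v, toRD0.Gd v →
    toRD0.LL v b = ∑ i, κ i * q v i +
      ∑ᶠ w, (if w ∈ S0 then 0 else lam w * (ord w b : ZMod p) * toRD0.LL w (pi v))
  eta : Fin r → Fin r → ZMod p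
  rec2 : ∀ v w, toRD0.Gd v → toRD0.Gd w → v ≠ w →
    toRD0.LL v (pi w) - toRD0.LL w (pi v) = ∑ i, ∑ j, eta i j * q w i * q v j
  lam_one : ∀ v, toRD0.Gd v → lam v = 1
  non : ∀ b : Kˣ, ¬ IsPow p b → ∀ F : Finset (Pl K),
    ∃ v, toRD0.Gd v ∧ v ∉ F ∧ ord v b = 0 ∧ toRD0.LL v b ≠ 0

end H63.MA
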