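import Pool.Agent.H63.MA.Pv
import Pool.Agent.H63.MA.RDef
import Pool.Agent.H63.MA.RayC

/-!
# MA-AFIN: finite sets of primes instead of squarefree ideals

`nr n = ∏_{v ∈ n} nm v`. `finite_nr`: finitely many finite sets of primes with `nr n ≤ y` (the map `n ↦ ∏ v.asIdeal` is injective
into the ideals of norm `≤ y`: unique factorisation). `af_card`: at most `C y` of them for `y ≥ 1` (`cnt`).
`af_short`: at most `C (θ y + y^{1-δ})` with `y < nr n ≤ (1+θ) y`, `0 ≤ θ ≤ 1` (`cnt` at `y` and `(1+θ) y`).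
-/

set_option autoImplicit false

open scoped NumberField
open IsDedekindDomain
open scoped Classical

noncomputable section

namespace H63.MA

variable {K : Type} [Field K] [NumberField K]

/-- the norm of a finite set of primes -/
def nr (n : Finset (Pl K)) : ℝ := ∏ v ∈ n, (nm v : ℝ)

/-- the ideal `∏ v` -/
def idl (n : Finset (Pl K)) : Ideal (𝓞 K) := ∏ v ∈ n, v.asIdeal

theorem af_ne (n : Finset (Pl K)) : idl n ≠ ⊥ := by
  unfold idl
  rw [← Ideal.zero_eq_bot, Ne, Finset.prod_eq_zero_iff]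
  rintro ⟨v, -, hv⟩
  exact v.ne_bot (by rw [hv, Ideal.zero_eq_bot])

theorem af_rcm (n : Finset (Pl K)) (w : Pl K) : rcm w (idl n) = if w ∈ n then 1 else 0 := by
  induction n using Finset.induction_on with
  | empty =>
    have h1 : (1 : Ideal (𝓞 K)) ≠ ⊥ := by
      rw [Ideal.one_eq_top]
      exact top_ne_bot
    have h2 := rcm_mul w h1 h1
    rw [one_mul] at h2
    have h3 : rcm w (1 : Ideal (𝓞 K)) = 0 := by omega
    unfold idl
    simpa using h3
  | insert v n hv ih =>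
    have e : idl (insert v n) = v.asIdeal * idl n := by
      unfold idl
      rw [Finset.prod_insert hv]
    rw [e, rcm_mul w v.ne_bot (af_ne n), ih]
    by_cases hwv : w = v
    · subst hwv
      rw [rcm_self, if_neg hv, if_pos (Finset.mem_insert_self _ _)]
    · rw [rcm_ne hwv]
      by_cases hwn : w ∈ n
      · rw [if_pos hwn, if_pos (Finset.mem_insert_of_mem hwn)]
      · rw [if_neg hwn, if_neg]
        rw [Finset.mem_insert]
        rintro (h | h)
        · exact hwv h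
        · exact hwn h

theorem idl_inj : Function.Injective (idl : Finset (Pl K) → Ideal (𝓞 K)) := by
  intro n n' h
  ext w
  have h1 := af_rcm n w
  have h2 := af_rcm n' w
  rw [h, h2] at h1
  by_cases hw : w ∈ n <;> by_cases hw' : w ∈ n' <;> simp_all

theorem idl_norm (n : Finset (Pl K)) : (Ideal.absNorm (idl n) : ℝ) = nr n := by
  unfold idl nr nm
  rw [map_prod]
  push_cast
  rfl

theorem idl_ne (n : Finset (Pl K)) : idl n ≠ ⊥ := by
  unfold idl
  rw [← Ideal.zero_eq_bot, Ne, Finset.prod_eq_zero_iff]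
  rintro ⟨v, -, hv⟩
  exact v.ne_bot (by rw [hv, Ideal.zero_eq_bot])

theorem finite_nr (K : Type) [Field K] [NumberField K] (y : ℝ) :
    {n : Finset (Pl K) | nr n ≤ y}.Finite := by
  refine Set.Finite.of_injOn (f := idl) (t := ↑(IN K (max y 0))) ?_ (idl_inj.injOn)
    (Finset.finite_toSet _)
  intro n hn
  have hn' : nr n ≤ y := hn
  rw [Finset.mem_coe, mem_IN (le_max_right _ _), idl_norm]
  exact ⟨hn'.trans (le_max_left _ _), idl_ne n⟩

/-- all finite sets of primes of norm at most `y` -/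
def AF (K : Type) [Field K] [NumberField K] (y : ℝ) : Finset (Finset (Pl K)) :=
  (finite_nr K y).toFinset

theorem mem_AF {y : ℝ} {n : Finset (Pl K)} : n ∈ AF K y ↔ nr n ≤ y := by
  unfold AF
  rw [Set.Finite.mem_toFinset]
  rfl

theorem one_le_nr (n : Finset (Pl K)) : 1 ≤ nr n := by
  unfold nr
  induction n using Finset.induction_on with
  | empty => simp
  | insert v n hv ih =>
    rw [Finset.prod_insert hv]
    have h1 : (1 : ℝ) ≤ (nm v : ℝ) := by exact_mod_cast (one_lt_nm v).le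
    exact one_le_mul_of_one_le_of_one_le h1 ih

theorem nr_union {n n' : Finset (Pl K)} (h : Disjoint n n') : nr (n ∪ n') = nr n * nr n' := by
  unfold nr
  exact Finset.prod_union h

theorem nr_mono {n n' : Finset (Pl K)} (h : n ⊆ n') : nr n ≤ nr n' := by
  have h1 : n' = n ∪ (n' \ n) := (Finset.union_sdiff_of_subset h).symm
  rw [h1, nr_union Finset.disjoint_sdiff]
  have h2 := one_le_nr (n' \ n)
  have h3 := one_le_nr n
  nlinarith

theorem two_pow_le_nr (n : Finset (Pl K)) : (2 : ℝ) ^ n.card ≤ nr n := by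
  unfold nr
  rw [← Finset.prod_const]
  refine Finset.prod_le_prod (fun v _ => by norm_num) fun v _ => ?_
  exact_mod_cast one_lt_nm v

theorem af_card (K : Type) [Field K] [NumberField K] :
    ∃ C : ℝ, 0 < C ∧ ∀ y : ℝ, 1 ≤ y → ((AF K y).card : ℝ) ≤ C * y := by
  obtain ⟨κ, C, δ, hκ, hC, hδ, hδ1, h⟩ := cnt K
  refine ⟨κ + C, by linarith, fun y hy => ?_⟩
  have hy0 : 0 < y := by linarith
  have h1 : (AF K y).card ≤ (IN K y).card := by
    refine Finset.card_le_card_of_injOn idl ?_ idl_inj.injOn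
    intro n hn
    rw [Finset.mem_coe, mem_AF] at hn
    rw [Finset.mem_coe, mem_IN hy0.le, idl_norm]
    exact ⟨hn, idl_ne n⟩
  have h2 := (abs_le.1 (h y hy)).2
  have h3 : y ^ (1 - δ) ≤ y := by
    have := Real.rpow_le_rpow_of_exponent_le hy (show 1 - δ ≤ 1 by linarith)
    rwa [Real.rpow_one] at this
  have h4 : ((AF K y).card : ℝ) ≤ ((IN K y).card : ℝ) := by exact_mod_cast h1
  nlinarith

theorem af_short (K : Type) [Field K] [NumberField K] :
    ∃ C δ : ℝ, 0 < C ∧ 0 < δ ∧ δ < 1 ∧ ∀ y θ : ℝ, 1 ≤ y → 0 ≤ θ → θ ≤ 1 →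
      (((AF K ((1 + θ) * y)).filter fun n => y < nr n).card : ℝ) ≤ C * (θ * y + y ^ (1 - δ)) := by
  obtain ⟨κ, C, δ, hκ, hC, hδ, hδ1, h⟩ := cnt K
  refine ⟨κ + 3 * C, δ, by linarith, hδ, hδ1, fun y θ hy hθ hθ1 => ?_⟩
  have hy0 : 0 < y := by linarith
  have hθy : 0 ≤ θ * y := by positivity
  have hy1 : y ≤ (1 + θ) * y := by nlinarith
  have hsub : IN K y ⊆ IN K ((1 + θ) * y) := by
    intro I hI
    rw [mem_IN hy0.le] at hI
    rw [mem_IN (hy0.le.trans hy1)]
    exact ⟨hI.1.trans hy1, hI.2⟩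
  have h1 : ((AF K ((1 + θ) * y)).filter fun n => y < nr n).card ≤
      (IN K ((1 + θ) * y) \ IN K y).card := by
    refine Finset.card_le_card_of_injOn idl ?_ idl_inj.injOn
    intro n hn
    rw [Finset.mem_coe, Finset.mem_filter, mem_AF] at hn
    rw [Finset.mem_coe, Finset.mem_sdiff, mem_IN (hy0.le.trans hy1), mem_IN hy0.le, idl_norm]
    exact ⟨⟨hn.1, idl_ne n⟩, fun h' => absurd h'.1 (not_le.2 hn.2)⟩
  have h2 : ((IN K ((1 + θ) * y) \ IN K y).card : ℝ) =
      ((IN K ((1 + θ) * y)).card : ℝ) - ((IN K y).card : ℝ) := by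
    rw [Finset.card_sdiff_of_subset hsub, Nat.cast_sub (Finset.card_le_card hsub)]
  have h3 := (abs_le.1 (h ((1 + θ) * y) (hy.trans hy1))).2
  have h4 := (abs_le.1 (h y hy)).1
  have h5 : ((1 + θ) * y) ^ (1 - δ) ≤ 2 * y ^ (1 - δ) := by
    have a1 : ((1 + θ) * y) ^ (1 - δ) = (1 + θ) ^ (1 - δ) * y ^ (1 - δ) :=
      Real.mul_rpow (by linarith) hy0.le
    have a2 : (1 + θ) ^ (1 - δ) ≤ 2 := by
      have b1 : (1 + θ) ^ (1 - δ) ≤ (1 + θ) ^ (1 : ℝ) :=
        Real.rpow_le_rpow_of_exponent_le (by linarith) (by linarith)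
      rw [Real.rpow_one] at b1
      linarith
    rw [a1]
    exact mul_le_mul_of_nonneg_right a2 (Real.rpow_nonneg hy0.le _)
  have h6 : ((((AF K ((1 + θ) * y)).filter fun n => y < nr n).card : ℕ) : ℝ) ≤
      ((IN K ((1 + θ) * y) \ IN K y).card : ℝ) := by exact_mod_cast h1
  have h7 : 0 ≤ y ^ (1 - δ) := Real.rpow_nonneg hy0.le _
  rw [h2] at h6
  have h8 : C * ((1 + θ) * y) ^ (1 - δ) ≤ C * (2 * y ^ (1 - δ)) :=
    mul_le_mul_of_nonneg_left h5 hC.le
  calc ((((AF K ((1 + θ) * y)).filter fun n => y < nr n).card : ℕ) : ℝ)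
      ≤ κ * ((1 + θ) * y) + C * (2 * y ^ (1 - δ)) - κ * y + C * y ^ (1 - δ) := by linarith
    _ = κ * (θ * y) + 3 * C * y ^ (1 - δ) := by ring
    _ ≤ (κ + 3 * C) * (θ * y + y ^ (1 - δ)) := by
        have c1 : 0 ≤ 3 * C * (θ * y) := by positivity
        have c2 : 0 ≤ κ * y ^ (1 - δ) := by positivity
        nlinarith

end H63.MA
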