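import Mathlib

/-!
# MP_b39724_nt, part MA (Malle, exponent `p` and class 2): basic definitions

`K` is a number field, `p` a prime, `ζ ∈ K` a primitive `p`-th root of unity (for `p = 2` with `i ∈ K`: `MOne p K`).
Everything in this file is a definition; the elementary facts are in `SymA`, `SymB`, `SymC`, `WA`.
-/

set_option autoImplicit false

open scoped NumberField
open IsDedekindDomain

noncomputable section

namespace H63.MA

/-- `-1` is a `p`-th power in `K` (true for odd `p`; for `p = 2` it means that `i ∈ K`) -/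
def MOne (p : ℕ) (K : Type) [Field K] : Prop := ∃ i : K, i ^ p = -1

theorem mone_odd {p : ℕ} (hp : p.Prime) (hp2 : p ≠ 2) (K : Type) [Field K] : MOne p K :=
  ⟨-1, (hp.odd_of_ne_two hp2).neg_one_pow⟩

theorem mone_map {p : ℕ} {K : Type} [Field K] (h : MOne p K) (L : Type) [Field L]
    [Algebra K L] : MOne p L := by
  obtain ⟨i, hi⟩ := h
  exact ⟨algebraMap K L i, by rw [← map_pow, hi, map_neg, map_one]⟩

/-- the nonzero primes of a number field -/
abbrev Pl (K : Type) [Field K] [NumberField K] : Type := HeightOneSpectrum (𝓞 K)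

section one

variable {K : Type} [Field K] [NumberField K]

/-- the absolute norm of a prime -/
def nm (v : Pl K) : ℕ := Ideal.absNorm v.asIdeal

/-- the exponent of `v` in `x` -/
def ord (v : Pl K) (x : Kˣ) : ℤ := -WithZero.log (v.valuation K (x : K))

/-- the prime `v` lies above `p` -/
def Above (p : ℕ) (v : Pl K) : Prop := (p : 𝓞 K) ∈ v.asIdeal

/-- `x ≡ 1` modulo `v` (multiplicative congruence) -/
def One1 (v : Pl K) (x : Kˣ) : Prop := v.valuation K ((x : K) - 1) < 1

/-- `c` is a `p`-th power times an element which is `1` modulo more than `p ^ 2` at `v`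
(used for `v ∣ p`: then `c` is a `p`-th power in the completion) -/
def LocP (p : ℕ) (v : Pl K) (c : Kˣ) : Prop :=
  ∃ y : Kˣ, v.valuation K (((c * (y ^ p)⁻¹ : Kˣ) : K) - 1) < v.valuation K ((p : K) ^ 2)

open Classical in
/-- the logarithm of the `p`-th power residue symbol (meaningful for `v ∤ p`, `ord v z = 0`):
`z ^ ((N v - 1) / p) ≡ ζ ^ lg` modulo `v` -/
def lg (p : ℕ) (ζ : K) (v : Pl K) (z : Kˣ) : ZMod p :=
  if h : ∃ a : ZMod p, v.valuation K ((z : K) ^ ((nm v - 1) / p) - ζ ^ a.val) < 1 then h.choose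
  else 0

/-- the tame symbol at `v ∤ p`: the residue symbol of `c ^ ord x / x ^ ord c` -/
def B (p : ℕ) (ζ : K) (v : Pl K) (c x : Kˣ) : ZMod p :=
  lg p ζ v (c ^ ord v x * (x ^ ord v c)⁻¹)

/-- `c` is a `p`-th power locally at `v ∤ p` (this is the content of the definition for `v ∤ p`) -/
def Spl (p : ℕ) (ζ : K) (v : Pl K) (c : Kˣ) : Prop := ∀ x : Kˣ, B p ζ v c x = 0

/-- `c` is a `p`-th power in `K` -/
def IsPow (p : ℕ) (c : Kˣ) : Prop := ∃ y : Kˣ, y ^ p = c

/-- `c` is a `p`-th power locally at all primes above `p` -/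
def Prim (p : ℕ) (c : Kˣ) : Prop := ∀ v : Pl K, Above p v → LocP p v c

/-- the `T`-units, as a predicate -/
def TUnit (T : Finset (Pl K)) (x : Kˣ) : Prop := ∀ v, v ∉ T → ord v x = 0

/-- the class group is generated by the primes in `T` -/
def ClOne (T : Finset (Pl K)) : Prop :=
  ∀ v, v ∉ T → ∃ x : Kˣ, ord v x = 1 ∧ ∀ w, w ∉ T → w ≠ v → ord w x = 0

/-- the part of the prime zeta function of `K` over the primes in `S` -/
def PZ (S : Set (Pl K)) (s : ℝ) : ℝ :=
  ∑' v : Pl K, S.indicator (fun v => (nm v : ℝ) ^ (-s)) v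

end one

section two

variable {K : Type} [Field K] [NumberField K] {L : Type} [Field L] [NumberField L] [Algebra K L]

/-- the prime `w` of `L` lies over the prime `v` of `K` -/
def Over (w : Pl L) (v : Pl K) : Prop :=
  w.asIdeal.comap (algebraMap (𝓞 K) (𝓞 L)) = v.asIdeal

/-- the image of a unit of `K` in `L` -/
def inc (K L : Type) [Field K] [Field L] [Algebra K L] : Kˣ →* Lˣ :=
  Units.map (algebraMap K L : K →* L)

end two

/-- `L` is the Kummer extension `K(c^{1/p})` of degree `p` of `K` -/
structure Kum (p : ℕ) (K : Type) [Field K] [NumberField K] (ζ : K) (c : Kˣ)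
    (L : Type) [Field L] [NumberField L] [Algebra K L] where
  /-- the root -/
  γ : Lˣ
  /-- the generator of the Galois group -/
  σ : L ≃ₐ[K] L
  hγ : (γ : L) ^ p = algebraMap K L c
  hσ : σ (γ : L) = algebraMap K L ζ * γ
  deg : Module.finrank K L = p

end H63.MA
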