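import Pool.Agent.H63.MA.KumB
import Pool.Agent.H63.MA.SymC

/-!
# MA-GBASE: residue symbols and tame symbols in an extension

`L/K` an extension of number fields, `w` a prime of `L` over `v` of `K` (`Over w v`), `v ∤ p`. Let `e`, `f` be the ramification index and the residue degree.
* `nm w = nm v ^ f`; `ord w (inc x) = e * ord v x` (`nm_over`, `ord_inc`, `above_over`, `one1_over`, `exists_below` in `KumB`).
* `lg w (inc u) = f * lg v u` for `ord v u = 0`: with `q = nm v`: `u^{(q^f - 1)/p} = (u^{(q-1)/p})^{(q^f-1)/(q-1)} ≡ ζ^{lg u * (1 + q + ... + q^{f-1})}` and `q ≡ 1 mod p`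
  (`p ∣ q - 1` because `ζ` has order `p` modulo `v`); congruences modulo `v` imply congruences modulo `w`. Use `lg_unique`.
* `B w (inc x) (inc y) = e f B v x y`: the argument of `lg` is the `e`-th power of the image of `x^{ord v y} y^{-ord v x}`.
* `bc_prim`: `v.valuation (z) < v.valuation (p²)` implies the same for `w` over `v` (valuations are raised to the power `e`).
* `bc_inert`: `H : Kum p K ζ c L`, `ord v c = 0`, `lg v c ≠ 0`: `inc c = γ^p` in `L`, so `f * lg v c = lg w (γ^p) = 0`, `p ∣ f`, and `B w (inc x) (inc y) = 0`.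
-/

set_option autoImplicit false

open scoped NumberField
open IsDedekindDomain

noncomputable section

namespace H63.MA

variable {K : Type} [Field K] [NumberField K] {L : Type} [Field L] [NumberField L] [Algebra K L]
  {p : ℕ} {ζ : K}

theorem GBase_zeta (hζ : IsPrimitiveRoot ζ p) : IsPrimitiveRoot (algebraMap K L ζ) p :=
  hζ.map_of_injective (algebraMap K L).injective

/-- divisions: `(q ^ f - 1) / p = (q - 1) / p * (1 + q + ... + q ^ (f - 1))` -/
theorem GBase_div {q p : ℕ} (hp : 0 < p) (hq : 1 ≤ q) (h : p ∣ q - 1) (f : ℕ) :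
    (q ^ f - 1) / p = (q - 1) / p * ∑ i ∈ Finset.range f, q ^ i := by
  obtain ⟨m, hm⟩ := h
  have h1 : q ^ f - 1 = p * (m * ∑ i ∈ Finset.range f, q ^ i) := by
    have h2 := geom_sum_mul_of_one_le hq f
    rw [← h2, hm]
    ring
  rw [h1, Nat.mul_div_cancel_left _ hp, hm, Nat.mul_div_cancel_left _ hp]

theorem GBase_mod {q p : ℕ} (hq : 1 ≤ q) (h : p ∣ q - 1) (f : ℕ) :
    ((∑ i ∈ Finset.range f, q ^ i : ℕ) : ZMod p) = f := by
  have h1 : ((q : ℕ) : ZMod p) = 1 := by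
    have h2 : ((q - 1 : ℕ) : ZMod p) = 0 := (ZMod.natCast_eq_zero_iff _ _).2 h
    rw [Nat.cast_sub hq, Nat.cast_one, sub_eq_zero] at h2
    exact h2
  push_cast
  rw [h1]
  simp

theorem GBase_lg (hp : p.Prime) (hζ : IsPrimitiveRoot ζ p) {w : Pl L} {v : Pl K} (h : Over w v)
    (hv : ¬ Above p v) {f : ℕ} (hf : nm w = nm v ^ f) (u : Kˣ) (hu : ord v u = 0)
    (hu' : ord w (inc K L u) = 0) :
    lg p (algebraMap K L ζ) w (inc K L u) = f * lg p ζ v u := by
  have hw : ¬ Above p w := fun hcon => hv ((above_over h p).1 hcon)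
  have hζ' : IsPrimitiveRoot (algebraMap K L ζ) p := GBase_zeta hζ
  have hp0 : NeZero p := ⟨hp.ne_zero⟩
  set a := lg p ζ v u with ha
  have hspec := lg_spec hp hζ hv hu
  rw [← ha] at hspec
  have hζ0 : ζ ≠ 0 := hζ.ne_zero hp.ne_zero
  set Z : Kˣ := Units.mk0 ζ hζ0 with hZ
  have hZv : (Z : K) = ζ := rfl
  have hZval := symb_zeta_pow_val hp hζ (v := v) a.val
  -- the quotient is `1` modulo `v`
  have h1 : One1 v (u ^ ((nm v - 1) / p) * (Z ^ a.val)⁻¹) := by
    unfold One1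
    have e : ((u ^ ((nm v - 1) / p) * (Z ^ a.val)⁻¹ : Kˣ) : K) - 1 =
        ((u : K) ^ ((nm v - 1) / p) - ζ ^ a.val) * (ζ ^ a.val)⁻¹ := by
      rw [Units.val_mul, Units.val_inv_eq_inv_val, Units.val_pow_eq_pow_val,
        Units.val_pow_eq_pow_val, hZv, sub_mul, mul_inv_cancel₀ (pow_ne_zero _ hζ0)]
    rw [e, map_mul, map_inv₀, hZval, inv_one, mul_one]
    exact hspec
  have h2 := (one1_over h _).2 h1
  have hq : 1 ≤ nm v := (one_lt_nm v).le
  have hdiv := dvd_nm hp hζ hv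
  set N := ∑ i ∈ Finset.range f, (nm v) ^ i with hN
  have h3 := one1_zpow h2 (N : ℤ)
  rw [zpow_natCast] at h3
  apply lg_unique hp hζ' hw hu'
  have hexp : (nm w - 1) / p = (nm v - 1) / p * N := by
    rw [hf]
    exact GBase_div hp.pos hq hdiv f
  have hZN : Z ^ (a.val * N) = Z ^ ((f : ZMod p) * a).val := by
    have hZp : Z ^ p = 1 := by
      apply Units.ext
      rw [Units.val_pow_eq_pow_val, hZv, hζ.pow_eq_one, Units.val_one]
    have hmod : (a.val * N) % p = ((f : ZMod p) * a).val := by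
      have h4 : ((a.val * N : ℕ) : ZMod p) = (f : ZMod p) * a := by
        rw [Nat.cast_mul, ZMod.natCast_zmod_val, hN, GBase_mod hq hdiv, mul_comm]
      rw [← h4, ZMod.val_natCast]
    conv_lhs => rw [← Nat.mod_add_div (a.val * N) p]
    rw [pow_add, pow_mul, hZp, one_pow, mul_one, hmod]
  have h5 : (inc K L (u ^ ((nm v - 1) / p) * (Z ^ a.val)⁻¹)) ^ N =
      inc K L u ^ ((nm w - 1) / p) * (inc K L Z ^ ((f : ZMod p) * a).val)⁻¹ := by
    rw [hexp, ← map_pow, ← map_pow, ← map_pow, ← map_inv, ← map_mul, mul_pow, ← pow_mul, inv_pow,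
      ← pow_mul, hZN]
  rw [h5] at h3
  unfold One1 at h3
  have hZL : ((inc K L Z : Lˣ) : L) = algebraMap K L ζ := rfl
  have hζ0' : algebraMap K L ζ ≠ 0 := hζ'.ne_zero hp.ne_zero
  have e : ((inc K L u ^ ((nm w - 1) / p) * (inc K L Z ^ ((f : ZMod p) * a).val)⁻¹ : Lˣ) : L) - 1 =
      (((inc K L u : Lˣ) : L) ^ ((nm w - 1) / p) - (algebraMap K L ζ) ^ ((f : ZMod p) * a).val) *
        ((algebraMap K L ζ) ^ ((f : ZMod p) * a).val)⁻¹ := by
    rw [Units.val_mul, Units.val_inv_eq_inv_val, Units.val_pow_eq_pow_val,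
      Units.val_pow_eq_pow_val, hZL, sub_mul, mul_inv_cancel₀ (pow_ne_zero _ hζ0')]
  rw [e, map_mul, map_inv₀, symb_zeta_pow_val hp hζ', inv_one, mul_one] at h3
  exact h3

theorem bc_data (hp : p.Prime) (hζ : IsPrimitiveRoot ζ p) {w : Pl L} {v : Pl K} (h : Over w v)
    (hv : ¬ Above p v) : ∃ e f : ℕ, nm w = nm v ^ f ∧ (∀ x : Kˣ, ord w (inc K L x) = e * ord v x) ∧
      (∀ u : Kˣ, ord v u = 0 → lg p (algebraMap K L ζ) w (inc K L u) = f * lg p ζ v u) ∧
      ∀ x y : Kˣ, B p (algebraMap K L ζ) w (inc K L x) (inc K L y) = e * f * B p ζ v x y := by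
  obtain ⟨e, -, he⟩ := ord_inc h
  obtain ⟨f, -, hf⟩ := nm_over h
  have hw : ¬ Above p w := fun hcon => hv ((above_over h p).1 hcon)
  have hζ' : IsPrimitiveRoot (algebraMap K L ζ) p := GBase_zeta hζ
  have hlg : ∀ u : Kˣ, ord v u = 0 →
      lg p (algebraMap K L ζ) w (inc K L u) = f * lg p ζ v u := by
    intro u hu
    exact GBase_lg hp hζ h hv hf u hu (by rw [he, hu, mul_zero])
  refine ⟨e, f, hf, he, hlg, fun x y => ?_⟩
  have h0 : ord v (x ^ ord v y * (y ^ ord v x)⁻¹) = 0 := by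
    rw [ord_mul, ord_inv, ord_zpow, ord_zpow]
    ring
  have h1 : (inc K L x) ^ ord w (inc K L y) * ((inc K L y) ^ ord w (inc K L x))⁻¹ =
      (inc K L (x ^ ord v y * (y ^ ord v x)⁻¹)) ^ (e : ℤ) := by
    rw [he, he, ← map_zpow, ← map_zpow, ← map_zpow, ← map_inv, ← map_mul, mul_zpow, inv_zpow,
      ← zpow_mul, ← zpow_mul, mul_comm (e : ℤ) (ord v y), mul_comm (e : ℤ) (ord v x)]
  unfold B
  rw [h1, lg_zpow hp hζ' hw (by rw [he, h0, mul_zero]), hlg _ h0, Int.cast_natCast, mul_assoc]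

theorem bc_prim {x : Kˣ} (hx : Prim p x) : Prim p (inc K L x) := by
  intro w hw
  obtain ⟨v, h⟩ := exists_below (K := K) w
  obtain ⟨y, hy⟩ := hx v ((above_over h p).1 hw)
  refine ⟨inc K L y, ?_⟩
  have hlo : w.asIdeal.LiesOver v.asIdeal := ⟨h.symm⟩
  have e1 : ((inc K L x * ((inc K L y) ^ p)⁻¹ : Lˣ) : L) - 1 =
      algebraMap K L (((x * (y ^ p)⁻¹ : Kˣ) : K) - 1) := by
    rw [map_sub, map_one, ← map_pow, ← map_inv, ← map_mul]
    rfl
  have e2 : ((p : L) ^ 2) = algebraMap K L ((p : K) ^ 2) := by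
    rw [map_pow, map_natCast]
  rw [e1, e2, ← HeightOneSpectrum.valuation_liesOver L v w,
    ← HeightOneSpectrum.valuation_liesOver L v w]
  exact pow_lt_pow_left₀ hy zero_le
    (Ideal.IsDedekindDomain.ramificationIdx'_ne_zero_of_liesOver w.asIdeal v.ne_bot)

theorem bc_inert (hp : p.Prime) (hζ : IsPrimitiveRoot ζ p) {c : Kˣ} (H : Kum p K ζ c L) {w : Pl L}
    {v : Pl K} (h : Over w v) (hv : ¬ Above p v) (hc : ord v c = 0) (hc' : lg p ζ v c ≠ 0)
    (x y : Kˣ) : B p (algebraMap K L ζ) w (inc K L x) (inc K L y) = 0 := by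
  have hpf : Fact p.Prime := ⟨hp⟩
  obtain ⟨e, f, hf, he, hlg, hB⟩ := bc_data hp hζ h hv
  have hw : ¬ Above p w := fun hcon => hv ((above_over h p).1 hcon)
  have hζ' : IsPrimitiveRoot (algebraMap K L ζ) p := GBase_zeta hζ
  have hγ : inc K L c = H.γ ^ (p : ℤ) := by
    rw [zpow_natCast]
    apply Units.ext
    rw [Units.val_pow_eq_pow_val, H.hγ]
    rfl
  have h1 : ord w (inc K L c) = 0 := by rw [he, hc, mul_zero]
  have h2 : ord w H.γ = 0 := by
    rw [hγ, ord_zpow] at h1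
    rcases mul_eq_zero.1 h1 with h | h
    · exfalso
      exact hp.ne_zero (by exact_mod_cast h)
    · exact h
  have h3 : lg p (algebraMap K L ζ) w (inc K L c) = 0 := by
    rw [hγ, lg_zpow hp hζ' hw h2, Int.cast_natCast, ZMod.natCast_self, zero_mul]
  rw [hlg c hc] at h3
  have h4 : (f : ZMod p) = 0 := (mul_eq_zero.1 h3).resolve_right hc'
  rw [hB, h4, mul_zero, zero_mul]

end H63.MA
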