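import Pool.Agent.H63.MA.ADef

/-!
# MA-ACMB: class data and the combinatorics of unlinked families (finite linear algebra)

`c : CD p m N`: classes `i ∈ Fin N` with vectors `x i` and subspaces `Θ i ⊆ (x i)^⊥`; every nonzero vector is some `x i`.
`c.J` is the set of pairs `(i, θ)`, `θ ∈ Θ i`; `c.pd` the phase data.

* `comb_up`. Claim (*): if `a, a' ∈ Lg`, `a ≠ a'`, `x a = x a'`, then (`θ a ≠ θ a'` if they are in the same class `i`) with
  `δ = θ a - θ a'`: for all `a'' ∈ Lg ∪ Ne`: `0 = lk a a'' - lk a' a'' = δ · x a'' + θ a'' · (x a - x a') = δ · x a''`. If `δ ≠ 0` then `h4` gives `¬ Pw δ`,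
  which contradicts `h3`. So `δ = 0`; in particular two elements of `Lg` in the same class are equal, i.e. `a ↦ a.1` is injective
  on `Lg` and `#Lg ≤ N`. If `#Lg = N` it is bijective: for every `i` there is `(i, θ_i) ∈ Lg`. Let `l = (j, θ') ∈ Ne`, `a = (i, θ_i) ∈ Lg`: `lk a l = 0` and
  `lk a (j, θ_j) = 0` give `(θ' - θ_j) · x_i = 0` for all `i`, so (`all`) `θ' = θ_j`, `l ∈ Lg`.
* `comb_low`. Suppose every class has an element of `Lg`. If `a ≠ a' ∈ Lg` are in the same class, `δ = θ a - θ a'` is orthogonal to all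
  `x a''`, `a'' ∈ Lg`, so to all `x i`, so `δ = 0`, contradiction. The second part as before.
-/

set_option autoImplicit false

open scoped NumberField
open IsDedekindDomain
open scoped Classical

noncomputable section

namespace H63.MA

/-- class data -/
structure CD (p m N : ℕ) where
  x : Fin N → Fin m → ZMod p
  Θ : Fin N → Submodule (ZMod p) (Fin m → ZMod p)
  self : ∀ i, ∀ θ ∈ Θ i, dt θ (x i) = 0
  all : ∀ y : Fin m → ZMod p, y ≠ 0 → ∃ i, x i = y

/-- the index set of the refined families -/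
def CD.J {p m N : ℕ} (c : CD p m N) : Type := Σ i : Fin N, {θ : Fin m → ZMod p // θ ∈ c.Θ i}

instance {p m N : ℕ} [NeZero p] (c : CD p m N) : Fintype c.J :=
  inferInstanceAs (Fintype (Σ i : Fin N, {θ : Fin m → ZMod p // θ ∈ c.Θ i}))

/-- the phase data of a class datum -/
def CD.pd {p m N : ℕ} (c : CD p m N) : PD p m c.J where
  x a := c.x a.1
  θ a := a.2.1
  self a := c.self a.1 _ a.2.2

/-- the class of a refined index -/
def CD.blk {p m N : ℕ} (c : CD p m N) (a : c.J) : Fin N := a.1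

theorem acmb_dt_sub {p m : ℕ} (θ θ' x : Fin m → ZMod p) : dt (θ - θ') x = dt θ x - dt θ' x := by
  simp [dt, sub_mul, Finset.sum_sub_distrib]

theorem acmb_single {p m : ℕ} (θ : Fin m → ZMod p) (k : Fin m) :
    dt θ (Pi.single k (1 : ZMod p)) = θ k := by
  simp [dt, Pi.single_apply]

theorem acmb_zero {p m N : ℕ} (c : CD p m N) (δ : Fin m → ZMod p)
    (h : ∀ i, dt δ (c.x i) = 0) : δ = 0 := by
  funext k
  by_cases hk : (Pi.single k (1 : ZMod p) : Fin m → ZMod p) = 0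
  · have h1 : (1 : ZMod p) = 0 := by
      have := congrFun hk k
      simpa using this
    show δ k = 0
    calc δ k = δ k * 1 := (mul_one _).symm
      _ = 0 := by rw [h1, mul_zero]
  · obtain ⟨i, hi⟩ := c.all _ hk
    have := h i
    rw [hi, acmb_single] at this
    exact this

theorem acmb_ext {p m N : ℕ} (c : CD p m N) {a a' : c.J} (h : a.1 = a'.1)
    (hθ : c.pd.θ a = c.pd.θ a') : a = a' := by
  obtain ⟨i, θ, hi⟩ := a
  obtain ⟨i', θ', hi'⟩ := a'
  obtain rfl : i = i' := h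
  obtain rfl : θ = θ' := hθ
  rfl

theorem acmb_x {p m N : ℕ} (c : CD p m N) {a a' : c.J} (h : a.1 = a'.1) :
    c.pd.x a = c.pd.x a' := by
  show c.x a.1 = c.x a'.1
  rw [h]

theorem acmb_lk {p m N : ℕ} (c : CD p m N) {a a' b : c.J} (hx : c.pd.x a = c.pd.x a')
    (h : c.pd.lk a b = 0) (h' : c.pd.lk a' b = 0) :
    dt (c.pd.θ a - c.pd.θ a') (c.pd.x b) = 0 := by
  rw [acmb_dt_sub]
  unfold PD.lk at h h'
  rw [hx] at h
  linear_combination h - h'

theorem acmb_comm {p m N : ℕ} (c : CD p m N) (a b : c.J) : c.pd.lk a b = c.pd.lk b a := by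
  unfold PD.lk
  ring

/-- the second part of both statements -/
theorem acmb_second {p m N : ℕ} (c : CD p m N) (Lg Ne : Finset c.J)
    (h1 : ∀ a ∈ Lg, ∀ a' ∈ Lg, c.pd.lk a a' = 0) (h2 : ∀ a ∈ Lg, ∀ l ∈ Ne, c.pd.lk a l = 0)
    (h3 : ∀ i, ∃ a ∈ Lg, a.1 = i) : Ne ⊆ Lg := by
  intro l hl
  obtain ⟨a, ha, hal⟩ := h3 l.1
  have hδ : c.pd.θ l - c.pd.θ a = 0 := by
    apply acmb_zero c
    intro i
    obtain ⟨b, hb, rfl⟩ := h3 i
    refine acmb_lk c (acmb_x c hal.symm) (b := b) ?_ ?_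
    · rw [acmb_comm]; exact h2 b hb l hl
    · exact h1 a ha b hb
  have : l = a := acmb_ext c hal.symm (sub_eq_zero.1 hδ)
  rw [this]; exact ha

theorem comb_up {p m N : ℕ} (c : CD p m N) (Lg Ne : Finset c.J)
    (Pw : (Fin m → ZMod p) → Prop)
    (h1 : ∀ a ∈ Lg, ∀ a' ∈ Lg, c.pd.lk a a' = 0) (h2 : ∀ a ∈ Lg, ∀ l ∈ Ne, c.pd.lk a l = 0)
    (h3 : ∀ a ∈ Lg, ∀ a' ∈ Lg, a ≠ a' → c.pd.x a = c.pd.x a' → Pw (c.pd.θ a - c.pd.θ a'))
    (h4 : ∀ θ, θ ≠ 0 → (∃ a ∈ Lg ∪ Ne, dt θ (c.pd.x a) ≠ 0) ∨ ¬ Pw θ) :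
    Lg.card ≤ N ∧ (Lg.card = N → Ne ⊆ Lg) := by
  have hstar : ∀ a ∈ Lg, ∀ a' ∈ Lg, c.pd.x a = c.pd.x a' → c.pd.θ a = c.pd.θ a' := by
    intro a ha a' ha' hx
    by_cases hne : a = a'
    · rw [hne]
    by_contra hθ
    have hδ : c.pd.θ a - c.pd.θ a' ≠ 0 := sub_ne_zero.2 hθ
    rcases h4 _ hδ with ⟨b, hb, hb'⟩ | hP
    · apply hb'
      rcases Finset.mem_union.1 hb with hb | hb
      · exact acmb_lk c hx (h1 a ha b hb) (h1 a' ha' b hb)
      · exact acmb_lk c hx (h2 a ha b hb) (h2 a' ha' b hb)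
    · exact hP (h3 a ha a' ha' hne hx)
  have hinj : Set.InjOn (fun a : c.J => a.1) (Lg : Set c.J) := by
    intro a ha a' ha' haa
    exact acmb_ext c haa (hstar a ha a' ha' (acmb_x c haa))
  have hcard : (Lg.image fun a : c.J => a.1).card = Lg.card := Finset.card_image_of_injOn hinj
  refine ⟨?_, fun hN => ?_⟩
  · rw [← hcard]
    exact (Finset.card_le_univ _).trans (by simp)
  · have huniv : (Lg.image fun a : c.J => a.1) = Finset.univ := by
      apply Finset.eq_univ_of_card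
      rw [hcard, hN]; simp
    refine acmb_second c Lg Ne h1 h2 fun i => ?_
    have : i ∈ Lg.image fun a : c.J => a.1 := by rw [huniv]; exact Finset.mem_univ _
    obtain ⟨a, ha, hai⟩ := Finset.mem_image.1 this
    exact ⟨a, ha, hai⟩

theorem comb_low {p m N : ℕ} (c : CD p m N) (Lg Ne : Finset c.J)
    (h1 : ∀ a ∈ Lg, ∀ a' ∈ Lg, c.pd.lk a a' = 0) (h2 : ∀ a ∈ Lg, ∀ l ∈ Ne, c.pd.lk a l = 0)
    (h3 : ∀ i, ∃ a ∈ Lg, c.blk a = i) :
    (∀ a ∈ Lg, ∀ a' ∈ Lg, c.blk a = c.blk a' → a = a') ∧ Ne ⊆ Lg := by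
  refine ⟨?_, acmb_second c Lg Ne h1 h2 h3⟩
  intro a ha a' ha' hb
  have hb' : a.1 = a'.1 := hb
  apply acmb_ext c hb'
  rw [← sub_eq_zero]
  apply acmb_zero c
  intro i
  obtain ⟨b, hb2, rfl⟩ := h3 i
  exact acmb_lk c (acmb_x c hb') (h1 a ha b hb2) (h1 a' ha' b hb2)

end H63.MA
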