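import Pool.Agent.H63.MA.ADivJ

/-!
# MA-AKSUM: trivial estimates for sums over the large variables

`blk : J → Fin t`; block conditions `∏_{blk a = i} nr (g a) ≤ Y i`; `Lg ⊆ J` large variables, `g a = s a` for `a ∉ Lg`.
* `tn_le`: the number `TN` of terms of `TT` is `≤ C (∏ Y_i) / (∏_{a ∉ Lg} nr (s a)) (1 + log X)^A` for `1 ≤ Y_i ≤ X`: by `af_tup` (`k = 1`) in every
  block (with the bound `Y_i / ∏_{a ∉ Lg, blk a = i} nr (s a)`, there are no terms if this is `< 1`).
* `tn_le_one`: one block (`t = 1`) and `Lg ≠ ∅`: the exponent is `#Lg - 1` (`af_tup_one`).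
* `ks`: fix `a ∈ Lg`. The sum over the other large variables `(g l)_{l ∈ Lg, l ≠ a}` of
  `2^{∑ #(g l)} (Y_i / ∏_{l ≠ a, blk l = i} nr (g l))`, `i = blk a`, with the block conditions for the other blocks and
  `∏_{l ≠ a, blk l = i} nr (g l) ≤ Y_i`, is at most `C (∏ Y_i) / (∏_{l ∉ Lg} nr (s l)) (1 + log X)^A`: in the blocks `≠ i` use `af_tup`
  with `k = 2`, in the block `i` use `∑ ∏ 2^{#(g l)} / nr (g l) ≤ ∏_l ∑_{n ∈ AF X} 2^{#n} / nr n` (`af_pow`).
* `ks2`: the same with two variables `a ≠ a'` left out, in the same block `i` (summand `Y_i / ∏_{l ≠ a,a'}`), or in different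
  blocks `i ≠ i'` (summand `(Y_i / ∏ ...) (Y_{i'} / ∏ ...)`).
In all cases the sums are over all tuples of finite sets of primes in `AF K X`; formulated with `Fintype.piFinset` and the
sets `if a ∈ Lg then AF K X else {s a}`; left out variables are set to `∅` (`nr ∅ = 1`).
-/

set_option autoImplicit false

open scoped NumberField
open IsDedekindDomain
open scoped Classical

noncomputable section

namespace H63.MA

/-- product of the norms in a block -/
def bn {K : Type} [Field K] [NumberField K] {J : Type} [Fintype J] {t : ℕ} (blk : J → Fin t)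
    (i : Fin t) (g : J → Finset (Pl K)) : ℝ :=
  ∏ a ∈ Finset.univ.filter (fun a => blk a = i), nr (g a)

/-- product of the norms of the small variables -/
def sn {K : Type} [Field K] [NumberField K] {J : Type} [Fintype J] (Lg : Finset J)
    (s : J → Finset (Pl K)) : ℝ := ∏ a ∈ Finset.univ.filter (fun a => a ∉ Lg), nr (s a)

/-- all families with the given small part, large part in `AF K X` restricted to the variables in `Lg' ⊆ Lg`
(the variables in `Lg ∖ Lg'` are empty) -/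
def fam (K : Type) [Field K] [NumberField K] {J : Type} [Fintype J] (X : ℝ) (Lg Lg' : Finset J)
    (s : J → Finset (Pl K)) : Finset (J → Finset (Pl K)) :=
  Fintype.piFinset fun a => if a ∈ Lg' then AF K X else if a ∈ Lg then {∅} else {s a}

theorem aks_nr_pos {K : Type} [Field K] [NumberField K] (n : Finset (Pl K)) : 0 < nr n :=
  lt_of_lt_of_le one_pos (one_le_nr n)

theorem aks_bn_pos {K : Type} [Field K] [NumberField K] {J : Type} [Fintype J] {t : ℕ}
    (blk : J → Fin t) (i : Fin t) (g : J → Finset (Pl K)) : 0 < bn blk i g :=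
  Finset.prod_pos fun a _ => aks_nr_pos (g a)

theorem aks_sn_pos {K : Type} [Field K] [NumberField K] {J : Type} [Fintype J] (Lg : Finset J)
    (s : J → Finset (Pl K)) : 0 < sn Lg s :=
  Finset.prod_pos fun a _ => aks_nr_pos (s a)

/-- the weighted sum over a family -/
theorem aks_fam (K : Type) [Field K] [NumberField K] {J : Type} [Fintype J] (X : ℝ)
    (Lg Lg' : Finset J) (hL : Lg' ⊆ Lg) (s : J → Finset (Pl K)) (f : Finset (Pl K) → ℝ) :
    ∑ g ∈ fam K X Lg Lg' s, ∏ a, (if a ∈ Lg' then f (g a) else (nr (g a))⁻¹) =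
      (∑ n ∈ AF K X, f n) ^ Lg'.card * (sn Lg s)⁻¹ := by
  unfold fam
  have h := Finset.prod_univ_sum (fun a => if a ∈ Lg' then AF K X else if a ∈ Lg then {∅} else {s a})
    (fun (a : J) (n : Finset (Pl K)) => if a ∈ Lg' then f n else (nr n)⁻¹)
  rw [← h]
  have h1 : ∀ a : J, ∑ n ∈ (if a ∈ Lg' then AF K X else if a ∈ Lg then {∅} else {s a}),
      (if a ∈ Lg' then f n else (nr n)⁻¹) =
      (if a ∈ Lg' then ∑ n ∈ AF K X, f n else 1) * (if a ∉ Lg then (nr (s a))⁻¹ else 1) := by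
    intro a
    by_cases ha' : a ∈ Lg'
    · have ha := hL ha'
      rw [if_pos ha', if_pos ha', if_neg (not_not.2 ha), mul_one]
      exact Finset.sum_congr rfl fun n _ => if_pos ha'
    · rw [if_neg ha', if_neg ha', one_mul]
      by_cases ha : a ∈ Lg
      · rw [if_pos ha, if_neg (not_not.2 ha), Finset.sum_singleton, if_neg ha']
        unfold nr
        rw [Finset.prod_empty, inv_one]
      · rw [if_neg ha, if_pos ha, Finset.sum_singleton, if_neg ha']
  rw [Finset.prod_congr rfl fun a _ => h1 a, Finset.prod_mul_distrib]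
  congr 1
  · rw [Finset.prod_ite_mem, Finset.univ_inter, Finset.prod_const]
  · unfold sn
    rw [← Finset.prod_inv_distrib, Finset.prod_filter]

/-- all blocks together -/
theorem aks_blk {K : Type} [Field K] [NumberField K] {J : Type} [Fintype J] {t : ℕ}
    (blk : J → Fin t) (Y : Fin t → ℝ) (g : J → Finset (Pl K)) :
    ∏ i, (Y i / bn blk i g) = (∏ i, Y i) * ∏ a, (nr (g a))⁻¹ := by
  rw [Finset.prod_div_distrib]
  unfold bn
  rw [Finset.prod_fiberwise Finset.univ blk (fun a => nr (g a)), div_eq_mul_inv,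
    Finset.prod_inv_distrib]

theorem aks_one {K : Type} [Field K] [NumberField K] {J : Type} [Fintype J] {t : ℕ}
    (blk : J → Fin t) {Y : Fin t → ℝ} {g : J → Finset (Pl K)} (hg : ∀ i, bn blk i g ≤ Y i)
    (i : Fin t) : 1 ≤ Y i / bn blk i g := by
  rw [le_div_iff₀ (aks_bn_pos blk i g), one_mul]
  exact hg i

theorem aks_ge {t : ℕ} (F : Fin t → ℝ) (hF : ∀ i, 1 ≤ F i) (S : Finset (Fin t)) :
    ∏ i ∈ S, F i ≤ ∏ i, F i := by
  rw [← Finset.prod_sdiff (Finset.subset_univ S)]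
  have h1 : 1 ≤ ∏ i ∈ Finset.univ \ S, F i := by
    have := Finset.prod_le_prod (s := Finset.univ \ S) (f := fun _ => (1 : ℝ)) (g := F)
      (fun _ _ => zero_le_one) fun i _ => hF i
    simpa using this
  have h2 : 0 ≤ ∏ i ∈ S, F i := Finset.prod_nonneg fun i _ => zero_le_one.trans (hF i)
  nlinarith

/-- the common estimate -/
theorem aks_main (K : Type) [Field K] [NumberField K] {J : Type} [Fintype J] {t : ℕ}
    (blk : J → Fin t) (k : ℕ) : ∃ C A : ℝ, 0 < C ∧ 0 ≤ A ∧ ∀ (Lg Lg' : Finset J)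
      (s : J → Finset (Pl K)) (Y : Fin t → ℝ) (X : ℝ), Lg' ⊆ Lg → 1 ≤ X →
      (∀ i, 0 < Y i ∧ Y i ≤ X) → ∀ F : (J → Finset (Pl K)) → ℝ,
      (∀ g, (∀ i, bn blk i g ≤ Y i) → F g ≤
        (k : ℝ) ^ (∑ l ∈ Lg', (g l).card) * ∏ i, (Y i / bn blk i g)) →
      ∑ g ∈ (fam K X Lg Lg' s).filter (fun g => ∀ i, bn blk i g ≤ Y i), F g ≤
        C * (∏ i, Y i) / sn Lg s * (1 + Real.log X) ^ A := by
  obtain ⟨C, A, hC, hA, h⟩ := af_pow K k
  refine ⟨(C + 1) ^ Fintype.card J, A * Fintype.card J, by positivity, by positivity, ?_⟩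
  intro Lg Lg' s Y X hL hX hY F hF
  have hlog : 0 ≤ Real.log X := Real.log_nonneg hX
  have hsn := aks_sn_pos Lg s
  have hYp : 0 < ∏ i, Y i := Finset.prod_pos fun i _ => (hY i).1
  have hw : ∀ g : J → Finset (Pl K), (k : ℝ) ^ (∑ l ∈ Lg', (g l).card) * ∏ a, (nr (g a))⁻¹ =
      ∏ a, (if a ∈ Lg' then (k : ℝ) ^ (g a).card * (nr (g a))⁻¹ else (nr (g a))⁻¹) := by
    intro g
    have e1 : ∀ a : J, (if a ∈ Lg' then (k : ℝ) ^ (g a).card * (nr (g a))⁻¹ else (nr (g a))⁻¹) =
        (if a ∈ Lg' then (k : ℝ) ^ (g a).card else 1) * (nr (g a))⁻¹ := by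
      intro a
      split_ifs
      · rfl
      · rw [one_mul]
    rw [Finset.prod_congr rfl fun a _ => e1 a, Finset.prod_mul_distrib, Finset.prod_ite_mem,
      Finset.univ_inter, Finset.prod_pow_eq_pow_sum]
  have h1 : ∑ g ∈ (fam K X Lg Lg' s).filter (fun g => ∀ i, bn blk i g ≤ Y i), F g ≤
      ∑ g ∈ fam K X Lg Lg' s, (k : ℝ) ^ (∑ l ∈ Lg', (g l).card) * ∏ i, (Y i / bn blk i g) := by
    calc _ ≤ ∑ g ∈ (fam K X Lg Lg' s).filter (fun g => ∀ i, bn blk i g ≤ Y i),
          (k : ℝ) ^ (∑ l ∈ Lg', (g l).card) * ∏ i, (Y i / bn blk i g) :=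
          Finset.sum_le_sum fun g hg => hF g (Finset.mem_filter.1 hg).2
      _ ≤ _ := by
          refine Finset.sum_le_sum_of_subset_of_nonneg (Finset.filter_subset _ _) fun g _ _ => ?_
          refine mul_nonneg (by positivity) (Finset.prod_nonneg fun i _ => ?_)
          exact div_nonneg (hY i).1.le (aks_bn_pos blk i g).le
  refine h1.trans ?_
  have h2 : ∑ g ∈ fam K X Lg Lg' s, (k : ℝ) ^ (∑ l ∈ Lg', (g l).card) * ∏ i, (Y i / bn blk i g) =
      (∏ i, Y i) * ((∑ n ∈ AF K X, (k : ℝ) ^ n.card * (nr n)⁻¹) ^ Lg'.card * (sn Lg s)⁻¹) := by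
    rw [← aks_fam K X Lg Lg' hL s, Finset.mul_sum]
    refine Finset.sum_congr rfl fun g _ => ?_
    rw [← hw g, aks_blk]
    ring
  rw [h2]
  obtain ⟨B, hB⟩ : ∃ B : ℝ, B = (C + 1) * (1 + Real.log X) ^ A := ⟨_, rfl⟩
  have hpow1 : 1 ≤ (1 + Real.log X) ^ A := Real.one_le_rpow (by linarith) hA
  have hB1 : 1 ≤ B := by
    rw [hB]
    nlinarith
  have hS : ∑ n ∈ AF K X, (k : ℝ) ^ n.card * (nr n)⁻¹ ≤ B := by
    refine ((h X hX).2).trans ?_
    rw [hB]
    nlinarith
  have hS0 : 0 ≤ ∑ n ∈ AF K X, (k : ℝ) ^ n.card * (nr n)⁻¹ :=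
    Finset.sum_nonneg fun n _ => mul_nonneg (by positivity) (inv_nonneg.2 (aks_nr_pos n).le)
  have h3 : (∑ n ∈ AF K X, (k : ℝ) ^ n.card * (nr n)⁻¹) ^ Lg'.card ≤ B ^ Fintype.card J :=
    (pow_le_pow_left₀ hS0 hS _).trans (pow_le_pow_right₀ hB1 (Finset.card_le_univ Lg'))
  have h4 : B ^ Fintype.card J = (C + 1) ^ Fintype.card J *
      (1 + Real.log X) ^ (A * Fintype.card J) := by
    rw [hB, mul_pow, Real.rpow_mul (by linarith), Real.rpow_natCast]
  calc (∏ i, Y i) * ((∑ n ∈ AF K X, (k : ℝ) ^ n.card * (nr n)⁻¹) ^ Lg'.card * (sn Lg s)⁻¹)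
      ≤ (∏ i, Y i) * (B ^ Fintype.card J * (sn Lg s)⁻¹) := by
        refine mul_le_mul_of_nonneg_left ?_ hYp.le
        exact mul_le_mul_of_nonneg_right h3 (inv_nonneg.2 hsn.le)
    _ = _ := by
        rw [h4]
        ring

theorem tn_le (K : Type) [Field K] [NumberField K] {J : Type} [Fintype J] {t : ℕ}
    (blk : J → Fin t) : ∃ C A : ℝ, 0 < C ∧ 0 ≤ A ∧ ∀ (Lg : Finset J) (s : J → Finset (Pl K))
      (Y : Fin t → ℝ) (X : ℝ), 1 ≤ X → (∀ i, 0 < Y i ∧ Y i ≤ X) →
      (((fam K X Lg Lg s).filter fun g => ∀ i, bn blk i g ≤ Y i).card : ℝ) ≤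
        C * (∏ i, Y i) / sn Lg s * (1 + Real.log X) ^ A := by
  obtain ⟨C, A, hC, hA, h⟩ := aks_main K blk 1
  refine ⟨C, A, hC, hA, fun Lg s Y X hX hY => ?_⟩
  have h1 := h Lg Lg s Y X (Finset.Subset.refl _) hX hY (fun _ => 1) (by
    intro g hg
    have h2 := aks_ge (fun i => Y i / bn blk i g) (aks_one blk hg) ∅
    rw [Finset.prod_empty] at h2
    simpa using h2)
  rwa [Finset.sum_const, nsmul_eq_mul, mul_one] at h1

theorem tn_le_one (K : Type) [Field K] [NumberField K] {J : Type} [Fintype J] :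
    ∃ C : ℝ, 0 < C ∧ ∀ (Lg : Finset J) (s : J → Finset (Pl K)) (Y X : ℝ), 1 ≤ X → 0 < Y → Y ≤ X →
      Lg.Nonempty →
      (((fam K X Lg Lg s).filter fun g => ∏ a, nr (g a) ≤ Y).card : ℝ) ≤
        C * Y / sn Lg s * (1 + Real.log X) ^ (Lg.card - 1) := by
  obtain ⟨C₁, hC₁, h₁⟩ := af_card K
  obtain ⟨C₂, hC₂, h₂⟩ := af_inv K
  refine ⟨C₁ * (C₂ + 1) ^ Fintype.card J, by positivity, ?_⟩
  intro Lg s Y X hX hY hYX hne
  obtain ⟨a₀, ha₀⟩ := hne
  have hlog : 0 ≤ Real.log X := Real.log_nonneg hX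
  have hsn := aks_sn_pos Lg s
  have hnr0 : nr (∅ : Finset (Pl K)) = 1 := by
    unfold nr
    rw [Finset.prod_empty]
  -- fibres
  have hmap : ∀ g ∈ (fam K X Lg Lg s).filter (fun g => ∏ a, nr (g a) ≤ Y),
      Function.update g a₀ ∅ ∈ fam K X Lg (Lg.erase a₀) s := by
    intro g hg
    rw [Finset.mem_filter] at hg
    have hg1 := hg.1
    unfold fam at hg1 ⊢
    rw [Fintype.mem_piFinset] at hg1 ⊢
    intro a
    by_cases haa : a = a₀
    · subst haa
      rw [Function.update_self, if_neg (fun h => (Finset.mem_erase.1 h).1 rfl), if_pos ha₀]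
      exact Finset.mem_singleton_self _
    · rw [Function.update_of_ne haa]
      have h3 := hg1 a
      by_cases haL : a ∈ Lg
      · rw [if_pos haL] at h3
        rw [if_pos (Finset.mem_erase.2 ⟨haa, haL⟩)]
        exact h3
      · rw [if_neg haL, if_neg haL] at h3
        rw [if_neg (fun h => haL (Finset.mem_of_mem_erase h)), if_neg haL]
        exact h3
  rw [Finset.card_eq_sum_card_fiberwise hmap]
  push_cast
  have hfib : ∀ g' ∈ fam K X Lg (Lg.erase a₀) s,
      (((Finset.filter (fun g => Function.update g a₀ ∅ = g')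
        ((fam K X Lg Lg s).filter (fun g => ∏ a, nr (g a) ≤ Y))).card : ℕ) : ℝ) ≤
      C₁ * Y * ∏ a, (nr (g' a))⁻¹ := by
    intro g' hg'
    have hg'0 : g' a₀ = ∅ := by
      unfold fam at hg'
      rw [Fintype.mem_piFinset] at hg'
      have h3 := hg' a₀
      rw [if_neg (fun h => (Finset.mem_erase.1 h).1 rfl), if_pos ha₀, Finset.mem_singleton] at h3
      exact h3
    obtain ⟨P, hP⟩ : ∃ P : ℝ, P = ∏ a, nr (g' a) := ⟨_, rfl⟩
    have hP0 : 0 < P := by
      rw [hP]
      exact Finset.prod_pos fun a _ => aks_nr_pos (g' a)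
    have hPP : ∏ a, (nr (g' a))⁻¹ = P⁻¹ := by
      rw [hP, Finset.prod_inv_distrib]
    have hprod : ∀ g : J → Finset (Pl K), Function.update g a₀ ∅ = g' →
        ∏ a, nr (g a) = nr (g a₀) * P := by
      intro g hg
      rw [hP, ← hg, ← Finset.mul_prod_erase Finset.univ _ (Finset.mem_univ a₀),
        ← Finset.mul_prod_erase Finset.univ (fun a => nr (Function.update g a₀ ∅ a))
          (Finset.mem_univ a₀), Function.update_self, hnr0, one_mul]
      congr 1
      refine Finset.prod_congr rfl fun a ha => ?_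
      rw [Function.update_of_ne (Finset.ne_of_mem_erase ha)]
    rw [hPP]
    rcases le_or_gt P Y with hPY | hPY
    · have hle : (Finset.filter (fun g => Function.update g a₀ ∅ = g')
          ((fam K X Lg Lg s).filter (fun g => ∏ a, nr (g a) ≤ Y))).card ≤ (AF K (Y / P)).card := by
        refine Finset.card_le_card_of_injOn (fun g => g a₀) ?_ ?_
        · intro g hg
          rw [Finset.mem_coe, Finset.mem_filter, Finset.mem_filter] at hg
          rw [Finset.mem_coe, mem_AF, le_div_iff₀ hP0, ← hprod g hg.2]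
          exact hg.1.2
        · intro g hg g1 hg1 he
          rw [Finset.mem_coe, Finset.mem_filter] at hg hg1
          have he' : g a₀ = g1 a₀ := he
          have h3 := hg.2.trans hg1.2.symm
          funext a
          by_cases haa : a = a₀
          · rw [haa, he']
          · have h4 := congrFun h3 a
            rwa [Function.update_of_ne haa, Function.update_of_ne haa] at h4
      have h5 := h₁ (Y / P) ((one_le_div hP0).2 hPY)
      have h6 : (((Finset.filter (fun g => Function.update g a₀ ∅ = g')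
          ((fam K X Lg Lg s).filter (fun g => ∏ a, nr (g a) ≤ Y))).card : ℕ) : ℝ) ≤
          ((AF K (Y / P)).card : ℝ) := by exact_mod_cast hle
      refine h6.trans (h5.trans (le_of_eq ?_))
      rw [div_eq_mul_inv]
      ring
    · have hempty : Finset.filter (fun g => Function.update g a₀ ∅ = g')
          ((fam K X Lg Lg s).filter (fun g => ∏ a, nr (g a) ≤ Y)) = ∅ := by
        rw [Finset.eq_empty_iff_forall_notMem]
        intro g hg
        rw [Finset.mem_filter, Finset.mem_filter] at hg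
        have h3 := hg.1.2
        rw [hprod g hg.2] at h3
        have h4 := one_le_nr (g a₀)
        nlinarith
      rw [hempty, Finset.card_empty, Nat.cast_zero]
      positivity
  refine (Finset.sum_le_sum hfib).trans ?_
  rw [← Finset.mul_sum]
  have hsum := aks_fam K X Lg (Lg.erase a₀) (Finset.erase_subset _ _) s (fun n => (nr n)⁻¹)
  simp only [ite_self] at hsum
  rw [hsum, Finset.card_erase_of_mem ha₀]
  have hS := h₂ X hX
  have hS0 : 0 ≤ ∑ n ∈ AF K X, (nr n)⁻¹ :=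
    Finset.sum_nonneg fun n _ => inv_nonneg.2 (aks_nr_pos n).le
  have hS2 : ∑ n ∈ AF K X, (nr n)⁻¹ ≤ (C₂ + 1) * (1 + Real.log X) := by nlinarith
  have h7 : (∑ n ∈ AF K X, (nr n)⁻¹) ^ (Lg.card - 1) ≤
      (C₂ + 1) ^ Fintype.card J * (1 + Real.log X) ^ (Lg.card - 1) := by
    calc (∑ n ∈ AF K X, (nr n)⁻¹) ^ (Lg.card - 1)
        ≤ ((C₂ + 1) * (1 + Real.log X)) ^ (Lg.card - 1) := pow_le_pow_left₀ hS0 hS2 _
      _ = (C₂ + 1) ^ (Lg.card - 1) * (1 + Real.log X) ^ (Lg.card - 1) := mul_pow _ _ _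
      _ ≤ _ := by
          refine mul_le_mul_of_nonneg_right ?_ (pow_nonneg (by linarith) _)
          refine pow_le_pow_right₀ (by linarith) ?_
          have := Finset.card_le_univ Lg
          omega
  calc C₁ * Y * ((∑ n ∈ AF K X, (nr n)⁻¹) ^ (Lg.card - 1) * (sn Lg s)⁻¹)
      ≤ C₁ * Y * ((C₂ + 1) ^ Fintype.card J * (1 + Real.log X) ^ (Lg.card - 1) * (sn Lg s)⁻¹) := by
        refine mul_le_mul_of_nonneg_left ?_ (by positivity)
        exact mul_le_mul_of_nonneg_right h7 (inv_nonneg.2 hsn.le)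
    _ = _ := by
        rw [div_eq_mul_inv]
        ring

theorem ks (K : Type) [Field K] [NumberField K] {J : Type} [Fintype J] {t : ℕ}
    (blk : J → Fin t) : ∃ C A : ℝ, 0 < C ∧ 0 ≤ A ∧ ∀ (Lg : Finset J) (s : J → Finset (Pl K))
      (Y : Fin t → ℝ) (X : ℝ), 1 ≤ X → (∀ i, 0 < Y i ∧ Y i ≤ X) → ∀ a ∈ Lg,
      ∑ g ∈ (fam K X Lg (Lg.erase a) s).filter (fun g => ∀ i, bn blk i g ≤ Y i),
        (2 : ℝ) ^ (∑ l ∈ Lg.erase a, (g l).card) * (Y (blk a) / bn blk (blk a) g) ≤
        C * (∏ i, Y i) / sn Lg s * (1 + Real.log X) ^ A := by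
  obtain ⟨C, A, hC, hA, h⟩ := aks_main K blk 2
  refine ⟨C, A, hC, hA, fun Lg s Y X hX hY a ha => ?_⟩
  refine h Lg (Lg.erase a) s Y X (Finset.erase_subset _ _) hX hY _ ?_
  intro g hg
  have h2 := aks_ge (fun i => Y i / bn blk i g) (aks_one blk hg) {blk a}
  rw [Finset.prod_singleton] at h2
  have h3 : (0 : ℝ) ≤ (2 : ℝ) ^ (∑ l ∈ Lg.erase a, (g l).card) := by positivity
  have h4 := mul_le_mul_of_nonneg_left h2 h3
  exact_mod_cast h4

theorem ks2_same (K : Type) [Field K] [NumberField K] {J : Type} [Fintype J] {t : ℕ}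
    (blk : J → Fin t) : ∃ C A : ℝ, 0 < C ∧ 0 ≤ A ∧ ∀ (Lg : Finset J) (s : J → Finset (Pl K))
      (Y : Fin t → ℝ) (X : ℝ), 1 ≤ X → (∀ i, 0 < Y i ∧ Y i ≤ X) → ∀ a ∈ Lg, ∀ a' ∈ Lg, a ≠ a' →
      blk a = blk a' →
      ∑ g ∈ (fam K X Lg ((Lg.erase a).erase a') s).filter (fun g => ∀ i, bn blk i g ≤ Y i),
        (Y (blk a) / bn blk (blk a) g) ≤
        C * (∏ i, Y i) / sn Lg s * (1 + Real.log X) ^ A := by
  obtain ⟨C, A, hC, hA, h⟩ := aks_main K blk 1
  refine ⟨C, A, hC, hA, fun Lg s Y X hX hY a ha a' ha' _ _ => ?_⟩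
  refine h Lg ((Lg.erase a).erase a') s Y X
    ((Finset.erase_subset _ _).trans (Finset.erase_subset _ _)) hX hY _ ?_
  intro g hg
  have h2 := aks_ge (fun i => Y i / bn blk i g) (aks_one blk hg) {blk a}
  rw [Finset.prod_singleton] at h2
  simpa using h2

theorem ks2_diff (K : Type) [Field K] [NumberField K] {J : Type} [Fintype J] {t : ℕ}
    (blk : J → Fin t) : ∃ C A : ℝ, 0 < C ∧ 0 ≤ A ∧ ∀ (Lg : Finset J) (s : J → Finset (Pl K))
      (Y : Fin t → ℝ) (X : ℝ), 1 ≤ X → (∀ i, 0 < Y i ∧ Y i ≤ X) → ∀ a ∈ Lg, ∀ a' ∈ Lg,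
      blk a ≠ blk a' →
      ∑ g ∈ (fam K X Lg ((Lg.erase a).erase a') s).filter (fun g => ∀ i, bn blk i g ≤ Y i),
        (Y (blk a) / bn blk (blk a) g) * (Y (blk a') / bn blk (blk a') g) ≤
        C * (∏ i, Y i) / sn Lg s * (1 + Real.log X) ^ A := by
  obtain ⟨C, A, hC, hA, h⟩ := aks_main K blk 1
  refine ⟨C, A, hC, hA, fun Lg s Y X hX hY a ha a' ha' hne => ?_⟩
  refine h Lg ((Lg.erase a).erase a') s Y X
    ((Finset.erase_subset _ _).trans (Finset.erase_subset _ _)) hX hY _ ?_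
  intro g hg
  have h2 := aks_ge (fun i => Y i / bn blk i g) (aks_one blk hg) {blk a, blk a'}
  rw [Finset.prod_pair hne] at h2
  simpa using h2

end H63.MA
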