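import Pool.Agent.H63.MA.APh
import Pool.Agent.H63.MA.AKSum

/-!
# MA-AKB: a large variable linked to a small one
`|TT|` is small if the large variables are pairwise unlinked, but a large variable is linked to a nonempty small one.
Proof. Let `a ∈ Lg`, `l₀ ∉ Lg`, `s l₀ ≠ ∅`, `lk a l₀ ≠ 0`. If the `s l` are not pairwise disjoint `TT = 0`. Fix the other large variables.
By `ph_one` the phase as a function of `n = g a` is `c + ∑_{v ∈ n} fE E' μ κ v` with `E' = E ∪ ⋃_{l ∉ Lg} s l`,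
`μ w = lam w * dord b (θ a) w` on `E`, `μ w = lk a l` on `s l` (`l ∉ Lg`; the sets are pairwise disjoint since `E` contains no good
primes), because `lk a l = 0` for `l ∈ Lg`. `μ` is not zero on `s l₀`. Apply `lemA` with `F = E' ∪ ⋃_{l ∈ Lg, l ≠ a} g l`, `H` = `h` as a
function of the class of `n`, for `y = Y_i / bn` (`i = blk a`; product of the other norms in the block) and for `y = z₂` (difference; if
`Y_i / bn < z₂` there are no terms): `≤ C (nr E')^A 2^{#F} (Y_i/bn) z₂^{-δ}`, and `nr E' ≤ z₁^{#J + 1}`, `2^{#E'} ≤ nr E'`. Sum over the other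
large variables by `ks`: total `≤ C z₁^{A''} z₂^{-δ} (∏ Y)/sn (1 + log X)^{A'''}`. Take `B₁` large: `z₂^{δ/2} ≥ z₁^{A''}`,
`z₂^{δ/2} ≥ (log X)^{A''' + A + 1}`.
-/

set_option autoImplicit false

open scoped NumberField
open IsDedekindDomain
open scoped Classical

noncomputable section

namespace H63.MA

/-- the numerical part -/
theorem akb_num (C M A' δ A : ℝ) (hC : 0 < C) (hM : 0 ≤ M) (hA' : 0 ≤ A') (hδ : 0 < δ) :
    ∃ (B₁ : ℕ) (X₀ : ℝ), 3 ≤ X₀ ∧ ∀ (X z₁ z₂ : ℝ), X₀ ≤ X → 1 ≤ z₁ → z₁ ^ B₁ ≤ z₂ →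
      Real.log X ^ B₁ ≤ z₂ →
      C * z₁ ^ M * z₂ ^ (-δ) * (1 + Real.log X) ^ A' ≤ Real.log X ^ (-A) := by
  obtain ⟨B₁, hB₁⟩ : ∃ B₁ : ℕ, 2 / δ * (M + A' + |A| + 1) ≤ B₁ := exists_nat_ge _
  refine ⟨B₁, max 3 (Real.exp (C * 2 ^ A')), le_max_left _ _, ?_⟩
  intro X z₁ z₂ hX hz₁ h1 h2
  have hX3 : 3 ≤ X := (le_max_left _ _).trans hX
  have hXe : Real.exp (C * 2 ^ A') ≤ X := (le_max_right _ _).trans hX
  have hX0 : 0 < X := by linarith
  have hL1 : 1 ≤ Real.log X := by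
    rw [Real.le_log_iff_exp_le hX0]
    linarith [Real.exp_one_lt_d9]
  have hLC : C * 2 ^ A' ≤ Real.log X := by
    rw [Real.le_log_iff_exp_le hX0]
    exact hXe
  obtain ⟨L, hL⟩ : ∃ L, L = Real.log X := ⟨_, rfl⟩
  rw [← hL] at hL1 hLC h2 ⊢
  have hL0 : 0 < L := by linarith
  have hz₂ : 1 ≤ z₂ := (one_le_pow₀ hz₁).trans h1
  have hA := abs_nonneg A
  have hBδ : M + A' + |A| + 1 ≤ B₁ * (δ / 2) := by
    have := mul_le_mul_of_nonneg_right hB₁ (by positivity : 0 ≤ δ / 2)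
    have e : 2 / δ * (M + A' + |A| + 1) * (δ / 2) = M + A' + |A| + 1 := by field_simp
    linarith
  have e1 : z₁ ^ M ≤ z₂ ^ (δ / 2) := by
    calc z₁ ^ M ≤ z₁ ^ ((B₁ : ℝ) * (δ / 2)) :=
          Real.rpow_le_rpow_of_exponent_le hz₁ (by linarith)
      _ = (z₁ ^ B₁) ^ (δ / 2) := by rw [Real.rpow_mul (by linarith), Real.rpow_natCast]
      _ ≤ z₂ ^ (δ / 2) := Real.rpow_le_rpow (by positivity) h1 (by positivity)
  have e2 : L ^ (A' + |A| + 1) ≤ z₂ ^ (δ / 2) := by
    calc L ^ (A' + |A| + 1) ≤ L ^ ((B₁ : ℝ) * (δ / 2)) :=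
          Real.rpow_le_rpow_of_exponent_le hL1 (by linarith)
      _ = (L ^ B₁) ^ (δ / 2) := by rw [Real.rpow_mul (by linarith), Real.rpow_natCast]
      _ ≤ z₂ ^ (δ / 2) := Real.rpow_le_rpow (by positivity) h2 (by positivity)
  have e3 : C * (1 + L) ^ A' ≤ L ^ (A' + 1) := by
    calc C * (1 + L) ^ A' ≤ C * (2 * L) ^ A' := by
          apply mul_le_mul_of_nonneg_left _ hC.le
          exact Real.rpow_le_rpow (by linarith) (by linarith) hA'
      _ = (C * 2 ^ A') * L ^ A' := by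
          rw [Real.mul_rpow (by norm_num) hL0.le]
          ring
      _ ≤ L * L ^ A' := mul_le_mul_of_nonneg_right hLC (Real.rpow_nonneg hL0.le _)
      _ = L ^ (A' + 1) := by
          rw [Real.rpow_add hL0, Real.rpow_one]
          ring
  have e4 : L ^ (A' + 1) ≤ z₂ ^ (δ / 2) * L ^ (-A) := by
    have e : L ^ (A' + 1) = L ^ (A' + |A| + 1) * L ^ (-|A|) := by
      rw [← Real.rpow_add hL0]
      congr 1
      ring
    rw [e]
    apply mul_le_mul e2 (Real.rpow_le_rpow_of_exponent_le hL1 (neg_le_neg (le_abs_self A)))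
      (Real.rpow_nonneg hL0.le _) (Real.rpow_nonneg (by linarith) _)
  have hz0 : 0 < z₂ := by linarith
  have p1 : 0 ≤ z₂ ^ (δ / 2) := Real.rpow_nonneg hz0.le _
  have p2 : 0 ≤ z₂ ^ (-δ) := Real.rpow_nonneg hz0.le _
  have p3 : 0 ≤ C * (1 + L) ^ A' := mul_nonneg hC.le (Real.rpow_nonneg (by linarith) _)
  calc C * z₁ ^ M * z₂ ^ (-δ) * (1 + L) ^ A' = z₁ ^ M * (C * (1 + L) ^ A') * z₂ ^ (-δ) := by ring
    _ ≤ z₂ ^ (δ / 2) * (z₂ ^ (δ / 2) * L ^ (-A)) * z₂ ^ (-δ) := by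
        apply mul_le_mul_of_nonneg_right _ p2
        exact mul_le_mul e1 (e3.trans e4) p3 p1
    _ = z₂ ^ (δ / 2 + δ / 2 + -δ) * L ^ (-A) := by
        rw [Real.rpow_add hz0, Real.rpow_add hz0]
        ring
    _ = L ^ (-A) := by
        rw [show δ / 2 + δ / 2 + -δ = 0 by ring, Real.rpow_zero, one_mul]

theorem akb_split {J T : Type} [Fintype J] (t : J → Finset T) (a : J) (e : T)
    (f : (J → T) → ℂ) :
    ∑ g ∈ Fintype.piFinset t, f g =
      ∑ g' ∈ Fintype.piFinset (Function.update t a {e}), ∑ n ∈ t a,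
        f (Function.update g' a n) := by
  rw [← Finset.sum_product' (f := fun g' n => f (Function.update g' a n))]
  symm
  refine Finset.sum_nbij' (fun x => Function.update x.1 a x.2)
    (fun g => (Function.update g a e, g a)) ?_ ?_ ?_ ?_ ?_
  · intro x hx
    rw [Finset.mem_product, Fintype.mem_piFinset] at hx
    rw [Fintype.mem_piFinset]
    intro l
    by_cases hl : l = a
    · rw [hl, Function.update_self]
      exact hx.2
    · rw [Function.update_of_ne hl]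
      have := hx.1 l
      rwa [Function.update_of_ne hl] at this
  · intro g hg
    rw [Fintype.mem_piFinset] at hg
    rw [Finset.mem_product, Fintype.mem_piFinset]
    refine ⟨fun l => ?_, hg a⟩
    change Function.update g a e l ∈ Function.update t a {e} l
    by_cases hl : l = a
    · rw [hl, Function.update_self, Function.update_self]
      exact Finset.mem_singleton_self e
    · rw [Function.update_of_ne hl, Function.update_of_ne hl]
      exact hg l
  · intro x hx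
    rw [Finset.mem_product, Fintype.mem_piFinset] at hx
    have h1 := hx.1 a
    rw [Function.update_self, Finset.mem_singleton] at h1
    apply Prod.ext
    · show Function.update (Function.update x.1 a x.2) a e = x.1
      rw [Function.update_idem, ← h1, Function.update_eq_self]
    · show (Function.update x.1 a x.2) a = x.2
      rw [Function.update_self]
  · intro g _
    show Function.update (Function.update g a e) a (g a) = g
    rw [Function.update_idem, Function.update_eq_self]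
  · intro x _
    rfl

section

variable {K : Type} [Field K] [NumberField K]

theorem akb_nr_pos (n : Finset (Pl K)) : 0 < nr n := lt_of_lt_of_le one_pos (one_le_nr n)

theorem akb_nr_union (n n' : Finset (Pl K)) : nr (n ∪ n') ≤ nr n * nr n' := by
  have h1 : n ∪ n' = n ∪ (n' \ n) := by rw [Finset.union_sdiff_self_eq_union]
  rw [h1, nr_union Finset.disjoint_sdiff]
  exact mul_le_mul_of_nonneg_left (nr_mono Finset.sdiff_subset) (akb_nr_pos n).le

theorem akb_nr_biUnion {J : Type} (T : Finset J) (s : J → Finset (Pl K)) (z : ℝ) (hz : 1 ≤ z)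
    (h : ∀ l ∈ T, nr (s l) ≤ z) : nr (T.biUnion s) ≤ z ^ T.card := by
  induction T using Finset.induction_on with
  | empty =>
    rw [Finset.biUnion_empty, Finset.card_empty, pow_zero]
    unfold nr
    rw [Finset.prod_empty]
  | insert l T hl ih =>
    rw [Finset.biUnion_insert, Finset.card_insert_of_notMem hl, pow_succ]
    calc nr (s l ∪ T.biUnion s) ≤ nr (s l) * nr (T.biUnion s) := akb_nr_union _ _
      _ ≤ z * z ^ T.card := mul_le_mul (h l (Finset.mem_insert_self _ _))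
          (ih fun l' hl' => h l' (Finset.mem_insert_of_mem hl')) (akb_nr_pos _).le (by linarith)
      _ = _ := by ring

theorem akb_mem_GF {p : ℕ} {ζ : K} (D : RD0 K p ζ) {y : ℝ} {n : Finset (Pl K)} :
    n ∈ GF D y ↔ nr n ≤ y ∧ ∀ v ∈ n, D.Gd v := by
  unfold GF
  rw [Finset.mem_filter, mem_AF]

theorem akb_one_le_bn {J : Type} [Fintype J] {t : ℕ} (blk : J → Fin t) (i : Fin t)
    (g : J → Finset (Pl K)) : 1 ≤ bn blk i g := by
  unfold bn
  calc (1 : ℝ) = ∏ _a ∈ Finset.univ.filter (fun a => blk a = i), (1 : ℝ) := by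
        rw [Finset.prod_const_one]
    _ ≤ _ := Finset.prod_le_prod (fun _ _ => zero_le_one) fun l _ => one_le_nr _

theorem akb_bn_same {J : Type} [Fintype J] {t : ℕ} (blk : J → Fin t) (a : J)
    (g : J → Finset (Pl K)) (hg : g a = ∅) (n : Finset (Pl K)) :
    bn blk (blk a) (Function.update g a n) = nr n * bn blk (blk a) g := by
  unfold bn
  have ha : a ∈ Finset.univ.filter (fun l => blk l = blk a) := by
    rw [Finset.mem_filter]
    exact ⟨Finset.mem_univ a, rfl⟩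
  rw [← Finset.mul_prod_erase _ _ ha, ← Finset.mul_prod_erase _ (fun l => nr (g l)) ha,
    Function.update_self, hg]
  have h0 : nr (∅ : Finset (Pl K)) = 1 := by
    unfold nr
    rw [Finset.prod_empty]
  rw [h0, one_mul]
  congr 1
  apply Finset.prod_congr rfl
  intro l hl
  rw [Function.update_of_ne (Finset.ne_of_mem_erase hl)]

theorem akb_bn_ne {J : Type} [Fintype J] {t : ℕ} (blk : J → Fin t) (a : J) (i : Fin t)
    (hi : i ≠ blk a) (g : J → Finset (Pl K)) (n : Finset (Pl K)) :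
    bn blk i (Function.update g a n) = bn blk i g := by
  unfold bn
  apply Finset.prod_congr rfl
  intro l hl
  rw [Finset.mem_filter] at hl
  have : l ≠ a := by
    rintro rfl
    exact hi hl.2.symm
  rw [Function.update_of_ne this]

end

/-- the set of the small primes -/
def akbE {K : Type} [Field K] [NumberField K] {J : Type} [Fintype J] (E : Finset (Pl K))
    (Lg : Finset J) (s : J → Finset (Pl K)) : Finset (Pl K) :=
  E ∪ (Finset.univ.filter fun l => l ∉ Lg).biUnion s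

/-- the estimate of `lemA` -/
def AkbLem {K : Type} [Field K] [NumberField K] {p : ℕ} {ζ : K} (D : RD K p ζ) (C A δ : ℝ) :
    Prop :=
  ∀ (E F : Finset (Pl K)) (μ : Pl K → ZMod p)
      (κ : Fin D.r → ZMod p) (H : (Fin D.r → ZMod p) → ℂ), (∀ w ∈ E, w ∉ D.S0) → E ⊆ F →
        (∀ q, ‖H q‖ ≤ 1) → ((∃ w ∈ E, μ w ≠ 0) ∨ ((∀ q, H q = 1) ∧ κ ≠ 0)) → ∀ y : ℝ, 1 ≤ y →
          ‖∑ n ∈ (GF D.toRD0 y).filter (fun n => Disjoint n F),
            H (qf D.toRD0 n) * ep p (∑ v ∈ n, fE D.toRD0 E μ κ v)‖ ≤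
          C * (nr E) ^ A * 2 ^ F.card * y ^ (1 - δ)

/-- the phase as a function of one large variable -/
def AkbPhase {K : Type} [Field K] [NumberField K] {p : ℕ} {ζ : K} {J : Type} [Fintype J]
    (D : RD K p ζ) (E : Finset (Pl K)) (Lg : Finset J) (s : J → Finset (Pl K)) (a : J)
    (Ψ : (J → Finset (Pl K)) → ℂ) (g : J → Finset (Pl K)) : Prop :=
  Adm D.toRD0 g → ∃ (μ : Pl K → ZMod p) (κ : Fin D.r → ZMod p)
    (H : (Fin D.r → ZMod p) → ℂ) (c : ZMod p), (∀ q, ‖H q‖ ≤ 1) ∧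
    ((∃ w ∈ akbE E Lg s, μ w ≠ 0) ∨ ((∀ q, H q = 1) ∧ κ ≠ 0)) ∧
    ∀ n : Finset (Pl K), Adm D.toRD0 (Function.update g a n) →
      Ψ (Function.update g a n) =
        ep p c * (H (qf D.toRD0 n) * ep p (∑ v ∈ n, fE D.toRD0 (akbE E Lg s) μ κ v))

theorem akb_core {K : Type} [Field K] [NumberField K] {p : ℕ} {ζ : K} {m t : ℕ} {J : Type}
    [Fintype J] (D : RD K p ζ)
    (blk : J → Fin t) (C A δ : ℝ) (hC : 0 < C) (hA : 0 ≤ A) (hδ : 0 < δ) (hδ1 : δ < 1)
    (hlem : AkbLem D C A δ)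
    (X z₁ z₂ : ℝ) (hz₁ : 1 ≤ z₁) (hz₂ : 1 ≤ z₂) (Y : Fin t → ℝ) (hY : ∀ i, 0 < Y i ∧ Y i ≤ X)
    (b : Fin m → Kˣ) (E : Finset (Pl K)) (hb : BSup D.toRD0 b E) (hE : nr E ≤ z₁)
    (Lg : Finset J) (s : J → Finset (Pl K))
    (hs : ∀ l, l ∉ Lg → (∀ v ∈ s l, D.Gd v) ∧ nr (s l) ≤ z₁)
    (Ψ : (J → Finset (Pl K)) → ℂ) (a : J) (ha : a ∈ Lg)
    (g : J → Finset (Pl K)) (hga : g a = ∅)
    (hgs : ∀ l, l ∉ Lg → g l = s l) (hgL : ∀ l ∈ Lg, l ≠ a → g l ∈ GF D.toRD0 X)
    (hΨ : AkbPhase D E Lg s a Ψ g) :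
    ‖∑ n ∈ GF D.toRD0 X, if Cond blk Y Lg z₂ (Function.update g a n) then
      Ψ (Function.update g a n) else 0‖ ≤
    2 * C * z₁ ^ (((Fintype.card J : ℝ) + 1) * (A + 1)) * z₂ ^ (-δ) *
      (if ∀ i, bn blk i g ≤ Y i then
        (2 : ℝ) ^ (∑ l ∈ Lg.erase a, (g l).card) * (Y (blk a) / bn blk (blk a) g) else 0) := by
  have hbn0 : ∀ i, 0 < bn blk i g := fun i => lt_of_lt_of_le one_pos (akb_one_le_bn blk i g)
  by_cases hex : ∃ n₀ ∈ GF D.toRD0 X, Cond blk Y Lg z₂ (Function.update g a n₀)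
  swap
  · have h0 : ∑ n ∈ GF D.toRD0 X, (if Cond blk Y Lg z₂ (Function.update g a n) then
        Ψ (Function.update g a n) else 0) = 0 := by
      apply Finset.sum_eq_zero
      intro n hn
      rw [if_neg]
      intro hc
      exact hex ⟨n, hn, hc⟩
    rw [h0, norm_zero]
    have hd : 0 ≤ Y (blk a) / bn blk (blk a) g := div_nonneg (hY _).1.le (hbn0 _).le
    split_ifs
    · positivity
    · rw [mul_zero]
  obtain ⟨n₀, hn₀, c1, c2, c3⟩ := hex
  have hupd : ∀ l, l ≠ a → ∀ n, Function.update g a n l = g l := fun l hl n =>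
    Function.update_of_ne hl n g
  have hdis : ∀ l l', l ≠ l' → Disjoint (g l) (g l') := by
    intro l l' hll
    by_cases hl : l = a
    · rw [hl, hga]
      exact Finset.disjoint_empty_left _
    · by_cases hl' : l' = a
      · rw [hl', hga]
        exact Finset.disjoint_empty_right _
      · have := c1 l l' hll
        rwa [hupd l hl, hupd l' hl'] at this
  have hGd : ∀ l, ∀ v ∈ g l, D.Gd v := by
    intro l v hv
    by_cases hl : l ∈ Lg
    · by_cases hla : l = a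
      · rw [hla, hga] at hv
        exact absurd hv (Finset.notMem_empty v)
      · exact ((akb_mem_GF D.toRD0).1 (hgL l hl hla)).2 v hv
    · rw [hgs l hl] at hv
      exact (hs l hl).1 v hv
  have hadm : Adm D.toRD0 g := ⟨hGd, hdis⟩
  have hbnY : ∀ i, bn blk i g ≤ Y i := by
    intro i
    have h1 : bn blk i (Function.update g a n₀) ≤ Y i := c3 i
    by_cases hi : i = blk a
    · rw [hi] at h1 ⊢
      rw [akb_bn_same blk a g hga] at h1
      have h2 := one_le_nr n₀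
      have h3 := hbn0 (blk a)
      nlinarith
    · rwa [akb_bn_ne blk a i hi] at h1
  rw [if_pos hbnY]
  obtain ⟨y, hy⟩ : ∃ y, y = Y (blk a) / bn blk (blk a) g := ⟨_, rfl⟩
  have hyiff : ∀ n : Finset (Pl K), nr n * bn blk (blk a) g ≤ Y (blk a) ↔ nr n ≤ y := by
    intro n
    rw [hy, le_div_iff₀ (hbn0 _)]
  have hn₀y : nr n₀ ≤ y := by
    rw [← hyiff, ← akb_bn_same blk a g hga]
    exact c3 (blk a)
  have hzy : z₂ < y := by
    have h1 := c2 a ha
    rw [Function.update_self] at h1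
    linarith
  have hy1 : 1 ≤ y := by linarith
  have hyX : y ≤ X := by
    rw [hy]
    exact (div_le_self (hY _).1.le (akb_one_le_bn blk _ g)).trans (hY _).2
  rw [← hy]
  obtain ⟨μ, κ, H, c, hHn, hne, hph⟩ := hΨ hadm
  obtain ⟨nL, hnL⟩ : ∃ nL : Finset J, nL = Finset.univ.filter (fun l => l ∉ Lg) := ⟨_, rfl⟩
  have hmL : ∀ l, l ∈ nL ↔ l ∉ Lg := by
    intro l
    rw [hnL, Finset.mem_filter]
    exact ⟨fun h => h.2, fun h => ⟨Finset.mem_univ _, h⟩⟩
  obtain ⟨E', hE'⟩ : ∃ E' : Finset (Pl K), E' = E ∪ nL.biUnion s := ⟨_, rfl⟩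
  have hakE : akbE E Lg s = E' := by
    rw [hE', hnL]
    rfl
  rw [hakE] at hne hph
  obtain ⟨F, hF⟩ : ∃ F : Finset (Pl K), F = E' ∪ (Lg.erase a).biUnion g := ⟨_, rfl⟩
  have hE'S : ∀ w ∈ E', w ∉ D.S0 := by
    intro w hw
    rw [hE', Finset.mem_union] at hw
    rcases hw with hw | hw
    · exact (hb.1 w hw).1
    · obtain ⟨l, hl, hwl⟩ := Finset.mem_biUnion.1 hw
      exact ((hs l ((hmL l).1 hl)).1 w hwl).1
  have hlem' := hlem E' F μ κ H hE'S (by rw [hF]; exact Finset.subset_union_left) hHn hne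
  -- the conditions
  have hcond : ∀ n ∈ GF D.toRD0 X, Cond blk Y Lg z₂ (Function.update g a n) ↔
      (Disjoint n F ∧ z₂ < nr n ∧ nr n ≤ y) := by
    intro n hn
    rw [akb_mem_GF] at hn
    constructor
    · rintro ⟨d1, d2, d3⟩
      have dn : ∀ l, l ≠ a → Disjoint n (g l) := by
        intro l hl
        have := d1 a l hl.symm
        rwa [Function.update_self, hupd l hl] at this
      refine ⟨?_, ?_, ?_⟩
      · rw [hF, hE', Finset.disjoint_union_right, Finset.disjoint_union_right]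
        refine ⟨⟨?_, ?_⟩, ?_⟩
        · rw [Finset.disjoint_left]
          intro v hv hvE
          exact (hb.1 v hvE).2 (hn.2 v hv)
        · rw [Finset.disjoint_biUnion_right]
          intro l hl
          have hl' := (hmL l).1 hl
          rw [← hgs l hl']
          apply dn
          rintro rfl
          exact hl' ha
        · rw [Finset.disjoint_biUnion_right]
          intro l hl
          exact dn l (Finset.ne_of_mem_erase hl)
      · have := d2 a ha
        rwa [Function.update_self] at this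
      · rw [← hyiff, ← akb_bn_same blk a g hga]
        exact d3 (blk a)
    · rintro ⟨d1, d2, d3⟩
      rw [hF, hE', Finset.disjoint_union_right, Finset.disjoint_union_right] at d1
      obtain ⟨⟨_, d4⟩, d5⟩ := d1
      rw [Finset.disjoint_biUnion_right] at d4 d5
      have dn : ∀ l, l ≠ a → Disjoint n (g l) := by
        intro l hl
        by_cases hlL : l ∈ Lg
        · exact d5 l (Finset.mem_erase.2 ⟨hl, hlL⟩)
        · rw [hgs l hlL]
          exact d4 l ((hmL l).2 hlL)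
      refine ⟨?_, ?_, ?_⟩
      · intro l l' hll
        by_cases hl : l = a
        · have hl' : l' ≠ a := by
            rintro rfl
            exact hll hl
          rw [hl, Function.update_self, hupd l' hl']
          exact dn l' hl'
        · by_cases hl' : l' = a
          · rw [hl', Function.update_self, hupd l hl]
            exact (dn l hl).symm
          · rw [hupd l hl, hupd l' hl']
            exact hdis l l' hll
      · intro l hl
        by_cases hla : l = a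
        · rw [hla, Function.update_self]
          exact d2
        · have := c2 l hl
          rwa [hupd l hla] at this ⊢
      · intro i
        change bn blk i (Function.update g a n) ≤ Y i
        by_cases hi : i = blk a
        · rw [hi, akb_bn_same blk a g hga, hyiff]
          exact d3
        · rw [akb_bn_ne blk a i hi]
          exact hbnY i
  -- the sum
  obtain ⟨T, hT⟩ : ∃ T : Finset (Pl K) → ℂ, ∀ n, T n =
      H (qf D.toRD0 n) * ep p (∑ v ∈ n, fE D.toRD0 E' μ κ v) := ⟨_, fun _ => rfl⟩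
  have hterm : ∀ n ∈ GF D.toRD0 X, Cond blk Y Lg z₂ (Function.update g a n) →
      Ψ (Function.update g a n) = ep p c * T n := by
    intro n hn hc
    have hn' := (akb_mem_GF D.toRD0).1 hn
    have hadm' : Adm D.toRD0 (Function.update g a n) := by
      refine ⟨?_, hc.1⟩
      intro l v hv
      by_cases hl : l = a
      · rw [hl, Function.update_self] at hv
        exact hn'.2 v hv
      · rw [hupd l hl] at hv
        exact hGd l v hv
    rw [hph n hadm', hT]
  have hsum : ∑ n ∈ GF D.toRD0 X, (if Cond blk Y Lg z₂ (Function.update g a n) then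
      Ψ (Function.update g a n) else 0) =
      ep p c * (∑ n ∈ (GF D.toRD0 y).filter (fun n => Disjoint n F), T n -
        ∑ n ∈ (GF D.toRD0 z₂).filter (fun n => Disjoint n F), T n) := by
    have hsub : (GF D.toRD0 z₂).filter (fun n => Disjoint n F) ⊆
        (GF D.toRD0 y).filter (fun n => Disjoint n F) := by
      intro n hn
      rw [Finset.mem_filter, akb_mem_GF] at hn ⊢
      exact ⟨⟨hn.1.1.trans hzy.le, hn.1.2⟩, hn.2⟩
    rw [← Finset.sum_sdiff_eq_sub hsub, Finset.mul_sum, ← Finset.sum_filter]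
    have hset : (GF D.toRD0 X).filter (fun n => Cond blk Y Lg z₂ (Function.update g a n)) =
        (GF D.toRD0 y).filter (fun n => Disjoint n F) \
          (GF D.toRD0 z₂).filter (fun n => Disjoint n F) := by
      ext n
      rw [Finset.mem_filter, Finset.mem_sdiff, Finset.mem_filter, Finset.mem_filter]
      constructor
      · rintro ⟨hn, hc⟩
        have h1 := (hcond n hn).1 hc
        rw [akb_mem_GF] at hn
        refine ⟨⟨?_, h1.1⟩, ?_⟩
        · rw [akb_mem_GF]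
          exact ⟨h1.2.2, hn.2⟩
        · rintro ⟨h2, _⟩
          rw [akb_mem_GF] at h2
          exact absurd h2.1 (not_le.2 h1.2.1)
      · rintro ⟨⟨h1, h2⟩, h3⟩
        have h1' := (akb_mem_GF D.toRD0).1 h1
        have hX : n ∈ GF D.toRD0 X := by
          rw [akb_mem_GF]
          exact ⟨h1'.1.trans hyX, h1'.2⟩
        refine ⟨hX, (hcond n hX).2 ⟨h2, ?_, h1'.1⟩⟩
        by_contra h4
        apply h3
        rw [akb_mem_GF]
        exact ⟨⟨not_lt.1 h4, h1'.2⟩, h2⟩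
    rw [← hset]
    apply Finset.sum_congr rfl
    intro n hn
    rw [Finset.mem_filter] at hn
    exact hterm n hn.1 hn.2
  rw [hsum, norm_mul, ep_norm, one_mul]
  have b1 := hlem' y hy1
  have b2 := hlem' z₂ hz₂
  have e1 : ∀ S : Finset (Finset (Pl K)), ∑ n ∈ S, H (qf D.toRD0 n) *
      ep p (∑ v ∈ n, fE D.toRD0 E' μ κ v) = ∑ n ∈ S, T n := fun S =>
    Finset.sum_congr rfl fun n _ => (hT n).symm
  rw [e1] at b1 b2
  refine (norm_sub_le _ _).trans ((add_le_add b1 b2).trans ?_)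
  have hy0 : 0 < y := by linarith
  have hz0 : 0 < z₂ := by linarith
  have q1 : y ^ (1 - δ) ≤ y * z₂ ^ (-δ) := by
    rw [show 1 - δ = 1 + -δ by ring, Real.rpow_add hy0, Real.rpow_one]
    apply mul_le_mul_of_nonneg_left _ hy0.le
    exact Real.rpow_le_rpow_of_nonpos hz0 hzy.le (by linarith)
  have q2 : z₂ ^ (1 - δ) ≤ y ^ (1 - δ) := Real.rpow_le_rpow hz0.le hzy.le (by linarith)
  have hnE' : nr E' ≤ z₁ ^ (Fintype.card J + 1) := by
    have i1 : nr (nL.biUnion s) ≤ z₁ ^ nL.card :=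
      akb_nr_biUnion nL s z₁ hz₁ fun l hl => (hs l ((hmL l).1 hl)).2
    have i2 : z₁ ^ nL.card ≤ z₁ ^ Fintype.card J :=
      pow_le_pow_right₀ hz₁ (Finset.card_le_univ _)
    rw [hE', pow_succ]
    calc nr (E ∪ nL.biUnion s) ≤ nr E * nr (nL.biUnion s) := akb_nr_union _ _
      _ ≤ z₁ * z₁ ^ Fintype.card J :=
          mul_le_mul hE (i1.trans i2) (akb_nr_pos _).le (by linarith)
      _ = _ := by ring
  have q3 : (nr E') ^ A * (2 : ℝ) ^ E'.card ≤ z₁ ^ (((Fintype.card J : ℝ) + 1) * (A + 1)) := by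
    calc (nr E') ^ A * (2 : ℝ) ^ E'.card ≤ (nr E') ^ A * nr E' :=
          mul_le_mul_of_nonneg_left (two_pow_le_nr E') (Real.rpow_nonneg (akb_nr_pos _).le _)
      _ = (nr E') ^ (A + 1) := by rw [Real.rpow_add (akb_nr_pos _), Real.rpow_one]
      _ ≤ (z₁ ^ (Fintype.card J + 1)) ^ (A + 1) :=
          Real.rpow_le_rpow (akb_nr_pos _).le hnE' (by linarith)
      _ = _ := by
          rw [← Real.rpow_natCast, ← Real.rpow_mul (by linarith)]
          push_cast
          rfl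
  have q4 : (2 : ℝ) ^ F.card ≤ 2 ^ E'.card * 2 ^ (∑ l ∈ Lg.erase a, (g l).card) := by
    rw [← pow_add]
    apply pow_le_pow_right₀ (by norm_num)
    rw [hF]
    exact (Finset.card_union_le _ _).trans (Nat.add_le_add_left Finset.card_biUnion_le _)
  have r1 : 0 ≤ (nr E') ^ A := Real.rpow_nonneg (akb_nr_pos _).le _
  have r2 : 0 ≤ z₂ ^ (-δ) := Real.rpow_nonneg hz0.le _
  have r3 : 0 ≤ y ^ (1 - δ) := Real.rpow_nonneg hy0.le _
  calc C * (nr E') ^ A * 2 ^ F.card * y ^ (1 - δ) + C * (nr E') ^ A * 2 ^ F.card * z₂ ^ (1 - δ)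
      ≤ C * (nr E') ^ A * 2 ^ F.card * y ^ (1 - δ) +
        C * (nr E') ^ A * 2 ^ F.card * y ^ (1 - δ) := by
        gcongr
    _ = 2 * C * ((nr E') ^ A * 2 ^ F.card) * y ^ (1 - δ) := by ring
    _ ≤ 2 * C * ((nr E') ^ A * (2 ^ E'.card * 2 ^ (∑ l ∈ Lg.erase a, (g l).card))) *
        (y * z₂ ^ (-δ)) := by
        gcongr
    _ = 2 * C * ((nr E') ^ A * 2 ^ E'.card) * z₂ ^ (-δ) *
        (2 ^ (∑ l ∈ Lg.erase a, (g l).card) * y) := by ring
    _ ≤ 2 * C * z₁ ^ (((Fintype.card J : ℝ) + 1) * (A + 1)) * z₂ ^ (-δ) *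
        (2 ^ (∑ l ∈ Lg.erase a, (g l).card) * y) := by
        gcongr

theorem akb_outer {K : Type} [Field K] [NumberField K] {p : ℕ} {ζ : K} {m t : ℕ} {J : Type}
    [Fintype J] (D : RD K p ζ)
    (blk : J → Fin t) (C A δ : ℝ) (hC : 0 < C) (hA : 0 ≤ A) (hδ : 0 < δ) (hδ1 : δ < 1)
    (hlem : AkbLem D C A δ) (C₂ A₂ : ℝ)
    (hks : ∀ (Lg : Finset J) (s : J → Finset (Pl K))
      (Y : Fin t → ℝ) (X : ℝ), 1 ≤ X → (∀ i, 0 < Y i ∧ Y i ≤ X) → ∀ a ∈ Lg,
      ∑ g ∈ (fam K X Lg (Lg.erase a) s).filter (fun g => ∀ i, bn blk i g ≤ Y i),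
        (2 : ℝ) ^ (∑ l ∈ Lg.erase a, (g l).card) * (Y (blk a) / bn blk (blk a) g) ≤
        C₂ * (∏ i, Y i) / sn Lg s * (1 + Real.log X) ^ A₂)
    (X z₁ z₂ : ℝ) (hX : 1 ≤ X) (hz₁ : 1 ≤ z₁) (hz₂ : 1 ≤ z₂) (Y : Fin t → ℝ)
    (hY : ∀ i, 0 < Y i ∧ Y i ≤ X)
    (b : Fin m → Kˣ) (E : Finset (Pl K)) (hb : BSup D.toRD0 b E) (hE : nr E ≤ z₁)
    (Lg : Finset J) (s : J → Finset (Pl K))
    (hs : ∀ l, l ∉ Lg → (∀ v ∈ s l, D.Gd v) ∧ nr (s l) ≤ z₁)
    (Ψ : (J → Finset (Pl K)) → ℂ) (a : J) (ha : a ∈ Lg)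
    (hΨ : ∀ g : J → Finset (Pl K), (∀ l, l ∉ Lg → g l = s l) → AkbPhase D E Lg s a Ψ g) :
    ‖∑ g ∈ Fintype.piFinset (fun l => if l ∈ Lg then GF D.toRD0 X else {s l}),
      if Cond blk Y Lg z₂ g then Ψ g else 0‖ ≤
    (∏ i, Y i) / sn Lg s * (2 * C * C₂ * z₁ ^ (((Fintype.card J : ℝ) + 1) * (A + 1)) *
        z₂ ^ (-δ) * (1 + Real.log X) ^ A₂) := by
  obtain ⟨c₀, hc₀⟩ : ∃ c₀ : ℝ, c₀ = 2 * C * z₁ ^ (((Fintype.card J : ℝ) + 1) * (A + 1)) *
      z₂ ^ (-δ) := ⟨_, rfl⟩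
  have hc₀0 : 0 ≤ c₀ := by
    rw [hc₀]
    positivity
  obtain ⟨Bd, hBd⟩ : ∃ Bd : (J → Finset (Pl K)) → ℝ, ∀ g, Bd g =
      (if ∀ i, bn blk i g ≤ Y i then
        (2 : ℝ) ^ (∑ l ∈ Lg.erase a, (g l).card) * (Y (blk a) / bn blk (blk a) g) else 0) :=
    ⟨_, fun _ => rfl⟩
  have hBd0 : ∀ g, 0 ≤ Bd g := by
    intro g
    have hd : 0 ≤ Y (blk a) / bn blk (blk a) g :=
      div_nonneg (hY _).1.le (zero_le_one.trans (akb_one_le_bn blk _ g))
    rw [hBd]
    split_ifs
    · positivity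
    · exact le_rfl
  obtain ⟨tt, htt⟩ : ∃ tt : J → Finset (Finset (Pl K)), tt = fun l =>
      if l ∈ Lg then GF D.toRD0 X else {s l} := ⟨_, rfl⟩
  have htta : tt a = GF D.toRD0 X := by
    rw [htt]
    exact if_pos ha
  have hTT : ∑ g ∈ Fintype.piFinset tt, (if Cond blk Y Lg z₂ g then Ψ g else 0) =
      ∑ g ∈ Fintype.piFinset (Function.update tt a {∅}), ∑ n ∈ GF D.toRD0 X,
        if Cond blk Y Lg z₂ (Function.update g a n) then Ψ (Function.update g a n) else 0 := by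
    rw [← htta]
    exact akb_split tt a ∅ (fun g => if Cond blk Y Lg z₂ g then Ψ g else 0)
  have hmem : ∀ g ∈ Fintype.piFinset (Function.update tt a {∅}), g a = ∅ ∧
      (∀ l, l ∉ Lg → g l = s l) ∧ ∀ l ∈ Lg, l ≠ a → g l ∈ GF D.toRD0 X := by
    intro g hg
    rw [Fintype.mem_piFinset] at hg
    refine ⟨?_, ?_, ?_⟩
    · have := hg a
      rwa [Function.update_self, Finset.mem_singleton] at this
    · intro l hl
      have hla : l ≠ a := by
        rintro rfl
        exact hl ha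
      have := hg l
      rw [Function.update_of_ne hla, htt] at this
      change g l ∈ (if l ∈ Lg then GF D.toRD0 X else {s l}) at this
      rwa [if_neg hl, Finset.mem_singleton] at this
    · intro l hl hla
      have := hg l
      rw [Function.update_of_ne hla, htt] at this
      change g l ∈ (if l ∈ Lg then GF D.toRD0 X else {s l}) at this
      rwa [if_pos hl] at this
  have hsub : Fintype.piFinset (Function.update tt a {∅}) ⊆ fam K X Lg (Lg.erase a) s := by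
    intro g hg
    obtain ⟨g1, g2, g3⟩ := hmem g hg
    unfold fam
    rw [Fintype.mem_piFinset]
    intro l
    by_cases hl : l ∈ Lg
    · by_cases hla : l = a
      · have h3 : l ∉ Lg.erase a := by
          rw [hla]
          exact Finset.notMem_erase a Lg
        rw [if_neg h3, if_pos hl, Finset.mem_singleton, hla]
        exact g1
      · rw [if_pos (Finset.mem_erase.2 ⟨hla, hl⟩), mem_AF]
        exact ((akb_mem_GF D.toRD0).1 (g3 l hl hla)).1
    · have h3 : l ∉ Lg.erase a := fun h => hl (Finset.mem_of_mem_erase h)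
      rw [if_neg h3, if_neg hl, Finset.mem_singleton]
      exact g2 l hl
  have hks' := hks Lg s Y X hX hY a ha
  rw [← htt, hTT]
  calc ‖∑ g ∈ Fintype.piFinset (Function.update tt a {∅}), ∑ n ∈ GF D.toRD0 X,
        (if Cond blk Y Lg z₂ (Function.update g a n) then Ψ (Function.update g a n) else 0)‖
      ≤ ∑ g ∈ Fintype.piFinset (Function.update tt a {∅}), c₀ * Bd g := by
        refine (norm_sum_le _ _).trans (Finset.sum_le_sum fun g hg => ?_)
        obtain ⟨g1, g2, g3⟩ := hmem g hg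
        rw [hc₀, hBd]
        exact akb_core D blk C A δ hC hA hδ hδ1 hlem X z₁ z₂ hz₁ hz₂ Y hY b E hb hE
          Lg s hs Ψ a ha g g1 g2 g3 (hΨ g g2)
    _ ≤ ∑ g ∈ fam K X Lg (Lg.erase a) s, c₀ * Bd g :=
        Finset.sum_le_sum_of_subset_of_nonneg hsub fun g _ _ => mul_nonneg hc₀0 (hBd0 g)
    _ = c₀ * ∑ g ∈ (fam K X Lg (Lg.erase a) s).filter (fun g => ∀ i, bn blk i g ≤ Y i),
        (2 : ℝ) ^ (∑ l ∈ Lg.erase a, (g l).card) * (Y (blk a) / bn blk (blk a) g) := by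
        rw [← Finset.mul_sum, Finset.sum_filter]
        congr 1
        exact Finset.sum_congr rfl fun g _ => hBd g
    _ ≤ c₀ * (C₂ * (∏ i, Y i) / sn Lg s * (1 + Real.log X) ^ A₂) :=
        mul_le_mul_of_nonneg_left hks' hc₀0
    _ = _ := by
        rw [hc₀]
        ring

/-- the phase in one variable if all large variables are unlinked -/
theorem akb_phase {K : Type} [Field K] [NumberField K] {p : ℕ} {ζ : K} {m : ℕ} {J : Type}
    [Fintype J] (hp : p.Prime) (hζ : IsPrimitiveRoot ζ p) (D : RD K p ζ) (P : PD p m J)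
    (b : Fin m → Kˣ) (E : Finset (Pl K)) (hb : BSup D.toRD0 b E)
    (Lg : Finset J) (s : J → Finset (Pl K))
    (hs : ∀ l, l ∉ Lg → ∀ v ∈ s l, D.Gd v)
    (h : (J → Fin D.r → ZMod p) → ℂ) (hh : ∀ q, ‖h q‖ ≤ 1)
    (hlk : ∀ a ∈ Lg, ∀ a' ∈ Lg, P.lk a a' = 0) (a : J) (ha : a ∈ Lg)
    (hne : (∃ l, l ∉ Lg ∧ s l ≠ ∅ ∧ P.lk a l ≠ 0) ∨
      ∃ w ∈ E, D.lam w * dord b (P.θ a) w ≠ 0)
    (g : J → Finset (Pl K)) (hgs : ∀ l, l ∉ Lg → g l = s l) :
    AkbPhase D E Lg s a
      (fun g => h (fun l => qf D.toRD0 (g l)) * ep p (ph D.toRD0 P b g)) g := by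
  intro hadm
  obtain ⟨c, κ, hph⟩ := ph_one hp hζ D P b E hb g hadm a
  obtain ⟨nL, hnL⟩ : ∃ nL : Finset J, nL = Finset.univ.filter (fun l => l ∉ Lg) := ⟨_, rfl⟩
  have hmL : ∀ l, l ∈ nL ↔ l ∉ Lg := by
    intro l
    rw [hnL, Finset.mem_filter]
    exact ⟨fun h => h.2, fun h => ⟨Finset.mem_univ _, h⟩⟩
  obtain ⟨E', hE'⟩ : ∃ E' : Finset (Pl K), E' = E ∪ nL.biUnion s := ⟨_, rfl⟩
  obtain ⟨μ, hμ⟩ : ∃ μ : Pl K → ZMod p, ∀ w, μ w =
      (if w ∈ E then D.lam w * dord b (P.θ a) w else 0) +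
        ∑ l ∈ nL, (if w ∈ s l then P.lk a l else 0) := ⟨_, fun _ => rfl⟩
  have hEE' : E ⊆ E' := by
    rw [hE']
    exact Finset.subset_union_left
  have hsE' : ∀ l, l ∉ Lg → s l ⊆ E' := by
    intro l hl
    rw [hE']
    exact (Finset.subset_biUnion_of_mem s ((hmL l).2 hl)).trans Finset.subset_union_right
  -- the phase
  have hfE : ∀ v, ∑ w ∈ E, D.lam w * dord b (P.θ a) w * D.LL w (D.pi v) +
      ∑ l ∈ Finset.univ.erase a, P.lk a l * ∑ w ∈ g l, D.LL w (D.pi v) + dt κ (D.q v) =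
      fE D.toRD0 E' μ κ v := by
    intro v
    unfold fE
    congr 1
    have e1 : ∑ w ∈ E', μ w * D.LL w (D.pi v) =
        ∑ w ∈ E', (if w ∈ E then D.lam w * dord b (P.θ a) w * D.LL w (D.pi v) else 0) +
        ∑ w ∈ E', ∑ l ∈ nL, (if w ∈ s l then P.lk a l * D.LL w (D.pi v) else 0) := by
      rw [← Finset.sum_add_distrib]
      apply Finset.sum_congr rfl
      intro w _
      rw [hμ, add_mul, Finset.sum_mul, ite_mul, zero_mul]
      congr 1
      apply Finset.sum_congr rfl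
      intro l _
      rw [ite_mul, zero_mul]
    have e2 : ∑ w ∈ E', (if w ∈ E then D.lam w * dord b (P.θ a) w * D.LL w (D.pi v) else 0) =
        ∑ w ∈ E, D.lam w * dord b (P.θ a) w * D.LL w (D.pi v) := by
      rw [Finset.sum_ite_mem, Finset.inter_eq_right.2 hEE']
    have e3 : ∑ w ∈ E', ∑ l ∈ nL, (if w ∈ s l then P.lk a l * D.LL w (D.pi v) else 0) =
        ∑ l ∈ nL, P.lk a l * ∑ w ∈ g l, D.LL w (D.pi v) := by
      rw [Finset.sum_comm]
      apply Finset.sum_congr rfl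
      intro l hl
      have hl' := (hmL l).1 hl
      rw [Finset.sum_ite_mem, Finset.inter_eq_right.2 (hsE' l hl'), Finset.mul_sum, hgs l hl']
    have e4 : ∑ l ∈ Finset.univ.erase a, P.lk a l * ∑ w ∈ g l, D.LL w (D.pi v) =
        ∑ l ∈ nL, P.lk a l * ∑ w ∈ g l, D.LL w (D.pi v) := by
      symm
      apply Finset.sum_subset
      · intro l hl
        have hl' := (hmL l).1 hl
        rw [Finset.mem_erase]
        refine ⟨?_, Finset.mem_univ l⟩
        rintro rfl
        exact hl' ha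
      · intro l _ hl
        have hl' : l ∈ Lg := by
          by_contra hc
          exact hl ((hmL l).2 hc)
        rw [hlk a ha l hl', zero_mul]
    change ∑ w ∈ E, D.lam w * dord b (P.θ a) w * D.LL w (D.pi v) +
      ∑ l ∈ Finset.univ.erase a, P.lk a l * ∑ w ∈ g l, D.LL w (D.pi v) =
      ∑ w ∈ E', μ w * D.LL w (D.pi v)
    rw [e1, e2, e3, e4]
  have hμ0 : ∃ w ∈ E', μ w ≠ 0 := by
    rcases hne with ⟨l₀, hl₀, hsl, hal⟩ | ⟨w, hw, hwne⟩
    · obtain ⟨w, hw⟩ := Finset.nonempty_iff_ne_empty.2 hsl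
      refine ⟨w, hsE' l₀ hl₀ hw, ?_⟩
      have hwE : w ∉ E := fun hwE => (hb.1 w hwE).2 (hs l₀ hl₀ w hw)
      rw [hμ, if_neg hwE, zero_add, Finset.sum_eq_single l₀]
      · rw [if_pos hw]
        exact hal
      · intro l hl hll
        rw [if_neg]
        intro hw'
        have hd := hadm.2 l l₀ hll
        rw [hgs l ((hmL l).1 hl), hgs l₀ hl₀] at hd
        exact Finset.disjoint_left.1 hd hw' hw
      · intro hl
        exact absurd ((hmL l₀).2 hl₀) hl
    · refine ⟨w, hEE' hw, ?_⟩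
      rw [hμ, if_pos hw, Finset.sum_eq_zero, add_zero]
      · exact hwne
      · intro l hl
        rw [if_neg]
        intro hw'
        exact (hb.1 w hw).2 (hs l ((hmL l).1 hl) w hw')
  obtain ⟨H, hH⟩ : ∃ H : (Fin D.r → ZMod p) → ℂ, ∀ q, H q =
      h (Function.update (fun l => qf D.toRD0 (g l)) a q) := ⟨_, fun _ => rfl⟩
  have hHn : ∀ q, ‖H q‖ ≤ 1 := by
    intro q
    rw [hH]
    exact hh _
  have hakE : akbE E Lg s = E' := by
    rw [hE', hnL]
    rfl
  rw [hakE]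
  refine ⟨μ, κ, H, c, hHn, Or.inl hμ0, ?_⟩
  intro n hadm'
  have e1 : (fun l => qf D.toRD0 (Function.update g a n l)) =
      Function.update (fun l => qf D.toRD0 (g l)) a (qf D.toRD0 n) := by
    funext l
    by_cases hl : l = a
    · rw [hl, Function.update_self, Function.update_self]
    · rw [Function.update_of_ne hl, Function.update_of_ne hl]
  have e2 : ∑ v ∈ n, (∑ w ∈ E, D.lam w * dord b (P.θ a) w * D.LL w (D.pi v) +
      ∑ l ∈ Finset.univ.erase a, P.lk a l * ∑ w ∈ g l, D.LL w (D.pi v) + dt κ (D.q v)) =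
      ∑ v ∈ n, fE D.toRD0 E' μ κ v := Finset.sum_congr rfl fun v _ => hfE v
  change h (fun l => qf D.toRD0 (Function.update g a n l)) *
    ep p (ph D.toRD0 P b (Function.update g a n)) = _
  rw [hph n hadm', e2, ep_add hp, hH, e1]
  ring

theorem kpb {K : Type} [Field K] [NumberField K] {p : ℕ} {ζ : K} {m t : ℕ} {J : Type}
    [Fintype J] (hp : p.Prime) (hζ : IsPrimitiveRoot ζ p) (D : RD K p ζ) (P : PD p m J)
    (blk : J → Fin t) (A : ℝ) :
    ∃ (B₁ : ℕ) (X₀ : ℝ), 3 ≤ X₀ ∧ ∀ (X z₁ z₂ : ℝ), X₀ ≤ X → 1 ≤ z₁ → z₁ ^ B₁ ≤ z₂ →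
      Real.log X ^ B₁ ≤ z₂ → ∀ (Y : Fin t → ℝ), (∀ i, 0 < Y i ∧ Y i ≤ X) →
      ∀ (b : Fin m → Kˣ) (E : Finset (Pl K)), BSup D.toRD0 b E → nr E ≤ z₁ →
      ∀ (Lg : Finset J) (s : J → Finset (Pl K)),
        (∀ l, l ∉ Lg → (∀ v ∈ s l, D.Gd v) ∧ nr (s l) ≤ z₁) →
      ∀ h : (J → Fin D.r → ZMod p) → ℂ, (∀ q, ‖h q‖ ≤ 1) →
        (∀ a ∈ Lg, ∀ a' ∈ Lg, P.lk a a' = 0) →
        (∃ a ∈ Lg, ∃ l, l ∉ Lg ∧ s l ≠ ∅ ∧ P.lk a l ≠ 0) →
        ‖TT D.toRD0 P b blk Y X Lg z₂ s h‖ ≤ (∏ i, Y i) / sn Lg s * Real.log X ^ (-A) := by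
  obtain ⟨C₁, A₁, δ, hC₁, hA₁, hδ, hδ1, hlem⟩ := lemA hp hζ D
  obtain ⟨C₂, A₂, hC₂, hA₂, hks⟩ := ks K blk
  obtain ⟨B₁, X₀, hX₀, hnum⟩ := akb_num (2 * C₁ * C₂) (((Fintype.card J : ℝ) + 1) * (A₁ + 1))
    A₂ δ A (by positivity) (by positivity) hA₂ hδ
  refine ⟨B₁, X₀, hX₀, ?_⟩
  intro X z₁ z₂ hX hz₁ h1 h2 Y hY b E hb hE Lg s hs h hh hlk hex
  obtain ⟨a, ha, hl₀⟩ := hex
  have hz₂ : 1 ≤ z₂ := (one_le_pow₀ hz₁).trans h1
  have hsn : 0 < sn Lg s := by
    unfold sn
    exact Finset.prod_pos fun l _ => akb_nr_pos _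
  have hPY : 0 < ∏ i, Y i := Finset.prod_pos fun i _ => (hY i).1
  refine (akb_outer D blk C₁ A₁ δ hC₁ hA₁ hδ hδ1 hlem C₂ A₂ hks X z₁ z₂ (by linarith) hz₁ hz₂ Y
    hY b E hb hE Lg s hs (fun g => h (fun l => qf D.toRD0 (g l)) * ep p (ph D.toRD0 P b g)) a ha
    fun g hgs => akb_phase hp hζ D P b E hb Lg s (fun l hl => (hs l hl).1) h hh hlk a ha
      (Or.inl hl₀) g hgs).trans ?_
  exact mul_le_mul_of_nonneg_left (hnum X z₁ z₂ hX hz₁ h1 h2) (div_nonneg hPY.le hsn.le)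

end H63.MA
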