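import Pool.Agent.H63.MA.APh
import Pool.Agent.H63.MA.AKSum
import Pool.Agent.H63.MA.AKB

/-!
# MA-AKC: two unlinked large variables of the same class
`|TT|` (with `h = 1`) is small if everything is unlinked, but `x a = x a'` for two large variables and `bp b (θ a - θ a')` is not a
`p`-th power.
Proof. (2a) If `lam w * dord b (θ a) w ≠ 0` for some `a ∈ Lg` and `w ∈ E`: as in `AKB`, the sum over `g a` is estimated by `lemA` (the
phase is `c + ∑_{v ∈ n} fE E' μ κ v` with `μ w ≠ 0`). (2b) Otherwise `ph_cls` applies: `ph g = f (classes)`. Expand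
`q ↦ ep(f q)`, a function on `((ZMod p)^r)^{Lg}` (the classes of the small variables are fixed), in additive characters:
`ep(f q) = ∑_χ c_χ ep(∑_{a ∈ Lg} χ_a · q_a)`, `|c_χ| ≤ 1`. For `χ ≠ 0` choose `a₁` with `χ_{a₁} ≠ 0` and estimate the sum over `g a₁` by
`lemA` with `E = ∅`, `H = 1`, `κ = χ_{a₁} ≠ 0`, `F` = union of all other sets (small and large), then `ks`. The coefficient `c_0` is the average of
`ep(f)`. By `ph_cls` for the pair `a, a'`: `f(shift by t) = f + κ · t`, so `c_0 = ep(κ · t) c_0` for all `t`, and `c_0 = 0` if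
`κ ≠ 0`. If `κ = 0` then `LL v (bp b (θ a - θ a')) = 0` for all good `v` outside the finite set `⋃ s l`, which contradicts `D.non`.
-/

set_option autoImplicit false

open scoped NumberField
open IsDedekindDomain
open scoped Classical

noncomputable section

namespace H63.MA

theorem akc_ep_sum {ι : Type} {p : ℕ} (hp : p.Prime) (s : Finset ι) (x : ι → ZMod p) :
    ep p (∑ i ∈ s, x i) = ∏ i ∈ s, ep p (x i) := by
  induction s using Finset.induction_on with
  | empty => rw [Finset.sum_empty, Finset.prod_empty, ep_zero]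
  | insert i s hi ih => rw [Finset.sum_insert hi, Finset.prod_insert hi, ep_add hp, ih]

/-- Fourier coefficients -/
def akcC {ι : Type} [Fintype ι] [DecidableEq ι] (p : ℕ) [NeZero p] (Φ : (ι → ZMod p) → ℂ) (χ : ι → ZMod p) : ℂ :=
  ((p : ℂ) ^ Fintype.card ι)⁻¹ * ∑ q : ι → ZMod p, Φ q * ep p (-∑ i, χ i * q i)

theorem akc_orth {ι : Type} [Fintype ι] [DecidableEq ι] {p : ℕ} (hp : p.Prime) [NeZero p] (d : ι → ZMod p) :
    ∑ χ : ι → ZMod p, ep p (∑ i, χ i * d i) =
      if d = 0 then (p : ℂ) ^ Fintype.card ι else 0 := by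
  have e1 : ∑ χ : ι → ZMod p, ep p (∑ i, χ i * d i) =
      ∏ i, ∑ x : ZMod p, ep p (x * d i) := by
    rw [Finset.prod_univ_sum, Fintype.piFinset_univ]
    exact Finset.sum_congr rfl fun χ _ => akc_ep_sum hp _ _
  rw [e1]
  have e2 : ∀ i, ∑ x : ZMod p, ep p (x * d i) = if d i = 0 then (p : ℂ) else 0 := fun i =>
    ep_sum hp (d i)
  simp only [e2]
  by_cases hd : d = 0
  · rw [if_pos hd, hd]
    simp
  · rw [if_neg hd]
    obtain ⟨i, hi⟩ := Function.ne_iff.1 hd
    exact Finset.prod_eq_zero (Finset.mem_univ i) (if_neg hi)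

theorem akc_inv {ι : Type} [Fintype ι] [DecidableEq ι] {p : ℕ} (hp : p.Prime) [NeZero p]
    (Φ : (ι → ZMod p) → ℂ) (q : ι → ZMod p) :
    Φ q = ∑ χ : ι → ZMod p, akcC p Φ χ * ep p (∑ i, χ i * q i) := by
  have hN : ((p : ℂ) ^ Fintype.card ι) ≠ 0 := pow_ne_zero _ (by exact_mod_cast hp.ne_zero)
  have e1 : ∀ χ : ι → ZMod p, akcC p Φ χ * ep p (∑ i, χ i * q i) =
      ((p : ℂ) ^ Fintype.card ι)⁻¹ * ∑ q' : ι → ZMod p,
        Φ q' * ep p (∑ i, χ i * (q - q') i) := by
    intro χ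
    unfold akcC
    rw [mul_assoc, Finset.sum_mul]
    congr 1
    refine Finset.sum_congr rfl fun q' _ => ?_
    rw [mul_assoc, ← ep_add hp]
    congr 2
    rw [neg_add_eq_sub, ← Finset.sum_sub_distrib]
    refine Finset.sum_congr rfl fun i _ => ?_
    rw [Pi.sub_apply]
    ring
  simp only [e1]
  rw [← Finset.mul_sum, Finset.sum_comm]
  have e2 : ∀ q' : ι → ZMod p, ∑ χ : ι → ZMod p, Φ q' * ep p (∑ i, χ i * (q - q') i) =
      if q' = q then Φ q' * (p : ℂ) ^ Fintype.card ι else 0 := by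
    intro q'
    rw [← Finset.mul_sum, akc_orth hp, mul_ite, mul_zero]
    by_cases h : q' = q
    · rw [if_pos h, if_pos (by rw [h, sub_self])]
    · rw [if_neg h, if_neg (fun h' => h (sub_eq_zero.1 h').symm)]
  simp only [e2]
  rw [Finset.sum_ite_eq' Finset.univ q, if_pos (Finset.mem_univ q)]
  field_simp

theorem akc_norm {ι : Type} [Fintype ι] [DecidableEq ι] {p : ℕ} (hp : p.Prime) [NeZero p]
    (Φ : (ι → ZMod p) → ℂ) (hΦ : ∀ q, ‖Φ q‖ ≤ 1) (χ : ι → ZMod p) : ‖akcC p Φ χ‖ ≤ 1 := by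
  have hN : (0 : ℝ) < (p : ℝ) ^ Fintype.card ι := by
    have : (0 : ℝ) < p := by exact_mod_cast hp.pos
    positivity
  unfold akcC
  rw [norm_mul, norm_inv, norm_pow, Complex.norm_natCast]
  have e1 : ‖∑ q : ι → ZMod p, Φ q * ep p (-∑ i, χ i * q i)‖ ≤ (p : ℝ) ^ Fintype.card ι := by
    calc ‖∑ q : ι → ZMod p, Φ q * ep p (-∑ i, χ i * q i)‖
        ≤ ∑ _q : ι → ZMod p, (1 : ℝ) := by
          refine (norm_sum_le _ _).trans (Finset.sum_le_sum fun q _ => ?_)
          rw [norm_mul, ep_norm, mul_one]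
          exact hΦ q
      _ = (p : ℝ) ^ Fintype.card ι := by
          rw [Finset.sum_const, Finset.card_univ, Fintype.card_fun, ZMod.card, nsmul_eq_mul,
            mul_one]
          push_cast
          rfl
  rw [inv_mul_le_iff₀ hN, mul_one]
  exact e1

theorem akc_shift {ι : Type} [Fintype ι] [DecidableEq ι] {p : ℕ} (hp : p.Prime) [NeZero p]
    (Φ : (ι → ZMod p) → ℂ) (T : ι → ZMod p) (c : ZMod p)
    (hΦ : ∀ q, Φ (q + T) = Φ q * ep p c) (χ : ι → ZMod p) :
    akcC p Φ χ = ep p (c - ∑ i, χ i * T i) * akcC p Φ χ := by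
  have e1 : ∑ q : ι → ZMod p, Φ q * ep p (-∑ i, χ i * q i) =
      ∑ q : ι → ZMod p, Φ (q + T) * ep p (-∑ i, χ i * (q + T) i) :=
    (Equiv.sum_comp (Equiv.addRight T) fun q => Φ q * ep p (-∑ i, χ i * q i)).symm
  have e2 : ∀ q : ι → ZMod p, Φ (q + T) * ep p (-∑ i, χ i * (q + T) i) =
      ep p (c - ∑ i, χ i * T i) * (Φ q * ep p (-∑ i, χ i * q i)) := by
    intro q
    have e3 : -∑ i, χ i * (q + T) i = -∑ i, χ i * q i + -∑ i, χ i * T i := by
      rw [← neg_add, ← Finset.sum_add_distrib]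
      congr 1
      refine Finset.sum_congr rfl fun i _ => ?_
      rw [Pi.add_apply]
      ring
    rw [hΦ, e3, ep_add hp, sub_eq_add_neg, ep_add hp]
    ring
  conv_lhs =>
    unfold akcC
    rw [e1]
  simp only [e2]
  rw [← Finset.mul_sum]
  unfold akcC
  ring

theorem kpc {K : Type} [Field K] [NumberField K] {p : ℕ} {ζ : K} {m t : ℕ} {J : Type}
    [Fintype J] (hp : p.Prime) (hp2 : MOne p K) (hζ : IsPrimitiveRoot ζ p) (D : RD K p ζ) (P : PD p m J)
    (blk : J → Fin t) (A : ℝ) :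
    ∃ (B₁ : ℕ) (X₀ : ℝ), 3 ≤ X₀ ∧ ∀ (X z₁ z₂ : ℝ), X₀ ≤ X → 1 ≤ z₁ → z₁ ^ B₁ ≤ z₂ →
      Real.log X ^ B₁ ≤ z₂ → ∀ (Y : Fin t → ℝ), (∀ i, 0 < Y i ∧ Y i ≤ X) →
      ∀ (b : Fin m → Kˣ) (E : Finset (Pl K)), BSup D.toRD0 b E → nr E ≤ z₁ →
      ∀ (Lg : Finset J) (s : J → Finset (Pl K)),
        (∀ l, l ∉ Lg → (∀ v ∈ s l, D.Gd v) ∧ nr (s l) ≤ z₁) →
        (∀ a ∈ Lg, ∀ a' ∈ Lg, P.lk a a' = 0) →
        (∀ a ∈ Lg, ∀ l, l ∉ Lg → s l ≠ ∅ → P.lk a l = 0) →
        (∃ a ∈ Lg, ∃ a' ∈ Lg, a ≠ a' ∧ P.x a = P.x a' ∧ ¬ IsPow p (bp b (P.θ a - P.θ a'))) →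
        ‖TT D.toRD0 P b blk Y X Lg z₂ s (fun _ => 1)‖ ≤
          (∏ i, Y i) / sn Lg s * Real.log X ^ (-A) := by
  have hNZ : NeZero p := ⟨hp.ne_zero⟩
  obtain ⟨C₁, A₁, δ, hC₁, hA₁, hδ, hδ1, hlem⟩ := lemA hp hζ D
  obtain ⟨C₂, A₂, hC₂, hA₂, hks⟩ := ks K blk
  obtain ⟨N, hN⟩ : ∃ N : ℝ, N = (p : ℝ) ^ Fintype.card (J × Fin D.r) := ⟨_, rfl⟩
  have hp1 : (1 : ℝ) ≤ p := by exact_mod_cast hp.one_lt.le
  have hN1 : 1 ≤ N := by
    rw [hN]
    exact one_le_pow₀ hp1
  obtain ⟨B₁, X₀, hX₀, hnum⟩ := akb_num (N * (2 * C₁ * C₂))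
    (((Fintype.card J : ℝ) + 1) * (A₁ + 1)) A₂ δ A (by positivity) (by positivity) hA₂ hδ
  refine ⟨B₁, X₀, hX₀, ?_⟩
  intro X z₁ z₂ hX hz₁ hB1 hB2 Y hY b E hb hE Lg s hs hlk hlk2 hex
  have hz₂ : 1 ≤ z₂ := (one_le_pow₀ hz₁).trans hB1
  have hX1 : 1 ≤ X := by linarith
  have hlX : 0 ≤ Real.log X := Real.log_nonneg hX1
  have hsn : 0 < sn Lg s := by
    unfold sn
    exact Finset.prod_pos fun l _ => akb_nr_pos _
  have hPY : 0 < ∏ i, Y i := Finset.prod_pos fun i _ => (hY i).1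
  have hq0 : 0 ≤ (∏ i, Y i) / sn Lg s := div_nonneg hPY.le hsn.le
  have hnum' := hnum X z₁ z₂ hX hz₁ hB1 hB2
  obtain ⟨R, hR⟩ : ∃ R : ℝ, R = 2 * C₁ * C₂ * z₁ ^ (((Fintype.card J : ℝ) + 1) * (A₁ + 1)) *
      z₂ ^ (-δ) * (1 + Real.log X) ^ A₂ := ⟨_, rfl⟩
  have hR0 : 0 ≤ R := by
    rw [hR]
    positivity
  have hNR : N * R ≤ Real.log X ^ (-A) := by
    rw [hR]
    calc N * (2 * C₁ * C₂ * z₁ ^ (((Fintype.card J : ℝ) + 1) * (A₁ + 1)) *
        z₂ ^ (-δ) * (1 + Real.log X) ^ A₂) = N * (2 * C₁ * C₂) *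
          z₁ ^ (((Fintype.card J : ℝ) + 1) * (A₁ + 1)) * z₂ ^ (-δ) *
          (1 + Real.log X) ^ A₂ := by ring
      _ ≤ _ := hnum'
  have hout : ∀ (Ψ : (J → Finset (Pl K)) → ℂ) (a : J), a ∈ Lg →
      (∀ g : J → Finset (Pl K), (∀ l, l ∉ Lg → g l = s l) → AkbPhase D E Lg s a Ψ g) →
      ‖∑ g ∈ Fintype.piFinset (fun l => if l ∈ Lg then GF D.toRD0 X else {s l}),
        if Cond blk Y Lg z₂ g then Ψ g else 0‖ ≤ (∏ i, Y i) / sn Lg s * R := by
    intro Ψ a ha hΨ
    rw [hR]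
    exact akb_outer D blk C₁ A₁ δ hC₁ hA₁ hδ hδ1 hlem C₂ A₂ hks X z₁ z₂ hX1 hz₁ hz₂ Y
      hY b E hb hE Lg s hs Ψ a ha hΨ
  by_cases hlam : ∃ a ∈ Lg, ∃ w ∈ E, D.lam w * dord b (P.θ a) w ≠ 0
  · obtain ⟨a, ha, hw⟩ := hlam
    have h1 := hout (fun g => (fun _ => (1 : ℂ)) (fun l => qf D.toRD0 (g l)) *
      ep p (ph D.toRD0 P b g)) a ha fun g hgs =>
        akb_phase hp hζ D P b E hb Lg s (fun l hl => (hs l hl).1) (fun _ => (1 : ℂ))
          (fun _ => by rw [norm_one]) hlk a ha (Or.inr hw) g hgs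
    refine le_trans h1 ?_
    apply mul_le_mul_of_nonneg_left _ hq0
    refine le_trans ?_ hNR
    nlinarith
  · have hlam' : ∀ a ∈ Lg, ∀ w ∈ E, D.lam w * dord b (P.θ a) w = 0 := by
      intro a ha w hw
      by_contra hc
      exact hlam ⟨a, ha, w, hw, hc⟩
    obtain ⟨f, hf1, hf2⟩ := ph_cls hp hp2 hζ D P b E hb Lg s hlk hlk2 hlam'
    obtain ⟨a, ha, a', ha', haa, hxx, hpow⟩ := hex
    obtain ⟨κ, hκ1, hκ2⟩ := hf2 a ha a' ha' haa hxx
    have hκ0 : κ ≠ 0 := by
      intro hκ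
      obtain ⟨v, hv1, hv2, _, hv4⟩ := D.non _ hpow ((Finset.univ.filter fun l => l ∉ Lg).biUnion s)
      apply hv4
      rw [← hκ2 v hv1, hκ]
      · unfold dt
        simp
      · intro l hl hvl
        apply hv2
        rw [Finset.mem_biUnion]
        exact ⟨l, Finset.mem_filter.2 ⟨Finset.mem_univ l, hl⟩, hvl⟩
    obtain ⟨Φ, hΦ⟩ : ∃ Φ : (J × Fin D.r → ZMod p) → ℂ, ∀ q, Φ q =
        ep p (f fun l i => q (l, i)) := ⟨_, fun _ => rfl⟩
    have hΦ1 : ∀ q, ‖Φ q‖ ≤ 1 := by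
      intro q
      rw [hΦ, ep_norm]
    -- the nonzero coefficients
    have hcoef : ∀ χ : J × Fin D.r → ZMod p, akcC p Φ χ ≠ 0 →
        ∃ a₁ ∈ Lg, (fun i => χ (a₁, i)) ≠ 0 := by
      intro χ hχ
      by_contra hno
      have hza : ∀ i, χ (a, i) = 0 := by
        intro i
        by_contra hc
        exact hno ⟨a, ha, fun h0 => hc (congrFun h0 i)⟩
      have hza' : ∀ i, χ (a', i) = 0 := by
        intro i
        by_contra hc
        exact hno ⟨a', ha', fun h0 => hc (congrFun h0 i)⟩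
      apply hκ0
      funext i
      obtain ⟨tv, htv⟩ : ∃ tv : Fin D.r → ZMod p, tv = Pi.single i 1 := ⟨_, rfl⟩
      obtain ⟨T, hT⟩ : ∃ T : J × Fin D.r → ZMod p, ∀ x, T x =
          (if x.1 = a then tv x.2 else 0) - (if x.1 = a' then tv x.2 else 0) := ⟨_, fun _ => rfl⟩
      have hsh : ∀ q, Φ (q + T) = Φ q * ep p (dt κ tv) := by
        intro q
        rw [hΦ, hΦ, ← ep_add hp, ← hκ1]
        congr 2
        funext l i'
        rw [Pi.add_apply, hT]
        by_cases hl' : l = a'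
        · rw [hl', Function.update_self, if_neg haa.symm, if_pos rfl, Pi.sub_apply]
          ring
        · rw [Function.update_of_ne hl']
          by_cases hl : l = a
          · rw [hl, Function.update_self, if_pos rfl, if_neg haa, Pi.add_apply]
            ring
          · rw [Function.update_of_ne hl, if_neg hl, if_neg hl']
            ring
      have h1 := akc_shift hp Φ T (dt κ tv) hsh χ
      have h2 : ∑ x, χ x * T x = 0 := by
        apply Finset.sum_eq_zero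
        intro x _
        rw [hT]
        obtain ⟨l, i'⟩ := x
        by_cases hl : l = a
        · rw [hl, hza, zero_mul]
        · by_cases hl' : l = a'
          · rw [hl', hza', zero_mul]
          · rw [if_neg hl, if_neg hl', sub_zero, mul_zero]
      rw [h2, sub_zero] at h1
      have h3 : ep p (dt κ tv) = 1 := by
        have h4 : (ep p (dt κ tv) - 1) * akcC p Φ χ = 0 := by
          rw [sub_mul, one_mul, ← h1, sub_self]
        rcases mul_eq_zero.1 h4 with h5 | h5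
        · exact sub_eq_zero.1 h5
        · exact absurd h5 hχ
      rw [ep_eq_one hp] at h3
      rw [htv] at h3
      unfold dt at h3
      simpa [Pi.single_apply] using h3
    -- the phase for one character
    obtain ⟨Ψ, hΨ⟩ : ∃ Ψ : (J × Fin D.r → ZMod p) → (J → Finset (Pl K)) → ℂ, ∀ χ g, Ψ χ g =
        ep p (∑ x : J × Fin D.r, χ x * qf D.toRD0 (g x.1) x.2) := ⟨_, fun _ _ => rfl⟩
    have hone : ∀ χ : J × Fin D.r → ZMod p, ‖akcC p Φ χ *
        ∑ g ∈ Fintype.piFinset (fun l => if l ∈ Lg then GF D.toRD0 X else {s l}),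
        (if Cond blk Y Lg z₂ g then Ψ χ g else 0)‖ ≤ (∏ i, Y i) / sn Lg s * R := by
      intro χ
      by_cases hχ : akcC p Φ χ = 0
      · rw [hχ, zero_mul, norm_zero]
        exact mul_nonneg hq0 hR0
      obtain ⟨a₁, ha₁, hχ₁⟩ := hcoef χ hχ
      rw [norm_mul]
      have h1 := hout (Ψ χ) a₁ ha₁ (by
        intro g hgs hadm
        refine ⟨fun _ => 0, fun i => χ (a₁, i), fun _ => 1,
          ∑ l ∈ Finset.univ.erase a₁, ∑ i, χ (l, i) * qf D.toRD0 (g l) i,
          fun _ => by rw [norm_one], Or.inr ⟨fun _ => rfl, hχ₁⟩, ?_⟩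
        intro n hn
        rw [hΨ, one_mul, ← ep_add hp]
        congr 1
        rw [Fintype.sum_prod_type, ← Finset.add_sum_erase _ _ (Finset.mem_univ a₁), add_comm]
        congr 1
        · apply Finset.sum_congr rfl
          intro l hl
          change ∑ y, χ (l, y) * qf D.toRD0 (Function.update g a₁ n l) y = _
          rw [Function.update_of_ne (Finset.ne_of_mem_erase hl)]
        · change ∑ y, χ (a₁, y) * qf D.toRD0 (Function.update g a₁ n a₁) y = _
          rw [Function.update_self]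
          have e1 : ∀ v, fE D.toRD0 (akbE E Lg s) (fun _ => 0) (fun i => χ (a₁, i)) v =
              ∑ i, χ (a₁, i) * D.q v i := by
            intro v
            unfold fE dt
            simp
          simp only [e1]
          rw [Finset.sum_comm]
          apply Finset.sum_congr rfl
          intro i _
          rw [← Finset.mul_sum]
          congr 1
          unfold qf
          rw [Finset.sum_apply])
      calc ‖akcC p Φ χ‖ * _ ≤ 1 * ((∏ i, Y i) / sn Lg s * R) :=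
            mul_le_mul (akc_norm hp Φ hΦ1 χ) h1 (norm_nonneg _) zero_le_one
        _ = _ := one_mul _
    have hTT : TT D.toRD0 P b blk Y X Lg z₂ s (fun _ => 1) =
        ∑ χ : J × Fin D.r → ZMod p, akcC p Φ χ *
        ∑ g ∈ Fintype.piFinset (fun l => if l ∈ Lg then GF D.toRD0 X else {s l}),
        (if Cond blk Y Lg z₂ g then Ψ χ g else 0) := by
      unfold TT
      simp only [Finset.mul_sum]
      rw [Finset.sum_comm]
      apply Finset.sum_congr rfl
      intro g hg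
      rw [Fintype.mem_piFinset] at hg
      by_cases hc : Cond blk Y Lg z₂ g
      · rw [if_pos hc, one_mul]
        have hgs : ∀ l, l ∉ Lg → g l = s l := by
          intro l hl
          have := hg l
          rwa [if_neg hl, Finset.mem_singleton] at this
        have hadm : Adm D.toRD0 g := by
          refine ⟨?_, hc.1⟩
          intro l v hv
          by_cases hl : l ∈ Lg
          · have := hg l
            rw [if_pos hl, akb_mem_GF] at this
            exact this.2 v hv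
          · rw [hgs l hl] at hv
            exact (hs l hl).1 v hv
        rw [hf1 g hadm hgs]
        have e1 := akc_inv hp Φ (fun x : J × Fin D.r => qf D.toRD0 (g x.1) x.2)
        rw [hΦ] at e1
        rw [e1]
        apply Finset.sum_congr rfl
        intro χ _
        rw [if_pos hc, hΨ]
      · rw [if_neg hc]
        symm
        apply Finset.sum_eq_zero
        intro χ _
        rw [if_neg hc, mul_zero]
    rw [hTT]
    refine (norm_sum_le _ _).trans ((Finset.sum_le_sum fun χ _ => hone χ).trans ?_)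
    rw [Finset.sum_const, Finset.card_univ, Fintype.card_fun, ZMod.card, nsmul_eq_mul]
    have e1 : (((p ^ Fintype.card (J × Fin D.r) : ℕ)) : ℝ) = N := by
      rw [hN]
      push_cast
      rfl
    rw [e1]
    calc N * ((∏ i, Y i) / sn Lg s * R) = (∏ i, Y i) / sn Lg s * (N * R) := by ring
      _ ≤ _ := mul_le_mul_of_nonneg_left hNR hq0

end H63.MA
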