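import Pool.Agent.H63.MA.AThr
import Pool.Agent.H63.MA.ACmb
import Pool.Agent.H63.MA.AKA
import Pool.Agent.H63.MA.AKB
import Pool.Agent.H63.MA.AKC

/-!
# MA-AUP: upper bound for the refined sum

`Sp c b g`: for every `θ ≠ 0` there is a nonempty `g a` with `θ · x a ≠ 0`, or `bp b θ` is not a `p`-th power.
`aup`: for `√X ≤ Y ≤ X`, `BSup b E`, `nr E ≤ (log X)^A`:
`|∑_{g disjoint, ∏ nr (g a) ≤ Y, Sp c b g} ep(ph g)| ≤ C Y (log X)^{N-1}`.

Proof. Let `B` be the maximum of `2` and the numbers `B₁` of `kpa`, `kpb`, `kpc` (with `t = 1`, `blk` constant, and `A = 1`), `A' = max(A, B)`,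
`z j = (log X)^{A' B^j}`, so `z (j+1) = (z j)^B`, `z (j+1) ≥ (log X)^B`, `nr E ≤ z j`, `z` is monotone and `z j ≤ X` for `j ≤ #J` if `X` is
large. Apply `athr` (`w g` = the summand). In a block `(j, Lg, s)` the condition `Sp c b g` depends only on `Lg` and
`Ne = {l ∉ Lg : s l ≠ ∅}` (the large `g a` are nonempty since `nr (g a) > 1`; `nr ∅ = 1`); if it holds the inner sum is
`TT D c.pd b blk Y X Lg (z (j+1)) s 1` (`Cond` for the constant `blk : c.J → Fin 1`).
* If two elements of `Lg` are linked: `kpa`; else if an element of `Lg` is linked to one of `Ne`: `kpb`; else if there are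
  `a ≠ a' ∈ Lg`, `x a = x a'`, `bp b (θ a - θ a')` not a `p`-th power: `kpc`. In these cases `|TT| ≤ Y / sn / log X`, and the sum
  over `s` is `≤ C Y (1 + log (z j))^{#J} / log X ≤ C Y` for large `X` (`smf_sum`; `log (z j) = A' B^j log log X`).
* Otherwise `comb_up` (with `Pw θ = IsPow p (bp b θ)`) gives `#Lg ≤ N`, and `Ne = ∅` if `#Lg = N`. If `Lg ≠ ∅`: `|TT| ≤` number of terms
  `≤ C Y / sn (1 + log X)^{#Lg - 1}` (`tn_le_one`). For `#Lg = N` there is only `s = ∅`: `≤ C Y (1 + log X)^{N-1}`. For `#Lg < N` the sum over `s` is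
  `≤ C Y (1 + log X)^{N-2} (1 + log (z j))^{#J} ≤ C Y (log X)^{N-1}`. If `Lg = ∅` there is one term for every `s`, and the number of
  `s` is `≤ (C z j)^{#J} ≤ √X ≤ Y` for large `X` (`af_card`).
The number of pairs `(j, Lg)` is bounded.
-/

set_option autoImplicit false

open scoped NumberField
open IsDedekindDomain
open scoped Classical

noncomputable section

namespace H63.MA

variable {K : Type} [Field K] [NumberField K] {p : ℕ} {ζ : K} {m N : ℕ}

/-- the spanning condition for a family with parameter `b` -/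
def Sp (c : CD p m N) (b : Fin m → Kˣ) (g : c.J → Finset (Pl K)) : Prop :=
  ∀ θ : Fin m → ZMod p, θ ≠ 0 → (∃ a, g a ≠ ∅ ∧ dt θ (c.pd.x a) ≠ 0) ∨ ¬ IsPow p (bp b θ)

theorem aup_large (M n : ℕ) (C0 : ℝ) (hC0 : 1 ≤ C0) : ∃ X₀ : ℝ, 3 ≤ X₀ ∧ ∀ X : ℝ, X₀ ≤ X →
    Real.log X ^ M ≤ X ∧ (1 + Real.log (Real.log X ^ M)) ^ n ≤ Real.log X ∧
      (C0 * Real.log X ^ M) ^ n ≤ Real.sqrt X := by
  have hlo : ∀ (k : ℕ) (c : ℝ), 0 < c →
      ∀ᶠ x : ℝ in Filter.atTop, Real.log x ^ k ≤ c * x := by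
    intro k c hc
    filter_upwards [(Real.isLittleO_pow_log_id_atTop (n := k)).bound hc,
      Filter.eventually_ge_atTop (1 : ℝ)] with x hx hx1
    rw [Real.norm_of_nonneg (pow_nonneg (Real.log_nonneg hx1) _), id,
      Real.norm_of_nonneg (by linarith)] at hx
    exact hx
  have h1 := hlo M 1 one_pos
  have h2 : ∀ᶠ x : ℝ in Filter.atTop, (1 + Real.log (Real.log x ^ M)) ^ n ≤ Real.log x := by
    have h3 : ∀ᶠ t : ℝ in Filter.atTop, (1 + Real.log (t ^ M)) ^ n ≤ t := by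
      filter_upwards [hlo n (((1 + (M : ℝ)) ^ n)⁻¹) (by positivity),
        Filter.eventually_ge_atTop (Real.exp 1)] with t ht ht1
      have h4 : 1 ≤ Real.log t := by
        rw [Real.le_log_iff_exp_le (lt_of_lt_of_le (Real.exp_pos 1) ht1)]
        exact ht1
      have hM0 : (0 : ℝ) ≤ M := Nat.cast_nonneg _
      rw [Real.log_pow]
      calc (1 + (M : ℝ) * Real.log t) ^ n ≤ ((1 + M) * Real.log t) ^ n := by
            apply pow_le_pow_left₀ (by positivity)
            nlinarith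
        _ = (1 + (M : ℝ)) ^ n * Real.log t ^ n := mul_pow _ _ _
        _ ≤ (1 + (M : ℝ)) ^ n * (((1 + (M : ℝ)) ^ n)⁻¹ * t) :=
            mul_le_mul_of_nonneg_left ht (by positivity)
        _ = t := by field_simp
    exact Real.tendsto_log_atTop.eventually h3
  have hC00 : 0 < C0 := by linarith
  have h3 := hlo (M * n * 2) ((C0 ^ (n * 2))⁻¹) (by positivity)
  obtain ⟨X₀, hX₀⟩ := Filter.eventually_atTop.1 ((h1.and h2).and h3)
  refine ⟨max 3 X₀, le_max_left _ _, fun X hX => ?_⟩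
  have hX' := hX₀ X ((le_max_right _ _).trans hX)
  refine ⟨by simpa using hX'.1.1, hX'.1.2, (le_abs_self _).trans (Real.abs_le_sqrt ?_)⟩
  calc ((C0 * Real.log X ^ M) ^ n) ^ 2 = C0 ^ (n * 2) * Real.log X ^ (M * n * 2) := by
        rw [mul_pow, mul_pow, ← pow_mul, ← pow_mul, ← pow_mul, mul_assoc M n 2]
    _ ≤ C0 ^ (n * 2) * ((C0 ^ (n * 2))⁻¹ * X) :=
        mul_le_mul_of_nonneg_left hX'.2 (by positivity)
    _ = X := by field_simp

theorem aup_nr_empty : nr (∅ : Finset (Pl K)) = 1 := by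
  rw [nr, Finset.prod_empty]

/-- the spanning condition of a block -/
def SpL (c : CD p m N) (b : Fin m → Kˣ) (Lg Ne : Finset c.J) : Prop :=
  ∀ θ : Fin m → ZMod p, θ ≠ 0 →
    (∃ a ∈ Lg ∪ Ne, dt θ (c.pd.x a) ≠ 0) ∨ ¬ IsPow p (bp b θ)

theorem aup_inner [NeZero p] (D : RD K p ζ) (c : CD p m N) (b : Fin m → Kˣ) (X Y z₂ : ℝ)
    (hz₂ : 1 ≤ z₂) (Lg : Finset c.J) (s : c.J → Finset (Pl K)) :
    (∑ g ∈ Fintype.piFinset (fun a => if a ∈ Lg then GF D.toRD0 X else {s a}),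
      if ∀ a ∈ Lg, z₂ < nr (g a) then
        (if (∀ a a', a ≠ a' → Disjoint (g a) (g a')) ∧ ∏ a, nr (g a) ≤ Y ∧ Sp c b g then
          ep p (ph D.toRD0 c.pd b g) else 0) else 0) =
      if SpL c b Lg (Finset.univ.filter fun l => l ∉ Lg ∧ s l ≠ ∅) then
        TT D.toRD0 c.pd b (fun _ : c.J => (0 : Fin 1)) (fun _ => Y) X Lg z₂ s (fun _ => 1)
      else 0 := by
  have hSp : ∀ g ∈ Fintype.piFinset (fun a => if a ∈ Lg then GF D.toRD0 X else {s a}),
      (∀ a ∈ Lg, z₂ < nr (g a)) →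
      (Sp c b g ↔ SpL c b Lg (Finset.univ.filter fun l => l ∉ Lg ∧ s l ≠ ∅)) := by
    intro g hg hL
    have hg' : ∀ a, a ∉ Lg → g a = s a := by
      intro a ha
      have := (Fintype.mem_piFinset.1 hg) a
      rw [if_neg ha, Finset.mem_singleton] at this
      exact this
    have key : ∀ θ : Fin m → ZMod p, (∃ a, g a ≠ ∅ ∧ dt θ (c.pd.x a) ≠ 0) ↔
        ∃ a ∈ Lg ∪ (Finset.univ.filter fun l => l ∉ Lg ∧ s l ≠ ∅), dt θ (c.pd.x a) ≠ 0 := by
      intro θ
      constructor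
      · rintro ⟨a, h1, h2⟩
        refine ⟨a, ?_, h2⟩
        rw [Finset.mem_union]
        by_cases ha : a ∈ Lg
        · exact Or.inl ha
        · refine Or.inr ?_
          rw [Finset.mem_filter]
          refine ⟨Finset.mem_univ _, ha, ?_⟩
          rw [← hg' a ha]
          exact h1
      · rintro ⟨a, h1, h2⟩
        refine ⟨a, ?_, h2⟩
        rcases Finset.mem_union.1 h1 with h3 | h3
        · intro h4
          have h5 := hL a h3
          rw [h4, aup_nr_empty] at h5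
          linarith
        · rw [Finset.mem_filter] at h3
          rw [hg' a h3.2.1]
          exact h3.2.2
    unfold Sp SpL
    exact forall_congr' fun θ => forall_congr' fun _ => or_congr (key θ) Iff.rfl
  have hprod : ∀ g : c.J → Finset (Pl K),
      (∀ i : Fin 1, ∏ a ∈ Finset.univ.filter (fun _ : c.J => (0 : Fin 1) = i), nr (g a) ≤ Y) ↔
        ∏ a, nr (g a) ≤ Y := by
    intro g
    constructor
    · intro h
      have := h 0
      rwa [Finset.filter_true_of_mem (fun _ _ => rfl)] at this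
    · intro h i
      rw [Finset.filter_true_of_mem (fun _ _ => Subsingleton.elim _ _)]
      exact h
  by_cases hS : SpL c b Lg (Finset.univ.filter fun l => l ∉ Lg ∧ s l ≠ ∅)
  · rw [if_pos hS]
    unfold TT
    refine Finset.sum_congr rfl fun g hg => ?_
    by_cases hL : ∀ a ∈ Lg, z₂ < nr (g a)
    · rw [if_pos hL]
      by_cases h1 : (∀ a a', a ≠ a' → Disjoint (g a) (g a')) ∧ ∏ a, nr (g a) ≤ Y
      · rw [if_pos ⟨h1.1, h1.2, (hSp g hg hL).2 hS⟩, if_pos, one_mul]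
        exact ⟨h1.1, hL, (hprod g).2 h1.2⟩
      · rw [if_neg (fun h => h1 ⟨h.1, h.2.1⟩), if_neg]
        intro h
        exact h1 ⟨h.1, (hprod g).1 h.2.2⟩
    · rw [if_neg hL, if_neg]
      intro h
      exact hL h.2.1
  · rw [if_neg hS]
    refine Finset.sum_eq_zero fun g hg => ?_
    by_cases hL : ∀ a ∈ Lg, z₂ < nr (g a)
    · rw [if_pos hL, if_neg]
      intro h
      exact hS ((hSp g hg hL).1 h.2.2)
    · rw [if_neg hL]

theorem aup_tt_card [NeZero p] (D : RD K p ζ) (c : CD p m N) (b : Fin m → Kˣ) (X Y z₂ : ℝ)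
    (Lg : Finset c.J) (s : c.J → Finset (Pl K)) :
    ‖TT D.toRD0 c.pd b (fun _ : c.J => (0 : Fin 1)) (fun _ => Y) X Lg z₂ s (fun _ => 1)‖ ≤
      (((fam K X Lg Lg s).filter fun g => ∏ a, nr (g a) ≤ Y).card : ℝ) := by
  unfold TT
  have h1 : ∀ g ∈ Fintype.piFinset (fun a => if a ∈ Lg then GF D.toRD0 X else {s a}),
      ‖(if Cond (fun _ : c.J => (0 : Fin 1)) (fun _ => Y) Lg z₂ g then
        (1 : ℂ) * ep p (ph D.toRD0 c.pd b g) else 0)‖ ≤
        if g ∈ (fam K X Lg Lg s).filter (fun g => ∏ a, nr (g a) ≤ Y) then (1 : ℝ) else 0 := by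
    intro g hg
    by_cases h2 : Cond (fun _ : c.J => (0 : Fin 1)) (fun _ => Y) Lg z₂ g
    · rw [if_pos h2, if_pos, one_mul, ep_norm]
      rw [Finset.mem_filter]
      constructor
      · rw [fam, Fintype.mem_piFinset]
        intro a
        have h3 := (Fintype.mem_piFinset.1 hg) a
        by_cases ha : a ∈ Lg
        · rw [if_pos ha] at h3 ⊢
          exact (Finset.mem_filter.1 h3).1
        · rw [if_neg ha] at h3 ⊢
          rw [if_neg ha]
          exact h3
      · have h3 := h2.2.2 0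
        rwa [Finset.filter_true_of_mem (fun _ _ => rfl)] at h3
    · rw [if_neg h2, norm_zero]
      split_ifs
      · exact zero_le_one
      · exact le_rfl
  refine (norm_sum_le _ _).trans ((Finset.sum_le_sum h1).trans ?_)
  rw [Finset.sum_ite_mem, Finset.sum_const, nsmul_eq_mul, mul_one]
  exact_mod_cast Finset.card_le_card Finset.inter_subset_right

theorem aup_tt_one [NeZero p] (D : RD K p ζ) (c : CD p m N) (b : Fin m → Kˣ) (X Y z₂ : ℝ)
    (s : c.J → Finset (Pl K)) :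
    ‖TT D.toRD0 c.pd b (fun _ : c.J => (0 : Fin 1)) (fun _ => Y) X ∅ z₂ s (fun _ => 1)‖ ≤ 1 := by
  unfold TT
  refine (norm_sum_le _ _).trans ?_
  have h1 : ∀ g ∈ Fintype.piFinset (fun a => if a ∈ (∅ : Finset c.J) then GF D.toRD0 X else {s a}),
      ‖(if Cond (fun _ : c.J => (0 : Fin 1)) (fun _ => Y) ∅ z₂ g then
        (1 : ℂ) * ep p (ph D.toRD0 c.pd b g) else 0)‖ ≤ 1 := by
    intro g _
    split_ifs
    · rw [one_mul, ep_norm]
    · rw [norm_zero]
      exact zero_le_one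
  refine (Finset.sum_le_card_nsmul _ _ _ h1).trans ?_
  rw [Fintype.card_piFinset]
  have h2 : ∀ a : c.J, (if a ∈ (∅ : Finset c.J) then GF D.toRD0 X else {s a}).card = 1 := by
    intro a
    rw [if_neg (Finset.notMem_empty a), Finset.card_singleton]
  simp only [h2, Finset.prod_const_one, one_smul]
  exact le_rfl

theorem aup [NeZero p] (hp : p.Prime) (hp2 : MOne p K) (hζ : IsPrimitiveRoot ζ p) (D : RD K p ζ)
    (c : CD p m N) (A : ℕ) :
    ∃ C X₀ : ℝ, 0 < C ∧ 3 ≤ X₀ ∧ ∀ X Y : ℝ, X₀ ≤ X → Real.sqrt X ≤ Y → Y ≤ X →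
      ∀ (b : Fin m → Kˣ) (E : Finset (Pl K)), BSup D.toRD0 b E → nr E ≤ Real.log X ^ A →
        ‖∑ g ∈ Fintype.piFinset (fun _ : c.J => GF D.toRD0 X),
          if (∀ a a', a ≠ a' → Disjoint (g a) (g a')) ∧ ∏ a, nr (g a) ≤ Y ∧ Sp c b g then
            ep p (ph D.toRD0 c.pd b g) else 0‖ ≤ C * Y * Real.log X ^ (N - 1) := by
  obtain ⟨Ba, Xa, hXa, hka⟩ := kpa hp hζ D c.pd (fun _ : c.J => (0 : Fin 1)) 1
  obtain ⟨Bb, Xb, hXb, hkb⟩ := kpb hp hζ D c.pd (fun _ : c.J => (0 : Fin 1)) 1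
  obtain ⟨Bc, Xc, hXc, hkc⟩ := kpc hp hp2 hζ D c.pd (fun _ : c.J => (0 : Fin 1)) 1
  obtain ⟨C1, hC1, htn⟩ := tn_le_one K (J := c.J)
  obtain ⟨C2, hC2, hsm⟩ := smf_sum K (J := c.J) (af_inv K)
  obtain ⟨C0', hC0', haf'⟩ := af_card K
  obtain ⟨C0, hC0⟩ : ∃ C0 : ℝ, C0 = max C0' 1 := ⟨_, rfl⟩
  have hC01 : 1 ≤ C0 := by rw [hC0]; exact le_max_right _ _
  have haf : ∀ y : ℝ, 1 ≤ y → ((AF K y).card : ℝ) ≤ C0 * y := by
    intro y hy
    refine (haf' y hy).trans (mul_le_mul_of_nonneg_right ?_ (by linarith))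
    rw [hC0]
    exact le_max_left _ _
  obtain ⟨B, hB⟩ : ∃ B : ℕ, B = max (max 2 Ba) (max Bb Bc) := ⟨_, rfl⟩
  have hB2 : 2 ≤ B := by rw [hB]; exact (le_max_left _ _).trans (le_max_left _ _)
  have hBa : Ba ≤ B := by rw [hB]; exact (le_max_right _ _).trans (le_max_left _ _)
  have hBb : Bb ≤ B := by rw [hB]; exact (le_max_left _ _).trans (le_max_right _ _)
  have hBc : Bc ≤ B := by rw [hB]; exact (le_max_right _ _).trans (le_max_right _ _)
  obtain ⟨A', hA'⟩ : ∃ A' : ℕ, A' = max A 1 := ⟨_, rfl⟩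
  have hA'A : A ≤ A' := by rw [hA']; exact le_max_left _ _
  have hA'1 : 1 ≤ A' := by rw [hA']; exact le_max_right _ _
  obtain ⟨n, hn⟩ : ∃ n : ℕ, n = Fintype.card c.J := ⟨_, rfl⟩
  obtain ⟨Xl, hXl, hlarge⟩ := aup_large (A' * B ^ n) n C0 hC01
  obtain ⟨X₀, hX₀⟩ : ∃ X₀ : ℝ, X₀ = max (max Xa Xb) (max Xc Xl) := ⟨_, rfl⟩
  have hX₀a : Xa ≤ X₀ := by rw [hX₀]; exact (le_max_left _ _).trans (le_max_left _ _)
  have hX₀b : Xb ≤ X₀ := by rw [hX₀]; exact (le_max_right _ _).trans (le_max_left _ _)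
  have hX₀c : Xc ≤ X₀ := by rw [hX₀]; exact (le_max_left _ _).trans (le_max_right _ _)
  have hX₀l : Xl ≤ X₀ := by rw [hX₀]; exact (le_max_right _ _).trans (le_max_right _ _)
  refine ⟨((n : ℝ) + 1) * 2 ^ n * (((1 + C1) * C2 + C1 + 1) * 2 ^ (N - 1)), X₀, by positivity,
    hXa.trans hX₀a, fun X Y hX hY1 hY2 b E hb hE => ?_⟩
  have hX3 : 3 ≤ X := (hXa.trans hX₀a).trans hX
  have hX0 : 0 < X := by linarith
  have hL1 : 1 ≤ Real.log X := by
    rw [Real.le_log_iff_exp_le hX0]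
    linarith [Real.exp_one_lt_d9]
  obtain ⟨L, hL⟩ : ∃ L : ℝ, L = Real.log X := ⟨_, rfl⟩
  obtain ⟨hl1, hl2, hl3⟩ := hlarge X (hX₀l.trans hX)
  rw [← hL] at hl1 hl2 hl3 hL1 hE
  have hL0 : 0 < L := by linarith
  have hY1' : 1 ≤ Y := by
    refine le_trans ?_ hY1
    exact (Real.one_le_sqrt).2 (by linarith)
  have hY0 : 0 < Y := by linarith
  obtain ⟨z, hz⟩ : ∃ z : ℕ → ℝ, z = fun j => L ^ (A' * B ^ j) := ⟨_, rfl⟩
  have hzj : ∀ j, z j = L ^ (A' * B ^ j) := fun j => by rw [hz]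
  have hzm : Monotone z := by
    intro i j hij
    rw [hzj, hzj]
    exact pow_le_pow_right₀ hL1 (Nat.mul_le_mul_left _ (Nat.pow_le_pow_right (by omega) hij))
  have hz1 : ∀ j, 1 ≤ z j := fun j => by rw [hzj]; exact one_le_pow₀ hL1
  have hzX : ∀ j, j ≤ Fintype.card c.J → z j ≤ X := by
    intro j hj
    refine (hzm hj).trans ?_
    rw [hzj, ← hn]
    exact hl1
  have hzs : ∀ j, z (j + 1) = z j ^ B := by
    intro j
    rw [hzj, hzj, ← pow_mul, pow_succ, mul_assoc]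
  have hzB : ∀ j (B' : ℕ), B' ≤ B → z j ^ B' ≤ z (j + 1) := by
    intro j B' hB'
    rw [hzs]
    exact pow_le_pow_right₀ (hz1 j) hB'
  have hLz : ∀ j (B' : ℕ), B' ≤ B → L ^ B' ≤ z (j + 1) := by
    intro j B' hB'
    rw [hzj]
    refine pow_le_pow_right₀ hL1 (hB'.trans ?_)
    calc B = 1 * B ^ 1 := by ring
      _ ≤ A' * B ^ (j + 1) := Nat.mul_le_mul hA'1 (Nat.pow_le_pow_right (by omega) (by omega))
  have hEz : ∀ j, nr E ≤ z j := by
    intro j
    refine hE.trans ?_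
    rw [hzj]
    refine pow_le_pow_right₀ hL1 (hA'A.trans ?_)
    exact Nat.le_mul_of_pos_right _ (Nat.pow_pos (by omega))
  obtain ⟨U, hU⟩ : ∃ U : ℝ, U = (1 + C1) * Y * (1 + L) ^ (N - 1) / L := ⟨_, rfl⟩
  obtain ⟨V, hV⟩ : ∃ V : ℝ, V = C1 * Y * (1 + L) ^ (N - 1) := ⟨_, rfl⟩
  have h1L : 1 ≤ (1 + L) ^ (N - 1) := one_le_pow₀ (by linarith)
  have hU0 : 0 ≤ U := by rw [hU]; positivity
  have hV0 : 0 ≤ V := by rw [hV]; positivity
  have hblock : ∀ (j : ℕ) (Lg : Finset c.J), ∀ s ∈ SmF D.toRD0 z j Lg,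
      ‖∑ g ∈ Fintype.piFinset (fun a => if a ∈ Lg then GF D.toRD0 X else {s a}),
      if ∀ a ∈ Lg, z (j + 1) < nr (g a) then
        (if (∀ a a', a ≠ a' → Disjoint (g a) (g a')) ∧ ∏ a, nr (g a) ≤ Y ∧ Sp c b g then
          ep p (ph D.toRD0 c.pd b g) else 0) else 0‖ ≤
      U * (sn Lg s)⁻¹ + (if s = fun _ => ∅ then V else 0) + 1 := by
    intro j Lg s hs
    rw [aup_inner D c b X Y (z (j + 1)) (hz1 _) Lg s]
    have hsn : 1 ≤ sn Lg s := by
      rw [sn]
      calc (1 : ℝ) = ∏ a ∈ Finset.univ.filter (fun a => a ∉ Lg), (1 : ℝ) :=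
            (Finset.prod_const_one).symm
        _ ≤ _ := Finset.prod_le_prod (fun _ _ => zero_le_one) fun a _ => one_le_nr _
    have hsn0 : 0 < sn Lg s := by linarith
    have hV' : 0 ≤ (if s = fun _ => ∅ then V else 0) := by
      split_ifs
      · exact hV0
      · exact le_rfl
    have hUs : 0 ≤ U * (sn Lg s)⁻¹ := mul_nonneg hU0 (inv_nonneg.2 hsn0.le)
    rw [SmF, Finset.mem_filter, Fintype.mem_piFinset] at hs
    have hs1 : ∀ l, l ∉ Lg → (∀ v ∈ s l, D.Gd v) ∧ nr (s l) ≤ z j := by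
      intro l hl
      have := hs.1 l
      rw [if_neg hl, GF, Finset.mem_filter, mem_AF] at this
      exact ⟨this.2, this.1⟩
    have hs2 : ∀ l, l ∈ Lg → s l = ∅ := by
      intro l hl
      have := hs.1 l
      rw [if_pos hl, Finset.mem_singleton] at this
      exact this
    by_cases hS : SpL c b Lg (Finset.univ.filter fun l => l ∉ Lg ∧ s l ≠ ∅)
    swap
    · rw [if_neg hS, norm_zero]
      linarith
    rw [if_pos hS]
    have hsmall : (∏ _i : Fin 1, Y) / sn Lg s * Real.log X ^ (-(1 : ℝ)) ≤ U * (sn Lg s)⁻¹ := by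
      rw [Fin.prod_univ_one, Real.rpow_neg_one, ← hL, hU]
      have h2 : Y / sn Lg s * L⁻¹ = (Y / L) * (sn Lg s)⁻¹ := by
        field_simp
      rw [h2]
      refine mul_le_mul_of_nonneg_right ?_ (inv_nonneg.2 hsn0.le)
      apply div_le_div_of_nonneg_right _ hL0.le
      have h3 : 1 * Y * 1 ≤ (1 + C1) * Y * (1 + L) ^ (N - 1) :=
        mul_le_mul (mul_le_mul_of_nonneg_right (by linarith) hY0.le) h1L zero_le_one
          (by positivity)
      linarith
    have hYi : ∀ _i : Fin 1, 0 < Y ∧ Y ≤ X := fun _ => ⟨hY0, hY2⟩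
    by_cases h1 : ∃ a ∈ Lg, ∃ a' ∈ Lg, c.pd.lk a a' ≠ 0
    · have := hka X (z j) (z (j + 1)) (hX₀a.trans hX) (hz1 j) (hzB j Ba hBa)
        (by rw [← hL]; exact hLz j Ba hBa) (fun _ => Y) hYi b E hb (hEz j) Lg s hs1
        (fun _ => 1) (fun _ => by rw [norm_one]) h1
      linarith
    by_cases h2 : ∃ a ∈ Lg, ∃ l, l ∉ Lg ∧ s l ≠ ∅ ∧ c.pd.lk a l ≠ 0
    · have := hkb X (z j) (z (j + 1)) (hX₀b.trans hX) (hz1 j) (hzB j Bb hBb)
        (by rw [← hL]; exact hLz j Bb hBb) (fun _ => Y) hYi b E hb (hEz j) Lg s hs1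
        (fun _ => 1) (fun _ => by rw [norm_one])
        (fun a ha a' ha' => by
          by_contra h
          exact h1 ⟨a, ha, a', ha', h⟩) h2
      linarith
    by_cases h3 : ∃ a ∈ Lg, ∃ a' ∈ Lg, a ≠ a' ∧ c.pd.x a = c.pd.x a' ∧
        ¬ IsPow p (bp b (c.pd.θ a - c.pd.θ a'))
    · have := hkc X (z j) (z (j + 1)) (hX₀c.trans hX) (hz1 j) (hzB j Bc hBc)
        (by rw [← hL]; exact hLz j Bc hBc) (fun _ => Y) hYi b E hb (hEz j) Lg s hs1
        (fun a ha a' ha' => by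
          by_contra h
          exact h1 ⟨a, ha, a', ha', h⟩)
        (fun a ha l hl hsl => by
          by_contra h
          exact h2 ⟨a, ha, l, hl, hsl, h⟩) h3
      linarith
    push Not at h1 h2 h3
    obtain ⟨hc1, hc2⟩ := comb_up c Lg (Finset.univ.filter fun l => l ∉ Lg ∧ s l ≠ ∅)
      (fun θ => IsPow p (bp b θ)) h1
      (fun a ha l hl => by
        rw [Finset.mem_filter] at hl
        exact h2 a ha l hl.2.1 (Finset.nonempty_iff_ne_empty.2 hl.2.2))
      (fun a ha a' ha' hne hx => h3 a ha a' ha' hne hx) hS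
    rcases Finset.eq_empty_or_nonempty Lg with hLe | hLn
    · rw [hLe] at hUs ⊢
      have := aup_tt_one D c b X Y (z (j + 1)) s
      linarith
    · have h4 := (aup_tt_card D c b X Y (z (j + 1)) Lg s).trans
        (htn Lg s Y X (by linarith) hY0 hY2 hLn)
      rw [← hL] at h4
      by_cases hN : Lg.card = N
      · have h5 : s = fun _ => ∅ := by
          funext l
          by_cases hl : l ∈ Lg
          · exact hs2 l hl
          · by_contra h
            exact hl (hc2 hN (Finset.mem_filter.2 ⟨Finset.mem_univ _, hl, h⟩))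
        rw [if_pos h5]
        have h6 : sn Lg s = 1 := by
          rw [sn, h5]
          exact Finset.prod_eq_one fun _ _ => aup_nr_empty
        rw [h6, div_one, hN, ← hV] at h4
        linarith
      · have h5 : (1 + L) ^ (Lg.card - 1) * L ≤ (1 + L) ^ (N - 1) := by
          have h6 : Lg.card - 1 + 1 ≤ N - 1 := by
            have := Finset.Nonempty.card_pos hLn
            omega
          calc (1 + L) ^ (Lg.card - 1) * L ≤ (1 + L) ^ (Lg.card - 1) * (1 + L) :=
                mul_le_mul_of_nonneg_left (by linarith) (by positivity)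
            _ = (1 + L) ^ (Lg.card - 1 + 1) := (pow_succ _ _).symm
            _ ≤ _ := pow_le_pow_right₀ (by linarith) h6
        have h6 : C1 * Y / sn Lg s * (1 + L) ^ (Lg.card - 1) ≤ U * (sn Lg s)⁻¹ := by
          have h7 : C1 * Y / sn Lg s * (1 + L) ^ (Lg.card - 1) =
              (C1 * Y * (1 + L) ^ (Lg.card - 1)) * (sn Lg s)⁻¹ := by
            field_simp
          rw [h7, hU]
          refine mul_le_mul_of_nonneg_right ?_ (inv_nonneg.2 hsn0.le)
          rw [le_div_iff₀ hL0]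
          have h8 : C1 * Y * ((1 + L) ^ (Lg.card - 1) * L) ≤ C1 * Y * (1 + L) ^ (N - 1) :=
            mul_le_mul_of_nonneg_left h5 (by positivity)
          have h9 : 0 ≤ Y * (1 + L) ^ (N - 1) := by positivity
          linarith
        linarith
  obtain ⟨W, hW⟩ : ∃ W : ℝ, W = ((1 + C1) * C2 + C1 + 1) * (Y * (1 + L) ^ (N - 1)) := ⟨_, rfl⟩
  have hsum : ∀ (j : ℕ), j ≤ n → ∀ (Lg : Finset c.J),
      ∑ s ∈ SmF D.toRD0 z j Lg, (U * (sn Lg s)⁻¹ + (if s = fun _ => ∅ then V else 0) + 1) ≤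
        W := by
    intro j hj Lg
    rw [Finset.sum_add_distrib, Finset.sum_add_distrib, ← Finset.mul_sum]
    have h1 : ∑ s ∈ SmF D.toRD0 z j Lg, (sn Lg s)⁻¹ ≤ C2 * L := by
      have h2 := hsm p ζ D.toRD0 z j Lg (hz1 j)
      have h3 : (1 + Real.log (z j)) ^ Fintype.card c.J ≤ L := by
        refine le_trans ?_ hl2
        rw [← hn]
        refine pow_le_pow_left₀ (by linarith [Real.log_nonneg (hz1 j)]) ?_ n
        have h4 : z j ≤ L ^ (A' * B ^ n) := by
          rw [← hzj]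
          exact hzm hj
        have := Real.log_le_log (by linarith [hz1 j]) h4
        linarith
      exact h2.trans (mul_le_mul_of_nonneg_left h3 hC2.le)
    have h2 : ∑ s ∈ SmF D.toRD0 z j Lg, (if s = fun _ => ∅ then V else 0) ≤ V := by
      rw [Finset.sum_ite_eq']
      split_ifs
      · exact le_rfl
      · exact hV0
    have h3 : ∑ s ∈ SmF D.toRD0 z j Lg, (1 : ℝ) ≤ Y := by
      rw [Finset.sum_const, nsmul_eq_mul, mul_one]
      refine le_trans ?_ hY1
      refine le_trans ?_ hl3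
      have h4 : ((SmF D.toRD0 z j Lg).card : ℝ) ≤
          ((Fintype.piFinset fun a => if a ∈ Lg then {∅} else GF D.toRD0 (z j)).card : ℝ) := by
        exact_mod_cast Finset.card_le_card (Finset.filter_subset _ _)
      refine h4.trans ?_
      rw [Fintype.card_piFinset]
      push_cast
      have h5 : ∀ a ∈ (Finset.univ : Finset c.J),
          (((if a ∈ Lg then {∅} else GF D.toRD0 (z j)).card : ℕ) : ℝ) ≤
            C0 * L ^ (A' * B ^ n) := by
        intro a _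
        have h6 : 1 ≤ L ^ (A' * B ^ n) := one_le_pow₀ hL1
        have h7 : 1 ≤ C0 * L ^ (A' * B ^ n) := one_le_mul_of_one_le_of_one_le hC01 h6
        by_cases ha : a ∈ Lg
        · rw [if_pos ha, Finset.card_singleton, Nat.cast_one]
          exact h7
        · rw [if_neg ha]
          have h8 : ((GF D.toRD0 (z j)).card : ℝ) ≤ ((AF K (z j)).card : ℝ) := by
            exact_mod_cast Finset.card_le_card (Finset.filter_subset _ _)
          have h9 : z j ≤ L ^ (A' * B ^ n) := by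
            rw [← hzj]
            exact hzm hj
          exact (h8.trans (haf _ (hz1 j))).trans
            (mul_le_mul_of_nonneg_left h9 (by linarith))
      refine (Finset.prod_le_prod (fun _ _ => Nat.cast_nonneg _) h5).trans ?_
      rw [Finset.prod_const, Finset.card_univ, ← hn]
    have h4 : U * ∑ s ∈ SmF D.toRD0 z j Lg, (sn Lg s)⁻¹ ≤ U * (C2 * L) :=
      mul_le_mul_of_nonneg_left h1 hU0
    have h5 : U * (C2 * L) = (1 + C1) * C2 * (Y * (1 + L) ^ (N - 1)) := by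
      rw [hU]
      field_simp
    have h6 : Y ≤ Y * (1 + L) ^ (N - 1) := le_mul_of_one_le_right hY0.le h1L
    rw [hW]
    have h7 : V = C1 * (Y * (1 + L) ^ (N - 1)) := by rw [hV]; ring
    linarith
  rw [athr D.toRD0 z hzm X hzX]
  have htot : ∀ j ∈ Finset.range (Fintype.card c.J + 1), ∀ Lg ∈ (Finset.univ : Finset (Finset c.J)),
      ‖∑ s ∈ SmF D.toRD0 z j Lg,
        ∑ g ∈ Fintype.piFinset (fun a => if a ∈ Lg then GF D.toRD0 X else {s a}),
        if ∀ a ∈ Lg, z (j + 1) < nr (g a) then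
        (if (∀ a a', a ≠ a' → Disjoint (g a) (g a')) ∧ ∏ a, nr (g a) ≤ Y ∧ Sp c b g then
          ep p (ph D.toRD0 c.pd b g) else 0) else 0‖ ≤ W := by
    intro j hj Lg _
    refine (norm_sum_le _ _).trans ((Finset.sum_le_sum fun s hs => hblock j Lg s hs).trans ?_)
    apply hsum j
    rw [Finset.mem_range] at hj
    omega
  have hW0 : 0 ≤ W := by rw [hW]; positivity
  refine (norm_sum_le _ _).trans ((Finset.sum_le_card_nsmul _ _ (2 ^ n * W) fun j hj => ?_).trans ?_)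
  · refine (norm_sum_le _ _).trans ((Finset.sum_le_card_nsmul _ _ W (htot j hj)).trans ?_)
    rw [Finset.card_univ, Fintype.card_finset, nsmul_eq_mul, ← hn]
    push_cast
    exact le_rfl
  · rw [Finset.card_range, nsmul_eq_mul, ← hn, ← hL, hW]
    push_cast
    have h1 : (1 + L) ^ (N - 1) ≤ 2 ^ (N - 1) * L ^ (N - 1) := by
      rw [← mul_pow]
      exact pow_le_pow_left₀ (by linarith) (by linarith) _
    have h2 : Y * (1 + L) ^ (N - 1) ≤ Y * (2 ^ (N - 1) * L ^ (N - 1)) :=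
      mul_le_mul_of_nonneg_left h1 hY0.le
    calc ((n : ℝ) + 1) * (2 ^ n * (((1 + C1) * C2 + C1 + 1) * (Y * (1 + L) ^ (N - 1))))
        ≤ ((n : ℝ) + 1) * (2 ^ n * (((1 + C1) * C2 + C1 + 1) *
            (Y * (2 ^ (N - 1) * L ^ (N - 1))))) := by
          refine mul_le_mul_of_nonneg_left ?_ (by positivity)
          refine mul_le_mul_of_nonneg_left ?_ (by positivity)
          exact mul_le_mul_of_nonneg_left h2 (by positivity)
      _ = _ := by ring

end H63.MA
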