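import Pool.Agent.H63.MA.AExp
import Pool.Agent.H63.MA.AUp

/-!
# MA-ATUPA: the weighted sum over families of good primes

`SpF c b f`: for every `θ ≠ 0` there is a nonempty `f i` with `θ · x i ≠ 0`, or `bp b θ` is not a `p`-th power.
`Sg D c b X Y = ∑_{f : Fin N → GF X, disjoint, ∏ nr (f i) ≤ Y, SpF} wt c f (LL v (ak b f))`.
* `sg_eq`: for `Y ≤ X`: `Sg` is the sum `∑_g ep(ph g)` of `aup`: `gexp` with `Φ f = 1` if `∏ nr (f i) ≤ Y` and `SpF c b f`, `0` otherwise;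
  `un_nr_prod`; `SpF c b (un c g) ↔ Sp c b g`; the condition `un c g i ∈ GF X` follows from `∏ nr ≤ Y ≤ X` (every factor is `≥ 1`) and goodness.
* `sg_up`: `Sg ≤ C Y (log X)^{N-1}` for `√X ≤ Y ≤ X` and `nr E ≤ (log X)^A` (`aup`; a real number is at most the norm of its image in `ℂ`).
* `sg_triv`: `Sg ≤ C Y (1 + log X)^{#J}` for all `0 < Y ≤ X`, `1 ≤ X` (number of terms; `af_tup_one` if `J` is nonempty, otherwise one term;
  no terms if `Y < 1`).
-/

set_option autoImplicit false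

open scoped NumberField
open IsDedekindDomain
open scoped Classical

noncomputable section

namespace H63.MA

variable {K : Type} [Field K] [NumberField K] {p : ℕ} {ζ : K} {m N : ℕ}

/-- the spanning condition for an unrefined family -/
def SpF (c : CD p m N) (b : Fin m → Kˣ) (f : Fin N → Finset (Pl K)) : Prop :=
  ∀ θ : Fin m → ZMod p, θ ≠ 0 → (∃ i, f i ≠ ∅ ∧ dt θ (c.x i) ≠ 0) ∨ ¬ IsPow p (bp b θ)

/-- the weighted sum over families of good primes -/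
def Sg (D : RD0 K p ζ) (c : CD p m N) (b : Fin m → Kˣ) (X Y : ℝ) : ℝ :=
  ∑ f ∈ Fintype.piFinset (fun _ : Fin N => GF D X),
    if Dj f ∧ ∏ i, nr (f i) ≤ Y ∧ SpF c b f then wt c f (fun v k => D.LL v (ak D c b f k)) else 0

theorem atupa_mem_GF {D : RD0 K p ζ} {X : ℝ} {n : Finset (Pl K)} :
    n ∈ GF D X ↔ nr n ≤ X ∧ ∀ v ∈ n, D.Gd v := by
  unfold GF
  rw [Finset.mem_filter, mem_AF]

theorem atupa_prod_one {I : Type} [Fintype I] (g : I → Finset (Pl K)) (s : Finset I) :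
    1 ≤ ∏ a ∈ s, nr (g a) := by
  induction s using Finset.induction_on with
  | empty => simp
  | insert a s ha ih =>
    rw [Finset.prod_insert ha]
    exact one_le_mul_of_one_le_of_one_le (one_le_nr _) ih

theorem atupa_le_prod {I : Type} [Fintype I] (g : I → Finset (Pl K)) (a : I) :
    nr (g a) ≤ ∏ a, nr (g a) := by
  rw [← Finset.mul_prod_erase Finset.univ (fun a => nr (g a)) (Finset.mem_univ a)]
  exact le_mul_of_one_le_right (by linarith [one_le_nr (g a)]) (atupa_prod_one g _)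

theorem atupa_mem_un [NeZero p] (c : CD p m N) (g : c.J → Finset (Pl K)) (i : Fin N) (v : Pl K) :
    v ∈ un c g i ↔ ∃ θ : {θ : Fin m → ZMod p // θ ∈ c.Θ i}, v ∈ g ⟨i, θ⟩ := by
  unfold un
  simp

theorem atupa_un_ne [NeZero p] (c : CD p m N) (g : c.J → Finset (Pl K)) (i : Fin N) :
    un c g i ≠ ∅ ↔ ∃ θ : {θ : Fin m → ZMod p // θ ∈ c.Θ i}, g ⟨i, θ⟩ ≠ ∅ := by
  constructor
  · intro h
    obtain ⟨v, hv⟩ := Finset.nonempty_iff_ne_empty.2 h
    obtain ⟨θ, hθ⟩ := (atupa_mem_un c g i v).1 hv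
    exact ⟨θ, Finset.nonempty_iff_ne_empty.1 ⟨v, hθ⟩⟩
  · rintro ⟨θ, hθ⟩
    obtain ⟨v, hv⟩ := Finset.nonempty_iff_ne_empty.2 hθ
    exact Finset.nonempty_iff_ne_empty.1 ⟨v, (atupa_mem_un c g i v).2 ⟨θ, hv⟩⟩

theorem atupa_sp [NeZero p] (c : CD p m N) (b : Fin m → Kˣ) (g : c.J → Finset (Pl K)) :
    SpF c b (un c g) ↔ Sp c b g := by
  unfold SpF Sp
  refine forall_congr' fun θ => imp_congr_right fun _ => or_congr ?_ Iff.rfl
  constructor
  · rintro ⟨i, hi, hd⟩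
    obtain ⟨θ', hθ'⟩ := (atupa_un_ne c g i).1 hi
    exact ⟨⟨i, θ'⟩, hθ', hd⟩
  · rintro ⟨⟨i, θ'⟩, hi, hd⟩
    exact ⟨i, (atupa_un_ne c g i).2 ⟨θ', hi⟩, hd⟩

theorem atupa_mem [NeZero p] (D : RD0 K p ζ) (c : CD p m N) (g : c.J → Finset (Pl K)) (hg : Dj g)
    (X Y : ℝ) (hY : Y ≤ X) (hgf : ∀ a, g a ∈ GF D X) (h : ∏ i, nr (un c g i) ≤ Y) (i : Fin N) :
    un c g i ∈ GF D X := by
  rw [atupa_mem_GF]
  refine ⟨(atupa_le_prod (un c g) i).trans (h.trans hY), fun v hv => ?_⟩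
  obtain ⟨θ, hθ⟩ := (atupa_mem_un c g i v).1 hv
  exact (atupa_mem_GF.1 (hgf ⟨i, θ⟩)).2 v hθ

theorem sg_eq [NeZero p] (hp : p.Prime) (hζ : IsPrimitiveRoot ζ p) (D : RD K p ζ) (c : CD p m N)
    (b : Fin m → Kˣ) (X Y : ℝ) (hY : Y ≤ X) :
    ((Sg D.toRD0 c b X Y : ℝ) : ℂ) = ∑ g ∈ Fintype.piFinset (fun _ : c.J => GF D.toRD0 X),
      if (∀ a a', a ≠ a' → Disjoint (g a) (g a')) ∧ ∏ a, nr (g a) ≤ Y ∧ Sp c b g then
        ep p (ph D.toRD0 c.pd b g) else 0 := by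
  have h1 := gexp hp hζ D c b X
    (fun f => if ∏ i, nr (f i) ≤ Y ∧ SpF c b f then 1 else 0)
  have h2 : ((Sg D.toRD0 c b X Y : ℝ) : ℂ) =
      ∑ f ∈ Fintype.piFinset (fun _ : Fin N => GF D.toRD0 X),
        (if Dj f then (if ∏ i, nr (f i) ≤ Y ∧ SpF c b f then (1 : ℂ) else 0) *
          ((wt c f (fun v k => D.LL v (ak D.toRD0 c b f k)) : ℝ) : ℂ) else 0) := by
    unfold Sg
    rw [Complex.ofReal_sum]
    refine Finset.sum_congr rfl fun f _ => ?_
    by_cases hd : Dj f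
    · by_cases hc : ∏ i, nr (f i) ≤ Y ∧ SpF c b f
      · rw [if_pos ⟨hd, hc⟩, if_pos hd, if_pos hc, one_mul]
      · rw [if_neg (fun h => hc h.2), if_pos hd, if_neg hc, zero_mul, Complex.ofReal_zero]
    · rw [if_neg (fun h => hd h.1), if_neg hd, Complex.ofReal_zero]
  rw [h2]
  refine h1.trans ?_
  refine Finset.sum_congr rfl fun g hg => ?_
  rw [Fintype.mem_piFinset] at hg
  by_cases hd : Dj g
  · have e1 := un_nr_prod c g hd
    have e2 := atupa_sp c b g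
    by_cases hc : ∏ a, nr (g a) ≤ Y ∧ Sp c b g
    · have hm : ∀ i, un c g i ∈ GF D.toRD0 X := fun i =>
        atupa_mem D.toRD0 c g hd X Y hY hg (by rw [e1]; exact hc.1) i
      have hc' : ∏ i, nr (un c g i) ≤ Y ∧ SpF c b (un c g) := ⟨by rw [e1]; exact hc.1, e2.2 hc.2⟩
      rw [if_pos ⟨hd, hm⟩, if_pos hc', one_mul, if_pos ⟨hd, hc⟩]
    · have hc' : ¬ (∏ i, nr (un c g i) ≤ Y ∧ SpF c b (un c g)) := by
        rintro ⟨a1, a2⟩
        exact hc ⟨by rw [← e1]; exact a1, e2.1 a2⟩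
      rw [if_neg (fun h : (∀ a a', a ≠ a' → Disjoint (g a) (g a')) ∧ ∏ a, nr (g a) ≤ Y ∧ Sp c b g
        => hc h.2)]
      split_ifs with h3 h4
      · rw [zero_mul]
      · rfl
  · rw [if_neg (fun h => hd h.1), if_neg (fun h => hd h.1)]

theorem sg_up [NeZero p] (hp : p.Prime) (hp2 : MOne p K) (hζ : IsPrimitiveRoot ζ p) (D : RD K p ζ)
    (c : CD p m N) (A : ℕ) :
    ∃ C X₀ : ℝ, 0 < C ∧ 3 ≤ X₀ ∧ ∀ X Y : ℝ, X₀ ≤ X → Real.sqrt X ≤ Y → Y ≤ X →
      ∀ (b : Fin m → Kˣ) (E : Finset (Pl K)), BSup D.toRD0 b E → nr E ≤ Real.log X ^ A →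
        Sg D.toRD0 c b X Y ≤ C * Y * Real.log X ^ (N - 1) := by
  obtain ⟨C, X₀, hC, hX₀, h⟩ := aup hp hp2 hζ D c A
  refine ⟨C, X₀, hC, hX₀, fun X Y hX hY hYX b E hb hE => ?_⟩
  have h1 := h X Y hX hY hYX b E hb hE
  rw [← sg_eq hp hζ D c b X Y hYX] at h1
  rw [Complex.norm_real] at h1
  exact (Real.le_norm_self _).trans h1

theorem sg_triv [NeZero p] (hp : p.Prime) (hζ : IsPrimitiveRoot ζ p) (D : RD K p ζ)
    (c : CD p m N) :
    ∃ (C : ℝ) (A : ℕ), 0 < C ∧ ∀ X Y : ℝ, 1 ≤ X → 0 < Y → Y ≤ X → ∀ (b : Fin m → Kˣ),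
      Sg D.toRD0 c b X Y ≤ C * Y * (1 + Real.log X) ^ A := by
  have key : ∀ X Y : ℝ, Y ≤ X → ∀ b : Fin m → Kˣ, Sg D.toRD0 c b X Y ≤
      (((Fintype.piFinset fun _ : c.J => AF K Y).filter (fun g => ∏ a, nr (g a) ≤ Y)).card : ℝ) := by
    intro X Y hYX b
    have h1 : Sg D.toRD0 c b X Y ≤ ‖((Sg D.toRD0 c b X Y : ℝ) : ℂ)‖ := by
      rw [Complex.norm_real]
      exact Real.le_norm_self _
    refine h1.trans ?_
    rw [sg_eq hp hζ D c b X Y hYX]
    refine (norm_sum_le _ _).trans ?_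
    have h2 : ∀ g ∈ Fintype.piFinset (fun _ : c.J => GF D.toRD0 X),
        ‖(if (∀ a a', a ≠ a' → Disjoint (g a) (g a')) ∧ ∏ a, nr (g a) ≤ Y ∧ Sp c b g then
        ep p (ph D.toRD0 c.pd b g) else 0)‖ ≤ if ∏ a, nr (g a) ≤ Y then (1 : ℝ) else 0 := by
      intro g _
      split_ifs with a1 a2 a3
      · rw [ep_norm]
      · exact absurd a1.2.1 a2
      · rw [norm_zero]; exact zero_le_one
      · rw [norm_zero]
    refine (Finset.sum_le_sum h2).trans ?_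
    rw [Finset.sum_boole]
    norm_cast
    refine Finset.card_le_card fun g hg => ?_
    rw [Finset.mem_filter, Fintype.mem_piFinset] at hg ⊢
    exact ⟨fun a => mem_AF.2 ((atupa_le_prod g a).trans hg.2), hg.2⟩
  have hone : ∀ X : ℝ, 1 ≤ X → 1 ≤ 1 + Real.log X := fun X hX => by
    linarith [Real.log_nonneg hX]
  by_cases hJ : Nonempty c.J
  · obtain ⟨C, hC, h⟩ := af_tup_one K c.J
    refine ⟨C, Fintype.card c.J - 1, hC, fun X Y hX hY hYX b => ?_⟩
    refine (key X Y hYX b).trans ?_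
    by_cases hY1 : 1 ≤ Y
    · refine (h Y hY1).trans ?_
      refine mul_le_mul_of_nonneg_left ?_ (by positivity)
      refine pow_le_pow_left₀ (by linarith [hone Y hY1]) ?_ _
      linarith [Real.log_le_log hY hYX]
    · have h0 : ((Fintype.piFinset fun _ : c.J => AF K Y).filter
          (fun g => ∏ a, nr (g a) ≤ Y)) = ∅ := by
        rw [Finset.filter_eq_empty_iff]
        intro g _ hg
        exact hY1 ((atupa_prod_one g Finset.univ).trans hg)
      rw [h0, Finset.card_empty, Nat.cast_zero]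
      have := hone X hX
      positivity
  · rw [not_nonempty_iff] at hJ
    refine ⟨1, 0, one_pos, fun X Y hX hY hYX b => ?_⟩
    refine (key X Y hYX b).trans ?_
    rw [pow_zero, mul_one, one_mul]
    by_cases hY1 : 1 ≤ Y
    · have h0 : ((Fintype.piFinset fun _ : c.J => AF K Y).filter
          (fun g => ∏ a, nr (g a) ≤ Y)).card ≤ 1 := by
        refine Finset.card_le_one.2 fun g _ g' _ => ?_
        exact Subsingleton.elim _ _
      have : ((((Fintype.piFinset fun _ : c.J => AF K Y).filter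
          (fun g => ∏ a, nr (g a) ≤ Y)).card : ℕ) : ℝ) ≤ 1 := by exact_mod_cast h0
      linarith
    · have h0 : ((Fintype.piFinset fun _ : c.J => AF K Y).filter
          (fun g => ∏ a, nr (g a) ≤ Y)) = ∅ := by
        rw [Finset.filter_eq_empty_iff]
        intro g _ hg
        exact hY1 ((atupa_prod_one g Finset.univ).trans hg)
      rw [h0, Finset.card_empty, Nat.cast_zero]
      exact hY.le

end H63.MA
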