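import Pool.Agent.H63.MA.RDef
import Pool.Agent.H63.MA.SymC

/-!
# MA-RMKB: the symbols `LL v` are homomorphisms; `v ↦ LL w (pi v)` is a ray class character

`D : RD0 K p ζ`.
* `LL_mul`, `LL_pi`, `LL_pow`, `LL_unit` (for `ord v x = 0`, `LL v x = lg v x`), `B_eq`:
  `B v c x = LL v c * ord v x - ord v c * LL v x` for `v ∉ S0`: write `c = pi^m c₀`, `x = pi^n x₀` (`pi = D.pi v`), `ord c₀ = ord x₀ = 0`:
  `c^n / x^m = c₀^n / x₀^m`.
* `ray_LL`: for `w ∉ S0` the function `f v = LL w (pi v)` (`0` for `v ∈ S0` or `v = w`) is `IsRay` of modulus `M0 w`. Proof: let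
  `x ≡ 1 mod M0 w` be integral. `ord w x = 0`, `ord v x = 0` for `v ∈ S0` (`M0_dvd`). Let `m v = ord v x` for `v ∉ S0` (finite support),
  `y = ∏ pi v^{m v}`, `u = x / y`, an `S0`-unit. By `ray_q` (for all `κ`) `∑ m v q v = 0`, so `PS y` (`prim_of`). Also `PS x`?
  It is NOT assumed that `x ≡ 1 mod M0` implies `PS x`; hence this is a separate hypothesis `hM` below (true for the
  `M0` constructed in `RMkA`). So `PS u` (subgroup), `u` is a `p`-th power (`unit`), `LL w u = 0`, and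
  `∑_v ord v x * LL w (pi v) = LL w y = LL w x = 0` (`x ≡ 1` modulo `w`: `lg_of_one1`).
-/

set_option autoImplicit false

open scoped NumberField
open IsDedekindDomain

noncomputable section

namespace H63.MA

variable {K : Type} [Field K] [NumberField K] {p : ℕ} (hp : p.Prime) {ζ : K}
  (hζ : IsPrimitiveRoot ζ p) (D : RD0 K p ζ)

include hp hζ

omit hp hζ in
private theorem rmkb_ord {v : Pl K} (hv : v ∉ D.S0) (x : Kˣ) :
    ord v (x * D.pi v ^ (-ord v x)) = 0 := by
  rw [ord_mul, ord_zpow, D.pi_self v hv]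
  ring

omit hp hζ in
private theorem rmkb_above {v : Pl K} (hv : v ∉ D.S0) : ¬ Above p v := fun h => hv (D.above v h)

theorem LL_mul {v : Pl K} (hv : v ∉ D.S0) (x y : Kˣ) :
    D.LL v (x * y) = D.LL v x + D.LL v y := by
  unfold RD0.LL
  rw [← lg_mul hp hζ (rmkb_above D hv) (rmkb_ord D hv x) (rmkb_ord D hv y)]
  congr 1
  rw [ord_mul, neg_add, zpow_add, mul_mul_mul_comm]

theorem LL_one {v : Pl K} (hv : v ∉ D.S0) : D.LL v 1 = 0 := by
  unfold RD0.LL
  rw [ord_one, neg_zero, zpow_zero, mul_one]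
  exact lg_one hp hζ (rmkb_above D hv)

theorem LL_zpow {v : Pl K} (hv : v ∉ D.S0) (x : Kˣ) (n : ℤ) :
    D.LL v (x ^ n) = n * D.LL v x := by
  unfold RD0.LL
  rw [← lg_zpow hp hζ (rmkb_above D hv) (rmkb_ord D hv x) n]
  congr 1
  rw [ord_zpow, mul_zpow, ← zpow_mul, neg_mul, mul_comm n (ord v x)]

theorem LL_pow_p {v : Pl K} (hv : v ∉ D.S0) (x : Kˣ) : D.LL v (x ^ p) = 0 := by
  have h := LL_zpow hp hζ D hv x (p : ℤ)
  rw [zpow_natCast] at h
  rw [h]
  simp

theorem LL_pi {v : Pl K} (hv : v ∉ D.S0) : D.LL v (D.pi v) = 0 := by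
  unfold RD0.LL
  rw [D.pi_self v hv, zpow_neg_one, mul_inv_cancel]
  exact lg_one hp hζ (rmkb_above D hv)

omit hp hζ in
private theorem rmkb_unit {v : Pl K} {x : Kˣ} (hx : ord v x = 0) :
    D.LL v x = lg p ζ v x := by
  unfold RD0.LL
  rw [hx, neg_zero, zpow_zero, mul_one]

theorem LL_unit {v : Pl K} (hv : v ∉ D.S0) {x : Kˣ} (hx : ord v x = 0) :
    D.LL v x = lg p ζ v x := rmkb_unit D hx

theorem B_eq {v : Pl K} (hv : v ∉ D.S0) (c x : Kˣ) :
    B p ζ v c x = D.LL v c * ord v x - ord v c * D.LL v x := by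
  unfold B RD0.LL
  have ha := rmkb_above D hv
  have hc := rmkb_ord D hv c
  have hx := rmkb_ord D hv x
  have h1 : c ^ ord v x * (x ^ ord v c)⁻¹ =
      (c * D.pi v ^ (-ord v c)) ^ ord v x * (x * D.pi v ^ (-ord v x)) ^ (-ord v c) := by
    rw [mul_zpow, mul_zpow, ← zpow_mul, ← zpow_mul, mul_mul_mul_comm, ← zpow_add,
      ← zpow_neg]
    have h2 : -ord v c * ord v x + -ord v x * -ord v c = 0 := by ring
    rw [h2, zpow_zero, mul_one]
  have hc' : ord v ((c * D.pi v ^ (-ord v c)) ^ ord v x) = 0 := by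
    rw [ord_zpow, hc, mul_zero]
  have hx' : ord v ((x * D.pi v ^ (-ord v x)) ^ (-ord v c)) = 0 := by
    rw [ord_zpow, hx, mul_zero]
  rw [h1, lg_mul hp hζ ha hc' hx', lg_zpow hp hζ ha hc, lg_zpow hp hζ ha hx]
  push_cast
  ring

omit hp hζ in
private theorem rmkb_near_mul {v : Pl K} {x y : Kˣ}
    (hx : v.valuation K ((x : K) - 1) < v.valuation K ((p : K) ^ 2))
    (hy : v.valuation K ((y : K) - 1) < v.valuation K ((p : K) ^ 2))
    (hp1 : v.valuation K ((p : K) ^ 2) ≤ 1) :
    v.valuation K (((x * y : Kˣ) : K) - 1) < v.valuation K ((p : K) ^ 2) := by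
  have hy1 : v.valuation K (y : K) = 1 := symA_one1 (lt_of_lt_of_le hy hp1)
  have h1 : ((x * y : Kˣ) : K) - 1 = ((x : K) - 1) * y + ((y : K) - 1) := by
    rw [Units.val_mul]
    ring
  rw [h1]
  refine lt_of_le_of_lt (Valuation.map_add _ _ _) (max_lt ?_ hy)
  rw [map_mul, hy1, mul_one]
  exact hx

omit hp hζ in
private theorem rmkb_near_inv {v : Pl K} {x : Kˣ}
    (hx : v.valuation K ((x : K) - 1) < v.valuation K ((p : K) ^ 2))
    (hp1 : v.valuation K ((p : K) ^ 2) ≤ 1) :
    v.valuation K (((x⁻¹ : Kˣ) : K) - 1) < v.valuation K ((p : K) ^ 2) := by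
  have hx1 : v.valuation K (x : K) = 1 := symA_one1 (lt_of_lt_of_le hx hp1)
  have h1 : ((x⁻¹ : Kˣ) : K) - 1 = -(((x : K) - 1) * (x : K)⁻¹) := by
    rw [Units.val_inv_eq_inv_val]
    have := x.ne_zero
    field_simp
    ring
  rw [h1, Valuation.map_neg, map_mul, map_inv₀, hx1, inv_one, mul_one]
  exact hx

omit hp hζ in
private theorem rmkb_p1 (v : Pl K) : v.valuation K ((p : K) ^ 2) ≤ 1 := by
  have h : v.valuation K (algebraMap (𝓞 K) K (p : 𝓞 K)) ≤ 1 := v.valuation_le_one _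
  have h1 : algebraMap (𝓞 K) K (p : 𝓞 K) = (p : K) := map_natCast (algebraMap (𝓞 K) K) p
  rw [h1] at h
  rw [map_pow]
  exact pow_le_one' h 2

omit hp hζ in
private theorem rmkb_locp_mul {v : Pl K} {x y : Kˣ} (hx : LocP p v x) (hy : LocP p v y) :
    LocP p v (x * y) := by
  obtain ⟨a, ha⟩ := hx
  obtain ⟨b, hb⟩ := hy
  refine ⟨a * b, ?_⟩
  have h := rmkb_near_mul ha hb (rmkb_p1 v)
  have h1 : x * y * ((a * b) ^ p)⁻¹ = x * (a ^ p)⁻¹ * (y * (b ^ p)⁻¹) := by
    rw [mul_pow, mul_inv, mul_mul_mul_comm]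
  rw [h1]
  exact h

omit hp hζ in
private theorem rmkb_locp_inv {v : Pl K} {x : Kˣ} (hx : LocP p v x) : LocP p v x⁻¹ := by
  obtain ⟨a, ha⟩ := hx
  refine ⟨a⁻¹, ?_⟩
  have h := rmkb_near_inv ha (rmkb_p1 v)
  have h1 : x⁻¹ * ((a⁻¹) ^ p)⁻¹ = (x * (a ^ p)⁻¹)⁻¹ := by
    rw [inv_pow, mul_inv]
  rw [h1]
  exact h

private theorem rmkb_ps_div {S : Finset (Pl K)} {x y : Kˣ} (hx : PS p ζ S x)
    (hy : PS p ζ S y) : PS p ζ S (x * y⁻¹) := by
  refine ⟨fun v hv => rmkb_locp_mul (hx.1 v hv) (rmkb_locp_inv (hy.1 v hv)), ?_⟩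
  intro v hv ha t
  rw [B_mul_left hp hζ ha, B_inv_left hp hζ ha, hx.2 v hv ha t, hy.2 v hv ha t, neg_zero,
    add_zero]

omit hp hζ in
private theorem rmkb_one1 {v : Pl K} {x : Kˣ} {a : 𝓞 K}
    (hx : (x : K) = algebraMap (𝓞 K) K a) (ha : a - 1 ∈ v.asIdeal) : One1 v x := by
  unfold One1
  have h1 : (x : K) - 1 = algebraMap (𝓞 K) K (a - 1) := by
    rw [map_sub, map_one, hx]
  rw [h1]
  exact (v.valuation_lt_one_iff_mem (a - 1)).2 ha

private theorem rmkb_LL_prod {w : Pl K} (hw : w ∉ D.S0) (s : Finset (Pl K)) (f : Pl K → Kˣ) :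
    D.LL w (∏ v ∈ s, f v) = ∑ v ∈ s, D.LL w (f v) := by
  classical
  induction s using Finset.induction_on with
  | empty => rw [Finset.prod_empty, Finset.sum_empty, LL_one hp hζ D hw]
  | insert a s ha ih =>
    rw [Finset.prod_insert ha, Finset.sum_insert ha, LL_mul hp hζ D hw, ih]

open Classical in
theorem ray_LL (hM : ∀ (x : Kˣ) (a : 𝓞 K), (x : K) = algebraMap (𝓞 K) K a → a - 1 ∈ D.M0 →
    PS p ζ D.S0 x) {w : Pl K} (hw : w ∉ D.S0) :
    IsRay p (D.M0 * w.asIdeal) fun v => if v ∈ D.S0 ∨ v = w then 0 else D.LL w (D.pi v) := by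
  constructor
  · intro v hv
    have h1 : v ∈ D.S0 ∨ v = w := by
      rcases (v.prime.dvd_mul).1 hv with h | h
      · exact Or.inl ((D.M0_dvd v).1 h)
      · right
        have h0 : w.asIdeal ≤ v.asIdeal := Ideal.dvd_iff_le.1 h
        have h2 : w.asIdeal = v.asIdeal := w.isMaximal.eq_of_le v.isPrime.ne_top h0
        exact (HeightOneSpectrum.ext h2).symm
    simp only [if_pos h1]
  · intro x a hxa ha
    have haM : a - 1 ∈ D.M0 := (Ideal.mul_le_left (I := D.M0) (J := w.asIdeal)) ha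
    have haw : a - 1 ∈ w.asIdeal := (Ideal.mul_le_right (I := D.M0) (J := w.asIdeal)) ha
    have hxw : One1 w x := rmkb_one1 hxa haw
    have how : ord w x = 0 := ord_of_one1 hxw
    have hoS : ∀ v ∈ D.S0, ord v x = 0 := by
      intro v hv
      have h1 := (D.M0_dvd v).2 hv
      rw [Ideal.dvd_iff_le] at h1
      exact ord_of_one1 (rmkb_one1 hxa (h1 haM))
    set s : Finset (Pl K) := (finite_ord x).toFinset with hs
    have hms : ∀ v, v ∈ s ↔ ord v x ≠ 0 := by
      intro v
      rw [hs, Set.Finite.mem_toFinset]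
      rfl
    let m : Pl K →₀ ℤ := Finsupp.onFinset s (fun v => ord v x) (fun v hv => (hms v).2 hv)
    have hm : ∀ v, m v = ord v x := fun v => rfl
    have hmsup : m.support = s := by
      ext v
      rw [Finsupp.mem_support_iff, hm, hms]
    have hsS : ∀ v ∈ s, v ∉ D.S0 := fun v hv hS => (hms v).1 hv (hoS v hS)
    have hq : (m.sum fun v n => (n : ZMod p) • D.q v) = 0 := by
      funext i
      have h1 := (D.ray_q (Pi.single i 1)).ray x a hxa haM
      have h2 : ∀ v, (∑ j, (Pi.single i 1 : Fin D.r → ZMod p) j * D.q v j) = D.q v i := by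
        intro v
        rw [Finset.sum_eq_single i]
        · rw [Pi.single_eq_same, one_mul]
        · intro j _ hj
          rw [Pi.single_eq_of_ne hj, zero_mul]
        · intro h
          exact absurd (Finset.mem_univ i) h
      simp only [h2] at h1
      rw [finsum_eq_sum_of_support_subset (s := s) _ ?_] at h1
      · rw [Finsupp.sum, Finset.sum_apply, hmsup, Pi.zero_apply, ← h1]
        refine Finset.sum_congr rfl fun v _ => ?_
        rw [Pi.smul_apply, smul_eq_mul, hm, mul_comm]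
      · intro v hv
        rw [Function.mem_support] at hv
        rw [Finset.mem_coe, hms]
        intro h
        apply hv
        rw [h, Int.cast_zero, mul_zero]
    have hyPS := D.prim_of m (fun v hv => by rw [hm, hoS v hv]) hq
    set y : Kˣ := m.prod fun v n => D.pi v ^ n with hy
    have hyprod : y = ∏ v ∈ s, D.pi v ^ ord v x := by
      rw [hy, Finsupp.prod, hmsup]
      rfl
    have hyord : ∀ v, v ∉ D.S0 → ord v y = ord v x := by
      intro v hv
      rw [hyprod, ord_prod]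
      by_cases hvs : v ∈ s
      · rw [Finset.sum_eq_single v]
        · rw [ord_zpow, D.pi_self v hv, mul_one]
        · intro u hu huv
          rw [ord_zpow, D.pi_ne u v (hsS u hu) hv (Ne.symm huv), mul_zero]
        · intro h
          exact absurd hvs h
      · have h0 : ord v x = 0 := by
          by_contra h
          exact hvs ((hms v).2 h)
        rw [h0]
        refine Finset.sum_eq_zero fun u hu => ?_
        have huv : v ≠ u := by
          rintro rfl
          exact hvs hu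
        rw [ord_zpow, D.pi_ne u v (hsS u hu) hv huv, mul_zero]
    have hu := D.unit (x * y⁻¹) (fun v hv => by
      rw [ord_mul, ord_inv, hyord v hv, add_neg_cancel])
      (rmkb_ps_div hp hζ (hM x a hxa haM) hyPS)
    obtain ⟨z, hz⟩ := hu
    have hx : x = z ^ p * y := by rw [hz, inv_mul_cancel_right]
    have hLy : D.LL w y = 0 := by
      have h1 : D.LL w x = 0 := by
        rw [rmkb_unit D how]
        exact lg_of_one1 hp hζ (rmkb_above D hw) hxw
      rw [hx, LL_mul hp hζ D hw, LL_pow_p hp hζ D hw, zero_add] at h1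
      exact h1
    rw [finsum_eq_sum_of_support_subset (s := s) _ ?_]
    · rw [← hLy, hyprod, rmkb_LL_prod hp hζ D hw]
      refine Finset.sum_congr rfl fun v hv => ?_
      have hvw : v ≠ w := by
        rintro rfl
        exact (hms v).1 hv how
      rw [if_neg (not_or.2 ⟨hsS v hv, hvw⟩), LL_zpow hp hζ D hw, mul_comm]
    · intro v hv
      rw [Function.mem_support] at hv
      rw [Finset.mem_coe, hms]
      intro h
      apply hv
      rw [h, Int.cast_zero, mul_zero]

end H63.MA
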