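import Pool.Agent.H63.MA.ACmb
import Pool.Agent.H63.MA.AKSum
import Pool.Agent.H63.MA.RMkB

/-!
# MA-AEXP: expansion of the local conditions (finite identity)

`un c g i = ⋃_{θ ∈ Θ i} g (i, θ)`. `wt c f F = ∏_i ∏_{v ∈ f i} #Θ_i [F v ⊥ Θ_i]`.
* `char_sum`: for `y ∈ (ZMod p)^m`: `#Θ_i [∀ θ ∈ Θ_i, θ · y = 0] = ∑_{θ ∈ Θ_i} ep(θ · y)` (a nontrivial additive character of `Θ_i` has sum `0`).
* `aexp`: multiply out: a family `g` of pairwise disjoint sets is the same as a family `f` of pairwise disjoint sets together with a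
  function `v ↦ θ(v) ∈ Θ_i` on every `f i` (`g (i, θ) = {v ∈ f i : θ(v) = θ}`, `f = un c g`). So for every `Φ`:
  `∑_{f disjoint} Φ f ∏_i ∏_{v ∈ f i} ∑_{θ ∈ Θ_i} ep(θ · F f v) = ∑_{g disjoint} Φ (un g) ep(∑_a ∑_{v ∈ g a} θ_a · F (un g) v)`.
  Here `f` runs over `Fin N → Finset (Pl K)` with `f i ∈ S`, where `S` is a finite, downward closed set of finite sets, and `g` over
  `c.J → S` with `un g i ∈ S`.
* `phase`: if `F v = (LL v (a k))_k`, `a k = b k * ∏_i ∏_{w ∈ f i} pi w ^ (x i k).val`, then for disjoint `g` of primes outside `S0`, `f = un c g`: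
  `∑_a ∑_{v ∈ g a} θ_a · F v = ph D c.pd b g` (`LL_mul`, `LL_zpow`, `LL_one` in `RMkB`; every `w ∈ f i` lies in exactly one `g (i, θ)`).
* `gexp`: `aexp` for `S = GF X` (downward closed: `nr_mono`) and `F f v k = LL v (ak D c b f k)`, with `phase`.
* `un_nr`, `un_nr_prod`, `un_qf`: products and sums over disjoint unions.
-/

set_option autoImplicit false

open scoped NumberField
open IsDedekindDomain
open scoped Classical

noncomputable section

namespace H63.MA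

variable {K : Type} [Field K] [NumberField K] {p : ℕ} {ζ : K} {m N : ℕ}

/-- the union over a class -/
def un [NeZero p] (c : CD p m N) (g : c.J → Finset (Pl K)) (i : Fin N) : Finset (Pl K) :=
  Finset.univ.biUnion fun θ : {θ : Fin m → ZMod p // θ ∈ c.Θ i} => g ⟨i, θ⟩

/-- the weight -/
def wt (c : CD p m N) (f : Fin N → Finset (Pl K)) (F : Pl K → Fin m → ZMod p) : ℝ :=
  ∏ i, ∏ v ∈ f i, if ∀ θ ∈ c.Θ i, dt θ (F v) = 0 then (Nat.card (c.Θ i) : ℝ) else 0

/-- the Kummer generators attached to a family -/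
def ak (D : RD0 K p ζ) (c : CD p m N) (b : Fin m → Kˣ) (f : Fin N → Finset (Pl K)) (k : Fin m) :
    Kˣ := b k * ∏ i, ∏ w ∈ f i, D.pi w ^ (c.x i k).val

/-- pairwise disjoint -/
def Dj {I : Type} (g : I → Finset (Pl K)) : Prop := ∀ a a', a ≠ a' → Disjoint (g a) (g a')


theorem aexp_ep_sum (hp : p.Prime) {I : Type*} (s : Finset I) (f : I → ZMod p) :
    ep p (∑ i ∈ s, f i) = ∏ i ∈ s, ep p (f i) := by
  induction s using Finset.induction_on with
  | empty => rw [Finset.sum_empty, Finset.prod_empty, ep_zero]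
  | insert a s ha ih => rw [Finset.sum_insert ha, Finset.prod_insert ha, ep_add hp, ih]

theorem aexp_dt_add (θ θ' y : Fin m → ZMod p) : dt (θ + θ') y = dt θ y + dt θ' y := by
  unfold dt
  rw [← Finset.sum_add_distrib]
  refine Finset.sum_congr rfl fun k _ => ?_
  rw [Pi.add_apply, add_mul]

theorem char_sum [NeZero p] (hp : p.Prime) (c : CD p m N) (i : Fin N) (y : Fin m → ZMod p) :
    (((if ∀ θ ∈ c.Θ i, dt θ y = 0 then (Nat.card (c.Θ i) : ℝ) else 0 : ℝ)) : ℂ) =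
      ∑ θ : {θ : Fin m → ZMod p // θ ∈ c.Θ i}, ep p (dt θ.1 y) := by
  by_cases h : ∀ θ ∈ c.Θ i, dt θ y = 0
  · rw [if_pos h]
    have h1 : ∀ θ : {θ : Fin m → ZMod p // θ ∈ c.Θ i}, ep p (dt θ.1 y) = 1 := by
      intro θ
      rw [h θ.1 θ.2, ep_zero]
    rw [Finset.sum_congr rfl fun θ _ => h1 θ, Finset.sum_const, nsmul_eq_mul, mul_one,
      Finset.card_univ]
    have h2 : Nat.card (c.Θ i) = Fintype.card {θ : Fin m → ZMod p // θ ∈ c.Θ i} :=
      Nat.card_eq_fintype_card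
    rw [h2]
    push_cast
    rfl
  · rw [if_neg h]
    push Not at h
    obtain ⟨θ0, hθ0, hne⟩ := h
    have h1 : ∑ θ : {θ : Fin m → ZMod p // θ ∈ c.Θ i}, ep p (dt θ.1 y) =
        ep p (dt θ0 y) * ∑ θ : {θ : Fin m → ZMod p // θ ∈ c.Θ i}, ep p (dt θ.1 y) := by
      rw [Finset.mul_sum]
      have e := Equiv.sum_comp (Equiv.addLeft (⟨θ0, hθ0⟩ : c.Θ i))
        (fun θ : c.Θ i => ep p (dt θ.1 y))
      rw [← e]
      refine Finset.sum_congr rfl fun θ _ => ?_
      rw [Equiv.coe_addLeft, Submodule.coe_add, aexp_dt_add, ep_add hp]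
    have h2 : ep p (dt θ0 y) ≠ 1 := fun h3 => hne ((ep_eq_one hp _).1 h3)
    have h3 : (ep p (dt θ0 y) - 1) *
        ∑ θ : {θ : Fin m → ZMod p // θ ∈ c.Θ i}, ep p (dt θ.1 y) = 0 := by
      rw [sub_mul, one_mul, ← h1, sub_self]
    rcases mul_eq_zero.1 h3 with h4 | h4
    · exact absurd (sub_eq_zero.1 h4) h2
    · rw [h4, Complex.ofReal_zero]

/-- the parts of a function -/
def aexpPart {V T : Type*} (n : Finset V) (φ : {v // v ∈ n} → T) (t : T) : Finset V :=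
  (Finset.univ.filter fun v : {v // v ∈ n} => φ v = t).map (Function.Embedding.subtype _)

theorem aexp_mem_part {V T : Type*} {n : Finset V} {φ : {v // v ∈ n} → T} {t : T} {v : V} :
    v ∈ aexpPart n φ t ↔ ∃ h : v ∈ n, φ ⟨v, h⟩ = t := by
  unfold aexpPart
  rw [Finset.mem_map]
  constructor
  · rintro ⟨w, hw, rfl⟩
    exact ⟨w.2, (Finset.mem_filter.1 hw).2⟩
  · rintro ⟨h, ht⟩
    exact ⟨⟨v, h⟩, Finset.mem_filter.2 ⟨Finset.mem_univ _, ht⟩, rfl⟩

theorem aexp_split {T : Type} [Fintype T] (n : Finset (Pl K)) (h : Pl K → T → ℂ) :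
    ∏ v ∈ n, ∑ t, h v t =
      ∑ G ∈ (Fintype.piFinset fun _ : T => n.powerset).filter
        (fun G => Dj G ∧ Finset.univ.biUnion G = n), ∏ t, ∏ v ∈ G t, h v t := by
  rw [← Finset.prod_attach n (fun v => ∑ t, h v t), ← Finset.univ_eq_attach,
    Finset.prod_univ_sum]
  refine Finset.sum_bij (fun φ _ => aexpPart n φ) ?_ ?_ ?_ ?_
  · intro φ _
    rw [Finset.mem_filter, Fintype.mem_piFinset]
    refine ⟨fun t => ?_, ?_, ?_⟩
    · rw [Finset.mem_powerset]
      intro v hv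
      exact (aexp_mem_part.1 hv).1
    · intro t t' htt'
      rw [Finset.disjoint_left]
      intro v hv hv'
      obtain ⟨h1, h2⟩ := aexp_mem_part.1 hv
      obtain ⟨h3, h4⟩ := aexp_mem_part.1 hv'
      exact htt' (h2.symm.trans h4)
    · ext v
      rw [Finset.mem_biUnion]
      constructor
      · rintro ⟨t, -, hv⟩
        exact (aexp_mem_part.1 hv).1
      · intro hv
        exact ⟨φ ⟨v, hv⟩, Finset.mem_univ _, aexp_mem_part.2 ⟨hv, rfl⟩⟩
  · intro φ _ ψ _ hφψ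
    funext v
    have h1 : v.1 ∈ aexpPart n φ (φ v) := aexp_mem_part.2 ⟨v.2, rfl⟩
    have h2 : aexpPart n φ (φ v) = aexpPart n ψ (φ v) := congrFun hφψ (φ v)
    rw [h2] at h1
    obtain ⟨h3, h4⟩ := aexp_mem_part.1 h1
    exact h4.symm
  · intro G hG
    rw [Finset.mem_filter, Fintype.mem_piFinset] at hG
    obtain ⟨hG1, hG2, hG3⟩ := hG
    have hex : ∀ v : {v // v ∈ n}, ∃ t, v.1 ∈ G t := by
      intro v
      have h1 : v.1 ∈ Finset.univ.biUnion G := hG3.symm ▸ v.2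
      obtain ⟨t, -, ht⟩ := Finset.mem_biUnion.1 h1
      exact ⟨t, ht⟩
    choose φ hφ using hex
    refine ⟨φ, Fintype.mem_piFinset.2 fun _ => Finset.mem_univ _, ?_⟩
    funext t
    ext v
    rw [aexp_mem_part]
    constructor
    · rintro ⟨hv, rfl⟩
      exact hφ ⟨v, hv⟩
    · intro hv
      have hvn : v ∈ n := Finset.mem_powerset.1 (hG1 t) hv
      refine ⟨hvn, ?_⟩
      by_contra hne
      exact Finset.disjoint_left.1 (hG2 _ _ hne) (hφ ⟨v, hvn⟩) hv
  · intro φ _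
    rw [← Finset.prod_fiberwise Finset.univ φ]
    refine Finset.prod_congr rfl fun t _ => ?_
    unfold aexpPart
    rw [Finset.prod_map]
    refine Finset.prod_congr rfl fun v hv => ?_
    rw [(Finset.mem_filter.1 hv).2]
    rfl

theorem aexp_un_sub [NeZero p] (c : CD p m N) (g : c.J → Finset (Pl K)) (a : c.J) :
    g a ⊆ un c g a.1 := by
  intro v hv
  unfold un
  rw [Finset.mem_biUnion]
  exact ⟨a.2, Finset.mem_univ _, hv⟩

theorem aexp_mem_un [NeZero p] {c : CD p m N} {g : c.J → Finset (Pl K)} {i : Fin N} {v : Pl K} :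
    v ∈ un c g i ↔ ∃ a : c.J, a.1 = i ∧ v ∈ g a := by
  unfold un
  rw [Finset.mem_biUnion]
  constructor
  · rintro ⟨θ, -, h⟩
    exact ⟨⟨i, θ⟩, rfl, h⟩
  · rintro ⟨a, rfl, h⟩
    exact ⟨a.2, Finset.mem_univ _, h⟩

theorem aexp_un_dj [NeZero p] {c : CD p m N} {g : c.J → Finset (Pl K)} (hg : Dj g) :
    Dj (un c g) := by
  intro i i' hii'
  rw [Finset.disjoint_left]
  intro v hv hv'
  obtain ⟨a, ha, h1⟩ := aexp_mem_un.1 hv
  obtain ⟨a', ha', h2⟩ := aexp_mem_un.1 hv'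
  have hne : a ≠ a' := by
    rintro rfl
    exact hii' (ha.symm.trans ha')
  exact Finset.disjoint_left.1 (hg a a' hne) h1 h2

/-- sums over `c.J` -/
theorem aexp_prod_J [NeZero p] {M : Type*} [CommMonoid M] (c : CD p m N) (F : c.J → M) :
    ∏ a, F a = ∏ i, ∏ θ : {θ : Fin m → ZMod p // θ ∈ c.Θ i}, F ⟨i, θ⟩ :=
  Fintype.prod_sigma (fun a : Σ i : Fin N, {θ : Fin m → ZMod p // θ ∈ c.Θ i} => F a)

theorem aexp_sum_J [NeZero p] {M : Type*} [AddCommMonoid M] (c : CD p m N) (F : c.J → M) :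
    ∑ a, F a = ∑ i, ∑ θ : {θ : Fin m → ZMod p // θ ∈ c.Θ i}, F ⟨i, θ⟩ :=
  Fintype.sum_sigma (fun a : Σ i : Fin N, {θ : Fin m → ZMod p // θ ∈ c.Θ i} => F a)

theorem aexp_multi {T : Fin N → Type} [∀ i, Fintype (T i)] (f : Fin N → Finset (Pl K))
    (h : (i : Fin N) → Pl K → T i → ℂ) :
    ∃ GS : Finset ((i : Fin N) → T i → Finset (Pl K)),
      (∀ GG, GG ∈ GS ↔ ∀ i, (∀ t, GG i t ⊆ f i) ∧ Dj (GG i) ∧ ∀ v ∈ f i, ∃ t, v ∈ GG i t) ∧
      ∏ i, ∏ v ∈ f i, ∑ t, h i v t = ∑ GG ∈ GS, ∏ i, ∏ t, ∏ v ∈ GG i t, h i v t := by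
  refine ⟨Fintype.piFinset (fun i => (Fintype.piFinset fun _ : T i => (f i).powerset).filter
        (fun G => Dj G ∧ Finset.univ.biUnion G = f i)), ?_, ?_⟩
  · intro GG
    rw [Fintype.mem_piFinset]
    refine forall_congr' fun i => ?_
    rw [Finset.mem_filter, Fintype.mem_piFinset]
    constructor
    · rintro ⟨h1, h2, h3⟩
      refine ⟨fun t => Finset.mem_powerset.1 (h1 t), h2, fun v hv => ?_⟩
      rw [← h3] at hv
      obtain ⟨t, -, ht⟩ := Finset.mem_biUnion.1 hv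
      exact ⟨t, ht⟩
    · rintro ⟨h1, h2, h3⟩
      refine ⟨fun t => Finset.mem_powerset.2 (h1 t), h2, ?_⟩
      ext v
      rw [Finset.mem_biUnion]
      constructor
      · rintro ⟨t, -, ht⟩
        exact h1 t ht
      · intro hv
        obtain ⟨t, ht⟩ := h3 v hv
        exact ⟨t, Finset.mem_univ _, ht⟩
  · rw [Finset.prod_congr rfl fun i _ => aexp_split (f i) (h i)]
    exact Finset.prod_univ_sum _ _

/-- the inner identity for a fixed disjoint family `f` -/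
theorem aexp_inner [NeZero p] (hp : p.Prime) (c : CD p m N) (S : Finset (Finset (Pl K)))
    (hS : ∀ n ∈ S, ∀ n' ⊆ n, n' ∈ S) (f : Fin N → Finset (Pl K)) (hf : ∀ i, f i ∈ S)
    (hdj : Dj f) (F : Pl K → Fin m → ZMod p) :
    ((wt c f F : ℝ) : ℂ) =
      ∑ g ∈ (Fintype.piFinset (fun _ : c.J => S)).filter (fun g => Dj g ∧ un c g = f),
        ep p (∑ a, ∑ v ∈ g a, dt (c.pd.θ a) (F v)) := by
  have h1 : ((wt c f F : ℝ) : ℂ) =
      ∏ i, ∏ v ∈ f i, ∑ θ : {θ : Fin m → ZMod p // θ ∈ c.Θ i}, ep p (dt θ.1 (F v)) := by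
    unfold wt
    rw [Complex.ofReal_prod]
    refine Finset.prod_congr rfl fun i _ => ?_
    rw [Complex.ofReal_prod]
    refine Finset.prod_congr rfl fun v _ => ?_
    have h2 := char_sum hp c i (F v)
    convert h2
  obtain ⟨GS, hGS, h3⟩ := aexp_multi f (fun i v (θ : {θ : Fin m → ZMod p // θ ∈ c.Θ i}) =>
    ep p (dt θ.1 (F v)))
  refine h1.trans (h3.trans ?_)
  refine Finset.sum_bij (fun GG _ => fun a : c.J => GG a.1 a.2) ?_ ?_ ?_ ?_
  · intro GG hGG
    have hG := (hGS GG).1 hGG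
    refine Finset.mem_filter.2 ⟨Fintype.mem_piFinset.2
      fun a => hS _ (hf a.1) _ ((hG a.1).1 a.2), ?_, ?_⟩
    · rintro ⟨i, θ⟩ ⟨i', θ'⟩ hne
      by_cases hii' : i = i'
      · subst hii'
        have hne' : θ ≠ θ' := by
          rintro rfl
          exact hne rfl
        exact (hG i).2.1 θ θ' hne'
      · exact Finset.disjoint_of_subset_left ((hG i).1 θ)
          (Finset.disjoint_of_subset_right ((hG i').1 θ') (hdj i i' hii'))
    · funext i
      ext v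
      rw [aexp_mem_un]
      constructor
      · rintro ⟨a, rfl, hv⟩
        exact (hG a.1).1 a.2 hv
      · intro hv
        obtain ⟨θ, hθ⟩ := (hG i).2.2 v hv
        exact ⟨⟨i, θ⟩, rfl, hθ⟩
  · intro GG _ GG' _ h
    funext i θ
    exact congrFun h ⟨i, θ⟩
  · intro g hg
    obtain ⟨hg1, hg2, hg3⟩ := Finset.mem_filter.1 hg
    refine ⟨fun i θ => g ⟨i, θ⟩, (hGS _).2 fun i => ⟨fun θ => ?_, ?_, ?_⟩, rfl⟩
    · rw [← hg3]
      exact aexp_un_sub c g ⟨i, θ⟩
    · intro θ θ' hne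
      apply hg2
      intro h
      apply hne
      have := Sigma.mk.inj_iff.1 h
      exact eq_of_heq this.2
    · intro v hv
      rw [← hg3, aexp_mem_un] at hv
      obtain ⟨a, rfl, hv⟩ := hv
      exact ⟨a.2, hv⟩
  · intro GG _
    rw [aexp_ep_sum hp, aexp_prod_J]
    refine Finset.prod_congr rfl fun i _ => Finset.prod_congr rfl fun θ _ => ?_
    rw [aexp_ep_sum hp]
    rfl

theorem aexp [NeZero p] (hp : p.Prime) (c : CD p m N) (S : Finset (Finset (Pl K)))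
    (hS : ∀ n ∈ S, ∀ n' ⊆ n, n' ∈ S) (Φ : (Fin N → Finset (Pl K)) → ℂ)
    (F : (Fin N → Finset (Pl K)) → Pl K → Fin m → ZMod p) :
    ∑ f ∈ Fintype.piFinset (fun _ : Fin N => S),
        (if Dj f then Φ f * ((wt c f (F f) : ℝ) : ℂ) else 0) =
      ∑ g ∈ Fintype.piFinset (fun _ : c.J => S),
        if Dj g ∧ ∀ i, un c g i ∈ S then
          Φ (un c g) * ep p (∑ a, ∑ v ∈ g a, dt (c.pd.θ a) (F (un c g) v)) else 0 := by
  rw [← Finset.sum_filter, ← Finset.sum_filter]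
  have hmaps : ∀ g ∈ (Fintype.piFinset (fun _ : c.J => S)).filter
      (fun g => Dj g ∧ ∀ i, un c g i ∈ S),
      un c g ∈ (Fintype.piFinset (fun _ : Fin N => S)).filter (fun f => Dj f) := by
    intro g hg
    rw [Finset.mem_filter] at hg
    rw [Finset.mem_filter, Fintype.mem_piFinset]
    exact ⟨hg.2.2, aexp_un_dj hg.2.1⟩
  rw [← Finset.sum_fiberwise_of_maps_to hmaps]
  refine Finset.sum_congr rfl fun f hf => ?_
  rw [Finset.mem_filter, Fintype.mem_piFinset] at hf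
  rw [aexp_inner hp c S hS f hf.1 hf.2 (F f), Finset.mul_sum]
  have hset : ((Fintype.piFinset (fun _ : c.J => S)).filter
      (fun g => Dj g ∧ ∀ i, un c g i ∈ S)).filter (fun g => un c g = f) =
      (Fintype.piFinset (fun _ : c.J => S)).filter (fun g => Dj g ∧ un c g = f) := by
    ext g
    simp only [Finset.mem_filter]
    constructor
    · rintro ⟨⟨h1, h2, -⟩, h4⟩
      exact ⟨h1, h2, h4⟩
    · rintro ⟨h1, h2, h4⟩
      refine ⟨⟨h1, h2, fun i => ?_⟩, h4⟩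
      rw [h4]
      exact hf.1 i
  rw [hset]
  refine Finset.sum_congr rfl fun g hg => ?_
  rw [(Finset.mem_filter.1 hg).2.2]

theorem aexp_LL_prod (hp : p.Prime) (hζ : IsPrimitiveRoot ζ p) (D : RD0 K p ζ) {v : Pl K}
    (hv : v ∉ D.S0) {I : Type*} (s : Finset I) (f : I → Kˣ) :
    D.LL v (∏ i ∈ s, f i) = ∑ i ∈ s, D.LL v (f i) := by
  induction s using Finset.induction_on with
  | empty => rw [Finset.prod_empty, Finset.sum_empty, LL_one hp hζ D hv]
  | insert a s ha ih =>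
    rw [Finset.prod_insert ha, Finset.sum_insert ha, LL_mul hp hζ D hv, ih]

theorem aexp_LL_pow [NeZero p] (hp : p.Prime) (hζ : IsPrimitiveRoot ζ p) (D : RD0 K p ζ)
    {v : Pl K} (hv : v ∉ D.S0) (y : Kˣ) (a : ZMod p) : D.LL v (y ^ a.val) = a * D.LL v y := by
  have h := LL_zpow hp hζ D hv y (a.val : ℤ)
  rw [zpow_natCast] at h
  rw [h]
  congr 1
  push_cast
  exact ZMod.natCast_zmod_val a

theorem aexp_LL_ak [NeZero p] (hp : p.Prime) (hζ : IsPrimitiveRoot ζ p) (D : RD0 K p ζ)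
    (c : CD p m N) (b : Fin m → Kˣ) (g : c.J → Finset (Pl K)) (hg : Dj g) {v : Pl K}
    (hv : v ∉ D.S0) (k : Fin m) :
    D.LL v (ak D c b (un c g) k) =
      D.LL v (b k) + ∑ a', c.x a'.1 k * ∑ w ∈ g a', D.LL v (D.pi w) := by
  unfold ak
  rw [LL_mul hp hζ D hv, aexp_LL_prod hp hζ D hv]
  congr 1
  rw [aexp_sum_J]
  refine Finset.sum_congr rfl fun i _ => ?_
  rw [aexp_LL_prod hp hζ D hv]
  unfold un
  rw [Finset.sum_biUnion]
  · refine Finset.sum_congr rfl fun θ _ => ?_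
    rw [Finset.mul_sum]
    exact Finset.sum_congr rfl fun w _ => aexp_LL_pow hp hζ D hv _ _
  · intro θ _ θ' _ hne
    apply hg
    intro h
    apply hne
    have := Sigma.mk.inj_iff.1 h
    exact eq_of_heq this.2

theorem phase [NeZero p] (hp : p.Prime) (hζ : IsPrimitiveRoot ζ p) (D : RD K p ζ) (c : CD p m N)
    (b : Fin m → Kˣ) (g : c.J → Finset (Pl K)) (hg : Dj g) (hg0 : ∀ a, ∀ v ∈ g a, v ∉ D.S0) :
    ∑ a, ∑ v ∈ g a, dt (c.pd.θ a) (fun k => D.LL v (ak D.toRD0 c b (un c g) k)) =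
      ph D.toRD0 c.pd b g := by
  unfold ph
  rw [← Finset.sum_add_distrib]
  refine Finset.sum_congr rfl fun a _ => ?_
  have h1 : ∀ v ∈ g a, dt (c.pd.θ a) (fun k => D.LL v (ak D.toRD0 c b (un c g) k)) =
      dt (c.pd.θ a) (fun k => D.LL v (b k)) +
        ∑ a', dt (c.pd.θ a) (c.pd.x a') * ∑ w ∈ g a', D.LL v (D.pi w) := by
    intro v hv
    have hv0 := hg0 a v hv
    have h2 : (fun k => D.LL v (ak D.toRD0 c b (un c g) k)) =
        fun k => D.LL v (b k) + ∑ a', c.pd.x a' k * ∑ w ∈ g a', D.LL v (D.pi w) := by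
      funext k
      exact aexp_LL_ak hp hζ D.toRD0 c b g hg hv0 k
    rw [h2]
    unfold dt
    simp only [mul_add, Finset.sum_add_distrib]
    congr 1
    simp only [Finset.mul_sum, Finset.sum_mul]
    rw [Finset.sum_comm]
    refine Finset.sum_congr rfl fun a' _ => ?_
    rw [Finset.sum_comm]
    refine Finset.sum_congr rfl fun w _ => Finset.sum_congr rfl fun k _ => ?_
    rw [mul_assoc]
  rw [Finset.sum_congr rfl h1, Finset.sum_add_distrib]
  congr 1
  rw [Finset.sum_comm]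
  refine Finset.sum_congr rfl fun a' _ => ?_
  rw [← Finset.mul_sum]
  congr 1
  unfold Lf pf
  refine Finset.sum_congr rfl fun v hv => ?_
  rw [aexp_LL_prod hp hζ D.toRD0 (hg0 a v hv)]

theorem aexp_mem_GF {D : RD0 K p ζ} {X : ℝ} {n : Finset (Pl K)} :
    n ∈ GF D X ↔ nr n ≤ X ∧ ∀ v ∈ n, D.Gd v := by
  unfold GF
  rw [Finset.mem_filter, mem_AF]

/-- `aexp` and `phase` together -/
theorem gexp [NeZero p] (hp : p.Prime) (hζ : IsPrimitiveRoot ζ p) (D : RD K p ζ) (c : CD p m N)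
    (b : Fin m → Kˣ) (X : ℝ) (Φ : (Fin N → Finset (Pl K)) → ℂ) :
    ∑ f ∈ Fintype.piFinset (fun _ : Fin N => GF D.toRD0 X),
        (if Dj f then Φ f *
          ((wt c f (fun v k => D.LL v (ak D.toRD0 c b f k)) : ℝ) : ℂ) else 0) =
      ∑ g ∈ Fintype.piFinset (fun _ : c.J => GF D.toRD0 X),
        if Dj g ∧ ∀ i, un c g i ∈ GF D.toRD0 X then
          Φ (un c g) * ep p (ph D.toRD0 c.pd b g) else 0 := by
  have hS : ∀ n ∈ GF D.toRD0 X, ∀ n' ⊆ n, n' ∈ GF D.toRD0 X := by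
    intro n hn n' hn'
    rw [aexp_mem_GF] at hn ⊢
    exact ⟨(nr_mono hn').trans hn.1, fun v hv => hn.2 v (hn' hv)⟩
  have h := aexp hp c (GF D.toRD0 X) hS Φ (fun f v k => D.LL v (ak D.toRD0 c b f k))
  rw [h]
  refine Finset.sum_congr rfl fun g hg => ?_
  rw [Fintype.mem_piFinset] at hg
  by_cases hc : Dj g ∧ ∀ i, un c g i ∈ GF D.toRD0 X
  · rw [if_pos hc, if_pos hc]
    have := phase hp hζ D c b g hc.1
      (fun a v hv => ((aexp_mem_GF.1 (hg a)).2 v hv).1)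
    rw [← this]
  · rw [if_neg hc, if_neg hc]

theorem aexp_pair [NeZero p] {c : CD p m N} {g : c.J → Finset (Pl K)} (hg : Dj g) (i : Fin N) :
    Set.PairwiseDisjoint (↑(Finset.univ : Finset {θ : Fin m → ZMod p // θ ∈ c.Θ i}))
      (fun θ => g ⟨i, θ⟩) := by
  intro θ _ θ' _ hne
  apply hg
  intro h
  apply hne
  have := Sigma.mk.inj_iff.1 h
  exact eq_of_heq this.2

theorem aexp_nr_un [NeZero p] (c : CD p m N) (g : c.J → Finset (Pl K)) (hg : Dj g) (i : Fin N) :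
    nr (un c g i) = ∏ θ : {θ : Fin m → ZMod p // θ ∈ c.Θ i}, nr (g ⟨i, θ⟩) := by
  unfold un nr
  rw [Finset.prod_biUnion (aexp_pair hg i)]

/-- norms of unions -/
theorem un_nr [NeZero p] (c : CD p m N) (g : c.J → Finset (Pl K)) (hg : Dj g) (i : Fin N) :
    nr (un c g i) = bn c.blk i g := by
  rw [aexp_nr_un c g hg i]
  unfold bn
  rw [Finset.prod_filter, aexp_prod_J, Finset.prod_eq_single i]
  · refine Finset.prod_congr rfl fun θ _ => ?_
    have : c.blk (⟨i, θ⟩ : c.J) = i := rfl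
    rw [if_pos this]
  · intro i' _ hne
    refine Finset.prod_eq_one fun θ _ => ?_
    have : c.blk (⟨i', θ⟩ : c.J) = i' := rfl
    rw [this, if_neg hne]
  · intro h
    exact absurd (Finset.mem_univ i) h

theorem un_nr_prod [NeZero p] (c : CD p m N) (g : c.J → Finset (Pl K)) (hg : Dj g) :
    ∏ i, nr (un c g i) = ∏ a, nr (g a) := by
  rw [aexp_prod_J]
  exact Finset.prod_congr rfl fun i _ => aexp_nr_un c g hg i

theorem un_qf [NeZero p] (D : RD0 K p ζ) (c : CD p m N) (g : c.J → Finset (Pl K)) (hg : Dj g)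
    (i : Fin N) : qf D (un c g i) =
      ∑ θ : {θ : Fin m → ZMod p // θ ∈ c.Θ i}, qf D (g ⟨i, θ⟩) := by
  unfold un qf
  rw [Finset.sum_biUnion (aexp_pair hg i)]

end H63.MA
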