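import Pool.Agent.H63.MA.GSep

/-!
# MA-GGRP: explicit form of a group of exponent `p` and class at most two

`ggrp`: for `D : GD p m N G`, `G` finite, `Ep p G`, there are `w`, `n : Fin w → Fin m → Fin m → ZMod p` and a bijection `e : (ZMod p)^w × (ZMod p)^m → G` with
`e(u,x) e(u',x') = e(u + u' + (c ↦ ∑_{k,l} n c k l x_k x'_l), x + x')` and `π (e(u,x)) = x`.
Proof. Let `W` be the kernel of `π` (central, commutative of exponent `p`): `Additive W` is a finite dimensional vector space over `ZMod p`, choose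
`f : (Fin w → ZMod p) ≃ W` additive. Choose `g_k ∈ G` with `π g_k = e_k` and `s(x) = g_0^{x_0} g_1^{x_1} ⋯ g_{m-1}^{x_{m-1}}` (`List.ofFn`, exponents `(x k).val`; well defined modulo `p`
because `g_k^p = 1`). Then `s(x) s(x') = (∏_{l < k} [g_k, g_l]^{x_k x'_l}) s(x + x')` because commutators are central: move `g_l^{x'_l}` to the left past `g_k^{x_k}`, `k > l`.
(Induction on `m`, or: prove `s(x) g_l^{a} = (∏_{k > l} [g_k, g_l]^{x_k a}) s(x + a e_l)` and iterate over `l`.) Let `f(n · k l) = [g_k, g_l]` for `l < k` and `0` otherwise, `e(u, x) = f(u) s(x)`.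
(`[g_k, g_l] ∈ W` since the target of `π` is commutative.) Bijectivity: `π (e(u,x)) = x`, and an element `g` with `π g = x` is `z s(x)` with unique `z ∈ W`.
-/

set_option autoImplicit false

open scoped NumberField
open IsDedekindDomain

noncomputable section

namespace H63.MA

section ggrp_aux

variable {G W : Type} [Group G] [CommGroup W] (i : W →* G)

private theorem ggrp_pow1 (hc : ∀ z g, i z * g = g * i z) {x y : G} {c : W}
    (h : x * y = i c * (y * x)) (a : ℕ) : x ^ a * y = i (c ^ a) * (y * x ^ a) := by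
  induction a with
  | zero => simp
  | succ a ih =>
    calc x ^ (a + 1) * y = x * (x ^ a * y) := by rw [pow_succ', mul_assoc]
      _ = x * (i (c ^ a) * (y * x ^ a)) := by rw [ih]
      _ = i (c ^ a) * ((x * y) * x ^ a) := by
          rw [← mul_assoc, ← hc, mul_assoc, ← mul_assoc x y]
      _ = i (c ^ a) * (i c * (y * x) * x ^ a) := by rw [h]
      _ = i (c ^ (a + 1)) * (y * x ^ (a + 1)) := by
          rw [pow_succ c, map_mul, pow_succ' x]
          simp only [mul_assoc]

private theorem ggrp_pow2 (hc : ∀ z g, i z * g = g * i z) {x y : G} {c : W}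
    (h : x * y = i c * (y * x)) (a b : ℕ) :
    x ^ a * y ^ b = i (c ^ (a * b)) * (y ^ b * x ^ a) := by
  induction b with
  | zero => simp
  | succ b ih =>
    calc x ^ a * y ^ (b + 1) = (x ^ a * y ^ b) * y := by rw [pow_succ, mul_assoc]
      _ = i (c ^ (a * b)) * (y ^ b * x ^ a) * y := by rw [ih]
      _ = i (c ^ (a * b)) * (y ^ b * (x ^ a * y)) := by simp only [mul_assoc]
      _ = i (c ^ (a * b)) * (y ^ b * (i (c ^ a) * (y * x ^ a))) := by rw [ggrp_pow1 i hc h]
      _ = i (c ^ (a * b)) * (i (c ^ a) * (y ^ b * (y * x ^ a))) := by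
          rw [← mul_assoc (y ^ b) (i (c ^ a)), ← hc, mul_assoc (i (c ^ a))]
      _ = i (c ^ (a * (b + 1))) * (y ^ (b + 1) * x ^ a) := by
          rw [Nat.mul_succ, pow_add c, map_mul, pow_succ y]
          simp only [mul_assoc]

/-- the ordered product -/
private def ggrpS {m : ℕ} (g : Fin m → G) (a : Fin m → ℕ) : G :=
  (List.ofFn fun k => g k ^ a k).prod

private theorem ggrpS_succ {m : ℕ} (g : Fin (m + 1) → G) (a : Fin (m + 1) → ℕ) :
    ggrpS g a = g 0 ^ a 0 * ggrpS (fun k => g k.succ) (fun k => a k.succ) := by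
  unfold ggrpS
  rw [List.ofFn_succ, List.prod_cons]

private theorem ggrp_pow3 (hc : ∀ z g, i z * g = g * i z) (c : G → G → W)
    (h : ∀ x y, x * y = i (c x y) * (y * x)) (m : ℕ) (g : Fin m → G) (a : Fin m → ℕ) (y : G)
    (b : ℕ) : ggrpS g a * y ^ b = i (∏ k, c (g k) y ^ (a k * b)) * (y ^ b * ggrpS g a) := by
  induction m with
  | zero => simp [ggrpS]
  | succ m ih =>
    rw [ggrpS_succ, Fin.prod_univ_succ, map_mul]
    calc g 0 ^ a 0 * ggrpS (fun k => g k.succ) (fun k => a k.succ) * y ^ b
        = g 0 ^ a 0 * (ggrpS (fun k => g k.succ) (fun k => a k.succ) * y ^ b) := by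
          rw [mul_assoc]
      _ = g 0 ^ a 0 * (i (∏ k : Fin m, c (g k.succ) y ^ (a k.succ * b)) *
          (y ^ b * ggrpS (fun k => g k.succ) (fun k => a k.succ))) := by rw [ih]
      _ = i (∏ k : Fin m, c (g k.succ) y ^ (a k.succ * b)) * ((g 0 ^ a 0 * y ^ b) *
          ggrpS (fun k => g k.succ) (fun k => a k.succ)) := by
          rw [← mul_assoc (g 0 ^ a 0) (i _), ← hc]
          simp only [mul_assoc]
      _ = i (∏ k : Fin m, c (g k.succ) y ^ (a k.succ * b)) *
          (i (c (g 0) y ^ (a 0 * b)) * (y ^ b * g 0 ^ a 0) *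
          ggrpS (fun k => g k.succ) (fun k => a k.succ)) := by
          rw [ggrp_pow2 i hc (h (g 0) y)]
      _ = _ := by
          rw [← mul_assoc (i _) (i (c (g 0) y ^ (a 0 * b)) * (y ^ b * g 0 ^ a 0)),
            ← mul_assoc (i _) (i (c (g 0) y ^ (a 0 * b))), ← map_mul, ← map_mul,
            mul_comm (∏ k : Fin m, c (g k.succ) y ^ (a k.succ * b))]
          simp only [mul_assoc]

private theorem ggrp_mul (hc : ∀ z g, i z * g = g * i z) (c : G → G → W)
    (h : ∀ x y, x * y = i (c x y) * (y * x)) (m : ℕ) (g : Fin m → G) (a b : Fin m → ℕ) :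
    ggrpS g a * ggrpS g b =
      i (∏ k, ∏ l, if l < k then c (g k) (g l) ^ (a k * b l) else 1) *
        ggrpS g (fun k => a k + b k) := by
  induction m with
  | zero => simp [ggrpS]
  | succ m ih =>
    have hK : (∏ k : Fin (m + 1), ∏ l : Fin (m + 1),
        if l < k then c (g k) (g l) ^ (a k * b l) else 1) =
        (∏ k : Fin m, c (g k.succ) (g 0) ^ (a k.succ * b 0)) *
        ∏ k : Fin m, ∏ l : Fin m,
          if l < k then c (g k.succ) (g l.succ) ^ (a k.succ * b l.succ) else 1 := by
      rw [Fin.prod_univ_succ]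
      have h0 : (∏ l : Fin (m + 1), if l < 0 then c (g 0) (g l) ^ (a 0 * b l) else 1) = 1 :=
        Finset.prod_eq_one fun l _ => by rw [if_neg (Fin.not_lt_zero l)]
      rw [h0, one_mul, ← Finset.prod_mul_distrib]
      refine Finset.prod_congr rfl fun k _ => ?_
      rw [Fin.prod_univ_succ, if_pos (Fin.succ_pos k)]
      congr 1
      refine Finset.prod_congr rfl fun l _ => ?_
      simp only [Fin.succ_lt_succ_iff]
    rw [hK, map_mul, ggrpS_succ g a, ggrpS_succ g b, ggrpS_succ g (fun k => a k + b k)]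
    have e1 := ggrp_pow3 i hc c h m (fun k => g k.succ) (fun k => a k.succ) (g 0) (b 0)
    have e2 := ih (fun k => g k.succ) (fun k => a k.succ) (fun k => b k.succ)
    have hz := hc (∏ k : Fin m, c (g k.succ) (g 0) ^ (a k.succ * b 0)) (g 0 ^ a 0)
    have hz2 := hc (∏ k : Fin m, ∏ l : Fin m,
          if l < k then c (g k.succ) (g l.succ) ^ (a k.succ * b l.succ) else 1) (g 0 ^ (a 0 + b 0))
    calc g 0 ^ a 0 * ggrpS (fun k => g k.succ) (fun k => a k.succ) *
          (g 0 ^ b 0 * ggrpS (fun k => g k.succ) (fun k => b k.succ))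
        = g 0 ^ a 0 * (ggrpS (fun k => g k.succ) (fun k => a k.succ) * g 0 ^ b 0) *
          ggrpS (fun k => g k.succ) (fun k => b k.succ) := by simp only [mul_assoc]
      _ = g 0 ^ a 0 * (i (∏ k : Fin m, c (g k.succ) (g 0) ^ (a k.succ * b 0)) *
          (g 0 ^ b 0 * ggrpS (fun k => g k.succ) (fun k => a k.succ))) *
          ggrpS (fun k => g k.succ) (fun k => b k.succ) := by rw [e1]
      _ = i (∏ k : Fin m, c (g k.succ) (g 0) ^ (a k.succ * b 0)) * (g 0 ^ (a 0 + b 0) *
          (ggrpS (fun k => g k.succ) (fun k => a k.succ) *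
          ggrpS (fun k => g k.succ) (fun k => b k.succ))) := by
          rw [← mul_assoc (g 0 ^ a 0) (i _), ← hz, pow_add]
          simp only [mul_assoc]
      _ = i (∏ k : Fin m, c (g k.succ) (g 0) ^ (a k.succ * b 0)) * (g 0 ^ (a 0 + b 0) *
          (i (∏ k : Fin m, ∏ l : Fin m,
            if l < k then c (g k.succ) (g l.succ) ^ (a k.succ * b l.succ) else 1) *
            ggrpS (fun k => g k.succ) (fun k => a k.succ + b k.succ))) := by rw [e2]
      _ = _ := by
          rw [← mul_assoc (g 0 ^ (a 0 + b 0)) (i _), ← hz2]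
          simp only [mul_assoc]

end ggrp_aux

private theorem ggrp_basis0 (p : ℕ) [Fact p.Prime] (V : Type) [AddCommGroup V]
    [Module (ZMod p) V] [Finite V] : ∃ w : ℕ, Nonempty (V ≃+ (Fin w → ZMod p)) :=
  ⟨Module.finrank (ZMod p) V, ⟨(Module.finBasis (ZMod p) V).equivFun.toAddEquiv⟩⟩

private theorem ggrp_basis {p : ℕ} (hp : p.Prime) (V : Type) [AddCommGroup V] [Finite V]
    (hV : ∀ x : V, p • x = 0) : ∃ w : ℕ, Nonempty (V ≃+ (Fin w → ZMod p)) := by
  have : Fact p.Prime := ⟨hp⟩
  let _ := AddCommGroup.zmodModule hV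
  exact ggrp_basis0 p V

private theorem ggrp_modEq {p : ℕ} (hp : p.Prime) {G : Type} [Group G]
    (hG : ∀ g : G, g ^ p = 1) {m : ℕ} (g : Fin m → G) (x x' : Fin m → ZMod p) :
    ggrpS g (fun k => (x k).val + (x' k).val) = ggrpS g (fun k => ((x + x') k).val) := by
  have : NeZero p := ⟨hp.ne_zero⟩
  unfold ggrpS
  congr 1
  refine congrArg _ (funext fun k => ?_)
  beta_reduce
  rw [Pi.add_apply, ZMod.val_add, ← pow_eq_pow_mod _ (hG (g k))]

private theorem ggrp_pi {p m : ℕ} {G : Type} [Group G]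
    (π : G →* Multiplicative (Fin m → ZMod p)) (g : Fin m → G)
    (hg : ∀ k, π (g k) = Multiplicative.ofAdd (Pi.single k 1)) (a : Fin m → ℕ) :
    π (ggrpS g a) = Multiplicative.ofAdd (fun k => (a k : ZMod p)) := by
  unfold ggrpS
  rw [map_list_prod, List.map_ofFn, List.prod_ofFn]
  apply Multiplicative.toAdd.injective
  rw [toAdd_prod, toAdd_ofAdd]
  funext j
  rw [Finset.sum_apply]
  simp only [Function.comp_apply, map_pow, hg, toAdd_pow, toAdd_ofAdd, Pi.smul_apply,
    Pi.single_apply, smul_ite, smul_zero]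
  rw [Finset.sum_ite_eq Finset.univ j]
  simp

theorem ggrp {p m N : ℕ} (hp : p.Prime) {G : Type} [Group G] [Finite G] (hG : Ep p G)
    (D : GD p m N G) : ∃ (w : ℕ) (n : Fin w → Fin m → Fin m → ZMod p)
      (e : (Fin w → ZMod p) × (Fin m → ZMod p) → G), Function.Bijective e ∧
      (∀ u x u' x', e (u, x) * e (u', x') =
        e (u + u' + (fun c => ∑ k, ∑ l, n c k l * x k * x' l), x + x')) ∧
      ∀ u x, Multiplicative.toAdd (D.π (e (u, x))) = x := by
  have : NeZero p := ⟨hp.ne_zero⟩
  let _ : CommGroup D.π.ker :=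
    { (inferInstance : Group D.π.ker) with
      mul_comm := fun a b => Subtype.ext (D.cen a.1 a.2 b.1) }
  obtain ⟨w, ⟨φ⟩⟩ := ggrp_basis hp (Additive D.π.ker) (fun x => by
    apply Additive.toMul.injective
    apply Subtype.ext
    exact hG.exp (Additive.toMul x).1)
  let i : D.π.ker →* G := D.π.ker.subtype
  have hi : Function.Injective i := Subtype.val_injective
  have hc : ∀ z g, i z * g = g * i z := fun z g => D.cen z.1 z.2 g
  let c : G → G → D.π.ker := fun x y => ⟨x * y * x⁻¹ * y⁻¹, by
    rw [MonoidHom.mem_ker, map_mul, map_mul, map_mul, map_inv, map_inv, mul_comm (D.π x)]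
    group⟩
  have h : ∀ x y, x * y = i (c x y) * (y * x) := fun x y => by
    change x * y = x * y * x⁻¹ * y⁻¹ * (y * x)
    group
  choose g hg using fun k : Fin m => D.sur (Multiplicative.ofAdd (Pi.single k 1))
  let S : (Fin m → ZMod p) → G := fun x => ggrpS g (fun k => (x k).val)
  have hS : ∀ x, D.π (S x) = Multiplicative.ofAdd x := fun x => by
    rw [ggrp_pi D.π g hg]
    congr 1
    funext k
    exact ZMod.natCast_zmod_val (x k)
  have hSS : ∀ x x', S x * S x' = i (∏ k, ∏ l,
      if l < k then c (g k) (g l) ^ ((x k).val * (x' l).val) else 1) * S (x + x') := fun x x' => by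
    have := ggrp_mul i hc c h m g (fun k => (x k).val) (fun k => (x' k).val)
    rw [ggrp_modEq hp hG.exp] at this
    exact this
  let n : Fin w → Fin m → Fin m → ZMod p := fun r k l =>
    if l < k then φ (Additive.ofMul (c (g k) (g l))) r else 0
  have hn : ∀ x x' : Fin m → ZMod p, φ (Additive.ofMul (∏ k, ∏ l,
      if l < k then c (g k) (g l) ^ ((x k).val * (x' l).val) else 1)) =
      fun r => ∑ k, ∑ l, n r k l * x k * x' l := fun x x' => by
    funext r
    rw [ofMul_prod, map_sum, Finset.sum_apply]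
    refine Finset.sum_congr rfl fun k _ => ?_
    rw [ofMul_prod, map_sum, Finset.sum_apply]
    refine Finset.sum_congr rfl fun l _ => ?_
    by_cases hkl : l < k
    · simp only [n, if_pos hkl]
      rw [ofMul_pow, map_nsmul, Pi.smul_apply, nsmul_eq_mul, Nat.cast_mul,
        ZMod.natCast_zmod_val, ZMod.natCast_zmod_val]
      ring
    · simp only [n, if_neg hkl]
      rw [ofMul_one, map_zero, Pi.zero_apply]
      ring
  let f : (Fin w → ZMod p) → D.π.ker := fun u => Additive.toMul (φ.symm u)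
  have hf : ∀ u u', f (u + u') = f u * f u' := fun u u' => by
    simp only [f, map_add, toMul_add]
  have hfφ : ∀ z : D.π.ker, f (φ (Additive.ofMul z)) = z := fun z => by
    simp only [f, AddEquiv.symm_apply_apply, toMul_ofMul]
  have hπi : ∀ z, D.π (i z) = 1 := fun z => z.2
  have hπe : ∀ u x, D.π (i (f u) * S x) = Multiplicative.ofAdd x := fun u x => by
    rw [map_mul, hπi, one_mul, hS]
  refine ⟨w, n, fun q => i (f q.1) * S q.2, ⟨?_, ?_⟩, ?_, ?_⟩
  · rintro ⟨u, x⟩ ⟨u', x'⟩ he
    have hx : x = x' := by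
      have := congrArg D.π he
      rw [hπe, hπe] at this
      exact Multiplicative.ofAdd.injective this
    subst hx
    have hu : f u = f u' := hi (mul_right_cancel he)
    have hu2 : u = u' := φ.symm.injective (Additive.toMul.injective hu)
    rw [hu2]
  · intro y
    have hz : y * (S (Multiplicative.toAdd (D.π y)))⁻¹ ∈ D.π.ker := by
      rw [MonoidHom.mem_ker, map_mul, map_inv, hS, ofAdd_toAdd, mul_inv_cancel]
    refine ⟨(φ (Additive.ofMul ⟨_, hz⟩), Multiplicative.toAdd (D.π y)), ?_⟩
    change i (f (φ (Additive.ofMul ⟨_, hz⟩))) * _ = y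
    rw [hfφ]
    change y * (S (Multiplicative.toAdd (D.π y)))⁻¹ * _ = y
    rw [inv_mul_cancel_right]
  · intro u x u' x'
    change i (f u) * S x * (i (f u') * S x') = i (f (u + u' + _)) * S (x + x')
    rw [← hn x x', hf, hf, hfφ, map_mul, map_mul]
    calc i (f u) * S x * (i (f u') * S x') = i (f u) * (S x * i (f u')) * S x' := by
          simp only [mul_assoc]
      _ = i (f u) * (i (f u') * S x) * S x' := by rw [← hc]
      _ = i (f u) * i (f u') * (S x * S x') := by simp only [mul_assoc]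
      _ = _ := by rw [hSS]; simp only [mul_assoc]
  · intro u x
    change Multiplicative.toAdd (D.π (i (f u) * S x)) = x
    rw [hπe, toAdd_ofAdd]

end H63.MA
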