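import Pool.Agent.H63.MA.GLg
import Pool.Agent.H63.MA.GGrp
import Pool.Agent.H63.MA.Lin

/-!
# MA-GLIFT: lifting a homomorphism to `(ZMod p)^m` to a homomorphism to `G`

`glift` (`p` odd): `D : GD p m N G`; `a : Fin m → Kˣ` with `Prim p (a k)`; `T` finite, `B v (a k) (a l) = 0` for `v ∤ p`, `v ∉ T`; for `v ∤ p`, `v ∈ T` there are `π` with `ord v π = 1` and commuting elements
`g, h ∈ G` with `π g = (ord v (a k))_k`, `π h = (lgv v (a k))_k`. Then there is `φ : Γ → G` of finite type with `π (φ σ) = (kk (a k) σ)_k`.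

Proof. Take `w, n, e` from `ggrp`. For `c : Fin w` consider the family indexed by `Fin m × Fin m`, `A (k,l) = a k ^ (n c k l).val`, `C (k,l) = a l`: `Prim p (A (k,l))` (powers), and
`B v (A (k,l)) (C (k,l)) = n c k l * B v (a k) (a l)` is `0` for `v ∉ T`. For `v ∈ T`, `v ∤ p`: write `g = e(u, x)`, `h = e(u', y)`, `x k = ord v (a k)`, `y k = lgv v (a k)`; `g h = h g` gives
`∑_{k,l} n c k l (x_k y_l - y_k x_l) = 0`, and `B v (a k) (a l) = y_k x_l - x_k y_l` (`b_eq`), so `∑_{k,l} n c k l B v (a k) (a l) = 0`. By `locglob`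
`∑_{k,l} n c k l * kk (a k) σ * kk (a l) τ` is trivial: there is `l_c : Γ → ZMod p` of finite level with `l_c (σ τ) = l_c σ + l_c τ + ∑ n c k l kk (a k) σ kk (a l) τ`. Put
`φ σ = e ((l_c σ)_c, (kk (a k) σ)_k)`; it is a homomorphism, of finite level, so of finite type (`lev_ft`).
-/

set_option autoImplicit false

open scoped NumberField
open IsDedekindDomain

noncomputable section

namespace H63.MA

variable {K : Type} [Field K] [NumberField K] {p : ℕ} {ζ : K}

theorem glift_lev_pi {K Ω : Type} [Field K] [Field Ω] [Algebra K Ω] {ι X : Type} [Finite ι]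
    (f : ι → Gal(Ω/K) → X) (h : ∀ i, Lev (f i)) : Lev (fun σ i => f i σ) := by
  choose E hE hf using h
  have := hE
  refine ⟨⨆ i, E i, IntermediateField.finiteDimensional_iSup_of_finite, fun σ u hu => ?_⟩
  funext i
  exact hf i σ u (IntermediateField.fixingSubgroup_le (le_iSup E i) hu)

theorem glift_lev_comp2 {K Ω : Type} [Field K] [Field Ω] [Algebra K Ω] {X Y Z : Type}
    (f : Gal(Ω/K) → X) (g : Gal(Ω/K) → Y) (e : X × Y → Z) (hf : Lev f) (hg : Lev g) :
    Lev (fun σ => e (f σ, g σ)) := by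
  obtain ⟨E, hE, h1⟩ := hf
  obtain ⟨F, hF, h2⟩ := hg
  have := hE
  have := hF
  refine ⟨E ⊔ F, IntermediateField.finiteDimensional_sup E F, fun σ u hu => ?_⟩
  show e (f (σ * u), g (σ * u)) = e (f σ, g σ)
  rw [h1 σ u (IntermediateField.fixingSubgroup_le le_sup_left hu),
    h2 σ u (IntermediateField.fixingSubgroup_le le_sup_right hu)]

theorem glift_lev_kk {Ω : Type} [Field Ω] [Algebra K Ω] [IsAlgClosure K Ω] (hp : p.Prime)
    (hζ : IsPrimitiveRoot ζ p) (a : Kˣ) : Lev (fun σ : Gal(Ω/K) => kk p ζ a σ) := by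
  obtain ⟨E, hE, h1⟩ := ft_lev _ (kc_is (Ω := Ω) hp hζ a).1
  refine ⟨E, hE, fun σ u hu => ?_⟩
  exact congrArg Multiplicative.toAdd (h1 σ u hu)

/-- the local condition at a prime of `T` -/
theorem glift_loc {m w : ℕ} {G : Type} [Group G]
    (n : Fin w → Fin m → Fin m → ZMod p) (e : (Fin w → ZMod p) × (Fin m → ZMod p) → G)
    (hbij : Function.Bijective e)
    (hmul : ∀ u x u' x', e (u, x) * e (u', x') =
        e (u + u' + (fun c => ∑ k, ∑ l, n c k l * x k * x' l), x + x')) (u x u' y)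
    (hgh : e (u, x) * e (u', y) = e (u', y) * e (u, x)) (c : Fin w) :
    ∑ k, ∑ l, n c k l * (y k * x l - x k * y l) = 0 := by
  rw [hmul, hmul] at hgh
  have h1 := congrArg Prod.fst (hbij.1 hgh)
  have h2 := congrFun h1 c
  simp only [Pi.add_apply] at h2
  have h3 : ∑ k, ∑ l, n c k l * (y k * x l - x k * y l) =
      ∑ k, ∑ l, n c k l * y k * x l - ∑ k, ∑ l, n c k l * x k * y l := by
    rw [← Finset.sum_sub_distrib]
    refine Finset.sum_congr rfl fun k _ => ?_
    rw [← Finset.sum_sub_distrib]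
    refine Finset.sum_congr rfl fun l _ => ?_
    ring
  rw [h3]
  linear_combination -h2

theorem glift (Ω : Type) [Field Ω] [Algebra K Ω] [IsAlgClosure K Ω] (hp : p.Prime) (hp2 : MOne p K)
    (hζ : IsPrimitiveRoot ζ p) {m N : ℕ} {G : Type} [Group G] [Finite G] (hG : Ep p G)
    (D : GD p m N G) (a : Fin m → Kˣ) (ha : ∀ k, Prim p (a k)) (T : Finset (Pl K))
    (h1 : ∀ v : Pl K, ¬ Above p v → v ∉ T → ∀ k l, B p ζ v (a k) (a l) = 0)
    (h2 : ∀ v : Pl K, ¬ Above p v → v ∈ T → ∃ (π : Kˣ) (g h : G), ord v π = 1 ∧ g * h = h * g ∧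
      ∀ k, Multiplicative.toAdd (D.π g) k = (ord v (a k) : ZMod p) ∧
        Multiplicative.toAdd (D.π h) k = lgv p ζ v π (a k)) :
    ∃ φ : Gal(Ω/K) →* G, H38.ML.FT φ ∧
      ∀ σ k, Multiplicative.toAdd (D.π (φ σ)) k = kk p ζ (a k) σ := by
  have : NeZero p := ⟨hp.ne_zero⟩
  obtain ⟨w, n, e, hbij, hmul, hπ⟩ := ggrp hp hG D
  have hcast : ∀ x : ZMod p, (((x.val : ℕ) : ℤ) : ZMod p) = x := by
    intro x
    rw [Int.cast_natCast, ZMod.natCast_zmod_val]
  have htv : ∀ c : Fin w, Tv (fun σ τ : Gal(Ω/K) =>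
      ∑ k, ∑ l, n c k l * kk p ζ (a k) σ * kk p ζ (a l) τ) := by
    intro c
    have hB : ∀ v : Pl K, ¬ Above p v → ∀ j : Fin m × Fin m,
        B p ζ v (a j.1 ^ (((n c j.1 j.2).val : ℕ) : ℤ)) (a j.2) =
          n c j.1 j.2 * B p ζ v (a j.1) (a j.2) := by
      intro v hv j
      rw [B_zpow_left hp hζ hv, hcast]
    have h3 := locglob (K := K) (p := p) (ζ := ζ) Ω hp hp2 hζ (ι := Fin m × Fin m)
      (fun j => a j.1 ^ (((n c j.1 j.2).val : ℕ) : ℤ)) (fun j => a j.2)
      (fun j => prim_zpow hp hp2 hζ (ha j.1) _) T ?_ ?_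
    · have h4 : (fun σ τ : Gal(Ω/K) => ∑ j : Fin m × Fin m,
          cu p ζ (a j.1 ^ (((n c j.1 j.2).val : ℕ) : ℤ)) (a j.2) σ τ) =
          fun σ τ : Gal(Ω/K) => ∑ k, ∑ l, n c k l * kk p ζ (a k) σ * kk p ζ (a l) τ := by
        funext σ τ
        rw [Fintype.sum_prod_type]
        refine Finset.sum_congr rfl fun k _ => Finset.sum_congr rfl fun l _ => ?_
        unfold cu
        rw [kk_zpow_arg hp hζ, hcast]
      rw [h4] at h3
      exact h3
    · intro v hv
      by_cases hvT : v ∈ T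
      · obtain ⟨π, g, h, hπ1, hgh, hk⟩ := h2 v hv hvT
        obtain ⟨⟨u, x⟩, rfl⟩ := hbij.2 g
        obtain ⟨⟨u', y⟩, rfl⟩ := hbij.2 h
        have h5 := glift_loc n e hbij hmul u x u' y hgh c
        rw [Fintype.sum_prod_type, ← h5]
        refine Finset.sum_congr rfl fun k _ => Finset.sum_congr rfl fun l _ => ?_
        rw [hB v hv (k, l), b_eq hp hζ hv hπ1]
        have h6 := (hk k).1
        have h7 := (hk k).2
        have h8 := (hk l).1
        have h9 := (hk l).2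
        rw [hπ] at h6 h7 h8 h9
        rw [h6, h7, h8, h9]
      · apply Finset.sum_eq_zero
        intro j _
        rw [hB v hv j, h1 v hv hvT, mul_zero]
    · intro v hv hvT j
      rw [hB v hv j, h1 v hv hvT, mul_zero]
  choose l hl hl2 using htv
  have hφ : ∀ σ τ : Gal(Ω/K), e ((fun c => l c (σ * τ)), fun k => kk p ζ (a k) (σ * τ)) =
      e ((fun c => l c σ), fun k => kk p ζ (a k) σ) *
        e ((fun c => l c τ), fun k => kk p ζ (a k) τ) := by
    intro σ τ
    rw [hmul]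
    congr 1
    refine Prod.ext ?_ ?_
    · funext c
      exact hl2 c σ τ
    · funext k
      exact kk_mul (a k) σ τ
  refine ⟨MonoidHom.mk' (fun σ : Gal(Ω/K) => e ((fun c => l c σ), fun k => kk p ζ (a k) σ)) hφ,
    ?_, ?_⟩
  · apply lev_ft
    exact glift_lev_comp2 _ _ e (glift_lev_pi l hl)
      (glift_lev_pi (fun k σ => kk p ζ (a k) σ) fun k => glift_lev_kk hp hζ (a k))
  · intro σ k
    exact congrFun (hπ (fun c => l c σ) (fun k => kk p ζ (a k) σ)) k

end H63.MA
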