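import Pool.Agent.H63.MA.GTw
import Pool.Agent.H63.MA.GLift
import Pool.Agent.H63.MA.AExp

/-!
# MA-GLOWA: many homomorphisms with given ramification

`lowa` (`p` odd): `f : Fin N → Finset (Pl K)` pairwise disjoint, of good primes, `qf (f i) = 0`, `f i ≠ ∅`, and the weight `wt` of `f` (with `b = 1`) is nonzero. Then there is a finite set of
surjective homomorphisms `φ : Γ → G` of finite type, at least `wt` of them, with `φ (t v)` conjugate to `g i` for `v ∈ f i` and `φ (t v) = 1` for the other `v ∉ S0`.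

Proof. Let `a k = ak D cd 1 f k = ∏_i ∏_{w ∈ f i} pi w ^ (x i k).val`, `T = ⋃ f i`.
(1) `PS (a k)`: `D.prim_of` for the finitely supported function `v ↦ (x i k).val` (`v ∈ f i`), `∑_i x i k • qf (f i) = 0`. (2) `ord v (a k) = (x i k).val` for `v ∈ f i`, `0` for `v ∉ S0 ∪ T`.
(3) hypotheses of `glift` (with this `T`): for `v ∤ p`, `v ∉ T`: if `v ∈ S0` then `Spl v (a k)` gives `B v (a k) (a l) = 0`; otherwise both orders are `0`. For `v ∈ f i`: `π = pi v`, `g = g i`,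
`h` with `π h = (LL v (a k))_k` (`Dg.sur`; `lgv p ζ v (pi v) = LL v` by definition). As `wt ≠ 0`, `∑ θ k LL v (a k) = 0` for all `θ ∈ Θ i`, so `h` commutes with `g i` by `Dg.ann`.
(4) `glift` gives `φ₀`, `π (φ₀ (t v)) = (ord v (a k))_k` (`ld_kk_t`), i.e. `x i = π (g i)` for `v ∈ f i`, `0` for the other `v ∉ S0`. For every choice `s` of elements `s v` in the
conjugacy class of `g i` (`v ∈ f i`; `π (s v) = π (g i)` because the target is commutative), `s v = 1` for `v ∉ T`, `twist` gives `φ_s`. These are different for different `s`. Their number is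
`∏_i (#class_i)^{#(f i)} = wt` (`Dg.card`; all conditions in `wt` hold). (5) Surjectivity: by `kk_surj` the `π (φ σ) = (kk (a k) σ)_k` are all of `(ZMod p)^m`: for `θ ≠ 0` choose `y` with
`∑ θ k y k ≠ 0`, `y = x i` for some `i` (`cd.all`), `v ∈ f i`; `ord v (∏ a k ^ (θ k).val) = ∑ (θ k).val (x i k).val` is not divisible by `p`. Then `gen_top` for the range of `φ`.
-/

set_option autoImplicit false

open scoped NumberField
open IsDedekindDomain
open scoped Classical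

noncomputable section

namespace H63.MA

variable {K : Type} [Field K] [NumberField K] {Ω : Type} [Field Ω] [Algebra K Ω] [IsAlgClosure K Ω]
  {p : ℕ} {ζ : K} {m N : ℕ}

theorem lowa_ps_mul (hp : p.Prime) (hp2 : MOne p K) (hζ : IsPrimitiveRoot ζ p) {S : Finset (Pl K)}
    {x y : Kˣ} (hx : PS p ζ S x) (hy : PS p ζ S y) : PS p ζ S (x * y) := by
  refine ⟨prim_mul hp hp2 hζ hx.1 hy.1, ?_⟩
  intro v hv ha t
  rw [B_mul_left hp hζ ha, hx.2 v hv ha t, hy.2 v hv ha t, add_zero]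

theorem lowa_ps_one (D : RD0 K p ζ) : PS p ζ D.S0 1 := by
  have h := D.prim_of 0 (fun _ _ => rfl) (by simp)
  simpa using h

theorem lowa_ps_i (D : RD0 K p ζ) (n : Finset (Pl K)) (hn : ∀ v ∈ n, v ∉ D.S0)
    (hq : qf D n = 0) (e : ℕ) : PS p ζ D.S0 (∏ w ∈ n, D.pi w ^ e) := by
  have h := D.prim_of (Finsupp.indicator n fun _ _ => (e : ℤ)) (by
    intro v hv
    rw [Finsupp.indicator_of_notMem]
    intro h1
    exact hn v h1 hv) (by
    rw [Finsupp.sum_of_support_subset _ (Finsupp.support_indicator_subset _ _) _ (by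
      intro v _
      rw [Int.cast_zero, zero_smul])]
    have h1 : ∀ v ∈ n, ((Finsupp.indicator n (fun _ _ => (e : ℤ)) v : ℤ) : ZMod p) • D.q v =
        (e : ZMod p) • D.q v := by
      intro v hv
      rw [Finsupp.indicator_of_mem hv, Int.cast_natCast]
    rw [Finset.sum_congr rfl h1, ← Finset.smul_sum]
    unfold qf at hq
    rw [hq, smul_zero])
  rw [Finsupp.prod_of_support_subset _ (Finsupp.support_indicator_subset _ _) _ (by
    intro v _
    rw [zpow_zero])] at h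
  have h1 : ∀ v ∈ n, D.pi v ^ (Finsupp.indicator n (fun _ _ => (e : ℤ)) v : ℤ) =
      D.pi v ^ e := by
    intro v hv
    rw [Finsupp.indicator_of_mem hv, zpow_natCast]
  rwa [Finset.prod_congr rfl h1] at h

theorem lowa_ps (hp : p.Prime) (hp2 : MOne p K) (hζ : IsPrimitiveRoot ζ p) (D : RD0 K p ζ)
    (c : CD p m N) (f : Fin N → Finset (Pl K)) (hS : ∀ i, ∀ v ∈ f i, v ∉ D.S0)
    (hq : ∀ i, qf D (f i) = 0) (k : Fin m) :
    PS p ζ D.S0 (ak D c (fun _ => 1) f k) := by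
  unfold ak
  rw [one_mul]
  refine Finset.prod_induction _ (fun x => PS p ζ D.S0 x)
    (fun a b ha hb => lowa_ps_mul hp hp2 hζ ha hb) (lowa_ps_one D) ?_
  intro i _
  exact lowa_ps_i D (f i) (hS i) (hq i) _

theorem lowa_ord (D : RD0 K p ζ) (c : CD p m N) (f : Fin N → Finset (Pl K))
    (hS : ∀ i, ∀ v ∈ f i, v ∉ D.S0) (k : Fin m) {v : Pl K} (hv : v ∉ D.S0) :
    ord v (ak D c (fun _ => 1) f k) = ∑ i, if v ∈ f i then ((c.x i k).val : ℤ) else 0 := by
  unfold ak
  rw [one_mul, ord_prod]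
  refine Finset.sum_congr rfl fun i _ => ?_
  rw [ord_prod]
  by_cases h : v ∈ f i
  · rw [if_pos h, Finset.sum_eq_single v]
    · rw [ord_pow, D.pi_self v hv, mul_one]
    · intro w hw hwv
      rw [ord_pow, D.pi_ne w v (hS i w hw) hv (Ne.symm hwv), mul_zero]
    · intro h1
      exact absurd h h1
  · rw [if_neg h]
    apply Finset.sum_eq_zero
    intro w hw
    rw [ord_pow, D.pi_ne w v (hS i w hw) hv (by rintro rfl; exact h hw), mul_zero]

theorem lowa_ord_mem (D : RD0 K p ζ) (c : CD p m N) (f : Fin N → Finset (Pl K)) (hdj : Dj f)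
    (hS : ∀ i, ∀ v ∈ f i, v ∉ D.S0) (k : Fin m) {v : Pl K} {i : Fin N} (hv : v ∈ f i) :
    ord v (ak D c (fun _ => 1) f k) = ((c.x i k).val : ℤ) := by
  rw [lowa_ord D c f hS k (hS i v hv), Finset.sum_eq_single i]
  · rw [if_pos hv]
  · intro j _ hj
    rw [if_neg]
    intro h
    exact Finset.disjoint_left.1 (hdj j i hj) h hv
  · intro h
    exact absurd (Finset.mem_univ i) h

theorem lowa_ord_not (D : RD0 K p ζ) (c : CD p m N) (f : Fin N → Finset (Pl K))
    (hS : ∀ i, ∀ v ∈ f i, v ∉ D.S0) (k : Fin m) {v : Pl K} (hv : v ∉ D.S0)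
    (hf : ∀ i, v ∉ f i) : ord v (ak D c (fun _ => 1) f k) = 0 := by
  rw [lowa_ord D c f hS k hv]
  exact Finset.sum_eq_zero fun i _ => if_neg (hf i)

/-- independence of the Kummer generators -/
theorem lowa_indep (hp : p.Prime) (D : RD0 K p ζ) (c : CD p m N)
    (f : Fin N → Finset (Pl K)) (hdj : Dj f) (hS : ∀ i, ∀ v ∈ f i, v ∉ D.S0)
    (hne : ∀ i, f i ≠ ∅) (θ : Fin m → ZMod p) (hθ : θ ≠ 0) :
    ¬ IsPow p (∏ k, ak D c (fun _ => 1) f k ^ (θ k).val) := by
  haveI : NeZero p := ⟨hp.ne_zero⟩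
  haveI : Fact p.Prime := ⟨hp⟩
  rintro ⟨z, hz⟩
  obtain ⟨k₀, hk₀⟩ : ∃ k, θ k ≠ 0 := by
    by_contra h
    push Not at h
    exact hθ (funext h)
  obtain ⟨i, hi⟩ := c.all (Pi.single k₀ 1) (by
    intro h
    have h1 := congrFun h k₀
    rw [Pi.single_eq_same, Pi.zero_apply] at h1
    exact one_ne_zero h1)
  obtain ⟨v, hv⟩ := Finset.nonempty_iff_ne_empty.2 (hne i)
  have h1 := congrArg (ord v) hz
  rw [ord_pow, ord_prod] at h1
  have h2 : ∀ k ∈ Finset.univ, ord v (ak D c (fun _ => 1) f k ^ (θ k).val) =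
      ((θ k).val : ℤ) * ((c.x i k).val : ℤ) := by
    intro k _
    rw [ord_pow, lowa_ord_mem D c f hdj hS k hv]
  rw [Finset.sum_congr rfl h2] at h1
  have h3 := congrArg (fun n : ℤ => (n : ZMod p)) h1
  simp only [Int.cast_mul, Int.cast_natCast, CharP.cast_eq_zero, zero_mul, Int.cast_sum,
    ZMod.natCast_zmod_val, hi] at h3
  rw [Finset.sum_eq_single k₀] at h3
  · rw [Pi.single_eq_same, mul_one] at h3
    exact hk₀ h3.symm
  · intro k _ hk
    rw [Pi.single_eq_of_ne hk, mul_zero]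
  · intro h
    exact absurd (Finset.mem_univ k₀) h

/-- the weight is at most the number of the choices -/
theorem lowa_wt (c : CD p m N) (f : Fin N → Finset (Pl K)) (F : Pl K → Fin m → ZMod p)
    (C : Fin N → ℕ) (hC : ∀ i, Nat.card (c.Θ i) = C i) :
    wt c f F ≤ ((∏ i, C i ^ (f i).card : ℕ) : ℝ) := by
  unfold wt
  push_cast
  refine Finset.prod_le_prod (fun i _ => Finset.prod_nonneg fun v _ => ?_) fun i _ => ?_
  · split_ifs
    · exact Nat.cast_nonneg _
    · exact le_rfl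
  · rw [← Finset.prod_const]
    refine Finset.prod_le_prod (fun v _ => ?_) fun v _ => ?_
    · split_ifs
      · exact Nat.cast_nonneg _
      · exact le_rfl
    · split_ifs
      · rw [hC]
      · exact Nat.cast_nonneg _

/-- the choice of the values -/
def lowaS {G : Type} [Group G] (Dg : GD p m N G) (f : Fin N → Finset (Pl K))
    (ch : (i : Fin N) → {v // v ∈ f i} → {h : G // IsConj h (Dg.g i)}) (v : Pl K) : G :=
  if h : ∃ i, v ∈ f i then (ch h.choose ⟨v, h.choose_spec⟩).1 else 1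

theorem lowaS_mem {G : Type} [Group G] (Dg : GD p m N G) (f : Fin N → Finset (Pl K))
    (hdj : Dj f) (ch : (i : Fin N) → {v // v ∈ f i} → {h : G // IsConj h (Dg.g i)})
    (i : Fin N) (v : Pl K) (hv : v ∈ f i) : lowaS Dg f ch v = (ch i ⟨v, hv⟩).1 := by
  have h : ∃ i, v ∈ f i := ⟨i, hv⟩
  unfold lowaS
  rw [dif_pos h]
  have key : ∀ (j : Fin N) (hj : v ∈ f j), (ch j ⟨v, hj⟩).1 = (ch i ⟨v, hv⟩).1 := by
    intro j hj
    have hji : j = i := by
      by_contra hne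
      exact Finset.disjoint_left.1 (hdj j i hne) hj hv
    subst hji
    rfl
  exact key _ _

theorem lowaS_not {G : Type} [Group G] (Dg : GD p m N G) (f : Fin N → Finset (Pl K))
    (ch : (i : Fin N) → {v // v ∈ f i} → {h : G // IsConj h (Dg.g i)})
    (v : Pl K) (hv : ∀ i, v ∉ f i) : lowaS Dg f ch v = 1 := by
  unfold lowaS
  rw [dif_neg]
  rintro ⟨i, hi⟩
  exact hv i hi

theorem lowa_conj {G : Type} [Group G] (Dg : GD p m N G) {h : G} {i : Fin N}
    (hh : IsConj h (Dg.g i)) : Dg.π h = Dg.π (Dg.g i) := by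
  have h2 : IsConj (Dg.π h) (Dg.π (Dg.g i)) := MonoidHom.map_isConj Dg.π hh
  rwa [isConj_iff_eq] at h2

theorem lowa (hp : p.Prime) (hp2 : MOne p K) (hζ : IsPrimitiveRoot ζ p) (D : RD K p ζ)
    (L : LDs D.toRD0 Ω) {G : Type} [Group G] [Finite G] (hG : Ep p G) (Dg : GD p m N G)
    (f : Fin N → Finset (Pl K)) (hdj : Dj f) (hg : ∀ i, ∀ v ∈ f i, D.Gd v)
    (hq : ∀ i, qf D.toRD0 (f i) = 0) (hne : ∀ i, f i ≠ ∅)
    (hw : wt Dg.cd f (fun v k => D.LL v (ak D.toRD0 Dg.cd (fun _ => 1) f k)) ≠ 0) :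
    ∃ Rs : Finset (Gal(Ω/K) →* G),
      wt Dg.cd f (fun v k => D.LL v (ak D.toRD0 Dg.cd (fun _ => 1) f k)) ≤ (Rs.card : ℝ) ∧
      ∀ φ ∈ Rs, H38.ML.FT φ ∧ Function.Surjective φ ∧
        (∀ i, ∀ v ∈ f i, IsConj (φ (L.t v)) (Dg.g i)) ∧
        ∀ v, v ∉ D.S0 → (∀ i, v ∉ f i) → φ (L.t v) = 1 := by
  haveI : NeZero p := ⟨hp.ne_zero⟩
  have hS : ∀ i, ∀ v ∈ f i, v ∉ D.toRD0.S0 := fun i v hv => (hg i v hv).1
  have hab : ∀ v, v ∉ D.toRD0.S0 → ¬ Above p v := fun v hv h => hv (D.above v h)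
  obtain ⟨a, ha⟩ : ∃ a : Fin m → Kˣ, a = fun k => ak D.toRD0 Dg.cd (fun _ => 1) f k := ⟨_, rfl⟩
  have hak : ∀ k, ak D.toRD0 Dg.cd (fun _ => 1) f k = a k := fun k => by rw [ha]
  have hps : ∀ k, PS p ζ D.toRD0.S0 (a k) := fun k => by
    rw [ha]
    exact lowa_ps hp hp2 hζ D.toRD0 Dg.cd f hS hq k
  have hord : ∀ k v i, v ∈ f i → ord v (a k) = ((Dg.cd.x i k).val : ℤ) := fun k v i hv => by
    rw [ha]
    exact lowa_ord_mem D.toRD0 Dg.cd f hdj hS k hv
  have hord0 : ∀ k v, v ∉ D.toRD0.S0 → (∀ i, v ∉ f i) → ord v (a k) = 0 := fun k v hv hf => by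
    rw [ha]
    exact lowa_ord_not D.toRD0 Dg.cd f hS k hv hf
  have hind : ∀ θ : Fin m → ZMod p, θ ≠ 0 → ¬ IsPow p (∏ k, a k ^ (θ k).val) := fun θ hθ => by
    rw [ha]
    exact lowa_indep hp D.toRD0 Dg.cd f hdj hS hne θ hθ
  have hcond : ∀ i, ∀ v ∈ f i, ∀ θ ∈ Dg.Θ i, dt θ (fun k => D.LL v (a k)) = 0 := by
    intro i v hv
    unfold wt at hw
    have h1 := (Finset.prod_ne_zero_iff.1 ((Finset.prod_ne_zero_iff.1 hw) i (Finset.mem_univ i))) v hv
    by_contra h2
    apply h1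
    rw [if_neg]
    simp only [hak]
    exact h2
  obtain ⟨φ₀, hφ₀, hπ₀⟩ := glift Ω hp hp2 hζ hG Dg a (fun k => (hps k).1)
    (Finset.univ.biUnion f) (by
      intro v hv hvT k l
      have hf : ∀ i, v ∉ f i := by
        intro i hi
        exact hvT (Finset.mem_biUnion.2 ⟨i, Finset.mem_univ i, hi⟩)
      by_cases hv0 : v ∈ D.toRD0.S0
      · exact (hps k).2 v hv0 hv (a l)
      · rw [B_unit hp hζ hv (hord0 k v hv0 hf), hord0 l v hv0 hf, Int.cast_zero, zero_mul]) (by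
      intro v hv hvT
      obtain ⟨i, -, hi⟩ := Finset.mem_biUnion.1 hvT
      obtain ⟨h, hh⟩ := Dg.sur (Multiplicative.ofAdd fun k => D.LL v (a k))
      have hcom : h * Dg.g i = Dg.g i * h := by
        refine Dg.ann i h fun θ hθ => ?_
        rw [hh]
        exact hcond i v hi θ hθ
      refine ⟨D.pi v, Dg.g i, h, D.pi_self v (hS i v hi), hcom.symm, fun k => ⟨?_, ?_⟩⟩
      · rw [hord k v i hi, Int.cast_natCast, ZMod.natCast_zmod_val]
        rfl
      · rw [hh]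
        rfl)
  have ht : ∀ v, v ∉ D.toRD0.S0 → ∀ k, Multiplicative.toAdd (Dg.π (φ₀ (L.t v))) k =
      (ord v (a k) : ZMod p) := by
    intro v hv k
    rw [hπ₀, LDs.t, dif_pos hv]
    exact ld_kk_t hp hζ (hab v hv) (D.pi_self v hv) (L.ld v hv) (a k)
  have htw : ∀ ch : (i : Fin N) → {v // v ∈ f i} → {h : G // IsConj h (Dg.g i)},
      ∃ φ : Gal(Ω/K) →* G, H38.ML.FT φ ∧ (∀ σ, Dg.π (φ σ) = Dg.π (φ₀ σ)) ∧
      ∀ v, v ∉ D.toRD0.S0 → φ (L.t v) = lowaS Dg f ch v := by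
    intro ch
    refine twist hp hζ D.toRD0 L hG Dg φ₀ hφ₀ (lowaS Dg f ch) ?_ ?_
    · intro v hv
      apply Multiplicative.toAdd.injective
      funext k
      rw [ht v hv k]
      by_cases h : ∃ i, v ∈ f i
      · obtain ⟨i, hi⟩ := h
        rw [lowaS_mem Dg f hdj ch i v hi, lowa_conj Dg (ch i ⟨v, hi⟩).2, hord k v i hi,
          Int.cast_natCast, ZMod.natCast_zmod_val]
        rfl
      · have hf : ∀ i, v ∉ f i := fun i hi => h ⟨i, hi⟩
        rw [lowaS_not Dg f ch v hf, hord0 k v hv hf, map_one, Int.cast_zero]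
        rfl
    · refine (Finset.univ.biUnion f).finite_toSet.subset ?_
      intro v hv
      by_contra h
      apply hv
      apply lowaS_not
      intro i hi
      exact h (Finset.mem_coe.2 (Finset.mem_biUnion.2 ⟨i, Finset.mem_univ i, hi⟩))
  choose φ hφ1 hφ2 hφ3 using htw
  have hinj : Function.Injective φ := by
    intro ch ch' h
    funext i v
    apply Subtype.ext
    have h1 := hφ3 ch v.1 (hS i v.1 v.2)
    have h2 := hφ3 ch' v.1 (hS i v.1 v.2)
    rw [h, h2, lowaS_mem Dg f hdj ch' i v.1 v.2, lowaS_mem Dg f hdj ch i v.1 v.2] at h1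
    exact h1.symm
  haveI : Fintype G := Fintype.ofFinite G
  refine ⟨Finset.univ.image φ, ?_, ?_⟩
  · rw [Finset.card_image_of_injective _ hinj, Finset.card_univ, Fintype.card_pi]
    refine (lowa_wt Dg.cd f _ (fun i => Nat.card {h : G // IsConj h (Dg.g i)})
      (fun i => Dg.card i)).trans (le_of_eq ?_)
    congr 1
    refine Finset.prod_congr rfl fun i _ => ?_
    rw [Fintype.card_fun, Nat.card_eq_fintype_card, Fintype.card_coe]
  · intro ψ hψ
    obtain ⟨ch, -, rfl⟩ := Finset.mem_image.1 hψ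
    refine ⟨hφ1 ch, ?_, ?_, ?_⟩
    · rw [← MonoidHom.range_eq_top]
      refine gen_top Dg _ fun y => ?_
      obtain ⟨σ, hσ⟩ := kk_surj (Ω := Ω) hp hζ a hind (Multiplicative.toAdd y)
      refine ⟨φ ch σ, ⟨σ, rfl⟩, ?_⟩
      apply Multiplicative.toAdd.injective
      funext k
      rw [hφ2, hπ₀, hσ]
    · intro i v hv
      rw [hφ3 ch v (hS i v hv), lowaS_mem Dg f hdj ch i v hv]
      exact (ch i ⟨v, hv⟩).2
    · intro v hv hf
      rw [hφ3 ch v hv, lowaS_not Dg f ch v hf]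

end H63.MA
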