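import Pool.Agent.H63.MA.ASq
import Pool.Agent.H63.MA.RMkB

/-!
# MA-ALEM: Lemma A (one long variable)

`D : RD K p ζ`. Let `E` be a finite set of primes outside `S0`, `μ : Pl K → ZMod p`, `κ ∈ (ZMod p)^r`. Put
`f(v) = ∑_{w ∈ E} μ w LL w (pi v) + κ · q v`.
* `rayE`: the function `f` (set to `0` on `S0 ∪ E`) is `IsRay` of modulus `M0 ∏_{w ∈ E} w`; if `μ w ≠ 0` for some `w ∈ E`, or `κ ≠ 0`,
  it is not identically `0`. Proof: for `x ≡ 1` modulo the modulus: sum of `ray_L` (`x ≡ 1 mod M0 w`; the terms `v ∈ E ∖ {w}` do not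
  matter as `ord v x = 0`) and `ray_q`. Nonzero if `μ w₀ ≠ 0`: choose a nonzero `x ∈ 𝓞 K` with `x ≡ 1 mod p³ M0`, `x ≡ 1 mod w` for
  `w ∈ E ∖ {w₀}`, `x ≡ g mod w₀` where `lg w₀ g ≠ 0`. Then `PS x` (`LocP` with `y = 1`, `B_of_one1`), `∑_v ord v x (κ · q v) = 0` (`ray_q`),
  `∑_v ord v x LL w (pi v) = 0` for `w ∈ E ∖ {w₀}` (`ray_L`), `z = ∏ pi v^{ord v x}` satisfies `PS z` (`prim_of`), `x / z` is an `S0`-unit
  with `PS`, so a `p`-th power (`unit`), hence `∑_v ord v x LL w₀ (pi v) = LL w₀ z = LL w₀ x = lg w₀ g ≠ 0`. As `ord v x = 0` on `S0 ∪ E`,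
  `∑_v ord v x f(v) = μ w₀ lg w₀ g ≠ 0`, so `f(v) ≠ 0` for some `v ∉ S0 ∪ E`.
  If all `μ = 0` on `E` and `κ ≠ 0`: `q_non` gives `v` with `κ · q v ≠ 0`, maybe `v ∈ E`; choose an ideal in the class: take
  `x ∈ Kˣ` ... or: the homomorphism `n ↦ κ · q(n)` on fractional ideals prime to `S0` is trivial on `(x)`, `x ≡ 1 mod M0`, and every class
  of ideals modulo these contains ideals prime to `E` (multiply `v` by `x ≡ 1 mod M0` with `ord v x = -1` and `ord w x = 0` for the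
  other `w ∈ E`: weak approximation; `x = a / b` with `a ≡ b ≡ 1`), so `κ · q` is nonzero at some prime outside `S0 ∪ E`.
* `lemA`: for `E ⊆ F`, `H` a function of the class, `|H| ≤ 1`, and (`μ w ≠ 0` for some `w ∈ E`), or `H = 1` and `κ ≠ 0`:
  `|∑_{n ∈ GF y, n ∩ F = ∅} H(q n) ep(∑_{v ∈ n} f v)| ≤ C (nr E)^A 2^{#F} y^{1-δ}`: expand `H` in additive characters of
  `(ZMod p)^r` (coefficients bounded by `1`, `p^r` of them), which changes only `κ`; apply `ray_rc` and `asq`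
  (`χ(idl n) = ep(∑_{v ∈ n} f v)` for `n` prime to the modulus).
-/

set_option autoImplicit false

open scoped NumberField
open IsDedekindDomain
open scoped Classical

noncomputable section

namespace H63.MA

variable {K : Type} [Field K] [NumberField K] {p : ℕ} {ζ : K}

/-- the additive character defined by `μ` and `κ` -/
def fE (D : RD0 K p ζ) (E : Finset (Pl K)) (μ : Pl K → ZMod p) (κ : Fin D.r → ZMod p) (v : Pl K) :
    ZMod p := ∑ w ∈ E, μ w * D.LL w (D.pi v) + dt κ (D.q v)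

theorem alem_dvd (v : Pl K) (E : Finset (Pl K)) : v.asIdeal ∣ idl E ↔ v ∈ E := by
  constructor
  · intro h
    obtain ⟨w, hw, h1⟩ := (HeightOneSpectrum.prime v).exists_mem_finset_dvd h
    have h3 : w.asIdeal ≤ v.asIdeal := Ideal.le_of_dvd h1
    have h4 : w = v := HeightOneSpectrum.ext (w.isMaximal.eq_of_le v.isPrime.ne_top h3)
    rw [← h4]
    exact hw
  · intro h
    exact Finset.dvd_prod_of_mem _ h

theorem alem_dvd' (D : RD0 K p ζ) (v : Pl K) (E : Finset (Pl K)) :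
    v.asIdeal ∣ D.M0 * idl E ↔ v ∈ D.S0 ∨ v ∈ E := by
  rw [(HeightOneSpectrum.prime v).dvd_mul, D.M0_dvd, alem_dvd]

theorem alem_one1 {v : Pl K} {x : Kˣ} {a : 𝓞 K}
    (hx : (x : K) = algebraMap (𝓞 K) K a) (ha : a - 1 ∈ v.asIdeal) : One1 v x := by
  unfold One1
  have h1 : (x : K) - 1 = algebraMap (𝓞 K) K (a - 1) := by
    rw [map_sub, map_one, hx]
  rw [h1]
  exact (v.valuation_lt_one_iff_mem (a - 1)).2 ha

theorem alem_restr {𝔣 𝔤 : Ideal (𝓞 K)} (h : 𝔤 ≤ 𝔣) {f : Pl K → ZMod p} (hf : IsRay p 𝔣 f) :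
    IsRay p 𝔤 (fun v => if v.asIdeal ∣ 𝔤 then 0 else f v) := by
  refine ⟨fun v hv => if_pos hv, fun x a hx ha => ?_⟩
  rw [← hf.ray x a hx (h ha)]
  refine finsum_congr fun v => ?_
  by_cases hv : v.asIdeal ∣ 𝔤
  · rw [if_pos hv, ord_of_one1 (alem_one1 hx (Ideal.le_of_dvd hv ha)), Int.cast_zero, mul_zero,
      mul_zero]
  · rw [if_neg hv]

theorem alem_ray (D : RD K p ζ) (E : Finset (Pl K))
    (hE : ∀ w ∈ E, w ∉ D.S0) (μ : Pl K → ZMod p) (κ : Fin D.r → ZMod p) :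
    IsRay p (D.M0 * idl E) (fun v => if v ∈ D.S0 ∨ v ∈ E then 0 else fE D.toRD0 E μ κ v) := by
  have key : ∀ E' : Finset (Pl K), E' ⊆ E → IsRay p (D.M0 * idl E)
      (fun v => if v.asIdeal ∣ D.M0 * idl E then 0 else
        ∑ w ∈ E', μ w * D.LL w (D.pi v) + dt κ (D.q v)) := by
    intro E'
    induction E' using Finset.induction_on with
    | empty =>
      intro _
      have h1 := alem_restr (Ideal.mul_le_left (I := D.M0) (J := idl E)) (D.ray_q κ)
      simpa [dt] using h1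
    | insert w E' hw ih =>
      intro hsub
      have hwE : w ∈ E := hsub (Finset.mem_insert_self _ _)
      have h1 := ih ((Finset.subset_insert _ _).trans hsub)
      have hle : D.M0 * idl E ≤ D.M0 * w.asIdeal :=
        Ideal.mul_mono_right (Ideal.le_of_dvd ((alem_dvd w E).2 hwE))
      have h2 := alem_restr hle (D.ray_L w (hE w hwE))
      have h3 := ray_lin h2 h1 (μ w) 1
      have h4 : (fun v => if v.asIdeal ∣ D.M0 * idl E then 0 else
          ∑ w ∈ insert w E', μ w * D.LL w (D.pi v) + dt κ (D.q v)) =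
          fun v => μ w * (if v.asIdeal ∣ D.M0 * idl E then 0 else
            (if v ∈ D.S0 ∨ v = w then 0 else D.LL w (D.pi v))) +
            1 * (if v.asIdeal ∣ D.M0 * idl E then 0 else
              ∑ w ∈ E', μ w * D.LL w (D.pi v) + dt κ (D.q v)) := by
        funext v
        by_cases hv : v.asIdeal ∣ D.M0 * idl E
        · rw [if_pos hv, if_pos hv, if_pos hv]
          ring
        · rw [if_neg hv, if_neg hv, if_neg hv]
          rw [alem_dvd' D.toRD0, not_or] at hv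
          have hvw : ¬ (v ∈ D.S0 ∨ v = w) := by
            rintro (h | h)
            · exact hv.1 h
            · exact hv.2 (h ▸ hwE)
          rw [if_neg hvw, Finset.sum_insert hw]
          ring
      rw [h4]
      exact h3
  have h5 := key E (Finset.Subset.refl E)
  have h6 : (fun v => if v ∈ D.S0 ∨ v ∈ E then 0 else fE D.toRD0 E μ κ v) =
      fun v => if v.asIdeal ∣ D.M0 * idl E then 0 else
        ∑ w ∈ E, μ w * D.LL w (D.pi v) + dt κ (D.q v) := by
    funext v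
    simp only [alem_dvd' D.toRD0, fE]
  rw [h6]
  exact h5

theorem alem_crt (w0 : Pl K) (n : ℕ) (J : Ideal (𝓞 K)) (hJ : ¬ w0.asIdeal ∣ J) (g0 : 𝓞 K) :
    ∃ a : 𝓞 K, a - 1 ∈ J ∧ a - g0 ∈ w0.asIdeal ^ n := by
  have h1 : IsCoprime J (w0.asIdeal ^ n) := (rayc_coprime w0 hJ).symm.pow_right
  obtain ⟨j, hj, i, hi, hji⟩ := Ideal.isCoprime_iff_exists.1 h1
  refine ⟨1 + j * (g0 - 1), ?_, ?_⟩
  · have : 1 + j * (g0 - 1) - 1 = j * (g0 - 1) := by ring
    rw [this]
    exact Ideal.mul_mem_right _ _ hj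
  · have : 1 + j * (g0 - 1) - g0 = i * (1 - g0) := by
      have h2 : j = 1 - i := by rw [← hji]; ring
      rw [h2]
      ring
    rw [this]
    exact Ideal.mul_mem_right _ _ hi

/-- the class of a principal ideal -/
theorem alem_q (D : RD0 K p ζ) {x : Kˣ} {a : 𝓞 K} (hxa : (x : K) = algebraMap (𝓞 K) K a)
    (haM : a - 1 ∈ D.M0) (i : Fin D.r) :
    ∑ v ∈ (finite_ord x).toFinset, (ord v x : ZMod p) * D.q v i = 0 := by
  have h1 := (D.ray_q (Pi.single i 1)).ray x a hxa haM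
  have h2 : ∀ v, (∑ j, (Pi.single i 1 : Fin D.r → ZMod p) j * D.q v j) = D.q v i := by
    intro v
    rw [Finset.sum_eq_single i]
    · rw [Pi.single_eq_same, one_mul]
    · intro j _ hj
      rw [Pi.single_eq_of_ne hj, zero_mul]
    · intro h
      exact absurd (Finset.mem_univ i) h
  simp only [h2] at h1
  rw [finsum_eq_sum_of_support_subset (s := (finite_ord x).toFinset) _ ?_] at h1
  · rw [← h1]
    refine Finset.sum_congr rfl fun v _ => ?_
    rw [mul_comm]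
  · intro v hv
    rw [Function.mem_support] at hv
    rw [Finset.mem_coe, Set.Finite.mem_toFinset]
    intro h
    apply hv
    have h' : ord v x = 0 := h
    rw [h', Int.cast_zero, mul_zero]

theorem alem_near_mul {v : Pl K} {x y : Kˣ}
    (hx : v.valuation K ((x : K) - 1) < v.valuation K ((p : K) ^ 2))
    (hy : v.valuation K ((y : K) - 1) < v.valuation K ((p : K) ^ 2))
    (hp1 : v.valuation K ((p : K) ^ 2) ≤ 1) :
    v.valuation K (((x * y : Kˣ) : K) - 1) < v.valuation K ((p : K) ^ 2) := by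
  have hy1 : v.valuation K (y : K) = 1 := symA_one1 (lt_of_lt_of_le hy hp1)
  have h1 : ((x * y : Kˣ) : K) - 1 = ((x : K) - 1) * y + ((y : K) - 1) := by
    rw [Units.val_mul]
    ring
  rw [h1]
  refine lt_of_le_of_lt (Valuation.map_add _ _ _) (max_lt ?_ hy)
  rw [map_mul, hy1, mul_one]
  exact hx

theorem alem_near_inv {v : Pl K} {x : Kˣ}
    (hx : v.valuation K ((x : K) - 1) < v.valuation K ((p : K) ^ 2))
    (hp1 : v.valuation K ((p : K) ^ 2) ≤ 1) :
    v.valuation K (((x⁻¹ : Kˣ) : K) - 1) < v.valuation K ((p : K) ^ 2) := by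
  have hx1 : v.valuation K (x : K) = 1 := symA_one1 (lt_of_lt_of_le hx hp1)
  have h1 : ((x⁻¹ : Kˣ) : K) - 1 = -(((x : K) - 1) * (x : K)⁻¹) := by
    rw [Units.val_inv_eq_inv_val]
    have := x.ne_zero
    field_simp
    ring
  rw [h1, Valuation.map_neg, map_mul, map_inv₀, hx1, inv_one, mul_one]
  exact hx

theorem alem_p1 (v : Pl K) : v.valuation K ((p : K) ^ 2) ≤ 1 := by
  have h : v.valuation K (algebraMap (𝓞 K) K (p : 𝓞 K)) ≤ 1 := v.valuation_le_one _
  have h1 : algebraMap (𝓞 K) K (p : 𝓞 K) = (p : K) := map_natCast (algebraMap (𝓞 K) K) p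
  rw [h1] at h
  rw [map_pow]
  exact pow_le_one' h 2

theorem alem_locp_mul {v : Pl K} {x y : Kˣ} (hx : LocP p v x) (hy : LocP p v y) :
    LocP p v (x * y) := by
  obtain ⟨a, ha⟩ := hx
  obtain ⟨b, hb⟩ := hy
  refine ⟨a * b, ?_⟩
  have h := alem_near_mul ha hb (alem_p1 v)
  have h1 : x * y * ((a * b) ^ p)⁻¹ = x * (a ^ p)⁻¹ * (y * (b ^ p)⁻¹) := by
    rw [mul_pow, mul_inv, mul_mul_mul_comm]
  rw [h1]
  exact h

theorem alem_locp_inv {v : Pl K} {x : Kˣ} (hx : LocP p v x) : LocP p v x⁻¹ := by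
  obtain ⟨a, ha⟩ := hx
  refine ⟨a⁻¹, ?_⟩
  have h := alem_near_inv ha (alem_p1 v)
  have h1 : x⁻¹ * ((a⁻¹) ^ p)⁻¹ = (x * (a ^ p)⁻¹)⁻¹ := by
    rw [inv_pow, mul_inv]
  rw [h1]
  exact h

theorem alem_ps_div (hp : p.Prime) (hζ : IsPrimitiveRoot ζ p) {S : Finset (Pl K)} {x y : Kˣ} (hx : PS p ζ S x)
    (hy : PS p ζ S y) : PS p ζ S (x * y⁻¹) := by
  refine ⟨fun v hv => alem_locp_mul (hx.1 v hv) (alem_locp_inv (hy.1 v hv)), ?_⟩
  intro v hv ha t
  rw [B_mul_left hp hζ ha, B_inv_left hp hζ ha, hx.2 v hv ha t, hy.2 v hv ha t, neg_zero,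
    add_zero]


theorem alem_LL (hp : p.Prime) (hζ : IsPrimitiveRoot ζ p) (D : RD0 K p ζ) {x : Kˣ} {a : 𝓞 K}
    (hxa : (x : K) = algebraMap (𝓞 K) K a) (haM : a - 1 ∈ D.M0) (hPS : PS p ζ D.S0 x)
    {w : Pl K} (hw : w ∉ D.S0) :
    ∑ v ∈ (finite_ord x).toFinset, (ord v x : ZMod p) * D.LL w (D.pi v) = D.LL w x := by
  have hoS : ∀ v ∈ D.S0, ord v x = 0 := by
    intro v hv
    have h1 := (D.M0_dvd v).2 hv
    rw [Ideal.dvd_iff_le] at h1
    exact ord_of_one1 (alem_one1 hxa (h1 haM))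
  set s : Finset (Pl K) := (finite_ord x).toFinset with hs
  have hms : ∀ v, v ∈ s ↔ ord v x ≠ 0 := by
    intro v
    rw [hs, Set.Finite.mem_toFinset]
    rfl
  let m : Pl K →₀ ℤ := Finsupp.onFinset s (fun v => ord v x) (fun v hv => (hms v).2 hv)
  have hm : ∀ v, m v = ord v x := fun v => rfl
  have hmsup : m.support = s := by
    ext v
    rw [Finsupp.mem_support_iff, hm, hms]
  have hsS : ∀ v ∈ s, v ∉ D.S0 := fun v hv hS => (hms v).1 hv (hoS v hS)
  have hq : (m.sum fun v n => (n : ZMod p) • D.q v) = 0 := by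
    funext i
    have h1 := alem_q D hxa haM i
    rw [Finsupp.sum, Finset.sum_apply, hmsup, Pi.zero_apply, ← h1]
    refine Finset.sum_congr rfl fun v _ => ?_
    rw [Pi.smul_apply, smul_eq_mul, hm]
  have hyPS := D.prim_of m (fun v hv => by rw [hm, hoS v hv]) hq
  set y : Kˣ := m.prod fun v n => D.pi v ^ n with hy
  have hyprod : y = ∏ v ∈ s, D.pi v ^ ord v x := by
    rw [hy, Finsupp.prod, hmsup]
    rfl
  have hyord : ∀ v, v ∉ D.S0 → ord v y = ord v x := by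
    intro v hv
    rw [hyprod, ord_prod]
    by_cases hvs : v ∈ s
    · rw [Finset.sum_eq_single v]
      · rw [ord_zpow, D.pi_self v hv, mul_one]
      · intro u hu huv
        rw [ord_zpow, D.pi_ne u v (hsS u hu) hv (Ne.symm huv), mul_zero]
      · intro h
        exact absurd hvs h
    · have h0 : ord v x = 0 := by
        by_contra h
        exact hvs ((hms v).2 h)
      rw [h0]
      refine Finset.sum_eq_zero fun u hu => ?_
      have huv : v ≠ u := by
        rintro rfl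
        exact hvs hu
      rw [ord_zpow, D.pi_ne u v (hsS u hu) hv huv, mul_zero]
  have hu := D.unit (x * y⁻¹) (fun v hv => by
    rw [ord_mul, ord_inv, hyord v hv, add_neg_cancel])
    (alem_ps_div hp hζ hPS hyPS)
  obtain ⟨z, hz⟩ := hu
  have hx : x = z ^ p * y := by rw [hz, inv_mul_cancel_right]
  have hLx : D.LL w x = D.LL w y := by
    conv_lhs => rw [hx]
    rw [LL_mul hp hζ D hw, LL_pow_p hp hζ D hw, zero_add]
  have hLP : ∀ s : Finset (Pl K), D.LL w (∏ v ∈ s, D.pi v ^ ord v x) =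
      ∑ v ∈ s, (ord v x : ZMod p) * D.LL w (D.pi v) := by
    intro s
    induction s using Finset.induction_on with
    | empty => rw [Finset.prod_empty, Finset.sum_empty, LL_one hp hζ D hw]
    | insert a s ha ih =>
      rw [Finset.prod_insert ha, Finset.sum_insert ha, LL_mul hp hζ D hw, LL_zpow hp hζ D hw, ih]
  rw [hLx, hyprod, hLP]

theorem alem_span (v w : Pl K) (h : v.asIdeal ∣ w.asIdeal) : v = w := by
  have h3 : w.asIdeal ≤ v.asIdeal := Ideal.le_of_dvd h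
  exact (HeightOneSpectrum.ext (w.isMaximal.eq_of_le v.isPrime.ne_top h3)).symm

theorem alem_ne1 (hp : p.Prime) (hζ : IsPrimitiveRoot ζ p) (D : RD0 K p ζ) (E : Finset (Pl K))
    (hE : ∀ w ∈ E, w ∉ D.S0) (μ : Pl K → ZMod p) (κ : Fin D.r → ZMod p) {w0 : Pl K}
    (hw0 : w0 ∈ E) (hμ : μ w0 ≠ 0) : ∃ v, v ∉ D.S0 ∧ v ∉ E ∧ fE D E μ κ v ≠ 0 := by
  have : Fact p.Prime := ⟨hp⟩
  have hw0S : w0 ∉ D.S0 := hE w0 hw0
  have hw0p : ¬ Above p w0 := fun h => hw0S (D.above w0 h)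
  -- the residue class
  obtain ⟨z, hz0, hz1⟩ := exists_lg hp hζ hw0p (1 : ZMod p)
  have hzv := (ord_eq_zero_iff w0 z).1 hz0
  obtain ⟨g0, hg0⟩ := w0.exists_valuation_sub_lt_of_integer (K := K) (x := (z : K)) hzv.le 1
  rw [Units.val_one] at hg0
  -- the ideal
  obtain ⟨J, hJ⟩ : ∃ J : Ideal (𝓞 K), J =
    D.M0 * (Ideal.span {(p : 𝓞 K)} ^ 3 * idl (E.erase w0)) := ⟨_, rfl⟩
  have hJ0 : ¬ w0.asIdeal ∣ J := by
    rw [hJ, w0.prime.dvd_mul, w0.prime.dvd_mul, D.M0_dvd, alem_dvd, not_or, not_or]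
    refine ⟨hw0S, fun h => ?_, fun h => (Finset.notMem_erase w0 E) h⟩
    have h1 := w0.prime.dvd_of_dvd_pow h
    rw [Ideal.dvd_span_singleton] at h1
    exact hw0p h1
  obtain ⟨a, haJ, ha0⟩ := alem_crt w0 1 J hJ0 g0
  rw [pow_one] at ha0
  have hJM : J ≤ D.M0 := by rw [hJ]; exact Ideal.mul_le_left
  have hJp : J ≤ Ideal.span {(p : 𝓞 K)} ^ 3 := by
    rw [hJ]
    exact Ideal.mul_le_right.trans Ideal.mul_le_left
  have hJE : ∀ w ∈ E, w ≠ w0 → J ≤ w.asIdeal := by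
    intro w hw hne
    rw [hJ]
    exact (Ideal.mul_le_right.trans Ideal.mul_le_right).trans
      (Ideal.le_of_dvd ((alem_dvd w _).2 (Finset.mem_erase.2 ⟨hne, hw⟩)))
  -- `a` is a unit at `w0`
  have hza : w0.valuation K (algebraMap (𝓞 K) K a - (z : K)) < 1 := by
    have h1 : w0.valuation K (algebraMap (𝓞 K) K (a - g0)) < 1 :=
      (w0.valuation_lt_one_iff_mem _).2 ha0
    rw [map_sub] at h1
    have h2 : algebraMap (𝓞 K) K a - (z : K) =
        (algebraMap (𝓞 K) K a - algebraMap (𝓞 K) K g0) + (algebraMap (𝓞 K) K g0 - (z : K)) := by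
      ring
    rw [h2]
    exact Valuation.map_add_lt _ h1 hg0
  have hav : w0.valuation K (algebraMap (𝓞 K) K a) = 1 := by
    have e : algebraMap (𝓞 K) K a = (z : K) + (algebraMap (𝓞 K) K a - (z : K)) := by ring
    rw [e, Valuation.map_add_eq_of_lt_left _ (by rw [hzv]; exact hza), hzv]
  have ha00 : algebraMap (𝓞 K) K a ≠ 0 := by
    intro h
    rw [h, map_zero] at hav
    exact zero_ne_one hav
  obtain ⟨x, hx⟩ : ∃ x : Kˣ, (x : K) = algebraMap (𝓞 K) K a := ⟨Units.mk0 _ ha00, rfl⟩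
  have hxw0 : ord w0 x = 0 := by rw [ord_eq_zero_iff, hx, hav]
  have hlg : D.LL w0 x = 1 := by
    rw [LL_unit hp hζ D hw0S hxw0]
    have h1 : One1 w0 (x * z⁻¹) := by
      unfold One1
      have h2 : ((x * z⁻¹ : Kˣ) : K) - 1 = (algebraMap (𝓞 K) K a - (z : K)) * (z : K)⁻¹ := by
        rw [Units.val_mul, Units.val_inv_eq_inv_val, hx, sub_mul, mul_inv_cancel₀ z.ne_zero]
      rw [h2, map_mul, map_inv₀, hzv, inv_one, mul_one]
      exact hza
    have h3 := lg_mul hp hζ hw0p (ord_of_one1 h1) hz0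
    rw [inv_mul_cancel_right, lg_of_one1 hp hζ hw0p h1, zero_add, hz1] at h3
    exact h3
  have hPS : PS p ζ D.S0 x := by
    constructor
    · intro v hv
      refine ⟨1, ?_⟩
      rw [one_pow, inv_one, mul_one]
      have h1 := hJp haJ
      rw [Ideal.span_singleton_pow, Ideal.mem_span_singleton] at h1
      obtain ⟨c, hc⟩ := h1
      have h2 : (x : K) - 1 = (p : K) ^ 3 * algebraMap (𝓞 K) K c := by
        have h3 := congrArg (algebraMap (𝓞 K) K) hc
        rw [map_sub, map_one, map_mul, map_pow, map_natCast] at h3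
        rw [hx, h3]
      have hvp : v.valuation K (p : K) < 1 := by
        have h : v.valuation K (algebraMap (𝓞 K) K (p : 𝓞 K)) < 1 :=
          (v.valuation_lt_one_iff_mem (K := K) (p : 𝓞 K)).2 hv
        rwa [map_natCast] at h
      have hvp0 : 0 < v.valuation K (p : K) := by
        rw [zero_lt_iff, Valuation.ne_zero_iff]
        exact_mod_cast hp.ne_zero
      rw [h2, map_mul, map_pow, map_pow]
      calc v.valuation K (p : K) ^ 3 * v.valuation K (algebraMap (𝓞 K) K c)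
          ≤ v.valuation K (p : K) ^ 3 := mul_le_of_le_one_right' (v.valuation_le_one c)
        _ < v.valuation K (p : K) ^ 2 := pow_lt_pow_right_of_lt_one₀ hvp0 hvp (by norm_num)
    · intro v hv ha t
      have h1 := (D.M0_dvd v).2 hv
      rw [Ideal.dvd_iff_le] at h1
      rw [B_symm hp hζ ha, B_of_one1 hp hζ ha _ (alem_one1 hx (h1 (hJM haJ))), neg_zero]
  by_contra hno
  push Not at hno
  have hsum : ∑ v ∈ (finite_ord x).toFinset, (ord v x : ZMod p) * fE D E μ κ v = 0 := by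
    refine Finset.sum_eq_zero fun v hv => ?_
    rw [Set.Finite.mem_toFinset] at hv
    have hv' : ord v x ≠ 0 := hv
    rw [hno v ?_ ?_, mul_zero]
    · intro hvS
      have h1 := (D.M0_dvd v).2 hvS
      rw [Ideal.dvd_iff_le] at h1
      exact hv' (ord_of_one1 (alem_one1 hx (h1 (hJM haJ))))
    · intro hvE
      by_cases hvw : v = w0
      · rw [hvw] at hv'
        exact hv' hxw0
      · exact hv' (ord_of_one1 (alem_one1 hx (hJE v hvE hvw haJ)))
  have hcomp : ∑ v ∈ (finite_ord x).toFinset, (ord v x : ZMod p) * fE D E μ κ v =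
      ∑ w ∈ E, μ w * D.LL w x := by
    have h1 : ∀ v, (ord v x : ZMod p) * fE D E μ κ v =
        ∑ w ∈ E, μ w * ((ord v x : ZMod p) * D.LL w (D.pi v)) +
          ∑ i, κ i * ((ord v x : ZMod p) * D.q v i) := by
      intro v
      rw [fE, dt, mul_add, Finset.mul_sum, Finset.mul_sum]
      congr 1
      · exact Finset.sum_congr rfl fun w _ => by ring
      · exact Finset.sum_congr rfl fun w _ => by ring
    rw [Finset.sum_congr rfl fun v _ => h1 v, Finset.sum_add_distrib, Finset.sum_comm]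
    have h2 : ∑ v ∈ (finite_ord x).toFinset, ∑ i, κ i * ((ord v x : ZMod p) * D.q v i) = 0 := by
      rw [Finset.sum_comm]
      refine Finset.sum_eq_zero fun i _ => ?_
      rw [← Finset.mul_sum, alem_q D hx (hJM haJ) i, mul_zero]
    rw [h2, add_zero]
    refine Finset.sum_congr rfl fun w hw => ?_
    rw [← Finset.mul_sum, alem_LL hp hζ D hx (hJM haJ) hPS (hE w hw)]
  rw [hcomp, Finset.sum_eq_single_of_mem w0 hw0] at hsum
  · rw [hlg, mul_one] at hsum
    exact hμ hsum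
  · intro w hw hne
    have h1 := alem_one1 hx (hJE w hw hne haJ)
    rw [LL_unit hp hζ D (hE w hw) (ord_of_one1 h1),
      lg_of_one1 hp hζ (fun h => hE w hw (D.above w h)) h1, mul_zero]

theorem alem_ne2 (D : RD0 K p ζ) (E : Finset (Pl K))
    (hE : ∀ w ∈ E, w ∉ D.S0) (κ : Fin D.r → ZMod p) (hκ : κ ≠ 0) :
    ∃ v, v ∉ D.S0 ∧ v ∉ E ∧ dt κ (D.q v) ≠ 0 := by
  by_contra hno
  push Not at hno
  obtain ⟨v1, hv1⟩ := D.q_non κ hκ
  have hv1S : v1 ∉ D.S0 := by
    intro h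
    apply hv1
    rw [D.q_zero v1 h]
    simp
  have hv1E : v1 ∈ E := by
    by_contra h
    exact hv1 (hno v1 hv1S h)
  obtain ⟨J, hJ⟩ : ∃ J : Ideal (𝓞 K), J = D.M0 * idl (E.erase v1) := ⟨_, rfl⟩
  have hJ0 : ¬ v1.asIdeal ∣ J := by
    rw [hJ, v1.prime.dvd_mul, D.M0_dvd, alem_dvd, not_or]
    exact ⟨hv1S, Finset.notMem_erase v1 E⟩
  obtain ⟨g0, hg0⟩ := v1.intValuation_exists_uniformizer
  obtain ⟨a, haJ, ha0⟩ := alem_crt v1 2 J hJ0 g0
  have hJM : J ≤ D.M0 := by rw [hJ]; exact Ideal.mul_le_left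
  have hJE : ∀ w ∈ E, w ≠ v1 → J ≤ w.asIdeal := by
    intro w hw hne
    rw [hJ]
    exact Ideal.mul_le_right.trans
      (Ideal.le_of_dvd ((alem_dvd w _).2 (Finset.mem_erase.2 ⟨hne, hw⟩)))
  have hva : v1.intValuation a = WithZero.exp (-1 : ℤ) := by
    have h1 : v1.intValuation (a - g0) ≤ WithZero.exp (-((2 : ℕ) : ℤ)) :=
      (v1.intValuation_le_pow_iff_mem _ 2).2 ha0
    have h2 : a = g0 + (a - g0) := by ring
    rw [h2, Valuation.map_add_eq_of_lt_left, hg0]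
    rw [hg0]
    refine lt_of_le_of_lt h1 ?_
    rw [WithZero.exp_lt_exp]
    norm_num
  have ha00 : algebraMap (𝓞 K) K a ≠ 0 := by
    intro h
    have h1 : a = 0 := by
      apply FaithfulSMul.algebraMap_injective (𝓞 K) K
      rw [h, map_zero]
    rw [h1, map_zero] at hva
    exact WithZero.exp_ne_zero hva.symm
  obtain ⟨x, hx⟩ : ∃ x : Kˣ, (x : K) = algebraMap (𝓞 K) K a := ⟨Units.mk0 _ ha00, rfl⟩
  have hox : ord v1 x = 1 := by
    unfold ord
    rw [hx, HeightOneSpectrum.valuation_of_algebraMap, hva, WithZero.log_exp]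
    norm_num
  have h1 := (D.ray_q κ).ray x a hx (hJM haJ)
  rw [finsum_eq_single _ v1] at h1
  · rw [hox, Int.cast_one, mul_one] at h1
    exact hv1 h1
  · intro v hv
    by_cases hvS : v ∈ D.S0
    · rw [D.q_zero v hvS]
      simp
    by_cases hvE : v ∈ E
    · rw [ord_of_one1 (alem_one1 hx (hJE v hvE hv haJ)), Int.cast_zero, mul_zero]
    · have h2 := hno v hvS hvE
      rw [dt] at h2
      rw [h2, zero_mul]

theorem rayE (hp : p.Prime) (hζ : IsPrimitiveRoot ζ p) (D : RD K p ζ) (E : Finset (Pl K))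
    (hE : ∀ w ∈ E, w ∉ D.S0) (μ : Pl K → ZMod p) (κ : Fin D.r → ZMod p) :
    IsRay p (D.M0 * idl E) (fun v => if v ∈ D.S0 ∨ v ∈ E then 0 else fE D.toRD0 E μ κ v) ∧
      (((∃ w ∈ E, μ w ≠ 0) ∨ κ ≠ 0) → ∃ v, v ∉ D.S0 ∧ v ∉ E ∧ fE D.toRD0 E μ κ v ≠ 0) := by
  refine ⟨alem_ray D E hE μ κ, fun h => ?_⟩
  by_cases hμ : ∃ w ∈ E, μ w ≠ 0
  · obtain ⟨w0, hw0, hμ0⟩ := hμ
    exact alem_ne1 hp hζ D.toRD0 E hE μ κ hw0 hμ0
  · have hκ : κ ≠ 0 := h.resolve_left hμ
    push Not at hμ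
    obtain ⟨v, h1, h2, h3⟩ := alem_ne2 D.toRD0 E hE κ hκ
    refine ⟨v, h1, h2, ?_⟩
    rw [fE, Finset.sum_eq_zero (fun w hw => by rw [hμ w hw, zero_mul]), zero_add]
    exact h3

theorem alem_orth (hp : p.Prime) {r : ℕ} (z : Fin r → ZMod p) [NeZero p] :
    ∑ l : Fin r → ZMod p, ep p (dt l z) = if z = 0 then (p : ℂ) ^ r else 0 := by
  have hprod : ∀ (S : Finset (Fin r)) (g : Fin r → ZMod p),
      ∏ j ∈ S, ep p (g j) = ep p (∑ j ∈ S, g j) := by
    intro S g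
    induction S using Finset.induction_on with
    | empty => rw [Finset.prod_empty, Finset.sum_empty, ep_zero]
    | insert a S ha ih => rw [Finset.prod_insert ha, Finset.sum_insert ha, ep_add hp, ih]
  have h1 : ∑ l : Fin r → ZMod p, ep p (dt l z) =
      ∏ i : Fin r, ∑ a : ZMod p, ep p (a * z i) := by
    rw [Finset.prod_univ_sum]
    simp only [Fintype.piFinset_univ]
    refine Finset.sum_congr rfl fun l _ => ?_
    rw [hprod, dt]
  rw [h1]
  simp only [ep_sum hp]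
  split_ifs with h
  · rw [h]
    simp
  · have h2 : ∃ i, z i ≠ 0 := by
      by_contra hno
      push Not at hno
      exact h (funext hno)
    obtain ⟨i, hi⟩ := h2
    exact Finset.prod_eq_zero (Finset.mem_univ i) (if_neg hi)

theorem alem_fourier (hp : p.Prime) {r : ℕ} (H : (Fin r → ZMod p) → ℂ) (hH : ∀ q, ‖H q‖ ≤ 1)
    [NeZero p] : ∃ c : (Fin r → ZMod p) → ℂ, (∀ l, ‖c l‖ ≤ 1) ∧
      ∀ q, H q = ∑ l, c l * ep p (dt l q) := by
  have hp0 : (p : ℂ) ^ r ≠ 0 := pow_ne_zero _ (by exact_mod_cast hp.ne_zero)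
  have hcard : (Fintype.card (Fin r → ZMod p) : ℝ) = (p : ℝ) ^ r := by
    rw [Fintype.card_fun, ZMod.card, Fintype.card_fin]
    push_cast
    rfl
  refine ⟨fun l => ((p : ℂ) ^ r)⁻¹ * ∑ q', H q' * ep p (dt l (-q')), fun l => ?_, fun q => ?_⟩
  · rw [norm_mul, norm_inv, norm_pow, Complex.norm_natCast]
    have h1 : ‖∑ q', H q' * ep p (dt l (-q'))‖ ≤ (p : ℝ) ^ r := by
      refine (norm_sum_le _ _).trans ?_
      rw [← hcard, ← Finset.card_univ, ← nsmul_one (Finset.univ : Finset (Fin r → ZMod p)).card,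
        ← Finset.sum_const]
      refine Finset.sum_le_sum fun q' _ => ?_
      rw [norm_mul, ep_norm, mul_one]
      exact hH q'
    have h2 : (0 : ℝ) < (p : ℝ) ^ r := by
      have := hp.pos
      positivity
    rw [inv_mul_le_iff₀ h2, mul_one]
    exact h1
  · have h1 : ∀ l, ((p : ℂ) ^ r)⁻¹ * (∑ q', H q' * ep p (dt l (-q'))) * ep p (dt l q) =
        ((p : ℂ) ^ r)⁻¹ * ∑ q', H q' * ep p (dt l (q - q')) := by
      intro l
      rw [mul_assoc, Finset.sum_mul]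
      congr 1
      refine Finset.sum_congr rfl fun q' _ => ?_
      rw [mul_assoc, ← ep_add hp]
      congr 2
      simp only [dt]
      rw [← Finset.sum_add_distrib]
      refine Finset.sum_congr rfl fun i _ => ?_
      simp only [Pi.neg_apply, Pi.sub_apply]
      ring
    rw [Finset.sum_congr rfl fun l _ => h1 l, ← Finset.mul_sum, Finset.sum_comm]
    have h2 : ∀ q', ∑ l, H q' * ep p (dt l (q - q')) =
        if q' = q then H q' * (p : ℂ) ^ r else 0 := by
      intro q'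
      rw [← Finset.mul_sum, alem_orth hp]
      by_cases h : q' = q
      · rw [if_pos h, if_pos (by rw [h, sub_self])]
      · rw [if_neg h, if_neg (by rw [sub_eq_zero]; exact Ne.symm h), mul_zero]
    rw [Finset.sum_congr rfl fun q' _ => h2 q', Finset.sum_ite_eq' Finset.univ q,
      if_pos (Finset.mem_univ q)]
    field_simp

theorem alem_one (hp : p.Prime) (hζ : IsPrimitiveRoot ζ p) (D : RD K p ζ) :
    ∃ C A δ : ℝ, 0 < C ∧ 0 ≤ A ∧ 0 < δ ∧ δ < 1 ∧ ∀ (E F : Finset (Pl K)) (μ : Pl K → ZMod p)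
      (κ : Fin D.r → ZMod p), (∀ w ∈ E, w ∉ D.S0) → E ⊆ F →
        ((∃ w ∈ E, μ w ≠ 0) ∨ κ ≠ 0) → ∀ y : ℝ, 1 ≤ y →
          ‖∑ n ∈ (GF D.toRD0 y).filter (fun n => Disjoint n F),
            ep p (∑ v ∈ n, fE D.toRD0 E μ κ v)‖ ≤
          C * (nr E) ^ A * 2 ^ F.card * y ^ (1 - δ) := by
  obtain ⟨C1, A1, δ1, hC1, hA1, hδ1, hδ11, hasq⟩ := asq D.toRD0
  have hN0 : (1 : ℝ) ≤ (Ideal.absNorm D.M0 : ℝ) := by
    have h1 : Ideal.absNorm D.M0 ≠ 0 := by
      rw [Ne, Ideal.absNorm_eq_zero_iff]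
      exact D.M0_ne
    exact_mod_cast Nat.one_le_iff_ne_zero.2 h1
  have hN0A : 0 < (Ideal.absNorm D.M0 : ℝ) ^ A1 := Real.rpow_pos_of_pos (by linarith) _
  refine ⟨C1 * (Ideal.absNorm D.M0 : ℝ) ^ A1, A1, δ1, by positivity, hA1, hδ1, hδ11, ?_⟩
  intro E F μ κ hE hEF hne y hy
  obtain ⟨h1, h2⟩ := rayE hp hζ D E hE μ κ
  have hne0 : D.M0 * idl E ≠ ⊥ := mul_ne_zero D.M0_ne (idl_ne E)
  obtain ⟨χ, h3, h4⟩ := ray_rc hp hne0 h1
  obtain ⟨v, hv1, hv2, hv3⟩ := h2 hne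
  have hNon : χ.Non := h4 ⟨v, by rw [if_neg (not_or.2 ⟨hv1, hv2⟩)]; exact hv3⟩
  have h5 := hasq _ hne0 χ hNon F y hy
  have h6 : ∑ n ∈ (GF D.toRD0 y).filter (fun n => Disjoint n F),
            ep p (∑ v ∈ n, fE D.toRD0 E μ κ v) =
      ∑ n ∈ (GF D.toRD0 y).filter (fun n => Disjoint n F), χ.χ (idl n) := by
    refine Finset.sum_congr rfl fun n hn => ?_
    obtain ⟨hn1, hn2⟩ := Finset.mem_filter.1 hn
    rw [GF, Finset.mem_filter] at hn1
    have hidl : idl n = ∏ v ∈ n, v.asIdeal := rfl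
    rw [hidl, map_prod]
    have h7 : ∀ v ∈ n, χ.χ v.asIdeal = ep p (fE D.toRD0 E μ κ v) := by
      intro v hv
      have hvS : v ∉ D.S0 := (hn1.2 v hv).1
      have hvE : v ∉ E := fun h => Finset.disjoint_left.1 hn2 hv (hEF h)
      rw [h3 v (by rw [alem_dvd' D.toRD0, not_or]; exact ⟨hvS, hvE⟩),
        if_neg (not_or.2 ⟨hvS, hvE⟩)]
    rw [Finset.prod_congr rfl h7]
    have hprod : ∀ (S : Finset (Pl K)) (g : Pl K → ZMod p),
        ∏ j ∈ S, ep p (g j) = ep p (∑ j ∈ S, g j) := by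
      intro S g
      induction S using Finset.induction_on with
      | empty => rw [Finset.prod_empty, Finset.sum_empty, ep_zero]
      | insert a S ha ih => rw [Finset.prod_insert ha, Finset.sum_insert ha, ep_add hp, ih]
    rw [hprod]
  rw [h6]
  refine h5.trans (le_of_eq ?_)
  rw [map_mul, Nat.cast_mul, idl_norm, Real.mul_rpow (by linarith) (by linarith [one_le_nr E])]
  ring

theorem lemA (hp : p.Prime) (hζ : IsPrimitiveRoot ζ p) (D : RD K p ζ) :
    ∃ C A δ : ℝ, 0 < C ∧ 0 ≤ A ∧ 0 < δ ∧ δ < 1 ∧ ∀ (E F : Finset (Pl K)) (μ : Pl K → ZMod p)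
      (κ : Fin D.r → ZMod p) (H : (Fin D.r → ZMod p) → ℂ), (∀ w ∈ E, w ∉ D.S0) → E ⊆ F →
        (∀ q, ‖H q‖ ≤ 1) → ((∃ w ∈ E, μ w ≠ 0) ∨ ((∀ q, H q = 1) ∧ κ ≠ 0)) → ∀ y : ℝ, 1 ≤ y →
          ‖∑ n ∈ (GF D.toRD0 y).filter (fun n => Disjoint n F),
            H (qf D.toRD0 n) * ep p (∑ v ∈ n, fE D.toRD0 E μ κ v)‖ ≤
          C * (nr E) ^ A * 2 ^ F.card * y ^ (1 - δ) := by
  have : NeZero p := ⟨hp.ne_zero⟩
  obtain ⟨C, A, δ, hC, hA, hδ, hδ1, hone⟩ := alem_one hp hζ D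
  have hpr : (1 : ℝ) ≤ (p : ℝ) ^ D.r := one_le_pow₀ (by exact_mod_cast hp.one_lt.le)
  refine ⟨(p : ℝ) ^ D.r * C, A, δ, by positivity, hA, hδ, hδ1, ?_⟩
  intro E F μ κ H hE hEF hH hne y hy
  have hnr : 0 ≤ (nr E) ^ A := Real.rpow_nonneg (by linarith [one_le_nr E]) _
  have hyy : 0 ≤ y ^ (1 - δ) := Real.rpow_nonneg (by linarith) _
  have hB : 0 ≤ C * (nr E) ^ A * 2 ^ F.card * y ^ (1 - δ) := by positivity
  rcases hne with hμ | ⟨hH1, hκ⟩
  · obtain ⟨c, hc, hcH⟩ := alem_fourier hp H hH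
    have h1 : ∑ n ∈ (GF D.toRD0 y).filter (fun n => Disjoint n F),
            H (qf D.toRD0 n) * ep p (∑ v ∈ n, fE D.toRD0 E μ κ v) =
        ∑ l, c l * ∑ n ∈ (GF D.toRD0 y).filter (fun n => Disjoint n F),
          ep p (∑ v ∈ n, fE D.toRD0 E μ (κ + l) v) := by
      simp only [Finset.mul_sum]
      rw [Finset.sum_comm]
      refine Finset.sum_congr rfl fun n _ => ?_
      rw [hcH, Finset.sum_mul]
      refine Finset.sum_congr rfl fun l _ => ?_
      rw [mul_assoc, ← ep_add hp]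
      congr 2
      simp only [fE, qf, dt, Finset.sum_apply, Pi.add_apply, add_mul, Finset.sum_add_distrib,
        Finset.mul_sum]
      rw [Finset.sum_comm (s := (Finset.univ : Finset (Fin D.r))) (t := n)]
      ring
    rw [h1]
    refine (norm_sum_le _ _).trans ?_
    have h2 : ∀ l ∈ (Finset.univ : Finset (Fin D.r → ZMod p)),
        ‖c l * ∑ n ∈ (GF D.toRD0 y).filter (fun n => Disjoint n F),
          ep p (∑ v ∈ n, fE D.toRD0 E μ (κ + l) v)‖ ≤
        C * (nr E) ^ A * 2 ^ F.card * y ^ (1 - δ) := by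
      intro l _
      rw [norm_mul]
      exact (mul_le_of_le_one_left (norm_nonneg _) (hc l)).trans
        (hone E F μ (κ + l) hE hEF (Or.inl hμ) y hy)
    refine (Finset.sum_le_sum h2).trans ?_
    rw [Finset.sum_const, Finset.card_univ, Fintype.card_fun, ZMod.card, Fintype.card_fin,
      nsmul_eq_mul]
    push_cast
    apply le_of_eq
    ring
  · have h1 : ∑ n ∈ (GF D.toRD0 y).filter (fun n => Disjoint n F),
            H (qf D.toRD0 n) * ep p (∑ v ∈ n, fE D.toRD0 E μ κ v) =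
        ∑ n ∈ (GF D.toRD0 y).filter (fun n => Disjoint n F),
          ep p (∑ v ∈ n, fE D.toRD0 E μ κ v) := by
      refine Finset.sum_congr rfl fun n _ => ?_
      rw [hH1, one_mul]
    rw [h1]
    refine (hone E F μ κ hE hEF (Or.inr hκ) y hy).trans ?_
    calc C * (nr E) ^ A * 2 ^ F.card * y ^ (1 - δ)
        ≤ (p : ℝ) ^ D.r * (C * (nr E) ^ A * 2 ^ F.card * y ^ (1 - δ)) :=
          le_mul_of_one_le_left hB hpr
      _ = _ := by ring

end H63.MA
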