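import Pool.Agent.H63.MA.EulA

/-!
# MA-LBD: L-series near `s = 1`; sums over primes

* `lser_non`: for a nontrivial ray class character `χ`, `|L(s, χ)| ≤ C` for `1 < s ≤ 2`. Proof: with
  `A(n) = ∑_{N I ≤ n} χ(I)`, `|A(n)| ≤ C n^{1-δ}` (`pv`), `L(s, χ) = ∑_n A(n) (n^{-s} - (n+1)^{-s})` (Abel summation),
  `n^{-s} - (n+1)^{-s} ≤ s n^{-s-1} ≤ 2 n^{-2}`, and `∑ n^{-1-δ} < ∞`.
* `lser_one`: `c / (s-1) ≤ L(s, 1) ≤ C / (s-1)` for the trivial character (`cnt`, same summation with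
  `A(n) = κ n + O(n^{1-δ})`; or from Mathlib's `NumberField.tendsto_sub_one_mul_dedekindZeta_nhdsGT` and continuity/monotonicity on `[1+ε, 2]`).
* `pz_all`: `|PZ univ s - log (1/(s-1))| ≤ C` : `eul_two` for the trivial character.
* `ray_re`: `∑_v Re χ(v) (N v)^{-s} ≤ C` for nontrivial `χ`: `eul_two` and `lser_non`.
-/

set_option autoImplicit false

open scoped NumberField
open IsDedekindDomain

noncomputable section

namespace H63.MA

open MeasureTheory Asymptotics Filter Topology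

/-- sums of a function on ideals over the ideals of norm `n` -/
def lbf {K : Type} [Field K] [NumberField K] (χ : Ideal (𝓞 K) → ℂ) (n : ℕ) : ℂ :=
  ∑ I ∈ (Ideal.finite_setOfPred_absNorm_eq (S := 𝓞 K) n).toFinset, χ I

theorem lbf_mem {K : Type} [Field K] [NumberField K] {n : ℕ} {I : Ideal (𝓞 K)} :
    I ∈ (Ideal.finite_setOfPred_absNorm_eq (S := 𝓞 K) n).toFinset ↔ Ideal.absNorm I = n := by
  rw [Set.Finite.mem_toFinset]
  rfl

theorem lbf_hasSum {K : Type} [Field K] [NumberField K] (χ : Ideal (𝓞 K) → ℂ) (h0 : χ ⊥ = 0)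
    (h1 : ∀ I, ‖χ I‖ ≤ 1) {s : ℝ} (hs : 1 < s) :
    HasSum (LSeries.term (lbf χ) (s : ℂ)) (Lser χ s) := by
  classical
  have hsum : Summable fun I : Ideal (𝓞 K) =>
      χ I * (((Ideal.absNorm I : ℝ) ^ (-s) : ℝ) : ℂ) := by
    refine Summable.of_norm_bounded (ideal_summable K hs) fun I => ?_
    by_cases hI : I = ⊥
    · rw [if_pos hI, hI, h0, zero_mul, norm_zero]
    · rw [if_neg hI, norm_mul, Complex.norm_real,
        Real.norm_of_nonneg (Real.rpow_nonneg (Nat.cast_nonneg _) _)]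
      exact mul_le_of_le_one_left (Real.rpow_nonneg (Nat.cast_nonneg _) _) (h1 I)
  have h := hsum.hasSum.tsum_fiberwise (fun I : Ideal (𝓞 K) => Ideal.absNorm I)
  have heq : LSeries.term (lbf χ) (s : ℂ) = fun c : ℕ =>
      ∑' b : ((fun I : Ideal (𝓞 K) => Ideal.absNorm I) ⁻¹' {c} : Set (Ideal (𝓞 K))),
        χ b * (((Ideal.absNorm (b : Ideal (𝓞 K)) : ℝ) ^ (-s) : ℝ) : ℂ) := by
    funext n
    by_cases hn : n = 0
    · rw [hn, LSeries.term_zero]
      symm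
      have hz : ∀ b : ((fun I : Ideal (𝓞 K) => Ideal.absNorm I) ⁻¹' {0} : Set (Ideal (𝓞 K))),
          χ b * (((Ideal.absNorm (b : Ideal (𝓞 K)) : ℝ) ^ (-s) : ℝ) : ℂ) = 0 := by
        intro b
        have hb : Ideal.absNorm (b : Ideal (𝓞 K)) = 0 := b.2
        rw [Ideal.absNorm_eq_zero_iff] at hb
        rw [hb, h0, zero_mul]
      rw [tsum_congr hz, tsum_zero]
    · have hset : ((fun I : Ideal (𝓞 K) => Ideal.absNorm I) ⁻¹' {n} : Set (Ideal (𝓞 K))) =
          ((Ideal.finite_setOfPred_absNorm_eq (S := 𝓞 K) n).toFinset : Set (Ideal (𝓞 K))) := by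
        rw [Set.Finite.coe_toFinset]
        rfl
      rw [LSeries.term_of_ne_zero hn,
        tsum_congr_set_coe (fun b : Ideal (𝓞 K) =>
          χ b * (((Ideal.absNorm b : ℝ) ^ (-s) : ℝ) : ℂ)) hset,
        Finset.tsum_subtype' _ (fun b : Ideal (𝓞 K) =>
          χ b * (((Ideal.absNorm b : ℝ) ^ (-s) : ℝ) : ℂ)), lbf, Finset.sum_div]
      refine Finset.sum_congr rfl fun I hI => ?_
      have hIn : Ideal.absNorm I = n := lbf_mem.1 hI
      rw [hIn, Complex.ofReal_cpow (Nat.cast_nonneg _), div_eq_mul_inv, ← Complex.cpow_neg]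
      push_cast
      rfl
  rw [heq]
  exact h

theorem lbd_lser_eq {K : Type} [Field K] [NumberField K] (χ : Ideal (𝓞 K) → ℂ) (h0 : χ ⊥ = 0)
    (h1 : ∀ I, ‖χ I‖ ≤ 1) {s : ℝ} (hs : 1 < s) : Lser χ s = LSeries (lbf χ) (s : ℂ) :=
  (lbf_hasSum χ h0 h1 hs).tsum_eq.symm

theorem lbf_partial {K : Type} [Field K] [NumberField K] (χ : Ideal (𝓞 K) → ℂ) (y : ℝ) :
    ∑ k ∈ Finset.Icc 1 ⌊y⌋₊, lbf χ k = ∑ I ∈ IN K y, χ I := by
  classical
  have hmem : ∀ I : Ideal (𝓞 K), I ∈ IN K y ↔ Ideal.absNorm I ≤ ⌊y⌋₊ ∧ I ≠ ⊥ := by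
    intro I
    unfold IN
    rw [Finset.mem_filter, Set.Finite.mem_toFinset]
    rfl
  have hmaps : ∀ I ∈ IN K y, Ideal.absNorm I ∈ Finset.Icc 1 ⌊y⌋₊ := by
    intro I hI
    rw [hmem] at hI
    rw [Finset.mem_Icc]
    refine ⟨?_, hI.1⟩
    have : Ideal.absNorm I ≠ 0 := by
      rw [Ne, Ideal.absNorm_eq_zero_iff]
      exact hI.2
    omega
  rw [← Finset.sum_fiberwise_of_maps_to hmaps]
  refine Finset.sum_congr rfl fun k hk => ?_
  rw [Finset.mem_Icc] at hk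
  unfold lbf
  refine Finset.sum_congr ?_ fun _ _ => rfl
  ext I
  rw [Set.Finite.mem_toFinset, Finset.mem_filter, hmem]
  constructor
  · intro h
    have h' : Ideal.absNorm I = k := h
    refine ⟨⟨by omega, ?_⟩, h'⟩
    rintro rfl
    rw [Ideal.absNorm_bot] at h'
    omega
  · rintro ⟨_, h⟩
    exact h

theorem lser_bound {K : Type} [Field K] [NumberField K] (χ : Ideal (𝓞 K) → ℂ) (h0 : χ ⊥ = 0)
    (h1 : ∀ I, ‖χ I‖ ≤ 1) (C δ : ℝ) (hC : 0 ≤ C) (hδ : 0 < δ) (hδ1 : δ < 1)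
    (h : ∀ y : ℝ, 1 ≤ y → ‖∑ I ∈ IN K y, χ I‖ ≤ C * y ^ (1 - δ)) {s : ℝ} (hs : 1 < s)
    (hs2 : s ≤ 2) : ‖Lser χ s‖ ≤ 2 * (C / δ) := by
  have hS : LSeriesSummable (lbf χ) (s : ℂ) := (lbf_hasSum χ h0 h1 hs).summable
  have hO : (fun n : ℕ => ∑ k ∈ Finset.Icc 1 n, lbf χ k) =O[atTop]
      fun n : ℕ => (n : ℝ) ^ (1 - δ) := by
    refine IsBigO.of_bound C ?_
    filter_upwards [eventually_ge_atTop 1] with n hn
    have h2 := h (n : ℝ) (by exact_mod_cast hn)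
    rw [← lbf_partial, Nat.floor_natCast] at h2
    rwa [Real.norm_of_nonneg (Real.rpow_nonneg (Nat.cast_nonneg _) _)]
  have hre : 1 - δ < ((s : ℝ) : ℂ).re := by
    rw [Complex.ofReal_re]
    linarith
  rw [lbd_lser_eq χ h0 h1 hs, LSeries_eq_mul_integral (lbf χ) (by linarith) hre hS hO, norm_mul,
    Complex.norm_real, Real.norm_of_nonneg (by linarith)]
  have hint : IntegrableOn (fun t : ℝ => C * t ^ (-1 - δ)) (Set.Ioi 1) volume :=
    (integrableOn_Ioi_rpow_of_lt (by linarith) zero_lt_one).const_mul C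
  have hval : ∫ t in Set.Ioi (1 : ℝ), C * t ^ (-1 - δ) = C / δ := by
    rw [integral_const_mul, integral_Ioi_rpow_of_lt (by linarith) zero_lt_one, Real.one_rpow]
    have : -1 - δ + 1 = -δ := by ring
    rw [this, neg_div_neg_eq]
    ring
  have hle : ‖∫ t in Set.Ioi (1 : ℝ), (∑ k ∈ Finset.Icc 1 ⌊t⌋₊, lbf χ k) *
      (t : ℂ) ^ (-((s : ℂ) + 1))‖ ≤ C / δ := by
    rw [← hval]
    refine norm_integral_le_of_norm_le hint ?_
    refine (ae_restrict_iff' measurableSet_Ioi).2 (Filter.Eventually.of_forall fun t ht => ?_)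
    have ht1 : (1 : ℝ) < t := ht
    have ht0 : (0 : ℝ) < t := by linarith
    rw [norm_mul, Complex.norm_cpow_eq_rpow_re_of_pos ht0, lbf_partial]
    have h3 := h t ht1.le
    have h4 : (-((s : ℂ) + 1)).re = -(s + 1) := by simp
    rw [h4]
    calc ‖∑ I ∈ IN K t, χ I‖ * t ^ (-(s + 1)) ≤ C * t ^ (1 - δ) * t ^ (-(s + 1)) :=
          mul_le_mul_of_nonneg_right h3 (Real.rpow_nonneg ht0.le _)
      _ = C * t ^ (-s - δ) := by
          rw [mul_assoc, ← Real.rpow_add ht0]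
          congr 2
          ring
      _ ≤ C * t ^ (-1 - δ) := by
          refine mul_le_mul_of_nonneg_left ?_ hC
          exact Real.rpow_le_rpow_of_exponent_le ht1.le (by linarith)
  have hnn : 0 ≤ C / δ := by positivity
  exact mul_le_mul hs2 hle (norm_nonneg _) (by norm_num)

theorem lbd_rc_norm_le {K : Type} [Field K] [NumberField K] {𝔣 : Ideal (𝓞 K)} (χ : RC K 𝔣)
    (I : Ideal (𝓞 K)) : ‖χ.χ I‖ ≤ 1 := by
  by_cases hI : I = ⊥
  · rw [hI]
    have : χ.χ (⊥ : Ideal (𝓞 K)) = 0 := map_zero χ.χ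
    rw [this, norm_zero]
    exact zero_le_one
  · by_cases hc : IsCoprime I 𝔣
    · rw [χ.norm_one I hI hc]
    · rw [χ.zero_of I hc, norm_zero]
      exact zero_le_one

theorem lser_non {K : Type} [Field K] [NumberField K] {𝔣 : Ideal (𝓞 K)} (h𝔣 : 𝔣 ≠ ⊥) (χ : RC K 𝔣)
    (hχ : χ.Non) : ∃ C : ℝ, ∀ s : ℝ, 1 < s → s ≤ 2 → ‖Lser χ.χ s‖ ≤ C := by
  obtain ⟨C, A, δ, hC, hA, hδ, hδ1, h⟩ := pv K
  refine ⟨2 * (C * (Ideal.absNorm 𝔣 : ℝ) ^ A / δ), fun s hs hs2 => ?_⟩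
  refine lser_bound (χ.χ : Ideal (𝓞 K) → ℂ) (map_zero χ.χ) (lbd_rc_norm_le χ) _ δ ?_ hδ hδ1
    (h 𝔣 h𝔣 χ hχ) hs hs2
  positivity

theorem lbd_triv_norm {K : Type} [Field K] [NumberField K] (I : Ideal (𝓞 K)) :
    ‖(if I = ⊥ then 0 else 1 : ℂ)‖ ≤ 1 := by
  split_ifs <;> simp

theorem lser_triv_real (K : Type) [Field K] [NumberField K] {s : ℝ} :
    Lser (fun I : Ideal (𝓞 K) => if I = ⊥ then 0 else 1) s =
      ((∑' I : Ideal (𝓞 K), if I = ⊥ then 0 else (Ideal.absNorm I : ℝ) ^ (-s) : ℝ) : ℂ) := by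
  unfold Lser
  rw [Complex.ofReal_tsum]
  refine tsum_congr fun I => ?_
  by_cases h : I = ⊥
  · simp only [h, if_true, zero_mul, Complex.ofReal_zero]
  · simp only [h, if_false, one_mul]

theorem lser_triv_norm (K : Type) [Field K] [NumberField K] {s : ℝ} :
    ‖Lser (fun I : Ideal (𝓞 K) => if I = ⊥ then 0 else 1) s‖ =
      ∑' I : Ideal (𝓞 K), if I = ⊥ then 0 else (Ideal.absNorm I : ℝ) ^ (-s) := by
  rw [lser_triv_real, Complex.norm_real, Real.norm_of_nonneg]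
  refine tsum_nonneg fun I => ?_
  split_ifs
  · exact le_rfl
  · exact Real.rpow_nonneg (Nat.cast_nonneg _) _

theorem lser_triv_zeta (K : Type) [Field K] [NumberField K] {s : ℝ} (hs : 1 < s) :
    Lser (fun I : Ideal (𝓞 K) => if I = ⊥ then 0 else 1) s = NumberField.dedekindZeta K s := by
  classical
  rw [lbd_lser_eq _ (if_pos rfl) lbd_triv_norm hs, NumberField.dedekindZeta]
  refine LSeries_congr ?_ _
  intro n hn
  unfold lbf
  have h1 : ∀ I ∈ (Ideal.finite_setOfPred_absNorm_eq (S := 𝓞 K) n).toFinset,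
      (if I = ⊥ then 0 else 1 : ℂ) = 1 := by
    intro I hI
    rw [if_neg]
    rintro rfl
    have h2 : Ideal.absNorm (⊥ : Ideal (𝓞 K)) = n := lbf_mem.1 hI
    rw [Ideal.absNorm_bot] at h2
    exact hn h2.symm
  rw [Finset.sum_congr rfl h1, Finset.sum_const, nsmul_eq_mul, mul_one]
  congr 1
  symm
  exact Nat.subtype_card _ fun I => by rw [Set.Finite.mem_toFinset]; rfl

theorem lser_one (K : Type) [Field K] [NumberField K] :
    ∃ c C : ℝ, 0 < c ∧ ∀ s : ℝ, 1 < s → s ≤ 2 →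
      c / (s - 1) ≤ ‖Lser (fun I : Ideal (𝓞 K) => if I = ⊥ then 0 else 1) s‖ ∧
      ‖Lser (fun I : Ideal (𝓞 K) => if I = ⊥ then 0 else 1) s‖ ≤ C / (s - 1) := by
  classical
  set ρ : ℝ := NumberField.dedekindZeta_residue K with hρ
  have hρ0 : 0 < ρ := NumberField.dedekindZeta_residue_pos K
  have ht := (NumberField.tendsto_sub_one_mul_dedekindZeta_nhdsGT K).norm
  rw [Complex.norm_real, Real.norm_of_nonneg hρ0.le] at ht
  have hev : ∀ᶠ s : ℝ in 𝓝[>] 1, ρ / 2 < ‖((s : ℂ) - 1) * NumberField.dedekindZeta K s‖ ∧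
      ‖((s : ℂ) - 1) * NumberField.dedekindZeta K s‖ < 2 * ρ :=
    (ht.eventually (lt_mem_nhds (by linarith : ρ / 2 < ρ))).and
      (ht.eventually (gt_mem_nhds (by linarith : ρ < 2 * ρ)))
  obtain ⟨u, hu1, hu⟩ := mem_nhdsGT_iff_exists_Ioo_subset.1 hev
  have hu1' : (1 : ℝ) < u := hu1
  set ε : ℝ := u - 1 with hε
  have hε0 : 0 < ε := by linarith
  set M : ℝ := ∑' I : Ideal (𝓞 K), if I = ⊥ then 0 else (Ideal.absNorm I : ℝ) ^ (-u) with hM
  refine ⟨min (ρ / 2) ε, max (2 * ρ) M, by positivity, fun s hs hs2 => ?_⟩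
  have hs0 : 0 < s - 1 := by linarith
  rw [div_le_iff₀ hs0, le_div_iff₀ hs0]
  by_cases hsu : s < u
  · have h1 := hu ⟨hs, hsu⟩
    have h2 : ‖((s : ℂ) - 1) * NumberField.dedekindZeta K s‖ =
        ‖Lser (fun I : Ideal (𝓞 K) => if I = ⊥ then 0 else 1) s‖ * (s - 1) := by
      rw [lser_triv_zeta K hs, norm_mul, mul_comm]
      congr 1
      have : ((s : ℂ) - 1) = ((s - 1 : ℝ) : ℂ) := by push_cast; rfl
      rw [this, Complex.norm_real, Real.norm_of_nonneg hs0.le]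
    rw [← h2]
    exact ⟨(min_le_left _ _).trans h1.1.le, h1.2.le.trans (le_max_left _ _)⟩
  · push Not at hsu
    rw [lser_triv_norm]
    have hnn : ∀ (t : ℝ) (I : Ideal (𝓞 K)), 0 ≤ if I = ⊥ then 0 else (Ideal.absNorm I : ℝ) ^ (-t) := by
      intro t I
      split_ifs
      · exact le_rfl
      · exact Real.rpow_nonneg (Nat.cast_nonneg _) _
    have hlow : 1 ≤ ∑' I : Ideal (𝓞 K), if I = ⊥ then 0 else (Ideal.absNorm I : ℝ) ^ (-s) := by
      have h3 := (ideal_summable K hs).le_tsum (⊤ : Ideal (𝓞 K)) (fun I _ => hnn s I)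
      rw [if_neg top_ne_bot, Ideal.absNorm_top] at h3
      simpa using h3
    have hup : (∑' I : Ideal (𝓞 K), if I = ⊥ then 0 else (Ideal.absNorm I : ℝ) ^ (-s)) ≤ M := by
      refine Summable.tsum_le_tsum (fun I => ?_) (ideal_summable K hs) (ideal_summable K hu1')
      split_ifs with hI
      · exact le_rfl
      · have h4 : (1 : ℝ) ≤ (Ideal.absNorm I : ℝ) := by
          have : Ideal.absNorm I ≠ 0 := by
            rw [Ne, Ideal.absNorm_eq_zero_iff]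
            exact hI
          exact_mod_cast Nat.one_le_iff_ne_zero.2 this
        exact Real.rpow_le_rpow_of_exponent_le h4 (by linarith)
    constructor
    · calc min (ρ / 2) ε ≤ ε := min_le_right _ _
        _ ≤ 1 * (s - 1) := by linarith
        _ ≤ _ := mul_le_mul_of_nonneg_right hlow hs0.le
    · have hM0 : 0 ≤ M := by linarith
      calc _ ≤ M * (s - 1) := mul_le_mul_of_nonneg_right hup hs0.le
        _ ≤ M * 1 := mul_le_mul_of_nonneg_left (by linarith) hM0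
        _ = M := mul_one M
        _ ≤ _ := le_max_right _ _

/-- the trivial character -/
def lbd_triv (K : Type) [Field K] [NumberField K] : Ideal (𝓞 K) →*₀ ℂ where
  toFun := fun I : Ideal (𝓞 K) => if I = ⊥ then 0 else 1
  map_zero' := if_pos rfl
  map_one' := if_neg (by rw [Ideal.one_eq_top]; exact top_ne_bot)
  map_mul' := fun I J => by
    by_cases hI : I = ⊥
    · rw [hI, Ideal.bot_mul, if_pos rfl, zero_mul]
    · by_cases hJ : J = ⊥
      · rw [hJ, Ideal.mul_bot, if_pos rfl, mul_zero]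
      · have h : ¬ I * J = ⊥ := mul_ne_zero hI hJ
        rw [if_neg hI, if_neg hJ, mul_one, if_neg h]

theorem pz_all (K : Type) [Field K] [NumberField K] :
    ∃ C : ℝ, ∀ s : ℝ, 1 < s → s ≤ 2 →
      |PZ (Set.univ : Set (Pl K)) s - Real.log (1 / (s - 1))| ≤ C := by
  obtain ⟨C1, hC1, h1⟩ := eul_two K
  obtain ⟨c, C, hc, h2⟩ := lser_one K
  refine ⟨max (Real.log (C1 * C)) (-(Real.log (c / C1))), fun s hs hs2 => ?_⟩
  have hs0 : 0 < s - 1 := by linarith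
  obtain ⟨h3, h4⟩ := h1 (lbd_triv K) lbd_triv_norm s hs hs2
  obtain ⟨h5, h6⟩ := h2 s hs hs2
  have hPZ : ∑' v : Pl K, (lbd_triv K v.asIdeal).re * (nm v : ℝ) ^ (-s) =
      PZ (Set.univ : Set (Pl K)) s := by
    unfold PZ
    refine tsum_congr fun v => ?_
    rw [Set.indicator_univ]
    have : lbd_triv K v.asIdeal = 1 := if_neg v.ne_bot
    rw [this, Complex.one_re, one_mul]
  rw [hPZ] at h3 h4
  have h7 : ‖Lser (lbd_triv K) s‖ = ‖Lser (fun I : Ideal (𝓞 K) => if I = ⊥ then 0 else 1) s‖ := rfl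
  rw [h7] at h3 h4
  have hlpos : 0 < c / (s - 1) := by positivity
  have hCpos : 0 < C / (s - 1) := lt_of_lt_of_le hlpos (h5.trans h6)
  have hC0 : 0 < C := by
    have := mul_pos hCpos hs0
    rwa [div_mul_cancel₀ _ hs0.ne'] at this
  have hA : Real.exp (PZ (Set.univ : Set (Pl K)) s) ≤ C1 * C * (1 / (s - 1)) := by
    calc _ ≤ C1 * _ := h4
      _ ≤ C1 * (C / (s - 1)) := mul_le_mul_of_nonneg_left h6 hC1.le
      _ = _ := by ring
  have hB : c / C1 * (1 / (s - 1)) ≤ Real.exp (PZ (Set.univ : Set (Pl K)) s) := by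
    have h8 : c / (s - 1) ≤ C1 * Real.exp (PZ (Set.univ : Set (Pl K)) s) := h5.trans h3
    calc c / C1 * (1 / (s - 1)) = (c / (s - 1)) / C1 := by ring
      _ ≤ _ := by rw [div_le_iff₀ hC1, mul_comm]; exact h8
  have hs1 : 0 < 1 / (s - 1) := by positivity
  have hA' := Real.log_le_log (Real.exp_pos _) hA
  have hB' := Real.log_le_log (by positivity) hB
  rw [Real.log_exp, Real.log_mul (by positivity) (by positivity)] at hA' hB'
  rw [abs_le]
  constructor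
  · have := le_max_right (Real.log (C1 * C)) (-(Real.log (c / C1)))
    linarith
  · have := le_max_left (Real.log (C1 * C)) (-(Real.log (c / C1)))
    linarith

theorem ray_re {K : Type} [Field K] [NumberField K] {𝔣 : Ideal (𝓞 K)} (h𝔣 : 𝔣 ≠ ⊥) (χ : RC K 𝔣)
    (hχ : χ.Non) : ∃ C : ℝ, ∀ s : ℝ, 1 < s → s ≤ 2 →
      ∑' v : Pl K, (χ.χ v.asIdeal).re * (nm v : ℝ) ^ (-s) ≤ C := by
  obtain ⟨C1, hC1, h1⟩ := eul_two K
  obtain ⟨C, h2⟩ := lser_non h𝔣 χ hχ
  refine ⟨Real.log (max (C1 * C) 1), fun s hs hs2 => ?_⟩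
  obtain ⟨_, h4⟩ := h1 χ.χ (lbd_rc_norm_le χ) s hs hs2
  have h5 : Real.exp (∑' v : Pl K, (χ.χ v.asIdeal).re * (nm v : ℝ) ^ (-s)) ≤ max (C1 * C) 1 :=
    (h4.trans (mul_le_mul_of_nonneg_left (h2 s hs hs2) hC1.le)).trans (le_max_left _ _)
  have h6 := Real.log_le_log (Real.exp_pos _) h5
  rwa [Real.log_exp] at h6

end H63.MA
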