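import Pool.Agent.H63.MA.SymA

/-!
# MA-SUNIT: the group of `T`-units is finitely generated of rank `rank (𝓞 K)ˣ + #T`

Proof. The homomorphism `U_T → (T → ℤ)`, `x ↦ (ord v x)_v`, has as kernel the `x ∈ K^*` with `ord v x = 0` for all `v`,
that is the image of `(𝓞 K)ˣ` (`x` and `x⁻¹` are integral: `HeightOneSpectrum.mem_integers_of_valuation_le_one`), which is
finitely generated of rank `NumberField.Units.rank K` (`NumberField.Units.finrank_eq`, and finite generation of
`Additive (𝓞 K)ˣ` in Mathlib). Its image has finite index in `ℤ^T`: for `v ∈ T` the ideal `v ^ h` (`h` the class number) is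
principal (`ClassGroup`, `Fintype.card`), generated by an `x` with `ord v x = h`, `ord w x = 0` for `w ≠ v`. So the image is
a subgroup of `ℤ^T` containing `h ℤ^T`, of rank `#T`. Ranks add in the exact sequence.
-/

set_option autoImplicit false

open scoped NumberField
open IsDedekindDomain

noncomputable section

namespace H63.MA

variable {K : Type} [Field K] [NumberField K]

/-- the group of `T`-units -/
def UT (T : Finset (Pl K)) : Subgroup Kˣ where
  carrier := {x | TUnit T x}
  one_mem' := fun v _ => ord_one v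
  mul_mem' := by
    intro x y hx hy v hv
    rw [ord_mul, hx v hv, hy v hv, add_zero]
  inv_mem' := by
    intro x hx v hv
    rw [ord_inv, hx v hv, neg_zero]

theorem mem_UT {T : Finset (Pl K)} {x : Kˣ} : x ∈ UT T ↔ ∀ v, v ∉ T → ord v x = 0 := Iff.rfl

/-- the inclusion of the units -/
def sunit_co (K : Type) [Field K] [NumberField K] : (𝓞 K)ˣ →* Kˣ :=
  Units.map (algebraMap (𝓞 K) K : 𝓞 K →* K)

theorem sunit_int (v : Pl K) (a : 𝓞 K) (x : Kˣ) (h : (x : K) = algebraMap (𝓞 K) K a) :
    0 ≤ ord v x := by
  rw [ord_nonneg_iff, h]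
  exact v.valuation_le_one a

theorem sunit_co_ord (v : Pl K) (u : (𝓞 K)ˣ) : ord v (sunit_co K u) = 0 := by
  apply le_antisymm
  · have h := sunit_int v ((u⁻¹ : (𝓞 K)ˣ) : 𝓞 K) (sunit_co K u⁻¹) rfl
    rw [map_inv, ord_inv] at h
    linarith
  · exact sunit_int v (u : 𝓞 K) (sunit_co K u) rfl

theorem sunit_exists (x : Kˣ) (h : ∀ v : Pl K, ord v x = 0) : ∃ u, sunit_co K u = x := by
  have h1 : ∀ y : Kˣ, (∀ v : Pl K, ord v y = 0) → (y : K) ∈ (algebraMap (𝓞 K) K).range := by
    intro y hy
    apply HeightOneSpectrum.mem_integers_of_valuation_le_one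
    intro v
    rw [← ord_nonneg_iff, hy v]
  obtain ⟨a, ha⟩ := h1 x h
  obtain ⟨b, hb⟩ := h1 x⁻¹ (fun v => by rw [ord_inv, h v, neg_zero])
  have hab : a * b = 1 := by
    apply FaithfulSMul.algebraMap_injective (𝓞 K) K
    rw [map_mul, map_one]
    erw [ha, hb]
    exact Units.mul_inv x
  refine ⟨⟨a, b, hab, by rw [mul_comm]; exact hab⟩, ?_⟩
  apply Units.ext
  exact ha

theorem sunit_gen (v : Pl K) : ∃ (x : Kˣ) (h : ℕ), 0 < h ∧ ord v x = h ∧
    ∀ w : Pl K, w ≠ v → ord w x = 0 := by
  classical
  set h : ℕ := Fintype.card (ClassGroup (𝓞 K)) with hh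
  have hh0 : 0 < h := Fintype.card_pos
  have hv0 : v.asIdeal ∈ nonZeroDivisors (Ideal (𝓞 K)) := mem_nonZeroDivisors_of_ne_zero v.ne_bot
  have h1 : (ClassGroup.mk0 (⟨v.asIdeal, hv0⟩ : nonZeroDivisors (Ideal (𝓞 K)))) ^ h = 1 :=
    pow_card_eq_one
  rw [← map_pow] at h1
  have h2 : (((⟨v.asIdeal, hv0⟩ : nonZeroDivisors (Ideal (𝓞 K))) ^ h :
      nonZeroDivisors (Ideal (𝓞 K))) : Ideal (𝓞 K)).IsPrincipal :=
    (ClassGroup.mk0_eq_one_iff (SetLike.coe_mem _)).1 h1
  rw [SubmonoidClass.coe_pow] at h2
  obtain ⟨a, ha⟩ := h2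
  have ha' : v.asIdeal ^ h = Ideal.span {a} := ha
  have ha0 : a ≠ 0 := by
    rintro rfl
    have h3 : v.asIdeal ^ h = ⊥ := by
      rw [ha', Ideal.span_singleton_eq_bot]
    exact v.ne_bot (pow_eq_zero_iff hh0.ne' |>.1 h3)
  have haK : algebraMap (𝓞 K) K a ≠ 0 := by
    intro h3
    apply ha0
    apply FaithfulSMul.algebraMap_injective (𝓞 K) K
    rw [h3, map_zero]
  have hord : ∀ w : Pl K, ord w (Units.mk0 _ haK) = (multiplicity w.asIdeal (v.asIdeal ^ h) : ℕ) := by
    intro w
    unfold ord
    rw [Units.val_mk0, HeightOneSpectrum.valuation_of_algebraMap,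
      w.intValuation_eq_exp_neg_multiplicity ha0, WithZero.log_exp, neg_neg, ha']
  refine ⟨Units.mk0 _ haK, h, hh0, ?_, ?_⟩
  · rw [hord v, multiplicity_pow_self_of_prime v.prime]
  · intro w hw
    rw [hord w, multiplicity_eq_zero.2]
    · rfl
    · intro h3
      apply hw
      have h4 : w.asIdeal ∣ v.asIdeal := w.prime.dvd_of_dvd_pow h3
      have h5 : v.asIdeal ≤ w.asIdeal := Ideal.dvd_iff_le.1 h4
      exact HeightOneSpectrum.ext (v.isMaximal.eq_of_le w.isPrime.ne_top h5).symm

/-- the orders at the places in `T` -/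
def sunit_f (T : Finset (Pl K)) : Additive (UT T) →+ (T → ℤ) :=
  AddMonoidHom.mk' (fun e v => ord v.1 ((Additive.toMul e : UT T) : Kˣ)) (by
    intro a b
    funext w
    rw [Pi.add_apply, toMul_add, Subgroup.coe_mul, ord_mul])

/-- the inclusion of the units in the `T`-units, multiplicatively -/
def sunit_g0 (T : Finset (Pl K)) : (𝓞 K)ˣ →* UT T :=
  (sunit_co K).codRestrict (UT T) (fun u => mem_UT.2 fun v _ => sunit_co_ord v u)

/-- the inclusion of the units in the `T`-units -/
def sunit_g (T : Finset (Pl K)) : Additive (𝓞 K)ˣ →+ Additive (UT T) :=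
  MonoidHom.toAdditive (sunit_g0 T)

theorem sunit_g_inj (T : Finset (Pl K)) : Function.Injective (sunit_g T) := by
  intro a b hab
  have h1 : sunit_co K (Additive.toMul a) = sunit_co K (Additive.toMul b) :=
    congrArg (fun e : Additive (UT T) => ((Additive.toMul e : UT T) : Kˣ)) hab
  have h2 : Additive.toMul a = Additive.toMul b := by
    apply Units.ext
    apply FaithfulSMul.algebraMap_injective (𝓞 K) K
    exact congrArg (fun u : Kˣ => (u : K)) h1
  exact h2

theorem sunit_ker (T : Finset (Pl K)) : LinearMap.ker (sunit_f T).toIntLinearMap =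
    LinearMap.range (sunit_g T).toIntLinearMap := by
  ext e
  constructor
  · intro he
    have he1 : sunit_f T e = 0 := he
    have he2 : ∀ v : Pl K, ord v ((Additive.toMul e : UT T) : Kˣ) = 0 := by
      intro v
      by_cases hv : v ∈ T
      · exact congrFun he1 ⟨v, hv⟩
      · exact (Additive.toMul e : UT T).2 v hv
    obtain ⟨u, hu⟩ := sunit_exists _ he2
    refine ⟨Additive.ofMul u, ?_⟩
    have h3 : sunit_g0 T u = (Additive.toMul e : UT T) := by
      apply Subtype.ext
      exact hu
    exact congrArg Additive.ofMul h3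
  · rintro ⟨u, rfl⟩
    change sunit_f T (sunit_g T u) = 0
    funext w
    exact sunit_co_ord w.1 (Additive.toMul u)

theorem ut_finite (T : Finset (Pl K)) : Module.Finite ℤ (Additive (UT T)) := by
  refine ⟨Submodule.fg_of_fg_map_of_fg_inf_ker (sunit_f T).toIntLinearMap ?_ ?_⟩
  · exact IsNoetherian.noetherian _
  · rw [top_inf_eq, sunit_ker]
    exact Submodule.fg_range _

theorem sunit_range (T : Finset (Pl K)) :
    Module.finrank ℤ (LinearMap.range (sunit_f T).toIntLinearMap) = T.card := by
  classical
  apply le_antisymm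
  · refine (Submodule.finrank_le _).trans ?_
    rw [Module.finrank_fintype_fun_eq_card, Fintype.card_coe]
  · choose x n hn hx hx' using fun v : T => sunit_gen v.1
    have hxT : ∀ v : T, x v ∈ UT T := by
      intro v w hw
      apply hx' v w
      rintro rfl
      exact hw v.2
    have hmem : ∀ y : T → ℤ, (fun v => (n v : ℤ) * y v) ∈
        LinearMap.range (sunit_f T).toIntLinearMap := by
      intro y
      refine ⟨∑ v : T, y v • Additive.ofMul (⟨x v, hxT v⟩ : UT T), ?_⟩
      rw [map_sum]
      funext w
      rw [Finset.sum_apply, Finset.sum_eq_single w]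
      · rw [map_smul, Pi.smul_apply, smul_eq_mul, mul_comm]
        congr 1
        exact hx w
      · intro v _ hvw
        rw [map_smul, Pi.smul_apply, smul_eq_mul]
        have h1 : (sunit_f T).toIntLinearMap (Additive.ofMul (⟨x v, hxT v⟩ : UT T)) w = 0 := by
          apply hx' v w.1
          intro h2
          exact hvw (Subtype.ext h2.symm)
        rw [h1, mul_zero]
      · intro h
        exact absurd (Finset.mem_univ w) h
    let φ : (T → ℤ) →ₗ[ℤ] LinearMap.range (sunit_f T).toIntLinearMap :=
      LinearMap.codRestrict _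
        { toFun := fun y v => (n v : ℤ) * y v
          map_add' := by
            intro y z
            funext v
            simp only [Pi.add_apply]
            ring
          map_smul' := by
            intro c y
            funext v
            simp only [Pi.smul_apply, smul_eq_mul, RingHom.id_apply]
            ring } hmem
    have hφ : Function.Injective φ := by
      intro y z hyz
      funext v
      have h1 : (n v : ℤ) * y v = (n v : ℤ) * z v :=
        congrFun (congrArg Subtype.val hyz) v
      exact mul_left_cancel₀ (by exact_mod_cast (hn v).ne') h1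
    have h2 := LinearMap.finrank_le_finrank_of_injective hφ
    rwa [Module.finrank_fintype_fun_eq_card, Fintype.card_coe] at h2

theorem ut_rank (T : Finset (Pl K)) :
    Module.finrank ℤ (Additive (UT T)) = NumberField.Units.rank K + T.card := by
  have hfin := ut_finite T
  have h1 := Submodule.finrank_quotient_add_finrank (LinearMap.ker (sunit_f T).toIntLinearMap)
  rw [(sunit_f T).toIntLinearMap.quotKerEquivRange.finrank_eq, sunit_range, sunit_ker] at h1
  have hinj : Function.Injective (sunit_g T).toIntLinearMap := sunit_g_inj T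
  have h2 := (LinearEquiv.ofInjective (sunit_g T).toIntLinearMap hinj).finrank_eq
  rw [← h2, NumberField.Units.finrank_eq] at h1
  omega

end H63.MA
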