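import Pool.Agent.H63.MA.GTw
import Pool.Agent.H63.MA.SUnit

/-!
# MA-GUPA: the number of homomorphisms with given projection and given ramification

* `unit_reps`: there is a finite set `U` of `S`-units such that every `S`-unit is `u y^p`, `u ∈ U` (`ut_finite`: finitely generated, so finite modulo `p`-th powers).
* `unit_of_ord`: if `p ∣ ord v x` for all `v ∉ S0` then `x = u y^p` with an `S0`-unit `u`: `y = ∏ pi v ^ (ord v x / p)`.
* `upa`: there is `C` such that for every `f : Fin N → Finset (Pl K)` and every finite set `Rs` of homomorphisms `φ : Γ → G` of finite type with the same composition `π ∘ φ` and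
  `v ∈ f i ↔ φ (t v)` conjugate to `g i` (`v ∉ S0`; and `v ∉ f i` for `v ∈ S0`): `#Rs ≤ C ∏_i (#class_i)^{#(f i)}`.
  Proof. Map `φ` to the family `(φ (t v))_{v ∈ f i}`, `∏_i (#class_i)^{#(f i)}` possibilities. Fix `φ₀` in a fibre; for `φ` in the same fibre `χ_φ σ = φ₀ σ⁻¹ * φ σ` is in the kernel `W` of `π` (central),
  `χ_φ` is a homomorphism of finite type and `χ_φ (t v) = 1` for all `v ∉ S0` (for `v` in no `f i`, both values are `1` by `Dg.cls`). For every homomorphism `ψ : W → Multiplicative (ZMod p)`, `ψ ∘ χ_φ = kc b` for some `b`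
  (`kc_all`), `0 = kk b (t v) = ord v b` for `v ∉ S0` (`ld_kk_t`), so `b = u y^p` with `u ∈ U` (`unit_of_ord`, `unit_reps`) and `ψ ∘ χ_φ = kc u`. So `χ_φ` determines and is determined (`sep_ab` for `W`) by
  a function `ψ ↦ u` from the finite set of the `ψ` to `U`: at most `C = #U ^ #Hom(W, ZMod p)` possibilities.
-/

set_option autoImplicit false

open scoped NumberField
open IsDedekindDomain
open scoped Classical

noncomputable section

namespace H63.MA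

variable {K : Type} [Field K] [NumberField K] {Ω : Type} [Field Ω] [Algebra K Ω] [IsAlgClosure K Ω]
  {p : ℕ} {ζ : K} {m N : ℕ}

theorem unit_reps (hp : p.Prime) (S : Finset (Pl K)) :
    ∃ U : Finset Kˣ, (∀ u ∈ U, TUnit S u) ∧ ∀ x, TUnit S x → ∃ u ∈ U, ∃ y : Kˣ, x = u * y ^ p := by
  have hp0 : NeZero p := ⟨hp.ne_zero⟩
  have hfin := ut_finite S
  obtain ⟨n, f, hf⟩ := Module.Finite.exists_fin' ℤ (Additive (UT S))
  let g : (Fin n → Fin p) → Kˣ := fun r =>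
    ((Additive.toMul (f (fun i => ((r i : ℕ) : ℤ))) : UT S) : Kˣ)
  refine ⟨Finset.univ.image g, ?_, ?_⟩
  · intro u hu
    obtain ⟨r, -, rfl⟩ := Finset.mem_image.1 hu
    exact (Additive.toMul (f (fun i => ((r i : ℕ) : ℤ))) : UT S).2
  · intro x hx
    obtain ⟨c, hc⟩ := hf (Additive.ofMul (⟨x, hx⟩ : UT S))
    have hppos : (0 : ℤ) < p := by exact_mod_cast hp.pos
    let r : Fin n → Fin p := fun i => ⟨(c i % p).toNat, by
      have h1 := Int.emod_nonneg (c i) hppos.ne'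
      have h2 := Int.emod_lt_of_pos (c i) hppos
      omega⟩
    let e : Fin n → ℤ := fun i => c i / p
    have hcr : c = (fun i => ((r i : ℕ) : ℤ)) + (p : ℤ) • e := by
      funext i
      have h1 := Int.emod_nonneg (c i) hppos.ne'
      have h2 : ((r i : ℕ) : ℤ) = c i % p := Int.toNat_of_nonneg h1
      rw [Pi.add_apply, Pi.smul_apply, smul_eq_mul, h2]
      exact (Int.emod_add_mul_ediv (c i) p).symm
    refine ⟨g r, Finset.mem_image_of_mem g (Finset.mem_univ r),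
      ((Additive.toMul (f e) : UT S) : Kˣ), ?_⟩
    have h3 : Additive.ofMul (⟨x, hx⟩ : UT S) = f (fun i => ((r i : ℕ) : ℤ)) + (p : ℤ) • f e := by
      rw [← hc, ← map_smul, ← map_add, ← hcr]
    have h4 := congrArg (fun a : Additive (UT S) => ((Additive.toMul a : UT S) : Kˣ)) h3
    simp only [toMul_ofMul, toMul_add, Subgroup.coe_mul, toMul_zsmul,
      zpow_natCast] at h4
    exact h4

theorem unit_of_ord (hp : p.Prime) (D : RD0 K p ζ) (x : Kˣ)
    (h : ∀ v, v ∉ D.S0 → (p : ℤ) ∣ ord v x) : ∃ u y : Kˣ, TUnit D.S0 u ∧ x = u * y ^ p := by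
  have hfin := finite_ord x
  let F : Finset (Pl K) := hfin.toFinset.filter (fun v => v ∉ D.S0)
  let y : Kˣ := ∏ v ∈ F, D.pi v ^ (ord v x / p)
  have hy : ∀ w, w ∉ D.S0 → ord w y = ord w x / p := by
    intro w hw
    have h1 : ord w y = ∑ v ∈ F, (ord v x / p) * ord w (D.pi v) := by
      rw [ord_prod]
      exact Finset.sum_congr rfl fun v _ => ord_zpow w (D.pi v) _
    rw [h1]
    by_cases hwF : w ∈ F
    · rw [Finset.sum_eq_single w]
      · rw [D.pi_self w hw, mul_one]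
      · intro v hv hvw
        rw [D.pi_ne v w (Finset.mem_filter.1 hv).2 hw hvw.symm, mul_zero]
      · intro h2
        exact absurd hwF h2
    · have h2 : ord w x = 0 := by
        by_contra h3
        exact hwF (Finset.mem_filter.2 ⟨hfin.mem_toFinset.2 h3, hw⟩)
      rw [h2, Int.zero_ediv]
      apply Finset.sum_eq_zero
      intro v hv
      have h3 : w ≠ v := by
        rintro rfl
        exact hwF hv
      rw [D.pi_ne v w (Finset.mem_filter.1 hv).2 hw h3, mul_zero]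
  refine ⟨x * (y ^ p)⁻¹, y, ?_, ?_⟩
  · intro w hw
    rw [ord_mul, ord_inv, ord_pow, hy w hw]
    obtain ⟨k, hk⟩ := h w hw
    have hp0 : (p : ℤ) ≠ 0 := by exact_mod_cast hp.ne_zero
    rw [hk, Int.mul_ediv_cancel_left _ hp0]
    ring
  · rw [inv_mul_cancel_right]

theorem gupa_key (hp : p.Prime) (hζ : IsPrimitiveRoot ζ p) (D : RD0 K p ζ) (L : LDs D Ω)
    (U : Finset Kˣ) (hU : ∀ x, TUnit D.S0 x → ∃ u ∈ U, ∃ y : Kˣ, x = u * y ^ p)
    (χ : Gal(Ω/K) →* Multiplicative (ZMod p)) (hχ : H38.ML.FT χ)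
    (ht : ∀ v, v ∉ D.S0 → χ (L.t v) = 1) : ∃ u ∈ U, χ = kc p ζ Ω u := by
  obtain ⟨a, ha⟩ := kc_all hp hζ χ hχ
  have h1 : ∀ v, v ∉ D.S0 → (p : ℤ) ∣ ord v a := by
    intro v hv
    have h2 : kk p ζ a (L.t v) = ord v a := by
      have h3 : L.t v = (L.ld v hv).t := dif_pos hv
      rw [h3]
      exact ld_kk_t hp hζ (fun h => hv (D.above v h)) (D.pi_self v hv) (L.ld v hv) a
    have h4 : kk p ζ a (L.t v) = 0 := by
      unfold kk
      rw [← ha, ht v hv, toAdd_one]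
    rw [h4] at h2
    exact (ZMod.intCast_zmod_eq_zero_iff_dvd _ p).1 h2.symm
  obtain ⟨u, y, hu, hx⟩ := unit_of_ord hp D a h1
  obtain ⟨u', hu', y', hy'⟩ := hU u hu
  refine ⟨u', hu', ?_⟩
  rw [ha]
  apply MonoidHom.ext
  intro σ
  have h5 : kk p ζ a σ = kk p ζ u' σ := by
    rw [hx, hy', mul_assoc, ← mul_pow, kk_mul_arg hp hζ]
    have h6 : kk p ζ ((y' * y) ^ p) σ = 0 :=
      (kk_eq_zero_iff (Ω := Ω) hp hζ ((y' * y) ^ p)).2 ⟨y' * y, rfl⟩ σ
    rw [h6, add_zero]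
  exact Multiplicative.toAdd.injective h5

/-- the quotient of two homomorphisms with the same projection -/
def gupa_chi {G : Type} [Group G] (Dg : GD p m N G) (φ₀ φ : Gal(Ω/K) →* G)
    (h : ∀ σ, Dg.π (φ₀ σ) = Dg.π (φ σ)) : Gal(Ω/K) →* Dg.π.ker where
  toFun σ := ⟨(φ₀ σ)⁻¹ * φ σ, by
    rw [MonoidHom.mem_ker, map_mul, map_inv, h σ, inv_mul_cancel]⟩
  map_one' := Subtype.ext (by
    change (φ₀ 1)⁻¹ * φ 1 = 1
    rw [map_one, map_one, inv_one, mul_one])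
  map_mul' σ τ := Subtype.ext (by
    change (φ₀ (σ * τ))⁻¹ * φ (σ * τ) = ((φ₀ σ)⁻¹ * φ σ) * ((φ₀ τ)⁻¹ * φ τ)
    have hc := Dg.cen ((φ₀ σ)⁻¹ * φ σ) (by rw [map_mul, map_inv, h σ, inv_mul_cancel]) (φ₀ τ)⁻¹
    rw [map_mul, map_mul, mul_inv_rev, ← mul_assoc ((φ₀ σ)⁻¹ * φ σ), hc]
    group)

theorem gupa_chi_coe {G : Type} [Group G] (Dg : GD p m N G) (φ₀ φ : Gal(Ω/K) →* G)
    (h : ∀ σ, Dg.π (φ₀ σ) = Dg.π (φ σ)) (σ : Gal(Ω/K)) :
    ((gupa_chi Dg φ₀ φ h σ : Dg.π.ker) : G) = (φ₀ σ)⁻¹ * φ σ := rfl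

theorem gupa_chi_ft {G : Type} [Group G] (Dg : GD p m N G) (φ₀ φ : Gal(Ω/K) →* G)
    (h : ∀ σ, Dg.π (φ₀ σ) = Dg.π (φ σ)) (h0 : H38.ML.FT φ₀) (h1 : H38.ML.FT φ) :
    H38.ML.FT (gupa_chi Dg φ₀ φ h) := by
  obtain ⟨E, hE, hle⟩ := h0
  obtain ⟨E', hE', hle'⟩ := h1
  refine ⟨E ⊔ E', inferInstance, fun σ hσ => ?_⟩
  have h1 : σ ∈ E.fixingSubgroup := IntermediateField.fixingSubgroup_antitone le_sup_left hσ
  have h2 : σ ∈ E'.fixingSubgroup := IntermediateField.fixingSubgroup_antitone le_sup_right hσ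
  have h3 := hle h1
  have h4 := hle' h2
  rw [MonoidHom.mem_ker] at h3 h4 ⊢
  apply Subtype.ext
  rw [gupa_chi_coe, h3, h4, inv_one, mul_one]
  rfl

theorem upa (hp : p.Prime) (hζ : IsPrimitiveRoot ζ p) (D : RD0 K p ζ) (L : LDs D Ω)
    {G : Type} [Group G] [Finite G] (hG : Ep p G) (Dg : GD p m N G) :
    ∃ C : ℕ, ∀ (f : Fin N → Finset (Pl K)) (Rs : Finset (Gal(Ω/K) →* G)),
      (∀ φ ∈ Rs, H38.ML.FT φ) → (∀ φ ∈ Rs, ∀ φ' ∈ Rs, ∀ σ, Dg.π (φ σ) = Dg.π (φ' σ)) →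
      (∀ φ ∈ Rs, ∀ i v, v ∈ f i ↔ v ∉ D.S0 ∧ IsConj (φ (L.t v)) (Dg.g i)) →
      Rs.card ≤ C * ∏ i, Nat.card {h : G // IsConj h (Dg.g i)} ^ (f i).card := by
  have hp0 : NeZero p := ⟨hp.ne_zero⟩
  obtain ⟨U, -, hU⟩ := unit_reps hp D.S0
  letI : CommGroup Dg.π.ker :=
    { (inferInstance : Group Dg.π.ker) with
      mul_comm := fun a b => Subtype.ext (Dg.cen a (MonoidHom.mem_ker.1 a.2) b) }
  have hfinH : Finite (Dg.π.ker →* Multiplicative (ZMod p)) :=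
    Finite.of_injective (fun ψ : Dg.π.ker →* Multiplicative (ZMod p) =>
      (ψ : Dg.π.ker → Multiplicative (ZMod p))) DFunLike.coe_injective
  refine ⟨Nat.card ((Dg.π.ker →* Multiplicative (ZMod p)) → U), ?_⟩
  intro f Rs hft hpi hram
  rcases Rs.eq_empty_or_nonempty with h0 | h0
  · rw [h0, Finset.card_empty]
    exact Nat.zero_le _
  have hval : ∀ φ ∈ Rs, ∀ φ' ∈ Rs, (∀ i, ∀ v ∈ f i, φ (L.t v) = φ' (L.t v)) →
      ∀ v, v ∉ D.S0 → φ (L.t v) = φ' (L.t v) := by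
    intro φ hφ φ' hφ' h v hv
    have hone : ∀ φ₁ ∈ Rs, ∀ φ₂ ∈ Rs, φ₁ (L.t v) = 1 → φ₂ (L.t v) = 1 := by
      intro φ₁ h1 φ₂ h2 h3
      by_contra h4
      obtain ⟨i, hi⟩ := Dg.cls _ h4
      have h5 := (hram φ₂ h2 i v).2 ⟨hv, hi⟩
      have h6 := ((hram φ₁ h1 i v).1 h5).2
      rw [h3] at h6
      exact Dg.ne i (isConj_one_right.1 h6)
    by_cases h1 : φ (L.t v) = 1
    · rw [h1, hone φ hφ φ' hφ' h1]
    · obtain ⟨i, hi⟩ := Dg.cls _ h1
      exact h i v ((hram φ hφ i v).2 ⟨hv, hi⟩)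
  let ρ : Rs → ((i : Fin N) → (↥(f i) → {h : G // IsConj h (Dg.g i)})) := fun φ i v =>
    ⟨φ.1 (L.t v.1), ((hram φ.1 φ.2 i v.1).1 v.2).2⟩
  have hρ : ∀ φ φ' : Rs, ρ φ = ρ φ' → ∀ i, ∀ v ∈ f i, φ.1 (L.t v) = φ'.1 (L.t v) := by
    intro φ φ' h i v hv
    exact congrArg Subtype.val (congrFun (congrFun h i) ⟨v, hv⟩)
  have hne : Nonempty Rs := h0.to_subtype
  have hbase : ∀ φ, ρ (Function.invFun ρ (ρ φ)) = ρ φ := fun φ => Function.invFun_eq ⟨φ, rfl⟩
  have hex : ∀ (φ : Rs) (ψ : Dg.π.ker →* Multiplicative (ZMod p)), ∃ u : U, ∀ σ,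
      ψ (gupa_chi Dg (Function.invFun ρ (ρ φ)).1 φ.1
        (hpi _ (Function.invFun ρ (ρ φ)).2 _ φ.2) σ) = kc p ζ Ω u.1 σ := by
    intro φ ψ
    obtain ⟨u, hu, hψ⟩ := gupa_key hp hζ D L U hU
      (ψ.comp (gupa_chi Dg (Function.invFun ρ (ρ φ)).1 φ.1
        (hpi _ (Function.invFun ρ (ρ φ)).2 _ φ.2)))
      (H38.ML.ft_comp ψ _ (gupa_chi_ft Dg _ _ _ (hft _ (Function.invFun ρ (ρ φ)).2)
        (hft _ φ.2))) (by
        intro v hv
        rw [MonoidHom.comp_apply]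
        have h1 : gupa_chi Dg (Function.invFun ρ (ρ φ)).1 φ.1
            (hpi _ (Function.invFun ρ (ρ φ)).2 _ φ.2) (L.t v) = 1 := by
          apply Subtype.ext
          rw [gupa_chi_coe, hval _ (Function.invFun ρ (ρ φ)).2 _ φ.2
            (hρ _ _ (hbase φ)) v hv, inv_mul_cancel]
          rfl
        rw [h1, map_one])
    exact ⟨⟨u, hu⟩, fun σ => DFunLike.congr_fun hψ σ⟩
  choose u hu using hex
  have hinj : Function.Injective (fun φ : Rs => (ρ φ, u φ)) := by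
    intro φ φ' h
    have h1 : ρ φ = ρ φ' := congrArg Prod.fst h
    have h2 : u φ = u φ' := congrArg Prod.snd h
    apply Subtype.ext
    apply MonoidHom.ext
    intro σ
    have h3 : gupa_chi Dg (Function.invFun ρ (ρ φ)).1 φ.1
        (hpi _ (Function.invFun ρ (ρ φ)).2 _ φ.2) σ = gupa_chi Dg (Function.invFun ρ (ρ φ')).1 φ'.1
        (hpi _ (Function.invFun ρ (ρ φ')).2 _ φ'.2) σ := by
      rw [← div_eq_one]
      refine sep_ab hp Dg.π.ker (fun a => Subtype.ext (hG.exp _)) _ fun ψ => ?_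
      rw [map_div, div_eq_one, hu φ ψ σ, hu φ' ψ σ, h2]
    have h4 := congrArg Subtype.val h3
    rw [gupa_chi_coe, gupa_chi_coe, h1] at h4
    exact mul_left_cancel h4
  have h5 := Nat.card_le_card_of_injective _ hinj
  rw [Nat.card_prod, Nat.card_pi] at h5
  have h6 : ∀ i : Fin N, Nat.card (↥(f i) → {h : G // IsConj h (Dg.g i)}) =
      Nat.card {h : G // IsConj h (Dg.g i)} ^ (f i).card := by
    intro i
    rw [Nat.card_fun, Nat.card_eq_fintype_card (α := ↥(f i)), Fintype.card_coe]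
  rw [Finset.prod_congr rfl fun i _ => h6 i, Nat.card_eq_fintype_card (α := Rs),
    Fintype.card_coe, mul_comm] at h5
  exact h5

end H63.MA
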