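import Pool.Agent.H63.MA.RMkA
import Pool.Agent.H63.MA.RMkB
import Pool.Agent.H63.MA.NormZ

/-!
# MA-RMKC: construction of the reciprocity data

`D` from `exists_RD0`, `lam` from `exists_rec_one`.
For a finitely supported `m : Pl K → ℤ` (support outside `S0`) write `pi^m = ∏ pi v^{m v}`, `q(m) = ∑ m v q v`.
* `rec1`: fix `b`. For `m` supported on good primes let `D(m) = ∑_v m v * LL v b - ∑_{w ∉ S0} lam w * ord w b * LL w (pi^m)`, additive in `m`.
  If `q(m) = 0` then `c = pi^m` satisfies `PS c` (`prim_of`), in particular `Prim c`, and `0 = ∑_v lam v * B v c b` (`IsRec.sum`)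
  `= ∑_{v ∉ S0} lam v (LL v c * ord v b - ord v c * LL v b)` (`B_eq`; for `v ∈ S0`: `lam v = 0` if `v ∣ p`, `B v c b = 0` by `Spl`)
  `= - D(m)` (`lam v = 1` at the good primes, `ord v c = m v`). So `D` factors through `m ↦ q(m)`; a homomorphism on the image
  (a subspace of `(ZMod p)^r`) extends to a linear form `κ` on `(ZMod p)^r`; `D(m) = κ · q(m)`. For `m = δ_v`: `rec1`.
  (The sum over `w` is finite: `ord w b ≠ 0`.)
* `rec2`: for `m, n` supported on good primes let `E(m, n) = ∑_v m v * LL v (pi^n) - ∑_w n w * LL w (pi^m)`, bilinear, `E(m,n) = -E(n,m)`;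
  by the same computation with `b = pi^n` (`lam = 1` on the support), `E(m, n) = 0` if `q(m) = 0`, hence also if `q(n) = 0`. So `E`
  is a bilinear form on the image of `q`, extend it to `(ZMod p)^r` (complement). `E(δ_v, δ_w) = LL v (pi w) - LL w (pi v)`
  (`LL_pi` for the missing terms), `= ∑ eta i j (q w)_i (q v)_j`.
* `non`: `pz_spl` for `b`: `PZ {Spl v b} = (1/p) log + O(1)`, `PZ univ = log + O(1)` (`pz_all`) and the primes of non prime norm
  (`pz_deg`), in `S0`, in `F`, with `ord v b ≠ 0` contribute `O(1)`. So there is `v` good, `∉ F`, `ord v b = 0`, not `Spl v b`, and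
  `LL v b = lg v b ≠ 0` (`B_unit`).
-/

set_option autoImplicit false

open scoped NumberField
open IsDedekindDomain

noncomputable section

namespace H63.MA

section lin

variable {k : Type} [Field k] {ι V : Type} [AddCommGroup V] [Module k V]

/-- a generalised inverse -/
theorem rmkC_sec (P : (ι →₀ k) →ₗ[k] V) : ∃ s : V →ₗ[k] (ι →₀ k), ∀ x, P (s (P x)) = P x := by
  obtain ⟨s0, hs0⟩ := P.rangeRestrict.exists_rightInverse_of_surjective
    (LinearMap.range_rangeRestrict P)
  obtain ⟨s, hs⟩ := LinearMap.exists_extend s0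
  refine ⟨s, fun x => ?_⟩
  have h1 : s (P x) = s0 (P.rangeRestrict x) := LinearMap.congr_fun hs (P.rangeRestrict x)
  rw [h1]
  have h2 := LinearMap.congr_fun hs0 (P.rangeRestrict x)
  exact congrArg Subtype.val h2

end lin

section linp

variable {p : ℕ} {ι : Type} {r : ℕ}

theorem rmkC_lift (hp : p.Prime) (q : ι → Fin r → ZMod p) (f : ι → ZMod p)
    (h : ∀ m : ι →₀ ℤ, (m.sum fun v n => (n : ZMod p) • q v) = 0 →
      (m.sum fun v n => (n : ZMod p) * f v) = 0) (x : ι →₀ ZMod p)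
    (hx : Finsupp.linearCombination (ZMod p) q x = 0) :
    Finsupp.linearCombination (ZMod p) f x = 0 := by
  classical
  have : NeZero p := ⟨hp.ne_zero⟩
  have hv0 : ((0 : ZMod p).val : ℤ) = 0 := by simp
  let m : ι →₀ ℤ := x.mapRange (fun a => (a.val : ℤ)) hv0
  have hm : ∀ v, ((m v : ℤ) : ZMod p) = x v := by
    intro v
    simp [m]
  have h1 : (m.sum fun v n => (n : ZMod p) • q v) = Finsupp.linearCombination (ZMod p) q x := by
    rw [Finsupp.linearCombination_apply, Finsupp.sum_mapRange_index (by simp)]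
    exact Finset.sum_congr rfl fun v _ => by simp
  have h2 : (m.sum fun v n => (n : ZMod p) * f v) = Finsupp.linearCombination (ZMod p) f x := by
    rw [Finsupp.linearCombination_apply, Finsupp.sum_mapRange_index (by simp)]
    exact Finset.sum_congr rfl fun v _ => by simp
  rw [← h2]
  exact h m (by rw [h1, hx])

theorem rmkC_lin (hp : p.Prime) (q : ι → Fin r → ZMod p) (f : ι → ZMod p)
    (h : ∀ m : ι →₀ ℤ, (m.sum fun v n => (n : ZMod p) • q v) = 0 →
      (m.sum fun v n => (n : ZMod p) * f v) = 0) :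
    ∃ κ : Fin r → ZMod p, ∀ v, f v = ∑ i, κ i * q v i := by
  classical
  have : Fact p.Prime := ⟨hp⟩
  obtain ⟨s, hs⟩ := rmkC_sec (Finsupp.linearCombination (ZMod p) q)
  let G : (Fin r → ZMod p) →ₗ[ZMod p] ZMod p := (Finsupp.linearCombination (ZMod p) f) ∘ₗ s
  refine ⟨fun i => G fun j => if i = j then 1 else 0, fun v => ?_⟩
  have h1 := hs (Finsupp.single v 1)
  rw [Finsupp.linearCombination_single, one_smul] at h1
  have h2 := rmkC_lift hp q f h (s (q v) - Finsupp.single v 1) (by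
    rw [map_sub, h1, Finsupp.linearCombination_single, one_smul, sub_self])
  rw [map_sub, Finsupp.linearCombination_single, one_smul, sub_eq_zero] at h2
  rw [← h2]
  change G (q v) = _
  rw [LinearMap.pi_apply_eq_sum_univ G (q v)]
  exact Finset.sum_congr rfl fun i _ => by rw [smul_eq_mul, mul_comm]

theorem rmkC_bil (hp : p.Prime) (q : ι → Fin r → ZMod p) (E : ι → ι → ZMod p)
    (hE : ∀ v w, E v w = -E w v)
    (h : ∀ w, ∀ m : ι →₀ ℤ, (m.sum fun v n => (n : ZMod p) • q v) = 0 →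
      (m.sum fun v n => (n : ZMod p) * E v w) = 0) :
    ∃ eta : Fin r → Fin r → ZMod p, ∀ v w, E v w = ∑ i, ∑ j, eta i j * q w i * q v j := by
  classical
  have : Fact p.Prime := ⟨hp⟩
  obtain ⟨s, hs⟩ := rmkC_sec (Finsupp.linearCombination (ZMod p) q)
  let B : (ι →₀ ZMod p) →ₗ[ZMod p] (ι →₀ ZMod p) →ₗ[ZMod p] ZMod p :=
    Finsupp.linearCombination (ZMod p) fun v => Finsupp.linearCombination (ZMod p) (E v)
  have hB1 : ∀ v w, B (Finsupp.single v 1) (Finsupp.single w 1) = E v w := by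
    intro v w
    simp [B]
  have hB2 : ∀ x w, B x (Finsupp.single w 1) =
      Finsupp.linearCombination (ZMod p) (fun v => E v w) x := by
    intro x w
    have : B.flip (Finsupp.single w 1) = Finsupp.linearCombination (ZMod p) (fun v => E v w) := by
      ext v
      simp [B]
    exact LinearMap.congr_fun this x
  have hB3 : ∀ x, Finsupp.linearCombination (ZMod p) q x = 0 → B x = 0 := by
    intro x hx
    ext w
    simp only [LinearMap.coe_comp, Function.comp_apply, Finsupp.lsingle_apply,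
      LinearMap.zero_apply]
    rw [hB2]
    exact rmkC_lift hp q _ (h w) x hx
  have hB4 : ∀ x y, B x y = -B y x := by
    have : B.flip = -B := by
      ext v w
      simp [B, hE v w]
    intro x y
    have h1 := LinearMap.congr_fun (LinearMap.congr_fun this y) x
    rw [LinearMap.flip_apply] at h1
    rw [h1]
    rfl
  have hs1 : ∀ v, Finsupp.linearCombination (ZMod p) q (s (q v) - Finsupp.single v 1) = 0 := by
    intro v
    have h1 := hs (Finsupp.single v 1)
    rw [Finsupp.linearCombination_single, one_smul] at h1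
    rw [map_sub, h1, Finsupp.linearCombination_single, one_smul, sub_self]
  have hs2 : ∀ v, B (s (q v)) = B (Finsupp.single v 1) := by
    intro v
    have h1 := hB3 _ (hs1 v)
    rwa [map_sub, sub_eq_zero] at h1
  refine ⟨fun i j => B (s fun l => if j = l then 1 else 0) (s fun l => if i = l then 1 else 0),
    fun v w => ?_⟩
  have h1 : E v w = B (s (q v)) (s (q w)) := by
    rw [hs2 v, hB4, hs2 w, hB4, neg_neg, hB1]
  rw [h1]
  have h2 : ∀ x : ι →₀ ZMod p, B x (s (q w)) =
      ∑ i, q w i * B x (s fun l => if i = l then 1 else 0) := by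
    intro x
    have := LinearMap.pi_apply_eq_sum_univ ((B x) ∘ₗ s) (q w)
    simpa using this
  have h3 : ∀ y : ι →₀ ZMod p, B (s (q v)) y =
      ∑ j, q v j * B (s fun l => if j = l then 1 else 0) y := by
    intro y
    have := LinearMap.pi_apply_eq_sum_univ ((B.flip y) ∘ₗ s) (q v)
    simpa using this
  rw [h2]
  refine Finset.sum_congr rfl fun i _ => ?_
  rw [h3, Finset.mul_sum]
  exact Finset.sum_congr rfl fun j _ => by ring

end linp

section rec

variable {K : Type} [Field K] [NumberField K] {p : ℕ} (hp : p.Prime) {ζ : K}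
  (hζ : IsPrimitiveRoot ζ p) (D : RD0 K p ζ)

include hp hζ

theorem rmkC_LL_prod {w : Pl K} (hw : w ∉ D.S0) (s : Finset (Pl K)) (m : Pl K → ℤ) :
    D.LL w (∏ v ∈ s, D.pi v ^ m v) = ∑ v ∈ s, (m v : ZMod p) * D.LL w (D.pi v) := by
  classical
  induction s using Finset.induction_on with
  | empty => rw [Finset.prod_empty, Finset.sum_empty, LL_one hp hζ D hw]
  | insert a s ha ih =>
    rw [Finset.prod_insert ha, Finset.sum_insert ha, LL_mul hp hζ D hw, LL_zpow hp hζ D hw, ih]

omit hp hζ in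
theorem rmkC_ord (m : Pl K →₀ ℤ) (hm : ∀ v ∈ D.S0, m v = 0) {w : Pl K} (hw : w ∉ D.S0) :
    ord w (m.prod fun v n => D.pi v ^ n) = m w := by
  classical
  rw [Finsupp.prod, ord_prod]
  have hmS : ∀ v ∈ m.support, v ∉ D.S0 := fun v hv h => (Finsupp.mem_support_iff.1 hv) (hm v h)
  have h4 : ∀ v ∈ m.support, v ≠ w → ord w (D.pi v ^ m v) = 0 := by
    intro v hv hvw
    rw [ord_zpow, D.pi_ne v w (hmS v hv) hw (Ne.symm hvw), mul_zero]
  by_cases hwm : w ∈ m.support
  · rw [Finset.sum_eq_single w h4 (fun h => absurd hwm h), ord_zpow, D.pi_self w hw, mul_one]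
  · rw [Finset.sum_eq_zero (fun v hv => h4 v hv (fun h => hwm (h ▸ hv)))]
    rw [Finsupp.notMem_support_iff] at hwm
    rw [hwm]

open Classical in
theorem rmkC_key {lam : Pl K → ZMod p} (hlam : IsRec p ζ lam) (b : Kˣ) (m : Pl K →₀ ℤ)
    (hm : ∀ v ∈ D.S0, m v = 0) (hq : (m.sum fun v n => (n : ZMod p) • D.q v) = 0) :
    (m.sum fun v n => lam v * (n : ZMod p) * D.LL v b) =
      m.sum fun v n => (n : ZMod p) *
        ∑ᶠ w, (if w ∈ D.S0 then 0 else lam w * (ord w b : ZMod p) * D.LL w (D.pi v)) := by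
  have hPS := D.prim_of m hm hq
  set c := m.prod fun v n => D.pi v ^ n with hc
  have h0 := hlam.sum c hPS.1 b
  set T := (finite_ord b).toFinset with hTdef
  have hT : ∀ w, w ∉ T → ord w b = 0 := by
    intro w hw
    by_contra h
    apply hw
    rw [hTdef, Set.Finite.mem_toFinset]
    exact h
  have hfin : ∀ g : Pl K → ZMod p,
      ∑ᶠ w, (if w ∈ D.S0 then 0 else lam w * (ord w b : ZMod p) * g w) =
        ∑ w ∈ T, (if w ∈ D.S0 then 0 else lam w * (ord w b : ZMod p) * g w) := by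
    intro g
    apply finsum_eq_sum_of_support_subset
    intro w hw
    rw [Function.mem_support] at hw
    rw [Finset.mem_coe]
    by_contra h
    apply hw
    rw [hT w h]
    split_ifs
    · rfl
    · rw [Int.cast_zero, mul_zero, zero_mul]
  have hterm : ∀ v, lam v * B p ζ v c b =
      (if v ∈ D.S0 then 0 else lam v * (ord v b : ZMod p) * D.LL v c) -
        lam v * (m v : ZMod p) * D.LL v b := by
    intro v
    by_cases hv : v ∈ D.S0
    · rw [if_pos hv, hm v hv, Int.cast_zero, mul_zero, zero_mul, sub_zero]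
      by_cases ha : Above p v
      · rw [hlam.above v ha, zero_mul]
      · rw [hPS.2 v hv ha b, mul_zero]
    · rw [if_neg hv, B_eq hp hζ D hv, hc, rmkC_ord D m hm hv]
      ring
  rw [finsum_congr hterm, finsum_eq_sum_of_support_subset (s := T ∪ m.support) _ (by
    intro v hv
    rw [Function.mem_support] at hv
    rw [Finset.mem_coe, Finset.mem_union]
    by_contra h
    rw [not_or] at h
    apply hv
    rw [hT v h.1, Finsupp.notMem_support_iff.1 h.2]
    simp), Finset.sum_sub_distrib, sub_eq_zero] at h0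
  have h1 : ∑ v ∈ T ∪ m.support,
      (if v ∈ D.S0 then 0 else lam v * (ord v b : ZMod p) * D.LL v c) =
      ∑ v ∈ T, (if v ∈ D.S0 then 0 else lam v * (ord v b : ZMod p) * D.LL v c) := by
    symm
    apply Finset.sum_subset Finset.subset_union_left
    intro v _ hv
    rw [hT v hv]
    simp
  have h2 : ∑ v ∈ T ∪ m.support, lam v * (m v : ZMod p) * D.LL v b =
      m.sum fun v n => lam v * (n : ZMod p) * D.LL v b := by
    rw [Finsupp.sum]
    symm
    apply Finset.sum_subset Finset.subset_union_right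
    intro v _ hv
    rw [Finsupp.notMem_support_iff.1 hv]
    simp
  rw [h1, h2] at h0
  rw [← h0, Finsupp.sum]
  simp only [hfin, Finset.mul_sum]
  rw [Finset.sum_comm]
  refine Finset.sum_congr rfl fun w _ => ?_
  by_cases hw : w ∈ D.S0
  · simp [hw]
  · simp only [if_neg hw]
    rw [hc, Finsupp.prod, rmkC_LL_prod hp hζ D hw, Finset.mul_sum]
    exact Finset.sum_congr rfl fun v _ => by ring

theorem rmkC_push {lam : Pl K → ZMod p} (hlam : IsRec p ζ lam)
    (hone : ∀ v, D.Gd v → lam v = 1) (b : Kˣ) (S : Pl K → ZMod p)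
    (hS : ∀ m : Pl K →₀ ℤ, (∀ v ∈ D.S0, m v = 0) →
      (m.sum fun v n => (n : ZMod p) • D.q v) = 0 →
      (m.sum fun v n => lam v * (n : ZMod p) * D.LL v b) = m.sum fun v n => (n : ZMod p) * S v)
    (m : {v : Pl K // D.Gd v} →₀ ℤ)
    (hm : (m.sum fun v n => (n : ZMod p) • D.q v.1) = 0) :
    (m.sum fun v n => (n : ZMod p) * (D.LL v.1 b - S v.1)) = 0 := by
  classical
  have hS0 : ∀ v ∈ D.S0, (m.mapDomain Subtype.val) v = 0 := by
    intro v hv
    apply Finsupp.mapDomain_notin_range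
    rintro ⟨u, rfl⟩
    exact u.2.1 hv
  have h1 := hS (m.mapDomain Subtype.val) hS0 (by
    rw [Finsupp.sum_mapDomain_index_inj Subtype.val_injective]
    exact hm)
  rw [Finsupp.sum_mapDomain_index_inj Subtype.val_injective,
    Finsupp.sum_mapDomain_index_inj Subtype.val_injective] at h1
  rw [Finsupp.sum, Finsupp.sum, ← sub_eq_zero, ← Finset.sum_sub_distrib] at h1
  rw [Finsupp.sum, ← h1]
  refine Finset.sum_congr rfl fun v _ => ?_
  rw [hone v.1 v.2]
  ring

open Classical in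
theorem rmkC_rec1 {lam : Pl K → ZMod p} (hlam : IsRec p ζ lam)
    (hone : ∀ v, D.Gd v → lam v = 1) (b : Kˣ) :
    ∃ κ : Fin D.r → ZMod p, ∀ v, D.Gd v → D.LL v b = ∑ i, κ i * D.q v i +
      ∑ᶠ w, (if w ∈ D.S0 then 0 else lam w * (ord w b : ZMod p) * D.LL w (D.pi v)) := by
  obtain ⟨κ, hκ⟩ := rmkC_lin hp (fun v : {v : Pl K // D.Gd v} => D.q v.1)
    (fun v => D.LL v.1 b -
      ∑ᶠ w, (if w ∈ D.S0 then 0 else lam w * (ord w b : ZMod p) * D.LL w (D.pi v.1)))
    (fun m hm => rmkC_push hp hζ D hlam hone b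
      (fun v => ∑ᶠ w, (if w ∈ D.S0 then 0 else lam w * (ord w b : ZMod p) * D.LL w (D.pi v)))
      (fun m hm hq => rmkC_key hp hζ D hlam b m hm hq) m hm)
  refine ⟨κ, fun v hv => ?_⟩
  have h1 := hκ ⟨v, hv⟩
  exact sub_eq_iff_eq_add.1 h1

theorem rmkC_rec2 {lam : Pl K → ZMod p} (hlam : IsRec p ζ lam)
    (hone : ∀ v, D.Gd v → lam v = 1) :
    ∃ eta : Fin D.r → Fin D.r → ZMod p, ∀ v w, D.Gd v → D.Gd w →
      D.LL v (D.pi w) - D.LL w (D.pi v) = ∑ i, ∑ j, eta i j * D.q w i * D.q v j := by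
  classical
  obtain ⟨eta, h⟩ := rmkC_bil hp (fun v : {v : Pl K // D.Gd v} => D.q v.1)
    (fun v w => D.LL v.1 (D.pi w.1) - D.LL w.1 (D.pi v.1)) (fun v w => by ring)
    (fun w m hm => rmkC_push hp hζ D hlam hone (D.pi w.1) (fun v => D.LL w.1 (D.pi v))
      (fun m hm hq => by
        rw [rmkC_key hp hζ D hlam (D.pi w.1) m hm hq]
        refine Finset.sum_congr rfl fun v _ => ?_
        beta_reduce
        congr 1
        rw [finsum_eq_single _ w.1]
        · rw [if_neg w.2.1, hone w.1 w.2, D.pi_self w.1 w.2.1, Int.cast_one, one_mul, one_mul]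
        · intro u hu
          by_cases huS : u ∈ D.S0
          · rw [if_pos huS]
          · rw [if_neg huS, D.pi_ne w.1 u w.2.1 huS hu, Int.cast_zero, mul_zero, zero_mul]) m hm)
  exact ⟨eta, fun v w hv hw => h ⟨v, hv⟩ ⟨w, hw⟩⟩

theorem rmkC_non (b : Kˣ) (hb : ¬ IsPow p b) (F : Finset (Pl K)) :
    ∃ v, D.Gd v ∧ v ∉ F ∧ ord v b = 0 ∧ D.LL v b ≠ 0 := by
  classical
  by_contra hno
  push Not at hno
  obtain ⟨C1, h1⟩ := pz_spl hp hζ hb
  obtain ⟨C2, h2⟩ := pz_all K
  obtain ⟨C3, h3⟩ := pz_deg K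
  have hfin : ((D.S0 : Set (Pl K)) ∪ (F : Set (Pl K)) ∪ {v : Pl K | ord v b ≠ 0}).Finite :=
    (D.S0.finite_toSet.union F.finite_toSet).union (finite_ord b)
  obtain ⟨C4, h4⟩ := pz_finite hfin
  have hcov : (Set.univ : Set (Pl K)) ⊆ {v : Pl K | ¬ Above p v ∧ Spl p ζ v b} ∪
      ({v : Pl K | ¬ (nm v).Prime} ∪
        ((D.S0 : Set (Pl K)) ∪ (F : Set (Pl K)) ∪ {v : Pl K | ord v b ≠ 0})) := by
    intro v _
    by_cases e1 : (nm v).Prime
    swap
    · exact Or.inr (Or.inl e1)
    by_cases e2 : v ∈ D.S0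
    · exact Or.inr (Or.inr (Or.inl (Or.inl e2)))
    by_cases e3 : v ∈ F
    · exact Or.inr (Or.inr (Or.inl (Or.inr e3)))
    by_cases e4 : ord v b = 0
    swap
    · exact Or.inr (Or.inr (Or.inr e4))
    refine Or.inl ⟨fun h => e2 (D.above v h), fun x => ?_⟩
    rw [B_eq hp hζ D e2, hno v ⟨e2, e1⟩ e3 e4, e4, zero_mul, Int.cast_zero, zero_mul, sub_zero]
  have hp2 : (2 : ℝ) ≤ p := by exact_mod_cast hp.two_le
  have hp0 : (0 : ℝ) < p := by linarith
  have hbound : ∀ s : ℝ, 1 < s → s ≤ 2 → Real.log (1 / (s - 1)) ≤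
      2 * (|C1| + C2 + C3 + C4) := by
    intro s hs1 hs2
    have a1 := (abs_le.1 (h1 s hs1 hs2)).2
    have a2 := (abs_le.1 (h2 s hs1 hs2)).1
    have a3 := h3 s hs1
    have a4 := h4 s hs1
    have b1 := pz_mono hcov hs1
    have b2 := pz_add {v : Pl K | ¬ Above p v ∧ Spl p ζ v b} ({v : Pl K | ¬ (nm v).Prime} ∪
        ((D.S0 : Set (Pl K)) ∪ (F : Set (Pl K)) ∪ {v : Pl K | ord v b ≠ 0})) hs1
    have b3 := pz_add {v : Pl K | ¬ (nm v).Prime}
        ((D.S0 : Set (Pl K)) ∪ (F : Set (Pl K)) ∪ {v : Pl K | ord v b ≠ 0}) hs1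
    have n1 := pz_nonneg ({v : Pl K | ¬ Above p v ∧ Spl p ζ v b} ∩ ({v : Pl K | ¬ (nm v).Prime} ∪
        ((D.S0 : Set (Pl K)) ∪ (F : Set (Pl K)) ∪ {v : Pl K | ord v b ≠ 0}))) s
    have n2 := pz_nonneg ({v : Pl K | ¬ (nm v).Prime} ∩
        ((D.S0 : Set (Pl K)) ∪ (F : Set (Pl K)) ∪ {v : Pl K | ord v b ≠ 0})) s
    set L := Real.log (1 / (s - 1))
    set P := PZ {v : Pl K | ¬ Above p v ∧ Spl p ζ v b} s
    have n3 : 0 ≤ P := pz_nonneg _ s
    have hLP : L ≤ P + C2 + C3 + C4 := by linarith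
    have hPP : 2 * P ≤ p * P := mul_le_mul_of_nonneg_right hp2 n3
    have := le_abs_self C1
    have := abs_nonneg C1
    linarith
  set D0 : ℝ := |2 * (|C1| + C2 + C3 + C4)| + 1 with hD0
  have hD0pos : 0 < D0 := by positivity
  have he1 : Real.exp (-D0) ≤ 1 := Real.exp_le_one_iff.2 (by linarith)
  have he0 : 0 < Real.exp (-D0) := Real.exp_pos _
  have hb1 := hbound (1 + Real.exp (-D0)) (by linarith) (by linarith)
  rw [add_sub_cancel_left, one_div, Real.log_inv, Real.log_exp, neg_neg] at hb1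
  have := le_abs_self (2 * (|C1| + C2 + C3 + C4))
  linarith

end rec

theorem exists_RD (K : Type) [Field K] [NumberField K] {p : ℕ} (hp : p.Prime) (hp2 : MOne p K) {ζ : K}
    (hζ : IsPrimitiveRoot ζ p) : Nonempty (RD K p ζ) := by
  classical
  obtain ⟨D, hM⟩ := exists_RD0 K hp hp2 hζ
  obtain ⟨lam, hlam, hone⟩ := exists_rec_one K hp hp2 hζ
  have hone' : ∀ v, D.Gd v → lam v = 1 := fun v hv =>
    hone v (fun h => hv.1 (D.above v h)) hv.2
  obtain ⟨eta, heta⟩ := rmkC_rec2 hp hζ D hlam hone'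
  exact ⟨{ D with
    ray_L := fun w hw => ray_LL hp hζ D hM hw
    lam := lam
    rec1 := fun b => rmkC_rec1 hp hζ D hlam hone' b
    eta := eta
    rec2 := fun v w hv hw _ => heta v w hv hw
    lam_one := hone'
    non := fun b hb F => rmkC_non hp hζ D b hb F }⟩

end H63.MA
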