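import Pool.Agent.H63.MA.GLowB
import Pool.Agent.H63.MA.GDisU
import Pool.Agent.H63.MA.RMkC

/-!
# MA-GFINL: lower bound for the number of fields

`fin_low`. Let `C₂` be the constant of `disc_up`, `X = (B / C₂)^{1 / indG G}`. For `B` large `lowb` gives a set `Rs` of at least `C X (log X)^{N-1}` surjective homomorphisms of finite type with
`relDisc K (fieldOf i₀ ρ) ≤ C₂ X^{indG G} = B`. `H38.ML.many_classes`: `#Rs ≤ #G^{#G} * H38.ML.nK G K B`, and `H38.ML.nK G K B ≤ Spec.nK K QBar G B` (this is `H38.ML.nK_le_spec` in `H38/ML/SpecBridge.lean`; copy its proof to this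
file instead of importing it: the import chain is too long). `X ≥ c B^{1/indG G}` and `log X ≥ c log B` for large `B`.
-/

set_option autoImplicit false

open scoped NumberField
open IsDedekindDomain H38.ML

noncomputable section

namespace H63.MA

theorem gfinl_spec {n : ℕ} (hn : 2 ≤ n) (G : Subgroup (Equiv.Perm (Fin n)))
    (K : IntermediateField ℚ QBar) [NumberField K] (B : ℝ) :
    nK G K B ≤ Spec.nK K QBar G B := by
  have key : ∀ c : {c : Quotient (isoSetoid K) // ∃ L : IntermediateField K QBar,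
      Quotient.mk (isoSetoid K) L = c ∧ IsSmall G K L ∧ (relDisc K L : ℝ) ≤ B},
      ∃ L : {L : IntermediateField K QBar // Spec.IsSmall K QBar G L ∧
        ∃ _ : NumberField L, (Spec.relDisc K L : ℝ) ≤ B}, Quotient.mk (isoSetoid K) L.1 = c.1 := by
    rintro ⟨c, L, hL, hs, hd⟩
    haveI : FiniteDimensional K L := by
      apply Module.finite_of_finrank_pos
      rw [hs.1]; omega
    haveI : NumberField L := NumberField.of_module_finite K L
    refine ⟨⟨L, hs, inferInstance, ?_⟩, hL⟩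
    rw [relDisc, dif_pos (show NumberField L from inferInstance)] at hd
    exact hd
  choose f hf using key
  apply ENat.card_le_card_of_injective (f := fun c => Quot.mk _ (f c))
  intro c c' h
  have h3 : ∀ x y : {L : IntermediateField K QBar // Spec.IsSmall K QBar G L ∧
        ∃ _ : NumberField L, (Spec.relDisc K L : ℝ) ≤ B},
      Relation.EqvGen (fun L L' => Nonempty (L.1 ≃ₐ[K] L'.1)) x y →
        Nonempty (x.1 ≃ₐ[K] y.1) := by
    intro x y hxy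
    induction hxy with
    | rel x y hxy => exact hxy
    | refl x => exact ⟨AlgEquiv.refl⟩
    | symm x y _ ih => exact ⟨(Classical.choice ih).symm⟩
    | trans x y z _ _ ih1 ih2 => exact ⟨(Classical.choice ih1).trans (Classical.choice ih2)⟩
  have h1 : Nonempty ((f c).1 ≃ₐ[K] (f c').1) := h3 _ _ (Quot.eqvGen_exact h)
  apply Subtype.ext
  rw [← hf c, ← hf c']
  exact Quotient.sound h1

/-- the choice of `X` -/
theorem gfinl_X (a : ℕ) (ha : 0 < a) (C₂ X₀ : ℝ) (hC₂ : 0 < C₂) (hX₀ : 0 ≤ X₀) (B : ℝ)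
    (hB1 : 1 ≤ B) (hB2 : C₂ * X₀ ^ a ≤ B) (hB3 : C₂ ^ 2 ≤ B) :
    ∃ X : ℝ, X₀ ≤ X ∧ C₂ * X ^ a = B ∧ X = B ^ (1 / (a : ℝ)) / C₂ ^ (1 / (a : ℝ)) ∧
      1 / (2 * (a : ℝ)) * Real.log B ≤ Real.log X := by
  have hB0 : 0 < B := by linarith
  have ha0 : (0 : ℝ) < a := by exact_mod_cast ha
  have hq : 0 < B / C₂ := by positivity
  refine ⟨(B / C₂) ^ (1 / (a : ℝ)), ?_, ?_, ?_, ?_⟩
  · have h1 : ((B / C₂) ^ (1 / (a : ℝ))) ^ a = B / C₂ := by
      rw [← Real.rpow_natCast, ← Real.rpow_mul hq.le, one_div_mul_cancel ha0.ne', Real.rpow_one]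
    by_contra hcon
    push Not at hcon
    have h2 : ((B / C₂) ^ (1 / (a : ℝ))) ^ a < X₀ ^ a :=
      pow_lt_pow_left₀ hcon (Real.rpow_nonneg hq.le _) ha.ne'
    rw [h1, div_lt_iff₀ hC₂] at h2
    linarith
  · rw [← Real.rpow_natCast, ← Real.rpow_mul hq.le, one_div_mul_cancel ha0.ne', Real.rpow_one]
    field_simp
  · exact Real.div_rpow hB0.le hC₂.le _
  · rw [Real.log_rpow hq, Real.log_div hB0.ne' hC₂.ne']
    have h1 : 2 * Real.log C₂ ≤ Real.log B := by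
      have := Real.log_le_log (by positivity) hB3
      rwa [Real.log_pow, Nat.cast_ofNat] at this
    have h2 : 1 / (2 * (a : ℝ)) * Real.log B = 1 / (a : ℝ) * (Real.log B / 2) := by
      field_simp
    rw [h2]
    exact mul_le_mul_of_nonneg_left (by linarith) (by positivity)

theorem fin_low {n : ℕ} (hn : 2 ≤ n) (G : Subgroup (Equiv.Perm (Fin n)))
    (hG : MulAction.IsPretransitive G (Fin n)) (hcard : Nat.card G = n) {p : ℕ} (hp : p.Prime)
    (hp2 : p ≠ 2) (hE : Ep p G) (K : IntermediateField ℚ QBar) [NumberField K] {ζ : K}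
    (hζ : IsPrimitiveRoot ζ p) (D : RD K p ζ) (L : LDs D.toRD0 QBar) {m N : ℕ}
    (Dg : GD p m N G) (hN : 1 ≤ N) :
    ∃ c B₀ : ℝ, 0 < c ∧ ∀ B : ℝ, B₀ ≤ B → ∀ k : ℕ, Spec.nK K QBar G B = (k : ℕ∞) →
      c * B ^ (1 / (H38.ML.indG G : ℝ)) * Real.log B ^ (N - 1) ≤ (k : ℝ) := by
  obtain ⟨hind, hpos, -⟩ := ind_reg hn G hG hcard hp hE.exp
  obtain ⟨a, ha⟩ : ∃ a : ℕ, a = H38.ML.indG G := ⟨_, rfl⟩
  have ha0 : 0 < a := by rw [ha, hind]; exact hpos
  have ha0' : (0 : ℝ) < a := by exact_mod_cast ha0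
  obtain ⟨C₂, hC₂, hdisc⟩ := disc_up hn G hG hcard hp hE K hζ D.toRD0 L (⟨0, by omega⟩ : Fin n)
  obtain ⟨C, X₀, hC, hX₀, hlow⟩ := lowb hp (mone_odd hp hp2 K) hζ D L hE Dg hN
  obtain ⟨M, hM⟩ : ∃ M : ℕ, M = Nat.card G ^ Nat.card G := ⟨_, rfl⟩
  have hM0 : 0 < M := by
    rw [hM]
    exact pow_pos (by rw [hcard]; omega) _
  have hM0' : (0 : ℝ) < M := by exact_mod_cast hM0
  have hCa : 0 < C₂ ^ (1 / (a : ℝ)) := Real.rpow_pos_of_pos hC₂ _
  refine ⟨C / C₂ ^ (1 / (a : ℝ)) * (1 / (2 * (a : ℝ))) ^ (N - 1) / M,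
    max 1 (max (C₂ * X₀ ^ a) (C₂ ^ 2)), by positivity, fun B hB k hk => ?_⟩
  have hB1 : 1 ≤ B := (le_max_left _ _).trans hB
  have hB2 : C₂ * X₀ ^ a ≤ B := (le_max_left _ _).trans ((le_max_right _ _).trans hB)
  have hB3 : C₂ ^ 2 ≤ B := (le_max_right _ _).trans ((le_max_right _ _).trans hB)
  obtain ⟨X, hX1, hX2, hX3, hX4⟩ := gfinl_X a ha0 C₂ X₀ hC₂ (by linarith) B hB1 hB2 hB3
  obtain ⟨Rs, hRs, hφ⟩ := hlow X hX1
  have h1 : ∀ ρ ∈ Rs, Function.Surjective ρ ∧ FT ρ ∧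
      (relDisc K (fieldOf (⟨0, by omega⟩ : Fin n) ρ) : ℝ) ≤ B := by
    intro ρ hρ
    obtain ⟨hft, hsurj, T, hT1, hT2, hT3⟩ := hφ ρ hρ
    refine ⟨hsurj, hft, (hdisc ρ hsurj hft T hT1 hT3).trans ?_⟩
    rw [← ha, ← hX2]
    apply mul_le_mul_of_nonneg_left _ hC₂.le
    exact pow_le_pow_left₀ (Finset.prod_nonneg fun v _ => Nat.cast_nonneg _) hT2 a
  have h2 := many_classes G hG K (⟨0, by omega⟩ : Fin n) B Rs h1
  have h3 : ((Rs.card : ℕ) : ℕ∞) ≤ ((M * k : ℕ) : ℕ∞) := by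
    refine h2.trans ?_
    rw [Nat.cast_mul, ← hM]
    have h4 := gfinl_spec hn G K B
    rw [hk] at h4
    exact mul_le_mul_right h4 _
  have h5 : Rs.card ≤ M * k := by exact_mod_cast h3
  have h6 : (Rs.card : ℝ) ≤ M * k := by exact_mod_cast h5
  have h7 : C * X * Real.log X ^ (N - 1) ≤ M * k := hRs.trans h6
  have hlB : 0 ≤ Real.log B := Real.log_nonneg hB1
  have h8 : (1 / (2 * (a : ℝ)) * Real.log B) ^ (N - 1) ≤ Real.log X ^ (N - 1) :=
    pow_le_pow_left₀ (by positivity) hX4 _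
  have hXp : 0 < X := by linarith
  have h9 : C * X * (1 / (2 * (a : ℝ)) * Real.log B) ^ (N - 1) ≤ M * k :=
    (mul_le_mul_of_nonneg_left h8 (by positivity)).trans h7
  rw [← ha]
  have h10 : C / C₂ ^ (1 / (a : ℝ)) * (1 / (2 * (a : ℝ))) ^ (N - 1) / M * B ^ (1 / (a : ℝ)) *
      Real.log B ^ (N - 1) = C * X * (1 / (2 * (a : ℝ)) * Real.log B) ^ (N - 1) / M := by
    rw [hX3, mul_pow]
    field_simp
  rw [h10, div_le_iff₀ hM0']
  linarith

end H63.MA
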