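import Pool.Agent.H63.MA.GSep

/-!
# MA-GGD: coordinates of a group of exponent `p` and class at most two

`exists_GD`: for `G` finite with `Ep p G` there are `m, N` and `D : GD p m N G`, and `N + 1` is the number of conjugacy classes of `G`.
Proof. `V = Abelianization G` is commutative of exponent `p`, finite, so `V ≃ Multiplicative (Fin m → ZMod p)`; `π` is the composition, its kernel is the commutator
subgroup, which is central (`Ep.cls`). `g`: representatives of the conjugacy classes `≠ 1`. `Θ i` is the annihilator of `π(C(g i))` (a submodule by its definition). `ann`: `C(g i)` contains the kernel of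
`π`, and `π(C(g i))` is a subspace, equal to its double annihilator (`Subspace.dualAnnihilator_dualCoannihilator_eq` or a direct argument with the standard scalar product), so if `π h` is annihilated by
`Θ i` then `π h ∈ π(C(g i))`, `h ∈ C(g i) · ker π = C(g i)`. `card`: `#Θ i = p^m / #π(C(g i))` (dimension of the annihilator) `= #G / #C(g i)` = size of the conjugacy class.
-/

set_option autoImplicit false

open scoped NumberField
open IsDedekindDomain

noncomputable section

namespace H63.MA

theorem ggd_ab0 {p : ℕ} [Fact p.Prime] (A : Type) [AddCommGroup A] [Finite A]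
    [Module (ZMod p) A] : ∃ m : ℕ, Nonempty (A ≃+ (Fin m → ZMod p)) :=
  ⟨_, ⟨(Module.finBasis (ZMod p) A).equivFun.toAddEquiv⟩⟩

/-- a finite commutative group of exponent `p` -/
theorem ggd_ab {p : ℕ} [Fact p.Prime] (A : Type) [AddCommGroup A] [Finite A]
    (hA : ∀ a : A, p • a = 0) : ∃ m : ℕ, Nonempty (A ≃+ (Fin m → ZMod p)) := by
  letI := AddCommGroup.zmodModule hA
  exact ggd_ab0 A

/-- the projection -/
theorem ggd_pi {p : ℕ} (hp : p.Prime) (G : Type) [Group G] [Finite G] (hG : Ep p G) :
    ∃ (m : ℕ) (π : G →* Multiplicative (Fin m → ZMod p)), Function.Surjective π ∧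
      π.ker = commutator G := by
  haveI := Fact.mk hp
  have hexp : ∀ a : Abelianization G, a ^ p = 1 := by
    intro a
    obtain ⟨z, rfl⟩ := QuotientGroup.mk_surjective a
    have : (Abelianization.of z) ^ p = 1 := by rw [← map_pow, hG.exp z, map_one]
    exact this
  haveI : Finite (Additive (Abelianization G)) := inferInstanceAs (Finite (Abelianization G))
  obtain ⟨m, ⟨e⟩⟩ := ggd_ab (p := p) (Additive (Abelianization G)) (by
      intro x
      exact hexp (Additive.toMul x))
  let E : Abelianization G ≃* Multiplicative (Fin m → ZMod p) :=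
    MulEquiv.mk ⟨fun x => Multiplicative.ofAdd (e (Additive.ofMul x)),
      fun y => Additive.toMul (e.symm (Multiplicative.toAdd y)), fun x => by simp, fun y => by simp⟩
      (fun x y => by
        show Multiplicative.ofAdd (e (Additive.ofMul x + Additive.ofMul y)) = _
        rw [map_add]
        rfl)
  refine ⟨m, E.toMonoidHom.comp (Abelianization.of (G := G)), ?_, ?_⟩
  · intro y
    obtain ⟨z, hz⟩ := QuotientGroup.mk_surjective (E.symm y)
    refine ⟨z, ?_⟩
    show E (Abelianization.of z) = y
    have : Abelianization.of z = E.symm y := hz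
    rw [this]
    exact E.apply_symm_apply y
  · ext z
    rw [MonoidHom.mem_ker]
    constructor
    · intro h
      have h1 : E (Abelianization.of z) = 1 := h
      have h2 : Abelianization.of z = 1 := by
        rw [← E.map_one] at h1
        exact E.injective h1
      exact (QuotientGroup.eq_one_iff z).1 h2
    · intro h
      show E (Abelianization.of z) = 1
      have h2 : Abelianization.of z = 1 := (QuotientGroup.eq_one_iff z).2 h
      rw [h2, map_one]

/-- the annihilator for the standard scalar product -/
def ggdAnn {p m : ℕ} (W : Submodule (ZMod p) (Fin m → ZMod p)) :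
    Submodule (ZMod p) (Fin m → ZMod p) where
  carrier := {θ | ∀ w ∈ W, ∑ k, θ k * w k = 0}
  zero_mem' := by intro w _; simp
  add_mem' := by
    intro a b ha hb w hw
    simp only [Pi.add_apply, add_mul, Finset.sum_add_distrib, ha w hw, hb w hw, add_zero]
  smul_mem' := by
    intro c a ha w hw
    simp only [Pi.smul_apply, smul_eq_mul, mul_assoc, ← Finset.mul_sum, ha w hw, mul_zero]


theorem ggdAnn_mem {p m : ℕ} (W : Submodule (ZMod p) (Fin m → ZMod p)) (θ : Fin m → ZMod p) :
    θ ∈ ggdAnn W ↔ ∀ w ∈ W, ∑ k, θ k * w k = 0 := Iff.rfl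

theorem ggd_dual {p m : ℕ} [Fact p.Prime] (φ : Module.Dual (ZMod p) (Fin m → ZMod p))
    (w : Fin m → ZMod p) : φ w = ∑ k, φ (Pi.single k 1) * w k := by
  conv_lhs => rw [← Finset.univ_sum_single w]
  rw [map_sum]
  refine Finset.sum_congr rfl fun k _ => ?_
  have : (Pi.single k (w k) : Fin m → ZMod p) = w k • Pi.single k 1 := by
    rw [← Pi.single_smul, smul_eq_mul, mul_one]
  rw [this, map_smul, smul_eq_mul, mul_comm]

theorem ggdAnn_ann {p m : ℕ} [Fact p.Prime] (W : Submodule (ZMod p) (Fin m → ZMod p))
    (w : Fin m → ZMod p) (h : ∀ θ ∈ ggdAnn W, ∑ k, θ k * w k = 0) : w ∈ W := by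
  rw [← Subspace.forall_mem_dualAnnihilator_apply_eq_zero_iff]
  intro φ hφ
  rw [ggd_dual]
  refine h (fun k => φ (Pi.single k 1)) ?_
  intro v hv
  rw [← ggd_dual]
  exact (Submodule.mem_dualAnnihilator φ).1 hφ v hv

/-- the annihilator and the dual annihilator -/
def ggdEq {p m : ℕ} [Fact p.Prime] (W : Submodule (ZMod p) (Fin m → ZMod p)) :
    ggdAnn W ≃ W.dualAnnihilator where
  toFun θ := ⟨{ toFun := fun w => ∑ k, θ.1 k * w k
                map_add' := fun x y => by simp [mul_add, Finset.sum_add_distrib]
                map_smul' := fun c x => by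
                  simp only [Pi.smul_apply, smul_eq_mul, RingHom.id_apply, Finset.mul_sum]
                  exact Finset.sum_congr rfl fun k _ => by ring }, by
    rw [Submodule.mem_dualAnnihilator]
    intro w hw
    exact θ.2 w hw⟩
  invFun φ := ⟨fun k => φ.1 (Pi.single k 1), by
    intro w hw
    rw [← ggd_dual]
    exact (Submodule.mem_dualAnnihilator φ.1).1 φ.2 w hw⟩
  left_inv θ := by
    apply Subtype.ext
    funext k
    show ∑ j, θ.1 j * (Pi.single k 1 : Fin m → ZMod p) j = θ.1 k
    rw [Finset.sum_eq_single k]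
    · simp
    · intro j _ hj
      rw [Pi.single_eq_of_ne hj, mul_zero]
    · simp
  right_inv φ := by
    apply Subtype.ext
    apply LinearMap.ext
    intro w
    exact (ggd_dual φ.1 w).symm

theorem ggdAnn_card {p m : ℕ} [Fact p.Prime] (W : Submodule (ZMod p) (Fin m → ZMod p)) :
    Nat.card (ggdAnn W) * Nat.card W = p ^ m := by
  rw [Nat.card_congr (ggdEq W), Module.natCard_eq_pow_finrank (K := ZMod p),
    Module.natCard_eq_pow_finrank (K := ZMod p) (V := W), ← pow_add, Nat.card_zmod, add_comm,
    Subspace.finrank_add_finrank_dualAnnihilator_eq, Module.finrank_fin_fun]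

/-- the image of the centralizer -/
def ggdW {p m : ℕ} [Fact p.Prime] {G : Type} [Group G] (π : G →* Multiplicative (Fin m → ZMod p))
    (g : G) : Submodule (ZMod p) (Fin m → ZMod p) where
  carrier := {w | ∃ h, h * g = g * h ∧ Multiplicative.toAdd (π h) = w}
  zero_mem' := ⟨1, by simp, by simp⟩
  add_mem' := by
    rintro a b ⟨h, hh, rfl⟩ ⟨k, hk, rfl⟩
    refine ⟨h * k, ?_, by rw [map_mul, toAdd_mul]⟩
    rw [mul_assoc, hk, ← mul_assoc, hh, mul_assoc]
  smul_mem' := by
    rintro c a ⟨h, hh, rfl⟩
    refine ⟨h ^ c.val, ?_, ?_⟩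
    · exact ((show Commute h g from hh).pow_left c.val).eq
    · rw [map_pow, toAdd_pow]
      conv_rhs => rw [← ZMod.natCast_zmod_val c]
      rw [Nat.cast_smul_eq_nsmul]

theorem ggdW_card {p m : ℕ} [Fact p.Prime] {G : Type} [Group G] [Finite G]
    (π : G →* Multiplicative (Fin m → ZMod p)) (g : G)
    (hc : ∀ z, π z = 1 → ∀ h, z * h = h * z) :
    Nat.card (ggdW π g) * Nat.card π.ker = Nat.card (Subgroup.centralizer {g}) := by
  have h1 : π.ker.relIndex (Subgroup.centralizer {g}) =
      Nat.card ((Subgroup.centralizer {g}).map π) := Subgroup.relIndex_ker _ _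
  have h2 : Nat.card ((Subgroup.centralizer {g}).map π) = Nat.card (ggdW π g) := by
    refine Nat.card_congr ⟨fun x => ⟨Multiplicative.toAdd x.1, ?_⟩,
      fun y => ⟨Multiplicative.ofAdd y.1, ?_⟩, fun x => rfl, fun y => rfl⟩
    · obtain ⟨h, hh, e⟩ := x.2
      exact ⟨h, (Subgroup.mem_centralizer_singleton_iff.1 hh), by rw [e]⟩
    · obtain ⟨h, hh, e⟩ := y.2
      exact ⟨h, Subgroup.mem_centralizer_singleton_iff.2 hh, by rw [← e]; rfl⟩
  have h3 : π.ker ≤ Subgroup.centralizer {g} := by
    intro z hz
    exact Subgroup.mem_centralizer_singleton_iff.2 (hc z hz g)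
  rw [← h2, ← h1]
  have h4 := Subgroup.relIndex_mul_index h3
  have h5 := Subgroup.card_mul_index π.ker
  have h6 := Subgroup.card_mul_index (Subgroup.centralizer {g})
  have h7 : (Subgroup.centralizer {g}).index ≠ 0 := Subgroup.index_ne_zero_of_finite
  have : (π.ker.relIndex (Subgroup.centralizer {g}) * Nat.card π.ker) *
      (Subgroup.centralizer {g}).index = Nat.card (Subgroup.centralizer {g}) *
      (Subgroup.centralizer {g}).index := by
    rw [h6, ← h5, ← h4]; ring
  exact Nat.eq_of_mul_eq_mul_right (Nat.pos_of_ne_zero h7) this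

theorem ggd_class {G : Type} [Group G] [Finite G] (g : G) :
    Nat.card {h : G // IsConj h g} * Nat.card (Subgroup.centralizer {g}) = Nat.card G := by
  have h1 := MulAction.index_stabilizer (ConjAct G) g
  have h2 := Subgroup.nat_card_centralizer_nat_card_stabilizer g
  have h3 := Subgroup.card_mul_index (MulAction.stabilizer (ConjAct G) g)
  have h4 : (MulAction.orbit (ConjAct G) g).ncard = Nat.card {h : G // IsConj h g} := by
    rw [← Nat.card_coe_set_eq]
    refine Nat.card_congr (Equiv.subtypeEquivRight fun x => ?_)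
    exact ConjAct.mem_orbit_conjAct
  rw [h2, ← h4, ← h1, mul_comm, h3]
  rfl

theorem exists_GD {p : ℕ} (hp : p.Prime) (G : Type) [Group G] [Finite G] (hG : Ep p G) :
    ∃ m N : ℕ, Nonempty (GD p m N G) ∧ N + 1 = Nat.card (ConjClasses G) := by
  haveI := Fact.mk hp
  obtain ⟨m, π, hs, hk⟩ := ggd_pi hp G hG
  have hcen : ∀ z, π z = 1 → ∀ h, z * h = h * z := by
    intro z hz
    have hz' : z ∈ commutator G := by rw [← hk]; exact hz
    have hle : commutator G ≤ Subgroup.center G := by
      rw [commutator_def, Subgroup.commutator_le]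
      intro a _ b _
      rw [Subgroup.mem_center_iff]
      intro k
      rw [commutatorElement_def]
      exact hG.cls a b k
    intro h
    exact ((Subgroup.mem_center_iff.1 (hle hz')) h).symm
  let X := {c : ConjClasses G // c ≠ ConjClasses.mk 1}
  haveI : Finite X := inferInstance
  let e : Fin (Nat.card X) ≃ X := (Finite.equivFin X).symm
  let g : Fin (Nat.card X) → G := fun i => Quotient.out (e i).1
  have hg : ∀ i, ConjClasses.mk (g i) = (e i).1 := fun i => Quotient.out_eq _
  refine ⟨m, Nat.card X, ⟨
    { π := π, sur := hs, cen := hcen, com := fun z hz => by rw [← hk]; exact hz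
      g := g
      ne := ?_, cls := ?_, uni := ?_
      Θ := fun i => ggdAnn (ggdW π (g i))
      mem := ?_, card := ?_, ann := ?_ }⟩, ?_⟩
  · intro i h
    apply (e i).2
    rw [← hg i, h]
  · intro h hh
    have hne : ConjClasses.mk h ≠ ConjClasses.mk 1 := by
      intro h0
      rw [ConjClasses.mk_eq_mk_iff_isConj] at h0
      exact hh (isConj_one_left.1 h0)
    refine ⟨e.symm ⟨_, hne⟩, ?_⟩
    rw [← ConjClasses.mk_eq_mk_iff_isConj, hg, Equiv.apply_symm_apply]
  · intro i j h
    rw [← ConjClasses.mk_eq_mk_iff_isConj, hg, hg] at h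
    exact e.injective (Subtype.ext h)
  · intro i θ
    constructor
    · intro h x hx
      exact h _ ⟨x, hx, rfl⟩
    · rintro h w ⟨x, hx, rfl⟩
      exact h x hx
  · intro i
    have h1 := ggdAnn_card (ggdW π (g i))
    have h2 := ggdW_card π (g i) hcen
    have h3 := ggd_class (g i)
    have h4 : Nat.card π.ker * p ^ m = Nat.card G := by
      have := Subgroup.card_mul_index π.ker
      rw [Subgroup.index_ker, MonoidHom.range_eq_top.2 hs] at this
      rw [← this]
      congr 1
      rw [Nat.card_congr (Subgroup.topEquiv.toEquiv)]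
      rw [show Nat.card (Multiplicative (Fin m → ZMod p)) = Nat.card (Fin m → ZMod p) from rfl]
      simp [Nat.card_eq_fintype_card, ZMod.card]
    have h5 : 0 < Nat.card (Subgroup.centralizer {g i}) := Nat.card_pos
    refine Nat.eq_of_mul_eq_mul_right h5 ?_
    rw [h3, ← h4, ← h1, ← h2]
    ring
  · intro i h hh
    obtain ⟨x, hx, e1⟩ := ggdAnn_ann _ _ hh
    have e2 : π (x⁻¹ * h) = 1 := by
      rw [map_mul, map_inv, show π x = π h from e1, inv_mul_cancel]
    have e3 := hcen _ e2 (g i)
    have e4 : h = x * (x⁻¹ * h) := by group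
    rw [e4, mul_assoc, e3, ← mul_assoc, hx, mul_assoc]
  · have : Nat.card (ConjClasses G) = Nat.card (Option X) := by
      classical
      refine Nat.card_congr ⟨fun c => if h : c = ConjClasses.mk 1 then none else some ⟨c, h⟩,
        fun o => o.elim (ConjClasses.mk 1) (fun x => x.1), ?_, ?_⟩
      · intro c
        by_cases h : c = ConjClasses.mk 1
        · simp [h]
        · simp [h]
      · intro o
        cases o with
        | none => simp
        | some x => simp [x.2]
    rw [this, Finite.card_option]

end H63.MA
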