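import Pool.Agent.H63.MA.GFinU
import Pool.Agent.H63.MA.GFinL
import Pool.Agent.H63.MA.GGd

/-!
# MA-GMAIN: the exact order of growth
-/

set_option autoImplicit false

open scoped NumberField
open IsDedekindDomain H38.ML

noncomputable section

namespace H63.MA

theorem ma_main {n : ℕ} (hn : 2 ≤ n) (G : Subgroup (Equiv.Perm (Fin n)))
    (hG : MulAction.IsPretransitive G (Fin n)) (hcard : Nat.card G = n) {p : ℕ} (hp : p.Prime)
    (hp2 : p ≠ 2) (hE : Ep p G) (K : IntermediateField ℚ QBar) [NumberField K] (ζ : K)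
    (hζ : IsPrimitiveRoot ζ p) :
    ∃ c C B₀ : ℝ, 0 < c ∧ 0 < C ∧ ∀ B : ℝ, B₀ ≤ B → ∃ k : ℕ,
      Spec.nK K QBar G B = (k : ℕ∞) ∧
      c * B ^ (1 / (Spec.indG G : ℝ)) * Real.log B ^ (Spec.betaAll K QBar G - 1) ≤ (k : ℝ) ∧
      (k : ℝ) ≤ C * B ^ (1 / (Spec.indG G : ℝ)) * Real.log B ^ (Spec.betaAll K QBar G - 1) := by
  obtain ⟨m, N, ⟨Dg⟩, hN⟩ := exists_GD hp G hE
  obtain ⟨D⟩ : Nonempty (RD K p ζ) := exists_RD K hp (mone_odd hp hp2 K) hζ
  obtain ⟨L⟩ := exists_LDs QBar hp hζ D.toRD0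
  have hβ := beta_reg hn G hG hcard hp hE.exp K ζ hζ
  have hβN : Spec.betaAll K QBar G = N := by omega
  have hN1 : 1 ≤ N := by
    have h1 : Nontrivial G := by
      rw [← Finite.one_lt_card_iff_nontrivial, hcard]
      omega
    obtain ⟨g, hg⟩ := exists_ne (1 : G)
    obtain ⟨i, -⟩ := Dg.cls g hg
    have := i.2
    omega
  obtain ⟨C, B₁, hC, hup⟩ := fin_up hn G hG hcard hp hp2 hE K hζ D L Dg
  obtain ⟨c, B₂, hc, hlow⟩ := fin_low hn G hG hcard hp hp2 hE K hζ D L Dg hN1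
  refine ⟨c, C, max B₁ B₂, hc, hC, fun B hB => ?_⟩
  obtain ⟨k, hk, hk2⟩ := hup B ((le_max_left _ _).trans hB)
  refine ⟨k, hk, ?_, ?_⟩
  · rw [hβN]
    exact hlow B ((le_max_right _ _).trans hB) k hk
  · rw [hβN]
    exact hk2

end H63.MA
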