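import Pool.Agent.H63.MA.GDef

/-!
# MA-GSEP: characters separate points (finite group theory)

* `sep_ab`: `A` a commutative group with `a ^ p = 1` for all `a` is a `ZMod p`-module (`AddCommGroup.zmodModule` on `Additive A`), and the linear forms
  separate points (`Module.forall_dual_apply_eq_zero_iff`).
* `sep_com`: apply `sep_ab` to `Abelianization G`.
* `gen_top`: if `H ≤ G` maps onto the quotient by a central subgroup which lies in the commutator subgroup then `H = G`: every `g` is `h z`, `h ∈ H`, `z`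
  in the kernel of `π` (central), so all commutators of `G` are commutators of elements of `H`; so `H` contains the commutator subgroup, hence the
  kernel, hence all `g`.
* `ft_lev`: homomorphisms of finite type are of finite level; `lev_ft` conversely.
-/

set_option autoImplicit false

open scoped NumberField commutatorElement
open IsDedekindDomain

noncomputable section

namespace H63.MA

private theorem gsep_aux0 {p : ℕ} (hp : p.Prime) (V : Type) [AddCommGroup V] [Module (ZMod p) V] (v : V)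
    (h : ∀ f : V →+ ZMod p, f v = 0) : v = 0 := by
  have : Fact p.Prime := ⟨hp⟩
  have key := Module.forall_dual_apply_eq_zero_iff (ZMod p) v
  refine key.1 fun f => ?_
  exact h f.toAddMonoidHom

private theorem gsep_aux {p : ℕ} (hp : p.Prime) (V : Type) [AddCommGroup V]
    (hV : ∀ v : V, p • v = 0) (v : V) (h : ∀ f : V →+ ZMod p, f v = 0) : v = 0 :=
  @gsep_aux0 p hp V _ (AddCommGroup.zmodModule hV) v h

theorem sep_ab {p : ℕ} (hp : p.Prime) (A : Type) [CommGroup A] (hA : ∀ a : A, a ^ p = 1) (a : A)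
    (h : ∀ χ : A →* Multiplicative (ZMod p), χ a = 1) : a = 1 := by
  have h1 := gsep_aux hp (Additive A) (fun x => by
    rw [← ofMul_toMul x, ← ofMul_pow, hA, ofMul_one]) (Additive.ofMul a) fun f => by
      let χ : A →* Multiplicative (ZMod p) :=
        { toFun := fun x => Multiplicative.ofAdd (f (Additive.ofMul x))
          map_one' := by rw [ofMul_one, map_zero, ofAdd_zero]
          map_mul' := fun x y => by rw [ofMul_mul, map_add, ofAdd_add] }
      exact h χ
  exact h1

theorem sep_com {p : ℕ} (hp : p.Prime) (G : Type) [Group G] (hG : ∀ g : G, g ^ p = 1) (g : G)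
    (h : ∀ χ : G →* Multiplicative (ZMod p), χ g = 1) : g ∈ commutator G := by
  rw [← Abelianization.ker_of, MonoidHom.mem_ker]
  refine sep_ab hp (Abelianization G) (fun a => ?_) _ fun χ => ?_
  · obtain ⟨x, rfl⟩ := QuotientGroup.mk_surjective a
    have : (Abelianization.of (x ^ p) : Abelianization G) = 1 := by rw [hG, map_one]
    rw [map_pow] at this
    exact this
  · exact h (χ.comp Abelianization.of)

theorem gen_top {p m N : ℕ} {G : Type} [Group G] (D : GD p m N G) (H : Subgroup G)
    (h : ∀ y, ∃ g ∈ H, D.π g = y) : H = ⊤ := by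
  have h1 : ∀ g : G, ∃ x ∈ H, ∃ z : G, g = x * z ∧ D.π z = 1 := by
    intro g
    obtain ⟨x, hx, hxg⟩ := h (D.π g)
    refine ⟨x, hx, x⁻¹ * g, by group, ?_⟩
    rw [map_mul, map_inv, hxg, inv_mul_cancel]
  have h2 : commutator G ≤ H := by
    rw [commutator_def, Subgroup.commutator_le]
    intro g₁ _ g₂ _
    obtain ⟨x, hx, z, rfl, hz⟩ := h1 g₁
    obtain ⟨y, hy, w, rfl, hw⟩ := h1 g₂
    have cz := D.cen z hz
    have cw := D.cen w hw
    have h3 : ⁅x * z, y * w⁆ = ⁅x, y⁆ := by
      rw [commutatorElement_def, commutatorElement_def]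
      have e1 : x * z * (y * w) = x * y * (z * w) := by
        rw [mul_assoc, ← mul_assoc z y w, cz y, mul_assoc y z w, ← mul_assoc]
      have e2 : (x * z)⁻¹ = z⁻¹ * x⁻¹ := mul_inv_rev _ _
      have e3 : (y * w)⁻¹ = y⁻¹ * w⁻¹ := by rw [← cw y, mul_inv_rev]
      have e4 : x * y * (z * w) * (z⁻¹ * x⁻¹) * (y⁻¹ * w⁻¹) =
          x * y * (z * w * z⁻¹) * x⁻¹ * y⁻¹ * w⁻¹ := by group
      rw [e1, e2, e3, e4, cz w, mul_inv_cancel_right]
      have e5 : x * y * w * x⁻¹ * y⁻¹ * w⁻¹ = x * y * (w * (x⁻¹ * y⁻¹)) * w⁻¹ := by group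
      rw [e5, cw (x⁻¹ * y⁻¹)]
      group
    rw [h3, commutatorElement_def]
    exact H.mul_mem (H.mul_mem (H.mul_mem hx hy) (H.inv_mem hx)) (H.inv_mem hy)
  rw [eq_top_iff]
  intro g _
  obtain ⟨x, hx, z, rfl, hz⟩ := h1 g
  exact H.mul_mem hx (h2 (D.com z hz))

theorem ft_lev {K Ω : Type} [Field K] [Field Ω] [Algebra K Ω] {H : Type} [Group H]
    (φ : Gal(Ω/K) →* H) (h : H38.ML.FT φ) : Lev φ := by
  obtain ⟨E, hE, hk⟩ := h
  refine ⟨E, hE, fun σ u hu => ?_⟩
  have := hk hu
  rw [MonoidHom.mem_ker] at this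
  rw [map_mul, this, mul_one]

theorem lev_ft {K Ω : Type} [Field K] [Field Ω] [Algebra K Ω] {H : Type} [Group H]
    (φ : Gal(Ω/K) →* H) (h : Lev φ) : H38.ML.FT φ := by
  obtain ⟨E, hE, hk⟩ := h
  refine ⟨E, hE, fun u hu => ?_⟩
  rw [MonoidHom.mem_ker]
  have := hk 1 u hu
  rw [one_mul, map_one] at this
  exact this

end H63.MA
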