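import Pool.Agent.H63.MA.GLoc
import Pool.Agent.H63.MA.GKus
import Pool.Agent.H63.MA.GSep
import Pool.Agent.H38.ML.LayerInert
import Pool.Agent.H38.TD.Tame

/-!
# MA-GTAME: tame inertia in extensions of exponent `p` and class two

`L : LD p ζ Ω v π`, `v ∤ p`, `ord v π = 1`, `φ : Γ → G` of finite type, `Ep p G`, `G` finite.
`ld_tame`: if `τ` is in the inertia group of `P` and `τ w = w` then `φ τ = 1`.

Proof. Let `ρ = (kc π, of ∘ φ) : Γ → Multiplicative (ZMod p) × Abelianization G`, of finite type. `H38.ML.factor` gives `M/K` finite Galois with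
`e (res M σ) = ρ σ`, `e` injective; `w ∈ M` (it is fixed by `M.fixingSubgroup`, the kernel of `res M`). (1) If `τ` is in the inertia group and `τ w = w` then
`res M τ = 1`: `kk π τ = 0`; for every character `χ : G → ZMod p`, `χ ∘ φ = kc a` for some `a` (`kc_all`) and `kk a τ = ord v a * kk π τ = 0` (`ld_kk`);
so `φ τ` is killed by all characters, `φ τ ∈ commutator G` (`sep_com`), `of (φ τ) = 1`, `ρ τ = 1`. (2) Let `t = L.t`; `t^p w = w`, so `res M (t^p) = 1`.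
Let `Q` be the prime of `M` below `P`. `H38.TD.tame` (with `q = p`) for `t^p` and for `τ`: there are `t₀, t₁ ∈ ℤ` with
`t^p B = ζ^{t₀ od Q α} B`, `τ B = ζ^{t₁ od Q α} B` for all `α ∈ Mˣ`, `B^p = α`. (3) `t₀ * od Q w ≡ 1 mod p`: let `y^p = w`, `ξ = t y / y`; `ξ^p = t w / w = ζ`;
`t ξ = ζ^j ξ` for some `j` (both have the same `p`-th power `ζ`), `ξ` is a root of unity, an element of `𝓞 Ω` outside `P`, so `p ∣ j` by
`H38.ML.pow_eq_one_of_inertia` and `t ξ = ξ`; so `t^p y = ξ^p y = ζ y`, and `α = w` gives the claim. (4) Choose `j` with `t₁ ≡ j t₀ mod p` and put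
`τ₁ = τ (t^p)^{-j}`: it is in the inertia group, `res M τ₁ = 1`, and `τ₁ B = B` for all `B` with `B^p ∈ Mˣ`. (5) Let `U = M.fixingSubgroup`; for `u ∈ U`,
`of (φ u) = 1`, so `φ u ∈ commutator G`, which is central (`Ep.cls`, closure) and so commutative of exponent `p`. For every character
`χ` of `commutator G`, `kum_sub` gives `B ≠ 0` with `u B = ζ^{χ (φ u)} B` for `u ∈ U`; `B^p` is fixed by `U`, so it is in `M` (Galois theory: `M` is finite
over `K`, `IntermediateField.fixedField (fixingSubgroup M) = M` for the infinite Galois extension `Ω/K`: `InfiniteGalois`). So `τ₁ B = B`, `χ (φ τ₁) = 1`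
for all `χ`, `φ τ₁ = 1` (`sep_ab`). Finally `φ (t^p) = (φ t)^p = 1`, so `φ τ = 1`.

`ld_gen`: every `τ` in the inertia group has `τ w = ζ^k w`, `k = (kk π τ).val`; apply `ld_tame` to `τ t^{-k}`.
-/

set_option autoImplicit false

open scoped NumberField
open IsDedekindDomain

noncomputable section

namespace H63.MA

variable {K : Type} [Field K] [NumberField K] {Ω : Type} [Field Ω] [Algebra K Ω] [IsAlgClosure K Ω]
  {p : ℕ} {ζ : K}

theorem gtame_ft_prod {H H' : Type} [Group H] [Group H'] (f : Gal(Ω/K) →* H) (g : Gal(Ω/K) →* H')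
    (hf : H38.ML.FT f) (hg : H38.ML.FT g) : H38.ML.FT (f.prod g) := by
  obtain ⟨E, hE, hle⟩ := hf
  obtain ⟨E', hE', hle'⟩ := hg
  refine ⟨E ⊔ E', inferInstance, fun σ hσ => ?_⟩
  have h1 : σ ∈ E.fixingSubgroup := IntermediateField.fixingSubgroup_antitone le_sup_left hσ
  have h2 : σ ∈ E'.fixingSubgroup := IntermediateField.fixingSubgroup_antitone le_sup_right hσ
  have h3 := hle h1
  have h4 := hle' h2
  rw [MonoidHom.mem_ker] at h3 h4 ⊢
  rw [MonoidHom.prod_apply, h3, h4]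
  rfl

theorem gtame_pow_act (σ : Gal(Ω/K)) (c : K) (x : Ω) (h : σ x = algebraMap K Ω c * x) (k : ℕ) :
    (σ ^ k) x = algebraMap K Ω c ^ k * x := by
  induction k with
  | zero => rw [pow_zero, pow_zero, one_mul]; rfl
  | succ k ih =>
    rw [pow_succ, AlgEquiv.mul_apply, h, map_mul, AlgEquiv.commutes, ih, pow_succ]
    ring

theorem gtame_comm {G : Type} [Group G] (hG : Ep p G) (g : G) (hg : g ∈ commutator G) :
    g ∈ Subgroup.center G := by
  have h1 : commutator G ≤ Subgroup.center G := by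
    rw [commutator_def, Subgroup.commutator_le]
    intro a _ b _
    rw [Subgroup.mem_center_iff]
    intro k
    rw [commutatorElement_def]
    exact hG.cls a b k
  exact h1 hg

/-- an element killed by all finite level characters of `U` is mapped to `1` -/
theorem gtame_sep (hp : p.Prime) {G : Type} [Group G] (hG : Ep p G) (U : Subgroup Gal(Ω/K))
    (φ : Gal(Ω/K) →* G) (hφ : H38.ML.FT φ) (hU : ∀ u ∈ U, φ u ∈ commutator G) (τ : Gal(Ω/K))
    (hτ : τ ∈ U)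
    (h : ∀ χ : U →* Multiplicative (ZMod p), (∃ E : IntermediateField K Ω, FiniteDimensional K E ∧
      ∀ u : U, (u : Gal(Ω/K)) ∈ E.fixingSubgroup → χ u = 1) → χ ⟨τ, hτ⟩ = 1) : φ τ = 1 := by
  letI : CommGroup (Subgroup.center G) :=
    { (inferInstance : Group (Subgroup.center G)) with
      mul_comm := fun a b => Subtype.ext (Subgroup.mem_center_iff.1 b.2 a) }
  have hc : ∀ u ∈ U, φ u ∈ Subgroup.center G := fun u hu => gtame_comm hG _ (hU u hu)
  let ψ : U →* Subgroup.center G :=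
    { toFun := fun u => ⟨φ u, hc u u.2⟩
      map_one' := Subtype.ext (by
        change φ ((1 : U) : Gal(Ω/K)) = 1
        rw [OneMemClass.coe_one, map_one])
      map_mul' := fun a b => Subtype.ext (by
        change φ ((a * b : U) : Gal(Ω/K)) = φ a * φ b
        rw [Subgroup.coe_mul, map_mul]) }
  obtain ⟨E, hE, hle⟩ := hφ
  have h1 : ψ ⟨τ, hτ⟩ = 1 := by
    refine sep_ab hp (Subgroup.center G) (fun a => Subtype.ext ?_) _ (fun χ => ?_)
    · change (a : G) ^ p = 1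
      exact hG.exp _
    · refine h (χ.comp ψ) ⟨E, hE, fun u hu => ?_⟩
      have h2 := hle hu
      rw [MonoidHom.mem_ker] at h2
      have h3 : ψ u = 1 := Subtype.ext h2
      rw [MonoidHom.comp_apply, h3, map_one]
  exact congrArg Subtype.val h1

theorem gtame_notMem (P : Ideal (𝓞 Ω)) (v : Pl K) (hu : P.under (𝓞 K) = v.asIdeal)
    (hv : ¬ Above p v) : ((p : ℕ) : 𝓞 Ω) ∉ P := by
  intro h
  apply hv
  unfold Above
  rw [← hu]
  change algebraMap (𝓞 K) (𝓞 Ω) ((p : ℕ) : 𝓞 K) ∈ P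
  rw [map_natCast]
  exact h

/-- the roots of `w`: the element `t ^ p` multiplies a `p`-th root of `w` by `ζ` -/
theorem gtame_root (hp : p.Prime) (hζ : IsPrimitiveRoot ζ p) (P : Ideal (𝓞 Ω)) [P.IsPrime]
    (hpP : ((p : ℕ) : 𝓞 Ω) ∉ P) (t : Gal(Ω/K)) (ht : t ∈ P.inertia Gal(Ω/K)) (w y : Ω)
    (hw0 : w ≠ 0) (hw : t w = algebraMap K Ω ζ * w) (hy : y ^ p = w) :
    (t ^ p) y = algebraMap K Ω ζ * y := by
  have hz : IsPrimitiveRoot (algebraMap K Ω ζ) p :=
    hζ.map_of_injective (algebraMap K Ω).injective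
  have hy0 : y ≠ 0 := by
    intro h0
    rw [h0, zero_pow hp.ne_zero] at hy
    exact hw0 hy.symm
  set ξ : Ω := t y / y with hξ
  have h1 : ξ ^ p = algebraMap K Ω ζ := by
    rw [hξ, div_pow, ← map_pow, hy, hw, mul_div_cancel_right₀ _ hw0]
  have hξ0 : ξ ≠ 0 := by
    intro h0
    rw [h0, zero_pow hp.ne_zero] at h1
    exact hz.ne_zero hp.ne_zero h1.symm
  have hty : t y = ξ * y := by rw [hξ, div_mul_cancel₀ _ hy0]
  have hξu : ξ ^ (p * p) = 1 := by rw [pow_mul, h1, hz.pow_eq_one]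
  have hint : IsIntegral ℤ ξ := by
    refine IsIntegral.of_pow (Nat.mul_pos hp.pos hp.pos) ?_
    rw [hξu]
    exact isIntegral_one
  obtain ⟨j, hj⟩ := H38.TD.root_ratio (K := K) hp.pos hζ (x := t ξ) hξ0
    (by rw [← map_pow, h1, AlgEquiv.commutes])
  let β : 𝓞 Ω := ⟨ξ, hint⟩
  have hβ : β ∉ P := by
    intro hmem
    have h2 : β ^ (p * p) = 1 := by
      apply NumberField.RingOfIntegers.ext
      change ξ ^ (p * p) = 1
      exact hξu
    have h3 : β ^ (p * p) ∈ P := P.pow_mem_of_mem hmem _ (Nat.mul_pos hp.pos hp.pos)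
    rw [h2] at h3
    exact (Ideal.ne_top_iff_one P).1 (Ideal.IsPrime.ne_top ‹_›) h3
  have hdvd := H38.ML.pow_eq_one_of_inertia P p hp.pos hpP ζ hζ t ht β hβ j hj
  have htξ : t ξ = ξ := by
    rw [hj]
    obtain ⟨c, hc⟩ := hdvd
    rw [hc, pow_mul, hz.pow_eq_one, one_pow, one_mul]
  have hk : ∀ k : ℕ, (t ^ k) y = ξ ^ k * y := by
    intro k
    induction k with
    | zero => rw [pow_zero, pow_zero, one_mul]; rfl
    | succ k ih =>
      rw [pow_succ', AlgEquiv.mul_apply, ih, map_mul, map_pow, htξ, hty, pow_succ]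
      ring
  rw [hk p, h1]

theorem ld_tame (hp : p.Prime) (hζ : IsPrimitiveRoot ζ p) {v : Pl K} (hv : ¬ Above p v) {π : Kˣ}
    (hπ : ord v π = 1) (L : LD p ζ Ω v π) {G : Type} [Group G] [Finite G] (hG : Ep p G)
    (φ : Gal(Ω/K) →* G) (hφ : H38.ML.FT φ) (τ : Gal(Ω/K)) (hτ : τ ∈ L.P.inertia Gal(Ω/K))
    (hw : τ L.w = L.w) : φ τ = 1 := by
  have hgal : IsGalois K Ω := IsAlgClosure.isGalois K Ω
  have hclosed : IsAlgClosed Ω := IsAlgClosure.isAlgClosed K
  have hP : L.P.IsPrime := L.prime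
  have hz : IsPrimitiveRoot (algebraMap K Ω ζ) p :=
    hζ.map_of_injective (algebraMap K Ω).injective
  have hz0 : algebraMap K Ω ζ ≠ 0 := hz.ne_zero hp.ne_zero
  have hw0 : L.w ≠ 0 := gkum_ne hp π L.w L.hw
  have hpP : ((p : ℕ) : 𝓞 Ω) ∉ L.P := gtame_notMem L.P v L.under hv
  -- the field `M`
  obtain ⟨M, hMf, hMg, e, he, heρ⟩ := H38.ML.factor
    ((kc p ζ Ω π).prod ((Abelianization.of : G →* Abelianization G).comp φ))
    (gtame_ft_prod _ _ (kc_is hp hζ π).1 (H38.ML.ft_comp _ φ hφ))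
  have hMn : NumberField M := NumberField.of_module_finite K M
  have hres1 : ∀ σ : Gal(Ω/K), kk p ζ π σ = 0 → φ σ ∈ commutator G → H38.ML.res M σ = 1 := by
    intro σ h1 h2
    apply he
    rw [heρ σ, map_one, MonoidHom.prod_apply, MonoidHom.comp_apply]
    have h3 : kc p ζ Ω π σ = 1 := Multiplicative.toAdd.injective (by
      rw [toAdd_one]; exact h1)
    have h4 : (Abelianization.of : G →* Abelianization G) (φ σ) = 1 := by
      rw [← MonoidHom.mem_ker, Abelianization.ker_of]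
      exact h2
    rw [h3, h4]
    rfl
  have hres2 : ∀ σ : Gal(Ω/K), H38.ML.res M σ = 1 → kk p ζ π σ = 0 ∧ φ σ ∈ commutator G := by
    intro σ h1
    have h2 := heρ σ
    rw [h1, map_one, MonoidHom.prod_apply, MonoidHom.comp_apply] at h2
    have h3 := congrArg Prod.fst h2
    have h4 := congrArg Prod.snd h2
    change 1 = kc p ζ Ω π σ at h3
    change 1 = (Abelianization.of : G →* Abelianization G) (φ σ) at h4
    constructor
    · unfold kk
      rw [← h3, toAdd_one]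
    · rw [← Abelianization.ker_of, MonoidHom.mem_ker]
      exact h4.symm
  have hfs : ∀ σ : Gal(Ω/K), H38.ML.res M σ = 1 ↔ σ ∈ M.fixingSubgroup := by
    intro σ
    rw [← IntermediateField.restrictNormalHom_ker M, MonoidHom.mem_ker]
  -- (1)
  have hA : ∀ σ ∈ L.P.inertia Gal(Ω/K), σ L.w = L.w → H38.ML.res M σ = 1 := by
    intro σ hσ hσw
    have h1 : kk p ζ π σ = 0 := by
      have h2 := kk_of_root hp hζ π L.w L.hw σ 0 (by rw [zpow_zero, one_mul, hσw])
      rw [h2, Int.cast_zero]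
    refine hres1 σ h1 (sep_com hp G hG.exp _ fun χ => ?_)
    obtain ⟨a, ha⟩ := kc_all hp hζ (χ.comp φ) (H38.ML.ft_comp χ φ hφ)
    have h3 := ld_kk hp hζ hv hπ L σ hσ a
    rw [h1, mul_zero] at h3
    apply Multiplicative.toAdd.injective
    rw [toAdd_one, ← h3]
    unfold kk
    rw [← ha]
    rfl
  -- (2)
  have htp : L.t ^ p ∈ L.P.inertia Gal(Ω/K) := Subgroup.pow_mem _ L.ht p
  have htw : (L.t ^ p) L.w = L.w := by
    rw [gtame_pow_act L.t ζ L.w L.act p, hz.pow_eq_one, one_mul]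
  have hQ0 : L.P.under (𝓞 M) ≠ ⊥ := H38.ML.layerInert_ne_bot L.P v.asIdeal v.ne_bot L.under
  let Q : H38.TD.Pl M := ⟨L.P.under (𝓞 M), inferInstance, hQ0⟩
  obtain ⟨t₀, ht₀⟩ := H38.TD.tame M p hp.pos ζ hζ L.P hpP Q rfl (L.t ^ p) htp
    (hA _ htp htw)
  obtain ⟨t₁, ht₁⟩ := H38.TD.tame M p hp.pos ζ hζ L.P hpP Q rfl τ hτ (hA _ hτ hw)
  -- (3)
  have hmemM : ∀ x : Ω, (∀ σ ∈ M.fixingSubgroup, σ x = x) → x ∈ M := by
    intro x hx
    rw [← InfiniteGalois.fixedField_fixingSubgroup M, IntermediateField.mem_fixedField_iff]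
    exact hx
  have hwM : L.w ∈ M := by
    refine hmemM _ fun σ hσ => ?_
    have h1 := (hres2 σ ((hfs σ).2 hσ)).1
    rw [kk_root hp hζ π L.w L.hw σ, h1, ZMod.val_zero, pow_zero, one_mul]
  have hwM0 : (⟨L.w, hwM⟩ : M) ≠ 0 := fun h => hw0 (congrArg Subtype.val h)
  obtain ⟨y, hy⟩ := IsAlgClosed.exists_pow_nat_eq L.w hp.pos
  have hy0 : y ≠ 0 := by
    intro h0
    rw [h0, zero_pow hp.ne_zero] at hy
    exact hw0 hy.symm
  have h3 := gtame_root hp hζ L.P hpP L.t L.ht L.w y hw0 L.act hy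
  have h4 := ht₀ (Units.mk0 (⟨L.w, hwM⟩ : M) hwM0) y hy
  set n₀ := H38.TD.od Q (Units.mk0 (⟨L.w, hwM⟩ : M) hwM0) with hn₀
  have h5 : ((t₀ * n₀ : ℤ) : ZMod p) = 1 := by
    have h6 := gkum_key hp hζ y hy0 (t₀ * n₀) 1 (by rw [← h4, h3, zpow_one])
    rw [h6, Int.cast_one]
  -- (4)
  have hp0 : NeZero p := ⟨hp.ne_zero⟩
  set m : ℕ := ((-(t₁ * n₀) : ℤ) : ZMod p).val with hm
  have hm1 : ((t₀ * m + t₁ : ℤ) : ZMod p) = 0 := by
    push_cast
    rw [hm, ZMod.natCast_zmod_val]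
    push_cast at h5 ⊢
    linear_combination (-(t₁ : ZMod p)) * h5
  have hmd : (p : ℤ) ∣ t₀ * m + t₁ := (ZMod.intCast_zmod_eq_zero_iff_dvd _ p).1 hm1
  set τ₁ : Gal(Ω/K) := τ * (L.t ^ p) ^ m with hτ₁
  have hτ₁i : τ₁ ∈ L.P.inertia Gal(Ω/K) := Subgroup.mul_mem _ hτ (Subgroup.pow_mem _ htp m)
  have hτ₁w : τ₁ L.w = L.w := by
    rw [hτ₁, AlgEquiv.mul_apply]
    have h6 : ((L.t ^ p) ^ m) L.w = L.w := by
      have h7 := gtame_pow_act (L.t ^ p) (1 : K) L.w (by rw [map_one, one_mul, htw]) m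
      rw [h7, map_one, one_pow, one_mul]
    rw [h6, hw]
  have hτ₁U : τ₁ ∈ M.fixingSubgroup := (hfs _).1 (hA _ hτ₁i hτ₁w)
  have hfix : ∀ (α : Mˣ) (B : Ω), B ^ p = ((α : M) : Ω) → τ₁ B = B := by
    intro α B hB
    have h6 := ht₀ α B hB
    have h7 := ht₁ α B hB
    have h8 : (L.t ^ p) B = algebraMap K Ω (ζ ^ (t₀ * H38.TD.od Q α)) * B := by
      rw [h6, map_zpow₀]
    have h9 := gtame_pow_act (L.t ^ p) _ B h8 m
    rw [hτ₁, AlgEquiv.mul_apply, h9, map_mul, map_pow, AlgEquiv.commutes, h7, map_zpow₀,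
      ← mul_assoc, ← zpow_natCast, ← zpow_mul, ← zpow_add₀ hz0]
    have h10 : t₀ * H38.TD.od Q α * (m : ℤ) + t₁ * H38.TD.od Q α =
        (t₀ * m + t₁) * H38.TD.od Q α := by ring
    have h11 : (p : ℤ) ∣ t₀ * H38.TD.od Q α * (m : ℤ) + t₁ * H38.TD.od Q α := by
      rw [h10]
      exact Dvd.dvd.mul_right hmd _
    rw [(hz.zpow_eq_one_iff_dvd _).2 h11, one_mul]
  -- (5)
  have h6 : φ τ₁ = 1 := by
    refine gtame_sep hp hG M.fixingSubgroup φ hφ (fun u hu => (hres2 u ((hfs u).2 hu)).2) τ₁ hτ₁U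
      fun χ hχ => ?_
    obtain ⟨E, hE, hχE⟩ := hχ
    obtain ⟨B, hB0, hB⟩ := kum_sub hp hζ M.fixingSubgroup χ E hχE
    have hBM : B ^ p ∈ M := by
      refine hmemM _ fun σ hσ => ?_
      rw [map_pow, hB ⟨σ, hσ⟩, mul_pow, ← pow_mul, mul_comm _ p, pow_mul, hz.pow_eq_one, one_pow,
        one_mul]
    have hBM0 : (⟨B ^ p, hBM⟩ : M) ≠ 0 := fun h =>
      pow_ne_zero p hB0 (congrArg Subtype.val h)
    have h7 := hfix (Units.mk0 (⟨B ^ p, hBM⟩ : M) hBM0) B rfl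
    have h8 := hB ⟨τ₁, hτ₁U⟩
    rw [show ((⟨τ₁, hτ₁U⟩ : M.fixingSubgroup) : Gal(Ω/K)) B = τ₁ B from rfl, h7] at h8
    have h9 := gkum_key hp hζ B hB0 0 ((Multiplicative.toAdd (χ ⟨τ₁, hτ₁U⟩)).val : ℤ)
      (by rw [zpow_zero, one_mul, zpow_natCast]; exact h8)
    rw [gkum_val hp, Int.cast_zero] at h9
    exact Multiplicative.toAdd.injective (by rw [toAdd_one]; exact h9.symm)
  rw [hτ₁, map_mul, map_pow, map_pow, hG.exp, one_pow, mul_one] at h6
  exact h6

theorem ld_gen (hp : p.Prime) (hζ : IsPrimitiveRoot ζ p) {v : Pl K} (hv : ¬ Above p v) {π : Kˣ}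
    (hπ : ord v π = 1) (L : LD p ζ Ω v π) {G : Type} [Group G] [Finite G] (hG : Ep p G)
    (φ : Gal(Ω/K) →* G) (hφ : H38.ML.FT φ) (τ : Gal(Ω/K)) (hτ : τ ∈ L.P.inertia Gal(Ω/K)) :
    φ τ = φ L.t ^ (kk p ζ π τ).val := by
  set k := (kk p ζ π τ).val with hk
  have h1 : τ L.w = (L.t ^ k) L.w := by
    rw [kk_root hp hζ π L.w L.hw τ, gtame_pow_act L.t ζ L.w L.act k]
  have h2 : ((L.t ^ k)⁻¹ * τ) L.w = L.w := by
    rw [AlgEquiv.mul_apply, h1, ← AlgEquiv.mul_apply, inv_mul_cancel]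
    rfl
  have h3 := ld_tame hp hζ hv hπ L hG φ hφ ((L.t ^ k)⁻¹ * τ)
    (Subgroup.mul_mem _ (Subgroup.inv_mem _ (Subgroup.pow_mem _ L.ht k)) hτ) h2
  rw [map_mul, map_inv, inv_mul_eq_one, map_pow] at h3
  exact h3.symm

end H63.MA
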