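import Pool.Agent.H63.MA.GCd
import Pool.Agent.H63.MA.GTame
import Pool.Agent.H38.ML.UnrFin
import Pool.Agent.H38.ML.RootInert

/-!
# MA-GTW: local data everywhere; twisting

* `exists_LDs`: choice from `exists_LD` (`D.above`, `D.pi_self`).
* `kk_pi`: `kk (pi v) (t v') = ord v' (pi v)` is `1` for `v' = v`, `0` otherwise (`v, v' ∉ S0`; `ld_kk_t`, `D.pi_self`, `D.pi_ne`).
* `ram_finite`: for `φ` of finite type only finitely many `v ∉ S0` have `φ (t v) ≠ 1`: factor `φ` through `M/K` finite Galois (`H38.ML.factor`), `H38.ML.finite_not_unr`, `H38.ML.res_eq_one`.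
* `twist`: let `φ₀` be of finite type and `s : Pl K → G` with `π (s v) = π (φ₀ (t v))` for `v ∉ S0`, `s v = 1` for all but finitely many `v`. Then there is `φ` of finite type with `π ∘ φ = π ∘ φ₀`
  and `φ (t v) = s v` for all `v ∉ S0`. Proof: `u v = φ₀(t v)⁻¹ * s v` is in the kernel of `π` (central, of exponent `p`) for `v ∉ S0` and `1` for almost all `v`;
  `φ σ = φ₀ σ * ∏_v (u v)^{(kk (pi v) σ).val}` (finite product over the `v ∉ S0` with `u v ≠ 1`) is a homomorphism by centrality; `kk_pi`.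
-/

set_option autoImplicit false

open scoped NumberField
open IsDedekindDomain

noncomputable section

namespace H63.MA

variable {K : Type} [Field K] [NumberField K] {Ω : Type} [Field Ω] [Algebra K Ω] [IsAlgClosure K Ω]
  {p : ℕ} {ζ : K}

theorem gtw_t {D : RD0 K p ζ} (L : LDs D Ω) (v : Pl K) (hv : v ∉ D.S0) :
    L.t v = (L.ld v hv).t := by
  unfold LDs.t
  rw [dif_pos hv]

/-- twisting by one central element -/
theorem gtw_one (hp : p.Prime) {G : Type} [Group G] (φ : Gal(Ω/K) →* G) (hφ : H38.ML.FT φ)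
    (χ : Gal(Ω/K) →* Multiplicative (ZMod p)) (hχ : H38.ML.FT χ) (u : G) (hu : u ^ p = 1)
    (hc : ∀ h, u * h = h * u) :
    ∃ φ' : Gal(Ω/K) →* G, H38.ML.FT φ' ∧
      ∀ σ, φ' σ = φ σ * u ^ (Multiplicative.toAdd (χ σ)).val := by
  have hp0 : NeZero p := ⟨hp.ne_zero⟩
  have hadd : ∀ a b : ZMod p, u ^ (a + b).val = u ^ a.val * u ^ b.val := by
    intro a b
    rw [ZMod.val_add, ← pow_add]
    exact (pow_eq_pow_mod (a.val + b.val) hu).symm
  have hcp : ∀ (k : ℕ) (h : G), h * u ^ k = u ^ k * h := by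
    intro k h
    have h1 : Commute u h := hc h
    exact (h1.pow_left k).symm
  let φ' : Gal(Ω/K) →* G :=
    { toFun := fun σ => φ σ * u ^ (Multiplicative.toAdd (χ σ)).val
      map_one' := by
        rw [map_one, map_one, toAdd_one, ZMod.val_zero, pow_zero, mul_one]
      map_mul' := fun σ τ => by
        rw [map_mul, map_mul, toAdd_mul, hadd, mul_assoc, mul_assoc]
        congr 1
        rw [← mul_assoc, hcp _ (φ τ), mul_assoc] }
  refine ⟨φ', ?_, fun σ => rfl⟩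
  obtain ⟨E, hE, hle⟩ := hφ
  obtain ⟨E', hE', hle'⟩ := hχ
  refine ⟨E ⊔ E', inferInstance, fun σ hσ => ?_⟩
  have h1 : σ ∈ E.fixingSubgroup := IntermediateField.fixingSubgroup_antitone le_sup_left hσ
  have h2 : σ ∈ E'.fixingSubgroup := IntermediateField.fixingSubgroup_antitone le_sup_right hσ
  have h3 := hle h1
  have h4 := hle' h2
  rw [MonoidHom.mem_ker] at h3 h4 ⊢
  change φ σ * u ^ (Multiplicative.toAdd (χ σ)).val = 1
  rw [h3, h4, toAdd_one, ZMod.val_zero, pow_zero, mul_one]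

theorem exists_LDs (Ω : Type) [Field Ω] [Algebra K Ω] [IsAlgClosure K Ω] (hp : p.Prime)
    (hζ : IsPrimitiveRoot ζ p) (D : RD0 K p ζ) : Nonempty (LDs D Ω) := by
  have h : ∀ v : Pl K, v ∉ D.S0 → Nonempty (LD p ζ Ω v (D.pi v)) := fun v hv =>
    exists_LD Ω hp hζ (fun h => hv (D.above v h)) (D.pi_self v hv)
  exact ⟨⟨fun v hv => Classical.choice (h v hv)⟩⟩

theorem kk_pi (hp : p.Prime) (hζ : IsPrimitiveRoot ζ p) (D : RD0 K p ζ) (L : LDs D Ω) (v v' : Pl K)
    (hv : v ∉ D.S0) (hv' : v' ∉ D.S0) :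
    (v = v' → kk p ζ (D.pi v) (L.t v') = 1) ∧ (v ≠ v' → kk p ζ (D.pi v) (L.t v') = 0) := by
  have h0 : kk p ζ (D.pi v) (L.t v') = ((ord v' (D.pi v) : ℤ) : ZMod p) := by
    rw [gtw_t L v' hv']
    exact ld_kk_t hp hζ (fun h => hv' (D.above v' h)) (D.pi_self v' hv') (L.ld v' hv') (D.pi v)
  refine ⟨fun h => ?_, fun h => ?_⟩
  · rw [h0, h, D.pi_self v' hv', Int.cast_one]
  · rw [h0, D.pi_ne v v' hv hv' (Ne.symm h), Int.cast_zero]

theorem ram_finite (hp : p.Prime) (D : RD0 K p ζ) (L : LDs D Ω) {G : Type} [Group G]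
    (φ : Gal(Ω/K) →* G) (hφ : H38.ML.FT φ) : {v : Pl K | v ∉ D.S0 ∧ φ (L.t v) ≠ 1}.Finite := by
  obtain ⟨M, hfd, hgal, e, he, h⟩ := H38.ML.factor φ hφ
  haveI : NumberField M := NumberField.of_module_finite K M
  have hfin := H38.ML.finite_not_unr K M
  have hinj : Function.Injective (fun v : Pl K => v.asIdeal) := by
    intro v w hvw
    exact HeightOneSpectrum.ext hvw
  refine (hfin.preimage hinj.injOn).subset ?_
  rintro v ⟨hv, hne⟩
  refine ⟨v.isPrime, v.ne_bot, fun hun => hne ?_⟩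
  rw [gtw_t L v hv]
  set l := L.ld v hv with hl
  haveI := l.prime
  have hun' : H38.ML.Unr K M (l.P.under (𝓞 K)) := by
    rw [l.under]
    exact hun
  have h1 := H38.ML.res_eq_one M l.P hun' l.t l.ht
  rw [← h, h1, map_one]

theorem twist (hp : p.Prime) (hζ : IsPrimitiveRoot ζ p) (D : RD0 K p ζ) (L : LDs D Ω)
    {m N : ℕ} {G : Type} [Group G] [Finite G] (hG : Ep p G) (Dg : GD p m N G)
    (φ₀ : Gal(Ω/K) →* G) (hφ₀ : H38.ML.FT φ₀) (s : Pl K → G)
    (hs : ∀ v, v ∉ D.S0 → Dg.π (s v) = Dg.π (φ₀ (L.t v))) (hfin : {v | s v ≠ 1}.Finite) :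
    ∃ φ : Gal(Ω/K) →* G, H38.ML.FT φ ∧ (∀ σ, Dg.π (φ σ) = Dg.π (φ₀ σ)) ∧
      ∀ v, v ∉ D.S0 → φ (L.t v) = s v := by
  classical
  have hp0 : NeZero p := ⟨hp.ne_zero⟩
  have hp1 : Fact (1 < p) := ⟨hp.one_lt⟩
  have key : ∀ F : Finset (Pl K), (∀ v ∈ F, v ∉ D.S0) → ∃ φ : Gal(Ω/K) →* G, H38.ML.FT φ ∧
      (∀ σ, Dg.π (φ σ) = Dg.π (φ₀ σ)) ∧ (∀ v ∈ F, φ (L.t v) = s v) ∧
      ∀ v, v ∉ F → v ∉ D.S0 → φ (L.t v) = φ₀ (L.t v) := by
    intro F
    induction F using Finset.induction_on with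
    | empty => exact fun _ => ⟨φ₀, hφ₀, fun _ => rfl, fun v hv => absurd hv (Finset.notMem_empty v),
        fun _ _ _ => rfl⟩
    | insert v F hvF ih =>
      intro hF
      obtain ⟨φ, h1, h2, h3, h4⟩ := ih (fun w hw => hF w (Finset.mem_insert_of_mem hw))
      have hv : v ∉ D.S0 := hF v (Finset.mem_insert_self v F)
      have hu : Dg.π ((φ (L.t v))⁻¹ * s v) = 1 := by
        rw [map_mul, map_inv, hs v hv, h2, inv_mul_cancel]
      obtain ⟨φ', h5, h6⟩ := gtw_one hp φ h1 (kc p ζ Ω (D.pi v)) (kc_is hp hζ (D.pi v)).1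
        ((φ (L.t v))⁻¹ * s v) (hG.exp _) (Dg.cen _ hu)
      refine ⟨φ', h5, fun σ => ?_, fun w hw => ?_, fun w hw hw0 => ?_⟩
      · rw [h6, map_mul, map_pow, hu, one_pow, mul_one, h2]
      · by_cases hwv : w = v
        · subst hwv
          have h7 := (kk_pi hp hζ D L w w hv hv).1 rfl
          rw [h6]
          change φ (L.t w) * ((φ (L.t w))⁻¹ * s w) ^ (kk p ζ (D.pi w) (L.t w)).val = s w
          rw [h7, ZMod.val_one, pow_one, mul_inv_cancel_left]
        · have hwF : w ∈ F := (Finset.mem_insert.1 hw).resolve_left hwv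
          have h7 := (kk_pi hp hζ D L v w hv (hF w hw)).2 (Ne.symm hwv)
          rw [h6]
          change φ (L.t w) * ((φ (L.t v))⁻¹ * s v) ^ (kk p ζ (D.pi v) (L.t w)).val = s w
          rw [h7, ZMod.val_zero, pow_zero, mul_one, h3 w hwF]
      · have hwv : w ≠ v := fun h => hw (h ▸ Finset.mem_insert_self _ _)
        have hwF : w ∉ F := fun h => hw (Finset.mem_insert_of_mem h)
        have h7 := (kk_pi hp hζ D L v w hv hw0).2 (Ne.symm hwv)
        rw [h6]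
        change φ (L.t w) * ((φ (L.t v))⁻¹ * s v) ^ (kk p ζ (D.pi v) (L.t w)).val = φ₀ (L.t w)
        rw [h7, ZMod.val_zero, pow_zero, mul_one, h4 w hwF hw0]
  have hfin2 := (hfin.union (ram_finite hp D L φ₀ hφ₀)).inter_of_left {v : Pl K | v ∉ D.S0}
  obtain ⟨φ, h1, h2, h3, h4⟩ := key hfin2.toFinset (fun v hv => ((hfin2.mem_toFinset).1 hv).2)
  refine ⟨φ, h1, h2, fun v hv => ?_⟩
  by_cases hvF : v ∈ hfin2.toFinset
  · exact h3 v hvF
  · rw [h4 v hvF hv]
    have h5 : ¬ (s v ≠ 1 ∨ (v ∉ D.S0 ∧ φ₀ (L.t v) ≠ 1)) := by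
      intro h
      exact hvF ((hfin2.mem_toFinset).2 ⟨h, hv⟩)
    have h6 : s v = 1 := by
      by_contra h
      exact h5 (Or.inl h)
    have h7 : φ₀ (L.t v) = 1 := by
      by_contra h
      exact h5 (Or.inr ⟨hv, h⟩)
    rw [h6, h7]

end H63.MA
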