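import Pool.Agent.H63.MA.ABilB
import Pool.Agent.H63.MA.RMkB

/-!
# MA-APH: the total phase as a function of one, of two, and of all large variables

Setting: `D : RD K p ζ`, `P : PD p m J`, `b` with `BSup b E` (supported on `S0 ∪ E`, `E` not good primes).
All `g a` are finite sets of good primes, pairwise disjoint.
* `ph_one`: `g` without its `a`-component fixed. There are `c : ZMod p` and `κ ∈ (ZMod p)^r` such that for all finite sets `n` of
  good primes disjoint from the `g l`, `l ≠ a`: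
  `ph (update g a n) = c + ∑_{v ∈ n} (∑_{w ∈ E} lam w (θ_a · ord w b) LL w (pi v) + ∑_{l ≠ a} lk a l ∑_{w ∈ g l} LL w (pi v) + κ · q v)`.
  Proof: collect the terms containing `n`: `∑_{v ∈ n} θ_a · LL v (b)`: `rec1` for every `b k` (the sum over `w ∉ S0` reduces to `w ∈ E`
  by `BSup`); `∑_{l ≠ a} (θ_a · x_l) Lf n (pf (g l)) + (θ_l · x_a) Lf (g l) (pf n)` and `lf_swap`:
  `Lf n (pf (g l)) = Lf (g l) (pf n) + bilinear in the classes`, which is linear in the class of `n`. The term `(a, a)` has coefficient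
  `θ_a · x_a = 0`. `Lf (g l) (pf n) = ∑_{w ∈ g l} ∑_{v ∈ n} LL w (pi v)` (`LL_mul`).
* `ph_two`: `a ≠ a'`, the other components fixed: there are functions `c₁ c₂ : Finset (Pl K) → ZMod p` such that
  `ph (update (update g a m) a' n) = c₁ m + c₂ n + dt (θ_a) (x_a') Lf m (pf n) + dt (θ_a') (x_a) Lf n (pf m)` for all `m, n`; by
  `lf_swap` this is `c₁ m + c₂ n + lk a a' * Lf m (pf n) + (θ_{a'} · x_a) * (bilinear form in the classes of m and n)`.
* `ph_cls`: suppose `lk a a' = 0` for all `a, a' ∈ Lg`, `lk a l = 0` for `a ∈ Lg`, `l ∉ Lg` with `s l ≠ ∅`, and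
  `lam w (θ_a · ord w b) = 0` for `a ∈ Lg`, `w ∈ E`. Write `η(q', q) = ∑ eta i j q'_i q_j`; `lf_swap` says
  `Lf n (pf n') - Lf n' (pf n) = η(qf n', qf n)` for disjoint good `n, n'`. Let `κ^k` be the vector of `rec1` for `b k` and
  `κ'_a = ∑_k θ_a k • κ^k`; by the third hypothesis and `rec1`, `∑_k θ_a k LL v (b k) = κ'_a · q v` for every good `v` and `a ∈ Lg`. Define
  `f q = c₀ + ∑_{a ∈ Lg} (κ'_a · q a + ∑_{l ∉ Lg} (θ_a · x_l) η(qf (s l), q a)) + ∑_{(a,a') ∈ Lg × Lg, ρ(x_a) < ρ(x_{a'})} (θ_a · x_{a'}) η(q a', q a)` (`ρ` an injective function to `ℕ`),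
  `c₀ = ph` of the family `l ↦ if l ∈ Lg then ∅ else s l`.
  First claim: for admissible `g`, the terms of `ph g` with both indices outside `Lg` give `c₀`; the linear terms of `a ∈ Lg` are
  `κ'_a · qf (g a)`; for `a ∈ Lg`, `l ∉ Lg` the two terms are `(θ_a · x_l) Lf (g a) (pf (s l)) + (θ_l · x_a) Lf (s l) (pf (g a))`
  `= (θ_a · x_l) (Lf (g a) (pf (s l)) - Lf (s l) (pf (g a))) = (θ_a · x_l) η(qf (s l), qf (g a))` if `s l ≠ ∅` (`lk = 0`), and both sides
  are `0` if `s l = ∅`; for `a ≠ a'` in `Lg` with `ρ(x_a) < ρ(x_{a'})`: the sum of the terms `(a,a')` and `(a',a)` is, as `θ_{a'} · x_a = - θ_a · x_{a'}`,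
  `(θ_a · x_{a'}) (Lf (g a) (pf (g a')) - Lf (g a') (pf (g a))) = (θ_a · x_{a'}) η(q a', q a)` (`lf_swap`), and the terms with `x_a = x_{a'}` are `0`.
  Second claim: put `κ = κ'_a - κ'_{a'}`. `x a = x a'` gives `θ_a · x_{a'} = θ_a · x_a = 0` and `θ_{a'} · x_a = 0`; for `l ≠ a, a'` in `Lg`, or
  `l ∉ Lg` with `s l ≠ ∅`: `θ_a · x_l = - θ_l · x_a = - θ_l · x_{a'} = θ_{a'} · x_l`, and `θ_l · x_a = θ_l · x_{a'}`, so these terms of `f` depend
  only on `q a + q a'` (for `s l = ∅` the term is `0`). Finally `κ · q v = ∑_k (θ_a k - θ_{a'} k) LL v (b k) = LL v (bp b (θ_a - θ_{a'}))`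
  for all good `v` (`LL` is additive, `p • = 0`).
  (The hypothesis `v ∉ s l` in the statement is not needed.)
-/

set_option autoImplicit false

open scoped NumberField
open IsDedekindDomain
open scoped Classical

noncomputable section

namespace H63.MA

variable {K : Type} [Field K] [NumberField K] {p : ℕ} {ζ : K} {m : ℕ} {J : Type} [Fintype J]

/-- `θ · ord w b` -/
def dord (b : Fin m → Kˣ) (θ : Fin m → ZMod p) (w : Pl K) : ZMod p :=
  ∑ k, θ k * (ord w (b k) : ZMod p)

/-- all components good and pairwise disjoint -/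
def Adm (D : RD0 K p ζ) (g : J → Finset (Pl K)) : Prop :=
  (∀ a, ∀ v ∈ g a, D.Gd v) ∧ ∀ a a', a ≠ a' → Disjoint (g a) (g a')

theorem aph_LL_prod {ι : Type} (hp : p.Prime) (hζ : IsPrimitiveRoot ζ p) (D : RD0 K p ζ) {w : Pl K}
    (hw : w ∉ D.S0) (s : Finset ι) (f : ι → Kˣ) :
    D.LL w (∏ v ∈ s, f v) = ∑ v ∈ s, D.LL w (f v) := by
  induction s using Finset.induction_on with
  | empty => rw [Finset.prod_empty, Finset.sum_empty, LL_one hp hζ D hw]
  | insert a s ha ih =>
    rw [Finset.prod_insert ha, Finset.sum_insert ha, LL_mul hp hζ D hw, ih]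

theorem aph_W (hp : p.Prime) (hζ : IsPrimitiveRoot ζ p) (D : RD0 K p ζ) {n n' : Finset (Pl K)}
    (hn : ∀ v ∈ n, D.Gd v) :
    Lf D n (pf D n') = ∑ w ∈ n, ∑ v ∈ n', D.LL w (D.pi v) := by
  unfold Lf pf
  exact Finset.sum_congr rfl fun w hw => aph_LL_prod hp hζ D (hn w hw).1 _ _

theorem aph_W_empty (hp : p.Prime) (hζ : IsPrimitiveRoot ζ p) (D : RD0 K p ζ) {n : Finset (Pl K)}
    (hn : ∀ v ∈ n, D.Gd v) : Lf D n (pf D ∅) = 0 := by
  rw [aph_W hp hζ D hn]
  simp

theorem aph_bp (hp : p.Prime) (hζ : IsPrimitiveRoot ζ p) (D : RD0 K p ζ) (b : Fin m → Kˣ)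
    (θ : Fin m → ZMod p) {v : Pl K} (hv : v ∉ D.S0) :
    D.LL v (bp b θ) = dt θ fun k => D.LL v (b k) := by
  have : NeZero p := ⟨hp.ne_zero⟩
  unfold bp dt
  rw [aph_LL_prod hp hζ D hv]
  refine Finset.sum_congr rfl fun k _ => ?_
  have h := LL_zpow hp hζ D hv (b k) ((θ k).val : ℤ)
  rw [zpow_natCast] at h
  rw [h]
  simp

theorem aph_dt_qf (D : RD0 K p ζ) (κ : Fin D.r → ZMod p) (n : Finset (Pl K)) :
    ∑ v ∈ n, dt κ (D.q v) = dt κ (qf D n) := by
  unfold dt qf
  rw [Finset.sum_comm]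
  refine Finset.sum_congr rfl fun i _ => ?_
  rw [Finset.sum_apply, Finset.mul_sum]

theorem aph_rec (D : RD K p ζ) (b : Fin m → Kˣ) (E : Finset (Pl K)) (hb : BSup D.toRD0 b E)
    (θ : Fin m → ZMod p) : ∃ κ : Fin D.r → ZMod p, ∀ v, D.Gd v →
      dt θ (fun k => D.LL v (b k)) =
        ∑ w ∈ E, D.lam w * dord b θ w * D.LL w (D.pi v) + dt κ (D.q v) := by
  choose κ hκ using fun k => D.rec1 (b k)
  refine ⟨fun i => ∑ k, θ k * κ k i, fun v hv => ?_⟩
  have h1 : ∀ k, D.LL v (b k) = ∑ i, κ k i * D.q v i +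
      ∑ w ∈ E, D.lam w * (ord w (b k) : ZMod p) * D.LL w (D.pi v) := by
    intro k
    rw [hκ k v hv]
    congr 1
    rw [finsum_eq_sum_of_support_subset (s := E)]
    · refine Finset.sum_congr rfl fun w hw => ?_
      rw [if_neg (hb.1 w hw).1]
    · intro w hw
      by_contra hwE
      apply hw
      have hwE' : w ∉ E := fun h => hwE (Finset.mem_coe.2 h)
      show (if w ∈ D.S0 then 0 else D.lam w * (ord w (b k) : ZMod p) * D.LL w (D.pi v)) = 0
      by_cases hw0 : w ∈ D.S0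
      · rw [if_pos hw0]
      · rw [if_neg hw0, hb.2 k w hw0 hwE']
        simp
  unfold dt dord
  simp only [h1, mul_add, Finset.sum_add_distrib]
  rw [add_comm]
  congr 1
  · simp only [Finset.mul_sum, Finset.sum_mul]
    rw [Finset.sum_comm]
    refine Finset.sum_congr rfl fun w _ => Finset.sum_congr rfl fun k _ => ?_
    ring
  · simp only [Finset.mul_sum, Finset.sum_mul]
    rw [Finset.sum_comm]
    refine Finset.sum_congr rfl fun w _ => Finset.sum_congr rfl fun k _ => ?_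
    ring

/-- the bilinear form of the classes -/
def aphE (D : RD K p ζ) (q' q : Fin D.r → ZMod p) : ZMod p :=
  ∑ i, ∑ j, D.eta i j * q' i * q j

theorem aphE_zero (D : RD K p ζ) (q : Fin D.r → ZMod p) : aphE D 0 q = 0 := by
  unfold aphE
  simp

theorem aphE_lin (D : RD K p ζ) (q' q t : Fin D.r → ZMod p) (e' e : ZMod p) :
    aphE D (q' + e' • t) (q + e • t) =
      aphE D q' q + e * aphE D q' t + e' * aphE D t q + e' * e * aphE D t t := by
  unfold aphE
  simp only [Finset.mul_sum, ← Finset.sum_add_distrib, Pi.add_apply, Pi.smul_apply, smul_eq_mul]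
  refine Finset.sum_congr rfl fun i _ => Finset.sum_congr rfl fun j _ => ?_
  ring

theorem aphE_add (D : RD K p ζ) (q' q t : Fin D.r → ZMod p) (e : ZMod p) :
    aphE D q' (q + e • t) = aphE D q' q + e * aphE D q' t := by
  unfold aphE
  simp only [Finset.mul_sum, ← Finset.sum_add_distrib, Pi.add_apply, Pi.smul_apply, smul_eq_mul]
  refine Finset.sum_congr rfl fun i _ => Finset.sum_congr rfl fun j _ => ?_
  ring

theorem aph_swap (hp : p.Prime) (hζ : IsPrimitiveRoot ζ p) (D : RD K p ζ) {n n' : Finset (Pl K)} (hn : ∀ v ∈ n, D.Gd v)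
    (hn' : ∀ v ∈ n', D.Gd v) (hd : Disjoint n n') :
    Lf D.toRD0 n (pf D.toRD0 n') = Lf D.toRD0 n' (pf D.toRD0 n) +
      aphE D (qf D.toRD0 n') (qf D.toRD0 n) := lf_swap hp hζ D hn hn' hd

/-- splitting a double sum at one index -/
theorem aph_split (F : J → J → ZMod p) (a : J) :
    ∑ l, ∑ l', F l l' = F a a + ∑ l ∈ Finset.univ.erase a, (F a l + F l a) +
      ∑ l ∈ Finset.univ.erase a, ∑ l' ∈ Finset.univ.erase a, F l l' := by
  have h : ∀ l, ∑ l', F l l' = F l a + ∑ l' ∈ Finset.univ.erase a, F l l' := fun l =>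
    (Finset.add_sum_erase Finset.univ (F l) (Finset.mem_univ a)).symm
  simp only [h]
  rw [← Finset.add_sum_erase Finset.univ _ (Finset.mem_univ a), Finset.sum_add_distrib,
    Finset.sum_add_distrib]
  ring

theorem ph_one (hp : p.Prime) (hζ : IsPrimitiveRoot ζ p) (D : RD K p ζ) (P : PD p m J)
    (b : Fin m → Kˣ) (E : Finset (Pl K)) (hb : BSup D.toRD0 b E) (g : J → Finset (Pl K))
    (hg : Adm D.toRD0 g) (a : J) :
    ∃ (c : ZMod p) (κ : Fin D.r → ZMod p), ∀ n : Finset (Pl K),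
      Adm D.toRD0 (Function.update g a n) →
        ph D.toRD0 P b (Function.update g a n) = c + ∑ v ∈ n,
          (∑ w ∈ E, D.lam w * dord b (P.θ a) w * D.LL w (D.pi v) +
            ∑ l ∈ Finset.univ.erase a, P.lk a l * ∑ w ∈ g l, D.LL w (D.pi v) + dt κ (D.q v)) := by
  obtain ⟨κ', hκ'⟩ := aph_rec D b E hb (P.θ a)
  refine ⟨∑ l ∈ Finset.univ.erase a, ∑ v ∈ g l, dt (P.θ l) (fun k => D.LL v (b k)) +
    ∑ l ∈ Finset.univ.erase a, ∑ l' ∈ Finset.univ.erase a,
      dt (P.θ l) (P.x l') * Lf D.toRD0 (g l) (pf D.toRD0 (g l')),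
    fun j => κ' j + ∑ l ∈ Finset.univ.erase a, dt (P.θ a) (P.x l) *
      ∑ i, D.eta i j * qf D.toRD0 (g l) i, fun n hn => ?_⟩
  have hne : ∀ l ∈ Finset.univ.erase a, Function.update g a n l = g l := fun l hl =>
    Function.update_of_ne (Finset.ne_of_mem_erase hl) _ _
  have haa : Function.update g a n a = n := Function.update_self _ _ _
  have hng : ∀ v ∈ n, D.Gd v := by
    have := hn.1 a
    rwa [haa] at this
  have hdis : ∀ l ∈ Finset.univ.erase a, Disjoint n (g l) := by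
    intro l hl
    have := hn.2 a l (Finset.ne_of_mem_erase hl).symm
    rwa [haa, hne l hl] at this
  unfold ph
  rw [aph_split _ a, ← Finset.add_sum_erase Finset.univ _ (Finset.mem_univ a), haa]
  have e1 : ∑ l ∈ Finset.univ.erase a, ∑ v ∈ Function.update g a n l,
      dt (P.θ l) (fun k => D.LL v (b k)) =
      ∑ l ∈ Finset.univ.erase a, ∑ v ∈ g l, dt (P.θ l) (fun k => D.LL v (b k)) :=
    Finset.sum_congr rfl fun l hl => by rw [hne l hl]
  have e2 : ∑ l ∈ Finset.univ.erase a, ∑ l' ∈ Finset.univ.erase a,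
      dt (P.θ l) (P.x l') * Lf D.toRD0 (Function.update g a n l)
        (pf D.toRD0 (Function.update g a n l')) =
      ∑ l ∈ Finset.univ.erase a, ∑ l' ∈ Finset.univ.erase a,
      dt (P.θ l) (P.x l') * Lf D.toRD0 (g l) (pf D.toRD0 (g l')) :=
    Finset.sum_congr rfl fun l hl => Finset.sum_congr rfl fun l' hl' => by
      rw [hne l hl, hne l' hl']
  have e3 : ∑ l ∈ Finset.univ.erase a, (dt (P.θ a) (P.x l) * Lf D.toRD0 n
        (pf D.toRD0 (Function.update g a n l)) +
      dt (P.θ l) (P.x a) * Lf D.toRD0 (Function.update g a n l) (pf D.toRD0 n)) =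
      ∑ l ∈ Finset.univ.erase a, P.lk a l * ∑ v ∈ n, ∑ w ∈ g l, D.LL w (D.pi v) +
      ∑ l ∈ Finset.univ.erase a, dt (P.θ a) (P.x l) *
        aphE D (qf D.toRD0 (g l)) (qf D.toRD0 n) := by
    rw [← Finset.sum_add_distrib]
    refine Finset.sum_congr rfl fun l hl => ?_
    rw [hne l hl, aph_swap hp hζ D hng (hg.1 l) (hdis l hl), aph_W hp hζ D.toRD0 (hg.1 l),
      Finset.sum_comm]
    unfold PD.lk
    ring
  have e4 : ∑ v ∈ n, dt (P.θ a) (fun k => D.LL v (b k)) =
      ∑ v ∈ n, ∑ w ∈ E, D.lam w * dord b (P.θ a) w * D.LL w (D.pi v) +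
        dt κ' (qf D.toRD0 n) := by
    rw [← aph_dt_qf, ← Finset.sum_add_distrib]
    exact Finset.sum_congr rfl fun v hv => hκ' v (hng v hv)
  have e5 : ∑ v ∈ n, dt (fun j => κ' j + ∑ l ∈ Finset.univ.erase a, dt (P.θ a) (P.x l) *
      ∑ i, D.eta i j * qf D.toRD0 (g l) i) (D.q v) = dt κ' (qf D.toRD0 n) +
      ∑ l ∈ Finset.univ.erase a, dt (P.θ a) (P.x l) *
        aphE D (qf D.toRD0 (g l)) (qf D.toRD0 n) := by
    rw [aph_dt_qf]
    unfold dt aphE
    simp only [add_mul, Finset.sum_add_distrib]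
    congr 1
    have f1 : ∀ l, (∑ k, P.θ a k * P.x l k) * ∑ i, ∑ j, D.eta i j * qf D.toRD0 (g l) i *
        qf D.toRD0 n j = ∑ j, (∑ k, P.θ a k * P.x l k) *
          (∑ i, D.eta i j * qf D.toRD0 (g l) i) * qf D.toRD0 n j := by
      intro l
      rw [Finset.sum_comm, Finset.mul_sum]
      refine Finset.sum_congr rfl fun j _ => ?_
      rw [mul_assoc]
      congr 1
      rw [Finset.sum_mul]
    simp only [f1]
    rw [Finset.sum_comm]
    refine Finset.sum_congr rfl fun j _ => ?_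
    rw [Finset.sum_mul]
  have e6 : ∑ v ∈ n, ∑ l ∈ Finset.univ.erase a, P.lk a l * ∑ w ∈ g l, D.LL w (D.pi v) =
      ∑ l ∈ Finset.univ.erase a, P.lk a l * ∑ v ∈ n, ∑ w ∈ g l, D.LL w (D.pi v) := by
    rw [Finset.sum_comm]
    refine Finset.sum_congr rfl fun l _ => ?_
    rw [Finset.mul_sum]
  rw [e1, e2, e3, e4, P.self a]
  have e7 : ∀ X Y Z : Pl K → ZMod p, ∑ v ∈ n, (X v + Y v + Z v) =
      ∑ v ∈ n, X v + ∑ v ∈ n, Y v + ∑ v ∈ n, Z v := by
    intro X Y Z
    rw [Finset.sum_add_distrib, Finset.sum_add_distrib]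
  rw [e7, e5, e6]
  ring

theorem ph_two (hp : p.Prime) (hζ : IsPrimitiveRoot ζ p) (D : RD K p ζ) (P : PD p m J)
    (b : Fin m → Kˣ) (g : J → Finset (Pl K)) (a a' : J) (haa : a ≠ a') :
    ∃ c₁ c₂ : Finset (Pl K) → ZMod p, ∀ n n' : Finset (Pl K),
      Adm D.toRD0 (Function.update (Function.update g a n) a' n') →
        ph D.toRD0 P b (Function.update (Function.update g a n) a' n') =
          c₁ n + c₂ n' + P.lk a a' * Lf D.toRD0 n (pf D.toRD0 n') -
            dt (P.θ a') (P.x a) * ∑ i, ∑ j, D.eta i j * qf D.toRD0 n' i * qf D.toRD0 n j := by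
  refine ⟨fun n => ∑ l ∈ Finset.univ.erase a', ∑ v ∈ Function.update g a n l,
      dt (P.θ l) (fun k => D.LL v (b k)) +
      ∑ l ∈ Finset.univ.erase a', ∑ l' ∈ Finset.univ.erase a',
        dt (P.θ l) (P.x l') * Lf D.toRD0 (Function.update g a n l)
          (pf D.toRD0 (Function.update g a n l')),
    fun n' => ∑ v ∈ n', dt (P.θ a') (fun k => D.LL v (b k)) +
      ∑ l ∈ (Finset.univ.erase a').erase a,
        (dt (P.θ a') (P.x l) * Lf D.toRD0 n' (pf D.toRD0 (g l)) +
          dt (P.θ l) (P.x a') * Lf D.toRD0 (g l) (pf D.toRD0 n')), fun n n' hn => ?_⟩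
  obtain ⟨g1, hg1⟩ : ∃ g1 : J → Finset (Pl K), g1 = Function.update g a n := ⟨_, rfl⟩
  rw [← hg1] at hn
  beta_reduce
  rw [← hg1]
  have hne : ∀ l ∈ Finset.univ.erase a', Function.update g1 a' n' l = g1 l := fun l hl =>
    Function.update_of_ne (Finset.ne_of_mem_erase hl) _ _
  have haa' : Function.update g1 a' n' a' = n' := Function.update_self _ _ _
  have h1a : g1 a = n := by
    rw [hg1]
    exact Function.update_self _ _ _
  have h1l : ∀ l ∈ (Finset.univ.erase a').erase a, g1 l = g l := by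
    intro l hl
    rw [hg1]
    exact Function.update_of_ne (Finset.ne_of_mem_erase hl) _ _
  have haE : a ∈ Finset.univ.erase a' := Finset.mem_erase.2 ⟨haa, Finset.mem_univ _⟩
  have hng : ∀ v ∈ n, D.Gd v := by
    have := hn.1 a
    rwa [hne a haE, h1a] at this
  have hng' : ∀ v ∈ n', D.Gd v := by
    have := hn.1 a'
    rwa [haa'] at this
  have hdis : Disjoint n n' := by
    have := hn.2 a a' haa
    rwa [haa', hne a haE, h1a] at this
  unfold ph
  rw [aph_split _ a', ← Finset.add_sum_erase Finset.univ _ (Finset.mem_univ a'), haa']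
  have e1 : ∑ l ∈ Finset.univ.erase a', ∑ v ∈ Function.update g1 a' n' l,
      dt (P.θ l) (fun k => D.LL v (b k)) =
      ∑ l ∈ Finset.univ.erase a', ∑ v ∈ g1 l, dt (P.θ l) (fun k => D.LL v (b k)) :=
    Finset.sum_congr rfl fun l hl => by rw [hne l hl]
  have e2 : ∑ l ∈ Finset.univ.erase a', ∑ l' ∈ Finset.univ.erase a',
      dt (P.θ l) (P.x l') * Lf D.toRD0 (Function.update g1 a' n' l)
        (pf D.toRD0 (Function.update g1 a' n' l')) =
      ∑ l ∈ Finset.univ.erase a', ∑ l' ∈ Finset.univ.erase a',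
      dt (P.θ l) (P.x l') * Lf D.toRD0 (g1 l) (pf D.toRD0 (g1 l')) :=
    Finset.sum_congr rfl fun l hl => Finset.sum_congr rfl fun l' hl' => by
      rw [hne l hl, hne l' hl']
  have e3 : ∑ l ∈ Finset.univ.erase a', (dt (P.θ a') (P.x l) * Lf D.toRD0 n'
        (pf D.toRD0 (Function.update g1 a' n' l)) +
      dt (P.θ l) (P.x a') * Lf D.toRD0 (Function.update g1 a' n' l) (pf D.toRD0 n')) =
      (dt (P.θ a') (P.x a) * Lf D.toRD0 n' (pf D.toRD0 n) +
        dt (P.θ a) (P.x a') * Lf D.toRD0 n (pf D.toRD0 n')) +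
      ∑ l ∈ (Finset.univ.erase a').erase a,
        (dt (P.θ a') (P.x l) * Lf D.toRD0 n' (pf D.toRD0 (g l)) +
          dt (P.θ l) (P.x a') * Lf D.toRD0 (g l) (pf D.toRD0 n')) := by
    rw [← Finset.add_sum_erase _ _ haE, hne a haE, h1a]
    congr 1
    refine Finset.sum_congr rfl fun l hl => ?_
    rw [hne l (Finset.mem_of_mem_erase hl), h1l l hl]
  have e4 := aph_swap hp hζ D hng hng' hdis
  have e5 : ∑ i, ∑ j, D.eta i j * qf D.toRD0 n' i * qf D.toRD0 n j =
      Lf D.toRD0 n (pf D.toRD0 n') - Lf D.toRD0 n' (pf D.toRD0 n) := by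
    rw [e4]
    unfold aphE
    ring
  rw [e1, e2, e3, e5, P.self a']
  unfold PD.lk
  ring

theorem ph_cls (hp : p.Prime) (hp2 : MOne p K) (hζ : IsPrimitiveRoot ζ p) (D : RD K p ζ) (P : PD p m J)
    (b : Fin m → Kˣ) (E : Finset (Pl K)) (hb : BSup D.toRD0 b E) (Lg : Finset J)
    (s : J → Finset (Pl K)) (h1 : ∀ a ∈ Lg, ∀ a' ∈ Lg, P.lk a a' = 0)
    (h2 : ∀ a ∈ Lg, ∀ l, l ∉ Lg → s l ≠ ∅ → P.lk a l = 0)
    (h3 : ∀ a ∈ Lg, ∀ w ∈ E, D.lam w * dord b (P.θ a) w = 0) :
    ∃ f : (J → Fin D.r → ZMod p) → ZMod p,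
      (∀ g : J → Finset (Pl K), Adm D.toRD0 g → (∀ l, l ∉ Lg → g l = s l) →
        ph D.toRD0 P b g = f fun a => qf D.toRD0 (g a)) ∧
      ∀ a ∈ Lg, ∀ a' ∈ Lg, a ≠ a' → P.x a = P.x a' → ∃ κ : Fin D.r → ZMod p,
        (∀ (q : J → Fin D.r → ZMod p) (t : Fin D.r → ZMod p),
          f (Function.update (Function.update q a (q a + t)) a' (q a' - t)) = f q + dt κ t) ∧
        ∀ v, D.Gd v → (∀ l, l ∉ Lg → v ∉ s l) →
          dt κ (D.q v) = D.LL v (bp b (P.θ a - P.θ a')) := by
  have : Fact p.Prime := ⟨hp⟩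
  choose κ' hκ' using fun a => aph_rec D b E hb (P.θ a)
  obtain ⟨c, hc⟩ : ∃ c : J → J → ZMod p, ∀ a a', dt (P.θ a) (P.x a') = c a a' :=
    ⟨fun a a' => dt (P.θ a) (P.x a'), fun _ _ => rfl⟩
  have hcc : ∀ a, c a a = 0 := fun a => by rw [← hc]; exact P.self a
  have hlk : ∀ a l, P.lk a l = 0 → c l a = -c a l := by
    intro a l h
    unfold PD.lk at h
    rw [hc, hc] at h
    linear_combination h
  obtain ⟨ρ, hρ⟩ := exists_injective_nat (Fin m → ZMod p)
  obtain ⟨c', hc'⟩ : ∃ c' : J → J → ZMod p, ∀ a a',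
      (if ρ (P.x a) < ρ (P.x a') then c a a' else 0) = c' a a' :=
    ⟨fun a a' => if ρ (P.x a) < ρ (P.x a') then c a a' else 0, fun _ _ => rfl⟩
  obtain ⟨Lo, hLo⟩ : ∃ Lo : Finset J, Lo = Finset.univ \ Lg := ⟨_, rfl⟩
  have hmLo : ∀ l, l ∈ Lo ↔ l ∉ Lg := by
    intro l
    rw [hLo, Finset.mem_sdiff]
    simp
  have hsum : ∀ F : J → ZMod p, ∑ l, F l = ∑ l ∈ Lg, F l + ∑ l ∈ Lo, F l := by
    intro F
    rw [hLo, add_comm]
    exact (Finset.sum_sdiff (Finset.subset_univ Lg)).symm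
  refine ⟨fun q => ∑ l ∈ Lo, ∑ v ∈ s l, dt (P.θ l) (fun k => D.LL v (b k)) +
    ∑ l ∈ Lo, ∑ l' ∈ Lo, c l l' * Lf D.toRD0 (s l) (pf D.toRD0 (s l')) +
    ∑ a ∈ Lg, dt (κ' a) (q a) +
    ∑ a ∈ Lg, ∑ l ∈ Lo, c a l * aphE D (qf D.toRD0 (s l)) (q a) +
    ∑ a ∈ Lg, ∑ a' ∈ Lg, c' a a' * aphE D (q a') (q a), ?_, ?_⟩
  · intro g hg hgs
    have hgs' : ∀ l ∈ Lo, g l = s l := fun l hl => hgs l ((hmLo l).1 hl)
    have e0 : ∀ a ∈ Lg, ∀ v, D.Gd v → dt (P.θ a) (fun k => D.LL v (b k)) = dt (κ' a) (D.q v) := by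
      intro a ha v hv
      rw [hκ' a v hv]
      have : ∑ w ∈ E, D.lam w * dord b (P.θ a) w * D.LL w (D.pi v) = 0 :=
        Finset.sum_eq_zero fun w hw => by rw [h3 a ha w hw, zero_mul]
      rw [this, zero_add]
    have e1 : ∑ a ∈ Lg, ∑ v ∈ g a, dt (P.θ a) (fun k => D.LL v (b k)) =
        ∑ a ∈ Lg, dt (κ' a) (qf D.toRD0 (g a)) := by
      refine Finset.sum_congr rfl fun a ha => ?_
      rw [← aph_dt_qf]
      exact Finset.sum_congr rfl fun v hv => e0 a ha v (hg.1 a v hv)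
    have e2 : ∑ l ∈ Lo, ∑ v ∈ g l, dt (P.θ l) (fun k => D.LL v (b k)) =
        ∑ l ∈ Lo, ∑ v ∈ s l, dt (P.θ l) (fun k => D.LL v (b k)) :=
      Finset.sum_congr rfl fun l hl => by rw [hgs' l hl]
    obtain ⟨W, hW⟩ : ∃ W : J → J → ZMod p, ∀ a a', Lf D.toRD0 (g a) (pf D.toRD0 (g a')) = W a a' :=
      ⟨_, fun _ _ => rfl⟩
    have hsw : ∀ a a', a ≠ a' → W a a' - W a' a = aphE D (qf D.toRD0 (g a')) (qf D.toRD0 (g a)) := by
      intro a a' h
      rw [← hW, ← hW, aph_swap hp hζ D (hg.1 a) (hg.1 a') (hg.2 a a' h)]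
      ring
    have e3 : ∑ a, ∑ a', dt (P.θ a) (P.x a') * Lf D.toRD0 (g a) (pf D.toRD0 (g a')) =
        ∑ a ∈ Lg, ∑ a' ∈ Lg, c a a' * W a a' +
        ∑ a ∈ Lg, ∑ l ∈ Lo, (c a l * W a l + c l a * W l a) +
        ∑ l ∈ Lo, ∑ l' ∈ Lo, c l l' * W l l' := by
      simp only [hc, hW]
      rw [hsum]
      simp only [hsum]
      simp only [Finset.sum_add_distrib]
      rw [Finset.sum_comm (s := Lo) (t := Lg)]
      ring
    have e4 : ∑ l ∈ Lo, ∑ l' ∈ Lo, c l l' * W l l' =
        ∑ l ∈ Lo, ∑ l' ∈ Lo, c l l' * Lf D.toRD0 (s l) (pf D.toRD0 (s l')) :=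
      Finset.sum_congr rfl fun l hl => Finset.sum_congr rfl fun l' hl' => by
        rw [← hW, hgs' l hl, hgs' l' hl']
    have e5 : ∑ a ∈ Lg, ∑ l ∈ Lo, (c a l * W a l + c l a * W l a) =
        ∑ a ∈ Lg, ∑ l ∈ Lo, c a l * aphE D (qf D.toRD0 (s l)) (qf D.toRD0 (g a)) := by
      refine Finset.sum_congr rfl fun a ha => Finset.sum_congr rfl fun l hl => ?_
      have hlo := (hmLo l).1 hl
      have hal : a ≠ l := fun h => hlo (h ▸ ha)
      by_cases hs : s l = ∅
      · have f1 : W a l = 0 := by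
          rw [← hW, hgs' l hl, hs]
          exact aph_W_empty hp hζ D.toRD0 (hg.1 a)
        have f2 : W l a = 0 := by
          rw [← hW, hgs' l hl, hs]
          unfold Lf
          rw [Finset.sum_empty]
        have f3 : qf D.toRD0 (s l) = 0 := by
          rw [hs]
          unfold qf
          rw [Finset.sum_empty]
        rw [f1, f2, f3, aphE_zero]
        ring
      · have f1 := hlk a l (h2 a ha l hlo hs)
        have f2 := hsw a l hal
        rw [hgs' l hl] at f2
        rw [f1, ← f2]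
        ring
    have e6 : ∑ a ∈ Lg, ∑ a' ∈ Lg, c a a' * W a a' =
        ∑ a ∈ Lg, ∑ a' ∈ Lg, c' a a' * aphE D (qf D.toRD0 (g a')) (qf D.toRD0 (g a)) := by
      have f1 : ∀ a ∈ Lg, ∀ a' ∈ Lg, c a a' = c' a a' - c' a' a := by
        intro a ha a' ha'
        rw [← hc', ← hc']
        rcases lt_trichotomy (ρ (P.x a)) (ρ (P.x a')) with h | h | h
        · rw [if_pos h, if_neg (not_lt.2 h.le), sub_zero]
        · rw [if_neg h.not_lt, if_neg h.symm.not_lt, sub_zero, ← hc, ← hρ h]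
          exact P.self a
        · rw [if_neg (not_lt.2 h.le), if_pos h, zero_sub, hlk a a' (h1 a ha a' ha'), neg_neg]
      have f2 : ∑ a ∈ Lg, ∑ a' ∈ Lg, c a a' * W a a' =
          ∑ a ∈ Lg, ∑ a' ∈ Lg, c' a a' * W a a' - ∑ a ∈ Lg, ∑ a' ∈ Lg, c' a' a * W a a' := by
        rw [← Finset.sum_sub_distrib]
        refine Finset.sum_congr rfl fun a ha => ?_
        rw [← Finset.sum_sub_distrib]
        refine Finset.sum_congr rfl fun a' ha' => ?_
        rw [f1 a ha a' ha']
        ring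
      rw [f2, Finset.sum_comm (f := fun a a' => c' a' a * W a a'), ← Finset.sum_sub_distrib]
      refine Finset.sum_congr rfl fun a ha => ?_
      rw [← Finset.sum_sub_distrib]
      refine Finset.sum_congr rfl fun a' ha' => ?_
      by_cases h : a = a'
      · subst h
        have f3 : c' a a = 0 := by
          rw [← hc', if_neg (lt_irrefl _)]
        rw [f3]
        ring
      · rw [← hsw a a' h]
        ring
    unfold ph
    rw [hsum, e1, e2, e3, e4, e5, e6]
    ring
  · intro a ha a' ha' haa hx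
    refine ⟨κ' a - κ' a', ?_, ?_⟩
    · intro q t
      obtain ⟨e, he⟩ : ∃ e : J → ZMod p, ∀ l, (if l = a then (1 : ZMod p) else
          if l = a' then -1 else 0) = e l := ⟨_, fun _ => rfl⟩
      have hq : ∀ l, Function.update (Function.update q a (q a + t)) a' (q a' - t) l =
          q l + e l • t := by
        intro l
        rw [← he]
        by_cases hl' : l = a'
        · subst hl'
          rw [Function.update_self, if_neg (Ne.symm haa), if_pos rfl, neg_smul, one_smul,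
            sub_eq_add_neg]
        · rw [Function.update_of_ne hl']
          by_cases hl : l = a
          · subst hl
            rw [Function.update_self, if_pos rfl, one_smul]
          · rw [Function.update_of_ne hl, if_neg hl, if_neg hl', zero_smul, add_zero]
      have hE : ∀ F : J → ZMod p, ∑ l ∈ Lg, e l * F l = F a - F a' := by
        intro F
        have g1 : ∀ l ∈ Lg, e l * F l = (if l = a then F l else 0) - (if l = a' then F l else 0) := by
          intro l _
          rw [← he]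
          by_cases hl : l = a
          · have hl' : l ≠ a' := fun h => haa (hl ▸ h)
            rw [if_pos hl, if_pos hl, if_neg hl']
            ring
          · rw [if_neg hl, if_neg hl]
            by_cases hl' : l = a'
            · rw [if_pos hl', if_pos hl']
              ring
            · rw [if_neg hl', if_neg hl']
              ring
        rw [Finset.sum_congr rfl g1, Finset.sum_sub_distrib, Finset.sum_ite_eq' Lg a,
          Finset.sum_ite_eq' Lg a', if_pos ha, if_pos ha']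
      have hca : ∀ l, c l a = c l a' := by
        intro l
        rw [← hc, ← hc, hx]
      have hcl : ∀ l ∈ Lg, c a l = c a' l := by
        intro l hl
        have f1 := hlk a l (h1 a ha l hl)
        have f2 := hlk a' l (h1 a' ha' l hl)
        have f3 := hca l
        linear_combination f1 - f2 - f3
      have hclo : ∀ l ∈ Lo, s l ≠ ∅ → c a l = c a' l := by
        intro l hl hs
        have f1 := hlk a l (h2 a ha l ((hmLo l).1 hl) hs)
        have f2 := hlk a' l (h2 a' ha' l ((hmLo l).1 hl) hs)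
        have f3 := hca l
        linear_combination f1 - f2 - f3
      have hca' : ∀ l, c' l a = c' l a' := by
        intro l
        rw [← hc', ← hc', hx, hca l]
      have hcl' : ∀ l ∈ Lg, c' a l = c' a' l := by
        intro l hl
        rw [← hc', ← hc', hx, hcl l hl]
      simp only [hq]
      have t1 : ∑ l ∈ Lg, dt (κ' l) (q l + e l • t) =
          ∑ l ∈ Lg, dt (κ' l) (q l) + dt (κ' a - κ' a') t := by
        have g1 : ∀ l ∈ Lg, dt (κ' l) (q l + e l • t) = dt (κ' l) (q l) + e l * dt (κ' l) t := by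
          intro l _
          unfold dt
          rw [Finset.mul_sum, ← Finset.sum_add_distrib]
          refine Finset.sum_congr rfl fun i _ => ?_
          rw [Pi.add_apply, Pi.smul_apply, smul_eq_mul]
          ring
        rw [Finset.sum_congr rfl g1, Finset.sum_add_distrib, hE fun l => dt (κ' l) t]
        congr 1
        unfold dt
        rw [← Finset.sum_sub_distrib]
        refine Finset.sum_congr rfl fun i _ => ?_
        rw [Pi.sub_apply]
        ring
      have t2 : ∑ b ∈ Lg, ∑ l ∈ Lo, c b l * aphE D (qf D.toRD0 (s l)) (q b + e b • t) =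
          ∑ b ∈ Lg, ∑ l ∈ Lo, c b l * aphE D (qf D.toRD0 (s l)) (q b) := by
        have g1 : ∀ b ∈ Lg, ∑ l ∈ Lo, c b l * aphE D (qf D.toRD0 (s l)) (q b + e b • t) =
            ∑ l ∈ Lo, c b l * aphE D (qf D.toRD0 (s l)) (q b) +
            e b * ∑ l ∈ Lo, c b l * aphE D (qf D.toRD0 (s l)) t := by
          intro b _
          rw [Finset.mul_sum, ← Finset.sum_add_distrib]
          refine Finset.sum_congr rfl fun l _ => ?_
          rw [aphE_add]
          ring
        rw [Finset.sum_congr rfl g1, Finset.sum_add_distrib,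
          hE fun b => ∑ l ∈ Lo, c b l * aphE D (qf D.toRD0 (s l)) t]
        have g2 : ∑ l ∈ Lo, c a l * aphE D (qf D.toRD0 (s l)) t =
            ∑ l ∈ Lo, c a' l * aphE D (qf D.toRD0 (s l)) t := by
          refine Finset.sum_congr rfl fun l hl => ?_
          by_cases hs : s l = ∅
          · have f3 : qf D.toRD0 (s l) = 0 := by
              rw [hs]
              unfold qf
              rw [Finset.sum_empty]
            rw [f3, aphE_zero]
            ring
          · rw [hclo l hl hs]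
        rw [g2]
        ring
      have t3 : ∑ b ∈ Lg, ∑ b' ∈ Lg, c' b b' * aphE D (q b' + e b' • t) (q b + e b • t) =
          ∑ b ∈ Lg, ∑ b' ∈ Lg, c' b b' * aphE D (q b') (q b) := by
        have g1 : ∀ b ∈ Lg, ∑ b' ∈ Lg, c' b b' * aphE D (q b' + e b' • t) (q b + e b • t) =
            ∑ b' ∈ Lg, c' b b' * aphE D (q b') (q b) +
            e b * ∑ b' ∈ Lg, c' b b' * aphE D (q b') t +
            ∑ b' ∈ Lg, e b' * (c' b b' * (aphE D t (q b) + e b * aphE D t t)) := by
          intro b _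
          rw [Finset.mul_sum, ← Finset.sum_add_distrib, ← Finset.sum_add_distrib]
          refine Finset.sum_congr rfl fun b' _ => ?_
          rw [aphE_lin]
          ring
        have g3 : ∀ b ∈ Lg, ∑ b' ∈ Lg, e b' * (c' b b' * (aphE D t (q b) + e b * aphE D t t)) = 0 := by
          intro b _
          rw [hE fun b' => c' b b' * (aphE D t (q b) + e b * aphE D t t), hca' b, sub_self]
        rw [Finset.sum_congr rfl g1, Finset.sum_add_distrib, Finset.sum_add_distrib,
          Finset.sum_eq_zero g3, hE fun b => ∑ b' ∈ Lg, c' b b' * aphE D (q b') t]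
        have g2 : ∑ b' ∈ Lg, c' a b' * aphE D (q b') t = ∑ b' ∈ Lg, c' a' b' * aphE D (q b') t :=
          Finset.sum_congr rfl fun l hl => by rw [hcl' l hl]
        rw [g2]
        ring
      rw [t1, t2, t3]
      ring
    · intro v hv _
      have e0 : ∀ l ∈ Lg, dt (P.θ l) (fun k => D.LL v (b k)) = dt (κ' l) (D.q v) := by
        intro l hl
        rw [hκ' l v hv]
        have : ∑ w ∈ E, D.lam w * dord b (P.θ l) w * D.LL w (D.pi v) = 0 :=
          Finset.sum_eq_zero fun w hw => by rw [h3 l hl w hw, zero_mul]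
        rw [this, zero_add]
      rw [aph_bp hp hζ D.toRD0 b _ hv.1]
      have g1 : dt (κ' a - κ' a') (D.q v) = dt (κ' a) (D.q v) - dt (κ' a') (D.q v) := by
        unfold dt
        rw [← Finset.sum_sub_distrib]
        refine Finset.sum_congr rfl fun i _ => ?_
        rw [Pi.sub_apply]
        ring
      rw [g1, ← e0 a ha, ← e0 a' ha']
      unfold dt
      rw [← Finset.sum_sub_distrib]
      refine Finset.sum_congr rfl fun i _ => ?_
      rw [Pi.sub_apply]
      ring

end H63.MA
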