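import Pool.Agent.H63.MA.KumC
import Pool.Agent.H63.MA.LBd

/-!
# MA-PZS: the density of the primes at which `c` is locally a `p`-th power

* `pz_spl`: `c` not a `p`-th power in `K`: the set `{v ∤ p, Spl v c}` has prime zeta function
  `(1/p) log (1/(s-1)) + O(1)`. Proof: `L` from `kum_exists`. `PZ_L(univ) = log + O(1)` (`pz_all` for `L`). Group the primes `w` of
  `L` by the prime `v` below (`exists_below`, `below_unique`, `over_finite`): over `v ∤ p` with `Spl v c` there are `p` primes of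
  the same norm (`spl_split`, `split_case`), so they contribute `p PZ_K(Spl)`. Over `v ∤ p` not `Spl`, `p ∣ ord v c`, there is one
  prime of norm `(nm v)^p` (`inert_case`), total `≤ ∑_v (nm v)^{-2} < ∞`. The other `v` (`v ∣ p` or `p ∤ ord v c`) are finitely many.
* `pz_spl2`: `c'` not a `p`-th power in `L = K(c^{1/p})`: the set `{v ∤ p, Spl v c, Spl v c'}` has prime zeta function
  `(1/p²) log + O(1)`. Proof: `pz_spl` for `L` and `inc c'`; the primes `w` over nonsplit `v` contribute `O(1)` as before; over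
  `v` with `Spl v c` all `p` primes `w` have `Spl w (inc c') ↔ Spl v c'`: `spl_iff`: if `c' y^{-p} ≡ 1` modulo `v` the same holds
  modulo `w` (`one1_over`); conversely if `c' z^{-p} ≡ 1` modulo `w`, `z ∈ L`: by `split_case` (`ord w` and `ord v` agree on `K`)
  `z = π^m z₀`, `ord w z₀ = 0`, `z₀ ≡ r ∈ K`, so `c' (π^m r)^{-p} ≡ 1` modulo `w`, hence modulo `v`.
* `kum_indep`: if `c, c'` are independent modulo `p`-th powers in `K` then `c'` is not a `p`-th power in `L`. Proof: `c' = δ^p`;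
  `σ δ / δ` is a `p`-th root of unity, `= ζ^j`; `δ / γ^j` is fixed by `σ`, so in `K` (`kum_fixed`), `c' = c^j y^p`.
-/

set_option autoImplicit false

open scoped NumberField
open IsDedekindDomain

noncomputable section

namespace H63.MA

variable {K : Type} [Field K] [NumberField K]

/-- `c` and `c'` are independent modulo `p`-th powers -/
def Ind2 (p : ℕ) (c c' : Kˣ) : Prop :=
  ∀ i j : ℤ, IsPow p (c ^ i * c' ^ j) → (p : ℤ) ∣ i ∧ (p : ℤ) ∣ j

section pzs

variable {L : Type} [Field L] [NumberField L] [Algebra K L]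

/-- the prime below -/
def pzs_bel (K : Type) [Field K] [NumberField K] {L : Type} [Field L] [NumberField L] [Algebra K L]
    (w : Pl L) : Pl K := (exists_below (K := K) w).choose

theorem pzs_bel_over (w : Pl L) : Over w (pzs_bel K w) := (exists_below (K := K) w).choose_spec

theorem pzs_bel_iff {w : Pl L} {v : Pl K} : Over w v ↔ pzs_bel K w = v :=
  ⟨fun h => below_unique (pzs_bel_over w) h, fun h => h ▸ pzs_bel_over w⟩

/-- the sum over the primes above a set of split primes -/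
theorem pzs_split {p : ℕ} (hp : p.Prime) {ζ : K} (hζ : IsPrimitiveRoot ζ p) {c : Kˣ}
    (H : Kum p K ζ c L) (S : Set (Pl K)) (hS : ∀ v ∈ S, {w : Pl L | Over w v}.ncard = p)
    {s : ℝ} (hs : 1 < s) : PZ {w : Pl L | pzs_bel K w ∈ S} s = p * PZ S s := by
  unfold PZ
  have hsum : Summable fun w : Pl L =>
      Set.indicator {w : Pl L | pzs_bel K w ∈ S} (fun w => (nm w : ℝ) ^ (-s)) w :=
    (pz_summable L hs).indicator _
  have hsum2 : Summable fun x : (Σ v : Pl K, {w : Pl L // pzs_bel K w = v}) =>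
      Set.indicator {w : Pl L | pzs_bel K w ∈ S} (fun w => (nm w : ℝ) ^ (-s))
        ((Equiv.sigmaFiberEquiv (pzs_bel K (L := L))) x) :=
    (Equiv.summable_iff (Equiv.sigmaFiberEquiv (pzs_bel K (L := L)))).2 hsum
  rw [← (Equiv.sigmaFiberEquiv (pzs_bel K (L := L))).tsum_eq, hsum2.tsum_sigma, ← tsum_mul_left]
  apply tsum_congr
  intro v
  by_cases hv : v ∈ S
  · have h1 : ∀ w : {w : Pl L // pzs_bel K w = v},
        Set.indicator {w : Pl L | pzs_bel K w ∈ S} (fun w => (nm w : ℝ) ^ (-s))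
          ((Equiv.sigmaFiberEquiv (pzs_bel K (L := L))) ⟨v, w⟩) = (nm v : ℝ) ^ (-s) := by
      intro w
      have h2 : ((Equiv.sigmaFiberEquiv (pzs_bel K (L := L))) ⟨v, w⟩) = (w : Pl L) := rfl
      have h3 : (w : Pl L) ∈ {w : Pl L | pzs_bel K w ∈ S} := by
        rw [Set.mem_ofPred_eq, w.2]
        exact hv
      rw [h2, Set.indicator_of_mem h3,
        (split_case hp hζ H (hS v hv) (pzs_bel_iff.2 w.2)).2.1]
    rw [tsum_congr h1, tsum_const, Set.indicator_of_mem hv]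
    have h4 : Nat.card {w : Pl L // pzs_bel K w = v} = p := by
      rw [← hS v hv]
      have h5 : {w : Pl L | Over w v} = {w : Pl L | pzs_bel K w = v} := by
        ext w
        exact pzs_bel_iff
      rw [h5]
      rfl
    rw [h4, nsmul_eq_mul]
  · have h1 : ∀ w : {w : Pl L // pzs_bel K w = v},
        Set.indicator {w : Pl L | pzs_bel K w ∈ S} (fun w => (nm w : ℝ) ^ (-s))
          ((Equiv.sigmaFiberEquiv (pzs_bel K (L := L))) ⟨v, w⟩) = 0 := by
      intro w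
      have h2 : ((Equiv.sigmaFiberEquiv (pzs_bel K (L := L))) ⟨v, w⟩) = (w : Pl L) := rfl
      have h3 : (w : Pl L) ∉ {w : Pl L | pzs_bel K w ∈ S} := by
        rw [Set.mem_ofPred_eq, w.2]
        exact hv
      rw [h2, Set.indicator_of_notMem h3]
    rw [tsum_congr h1, tsum_zero, Set.indicator_of_notMem hv, mul_zero]

theorem pzs_finite (p : ℕ) (hp0 : p ≠ 0) (c : Kˣ) :
    {w : Pl L | Above p (pzs_bel K w) ∨ ord (pzs_bel K w) c ≠ 0}.Finite := by
  have h1 : ({v : Pl K | Above p v} ∪ {v : Pl K | ord v c ≠ 0}).Finite :=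
    (finite_above hp0).union (finite_ord c)
  refine (h1.biUnion fun v _ => over_finite (L := L) v).subset ?_
  intro w hw
  rw [Set.mem_iUnion₂]
  exact ⟨pzs_bel K w, hw, pzs_bel_over w⟩

theorem pzs_union (S S' : Set (Pl K)) {s : ℝ} (hs : 1 < s) :
    PZ (S ∪ S') s ≤ PZ S s + PZ S' s := by
  have h1 := pz_add S S' hs
  have h2 := pz_nonneg (S ∩ S') s
  linarith

/-- grouping the primes of `L` by the primes below -/
theorem pzs_group {p : ℕ} (hp : p.Prime) {ζ : K} (hζ : IsPrimitiveRoot ζ p) {c : Kˣ}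
    (H : Kum p K ζ c L) (S : Set (Pl K)) (T : Set (Pl L))
    (hS : ∀ v ∈ S, ¬ Above p v ∧ Spl p ζ v c)
    (hT : ∀ (w : Pl L) (v : Pl K), Over w v → ¬ Above p v → Spl p ζ v c → (w ∈ T ↔ v ∈ S)) :
    ∃ C : ℝ, ∀ s : ℝ, 1 < s → |PZ T s - p * PZ S s| ≤ C := by
  obtain ⟨C1, hC1⟩ := pz_deg L
  obtain ⟨C2, hC2⟩ := pz_finite (pzs_finite (K := K) (L := L) p hp.ne_zero c)
  refine ⟨C1 + C2, ?_⟩
  intro s hs
  have h1 := pzs_split hp hζ H S (fun v hv => spl_split hp hζ H (hS v hv).1 (hS v hv).2) hs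
  rw [← h1]
  have h2 : {w : Pl L | pzs_bel K w ∈ S} ⊆ T := by
    intro w hw
    exact (hT w _ (pzs_bel_over w) (hS _ hw).1 (hS _ hw).2).2 hw
  have h3 : T ⊆ {w : Pl L | pzs_bel K w ∈ S} ∪ ({w : Pl L | ¬ (nm w).Prime} ∪
      {w : Pl L | Above p (pzs_bel K w) ∨ ord (pzs_bel K w) c ≠ 0}) := by
    intro w hw
    by_cases ha : Above p (pzs_bel K w) ∨ ord (pzs_bel K w) c ≠ 0
    · exact Or.inr (Or.inr ha)
    · push Not at ha
      by_cases hsp : Spl p ζ (pzs_bel K w) c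
      · left
        exact (hT w _ (pzs_bel_over w) ha.1 hsp).1 hw
      · right
        left
        have h4 := (inert_case hp hζ H ha.1 (by rw [ha.2]; exact dvd_zero _) hsp
          (pzs_bel_over w)).2
        show ¬ (nm w).Prime
        rw [h4]
        exact Nat.Prime.not_prime_pow hp.two_le
  have h4 := pz_mono h2 hs
  have h5 := pz_mono h3 hs
  have h6 := pzs_union {w : Pl L | pzs_bel K w ∈ S} ({w : Pl L | ¬ (nm w).Prime} ∪
      {w : Pl L | Above p (pzs_bel K w) ∨ ord (pzs_bel K w) c ≠ 0}) hs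
  have h7 := pzs_union {w : Pl L | ¬ (nm w).Prime}
      {w : Pl L | Above p (pzs_bel K w) ∨ ord (pzs_bel K w) c ≠ 0} hs
  have h8 := hC1 s hs
  have h9 := hC2 s hs
  rw [abs_le]
  constructor
  · have h10 := pz_nonneg {w : Pl L | ¬ (nm w).Prime} s
    have h11 := pz_nonneg {w : Pl L | Above p (pzs_bel K w) ∨ ord (pzs_bel K w) c ≠ 0} s
    linarith
  · linarith

theorem pzs_spl_iff {p : ℕ} (hp : p.Prime) {ζ : K} (hζ : IsPrimitiveRoot ζ p) {c : Kˣ}
    (H : Kum p K ζ c L) {v : Pl K} (hv : ¬ Above p v) (hsp : Spl p ζ v c) {w : Pl L}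
    (h : Over w v) (c' : Kˣ) :
    Spl p (algebraMap K L ζ) w (inc K L c') ↔ Spl p ζ v c' := by
  have hζL : IsPrimitiveRoot (algebraMap K L ζ) p :=
    hζ.map_of_injective (algebraMap K L).injective
  have hw : ¬ Above p w := fun h' => hv ((above_over h p).1 h')
  obtain ⟨h1, -, h3⟩ := split_case hp hζ H (spl_split hp hζ H hv hsp) h
  rw [spl_iff hp hζL hw, spl_iff hp hζ hv]
  constructor
  · rintro ⟨z, hz⟩
    obtain ⟨π, hπ⟩ := exists_unif v
    have h4 : ord w (z * (inc K L (π ^ ord w z))⁻¹) = 0 := by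
      rw [ord_mul, ord_inv, h1, ord_zpow, hπ]
      ring
    obtain ⟨r, -, hr⟩ := h3 _ h4
    refine ⟨π ^ ord w z * r, ?_⟩
    rw [← one1_over h]
    have h5 := one1_mul hz (one1_zpow hr (p : ℤ))
    have h6 : inc K L c' * (z ^ p)⁻¹ * (z * (inc K L (π ^ ord w z))⁻¹ * (inc K L r)⁻¹) ^ (p : ℤ) =
        inc K L (c' * ((π ^ ord w z * r) ^ p)⁻¹) := by
      rw [zpow_natCast, mul_pow, mul_pow, map_mul, map_inv, map_pow, map_mul, mul_pow, inv_pow,
        inv_pow, mul_inv]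
      have e : ∀ a b x y : Lˣ, a * b⁻¹ * (b * x * y) = a * (x * y) := by
        intro a b x y
        rw [mul_assoc b x y, mul_assoc a, inv_mul_cancel_left]
      exact e _ _ _ _
    rwa [h6] at h5
  · rintro ⟨y, hy⟩
    refine ⟨inc K L y, ?_⟩
    rw [← map_pow, ← map_inv, ← map_mul, one1_over h]
    exact hy

end pzs

theorem pz_spl {p : ℕ} (hp : p.Prime) {ζ : K} (hζ : IsPrimitiveRoot ζ p) {c : Kˣ}
    (hc : ¬ IsPow p c) : ∃ C : ℝ, ∀ s : ℝ, 1 < s → s ≤ 2 →
      |p * PZ {v : Pl K | ¬ Above p v ∧ Spl p ζ v c} s - Real.log (1 / (s - 1))| ≤ C := by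
  obtain ⟨L, i1, i2, i3, ⟨H⟩⟩ := kum_exists hp hζ hc
  obtain ⟨C1, hC1⟩ := pzs_group hp hζ H {v : Pl K | ¬ Above p v ∧ Spl p ζ v c} Set.univ
    (fun v hv => hv) (fun w v _ h1 h2 => ⟨fun _ => ⟨h1, h2⟩, fun _ => Set.mem_univ _⟩)
  obtain ⟨C2, hC2⟩ := pz_all L
  refine ⟨C1 + C2, ?_⟩
  intro s hs hs2
  have h1 := abs_le.1 (hC1 s hs)
  have h2 := abs_le.1 (hC2 s hs hs2)
  rw [abs_le]
  constructor <;> linarith [h1.1, h1.2, h2.1, h2.2]

theorem kum_indep {L : Type} [Field L] [NumberField L] [Algebra K L] {p : ℕ} (hp : p.Prime) {ζ : K}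
    (hζ : IsPrimitiveRoot ζ p) {c c' : Kˣ} (H : Kum p K ζ c L) (h : Ind2 p c c') :
    ¬ IsPow p (inc K L c') := by
  rintro ⟨δ, hδ⟩
  have hp0 : NeZero p := ⟨hp.ne_zero⟩
  have hζL : IsPrimitiveRoot (algebraMap K L ζ) p :=
    hζ.map_of_injective (algebraMap K L).injective
  have hδL : (δ : L) ^ p = algebraMap K L c' := by
    rw [← Units.val_pow_eq_pow_val, hδ]
    rfl
  have h1 : (H.σ (δ : L) / (δ : L)) ^ p = 1 := by
    rw [div_pow, ← map_pow, hδL, AlgEquiv.commutes, div_self]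
    rw [← hδL]
    exact pow_ne_zero _ δ.ne_zero
  obtain ⟨j, -, hj⟩ := hζL.eq_pow_of_pow_eq_one h1
  have h2 : H.σ (δ : L) = algebraMap K L ζ ^ j * δ := by
    rw [hj, div_mul_cancel₀ _ δ.ne_zero]
  have h3 : H.σ ((δ : L) / (H.γ : L) ^ j) = (δ : L) / (H.γ : L) ^ j := by
    rw [map_div₀, map_pow, H.hσ, h2, mul_pow, mul_div_mul_left]
    exact pow_ne_zero _ (hζL.ne_zero hp.ne_zero)
  obtain ⟨y, hy⟩ := kum_fixed hp hζ H _ h3
  have hy0 : y ≠ 0 := by
    rintro rfl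
    rw [map_zero] at hy
    exact div_ne_zero δ.ne_zero (pow_ne_zero _ H.γ.ne_zero) hy.symm
  have h4 : (Units.mk0 y hy0) ^ p = c ^ (-(j : ℤ)) * c' ^ (1 : ℤ) := by
    apply Units.ext
    apply (algebraMap K L).injective
    rw [Units.val_pow_eq_pow_val, Units.val_mk0, map_pow, hy, div_pow, hδL, ← pow_mul, mul_comm j p,
      pow_mul, H.hγ, zpow_one, zpow_neg, zpow_natCast, Units.val_mul, Units.val_inv_eq_inv_val,
      Units.val_pow_eq_pow_val, map_mul, map_inv₀, map_pow, div_eq_mul_inv, mul_comm]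
  have h5 := (h (-(j : ℤ)) 1 ⟨_, h4⟩).2
  have h6 : (p : ℤ) ≤ 1 := Int.le_of_dvd one_pos h5
  have h7 := hp.two_le
  omega

theorem pz_spl2 {p : ℕ} (hp : p.Prime) {ζ : K} (hζ : IsPrimitiveRoot ζ p) {c c' : Kˣ}
    (hc : Ind2 p c c') : ∃ C : ℝ, ∀ s : ℝ, 1 < s → s ≤ 2 →
      |p ^ 2 * PZ {v : Pl K | ¬ Above p v ∧ Spl p ζ v c ∧ Spl p ζ v c'} s -
        Real.log (1 / (s - 1))| ≤ C := by
  have hc1 : ¬ IsPow p c := by
    intro h
    have h1 : IsPow p (c ^ (1 : ℤ) * c' ^ (0 : ℤ)) := by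
      rw [zpow_one, zpow_zero, mul_one]
      exact h
    have h5 := (hc 1 0 h1).1
    have h6 : (p : ℤ) ≤ 1 := Int.le_of_dvd one_pos h5
    have h7 := hp.two_le
    omega
  obtain ⟨L, i1, i2, i3, ⟨H⟩⟩ := kum_exists hp hζ hc1
  have hζL : IsPrimitiveRoot (algebraMap K L ζ) p :=
    hζ.map_of_injective (algebraMap K L).injective
  have hc2 := kum_indep hp hζ H hc
  obtain ⟨C1, hC1⟩ := pzs_group hp hζ H {v : Pl K | ¬ Above p v ∧ Spl p ζ v c ∧ Spl p ζ v c'}
    {w : Pl L | ¬ Above p w ∧ Spl p (algebraMap K L ζ) w (inc K L c')}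
    (fun v hv => ⟨hv.1, hv.2.1⟩) (by
      intro w v h h1 h2
      have h3 := pzs_spl_iff hp hζ H h1 h2 h c'
      have h4 := above_over h p
      constructor
      · rintro ⟨-, h5⟩
        exact ⟨h1, h2, h3.1 h5⟩
      · rintro ⟨-, -, h5⟩
        exact ⟨fun h6 => h1 (h4.1 h6), h3.2 h5⟩)
  obtain ⟨C2, hC2⟩ := pz_spl hp hζL hc2
  refine ⟨p * C1 + C2, ?_⟩
  intro s hs hs2
  have h1 := hC1 s hs
  have h2 := hC2 s hs hs2
  have h3 : (p : ℝ) ^ 2 * PZ {v : Pl K | ¬ Above p v ∧ Spl p ζ v c ∧ Spl p ζ v c'} s -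
      Real.log (1 / (s - 1)) =
      -(p * (PZ {w : Pl L | ¬ Above p w ∧ Spl p (algebraMap K L ζ) w (inc K L c')} s -
        p * PZ {v : Pl K | ¬ Above p v ∧ Spl p ζ v c ∧ Spl p ζ v c'} s)) +
      (p * PZ {w : Pl L | ¬ Above p w ∧ Spl p (algebraMap K L ζ) w (inc K L c')} s -
        Real.log (1 / (s - 1))) := by ring
  rw [h3]
  refine (abs_add_le _ _).trans (add_le_add ?_ h2)
  rw [abs_neg, abs_mul, Nat.abs_cast]
  exact mul_le_mul_of_nonneg_left h1 (Nat.cast_nonneg _)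

end H63.MA
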