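import Pool.Agent.H63.MA.ADivI

/-!
# MA-ADIVJ: divisor sums over finite sets of primes

Tools: `tau_sum`, `cnt`, `af_card`, `idl_inj`, `idl_norm`.
* `af_inv`: partial summation (dyadic blocks) from `af_card`.
* `af_pow`: `idl` is injective and `k^{#n} ≤ tau k (idl n)` (a function `c : n → Fin k` gives the factorisation
  `j ↦ ∏_{v ∈ n, c v = j} v.asIdeal`, injectively), so `∑_{n ∈ AF y} k^{#n} ≤ C y (1 + log y)^k`; the sum with `1 / nr n` by dyadic blocks.
* `af_tup`: `g ↦ (∏_a k^{#(g a)})`: induction on the number of variables: the sum over the last variable is at most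
  `C (y / ∏ nr) (1 + log y)^A` (`af_pow` with `y / ∏` in place of `y`; there are no terms if this is `< 1`), then
  `∑ ∏ k^{#} / nr ≤ (∑_{n ∈ AF y} k^{#n} / nr n)^{#J - 1}`. (No induction needed: single out one variable.)
* `af_tup_one`: single out one variable `a₀`: `∑_{(g a)_{a ≠ a₀}} C y / ∏_{a ≠ a₀} nr (g a) ≤ C y (∑_{n ∈ AF y} 1/nr n)^{#J - 1}` (`af_card`, `af_inv`).
-/

set_option autoImplicit false

open scoped NumberField
open IsDedekindDomain
open scoped Classical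

noncomputable section

namespace H63.MA

theorem adivj_dy (K : Type) [Field K] [NumberField K] (w : Finset (Pl K) → ℝ)
    (hw : ∀ n, 0 ≤ w n) {C A : ℝ} (hC : 0 ≤ C) (hA : 0 ≤ A)
    (h : ∀ y : ℝ, 1 ≤ y → ∑ n ∈ AF K y, w n ≤ C * y * (1 + Real.log y) ^ A) {y : ℝ}
    (hy : 1 ≤ y) :
    ∑ n ∈ AF K y, w n * (nr n)⁻¹ ≤ (4 * C * (2 : ℝ) ^ A) * (1 + Real.log y) ^ (A + 1) := by
  have hy0 : 0 < y := by linarith
  have hL : 0 ≤ Real.log y := Real.log_nonneg hy
  have hl2 : (1 / 2 : ℝ) < Real.log 2 := by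
    have := Real.log_two_gt_d9
    linarith
  have hl2' : Real.log 2 < 1 := by
    have := Real.log_two_lt_d9
    linarith
  have hfl : ⌊y⌋₊ ≠ 0 := by
    have : 1 ≤ ⌊y⌋₊ := (Nat.one_le_floor_iff y).2 hy
    omega
  have hpt : ∀ n ∈ AF K y, w n * (nr n)⁻¹ ≤ ∑ j ∈ Finset.range (Nat.log 2 ⌊y⌋₊ + 1),
      ((2 : ℝ) ^ j)⁻¹ * (if nr n ≤ 2 ^ (j + 1) then w n else 0) := by
    intro n hn
    have hn1 : nr n ≤ y := mem_AF.1 hn
    have h1 := one_le_nr n
    have h0 : 0 < nr n := by linarith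
    have hfn : ⌊nr n⌋₊ ≠ 0 := by
      have : 1 ≤ ⌊nr n⌋₊ := (Nat.one_le_floor_iff _).2 h1
      omega
    have ha : (2 : ℝ) ^ (Nat.log 2 ⌊nr n⌋₊) ≤ nr n := by
      have h2 : 2 ^ (Nat.log 2 ⌊nr n⌋₊) ≤ ⌊nr n⌋₊ := Nat.pow_log_le_self 2 hfn
      have h3 : ((2 ^ (Nat.log 2 ⌊nr n⌋₊) : ℕ) : ℝ) ≤ (⌊nr n⌋₊ : ℝ) := by exact_mod_cast h2
      push_cast at h3
      exact h3.trans (Nat.floor_le h0.le)
    have hb : nr n ≤ (2 : ℝ) ^ (Nat.log 2 ⌊nr n⌋₊ + 1) := by
      have h2 : ⌊nr n⌋₊ < 2 ^ (Nat.log 2 ⌊nr n⌋₊ + 1) :=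
        Nat.lt_pow_succ_log_self (by norm_num) _
      have h3 : ((⌊nr n⌋₊ + 1 : ℕ) : ℝ) ≤ ((2 ^ (Nat.log 2 ⌊nr n⌋₊ + 1) : ℕ) : ℝ) := by
        exact_mod_cast h2
      push_cast at h3
      exact (Nat.lt_floor_add_one (nr n)).le.trans h3
    have hc : Nat.log 2 ⌊nr n⌋₊ ∈ Finset.range (Nat.log 2 ⌊y⌋₊ + 1) := by
      rw [Finset.mem_range]
      have : Nat.log 2 ⌊nr n⌋₊ ≤ Nat.log 2 ⌊y⌋₊ := Nat.log_mono_right (Nat.floor_mono hn1)
      omega
    calc w n * (nr n)⁻¹ ≤ ((2 : ℝ) ^ (Nat.log 2 ⌊nr n⌋₊))⁻¹ * w n := by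
          rw [mul_comm]
          exact mul_le_mul_of_nonneg_right (inv_anti₀ (by positivity) ha) (hw n)
      _ = ((2 : ℝ) ^ (Nat.log 2 ⌊nr n⌋₊))⁻¹ *
          (if nr n ≤ 2 ^ (Nat.log 2 ⌊nr n⌋₊ + 1) then w n else 0) := by rw [if_pos hb]
      _ ≤ _ := Finset.single_le_sum (f := fun j => ((2 : ℝ) ^ j)⁻¹ *
          (if nr n ≤ 2 ^ (j + 1) then w n else 0)) (fun j _ => by
            have := hw n
            positivity) hc
  have hj : ∀ j ∈ Finset.range (Nat.log 2 ⌊y⌋₊ + 1),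
      ∑ n ∈ AF K y, ((2 : ℝ) ^ j)⁻¹ * (if nr n ≤ 2 ^ (j + 1) then w n else 0) ≤
        2 * C * (2 : ℝ) ^ A * (1 + Real.log y) ^ A := by
    intro j hj
    rw [Finset.mem_range] at hj
    have h2j : (2 : ℝ) ^ j ≤ y := by
      have h1 : 2 ^ j ≤ ⌊y⌋₊ := by
        refine le_trans ?_ (Nat.pow_log_le_self 2 hfl)
        exact Nat.pow_le_pow_right (by norm_num) (by omega)
      have h3 : ((2 ^ j : ℕ) : ℝ) ≤ (⌊y⌋₊ : ℝ) := by exact_mod_cast h1
      push_cast at h3
      exact h3.trans (Nat.floor_le hy0.le)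
    have h2p : (0 : ℝ) < 2 ^ j := by positivity
    have h1p : (1 : ℝ) ≤ 2 ^ (j + 1) := one_le_pow₀ (by norm_num)
    rw [← Finset.mul_sum, ← Finset.sum_filter]
    have hsub : (AF K y).filter (fun n => nr n ≤ 2 ^ (j + 1)) ⊆ AF K (2 ^ (j + 1)) := by
      intro n hn
      rw [Finset.mem_filter] at hn
      exact mem_AF.2 hn.2
    have h4 : ∑ n ∈ (AF K y).filter (fun n => nr n ≤ 2 ^ (j + 1)), w n ≤
        C * 2 ^ (j + 1) * (1 + Real.log (2 ^ (j + 1))) ^ A :=
      (Finset.sum_le_sum_of_subset_of_nonneg hsub (fun n _ _ => hw n)).trans (h _ h1p)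
    have h5 : Real.log ((2 : ℝ) ^ (j + 1)) ≤ Real.log 2 + Real.log y := by
      rw [pow_succ, Real.log_mul h2p.ne' (by norm_num)]
      have := Real.log_le_log h2p h2j
      linarith
    have h6 : 0 ≤ Real.log ((2 : ℝ) ^ (j + 1)) := Real.log_nonneg h1p
    have h7 : (1 + Real.log ((2 : ℝ) ^ (j + 1))) ^ A ≤ (2 : ℝ) ^ A * (1 + Real.log y) ^ A := by
      rw [← Real.mul_rpow (by norm_num) (by linarith)]
      exact Real.rpow_le_rpow (by linarith) (by linarith) hA
    calc ((2 : ℝ) ^ j)⁻¹ * ∑ n ∈ (AF K y).filter (fun n => nr n ≤ 2 ^ (j + 1)), w n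
        ≤ ((2 : ℝ) ^ j)⁻¹ * (C * 2 ^ (j + 1) * (1 + Real.log (2 ^ (j + 1))) ^ A) :=
          mul_le_mul_of_nonneg_left h4 (by positivity)
      _ = 2 * C * (1 + Real.log (2 ^ (j + 1))) ^ A := by
          rw [pow_succ]
          field_simp
      _ ≤ 2 * C * ((2 : ℝ) ^ A * (1 + Real.log y) ^ A) :=
          mul_le_mul_of_nonneg_left h7 (by positivity)
      _ = _ := by ring
  have hJ : ((Nat.log 2 ⌊y⌋₊ + 1 : ℕ) : ℝ) ≤ 2 * (1 + Real.log y) := by
    have h1 : ((2 ^ (Nat.log 2 ⌊y⌋₊) : ℕ) : ℝ) ≤ (⌊y⌋₊ : ℝ) := by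
      exact_mod_cast Nat.pow_log_le_self 2 hfl
    push_cast at h1
    have h2 : (2 : ℝ) ^ (Nat.log 2 ⌊y⌋₊) ≤ y := h1.trans (Nat.floor_le hy0.le)
    have h3 := Real.log_le_log (by positivity) h2
    rw [Real.log_pow] at h3
    push_cast
    have h4 : (0 : ℝ) ≤ (Nat.log 2 ⌊y⌋₊ : ℝ) := Nat.cast_nonneg _
    nlinarith
  have hP : 0 ≤ (1 + Real.log y) ^ A := Real.rpow_nonneg (by linarith) _
  have hP2 : (0 : ℝ) ≤ (2 : ℝ) ^ A := Real.rpow_nonneg (by norm_num) _
  calc ∑ n ∈ AF K y, w n * (nr n)⁻¹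
      ≤ ∑ n ∈ AF K y, ∑ j ∈ Finset.range (Nat.log 2 ⌊y⌋₊ + 1),
        ((2 : ℝ) ^ j)⁻¹ * (if nr n ≤ 2 ^ (j + 1) then w n else 0) := Finset.sum_le_sum hpt
    _ = ∑ j ∈ Finset.range (Nat.log 2 ⌊y⌋₊ + 1), ∑ n ∈ AF K y,
        ((2 : ℝ) ^ j)⁻¹ * (if nr n ≤ 2 ^ (j + 1) then w n else 0) := Finset.sum_comm
    _ ≤ ∑ _j ∈ Finset.range (Nat.log 2 ⌊y⌋₊ + 1),
        2 * C * (2 : ℝ) ^ A * (1 + Real.log y) ^ A := Finset.sum_le_sum hj
    _ = ((Nat.log 2 ⌊y⌋₊ + 1 : ℕ) : ℝ) * (2 * C * (2 : ℝ) ^ A * (1 + Real.log y) ^ A) := by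
        rw [Finset.sum_const, Finset.card_range, nsmul_eq_mul]
    _ ≤ (2 * (1 + Real.log y)) * (2 * C * (2 : ℝ) ^ A * (1 + Real.log y) ^ A) :=
        mul_le_mul_of_nonneg_right hJ (by positivity)
    _ = _ := by
        rw [Real.rpow_add (by linarith), Real.rpow_one]
        ring

theorem adivj_fin (K : Type) [Field K] [NumberField K] (k : ℕ) {I : Ideal (𝓞 K)} (hI : I ≠ ⊥) :
    Finite {f : Fin k → Ideal (𝓞 K) // ∏ j, f j = I} := by
  have h1 : {f : Fin k → Ideal (𝓞 K) | ∏ j, f j = I} ⊆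
      ↑(Fintype.piFinset fun _ : Fin k => IN K (Ideal.absNorm I : ℝ)) := by
    intro f hf
    have hf' : ∏ j, f j = I := hf
    rw [Finset.mem_coe, Fintype.mem_piFinset]
    intro j
    have hd : f j ∣ I := by
      rw [← hf']
      exact Finset.dvd_prod_of_mem f (Finset.mem_univ j)
    have h0 : f j ≠ ⊥ := by
      intro h
      rw [h] at hd
      exact hI (by
        rw [← Ideal.zero_eq_bot] at hd ⊢
        exact zero_dvd_iff.1 hd)
    rw [mem_IN (Nat.cast_nonneg _)]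
    refine ⟨?_, h0⟩
    have h2 : Ideal.absNorm (f j) ∣ Ideal.absNorm I := Ideal.absNorm_dvd_absNorm_of_le
      (Ideal.dvd_iff_le.1 hd)
    have h3 : Ideal.absNorm I ≠ 0 := by
      rw [Ne, Ideal.absNorm_eq_zero_iff]
      exact hI
    exact_mod_cast Nat.le_of_dvd (Nat.pos_of_ne_zero h3) h2
  exact (Set.Finite.subset (Finset.finite_toSet _) h1).to_subtype

theorem adivj_tau (K : Type) [Field K] [NumberField K] (k : ℕ) (n : Finset (Pl K)) :
    k ^ n.card ≤ tau k (idl n) := by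
  have hfin := adivj_fin K k (idl_ne n)
  let N : (n → Fin k) → Fin k → Finset (Pl K) := fun c j =>
    (n.attach.filter (fun v => c v = j)).map (Function.Embedding.subtype _)
  have hprod : ∀ c : n → Fin k, ∏ j, idl (N c j) = idl n := by
    intro c
    have h1 : ∀ j, idl (N c j) = ∏ v ∈ n.attach.filter (fun v => c v = j), v.1.asIdeal := by
      intro j
      show ∏ v ∈ (n.attach.filter (fun v => c v = j)).map (Function.Embedding.subtype _),
        v.asIdeal = _
      rw [Finset.prod_map]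
      rfl
    rw [Finset.prod_congr rfl (fun j _ => h1 j), Finset.prod_fiberwise]
    exact Finset.prod_attach n (fun v => v.asIdeal)
  have hmem : ∀ (c : n → Fin k) (j : Fin k) (v : n), v.1 ∈ N c j ↔ c v = j := by
    intro c j v
    show v.1 ∈ (n.attach.filter (fun v => c v = j)).map (Function.Embedding.subtype _) ↔ _
    rw [Finset.mem_map]
    constructor
    · rintro ⟨u, hu, huv⟩
      have : u = v := Subtype.ext huv
      rw [← this]
      exact (Finset.mem_filter.1 hu).2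
    · intro hv
      exact ⟨v, Finset.mem_filter.2 ⟨Finset.mem_attach _ _, hv⟩, rfl⟩
  let F : (n → Fin k) → {f : Fin k → Ideal (𝓞 K) // ∏ j, f j = idl n} :=
    fun c => ⟨fun j => idl (N c j), hprod c⟩
  have hF : Function.Injective F := by
    intro c c' h
    have h1 : ∀ j, N c j = N c' j := fun j =>
      idl_inj (congrFun (congrArg Subtype.val h) j)
    funext v
    have h2 := (hmem c (c v) v).2 rfl
    rw [h1] at h2
    exact ((hmem c' (c v) v).1 h2).symm
  have h3 := Nat.card_le_card_of_injective F hF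
  have h4 : Nat.card (n → Fin k) = k ^ n.card := by
    rw [Nat.card_eq_fintype_card, Fintype.card_fun, Fintype.card_fin, Fintype.card_coe]
  rw [h4] at h3
  exact h3

theorem adivj_pow1 (K : Type) [Field K] [NumberField K] (k : ℕ) :
    ∃ C : ℝ, 0 < C ∧ ∀ y : ℝ, 1 ≤ y →
      ∑ n ∈ AF K y, (k : ℝ) ^ n.card ≤ C * y * (1 + Real.log y) ^ (k : ℝ) := by
  obtain ⟨C, hC, h⟩ := tau_sum K k
  refine ⟨C, hC, fun y hy => ?_⟩
  have hy0 : 0 < y := by linarith
  rw [Real.rpow_natCast]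
  refine le_trans ?_ (h y hy)
  calc ∑ n ∈ AF K y, (k : ℝ) ^ n.card ≤ ∑ n ∈ AF K y, (tau k (idl n) : ℝ) := by
        apply Finset.sum_le_sum
        intro n _
        exact_mod_cast adivj_tau K k n
    _ = ∑ I ∈ (AF K y).image idl, (tau k I : ℝ) := by
        rw [Finset.sum_image (idl_inj.injOn)]
    _ ≤ _ := by
        apply Finset.sum_le_sum_of_subset_of_nonneg
        · intro I hI
          obtain ⟨n, hn, rfl⟩ := Finset.mem_image.1 hI
          rw [mem_IN hy0.le, idl_norm]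
          exact ⟨mem_AF.1 hn, idl_ne n⟩
        · intro I _ _
          exact Nat.cast_nonneg _

theorem af_inv (K : Type) [Field K] [NumberField K] :
    ∃ C : ℝ, 0 < C ∧ ∀ y : ℝ, 1 ≤ y →
      ∑ n ∈ AF K y, (nr n)⁻¹ ≤ C * (1 + Real.log y) := by
  obtain ⟨C, hC, h⟩ := af_card K
  refine ⟨4 * C * (2 : ℝ) ^ (0 : ℝ), by positivity, fun y hy => ?_⟩
  have h1 := adivj_dy K (fun _ => 1) (fun _ => zero_le_one) (C := C) (A := 0) hC.le le_rfl
    (fun y hy => by
      rw [Real.rpow_zero, mul_one, Finset.sum_const, nsmul_eq_mul, mul_one]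
      exact h y hy) hy
  rw [zero_add, Real.rpow_one] at h1
  simpa using h1

theorem af_pow (K : Type) [Field K] [NumberField K] (k : ℕ) :
    ∃ C A : ℝ, 0 < C ∧ 0 ≤ A ∧ ∀ y : ℝ, 1 ≤ y →
      ∑ n ∈ AF K y, (k : ℝ) ^ n.card ≤ C * y * (1 + Real.log y) ^ A ∧
      ∑ n ∈ AF K y, (k : ℝ) ^ n.card * (nr n)⁻¹ ≤ C * (1 + Real.log y) ^ A := by
  obtain ⟨C, hC, h⟩ := adivj_pow1 K k
  have hk : (0 : ℝ) ≤ (k : ℝ) := Nat.cast_nonneg k
  have h2k : (1 : ℝ) ≤ (2 : ℝ) ^ (k : ℝ) := Real.one_le_rpow (by norm_num) hk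
  refine ⟨4 * C * (2 : ℝ) ^ (k : ℝ), (k : ℝ) + 1, by positivity, by positivity, fun y hy => ?_⟩
  have hL : 0 ≤ Real.log y := Real.log_nonneg hy
  constructor
  · refine (h y hy).trans ?_
    have h1 : (1 + Real.log y) ^ (k : ℝ) ≤ (1 + Real.log y) ^ ((k : ℝ) + 1) :=
      Real.rpow_le_rpow_of_exponent_le (by linarith) (by linarith)
    have h2 : C * y ≤ 4 * C * (2 : ℝ) ^ (k : ℝ) * y := by
      apply mul_le_mul_of_nonneg_right _ (by linarith)
      nlinarith
    exact mul_le_mul h2 h1 (Real.rpow_nonneg (by linarith) _) (by positivity)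
  · exact adivj_dy K (fun n => (k : ℝ) ^ n.card) (fun n => by positivity) hC.le hk h hy

/-- tuples of finite sets of primes: `∏_{j} k^{#n_j}` summed over `∏ nr n_j ≤ y` -/
theorem af_tup (K : Type) [Field K] [NumberField K] (J : Type) [Fintype J] (k : ℕ) :
    ∃ C A : ℝ, 0 < C ∧ 0 ≤ A ∧ ∀ y : ℝ, 1 ≤ y →
      ∑ g ∈ (Fintype.piFinset fun _ : J => AF K y).filter (fun g => ∏ a, nr (g a) ≤ y),
        ∏ a, (k : ℝ) ^ (g a).card ≤ C * y * (1 + Real.log y) ^ A := by
  obtain ⟨C, A, hC, hA, h⟩ := af_pow K k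
  refine ⟨C ^ (Fintype.card J), A * (Fintype.card J), by positivity, by positivity,
    fun y hy => ?_⟩
  have hL : 0 ≤ Real.log y := Real.log_nonneg hy
  have hy0 : 0 < y := by linarith
  calc ∑ g ∈ (Fintype.piFinset fun _ : J => AF K y).filter (fun g => ∏ a, nr (g a) ≤ y),
        ∏ a, (k : ℝ) ^ (g a).card
      ≤ ∑ g ∈ (Fintype.piFinset fun _ : J => AF K y).filter (fun g => ∏ a, nr (g a) ≤ y),
        y * ∏ a, ((k : ℝ) ^ (g a).card * (nr (g a))⁻¹) := by
        apply Finset.sum_le_sum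
        intro g hg
        have h1 := (Finset.mem_filter.1 hg).2
        have h2 : 0 < ∏ a, nr (g a) :=
          Finset.prod_pos fun a _ => lt_of_lt_of_le one_pos (one_le_nr (g a))
        rw [Finset.prod_mul_distrib, Finset.prod_inv_distrib]
        have h3 : 0 ≤ ∏ a, (k : ℝ) ^ (g a).card := by positivity
        have h4 : 1 ≤ y * (∏ a, nr (g a))⁻¹ := by
          rw [← div_eq_mul_inv, one_le_div h2]
          exact h1
        calc ∏ a, (k : ℝ) ^ (g a).card = (∏ a, (k : ℝ) ^ (g a).card) * 1 := (mul_one _).symm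
          _ ≤ (∏ a, (k : ℝ) ^ (g a).card) * (y * (∏ a, nr (g a))⁻¹) :=
              mul_le_mul_of_nonneg_left h4 h3
          _ = _ := by ring
    _ ≤ ∑ g ∈ Fintype.piFinset fun _ : J => AF K y,
        y * ∏ a, ((k : ℝ) ^ (g a).card * (nr (g a))⁻¹) := by
        apply Finset.sum_le_sum_of_subset_of_nonneg (Finset.filter_subset _ _)
        intro g _ _
        have : 0 ≤ ∏ a, ((k : ℝ) ^ (g a).card * (nr (g a))⁻¹) := by
          apply Finset.prod_nonneg
          intro a _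
          have := one_le_nr (g a)
          positivity
        positivity
    _ = y * ∏ _a : J, ∑ n ∈ AF K y, (k : ℝ) ^ n.card * (nr n)⁻¹ := by
        rw [← Finset.mul_sum, Finset.prod_univ_sum]
    _ = y * (∑ n ∈ AF K y, (k : ℝ) ^ n.card * (nr n)⁻¹) ^ (Fintype.card J) := by
        rw [Finset.prod_const, Finset.card_univ]
    _ ≤ y * (C * (1 + Real.log y) ^ A) ^ (Fintype.card J) := by
        apply mul_le_mul_of_nonneg_left _ hy0.le
        apply pow_le_pow_left₀ _ (h y hy).2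
        apply Finset.sum_nonneg
        intro n _
        have := one_le_nr n
        positivity
    _ = _ := by
        rw [mul_pow, ← Real.rpow_natCast ((1 + Real.log y) ^ A), ← Real.rpow_mul (by linarith)]
        ring

/-- sharp exponent of the logarithm for `k = 1` -/
theorem af_tup_one (K : Type) [Field K] [NumberField K] (J : Type) [Fintype J] [Nonempty J] :
    ∃ C : ℝ, 0 < C ∧ ∀ y : ℝ, 1 ≤ y →
      (((Fintype.piFinset fun _ : J => AF K y).filter (fun g => ∏ a, nr (g a) ≤ y)).card : ℝ) ≤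
        C * y * (1 + Real.log y) ^ (Fintype.card J - 1) := by
  obtain ⟨C, hC, h⟩ := af_card K
  obtain ⟨D, hD, hinv⟩ := af_inv K
  obtain ⟨a₀⟩ := (inferInstance : Nonempty J)
  refine ⟨C * D ^ (Fintype.card J - 1), by positivity, fun y hy => ?_⟩
  have hL : 0 ≤ Real.log y := Real.log_nonneg hy
  have hy0 : 0 < y := by linarith
  set T := (Fintype.piFinset fun _ : J => AF K y).filter (fun g => ∏ a, nr (g a) ≤ y) with hT
  set r : (J → Finset (Pl K)) → (J → Finset (Pl K)) := fun g => Function.update g a₀ ∅ with hr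
  have hprod : ∀ g : J → Finset (Pl K), ∏ a, nr (g a) = nr (g a₀) * ∏ a, nr (r g a) := by
    intro g
    have h1 : ∏ a, nr (g a) = nr (g a₀) * ∏ a ∈ Finset.univ.erase a₀, nr (g a) :=
      (Finset.mul_prod_erase Finset.univ (fun a => nr (g a)) (Finset.mem_univ a₀)).symm
    have h2 : ∏ a, nr (r g a) = nr (r g a₀) * ∏ a ∈ Finset.univ.erase a₀, nr (r g a) :=
      (Finset.mul_prod_erase Finset.univ (fun a => nr (r g a)) (Finset.mem_univ a₀)).symm
    have h3 : nr (r g a₀) = 1 := by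
      simp [hr, nr]
    have h4 : ∏ a ∈ Finset.univ.erase a₀, nr (r g a) = ∏ a ∈ Finset.univ.erase a₀, nr (g a) := by
      apply Finset.prod_congr rfl
      intro a ha
      have : a ≠ a₀ := (Finset.mem_erase.1 ha).1
      simp [hr, Function.update_of_ne this]
    rw [h1, h2, h3, h4, one_mul]
  have hpos : ∀ g : J → Finset (Pl K), 0 < ∏ a, nr (g a) := fun g =>
    Finset.prod_pos fun a _ => lt_of_lt_of_le one_pos (one_le_nr (g a))
  have hfib : ∀ f ∈ T.image r, ((T.filter (fun g => r g = f)).card : ℝ) ≤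
      C * y * ∏ a, (nr (f a))⁻¹ := by
    intro f hf
    obtain ⟨g₁, hg₁, hg₁f⟩ := Finset.mem_image.1 hf
    have hge : 1 ≤ y / ∏ a, nr (f a) := by
      rw [one_le_div (hpos f)]
      have h1 := (Finset.mem_filter.1 hg₁).2
      rw [hprod g₁, hg₁f] at h1
      have h2 := one_le_nr (g₁ a₀)
      have h3 := hpos f
      nlinarith
    have hcard : (T.filter (fun g => r g = f)).card ≤ (AF K (y / ∏ a, nr (f a))).card := by
      apply Finset.card_le_card_of_injOn (fun g => g a₀)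
      · intro g hg
        rw [Finset.mem_coe, Finset.mem_filter] at hg
        rw [Finset.mem_coe, mem_AF, le_div_iff₀ (hpos f)]
        have h1 := (Finset.mem_filter.1 hg.1).2
        rw [hprod g, hg.2] at h1
        exact h1
      · intro g hg g' hg' hgg
        rw [Finset.mem_coe, Finset.mem_filter] at hg hg'
        funext a
        by_cases ha : a = a₀
        · rw [ha]
          exact hgg
        · have h1 := congrFun (hg.2.trans hg'.2.symm) a
          simpa [hr, Function.update_of_ne ha] using h1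
    have h5 : ((T.filter (fun g => r g = f)).card : ℝ) ≤
        ((AF K (y / ∏ a, nr (f a))).card : ℝ) := by exact_mod_cast hcard
    refine h5.trans ((h _ hge).trans (le_of_eq ?_))
    rw [Finset.prod_inv_distrib]
    ring
  have himg : T.image r ⊆ Fintype.piFinset fun a : J => if a = a₀ then {∅} else AF K y := by
    intro f hf
    obtain ⟨g, hg, rfl⟩ := Finset.mem_image.1 hf
    rw [Fintype.mem_piFinset]
    intro a
    by_cases ha : a = a₀
    · rw [if_pos ha, ha]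
      simp [hr]
    · rw [if_neg ha]
      have h1 := Fintype.mem_piFinset.1 (Finset.mem_filter.1 hg).1 a
      simpa [hr, Function.update_of_ne ha] using h1
  have hS0 : 0 ≤ ∑ n ∈ AF K y, (nr n)⁻¹ := by
    apply Finset.sum_nonneg
    intro n _
    have := one_le_nr n
    positivity
  calc (T.card : ℝ) = ∑ f ∈ T.image r, ((T.filter (fun g => r g = f)).card : ℝ) := by
        rw [Finset.card_eq_sum_card_image r T]
        push_cast
        rfl
    _ ≤ ∑ f ∈ T.image r, C * y * ∏ a, (nr (f a))⁻¹ := Finset.sum_le_sum hfib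
    _ ≤ ∑ f ∈ Fintype.piFinset fun a : J => if a = a₀ then {∅} else AF K y,
        C * y * ∏ a, (nr (f a))⁻¹ := by
        apply Finset.sum_le_sum_of_subset_of_nonneg himg
        intro f _ _
        have : 0 ≤ ∏ a, (nr (f a))⁻¹ := by
          apply Finset.prod_nonneg
          intro a _
          have := one_le_nr (f a)
          positivity
        positivity
    _ = C * y * ∏ a : J, ∑ n ∈ (if a = a₀ then {∅} else AF K y), (nr n)⁻¹ := by
        rw [← Finset.mul_sum, Finset.prod_univ_sum]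
    _ = C * y * (∑ n ∈ AF K y, (nr n)⁻¹) ^ (Fintype.card J - 1) := by
        congr 1
        rw [← Finset.mul_prod_erase Finset.univ _ (Finset.mem_univ a₀)]
        have h1 : ∑ n ∈ (if a₀ = a₀ then ({∅} : Finset (Finset (Pl K))) else AF K y),
            (nr n)⁻¹ = 1 := by
          rw [if_pos rfl, Finset.sum_singleton]
          simp [nr]
        rw [h1, one_mul]
        rw [Finset.prod_congr rfl (g := fun _ => ∑ n ∈ AF K y, (nr n)⁻¹)
          (fun a ha => by rw [if_neg (Finset.mem_erase.1 ha).1])]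
        rw [Finset.prod_const, Finset.card_erase_of_mem (Finset.mem_univ a₀), Finset.card_univ]
    _ ≤ C * y * (D * (1 + Real.log y)) ^ (Fintype.card J - 1) := by
        apply mul_le_mul_of_nonneg_left _ (by positivity)
        exact pow_le_pow_left₀ hS0 (hinv y hy) _
    _ = _ := by
        rw [mul_pow]
        ring

end H63.MA
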