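import Pool.Agent.H63.MA.IdSum

/-!
# MA-PV: Polya-Vinogradov type bound for ray class characters, and the number of ideals

* `cnt`: `|#{I : N I ≤ y} - κ y| ≤ C y^{1-δ}` for `y ≥ 1`, with `κ > 0`.
* `cnt_short` (consequence): `#{I : y < N I ≤ (1+θ) y} ≤ C (θ y + y^{1-δ})` for `0 ≤ θ ≤ 1`.
* `pv`: `|∑_{N I ≤ y} χ(I)| ≤ C (N 𝔣)^A y^{1-δ}` for all ray class characters of modulus `𝔣`, nontrivial.

Proof. Let `h : ℝ → ℝ` be Lipschitz, `0 ≤ h ≤ 1`, supported in `[1,4]`, with `∑_{m ≥ 0} h(2^m t) = 1` for `0 < t ≤ 2` and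
`= 0` for `t > 4` (tents: `h₀(t) = ` piecewise linear, `h₀ = t - 1` on `[1,2]`, `(4 - t)/2` on `[2,4]`, `h₀(t) + h₀(2t) = 1` for
`t ∈ [1,2]`; the sum over all `m ≥ 0` of `h₀(2^m t)` is `1` for `0 < t ≤ 2`). For `0 < θ ≤ 1` let `G_θ(t) = 1` for `t ≤ 1`, linear to `0` at
`t = 1 + θ`. For `N I ≤ 2y`: `G_θ(N I/y) = ∑_{m ≥ 0} h₀(2^m N I/y) G_θ(N I/y)`, so
`∑_I χ(I) G_θ(N I/y) = ∑_{m ≥ 0} smo χ g_m (y/2^m)` with `g_m(t) = h₀(t) G_θ(t/2^m)`, `2/θ`-Lipschitz (`g_m = h₀` for `m ≥ 2`); only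
`2^m ≤ 4 y` gives nonzero terms (`N I ≥ 1`; for the last few `m` with `y/2^m < 1` estimate trivially by a constant).
`smo_ray` and summation over `m` (geometric series if `d ≥ 2`; if `d = 1` the exponent is `0` and one gets `log y ≤ C y^{δ}`):
`∑_I χ(I) G_θ(N I/y) = κ_θ M y + O((N 𝔣)^A θ^{-1} y^{1-1/d} log (2 y))`, `κ_θ = ∑_m 2^{-m} μ(g_m)`. (`M = 0` for nontrivial `χ`.)
For the trivial character of modulus `⊤`: `κ_θ = μ_0 + O(θ)` since `κ_θ` is decreasing to a limit as `θ → 0` and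
`|κ_θ - κ_{θ'}| ≤ C ∫ Φ 1[1 ≤ N x ≤ 1 + θ] ≤ C' θ` for `θ' ≤ θ` (volume scaling: `vol {Φ ≠ 0, N x ≤ t} = t vol {Φ ≠ 0, N x ≤ 1}` by `hom`, finite
by `bound`). Since `1[N I ≤ y] ≤ G_θ(N I/y) ≤ 1[N I ≤ (1+θ) y]` one gets `cnt` with `θ = y^{-1/(2d)}` (`κ > 0`: `κ_θ ≥ ∑_{m≥2} 2^{-m} μ(h₀)`
and `μ(h₀) > 0` because `Φ > 0` somewhere on `2 ≤ N x ≤ 3`: by `sum`). `cnt_short` follows from `cnt`. For nontrivial `χ`:
`|∑_{N I ≤ y} χ(I) - ∑ χ(I) G_θ(N I/y)| ≤ #{y < N I ≤ (1+θ) y} ≤ C (θ y + y^{1-δ})`, again `θ = y^{-1/(2d)}`.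
-/

set_option autoImplicit false

open scoped NumberField NNReal Topology
open NumberField MeasureTheory Filter

noncomputable section

namespace H63.MA

/-- number of nonzero ideals of norm at most `y` -/
private def pvF (K : Type) [Field K] [NumberField K] (y : ℝ) : ℝ := ((IN K y).card : ℝ)

private theorem pvF_sub {K : Type} [Field K] [NumberField K] {x y : ℝ} (hx : 0 ≤ x) (hxy : x ≤ y) :
    IN K x ⊆ IN K y := by
  intro I hI
  rw [mem_IN hx] at hI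
  rw [mem_IN (hx.trans hxy)]
  exact ⟨hI.1.trans hxy, hI.2⟩

private theorem pvF_mono {K : Type} [Field K] [NumberField K] {x y : ℝ} (hx : 0 ≤ x) (hxy : x ≤ y) :
    pvF K x ≤ pvF K y := by
  unfold pvF
  exact_mod_cast Finset.card_le_card (pvF_sub hx hxy)

private theorem pvF_nonneg {K : Type} [Field K] [NumberField K] {x : ℝ} : 0 ≤ pvF K x :=
  Nat.cast_nonneg _

private theorem pvF_lim (K : Type) [Field K] [NumberField K] :
    ∃ κ : ℝ, 0 < κ ∧ Tendsto (fun y : ℝ => pvF K y / y) atTop (𝓝 κ) := by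
  refine ⟨dedekindZeta_residue K, dedekindZeta_residue_pos K, ?_⟩
  refine (NumberField.Ideal.tendsto_norm_le_div_atTop₀ K).congr' ?_
  filter_upwards [eventually_ge_atTop 0] with s hs
  congr 1
  unfold pvF
  have e : {I : nonZeroDivisors (Ideal (𝓞 K)) // (Ideal.absNorm (I : Ideal (𝓞 K)) : ℝ) ≤ s}
      ≃ {I // I ∈ IN K s} :=
    { toFun := fun I => ⟨I.1.1, (mem_IN hs).2 ⟨I.2, nonZeroDivisors.ne_zero I.1.2⟩⟩
      invFun := fun J => ⟨⟨J.1, mem_nonZeroDivisors_of_ne_zero ((mem_IN hs).1 J.2).2⟩,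
        ((mem_IN hs).1 J.2).1⟩
      left_inv := fun I => rfl
      right_inv := fun J => rfl }
  rw [Nat.card_congr e, Nat.card_eq_fintype_card, Fintype.card_coe]

/-- trapezoid -/
private def trp (a b θ t : ℝ) : ℝ := max 0 (min 1 (min ((t - a) / θ) ((b - t) / θ)))

private theorem trp_nonneg (a b θ t : ℝ) : 0 ≤ trp a b θ t := le_max_left _ _

private theorem trp_le_one (a b θ t : ℝ) : trp a b θ t ≤ 1 :=
  max_le zero_le_one (min_le_left _ _)

private theorem trp_zero {a b θ t : ℝ} (hθ : 0 < θ) (h : t ≤ a ∨ b ≤ t) : trp a b θ t = 0 := by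
  unfold trp
  refine max_eq_left ((min_le_right _ _).trans ?_)
  rcases h with h | h
  · exact (min_le_left _ _).trans (div_nonpos_of_nonpos_of_nonneg (by linarith) hθ.le)
  · exact (min_le_right _ _).trans (div_nonpos_of_nonpos_of_nonneg (by linarith) hθ.le)

private theorem trp_one {a b θ t : ℝ} (hθ : 0 < θ) (h1 : a + θ ≤ t) (h2 : t ≤ b - θ) :
    trp a b θ t = 1 := by
  unfold trp
  have h3 : 1 ≤ (t - a) / θ := by rw [le_div_iff₀ hθ]; linarith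
  have h4 : 1 ≤ (b - t) / θ := by rw [le_div_iff₀ hθ]; linarith
  rw [min_eq_left (le_min h3 h4)]
  exact max_eq_right zero_le_one

private theorem trp_lip {a b θ : ℝ} (hθ : 0 < θ) :
    LipschitzWith (Real.toNNReal (1 / θ)) (trp a b θ) := by
  have hc : ((Real.toNNReal (1 / θ) : ℝ≥0) : ℝ) = 1 / θ := Real.coe_toNNReal _ (by positivity)
  have h1 : LipschitzWith (Real.toNNReal (1 / θ)) (fun t : ℝ => (t - a) / θ) := by
    refine LipschitzWith.of_dist_le_mul (fun x y => ?_)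
    rw [Real.dist_eq, Real.dist_eq, hc, ← sub_div, abs_div, abs_of_pos hθ]
    apply le_of_eq
    rw [show x - a - (y - a) = x - y by ring]
    ring
  have h2 : LipschitzWith (Real.toNNReal (1 / θ)) (fun t : ℝ => (b - t) / θ) := by
    refine LipschitzWith.of_dist_le_mul (fun x y => ?_)
    rw [Real.dist_eq, Real.dist_eq, hc, ← sub_div, abs_div, abs_of_pos hθ]
    apply le_of_eq
    rw [show b - x - (b - y) = -(x - y) by ring, abs_neg]
    ring
  have h3 : LipschitzWith (Real.toNNReal (1 / θ))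
      (fun t : ℝ => min ((t - a) / θ) ((b - t) / θ)) := by
    have := h1.min h2
    rwa [max_self] at this
  exact (h3.const_min 1).const_max 0


private theorem pv_ind {K : Type} [Field K] [NumberField K] {x y z : ℝ} (hx : 0 ≤ x) (hxy : x ≤ y)
    (hyz : y ≤ z) :
    ∑ I ∈ IN K z, (if x < (Ideal.absNorm I : ℝ) ∧ (Ideal.absNorm I : ℝ) ≤ y then (1 : ℝ) else 0)
      = pvF K y - pvF K x := by
  classical
  have hy := hx.trans hxy
  have hz := hy.trans hyz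
  rw [← Finset.sum_filter, Finset.sum_const, nsmul_eq_mul, mul_one]
  have e : (IN K z).filter (fun I => x < (Ideal.absNorm I : ℝ) ∧ (Ideal.absNorm I : ℝ) ≤ y)
      = IN K y \ IN K x := by
    ext I
    rw [Finset.mem_filter, Finset.mem_sdiff, mem_IN hx, mem_IN hy, mem_IN hz]
    constructor
    · rintro ⟨⟨h1, h2⟩, h3, h4⟩
      exact ⟨⟨h4, h2⟩, fun h5 => absurd h5.1 (not_le.2 h3)⟩
    · rintro ⟨⟨h1, h2⟩, h3⟩
      refine ⟨⟨h1.trans hyz, h2⟩, ?_, h1⟩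
      by_contra hc
      exact h3 ⟨not_lt.1 hc, h2⟩
  rw [e, Finset.cast_card_sdiff (pvF_sub hx hxy)]
  rfl

/-- the smooth sum -/
private def pvS (K : Type) [Field K] [NumberField K] (a b θ Y : ℝ) : ℝ :=
  ∑ I ∈ IN K (4 * Y), trp a b θ ((Ideal.absNorm I : ℝ) / Y)

private theorem pvS_le {K : Type} [Field K] [NumberField K] {a b θ Y : ℝ} (ha : 0 ≤ a)
    (hab : a ≤ b) (hb : b ≤ 4) (hθ : 0 < θ) (hY : 0 < Y) :
    pvS K a b θ Y ≤ pvF K (b * Y) - pvF K (a * Y) := by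
  rw [← pv_ind (z := 4 * Y) (by positivity) (mul_le_mul_of_nonneg_right hab hY.le)
    (mul_le_mul_of_nonneg_right hb hY.le)]
  unfold pvS
  refine Finset.sum_le_sum (fun I _ => ?_)
  split_ifs with h
  · exact trp_le_one _ _ _ _
  · apply le_of_eq
    apply trp_zero hθ
    by_contra hc
    push Not at hc
    apply h
    constructor
    · exact (lt_div_iff₀ hY).1 hc.1
    · exact ((div_lt_iff₀ hY).1 hc.2).le

private theorem le_pvS {K : Type} [Field K] [NumberField K] {a b θ Y : ℝ} (ha : 0 ≤ a)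
    (hab : a + θ ≤ b - θ) (hb : b ≤ 4) (hθ : 0 < θ) (hY : 0 < Y) :
    pvF K ((b - θ) * Y) - pvF K ((a + θ) * Y) ≤ pvS K a b θ Y := by
  rw [← pv_ind (z := 4 * Y) (by positivity) (mul_le_mul_of_nonneg_right hab hY.le)
    (mul_le_mul_of_nonneg_right (by linarith) hY.le)]
  unfold pvS
  refine Finset.sum_le_sum (fun I _ => ?_)
  split_ifs with h
  · apply le_of_eq
    symm
    apply trp_one hθ
    · exact ((lt_div_iff₀ hY).2 h.1).le
    · exact (div_le_iff₀ hY).2 h.2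
  · exact trp_nonneg _ _ _ _

/-- the trivial character -/
private theorem pv_triv (K : Type) [Field K] [NumberField K] :
    ∃ χ : RC K ⊤, ¬ χ.Non ∧ ∀ I : Ideal (𝓞 K), I ≠ ⊥ → χ.χ I = 1 := by
  classical
  have hcop : ∀ I : Ideal (𝓞 K), IsCoprime I ⊤ := fun I => by
    rw [← Ideal.one_eq_top]
    exact isCoprime_one_right
  have hz : (⊥ : Ideal (𝓞 K)) = 0 := rfl
  refine ⟨⟨{ toFun := fun I => if I = ⊥ then 0 else 1
             map_zero' := by simp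
             map_one' := by
               rw [if_neg]
               rw [hz]
               exact one_ne_zero
             map_mul' := fun I J => by
               by_cases hI : I = ⊥
               · simp [hI]
               by_cases hJ : J = ⊥
               · simp [hJ]
               have hIJ : I * J ≠ ⊥ := by
                 rw [hz] at hI hJ ⊢
                 exact mul_ne_zero hI hJ
               simp [hI, hJ, hIJ] }, ?_, ?_, ?_⟩, ?_, ?_⟩
  · intro I hI _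
    show ‖(if I = ⊥ then (0 : ℂ) else 1)‖ = 1
    rw [if_neg hI, norm_one]
  · intro I hI
    exact absurd (hcop I) hI
  · intro x hx _
    show (if Ideal.span {x} = ⊥ then (0 : ℂ) else 1) = 1
    rw [if_neg]
    rw [Ideal.span_singleton_eq_bot]
    exact hx
  · rintro ⟨I, hI, -, h⟩
    apply h
    show (if I = ⊥ then (0 : ℂ) else 1) = 1
    rw [if_neg hI]
  · intro I hI
    show (if I = ⊥ then (0 : ℂ) else 1) = 1
    rw [if_neg hI]

open scoped Classical in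
private theorem pvS_asymp (K : Type) [Field K] [NumberField K] :
    ∃ C : ℝ, 0 < C ∧ ∀ a b θ : ℝ, 1 ≤ a → b ≤ 4 → 0 < θ → ∃ μ : ℝ, ∀ Y : ℝ, 1 ≤ Y →
      |pvS K a b θ Y - μ * Y| ≤ C * (1 + 1 / θ) * Y ^ (1 - 1 / (Module.finrank ℚ K : ℝ)) := by
  obtain ⟨Φ, C₁, hΦ⟩ := exists_unitPart K
  obtain ⟨c₀, C, A, hc₀, hC, hA, h⟩ := smo_ray Φ C₁ hΦ
  obtain ⟨χ, hχ, hχ1⟩ := pv_triv K
  obtain ⟨M, -, hM, hs⟩ := h ⊤ top_ne_bot χ
  obtain ⟨m, hm, rfl⟩ := hM rfl hχ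
  refine ⟨C, hC, fun a b θ ha hb hθ => ?_⟩
  refine ⟨c₀ * (∫ x, Φ x * trp a b θ (mixedEmbedding.norm x)) * m, fun Y hY => ?_⟩
  have h1 := hs (trp a b θ) (Real.toNNReal (1 / θ)) (trp_lip hθ)
    (fun t => by rw [abs_of_nonneg (trp_nonneg _ _ _ _)]; exact trp_le_one _ _ _ _)
    (fun t ht => trp_zero hθ (by
      rcases ht with h | h
      · left; linarith
      · right; linarith)) Y hY
  rw [Ideal.absNorm_top, Nat.cast_one, Real.one_rpow, mul_one,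
    Real.coe_toNNReal _ (by positivity)] at h1
  have e1 : smo χ.χ (trp a b θ) Y = ((pvS K a b θ Y : ℝ) : ℂ) := by
    unfold smo pvS
    rw [Complex.ofReal_sum]
    refine Finset.sum_congr rfl (fun I hI => ?_)
    rw [hχ1 I ((mem_IN (by linarith)).1 hI).2, one_mul]
  rw [e1] at h1
  have e2 : ((pvS K a b θ Y : ℝ) : ℂ) -
      ((c₀ * ∫ x, Φ x * trp a b θ (mixedEmbedding.norm x) : ℝ) : ℂ) * Y * (m : ℂ)
      = ((pvS K a b θ Y - c₀ * (∫ x, Φ x * trp a b θ (mixedEmbedding.norm x)) * m * Y : ℝ) : ℂ) := by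
    push_cast
    ring
  rw [e2, Complex.norm_real, Real.norm_eq_abs] at h1
  exact h1


private theorem pv_scale {K : Type} [Field K] [NumberField K] {κ : ℝ}
    (hκ : Tendsto (fun y : ℝ => pvF K y / y) atTop (𝓝 κ)) {c : ℝ} (hc : 0 < c) :
    Tendsto (fun Y : ℝ => pvF K (c * Y) / Y) atTop (𝓝 (κ * c)) := by
  have h1 : Tendsto (fun Y : ℝ => c * Y) atTop atTop := tendsto_id.const_mul_atTop hc
  have h2 := (hκ.comp h1).mul_const c
  refine h2.congr' ?_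
  filter_upwards [eventually_gt_atTop 0] with Y hY
  simp only [Function.comp]
  field_simp

private theorem pv_mu {K : Type} [Field K] [NumberField K] {κ : ℝ}
    (hκ : Tendsto (fun y : ℝ => pvF K y / y) atTop (𝓝 κ)) {a b θ μ E : ℝ} (ha : 1 ≤ a)
    (hab : a + θ ≤ b - θ) (hb : b ≤ 4) (hθ : 0 < θ)
    (h : ∀ Y : ℝ, 1 ≤ Y →
      |pvS K a b θ Y - μ * Y| ≤ E * Y ^ (1 - 1 / (Module.finrank ℚ K : ℝ))) :
    κ * (b - a - 2 * θ) ≤ μ ∧ μ ≤ κ * (b - a) := by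
  have hd : (0 : ℝ) < 1 / (Module.finrank ℚ K : ℝ) := by
    have : (0 : ℝ) < (Module.finrank ℚ K : ℝ) := by exact_mod_cast Module.finrank_pos
    positivity
  have hlim : Tendsto (fun Y : ℝ => pvS K a b θ Y / Y) atTop (𝓝 μ) := by
    rw [tendsto_iff_norm_sub_tendsto_zero]
    have h1 : Tendsto (fun Y : ℝ => E * Y ^ (-(1 / (Module.finrank ℚ K : ℝ)))) atTop (𝓝 0) := by
      have := (tendsto_rpow_neg_atTop hd).const_mul E
      rwa [mul_zero] at this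
    refine squeeze_zero' (Eventually.of_forall (fun _ => norm_nonneg _)) ?_ h1
    filter_upwards [eventually_ge_atTop 1] with Y hY
    have hY0 : 0 < Y := by linarith
    have h2 := h Y hY
    rw [Real.norm_eq_abs]
    have e1 : pvS K a b θ Y / Y - μ = (pvS K a b θ Y - μ * Y) / Y := by
      field_simp
    rw [e1, abs_div, abs_of_pos hY0, div_le_iff₀ hY0]
    refine h2.trans (le_of_eq ?_)
    rw [mul_assoc]
    congr 1
    nth_rewrite 3 [← Real.rpow_one Y]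
    rw [← Real.rpow_add hY0]
    congr 1
    ring
  constructor
  · have h1 := (pv_scale hκ (c := b - θ) (by linarith)).sub (pv_scale hκ (c := a + θ) (by linarith))
    have h2 := le_of_tendsto_of_tendsto h1 hlim (by
      filter_upwards [eventually_gt_atTop 0] with Y hY
      rw [← sub_div]
      exact div_le_div_of_nonneg_right (le_pvS (by linarith) hab hb hθ hY) hY.le)
    linarith
  · have h1 := (pv_scale hκ (c := b) (by linarith)).sub (pv_scale hκ (c := a) (by linarith))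
    have h2 := le_of_tendsto_of_tendsto hlim h1 (by
      filter_upwards [eventually_gt_atTop 0] with Y hY
      rw [← sub_div]
      exact div_le_div_of_nonneg_right (pvS_le (by linarith) (by linarith) hb hθ hY) hY.le)
    linarith

/-- the number of ideals with `3/2 Y < N I ≤ 3 Y` -/
private theorem pv_dy {K : Type} [Field K] [NumberField K] {κ : ℝ} (hκ0 : 0 < κ)
    (hκ : Tendsto (fun y : ℝ => pvF K y / y) atTop (𝓝 κ)) :
    ∃ C : ℝ, 0 < C ∧ ∀ Y : ℝ, 1 ≤ Y →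
      |(pvF K (3 * Y) - pvF K (3 / 2 * Y)) - κ * (3 / 2 * Y)| ≤
        C * Y ^ (1 - 1 / (2 * (Module.finrank ℚ K : ℝ))) := by
  obtain ⟨C, hC, h⟩ := pvS_asymp K
  obtain ⟨δ, hδ⟩ : ∃ δ : ℝ, δ = 1 / (2 * (Module.finrank ℚ K : ℝ)) := ⟨_, rfl⟩
  have hd1 : (1 : ℝ) ≤ (Module.finrank ℚ K : ℝ) := by
    exact_mod_cast (Module.finrank_pos : 0 < Module.finrank ℚ K)
  have hδ0 : 0 < δ := by
    rw [hδ]
    positivity
  have hδ2 : 1 / (Module.finrank ℚ K : ℝ) = 2 * δ := by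
    rw [hδ]
    field_simp
  rw [← hδ]
  refine ⟨κ / 2 + 5 * C, by positivity, fun Y hY => ?_⟩
  have hY0 : 0 < Y := by linarith
  obtain ⟨θ, hθ⟩ : ∃ θ : ℝ, θ = 1 / 4 * Y ^ (-δ) := ⟨_, rfl⟩
  have hYδ : Y ^ (-δ) ≤ 1 := Real.rpow_le_one_of_one_le_of_nonpos hY (by linarith)
  have hYδ0 : 0 < Y ^ (-δ) := Real.rpow_pos_of_pos hY0 _
  have hθ0 : 0 < θ := by rw [hθ]; positivity
  have hθ1 : θ ≤ 1 / 4 := by rw [hθ]; linarith
  have hmul : Y ^ (-δ) * Y = Y ^ (1 - δ) := by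
    nth_rewrite 2 [← Real.rpow_one Y]
    rw [← Real.rpow_add hY0]
    congr 1
    ring
  have hθY : θ * Y = 1 / 4 * Y ^ (1 - δ) := by
    rw [hθ, mul_assoc, hmul]
  have hE : C * (1 + 1 / θ) * Y ^ (1 - 1 / (Module.finrank ℚ K : ℝ)) ≤ 5 * C * Y ^ (1 - δ) := by
    rw [hδ2]
    have h1 : 1 / θ = 4 * Y ^ δ := by
      rw [hθ, Real.rpow_neg hY0.le]
      field_simp
    have h2 : Y ^ δ * Y ^ (1 - 2 * δ) = Y ^ (1 - δ) := by
      rw [← Real.rpow_add hY0]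
      congr 1
      ring
    have h3 : Y ^ (1 - 2 * δ) ≤ Y ^ (1 - δ) :=
      Real.rpow_le_rpow_of_exponent_le hY (by linarith)
    calc C * (1 + 1 / θ) * Y ^ (1 - 2 * δ)
        = C * (Y ^ (1 - 2 * δ) + 4 * (Y ^ δ * Y ^ (1 - 2 * δ))) := by rw [h1]; ring
      _ ≤ C * (Y ^ (1 - δ) + 4 * Y ^ (1 - δ)) := by
          rw [h2]
          exact mul_le_mul_of_nonneg_left (by linarith) hC.le
      _ = 5 * C * Y ^ (1 - δ) := by ring
  obtain ⟨μ₁, hμ₁⟩ := h (3 / 2) 3 θ (by norm_num) (by norm_num) hθ0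
  obtain ⟨μ₂, hμ₂⟩ := h (3 / 2 - θ) (3 + θ) θ (by linarith) (by linarith) hθ0
  obtain ⟨m1, -⟩ := pv_mu hκ (by norm_num) (by linarith) (by norm_num) hθ0 hμ₁
  obtain ⟨-, m2⟩ := pv_mu hκ (by linarith) (by linarith) (by linarith) hθ0 hμ₂
  have s1 := pvS_le (K := K) (a := 3 / 2) (b := 3) (θ := θ) (by norm_num) (by norm_num)
    (by norm_num) hθ0 hY0
  have s2 := le_pvS (K := K) (a := 3 / 2 - θ) (b := 3 + θ) (θ := θ) (by linarith) (by linarith)
    (by linarith) hθ0 hY0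
  rw [show 3 + θ - θ = 3 by ring, show 3 / 2 - θ + θ = 3 / 2 by ring] at s2
  have b1 := (abs_le.1 (hμ₁ Y hY)).1
  have b2 := (abs_le.1 (hμ₂ Y hY)).2
  have n1 : κ * (3 - 3 / 2 - 2 * θ) * Y ≤ μ₁ * Y := mul_le_mul_of_nonneg_right m1 hY0.le
  have n2 : μ₂ * Y ≤ κ * (3 + θ - (3 / 2 - θ)) * Y := mul_le_mul_of_nonneg_right m2 hY0.le
  have e1 : κ * (3 - 3 / 2 - 2 * θ) * Y = κ * (3 / 2 * Y) - 2 * κ * (θ * Y) := by ring
  have e2 : κ * (3 + θ - (3 / 2 - θ)) * Y = κ * (3 / 2 * Y) + 2 * κ * (θ * Y) := by ring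
  have e3 : 2 * κ * (θ * Y) = κ / 2 * Y ^ (1 - δ) := by
    rw [hθY]
    ring
  rw [e1, e3] at n1
  rw [e2, e3] at n2
  rw [abs_le]
  constructor
  · linarith
  · linarith

/-- dyadic summation -/
private theorem pv_dyad {E : Type} [NormedAddCommGroup E] (f : ℝ → E) {δ B : ℝ} (hδ : δ ≤ 1 / 2)
    (hB : 0 ≤ B) (h1 : ∀ y : ℝ, 1 ≤ y → y < 3 → ‖f y‖ ≤ B * y ^ (1 - δ))
    (h2 : ∀ y : ℝ, 3 ≤ y → ‖f y - f (y / 2)‖ ≤ B * y ^ (1 - δ)) :
    ∀ y : ℝ, 1 ≤ y → ‖f y‖ ≤ 4 * B * y ^ (1 - δ) := by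
  have key : ∀ n : ℕ, ∀ y : ℝ, 1 ≤ y → y < 3 * 2 ^ n → ‖f y‖ ≤ 4 * B * y ^ (1 - δ) := by
    intro n
    induction n with
    | zero =>
      intro y hy hy3
      rw [pow_zero, mul_one] at hy3
      have h3 := h1 y hy hy3
      have h4 : 0 ≤ B * y ^ (1 - δ) := mul_nonneg hB (Real.rpow_nonneg (by linarith) _)
      linarith
    | succ n ih =>
      intro y hy hyn
      by_cases hy3 : y < 3
      · have h3 := h1 y hy hy3
        have h4 : 0 ≤ B * y ^ (1 - δ) := mul_nonneg hB (Real.rpow_nonneg (by linarith) _)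
        linarith
      · push Not at hy3
        have h3 := ih (y / 2) (by linarith) (by rw [pow_succ] at hyn; linarith)
        have h4 := h2 y hy3
        have h5 : (y / 2) ^ (1 - δ) ≤ 3 / 4 * y ^ (1 - δ) := by
          rw [Real.div_rpow (by linarith) (by norm_num)]
          have h6 : (4 / 3 : ℝ) ≤ 2 ^ (1 - δ) := by
            calc (4 / 3 : ℝ) ≤ 2 ^ (1 / 2 : ℝ) := by
                  rw [← Real.sqrt_eq_rpow]
                  apply Real.le_sqrt_of_sq_le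
                  norm_num
              _ ≤ 2 ^ (1 - δ) := Real.rpow_le_rpow_of_exponent_le (by norm_num) (by linarith)
          have h7 : 0 ≤ y ^ (1 - δ) := Real.rpow_nonneg (by linarith) _
          rw [div_le_iff₀ (by linarith)]
          nlinarith
        calc ‖f y‖ = ‖(f y - f (y / 2)) + f (y / 2)‖ := by rw [sub_add_cancel]
          _ ≤ ‖f y - f (y / 2)‖ + ‖f (y / 2)‖ := norm_add_le _ _
          _ ≤ B * y ^ (1 - δ) + 4 * B * (y / 2) ^ (1 - δ) := add_le_add h4 h3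
          _ ≤ B * y ^ (1 - δ) + 4 * B * (3 / 4 * y ^ (1 - δ)) := by
              have := mul_le_mul_of_nonneg_left h5 (by linarith : 0 ≤ 4 * B)
              linarith
          _ = 4 * B * y ^ (1 - δ) := by ring
  intro y hy
  obtain ⟨n, hn⟩ := pow_unbounded_of_one_lt y (by norm_num : (1 : ℝ) < 2)
  refine key n y hy (hn.trans ?_)
  have : (0 : ℝ) < 2 ^ n := by positivity
  linarith


private theorem pv_cnt (K : Type) [Field K] [NumberField K] :
    ∃ κ C : ℝ, 0 < κ ∧ 0 < C ∧ ∀ y : ℝ, 1 ≤ y →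
      |pvF K y - κ * y| ≤ C * y ^ (1 - 1 / (2 * (Module.finrank ℚ K : ℝ))) := by
  obtain ⟨κ, hκ0, hκ⟩ := pvF_lim K
  obtain ⟨C, hC, h⟩ := pv_dy hκ0 hκ
  have hd1 : (1 : ℝ) ≤ (Module.finrank ℚ K : ℝ) := by
    exact_mod_cast (Module.finrank_pos : 0 < Module.finrank ℚ K)
  have hδ : 1 / (2 * (Module.finrank ℚ K : ℝ)) ≤ 1 / 2 := by
    apply one_div_le_one_div_of_le (by norm_num)
    linarith
  have hB : 0 ≤ pvF K 3 + 3 * κ + C := by
    have := pvF_nonneg (K := K) (x := 3)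
    positivity
  refine ⟨κ, 4 * (pvF K 3 + 3 * κ + C), hκ0, ?_, ?_⟩
  · have := pvF_nonneg (K := K) (x := 3)
    positivity
  · have key := pv_dyad (fun y => pvF K y - κ * y) hδ hB ?_ ?_
    · intro y hy
      exact key y hy
    · intro y hy hy3
      have h1 : 1 ≤ y ^ (1 - 1 / (2 * (Module.finrank ℚ K : ℝ))) :=
        Real.one_le_rpow hy (by linarith)
      have h2 : pvF K y ≤ pvF K 3 := pvF_mono (by linarith) hy3.le
      have h3 := pvF_nonneg (K := K) (x := y)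
      have h4 : |pvF K y - κ * y| ≤ pvF K 3 + 3 * κ + C := by
        have h5 : κ * y ≤ κ * 3 := mul_le_mul_of_nonneg_left hy3.le hκ0.le
        have h6 : 0 ≤ κ * y := by positivity
        rw [abs_le]
        constructor <;> linarith
      rw [Real.norm_eq_abs]
      calc |pvF K y - κ * y| ≤ (pvF K 3 + 3 * κ + C) * 1 := by rw [mul_one]; exact h4
        _ ≤ _ := mul_le_mul_of_nonneg_left h1 hB
    · intro y hy
      have h1 := h (y / 3) (by linarith)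
      have e1 : 3 * (y / 3) = y := by ring
      have e2 : 3 / 2 * (y / 3) = y / 2 := by ring
      rw [e1, e2] at h1
      have e3 : pvF K y - κ * y - (pvF K (y / 2) - κ * (y / 2))
          = pvF K y - pvF K (y / 2) - κ * (y / 2) := by ring
      rw [Real.norm_eq_abs, e3]
      refine h1.trans ?_
      have h2 : (y / 3) ^ (1 - 1 / (2 * (Module.finrank ℚ K : ℝ)))
          ≤ y ^ (1 - 1 / (2 * (Module.finrank ℚ K : ℝ))) :=
        Real.rpow_le_rpow (by linarith) (by linarith) (by linarith)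
      have h3 : 0 ≤ y ^ (1 - 1 / (2 * (Module.finrank ℚ K : ℝ))) :=
        Real.rpow_nonneg (by linarith) _
      have h4 := pvF_nonneg (K := K) (x := 3)
      have h5 := mul_le_mul_of_nonneg_left h2 hC.le
      nlinarith [mul_nonneg (by positivity : 0 ≤ pvF K 3 + 3 * κ) h3]

theorem cnt (K : Type) [Field K] [NumberField K] :
    ∃ κ C δ : ℝ, 0 < κ ∧ 0 < C ∧ 0 < δ ∧ δ < 1 ∧ ∀ y : ℝ, 1 ≤ y →
      |((IN K y).card : ℝ) - κ * y| ≤ C * y ^ (1 - δ) := by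
  obtain ⟨κ, C, hκ, hC, h⟩ := pv_cnt K
  have hd1 : (1 : ℝ) ≤ (Module.finrank ℚ K : ℝ) := by
    exact_mod_cast (Module.finrank_pos : 0 < Module.finrank ℚ K)
  refine ⟨κ, C, 1 / (2 * (Module.finrank ℚ K : ℝ)), hκ, hC, by positivity, ?_, h⟩
  rw [div_lt_one (by positivity)]
  linarith

private theorem pv_norm_le {K : Type} [Field K] [NumberField K] {𝔣 : Ideal (𝓞 K)} (χ : RC K 𝔣)
    {I : Ideal (𝓞 K)} (hI : I ≠ ⊥) : ‖χ.χ I‖ ≤ 1 := by
  by_cases h : IsCoprime I 𝔣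
  · exact (χ.norm_one I hI h).le
  · rw [χ.zero_of I h, norm_zero]
    exact zero_le_one

private theorem pv_csum {K : Type} [Field K] [NumberField K] (f : Ideal (𝓞 K) → ℂ) {x y z : ℝ}
    (hx : 0 ≤ x) (hxy : x ≤ y) (hyz : y ≤ z) :
    ∑ I ∈ IN K z, f I *
        (if x < (Ideal.absNorm I : ℝ) ∧ (Ideal.absNorm I : ℝ) ≤ y then (1 : ℂ) else 0)
      = ∑ I ∈ IN K y, f I - ∑ I ∈ IN K x, f I := by
  classical
  have hy := hx.trans hxy
  have hz := hy.trans hyz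
  rw [← Finset.sum_sdiff (pvF_sub hx hxy), add_sub_cancel_right]
  have e : (IN K z).filter (fun I => x < (Ideal.absNorm I : ℝ) ∧ (Ideal.absNorm I : ℝ) ≤ y)
      = IN K y \ IN K x := by
    ext I
    rw [Finset.mem_filter, Finset.mem_sdiff, mem_IN hx, mem_IN hy, mem_IN hz]
    constructor
    · rintro ⟨⟨h1, h2⟩, h3, h4⟩
      exact ⟨⟨h4, h2⟩, fun h5 => absurd h5.1 (not_le.2 h3)⟩
    · rintro ⟨⟨h1, h2⟩, h3⟩
      refine ⟨⟨h1.trans hyz, h2⟩, ?_, h1⟩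
      by_contra hc
      exact h3 ⟨not_lt.1 hc, h2⟩
  rw [← e, Finset.sum_filter]
  refine Finset.sum_congr rfl (fun I _ => ?_)
  split_ifs
  · rw [mul_one]
  · rw [mul_zero]

/-- the difference between the smooth sum and the sharp sum over `3/2 Y < N I ≤ 3 Y` -/
private theorem pv_cut {K : Type} [Field K] [NumberField K] {𝔣 : Ideal (𝓞 K)} (χ : RC K 𝔣)
    {θ Y : ℝ} (hθ : 0 < θ) (hθ1 : θ ≤ 1 / 4) (hY : 0 < Y) :
    ‖(∑ I ∈ IN K (3 * Y), χ.χ I - ∑ I ∈ IN K (3 / 2 * Y), χ.χ I) - smo χ.χ (trp (3 / 2) 3 θ) Y‖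
      ≤ (pvF K (3 * Y) - pvF K (3 / 2 * Y))
        - (pvF K ((3 - θ) * Y) - pvF K ((3 / 2 + θ) * Y)) := by
  rw [← pv_csum χ.χ (z := 4 * Y) (by positivity) (by linarith) (by linarith)]
  unfold smo
  rw [← Finset.sum_sub_distrib]
  have h1 : ∀ I ∈ IN K (4 * Y), ‖χ.χ I * (if 3 / 2 * Y < (Ideal.absNorm I : ℝ) ∧
        (Ideal.absNorm I : ℝ) ≤ 3 * Y then (1 : ℂ) else 0)
      - χ.χ I * (trp (3 / 2) 3 θ ((Ideal.absNorm I : ℝ) / Y) : ℂ)‖
      ≤ (if 3 / 2 * Y < (Ideal.absNorm I : ℝ) ∧ (Ideal.absNorm I : ℝ) ≤ 3 * Y then (1 : ℝ) else 0)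
        - trp (3 / 2) 3 θ ((Ideal.absNorm I : ℝ) / Y) := by
    intro I hI
    have hI0 := ((mem_IN (by linarith)).1 hI).2
    rw [← mul_sub, norm_mul]
    have h2 := pv_norm_le χ hI0
    have h3 : 0 ≤ (if 3 / 2 * Y < (Ideal.absNorm I : ℝ) ∧ (Ideal.absNorm I : ℝ) ≤ 3 * Y
        then (1 : ℝ) else 0) - trp (3 / 2) 3 θ ((Ideal.absNorm I : ℝ) / Y) := by
      split_ifs with h
      · have := trp_le_one (3 / 2) 3 θ ((Ideal.absNorm I : ℝ) / Y)
        linarith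
      · have h4 : trp (3 / 2) 3 θ ((Ideal.absNorm I : ℝ) / Y) = 0 := by
          apply trp_zero hθ
          by_contra hc
          push Not at hc
          apply h
          constructor
          · exact (lt_div_iff₀ hY).1 hc.1
          · exact ((div_lt_iff₀ hY).1 hc.2).le
        rw [h4, sub_zero]
    have h5 : ‖(if 3 / 2 * Y < (Ideal.absNorm I : ℝ) ∧ (Ideal.absNorm I : ℝ) ≤ 3 * Y
        then (1 : ℂ) else 0) - (trp (3 / 2) 3 θ ((Ideal.absNorm I : ℝ) / Y) : ℂ)‖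
        = (if 3 / 2 * Y < (Ideal.absNorm I : ℝ) ∧ (Ideal.absNorm I : ℝ) ≤ 3 * Y
        then (1 : ℝ) else 0) - trp (3 / 2) 3 θ ((Ideal.absNorm I : ℝ) / Y) := by
      have e : (if 3 / 2 * Y < (Ideal.absNorm I : ℝ) ∧ (Ideal.absNorm I : ℝ) ≤ 3 * Y
        then (1 : ℂ) else 0) - (trp (3 / 2) 3 θ ((Ideal.absNorm I : ℝ) / Y) : ℂ)
        = (((if 3 / 2 * Y < (Ideal.absNorm I : ℝ) ∧ (Ideal.absNorm I : ℝ) ≤ 3 * Y
        then (1 : ℝ) else 0) - trp (3 / 2) 3 θ ((Ideal.absNorm I : ℝ) / Y) : ℝ) : ℂ) := by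
        split_ifs <;> push_cast <;> rfl
      rw [e, Complex.norm_real, Real.norm_eq_abs, abs_of_nonneg h3]
    rw [h5]
    exact mul_le_of_le_one_left h3 h2
  refine (norm_sum_le _ _).trans ((Finset.sum_le_sum h1).trans ?_)
  rw [Finset.sum_sub_distrib, pv_ind (by positivity) (by linarith) (by linarith)]
  have s2 := le_pvS (K := K) (a := 3 / 2) (b := 3) (θ := θ) (by norm_num) (by linarith)
    (by norm_num) hθ hY
  unfold pvS at s2
  linarith

theorem pv (K : Type) [Field K] [NumberField K] :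
    ∃ C A δ : ℝ, 0 < C ∧ 0 ≤ A ∧ 0 < δ ∧ δ < 1 ∧ ∀ (𝔣 : Ideal (𝓞 K)), 𝔣 ≠ ⊥ → ∀ χ : RC K 𝔣,
      χ.Non → ∀ y : ℝ, 1 ≤ y →
        ‖∑ I ∈ IN K y, χ.χ I‖ ≤ C * (Ideal.absNorm 𝔣 : ℝ) ^ A * y ^ (1 - δ) := by
  obtain ⟨Φ, C₁, hΦ⟩ := exists_unitPart K
  obtain ⟨c₀, C₂, A, hc₀, hC₂, hA, hsmo⟩ := smo_ray Φ C₁ hΦ
  obtain ⟨κ, C, hκ, hC, hcnt⟩ := pv_cnt K
  obtain ⟨δ, hδ⟩ : ∃ δ : ℝ, δ = 1 / (2 * (Module.finrank ℚ K : ℝ)) := ⟨_, rfl⟩
  have hd1 : (1 : ℝ) ≤ (Module.finrank ℚ K : ℝ) := by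
    exact_mod_cast (Module.finrank_pos : 0 < Module.finrank ℚ K)
  have hδ0 : 0 < δ := by
    rw [hδ]
    positivity
  have hδ2 : 1 / (Module.finrank ℚ K : ℝ) = 2 * δ := by
    rw [hδ]
    field_simp
  have hδh : δ ≤ 1 / 2 := by
    rw [hδ]
    apply one_div_le_one_div_of_le (by norm_num)
    linarith
  rw [← hδ] at hcnt
  have hF3 := pvF_nonneg (K := K) (x := 3)
  refine ⟨4 * (pvF K 3 + κ / 2 + 4 * C + 5 * C₂), A, δ, by positivity, hA, hδ0, by linarith, ?_⟩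
  intro 𝔣 h𝔣 χ hχ y hy
  obtain ⟨M, hM, -, hs⟩ := hsmo 𝔣 h𝔣 χ
  have hM0 := hM hχ
  have hN1 : (1 : ℝ) ≤ (Ideal.absNorm 𝔣 : ℝ) := by
    have h1 : Ideal.absNorm 𝔣 ≠ 0 := by
      rw [Ne, Ideal.absNorm_eq_zero_iff]
      exact h𝔣
    exact_mod_cast Nat.one_le_iff_ne_zero.2 h1
  obtain ⟨R, hR⟩ : ∃ R : ℝ, R = (Ideal.absNorm 𝔣 : ℝ) ^ A := ⟨_, rfl⟩
  have hR1 : 1 ≤ R := by
    rw [hR]
    exact Real.one_le_rpow hN1 hA
  rw [← hR]
  have hB : 0 ≤ (pvF K 3 + κ / 2 + 4 * C + 5 * C₂) * R := by positivity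
  have key := pv_dyad (fun y => ∑ I ∈ IN K y, χ.χ I) hδh hB ?_ ?_ y hy
  · have e : 4 * (pvF K 3 + κ / 2 + 4 * C + 5 * C₂) * R
        = 4 * ((pvF K 3 + κ / 2 + 4 * C + 5 * C₂) * R) := by ring
    rw [e]
    exact key
  · intro y hy hy3
    have h1 : ‖∑ I ∈ IN K y, χ.χ I‖ ≤ pvF K 3 := by
      refine (norm_sum_le _ _).trans ?_
      calc ∑ I ∈ IN K y, ‖χ.χ I‖ ≤ ∑ I ∈ IN K y, (1 : ℝ) :=
            Finset.sum_le_sum (fun I hI => pv_norm_le χ ((mem_IN (by linarith)).1 hI).2)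
        _ = pvF K y := by
            rw [Finset.sum_const, nsmul_eq_mul, mul_one]
            rfl
        _ ≤ pvF K 3 := pvF_mono (by linarith) hy3.le
    have h2 : 1 ≤ y ^ (1 - δ) := Real.one_le_rpow hy (by linarith)
    have h3 : pvF K 3 ≤ (pvF K 3 + κ / 2 + 4 * C + 5 * C₂) * R := by
      have h4 : pvF K 3 ≤ pvF K 3 + κ / 2 + 4 * C + 5 * C₂ := by linarith [hκ, hC, hC₂]
      have h5 : 0 ≤ pvF K 3 + κ / 2 + 4 * C + 5 * C₂ := by linarith
      nlinarith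
    calc ‖∑ I ∈ IN K y, χ.χ I‖ ≤ (pvF K 3 + κ / 2 + 4 * C + 5 * C₂) * R * 1 := by
          rw [mul_one]
          exact h1.trans h3
      _ ≤ _ := mul_le_mul_of_nonneg_left h2 hB
  · intro y hy
    obtain ⟨Y, hYe⟩ : ∃ Y : ℝ, Y = y / 3 := ⟨_, rfl⟩
    have hY : 1 ≤ Y := by rw [hYe]; linarith
    have hY0 : 0 < Y := by linarith
    have e1 : 3 * Y = y := by rw [hYe]; ring
    have e2 : 3 / 2 * Y = y / 2 := by rw [hYe]; ring
    obtain ⟨θ, hθ⟩ : ∃ θ : ℝ, θ = 1 / 4 * Y ^ (-δ) := ⟨_, rfl⟩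
    have hYδ : Y ^ (-δ) ≤ 1 := Real.rpow_le_one_of_one_le_of_nonpos hY (by linarith)
    have hYδ0 : 0 < Y ^ (-δ) := Real.rpow_pos_of_pos hY0 _
    have hθ0 : 0 < θ := by rw [hθ]; positivity
    have hθ1 : θ ≤ 1 / 4 := by rw [hθ]; linarith
    have hmul : Y ^ (-δ) * Y = Y ^ (1 - δ) := by
      nth_rewrite 2 [← Real.rpow_one Y]
      rw [← Real.rpow_add hY0]
      congr 1
      ring
    have hθY : θ * Y = 1 / 4 * Y ^ (1 - δ) := by
      rw [hθ, mul_assoc, hmul]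
    have hYy : Y ^ (1 - δ) ≤ y ^ (1 - δ) :=
      Real.rpow_le_rpow hY0.le (by rw [hYe]; linarith) (by linarith)
    -- the smooth sum
    have hsm := hs (trp (3 / 2) 3 θ) (Real.toNNReal (1 / θ)) (trp_lip hθ0)
      (fun t => by rw [abs_of_nonneg (trp_nonneg _ _ _ _)]; exact trp_le_one _ _ _ _)
      (fun t ht => trp_zero hθ0 (by
        rcases ht with h | h
        · left; linarith
        · right; linarith)) Y hY
    rw [hM0, mul_zero, sub_zero, Real.coe_toNNReal _ (by positivity), ← hR, hδ2] at hsm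
    have hE : C₂ * R * (1 + 1 / θ) * Y ^ (1 - 2 * δ) ≤ 5 * C₂ * R * Y ^ (1 - δ) := by
      have h1 : 1 / θ = 4 * Y ^ δ := by
        rw [hθ, Real.rpow_neg hY0.le]
        field_simp
      have h2 : Y ^ δ * Y ^ (1 - 2 * δ) = Y ^ (1 - δ) := by
        rw [← Real.rpow_add hY0]
        congr 1
        ring
      have h3 : Y ^ (1 - 2 * δ) ≤ Y ^ (1 - δ) :=
        Real.rpow_le_rpow_of_exponent_le hY (by linarith)
      calc C₂ * R * (1 + 1 / θ) * Y ^ (1 - 2 * δ)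
          = C₂ * R * (Y ^ (1 - 2 * δ) + 4 * (Y ^ δ * Y ^ (1 - 2 * δ))) := by rw [h1]; ring
        _ ≤ C₂ * R * (Y ^ (1 - δ) + 4 * Y ^ (1 - δ)) := by
            rw [h2]
            exact mul_le_mul_of_nonneg_left (by linarith) (by positivity)
        _ = 5 * C₂ * R * Y ^ (1 - δ) := by ring
    have hcut := pv_cut χ hθ0 hθ1 hY0
    rw [e1, e2] at hcut
    -- the count
    have hle : ∀ c : ℝ, 1 ≤ c → c ≤ 3 → |pvF K (c * Y) - κ * (c * Y)| ≤ C * y ^ (1 - δ) := by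
      intro c hc1 hc3
      have h1 := hcnt (c * Y) (by nlinarith)
      refine h1.trans (mul_le_mul_of_nonneg_left ?_ hC.le)
      refine Real.rpow_le_rpow (by positivity) ?_ (by linarith)
      rw [← e1]
      exact mul_le_mul_of_nonneg_right hc3 hY0.le
    have c1 := (abs_le.1 (hle 3 (by norm_num) le_rfl)).2
    have c2 := (abs_le.1 (hle (3 / 2) (by norm_num) (by norm_num))).1
    have c3 := (abs_le.1 (hle (3 - θ) (by linarith) (by linarith))).1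
    have c4 := (abs_le.1 (hle (3 / 2 + θ) (by linarith) (by linarith))).2
    rw [e1] at c1
    rw [e2] at c2
    have c5 : (pvF K y - pvF K (y / 2)) - (pvF K ((3 - θ) * Y) - pvF K ((3 / 2 + θ) * Y))
        ≤ 4 * (C * y ^ (1 - δ)) + 2 * κ * (θ * Y) := by
      have e4 : κ * ((3 - θ) * Y) = κ * y - κ * (θ * Y) := by rw [← e1]; ring
      have e5 : κ * ((3 / 2 + θ) * Y) = κ * (y / 2) + κ * (θ * Y) := by rw [← e2]; ring
      rw [e4] at c3
      rw [e5] at c4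
      linarith
    have c6 : 2 * κ * (θ * Y) = κ / 2 * Y ^ (1 - δ) := by
      rw [hθY]
      ring
    have hy0 : 0 ≤ y ^ (1 - δ) := Real.rpow_nonneg (by linarith) _
    calc ‖∑ I ∈ IN K y, χ.χ I - ∑ I ∈ IN K (y / 2), χ.χ I‖
        = ‖((∑ I ∈ IN K y, χ.χ I - ∑ I ∈ IN K (y / 2), χ.χ I) - smo χ.χ (trp (3 / 2) 3 θ) Y)
            + smo χ.χ (trp (3 / 2) 3 θ) Y‖ := by rw [sub_add_cancel]
      _ ≤ _ := norm_add_le _ _
      _ ≤ (4 * (C * y ^ (1 - δ)) + κ / 2 * Y ^ (1 - δ)) + 5 * C₂ * R * Y ^ (1 - δ) := by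
          refine add_le_add ?_ (hsm.trans hE)
          rw [← c6]
          exact hcut.trans c5
      _ ≤ (pvF K 3 + κ / 2 + 4 * C + 5 * C₂) * R * y ^ (1 - δ) := by
          have a1 : κ / 2 * Y ^ (1 - δ) ≤ κ / 2 * y ^ (1 - δ) :=
            mul_le_mul_of_nonneg_left hYy (by positivity)
          have a2 : 5 * C₂ * R * Y ^ (1 - δ) ≤ 5 * C₂ * R * y ^ (1 - δ) :=
            mul_le_mul_of_nonneg_left hYy (by positivity)
          have a3 : (4 * C + κ / 2 + pvF K 3) * 1 ≤ (4 * C + κ / 2 + pvF K 3) * R :=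
            mul_le_mul_of_nonneg_left hR1 (by positivity)
          have a4 : (4 * C + κ / 2 + pvF K 3) * 1 * y ^ (1 - δ)
              ≤ (4 * C + κ / 2 + pvF K 3) * R * y ^ (1 - δ) := mul_le_mul_of_nonneg_right a3 hy0
          have a5 : 0 ≤ pvF K 3 * y ^ (1 - δ) := mul_nonneg hF3 hy0
          calc (4 * (C * y ^ (1 - δ)) + κ / 2 * Y ^ (1 - δ)) + 5 * C₂ * R * Y ^ (1 - δ)
              ≤ (4 * C + κ / 2 + pvF K 3) * 1 * y ^ (1 - δ) + 5 * C₂ * R * y ^ (1 - δ) := by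
                linarith
            _ ≤ (4 * C + κ / 2 + pvF K 3) * R * y ^ (1 - δ) + 5 * C₂ * R * y ^ (1 - δ) := by
                linarith
            _ = (pvF K 3 + κ / 2 + 4 * C + 5 * C₂) * R * y ^ (1 - δ) := by ring

end H63.MA
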