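import Pool.Agent.H63.MA.Ray
import Pool.Agent.H63.MA.Pv

/-!
# MA-PZB: the prime zeta function over sets of primes, elementary facts

* `ideal_summable`: `∑_I (N I)^{-s} < ∞` for `s > 1`: by `cnt`, `#{N I ≤ y} ≤ C y`; partial summation or dyadic blocks
  (`∑_{2^k ≤ N I < 2^{k+1}} (N I)^{-s} ≤ C 2^{k+1} 2^{-ks}`). The term `I = ⊥` is `0^{-s}`, we sum over `I ≠ ⊥`
  (indicator), or use that `Real.rpow` of `0` with negative exponent is `0`.
* `pz_summable`: primes are ideals. The rest is manipulation of `tsum` of indicators (`Summable.tsum_le_tsum`,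
  `tsum_add`, `tsum_subtype`).
* `pz_deg`: the `v` with `nm v` not a prime number: `nm v = ℓ^f` with `f ≥ 2` (`Ideal.absNorm` of a prime over `ℓ` is `ℓ^f`,
  `Ideal.natAbs...`/`absNorm_eq_pow_inertiaDeg`), at most `[K:ℚ]` primes over `ℓ`, so the sum is `≤ [K:ℚ] ∑_ℓ ℓ^{-2}`, also for `s = 1`
  (any `s ≥ 1`), and even `∑ (nm v)^{-σ} ≤ C_σ` for `σ > 1/2`.
-/

set_option autoImplicit false

open scoped NumberField
open IsDedekindDomain

noncomputable section

namespace H63.MA

variable {K : Type} [Field K] [NumberField K]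

/-- summability by counting, in dyadic blocks -/
theorem pzb_dyadic {ι : Type*} (N : ι → ℕ) (hN : ∀ i, 1 ≤ N i) (C : ℝ) (hC : 0 ≤ C)
    (h : ∀ (F : Finset ι) (y : ℕ), 1 ≤ y → (∀ i ∈ F, N i ≤ y) → (F.card : ℝ) ≤ C * y) {s : ℝ}
    (hs : 1 < s) : Summable fun i => (N i : ℝ) ^ (-s) := by
  classical
  set r : ℝ := (2 : ℝ) ^ (1 - s) with hr
  have hr0 : 0 ≤ r := Real.rpow_nonneg (by norm_num) _
  have hr1 : r < 1 := Real.rpow_lt_one_of_one_lt_of_neg (by norm_num) (by linarith)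
  have hg : Summable fun k : ℕ => r ^ k := summable_geometric_of_lt_one hr0 hr1
  refine summable_of_sum_le (c := 2 * C * ∑' k : ℕ, r ^ k)
    (fun i => Real.rpow_nonneg (Nat.cast_nonneg _) _) fun F => ?_
  rw [← Finset.sum_fiberwise_of_maps_to
    (fun i hi => Finset.mem_image_of_mem (fun i => Nat.log 2 (N i)) hi)
    (fun i => (N i : ℝ) ^ (-s))]
  have hinner : ∀ k : ℕ, ∑ i ∈ F with Nat.log 2 (N i) = k, (N i : ℝ) ^ (-s) ≤ 2 * C * r ^ k := by
    intro k
    have h2k : (0 : ℝ) < 2 ^ k := by positivity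
    have hcard : (((F.filter fun i => Nat.log 2 (N i) = k).card : ℕ) : ℝ) ≤ C * (2 ^ (k + 1)) := by
      have h1 := h (F.filter fun i => Nat.log 2 (N i) = k) (2 ^ (k + 1)) Nat.one_le_two_pow (by
        intro i hi
        rw [Finset.mem_filter] at hi
        have h2 := Nat.lt_pow_succ_log_self (by norm_num : 1 < 2) (N i)
        rw [hi.2] at h2
        exact h2.le)
      push_cast at h1
      exact h1
    calc ∑ i ∈ F with Nat.log 2 (N i) = k, (N i : ℝ) ^ (-s)
        ≤ ∑ _i ∈ F with Nat.log 2 (N _i) = k, ((2 : ℝ) ^ k) ^ (-s) := by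
          refine Finset.sum_le_sum fun i hi => ?_
          rw [Finset.mem_filter] at hi
          have h3 : 2 ^ k ≤ N i := by
            have h4 := Nat.pow_log_le_self 2 (x := N i) (by have := hN i; omega)
            rwa [hi.2] at h4
          have h5 : ((2 : ℝ) ^ k) ≤ (N i : ℝ) := by exact_mod_cast h3
          exact Real.rpow_le_rpow_of_nonpos h2k h5 (by linarith)
      _ = ((F.filter fun i => Nat.log 2 (N i) = k).card : ℝ) * ((2 : ℝ) ^ k) ^ (-s) := by
          rw [Finset.sum_const, nsmul_eq_mul]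
      _ ≤ C * (2 ^ (k + 1)) * ((2 : ℝ) ^ k) ^ (-s) :=
          mul_le_mul_of_nonneg_right hcard (Real.rpow_nonneg h2k.le _)
      _ = 2 * C * r ^ k := by
          have h6 : r ^ k = (2 : ℝ) ^ k * ((2 : ℝ) ^ k) ^ (-s) := by
            rw [hr, ← Real.rpow_natCast, ← Real.rpow_mul (by norm_num), ← Real.rpow_natCast 2 k,
              ← Real.rpow_mul (by norm_num), ← Real.rpow_add (by norm_num)]
            congr 1
            ring
          rw [h6, pow_succ]
          ring
  calc ∑ k ∈ F.image (fun i => Nat.log 2 (N i)), ∑ i ∈ F with Nat.log 2 (N i) = k, (N i : ℝ) ^ (-s)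
      ≤ ∑ k ∈ F.image (fun i => Nat.log 2 (N i)), 2 * C * r ^ k :=
        Finset.sum_le_sum fun k _ => hinner k
    _ = 2 * C * ∑ k ∈ F.image (fun i => Nat.log 2 (N i)), r ^ k := by rw [Finset.mul_sum]
    _ ≤ 2 * C * ∑' k : ℕ, r ^ k :=
        mul_le_mul_of_nonneg_left (hg.sum_le_tsum _ fun k _ => pow_nonneg hr0 k) (by positivity)

theorem pzb_card (K : Type) [Field K] [NumberField K] : ∃ C : ℝ, 0 ≤ C ∧
    ∀ (F : Finset (Ideal (𝓞 K))) (y : ℝ), 1 ≤ y → (∀ I ∈ F, I ≠ ⊥) →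
      (∀ I ∈ F, (Ideal.absNorm I : ℝ) ≤ y) → (F.card : ℝ) ≤ C * y := by
  obtain ⟨κ, C, δ, hκ, hC, hδ, hδ1, h⟩ := cnt K
  refine ⟨κ + C, by positivity, fun F y hy hF0 hF => ?_⟩
  have h1 : F ⊆ IN K y := fun I hI => (mem_IN (by linarith)).2 ⟨hF I hI, hF0 I hI⟩
  have h2 : (F.card : ℝ) ≤ ((IN K y).card : ℝ) := by exact_mod_cast Finset.card_le_card h1
  have h3 := (abs_le.1 (h y hy)).2
  have h4 : y ^ (1 - δ) ≤ y := by
    calc y ^ (1 - δ) ≤ y ^ (1 : ℝ) := Real.rpow_le_rpow_of_exponent_le hy (by linarith)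
      _ = y := Real.rpow_one y
  have h5 := mul_le_mul_of_nonneg_left h4 hC.le
  nlinarith

theorem ideal_summable (K : Type) [Field K] [NumberField K] {s : ℝ} (hs : 1 < s) :
    Summable fun I : Ideal (𝓞 K) => if I = ⊥ then 0 else (Ideal.absNorm I : ℝ) ^ (-s) := by
  classical
  obtain ⟨C, hC, h⟩ := pzb_card K
  have h1 : Summable fun I : {I : Ideal (𝓞 K) // I ≠ ⊥} =>
      ((Ideal.absNorm I.1 : ℕ) : ℝ) ^ (-s) := by
    refine pzb_dyadic (fun I : {I : Ideal (𝓞 K) // I ≠ ⊥} => Ideal.absNorm I.1)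
      (fun I => ?_) C hC (fun F y hy hF => ?_) hs
    · have h2 : Ideal.absNorm I.1 ≠ 0 := by
        rw [Ne, Ideal.absNorm_eq_zero_iff]
        exact I.2
      omega
    · have h3 := h (F.image Subtype.val) y (by exact_mod_cast hy) (by
        intro I hI
        obtain ⟨J, _, rfl⟩ := Finset.mem_image.1 hI
        exact J.2) (by
        intro I hI
        obtain ⟨J, hJ, rfl⟩ := Finset.mem_image.1 hI
        exact_mod_cast hF J hJ)
      rwa [Finset.card_image_of_injective _ Subtype.val_injective] at h3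
  refine (Function.Injective.summable_iff (Subtype.val_injective (p := fun I : Ideal (𝓞 K) => I ≠ ⊥))
    ?_).1 ?_
  · intro I hI
    have : I = ⊥ := by
      by_contra hne
      exact hI ⟨⟨I, hne⟩, rfl⟩
    rw [if_pos this]
  · refine h1.congr fun I => ?_
    simp only [Function.comp_apply]
    rw [if_neg I.2]

theorem pz_summable (K : Type) [Field K] [NumberField K] {s : ℝ} (hs : 1 < s) :
    Summable fun v : Pl K => (nm v : ℝ) ^ (-s) := by
  have hinj : Function.Injective fun v : Pl K => v.asIdeal := fun v w h => HeightOneSpectrum.ext h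
  have h := (ideal_summable K hs).comp_injective hinj
  refine h.congr fun v => ?_
  simp only [Function.comp_apply]
  rw [if_neg v.ne_bot]
  rfl

theorem pzb_nonneg (v : Pl K) (s : ℝ) : 0 ≤ (nm v : ℝ) ^ s :=
  Real.rpow_nonneg (Nat.cast_nonneg _) _

theorem pz_nonneg (S : Set (Pl K)) (s : ℝ) : 0 ≤ PZ S s :=
  tsum_nonneg fun v => Set.indicator_nonneg (fun v _ => pzb_nonneg v _) v

theorem pz_mono {S S' : Set (Pl K)} (h : S ⊆ S') {s : ℝ} (hs : 1 < s) : PZ S s ≤ PZ S' s := by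
  refine Summable.tsum_le_tsum (fun v => ?_) ((pz_summable K hs).indicator S)
    ((pz_summable K hs).indicator S')
  exact Set.indicator_le_indicator_of_subset h (fun v => pzb_nonneg v _) v

theorem pz_add (S S' : Set (Pl K)) {s : ℝ} (hs : 1 < s) :
    PZ (S ∪ S') s + PZ (S ∩ S') s = PZ S s + PZ S' s := by
  unfold PZ
  have hS : ∀ T : Set (Pl K), Summable fun v : Pl K =>
      T.indicator (fun v => (nm v : ℝ) ^ (-s)) v := fun T => (pz_summable K hs).indicator T
  rw [← (hS _).tsum_add (hS _), ← (hS _).tsum_add (hS _)]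
  exact tsum_congr fun v => Set.indicator_union_add_inter_apply _ S S' v

theorem pzb_le_one (v : Pl K) {s : ℝ} (hs : 0 ≤ s) : (nm v : ℝ) ^ (-s) ≤ 1 := by
  refine Real.rpow_le_one_of_one_le_of_nonpos ?_ (by linarith)
  exact_mod_cast (one_lt_nm v).le

theorem pz_finite {S : Set (Pl K)} (h : S.Finite) : ∃ C : ℝ, ∀ s : ℝ, 1 < s → PZ S s ≤ C := by
  refine ⟨(h.toFinset.card : ℝ), fun s hs => ?_⟩
  unfold PZ
  rw [tsum_eq_sum (s := h.toFinset) (fun v hv => Set.indicator_of_notMem (by simpa using hv) _)]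
  calc ∑ v ∈ h.toFinset, S.indicator (fun v => (nm v : ℝ) ^ (-s)) v
      ≤ ∑ _v ∈ h.toFinset, (1 : ℝ) := by
        refine Finset.sum_le_sum fun v hv => ?_
        rw [Set.indicator_of_mem (h.mem_toFinset.1 hv)]
        exact pzb_le_one v (by linarith)
    _ = _ := by rw [Finset.sum_const, nsmul_eq_mul, mul_one]

theorem pzb_prime_mem {R : Type*} [CommRing R] (P : Ideal R) [hP : P.IsPrime] (n : ℕ) (hn : n ≠ 0)
    (h : (n : R) ∈ P) : ∃ l : ℕ, l.Prime ∧ (l : R) ∈ P := by
  induction n using induction_on_primes with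
  | zero => exact absurd rfl hn
  | one =>
    exfalso
    rw [Nat.cast_one] at h
    exact hP.ne_top ((Ideal.eq_top_iff_one P).2 h)
  | prime_mul p a hp ih =>
    rw [Nat.cast_mul] at h
    rcases hP.mem_or_mem h with h1 | h1
    · exact ⟨p, hp, h1⟩
    · refine ih ?_ h1
      rintro rfl
      exact hn (mul_zero _)

theorem pzb_below (v : Pl K) : ∃ l : ℕ, l.Prime ∧ Above l v := by
  have := v.isPrime
  refine pzb_prime_mem v.asIdeal (Ideal.absNorm v.asIdeal) ?_ (Ideal.absNorm_mem _)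
  rw [Ne, Ideal.absNorm_eq_zero_iff]
  exact v.ne_bot

theorem pzb_nm_pow {l : ℕ} (hl : l.Prime) {v : Pl K} (hv : Above l v) :
    ∃ f : ℕ, 1 ≤ f ∧ nm v = l ^ f := by
  have h1 : Ideal.span {(l : 𝓞 K)} ≤ v.asIdeal := (Ideal.span_singleton_le_iff_mem _).2 hv
  have h2 := Ideal.absNorm_dvd_absNorm_of_le h1
  rw [Ideal.absNorm_span_natCast] at h2
  obtain ⟨f, -, hf⟩ := (Nat.dvd_prime_pow hl).1 h2
  refine ⟨f, ?_, hf⟩
  by_contra h0
  have h3 : f = 0 := by omega
  have h4 := one_lt_nm v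
  unfold nm at h4
  rw [hf, h3, pow_zero] at h4
  exact lt_irrefl _ h4

theorem pzb_card_above {l : ℕ} (hl : l.Prime) (F : Finset (Pl K)) (hF : ∀ v ∈ F, Above l v) :
    F.card ≤ Module.finrank ℤ (𝓞 K) := by
  classical
  have h1 : ∏ v ∈ F, v.asIdeal ∣ Ideal.span {(l : 𝓞 K)} := by
    refine Finset.prod_dvd_of_coprime ?_ ?_
    · intro v _ w _ hvw
      show IsCoprime v.asIdeal w.asIdeal
      have := v.isMaximal
      have := w.isMaximal
      exact Ideal.isCoprime_of_isMaximal (fun h => hvw (HeightOneSpectrum.ext h))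
    · intro v hv
      rw [Ideal.dvd_iff_le]
      exact (Ideal.span_singleton_le_iff_mem _).2 (hF v hv)
  have h2 := map_dvd (Ideal.absNorm (S := 𝓞 K)) h1
  rw [Ideal.absNorm_span_natCast, map_prod] at h2
  have h3 : l ^ F.card ≤ ∏ v ∈ F, Ideal.absNorm v.asIdeal := by
    rw [← Finset.prod_const]
    refine Finset.prod_le_prod' fun v hv => ?_
    obtain ⟨f, hf, hnm⟩ := pzb_nm_pow hl (hF v hv)
    have h4 : Ideal.absNorm v.asIdeal = l ^ f := hnm
    rw [h4]
    calc l = l ^ 1 := (pow_one l).symm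
      _ ≤ l ^ f := Nat.pow_le_pow_right hl.pos hf
  have h5 : l ^ F.card ≤ l ^ Module.finrank ℤ (𝓞 K) :=
    h3.trans (Nat.le_of_dvd (pow_pos hl.pos _) h2)
  exact (Nat.pow_le_pow_iff_right hl.one_lt).1 h5

theorem deg_summable (K : Type) [Field K] [NumberField K] {σ : ℝ} (hσ : 1 / 2 < σ) :
    Summable fun v : Pl K =>
      Set.indicator {v : Pl K | ¬ (nm v).Prime} (fun v => (nm v : ℝ) ^ (-σ)) v := by
  classical
  choose l hl hla using fun v : Pl K => pzb_below v
  set d : ℕ := Module.finrank ℤ (𝓞 K) with hd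
  have hsum : Summable fun n : ℕ => (n : ℝ) ^ (-(2 * σ)) :=
    Real.summable_nat_rpow.2 (by linarith)
  refine summable_of_sum_le (c := d * ∑' n : ℕ, (n : ℝ) ^ (-(2 * σ)))
    (fun v => Set.indicator_nonneg (fun v _ => pzb_nonneg v _) v) fun F => ?_
  have hterm : ∀ v : Pl K, Set.indicator {v : Pl K | ¬ (nm v).Prime}
      (fun v => (nm v : ℝ) ^ (-σ)) v ≤ (l v : ℝ) ^ (-(2 * σ)) := by
    intro v
    by_cases hv : v ∈ {v : Pl K | ¬ (nm v).Prime}
    · rw [Set.indicator_of_mem hv]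
      obtain ⟨f, hf, hnm⟩ := pzb_nm_pow (hl v) (hla v)
      have hf2 : 2 ≤ f := by
        by_contra hlt
        have : f = 1 := by omega
        rw [this, pow_one] at hnm
        apply hv
        show (nm v).Prime
        rw [hnm]
        exact hl v
      have hl0 : (0 : ℝ) < (l v : ℝ) := by exact_mod_cast (hl v).pos
      have hl1 : (1 : ℝ) ≤ (l v : ℝ) := by exact_mod_cast (hl v).one_lt.le
      have h6 : (l v : ℝ) ^ (2 : ℕ) ≤ (nm v : ℝ) := by
        rw [hnm]
        push_cast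
        exact pow_le_pow_right₀ hl1 hf2
      calc (nm v : ℝ) ^ (-σ) ≤ ((l v : ℝ) ^ (2 : ℕ)) ^ (-σ) :=
            Real.rpow_le_rpow_of_nonpos (by positivity) h6 (by linarith)
        _ = (l v : ℝ) ^ (-(2 * σ)) := by
            rw [← Real.rpow_natCast, ← Real.rpow_mul hl0.le]
            congr 1
            push_cast
            ring
    · rw [Set.indicator_of_notMem hv]
      exact Real.rpow_nonneg (Nat.cast_nonneg _) _
  calc ∑ v ∈ F, Set.indicator {v : Pl K | ¬ (nm v).Prime} (fun v => (nm v : ℝ) ^ (-σ)) v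
      ≤ ∑ v ∈ F, (l v : ℝ) ^ (-(2 * σ)) := Finset.sum_le_sum fun v _ => hterm v
    _ = ∑ n ∈ F.image l, ∑ v ∈ F with l v = n, (l v : ℝ) ^ (-(2 * σ)) :=
        (Finset.sum_fiberwise_of_maps_to (fun v hv => Finset.mem_image_of_mem l hv) _).symm
    _ ≤ ∑ n ∈ F.image l, (d : ℝ) * (n : ℝ) ^ (-(2 * σ)) := by
        refine Finset.sum_le_sum fun n hn => ?_
        obtain ⟨w, hw, hwn⟩ := Finset.mem_image.1 hn
        have h7 : ∑ v ∈ F with l v = n, (l v : ℝ) ^ (-(2 * σ)) =
            ((F.filter fun v => l v = n).card : ℝ) * (n : ℝ) ^ (-(2 * σ)) := by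
          rw [← nsmul_eq_mul, ← Finset.sum_const]
          refine Finset.sum_congr rfl fun v hv => ?_
          rw [(Finset.mem_filter.1 hv).2]
        rw [h7]
        refine mul_le_mul_of_nonneg_right ?_ (Real.rpow_nonneg (Nat.cast_nonneg _) _)
        have h8 := pzb_card_above (K := K) (l := n) (by rw [← hwn]; exact hl w)
          (F.filter fun v => l v = n) (by
            intro v hv
            rw [← (Finset.mem_filter.1 hv).2]
            exact hla v)
        exact_mod_cast h8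
    _ = d * ∑ n ∈ F.image l, (n : ℝ) ^ (-(2 * σ)) := by rw [Finset.mul_sum]
    _ ≤ d * ∑' n : ℕ, (n : ℝ) ^ (-(2 * σ)) :=
        mul_le_mul_of_nonneg_left (hsum.sum_le_tsum _ fun n _ =>
          Real.rpow_nonneg (Nat.cast_nonneg _) _) (Nat.cast_nonneg _)

theorem pz_deg (K : Type) [Field K] [NumberField K] :
    ∃ C : ℝ, ∀ s : ℝ, 1 < s → PZ {v : Pl K | ¬ (nm v).Prime} s ≤ C := by
  refine ⟨∑' v : Pl K, Set.indicator {v : Pl K | ¬ (nm v).Prime} (fun v => (nm v : ℝ) ^ (-(1 : ℝ))) v,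
    fun s hs => ?_⟩
  refine Summable.tsum_le_tsum (fun v => ?_) ((pz_summable K hs).indicator _)
    (deg_summable K (by norm_num))
  refine Set.indicator_le_indicator ?_
  have h1 : (1 : ℝ) ≤ (nm v : ℝ) := by exact_mod_cast (one_lt_nm v).le
  exact Real.rpow_le_rpow_of_exponent_le h1 (by linarith)

end H63.MA
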