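import Pool.Agent.H63.MA.GTame

/-!
# MA-GFROB: a Frobenius element

`ld_frob`: for `a : Fin m → Kˣ` there is `F ∈ Γ` with `F w = w`, `φ F` commutes with `φ t`, and `kk (a k) F = lgv p ζ v π (a k)`.

Proof. Let `ρ = (kc π, φ, (kc (a k))_k)`, a homomorphism of finite type to a finite group, and `M/K` finite Galois with `ρ = e ∘ res M`, `e`
injective (`H38.ML.factor`); `w ∈ M` and all roots of the `a k` are in `M`. Let `Q` be the prime of `M` below `P`. By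
`IsArithFrobAt.exists_of_isInvariant (𝓞 K) Gal(M/K) Q` (see `H38/ML/FrobRoots.lean`) there is `F₀ ∈ Gal(M/K)` with `F₀ x ≡ x^{nm v} mod Q` for all
`x ∈ 𝓞 M`; let `F ∈ Γ` be a lift of `F₀` (`res M` is surjective). `F w = ζ^j w` for some `j`; replace `F` by `t^{-j} F`: then `F w = w` (`t ζ = ζ`), and still
`F x ≡ x^{nm v} mod Q` on `𝓞 M` because `t` is in the inertia group.
* `kk (a k) F`: let `n = ord v (a k)`, `u = a k * π^{-n}`, `ord v u = 0`, `u = s / r` with `r, s ∈ 𝓞 K ∖ v` (`H38.TD.exists_int_div`). For `B^p = a k`, `C = B / w^n`,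
  `C^p = u`, `C' = r C`, `C'^p = r^{p-1} s`, so `C' ∈ 𝓞 M ∖ Q` and `F C' = ζ^j C'` with `j = kk (a k) F` (`F w = w`). So
  `ζ^j C' ≡ C'^{nm v}`, `ζ^j ≡ (C'^p)^{(nm v - 1)/p} = (r^{p-1} s)^{(nm v - 1)/p} = r^{nm v - 1} u^{(nm v - 1)/p} ≡ u^{(nm v-1)/p} mod Q` and hence modulo `v`
  (as elements of `K` of order `≥ 0`), so `lg u = j` by `lg_unique`. (`p ∣ nm v - 1`: see `SymB`.)
* `φ F` and `φ t` commute: let `δ = res M (F t F⁻¹ t⁻¹)`. `F` maps `Q` to `Q` (from the congruence), so `F₀ (res t) F₀⁻¹` is in the inertia group of `Q`, and so is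
  `δ`; `δ w = w`. By `H38.ML.exists_inertia` (`L = M`, `φ` = inclusion, `ψ` = inclusion ∘ `δ`) there is `τ'` in the inertia group of `P` with
  `res M τ' = δ`. `τ' w = w`, so `φ τ' = 1` by `ld_tame`, i.e. `φ (F t F⁻¹ t⁻¹) = 1` (`φ` factors through `res M`).
-/

set_option autoImplicit false

open scoped NumberField Pointwise
open IsDedekindDomain

noncomputable section

namespace H63.MA

variable {K : Type} [Field K] [NumberField K] {Ω : Type} [Field Ω] [Algebra K Ω] [IsAlgClosure K Ω]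
  {p : ℕ} {ζ : K}

/-- a Frobenius element of the absolute Galois group -/
theorem gfrob_ex {v : Pl K} (P : Ideal (𝓞 Ω)) (hP : P.IsPrime) (hv : P.under (𝓞 K) = v.asIdeal) :
    ∃ F : Gal(Ω/K), ∀ x : 𝓞 Ω, F • x - x ^ nm v ∈ P := by
  have : IsGalois K Ω := IsAlgClosure.isGalois K Ω
  let _ : TopologicalSpace (𝓞 Ω) := ⊥
  have : DiscreteTopology (𝓞 Ω) := ⟨rfl⟩
  have : ContinuousSMul Gal(Ω/K) (𝓞 Ω) := by
    rw [continuousSMul_iff_stabilizer_isOpen]
    intro x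
    have h1 := stabilizer_isOpen_of_isIntegral (K := K) (L := Ω) (x : Ω)
    have h2 : (MulAction.stabilizer Gal(Ω/K) x : Set Gal(Ω/K)) =
        (MulAction.stabilizer Gal(Ω/K) (x : Ω) : Set Gal(Ω/K)) := by
      ext g
      simp only [SetLike.mem_coe, MulAction.mem_stabilizer_iff]
      constructor
      · intro hg
        exact congrArg (fun z : 𝓞 Ω => (z : Ω)) hg
      · intro hg
        exact NumberField.RingOfIntegers.ext hg
    rw [h2]
    exact h1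
  have : Algebra.IsInvariant (𝓞 K) (𝓞 Ω) Gal(Ω/K) := ⟨fun b hb => by
    have h1 : (b : Ω) ∈ (⊥ : IntermediateField K Ω) := by
      rw [← InfiniteGalois.fixedField_bot (k := K) (K := Ω), IntermediateField.mem_fixedField_iff]
      intro g _
      exact congrArg (fun z : 𝓞 Ω => (z : Ω)) (hb g)
    obtain ⟨a, ha⟩ := IntermediateField.mem_bot.1 h1
    have h2 : IsIntegral ℤ a := by
      have h3 : IsIntegral ℤ (algebraMap K Ω a) := by
        rw [ha]
        exact b.2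
      exact (isIntegral_algebraMap_iff (algebraMap K Ω).injective).1 h3
    refine ⟨⟨a, h2⟩, NumberField.RingOfIntegers.ext ?_⟩
    exact ha⟩
  have hlo : P.LiesOver v.asIdeal := ⟨hv.symm⟩
  have hvm : v.asIdeal.IsMaximal := v.isMaximal
  have hPm : P.IsMaximal := Ideal.IsMaximal.of_liesOver_isMaximal P v.asIdeal
  let _ : Field (𝓞 K ⧸ v.asIdeal) := Ideal.Quotient.field _
  let _ : Field (𝓞 Ω ⧸ P) := Ideal.Quotient.field _
  have hfin : Finite (𝓞 K ⧸ v.asIdeal) := Ideal.finiteQuotientOfFreeOfNeBot _ v.ne_bot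
  let _ : Fintype (𝓞 K ⧸ v.asIdeal) := Fintype.ofFinite _
  have halg : Algebra.IsAlgebraic (𝓞 K ⧸ v.asIdeal) (𝓞 Ω ⧸ P) :=
    Algebra.IsIntegral.isAlgebraic
  obtain ⟨F, hF⟩ := Ideal.Quotient.stabilizerHom_surjective_of_profinite (G := Gal(Ω/K))
    v.asIdeal P (FiniteField.frobeniusAlgEquivOfAlgebraic (𝓞 K ⧸ v.asIdeal) (𝓞 Ω ⧸ P))
  refine ⟨F, fun x => ?_⟩
  have h1 := DFunLike.congr_fun hF (Ideal.Quotient.mk P x)
  have h2 : Fintype.card (𝓞 K ⧸ v.asIdeal) = nm v := by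
    rw [← symb_card v, Nat.card_eq_fintype_card]
  have h3 : (Ideal.Quotient.mk P x) ^ nm v =
      (FiniteField.frobeniusAlgEquivOfAlgebraic (𝓞 K ⧸ v.asIdeal) (𝓞 Ω ⧸ P))
        (Ideal.Quotient.mk P x) := by
    rw [← h2]
    rfl
  rw [← Ideal.Quotient.eq, map_pow, h3, ← h1]
  rfl
/-- the residue symbol of an integer outside `v` -/
theorem gfrob_int (hp : p.Prime) (hζ : IsPrimitiveRoot ζ p) {v : Pl K} (hv : ¬ Above p v)
    (P : Ideal (𝓞 Ω)) (hP : P.IsPrime) (hPv : P.under (𝓞 K) = v.asIdeal) (F : Gal(Ω/K))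
    (hF : ∀ x : 𝓞 Ω, F • x - x ^ nm v ∈ P) (μ : Kˣ) (m : 𝓞 K) (hm : m ∉ v.asIdeal)
    (hμ : (μ : K) = (m : K)) : kk p ζ μ F = lg p ζ v μ := by
  have hmem : ∀ x : 𝓞 K, algebraMap (𝓞 K) (𝓞 Ω) x ∈ P ↔ x ∈ v.asIdeal := by
    intro x
    rw [← hPv]
    rfl
  have hord : ord v μ = 0 := by
    rw [ord_eq_zero_iff, hμ]
    exact (IsDedekindDomain.HeightOneSpectrum.valuation_eq_one_iff_notMem (K := K) v).2 hm
  obtain ⟨C, hC⟩ : ∃ C : Ω, C ^ p = algebraMap K Ω (μ : K) := by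
    have : IsAlgClosed Ω := IsAlgClosure.isAlgClosed K
    exact IsAlgClosed.exists_pow_nat_eq _ hp.pos
  have hCint : IsIntegral ℤ C := by
    apply IsIntegral.of_pow hp.pos
    rw [hC, hμ]
    exact m.2.map (algebraMap K Ω).toIntAlgHom
  set c : 𝓞 Ω := ⟨C, hCint⟩ with hc
  have hcp : c ^ p = algebraMap (𝓞 K) (𝓞 Ω) m := by
    apply NumberField.RingOfIntegers.ext
    show C ^ p = algebraMap K Ω (m : K)
    rw [hC, hμ]
  have hζint : IsIntegral ℤ ζ := hζ.isIntegral hp.pos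
  set z : 𝓞 K := ⟨ζ, hζint⟩ with hz
  set j : ℕ := (kk p ζ μ F).val with hj
  have hFc : F • c = (algebraMap (𝓞 K) (𝓞 Ω) z) ^ j * c := by
    apply NumberField.RingOfIntegers.ext
    show F C = (algebraMap K Ω ζ) ^ j * C
    exact kk_root hp hζ μ C hC F
  obtain ⟨e, he⟩ := dvd_nm hp hζ hv
  have hq : nm v = p * e + 1 := by
    have := one_lt_nm v
    omega
  have hq2 : (nm v - 1) / p = e := by
    rw [he, Nat.mul_div_cancel_left _ hp.pos]
  have hcP : c ∉ P := by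
    intro h
    apply hm
    rw [← hmem, ← hcp]
    exact P.pow_mem_of_mem h p hp.pos
  have h1 : algebraMap (𝓞 K) (𝓞 Ω) (m ^ e - z ^ j) ∈ P := by
    have h2 := hF c
    rw [hFc, hq, pow_succ, pow_mul, hcp, ← sub_mul] at h2
    have h3 := (hP.mem_or_mem h2).resolve_right hcP
    rw [map_sub, map_pow, map_pow, ← neg_sub]
    exact P.neg_mem h3
  rw [hmem] at h1
  symm
  apply lg_unique hp hζ hv hord
  rw [hq2, ← hj]
  have h4 := (symb_mem v (m ^ e - z ^ j)).2 h1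
  have h5 : algebraMap (𝓞 K) K (m ^ e - z ^ j) = (μ : K) ^ e - ζ ^ j := by
    rw [map_sub, map_pow, map_pow, hμ]
    rfl
  rwa [h5] at h4

/-- the residue symbol of a unit at `v` -/
theorem gfrob_unit (hp : p.Prime) (hζ : IsPrimitiveRoot ζ p) {v : Pl K} (hv : ¬ Above p v)
    (P : Ideal (𝓞 Ω)) (hP : P.IsPrime) (hPv : P.under (𝓞 K) = v.asIdeal) (F : Gal(Ω/K))
    (hF : ∀ x : 𝓞 Ω, F • x - x ^ nm v ∈ P) (u : Kˣ) (hu : ord v u = 0) :
    kk p ζ u F = lg p ζ v u := by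
  obtain ⟨a, b, ha, hb, hab⟩ := H38.TD.exists_int_div v u (by rw [← ord_eq_od]; exact hu)
  have hb0 : (b : K) ≠ 0 := by
    intro h
    apply hb
    have : b = 0 := NumberField.RingOfIntegers.ext (by simpa using h)
    rw [this]
    exact v.asIdeal.zero_mem
  set β : Kˣ := Units.mk0 (b : K) hb0 with hβ
  have hvp : v.asIdeal.IsPrime := v.isPrime
  have hm : b ^ (p - 1) * a ∉ v.asIdeal := by
    intro h
    rcases hvp.mem_or_mem h with h | h
    · exact hb (hvp.mem_of_pow_mem _ h)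
    · exact ha h
  have hβord : ord v β = 0 := by
    rw [ord_eq_zero_iff]
    exact (IsDedekindDomain.HeightOneSpectrum.valuation_eq_one_iff_notMem (K := K) v).2 hb
  have h1 := gfrob_int hp hζ hv P hP hPv F hF (β ^ (p : ℤ) * u) (b ^ (p - 1) * a) hm (by
    have h2 : ((b ^ (p - 1) * a : 𝓞 K) : K) = (b : K) ^ (p - 1) * (a : K) := by
      push_cast
      ring
    rw [h2, ← hab, Units.val_mul, zpow_natCast, Units.val_pow_eq_pow_val, hβ, Units.val_mk0]
    have h3 : (b : K) ^ p = (b : K) ^ (p - 1) * (b : K) := by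
      rw [← pow_succ, Nat.sub_add_cancel hp.one_le]
    rw [h3]
    ring)
  rw [kk_mul_arg hp hζ, kk_zpow_arg hp hζ, lg_mul hp hζ hv (by rw [ord_zpow, hβord, mul_zero]) hu,
    lg_zpow hp hζ hv hβord] at h1
  have h4 : (((p : ℕ) : ℤ) : ZMod p) = 0 := by
    rw [Int.cast_natCast, ZMod.natCast_self]
  rw [h4, zero_mul, zero_add, zero_mul, zero_add] at h1
  exact h1

theorem ld_frob (hp : p.Prime) (hζ : IsPrimitiveRoot ζ p) {v : Pl K} (hv : ¬ Above p v) {π : Kˣ}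
    (hπ : ord v π = 1) (L : LD p ζ Ω v π) {G : Type} [Group G] [Finite G] (hG : Ep p G)
    (φ : Gal(Ω/K) →* G) (hφ : H38.ML.FT φ) {m : ℕ} (a : Fin m → Kˣ) :
    ∃ F : Gal(Ω/K), F L.w = L.w ∧ φ F * φ L.t = φ L.t * φ F ∧
      ∀ k, kk p ζ (a k) F = lgv p ζ v π (a k) := by
  have : NeZero p := ⟨hp.ne_zero⟩
  obtain ⟨F0, hF0⟩ := gfrob_ex L.P L.prime L.under
  set j : ℕ := (kk p ζ π F0).val with hj
  have ht1 : kk p ζ π L.t = 1 := by
    have := kk_of_root hp hζ π L.w L.hw L.t 1 (by rw [zpow_one]; exact L.act)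
    rw [this, Int.cast_one]
  have htj : (L.t ^ j)⁻¹ ∈ L.P.inertia Gal(Ω/K) := inv_mem (pow_mem L.ht j)
  set F : Gal(Ω/K) := (L.t ^ j)⁻¹ * F0 with hFdef
  have hF : ∀ x : 𝓞 Ω, F • x - x ^ nm v ∈ L.P := by
    intro x
    have h1 : F • x - x ^ nm v = ((L.t ^ j)⁻¹ • (F0 • x) - F0 • x) + (F0 • x - x ^ nm v) := by
      rw [hFdef, mul_smul]
      ring
    rw [h1]
    exact L.P.add_mem (htj (F0 • x)) (hF0 x)
  have hkkF : kk p ζ π F = 0 := by
    have h1 : kk p ζ π F = -(j * kk p ζ π L.t) + kk p ζ π F0 := by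
      unfold kk
      rw [hFdef, map_mul, map_inv, map_pow, toAdd_mul, toAdd_inv, toAdd_pow, nsmul_eq_mul]
    rw [h1, ht1, mul_one, hj, ZMod.natCast_zmod_val, neg_add_cancel]
  have hFw : F L.w = L.w := by
    have h1 := kk_root hp hζ π L.w L.hw F
    rw [hkkF, ZMod.val_zero, pow_zero, one_mul] at h1
    exact h1
  have hnm : 0 < nm v := lt_trans Nat.zero_lt_one (one_lt_nm v)
  have hFP : ∀ y ∈ L.P, F • y ∈ L.P := by
    intro y hy
    have h1 := L.P.add_mem (hF y) (L.P.pow_mem_of_mem hy (nm v) hnm)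
    rwa [sub_add_cancel] at h1
  have hconj : F * L.t * F⁻¹ ∈ L.P.inertia Gal(Ω/K) := by
    intro x
    have h1 : (F * L.t * F⁻¹) • x - x = F • (L.t • (F⁻¹ • x) - F⁻¹ • x) := by
      rw [smul_sub, mul_smul, mul_smul, smul_inv_smul]
    rw [h1]
    exact hFP _ (L.ht (F⁻¹ • x))
  have hδ : F * L.t * F⁻¹ * L.t⁻¹ ∈ L.P.inertia Gal(Ω/K) := mul_mem hconj (inv_mem L.ht)
  have hFinv : F⁻¹ L.w = L.w := by
    have h1 : F⁻¹ (F L.w) = L.w := AlgEquiv.symm_apply_apply F L.w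
    rwa [hFw] at h1
  have htinv : L.t⁻¹ L.w = algebraMap K Ω ζ⁻¹ * L.w := by
    have hζ0 : ζ ≠ 0 := hζ.ne_zero hp.ne_zero
    have h1 : L.t⁻¹ (L.t L.w) = L.w := AlgEquiv.symm_apply_apply L.t L.w
    rw [L.act, map_mul, AlgEquiv.commutes] at h1
    have h2 : algebraMap K Ω ζ ≠ 0 := (map_ne_zero _).2 hζ0
    rw [map_inv₀, eq_inv_mul_iff_mul_eq₀ h2]
    exact h1
  have hδw : (F * L.t * F⁻¹ * L.t⁻¹) L.w = L.w := by
    have hζ0 : ζ ≠ 0 := hζ.ne_zero hp.ne_zero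
    show F (L.t (F⁻¹ (L.t⁻¹ L.w))) = L.w
    rw [htinv, map_mul F⁻¹, AlgEquiv.commutes F⁻¹, hFinv, map_mul L.t, AlgEquiv.commutes L.t,
      L.act, ← mul_assoc, ← map_mul (algebraMap K Ω), inv_mul_cancel₀ hζ0, map_one, one_mul, hFw]
  have hφδ := ld_tame hp hζ hv hπ L hG φ hφ _ hδ hδw
  refine ⟨F, hFw, ?_, ?_⟩
  · rw [map_mul, map_mul, map_mul, map_inv, map_inv] at hφδ
    have h1 := mul_inv_eq_one.1 hφδ
    rw [mul_inv_eq_iff_eq_mul] at h1
    exact h1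
  · intro k
    unfold lgv
    rw [← gfrob_unit hp hζ hv L.P L.prime L.under F hF (a k * π ^ (-ord v (a k))) (by
      rw [ord_mul, ord_zpow, hπ]
      ring), kk_mul_arg hp hζ, kk_zpow_arg hp hζ, hkkF, mul_zero, add_zero]

end H63.MA
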