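import Pool.Agent.H63.MA.GKum

/-!
# MA-GTRIV: trivial 2-cochains

* `tv_add`, `tv_neg`, `tv_smul`, `tv_zero`, `tv_sum`: pointwise operations on `l` (the intersection of two fixing subgroups is the fixing subgroup of
  the compositum, finite over `K`).
* `tv_swap`: `cu a b + cu b a` is trivial with `l = kk a * kk b`.
* `cu_mul_left`, `cu_zpow_left`, ...: bilinearity of `cu` from `kk_mul_arg`, `kk_zpow_arg`.
* `tv_of_pre`: let `Λ : Γ → Ωˣ` be of finite level with `ζ^{E σ τ} Λ(σ τ) = Λ(σ) σ(Λ(τ))`. Then `κ(σ) = Λ(σ)^p` satisfies `κ(σ τ) = κ(σ) σ(κ(τ))`. `Λ` has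
  finitely many values (finite level `E₀`, `Γ / E₀.fixingSubgroup` finite); let `M/K` be finite Galois containing `E₀` and these values. `κ` factors through
  `Gal(M/K)` with values in `Mˣ`; Hilbert 90 (`groupCohomology.isMulCoboundary₁_of_isMulCocycle₁_of_aut_to_units`) gives `t ∈ Mˣ` with
  `κ(σ) = σ(t) / t` for all `σ`. Let `θ^p = t`, `θ ∈ Ωˣ`; `Λ'(σ) = Λ(σ) θ / σ(θ)` has `Λ'(σ)^p = 1`, so `Λ'(σ) = ζ^{l'(σ)}` with `l'(σ) ∈ ZMod p`, and
  `ζ^{E σ τ} Λ'(σ τ) = Λ'(σ) σ(Λ'(τ)) = Λ'(σ) Λ'(τ)`. So `l = - l'` works; it is of finite level (`E₀`, the field `K(θ)`).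
-/

set_option autoImplicit false

open scoped NumberField
open IsDedekindDomain

noncomputable section

namespace H63.MA

variable {K : Type} [Field K] [NumberField K] {Ω : Type} [Field Ω] [Algebra K Ω] [IsAlgClosure K Ω]
  {p : ℕ} {ζ : K}

theorem gtriv_lev {X Y Z : Type} {f : Gal(Ω/K) → X} {g : Gal(Ω/K) → Y} (hf : Lev f) (hg : Lev g)
    (F : X → Y → Z) : Lev (fun σ => F (f σ) (g σ)) := by
  obtain ⟨E, hE, h1⟩ := hf
  obtain ⟨E', hE', h2⟩ := hg
  have hE1 := hE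
  have hE2 := hE'
  refine ⟨E ⊔ E', IntermediateField.finiteDimensional_sup E E', fun σ u hu => ?_⟩
  have e1 : u ∈ E.fixingSubgroup := by
    rw [IntermediateField.mem_fixingSubgroup_iff] at hu ⊢
    exact fun x hx => hu x ((le_sup_left : E ≤ E ⊔ E') hx)
  have e2 : u ∈ E'.fixingSubgroup := by
    rw [IntermediateField.mem_fixingSubgroup_iff] at hu ⊢
    exact fun x hx => hu x ((le_sup_right : E' ≤ E ⊔ E') hx)
  show F (f (σ * u)) (g (σ * u)) = F (f σ) (g σ)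
  rw [h1 σ u e1, h2 σ u e2]

theorem gtriv_const {X : Type} (x : X) : Lev (fun _ : Gal(Ω/K) => x) :=
  ⟨⊥, inferInstance, fun _ _ _ => rfl⟩

theorem gtriv_kk (hp : p.Prime) (hζ : IsPrimitiveRoot ζ p) (a : Kˣ) :
    Lev (fun σ : Gal(Ω/K) => kk p ζ a σ) := by
  obtain ⟨E, hE, h1⟩ := (kc_is (Ω := Ω) hp hζ a).1
  refine ⟨E, hE, fun σ u hu => ?_⟩
  have h2 : kk p ζ a u = 0 := by
    have h3 : kc p ζ Ω a u = 1 := h1 hu
    unfold kk
    rw [h3]
    rfl
  show kk p ζ a (σ * u) = kk p ζ a σ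
  rw [kk_mul, h2, add_zero]

theorem tv_zero : Tv (fun (_ _ : Gal(Ω/K)) => (0 : ZMod p)) :=
  ⟨fun _ => 0, gtriv_const 0, fun σ τ => by simp⟩

theorem tv_add (E E' : Gal(Ω/K) → Gal(Ω/K) → ZMod p) (h : Tv E) (h' : Tv E') :
    Tv (fun σ τ => E σ τ + E' σ τ) := by
  obtain ⟨l, hl, h1⟩ := h
  obtain ⟨l', hl', h2⟩ := h'
  refine ⟨fun σ => l σ + l' σ, gtriv_lev hl hl' (fun x y => x + y), fun σ τ => ?_⟩
  simp only [h1 σ τ, h2 σ τ]
  ring

theorem tv_smul (c : ZMod p) (E : Gal(Ω/K) → Gal(Ω/K) → ZMod p) (h : Tv E) :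
    Tv (fun σ τ => c * E σ τ) := by
  obtain ⟨l, hl, h1⟩ := h
  refine ⟨fun σ => c * l σ, gtriv_lev hl hl (fun x _ => c * x), fun σ τ => ?_⟩
  simp only [h1 σ τ]
  ring

theorem tv_sum {ι : Type} (s : Finset ι) (E : ι → Gal(Ω/K) → Gal(Ω/K) → ZMod p)
    (h : ∀ i ∈ s, Tv (E i)) : Tv (fun σ τ => ∑ i ∈ s, E i σ τ) := by
  classical
  induction s using Finset.induction_on with
  | empty =>
    have h0 : (fun (σ τ : Gal(Ω/K)) => ∑ i ∈ (∅ : Finset ι), E i σ τ) = fun _ _ => (0 : ZMod p) := by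
      funext σ τ
      simp
    rw [h0]
    exact tv_zero
  | insert i s his ih =>
    have h0 : (fun (σ τ : Gal(Ω/K)) => ∑ i ∈ insert i s, E i σ τ) =
        fun σ τ => E i σ τ + ∑ i ∈ s, E i σ τ := by
      funext σ τ
      rw [Finset.sum_insert his]
    rw [h0]
    exact tv_add _ _ (h i (Finset.mem_insert_self i s))
      (ih fun j hj => h j (Finset.mem_insert_of_mem hj))

theorem tv_swap (hp : p.Prime) (hζ : IsPrimitiveRoot ζ p) (a b : Kˣ) :
    Tv (fun (σ τ : Gal(Ω/K)) => cu p ζ a b σ τ + cu p ζ b a σ τ) := by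
  refine ⟨fun σ => kk p ζ a σ * kk p ζ b σ,
    gtriv_lev (gtriv_kk hp hζ a) (gtriv_kk hp hζ b) (fun x y => x * y), fun σ τ => ?_⟩
  unfold cu
  simp only [kk_mul]
  ring

theorem gtriv_pow (hζ : IsPrimitiveRoot ζ p) (hp : p.Prime) (a b : ZMod p) :
    algebraMap K Ω ζ ^ (a + b).val = algebraMap K Ω ζ ^ a.val * algebraMap K Ω ζ ^ b.val := by
  have : NeZero p := ⟨hp.ne_zero⟩
  have h1 : algebraMap K Ω ζ ^ p = 1 := by rw [← map_pow, hζ.pow_eq_one, map_one]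
  rw [← pow_add, ZMod.val_add, ← pow_eq_pow_mod _ h1]

/-- a finite normal extension containing the level and the values of `Λ` -/
theorem gtriv_field (E₀ : IntermediateField K Ω) [FiniteDimensional K E₀] (Λ : Gal(Ω/K) → Ω)
    (hE₀ : ∀ σ, ∀ u ∈ E₀.fixingSubgroup, Λ (σ * u) = Λ σ) :
    ∃ M : IntermediateField K Ω, FiniteDimensional K M ∧ Normal K M ∧ E₀ ≤ M ∧ ∀ σ, Λ σ ∈ M := by
  classical
  have hgal : IsGalois K Ω := IsAlgClosure.isGalois K Ω
  -- the values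
  have hfin : (Set.range Λ).Finite := by
    obtain ⟨r, hr⟩ : ∃ r : Gal(Ω/K) → (E₀ →ₐ[K] Ω), ∀ σ x, r σ x = σ (x : Ω) :=
      ⟨fun σ => (σ : Ω →ₐ[K] Ω).comp E₀.val, fun σ x => rfl⟩
    have hfac : ∀ σ τ, r σ = r τ → Λ σ = Λ τ := by
      intro σ τ h
      have h1 : τ⁻¹ * σ ∈ E₀.fixingSubgroup := by
        rw [IntermediateField.mem_fixingSubgroup_iff]
        intro x hx
        have h2 := DFunLike.congr_fun h ⟨x, hx⟩
        rw [hr, hr] at h2
        simp only at h2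
        rw [AlgEquiv.mul_apply, h2, ← AlgEquiv.mul_apply, inv_mul_cancel]
        rfl
      have h3 := hE₀ τ _ h1
      rwa [mul_inv_cancel_left] at h3
    have : Set.range Λ ⊆ Set.range (fun φ : (E₀ →ₐ[K] Ω) =>
        if h : ∃ σ, r σ = φ then Λ h.choose else 0) := by
      rintro _ ⟨σ, rfl⟩
      have h : ∃ τ, r τ = r σ := ⟨σ, rfl⟩
      refine ⟨r σ, ?_⟩
      simp only [dif_pos h]
      exact hfac _ _ h.choose_spec
    exact (Set.finite_range _).subset this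
  have : Finite (Set.range Λ) := hfin
  have hF : FiniteDimensional K (IntermediateField.adjoin K (Set.range Λ)) :=
    IntermediateField.finiteDimensional_adjoin fun x _ =>
      (Algebra.IsAlgebraic.isAlgebraic (R := K) x).isIntegral
  obtain ⟨F, hFdef⟩ : ∃ F : IntermediateField K Ω,
    F = E₀ ⊔ IntermediateField.adjoin K (Set.range Λ) := ⟨_, rfl⟩
  have hFfd : FiniteDimensional K F := by
    rw [hFdef]
    exact IntermediateField.finiteDimensional_sup _ _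
  refine ⟨IntermediateField.normalClosure K F Ω, inferInstance, inferInstance, ?_, fun σ => ?_⟩
  · refine le_trans ?_ (IntermediateField.le_normalClosure F)
    rw [hFdef]
    exact le_sup_left
  · apply IntermediateField.le_normalClosure F
    rw [hFdef]
    exact (le_sup_right : _ ≤ E₀ ⊔ IntermediateField.adjoin K (Set.range Λ))
      (IntermediateField.subset_adjoin K _ ⟨σ, rfl⟩)

theorem tv_of_pre (hp : p.Prime) (hζ : IsPrimitiveRoot ζ p)
    (E : Gal(Ω/K) → Gal(Ω/K) → ZMod p) (Λ : Gal(Ω/K) → Ω) (h0 : ∀ σ, Λ σ ≠ 0) (hΛ : Lev Λ)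
    (h : ∀ σ τ, algebraMap K Ω ζ ^ (E σ τ).val * Λ (σ * τ) = Λ σ * σ (Λ τ)) : Tv E := by
  classical
  have hgal : IsGalois K Ω := IsAlgClosure.isGalois K Ω
  have hac : IsAlgClosed Ω := IsAlgClosure.isAlgClosed K
  have : NeZero p := ⟨hp.ne_zero⟩
  have hz1 : algebraMap K Ω ζ ^ p = 1 := by rw [← map_pow, hζ.pow_eq_one, map_one]
  have hz0 : algebraMap K Ω ζ ≠ 0 := by
    intro h
    exact hζ.ne_zero hp.ne_zero ((map_eq_zero _).1 h)
  have hzp : IsPrimitiveRoot (algebraMap K Ω ζ) p := hζ.map_of_injective (algebraMap K Ω).injective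
  have hΛ' := hΛ
  obtain ⟨E₀, hE₀f, hE₀⟩ := hΛ
  obtain ⟨M, hMf, hMn, hE₀M, hΛM⟩ := gtriv_field E₀ Λ hE₀
  have hsurj : Function.Surjective (AlgEquiv.restrictNormalHom (F := K) (K₁ := Ω) M) :=
    AlgEquiv.restrictNormalHom_surjective Ω
  obtain ⟨r, hrdef⟩ : ∃ r : Gal(Ω/K) →* Gal(M/K), r = AlgEquiv.restrictNormalHom M := ⟨_, rfl⟩
  have hr : ∀ σ (x : M), ((r σ x : M) : Ω) = σ (x : Ω) := by
    intro σ x
    rw [hrdef]
    exact AlgEquiv.restrictNormal_commutes σ M x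
  have hrs : Function.Surjective r := by
    rw [hrdef]
    exact hsurj
  have hfac : ∀ σ τ, r σ = r τ → Λ σ = Λ τ := by
    intro σ τ hst
    have h1 : τ⁻¹ * σ ∈ E₀.fixingSubgroup := by
      rw [IntermediateField.mem_fixingSubgroup_iff]
      intro x hx
      have h2 : σ x = τ x := by
        have h3 := hr σ ⟨x, hE₀M hx⟩
        have h4 := hr τ ⟨x, hE₀M hx⟩
        rw [hst, h4] at h3
        exact h3.symm
      rw [AlgEquiv.mul_apply, h2, ← AlgEquiv.mul_apply, inv_mul_cancel]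
      rfl
    have h3 := hE₀ τ _ h1
    rwa [mul_inv_cancel_left] at h3
  have hM0 : ∀ σ, (⟨Λ σ ^ p, pow_mem (hΛM σ) p⟩ : M) ≠ 0 := by
    intro σ hσ
    exact pow_ne_zero p (h0 σ) (congrArg Subtype.val hσ)
  choose s hs using hrs
  obtain ⟨κ, hκ⟩ : ∃ κ : Gal(M/K) → Mˣ, ∀ g, ((κ g : M) : Ω) = Λ (s g) ^ p :=
    ⟨fun g => Units.mk0 _ (hM0 (s g)), fun g => rfl⟩
  have hκr : ∀ σ, ((κ (r σ) : M) : Ω) = Λ σ ^ p := by
    intro σ
    rw [hκ, hfac (s (r σ)) σ (hs (r σ))]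
  have hcoc : groupCohomology.IsMulCocycle₁ κ := by
    intro g g'
    apply Units.ext
    apply Subtype.ext
    obtain ⟨σ, rfl⟩ : ∃ σ, r σ = g := ⟨s g, hs g⟩
    obtain ⟨τ, rfl⟩ : ∃ τ, r τ = g' := ⟨s g', hs g'⟩
    rw [← map_mul, hκr]
    have e1 : (((r σ • κ (r τ) * κ (r σ) : Mˣ) : M) : Ω) = σ (Λ τ ^ p) * Λ σ ^ p := by
      rw [Units.val_mul, AlgEquiv.smul_units_def]
      have e2 : (((Units.map (r σ : M →* M) (κ (r τ)) : Mˣ) : M) : Ω) = σ ((κ (r τ) : M) : Ω) :=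
        hr σ _
      rw [MulMemClass.coe_mul, hκr σ, ← hκr τ]
      congr 1
    rw [e1]
    have e3 := congrArg (fun z => z ^ p) (h σ τ)
    simp only [mul_pow] at e3
    rw [← pow_mul, mul_comm _ p, pow_mul, hz1, one_pow, one_mul] at e3
    rw [e3, map_pow]
    ring
  obtain ⟨t, ht⟩ := groupCohomology.isMulCoboundary₁_of_isMulCocycle₁_of_aut_to_units κ hcoc
  obtain ⟨T, hT⟩ : ∃ T : Ω, T = ((t : M) : Ω) := ⟨_, rfl⟩
  have hT0 : T ≠ 0 := by
    rw [hT]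
    intro hz
    exact t.ne_zero (Subtype.ext hz)
  have hΛT : ∀ σ, Λ σ ^ p * T = σ T := by
    intro σ
    have e1 := ht (r σ)
    rw [div_eq_iff_eq_mul] at e1
    have e2 := congrArg (fun z : Mˣ => ((z : M) : Ω)) e1
    simp only [Units.val_mul, MulMemClass.coe_mul] at e2
    rw [hκr, ← hT] at e2
    rw [← e2, hT]
    exact (hr σ _)
  obtain ⟨θ, hθ⟩ := IsAlgClosed.exists_pow_nat_eq T hp.pos
  have hθ0 : θ ≠ 0 := by
    rintro rfl
    rw [zero_pow hp.ne_zero] at hθ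
    exact hT0 hθ.symm
  have hσθ0 : ∀ σ : Gal(Ω/K), σ θ ≠ 0 := fun σ => (map_ne_zero σ).2 hθ0
  have hroot : ∀ σ, ∃ i : ℕ, i < p ∧ algebraMap K Ω ζ ^ i = Λ σ * θ / σ θ := by
    intro σ
    have e1 : (Λ σ * θ / σ θ) ^ p = 1 := by
      rw [div_pow, mul_pow, hθ, ← map_pow, hθ, hΛT σ]
      exact div_self ((map_ne_zero σ).2 hT0)
    obtain ⟨i, hi, hi2⟩ := hzp.eq_pow_of_pow_eq_one e1
    exact ⟨i, hi, hi2⟩
  choose i hi hi2 using hroot
  obtain ⟨l, hl⟩ : ∃ l : Gal(Ω/K) → ZMod p, l = fun σ => (i σ : ZMod p) := ⟨_, rfl⟩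
  have hlv : ∀ σ, (l σ).val = i σ := by
    intro σ
    rw [hl]
    exact ZMod.val_cast_of_lt (hi σ)
  have hl2 : ∀ σ, algebraMap K Ω ζ ^ (l σ).val * σ θ = Λ σ * θ := by
    intro σ
    rw [hlv, hi2]
    exact div_mul_cancel₀ _ (hσθ0 σ)
  have hinj : ∀ a b : ZMod p, algebraMap K Ω ζ ^ a.val = algebraMap K Ω ζ ^ b.val → a = b := by
    intro a b hab
    exact ZMod.val_injective p (hzp.pow_inj (ZMod.val_lt a) (ZMod.val_lt b) hab)
  have hadd : ∀ σ τ, E σ τ + l (σ * τ) = l σ + l τ := by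
    intro σ τ
    apply hinj
    rw [gtriv_pow hζ hp, gtriv_pow hζ hp]
    have e1 := hl2 (σ * τ)
    have e2 := congrArg σ (hl2 τ)
    rw [map_mul, map_mul, map_pow, AlgEquiv.commutes] at e2
    have e3 := hl2 σ
    have e4 : (σ * τ) θ = σ (τ θ) := rfl
    rw [e4] at e1
    have e5 := h σ τ
    have e6 : algebraMap K Ω ζ ^ (E σ τ).val * algebraMap K Ω ζ ^ (l (σ * τ)).val * σ (τ θ) =
        algebraMap K Ω ζ ^ (l σ).val * algebraMap K Ω ζ ^ (l τ).val * σ (τ θ) := by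
      calc algebraMap K Ω ζ ^ (E σ τ).val * algebraMap K Ω ζ ^ (l (σ * τ)).val * σ (τ θ) =
          algebraMap K Ω ζ ^ (E σ τ).val * (algebraMap K Ω ζ ^ (l (σ * τ)).val * σ (τ θ)) := by
            ring
        _ = (algebraMap K Ω ζ ^ (E σ τ).val * Λ (σ * τ)) * θ := by rw [e1]; ring
        _ = σ (Λ τ) * (Λ σ * θ) := by rw [e5]; ring
        _ = σ (Λ τ) * (algebraMap K Ω ζ ^ (l σ).val * σ θ) := by rw [e3]
        _ = algebraMap K Ω ζ ^ (l σ).val * (σ (Λ τ) * σ θ) := by ring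
        _ = _ := by rw [← e2]; ring
    exact mul_right_cancel₀ (hσθ0 (σ * τ)) e6
  have hlev : Lev l := by
    have hθint : IsIntegral K θ := (Algebra.IsAlgebraic.isAlgebraic (R := K) θ).isIntegral
    have hθf : FiniteDimensional K (IntermediateField.adjoin K {θ}) :=
      IntermediateField.adjoin.finiteDimensional hθint
    have h1 : Lev (fun σ : Gal(Ω/K) => σ θ) := by
      refine ⟨IntermediateField.adjoin K {θ}, hθf, fun σ u hu => ?_⟩
      rw [IntermediateField.mem_fixingSubgroup_iff] at hu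
      show σ (u θ) = σ θ
      rw [hu θ (IntermediateField.mem_adjoin_simple_self K θ)]
    obtain ⟨F, hF, hF2⟩ := gtriv_lev hΛ' h1 (fun x y => (x, y))
    refine ⟨F, hF, fun σ u hu => ?_⟩
    have h2 := hF2 σ u hu
    rw [Prod.mk.injEq] at h2
    apply hinj
    rw [hlv, hlv, hi2, hi2, h2.1, h2.2]
  refine ⟨fun σ => - l σ, gtriv_lev hlev hlev (fun x _ => -x), fun σ τ => ?_⟩
  have h1 := hadd σ τ
  linear_combination -h1

end H63.MA
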