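import Pool.Agent.H63.MA.GUpA
import Pool.Agent.H63.MA.GFrob
import Pool.Agent.H63.MA.AExp

/-!
# MA-GUPB: the Kummer data of a surjective homomorphism

`upb`: let `U` be a finite set of `S0`-units as in `unit_reps`; `φ : Γ → G` surjective of finite type, `f i = {v ∉ S0 : φ (t v) conjugate to g i}` (finite sets). Then there is `ε : Fin m → Kˣ` with values in `U` such that,
with `a k = ak D cd ε f k`: `π (φ σ) = (kk (a k) σ)_k`; the `a k` are independent modulo `p`-th powers; and `wt cd f (LL v (a k)) = ∏_i (#class_i)^{#(f i)}`.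

Proof. `σ ↦ π (φ σ) k` is a character of finite type, `= kc (a' k)` (`kc_all`). For `v ∉ S0`: `ord v (a' k) = kk (a' k) (t v) = π (φ (t v)) k` modulo `p`, which is `x i k` if `v ∈ f i` and `0` if `v` is in no `f i` (then
`φ (t v) = 1` by `Dg.cls`). So `a' k / ∏_i ∏_{w ∈ f i} pi w ^ (x i k).val` has orders divisible by `p` outside `S0`, hence is `ε k * y^p` with `ε k ∈ U` (`unit_of_ord`, `unit_reps`). `kk (a k) = kk (a' k)`.
Independence: if `∏ a k ^ (θ k).val` is a `p`-th power then `∑ θ k kk (a k) σ = 0` for all `σ`, but `(kk (a k) σ)_k = π (φ σ)` takes all values, so `θ = 0`. Weight: let `v ∈ f i`, `φ (t v) = x g_i x⁻¹`.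
`ld_frob` (family `a`, `D.ld v`) gives `F` with `φ F` commuting with `φ (t v)`, `kk (a k) F = lgv v (a k) = LL v (a k)`. `h = x⁻¹ φ(F) x` commutes with `g i` and `π h = π (φ F) = (LL v (a k))_k`, so
`∑ θ k LL v (a k) = 0` for all `θ ∈ Θ i` (`Dg.mem`): the condition in `wt` holds, the factor is `#Θ i = #class_i` (`Dg.card`).
-/

set_option autoImplicit false

open scoped NumberField
open IsDedekindDomain
open scoped Classical

noncomputable section

namespace H63.MA

variable {K : Type} [Field K] [NumberField K] {Ω : Type} [Field Ω] [Algebra K Ω] [IsAlgClosure K Ω]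
  {p : ℕ} {ζ : K} {m N : ℕ}

theorem gupb_t {D : RD0 K p ζ} (L : LDs D Ω) {v : Pl K} (hv : v ∉ D.S0) :
    L.t v = (L.ld v hv).t := by
  unfold LDs.t
  rw [dif_pos hv]

/-- the orders of the product of the generators -/
theorem gupb_ord (D : RD0 K p ζ) (f : Fin N → Finset (Pl K)) (hf : ∀ i, ∀ w ∈ f i, w ∉ D.S0)
    (x : Fin N → ℕ) (v : Pl K) (hv : v ∉ D.S0) :
    ord v (∏ i, ∏ w ∈ f i, D.pi w ^ x i) = ∑ i, if v ∈ f i then (x i : ℤ) else 0 := by
  rw [ord_prod]
  refine Finset.sum_congr rfl fun i _ => ?_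
  rw [ord_prod]
  by_cases h : v ∈ f i
  · rw [if_pos h, Finset.sum_eq_single v]
    · rw [ord_pow, D.pi_self v hv, mul_one]
    · intro w hw hne
      rw [ord_pow, D.pi_ne w v (hf i w hw) hv (Ne.symm hne), mul_zero]
    · intro h'
      exact absurd h h'
  · rw [if_neg h]
    apply Finset.sum_eq_zero
    intro w hw
    have hne : v ≠ w := by
      rintro rfl
      exact h hw
    rw [ord_pow, D.pi_ne w v (hf i w hw) hv hne, mul_zero]

/-- the projection of conjugate elements -/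
theorem gupb_conj {G : Type} [Group G] (Dg : GD p m N G) {a b : G} (h : IsConj a b) :
    Dg.π a = Dg.π b := by
  have h1 : IsConj (Dg.π a) (Dg.π b) := MonoidHom.map_isConj Dg.π h
  exact isConj_iff_eq.1 h1

theorem upb (hp : p.Prime) (hζ : IsPrimitiveRoot ζ p) (D : RD0 K p ζ) (L : LDs D Ω)
    {G : Type} [Group G] [Finite G] (hG : Ep p G) (Dg : GD p m N G) (U : Finset Kˣ)
    (hU : ∀ x, TUnit D.S0 x → ∃ u ∈ U, ∃ y : Kˣ, x = u * y ^ p) (φ : Gal(Ω/K) →* G)
    (hφ : H38.ML.FT φ) (hs : Function.Surjective φ) (f : Fin N → Finset (Pl K))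
    (hf : ∀ i v, v ∈ f i ↔ v ∉ D.S0 ∧ IsConj (φ (L.t v)) (Dg.g i)) :
    ∃ ε : Fin m → Kˣ, (∀ k, ε k ∈ U) ∧
      (∀ σ k, Multiplicative.toAdd (Dg.π (φ σ)) k = kk p ζ (ak D Dg.cd ε f k) σ) ∧
      (∀ θ : Fin m → ZMod p, θ ≠ 0 → ¬ IsPow p (bp (ak D Dg.cd ε f) θ)) ∧
      wt Dg.cd f (fun v k => D.LL v (ak D Dg.cd ε f k)) =
        ∏ i, (Nat.card {h : G // IsConj h (Dg.g i)} : ℝ) ^ (f i).card := by
  have hne : NeZero p := ⟨hp.ne_zero⟩
  have hpz : (((p : ℕ) : ℤ) : ZMod p) = 0 := by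
    rw [Int.cast_natCast, ZMod.natCast_self]
  have hab : ∀ v, v ∉ D.S0 → ¬ Above p v := fun v hv h => hv (D.above v h)
  -- the characters
  have hch : ∀ k : Fin m, ∃ a' : Kˣ, ∀ σ : Gal(Ω/K),
      kk p ζ a' σ = Multiplicative.toAdd (Dg.π (φ σ)) k := by
    intro k
    let ev : Multiplicative (Fin m → ZMod p) →* Multiplicative (ZMod p) :=
      AddMonoidHom.toMultiplicative (Pi.evalAddMonoidHom (fun _ : Fin m => ZMod p) k)
    obtain ⟨a', ha'⟩ := kc_all hp hζ (ev.comp (Dg.π.comp φ)) (by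
      obtain ⟨E, hE, hle⟩ := hφ
      refine ⟨E, hE, fun σ hσ => ?_⟩
      have h1 : φ σ = 1 := hle hσ
      rw [MonoidHom.mem_ker, MonoidHom.comp_apply, MonoidHom.comp_apply, h1, map_one, map_one])
    refine ⟨a', fun σ => ?_⟩
    unfold kk
    rw [← ha']
    rfl
  choose a' ha' using hch
  -- the orders of the `a' k`
  have hord : ∀ v, v ∉ D.S0 → ∀ k, ((ord v (a' k) : ℤ) : ZMod p) =
      Multiplicative.toAdd (Dg.π (φ (L.t v))) k := by
    intro v hv k
    rw [← ha' k, gupb_t L hv]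
    exact (ld_kk_t hp hζ (hab v hv) (D.pi_self v hv) (L.ld v hv) (a' k)).symm
  have hfS : ∀ i, ∀ w ∈ f i, w ∉ D.S0 := fun i w hw => ((hf i w).1 hw).1
  -- the product of the generators
  have hdvd : ∀ k v, v ∉ D.S0 → (p : ℤ) ∣ ord v (a' k *
      (∏ i, ∏ w ∈ f i, D.pi w ^ (Dg.cd.x i k).val)⁻¹) := by
    intro k v hv
    rw [ord_mul, ord_inv, gupb_ord D f hfS _ v hv, ← sub_eq_add_neg,
      ← ZMod.intCast_zmod_eq_zero_iff_dvd, Int.cast_sub, hord v hv k, Int.cast_sum, sub_eq_zero]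
    by_cases h1 : φ (L.t v) = 1
    · rw [h1, map_one]
      symm
      apply Finset.sum_eq_zero
      intro i _
      have h2 : v ∉ f i := by
        intro h
        have h3 := ((hf i v).1 h).2
        rw [h1, isConj_one_right] at h3
        exact Dg.ne i h3
      rw [if_neg h2, Int.cast_zero]
    · obtain ⟨i₀, hi₀⟩ := Dg.cls _ h1
      have hmem : v ∈ f i₀ := (hf i₀ v).2 ⟨hv, hi₀⟩
      rw [Finset.sum_eq_single i₀]
      · rw [if_pos hmem, gupb_conj Dg hi₀, Int.cast_natCast, ZMod.natCast_zmod_val]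
        rfl
      · intro i _ hi
        have h2 : v ∉ f i := by
          intro h
          have h3 := ((hf i v).1 h).2
          exact hi (Dg.uni i i₀ (h3.symm.trans hi₀))
        rw [if_neg h2, Int.cast_zero]
      · intro h
        exact absurd (Finset.mem_univ _) h
  have hε : ∀ k, ∃ u ∈ U, ∃ z : Kˣ, a' k *
      (∏ i, ∏ w ∈ f i, D.pi w ^ (Dg.cd.x i k).val)⁻¹ = u * z ^ p := by
    intro k
    obtain ⟨u, y, hu, hy⟩ := unit_of_ord hp D _ (hdvd k)
    obtain ⟨u', hu', y', hy'⟩ := hU u hu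
    refine ⟨u', hu', y' * y, ?_⟩
    rw [hy, hy', mul_pow, mul_assoc]
  choose ε hεU z hz using hε
  have hak : ∀ k, a' k = ak D Dg.cd ε f k * z k ^ ((p : ℕ) : ℤ) := by
    intro k
    have h1 := hz k
    rw [mul_inv_eq_iff_eq_mul] at h1
    rw [h1, zpow_natCast]
    unfold ak
    rw [mul_right_comm]
  have hkk : ∀ σ k, Multiplicative.toAdd (Dg.π (φ σ)) k = kk p ζ (ak D Dg.cd ε f k) σ := by
    intro σ k
    rw [← ha' k σ, hak k, kk_mul_arg hp hζ, kk_zpow_arg hp hζ, hpz, zero_mul, add_zero]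
  refine ⟨ε, hεU, hkk, ?_, ?_⟩
  · intro θ hθ hpow
    apply hθ
    funext k
    obtain ⟨g, hg⟩ := Dg.sur (Multiplicative.ofAdd (Pi.single k (1 : ZMod p)))
    obtain ⟨σ, rfl⟩ := hs g
    have h1 := (kk_eq_zero_iff (Ω := Ω) hp hζ _).2 hpow σ
    unfold bp at h1
    rw [kk_prod_arg hp hζ] at h1
    have h2 : ∀ l : Fin m, kk p ζ (ak D Dg.cd ε f l ^ (θ l).val) σ =
        θ l * (Pi.single k (1 : ZMod p) : Fin m → ZMod p) l := by
      intro l
      have h3 := kk_zpow_arg hp hζ (ak D Dg.cd ε f l) ((θ l).val : ℤ) σ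
      rw [zpow_natCast] at h3
      rw [h3, ← hkk σ l, hg, Int.cast_natCast, ZMod.natCast_zmod_val]
      rfl
    rw [Finset.sum_congr rfl fun l _ => h2 l, Finset.sum_eq_single k] at h1
    · rwa [Pi.single_eq_same, mul_one] at h1
    · intro l _ hl
      rw [Pi.single_eq_of_ne hl, mul_zero]
    · intro h
      exact absurd (Finset.mem_univ _) h
  · unfold wt
    refine Finset.prod_congr rfl fun i _ => ?_
    rw [← Finset.prod_const]
    refine Finset.prod_congr rfl fun v hv => ?_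
    obtain ⟨hvS, hconj⟩ := (hf i v).1 hv
    rw [if_pos]
    · exact congrArg (Nat.cast) (Dg.card i)
    · intro θ hθ
      obtain ⟨F, -, hFt, hFk⟩ := ld_frob hp hζ (hab v hvS) (D.pi_self v hvS) (L.ld v hvS) hG φ hφ
        (ak D Dg.cd ε f)
      rw [← gupb_t L hvS] at hFt
      obtain ⟨c, hc⟩ := isConj_iff.1 hconj
      have h1 : (c * φ F * c⁻¹) * Dg.g i = Dg.g i * (c * φ F * c⁻¹) := by
        rw [← hc]
        calc c * φ F * c⁻¹ * (c * φ (L.t v) * c⁻¹) = c * (φ F * φ (L.t v)) * c⁻¹ := by group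
          _ = c * (φ (L.t v) * φ F) * c⁻¹ := by rw [hFt]
          _ = c * φ (L.t v) * c⁻¹ * (c * φ F * c⁻¹) := by group
      have h2 := (Dg.mem i θ).1 hθ _ h1
      have h3 : Dg.π (c * φ F * c⁻¹) = Dg.π (φ F) := by
        rw [map_mul, map_mul, map_inv, mul_comm (Dg.π c), mul_inv_cancel_right]
      rw [h3] at h2
      unfold dt
      rw [← h2]
      refine Finset.sum_congr rfl fun k _ => ?_
      rw [hkk F k, hFk k]
      rfl

end H63.MA
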