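import Pool.Agent.H63.MA.GNorm
import Pool.Agent.H63.MA.GSym
import Pool.Agent.H63.MA.GHeis

/-!
# MA-GLG: the local-global principle for sums of cup products

`locglob` (`p` odd): `A C : ι → Kˣ`, `Prim p (A j)`, `∑_j B v (A j) (C j) = 0` for all `v ∤ p`, and `T` a finite set of primes such that `B v (A j) (C j) = 0` for all `j` if `v ∤ p`,
`v ∉ T`. Then `∑_j cu (A j) (C j)` is trivial.

Proof. Let `T'` be the set of the `v ∈ T`, `v ∤ p`. If `T'` is empty, every `cu (A j) (C j)` is trivial: if `A j` is a `p`-th power then `kk (A j) = 0`; otherwise `norm1` and `sym1`.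
Otherwise choose `c` with `Prim p c`, `ord v c = 0`, `lg v c ≠ 0` for all `v ∈ T'` (`weak_approx_prim` with `y v` of order `0` and `lg v (y v) = 1`, see `exists_pair` in `SymC` / `SymB`;
`lg` does not change under `One1`). `c` is not a `p`-th power (`lg v` of a `p`-th power of order `0` is `0`). (1) For every `j` there is `d j` with `cu (A j) (C j) + cu c (d j)` trivial: if `A j`, `c` are independent
modulo `p`-th powers: `norm2` and `sym2`. Otherwise there are `i, k` with `(A j)^i c^k = x^p`, not both divisible by `p`; `p ∤ i` as `c` is not a `p`-th power; so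
`kk (A j) = s * kk c` for some `s ∈ ZMod p`, `cu (A j) (C j) = s * cu c (C j)`, and `d j = (C j)^{-s.val}` makes the sum equal to `0`. (2) By `tv_loc` (index type `Bool` or `Fin 2`):
`B v (A j) (C j) + B v c (d j) = 0` for all `v ∤ p`. Let `d = ∏ d j`: `B v c d = - ∑_j B v (A j) (C j) = 0` for all `v ∤ p`, so `cu c d` is trivial by `norm1` and `sym1`.
(3) `∑_j cu (A j) (C j) = ∑_j (cu (A j) (C j) + cu c (d j)) - cu c d` (`kk_prod_arg`).
-/

set_option autoImplicit false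

open scoped NumberField
open IsDedekindDomain

noncomputable section

namespace H63.MA

variable {K : Type} [Field K] [NumberField K] {p : ℕ} {ζ : K}

theorem glg_triv {K : Type} [Field K] [NumberField K] {p : ℕ} {ζ : K} (Ω : Type) [Field Ω]
    [Algebra K Ω] [IsAlgClosure K Ω] (hp : p.Prime) (hp2 : MOne p K)
    (hζ : IsPrimitiveRoot ζ p) (a b : Kˣ) (ha : Prim p a)
    (h : ∀ v : Pl K, ¬ Above p v → B p ζ v a b = 0) :
    Tv (fun σ τ : Gal(Ω/K) => cu p ζ a b σ τ) := by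
  by_cases hpow : IsPow p a
  · have h1 : ∀ σ : Gal(Ω/K), kk p ζ a σ = 0 := (kk_eq_zero_iff hp hζ a).2 hpow
    have h2 : (fun σ τ : Gal(Ω/K) => cu p ζ a b σ τ) = fun _ _ => (0 : ZMod p) := by
      funext σ τ
      rw [cu, h1, zero_mul]
    rw [h2]
    exact tv_zero
  · obtain ⟨τ, z, h1, h2, h3, h4⟩ := norm1 Ω hp hp2 hζ a b ha hpow h
    exact sym1 hp hζ a b τ z h1 h2 h3 h4

theorem glg_B_prod {K : Type} [Field K] [NumberField K] {p : ℕ} {ζ : K} (hp : p.Prime)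
    (hζ : IsPrimitiveRoot ζ p) {v : Pl K} (hv : ¬ Above p v) {ι : Type} (s : Finset ι)
    (c : Kˣ) (d : ι → Kˣ) : B p ζ v c (∏ j ∈ s, d j) = ∑ j ∈ s, B p ζ v c (d j) := by
  classical
  induction s using Finset.induction_on with
  | empty => rw [Finset.prod_empty, Finset.sum_empty, B_one_right hp hζ hv]
  | insert j s hj ih => rw [Finset.prod_insert hj, Finset.sum_insert hj, B_mul_right hp hζ hv, ih]

/-- the auxiliary element `c` -/
theorem glg_aux {K : Type} [Field K] [NumberField K] {p : ℕ} {ζ : K} (hp : p.Prime)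
    (hζ : IsPrimitiveRoot ζ p) (T : Finset (Pl K)) (hT : ∀ v ∈ T, ¬ Above p v) :
    ∃ c : Kˣ, Prim p c ∧ ∀ v ∈ T, ord v c = 0 ∧ lg p ζ v c = 1 := by
  classical
  have hy : ∀ v : Pl K, ∃ y : Kˣ, ¬ Above p v → ord v y = 0 ∧ lg p ζ v y = 1 := by
    intro v
    by_cases hv : Above p v
    · exact ⟨1, fun h => absurd hv h⟩
    · obtain ⟨z, h1, h2⟩ := exists_lg hp hζ hv 1
      exact ⟨z, fun _ => ⟨h1, h2⟩⟩
  choose y hy using hy
  obtain ⟨c, hc1, hc2⟩ := weak_approx_prim hp.ne_zero T hT y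
  refine ⟨c, hc1, fun v hv => ?_⟩
  obtain ⟨h1, h2⟩ := hy v (hT v hv)
  have h3 := hc2 v hv
  have h4 : c = c * (y v)⁻¹ * y v := by rw [inv_mul_cancel_right]
  constructor
  · rw [h4, ord_mul, ord_of_one1 h3, h1, add_zero]
  · rw [h4, lg_mul hp hζ (hT v hv) (ord_of_one1 h3) h1, lg_of_one1 hp hζ (hT v hv) h3, h2,
      zero_add]

/-- the step for one pair -/
theorem glg_step {K : Type} [Field K] [NumberField K] {p : ℕ} {ζ : K} (Ω : Type) [Field Ω]
    [Algebra K Ω] [IsAlgClosure K Ω] (hp : p.Prime) (hp2 : MOne p K)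
    (hζ : IsPrimitiveRoot ζ p) (a b c : Kˣ) (ha : Prim p a) (hc : ¬ IsPow p c)
    (hb : ∀ v : Pl K, ¬ Above p v → B p ζ v a b = 0 ∨ (ord v c = 0 ∧ lg p ζ v c ≠ 0)) :
    ∃ d : Kˣ, Tv (fun σ τ : Gal(Ω/K) => cu p ζ a b σ τ + cu p ζ c d σ τ) := by
  have hpf : Fact p.Prime := ⟨hp⟩
  by_cases hind : ∀ i j : ℕ, IsPow p (a ^ i * c ^ j) → p ∣ i ∧ p ∣ j
  · obtain ⟨σ, τ, z, y, d, h1, h2, h3, h4, h5, h6, h7, h8, h9, h10⟩ :=
      norm2 Ω hp hp2 hζ a b c ha hind hb
    exact ⟨d, sym2 hp hζ a b c d σ τ z y h1 h2 h3 h4 h5 h6 h7 h8 h9 h10⟩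
  · push Not at hind
    obtain ⟨i, k, h1, h2⟩ := hind
    have hi : ¬ p ∣ i := by
      intro hi
      have hk := h2 hi
      apply hc
      apply gnorm_isPow hp hk
      obtain ⟨i', rfl⟩ := hi
      obtain ⟨x, hx⟩ := h1
      refine ⟨x * (a ^ i')⁻¹, ?_⟩
      rw [mul_pow, hx, inv_pow, ← pow_mul, mul_comm i' p, mul_comm (a ^ (p * i')),
        mul_inv_cancel_right]
    have hi0 : (i : ZMod p) ≠ 0 := by
      rw [ne_eq, ZMod.natCast_eq_zero_iff]
      exact hi
    have h3 : ∀ σ : Gal(Ω/K), (i : ZMod p) * kk p ζ a σ + (k : ZMod p) * kk p ζ c σ = 0 := by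
      intro σ
      have h4 := (kk_eq_zero_iff (Ω := Ω) hp hζ _).2 h1 σ
      rw [kk_mul_arg hp hζ, ← zpow_natCast, ← zpow_natCast, kk_zpow_arg hp hζ,
        kk_zpow_arg hp hζ] at h4
      rw [← h4]
      push_cast
      rfl
    obtain ⟨s, hs⟩ : ∃ s : ZMod p, s = -((i : ZMod p)⁻¹ * k) := ⟨_, rfl⟩
    have h4 : ∀ σ : Gal(Ω/K), kk p ζ a σ = s * kk p ζ c σ := by
      intro σ
      have h5 := h3 σ
      have h6 : (i : ZMod p)⁻¹ * (i : ZMod p) = 1 := inv_mul_cancel₀ hi0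
      rw [hs]
      linear_combination (i : ZMod p)⁻¹ * h5 - kk p ζ a σ * h6
    refine ⟨b ^ (-(s.val : ℤ)), ?_⟩
    have h5 : (fun σ τ : Gal(Ω/K) => cu p ζ a b σ τ + cu p ζ c (b ^ (-(s.val : ℤ))) σ τ) =
        fun _ _ => (0 : ZMod p) := by
      funext σ τ
      rw [cu, cu, h4, kk_zpow_arg hp hζ]
      push_cast
      rw [ZMod.natCast_zmod_val]
      ring
    rw [h5]
    exact tv_zero

theorem locglob (Ω : Type) [Field Ω] [Algebra K Ω] [IsAlgClosure K Ω] (hp : p.Prime) (hp2 : MOne p K)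
    (hζ : IsPrimitiveRoot ζ p) {ι : Type} [Fintype ι] (A C : ι → Kˣ) (hA : ∀ j, Prim p (A j))
    (T : Finset (Pl K)) (h1 : ∀ v : Pl K, ¬ Above p v → ∑ j, B p ζ v (A j) (C j) = 0)
    (h2 : ∀ v : Pl K, ¬ Above p v → v ∉ T → ∀ j, B p ζ v (A j) (C j) = 0) :
    Tv (fun σ τ : Gal(Ω/K) => ∑ j, cu p ζ (A j) (C j) σ τ) := by
  classical
  have hpf : Fact p.Prime := ⟨hp⟩
  obtain ⟨T', hT'⟩ : ∃ T' : Finset (Pl K), T' = T.filter fun v => ¬ Above p v := ⟨_, rfl⟩
  have hT'a : ∀ v ∈ T', ¬ Above p v := by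
    intro v hv
    rw [hT'] at hv
    exact (Finset.mem_filter.1 hv).2
  have hT'm : ∀ v, ¬ Above p v → v ∉ T' → v ∉ T := by
    intro v hv h h3
    apply h
    rw [hT']
    exact Finset.mem_filter.2 ⟨h3, hv⟩
  rcases T'.eq_empty_or_nonempty with hem | ⟨v₀, hv₀⟩
  · refine tv_sum Finset.univ (fun j σ τ => cu p ζ (A j) (C j) σ τ) fun j _ => ?_
    refine glg_triv Ω hp hp2 hζ (A j) (C j) (hA j) fun v hv => ?_
    exact h2 v hv (hT'm v hv (by rw [hem]; exact Finset.notMem_empty v)) j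
  · obtain ⟨c, hc1, hc2⟩ := glg_aux hp hζ T' hT'a
    have hcp : ¬ IsPow p c := by
      rintro ⟨x, hx⟩
      obtain ⟨h3, h4⟩ := hc2 v₀ hv₀
      have h5 : ord v₀ x = 0 := by
        rw [← hx, ord_pow] at h3
        rcases mul_eq_zero.1 h3 with h | h
        · exact absurd (by exact_mod_cast h) hp.ne_zero
        · exact h
      rw [← hx, ← zpow_natCast, lg_zpow hp hζ (hT'a v₀ hv₀) h5] at h4
      push_cast at h4
      rw [ZMod.natCast_self, zero_mul] at h4
      exact zero_ne_one h4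
    have hd : ∀ j, ∃ d : Kˣ, Tv (fun σ τ : Gal(Ω/K) => cu p ζ (A j) (C j) σ τ + cu p ζ c d σ τ) := by
      intro j
      refine glg_step Ω hp hp2 hζ (A j) (C j) c (hA j) hcp fun v hv => ?_
      by_cases hvT : v ∈ T'
      · obtain ⟨h3, h4⟩ := hc2 v hvT
        refine Or.inr ⟨h3, ?_⟩
        rw [h4]
        exact one_ne_zero
      · exact Or.inl (h2 v hv (hT'm v hv hvT) j)
    choose d hd using hd
    have hloc : ∀ j, ∀ v : Pl K, ¬ Above p v → B p ζ v (A j) (C j) + B p ζ v c (d j) = 0 := by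
      intro j v hv
      have h3 := tv_loc Ω hp hp2 hζ (fun i : Fin 2 => ![A j, c] i) (fun i : Fin 2 => ![C j, d j] i) (by
        have h4 : (fun σ τ : Gal(Ω/K) => ∑ i : Fin 2, cu p ζ (![A j, c] i) (![C j, d j] i) σ τ) =
            fun σ τ => cu p ζ (A j) (C j) σ τ + cu p ζ c (d j) σ τ := by
          funext σ τ
          rw [Fin.sum_univ_two]
          rfl
        rw [h4]
        exact hd j) v hv
      rw [Fin.sum_univ_two] at h3
      exact h3
    have hD : Tv (fun σ τ : Gal(Ω/K) => cu p ζ c (∏ j, d j) σ τ) := by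
      refine glg_triv Ω hp hp2 hζ c _ hc1 fun v hv => ?_
      rw [glg_B_prod hp hζ hv]
      have h3 : ∑ j, (B p ζ v (A j) (C j) + B p ζ v c (d j)) = 0 :=
        Finset.sum_eq_zero fun j _ => hloc j v hv
      rw [Finset.sum_add_distrib, h1 v hv, zero_add] at h3
      exact h3
    have hsum : Tv (fun σ τ : Gal(Ω/K) => ∑ j, (cu p ζ (A j) (C j) σ τ + cu p ζ c (d j) σ τ)) :=
      tv_sum Finset.univ (fun j σ τ => cu p ζ (A j) (C j) σ τ + cu p ζ c (d j) σ τ)
        fun j _ => hd j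
    have hfin := tv_add _ _ hsum (tv_smul (-1) _ hD)
    have h3 : (fun σ τ : Gal(Ω/K) => ∑ j, cu p ζ (A j) (C j) σ τ) =
        fun σ τ => (∑ j, (cu p ζ (A j) (C j) σ τ + cu p ζ c (d j) σ τ)) +
          (-1) * cu p ζ c (∏ j, d j) σ τ := by
      funext σ τ
      rw [Finset.sum_add_distrib]
      have h4 : cu p ζ c (∏ j, d j) σ τ = ∑ j, cu p ζ c (d j) σ τ := by
        simp only [cu]
        rw [kk_prod_arg hp hζ, Finset.mul_sum]
      rw [h4]
      ring
    rw [h3]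
    exact hfin

end H63.MA
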