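import Pool.Agent.H63.MA.GUpC
import Pool.Agent.H63.MA.GDisU
import Pool.Agent.H63.MA.RMkC

/-!
# MA-GFINU: upper bound for the number of fields

`fin_up`. Take `m, N, Dg : GD p m N G` (any, with `N + 1 = #ConjClasses`), `D : RD` and `L : LDs` (given). For every element `q` of the quotient in the definition of `Spec.nK` choose a representative `L_q` and (`small_rho`)
a surjective `ρ_q` of finite type with `L_q = fieldOf i₀ ρ_q`; `q ↦ ρ_q` is injective (equal `ρ` give equal fields). `H38.ML.relDisc K L_q = Spec.relDisc K L_q ≤ B` (`dif_pos`), so by `disc_lo`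
`(∏_{v ∈ T} nm v)^{indG G} ≤ B` for every finite set `T` of primes `v ∉ S0` with `ρ_q (t v) ≠ 1`, i.e. `∏ ≤ X = B^{1 / indG G}`. By `upc` every finite set of elements `q` has at most `C X (log X)^{N-1}` elements; so the
quotient is finite and its cardinality `k` satisfies the bound (`ENat.card`), for `B` large enough (`X ≥ X₀`); `log X = log B / indG G ≤ log B`.
-/

set_option autoImplicit false

open scoped NumberField
open IsDedekindDomain H38.ML

noncomputable section

namespace H63.MA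

theorem gfinu_disc (K : IntermediateField ℚ QBar) [NumberField K] (L : IntermediateField K QBar)
    (h : NumberField L) : H38.ML.relDisc K L = Spec.relDisc K L := by
  unfold H38.ML.relDisc Spec.relDisc
  rw [dif_pos h]

theorem fin_up {n : ℕ} (hn : 2 ≤ n) (G : Subgroup (Equiv.Perm (Fin n)))
    (hG : MulAction.IsPretransitive G (Fin n)) (hcard : Nat.card G = n) {p : ℕ} (hp : p.Prime)
    (hp2 : p ≠ 2) (hE : Ep p G) (K : IntermediateField ℚ QBar) [NumberField K] {ζ : K}
    (hζ : IsPrimitiveRoot ζ p) (D : RD K p ζ) (L : LDs D.toRD0 QBar) {m N : ℕ}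
    (Dg : GD p m N G) :
    ∃ C B₀ : ℝ, 0 < C ∧ ∀ B : ℝ, B₀ ≤ B → ∃ k : ℕ, Spec.nK K QBar G B = (k : ℕ∞) ∧
      (k : ℝ) ≤ C * B ^ (1 / (H38.ML.indG G : ℝ)) * Real.log B ^ (N - 1) := by
  obtain ⟨C, X₀, hC, hX₀, hup⟩ := upc hp (mone_odd hp hp2 K) hζ D L hE Dg
  obtain ⟨hw1, hw2, -⟩ := ind_reg hn G hG hcard hp hE.exp
  have hw0 : 0 < H38.ML.indG G := by omega
  set w : ℕ := H38.ML.indG G with hw
  have hwR : (1 : ℝ) ≤ (w : ℝ) := by exact_mod_cast hw0
  have i₀ : Fin n := ⟨0, by omega⟩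
  refine ⟨C, X₀ ^ w, hC, fun B hB => ?_⟩
  have hX0 : 0 < X₀ := by linarith
  have hB0 : 0 < B := lt_of_lt_of_le (by positivity) hB
  set X : ℝ := B ^ (1 / (w : ℝ)) with hX
  have hXX : X₀ ≤ X := by
    have h1 : (X₀ ^ w) ^ (1 / (w : ℝ)) = X₀ := by
      rw [one_div, Real.pow_rpow_inv_natCast hX0.le hw0.ne']
    rw [← h1, hX]
    exact Real.rpow_le_rpow (by positivity) hB (by positivity)
  have hXw : X ^ w = B := by
    rw [hX, one_div, Real.rpow_inv_natCast_pow hB0.le hw0.ne']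
  have hXpos : 0 < X := by linarith
  have hlogX0 : 0 ≤ Real.log X := Real.log_nonneg (by linarith)
  have hlogX : Real.log X ≤ Real.log B := by
    rw [← hXw, Real.log_pow]
    nlinarith
  have hex : ∀ q : (Quot fun L L' : {L : IntermediateField K QBar //
      Spec.IsSmall K QBar G L ∧ ∃ _ : NumberField L, (Spec.relDisc K L : ℝ) ≤ B} =>
      Nonempty (L.1 ≃ₐ[K] L'.1)), ∃ ρ : Gal(QBar/K) →* G, Function.Surjective ρ ∧ FT ρ ∧
      (Quot.out q).1 = fieldOf i₀ ρ :=
    fun q => small_rho hn G hG hcard K i₀ _ (Quot.out q).2.1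
  choose r hr1 hr2 hr3 using hex
  have hinj : Function.Injective r := by
    intro q q' h
    have h1 : (Quot.out q) = (Quot.out q') := Subtype.ext (by rw [hr3, hr3, h])
    rw [← Quot.out_eq q, ← Quot.out_eq q', h1]
  have hfin : ∀ F : Finset (Quot fun L L' : {L : IntermediateField K QBar //
      Spec.IsSmall K QBar G L ∧ ∃ _ : NumberField L, (Spec.relDisc K L : ℝ) ≤ B} =>
      Nonempty (L.1 ≃ₐ[K] L'.1)), (F.card : ℝ) ≤ C * X * Real.log X ^ (N - 1) := by
    intro F
    have h1 := hup X hXX (F.map ⟨r, hinj⟩) (by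
      intro φ hφ
      obtain ⟨q, -, rfl⟩ := Finset.mem_map.1 hφ
      change FT (r q) ∧ Function.Surjective (r q) ∧ ∀ T : Finset (Pl K),
        (∀ v ∈ T, v ∉ D.S0 ∧ r q (L.t v) ≠ 1) → ∏ v ∈ T, (nm v : ℝ) ≤ X
      refine ⟨hr2 q, hr1 q, fun T hT => ?_⟩
      have h2 := disc_lo hn G hG hcard hp hE K hζ D.toRD0 L i₀ (r q) (hr1 q) (hr2 q) T hT
      have h3 : (H38.ML.relDisc K (fieldOf i₀ (r q)) : ℝ) ≤ B := by
        rw [← hr3 q]
        obtain ⟨hnf, hle⟩ := (Quot.out q).2.2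
        rw [gfinu_disc K _ hnf]
        exact hle
      have h4 : (∏ v ∈ T, (nm v : ℝ)) ^ w ≤ X ^ w := by
        rw [hXw]
        exact h2.trans h3
      exact le_of_pow_le_pow_left₀ hw0.ne' hXpos.le h4)
    rwa [Finset.card_map] at h1
  have hfinQ : Finite (Quot fun L L' : {L : IntermediateField K QBar //
      Spec.IsSmall K QBar G L ∧ ∃ _ : NumberField L, (Spec.relDisc K L : ℝ) ≤ B} =>
      Nonempty (L.1 ≃ₐ[K] L'.1)) := by
    by_contra hinf
    rw [not_finite_iff_infinite] at hinf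
    obtain ⟨F, hF⟩ := Infinite.exists_subset_card_eq (Quot fun L L' : {L : IntermediateField K QBar //
      Spec.IsSmall K QBar G L ∧ ∃ _ : NumberField L, (Spec.relDisc K L : ℝ) ≤ B} =>
      Nonempty (L.1 ≃ₐ[K] L'.1)) (⌊C * X * Real.log X ^ (N - 1)⌋₊ + 1)
    have h5 := hfin F
    rw [hF] at h5
    push_cast at h5
    have h6 := Nat.lt_floor_add_one (C * X * Real.log X ^ (N - 1))
    linarith
  refine ⟨_, ENat.card_eq_coe_natCard _, ?_⟩
  have := Fintype.ofFinite (Quot fun L L' : {L : IntermediateField K QBar //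
      Spec.IsSmall K QBar G L ∧ ∃ _ : NumberField L, (Spec.relDisc K L : ℝ) ≤ B} =>
      Nonempty (L.1 ≃ₐ[K] L'.1))
  have h6 := hfin Finset.univ
  rw [Finset.card_univ, ← Nat.card_eq_fintype_card] at h6
  refine h6.trans ?_
  exact mul_le_mul_of_nonneg_left (pow_le_pow_left₀ hlogX0 hlogX _) (by positivity)

end H63.MA
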