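import Pool.Agent.H63.MA.ACntA
import Pool.Agent.H63.MA.ALem

/-!
# MA-ACNTB: many good squarefree ideals of class `0` without small prime factors

`acnt1`: for `T ≥ T₀` and `y ≥ y₀(T)` the number of `n ∈ GF y` with `y/2 < nr n`, all `v ∈ n` of norm `> T`, `qf n = 0` is `≥ c₀ (log T)^{-3} y`.

Proof. Let `F` be the set of the primes in `S0` or of norm `≤ T`, `P = ∏_{v ∈ F} (1 - 1/nm v) ≥ c (log T)^{-3}` (`mert_low`; the norms of the
primes in `S0` are `≤ T` if `T ≥ T₀`). Step 1: the number `A(y)` of `n ∈ GF y` with `y/2 < nr n` and `n ∩ F = ∅` is at least `κ P y / 4` for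
`y ≥ y₀`: the ideals `I` with `y/2 < N I ≤ y` prime to `F` are `κ P y / 2 + O_F(y^{1-δ})` (`cnt_cop`, twice); such an ideal is `idl n` with
`n ∈ GF y`, `n ∩ F = ∅` unless it is divisible by some `v ∉ F` of non prime norm or by some `v²`, `v ∉ F`; the number of the exceptions is at most
`∑_{v ∉ F, nm v not prime, nm v ≤ y} (κ P y / nm v + C_F (y / nm v)^{1-δ}) + ∑_{v ∉ F, (nm v)² ≤ y} (κ P y / (nm v)² + C_F (y / (nm v)²)^{1-δ})`
`≤ κ P y (∑_{v, nm v > T, not prime} 1/nm v + ∑_{nm v > T} 1/(nm v)²) + C'_F y^{1-δ}` (one may assume `δ < 1/4`; `deg_summable` with `σ = 3/4`,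
`pz_summable` with `s = 3/2`), and the bracket is `≤ 1/8` if `T ≥ T₀` (tails of convergent series).
Step 2: `#{n : …, qf n = 0} = p^{-r} ∑_{κ'} ∑_{n : …} ep(κ' · qf n)` and for `κ' ≠ 0` the inner sum is `≤ C_F y^{1-δ}` (`lemA` with `E = ∅`, `F = F`,
`H = 1`, at `y` and at `y/2`). So the number is `≥ p^{-r} κ P y / 4 - C_F y^{1-δ} ≥ p^{-r} κ P y / 8` for `y ≥ y₀(T)`.
-/

set_option autoImplicit false

open scoped NumberField
open IsDedekindDomain
open scoped Classical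

noncomputable section

namespace H63.MA

variable {K : Type} [Field K] [NumberField K] {p : ℕ} {ζ : K}

theorem acntb_tail {f : Pl K → ℝ} (hs : Summable f) {ε : ℝ} (hε : 0 < ε) :
    ∃ T₀ : ℝ, ∀ T : ℝ, T₀ ≤ T → ∀ s : Finset (Pl K), (∀ v ∈ s, T < (nm v : ℝ)) →
      ∑ v ∈ s, f v ≤ ε := by
  obtain ⟨s0, hs0⟩ := summable_iff_vanishing_norm.1 hs ε hε
  refine ⟨∑ v ∈ s0, (nm v : ℝ), fun T hT s hsT => ?_⟩
  have hd : Disjoint s s0 := by
    rw [Finset.disjoint_left]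
    intro v hv hv0
    have h1 := Finset.single_le_sum (f := fun v : Pl K => (nm v : ℝ))
      (fun v _ => Nat.cast_nonneg _) hv0
    have h2 := hsT v hv
    linarith
  exact (le_abs_self _).trans (hs0 s hd).le

theorem acntb_fin (K : Type) [Field K] [NumberField K] (y : ℝ) :
    {v : Pl K | (nm v : ℝ) ≤ y}.Finite := by
  refine Set.Finite.of_finite_image (f := fun v => ({v} : Finset (Pl K)))
    ((finite_nr K y).subset ?_) ?_
  · rintro _ ⟨v, hv, rfl⟩
    show nr {v} ≤ y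
    unfold nr
    rw [Finset.prod_singleton]
    exact hv
  · intro v _ w _ h
    exact Finset.singleton_injective h

/-- the ideals of norm at most `y` without prime factors in `F` -/
def acG (K : Type) [Field K] [NumberField K] (F : Finset (Pl K)) (y : ℝ) :
    Finset (Ideal (𝓞 K)) := (IN K y).filter fun I => ∀ v ∈ F, ¬ v.asIdeal ∣ I

theorem acntb_mul (F : Finset (Pl K)) {B : Ideal (𝓞 K)} (hB : B ≠ ⊥) {y : ℝ} (hy : 0 ≤ y) :
    ((acG K F y).filter (fun I => B ∣ I)).card ≤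
      (acG K F (y / (Ideal.absNorm B : ℝ))).card := by
  have hN := asq_norm_pos hB
  have hN0 : (0 : ℝ) < (Ideal.absNorm B : ℝ) := by linarith
  have hy' : 0 ≤ y / (Ideal.absNorm B : ℝ) := by positivity
  have hsub : (acG K F y).filter (fun I => B ∣ I) ⊆
      (acG K F (y / (Ideal.absNorm B : ℝ))).image (fun J => B * J) := by
    intro I hI
    rw [Finset.mem_filter, acG, Finset.mem_filter, mem_IN hy] at hI
    obtain ⟨⟨⟨h1, h2⟩, h3⟩, J, hJ⟩ := hI
    rw [Finset.mem_image]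
    refine ⟨J, ?_, hJ.symm⟩
    rw [acG, Finset.mem_filter, mem_IN hy']
    refine ⟨⟨?_, ?_⟩, fun v hv hd => h3 v hv ?_⟩
    · rw [le_div_iff₀ hN0]
      rw [hJ, map_mul, Nat.cast_mul] at h1
      linarith
    · rintro rfl
      rw [Ideal.mul_bot] at hJ
      exact h2 hJ
    · rw [hJ]
      exact hd.mul_left B
  exact (Finset.card_le_card hsub).trans Finset.card_image_le

theorem acntb_exc (F : Finset (Pl K)) {a C δ : ℝ} (ha : 0 ≤ a) (hC : 0 ≤ C) (hδ : δ ≤ 1 / 4)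
    (hG : ∀ y : ℝ, 0 < y → ((acG K F y).card : ℝ) ≤ a * y + C * y ^ (1 - δ))
    (V1 V2 : Finset (Pl K)) {ε S1 S2 : ℝ}
    (h1 : ∑ v ∈ V1, (nm v : ℝ)⁻¹ ≤ ε) (h2 : ∑ v ∈ V2, ((nm v : ℝ) ^ 2)⁻¹ ≤ ε)
    (h3 : ∑ v ∈ V1, (nm v : ℝ) ^ (-(3 / 4 : ℝ)) ≤ S1)
    (h4 : ∑ v ∈ V2, (nm v : ℝ) ^ (-(3 / 2 : ℝ)) ≤ S2) {y : ℝ} (hy : 0 < y) :
    (((acG K F y).filter (fun I => (∃ v ∈ V1, v.asIdeal ∣ I) ∨
      ∃ v ∈ V2, v.asIdeal ^ 2 ∣ I)).card : ℝ) ≤
      2 * ε * a * y + C * (S1 + S2) * y ^ (1 - δ) := by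
  have hn1 : ∀ v : Pl K, (1 : ℝ) ≤ nm v := fun v => by exact_mod_cast (one_lt_nm v).le
  have hn0 : ∀ v : Pl K, (0 : ℝ) < nm v := fun v => lt_of_lt_of_le one_pos (hn1 v)
  have hyp : 0 ≤ y ^ (1 - δ) := Real.rpow_nonneg hy.le _
  have hsub : (acG K F y).filter (fun I => (∃ v ∈ V1, v.asIdeal ∣ I) ∨
      ∃ v ∈ V2, v.asIdeal ^ 2 ∣ I) ⊆
      V1.biUnion (fun v => (acG K F y).filter (fun I => v.asIdeal ∣ I)) ∪
        V2.biUnion (fun v => (acG K F y).filter (fun I => v.asIdeal ^ 2 ∣ I)) := by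
    intro I hI
    rw [Finset.mem_filter] at hI
    rw [Finset.mem_union, Finset.mem_biUnion, Finset.mem_biUnion]
    rcases hI.2 with ⟨v, hv, hd⟩ | ⟨v, hv, hd⟩
    · exact Or.inl ⟨v, hv, Finset.mem_filter.2 ⟨hI.1, hd⟩⟩
    · exact Or.inr ⟨v, hv, Finset.mem_filter.2 ⟨hI.1, hd⟩⟩
  have hcard : ((acG K F y).filter (fun I => (∃ v ∈ V1, v.asIdeal ∣ I) ∨
      ∃ v ∈ V2, v.asIdeal ^ 2 ∣ I)).card ≤
      ∑ v ∈ V1, ((acG K F y).filter (fun I => v.asIdeal ∣ I)).card +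
        ∑ v ∈ V2, ((acG K F y).filter (fun I => v.asIdeal ^ 2 ∣ I)).card :=
    (Finset.card_le_card hsub).trans ((Finset.card_union_le _ _).trans
      (add_le_add Finset.card_biUnion_le Finset.card_biUnion_le))
  have hcard' : (((acG K F y).filter (fun I => (∃ v ∈ V1, v.asIdeal ∣ I) ∨
      ∃ v ∈ V2, v.asIdeal ^ 2 ∣ I)).card : ℝ) ≤
      ∑ v ∈ V1, (((acG K F y).filter (fun I => v.asIdeal ∣ I)).card : ℝ) +
        ∑ v ∈ V2, (((acG K F y).filter (fun I => v.asIdeal ^ 2 ∣ I)).card : ℝ) := by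
    exact_mod_cast hcard
  have e1 : ∀ v ∈ V1, (((acG K F y).filter (fun I => v.asIdeal ∣ I)).card : ℝ) ≤
      a * y * (nm v : ℝ)⁻¹ + C * y ^ (1 - δ) * (nm v : ℝ) ^ (-(3 / 4 : ℝ)) := by
    intro v _
    have g1 : (((acG K F y).filter (fun I => v.asIdeal ∣ I)).card : ℝ) ≤
        ((acG K F (y / (nm v : ℝ))).card : ℝ) := by
      exact_mod_cast acntb_mul F v.ne_bot hy.le
    have g2 := hG (y / (nm v : ℝ)) (div_pos hy (hn0 v))
    have g3 : (y / (nm v : ℝ)) ^ (1 - δ) ≤ y ^ (1 - δ) * (nm v : ℝ) ^ (-(3 / 4 : ℝ)) := by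
      rw [Real.div_rpow hy.le (hn0 v).le, div_eq_mul_inv, ← Real.rpow_neg (hn0 v).le]
      apply mul_le_mul_of_nonneg_left _ hyp
      exact Real.rpow_le_rpow_of_exponent_le (hn1 v) (by linarith)
    calc (((acG K F y).filter (fun I => v.asIdeal ∣ I)).card : ℝ)
        ≤ a * (y / (nm v : ℝ)) + C * (y / (nm v : ℝ)) ^ (1 - δ) := g1.trans g2
      _ ≤ a * (y / (nm v : ℝ)) + C * (y ^ (1 - δ) * (nm v : ℝ) ^ (-(3 / 4 : ℝ))) := by
          have := mul_le_mul_of_nonneg_left g3 hC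
          linarith
      _ = _ := by rw [div_eq_mul_inv]; ring
  have e2 : ∀ v ∈ V2, (((acG K F y).filter (fun I => v.asIdeal ^ 2 ∣ I)).card : ℝ) ≤
      a * y * ((nm v : ℝ) ^ 2)⁻¹ + C * y ^ (1 - δ) * (nm v : ℝ) ^ (-(3 / 2 : ℝ)) := by
    intro v _
    have hv2 : v.asIdeal ^ 2 ≠ ⊥ := by
      rw [← Ideal.zero_eq_bot]
      exact pow_ne_zero 2 (by rw [Ideal.zero_eq_bot]; exact v.ne_bot)
    have hnv2 : (Ideal.absNorm (v.asIdeal ^ 2) : ℝ) = (nm v : ℝ) ^ 2 := by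
      rw [map_pow, Nat.cast_pow]
      rfl
    have hn2 : (0 : ℝ) < (nm v : ℝ) ^ 2 := pow_pos (hn0 v) 2
    have g1 : (((acG K F y).filter (fun I => v.asIdeal ^ 2 ∣ I)).card : ℝ) ≤
        ((acG K F (y / (nm v : ℝ) ^ 2)).card : ℝ) := by
      rw [← hnv2]
      exact_mod_cast acntb_mul F hv2 hy.le
    have g2 := hG (y / (nm v : ℝ) ^ 2) (div_pos hy hn2)
    have g3 : (y / (nm v : ℝ) ^ 2) ^ (1 - δ) ≤ y ^ (1 - δ) * (nm v : ℝ) ^ (-(3 / 2 : ℝ)) := by
      rw [Real.div_rpow hy.le hn2.le, div_eq_mul_inv, ← Real.rpow_neg hn2.le]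
      apply mul_le_mul_of_nonneg_left _ hyp
      rw [← Real.rpow_natCast, ← Real.rpow_mul (hn0 v).le]
      refine Real.rpow_le_rpow_of_exponent_le (hn1 v) ?_
      push_cast
      linarith
    calc (((acG K F y).filter (fun I => v.asIdeal ^ 2 ∣ I)).card : ℝ)
        ≤ a * (y / (nm v : ℝ) ^ 2) + C * (y / (nm v : ℝ) ^ 2) ^ (1 - δ) := g1.trans g2
      _ ≤ a * (y / (nm v : ℝ) ^ 2) + C * (y ^ (1 - δ) * (nm v : ℝ) ^ (-(3 / 2 : ℝ))) := by
          have := mul_le_mul_of_nonneg_left g3 hC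
          linarith
      _ = _ := by rw [div_eq_mul_inv]; ring
  have e3 := add_le_add (Finset.sum_le_sum e1) (Finset.sum_le_sum e2)
  rw [Finset.sum_add_distrib, Finset.sum_add_distrib, ← Finset.mul_sum, ← Finset.mul_sum,
    ← Finset.mul_sum, ← Finset.mul_sum] at e3
  have hay : 0 ≤ a * y := mul_nonneg ha hy.le
  have hCy : 0 ≤ C * y ^ (1 - δ) := mul_nonneg hC hyp
  have f1 := mul_le_mul_of_nonneg_left h1 hay
  have f2 := mul_le_mul_of_nonneg_left h2 hay
  have f3 := mul_le_mul_of_nonneg_left h3 hCy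
  have f4 := mul_le_mul_of_nonneg_left h4 hCy
  calc _ ≤ _ := hcard'.trans e3
    _ ≤ a * y * ε + C * y ^ (1 - δ) * S1 + (a * y * ε + C * y ^ (1 - δ) * S2) := by linarith
    _ = _ := by ring

theorem acntb_pow {a C δ : ℝ} (ha : 0 < a) (hC : 0 ≤ C) (hδ : 0 < δ) :
    ∃ y₀ : ℝ, 1 ≤ y₀ ∧ ∀ y : ℝ, y₀ ≤ y → C * y ^ (1 - δ) ≤ a * y := by
  refine ⟨max 1 ((C / a) ^ (1 / δ)), le_max_left _ _, fun y hy => ?_⟩
  have hy1 : 1 ≤ y := (le_max_left _ _).trans hy
  have hy0 : 0 < y := by linarith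
  have h1 : (C / a) ^ (1 / δ) ≤ y := (le_max_right _ _).trans hy
  have hCa : 0 ≤ C / a := by positivity
  have h2 : C / a ≤ y ^ δ := by
    have h3 := Real.rpow_le_rpow (Real.rpow_nonneg hCa _) h1 hδ.le
    rwa [← Real.rpow_mul hCa, one_div, inv_mul_cancel₀ hδ.ne', Real.rpow_one] at h3
  rw [div_le_iff₀ ha] at h2
  have h4 : y = y ^ δ * y ^ (1 - δ) := by
    rw [← Real.rpow_add hy0]
    have : δ + (1 - δ) = 1 := by ring
    rw [this, Real.rpow_one]
  calc C * y ^ (1 - δ) ≤ (y ^ δ * a) * y ^ (1 - δ) :=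
        mul_le_mul_of_nonneg_right h2 (Real.rpow_nonneg hy0.le _)
    _ = a * (y ^ δ * y ^ (1 - δ)) := by ring
    _ = a * y := by rw [← h4]

theorem acntb_P (F : Finset (Pl K)) : 0 < ∏ v ∈ F, (1 - (nm v : ℝ)⁻¹) := by
  refine Finset.prod_pos fun v _ => ?_
  have h1 : (1 : ℝ) < nm v := by exact_mod_cast one_lt_nm v
  have h2 := inv_lt_one_of_one_lt₀ h1
  linarith

theorem acntb_one (D : RD0 K p ζ) : ∃ κ T₀ : ℝ, 0 < κ ∧ ∀ T : ℝ, T₀ ≤ T →
    ∀ F : Finset (Pl K), (∀ v, v ∈ F ↔ v ∈ D.S0 ∨ (nm v : ℝ) ≤ T) → ∃ y₁ : ℝ, 1 ≤ y₁ ∧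
      ∀ y : ℝ, y₁ ≤ y → κ * (∏ v ∈ F, (1 - (nm v : ℝ)⁻¹)) * y ≤
        (((GF D y).filter fun n => Disjoint n F ∧ y / 2 < nr n).card : ℝ) := by
  obtain ⟨κ, δ1, hκ, hδ1, hδ11, hcop⟩ := cnt_cop K
  have hs1 := deg_summable K (σ := 1) (by norm_num)
  have hs2 := pz_summable K (s := 2) (by norm_num)
  have hs3 := deg_summable K (σ := 3 / 4) (by norm_num)
  have hs4 := pz_summable K (s := 3 / 2) (by norm_num)
  obtain ⟨Ta, hTa⟩ := acntb_tail hs1 (ε := 1 / 16) (by norm_num)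
  obtain ⟨Tb, hTb⟩ := acntb_tail hs2 (ε := 1 / 16) (by norm_num)
  refine ⟨κ / 4, max Ta Tb, by positivity, fun T hT F hF => ?_⟩
  have hTa' : Ta ≤ T := (le_max_left _ _).trans hT
  have hTb' : Tb ≤ T := (le_max_right _ _).trans hT
  obtain ⟨C, hC, hcF⟩ := hcop F
  set P : ℝ := ∏ v ∈ F, (1 - (nm v : ℝ)⁻¹) with hP
  have hP0 : 0 < P := acntb_P F
  set δ : ℝ := min δ1 (1 / 4) with hδ
  have hδ0 : 0 < δ := lt_min hδ1 (by norm_num)
  have hδ4 : δ ≤ 1 / 4 := min_le_right _ _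
  have hδδ1 : δ ≤ δ1 := min_le_left _ _
  set S1 : ℝ := ∑' v : Pl K, Set.indicator {v : Pl K | ¬ (nm v).Prime}
    (fun v => (nm v : ℝ) ^ (-(3 / 4 : ℝ))) v with hS1
  set S2 : ℝ := ∑' v : Pl K, (nm v : ℝ) ^ (-(3 / 2 : ℝ)) with hS2
  have hS10 : 0 ≤ S1 := tsum_nonneg fun v => Set.indicator_nonneg (fun v _ => pzb_nonneg v _) v
  have hS20 : 0 ≤ S2 := tsum_nonneg fun v => pzb_nonneg v _
  have hup : ∀ y : ℝ, 1 ≤ y → C * y ^ (1 - δ1) ≤ C * y ^ (1 - δ) := fun y hy =>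
    mul_le_mul_of_nonneg_left (Real.rpow_le_rpow_of_exponent_le hy (by linarith)) hC.le
  have hG : ∀ y : ℝ, 0 < y → ((acG K F y).card : ℝ) ≤ κ * P * y + C * y ^ (1 - δ) := by
    intro y hy
    by_cases hy1 : 1 ≤ y
    · have h1 := (abs_le.1 (hcF y hy1)).2
      have h2 := hup y hy1
      have h3 : (((IN K y).filter fun I => ∀ v ∈ F, ¬ v.asIdeal ∣ I).card : ℝ) =
        ((acG K F y).card : ℝ) := rfl
      rw [h3] at h1
      linarith
    · have h3 : acG K F y = ∅ := by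
        rw [Finset.eq_empty_iff_forall_notMem]
        intro J hJ
        rw [acG, Finset.mem_filter, mem_IN hy.le] at hJ
        have := asq_norm_pos hJ.1.2
        exact hy1 (this.trans hJ.1.1)
      rw [h3, Finset.card_empty, Nat.cast_zero]
      have := Real.rpow_nonneg hy.le (1 - δ)
      positivity
  obtain ⟨y0, hy01, hy0⟩ := acntb_pow (a := κ * P / 8) (C := 2 * C + C * (S1 + S2)) (δ := δ)
    (by positivity) (by positivity) hδ0
  refine ⟨max 2 y0, le_trans (by norm_num) (le_max_left _ _), fun y hy => ?_⟩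
  have hy2 : 2 ≤ y := (le_max_left _ _).trans hy
  have hyy0 : y0 ≤ y := (le_max_right _ _).trans hy
  have hy1 : 1 ≤ y := by linarith
  have hypos : 0 < y := by linarith
  have hyhalf : 1 ≤ y / 2 := by linarith
  -- the set W
  set W := acG K F y \ acG K F (y / 2) with hW
  have hsubG : acG K F (y / 2) ⊆ acG K F y := by
    intro I hI
    rw [acG, Finset.mem_filter, mem_IN (by linarith)] at hI ⊢
    exact ⟨⟨by linarith [hI.1.1], hI.1.2⟩, hI.2⟩
  have hWcard : κ * P * y / 2 - 2 * C * y ^ (1 - δ) ≤ (W.card : ℝ) := by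
    have h1 : W.card + (acG K F (y / 2)).card = (acG K F y).card :=
      Finset.card_sdiff_add_card_eq_card hsubG
    have h1' : (W.card : ℝ) + ((acG K F (y / 2)).card : ℝ) = ((acG K F y).card : ℝ) := by
      exact_mod_cast h1
    have h2 := (abs_le.1 (hcF y hy1)).1
    have h3 := hG (y / 2) (by linarith)
    have h4 := hup y hy1
    have h5 : (y / 2) ^ (1 - δ) ≤ y ^ (1 - δ) :=
      Real.rpow_le_rpow (by linarith) (by linarith) (by linarith)
    have h6 := mul_le_mul_of_nonneg_left h5 hC.le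
    have h7 : (((IN K y).filter fun I => ∀ v ∈ F, ¬ v.asIdeal ∣ I).card : ℝ) =
        ((acG K F y).card : ℝ) := rfl
    rw [h7] at h2
    linarith
  -- the exceptions
  set V1 : Finset (Pl K) := (acntb_fin K y).toFinset.filter
    (fun v => v ∉ F ∧ ¬ (nm v).Prime) with hV1
  set V2 : Finset (Pl K) := (acntb_fin K y).toFinset.filter (fun v => v ∉ F) with hV2
  have hT1 : ∀ v, v ∉ F → T < (nm v : ℝ) := by
    intro v hv
    by_contra hcon
    exact hv ((hF v).2 (Or.inr (not_lt.1 hcon)))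
  have hmV1 : ∀ v ∈ V1, v ∉ F ∧ ¬ (nm v).Prime := fun v hv => (Finset.mem_filter.1 hv).2
  have hmV2 : ∀ v ∈ V2, v ∉ F := fun v hv => (Finset.mem_filter.1 hv).2
  have hexc := acntb_exc F (a := κ * P) (C := C) (δ := δ) (by positivity) hC.le hδ4 hG V1 V2
    (ε := 1 / 16) (S1 := S1) (S2 := S2) (by
      have h1 := hTa T hTa' V1 (fun v hv => hT1 v (hmV1 v hv).1)
      refine le_trans (le_of_eq ?_) h1
      refine Finset.sum_congr rfl fun v hv => ?_
      rw [Set.indicator_of_mem (show v ∈ {v : Pl K | ¬ (nm v).Prime} from (hmV1 v hv).2),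
        Real.rpow_neg_one]) (by
      have h1 := hTb T hTb' V2 (fun v hv => hT1 v (hmV2 v hv))
      refine le_trans (le_of_eq ?_) h1
      refine Finset.sum_congr rfl fun v hv => ?_
      rw [Real.rpow_neg (Nat.cast_nonneg _), ← Real.rpow_natCast]
      norm_num) (by
      have h1 := hs3.sum_le_tsum V1
        (fun v _ => Set.indicator_nonneg (fun v _ => pzb_nonneg v _) v)
      refine le_trans (le_of_eq ?_) h1
      refine Finset.sum_congr rfl fun v hv => ?_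
      rw [Set.indicator_of_mem (show v ∈ {v : Pl K | ¬ (nm v).Prime} from (hmV1 v hv).2)])
    (hs4.sum_le_tsum V2 (fun v _ => pzb_nonneg v _)) hypos
  set X := (acG K F y).filter (fun I => (∃ v ∈ V1, v.asIdeal ∣ I) ∨
      ∃ v ∈ V2, v.asIdeal ^ 2 ∣ I) with hX
  set Z := ((IN K y).filter (fun I => ∀ v : Pl K, ¬ v.asIdeal ^ asq_e D F v ∣ I)).filter
    (fun I => y / 2 < (Ideal.absNorm I : ℝ)) with hZ
  have hWZ : W ⊆ Z ∪ X := by
    intro I hI
    rw [hW, Finset.mem_sdiff] at hI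
    obtain ⟨hI1, hI2⟩ := hI
    rw [Finset.mem_union]
    by_cases hIX : I ∈ X
    · exact Or.inr hIX
    · refine Or.inl ?_
      have hI1' := hI1
      rw [acG, Finset.mem_filter, mem_IN hypos.le] at hI1'
      obtain ⟨⟨hIy, hI0⟩, hIF⟩ := hI1'
      have hno : ¬ ((∃ v ∈ V1, v.asIdeal ∣ I) ∨ ∃ v ∈ V2, v.asIdeal ^ 2 ∣ I) := by
        intro h
        exact hIX (Finset.mem_filter.2 ⟨hI1, h⟩)
      push Not at hno
      have hnmle : ∀ v : Pl K, v.asIdeal ∣ I → (nm v : ℝ) ≤ y := by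
        intro v hv
        have h1 : nm v ∣ Ideal.absNorm I := map_dvd (Ideal.absNorm (S := 𝓞 K)) hv
        have h2 : Ideal.absNorm I ≠ 0 := by
          rw [Ne, Ideal.absNorm_eq_zero_iff]
          exact hI0
        have h3 : nm v ≤ Ideal.absNorm I := Nat.le_of_dvd (Nat.pos_of_ne_zero h2) h1
        have h4 : (nm v : ℝ) ≤ (Ideal.absNorm I : ℝ) := by exact_mod_cast h3
        exact h4.trans hIy
      rw [hZ, Finset.mem_filter, Finset.mem_filter, mem_IN hypos.le]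
      refine ⟨⟨⟨hIy, hI0⟩, fun v hv => ?_⟩, ?_⟩
      · by_cases hvF : v ∈ F
        · have he : asq_e D F v = 1 := by
            unfold asq_e
            rw [if_pos (Or.inl hvF)]
          rw [he, pow_one] at hv
          exact hIF v hvF hv
        · by_cases hg : D.Gd v
          · have he : asq_e D F v = 2 := by
              unfold asq_e
              rw [if_neg]
              rintro (h | h)
              · exact hvF h
              · exact h hg
            rw [he] at hv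
            have hv1 : v.asIdeal ∣ I := (dvd_pow_self _ two_ne_zero).trans hv
            refine hno.2 v (Finset.mem_filter.2 ⟨?_, hvF⟩) hv
            rw [Set.Finite.mem_toFinset]
            exact hnmle v hv1
          · have he : asq_e D F v = 1 := by
              unfold asq_e
              rw [if_pos (Or.inr hg)]
            rw [he, pow_one] at hv
            have hnp : ¬ (nm v).Prime := by
              intro hpr
              apply hg
              refine ⟨fun hS => hvF ((hF v).2 (Or.inl hS)), hpr⟩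
            refine hno.1 v (Finset.mem_filter.2 ⟨?_, hvF, hnp⟩) hv
            rw [Set.Finite.mem_toFinset]
            exact hnmle v hv
      · by_contra hcon
        apply hI2
        rw [acG, Finset.mem_filter, mem_IN (by linarith)]
        exact ⟨⟨not_lt.1 hcon, hI0⟩, hIF⟩
  have hZcard : (((GF D y).filter fun n => Disjoint n F ∧ y / 2 < nr n).card : ℝ) =
      (Z.card : ℝ) := by
    have h1 := asq_bij D F y hy1
      (fun I => if y / 2 < (Ideal.absNorm I : ℝ) then (1 : ℂ) else 0)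
    simp only [idl_norm] at h1
    rw [Finset.sum_boole, Finset.sum_boole, Finset.filter_filter] at h1
    exact_mod_cast h1
  have hcardle : (W.card : ℝ) ≤ (Z.card : ℝ) + (X.card : ℝ) := by
    have h1 := (Finset.card_le_card hWZ).trans (Finset.card_union_le _ _)
    exact_mod_cast h1
  have hfin := hy0 y hyy0
  rw [hZcard]
  have hexp : (2 * C + C * (S1 + S2)) * y ^ (1 - δ) =
      2 * C * y ^ (1 - δ) + C * (S1 + S2) * y ^ (1 - δ) := by ring
  rw [hexp] at hfin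
  have : 2 * (1 / 16) * (κ * P) * y = κ * P * y / 8 := by ring
  rw [this] at hexc
  linarith

theorem acntb_dt {r : ℕ} (l : Fin r → ZMod p) (q : Pl K → Fin r → ZMod p) (n : Finset (Pl K)) :
    ∑ v ∈ n, dt l (q v) = dt l (∑ v ∈ n, q v) := by
  unfold dt
  rw [Finset.sum_comm]
  refine Finset.sum_congr rfl fun k _ => ?_
  rw [Finset.sum_apply, Finset.mul_sum]

theorem acntb_four (hp : p.Prime) (hζ : IsPrimitiveRoot ζ p) (D : RD K p ζ) :
    ∃ C δ : ℝ, 0 < C ∧ 0 < δ ∧ ∀ (F : Finset (Pl K)) (y : ℝ), 2 ≤ y →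
      (((GF D.toRD0 y).filter fun n => Disjoint n F ∧ y / 2 < nr n).card : ℝ) ≤
        (p : ℝ) ^ D.r * (((GF D.toRD0 y).filter fun n => (Disjoint n F ∧ y / 2 < nr n) ∧
          qf D.toRD0 n = 0).card : ℝ) + C * 2 ^ F.card * y ^ (1 - δ) := by
  have hNe : NeZero p := ⟨hp.ne_zero⟩
  obtain ⟨C, A, δ, hC, hA, hδ, hδ1, hA'⟩ := lemA hp hζ D
  have hpr : (0 : ℝ) < (p : ℝ) ^ D.r := by
    have : (0 : ℝ) < p := by exact_mod_cast hp.pos
    positivity
  refine ⟨(p : ℝ) ^ D.r * (2 * C), δ, by positivity, hδ, fun F y hy => ?_⟩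
  have hy0 : 0 ≤ y := by linarith
  set N := (GF D.toRD0 y).filter (fun n => Disjoint n F ∧ y / 2 < nr n) with hN
  -- the oscillating sums
  have hosc : ∀ l : Fin D.r → ZMod p, l ≠ 0 →
      ‖∑ n ∈ N, ep p (dt l (qf D.toRD0 n))‖ ≤ 2 * C * 2 ^ F.card * y ^ (1 - δ) := by
    intro l hl
    have hone : ∀ x : ℝ, 1 ≤ x → ‖∑ n ∈ (GF D.toRD0 x).filter (fun n => Disjoint n F),
        ep p (dt l (qf D.toRD0 n))‖ ≤ C * 2 ^ F.card * x ^ (1 - δ) := by
      intro x hx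
      have h1 := hA' ∅ F (fun _ => 0) l (fun _ => 1) (fun w hw => absurd hw (Finset.notMem_empty w))
        (Finset.empty_subset F) (fun q => by rw [norm_one]) (Or.inr ⟨fun q => rfl, hl⟩) x hx
      have h2 : nr (∅ : Finset (Pl K)) = 1 := by
        unfold nr
        rw [Finset.prod_empty]
      rw [h2, Real.one_rpow, mul_one] at h1
      refine le_trans (le_of_eq ?_) h1
      congr 1
      refine Finset.sum_congr rfl fun n _ => ?_
      rw [one_mul]
      congr 1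
      unfold fE
      simp only [Finset.sum_empty, zero_add]
      rw [acntb_dt]
      rfl
    have hsplit : (GF D.toRD0 y).filter (fun n => Disjoint n F) =
        N ∪ (GF D.toRD0 (y / 2)).filter (fun n => Disjoint n F) := by
      ext n
      rw [hN]
      unfold GF
      simp only [Finset.mem_union, Finset.mem_filter, mem_AF]
      constructor
      · rintro ⟨⟨h1, h2⟩, h3⟩
        by_cases h4 : y / 2 < nr n
        · exact Or.inl ⟨⟨h1, h2⟩, h3, h4⟩
        · exact Or.inr ⟨⟨not_lt.1 h4, h2⟩, h3⟩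
      · rintro (⟨⟨h1, h2⟩, h3, h4⟩ | ⟨⟨h1, h2⟩, h3⟩)
        · exact ⟨⟨h1, h2⟩, h3⟩
        · exact ⟨⟨by linarith, h2⟩, h3⟩
    have hdisj : Disjoint N ((GF D.toRD0 (y / 2)).filter (fun n => Disjoint n F)) := by
      rw [Finset.disjoint_left]
      intro n h1 h2
      rw [hN, Finset.mem_filter] at h1
      unfold GF at h2
      rw [Finset.mem_filter, Finset.mem_filter, mem_AF] at h2
      linarith [h1.2.2, h2.1.1]
    have h5 := hone y (by linarith)
    have h6 := hone (y / 2) (by linarith)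
    rw [hsplit, Finset.sum_union hdisj] at h5
    have h7 : (y / 2) ^ (1 - δ) ≤ y ^ (1 - δ) :=
      Real.rpow_le_rpow (by linarith) (by linarith) (by linarith)
    have h8 : C * 2 ^ F.card * (y / 2) ^ (1 - δ) ≤ C * 2 ^ F.card * y ^ (1 - δ) :=
      mul_le_mul_of_nonneg_left h7 (by positivity)
    have h9 := norm_sub_le (∑ n ∈ N, ep p (dt l (qf D.toRD0 n)) +
      ∑ n ∈ (GF D.toRD0 (y / 2)).filter (fun n => Disjoint n F), ep p (dt l (qf D.toRD0 n)))
      (∑ n ∈ (GF D.toRD0 (y / 2)).filter (fun n => Disjoint n F), ep p (dt l (qf D.toRD0 n)))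
    rw [add_sub_cancel_right] at h9
    calc _ ≤ _ := h9
      _ ≤ C * 2 ^ F.card * y ^ (1 - δ) + C * 2 ^ F.card * y ^ (1 - δ) :=
          add_le_add h5 (h6.trans h8)
      _ = _ := by ring
  -- orthogonality
  have horth : ∑ l : Fin D.r → ZMod p, ∑ n ∈ N, ep p (dt l (qf D.toRD0 n)) =
      (p : ℂ) ^ D.r * ((N.filter fun n => qf D.toRD0 n = 0).card : ℂ) := by
    rw [Finset.sum_comm, Finset.sum_congr rfl fun n _ => alem_orth hp (qf D.toRD0 n),
      ← Finset.sum_filter, Finset.sum_const, nsmul_eq_mul, mul_comm]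
  have hzero : ∑ n ∈ N, ep p (dt (0 : Fin D.r → ZMod p) (qf D.toRD0 n)) = (N.card : ℂ) := by
    have h1 : ∀ n ∈ N, ep p (dt (0 : Fin D.r → ZMod p) (qf D.toRD0 n)) = 1 := by
      intro n _
      have h2 : dt (0 : Fin D.r → ZMod p) (qf D.toRD0 n) = 0 := by
        unfold dt
        simp
      rw [h2, ep_zero]
    rw [Finset.sum_congr rfl h1, Finset.sum_const, nsmul_eq_mul, mul_one]
  rw [← Finset.add_sum_erase Finset.univ _ (Finset.mem_univ (0 : Fin D.r → ZMod p)), hzero] at horth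
  have hNc : (N.card : ℂ) = (p : ℂ) ^ D.r * ((N.filter fun n => qf D.toRD0 n = 0).card : ℂ) -
      ∑ l ∈ Finset.univ.erase (0 : Fin D.r → ZMod p), ∑ n ∈ N, ep p (dt l (qf D.toRD0 n)) := by
    rw [← horth]
    ring
  have hcardl : ((Finset.univ.erase (0 : Fin D.r → ZMod p)).card : ℝ) ≤ (p : ℝ) ^ D.r := by
    have h1 : (Finset.univ.erase (0 : Fin D.r → ZMod p)).card ≤
        (Finset.univ : Finset (Fin D.r → ZMod p)).card := Finset.card_le_card (Finset.erase_subset _ _)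
    rw [Finset.card_univ, Fintype.card_fun, ZMod.card, Fintype.card_fin] at h1
    exact_mod_cast h1
  have hB0 : 0 ≤ 2 * C * 2 ^ F.card * y ^ (1 - δ) := by
    have := Real.rpow_nonneg hy0 (1 - δ)
    positivity
  have hnorm : (N.card : ℝ) ≤ (p : ℝ) ^ D.r * ((N.filter fun n => qf D.toRD0 n = 0).card : ℝ) +
      (p : ℝ) ^ D.r * (2 * C * 2 ^ F.card * y ^ (1 - δ)) := by
    have h1 : (N.card : ℝ) = ‖(N.card : ℂ)‖ := (Complex.norm_natCast _).symm
    rw [h1, hNc]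
    refine (norm_sub_le _ _).trans (add_le_add ?_ ?_)
    · rw [norm_mul, norm_pow, Complex.norm_natCast, Complex.norm_natCast]
    · refine (norm_sum_le _ _).trans ?_
      calc ∑ l ∈ Finset.univ.erase (0 : Fin D.r → ZMod p),
          ‖∑ n ∈ N, ep p (dt l (qf D.toRD0 n))‖
          ≤ ∑ _l ∈ Finset.univ.erase (0 : Fin D.r → ZMod p),
            2 * C * 2 ^ F.card * y ^ (1 - δ) :=
            Finset.sum_le_sum fun l hl => hosc l (Finset.mem_erase.1 hl).1
        _ = ((Finset.univ.erase (0 : Fin D.r → ZMod p)).card : ℝ) *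
            (2 * C * 2 ^ F.card * y ^ (1 - δ)) := by rw [Finset.sum_const, nsmul_eq_mul]
        _ ≤ _ := mul_le_mul_of_nonneg_right hcardl hB0
  rw [hN, Finset.filter_filter] at hnorm
  calc _ ≤ _ := hnorm
    _ = _ := by ring

theorem acnt1 (hp : p.Prime) (hζ : IsPrimitiveRoot ζ p) (D : RD K p ζ) :
    ∃ c₀ T₀ : ℝ, 0 < c₀ ∧ 3 ≤ T₀ ∧ ∀ T : ℝ, T₀ ≤ T → ∃ y₀ : ℝ, 1 ≤ y₀ ∧ ∀ y : ℝ, y₀ ≤ y →
      c₀ * Real.log T ^ (-3 : ℝ) * y ≤
        (((GF D.toRD0 y).filter fun n => y / 2 < nr n ∧ (∀ v ∈ n, T < (nm v : ℝ)) ∧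
          qf D.toRD0 n = 0).card : ℝ) := by
  obtain ⟨κ, T1, hκ, hone⟩ := acntb_one D.toRD0
  obtain ⟨C, δ, hC, hδ, hfour⟩ := acntb_four hp hζ D
  obtain ⟨cM, hcM, hmert⟩ := mert_low K
  have hpr : (0 : ℝ) < (p : ℝ) ^ D.r := by
    have : (0 : ℝ) < p := by exact_mod_cast hp.pos
    positivity
  refine ⟨κ * cM / (2 * (p : ℝ) ^ D.r), max 3 (max T1 (∑ v ∈ D.S0, (nm v : ℝ))), by positivity,
    le_max_left _ _, fun T hT => ?_⟩
  have hT3 : 3 ≤ T := (le_max_left _ _).trans hT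
  have hT1 : T1 ≤ T := ((le_max_left _ _).trans (le_max_right _ _)).trans hT
  have hTS : ∑ v ∈ D.S0, (nm v : ℝ) ≤ T := ((le_max_right _ _).trans (le_max_right _ _)).trans hT
  set F : Finset (Pl K) := D.S0 ∪ (acntb_fin K T).toFinset with hF
  have hmF : ∀ v, v ∈ F ↔ v ∈ D.S0 ∨ (nm v : ℝ) ≤ T := by
    intro v
    rw [hF, Finset.mem_union, Set.Finite.mem_toFinset]
    rfl
  have hFT : ∀ v ∈ F, (nm v : ℝ) ≤ T := by
    intro v hv
    rcases (hmF v).1 hv with h | h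
    · have h1 := Finset.single_le_sum (f := fun v : Pl K => (nm v : ℝ))
        (fun v _ => Nat.cast_nonneg _) h
      exact h1.trans hTS
    · exact h
  have hP := hmert T hT3 F hFT
  set P : ℝ := ∏ v ∈ F, (1 - (nm v : ℝ)⁻¹) with hPdef
  have hP0 : 0 < P := acntb_P F
  obtain ⟨y1, hy11, hy1⟩ := hone T hT1 F hmF
  obtain ⟨y2, hy21, hy2⟩ := acntb_pow (a := κ * P / 2) (C := C * 2 ^ F.card) (δ := δ)
    (by positivity) (by positivity) hδ
  refine ⟨max 2 (max y1 y2), le_trans (by norm_num) (le_max_left _ _), fun y hy => ?_⟩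
  have hyy : 2 ≤ y := (le_max_left _ _).trans hy
  have hyy1 : y1 ≤ y := ((le_max_left _ _).trans (le_max_right _ _)).trans hy
  have hyy2 : y2 ≤ y := ((le_max_right _ _).trans (le_max_right _ _)).trans hy
  have h1 := hy1 y hyy1
  have h2 := hy2 y hyy2
  have h3 := hfour F y hyy
  have hsub : (GF D.toRD0 y).filter (fun n => (Disjoint n F ∧ y / 2 < nr n) ∧
      qf D.toRD0 n = 0) ⊆ (GF D.toRD0 y).filter (fun n => y / 2 < nr n ∧
        (∀ v ∈ n, T < (nm v : ℝ)) ∧ qf D.toRD0 n = 0) := by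
    intro n hn
    rw [Finset.mem_filter] at hn ⊢
    obtain ⟨h4, ⟨h5, h6⟩, h7⟩ := hn
    refine ⟨h4, h6, fun v hv => ?_, h7⟩
    by_contra hcon
    exact Finset.disjoint_left.1 h5 hv ((hmF v).2 (Or.inr (not_lt.1 hcon)))
  have h4 : (((GF D.toRD0 y).filter (fun n => (Disjoint n F ∧ y / 2 < nr n) ∧
      qf D.toRD0 n = 0)).card : ℝ) ≤ (((GF D.toRD0 y).filter (fun n => y / 2 < nr n ∧
        (∀ v ∈ n, T < (nm v : ℝ)) ∧ qf D.toRD0 n = 0)).card : ℝ) := by
    exact_mod_cast Finset.card_le_card hsub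
  refine le_trans ?_ h4
  set N0 : ℝ := (((GF D.toRD0 y).filter (fun n => (Disjoint n F ∧ y / 2 < nr n) ∧
      qf D.toRD0 n = 0)).card : ℝ) with hN0
  have h5 : κ * P / 2 * y ≤ (p : ℝ) ^ D.r * N0 := by linarith
  have hypos : 0 < y := by linarith
  have h6 : κ * (cM * Real.log T ^ (-3 : ℝ)) / 2 * y ≤ κ * P / 2 * y := by
    have := mul_le_mul_of_nonneg_left hP hκ.le
    have h7 : κ * (cM * Real.log T ^ (-3 : ℝ)) / 2 ≤ κ * P / 2 := by linarith
    exact mul_le_mul_of_nonneg_right h7 hypos.le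
  have h7 : κ * cM / (2 * (p : ℝ) ^ D.r) * Real.log T ^ (-3 : ℝ) * y =
      (κ * (cM * Real.log T ^ (-3 : ℝ)) / 2 * y) / (p : ℝ) ^ D.r := by
    field_simp
  rw [h7, div_le_iff₀ hpr]
  linarith

end H63.MA
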