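import Pool.Agent.H63.MA.ACntB

/-!
# MA-ACNTC: many disjoint tuples

`acnt2`: for `Y i ≥ y₀` (all `i`) and `Y i ≤ X`: the number of pairwise disjoint `f : Fin N → GF X` with `Y i / 2 < nr (f i) ≤ Y i` and `qf (f i) = 0` is
`≥ c ∏ Y i`.

Proof. Fix `T` (to be chosen). Let `R i` be the set of `n ∈ GF (Y i)` as in `acnt1` (`y = Y i`). The number of all `f` with `f i ∈ R i` is
`≥ (c₀ (log T)^{-3})^N ∏ Y i`. The number of those with `v ∈ f i ∩ f j` for some `i < j` and some `v` (necessarily `nm v > T`) is at most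
`∑_{i<j} ∑_{nm v > T} (C Y_i / nm v) (C Y_j / nm v) ∏_{l ≠ i,j} C Y_l ≤ N² C^N (∏ Y) ∑_{nm v > T} (nm v)^{-2}` (`af_card`: the sets in `AF y` which contain
`v` are in bijection with sets in `AF (y / nm v)`; no such set if `y < nm v`), and `∑_{nm v > T} (nm v)^{-2} ≤ T^{-1/2} ∑_v (nm v)^{-3/2}` (`pz_summable`).
Choose `T ≥ T₀` with `N² C^N C' T^{-1/2} ≤ (c₀ (log T)^{-3})^N / 2`.
-/

set_option autoImplicit false

open scoped NumberField
open IsDedekindDomain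
open scoped Classical

noncomputable section

namespace H63.MA

variable {K : Type} [Field K] [NumberField K] {p : ℕ} {ζ : K}

theorem acntc_mem {C : ℝ} (hC : 0 < C)
    (h : ∀ y : ℝ, 1 ≤ y → ((AF K y).card : ℝ) ≤ C * y) (v : Pl K) {y : ℝ} (hy : 0 ≤ y) :
    (((AF K y).filter fun n => v ∈ n).card : ℝ) ≤ C * y * (nm v : ℝ)⁻¹ := by
  have hv : (0 : ℝ) < (nm v : ℝ) := by exact_mod_cast (zero_lt_one.trans (one_lt_nm v))
  by_cases hvy : (nm v : ℝ) ≤ y
  · have h1 : ((AF K y).filter fun n => v ∈ n).card ≤ (AF K (y / nm v)).card := by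
      refine Finset.card_le_card_of_injOn (fun n => n.erase v) ?_ ?_
      · intro n hn
        rw [Finset.mem_coe, Finset.mem_filter, mem_AF] at hn
        rw [Finset.mem_coe, mem_AF, le_div_iff₀ hv]
        have h2 : nr n = nm v * nr (n.erase v) := by
          unfold nr
          exact (Finset.mul_prod_erase n _ hn.2).symm
        rw [mul_comm, ← h2]
        exact hn.1
      · intro n hn n' hn' hnn
        rw [Finset.mem_coe, Finset.mem_filter] at hn hn'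
        exact Finset.erase_injOn' v hn.2 hn'.2 hnn
    have h3 := h (y / nm v) (by rw [le_div_iff₀ hv]; linarith)
    have h4 : (((AF K y).filter fun n => v ∈ n).card : ℝ) ≤ ((AF K (y / nm v)).card : ℝ) := by
      exact_mod_cast h1
    refine h4.trans (h3.trans (le_of_eq ?_))
    rw [div_eq_mul_inv]
    ring
  · have h1 : ((AF K y).filter fun n => v ∈ n) = ∅ := by
      rw [Finset.filter_eq_empty_iff]
      intro n hn hvn
      rw [mem_AF] at hn
      apply hvy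
      have h2 : nr {v} ≤ nr n := nr_mono (Finset.singleton_subset_iff.2 hvn)
      have h3 : nr ({v} : Finset (Pl K)) = nm v := by
        unfold nr
        rw [Finset.prod_singleton]
      rw [h3] at h2
      exact h2.trans hn
    rw [h1, Finset.card_empty, Nat.cast_zero]
    positivity

/-- the number of the families with a common element in two members -/
theorem acntc_pair {C : ℝ} (hC : 0 < C)
    (h : ∀ y : ℝ, 1 ≤ y → ((AF K y).card : ℝ) ≤ C * y) {N : ℕ} (Y : Fin N → ℝ)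
    (hY : ∀ i, 1 ≤ Y i) (R : Fin N → Finset (Finset (Pl K))) (hR : ∀ i, R i ⊆ AF K (Y i))
    {i j : Fin N} (hij : i ≠ j) (v : Pl K) :
    (((Fintype.piFinset R).filter fun f => v ∈ f i ∧ v ∈ f j).card : ℝ) ≤
      (∏ l, C * Y l) * (nm v : ℝ)⁻¹ ^ 2 := by
  have hv : (0 : ℝ) < (nm v : ℝ) := by exact_mod_cast (zero_lt_one.trans (one_lt_nm v))
  have h1 : ((Fintype.piFinset R).filter fun f => v ∈ f i ∧ v ∈ f j) ⊆
      Fintype.piFinset fun l => if l = i ∨ l = j then (R l).filter (fun n => v ∈ n) else R l := by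
    intro f hf
    rw [Finset.mem_filter, Fintype.mem_piFinset] at hf
    rw [Fintype.mem_piFinset]
    intro l
    split_ifs with hl
    · rw [Finset.mem_filter]
      refine ⟨hf.1 l, ?_⟩
      rcases hl with rfl | rfl
      · exact hf.2.1
      · exact hf.2.2
    · exact hf.1 l
  have h2 : (((Fintype.piFinset R).filter fun f => v ∈ f i ∧ v ∈ f j).card : ℝ) ≤
      ∏ l, (((if l = i ∨ l = j then (R l).filter (fun n => v ∈ n) else R l).card : ℕ) : ℝ) := by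
    have := Finset.card_le_card h1
    rw [Fintype.card_piFinset] at this
    exact_mod_cast this
  refine h2.trans ?_
  have h3 : (∏ l, C * Y l) * (nm v : ℝ)⁻¹ ^ 2 =
      ∏ l, (C * Y l * (if l = i ∨ l = j then (nm v : ℝ)⁻¹ else 1)) := by
    have h5 : ∏ l : Fin N, (if l = i ∨ l = j then (nm v : ℝ)⁻¹ else 1) = (nm v : ℝ)⁻¹ ^ 2 := by
      rw [Finset.prod_ite, Finset.prod_const_one, mul_one, Finset.prod_const]
      have h4 : (Finset.univ.filter fun l : Fin N => l = i ∨ l = j) = {i, j} := by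
        ext l
        simp
      rw [h4, Finset.card_pair hij]
    rw [← h5, ← Finset.prod_mul_distrib]
  rw [h3]
  refine Finset.prod_le_prod (fun l _ => Nat.cast_nonneg _) fun l _ => ?_
  split_ifs with hl
  · refine le_trans ?_ (acntc_mem hC h v (zero_le_one.trans (hY l)))
    exact_mod_cast Finset.card_le_card (Finset.filter_subset_filter _ (hR l))
  · rw [mul_one]
    refine le_trans ?_ (h (Y l) (hY l))
    exact_mod_cast Finset.card_le_card (hR l)

/-- the sum of the `(nm v)^(-2)` over large primes -/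
theorem acntc_sum {T : ℝ} (hT : 0 < T) (V : Finset (Pl K)) (hV : ∀ v ∈ V, T < (nm v : ℝ)) :
    ∑ v ∈ V, (nm v : ℝ)⁻¹ ^ 2 ≤
      T ^ (-(1 / 2) : ℝ) * ∑' v : Pl K, (nm v : ℝ) ^ (-(3 / 2) : ℝ) := by
  have hs : Summable fun v : Pl K => (nm v : ℝ) ^ (-(3 / 2) : ℝ) :=
    pz_summable K (by norm_num : (1 : ℝ) < 3 / 2)
  have h1 : ∑ v ∈ V, (nm v : ℝ) ^ (-(3 / 2) : ℝ) ≤ ∑' v : Pl K, (nm v : ℝ) ^ (-(3 / 2) : ℝ) :=
    hs.sum_le_tsum V fun v _ => Real.rpow_nonneg (Nat.cast_nonneg _) _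
  refine le_trans ?_ (mul_le_mul_of_nonneg_left h1 (Real.rpow_nonneg hT.le _))
  rw [Finset.mul_sum]
  refine Finset.sum_le_sum fun v hv => ?_
  have hv0 : (0 : ℝ) < (nm v : ℝ) := hT.trans (hV v hv)
  have h2 : (nm v : ℝ)⁻¹ ^ 2 = (nm v : ℝ) ^ (-(1 / 2) : ℝ) * (nm v : ℝ) ^ (-(3 / 2) : ℝ) := by
    rw [← Real.rpow_add hv0, ← Real.rpow_natCast, ← Real.rpow_neg_one, ← Real.rpow_mul hv0.le]
    norm_num
  rw [h2]
  exact mul_le_mul_of_nonneg_right
    (Real.rpow_le_rpow_of_nonpos hT (hV v hv).le (by norm_num)) (Real.rpow_nonneg hv0.le _)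

/-- the number of the families which are not disjoint -/
theorem acntc_bad {C : ℝ} (hC : 0 < C)
    (h : ∀ y : ℝ, 1 ≤ y → ((AF K y).card : ℝ) ≤ C * y) {N : ℕ} (Y : Fin N → ℝ)
    (hY : ∀ i, 1 ≤ Y i) (R : Fin N → Finset (Finset (Pl K))) (hR : ∀ i, R i ⊆ AF K (Y i))
    {T : ℝ} (hT : 0 < T) (hRT : ∀ i, ∀ n ∈ R i, ∀ v ∈ n, T < (nm v : ℝ)) :
    (((Fintype.piFinset R).filter fun f =>
      ¬ ∀ a a', a ≠ a' → Disjoint (f a) (f a')).card : ℝ) ≤
      (N : ℝ) ^ 2 * ((∏ l, C * Y l) *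
        (T ^ (-(1 / 2) : ℝ) * ∑' v : Pl K, (nm v : ℝ) ^ (-(3 / 2) : ℝ))) := by
  set V : Finset (Pl K) := Finset.univ.biUnion fun i => (R i).biUnion id with hV
  have hVT : ∀ v ∈ V, T < (nm v : ℝ) := by
    intro v hv
    rw [hV, Finset.mem_biUnion] at hv
    obtain ⟨i, -, hv⟩ := hv
    rw [Finset.mem_biUnion] at hv
    obtain ⟨n, hn, hv⟩ := hv
    exact hRT i n hn v hv
  have h1 : ((Fintype.piFinset R).filter fun f => ¬ ∀ a a', a ≠ a' → Disjoint (f a) (f a')) ⊆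
      (Finset.univ : Finset (Fin N)).offDiag.biUnion fun q => V.biUnion fun v =>
        (Fintype.piFinset R).filter fun f => v ∈ f q.1 ∧ v ∈ f q.2 := by
    intro f hf
    rw [Finset.mem_filter] at hf
    have h2 := hf.2
    push Not at h2
    obtain ⟨a, a', haa, hd⟩ := h2
    rw [Finset.not_disjoint_iff] at hd
    obtain ⟨v, hv, hv'⟩ := hd
    rw [Finset.mem_biUnion]
    refine ⟨(a, a'), ?_, ?_⟩
    · rw [Finset.mem_offDiag]
      exact ⟨Finset.mem_univ _, Finset.mem_univ _, haa⟩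
    · rw [Finset.mem_biUnion]
      refine ⟨v, ?_, ?_⟩
      · rw [hV, Finset.mem_biUnion]
        refine ⟨a, Finset.mem_univ _, ?_⟩
        rw [Finset.mem_biUnion]
        exact ⟨f a, Fintype.mem_piFinset.1 hf.1 a, hv⟩
      · rw [Finset.mem_filter]
        exact ⟨hf.1, hv, hv'⟩
  have h3 : (((Fintype.piFinset R).filter fun f =>
      ¬ ∀ a a', a ≠ a' → Disjoint (f a) (f a')).card : ℝ) ≤
      ∑ q ∈ (Finset.univ : Finset (Fin N)).offDiag, ∑ v ∈ V,
        (((Fintype.piFinset R).filter fun f => v ∈ f q.1 ∧ v ∈ f q.2).card : ℝ) := by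
    have h4 := (Finset.card_le_card h1).trans Finset.card_biUnion_le
    have h5 : ∑ q ∈ (Finset.univ : Finset (Fin N)).offDiag, (V.biUnion fun v =>
        (Fintype.piFinset R).filter fun f => v ∈ f q.1 ∧ v ∈ f q.2).card ≤
        ∑ q ∈ (Finset.univ : Finset (Fin N)).offDiag, ∑ v ∈ V,
        ((Fintype.piFinset R).filter fun f => v ∈ f q.1 ∧ v ∈ f q.2).card :=
      Finset.sum_le_sum fun q _ => Finset.card_biUnion_le
    exact_mod_cast h4.trans h5
  refine h3.trans ?_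
  have h6 : ∀ q ∈ (Finset.univ : Finset (Fin N)).offDiag, ∑ v ∈ V,
        (((Fintype.piFinset R).filter fun f => v ∈ f q.1 ∧ v ∈ f q.2).card : ℝ) ≤
      (∏ l, C * Y l) * (T ^ (-(1 / 2) : ℝ) * ∑' v : Pl K, (nm v : ℝ) ^ (-(3 / 2) : ℝ)) := by
    intro q hq
    rw [Finset.mem_offDiag] at hq
    refine (Finset.sum_le_sum fun v _ => acntc_pair hC h Y hY R hR hq.2.2 v).trans ?_
    rw [← Finset.mul_sum]
    refine mul_le_mul_of_nonneg_left (acntc_sum hT V hVT) ?_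
    exact Finset.prod_nonneg fun l _ => mul_nonneg hC.le (zero_le_one.trans (hY l))
  refine (Finset.sum_le_sum h6).trans ?_
  rw [Finset.sum_const, nsmul_eq_mul]
  refine mul_le_mul_of_nonneg_right ?_ ?_
  · rw [Finset.offDiag_card, Finset.card_univ, Fintype.card_fin, sq]
    have : N * N - N ≤ N * N := Nat.sub_le _ _
    exact_mod_cast this
  · refine mul_nonneg (Finset.prod_nonneg fun l _ => mul_nonneg hC.le (zero_le_one.trans (hY l)))
      (mul_nonneg (Real.rpow_nonneg hT.le _) ?_)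
    exact tsum_nonneg fun v => Real.rpow_nonneg (Nat.cast_nonneg _) _

/-- the choice of `T` -/
theorem acntc_T (c₀ T₀ A : ℝ) (hc : 0 < c₀) (N : ℕ) (hA : 0 ≤ A) :
    ∃ T : ℝ, T₀ ≤ T ∧ 3 ≤ T ∧
      A * T ^ (-(1 / 2) : ℝ) ≤ (c₀ * Real.log T ^ (-3 : ℝ)) ^ N / 2 := by
  have h1 := isLittleO_log_rpow_rpow_atTop (3 * N : ℝ) (by norm_num : (0 : ℝ) < 1 / 2)
  have hpos : 0 < c₀ ^ N / (2 * (A + 1)) := by positivity
  have h2 := (h1.def hpos).and ((Filter.eventually_ge_atTop T₀).and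
    (Filter.eventually_ge_atTop (3 : ℝ)))
  obtain ⟨T, hT1, hT2, hT3⟩ := h2.exists
  refine ⟨T, hT2, hT3, ?_⟩
  have hT0 : (0 : ℝ) < T := by linarith
  have hL : 0 < Real.log T := Real.log_pos (by linarith)
  rw [Real.norm_of_nonneg (Real.rpow_nonneg hL.le _),
    Real.norm_of_nonneg (Real.rpow_nonneg hT0.le _)] at hT1
  have h3 : (c₀ * Real.log T ^ (-3 : ℝ)) ^ N = c₀ ^ N * (Real.log T ^ (3 * N : ℝ))⁻¹ := by
    rw [mul_pow, ← Real.rpow_neg hL.le, ← Real.rpow_natCast (Real.log T ^ (-3 : ℝ)),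
      ← Real.rpow_mul hL.le]
    congr 2
    ring
  have hLN : 0 < Real.log T ^ (3 * N : ℝ) := Real.rpow_pos_of_pos hL _
  have hTh : 0 < T ^ (1 / 2 : ℝ) := Real.rpow_pos_of_pos hT0 _
  rw [h3, Real.rpow_neg hT0.le, ← div_eq_mul_inv, ← div_eq_mul_inv, div_div, div_le_div_iff₀ hTh
    (by positivity)]
  calc A * (Real.log T ^ (3 * N : ℝ) * 2)
      ≤ (A + 1) * (Real.log T ^ (3 * N : ℝ) * 2) := by
        have : 0 ≤ Real.log T ^ (3 * N : ℝ) * 2 := by positivity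
        nlinarith
    _ ≤ (A + 1) * (c₀ ^ N / (2 * (A + 1)) * T ^ (1 / 2 : ℝ) * 2) := by gcongr
    _ = c₀ ^ N * T ^ (1 / 2 : ℝ) := by
        field_simp

theorem acnt2 (hp : p.Prime) (hζ : IsPrimitiveRoot ζ p) (D : RD K p ζ) (N : ℕ) :
    ∃ c y₀ : ℝ, 0 < c ∧ 1 ≤ y₀ ∧ ∀ (Y : Fin N → ℝ) (X : ℝ), (∀ i, y₀ ≤ Y i ∧ Y i ≤ X) →
      c * ∏ i, Y i ≤ (((Fintype.piFinset fun _ : Fin N => GF D.toRD0 X).filter fun f =>
        (∀ a a', a ≠ a' → Disjoint (f a) (f a')) ∧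
        ∀ i, Y i / 2 < nr (f i) ∧ nr (f i) ≤ Y i ∧ qf D.toRD0 (f i) = 0).card : ℝ) := by
  obtain ⟨c₀, T₀, hc₀, hT₀, hT⟩ := acnt1 hp hζ D
  obtain ⟨C, hC, hcard⟩ := af_card K
  set S : ℝ := ∑' v : Pl K, (nm v : ℝ) ^ (-(3 / 2) : ℝ) with hS
  have hS0 : 0 ≤ S := tsum_nonneg fun v => Real.rpow_nonneg (Nat.cast_nonneg _) _
  obtain ⟨T, hT1, hT3, hTA⟩ := acntc_T c₀ T₀ ((N : ℝ) ^ 2 * (C ^ N * S)) hc₀ N (by positivity)
  obtain ⟨y₀, hy₀, hy⟩ := hT T hT1
  have hT0 : (0 : ℝ) < T := by linarith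
  have hL : 0 < Real.log T := Real.log_pos (by linarith)
  have hκ : 0 < c₀ * Real.log T ^ (-3 : ℝ) := mul_pos hc₀ (Real.rpow_pos_of_pos hL _)
  refine ⟨(c₀ * Real.log T ^ (-3 : ℝ)) ^ N / 2, y₀, by positivity, hy₀, fun Y X hYX => ?_⟩
  have hY1 : ∀ i, 1 ≤ Y i := fun i => hy₀.trans (hYX i).1
  set R : Fin N → Finset (Finset (Pl K)) := fun i => (GF D.toRD0 (Y i)).filter fun n =>
    Y i / 2 < nr n ∧ (∀ v ∈ n, T < (nm v : ℝ)) ∧ qf D.toRD0 n = 0 with hR
  have hRA : ∀ i, R i ⊆ AF K (Y i) := fun i =>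
    (Finset.filter_subset _ _).trans (Finset.filter_subset _ _)
  have hbad := acntc_bad hC hcard Y hY1 R hRA hT0 fun i n hn v hv =>
    ((Finset.mem_filter.1 hn).2.2.1) v hv
  rw [← hS] at hbad
  have hall : (c₀ * Real.log T ^ (-3 : ℝ)) ^ N * ∏ i, Y i ≤ ((Fintype.piFinset R).card : ℝ) := by
    rw [Fintype.card_piFinset]
    push_cast
    have h1 : (c₀ * Real.log T ^ (-3 : ℝ)) ^ N * ∏ i, Y i =
        ∏ i, (c₀ * Real.log T ^ (-3 : ℝ) * Y i) := by
      rw [Finset.prod_mul_distrib, Finset.prod_const, Finset.card_univ, Fintype.card_fin]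
    rw [h1]
    exact Finset.prod_le_prod (fun i _ => mul_nonneg hκ.le (zero_le_one.trans (hY1 i)))
      fun i _ => hy (Y i) (hYX i).1
  have hP : 0 ≤ ∏ i, Y i := Finset.prod_nonneg fun i _ => zero_le_one.trans (hY1 i)
  have hbad2 : (((Fintype.piFinset R).filter fun f =>
      ¬ ∀ a a', a ≠ a' → Disjoint (f a) (f a')).card : ℝ) ≤
      (c₀ * Real.log T ^ (-3 : ℝ)) ^ N / 2 * ∏ i, Y i := by
    refine hbad.trans ?_
    have h1 : ∏ l, C * Y l = C ^ N * ∏ l, Y l := by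
      rw [Finset.prod_mul_distrib, Finset.prod_const, Finset.card_univ, Fintype.card_fin]
    rw [h1]
    calc (N : ℝ) ^ 2 * (C ^ N * (∏ l, Y l) * (T ^ (-(1 / 2) : ℝ) * S))
        = (N : ℝ) ^ 2 * (C ^ N * S) * T ^ (-(1 / 2) : ℝ) * ∏ l, Y l := by ring
      _ ≤ _ := mul_le_mul_of_nonneg_right hTA hP
  have hsplit := Finset.card_filter_add_card_filter_not
    (s := Fintype.piFinset R) (fun f => ∀ a a', a ≠ a' → Disjoint (f a) (f a'))
  have hsplit' : (((Fintype.piFinset R).filter fun f =>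
      ∀ a a', a ≠ a' → Disjoint (f a) (f a')).card : ℝ) +
      (((Fintype.piFinset R).filter fun f =>
      ¬ ∀ a a', a ≠ a' → Disjoint (f a) (f a')).card : ℝ) = ((Fintype.piFinset R).card : ℝ) := by
    exact_mod_cast hsplit
  have hsub : ((Fintype.piFinset R).filter fun f => ∀ a a', a ≠ a' → Disjoint (f a) (f a')) ⊆
      (Fintype.piFinset fun _ : Fin N => GF D.toRD0 X).filter fun f =>
        (∀ a a', a ≠ a' → Disjoint (f a) (f a')) ∧
        ∀ i, Y i / 2 < nr (f i) ∧ nr (f i) ≤ Y i ∧ qf D.toRD0 (f i) = 0 := by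
    intro f hf
    rw [Finset.mem_filter, Fintype.mem_piFinset] at hf
    have h1 : ∀ i, f i ∈ GF D.toRD0 (Y i) ∧ Y i / 2 < nr (f i) ∧
        (∀ v ∈ f i, T < (nm v : ℝ)) ∧ qf D.toRD0 (f i) = 0 := fun i =>
      Finset.mem_filter.1 (hf.1 i)
    have h2 : ∀ i, nr (f i) ≤ Y i ∧ ∀ v ∈ f i, D.toRD0.Gd v := fun i => by
      have := (h1 i).1
      unfold GF at this
      rw [Finset.mem_filter, mem_AF] at this
      exact this
    rw [Finset.mem_filter, Fintype.mem_piFinset]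
    refine ⟨fun i => ?_, hf.2, fun i => ⟨(h1 i).2.1, (h2 i).1, (h1 i).2.2.2⟩⟩
    unfold GF
    rw [Finset.mem_filter, mem_AF]
    exact ⟨(h2 i).1.trans (hYX i).2, (h2 i).2⟩
  have hle : (((Fintype.piFinset R).filter fun f =>
      ∀ a a', a ≠ a' → Disjoint (f a) (f a')).card : ℝ) ≤
      (((Fintype.piFinset fun _ : Fin N => GF D.toRD0 X).filter fun f =>
        (∀ a a', a ≠ a' → Disjoint (f a) (f a')) ∧
        ∀ i, Y i / 2 < nr (f i) ∧ nr (f i) ≤ Y i ∧ qf D.toRD0 (f i) = 0).card : ℝ) := by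
    exact_mod_cast Finset.card_le_card hsub
  refine le_trans ?_ hle
  linarith

end H63.MA
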