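import Pool.Agent.H63.MA.ALowB
import Pool.Agent.H63.MA.ACntC

/-!
# MA-ALOWC: the lower bound for the weighted number of families

`atlow`: for `N ≥ 1` and `X ≥ X₀` the weighted number of disjoint `f : Fin N → GF X` with `∏ nr (f i) ≤ X`, `qf (f i) = 0`, `f i ≠ ∅` is `≥ c X (log X)^{N-1}`.

Proof. Let `δ₀ = 1/(4 N)`. For `k : Fin (N-1) → ℕ` with `X^{δ₀} ≤ 2^{k i} ≤ X^{2 δ₀}` let `Y i = 2^{k i}` for `i < N-1` and
`Y (N-1) = X / ∏_{i < N-1} Y i ≥ X^{1/2}`; so `X^{δ₀} ≤ Y i ≤ X` and `∏ Y i = X`. There are at least `(c log X)^{N-1}` such `k` (for `N = 1` one), and the boxes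
`Bx Y` for different `k` are disjoint (`k i` is determined by `2^{k i - 1} < nr (f i) ≤ 2^{k i}`), contained in the region `∏ nr (f i) ≤ X`, `f i ≠ ∅`
(`nr (f i) > Y i / 2 ≥ 1` for large `X`). All weights are `≥ 0`. By `alow` and `acnt2` the weighted number in each box is
`≥ c' X - X / log X ≥ c' X / 2` for large `X`.
-/

set_option autoImplicit false

open scoped NumberField
open IsDedekindDomain
open scoped Classical

noncomputable section

namespace H63.MA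

variable {K : Type} [Field K] [NumberField K] {p : ℕ} {ζ : K} {m N : ℕ}

theorem alowc_wt_nonneg (c : CD p m N) (f : Fin N → Finset (Pl K)) (F : Pl K → Fin m → ZMod p) :
    0 ≤ wt c f F := by
  unfold wt
  refine Finset.prod_nonneg fun i _ => Finset.prod_nonneg fun v _ => ?_
  split_ifs
  · exact Nat.cast_nonneg _
  · exact le_rfl

/-- the boxes -/
def alowcY {M : ℕ} (X : ℝ) (k : Fin M → ℕ) : Fin (M + 1) → ℝ :=
  Fin.snoc (α := fun _ => ℝ) (fun i => (2 : ℝ) ^ k i) (X / ∏ i, (2 : ℝ) ^ k i)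

theorem alowcY_castSucc {M : ℕ} (X : ℝ) (k : Fin M → ℕ) (i : Fin M) :
    alowcY X k i.castSucc = (2 : ℝ) ^ k i := by
  unfold alowcY
  rw [Fin.snoc_castSucc]

theorem alowcY_last {M : ℕ} (X : ℝ) (k : Fin M → ℕ) :
    alowcY X k (Fin.last M) = X / ∏ i, (2 : ℝ) ^ k i := by
  unfold alowcY
  rw [Fin.snoc_last]

theorem alowcY_prod {M : ℕ} (X : ℝ) (k : Fin M → ℕ) : ∏ i, alowcY X k i = X := by
  rw [Fin.prod_univ_castSucc, alowcY_last]
  simp only [alowcY_castSucc]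
  have h : (∏ i, (2 : ℝ) ^ k i) ≠ 0 := Finset.prod_ne_zero_iff.2 fun i _ => by positivity
  field_simp

/-- the exponents of the boxes -/
def alowcA (a : ℝ) : Finset ℕ := Finset.Icc ⌈a⌉₊ ⌊2 * a⌋₊

theorem alowcA_card {a : ℝ} (ha : 2 ≤ a) : a / 2 ≤ ((alowcA a).card : ℝ) := by
  unfold alowcA
  rw [Nat.card_Icc]
  have h1 : (⌈a⌉₊ : ℝ) < a + 1 := Nat.ceil_lt_add_one (by linarith)
  have h2 : 2 * a - 1 < (⌊2 * a⌋₊ : ℝ) := Nat.sub_one_lt_floor _
  have h3 : ((⌊2 * a⌋₊ + 1 : ℕ) : ℝ) - (⌈a⌉₊ : ℝ) ≤ ((⌊2 * a⌋₊ + 1 - ⌈a⌉₊ : ℕ) : ℝ) := by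
    rw [sub_le_iff_le_add]
    exact_mod_cast (by omega : ⌊2 * a⌋₊ + 1 ≤ ⌊2 * a⌋₊ + 1 - ⌈a⌉₊ + ⌈a⌉₊)
  push_cast at h3
  linarith

theorem alowcA_mem {X δ : ℝ} (hX : 1 ≤ X) (hδ : 0 < δ) {n : ℕ}
    (hn : n ∈ alowcA (δ * Real.log X / Real.log 2)) :
    X ^ δ ≤ (2 : ℝ) ^ n ∧ (2 : ℝ) ^ n ≤ X ^ (2 * δ) := by
  unfold alowcA at hn
  rw [Finset.mem_Icc] at hn
  have hX0 : 0 < X := by linarith
  have hL : 0 ≤ Real.log X := Real.log_nonneg hX
  have h2 : 0 < Real.log 2 := Real.log_pos (by norm_num)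
  have ha : 0 ≤ δ * Real.log X / Real.log 2 := by positivity
  have h3 : δ * Real.log X / Real.log 2 ≤ n := Nat.ceil_le.1 hn.1
  have h4 : (n : ℝ) ≤ 2 * (δ * Real.log X / Real.log 2) := by
    rw [← Nat.le_floor_iff (by linarith)]
    exact hn.2
  rw [div_le_iff₀ h2] at h3
  rw [← mul_div_assoc, le_div_iff₀ h2] at h4
  have h5 : (2 : ℝ) ^ n = Real.exp (n * Real.log 2) := by
    rw [mul_comm, Real.exp_mul, Real.exp_log (by norm_num), Real.rpow_natCast]
  have h6 : ∀ e : ℝ, X ^ e = Real.exp (e * Real.log X) := fun e => by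
    rw [Real.rpow_def_of_pos hX0, mul_comm]
  rw [h5, h6, h6]
  exact ⟨Real.exp_le_exp.2 h3, Real.exp_le_exp.2 (by linarith)⟩

theorem alowcY_bounds {M : ℕ} {X δ : ℝ} (hX : 1 ≤ X) (hδ : δ = 1 / (4 * ((M : ℝ) + 1)))
    (k : Fin M → ℕ) (hk : ∀ i, X ^ δ ≤ (2 : ℝ) ^ k i ∧ (2 : ℝ) ^ k i ≤ X ^ (2 * δ))
    (i : Fin (M + 1)) : X ^ δ ≤ alowcY X k i ∧ alowcY X k i ≤ X := by
  have hM : (0 : ℝ) ≤ M := Nat.cast_nonneg _
  have hX0 : 0 < X := by linarith
  have hδ0 : 0 < δ := by rw [hδ]; positivity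
  have hδ1 : δ ≤ 1 / 4 := by
    rw [hδ]
    exact one_div_le_one_div_of_le (by norm_num) (by linarith)
  refine Fin.lastCases ?_ (fun i => ?_) i
  · rw [alowcY_last]
    have h1 : ∏ i, (2 : ℝ) ^ k i ≤ X ^ (1 / 2 : ℝ) := by
      calc ∏ i, (2 : ℝ) ^ k i ≤ ∏ _i : Fin M, X ^ (2 * δ) :=
            Finset.prod_le_prod (fun i _ => by positivity) fun i _ => (hk i).2
        _ = X ^ (2 * δ * M) := by
            rw [Finset.prod_const, Finset.card_univ, Fintype.card_fin, ← Real.rpow_natCast,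
              ← Real.rpow_mul hX0.le]
        _ ≤ X ^ (1 / 2 : ℝ) := by
            refine Real.rpow_le_rpow_of_exponent_le hX ?_
            rw [hδ]
            have h2 : 2 * (1 / (4 * ((M : ℝ) + 1))) * M = M / (2 * (M + 1)) := by
              field_simp
              ring
            rw [h2, div_le_div_iff₀ (by positivity) (by norm_num)]
            linarith
    have h0 : (1 : ℝ) ≤ ∏ i, (2 : ℝ) ^ k i := by
      refine Finset.prod_induction _ (fun x : ℝ => 1 ≤ x) (fun a b ha hb => ?_) le_rfl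
        (fun i _ => one_le_pow₀ (by norm_num))
      nlinarith
    have hpos : (0 : ℝ) < ∏ i, (2 : ℝ) ^ k i := by linarith
    constructor
    · rw [le_div_iff₀ hpos]
      calc X ^ δ * ∏ i, (2 : ℝ) ^ k i ≤ X ^ (1 / 2 : ℝ) * X ^ (1 / 2 : ℝ) := by
            refine mul_le_mul (Real.rpow_le_rpow_of_exponent_le hX (by linarith)) h1 hpos.le ?_
            exact Real.rpow_nonneg hX0.le _
        _ = X := by
            rw [← Real.rpow_add hX0]
            norm_num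
    · rw [div_le_iff₀ hpos]
      nlinarith
  · rw [alowcY_castSucc]
    refine ⟨(hk i).1, (hk i).2.trans ?_⟩
    have := Real.rpow_le_rpow_of_exponent_le hX (show 2 * δ ≤ 1 by linarith)
    rwa [Real.rpow_one] at this

theorem alowc_unique (D : RD0 K p ζ) {M : ℕ} (X : ℝ) (k k' : Fin M → ℕ)
    (f : Fin (M + 1) → Finset (Pl K)) (h : Bx D (alowcY X k) f) (h' : Bx D (alowcY X k') f) :
    k = k' := by
  have key : ∀ k k' : Fin M → ℕ, Bx D (alowcY X k) f → Bx D (alowcY X k') f → ∀ i, k' i ≤ k i := by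
    intro k k' h h' i
    by_contra hlt
    push Not at hlt
    have h1 := (h.2 i.castSucc).2.1
    have h2 := (h'.2 i.castSucc).1
    rw [alowcY_castSucc] at h1 h2
    have h3 : (2 : ℝ) ^ (k i + 1) ≤ 2 ^ k' i := pow_le_pow_right₀ (by norm_num) hlt
    rw [pow_succ] at h3
    linarith
  funext i
  exact le_antisymm (key k' k h' h i) (key k k' h h' i)

/-- the comparison of the sum over the boxes with the whole sum -/
theorem alowc_sum (D : RD0 K p ζ) {M : ℕ} (X : ℝ) (w : (Fin (M + 1) → Finset (Pl K)) → ℝ)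
    (hw : ∀ f, 0 ≤ w f) (Ks : Finset (Fin M → ℕ)) (hK : ∀ k ∈ Ks, ∀ i, 2 ≤ alowcY X k i)
    (G : Finset (Fin (M + 1) → Finset (Pl K))) :
    ∑ k ∈ Ks, ∑ f ∈ G, (if Bx D (alowcY X k) f then w f else 0) ≤
      ∑ f ∈ G, if Dj f ∧ ∏ i, nr (f i) ≤ X ∧ ∀ i, qf D (f i) = 0 ∧ f i ≠ ∅ then w f else 0 := by
  rw [Finset.sum_comm]
  refine Finset.sum_le_sum fun f _ => ?_
  by_cases hf : ∃ k ∈ Ks, Bx D (alowcY X k) f
  · obtain ⟨k, hk, hB⟩ := hf
    rw [Finset.sum_eq_single k (fun k' _ hk' => if_neg fun h => hk'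
      (alowc_unique D X k' k f h hB)) (fun h => absurd hk h), if_pos hB, if_pos]
    refine ⟨hB.1, ?_, fun i => ⟨(hB.2 i).2.2, fun h0 => ?_⟩⟩
    · rw [← alowcY_prod X k]
      exact Finset.prod_le_prod (fun i _ => zero_le_one.trans (one_le_nr _))
        fun i _ => (hB.2 i).2.1
    · have h1 := (hB.2 i).1
      have h2 := hK k hk i
      have h3 : nr (∅ : Finset (Pl K)) = 1 := by
        unfold nr
        exact Finset.prod_empty
      rw [h0, h3] at h1
      linarith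
  · rw [Finset.sum_eq_zero fun k hk => if_neg fun h => hf ⟨k, hk, h⟩]
    split_ifs
    · exact hw f
    · exact le_rfl

theorem atlow [NeZero p] (hp : p.Prime) (hp2 : MOne p K) (hζ : IsPrimitiveRoot ζ p) (D : RD K p ζ)
    (c : CD p m N) (hN : 1 ≤ N) :
    ∃ C X₀ : ℝ, 0 < C ∧ 3 ≤ X₀ ∧ ∀ X : ℝ, X₀ ≤ X →
      C * X * Real.log X ^ (N - 1) ≤ ∑ f ∈ Fintype.piFinset (fun _ : Fin N => GF D.toRD0 X),
        if Dj f ∧ ∏ i, nr (f i) ≤ X ∧ ∀ i, qf D.toRD0 (f i) = 0 ∧ f i ≠ ∅ then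
          wt c f (fun v k => D.LL v (ak D.toRD0 c (fun _ => 1) f k)) else 0 := by
  obtain ⟨M, rfl⟩ : ∃ M, N = M + 1 := ⟨N - 1, by omega⟩
  obtain ⟨δ, hδ⟩ : ∃ δ : ℝ, δ = 1 / (4 * ((M : ℝ) + 1)) := ⟨_, rfl⟩
  have hδ0 : 0 < δ := by rw [hδ]; positivity
  obtain ⟨X₁, hX₁, hlow⟩ := alow hp hp2 hζ D c δ hδ0
  obtain ⟨c', y₀, hc', hy₀, hcnt⟩ := acnt2 hp hζ D (M + 1)
  have hl2 : 0 < Real.log 2 := Real.log_pos (by norm_num)
  have ev : ∀ᶠ X : ℝ in Filter.atTop, X₁ ≤ X ∧ max y₀ 2 ≤ X ^ δ ∧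
      max (2 / c') (2 * Real.log 2 / δ) ≤ Real.log X :=
    (Filter.eventually_ge_atTop X₁).and
      (((tendsto_rpow_atTop hδ0).eventually_ge_atTop _).and
        (Real.tendsto_log_atTop.eventually_ge_atTop _))
  obtain ⟨X₂, hX₂⟩ := Filter.eventually_atTop.1 ev
  refine ⟨(δ / (2 * Real.log 2)) ^ M * (c' / 2), max X₂ 3, by positivity, le_max_right _ _,
    fun X hX => ?_⟩
  obtain ⟨h1, h2, h3⟩ := hX₂ X ((le_max_left _ _).trans hX)
  have hX3 : 3 ≤ X := (le_max_right _ _).trans hX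
  have hX1 : 1 ≤ X := by linarith
  have hX0 : 0 < X := by linarith
  have hL2 : 2 / c' ≤ Real.log X := (le_max_left _ _).trans h3
  have hLa : 2 * Real.log 2 / δ ≤ Real.log X := (le_max_right _ _).trans h3
  have hL0 : 0 < Real.log X := Real.log_pos (by linarith)
  have ha : 2 ≤ δ * Real.log X / Real.log 2 := by
    rw [div_le_iff₀ hδ0] at hLa
    rw [le_div_iff₀ hl2]
    linarith
  set Ks : Finset (Fin M → ℕ) :=
    Fintype.piFinset fun _ : Fin M => alowcA (δ * Real.log X / Real.log 2) with hKs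
  have hKb : ∀ k ∈ Ks, ∀ i, X ^ δ ≤ alowcY X k i ∧ alowcY X k i ≤ X := by
    intro k hk i
    rw [hKs, Fintype.mem_piFinset] at hk
    exact alowcY_bounds hX1 hδ k (fun j => alowcA_mem hX1 hδ0 (hk j)) i
  have hmain := alowc_sum D.toRD0 X
    (fun f => wt c f (fun v k => D.LL v (ak D.toRD0 c (fun _ => 1) f k)))
    (fun f => alowc_wt_nonneg c f _) Ks
    (fun k hk i => ((le_max_right _ _).trans h2).trans (hKb k hk i).1)
    (Fintype.piFinset (fun _ : Fin (M + 1) => GF D.toRD0 X))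
  refine le_trans ?_ hmain
  have hbox : ∀ k ∈ Ks, c' / 2 * X ≤ ∑ f ∈ Fintype.piFinset (fun _ : Fin (M + 1) => GF D.toRD0 X),
      if Bx D.toRD0 (alowcY X k) f then
        wt c f (fun v k => D.LL v (ak D.toRD0 c (fun _ => 1) f k)) else 0 := by
    intro k hk
    refine le_trans ?_ (hlow X h1 (alowcY X k) (hKb k hk))
    have h4 := hcnt (alowcY X k) X fun i =>
      ⟨((le_max_left _ _).trans h2).trans (hKb k hk i).1, (hKb k hk i).2⟩
    rw [alowcY_prod] at h4 ⊢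
    have h5 : X / Real.log X ≤ c' / 2 * X := by
      rw [div_le_iff₀ hL0]
      rw [div_le_iff₀ hc'] at hL2
      nlinarith
    have h6 : c' * X ≤ (((Fintype.piFinset fun _ : Fin (M + 1) => GF D.toRD0 X).filter fun f =>
        Bx D.toRD0 (alowcY X k) f).card : ℝ) := by
      have h7 : ∀ (S S' : Finset (Fin (M + 1) → Finset (Pl K))), (∀ f, f ∈ S ↔ f ∈ S') →
          (S.card : ℝ) ≤ (S'.card : ℝ) := fun S S' hS => by
        exact_mod_cast Finset.card_le_card fun f hf => (hS f).1 hf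
      refine h4.trans (h7 _ _ fun f => ?_)
      simp only [Finset.mem_filter, Bx]
    linarith
  refine le_trans ?_ (Finset.sum_le_sum hbox)
  rw [Finset.sum_const, nsmul_eq_mul, hKs, Fintype.card_piFinset, Finset.prod_const,
    Finset.card_univ, Fintype.card_fin]
  push_cast
  have h7 : (δ / (2 * Real.log 2) * Real.log X) ^ M ≤
      ((alowcA (δ * Real.log X / Real.log 2)).card : ℝ) ^ M := by
    refine pow_le_pow_left₀ (by positivity) ?_ M
    refine le_trans (le_of_eq ?_) (alowcA_card ha)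
    field_simp
  calc (δ / (2 * Real.log 2)) ^ M * (c' / 2) * X * Real.log X ^ M
      = (δ / (2 * Real.log 2) * Real.log X) ^ M * (c' / 2 * X) := by
        rw [mul_pow]
        ring
    _ ≤ _ := mul_le_mul_of_nonneg_right h7 (by positivity)

end H63.MA
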