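import Pool.Agent.H63.MA.PZb

/-!
# MA-EULA: Euler products over the primes of a number field, two-sided inequality

For a completely multiplicative `χ` on ideals with `|χ| ≤ 1` and `1 < s ≤ 2`:
`exp (∑_v Re χ(v) (N v)^{-s}) / C ≤ |∑_I χ(I) (N I)^{-s}| ≤ C exp (∑_v Re χ(v) (N v)^{-s})`, `C` depending only on `K`.

Proof. For a finite set `F` of primes, the sum over the ideals not divisible by any `v ∈ F` is
`∏_{v ∈ F} (1 - χ(v) (N v)^{-s})` times the whole sum (induction on `F`: the ideals divisible by `v` are the `v J`).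
As `F` grows to all primes this sum tends to `1` (absolute convergence, dominated by `ideal_summable`). Taking absolute
values: `|1 - z|` with `|z| ≤ 1/2` satisfies `exp (- Re z - 4|z|²) ≤ |1 - z| ≤ exp (- Re z + 4 |z|²)`
(`|1 - z|² = 1 - 2 Re z + |z|²` and `1 + t ≤ e^t`), and `∑_v |z_v|² ≤ ∑_v (N v)^{-2} < ∞` (`pz_summable`
with `s = 2`).
-/

set_option autoImplicit false

open scoped NumberField
open IsDedekindDomain

noncomputable section

namespace H63.MA

/-- the L-series of a function on ideals -/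
def Lser {K : Type} [Field K] [NumberField K] (χ : Ideal (𝓞 K) → ℂ) (s : ℝ) : ℂ :=
  ∑' I : Ideal (𝓞 K), χ I * (((Ideal.absNorm I : ℝ) ^ (-s) : ℝ) : ℂ)

section eula

variable {K : Type} [Field K] [NumberField K]

/-- the terms -/
def eula_f (χ : Ideal (𝓞 K) →*₀ ℂ) (s : ℝ) (I : Ideal (𝓞 K)) : ℂ :=
  χ I * (((Ideal.absNorm I : ℝ) ^ (-s) : ℝ) : ℂ)

theorem eula_mul (χ : Ideal (𝓞 K) →*₀ ℂ) (s : ℝ) (I J : Ideal (𝓞 K)) :
    eula_f χ s (I * J) = eula_f χ s I * eula_f χ s J := by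
  unfold eula_f
  rw [map_mul, map_mul, Nat.cast_mul, Real.mul_rpow (Nat.cast_nonneg _) (Nat.cast_nonneg _)]
  push_cast
  ring

theorem eula_norm_le (χ : Ideal (𝓞 K) →*₀ ℂ) (hχ : ∀ I, ‖χ I‖ ≤ 1) (s : ℝ) (I : Ideal (𝓞 K)) :
    ‖eula_f χ s I‖ ≤ if I = ⊥ then 0 else (Ideal.absNorm I : ℝ) ^ (-s) := by
  unfold eula_f
  split_ifs with h
  · rw [h]
    have : χ ⊥ = 0 := map_zero χ
    rw [this, zero_mul, norm_zero]
  · rw [norm_mul, Complex.norm_real, Real.norm_of_nonneg (by positivity)]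
    exact mul_le_of_le_one_left (by positivity) (hχ I)

theorem eula_summable (χ : Ideal (𝓞 K) →*₀ ℂ) (hχ : ∀ I, ‖χ I‖ ≤ 1) {s : ℝ} (hs : 1 < s) :
    Summable (eula_f χ s) :=
  Summable.of_norm_bounded (ideal_summable K hs) (eula_norm_le χ hχ s)

open Classical in
/-- the terms prime to `F` -/
def eula_g (χ : Ideal (𝓞 K) →*₀ ℂ) (s : ℝ) (F : Finset (Pl K)) (I : Ideal (𝓞 K)) : ℂ :=
  if ∀ v ∈ F, ¬ v.asIdeal ∣ I then eula_f χ s I else 0

theorem eula_g_norm_le (χ : Ideal (𝓞 K) →*₀ ℂ) (hχ : ∀ I, ‖χ I‖ ≤ 1) (s : ℝ)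
    (F : Finset (Pl K)) (I : Ideal (𝓞 K)) :
    ‖eula_g χ s F I‖ ≤ if I = ⊥ then 0 else (Ideal.absNorm I : ℝ) ^ (-s) := by
  unfold eula_g
  by_cases h : ∀ v ∈ F, ¬ v.asIdeal ∣ I
  · rw [if_pos h]
    exact eula_norm_le χ hχ s I
  · rw [if_neg h, norm_zero]
    split_ifs
    · exact le_rfl
    · positivity

theorem eula_g_summable (χ : Ideal (𝓞 K) →*₀ ℂ) (hχ : ∀ I, ‖χ I‖ ≤ 1) {s : ℝ} (hs : 1 < s)
    (F : Finset (Pl K)) : Summable (eula_g χ s F) :=
  Summable.of_norm_bounded (ideal_summable K hs) (eula_g_norm_le χ hχ s F)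

theorem eula_prime_iff (v w : Pl K) (hvw : v ≠ w) (I : Ideal (𝓞 K)) :
    w.asIdeal ∣ v.asIdeal * I ↔ w.asIdeal ∣ I := by
  constructor
  · intro h
    rcases w.prime.dvd_or_dvd h with h | h
    · exfalso
      have h1 : Irreducible w.asIdeal := w.prime.irreducible
      have h2 : Associated w.asIdeal v.asIdeal :=
        h1.associated_of_dvd v.prime.irreducible h
      exact hvw (HeightOneSpectrum.ext (associated_iff_eq.1 h2)).symm
    · exact h
  · intro h
    exact h.mul_left _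

open Classical in
theorem eula_step (χ : Ideal (𝓞 K) →*₀ ℂ) (hχ : ∀ I, ‖χ I‖ ≤ 1) {s : ℝ} (hs : 1 < s)
    (F : Finset (Pl K)) (v : Pl K) (hv : v ∉ F) :
    ∑' I, eula_g χ s (insert v F) I = (1 - eula_f χ s v.asIdeal) * ∑' I, eula_g χ s F I := by
  have h1 : ∀ I, eula_g χ s F I = eula_g χ s (insert v F) I +
      (if v.asIdeal ∣ I then eula_g χ s F I else 0) := by
    intro I
    unfold eula_g
    by_cases h : ∀ w ∈ F, ¬ w.asIdeal ∣ I
    · by_cases h2 : v.asIdeal ∣ I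
      · have h3 : ¬ ∀ w ∈ insert v F, ¬ w.asIdeal ∣ I := by
          intro h4
          exact h4 v (Finset.mem_insert_self _ _) h2
        rw [if_pos h, if_neg h3, if_pos h2, zero_add]
      · have h3 : ∀ w ∈ insert v F, ¬ w.asIdeal ∣ I := by
          intro w hw
          rcases Finset.mem_insert.1 hw with rfl | hw
          · exact h2
          · exact h w hw
        rw [if_pos h, if_pos h3, if_neg h2, add_zero]
    · have h3 : ¬ ∀ w ∈ insert v F, ¬ w.asIdeal ∣ I := by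
        intro h4
        exact h fun w hw => h4 w (Finset.mem_insert_of_mem hw)
      rw [if_neg h, if_neg h3, ite_self, add_zero]
  have hinj : Function.Injective fun J : Ideal (𝓞 K) => v.asIdeal * J := by
    intro J J' h
    exact mul_left_cancel₀ v.ne_bot h
  have h2 : ∑' I, (if v.asIdeal ∣ I then eula_g χ s F I else 0) =
      eula_f χ s v.asIdeal * ∑' I, eula_g χ s F I := by
    rw [← hinj.tsum_eq, ← tsum_mul_left]
    · congr 1
      ext J
      have h3 : (∀ w ∈ F, ¬ w.asIdeal ∣ v.asIdeal * J) ↔ (∀ w ∈ F, ¬ w.asIdeal ∣ J) := by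
        constructor
        · intro h w hw h4
          exact h w hw (h4.mul_left _)
        · intro h w hw h4
          exact h w hw ((eula_prime_iff v w (fun h5 => hv (h5 ▸ hw)) J).1 h4)
      show (if v.asIdeal ∣ v.asIdeal * J then eula_g χ s F (v.asIdeal * J) else 0) = _
      rw [if_pos (dvd_mul_right _ _)]
      unfold eula_g
      by_cases h : ∀ w ∈ F, ¬ w.asIdeal ∣ J
      · rw [if_pos (h3.2 h), if_pos h, eula_mul]
      · rw [if_neg (fun h' => h (h3.1 h')), if_neg h, mul_zero]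
    · intro I hI
      rw [Function.mem_support] at hI
      by_cases h : v.asIdeal ∣ I
      · obtain ⟨J, rfl⟩ := h
        exact ⟨J, rfl⟩
      · rw [if_neg h] at hI
        exact absurd rfl hI
  have hsum2 : Summable fun I => (if v.asIdeal ∣ I then eula_g χ s F I else 0) := by
    apply Summable.of_norm_bounded (ideal_summable K hs)
    intro I
    refine le_trans ?_ (eula_g_norm_le χ hχ s F I)
    split_ifs
    · exact le_rfl
    · rw [norm_zero]
      exact norm_nonneg _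
  have h4 : ∑' I, eula_g χ s F I = ∑' I, eula_g χ s (insert v F) I +
      eula_f χ s v.asIdeal * ∑' I, eula_g χ s F I := by
    conv_lhs => rw [tsum_congr h1]
    rw [(eula_g_summable χ hχ hs (insert v F)).tsum_add hsum2, h2]
  linear_combination -h4

theorem eula_prod (χ : Ideal (𝓞 K) →*₀ ℂ) (hχ : ∀ I, ‖χ I‖ ≤ 1) {s : ℝ} (hs : 1 < s)
    (F : Finset (Pl K)) :
    ∑' I, eula_g χ s F I = (∏ v ∈ F, (1 - eula_f χ s v.asIdeal)) * Lser χ s := by
  classical
  induction F using Finset.induction_on with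
  | empty =>
    rw [Finset.prod_empty, one_mul]
    unfold Lser
    apply tsum_congr
    intro I
    unfold eula_g
    rw [if_pos (by simp)]
    rfl
  | insert v F hv ih =>
    rw [eula_step χ hχ hs F v hv, ih, Finset.prod_insert hv, mul_assoc]

theorem eula_one (χ : Ideal (𝓞 K) →*₀ ℂ) (s : ℝ) : eula_f χ s ⊤ = 1 := by
  unfold eula_f
  have h1 : χ ⊤ = 1 := by
    rw [← Ideal.one_eq_top, map_one]
  rw [h1, Ideal.absNorm_top, Nat.cast_one, Real.one_rpow, Complex.ofReal_one, mul_one]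

theorem eula_tendsto (χ : Ideal (𝓞 K) →*₀ ℂ) (hχ : ∀ I, ‖χ I‖ ≤ 1) {s : ℝ} (hs : 1 < s) :
    Filter.Tendsto (fun F : Finset (Pl K) => ∑' I, eula_g χ s F I) Filter.atTop (nhds 1) := by
  classical
  have h1 : (1 : ℂ) = ∑' I : Ideal (𝓞 K), (if I = ⊤ then (1 : ℂ) else 0) := by
    rw [tsum_ite_eq]
  rw [h1]
  apply tendsto_tsum_of_dominated_convergence (ideal_summable K hs)
  · intro I
    by_cases hI : I = ⊤
    · apply tendsto_const_nhds.congr
      intro F
      unfold eula_g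
      rw [if_pos hI, if_pos, hI, eula_one]
      intro v _ hdvd
      rw [hI] at hdvd
      exact v.isPrime.ne_top (top_le_iff.1 (Ideal.le_of_dvd hdvd))
    · obtain ⟨M, hM, hIM⟩ := Ideal.exists_le_maximal I hI
      rw [if_neg hI]
      by_cases hI0 : I = ⊥
      · apply tendsto_const_nhds.congr
        intro F
        unfold eula_g
        split_ifs
        · have := eula_norm_le χ hχ s I
          rw [if_pos hI0] at this
          exact (norm_le_zero_iff.1 this).symm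
        · rfl
      · have hM0 : M ≠ ⊥ := by
          intro h
          rw [h, le_bot_iff] at hIM
          exact hI0 hIM
        let v : Pl K := ⟨M, hM.isPrime, hM0⟩
        apply tendsto_const_nhds.congr'
        filter_upwards [Filter.eventually_ge_atTop {v}] with F hF
        unfold eula_g
        rw [if_neg]
        intro h
        exact h v (hF (Finset.mem_singleton_self v)) (Ideal.dvd_iff_le.2 hIM)
  · filter_upwards with F I
    exact eula_g_norm_le χ hχ s F I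

theorem eula_upper (z : ℂ) : ‖1 - z‖ ≤ Real.exp (-z.re + 4 * ‖z‖ ^ 2) := by
  have h1 : ‖1 - z‖ ^ 2 = 1 - 2 * z.re + ‖z‖ ^ 2 := by
    rw [← Complex.normSq_eq_norm_sq, ← Complex.normSq_eq_norm_sq, Complex.normSq_apply,
      Complex.normSq_apply]
    simp only [Complex.sub_re, Complex.one_re, Complex.sub_im, Complex.one_im]
    ring
  have h2 : ‖1 - z‖ ^ 2 ≤ (Real.exp (-z.re + 4 * ‖z‖ ^ 2)) ^ 2 := by
    rw [h1, ← Real.exp_nat_mul]
    refine le_trans ?_ (Real.add_one_le_exp _)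
    push_cast
    nlinarith [sq_nonneg ‖z‖]
  exact (sq_le_sq₀ (norm_nonneg _) (Real.exp_pos _).le).1 h2

theorem eula_lower (z : ℂ) (hz : ‖z‖ ≤ 1 / 2) : Real.exp (-z.re - 4 * ‖z‖ ^ 2) ≤ ‖1 - z‖ := by
  have h1 : ‖1 - z‖ ^ 2 = 1 - 2 * z.re + ‖z‖ ^ 2 := by
    rw [← Complex.normSq_eq_norm_sq, ← Complex.normSq_eq_norm_sq, Complex.normSq_apply,
      Complex.normSq_apply]
    simp only [Complex.sub_re, Complex.one_re, Complex.sub_im, Complex.one_im]
    ring
  have hre : |z.re| ≤ ‖z‖ := Complex.abs_re_le_norm z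
  have hre2 : z.re ^ 2 ≤ ‖z‖ ^ 2 := by
    rw [← sq_abs]
    exact pow_le_pow_left₀ (abs_nonneg _) hre 2
  have hpos : 0 < 1 - 2 * z.re + ‖z‖ ^ 2 := by
    have h3 : ‖z‖ < 1 := by linarith
    have h4 : 0 < ‖1 - z‖ := by
      rw [norm_pos_iff]
      intro h
      have : z = 1 := by linear_combination -h
      rw [this, norm_one] at h3
      exact lt_irrefl _ h3
    rw [← h1]
    positivity
  have h2 : (Real.exp (-z.re - 4 * ‖z‖ ^ 2)) ^ 2 ≤ ‖1 - z‖ ^ 2 := by
    rw [h1, ← Real.exp_nat_mul]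
    have h5 : 1 ≤ (1 - 2 * z.re + ‖z‖ ^ 2) * Real.exp (2 * z.re + 8 * ‖z‖ ^ 2) := by
      have h6 : 1 + (2 * z.re + 8 * ‖z‖ ^ 2) ≤ Real.exp (2 * z.re + 8 * ‖z‖ ^ 2) := by
        linarith [Real.add_one_le_exp (2 * z.re + 8 * ‖z‖ ^ 2)]
      refine le_trans ?_ (mul_le_mul_of_nonneg_left h6 hpos.le)
      have e1 : 0 ≤ ‖z‖ ^ 2 * ((1 - 2 * ‖z‖) * (5 - 4 * ‖z‖)) :=
        mul_nonneg (sq_nonneg _) (mul_nonneg (by linarith) (by linarith))
      have e2 : 0 ≤ ‖z‖ ^ 2 * (‖z‖ - z.re) :=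
        mul_nonneg (sq_nonneg _) (by linarith [(abs_le.1 hre).2])
      nlinarith [e1, e2, hre2]
    have h7 : Real.exp (((2 : ℕ) : ℝ) * (-z.re - 4 * ‖z‖ ^ 2)) *
        Real.exp (2 * z.re + 8 * ‖z‖ ^ 2) = 1 := by
      rw [← Real.exp_add]
      have : ((2 : ℕ) : ℝ) * (-z.re - 4 * ‖z‖ ^ 2) + (2 * z.re + 8 * ‖z‖ ^ 2) = 0 := by
        push_cast
        ring
      rw [this, Real.exp_zero]
    have h8 := Real.exp_pos (2 * z.re + 8 * ‖z‖ ^ 2)
    refine le_of_mul_le_mul_right ?_ h8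
    rw [h7]
    exact h5
  exact (sq_le_sq₀ (Real.exp_pos _).le (norm_nonneg _)).1 h2

theorem eula_two_le (v : Pl K) : (2 : ℝ) ≤ nm v := by
  have h1 : Ideal.absNorm v.asIdeal ≠ 0 := by
    rw [ne_eq, Ideal.absNorm_eq_zero_iff]
    exact v.ne_bot
  have h2 : Ideal.absNorm v.asIdeal ≠ 1 := by
    rw [ne_eq, Ideal.absNorm_eq_one_iff]
    exact v.isPrime.ne_top
  have h3 : 2 ≤ nm v := by
    unfold nm
    omega
  exact_mod_cast h3

end eula

theorem eul_two (K : Type) [Field K] [NumberField K] :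
    ∃ C : ℝ, 0 < C ∧ ∀ χ : Ideal (𝓞 K) →*₀ ℂ, (∀ I, ‖χ I‖ ≤ 1) → ∀ s : ℝ, 1 < s → s ≤ 2 →
      ‖Lser χ s‖ ≤ C * Real.exp (∑' v : Pl K, (χ v.asIdeal).re * (nm v : ℝ) ^ (-s)) ∧
      Real.exp (∑' v : Pl K, (χ v.asIdeal).re * (nm v : ℝ) ^ (-s)) ≤ C * ‖Lser χ s‖ := by
  have hsum2 := pz_summable K (s := 2) (by norm_num)
  refine ⟨Real.exp (4 * ∑' v : Pl K, (nm v : ℝ) ^ (-(2 : ℝ))), Real.exp_pos _, ?_⟩
  intro χ hχ s hs hs2
  set B := ∑' v : Pl K, (nm v : ℝ) ^ (-(2 : ℝ)) with hB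
  have hf : ∀ v : Pl K, ‖eula_f χ s v.asIdeal‖ ≤ (nm v : ℝ) ^ (-s) := by
    intro v
    have := eula_norm_le χ hχ s v.asIdeal
    rw [if_neg v.ne_bot] at this
    exact this
  have hfre : ∀ v : Pl K, (eula_f χ s v.asIdeal).re = (χ v.asIdeal).re * (nm v : ℝ) ^ (-s) := by
    intro v
    unfold eula_f nm
    rw [Complex.re_mul_ofReal]
  have hfhalf : ∀ v : Pl K, ‖eula_f χ s v.asIdeal‖ ≤ 1 / 2 := by
    intro v
    refine (hf v).trans ?_
    have h1 : (nm v : ℝ) ^ (-s) ≤ (nm v : ℝ) ^ (-1 : ℝ) :=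
      Real.rpow_le_rpow_of_exponent_le (by linarith [eula_two_le v]) (by linarith)
    refine h1.trans ?_
    rw [Real.rpow_neg_one, ← one_div]
    exact one_div_le_one_div_of_le (by norm_num) (eula_two_le v)
  have hfsq : ∀ v : Pl K, ‖eula_f χ s v.asIdeal‖ ^ 2 ≤ (nm v : ℝ) ^ (-(2 : ℝ)) := by
    intro v
    have h1 : (nm v : ℝ) ^ (-s) ≤ (nm v : ℝ) ^ (-1 : ℝ) :=
      Real.rpow_le_rpow_of_exponent_le (by linarith [eula_two_le v]) (by linarith)
    have h2 := pow_le_pow_left₀ (norm_nonneg _) ((hf v).trans h1) 2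
    refine h2.trans (le_of_eq ?_)
    rw [← Real.rpow_natCast, ← Real.rpow_mul (Nat.cast_nonneg _)]
    norm_num
  have hFsq : ∀ F : Finset (Pl K), ∑ v ∈ F, ‖eula_f χ s v.asIdeal‖ ^ 2 ≤ B := by
    intro F
    refine (Finset.sum_le_sum fun v _ => hfsq v).trans ?_
    exact hsum2.sum_le_tsum F fun v _ => by positivity
  have hsumre : Summable fun v : Pl K => (χ v.asIdeal).re * (nm v : ℝ) ^ (-s) := by
    apply Summable.of_norm_bounded (pz_summable K hs)
    intro v
    rw [← hfre v]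
    exact (Complex.abs_re_le_norm _).trans (hf v)
  set R := ∑' v : Pl K, (χ v.asIdeal).re * (nm v : ℝ) ^ (-s) with hR
  have hRt : Filter.Tendsto (fun F : Finset (Pl K) => ∑ v ∈ F, (eula_f χ s v.asIdeal).re)
      Filter.atTop (nhds R) := by
    have := hsumre.hasSum
    refine Filter.Tendsto.congr ?_ this
    intro F
    exact Finset.sum_congr rfl fun v _ => (hfre v).symm
  have ht := eula_tendsto χ hχ hs
  have ht2 : Filter.Tendsto (fun F : Finset (Pl K) =>
      (∏ v ∈ F, ‖1 - eula_f χ s v.asIdeal‖) * ‖Lser χ s‖) Filter.atTop (nhds 1) := by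
    have h1 := ht.norm
    rw [norm_one] at h1
    refine h1.congr ?_
    intro F
    rw [eula_prod χ hχ hs F, norm_mul, norm_prod]
  have hup : ∀ F : Finset (Pl K), (∏ v ∈ F, ‖1 - eula_f χ s v.asIdeal‖) * ‖Lser χ s‖ ≤
      Real.exp (-(∑ v ∈ F, (eula_f χ s v.asIdeal).re) + 4 * B) * ‖Lser χ s‖ := by
    intro F
    apply mul_le_mul_of_nonneg_right _ (norm_nonneg _)
    have h1 : ∏ v ∈ F, ‖1 - eula_f χ s v.asIdeal‖ ≤ ∏ v ∈ F,
        Real.exp (-(eula_f χ s v.asIdeal).re + 4 * ‖eula_f χ s v.asIdeal‖ ^ 2) :=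
      Finset.prod_le_prod (fun _ _ => norm_nonneg _) fun v _ => eula_upper _
    refine h1.trans ?_
    rw [← Real.exp_sum, Finset.sum_add_distrib, ← Finset.mul_sum, Finset.sum_neg_distrib]
    exact Real.exp_le_exp.2 (by linarith [hFsq F])
  have hlo : ∀ F : Finset (Pl K), Real.exp (-(∑ v ∈ F, (eula_f χ s v.asIdeal).re) - 4 * B) *
      ‖Lser χ s‖ ≤ (∏ v ∈ F, ‖1 - eula_f χ s v.asIdeal‖) * ‖Lser χ s‖ := by
    intro F
    apply mul_le_mul_of_nonneg_right _ (norm_nonneg _)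
    have h1 : ∏ v ∈ F,
        Real.exp (-(eula_f χ s v.asIdeal).re - 4 * ‖eula_f χ s v.asIdeal‖ ^ 2) ≤
        ∏ v ∈ F, ‖1 - eula_f χ s v.asIdeal‖ :=
      Finset.prod_le_prod (fun _ _ => (Real.exp_pos _).le) fun v _ => eula_lower _ (hfhalf v)
    refine le_trans ?_ h1
    rw [← Real.exp_sum, Finset.sum_sub_distrib, ← Finset.mul_sum, Finset.sum_neg_distrib]
    exact Real.exp_le_exp.2 (by linarith [hFsq F])
  have hup2 : 1 ≤ Real.exp (-R + 4 * B) * ‖Lser χ s‖ := by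
    refine le_of_tendsto_of_tendsto' ht2 ?_ hup
    apply Filter.Tendsto.mul_const
    apply (Real.continuous_exp.tendsto _).comp
    exact (hRt.neg).add_const _
  have hlo2 : Real.exp (-R - 4 * B) * ‖Lser χ s‖ ≤ 1 := by
    refine le_of_tendsto_of_tendsto' ?_ ht2 hlo
    apply Filter.Tendsto.mul_const
    apply (Real.continuous_exp.tendsto _).comp
    exact (hRt.neg).sub_const _
  constructor
  · have h1 : Real.exp (-R - 4 * B) * (Real.exp (4 * B) * Real.exp R) = 1 := by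
      rw [← Real.exp_add, ← Real.exp_add]
      have : -R - 4 * B + (4 * B + R) = 0 := by ring
      rw [this, Real.exp_zero]
    rw [← h1] at hlo2
    exact le_of_mul_le_mul_left hlo2 (Real.exp_pos _)
  · have h1 : Real.exp (-R + 4 * B) * Real.exp R = Real.exp (4 * B) := by
      rw [← Real.exp_add]
      congr 1
      ring
    have h2 := mul_le_mul_of_nonneg_right hup2 (Real.exp_pos R).le
    calc Real.exp R = 1 * Real.exp R := (one_mul _).symm
      _ ≤ Real.exp (-R + 4 * B) * ‖Lser χ s‖ * Real.exp R := h2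
      _ = Real.exp (4 * B) * ‖Lser χ s‖ := by rw [← h1]; ring

end H63.MA
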