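import Pool.Agent.H63.MA.AFin

/-!
# MA-ADIVI: divisor sums over ideals

* `tau k I` = number of `f : Fin k → Ideal` with product `I`.
* `tup_card`: the number of `k`-tuples of nonzero ideals with `∏ N(I_j) ≤ y` is `≤ C y (1 + log y)^{k-1}` (`y ≥ 1`, `k ≥ 1`): induction on
  `k`: `∑_{N I ≤ y} C (y/N I) (1 + log y)^{k-2}` and `∑_{N I ≤ y} 1/N I ≤ C (1 + log y)` (partial summation from
  `#{N I ≤ y} ≤ C y`, `cnt`; dyadic blocks). So `∑_{N I ≤ y} tau k I ≤ C y (1 + log y)^{k-1}`.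
* `tau_sq`: `(tau k I)² ≤ tau (k²) I` for `I ≠ 0`: the map from matrices `(M_{ij})` of ideals with product `I` to pairs (row products,
  column products) is surjective onto the pairs of factorisations: refinement property of unique factorisation
  monoids (given `∏ d_i = ∏ e_j` there are `M_{ij}` with `∏_j M_{ij} = d_i`, `∏_i M_{ij} = e_j`): induction using
  `exists_dvd_and_dvd_of_dvd_mul` (`DecompositionMonoid`; ideals of a Dedekind domain).
* `tau_sum_sq`: `∑_{N I ≤ y} (tau k I)² ≤ C y (1 + log y)^{k² - 1}`.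
-/

set_option autoImplicit false

open scoped NumberField
open IsDedekindDomain
open scoped Classical

noncomputable section

namespace H63.MA

/-- the number of factorisations into `k` factors -/
def tau {K : Type} [Field K] [NumberField K] (k : ℕ) (I : Ideal (𝓞 K)) : ℕ :=
  Nat.card {f : Fin k → Ideal (𝓞 K) // ∏ j, f j = I}

section adivi

variable {K : Type} [Field K] [NumberField K]

theorem adivi_card (K : Type) [Field K] [NumberField K] : ∃ C : ℝ, 0 < C ∧ ∀ y : ℝ, 1 ≤ y →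
    ((IN K y).card : ℝ) ≤ C * y := by
  obtain ⟨κ, C0, δ0, hκ, hC0, hδ0, hδ01, hcnt⟩ := cnt K
  refine ⟨κ + C0, by positivity, fun y hy => ?_⟩
  have h1 := (abs_le.1 (hcnt y hy)).2
  have h2 : y ^ (1 - δ0) ≤ y := by
    conv_rhs => rw [← Real.rpow_one y]
    exact Real.rpow_le_rpow_of_exponent_le hy (by linarith)
  have h3 := mul_le_mul_of_nonneg_left h2 hC0.le
  linarith

theorem adivi_norm_pos {I : Ideal (𝓞 K)} (hI : I ≠ ⊥) : 1 ≤ Ideal.absNorm I :=
  Nat.one_le_iff_ne_zero.2 (mt Ideal.absNorm_eq_zero_iff.1 hI)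

theorem adivi_harm (K : Type) [Field K] [NumberField K] : ∃ C : ℝ, 0 < C ∧ ∀ y : ℝ, 1 ≤ y →
    ∑ J ∈ IN K y, (1 : ℝ) / (Ideal.absNorm J : ℝ) ≤ C * (1 + Real.log y) := by
  obtain ⟨C, hC, hcard⟩ := adivi_card K
  refine ⟨4 * C, by positivity, fun y hy => ?_⟩
  have hy0 : 0 ≤ y := by linarith
  set n := Nat.log 2 ⌊y⌋₊ with hn
  have hfl : ⌊y⌋₊ ≠ 0 := by
    have := (Nat.le_floor_iff hy0 (n := 1)).2 (by simpa using hy)
    omega
  have hmap : ∀ J ∈ IN K y, Nat.log 2 (Ideal.absNorm J) ∈ Finset.range (n + 1) := by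
    intro J hJ
    obtain ⟨h1, h2⟩ := (mem_IN hy0).1 hJ
    rw [Finset.mem_range, Nat.lt_succ_iff]
    exact Nat.log_mono_right ((Nat.le_floor_iff hy0).2 h1)
  rw [← Finset.sum_fiberwise_of_maps_to hmap]
  have h1 : ∀ i ∈ Finset.range (n + 1),
      ∑ J ∈ (IN K y).filter (fun J => Nat.log 2 (Ideal.absNorm J) = i),
        (1 : ℝ) / (Ideal.absNorm J : ℝ) ≤ 2 * C := by
    intro i _
    have hpow : (0 : ℝ) < 2 ^ i := by positivity
    have h2 : ∀ J ∈ (IN K y).filter (fun J => Nat.log 2 (Ideal.absNorm J) = i),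
        (1 : ℝ) / (Ideal.absNorm J : ℝ) ≤ 1 / 2 ^ i := by
      intro J hJ
      obtain ⟨h3, h4⟩ := Finset.mem_filter.1 hJ
      obtain ⟨h5, h6⟩ := (mem_IN hy0).1 h3
      have h7 := Nat.pow_log_le_self 2 (Nat.one_le_iff_ne_zero.1 (adivi_norm_pos h6))
      rw [h4] at h7
      apply one_div_le_one_div_of_le hpow
      exact_mod_cast h7
    refine (Finset.sum_le_sum h2).trans ?_
    rw [Finset.sum_const, nsmul_eq_mul]
    have h3 : (((IN K y).filter (fun J => Nat.log 2 (Ideal.absNorm J) = i)).card : ℝ) ≤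
        C * 2 ^ (i + 1) := by
      refine le_trans ?_ (hcard (2 ^ (i + 1)) (one_le_pow₀ (by norm_num)))
      have : (IN K y).filter (fun J => Nat.log 2 (Ideal.absNorm J) = i) ⊆ IN K (2 ^ (i + 1)) := by
        intro J hJ
        obtain ⟨h3, h4⟩ := Finset.mem_filter.1 hJ
        obtain ⟨h5, h6⟩ := (mem_IN hy0).1 h3
        rw [mem_IN (by positivity)]
        refine ⟨?_, h6⟩
        have h7 := Nat.lt_pow_succ_log_self (b := 2) (by norm_num) (Ideal.absNorm J)
        rw [h4] at h7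
        exact_mod_cast h7.le
      exact_mod_cast Finset.card_le_card this
    calc (((IN K y).filter (fun J => Nat.log 2 (Ideal.absNorm J) = i)).card : ℝ) * (1 / 2 ^ i)
        ≤ (C * 2 ^ (i + 1)) * (1 / 2 ^ i) := mul_le_mul_of_nonneg_right h3 (by positivity)
      _ = 2 * C := by rw [pow_succ]; field_simp
  refine (Finset.sum_le_sum h1).trans ?_
  rw [Finset.sum_const, Finset.card_range, nsmul_eq_mul]
  have h2 : (n : ℝ) * Real.log 2 ≤ Real.log y := by
    have h3 : ((2 : ℝ)) ^ n ≤ y := by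
      have h4 := Nat.pow_log_le_self 2 hfl
      have h5 : ((2 ^ n : ℕ) : ℝ) ≤ (⌊y⌋₊ : ℝ) := by exact_mod_cast h4
      have h6 := Nat.floor_le hy0
      push_cast at h5
      linarith
    rw [← Real.log_pow]
    exact Real.log_le_log (by positivity) h3
  have h3 : (0.69 : ℝ) ≤ Real.log 2 := by
    have := Real.log_two_gt_d9
    linarith
  have h4 : (0 : ℝ) ≤ n := Nat.cast_nonneg n
  have h5 : (n : ℝ) ≤ 2 * Real.log y := by nlinarith
  push_cast
  nlinarith

/-- tuples of ideals with product of norms at most `y` -/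
def adiviT (K : Type) [Field K] [NumberField K] (k : ℕ) (y : ℝ) :
    Finset (Fin k → Ideal (𝓞 K)) :=
  (Fintype.piFinset fun _ => IN K y).filter (fun f => ∏ j, (Ideal.absNorm (f j) : ℝ) ≤ y)

theorem adivi_one_le_prod {k : ℕ} {f : Fin k → Ideal (𝓞 K)} (hf : ∀ j, f j ≠ ⊥)
    (S : Finset (Fin k)) : 1 ≤ ∏ j ∈ S, (Ideal.absNorm (f j) : ℝ) := by
  induction S using Finset.induction_on with
  | empty => simp
  | insert a S ha ih =>
    rw [Finset.prod_insert ha]
    have h1 : (1 : ℝ) ≤ (Ideal.absNorm (f a) : ℝ) := by exact_mod_cast adivi_norm_pos (hf a)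
    nlinarith

theorem adivi_single_le {k : ℕ} {f : Fin k → Ideal (𝓞 K)} (hf : ∀ j, f j ≠ ⊥) (j : Fin k) :
    (Ideal.absNorm (f j) : ℝ) ≤ ∏ j, (Ideal.absNorm (f j) : ℝ) := by
  rw [← Finset.mul_prod_erase Finset.univ _ (Finset.mem_univ j)]
  have h1 : (1 : ℝ) ≤ (Ideal.absNorm (f j) : ℝ) := by exact_mod_cast adivi_norm_pos (hf j)
  have h2 := adivi_one_le_prod hf (Finset.univ.erase j)
  nlinarith

theorem adivi_memT {k : ℕ} {y : ℝ} (hy : 0 ≤ y) {f : Fin k → Ideal (𝓞 K)} :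
    f ∈ adiviT K k y ↔ (∀ j, f j ≠ ⊥) ∧ ∏ j, (Ideal.absNorm (f j) : ℝ) ≤ y := by
  rw [adiviT, Finset.mem_filter, Fintype.mem_piFinset]
  constructor
  · rintro ⟨h1, h2⟩
    exact ⟨fun j => ((mem_IN hy).1 (h1 j)).2, h2⟩
  · rintro ⟨h1, h2⟩
    refine ⟨fun j => (mem_IN hy).2 ⟨?_, h1 j⟩, h2⟩
    exact (adivi_single_le h1 j).trans h2

theorem adivi_rec (k : ℕ) {y : ℝ} (hy : 1 ≤ y) :
    (adiviT K (k + 1) y).card ≤ ∑ J ∈ IN K y, (adiviT K k (y / (Ideal.absNorm J : ℝ))).card := by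
  have hy0 : 0 ≤ y := by linarith
  rw [← Finset.card_sigma]
  refine Finset.card_le_card_of_injOn
    (fun f => (⟨f 0, Fin.tail f⟩ : Σ _ : Ideal (𝓞 K), Fin k → Ideal (𝓞 K))) ?_ ?_
  · intro f hf
    rw [Finset.mem_coe, adivi_memT hy0] at hf
    obtain ⟨h1, h2⟩ := hf
    have hpos : (0 : ℝ) < (Ideal.absNorm (f 0) : ℝ) := by exact_mod_cast adivi_norm_pos (h1 0)
    rw [Finset.mem_coe, Finset.mem_sigma]
    refine ⟨(mem_IN hy0).2 ⟨(adivi_single_le h1 0).trans h2, h1 0⟩, ?_⟩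
    rw [adivi_memT (by positivity)]
    refine ⟨fun j => h1 j.succ, ?_⟩
    rw [Fin.prod_univ_succ] at h2
    rw [le_div_iff₀ hpos, mul_comm]
    exact h2
  · intro f _ g _ hfg
    simp only [Sigma.mk.injEq, heq_eq_eq] at hfg
    rw [← Fin.cons_self_tail f, ← Fin.cons_self_tail g, hfg.1, hfg.2]

theorem adivi_cardT (K : Type) [Field K] [NumberField K] (k : ℕ) :
    ∃ C : ℝ, 0 < C ∧ ∀ y : ℝ, 1 ≤ y →
      ((adiviT K k y).card : ℝ) ≤ C * y * (1 + Real.log y) ^ k := by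
  induction k with
  | zero =>
    refine ⟨1, one_pos, fun y hy => ?_⟩
    have h1 : (adiviT K 0 y).card ≤ 1 := Finset.card_le_one_of_subsingleton _
    have h2 : ((adiviT K 0 y).card : ℝ) ≤ 1 := by exact_mod_cast h1
    simpa using h2.trans hy
  | succ k ih =>
    obtain ⟨C, hC, hcard⟩ := ih
    obtain ⟨C', hC', hharm⟩ := adivi_harm K
    refine ⟨C * C', by positivity, fun y hy => ?_⟩
    have hy0 : 0 ≤ y := by linarith
    have hlog : 0 ≤ Real.log y := Real.log_nonneg hy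
    have h1 : ((adiviT K (k + 1) y).card : ℝ) ≤
        ∑ J ∈ IN K y, ((adiviT K k (y / (Ideal.absNorm J : ℝ))).card : ℝ) := by
      exact_mod_cast adivi_rec (K := K) k hy
    refine h1.trans ?_
    have h2 : ∀ J ∈ IN K y, ((adiviT K k (y / (Ideal.absNorm J : ℝ))).card : ℝ) ≤
        C * y * (1 + Real.log y) ^ k * ((1 : ℝ) / (Ideal.absNorm J : ℝ)) := by
      intro J hJ
      obtain ⟨h3, h4⟩ := (mem_IN hy0).1 hJ
      have h5 : (1 : ℝ) ≤ (Ideal.absNorm J : ℝ) := by exact_mod_cast adivi_norm_pos h4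
      have hp : (0 : ℝ) < (Ideal.absNorm J : ℝ) := by linarith
      have h6 : 1 ≤ y / (Ideal.absNorm J : ℝ) := by rwa [le_div_iff₀ hp, one_mul]
      refine (hcard _ h6).trans ?_
      have h7 : Real.log (y / (Ideal.absNorm J : ℝ)) ≤ Real.log y :=
        Real.log_le_log (by positivity) (div_le_self hy0 h5)
      have h8 : (1 + Real.log (y / (Ideal.absNorm J : ℝ))) ^ k ≤ (1 + Real.log y) ^ k :=
        pow_le_pow_left₀ (by linarith [Real.log_nonneg h6]) (by linarith) k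
      calc C * (y / (Ideal.absNorm J : ℝ)) * (1 + Real.log (y / (Ideal.absNorm J : ℝ))) ^ k
          ≤ C * (y / (Ideal.absNorm J : ℝ)) * (1 + Real.log y) ^ k :=
            mul_le_mul_of_nonneg_left h8 (by positivity)
        _ = _ := by field_simp
    refine (Finset.sum_le_sum h2).trans ?_
    rw [← Finset.mul_sum]
    calc C * y * (1 + Real.log y) ^ k * ∑ J ∈ IN K y, (1 : ℝ) / (Ideal.absNorm J : ℝ)
        ≤ C * y * (1 + Real.log y) ^ k * (C' * (1 + Real.log y)) :=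
          mul_le_mul_of_nonneg_left (hharm y hy) (by positivity)
      _ = _ := by rw [pow_succ]; ring

theorem adivi_ne_bot {k : ℕ} {f : Fin k → Ideal (𝓞 K)} {I : Ideal (𝓞 K)} (hI : I ≠ ⊥)
    (hf : ∏ j, f j = I) (j : Fin k) : f j ≠ ⊥ := by
  intro h
  apply hI
  rw [← hf]
  exact Finset.prod_eq_zero (Finset.mem_univ j) h

theorem adivi_norm_prod {k : ℕ} (f : Fin k → Ideal (𝓞 K)) :
    (Ideal.absNorm (∏ j, f j) : ℝ) = ∏ j, (Ideal.absNorm (f j) : ℝ) := by
  rw [map_prod]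
  push_cast
  rfl

theorem adivi_mem_fil {k : ℕ} {y : ℝ} (hy : 0 ≤ y) {I : Ideal (𝓞 K)} (hI : I ∈ IN K y)
    (f : Fin k → Ideal (𝓞 K)) :
    f ∈ (adiviT K k y).filter (fun f => ∏ j, f j = I) ↔ ∏ j, f j = I := by
  obtain ⟨h1, h2⟩ := (mem_IN hy).1 hI
  rw [Finset.mem_filter, adivi_memT hy]
  constructor
  · exact fun h => h.2
  · intro h
    refine ⟨⟨adivi_ne_bot h2 h, ?_⟩, h⟩
    rw [← adivi_norm_prod, h]
    exact h1

theorem adivi_tau {k : ℕ} {y : ℝ} (hy : 0 ≤ y) {I : Ideal (𝓞 K)} (hI : I ∈ IN K y) :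
    tau k I = ((adiviT K k y).filter (fun f => ∏ j, f j = I)).card :=
  Nat.subtype_card _ (adivi_mem_fil hy hI)

theorem adivi_finite {k : ℕ} {I : Ideal (𝓞 K)} (hI : I ≠ ⊥) :
    Finite {f : Fin k → Ideal (𝓞 K) // ∏ j, f j = I} := by
  have hy : (0 : ℝ) ≤ (Ideal.absNorm I : ℝ) := Nat.cast_nonneg _
  have hm : I ∈ IN K (Ideal.absNorm I : ℝ) := (mem_IN hy).2 ⟨le_rfl, hI⟩
  have h1 := ((adiviT K k (Ideal.absNorm I : ℝ)).filter
    (fun f => ∏ j, f j = I)).finite_toSet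
  refine (h1.subset ?_).to_subtype (s := {f : Fin k → Ideal (𝓞 K) | ∏ j, f j = I})
  intro f hf
  rw [Finset.mem_coe, adivi_mem_fil hy hm]
  exact hf

theorem adivi_split {m : ℕ} (a : Ideal (𝓞 K)) (e : Fin m → Ideal (𝓞 K)) (h : a ∣ ∏ j, e j) :
    ∃ f : Fin m → Ideal (𝓞 K), a = ∏ j, f j ∧ ∀ j, f j ∣ e j := by
  induction m generalizing a with
  | zero =>
    refine ⟨Fin.elim0, ?_, fun j => j.elim0⟩
    simp only [Finset.univ_eq_empty, Finset.prod_empty] at h ⊢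
    rw [Ideal.one_eq_top]
    exact Ideal.isUnit_iff.1 (isUnit_of_dvd_one h)
  | succ m ih =>
    rw [Fin.prod_univ_succ] at h
    obtain ⟨b, c, hb, hc, habc⟩ := exists_dvd_and_dvd_of_dvd_mul h
    obtain ⟨f, hf, hfe⟩ := ih c (fun j => e j.succ) hc
    refine ⟨Fin.cons b f, ?_, ?_⟩
    · rw [Fin.prod_univ_succ]
      simp only [Fin.cons_zero, Fin.cons_succ]
      rw [← hf, habc]
    · intro j
      refine Fin.cases ?_ ?_ j
      · simpa using hb
      · intro i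
        simpa using hfe i

theorem adivi_refine {n m : ℕ} (d : Fin n → Ideal (𝓞 K)) (e : Fin m → Ideal (𝓞 K))
    (h : ∏ i, d i = ∏ j, e j) (h0 : ∏ i, d i ≠ ⊥) :
    ∃ M : Fin n → Fin m → Ideal (𝓞 K), (∀ i, ∏ j, M i j = d i) ∧ ∀ j, ∏ i, M i j = e j := by
  induction n generalizing e with
  | zero =>
    refine ⟨Fin.elim0, fun i => i.elim0, fun j => ?_⟩
    simp only [Finset.univ_eq_empty, Finset.prod_empty] at h ⊢
    have h1 : e j ∣ 1 := by
      rw [h]
      exact Finset.dvd_prod_of_mem e (Finset.mem_univ j)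
    rw [Ideal.one_eq_top]
    exact (Ideal.isUnit_iff.1 (isUnit_of_dvd_one h1)).symm
  | succ n ih =>
    rw [Fin.prod_univ_succ] at h h0
    obtain ⟨a, ha, hae⟩ := adivi_split (d 0) e (Dvd.intro _ h)
    choose b hb using hae
    have hd0 : d 0 ≠ 0 := fun h' => h0 (by rw [h', zero_mul]; rfl)
    have h1 : ∏ i : Fin n, d i.succ = ∏ j, b j := by
      have h2 : d 0 * ∏ i : Fin n, d i.succ = d 0 * ∏ j, b j := by
        rw [h, Finset.prod_congr rfl (fun j _ => hb j), Finset.prod_mul_distrib, ← ha]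
      exact mul_left_cancel₀ hd0 h2
    have h2 : ∏ i : Fin n, d i.succ ≠ ⊥ := fun h' => h0 (by rw [h']; exact mul_zero _)
    obtain ⟨M, hM1, hM2⟩ := ih (fun i => d i.succ) b h1 h2
    refine ⟨Fin.cons a M, ?_, ?_⟩
    · intro i
      refine Fin.cases ?_ ?_ i
      · simpa using ha.symm
      · intro i
        simpa using hM1 i
    · intro j
      rw [Fin.prod_univ_succ]
      simp only [Fin.cons_zero, Fin.cons_succ]
      rw [hM2 j, ← hb j]

end adivi

theorem tau_sum (K : Type) [Field K] [NumberField K] (k : ℕ) :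
    ∃ C : ℝ, 0 < C ∧ ∀ y : ℝ, 1 ≤ y →
      ∑ I ∈ IN K y, (tau k I : ℝ) ≤ C * y * (1 + Real.log y) ^ k := by
  obtain ⟨C, hC, hcard⟩ := adivi_cardT K k
  refine ⟨C, hC, fun y hy => ?_⟩
  have hy0 : 0 ≤ y := by linarith
  refine le_trans (le_of_eq ?_) (hcard y hy)
  have h1 : ∀ f ∈ adiviT K k y, ∏ j, f j ∈ IN K y := by
    intro f hf
    rw [adivi_memT hy0] at hf
    rw [mem_IN hy0, adivi_norm_prod]
    refine ⟨hf.2, ?_⟩
    exact Finset.prod_ne_zero_iff.2 fun j _ => hf.1 j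
  rw [Finset.card_eq_sum_card_fiberwise h1]
  push_cast
  exact Finset.sum_congr rfl fun I hI => by rw [adivi_tau hy0 hI]

theorem tau_sq {K : Type} [Field K] [NumberField K] (k : ℕ) {I : Ideal (𝓞 K)} (hI : I ≠ ⊥) :
    tau k I ^ 2 ≤ tau (k ^ 2) I := by
  haveI := adivi_finite (K := K) (k := k ^ 2) hI
  have key : ∀ p : {f : Fin k → Ideal (𝓞 K) // ∏ j, f j = I} ×
      {f : Fin k → Ideal (𝓞 K) // ∏ j, f j = I},
      ∃ M : Fin k → Fin k → Ideal (𝓞 K), (∀ i, ∏ j, M i j = p.1.1 i) ∧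
        ∀ j, ∏ i, M i j = p.2.1 j := by
    intro p
    exact adivi_refine p.1.1 p.2.1 (p.1.2.trans p.2.2.symm) (by rw [p.1.2]; exact hI)
  choose M hM1 hM2 using key
  let φ : Fin (k ^ 2) ≃ Fin k × Fin k := (finCongr (sq k)).trans finProdFinEquiv.symm
  have hprod : ∀ p, ∏ x : Fin (k ^ 2), M p (φ x).1 (φ x).2 = I := by
    intro p
    rw [Equiv.prod_comp φ (fun x : Fin k × Fin k => M p x.1 x.2), Fintype.prod_prod_type]
    simp only [hM1]
    exact p.1.2
  have h1 : Nat.card ({f : Fin k → Ideal (𝓞 K) // ∏ j, f j = I} ×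
      {f : Fin k → Ideal (𝓞 K) // ∏ j, f j = I}) ≤
      Nat.card {f : Fin (k ^ 2) → Ideal (𝓞 K) // ∏ j, f j = I} := by
    refine Nat.card_le_card_of_injective
      (fun p => ⟨fun x => M p (φ x).1 (φ x).2, hprod p⟩) ?_
    intro p q hpq
    simp only [Subtype.mk.injEq] at hpq
    have h2 : M p = M q := by
      funext i j
      have := congrFun hpq (φ.symm (i, j))
      simpa using this
    have h3 : p.1.1 = q.1.1 := by
      funext i
      rw [← hM1 p i, ← hM1 q i, h2]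
    have h4 : p.2.1 = q.2.1 := by
      funext i
      rw [← hM2 p i, ← hM2 q i, h2]
    exact Prod.ext (Subtype.ext h3) (Subtype.ext h4)
  rw [Nat.card_prod] at h1
  rw [sq]
  exact h1

theorem tau_sum_sq (K : Type) [Field K] [NumberField K] (k : ℕ) :
    ∃ C A : ℝ, 0 < C ∧ 0 ≤ A ∧ ∀ y : ℝ, 1 ≤ y →
      ∑ I ∈ IN K y, (tau k I : ℝ) ^ 2 ≤ C * y * (1 + Real.log y) ^ A := by
  obtain ⟨C, hC, hsum⟩ := tau_sum K (k ^ 2)
  refine ⟨C, ((k ^ 2 : ℕ) : ℝ), hC, Nat.cast_nonneg _, fun y hy => ?_⟩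
  rw [Real.rpow_natCast]
  refine le_trans (Finset.sum_le_sum fun I hI => ?_) (hsum y hy)
  have h1 := tau_sq (K := K) k ((mem_IN (by linarith)).1 hI).2
  exact_mod_cast h1

end H63.MA
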