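import Pool.Agent.H63.MA.KumC

/-!
# MA-KUMD: norms from `L = K(c^{1/p})` have trivial tame symbol with `c`

Let `v ∤ p`, `y ∈ L^*`. Then `B v c (N y) = 0`.
* If `Spl v c` there is nothing to do. Otherwise only one prime `w` lies over `v`.
* `p ∣ ord v c` (inert case): `ord w (x) = ord v x` on `K`, and `ord v (N y) = ord w (N y) = ∑_i ord w (σ^i y) = p ord w y`
  (`kum_norm`, `nonsplit_stable`). By `B_unram`, `B v c (N y) = ord v (N y) * B v c π = 0` in `ZMod p`.
* `p ∤ ord v c` (`ram_case`): `ord w (x) = p ord v x` on `K`. Put `m = ord w y`, `e = ord v c = ord w γ` (as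
  `p ord w γ = ord w c = p ord v c`), so `p ord v (N y) = ord w (N y) = p m`, `ord v (N y) = m`. Put `z = y^e / γ^m`,
  `ord w z = 0`, so `z ≡ r` modulo `w` with `r ∈ K`, `ord v r = 0`. Then `σ^i z ≡ σ^i r = r` (`nonsplit_one1`), so
  `N z ≡ r^p` modulo `w`, hence modulo `v` (`one1_over`). Now `N z = (N y)^e / (N γ)^m = (N y)^e / c^m` (`kum_norm_γ`), so
  `c^{ord (N y)} / (N y)^{ord c} = (N z)⁻¹` is a `p`-th power modulo `v`, and its `lg` is `0` (`lg_eq_zero_iff`).
-/

set_option autoImplicit false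

open scoped NumberField
open IsDedekindDomain

noncomputable section

namespace H63.MA

private theorem kumd_au_mul {K L : Type} [Field K] [Field L] [Algebra K L] (s t : L ≃ₐ[K] L)
    (y : Lˣ) : au (s * t) y = au s (au t y) := rfl

private theorem kumd_prod {K : Type} [Field K] [NumberField K] {ι : Type} (v : Pl K)
    (s : Finset ι) (f : ι → Kˣ) (h : ∀ i ∈ s, One1 v (f i)) : One1 v (∏ i ∈ s, f i) := by
  classical
  induction s using Finset.induction_on with
  | empty =>
    rw [Finset.prod_empty]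
    exact one1_one v
  | insert a s ha ih =>
    rw [Finset.prod_insert ha]
    exact one1_mul (h a (Finset.mem_insert_self a s))
      (ih fun i hi => h i (Finset.mem_insert_of_mem hi))

theorem B_norm {K : Type} [Field K] [NumberField K] {L : Type} [Field L] [NumberField L]
    [Algebra K L] {p : ℕ} (hp : p.Prime) (hp2 : MOne p K) {ζ : K} (hζ : IsPrimitiveRoot ζ p) {c : Kˣ}
    (H : Kum p K ζ c L) {v : Pl K} (hv : ¬ Above p v) (y : Lˣ) :
    B p ζ v c (Nm K L y) = 0 := by
  classical
  have hp0 : (p : ℤ) ≠ 0 := by exact_mod_cast hp.ne_zero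
  by_cases hs : Spl p ζ v c
  · exact hs _
  obtain ⟨w, hw⟩ := exists_over (L := L) v
  have hstab : {w : Pl L | Over w v}.ncard = 1 → ∀ (i : ℕ) (z : Lˣ),
      ord w (au (H.σ ^ i) z) = ord w z := by
    intro hg i z
    induction i with
    | zero => rfl
    | succ i ih =>
      rw [pow_succ', kumd_au_mul, nonsplit_stable hp hζ H hg hw, ih]
  have hnorm : {w : Pl L | Over w v}.ncard = 1 → ∀ z : Lˣ,
      ord w (inc K L (Nm K L z)) = p * ord w z := by
    intro hg z
    rw [kum_norm hp hζ H, ord_prod, Finset.sum_congr rfl (fun i _ => hstab hg i z),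
      Finset.sum_const, Finset.card_range, nsmul_eq_mul]
  by_cases hc : (p : ℤ) ∣ ord v c
  · have hg := (inert_case hp hζ H hv hc hs hw).1
    have h1 := hnorm hg y
    rw [unram_case hp hζ H hv hc hw] at h1
    obtain ⟨π, hπ⟩ := exists_unif v
    rw [B_unram hp hζ hv hc hπ, h1]
    push_cast
    rw [CharP.cast_eq_zero, zero_mul, zero_mul]
  · obtain ⟨hg, he, hr⟩ := ram_case hp hζ H hv hc hw
    have h1 := hnorm hg y
    rw [he] at h1
    have h2 : ord v (Nm K L y) = ord w y := mul_left_cancel₀ hp0 h1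
    have h3 : H.γ ^ p = inc K L c := Units.ext H.hγ
    have h4 : ord w H.γ = ord v c := by
      have h5 := congrArg (ord w) h3
      rw [ord_pow, he] at h5
      exact mul_left_cancel₀ hp0 h5
    set m := ord w y with hm
    set e := ord v c with hedef
    set z : Lˣ := y ^ e * (H.γ ^ m)⁻¹ with hz
    have h5 : ord w z = 0 := by
      rw [hz, ord_mul, ord_inv, ord_zpow, ord_zpow, h4, ← hm]
      ring
    obtain ⟨r, hr0, hr1⟩ := hr z h5
    have hone : ∀ (i : ℕ), One1 w (au (H.σ ^ i) (z * (inc K L r)⁻¹)) := by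
      intro i
      induction i with
      | zero => exact hr1
      | succ i ih =>
        rw [pow_succ', kumd_au_mul]
        exact (nonsplit_one1 hp hζ H hg hw _).2 ih
    have h6 : One1 v (Nm K L (z * (inc K L r)⁻¹)) := by
      rw [← one1_over hw, kum_norm hp hζ H]
      exact kumd_prod w _ _ fun i _ => hone i
    obtain ⟨s, hs1, hs2⟩ := kum_norm_γ hp hζ H hp2
    have hs0 : ord v s = 0 := by
      have h10 := congrArg (ord v) hs1
      rw [ord_pow, ord_one] at h10
      rcases mul_eq_zero.1 h10 with h11 | h11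
      · exact absurd (by exact_mod_cast h11) (Nat.mul_ne_zero two_ne_zero hp.ne_zero)
      · exact h11
    have h7 : Nm K L (z * (inc K L r)⁻¹) = Nm K L y ^ e * ((c * s ^ p) ^ m)⁻¹ * (r ^ p)⁻¹ := by
      rw [map_mul, map_inv, kum_norm_inc hp hζ H, hz, map_mul, map_inv, map_zpow, map_zpow, hs2]
    rw [h7] at h6
    unfold B
    rw [h2, ← hedef]
    have h8 : ord v (c ^ m * (Nm K L y ^ e)⁻¹) = 0 := by
      rw [ord_mul, ord_inv, ord_zpow, ord_zpow, h2, ← hedef]
      ring
    rw [lg_eq_zero_iff hp hζ hv h8]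
    refine ⟨(r * s ^ m)⁻¹, by rw [ord_inv, ord_mul, hr0, ord_zpow, hs0, mul_zero, add_zero,
      neg_zero], ?_⟩
    have h9 : c ^ m * (Nm K L y ^ e)⁻¹ * ((r * s ^ m)⁻¹ ^ p)⁻¹ =
        (Nm K L y ^ e * ((c * s ^ p) ^ m)⁻¹ * (r ^ p)⁻¹)⁻¹ := by
      have h12 : (s ^ m) ^ p = (s ^ p) ^ m := by
        rw [← zpow_natCast (s ^ m), ← zpow_natCast s, ← zpow_mul, ← zpow_mul, mul_comm]
      rw [inv_pow, inv_inv, mul_pow, h12, mul_zpow]
      simp only [mul_inv, inv_inv, mul_comm, mul_left_comm, mul_assoc]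
    rw [h9]
    exact one1_inv h6

end H63.MA
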