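import Pool.Agent.H63.MA.KumB
import Pool.Agent.H63.MA.SymC

/-!
# MA-KUMC: which primes split in `L = K(c^{1/p})`

`ncard = p` (split) or `= 1` (non split), see `card_over`.
* `above_split`: `v ∣ p` and `c` locally primary, `c = y^p c'` with `v (c' - 1) < v (p^2)`. Replace `γ` by
  `γ' = γ / y` (`γ'^p = c'`, `σ γ' = ζ γ'`). Suppose only one prime `w` lies over `v`; then `σ` preserves `w`. Put
  `z = (γ' - 1)/(ζ - 1)`. From `(1 + (ζ-1) z)^p = c'`: expanding, with `v (p) = v (ζ - 1)^(p-1)`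
  (`∏_{0<a<p} (1 - ζ^a) = p` and the factors are associated), `∑_{1≤k≤p} binom(p,k) (ζ-1)^(k-p) z^k = (c' - 1)/(ζ-1)^p`,
  which has `w`-value `< 1` as `v (c' - 1) < v (p)^2 ≤ v (ζ-1)^p` (`2(p-1) ≥ p`). It follows that `z` is `w`-integral (if
  `w (z) > 1` the term `z^p` dominates: the coefficients `binom(p,k)(ζ-1)^(k-p)` for `1 ≤ k ≤ p-1` are integral) and
  modulo `w` the equation is `z^p - z ≡ 0`: the coefficient of `z` is `p/(ζ-1)^(p-1) ≡ -1` (Wilson:
  `p = ∏_{0<a<p}(1-ζ^a) = (ζ-1)^{p-1} ∏ (-(1+ζ+...+ζ^{a-1}))`, `≡ (-1)^{p-1} (p-1)! (ζ-1)^{p-1}` modulo higher order, and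
  `(p-1)! ≡ -1`), the other coefficients are `≡ 0`.
  `z^p - z = ∏_{i ∈ 𝔽_p} (z - i)` modulo `w`, so `z ≡ i` modulo `w` for some integer `i`. Apply `σ`:
  `σ z = (ζ γ' - 1)/(ζ-1) = ζ z + 1 ≡ z + 1 ≡ i + 1`, but also `σ z ≡ σ i = i`. Contradiction.
  (No need for the exact coefficient: it suffices that `z` is `w`-integral, that `∏_{i}(z - i) ≡ 0`, or alternatively
  use the exact factorisation `γ'^p - 1 = ∏_{a} (γ' - ζ^a)`, `γ' - ζ^a = (ζ-1)(z - (ζ^a - 1)/(ζ-1))` and
  `(ζ^a-1)/(ζ-1) = 1 + ... + ζ^{a-1} ≡ a` modulo `w`: so `∏_{a<p} (z - [a]) = (c' - 1)/(ζ-1)^p` has value `< 1`, hence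
  `w (z - [a]) < 1` for some `a < p`, where `[a] = 1 + ... + ζ^(a-1)`. This is the shortest way.)
* `spl_split`: `v ∤ p`, `Spl v c`: `c = y^p c'` with `c' ≡ 1` (`spl_iff`), `γ' = γ/y`: `∏_a (γ' - ζ^a) = c' - 1`, so
  `γ' ≡ ζ^a` modulo `w` for some `a`; if `w` is the only prime, `σ γ' = ζ γ' ≡ ζ^{a+1}` and `≡ ζ^a`, so `w (ζ - 1) < 1`,
  which contradicts `v ∤ p` (`p = ∏(1-ζ^a)`).
* `split_spl`: `v ∤ p` and `g = p`. Then `e = f = 1` (`split_case`): `ord v c = ord w γ^p = p ord w γ`, take `π` with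
  `ord v π = 1`, `z = γ / π^{ord w γ}`, `z ≡ r ∈ K` modulo `w`, so `c / (π^m r)^p ≡ 1` modulo `w`, so modulo `v`
  (`one1_over`); `spl_iff`.
* `unram_case`: `v ∤ p`, `p ∣ ord v c`, not split: then `e = 1`: in the case `e = p`, `f = 1` the argument of `split_spl` works
  again and shows `Spl v c`, hence split. `ram_case`: `p ∤ ord v c`: `p ord w γ = e ord v c` gives `e = p`.
-/

set_option autoImplicit false

open scoped NumberField
open IsDedekindDomain

noncomputable section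

namespace H63.MA

section kumcaux

variable {K : Type} [Field K] [NumberField K] {L : Type} [Field L] [NumberField L] [Algebra K L]

theorem kumc_lt {w : Pl L} {v : Pl K} (h : Over w v) (x y : K)
    (hxy : v.valuation K x < v.valuation K y) :
    w.valuation L (algebraMap K L x) < w.valuation L (algebraMap K L y) := by
  have hy : y ≠ 0 := by
    rintro rfl
    rw [map_zero] at hxy
    exact absurd hxy not_lt_zero
  have hyL : algebraMap K L y ≠ 0 := (map_ne_zero _).2 hy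
  by_cases hx : x = 0
  · rw [hx, map_zero, map_zero]
    exact zero_lt_iff.2 ((map_ne_zero _).2 hyL)
  · obtain ⟨e, he, hord⟩ := ord_inc (K := K) (L := L) h
    have e1 := val_eq v (Units.mk0 x hx)
    have e2 := val_eq v (Units.mk0 y hy)
    have e3 := val_eq w (inc K L (Units.mk0 x hx))
    have e4 := val_eq w (inc K L (Units.mk0 y hy))
    rw [Units.val_mk0] at e1 e2
    rw [e1, e2, WithZero.exp_lt_exp] at hxy
    have e5 : ((inc K L (Units.mk0 x hx) : Lˣ) : L) = algebraMap K L x := rfl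
    have e6 : ((inc K L (Units.mk0 y hy) : Lˣ) : L) = algebraMap K L y := rfl
    rw [e5] at e3
    rw [e6] at e4
    rw [e3, e4, WithZero.exp_lt_exp, hord, hord]
    have h1 : ord v (Units.mk0 y hy) < ord v (Units.mk0 x hx) := by linarith
    have h2 : (0 : ℤ) < e := by exact_mod_cast he
    have h3 := mul_lt_mul_of_pos_left h1 h2
    linarith

theorem kumc_root {F : Type} [Field F] [NumberField F] (w : Pl F) {z : F} {n : ℕ} (hn : n ≠ 0)
    (hz : z ^ n = 1) : w.valuation F z = 1 := by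
  have h1 : w.valuation F z ^ n = 1 := by rw [← map_pow, hz, map_one]
  have hz0 : z ≠ 0 := by
    rintro rfl
    rw [zero_pow hn] at hz
    exact zero_ne_one hz
  have h2 := val_eq w (Units.mk0 z hz0)
  rw [Units.val_mk0] at h2
  have h3 : ord w (Units.mk0 z hz0) = 0 := by
    have h4 : (Units.mk0 z hz0) ^ n = 1 := Units.ext (by simpa using hz)
    have h5 := congrArg (ord w) h4
    rw [ord_pow, ord_one] at h5
    rcases mul_eq_zero.1 h5 with h | h
    · exact absurd (by exact_mod_cast h) hn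
    · exact h
  exact (ord_eq_zero_iff w (Units.mk0 z hz0)).1 h3

/-- the values of `1 - ζ ^ a` -/
theorem kumc_zeta_le {F : Type} [Field F] [NumberField F] (w : Pl F) {p : ℕ} (hp : p.Prime) {ζ : F}
    (hζ : IsPrimitiveRoot ζ p) (a : ℕ) : w.valuation F (1 - ζ ^ a) ≤ w.valuation F (ζ - 1) := by
  have h1 : w.valuation F ζ = 1 := kumc_root w hp.ne_zero hζ.pow_eq_one
  have h2 : (1 : F) - ζ ^ a = -((ζ - 1) * ∑ i ∈ Finset.range a, ζ ^ i) := by
    rw [mul_geom_sum]
    ring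
  rw [h2, Valuation.map_neg, map_mul]
  have h3 : w.valuation F (∑ i ∈ Finset.range a, ζ ^ i) ≤ 1 := by
    refine Valuation.map_sum_le _ fun i _ => ?_
    rw [map_pow, h1, one_pow]
  calc w.valuation F (ζ - 1) * w.valuation F (∑ i ∈ Finset.range a, ζ ^ i)
      ≤ w.valuation F (ζ - 1) * 1 := mul_le_mul_right h3 _
    _ = w.valuation F (ζ - 1) := mul_one _

theorem kumc_p_le {F : Type} [Field F] [NumberField F] (w : Pl F) {p : ℕ} (hp : p.Prime) {ζ : F}
    (hζ : IsPrimitiveRoot ζ p) : w.valuation F (p : F) ≤ w.valuation F (ζ - 1) ^ (p - 1) := by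
  obtain ⟨n, rfl⟩ : ∃ n, p = n + 1 := ⟨p - 1, by have := hp.pos; omega⟩
  have h1 := hζ.prod_one_sub_pow_eq_order
  have h2 : (((n + 1 : ℕ) : F)) = ∏ k ∈ Finset.range n, (1 - ζ ^ (k + 1)) := by
    rw [h1]
    push_cast
    ring
  rw [h2, map_prod, Nat.add_sub_cancel]
  have h3 := Finset.prod_le_pow_card (Finset.range n)
    (fun k => w.valuation F (1 - ζ ^ (k + 1))) (w.valuation F (ζ - 1))
    (fun k _ => kumc_zeta_le w hp hζ (k + 1))
  rwa [Finset.card_range] at h3

theorem kumc_zeta_one {F : Type} [Field F] [NumberField F] {w : Pl F} {p : ℕ} (hp : p.Prime)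
    {ζ : F} (hζ : IsPrimitiveRoot ζ p) (hw : ¬ Above p w) : w.valuation F (ζ - 1) = 1 := by
  rw [above_iff, not_lt] at hw
  have h1 : w.valuation F ζ = 1 := kumc_root w hp.ne_zero hζ.pow_eq_one
  have h2 : w.valuation F (ζ - 1) ≤ 1 := by
    refine (Valuation.map_sub _ _ _).trans ?_
    rw [h1, map_one, max_self]
  refine le_antisymm h2 ?_
  by_contra hlt
  rw [not_le] at hlt
  have h3 := hw.trans (kumc_p_le w hp hζ)
  have h4 : p - 1 ≠ 0 := by
    have := hp.two_le
    omega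
  have h5 : w.valuation F (ζ - 1) ^ (p - 1) < 1 := pow_lt_one₀ zero_le hlt h4
  exact absurd h3 (not_le.2 h5)

end kumcaux

variable {K : Type} [Field K] [NumberField K] {L : Type} [Field L] [NumberField L] [Algebra K L]
  {p : ℕ} (hp : p.Prime) {ζ : K} (hζ : IsPrimitiveRoot ζ p) {c : Kˣ} (H : Kum p K ζ c L)

include hp hζ H

theorem kumc_val_σ {v : Pl K} (hg : {w : Pl L | Over w v}.ncard = 1) {w : Pl L} (h : Over w v)
    (x : L) : w.valuation L (H.σ x) = w.valuation L x := by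
  by_cases hx : x = 0
  · rw [hx, map_zero]
  · have h1 := nonsplit_stable hp hζ H hg h (Units.mk0 x hx)
    have h2 := val_eq w (au H.σ (Units.mk0 x hx))
    have h3 := val_eq w (Units.mk0 x hx)
    rw [Units.val_mk0] at h3
    have h4 : ((au H.σ (Units.mk0 x hx) : Lˣ) : L) = H.σ x := rfl
    rw [h4, h1] at h2
    rw [h2, h3]

theorem kumc_core {v : Pl K} (y : Kˣ)
    (hy : v.valuation K (((c * (y ^ p)⁻¹ : Kˣ) : K) - 1) < v.valuation K (ζ - 1) ^ p) :
    {w : Pl L | Over w v}.ncard = p := by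
  rcases card_over hp hζ H v with h1 | h1
  swap
  · exact h1
  exfalso
  obtain ⟨w, hw⟩ := exists_over (L := L) v
  obtain ⟨c', hc'⟩ : ∃ c' : Kˣ, c' = c * (y ^ p)⁻¹ := ⟨_, rfl⟩
  obtain ⟨g, hg⟩ : ∃ g : L, g = (H.γ : L) * (algebraMap K L y)⁻¹ := ⟨_, rfl⟩
  obtain ⟨z, hz⟩ : ∃ z : L, z = algebraMap K L ζ := ⟨_, rfl⟩
  have hζL : IsPrimitiveRoot z p := by
    rw [hz]
    exact hζ.map_of_injective (algebraMap K L).injective
  have hgp : g ^ p = algebraMap K L c' := by
    rw [hg, hc', mul_pow, H.hγ, inv_pow, Units.val_mul, Units.val_inv_eq_inv_val,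
      Units.val_pow_eq_pow_val, map_mul, map_inv₀, map_pow]
  have hval : w.valuation L (g ^ p - 1) < w.valuation L (z - 1) ^ p := by
    rw [← hc', ← map_pow] at hy
    have h2 := kumc_lt hw _ _ hy
    have e1 : algebraMap K L ((c' : K) - 1) = g ^ p - 1 := by
      rw [map_sub (algebraMap K L), map_one (algebraMap K L), hgp]
    have e2 : algebraMap K L ((ζ - 1) ^ p) = (z - 1) ^ p := by
      rw [map_pow (algebraMap K L), map_sub (algebraMap K L), map_one (algebraMap K L), hz]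
    rw [e1, e2, map_pow] at h2
    exact h2
  have hprod : g ^ p - 1 = ∏ η ∈ Polynomial.nthRootsFinset p (1 : L), (g - η) := by
    have h3 := hζL.pow_sub_pow_eq_prod_sub_mul g 1 hp.pos
    simpa using h3
  have hex : ∃ η ∈ Polynomial.nthRootsFinset p (1 : L),
      w.valuation L (g - η) < w.valuation L (z - 1) := by
    by_contra hcon
    push Not at hcon
    have h4 := Finset.pow_card_le_prod (Polynomial.nthRootsFinset p (1 : L))
      (fun η => w.valuation L (g - η)) (w.valuation L (z - 1)) hcon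
    rw [hζL.card_nthRootsFinset, ← map_prod, ← hprod] at h4
    exact absurd hval (not_lt.2 h4)
  obtain ⟨η, hη, hlt⟩ := hex
  rw [Polynomial.mem_nthRootsFinset hp.pos] at hη
  have : NeZero p := ⟨hp.ne_zero⟩
  obtain ⟨a, -, ha⟩ := hζL.eq_pow_of_pow_eq_one hη
  have hz1 : w.valuation L z = 1 := kumc_root w hp.ne_zero hζL.pow_eq_one
  have hσg : H.σ g = z * g := by
    rw [hg, map_mul, H.hσ, map_inv₀, AlgEquiv.commutes, hz]
    ring
  have hση : H.σ η = η := by
    rw [← ha, hz, ← map_pow, AlgEquiv.commutes]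
  have h5 : w.valuation L (z * g - η) < w.valuation L (z - 1) := by
    have h6 := kumc_val_σ hp hζ H h1 hw (g - η)
    rw [map_sub, hσg, hση] at h6
    rw [h6]
    exact hlt
  have h7 : w.valuation L (z * (g - η)) < w.valuation L (z - 1) := by
    rw [map_mul, hz1, one_mul]
    exact hlt
  have h8 : w.valuation L (z * g - η - z * (g - η)) < w.valuation L (z - 1) :=
    lt_of_le_of_lt (Valuation.map_sub _ _ _) (max_lt h5 h7)
  have h9 : z * g - η - z * (g - η) = η * (z - 1) := by ring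
  rw [h9, map_mul, kumc_root w hp.ne_zero hη, one_mul] at h8
  exact lt_irrefl _ h8

theorem above_split {v : Pl K} (hv : Above p v) (hc : LocP p v c) :
    {w : Pl L | Over w v}.ncard = p := by
  obtain ⟨y, hy⟩ := hc
  refine kumc_core hp hζ H y (hy.trans_le ?_)
  have h1 := kumc_p_le v hp hζ
  have h2 : v.valuation K (ζ - 1) ≤ 1 := by
    refine (Valuation.map_sub _ _ _).trans ?_
    rw [kumc_root v hp.ne_zero hζ.pow_eq_one, map_one, max_self]
  rw [map_pow]
  calc v.valuation K (p : K) ^ 2 ≤ (v.valuation K (ζ - 1) ^ (p - 1)) ^ 2 :=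
        pow_le_pow_left₀ zero_le h1 2
    _ = v.valuation K (ζ - 1) ^ ((p - 1) * 2) := by rw [pow_mul]
    _ ≤ v.valuation K (ζ - 1) ^ p := by
        refine pow_le_pow_of_le_one zero_le h2 ?_
        have := hp.two_le
        omega

theorem spl_split {v : Pl K} (hv : ¬ Above p v) (hc : Spl p ζ v c) :
    {w : Pl L | Over w v}.ncard = p := by
  obtain ⟨y, hy⟩ := (spl_iff hp hζ hv c).1 hc
  refine kumc_core hp hζ H y ?_
  rw [kumc_zeta_one hp hζ hv, one_pow]
  exact hy

theorem kumc_γ : H.γ ^ p = inc K L c := by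
  apply Units.ext
  rw [Units.val_pow_eq_pow_val]
  exact H.hγ

/-- a `p`-th power locally, from a residue field condition -/
theorem kumc_spl {v : Pl K} (hv : ¬ Above p v) {w : Pl L} (h : Over w v) (t : Kˣ)
    (ht : ord w (H.γ * (inc K L t)⁻¹) = 0)
    (hr : ∀ z : Lˣ, ord w z = 0 → ∃ r : Kˣ, ord v r = 0 ∧ One1 w (z * (inc K L r)⁻¹)) :
    Spl p ζ v c := by
  obtain ⟨r, -, h1⟩ := hr _ ht
  rw [spl_iff hp hζ hv]
  refine ⟨t * r, ?_⟩
  rw [← one1_over h]
  have h2 := one1_zpow h1 (p : ℤ)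
  have h3 : (H.γ * (inc K L t)⁻¹ * (inc K L r)⁻¹) ^ (p : ℤ) =
      inc K L (c * ((t * r) ^ p)⁻¹) := by
    rw [zpow_natCast, mul_pow, mul_pow, kumc_γ hp hζ H, map_mul, map_inv, map_pow, map_mul,
      mul_pow, inv_pow, inv_pow, mul_inv, mul_assoc]
  rwa [h3] at h2

theorem split_spl {v : Pl K} (hv : ¬ Above p v) (hg : {w : Pl L | Over w v}.ncard = p) :
    Spl p ζ v c := by
  obtain ⟨w, hw⟩ := exists_over (L := L) v
  obtain ⟨h1, -, h3⟩ := split_case hp hζ H hg hw
  obtain ⟨π, hπ⟩ := exists_unif v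
  refine kumc_spl hp hζ H hv hw (π ^ ord w H.γ) ?_ h3
  rw [ord_mul, ord_inv, h1, ord_zpow, hπ]
  ring

theorem kumc_ord {w : Pl L} : p * ord w H.γ = ord w (inc K L c) := by
  rw [← kumc_γ hp hζ H, ord_pow]

/-- ramified primes: `e = p` and the residue fields agree -/
theorem ram_case {v : Pl K} (hv : ¬ Above p v) (hc : ¬ (p : ℤ) ∣ ord v c) {w : Pl L}
    (h : Over w v) :
    {w : Pl L | Over w v}.ncard = 1 ∧ (∀ x : Kˣ, ord w (inc K L x) = p * ord v x) ∧
      ∀ z : Lˣ, ord w z = 0 → ∃ r : Kˣ, ord v r = 0 ∧ One1 w (z * (inc K L r)⁻¹) := by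
  have key : ¬ ∀ x : Kˣ, ord w (inc K L x) = ord v x := by
    intro h1
    apply hc
    rw [← h1 c, ← kumc_ord hp hζ H]
    exact dvd_mul_right _ _
  rcases card_over hp hζ H v with h1 | h1
  · refine ⟨h1, ?_⟩
    rcases nonsplit_case hp hζ H h1 h with h2 | h2
    · exact ⟨h2.1, h2.2.2⟩
    · exact absurd h2.1 key
  · exact absurd (split_case hp hζ H h1 h).1 key

theorem kumc_nonsplit {v : Pl K} (hv : ¬ Above p v) (hc : (p : ℤ) ∣ ord v c) {w : Pl L}
    (h : Over w v) (h1 : ∀ x : Kˣ, ord w (inc K L x) = p * ord v x)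
    (h3 : ∀ z : Lˣ, ord w z = 0 → ∃ r : Kˣ, ord v r = 0 ∧ One1 w (z * (inc K L r)⁻¹)) :
    Spl p ζ v c := by
  obtain ⟨k, hk⟩ := hc
  obtain ⟨π, hπ⟩ := exists_unif v
  refine kumc_spl hp hζ H hv h (π ^ k) ?_ h3
  have h4 := kumc_ord hp hζ H (w := w)
  rw [h1] at h4
  have h5 : (p : ℤ) ≠ 0 := by exact_mod_cast hp.ne_zero
  have h6 := mul_left_cancel₀ h5 h4
  rw [ord_mul, ord_inv, h1, ord_zpow, hπ, h6, hk]
  ring

/-- unramified primes: `e = 1` -/
theorem unram_case {v : Pl K} (hv : ¬ Above p v) (hc : (p : ℤ) ∣ ord v c) {w : Pl L}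
    (h : Over w v) (x : Kˣ) : ord w (inc K L x) = ord v x := by
  rcases card_over hp hζ H v with h1 | h1
  · rcases nonsplit_case hp hζ H h1 h with h2 | h2
    · have h3 := spl_split hp hζ H hv (kumc_nonsplit hp hζ H hv hc h h2.1 h2.2.2)
      rw [h1] at h3
      exact absurd h3.symm hp.one_lt.ne'
    · exact h2.1 x
  · exact (split_case hp hζ H h1 h).1 x

/-- inert primes -/
theorem inert_case {v : Pl K} (hv : ¬ Above p v) (hc : (p : ℤ) ∣ ord v c) (hs : ¬ Spl p ζ v c)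
    {w : Pl L} (h : Over w v) : {w : Pl L | Over w v}.ncard = 1 ∧ nm w = nm v ^ p := by
  rcases card_over hp hζ H v with h1 | h1
  · refine ⟨h1, ?_⟩
    rcases nonsplit_case hp hζ H h1 h with h2 | h2
    · exact absurd (kumc_nonsplit hp hζ H hv hc h h2.1 h2.2.2) hs
    · exact h2.2
  · exact absurd (split_spl hp hζ H hv h1) hs

end H63.MA
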