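import Pool.Agent.H63.MA.Den
import Pool.Agent.H63.MA.PzS

/-!
# MA-UNI: uniqueness, independence and collinearity of the relations

`IsRel c k` gives the family `β = k · B c` (`fam_of_rel`), which vanishes at all `v` with `Spl v c`.
* `rel_unique`: let `k, k'` be relations for `c` (not a `p`-th power). If `β, β'` were independent, `den_fam` with `m = 2` would
  give `p² PZ(Spl c) ≤ log + C`, but `p PZ(Spl c) = log + O(1)` (`pz_spl`) and `log (1/(s-1)) → ∞`. So `a β + a' β' = 0` with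
  `(a, a') ≠ 0`; at a `v` which is not `Spl` choose `x` with `B v c x ≠ 0`: `a k v + a' k' v = 0`; at the other `v` both are `0`.
* `rel_indep`: `c, c'` independent (`Ind2`), `k, k'` nonzero relations. `β ≠ 0`, `β' ≠ 0` (nonzero `k v` at a non-`Spl` `v`). If
  `a β + a' β' = 0` with `(a, a') ≠ 0`, then both `a, a' ≠ 0` and `β` vanishes at all `v` with `Spl v c` or `Spl v c'`. By `den_fam` with
  `m = 1`: `p PZ(Spl c ∪ Spl c') ≤ log + C`; but `PZ(∪) = PZ(Spl c) + PZ(Spl c') - PZ(Spl c ∩ Spl c') = (2/p - 1/p²) log + O(1)`,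
  and `2 - 1/p > 1`.
* `rel_col`: `k''` a nonzero relation for `c c'`. All three families vanish at the `v` with `Spl v c` and `Spl v c'`; if they were
  independent, `p³ PZ ≤ log + C`, but `p² PZ = log + O(1)`. So `a β + a' β' + a'' β'' = 0` with `(a,a',a'') ≠ 0`, and
  `a'' ≠ 0` by `rel_indep`.
-/

set_option autoImplicit false

open scoped NumberField
open IsDedekindDomain

noncomputable section

namespace H63.MA

theorem uni_contra {n : ℝ} (hn : 0 < n) (C : ℝ)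
    (h : ∀ s : ℝ, 1 < s → s ≤ 2 → n * Real.log (1 / (s - 1)) ≤ C) : False := by
  set t : ℝ := |C / n| + 1 with ht
  have ht0 : 0 < t := by positivity
  have h1 : Real.exp (-t) ≤ 1 := Real.exp_le_one_iff.2 (by linarith)
  have h2 := h (1 + Real.exp (-t)) (by linarith [Real.exp_pos (-t)]) (by linarith)
  rw [add_sub_cancel_left, one_div, ← Real.exp_neg, neg_neg, Real.log_exp] at h2
  have h3 : C / n ≤ |C / n| := le_abs_self _
  have h4 : C / n < t := by linarith
  rw [div_lt_iff₀ hn] at h4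
  linarith

theorem uni_ind_left {F : Type} [Field F] {p : ℕ} (hp : p.Prime) {c c' : Fˣ}
    (hc : ∀ i j : ℤ, IsPow p (c ^ i * c' ^ j) → (p : ℤ) ∣ i ∧ (p : ℤ) ∣ j) : ¬ IsPow p c := by
  intro h
  have h1 := (hc 1 0 (by rwa [zpow_one, zpow_zero, mul_one])).1
  have h2 : (p : ℤ) ≤ 1 := Int.le_of_dvd one_pos h1
  have := hp.one_lt
  omega

theorem uni_ind_right {F : Type} [Field F] {p : ℕ} (hp : p.Prime) {c c' : Fˣ}
    (hc : ∀ i j : ℤ, IsPow p (c ^ i * c' ^ j) → (p : ℤ) ∣ i ∧ (p : ℤ) ∣ j) : ¬ IsPow p c' := by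
  intro h
  have h1 := (hc 0 1 (by rwa [zpow_one, zpow_zero, one_mul])).2
  have h2 : (p : ℤ) ≤ 1 := Int.le_of_dvd one_pos h1
  have := hp.one_lt
  omega

variable {K : Type} [Field K] [NumberField K] {p : ℕ} (hp : p.Prime) {ζ : K}
  (hζ : IsPrimitiveRoot ζ p)

theorem uni_notspl {c : Kˣ} {k : Pl K → ZMod p} (h : IsRel p ζ c k) {v : Pl K} (hv : k v ≠ 0) :
    ¬ Above p v ∧ ∃ x, B p ζ v c x ≠ 0 := by
  refine ⟨fun ha => hv (h.1 v (Or.inl ha)), ?_⟩
  by_contra hcon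
  push Not at hcon
  exact hv (h.1 v (Or.inr hcon))

include hp hζ

theorem rel_unique {c : Kˣ} (hc : ¬ IsPow p c) {k k' : Pl K → ZMod p} (h : IsRel p ζ c k)
    (h' : IsRel p ζ c k') :
    ∃ a a' : ZMod p, (a ≠ 0 ∨ a' ≠ 0) ∧ ∀ v, a * k v + a' * k' v = 0 := by
  classical
  have : Fact p.Prime := ⟨hp⟩
  set β : Fin 2 → Pl K → Kˣ → ZMod p :=
    ![fun v x => k v * B p ζ v c x, fun v x => k' v * B p ζ v c x] with hβdef
  have hβ : ∀ i, IsFam p (β i) := by
    intro i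
    fin_cases i
    · exact fam_of_rel hp hζ h
    · exact fam_of_rel hp hζ h'
  by_cases hind : ∀ a : Fin 2 → ZMod p, (∀ v x, ∑ i, a i * β i v x = 0) → a = 0
  · exfalso
    obtain ⟨C, hC⟩ := den_fam hp β hβ hind
    obtain ⟨C', hC'⟩ := pz_spl hp hζ hc
    have hp1 : (1 : ℝ) < p := by exact_mod_cast hp.one_lt
    refine uni_contra (n := (p : ℝ) - 1) (by linarith) (C + p * C') fun s hs hs2 => ?_
    have h1 := hC s hs hs2
    have h2 := (abs_le.1 (hC' s hs hs2)).1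
    have h3 : PZ {v : Pl K | ¬ Above p v ∧ Spl p ζ v c} s ≤
        PZ {v : Pl K | ∀ i, ∀ x, β i v x = 0} s := by
      refine pz_mono ?_ hs
      rintro v ⟨-, hv⟩ i x
      fin_cases i
      · show k v * B p ζ v c x = 0
        rw [hv x, mul_zero]
      · show k' v * B p ζ v c x = 0
        rw [hv x, mul_zero]
    have h4 := mul_le_mul_of_nonneg_left h3 (by positivity : (0 : ℝ) ≤ (p : ℝ) ^ 2)
    nlinarith
  · push Not at hind
    obtain ⟨a, ha, ha0⟩ := hind
    refine ⟨a 0, a 1, ?_, fun v => ?_⟩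
    · by_contra hcon
      push Not at hcon
      apply ha0
      funext i
      fin_cases i
      · exact hcon.1
      · exact hcon.2
    · by_cases hv : Above p v ∨ Spl p ζ v c
      · rw [h.1 v hv, h'.1 v hv, mul_zero, mul_zero, add_zero]
      · rw [not_or] at hv
        have hx : ∃ x, B p ζ v c x ≠ 0 := by
          by_contra hcon
          push Not at hcon
          exact hv.2 hcon
        obtain ⟨x, hx⟩ := hx
        have h1 := ha v x
        rw [Fin.sum_univ_two] at h1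
        have h2 : a 0 * (k v * B p ζ v c x) + a 1 * (k' v * B p ζ v c x) = 0 := h1
        have h3 : (a 0 * k v + a 1 * k' v) * B p ζ v c x = 0 := by
          rw [← h2]
          ring
        exact (mul_eq_zero.1 h3).resolve_right hx

theorem rel_indep {c c' : Kˣ} (hc : Ind2 p c c') {k k' : Pl K → ZMod p} (h : IsRel p ζ c k)
    (h' : IsRel p ζ c' k') (hk : ∃ v, k v ≠ 0) (hk' : ∃ v, k' v ≠ 0) (a a' : ZMod p)
    (h0 : ∀ v x, a * (k v * B p ζ v c x) + a' * (k' v * B p ζ v c' x) = 0) : a = 0 ∧ a' = 0 := by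
  classical
  have : Fact p.Prime := ⟨hp⟩
  obtain ⟨v0, hv0⟩ := hk
  obtain ⟨hv0a, x0, hx0⟩ := uni_notspl h hv0
  obtain ⟨v1, hv1⟩ := hk'
  obtain ⟨hv1a, x1, hx1⟩ := uni_notspl h' hv1
  by_cases ha : a = 0
  · refine ⟨ha, ?_⟩
    have h1 := h0 v1 x1
    rw [ha, zero_mul, zero_add] at h1
    exact (mul_eq_zero.1 h1).resolve_right (mul_ne_zero hv1 hx1)
  by_cases ha' : a' = 0
  · refine ⟨?_, ha'⟩
    have h1 := h0 v0 x0
    rw [ha', zero_mul, add_zero] at h1
    exact (mul_eq_zero.1 h1).resolve_right (mul_ne_zero hv0 hx0)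
  exfalso
  set β : Fin 1 → Pl K → Kˣ → ZMod p := fun _ v x => k v * B p ζ v c x with hβdef
  have hβ : ∀ i, IsFam p (β i) := fun _ => fam_of_rel hp hζ h
  obtain ⟨C, hC⟩ := den_fam hp β hβ (by
    intro b hb
    have h1 := hb v0 x0
    rw [Fin.sum_univ_one] at h1
    funext i
    have hi : i = 0 := Subsingleton.elim _ _
    rw [hi]
    exact (mul_eq_zero.1 h1).resolve_right (mul_ne_zero hv0 hx0))
  obtain ⟨C1, hC1⟩ := pz_spl hp hζ (uni_ind_left hp hc)
  obtain ⟨C2, hC2⟩ := pz_spl hp hζ (uni_ind_right hp hc)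
  obtain ⟨C3, hC3⟩ := pz_spl2 hp hζ hc
  have hp1 : (1 : ℝ) < p := by exact_mod_cast hp.one_lt
  refine uni_contra (n := (p : ℝ) - 1) (by linarith) (p * C + p * C1 + p * C2 + C3)
    fun s hs hs2 => ?_
  have h1 := hC s hs hs2
  have e1 := (abs_le.1 (hC1 s hs hs2)).1
  have e2 := (abs_le.1 (hC2 s hs hs2)).1
  have e3 := (abs_le.1 (hC3 s hs hs2)).2
  have hadd := pz_add {v : Pl K | ¬ Above p v ∧ Spl p ζ v c} {v : Pl K | ¬ Above p v ∧ Spl p ζ v c'} hs
  have hinter : ({v : Pl K | ¬ Above p v ∧ Spl p ζ v c} ∩ {v : Pl K | ¬ Above p v ∧ Spl p ζ v c'}) =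
      {v : Pl K | ¬ Above p v ∧ Spl p ζ v c ∧ Spl p ζ v c'} := by
    ext v
    simp only [Set.mem_inter_iff, Set.mem_ofPred_eq]
    tauto
  rw [hinter] at hadd
  have hsub : PZ ({v : Pl K | ¬ Above p v ∧ Spl p ζ v c} ∪
      {v : Pl K | ¬ Above p v ∧ Spl p ζ v c'}) s ≤ PZ {v : Pl K | ∀ i, ∀ x, β i v x = 0} s := by
    refine pz_mono ?_ hs
    rintro v (⟨-, hv⟩ | ⟨-, hv⟩) i x
    · show k v * B p ζ v c x = 0
      rw [hv x, mul_zero]
    · show k v * B p ζ v c x = 0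
      have h2 := h0 v x
      rw [hv x, mul_zero, mul_zero, add_zero] at h2
      exact (mul_eq_zero.1 h2).resolve_left ha
  set L := Real.log (1 / (s - 1)) with hL
  set PU := PZ ({v : Pl K | ¬ Above p v ∧ Spl p ζ v c} ∪
      {v : Pl K | ¬ Above p v ∧ Spl p ζ v c'}) s with hPU
  set P1 := PZ {v : Pl K | ¬ Above p v ∧ Spl p ζ v c} s with hP1
  set P2 := PZ {v : Pl K | ¬ Above p v ∧ Spl p ζ v c'} s with hP2
  set P3 := PZ {v : Pl K | ¬ Above p v ∧ Spl p ζ v c ∧ Spl p ζ v c'} s with hP3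
  set PB := PZ {v : Pl K | ∀ i, ∀ x, β i v x = 0} s with hPB
  rw [pow_one] at h1
  have hp0 : (0 : ℝ) < p := by linarith
  have f1 : (p : ℝ) * ((p : ℝ) * PB) ≤ p * (L + C) := mul_le_mul_of_nonneg_left h1 hp0.le
  have f2 : (p : ℝ) * ((p : ℝ) * PU) ≤ (p : ℝ) * ((p : ℝ) * PB) :=
    mul_le_mul_of_nonneg_left (mul_le_mul_of_nonneg_left hsub hp0.le) hp0.le
  have f3 : (p : ℝ) * (L - C1) ≤ p * (p * P1) := mul_le_mul_of_nonneg_left (by linarith) hp0.le
  have f4 : (p : ℝ) * (L - C2) ≤ p * (p * P2) := mul_le_mul_of_nonneg_left (by linarith) hp0.le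
  have f5 : (p : ℝ) * ((p : ℝ) * PU) = p * (p * P1) + p * (p * P2) - p ^ 2 * P3 := by
    have : PU = P1 + P2 - P3 := by linarith
    rw [this]
    ring
  nlinarith

theorem rel_col {c c' : Kˣ} (hc : Ind2 p c c') {k k' k'' : Pl K → ZMod p} (h : IsRel p ζ c k)
    (h' : IsRel p ζ c' k') (h'' : IsRel p ζ (c * c') k'') (hk : ∃ v, k v ≠ 0)
    (hk' : ∃ v, k' v ≠ 0) (hk'' : ∃ v, k'' v ≠ 0) :
    ∃ a a' : ZMod p, ∀ v x, k'' v * B p ζ v (c * c') x =
      a * (k v * B p ζ v c x) + a' * (k' v * B p ζ v c' x) := by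
  classical
  have : Fact p.Prime := ⟨hp⟩
  have _hk := hk''
  set β : Fin 3 → Pl K → Kˣ → ZMod p :=
    ![fun v x => k v * B p ζ v c x, fun v x => k' v * B p ζ v c' x,
      fun v x => k'' v * B p ζ v (c * c') x] with hβdef
  have hβ : ∀ i, IsFam p (β i) := by
    intro i
    fin_cases i
    · exact fam_of_rel hp hζ h
    · exact fam_of_rel hp hζ h'
    · exact fam_of_rel hp hζ h''
  by_cases hind : ∀ a : Fin 3 → ZMod p, (∀ v x, ∑ i, a i * β i v x = 0) → a = 0
  · exfalso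
    obtain ⟨C, hC⟩ := den_fam hp β hβ hind
    obtain ⟨C', hC'⟩ := pz_spl2 hp hζ hc
    have hp1 : (1 : ℝ) < p := by exact_mod_cast hp.one_lt
    refine uni_contra (n := (p : ℝ) - 1) (by linarith) (C + p * C') fun s hs hs2 => ?_
    have h1 := hC s hs hs2
    have h2 := (abs_le.1 (hC' s hs hs2)).1
    have h3 : PZ {v : Pl K | ¬ Above p v ∧ Spl p ζ v c ∧ Spl p ζ v c'} s ≤
        PZ {v : Pl K | ∀ i, ∀ x, β i v x = 0} s := by
      refine pz_mono ?_ hs
      rintro v ⟨hva, hv, hv'⟩ i x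
      fin_cases i
      · show k v * B p ζ v c x = 0
        rw [hv x, mul_zero]
      · show k' v * B p ζ v c' x = 0
        rw [hv' x, mul_zero]
      · show k'' v * B p ζ v (c * c') x = 0
        rw [B_mul_left hp hζ hva, hv x, hv' x, add_zero, mul_zero]
    have hp0 : (0 : ℝ) < p := by linarith
    have h4 := mul_le_mul_of_nonneg_left h3 (by positivity : (0 : ℝ) ≤ (p : ℝ) ^ 3)
    have h5 : (p : ℝ) * (Real.log (1 / (s - 1)) - C') ≤
        p * ((p : ℝ) ^ 2 * PZ {v : Pl K | ¬ Above p v ∧ Spl p ζ v c ∧ Spl p ζ v c'} s) :=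
      mul_le_mul_of_nonneg_left (by linarith) hp0.le
    have h6 : (p : ℝ) ^ 3 * PZ {v : Pl K | ¬ Above p v ∧ Spl p ζ v c ∧ Spl p ζ v c'} s =
        p * ((p : ℝ) ^ 2 * PZ {v : Pl K | ¬ Above p v ∧ Spl p ζ v c ∧ Spl p ζ v c'} s) := by ring
    nlinarith
  · push Not at hind
    obtain ⟨a, ha, ha0⟩ := hind
    have hsum : ∀ v x, a 0 * (k v * B p ζ v c x) + a 1 * (k' v * B p ζ v c' x) +
        a 2 * (k'' v * B p ζ v (c * c') x) = 0 := by
      intro v x
      have h1 := ha v x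
      rw [Fin.sum_univ_three] at h1
      exact h1
    have ha2 : a 2 ≠ 0 := by
      intro h2
      have h3 := rel_indep hp hζ hc h h' hk hk' (a 0) (a 1) (fun v x => by
        have h4 := hsum v x
        rwa [h2, zero_mul, add_zero] at h4)
      apply ha0
      funext i
      fin_cases i
      · exact h3.1
      · exact h3.2
      · exact h2
    refine ⟨-(a 2)⁻¹ * a 0, -(a 2)⁻¹ * a 1, fun v x => ?_⟩
    have h1 := hsum v x
    have h2 : k'' v * B p ζ v (c * c') x =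
        (a 2)⁻¹ * (a 2 * (k'' v * B p ζ v (c * c') x)) := by
      rw [← mul_assoc, inv_mul_cancel₀ ha2, one_mul]
    have h3 : a 2 * (k'' v * B p ζ v (c * c') x) =
        -(a 0 * (k v * B p ζ v c x) + a 1 * (k' v * B p ζ v c' x)) := by
      rw [eq_neg_iff_add_eq_zero, add_comm]
      exact h1
    rw [h2, h3]
    ring

end H63.MA
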