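import Pool.Agent.H63.MA.SymA

/-!
# MA-SYMB: the residue symbol `lg`

`v ∤ p`, `ζ ∈ K` a primitive `p`-th root of unity. The residue field `k = 𝓞 K / v` has `q = nm v` elements.
* `dvd_nm`: the powers `ζ ^ a`, `a < p`, are pairwise different modulo `v`: otherwise `ζ ^ a ≡ 1` for some
  `0 < a < p`, but `∏_{0<a<p} (1 - ζ ^ a) = p` (`IsPrimitiveRoot...`, or: `X ^ p - 1` is separable modulo `v` as `p` is
  invertible: derivative `p X^{p-1}`), so `k^*` has an element of order `p`, and `p ∣ q - 1`.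
* `lg_spec`, `lg_unique`: for `v (z) = 1` the residue class of `z` (via `exists_int`/`exists_primeCompl_mul_eq_of_integer`:
  `z = a / s` with `a s ∉ v`; or work with the valuation directly) satisfies `z ^ (q - 1) ≡ 1`, hence
  `t := z ^ ((q - 1) / p)` is a root of `X ^ p - 1 = ∏ (X - ζ ^ a)` modulo `v`, so `v (t - ζ ^ a) < 1` for some `a < p`; it
  is unique by the first point. The multiplicative statements follow from uniqueness, note
  `ζ ^ (a + b).val = ζ ^ a.val * ζ ^ b.val`.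
* `lg_of_one1`: `z ≡ 1` gives `z ^ m ≡ 1`.
* `lg_eq_zero_iff`: `k^*` is cyclic of order `q - 1` and `p ∣ q - 1`, so `z ^ ((q-1)/p) = 1` in `k^*` iff `z` is a
  `p`-th power in `k^*`; lift the root to `y : Kˣ` (nonzero, in `𝓞 K`).
* `exists_lg`: a generator `g` of `k^*` has `g ^ ((q-1)/p)` of order `p`, so `lg g = a ≠ 0`; take a power of `g`.
* `lg_neg_one`: `-1 = (-1)^p` for odd `p`.
-/

set_option autoImplicit false

open scoped NumberField
open IsDedekindDomain

noncomputable section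

namespace H63.MA

variable {K : Type} [Field K] [NumberField K]

/-- the residue field of `v` -/
abbrev symbK (v : Pl K) : Type := 𝓞 K ⧸ v.asIdeal

local instance symb_max (v : Pl K) : v.asIdeal.IsMaximal := v.isMaximal

local instance symb_field (v : Pl K) : Field (symbK v) := Ideal.Quotient.field v.asIdeal

local instance symb_finite (v : Pl K) : Finite (symbK v) := Ideal.finiteQuotientOfFreeOfNeBot _ v.ne_bot

theorem symb_card (v : Pl K) : Nat.card (symbK v) = nm v := by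
  unfold nm
  rw [Ideal.absNorm_apply, Submodule.cardQuot_apply]

theorem symb_mem (v : Pl K) (a : 𝓞 K) :
    v.valuation K (algebraMap (𝓞 K) K a) < 1 ↔ a ∈ v.asIdeal :=
  v.valuation_lt_one_iff_mem a

open Classical in
/-- the residue class of an element of `K` -/
def symb_rs (v : Pl K) (z : K) : symbK v :=
  if h : ∃ a : 𝓞 K, v.valuation K (algebraMap (𝓞 K) K a - z) < 1 then
    Ideal.Quotient.mk v.asIdeal h.choose else 0

theorem symb_rs_eq (v : Pl K) (z : K) (a : 𝓞 K)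
    (h : v.valuation K (algebraMap (𝓞 K) K a - z) < 1) :
    symb_rs v z = Ideal.Quotient.mk v.asIdeal a := by
  have h1 : ∃ a : 𝓞 K, v.valuation K (algebraMap (𝓞 K) K a - z) < 1 := ⟨a, h⟩
  unfold symb_rs
  rw [dif_pos h1, Ideal.Quotient.mk_eq_mk_iff_sub_mem,
    ← symb_mem]
  have h2 := h1.choose_spec
  have h3 : algebraMap (𝓞 K) K (h1.choose - a) =
      (algebraMap (𝓞 K) K h1.choose - z) - (algebraMap (𝓞 K) K a - z) := by
    rw [map_sub]
    ring
  rw [h3]
  exact lt_of_le_of_lt (Valuation.map_sub _ _ _) (max_lt h2 h)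

theorem symb_exists (v : Pl K) (z : K) (hz : v.valuation K z ≤ 1) :
    ∃ a : 𝓞 K, v.valuation K (algebraMap (𝓞 K) K a - z) < 1 := by
  obtain ⟨a, ha⟩ := v.exists_valuation_sub_lt_of_integer hz 1
  exact ⟨a, by simpa using ha⟩

theorem symb_rs_int (v : Pl K) (a : 𝓞 K) :
    symb_rs v (algebraMap (𝓞 K) K a) = Ideal.Quotient.mk v.asIdeal a := by
  apply symb_rs_eq
  rw [sub_self, map_zero]
  exact zero_lt_one

theorem symb_rs_one (v : Pl K) : symb_rs v (1 : K) = 1 := by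
  have h := symb_rs_int v 1
  rwa [map_one, map_one] at h

theorem symb_rs_mul (v : Pl K) {z w : K} (hz : v.valuation K z ≤ 1) (hw : v.valuation K w ≤ 1) :
    symb_rs v (z * w) = symb_rs v z * symb_rs v w := by
  obtain ⟨a, ha⟩ := symb_exists v z hz
  obtain ⟨b, hb⟩ := symb_exists v w hw
  rw [symb_rs_eq v z a ha, symb_rs_eq v w b hb, ← map_mul]
  apply symb_rs_eq
  have h1 : algebraMap (𝓞 K) K (a * b) - z * w =
      algebraMap (𝓞 K) K a * (algebraMap (𝓞 K) K b - w) + (algebraMap (𝓞 K) K a - z) * w := by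
    rw [map_mul]
    ring
  rw [h1]
  refine lt_of_le_of_lt (Valuation.map_add _ _ _) (max_lt ?_ ?_)
  · rw [map_mul]
    exact mul_lt_one_of_nonneg_of_lt_one_right (v.valuation_le_one a) zero_le hb
  · rw [map_mul]
    exact mul_lt_one_of_nonneg_of_lt_one_left zero_le ha hw

theorem symb_rs_pow (v : Pl K) {z : K} (hz : v.valuation K z ≤ 1) (n : ℕ) :
    symb_rs v (z ^ n) = symb_rs v z ^ n := by
  induction n with
  | zero => rw [pow_zero, pow_zero, symb_rs_one]
  | succ n ih =>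
    rw [pow_succ, symb_rs_mul v (by rw [map_pow]; exact pow_le_one' hz n) hz, ih, pow_succ]

theorem symb_rs_eq_iff (v : Pl K) {z w : K} (hz : v.valuation K z ≤ 1)
    (hw : v.valuation K w ≤ 1) : symb_rs v z = symb_rs v w ↔ v.valuation K (z - w) < 1 := by
  obtain ⟨a, ha⟩ := symb_exists v z hz
  obtain ⟨b, hb⟩ := symb_exists v w hw
  rw [symb_rs_eq v z a ha, symb_rs_eq v w b hb, Ideal.Quotient.mk_eq_mk_iff_sub_mem,
    ← symb_mem, map_sub (algebraMap (𝓞 K) K)]
  constructor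
  · intro h
    have h1 : z - w = (algebraMap (𝓞 K) K a - algebraMap (𝓞 K) K b) -
        (algebraMap (𝓞 K) K a - z) + (algebraMap (𝓞 K) K b - w) := by ring
    rw [h1]
    refine lt_of_le_of_lt (Valuation.map_add _ _ _) (max_lt ?_ hb)
    exact lt_of_le_of_lt (Valuation.map_sub _ _ _) (max_lt h ha)
  · intro h
    have h1 : algebraMap (𝓞 K) K a - algebraMap (𝓞 K) K b =
        (z - w) + (algebraMap (𝓞 K) K a - z) - (algebraMap (𝓞 K) K b - w) := by ring
    rw [h1]
    refine lt_of_le_of_lt (Valuation.map_sub _ _ _) (max_lt ?_ hb)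
    exact lt_of_le_of_lt (Valuation.map_add _ _ _) (max_lt h ha)

theorem symb_rs_zero (v : Pl K) : symb_rs v (0 : K) = 0 := by
  have h := symb_rs_int v 0
  rwa [map_zero, map_zero] at h

theorem symb_rs_ne (v : Pl K) {z : K} (hz : v.valuation K z = 1) : symb_rs v z ≠ 0 := by
  intro h
  rw [← symb_rs_zero v, symb_rs_eq_iff v hz.le (by rw [map_zero]; exact zero_le), sub_zero,
    hz] at h
  exact lt_irrefl _ h

theorem symb_lift (v : Pl K) (x : symbK v) (hx : x ≠ 0) :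
    ∃ z : Kˣ, ord v z = 0 ∧ symb_rs v (z : K) = x := by
  obtain ⟨a, rfl⟩ := Ideal.Quotient.mk_surjective x
  have ha : a ∉ v.asIdeal := fun h => hx (Ideal.Quotient.eq_zero_iff_mem.2 h)
  have ha0 : algebraMap (𝓞 K) K a ≠ 0 := by
    intro h
    apply ha
    have h1 : a = 0 := by
      apply FaithfulSMul.algebraMap_injective (𝓞 K) K
      rw [h, map_zero]
    rw [h1]
    exact v.asIdeal.zero_mem
  refine ⟨Units.mk0 _ ha0, ?_, ?_⟩
  · rw [ord_eq_zero_iff]
    exact (v.valuation_eq_one_iff_notMem (K := K)).2 ha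
  · exact symb_rs_int v a

section zeta

variable {p : ℕ} (hp : p.Prime) {ζ : K} (hζ : IsPrimitiveRoot ζ p) {v : Pl K}

include hp hζ in
theorem symb_zeta_val : v.valuation K ζ = 1 := by
  have h1 : v.valuation K ζ ^ p = 1 := by
    rw [← map_pow, hζ.pow_eq_one, map_one]
  exact (pow_eq_one_iff.1 h1).resolve_right hp.ne_zero

include hp hζ in
theorem symb_zeta_pow_val (n : ℕ) : v.valuation K (ζ ^ n) = 1 := by
  rw [map_pow, symb_zeta_val hp hζ, one_pow]

include hp hζ in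
theorem symb_zeta (hv : ¬ Above p v) : IsPrimitiveRoot (symb_rs v ζ) p := by
  have : NeZero p := ⟨hp.ne_zero⟩
  have hz1 := symb_zeta_val hp hζ (v := v)
  have h1 : symb_rs v ζ ^ p = 1 := by
    rw [← symb_rs_pow v hz1.le, hζ.pow_eq_one, symb_rs_one]
  have h2 : symb_rs v ζ ≠ 1 := by
    intro h
    have h3 : symb_rs v ζ = Ideal.Quotient.mk v.asIdeal hζ.toInteger := by
      rw [← symb_rs_int]
      rfl
    have h4 : ∑ i ∈ Finset.range p, hζ.toInteger ^ i = 0 :=
      hζ.toInteger_isPrimitiveRoot.geom_sum_eq_zero hp.one_lt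
    have h5 := congrArg (Ideal.Quotient.mk v.asIdeal) h4
    rw [map_sum, map_zero] at h5
    simp only [map_pow] at h5
    rw [← h3, h] at h5
    simp only [one_pow, Finset.sum_const, Finset.card_range, nsmul_eq_mul, mul_one] at h5
    apply hv
    unfold Above
    rw [← Ideal.Quotient.eq_zero_iff_mem, map_natCast]
    exact h5
  have h3 := orderOf_eq_prime (hp := ⟨hp⟩) h1 h2
  have h4 := IsPrimitiveRoot.orderOf (symb_rs v ζ)
  rwa [h3] at h4

end zeta

theorem symb_units_card (v : Pl K) : Nat.card (symbK v)ˣ = nm v - 1 := by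
  rw [Nat.card_units, symb_card]

theorem symb_pow_card (v : Pl K) {x : symbK v} (hx : x ≠ 0) : x ^ (nm v - 1) = 1 := by
  have h1 : (Units.mk0 x hx) ^ (nm v - 1) = 1 := by
    rw [← symb_units_card v]
    exact pow_card_eq_one'
  have h2 := congrArg (fun u : (symbK v)ˣ => (u : symbK v)) h1
  simpa using h2

theorem dvd_nm {p : ℕ} (hp : p.Prime) {ζ : K} (hζ : IsPrimitiveRoot ζ p) {v : Pl K}
    (hv : ¬ Above p v) : p ∣ nm v - 1 := by
  have h1 := symb_zeta hp hζ hv
  exact h1.dvd_of_pow_eq_one _ (symb_pow_card v (symb_rs_ne v (symb_zeta_val hp hζ)))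

theorem symb_ex {p : ℕ} (hp : p.Prime) {ζ : K} (hζ : IsPrimitiveRoot ζ p) {v : Pl K}
    (hv : ¬ Above p v) {z : Kˣ} (hz : ord v z = 0) :
    ∃ a : ZMod p, v.valuation K ((z : K) ^ ((nm v - 1) / p) - ζ ^ a.val) < 1 := by
  have : NeZero p := ⟨hp.ne_zero⟩
  rw [ord_eq_zero_iff] at hz
  have h1 : (symb_rs v (z : K) ^ ((nm v - 1) / p)) ^ p = 1 := by
    rw [← pow_mul, Nat.div_mul_cancel (dvd_nm hp hζ hv), symb_pow_card v (symb_rs_ne v hz)]
  obtain ⟨i, hi, hi2⟩ := (symb_zeta hp hζ hv).eq_pow_of_pow_eq_one h1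
  refine ⟨(i : ZMod p), ?_⟩
  rw [ZMod.val_natCast_of_lt hi, ← symb_rs_eq_iff v (by rw [map_pow, hz, one_pow])
    (by rw [symb_zeta_pow_val hp hζ]), symb_rs_pow v hz.le,
    symb_rs_pow v (symb_zeta_val hp hζ).le, hi2]

theorem lg_spec {p : ℕ} (hp : p.Prime) {ζ : K} (hζ : IsPrimitiveRoot ζ p) {v : Pl K}
    (hv : ¬ Above p v) {z : Kˣ} (hz : ord v z = 0) :
    v.valuation K ((z : K) ^ ((nm v - 1) / p) - ζ ^ (lg p ζ v z).val) < 1 := by
  have h := symb_ex hp hζ hv hz
  unfold lg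
  rw [dif_pos h]
  exact h.choose_spec

/-- `lg` in terms of the residue field -/
theorem symb_lg {p : ℕ} (hp : p.Prime) {ζ : K} (hζ : IsPrimitiveRoot ζ p) {v : Pl K}
    (hv : ¬ Above p v) {z : Kˣ} (hz : ord v z = 0) :
    symb_rs v (z : K) ^ ((nm v - 1) / p) = symb_rs v ζ ^ (lg p ζ v z).val := by
  have h := lg_spec hp hζ hv hz
  rw [ord_eq_zero_iff] at hz
  rwa [← symb_rs_eq_iff v (by rw [map_pow, hz, one_pow])
    (by rw [symb_zeta_pow_val hp hζ]), symb_rs_pow v hz.le,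
    symb_rs_pow v (symb_zeta_val hp hζ).le] at h

theorem symb_lg_iff {p : ℕ} (hp : p.Prime) {ζ : K} (hζ : IsPrimitiveRoot ζ p) {v : Pl K}
    (hv : ¬ Above p v) {z : Kˣ} (hz : ord v z = 0) (a : ZMod p) :
    lg p ζ v z = a ↔ symb_rs v (z : K) ^ ((nm v - 1) / p) = symb_rs v ζ ^ a.val := by
  have : NeZero p := ⟨hp.ne_zero⟩
  rw [symb_lg hp hζ hv hz]
  constructor
  · intro h
    rw [h]
  · intro h
    exact ZMod.val_injective p
      ((symb_zeta hp hζ hv).pow_inj (ZMod.val_lt _) (ZMod.val_lt _) h)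

theorem lg_unique {p : ℕ} (hp : p.Prime) {ζ : K} (hζ : IsPrimitiveRoot ζ p) {v : Pl K}
    (hv : ¬ Above p v) {z : Kˣ} (hz : ord v z = 0) {a : ZMod p}
    (ha : v.valuation K ((z : K) ^ ((nm v - 1) / p) - ζ ^ a.val) < 1) : lg p ζ v z = a := by
  rw [symb_lg_iff hp hζ hv hz]
  rw [ord_eq_zero_iff] at hz
  rwa [← symb_rs_eq_iff v (by rw [map_pow, hz, one_pow])
    (by rw [symb_zeta_pow_val hp hζ]), symb_rs_pow v hz.le,
    symb_rs_pow v (symb_zeta_val hp hζ).le] at ha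

theorem lg_one {p : ℕ} (hp : p.Prime) {ζ : K} (hζ : IsPrimitiveRoot ζ p) {v : Pl K}
    (hv : ¬ Above p v) : lg p ζ v 1 = 0 := by
  rw [symb_lg_iff hp hζ hv (ord_one v), Units.val_one, symb_rs_one, one_pow, ZMod.val_zero,
    pow_zero]

theorem lg_mul {p : ℕ} (hp : p.Prime) {ζ : K} (hζ : IsPrimitiveRoot ζ p) {v : Pl K}
    (hv : ¬ Above p v) {z z' : Kˣ} (hz : ord v z = 0) (hz' : ord v z' = 0) :
    lg p ζ v (z * z') = lg p ζ v z + lg p ζ v z' := by
  have : NeZero p := ⟨hp.ne_zero⟩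
  have h0 : ord v (z * z') = 0 := by rw [ord_mul, hz, hz', add_zero]
  rw [symb_lg_iff hp hζ hv h0]
  have hz1 := (ord_eq_zero_iff v z).1 hz
  have hz1' := (ord_eq_zero_iff v z').1 hz'
  rw [Units.val_mul, symb_rs_mul v hz1.le hz1'.le, mul_pow, symb_lg hp hζ hv hz,
    symb_lg hp hζ hv hz', ← pow_add, ZMod.val_add]
  conv_lhs => rw [← Nat.mod_add_div ((lg p ζ v z).val + (lg p ζ v z').val) p]
  rw [pow_add, pow_mul, (symb_zeta hp hζ hv).pow_eq_one, one_pow, mul_one]

theorem lg_zpow {p : ℕ} (hp : p.Prime) {ζ : K} (hζ : IsPrimitiveRoot ζ p) {v : Pl K}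
    (hv : ¬ Above p v) {z : Kˣ} (hz : ord v z = 0) (n : ℤ) :
    lg p ζ v (z ^ n) = n * lg p ζ v z := by
  have hn : ∀ m : ℤ, ord v (z ^ m) = 0 := fun m => by rw [ord_zpow, hz, mul_zero]
  have hinv : ord v z⁻¹ = 0 := by rw [ord_inv, hz, neg_zero]
  have hi : lg p ζ v z⁻¹ = -lg p ζ v z := by
    have h1 := lg_mul hp hζ hv hz hinv
    rw [mul_inv_cancel, lg_one hp hζ hv] at h1
    exact (neg_eq_of_add_eq_zero_right h1.symm).symm
  induction n using Int.induction_on with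
  | zero => rw [zpow_zero, lg_one hp hζ hv, Int.cast_zero, zero_mul]
  | succ m ih =>
    rw [zpow_add, zpow_one, lg_mul hp hζ hv (hn _) hz, ih]
    push_cast
    ring
  | pred m ih =>
    rw [zpow_sub, zpow_one, lg_mul hp hζ hv (hn _) hinv, ih, hi]
    push_cast
    ring

theorem symb_rs_of_one1 {v : Pl K} {z : Kˣ} (hz : One1 v z) : symb_rs v (z : K) = 1 := by
  have h1 := (ord_eq_zero_iff v z).1 (ord_of_one1 hz)
  rw [← symb_rs_one v, symb_rs_eq_iff v h1.le (by rw [map_one])]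
  exact hz

theorem lg_of_one1 {p : ℕ} (hp : p.Prime) {ζ : K} (hζ : IsPrimitiveRoot ζ p) {v : Pl K}
    (hv : ¬ Above p v) {z : Kˣ} (hz : One1 v z) : lg p ζ v z = 0 := by
  rw [symb_lg_iff hp hζ hv (ord_of_one1 hz), symb_rs_of_one1 hz, one_pow, ZMod.val_zero,
    pow_zero]

theorem lg_eq_zero_iff {p : ℕ} (hp : p.Prime) {ζ : K} (hζ : IsPrimitiveRoot ζ p) {v : Pl K}
    (hv : ¬ Above p v) {z : Kˣ} (hz : ord v z = 0) :
    lg p ζ v z = 0 ↔ ∃ y : Kˣ, ord v y = 0 ∧ One1 v (z * (y ^ p)⁻¹) := by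
  have hz1 := (ord_eq_zero_iff v z).1 hz
  constructor
  · intro h
    rw [symb_lg_iff hp hζ hv hz, ZMod.val_zero, pow_zero] at h
    obtain ⟨g, hg⟩ := IsCyclic.exists_generator (α := (symbK v)ˣ)
    have hzne := symb_rs_ne v hz1
    obtain ⟨j, hj⟩ := (mem_powers_iff_mem_zpowers).2 (hg (Units.mk0 _ hzne))
    have hj' : g ^ j = Units.mk0 _ hzne := hj
    have h1 : g ^ (j * ((nm v - 1) / p)) = 1 := by
      rw [pow_mul, hj']
      ext
      rw [Units.val_pow_eq_pow_val, Units.val_mk0, h, Units.val_one]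
    have h2 : orderOf g = nm v - 1 := by
      rw [orderOf_eq_card_of_forall_mem_zpowers hg, symb_units_card]
    have h3 : (nm v - 1) ∣ j * ((nm v - 1) / p) := by
      rw [← h2] at h1 ⊢
      exact orderOf_dvd_of_pow_eq_one h1
    have hpos : 0 < (nm v - 1) / p := by
      have := one_lt_nm v
      exact Nat.div_pos (Nat.le_of_dvd (by omega) (dvd_nm hp hζ hv)) hp.pos
    have h4 : p ∣ j := by
      have h5 : (nm v - 1) = p * ((nm v - 1) / p) :=
        (Nat.mul_div_cancel' (dvd_nm hp hζ hv)).symm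
      rw [h5] at h3
      have h6 : p * ((nm v - 1) / p) ∣ j * ((nm v - 1) / p) := by
        rwa [← h5] at h3 ⊢
      exact Nat.dvd_of_mul_dvd_mul_right hpos h6
    obtain ⟨i, rfl⟩ := h4
    obtain ⟨y, hy0, hy⟩ := symb_lift v ((g ^ i : (symbK v)ˣ) : symbK v) (Units.ne_zero _)
    refine ⟨y, hy0, ?_⟩
    have hy1 := (ord_eq_zero_iff v y).1 hy0
    have hyp : v.valuation K ((y : K) ^ p) = 1 := by rw [map_pow, hy1, one_pow]
    have h7 : symb_rs v (z : K) = symb_rs v ((y : K) ^ p) := by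
      rw [symb_rs_pow v hy1.le, hy]
      have h8 := congrArg (fun u : (symbK v)ˣ => (u : symbK v)) hj'
      simp only [Units.val_pow_eq_pow_val, Units.val_mk0] at h8
      rw [← h8, Units.val_pow_eq_pow_val, ← pow_mul, mul_comm]
    rw [symb_rs_eq_iff v hz1.le hyp.le] at h7
    unfold One1
    have hyne : ((y : K) ^ p) ≠ 0 := pow_ne_zero _ y.ne_zero
    have h9 : ((z * (y ^ p)⁻¹ : Kˣ) : K) - 1 = ((z : K) - (y : K) ^ p) * ((y : K) ^ p)⁻¹ := by
      rw [Units.val_mul, Units.val_inv_eq_inv_val, Units.val_pow_eq_pow_val]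
      field_simp
    rw [h9, map_mul, map_inv₀, hyp, inv_one, mul_one]
    exact h7
  · rintro ⟨y, hy0, hy⟩
    have hyi : ord v (y ^ p) = 0 := by rw [ord_pow, hy0, mul_zero]
    have h1 : z = z * (y ^ p)⁻¹ * y ^ p := by group
    rw [h1, lg_mul hp hζ hv (ord_of_one1 hy) hyi, lg_of_one1 hp hζ hv hy]
    have h2 := lg_zpow hp hζ hv hy0 p
    rw [zpow_natCast] at h2
    rw [h2]
    simp

theorem exists_lg {p : ℕ} (hp : p.Prime) {ζ : K} (hζ : IsPrimitiveRoot ζ p) {v : Pl K}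
    (hv : ¬ Above p v) (a : ZMod p) : ∃ z : Kˣ, ord v z = 0 ∧ lg p ζ v z = a := by
  have : Fact p.Prime := ⟨hp⟩
  obtain ⟨g, hg⟩ := IsCyclic.exists_generator (α := (symbK v)ˣ)
  obtain ⟨z, hz0, hz⟩ := symb_lift v (g : symbK v) (Units.ne_zero _)
  have hpos : 0 < (nm v - 1) / p := by
    have := one_lt_nm v
    exact Nat.div_pos (Nat.le_of_dvd (by omega) (dvd_nm hp hζ hv)) hp.pos
  have hne : lg p ζ v z ≠ 0 := by
    intro h
    rw [symb_lg_iff hp hζ hv hz0, ZMod.val_zero, pow_zero, hz] at h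
    have h1 : g ^ ((nm v - 1) / p) = 1 := by
      ext
      rw [Units.val_pow_eq_pow_val, h, Units.val_one]
    have h2 : orderOf g = nm v - 1 := by
      rw [orderOf_eq_card_of_forall_mem_zpowers hg, symb_units_card]
    have h3 := orderOf_dvd_of_pow_eq_one h1
    rw [h2] at h3
    have h4 := Nat.le_of_dvd hpos h3
    have h5 : (nm v - 1) = p * ((nm v - 1) / p) :=
      (Nat.mul_div_cancel' (dvd_nm hp hζ hv)).symm
    have h6 := hp.two_le
    nlinarith
  refine ⟨z ^ (((a / lg p ζ v z).val : ℕ) : ℤ), ?_, ?_⟩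
  · rw [ord_zpow, hz0, mul_zero]
  · rw [lg_zpow hp hζ hv hz0, Int.cast_natCast, ZMod.natCast_zmod_val, div_mul_cancel₀ _ hne]

theorem lg_neg_one {p : ℕ} (hp : p.Prime) (hp2 : MOne p K) {ζ : K} (hζ : IsPrimitiveRoot ζ p)
    {v : Pl K} (hv : ¬ Above p v) : lg p ζ v (-1) = 0 := by
  obtain ⟨i, hi⟩ := hp2
  have hi0 : i ≠ 0 := by
    rintro rfl
    rw [zero_pow hp.ne_zero] at hi
    exact neg_ne_zero.2 one_ne_zero hi.symm
  have h2 : (Units.mk0 i hi0) ^ (p : ℤ) = -1 := by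
    rw [zpow_natCast]
    apply Units.ext
    rw [Units.val_pow_eq_pow_val, Units.val_mk0, hi, Units.val_neg, Units.val_one]
  have h0 : ord v (Units.mk0 i hi0) = 0 := by
    have h3 : ord v (-1 : Kˣ) = 0 := by
      rw [ord_eq_zero_iff, Units.val_neg, Units.val_one, Valuation.map_neg, map_one]
    rw [← h2, ord_zpow] at h3
    rcases mul_eq_zero.1 h3 with h4 | h4
    · exact absurd (by exact_mod_cast h4) hp.ne_zero
    · exact h4
  have h1 := lg_zpow hp hζ hv h0 p
  rw [h2] at h1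
  rw [h1]
  simp

end H63.MA
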