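import Pool.Agent.H63.MA.SymA

/-!
# MA-RAY: ray class characters, the statements of the analytic part (definitions only)

`IN K y`: the nonzero ideals of norm at most `y`. `RC K 𝔣`: characters of the ideals prime to `𝔣`, extended by `0`, which are
trivial on the principal ideals `(x)`, `x ≡ 1` modulo `𝔣` (no condition at the real places).
-/

set_option autoImplicit false

open scoped NumberField
open IsDedekindDomain

noncomputable section

namespace H63.MA

open Classical in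
/-- the nonzero ideals of norm at most `y` -/
def IN (K : Type) [Field K] [NumberField K] (y : ℝ) : Finset (Ideal (𝓞 K)) :=
  (Ideal.finite_setOfPred_absNorm_le (S := 𝓞 K) ⌊y⌋₊).toFinset.filter fun I => I ≠ ⊥

theorem mem_IN {K : Type} [Field K] [NumberField K] {y : ℝ} (hy : 0 ≤ y) {I : Ideal (𝓞 K)} :
    I ∈ IN K y ↔ (Ideal.absNorm I : ℝ) ≤ y ∧ I ≠ ⊥ := by
  unfold IN
  rw [Finset.mem_filter, Set.Finite.mem_toFinset]
  constructor
  · rintro ⟨h, h'⟩
    exact ⟨(Nat.le_floor_iff hy).1 h, h'⟩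
  · rintro ⟨h, h'⟩
    exact ⟨(Nat.le_floor_iff hy).2 h, h'⟩

/-- ray class characters of modulus `𝔣`, extended by `0` to all ideals -/
structure RC (K : Type) [Field K] [NumberField K] (𝔣 : Ideal (𝓞 K)) where
  /-- the character -/
  χ : Ideal (𝓞 K) →*₀ ℂ
  norm_one : ∀ I, I ≠ ⊥ → IsCoprime I 𝔣 → ‖χ I‖ = 1
  zero_of : ∀ I, ¬ IsCoprime I 𝔣 → χ I = 0
  ray : ∀ x : 𝓞 K, x ≠ 0 → x - 1 ∈ 𝔣 → χ (Ideal.span {x}) = 1

/-- the character is not trivial on the ideals prime to `𝔣` -/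
def RC.Non {K : Type} [Field K] [NumberField K] {𝔣 : Ideal (𝓞 K)} (χ : RC K 𝔣) : Prop :=
  ∃ I, I ≠ ⊥ ∧ IsCoprime I 𝔣 ∧ χ.χ I ≠ 1

/-- a function on the primes which defines an additive ray class character of modulus `𝔣` with values in `ZMod p` -/
structure IsRay {K : Type} [Field K] [NumberField K] (p : ℕ) (𝔣 : Ideal (𝓞 K))
    (f : Pl K → ZMod p) : Prop where
  zero : ∀ v : Pl K, v.asIdeal ∣ 𝔣 → f v = 0
  ray : ∀ (x : Kˣ) (a : 𝓞 K), (x : K) = algebraMap (𝓞 K) K a → a - 1 ∈ 𝔣 →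
    ∑ᶠ v, f v * ord v x = 0

end H63.MA
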