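import Pool.Agent.H63.MA.Base

/-!
# MA-SYMA: the exponent `ord v`, elementary facts

All statements follow from Mathlib's `HeightOneSpectrum.valuation` (`IsDedekindDomain`, file
`AdicValuation`): `ord v x = - WithZero.log (v.valuation K x)`, and `v.valuation K x ≠ 0` for a unit `x`.
* `ord_mul`, `ord_one`, `ord_inv`, `ord_pow`, `ord_zpow`: `map_mul`, `WithZero.log_mul`, `log_pow`, `log_zpow`, ...
* `val_eq`: `WithZero.exp_log`.
* `finite_ord`: only finitely many primes occur in numerator and denominator of `x`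
  (write `x = a / b` with `a b : 𝓞 K`; `v.valuation K (algebraMap a) = v.intValuation a < 1` iff `v ∣ (a)`,
  `valuation_lt_one_iff_dvd`; finitely many primes divide a nonzero ideal: `Ideal.finite_factors`; Mathlib may also have
  the statement `HeightOneSpectrum.Support.finite` or similar).
* `exists_unif`: `valuation_exists_uniformizer`.
* `One1`: the elements with `v (x - 1) < 1` form a group: `v x = 1` for them by the ultrametric inequality
  (`Valuation.map_one_add_of_lt`, `Valuation.map_add`), `x y - 1 = (x - 1) y + (y - 1)`, `x⁻¹ - 1 = (1 - x) x⁻¹`.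
* `exists_int`: every `x` is `a / b` with nonzero `a b : 𝓞 K`.
* `nm_pos`, `one_lt_nm`: `Ideal.absNorm_eq_one_iff`, `absNorm_ne_zero_of_...`.
* `finite_above`: the primes above `p` divide `(p)`.
-/

set_option autoImplicit false

open scoped NumberField
open IsDedekindDomain

noncomputable section

namespace H63.MA

variable {K : Type} [Field K] [NumberField K]

theorem symA_ne (v : Pl K) (x : Kˣ) : v.valuation K (x : K) ≠ 0 :=
  (Valuation.ne_zero_iff _).2 x.ne_zero

theorem symA_one1 {v : Pl K} {x : Kˣ} (h : One1 v x) : v.valuation K (x : K) = 1 := by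
  have h1 := Valuation.map_one_add_of_lt (v := v.valuation K) (x := (x : K) - 1) h
  rwa [add_sub_cancel] at h1

theorem ord_one (v : Pl K) : ord v 1 = 0 := by
  unfold ord
  rw [Units.val_one, map_one, WithZero.log_one, neg_zero]

theorem ord_mul (v : Pl K) (x y : Kˣ) : ord v (x * y) = ord v x + ord v y := by
  unfold ord
  rw [Units.val_mul, map_mul, WithZero.log_mul (symA_ne v x) (symA_ne v y)]
  ring

theorem ord_inv (v : Pl K) (x : Kˣ) : ord v x⁻¹ = -ord v x := by
  unfold ord
  rw [Units.val_inv_eq_inv_val, map_inv₀, WithZero.log_inv]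

theorem ord_pow (v : Pl K) (x : Kˣ) (n : ℕ) : ord v (x ^ n) = n * ord v x := by
  unfold ord
  rw [Units.val_pow_eq_pow_val, map_pow, WithZero.log_pow, nsmul_eq_mul]
  ring

theorem ord_zpow (v : Pl K) (x : Kˣ) (n : ℤ) : ord v (x ^ n) = n * ord v x := by
  unfold ord
  rw [Units.val_zpow_eq_zpow_val, map_zpow₀, WithZero.log_zpow, smul_eq_mul]
  ring

theorem ord_prod {ι : Type} (v : Pl K) (s : Finset ι) (f : ι → Kˣ) :
    ord v (∏ i ∈ s, f i) = ∑ i ∈ s, ord v (f i) := by
  classical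
  induction s using Finset.induction_on with
  | empty => rw [Finset.prod_empty, Finset.sum_empty, ord_one]
  | insert a s ha ih => rw [Finset.prod_insert ha, Finset.sum_insert ha, ord_mul, ih]

theorem val_eq (v : Pl K) (x : Kˣ) : v.valuation K (x : K) = WithZero.exp (-ord v x) := by
  unfold ord
  rw [neg_neg, WithZero.exp_log (symA_ne v x)]

theorem ord_eq_zero_iff (v : Pl K) (x : Kˣ) : ord v x = 0 ↔ v.valuation K (x : K) = 1 := by
  rw [val_eq, ← WithZero.exp_zero, WithZero.exp_inj, neg_eq_zero]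

theorem ord_nonneg_iff (v : Pl K) (x : Kˣ) : 0 ≤ ord v x ↔ v.valuation K (x : K) ≤ 1 := by
  rw [val_eq, ← WithZero.exp_zero, WithZero.exp_le_exp, neg_nonpos]

theorem ord_pos_iff (v : Pl K) (x : Kˣ) : 0 < ord v x ↔ v.valuation K (x : K) < 1 := by
  rw [val_eq, ← WithZero.exp_zero, WithZero.exp_lt_exp, neg_lt_zero]

theorem finite_ord (x : Kˣ) : {v : Pl K | ord v x ≠ 0}.Finite := by
  obtain ⟨a, b, hb, hab⟩ := IsFractionRing.div_surjective (A := 𝓞 K) (x : K)
  have hb0 : b ≠ 0 := nonZeroDivisors.ne_zero hb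
  have hb1 : algebraMap (𝓞 K) K b ≠ 0 := by
    rwa [Ne, FaithfulSMul.algebraMap_eq_zero_iff]
  have ha1 : algebraMap (𝓞 K) K a ≠ 0 := by
    intro h0
    rw [h0, zero_div] at hab
    exact x.ne_zero hab.symm
  have ha0 : a ≠ 0 := by
    rintro rfl
    exact ha1 (map_zero _)
  have hfin : ∀ z : 𝓞 K, z ≠ 0 → {v : Pl K | z ∈ v.asIdeal}.Finite := by
    intro z hz
    have h1 : Ideal.span {z} ≠ (0 : Ideal (𝓞 K)) := by
      rw [Ne, Ideal.zero_eq_bot, Ideal.span_singleton_eq_bot]
      exact hz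
    refine (Ideal.finite_factors h1).subset fun Q hQ => ?_
    rw [Set.mem_setOf_eq, Ideal.dvd_span_singleton]
    exact hQ
  refine ((hfin a ha0).union (hfin b hb0)).subset fun v hv => ?_
  by_contra hcon
  rw [Set.mem_union, not_or, Set.mem_setOf_eq, Set.mem_setOf_eq] at hcon
  apply hv
  rw [ord_eq_zero_iff, ← hab, map_div₀, (v.valuation_eq_one_iff_notMem (K := K)).2 hcon.1,
    (v.valuation_eq_one_iff_notMem (K := K)).2 hcon.2, div_one]

theorem exists_unif (v : Pl K) : ∃ x : Kˣ, ord v x = 1 := by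
  obtain ⟨π, hπ⟩ := v.valuation_exists_uniformizer K
  have h0 : π ≠ 0 := by
    rintro rfl
    rw [map_zero] at hπ
    exact WithZero.exp_ne_zero hπ.symm
  refine ⟨Units.mk0 π h0, ?_⟩
  have h1 := val_eq v (Units.mk0 π h0)
  rw [Units.val_mk0, hπ, WithZero.exp_inj] at h1
  omega

theorem ord_of_one1 {v : Pl K} {x : Kˣ} (h : One1 v x) : ord v x = 0 := by
  rw [ord_eq_zero_iff]
  exact symA_one1 h

theorem one1_one (v : Pl K) : One1 v (1 : Kˣ) := by
  unfold One1
  rw [Units.val_one, sub_self, map_zero]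
  exact zero_lt_one

theorem one1_mul {v : Pl K} {x y : Kˣ} (hx : One1 v x) (hy : One1 v y) : One1 v (x * y) := by
  unfold One1 at *
  have h1 : ((x * y : Kˣ) : K) - 1 = ((x : K) - 1) * y + ((y : K) - 1) := by
    rw [Units.val_mul]
    ring
  rw [h1]
  refine lt_of_le_of_lt (Valuation.map_add _ _ _) (max_lt ?_ hy)
  rw [map_mul, symA_one1 hy, mul_one]
  exact hx

theorem one1_inv {v : Pl K} {x : Kˣ} (hx : One1 v x) : One1 v x⁻¹ := by
  have hx1 := symA_one1 hx
  unfold One1 at *
  have h1 : ((x⁻¹ : Kˣ) : K) - 1 = -(((x : K) - 1) * (x : K)⁻¹) := by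
    rw [Units.val_inv_eq_inv_val]
    have := x.ne_zero
    field_simp
    ring
  rw [h1, Valuation.map_neg, map_mul, map_inv₀, hx1, inv_one, mul_one]
  exact hx

theorem one1_zpow {v : Pl K} {x : Kˣ} (hx : One1 v x) (n : ℤ) : One1 v (x ^ n) := by
  have h1 : ∀ m : ℕ, One1 v (x ^ m) := by
    intro m
    induction m with
    | zero =>
      rw [pow_zero]
      exact one1_one v
    | succ m ih =>
      rw [pow_succ]
      exact one1_mul ih hx
  rcases n with m | m
  · rw [Int.ofNat_eq_natCast, zpow_natCast]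
    exact h1 m
  · rw [zpow_negSucc]
    exact one1_inv (h1 (m + 1))

theorem exists_int (x : Kˣ) : ∃ a b : 𝓞 K, a ≠ 0 ∧ b ≠ 0 ∧
    (x : K) = algebraMap (𝓞 K) K a / algebraMap (𝓞 K) K b := by
  obtain ⟨a, b, hb, hab⟩ := IsFractionRing.div_surjective (A := 𝓞 K) (x : K)
  refine ⟨a, b, ?_, nonZeroDivisors.ne_zero hb, hab.symm⟩
  rintro rfl
  rw [map_zero, zero_div] at hab
  exact x.ne_zero hab.symm

theorem one_lt_nm (v : Pl K) : 1 < nm v := by
  unfold nm
  have h0 : Ideal.absNorm v.asIdeal ≠ 0 := by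
    rw [Ne, Ideal.absNorm_eq_zero_iff]
    exact v.ne_bot
  have h1 : Ideal.absNorm v.asIdeal ≠ 1 := by
    rw [Ne, Ideal.absNorm_eq_one_iff]
    exact v.isPrime.ne_top
  omega

theorem finite_above {p : ℕ} (hp : p ≠ 0) : {v : Pl K | Above p v}.Finite := by
  have h1 : Ideal.span {(p : 𝓞 K)} ≠ (0 : Ideal (𝓞 K)) := by
    rw [Ne, Ideal.zero_eq_bot, Ideal.span_singleton_eq_bot]
    exact_mod_cast hp
  refine (Ideal.finite_factors h1).subset fun Q hQ => ?_
  rw [Set.mem_setOf_eq, Ideal.dvd_span_singleton]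
  exact hQ

/-- `v ∣ p` iff `v (p) < 1` -/
theorem above_iff (p : ℕ) (v : Pl K) : Above p v ↔ v.valuation K (p : K) < 1 := by
  unfold Above
  have h1 : algebraMap (𝓞 K) K (p : 𝓞 K) = (p : K) := map_natCast (algebraMap (𝓞 K) K) p
  rw [← h1]
  exact (HeightOneSpectrum.valuation_lt_one_iff_mem (K := K) v (p : 𝓞 K)).symm

end H63.MA
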