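import Pool.Agent.H63.MA.GDef
import Pool.Agent.H38.ML.Factor
import Pool.Agent.H38.TD.KxE

/-!
# MA-GKUM: Kummer characters

* `kc_is`: existence is `H38.TD.twist_ex` (it gives one root `B₀`; every other root is `ζ^k B₀`, `ζ ∈ K`; the exponent is unique because `ζ` is a
  primitive `p`-th root of unity; `a ≠ 0`).
* `kk_mul_arg`, `kk_pow_arg`: `B B'` is a root of `a b`; compare exponents.
* `kk_eq_zero_iff`: all `kk a σ = 0` iff `B` is fixed by `Γ` iff `B ∈ K` (`Ω/K` is Galois) iff `a` is a `p`-th power.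
-/

set_option autoImplicit false

open scoped NumberField
open IsDedekindDomain

noncomputable section

namespace H63.MA

variable {K : Type} [Field K] [NumberField K] {Ω : Type} [Field Ω] [Algebra K Ω] [IsAlgClosure K Ω]
  {p : ℕ} {ζ : K}

theorem gkum_key (hp : p.Prime) (hζ : IsPrimitiveRoot ζ p) (B : Ω) (hB : B ≠ 0) (k l : ℤ)
    (h : algebraMap K Ω ζ ^ k * B = algebraMap K Ω ζ ^ l * B) : (k : ZMod p) = (l : ZMod p) := by
  have hz : IsPrimitiveRoot (algebraMap K Ω ζ) p :=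
    hζ.map_of_injective (algebraMap K Ω).injective
  have hz0 : algebraMap K Ω ζ ≠ 0 := hz.ne_zero hp.ne_zero
  have h1 := mul_right_cancel₀ hB h
  have h2 : algebraMap K Ω ζ ^ (k - l) = 1 := by
    rw [zpow_sub₀ hz0, h1, div_self (zpow_ne_zero _ hz0)]
  have h3 := (hz.zpow_eq_one_iff_dvd _).1 h2
  have h4 := (ZMod.intCast_zmod_eq_zero_iff_dvd (k - l) p).2 h3
  rw [Int.cast_sub] at h4
  exact sub_eq_zero.1 h4

theorem gkum_ne (hp : p.Prime) (a : Kˣ) (B : Ω) (hB : B ^ p = algebraMap K Ω (a : K)) :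
    B ≠ 0 := by
  intro h0
  rw [h0, zero_pow hp.ne_zero] at hB
  have h1 : algebraMap K Ω (a : K) = algebraMap K Ω 0 := by rw [map_zero]; exact hB.symm
  exact a.ne_zero ((algebraMap K Ω).injective h1)

omit [NumberField K] in
theorem gkum_root (hp : p.Prime) (a : Kˣ) :
    ∃ B : Ω, B ^ p = algebraMap K Ω (a : K) := by
  have hclosed : IsAlgClosed Ω := IsAlgClosure.isAlgClosed K
  exact IsAlgClosed.exists_pow_nat_eq (algebraMap K Ω (a : K)) hp.pos

theorem kc_is (hp : p.Prime) (hζ : IsPrimitiveRoot ζ p) (a : Kˣ) : IsKC p ζ a (kc p ζ Ω a) := by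
  have hz : IsPrimitiveRoot (algebraMap K Ω ζ) p :=
    hζ.map_of_injective (algebraMap K Ω).injective
  have hp0 : NeZero p := ⟨hp.ne_zero⟩
  have hex : ∃ χ : Gal(Ω/K) →* Multiplicative (ZMod p), IsKC p ζ a χ := by
    obtain ⟨κ, B₀, hft, hB₀, hκ⟩ := H38.TD.twist_ex (K := K) (Ω := Ω) p hp ζ hζ a
    refine ⟨κ, hft, fun B hB σ => ?_⟩
    have hB0 := gkum_ne hp a B₀ hB₀
    have h2 : (B / B₀) ^ p = 1 := by
      rw [div_pow, hB, hB₀, div_self]
      rw [← hB₀]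
      exact pow_ne_zero _ hB0
    obtain ⟨l, -, hl⟩ := hz.eq_pow_of_pow_eq_one h2
    have h3 : B = algebraMap K Ω ζ ^ l * B₀ := by
      rw [hl, div_mul_cancel₀ _ hB0]
    rw [h3, map_mul, map_pow, AlgEquiv.commutes, hκ σ]
    ring
  unfold kc
  rw [dif_pos hex]
  exact hex.choose_spec

theorem kk_root (hp : p.Prime) (hζ : IsPrimitiveRoot ζ p) (a : Kˣ) (B : Ω)
    (hB : B ^ p = algebraMap K Ω (a : K)) (σ : Gal(Ω/K)) :
    σ B = algebraMap K Ω ζ ^ (kk p ζ a σ).val * B :=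
  (kc_is hp hζ a).2 B hB σ

theorem gkum_val (hp : p.Prime) (x : ZMod p) : (((x.val : ℕ) : ℤ) : ZMod p) = x := by
  have hp0 : NeZero p := ⟨hp.ne_zero⟩
  rw [Int.cast_natCast, ZMod.natCast_zmod_val]

theorem isKC_unique (hp : p.Prime) (hζ : IsPrimitiveRoot ζ p) (a : Kˣ)
    (χ χ' : Gal(Ω/K) →* Multiplicative (ZMod p)) (h : IsKC p ζ a χ) (h' : IsKC p ζ a χ') :
    χ = χ' := by
  obtain ⟨B, hB⟩ := gkum_root (K := K) (Ω := Ω) hp a
  have hB0 := gkum_ne hp a B hB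
  apply MonoidHom.ext
  intro σ
  have h1 := h.2 B hB σ
  have h2 := h'.2 B hB σ
  rw [h1] at h2
  have h3 := gkum_key hp hζ B hB0 ((Multiplicative.toAdd (χ σ)).val : ℤ)
    ((Multiplicative.toAdd (χ' σ)).val : ℤ) (by rw [zpow_natCast, zpow_natCast]; exact h2)
  rw [gkum_val hp, gkum_val hp] at h3
  exact Multiplicative.toAdd.injective h3

theorem kk_of_root (hp : p.Prime) (hζ : IsPrimitiveRoot ζ p) (a : Kˣ) (B : Ω)
    (hB : B ^ p = algebraMap K Ω (a : K)) (σ : Gal(Ω/K)) (k : ℤ)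
    (h : σ B = algebraMap K Ω ζ ^ k * B) : kk p ζ a σ = k := by
  have h1 := kk_root hp hζ a B hB σ
  rw [h] at h1
  have h3 := gkum_key hp hζ B (gkum_ne hp a B hB) k ((kk p ζ a σ).val : ℤ)
    (by rw [zpow_natCast]; exact h1)
  rw [gkum_val hp] at h3
  exact h3.symm

theorem kk_mul (a : Kˣ) (σ τ : Gal(Ω/K)) : kk p ζ a (σ * τ) = kk p ζ a σ + kk p ζ a τ := by
  unfold kk
  rw [map_mul, toAdd_mul]

theorem kk_one (a : Kˣ) : kk p ζ a (1 : Gal(Ω/K)) = 0 := by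
  unfold kk
  rw [map_one, toAdd_one]

theorem kk_mul_arg (hp : p.Prime) (hζ : IsPrimitiveRoot ζ p) (a b : Kˣ) (σ : Gal(Ω/K)) :
    kk p ζ (a * b) σ = kk p ζ a σ + kk p ζ b σ := by
  obtain ⟨A, hA⟩ := gkum_root (K := K) (Ω := Ω) hp a
  obtain ⟨B, hB⟩ := gkum_root (K := K) (Ω := Ω) hp b
  have h1 := kk_root hp hζ a A hA σ
  have h2 := kk_root hp hζ b B hB σ
  have h3 := kk_of_root hp hζ (a * b) (A * B)
    (by rw [mul_pow, hA, hB, Units.val_mul, map_mul]) σ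
    ((((kk p ζ a σ).val + (kk p ζ b σ).val : ℕ)) : ℤ)
    (by rw [zpow_natCast, map_mul, h1, h2, pow_add]; ring)
  rw [h3]
  have hp0 : NeZero p := ⟨hp.ne_zero⟩
  push_cast
  rw [ZMod.natCast_zmod_val, ZMod.natCast_zmod_val]

theorem gkum_one_arg (hp : p.Prime) (hζ : IsPrimitiveRoot ζ p) (σ : Gal(Ω/K)) :
    kk p ζ (1 : Kˣ) σ = 0 := by
  have h := kk_mul_arg hp hζ (1 : Kˣ) 1 σ
  rw [mul_one] at h
  exact left_eq_add.1 h

theorem kk_zpow_arg (hp : p.Prime) (hζ : IsPrimitiveRoot ζ p) (a : Kˣ) (n : ℤ) (σ : Gal(Ω/K)) :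
    kk p ζ (a ^ n) σ = n * kk p ζ a σ := by
  induction n with
  | zero =>
    rw [zpow_zero, gkum_one_arg hp hζ σ, Int.cast_zero, zero_mul]
  | succ n ih =>
    rw [zpow_add_one, kk_mul_arg hp hζ, ih]
    push_cast
    ring
  | pred n ih =>
    have h1 := kk_mul_arg hp hζ (a ^ (-(n : ℤ) - 1)) a σ
    rw [← zpow_add_one, sub_add_cancel, ih] at h1
    have h2 : kk p ζ (a ^ (-(n : ℤ) - 1)) σ = ((-(n : ℤ) : ℤ) : ZMod p) * kk p ζ a σ - kk p ζ a σ := by
      rw [h1]; ring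
    rw [h2]
    push_cast
    ring

theorem kk_prod_arg (hp : p.Prime) (hζ : IsPrimitiveRoot ζ p) {ι : Type} (s : Finset ι)
    (a : ι → Kˣ) (σ : Gal(Ω/K)) : kk p ζ (∏ i ∈ s, a i) σ = ∑ i ∈ s, kk p ζ (a i) σ := by
  classical
  induction s using Finset.induction_on with
  | empty => rw [Finset.prod_empty, Finset.sum_empty, gkum_one_arg hp hζ σ]
  | insert i s hi ih =>
    rw [Finset.prod_insert hi, Finset.sum_insert hi, kk_mul_arg hp hζ, ih]

theorem kk_eq_zero_iff (hp : p.Prime) (hζ : IsPrimitiveRoot ζ p) (a : Kˣ) :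
    (∀ σ : Gal(Ω/K), kk p ζ a σ = 0) ↔ IsPow p a := by
  haveI : IsGalois K Ω := IsAlgClosure.isGalois K Ω
  have hp0 : NeZero p := ⟨hp.ne_zero⟩
  constructor
  · intro h
    obtain ⟨A, hA⟩ := gkum_root (K := K) (Ω := Ω) hp a
    have hA0 := gkum_ne hp a A hA
    have hfix : ∀ σ : Gal(Ω/K), σ A = A := by
      intro σ
      have h1 := kk_root hp hζ a A hA σ
      rw [h σ, ZMod.val_zero, pow_zero, one_mul] at h1
      exact h1
    obtain ⟨y, hy⟩ := (InfiniteGalois.mem_range_algebraMap_iff_fixed A).2 hfix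
    have hy0 : y ≠ 0 := by
      rintro rfl
      rw [map_zero] at hy
      exact hA0 hy.symm
    refine ⟨Units.mk0 y hy0, ?_⟩
    apply Units.ext
    apply (algebraMap K Ω).injective
    rw [Units.val_pow_eq_pow_val, Units.val_mk0, map_pow, hy, hA]
  · rintro ⟨y, hy⟩ σ
    have h1 := kk_of_root (Ω := Ω) hp hζ a (algebraMap K Ω (y : K))
      (by rw [← map_pow, ← hy, Units.val_pow_eq_pow_val]) σ 0
      (by rw [zpow_zero, one_mul, AlgEquiv.commutes])
    rw [h1, Int.cast_zero]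

end H63.MA
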