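import Pool.Agent.H63.MA.Hasse
import Pool.Agent.H63.MA.GBase
import Pool.Agent.H63.MA.GKus

/-!
# MA-GNORM: the Hasse norm theorem inside `Ω`

* `norm1`: `Prim p c`, `c` not a `p`-th power, `B v c b = 0` for all `v ∤ p`: there are `z ∈ Ω` nonzero, fixed by `{u : kk c u = 0}`, and `τ ∈ Γ` with `kk c τ = 1` and
  `∏_{i<p} τ^i z = b`. Proof: `γ^p = c`, `L = K(γ) ⊆ Ω` (`IntermediateField.adjoin K {γ}`), a number field, Galois over `K`, `τ ∈ Γ` with `τ γ = ζ γ` (`kk_surj`),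
  `H : Kum p K ζ c L` with `H.σ = τ|L`, `finrank = p` (`X^p - c` is irreducible). `hasse_norm` gives `z ∈ Lˣ` of norm `b`, and `kum_norm`.
* `norm2`: `A, c` independent modulo `p`-th powers, `Prim p A`, and for every `v ∤ p`: `B v A b = 0` or (`ord v c = 0` and `lg v c ≠ 0`). Then there are `σ, τ ∈ Γ`,
  `z, y ∈ Ω`, `d ∈ Kˣ` as in the hypotheses of `sym2`. Proof: `γ^p = c`, `α^p = A`, `L = K(γ)`, `M = L(α)` (an intermediate field of `Ω/L`, or of `Ω/K`). `A` is not a `p`-th power in `L`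
  (the `p`-th powers of `L` in `K` are the `c^i x^p`: an element `α ∈ L` with `α^p ∈ K` has `σ α = ζ^i α`, so `α γ^{-i} ∈ K`). By `kk_surj` there are `σ, τ ∈ Γ` with
  `(kk A τ, kk c τ) = (1, 0)`, `(kk A σ, kk c σ) = (0, 1)`. `τ` fixes `L` and induces the generator of `Gal(M/L)`: `H : Kum p L ζ_L (inc A) M` with `H.γ = α`, `H.σ = τ|M`.
  `Prim p (inc A)` by `bc_prim`; for a prime `w ∤ p` of `L` over `v`: `B w (inc A) (inc b) = 0` by `bc_data` or `bc_inert`. So `hasse_norm` over `L` gives `z ∈ Mˣ` with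
  `N_{M/L} z = b`, i.e. `∏ τ^i z = b` (`kum_norm`). The element `q = σ z / z ∈ Mˣ` (`M/K` is Galois, `σ` maps `M` to `M`; `σ τ = τ σ` on `M`) has
  `∏ τ^i q = σ b / b = 1`, so by `kum_h90` `q = τ y / y`, `y ∈ Mˣ`, i.e. `σ z * y = z * τ y`. Let `d = ∏_{i<p} σ^i y`: `σ d = d` (`σ^p = 1` on `M`), and
  `τ d = ∏ σ^i (τ y) = ∏ σ^i (y q) = d ∏ σ^i (σ z / z) = d`; `d ∈ M` is fixed by `σ`, `τ` and by `Gal(Ω/M)`, hence by `Γ` (every `s ∈ Γ` acts on `M` as `σ^i τ^j`), so `d ∈ K`.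
  `{u : kk A u = 0, kk c u = 0}` is the group fixing `M`.
-/

set_option autoImplicit false

open scoped NumberField
open IsDedekindDomain

noncomputable section

namespace H63.MA

variable {K : Type} [Field K] [NumberField K] {Ω : Type} [Field Ω] [Algebra K Ω] [IsAlgClosure K Ω]
  {p : ℕ} {ζ : K}

theorem gnorm_ext {K : Type} [Field K] [NumberField K] {L : Type} [Field L] [NumberField L]
    [Algebra K L] {p : ℕ} (hp : p.Prime) {ζ : K} (hζ : IsPrimitiveRoot ζ p) {c : Kˣ}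
    (H : Kum p K ζ c L) {R : Type} [Field R] (f g : L →+* R)
    (h0 : ∀ k : K, f (algebraMap K L k) = g (algebraMap K L k))
    (h1 : f (H.γ : L) = g (H.γ : L)) : f = g := by
  have hS := kuma_top hp hζ H ((RingHom.eqLocusField f g).toIntermediateField h0) h1
  ext x
  have hx : x ∈ (RingHom.eqLocusField f g).toIntermediateField h0 := by
    rw [hS]
    exact IntermediateField.mem_top
  exact hx

/-- an endomorphism `T` of `Ω` which acts on the Kummer extension as `H.σ` -/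
theorem gnorm_act {K : Type} [Field K] [NumberField K] {L : Type} [Field L] [NumberField L]
    [Algebra K L] {p : ℕ} (hp : p.Prime) {ζ : K} (hζ : IsPrimitiveRoot ζ p) {c : Kˣ}
    (H : Kum p K ζ c L) {R : Type} [Field R] (φ : L →+* R) (T : R →+* R)
    (h0 : ∀ k : K, T (φ (algebraMap K L k)) = φ (algebraMap K L k))
    (h1 : T (φ (H.γ : L)) = φ (algebraMap K L ζ) * φ (H.γ : L)) (x : L) :
    T (φ x) = φ (H.σ x) := by
  have h := gnorm_ext hp hζ H (T.comp φ) (φ.comp (H.σ : L →+* L)) (by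
    intro k
    change T (φ (algebraMap K L k)) = φ (H.σ (algebraMap K L k))
    rw [h0, AlgEquiv.commutes]) (by
    change T (φ (H.γ : L)) = φ (H.σ (H.γ : L))
    rw [h1, H.hσ, map_mul])
  exact congrArg (fun F : L →+* R => F x) h

theorem gnorm_pow {K : Type} [Field K] [NumberField K] {L : Type} [Field L] [NumberField L]
    [Algebra K L] {p : ℕ} {ζ : K} {c : Kˣ} (H : Kum p K ζ c L) {K₀ R : Type} [Field K₀] [Field R]
    [Algebra K₀ R] (φ : L →+* R) (τ : R ≃ₐ[K₀] R) (h : ∀ x, τ (φ x) = φ (H.σ x)) (i : ℕ) (x : L) :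
    (τ ^ i) (φ x) = φ ((H.σ ^ i) x) := by
  induction i with
  | zero => simp
  | succ i ih => rw [pow_succ', pow_succ', AlgEquiv.mul_apply, AlgEquiv.mul_apply, ih, h]

theorem gnorm_prod {K : Type} [Field K] [NumberField K] {L : Type} [Field L] [NumberField L]
    [Algebra K L] {p : ℕ} (hp : p.Prime) {ζ : K} (hζ : IsPrimitiveRoot ζ p) {c : Kˣ}
    (H : Kum p K ζ c L) {K₀ R : Type} [Field K₀] [Field R]
    [Algebra K₀ R] (φ : L →+* R) (τ : R ≃ₐ[K₀] R) (h : ∀ x, τ (φ x) = φ (H.σ x)) (x : Lˣ) :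
    ∏ i ∈ Finset.range p, (τ ^ i) (φ (x : L)) = φ (algebraMap K L (Nm K L x : K)) := by
  have h1 := congrArg Units.val (kum_norm hp hζ H x)
  have h2 : ((inc K L (Nm K L x) : Lˣ) : L) = algebraMap K L (Nm K L x : K) := rfl
  rw [h2, Units.coe_prod] at h1
  rw [h1, map_prod]
  exact Finset.prod_congr rfl fun i _ => gnorm_pow H φ τ h i _

/-- if `c ^ n` is a `p`-th power and `p ∤ n` then `c` is a `p`-th power -/
theorem gnorm_isPow {K : Type} [Field K] {p : ℕ} (hp : p.Prime) {c : Kˣ} {n : ℕ} (hn : ¬ p ∣ n)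
    (h : IsPow p (c ^ n)) : IsPow p c := by
  obtain ⟨x, hx⟩ := h
  have hcop : Nat.Coprime p n := (Nat.Prime.coprime_iff_not_dvd hp).2 hn
  have h3 := Nat.gcd_eq_gcd_ab p n
  rw [hcop.gcd_eq_one] at h3
  refine ⟨c ^ (Nat.gcdA p n) * x ^ (Nat.gcdB p n), ?_⟩
  have h4 : (x ^ (Nat.gcdB p n)) ^ p = (c ^ n) ^ (Nat.gcdB p n) := by
    rw [← hx, ← zpow_natCast, ← zpow_mul, mul_comm, zpow_mul, zpow_natCast]
  rw [mul_pow, h4, ← zpow_natCast, ← zpow_mul, ← zpow_natCast c n, ← zpow_mul, ← zpow_add,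
    mul_comm (Nat.gcdA p n) (p : ℤ), ← h3]
  simp

theorem gnorm_isPow_one {K : Type} [Field K] {p : ℕ} (hp : p.Prime) {c : Kˣ} (hc : ¬ IsPow p c)
    (θ : Fin 1 → ZMod p) (hθ : θ ≠ 0) : ¬ IsPow p (∏ k, (fun _ : Fin 1 => c) k ^ (θ k).val) := by
  have : NeZero p := ⟨hp.ne_zero⟩
  rw [Fin.prod_univ_one]
  intro h
  apply hc
  refine gnorm_isPow hp (n := (θ 0).val) ?_ h
  intro hd
  apply hθ
  have h1 : (θ 0).val = 0 := Nat.eq_zero_of_dvd_of_lt hd (ZMod.val_lt _)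
  ext k
  rw [Subsingleton.elim k 0]
  have h2 : θ 0 = 0 := (ZMod.val_eq_zero _).1 h1
  rw [h2]
  rfl

theorem norm1 (Ω : Type) [Field Ω] [Algebra K Ω] [IsAlgClosure K Ω] (hp : p.Prime) (hp2 : MOne p K)
    (hζ : IsPrimitiveRoot ζ p) (c b : Kˣ) (hc : Prim p c) (hc' : ¬ IsPow p c)
    (hb : ∀ v : Pl K, ¬ Above p v → B p ζ v c b = 0) :
    ∃ (τ : Gal(Ω/K)) (z : Ω), kk p ζ c τ = 1 ∧ z ≠ 0 ∧
      (∀ u : Gal(Ω/K), kk p ζ c u = 0 → u z = z) ∧
      ∏ i ∈ Finset.range p, (τ ^ i) z = algebraMap K Ω (b : K) := by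
  have hpf : Fact p.Prime := ⟨hp⟩
  obtain ⟨L, iF, iN, iA, ⟨H⟩⟩ := kum_exists hp hζ hc'
  have hac : IsAlgClosed Ω := IsAlgClosure.isAlgClosed K
  have hfd := kuma_fd hp H
  obtain ⟨φ, hφ⟩ : ∃ φ : L →+* Ω, ∀ k : K, φ (algebraMap K L k) = algebraMap K Ω k := by
    refine ⟨(IsAlgClosed.lift : L →ₐ[K] Ω).toRingHom, fun k => ?_⟩
    exact (IsAlgClosed.lift : L →ₐ[K] Ω).commutes k
  obtain ⟨y, hy⟩ := hasse_norm hp hp2 hζ H hc b hb
  obtain ⟨τ, hτ⟩ := kk_surj (Ω := Ω) hp hζ (fun _ : Fin 1 => c) (gnorm_isPow_one hp hc')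
    (fun _ => 1)
  have hτ1 : kk p ζ c τ = 1 := hτ 0
  have hγ : φ (H.γ : L) ^ p = algebraMap K Ω (c : K) := by
    rw [← map_pow, H.hγ, hφ]
  have hact : ∀ x, τ (φ x) = φ (H.σ x) := by
    refine gnorm_act hp hζ H φ (τ : Ω →+* Ω) ?_ ?_
    · intro k
      rw [hφ]
      exact τ.commutes k
    · have h1 := kk_root hp hζ c (φ (H.γ : L)) hγ τ
      rw [hτ1, ZMod.val_one, pow_one] at h1
      rw [hφ]
      exact h1
  refine ⟨τ, φ (y : L), hτ1, ?_, ?_, ?_⟩
  · rw [ne_eq, map_eq_zero]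
    exact y.ne_zero
  · intro u hu
    have h1 := kk_root hp hζ c (φ (H.γ : L)) hγ u
    rw [hu, ZMod.val_zero, pow_zero, one_mul] at h1
    have h2 := gnorm_ext hp hζ H ((u : Ω →+* Ω).comp φ) φ (by
      intro k
      change u (φ (algebraMap K L k)) = _
      rw [hφ]
      exact u.commutes k) h1
    exact congrArg (fun F : L →+* Ω => F y) h2
  · rw [gnorm_prod hp hζ H φ τ hact y, hy, hφ]

/-- elements of `Ω` fixed by the Galois group -/
theorem gnorm_fixed {K : Type} [Field K] [NumberField K] {Ω : Type} [Field Ω] [Algebra K Ω]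
    [IsAlgClosure K Ω] (x : Ω) (h : ∀ σ : Gal(Ω/K), σ x = x) : ∃ k : K, algebraMap K Ω k = x := by
  have hac : IsAlgClosed Ω := IsAlgClosure.isAlgClosed K
  have hal : Algebra.IsAlgebraic K Ω := IsAlgClosure.isAlgebraic
  have hn : Normal K Ω := IsAlgClosure.normal K Ω
  have hg : IsGalois K Ω := ⟨⟩
  have h1 := InfiniteGalois.fixedField_fixingSubgroup (⊥ : IntermediateField K Ω)
  have h2 : x ∈ (⊥ : IntermediateField K Ω) := by
    rw [← h1, IntermediateField.mem_fixedField_iff]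
    intro σ _
    exact h σ
  exact IntermediateField.mem_bot.1 h2

/-- `A` is not a `p`-th power in `K(c^{1/p})` -/
theorem gnorm_indep {K : Type} [Field K] [NumberField K] {L : Type} [Field L] [NumberField L]
    [Algebra K L] {p : ℕ} (hp : p.Prime) {ζ : K} (hζ : IsPrimitiveRoot ζ p) {A c : Kˣ}
    (H : Kum p K ζ c L) (hind : ∀ i j : ℕ, IsPow p (A ^ i * c ^ j) → p ∣ i ∧ p ∣ j) :
    ¬ IsPow p (inc K L A) := by
  have hp0 : NeZero p := ⟨hp.ne_zero⟩
  rintro ⟨x, hx⟩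
  have hz : IsPrimitiveRoot (algebraMap K L ζ) p := hζ.map_of_injective (algebraMap K L).injective
  have hx1 : (x : L) ^ p = algebraMap K L (A : K) := by
    have := congrArg Units.val hx
    rw [Units.val_pow_eq_pow_val] at this
    exact this
  have h1 : (H.σ (x : L) / (x : L)) ^ p = 1 := by
    rw [div_pow, ← map_pow, hx1, AlgEquiv.commutes, div_self]
    rw [← hx1]
    exact pow_ne_zero _ x.ne_zero
  obtain ⟨k, -, hk⟩ := hz.eq_pow_of_pow_eq_one h1
  have h2 : H.σ (x : L) = algebraMap K L ζ ^ k * (x : L) := by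
    rw [hk, div_mul_cancel₀ _ x.ne_zero]
  have hz0 : algebraMap K L ζ ≠ 0 := hz.ne_zero hp.ne_zero
  have h3 : H.σ ((x : L) * ((H.γ : L) ^ k)⁻¹) = (x : L) * ((H.γ : L) ^ k)⁻¹ := by
    rw [map_mul, map_inv₀, map_pow, h2, H.hσ, mul_pow, mul_inv]
    field_simp
  obtain ⟨y, hy⟩ := kum_fixed hp hζ H _ h3
  have hy0 : y ≠ 0 := by
    rintro rfl
    rw [map_zero] at hy
    exact mul_ne_zero x.ne_zero (inv_ne_zero (pow_ne_zero _ H.γ.ne_zero)) hy.symm
  have h4 : (x : L) = algebraMap K L y * (H.γ : L) ^ k := by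
    rw [hy, mul_assoc, inv_mul_cancel₀ (pow_ne_zero _ H.γ.ne_zero), mul_one]
  have h5 : (A : K) = y ^ p * (c : K) ^ k := by
    apply (algebraMap K L).injective
    rw [← hx1, h4, mul_pow, ← pow_mul, mul_comm k p, pow_mul, H.hγ, map_mul, map_pow, map_pow]
  have h6 : IsPow p (A ^ 1 * c ^ ((p - 1) * k)) := by
    refine ⟨Units.mk0 y hy0 * c ^ k, ?_⟩
    apply Units.ext
    rw [Units.val_pow_eq_pow_val, Units.val_mul, Units.val_mul, Units.val_pow_eq_pow_val,
      Units.val_pow_eq_pow_val, Units.val_pow_eq_pow_val, Units.val_mk0, h5, pow_one, mul_pow,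
      ← pow_mul, mul_assoc, ← pow_add]
    congr 2
    have : p = (p - 1) + 1 := by have := hp.pos; omega
    nth_rewrite 1 [this]
    ring
  have h7 := (hind _ _ h6).1
  exact hp.one_lt.ne' (Nat.dvd_one.1 h7)

theorem gnorm_surj2 {K : Type} [Field K] [NumberField K] {Ω : Type} [Field Ω] [Algebra K Ω]
    [IsAlgClosure K Ω] {p : ℕ} (hp : p.Prime) {ζ : K} (hζ : IsPrimitiveRoot ζ p) {A c : Kˣ}
    (hind : ∀ i j : ℕ, IsPow p (A ^ i * c ^ j) → p ∣ i ∧ p ∣ j) (s t : ZMod p) :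
    ∃ σ : Gal(Ω/K), kk p ζ A σ = s ∧ kk p ζ c σ = t := by
  have hp0 : NeZero p := ⟨hp.ne_zero⟩
  obtain ⟨σ, hσ⟩ := kk_surj (Ω := Ω) hp hζ ![A, c] (by
    intro θ hθ h
    rw [Fin.prod_univ_two] at h
    have h1 := hind _ _ h
    apply hθ
    have h2 : (θ 0).val = 0 := Nat.eq_zero_of_dvd_of_lt h1.1 (ZMod.val_lt _)
    have h3 : (θ 1).val = 0 := Nat.eq_zero_of_dvd_of_lt h1.2 (ZMod.val_lt _)
    ext k
    fin_cases k
    · show θ 0 = 0
      exact (ZMod.val_eq_zero _).1 h2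
    · show θ 1 = 0
      exact (ZMod.val_eq_zero _).1 h3) ![s, t]
  exact ⟨σ, hσ 0, hσ 1⟩

theorem norm2 (Ω : Type) [Field Ω] [Algebra K Ω] [IsAlgClosure K Ω] (hp : p.Prime) (hp2 : MOne p K)
    (hζ : IsPrimitiveRoot ζ p) (A b c : Kˣ) (hA : Prim p A)
    (hind : ∀ i j : ℕ, IsPow p (A ^ i * c ^ j) → p ∣ i ∧ p ∣ j)
    (hb : ∀ v : Pl K, ¬ Above p v → B p ζ v A b = 0 ∨ (ord v c = 0 ∧ lg p ζ v c ≠ 0)) :
    ∃ (σ τ : Gal(Ω/K)) (z y : Ω) (d : Kˣ), kk p ζ A τ = 1 ∧ kk p ζ c τ = 0 ∧ kk p ζ A σ = 0 ∧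
      kk p ζ c σ = 1 ∧ z ≠ 0 ∧ y ≠ 0 ∧
      (∀ u : Gal(Ω/K), kk p ζ A u = 0 → kk p ζ c u = 0 → u z = z ∧ u y = y) ∧
      ∏ i ∈ Finset.range p, (τ ^ i) z = algebraMap K Ω (b : K) ∧
      ∏ i ∈ Finset.range p, (σ ^ i) y = algebraMap K Ω (d : K) ∧ σ z * y = z * τ y := by
  have hpf : Fact p.Prime := ⟨hp⟩
  have hp0 : NeZero p := ⟨hp.ne_zero⟩
  have hc' : ¬ IsPow p c := by
    intro h
    have h1 := (hind 0 1 (by rwa [pow_zero, one_mul, pow_one])).2
    exact hp.one_lt.ne' (Nat.dvd_one.1 h1)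
  obtain ⟨L, iF, iN, iA, ⟨H⟩⟩ := kum_exists hp hζ hc'
  have hζL : IsPrimitiveRoot (algebraMap K L ζ) p := hζ.map_of_injective (algebraMap K L).injective
  obtain ⟨M, jF, jN, jA, ⟨HM⟩⟩ := kum_exists hp hζL (gnorm_indep hp hζ H hind)
  have hac : IsAlgClosed Ω := IsAlgClosure.isAlgClosed K
  have hfd := kuma_fd hp H
  have hfd2 := kuma_fd hp HM
  -- the embeddings
  obtain ⟨φ, hφ⟩ : ∃ φ : L →+* Ω, ∀ k : K, φ (algebraMap K L k) = algebraMap K Ω k := by
    refine ⟨(IsAlgClosed.lift : L →ₐ[K] Ω).toRingHom, fun k => ?_⟩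
    exact (IsAlgClosed.lift : L →ₐ[K] Ω).commutes k
  obtain ⟨ψ, hψφ⟩ : ∃ ψ : M →+* Ω, ∀ l : L, ψ (algebraMap L M l) = φ l := by
    let alg : Algebra L Ω := φ.toAlgebra
    refine ⟨(IsAlgClosed.lift : M →ₐ[L] Ω).toRingHom, fun l => ?_⟩
    exact (IsAlgClosed.lift : M →ₐ[L] Ω).commutes l
  have hψK : ∀ k : K, ψ (algebraMap L M (algebraMap K L k)) = algebraMap K Ω k := by
    intro k
    rw [hψφ, hφ]
  -- homomorphisms from `M` to `Ω` are determined by the images of the two roots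
  have hext : ∀ f g : M →+* Ω, (∀ k : K, f (algebraMap L M (algebraMap K L k)) =
      g (algebraMap L M (algebraMap K L k))) →
      f (algebraMap L M (H.γ : L)) = g (algebraMap L M (H.γ : L)) →
      f (HM.γ : M) = g (HM.γ : M) → f = g := by
    intro f g h1 h2 h3
    have h4 := gnorm_ext hp hζ H (f.comp (algebraMap L M)) (g.comp (algebraMap L M)) h1 h2
    exact gnorm_ext hp hζL HM f g (fun l => congrArg (fun F : L →+* Ω => F l) h4) h3
  have hγ : φ (H.γ : L) ^ p = algebraMap K Ω (c : K) := by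
    rw [← map_pow, H.hγ, hφ]
  have hα : ψ (HM.γ : M) ^ p = algebraMap K Ω (A : K) := by
    rw [← map_pow, HM.hγ]
    exact hψK A
  have hs : ∀ s : Gal(Ω/K), s (ψ (algebraMap L M (H.γ : L))) =
      algebraMap K Ω ζ ^ (kk p ζ c s).val * ψ (algebraMap L M (H.γ : L)) := by
    intro s
    rw [hψφ]
    exact kk_root hp hζ c _ hγ s
  have ht : ∀ s : Gal(Ω/K), s (ψ (HM.γ : M)) =
      algebraMap K Ω ζ ^ (kk p ζ A s).val * ψ (HM.γ : M) := by
    intro s
    exact kk_root hp hζ A _ hα s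
  have hsK : ∀ (s : Gal(Ω/K)) (k : K), s (ψ (algebraMap L M (algebraMap K L k))) =
      algebraMap K Ω k := by
    intro s k
    rw [hψK]
    exact s.commutes k
  -- two automorphisms with the same values of the characters agree on the image of `ψ`
  have hag : ∀ s s' : Gal(Ω/K), kk p ζ A s = kk p ζ A s' → kk p ζ c s = kk p ζ c s' →
      ∀ x : M, s (ψ x) = s' (ψ x) := by
    intro s s' h1 h2 x
    have h3 := hext ((s : Ω →+* Ω).comp ψ) ((s' : Ω →+* Ω).comp ψ) (by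
      intro k
      change s (ψ _) = s' (ψ _)
      rw [hsK, hsK]) (by
      change s (ψ _) = s' (ψ _)
      rw [hs, hs, h2]) (by
      change s (ψ _) = s' (ψ _)
      rw [ht, ht, h1])
    exact congrArg (fun F : M →+* Ω => F x) h3
  obtain ⟨τ, hτA, hτc⟩ := gnorm_surj2 (Ω := Ω) hp hζ hind 1 0
  obtain ⟨σ, hσA, hσc⟩ := gnorm_surj2 (Ω := Ω) hp hζ hind 0 1
  have hkkpow : ∀ (a : Kˣ) (s : Gal(Ω/K)) (i : ℕ), kk p ζ a (s ^ i) = i * kk p ζ a s := by
    intro a s i
    induction i with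
    | zero => rw [pow_zero, kk_one, Nat.cast_zero, zero_mul]
    | succ i ih => rw [pow_succ, kk_mul, ih]; push_cast; ring
  have hone : ∀ s : Gal(Ω/K), kk p ζ A s = 0 → kk p ζ c s = 0 → ∀ x : M, s (ψ x) = ψ x := by
    intro s h1 h2 x
    have := hag s 1 (by rw [h1, kk_one]) (by rw [h2, kk_one]) x
    rwa [AlgEquiv.one_apply] at this
  -- `τ` acts as `HM.σ`
  have hτL : ∀ l : L, τ (ψ (algebraMap L M l)) = ψ (algebraMap L M l) := by
    intro l
    have h1 := gnorm_ext hp hζ H ((τ : Ω →+* Ω).comp (ψ.comp (algebraMap L M)))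
      (ψ.comp (algebraMap L M)) (by
        intro k
        change τ (ψ _) = ψ _
        rw [hsK, hψK]) (by
        change τ (ψ _) = ψ _
        rw [hs, hτc, ZMod.val_zero, pow_zero, one_mul])
    exact congrArg (fun F : L →+* Ω => F l) h1
  have hact : ∀ x, τ (ψ x) = ψ (HM.σ x) := by
    refine gnorm_act hp hζL HM ψ (τ : Ω →+* Ω) hτL ?_
    have h1 := ht τ
    rw [hτA, ZMod.val_one, pow_one] at h1
    rw [hψK]
    exact h1
  -- the image of `ψ` is stable under `σ`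
  have hstab : ∀ x : M, ∃ x' : M, ψ x' = σ (ψ x) := by
    have hS0 : ∀ l : L, algebraMap L M l ∈ (ψ.fieldRange).comap ((σ : Ω →+* Ω).comp ψ) := by
      intro l
      have h1 := kuma_top hp hζ H (((ψ.fieldRange).comap
        (((σ : Ω →+* Ω).comp ψ).comp (algebraMap L M))).toIntermediateField (by
          intro k
          rw [Subfield.mem_comap]
          refine ⟨algebraMap L M (algebraMap K L k), ?_⟩
          change _ = σ (ψ _)
          rw [hsK, hψK])) (by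
          change (H.γ : L) ∈ (ψ.fieldRange).comap (((σ : Ω →+* Ω).comp ψ).comp (algebraMap L M))
          rw [Subfield.mem_comap]
          refine ⟨algebraMap L M (algebraMap K L ζ * H.γ), ?_⟩
          change _ = σ (ψ (algebraMap L M (H.γ : L)))
          rw [hs, hσc, ZMod.val_one, pow_one, map_mul, map_mul, hψK])
      have h2 : l ∈ (((ψ.fieldRange).comap
        (((σ : Ω →+* Ω).comp ψ).comp (algebraMap L M))).toIntermediateField (by
          intro k
          rw [Subfield.mem_comap]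
          refine ⟨algebraMap L M (algebraMap K L k), ?_⟩
          change _ = σ (ψ _)
          rw [hsK, hψK]) : IntermediateField K L) := by
        rw [h1]
        exact IntermediateField.mem_top
      exact h2
    have h3 := kuma_top hp hζL HM (((ψ.fieldRange).comap
      ((σ : Ω →+* Ω).comp ψ)).toIntermediateField hS0) (by
        change (HM.γ : M) ∈ (ψ.fieldRange).comap ((σ : Ω →+* Ω).comp ψ)
        rw [Subfield.mem_comap]
        refine ⟨HM.γ, ?_⟩
        change _ = σ (ψ (HM.γ : M))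
        rw [ht, hσA, ZMod.val_zero, pow_zero, one_mul])
    intro x
    have h4 : x ∈ (((ψ.fieldRange).comap
      ((σ : Ω →+* Ω).comp ψ)).toIntermediateField hS0 : IntermediateField L M) := by
      rw [h3]
      exact IntermediateField.mem_top
    exact h4
  -- the Hasse norm theorem over `L`
  obtain ⟨z, hz⟩ := hasse_norm hp (mone_map hp2 L) hζL HM (bc_prim hA) (inc K L b) (by
    intro w hw
    obtain ⟨v, hv⟩ := exists_below (K := K) w
    have hv' : ¬ Above p v := fun h => hw ((above_over hv p).2 h)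
    rcases hb v hv' with h | ⟨h, h'⟩
    · obtain ⟨e, f, -, -, -, h4⟩ := bc_data hp hζ hv hv'
      rw [h4, h, mul_zero]
    · exact bc_inert hp hζ H hv hv' h h' A b)
  have hzprod : ∏ i ∈ Finset.range p, (τ ^ i) (ψ (z : M)) = algebraMap K Ω (b : K) := by
    rw [gnorm_prod hp hζL HM ψ τ hact z, hz]
    exact hψK b
  obtain ⟨z', hz'⟩ := hstab (z : M)
  have hψz : ψ (z : M) ≠ 0 := by
    rw [ne_eq, map_eq_zero]
    exact z.ne_zero
  have hz'0 : z' ≠ 0 := by
    rintro rfl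
    rw [map_zero] at hz'
    exact hψz ((map_eq_zero σ).1 hz'.symm)
  obtain ⟨q, hq⟩ : ∃ q : Mˣ, q = Units.mk0 z' hz'0 * z⁻¹ := ⟨_, rfl⟩
  have hψq : ψ (q : M) * ψ (z : M) = σ (ψ (z : M)) := by
    rw [← map_mul, hq, Units.val_mul, Units.val_mk0, mul_assoc, ← Units.val_mul, inv_mul_cancel,
      Units.val_one, mul_one, hz']
  have hcomm : ∀ (i : ℕ) (x : M), (τ ^ i) (σ (ψ x)) = σ ((τ ^ i) (ψ x)) := by
    intro i x
    have h1 := hag (τ ^ i * σ) (σ * τ ^ i) (by rw [kk_mul, kk_mul, add_comm])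
      (by rw [kk_mul, kk_mul, add_comm]) x
    rw [AlgEquiv.mul_apply, AlgEquiv.mul_apply] at h1
    exact h1
  have hqnorm : Nm L M q = 1 := by
    apply Units.ext
    apply (algebraMap L M).injective
    apply ψ.injective
    rw [← gnorm_prod hp hζL HM ψ τ hact q]
    have h1 : (∏ i ∈ Finset.range p, (τ ^ i) (ψ (q : M))) * algebraMap K Ω (b : K) =
        algebraMap K Ω (b : K) := by
      nth_rewrite 1 [← hzprod]
      rw [← Finset.prod_mul_distrib]
      have h2 : ∀ i ∈ Finset.range p, (τ ^ i) (ψ (q : M)) * (τ ^ i) (ψ (z : M)) =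
          σ ((τ ^ i) (ψ (z : M))) := by
        intro i _
        rw [← map_mul, hψq, hcomm]
      rw [Finset.prod_congr rfl h2, ← map_prod, hzprod]
      exact σ.commutes _
    have hb0 : algebraMap K Ω (b : K) ≠ 0 := by
      rw [ne_eq, map_eq_zero]
      exact b.ne_zero
    have h3 : ∏ i ∈ Finset.range p, (τ ^ i) (ψ (q : M)) = 1 :=
      mul_right_cancel₀ hb0 (by rw [h1, one_mul])
    rw [h3]
    simp
  obtain ⟨y, hy⟩ := kum_h90 hp hζL HM q hqnorm
  have hψy : ψ (y : M) ≠ 0 := by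
    rw [ne_eq, map_eq_zero]
    exact y.ne_zero
  have hqy : ψ (q : M) * ψ (y : M) = τ (ψ (y : M)) := by
    rw [← map_mul, hy, Units.val_mul, mul_assoc, ← Units.val_mul, inv_mul_cancel,
      Units.val_one, mul_one, hact]
    rfl
  have hzy : σ (ψ (z : M)) * ψ (y : M) = ψ (z : M) * τ (ψ (y : M)) := by
    rw [← hψq, ← hqy]
    ring
  -- the element `d`
  have hstabi : ∀ (i : ℕ) (x : M), ∃ x' : M, ψ x' = (σ ^ i) (ψ x) := by
    intro i
    induction i with
    | zero => exact fun x => ⟨x, by simp⟩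
    | succ i ih =>
      intro x
      obtain ⟨x', hx'⟩ := ih x
      obtain ⟨x'', hx''⟩ := hstab x'
      exact ⟨x'', by rw [hx'', hx', pow_succ', AlgEquiv.mul_apply]⟩
  obtain ⟨D, hD⟩ : ∃ D : Ω, D = ∏ i ∈ Finset.range p, (σ ^ i) (ψ (y : M)) := ⟨_, rfl⟩
  have hD0 : D ≠ 0 := by
    rw [hD]
    refine Finset.prod_ne_zero_iff.2 fun i _ => ?_
    rw [ne_eq, map_eq_zero]
    exact hψy
  obtain ⟨D', hD'⟩ : ∃ D' : M, ψ D' = D := by
    choose g hg using fun i : ℕ => hstabi i (y : M)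
    refine ⟨∏ i ∈ Finset.range p, g i, ?_⟩
    rw [map_prod, hD]
    exact Finset.prod_congr rfl fun i _ => hg i
  have hσp : ∀ x : M, (σ ^ p) (ψ x) = ψ x := by
    intro x
    refine hone _ ?_ ?_ x
    · rw [hkkpow, hσA, mul_zero]
    · rw [hkkpow, hσc, mul_one, ZMod.natCast_self]
  -- telescoping products
  have htel : ∀ x : M, x ≠ 0 → ∏ i ∈ Finset.range p, (σ ^ (i + 1)) (ψ x) =
      ∏ i ∈ Finset.range p, (σ ^ i) (ψ x) := by
    intro x _
    have h1 := Finset.prod_range_succ (fun i => (σ ^ i) (ψ x)) p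
    have h2 := Finset.prod_range_succ' (fun i => (σ ^ i) (ψ x)) p
    rw [h1] at h2
    rw [hσp, pow_zero, AlgEquiv.one_apply] at h2
    have h3 : ψ x ≠ 0 := by
      rw [ne_eq, map_eq_zero]
      assumption
    exact (mul_right_cancel₀ h3 h2).symm
  have hσD : σ D = D := by
    rw [hD, map_prod]
    have h1 : ∀ i ∈ Finset.range p, σ ((σ ^ i) (ψ (y : M))) = (σ ^ (i + 1)) (ψ (y : M)) := by
      intro i _
      rw [pow_succ', AlgEquiv.mul_apply]
    rw [Finset.prod_congr rfl h1]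
    exact htel _ y.ne_zero
  have hcomm2 : ∀ (i : ℕ) (x : M), (σ ^ i) (τ (ψ x)) = τ ((σ ^ i) (ψ x)) := by
    intro i x
    have h1 := hag (σ ^ i * τ) (τ * σ ^ i) (by rw [kk_mul, kk_mul, add_comm])
      (by rw [kk_mul, kk_mul, add_comm]) x
    rw [AlgEquiv.mul_apply, AlgEquiv.mul_apply] at h1
    exact h1
  have hτD : τ D = D := by
    have hq1 : ∏ i ∈ Finset.range p, (σ ^ i) (ψ (q : M)) = 1 := by
      have h1 : (∏ i ∈ Finset.range p, (σ ^ i) (ψ (q : M))) *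
          (∏ i ∈ Finset.range p, (σ ^ i) (ψ (z : M))) =
          ∏ i ∈ Finset.range p, (σ ^ i) (ψ (z : M)) := by
        rw [← Finset.prod_mul_distrib]
        have h2 : ∀ i ∈ Finset.range p, (σ ^ i) (ψ (q : M)) * (σ ^ i) (ψ (z : M)) =
            (σ ^ (i + 1)) (ψ (z : M)) := by
          intro i _
          rw [← map_mul, hψq, pow_succ, AlgEquiv.mul_apply]
        rw [Finset.prod_congr rfl h2]
        exact htel _ z.ne_zero
      have h3 : ∏ i ∈ Finset.range p, (σ ^ i) (ψ (z : M)) ≠ 0 := by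
        refine Finset.prod_ne_zero_iff.2 fun i _ => ?_
        rw [ne_eq, map_eq_zero]
        exact hψz
      exact mul_right_cancel₀ h3 (by rw [h1, one_mul])
    rw [hD, map_prod]
    have h1 : ∀ i ∈ Finset.range p, τ ((σ ^ i) (ψ (y : M))) =
        (σ ^ i) (ψ (q : M)) * (σ ^ i) (ψ (y : M)) := by
      intro i _
      rw [← hcomm2, ← hqy, map_mul]
    rw [Finset.prod_congr rfl h1, Finset.prod_mul_distrib, hq1, one_mul]
  have hpowfix : ∀ (s : Gal(Ω/K)), s D = D → ∀ i : ℕ, (s ^ i) D = D := by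
    intro s h i
    induction i with
    | zero => simp
    | succ i ih => rw [pow_succ', AlgEquiv.mul_apply, ih, h]
  obtain ⟨d, hd⟩ := gnorm_fixed D (by
    intro s
    have h1 := hag s (σ ^ (kk p ζ c s).val * τ ^ (kk p ζ A s).val) (by
      rw [kk_mul, hkkpow, hkkpow, hσA, hτA, mul_zero, zero_add, mul_one, ZMod.natCast_zmod_val]) (by
      rw [kk_mul, hkkpow, hkkpow, hσc, hτc, mul_zero, add_zero, mul_one, ZMod.natCast_zmod_val]) D'
    rw [hD'] at h1
    rw [h1, AlgEquiv.mul_apply, hpowfix τ hτD, hpowfix σ hσD])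
  have hd0 : d ≠ 0 := by
    rintro rfl
    rw [map_zero] at hd
    exact hD0 hd.symm
  refine ⟨σ, τ, ψ (z : M), ψ (y : M), Units.mk0 d hd0, hτA, hτc, hσA, hσc, hψz, hψy, ?_, hzprod,
    ?_, hzy⟩
  · intro u h1 h2
    exact ⟨hone u h1 h2 _, hone u h1 h2 _⟩
  · rw [Units.val_mk0, hd, hD]

end H63.MA
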