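import Pool.Agent.H63.MA.RelA
import Pool.Agent.H63.MA.WA

/-!
# MA-FAM: families of local characters with sum zero

A family is `β : Pl K → Kˣ → ZMod p`. `IsFam β`: every `β v` is a homomorphism (written additively), `β v = 0` for `v ∣ p`,
`β v x = 0` if `x ≡ 1` modulo `v`, for all but finitely many `v` it is unramified (`β v x = 0` if `ord v x = 0`), and
`∑_v β v x = 0` for all `x`.
* `fam_zero_of`: a family with `β v = 0` for all `v` outside a finite set is `0`: for `v₀ ∈ T` and `y ∈ K^*` choose (weak
  approximation) `x` with `x ≡ y` modulo `v₀` and `x ≡ 1` modulo the other `v ∈ T`; then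
  `0 = ∑_v β v x = β v₀ x = β v₀ y`.
* `fam_of_rel`: if `IsRel c k` then `v ↦ k v * B v c ·` is a family (unramified outside the primes with `p ∤ ord v c` by
  `B_unram` and `p ∣ ord`: for `ord v x = 0`, `B v c x = ord v x * B v c π = 0`).
* linear combinations of families are families (`fam_lin`).
* `fam_finite`: for fixed `x`, `β v x ≠ 0` for only finitely many `v`.
-/

set_option autoImplicit false

open scoped NumberField
open IsDedekindDomain

noncomputable section

namespace H63.MA

variable {K : Type} [Field K] [NumberField K]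

/-- families of tame local characters with sum zero -/
structure IsFam (p : ℕ) (β : Pl K → Kˣ → ZMod p) : Prop where
  mul : ∀ v x y, β v (x * y) = β v x + β v y
  above : ∀ v, Above p v → ∀ x, β v x = 0
  one1 : ∀ v x, One1 v x → β v x = 0
  unram : {v : Pl K | ∃ x, ord v x = 0 ∧ β v x ≠ 0}.Finite
  sum : ∀ x, ∑ᶠ v, β v x = 0

theorem fam_aux_one {p : ℕ} {β : Pl K → Kˣ → ZMod p} (h : IsFam p β) (v : Pl K) :
    β v 1 = 0 := by
  have h1 := h.mul v 1 1
  rw [mul_one] at h1
  exact left_eq_add.1 h1

theorem fam_finite {p : ℕ} {β : Pl K → Kˣ → ZMod p} (h : IsFam p β) (x : Kˣ) :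
    {v : Pl K | β v x ≠ 0}.Finite := by
  refine (h.unram.union (finite_ord x)).subset fun v hv => ?_
  by_cases ho : ord v x = 0
  · exact Or.inl ⟨x, ho, hv⟩
  · exact Or.inr ho

theorem fam_lin {p : ℕ} {β β' : Pl K → Kˣ → ZMod p} (h : IsFam p β) (h' : IsFam p β')
    (a a' : ZMod p) : IsFam p fun v x => a * β v x + a' * β' v x where
  mul := fun v x y => by
    rw [h.mul, h'.mul]
    ring
  above := fun v hv x => by
    rw [h.above v hv, h'.above v hv]
    ring
  one1 := fun v x hx => by
    rw [h.one1 v x hx, h'.one1 v x hx]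
    ring
  unram := by
    refine (h.unram.union h'.unram).subset fun v hv => ?_
    obtain ⟨x, ho, hx⟩ := hv
    by_cases h1 : β v x = 0
    · by_cases h2 : β' v x = 0
      · exfalso
        apply hx
        rw [h1, h2]
        ring
      · exact Or.inr ⟨x, ho, h2⟩
    · exact Or.inl ⟨x, ho, h1⟩
  sum := fun x => by
    have h1 : (Function.support fun v => a * β v x).Finite := by
      refine (fam_finite h x).subset fun v hv => ?_
      intro hz
      apply hv
      change a * β v x = 0
      rw [hz, mul_zero]
    have h2 : (Function.support fun v => a' * β' v x).Finite := by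
      refine (fam_finite h' x).subset fun v hv => ?_
      intro hz
      apply hv
      change a' * β' v x = 0
      rw [hz, mul_zero]
    rw [finsum_add_distrib h1 h2, ← mul_finsum' _ _ (fam_finite h x),
      ← mul_finsum' _ _ (fam_finite h' x), h.sum, h'.sum]
    ring

theorem fam_zero_of {p : ℕ} {β : Pl K → Kˣ → ZMod p} (h : IsFam p β) (T : Set (Pl K))
    (hT : T.Finite) (h0 : ∀ v, v ∉ T → ∀ x, β v x = 0) (v : Pl K) (x : Kˣ) : β v x = 0 := by
  classical
  by_cases hv : v ∈ T
  swap
  · exact h0 v hv x
  obtain ⟨z, hz⟩ := weak_approx_one hT.toFinset (fun w => if w = v then x else 1)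
  have h1 := h.sum z
  rw [finsum_eq_single _ v] at h1
  · have h2 := hz v (hT.mem_toFinset.2 hv)
    rw [if_pos rfl] at h2
    have h3 := h.one1 v _ h2
    have h4 := h.mul v (z * x⁻¹) x
    rw [inv_mul_cancel_right, h1, h3, zero_add] at h4
    exact h4.symm
  · intro w hw
    by_cases hwT : w ∈ T
    · have h2 := hz w (hT.mem_toFinset.2 hwT)
      rw [if_neg hw, inv_one, mul_one] at h2
      exact h.one1 w _ h2
    · exact h0 w hwT z

theorem fam_of_rel {p : ℕ} (hp : p.Prime) {ζ : K} (hζ : IsPrimitiveRoot ζ p) {c : Kˣ}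
    {k : Pl K → ZMod p} (h : IsRel p ζ c k) : IsFam p fun v x => k v * B p ζ v c x where
  mul := fun v x y => by
    by_cases hv : Above p v
    · rw [h.1 v (Or.inl hv)]
      ring
    · rw [B_mul_right hp hζ hv]
      ring
  above := fun v hv x => by
    rw [h.1 v (Or.inl hv), zero_mul]
  one1 := fun v x hx => by
    by_cases hv : Above p v
    · rw [h.1 v (Or.inl hv), zero_mul]
    · rw [B_of_one1 hp hζ hv _ hx, mul_zero]
  unram := by
    refine (finite_ord c).subset fun v hv => ?_
    obtain ⟨x, ho, hx⟩ := hv
    intro hc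
    apply hx
    by_cases hv : Above p v
    · rw [h.1 v (Or.inl hv), zero_mul]
    · rw [B_unit hp hζ hv hc, ho, Int.cast_zero, zero_mul, mul_zero]
  sum := h.2

end H63.MA
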