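import Pool.Agent.H63.MA.LBd
import Pool.Agent.H63.MA.RayC
import Pool.Agent.H63.MA.Fam

/-!
# MA-DEN: the kernel of `m` independent additive ray class characters has density at most `p^{-m}`

* `den_ray`. For `a ∈ (ZMod p)^m` let `f_a = ∑ a_i f_i`, `χ_a` its ray class character (`ray_rc`, `ray_lin`). For `v ∤ 𝔣`:
  `∑_a χ_a(v) = ∑_a ep(∑ a_i f_i(v))`, which is `p^m` if all `f_i(v) = 0` and `0` otherwise (`ep_sum`, product over `i`). So
  `p^m PZ(A) ≤ ∑_a ∑_v Re χ_a(v) (N v)^{-s} + O(1)` (finitely many `v ∣ 𝔣`), the term `a = 0` is `≤ PZ(univ) ≤ log(1/(s-1)) + C`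
  (`pz_all`), the others are `≤ C` (`ray_re`, `χ_a` is nontrivial because `f_a ≠ 0`).
* `den_fam`: for families `β_i` (`IsFam`) let `T` be a finite set of primes outside which all `β_i` are unramified, containing
  the primes above `p`, `𝔣 = ∏_{v ∈ T} v`, `f_i(v) = β_i v (g_v)` for `v ∉ T` (`ord v g_v = 1`), `0` for `v ∈ T`. For `x ≡ 1 mod 𝔣` integral:
  `0 = ∑_v β_i v x = ∑_{v ∉ T} ord v x f_i(v)` (`one1`). Independence of the `f_i`: if `∑ a_i f_i = 0` then the family
  `∑ a_i β_i` vanishes outside `T`, so it is `0` (`fam_zero_of`). For `v ∉ T`: all `β_i v · = 0` iff all `f_i(v) = 0`.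
-/

set_option autoImplicit false

open scoped NumberField
open IsDedekindDomain

noncomputable section

namespace H63.MA

variable {K : Type} [Field K] [NumberField K]

theorem den_ray_zero {p : ℕ} {𝔣 : Ideal (𝓞 K)} : IsRay p 𝔣 fun _ : Pl K => (0 : ZMod p) where
  zero := fun _ _ => rfl
  ray := fun x a _ _ => by simp

theorem den_ray_sum {p : ℕ} {𝔣 : Ideal (𝓞 K)} {m : ℕ} (f : Fin m → Pl K → ZMod p)
    (hf : ∀ i, IsRay p 𝔣 (f i)) (a : Fin m → ZMod p) (s : Finset (Fin m)) :
    IsRay p 𝔣 fun v => ∑ i ∈ s, a i * f i v := by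
  classical
  induction s using Finset.induction_on with
  | empty =>
    simp only [Finset.sum_empty]
    exact den_ray_zero
  | insert j s hj ih =>
    have h := ray_lin (hf j) ih (a j) 1
    have he : (fun v => a j * f j v + 1 * ∑ i ∈ s, a i * f i v) =
        fun v => ∑ i ∈ insert j s, a i * f i v := by
      funext v
      rw [Finset.sum_insert hj, one_mul]
    rwa [he] at h

theorem den_ep_sum {p : ℕ} (hp : p.Prime) [NeZero p] {m : ℕ} (b : Fin m → ZMod p) :
    ∑ a : Fin m → ZMod p, ep p (∑ i, a i * b i) = if ∀ i, b i = 0 then ((p : ℂ) ^ m) else 0 := by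
  classical
  have h1 : ∀ a : Fin m → ZMod p, ep p (∑ i, a i * b i) = ∏ i, ep p (a i * b i) := by
    intro a
    have h2 : ∀ s : Finset (Fin m), ep p (∑ i ∈ s, a i * b i) = ∏ i ∈ s, ep p (a i * b i) := by
      intro s
      induction s using Finset.induction_on with
      | empty => rw [Finset.sum_empty, Finset.prod_empty, ep_zero]
      | insert j s hj ih => rw [Finset.sum_insert hj, Finset.prod_insert hj, ep_add hp, ih]
    exact h2 Finset.univ
  rw [Finset.sum_congr rfl fun a _ => h1 a]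
  have h2 := Finset.prod_univ_sum (fun _ : Fin m => (Finset.univ : Finset (ZMod p)))
    (fun i c => ep p (c * b i))
  rw [Fintype.piFinset_univ] at h2
  rw [← h2, Finset.prod_congr rfl fun i _ => ep_sum hp (b i)]
  by_cases h : ∀ i, b i = 0
  · rw [if_pos h, Finset.prod_congr rfl fun i _ => if_pos (h i), Finset.prod_const,
      Finset.card_univ, Fintype.card_fin]
  · rw [if_neg h]
    push Not at h
    obtain ⟨i, hi⟩ := h
    exact Finset.prod_eq_zero (Finset.mem_univ i) (if_neg hi)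

theorem den_ray {p : ℕ} (hp : p.Prime) {𝔣 : Ideal (𝓞 K)} (h𝔣 : 𝔣 ≠ ⊥) {m : ℕ}
    (f : Fin m → Pl K → ZMod p) (hf : ∀ i, IsRay p 𝔣 (f i))
    (hind : ∀ a : Fin m → ZMod p, (∀ v, ∑ i, a i * f i v = 0) → a = 0) :
    ∃ C : ℝ, ∀ s : ℝ, 1 < s → s ≤ 2 →
      (p : ℝ) ^ m * PZ {v : Pl K | ∀ i, f i v = 0} s ≤ Real.log (1 / (s - 1)) + C := by
  classical
  have : NeZero p := ⟨hp.ne_zero⟩
  have hra : ∀ a : Fin m → ZMod p, IsRay p 𝔣 fun v => ∑ i, a i * f i v :=
    fun a => den_ray_sum f hf a Finset.univ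
  choose χ hχ hχN using fun a => ray_rc hp h𝔣 (hra a)
  have hnorm : ∀ a (v : Pl K), ‖(χ a).χ v.asIdeal‖ ≤ 1 := fun a v => lbd_rc_norm_le (χ a) _
  have hsumm : ∀ (s : ℝ), 1 < s → ∀ a, Summable fun v : Pl K =>
      ((χ a).χ v.asIdeal).re * (nm v : ℝ) ^ (-s) := by
    intro s hs a
    refine Summable.of_norm_bounded (pz_summable K hs) fun v => ?_
    have h0 : 0 ≤ (nm v : ℝ) ^ (-s) := Real.rpow_nonneg (Nat.cast_nonneg _) _
    rw [norm_mul, Real.norm_of_nonneg h0, Real.norm_eq_abs]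
    exact mul_le_of_le_one_left h0 ((Complex.abs_re_le_norm _).trans (hnorm a v))
  -- bounds for the sums over the characters
  have hbd : ∀ a : Fin m → ZMod p, ∃ C : ℝ, ∀ s : ℝ, 1 < s → s ≤ 2 →
      ∑' v : Pl K, ((χ a).χ v.asIdeal).re * (nm v : ℝ) ^ (-s) ≤
        C + if a = 0 then Real.log (1 / (s - 1)) else 0 := by
    intro a
    by_cases ha : a = 0
    · obtain ⟨C, hC⟩ := pz_all K
      refine ⟨C, fun s hs hs2 => ?_⟩
      rw [if_pos ha]
      have h1 : ∑' v : Pl K, ((χ a).χ v.asIdeal).re * (nm v : ℝ) ^ (-s) ≤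
          PZ (Set.univ : Set (Pl K)) s := by
        unfold PZ
        refine Summable.tsum_le_tsum (fun v => ?_) (hsumm s hs a) ((pz_summable K hs).indicator _)
        rw [Set.indicator_univ]
        exact mul_le_of_le_one_left (Real.rpow_nonneg (Nat.cast_nonneg _) _)
          ((Complex.re_le_norm _).trans (hnorm a v))
      have h2 := (abs_le.1 (hC s hs hs2)).2
      linarith
    · have hne : ∃ v, ∑ i, a i * f i v ≠ 0 := by
        by_contra hcon
        push Not at hcon
        exact ha (hind a hcon)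
      obtain ⟨C, hC⟩ := ray_re h𝔣 (χ a) (hχN a hne)
      refine ⟨C, fun s hs hs2 => ?_⟩
      rw [if_neg ha, add_zero]
      exact hC s hs hs2
  choose C hC using hbd
  -- the primes dividing the modulus
  have hTfin : {v : Pl K | v.asIdeal ∣ 𝔣}.Finite := Ideal.finite_factors h𝔣
  obtain ⟨CT, hCT⟩ := pz_finite hTfin
  refine ⟨∑ a, C a + (p : ℝ) ^ m * CT, fun s hs hs2 => ?_⟩
  have hpt : ∀ v : Pl K, (p : ℝ) ^ m * ({v : Pl K | ∀ i, f i v = 0}.indicator
      (fun v => (nm v : ℝ) ^ (-s)) v) ≤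
      (∑ a, ((χ a).χ v.asIdeal).re * (nm v : ℝ) ^ (-s)) +
        (p : ℝ) ^ m * ({v : Pl K | v.asIdeal ∣ 𝔣}.indicator (fun v => (nm v : ℝ) ^ (-s)) v) := by
    intro v
    have h0 : 0 ≤ (nm v : ℝ) ^ (-s) := Real.rpow_nonneg (Nat.cast_nonneg _) _
    by_cases hv : v.asIdeal ∣ 𝔣
    · have hz : ∀ a, (χ a).χ v.asIdeal = 0 := by
        intro a
        refine (χ a).zero_of _ fun hcop => ?_
        have h1 := hcop.isUnit_of_dvd' (dvd_refl _) hv
        exact v.irreducible.not_isUnit h1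
      have h2 : ∑ a, ((χ a).χ v.asIdeal).re * (nm v : ℝ) ^ (-s) = 0 := by
        refine Finset.sum_eq_zero fun a _ => ?_
        rw [hz a, Complex.zero_re, zero_mul]
      rw [h2, zero_add, Set.indicator_of_mem (show v ∈ {v : Pl K | v.asIdeal ∣ 𝔣} from hv)]
      refine mul_le_mul_of_nonneg_left ?_ (by positivity)
      exact Set.indicator_le_self' (fun _ _ => h0) v
    · rw [Set.indicator_of_notMem (show v ∉ {v : Pl K | v.asIdeal ∣ 𝔣} from hv), mul_zero,
        add_zero, ← Finset.sum_mul]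
      have h3 : ∑ a, ((χ a).χ v.asIdeal).re =
          if ∀ i, f i v = 0 then ((p : ℝ) ^ m) else 0 := by
        have h4 := den_ep_sum hp (fun i => f i v)
        have h5 : ∑ a, (χ a).χ v.asIdeal = ∑ a : Fin m → ZMod p, ep p (∑ i, a i * f i v) :=
          Finset.sum_congr rfl fun a _ => hχ a v hv
        rw [← Complex.re_sum, h5, h4]
        split_ifs
        · norm_cast
        · simp
      rw [h3]
      by_cases hA : ∀ i, f i v = 0
      · rw [if_pos hA, Set.indicator_of_mem (show v ∈ {v : Pl K | ∀ i, f i v = 0} from hA)]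
      · rw [if_neg hA, Set.indicator_of_notMem (show v ∉ {v : Pl K | ∀ i, f i v = 0} from hA),
          mul_zero, zero_mul]
  have hs1 : Summable fun v : Pl K => (p : ℝ) ^ m * ({v : Pl K | ∀ i, f i v = 0}.indicator
      (fun v => (nm v : ℝ) ^ (-s)) v) := ((pz_summable K hs).indicator _).mul_left _
  have hs2' : Summable fun v : Pl K => ∑ a, ((χ a).χ v.asIdeal).re * (nm v : ℝ) ^ (-s) :=
    summable_sum fun a _ => hsumm s hs a
  have hs3 : Summable fun v : Pl K => (p : ℝ) ^ m *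
      ({v : Pl K | v.asIdeal ∣ 𝔣}.indicator (fun v => (nm v : ℝ) ^ (-s)) v) :=
    ((pz_summable K hs).indicator _).mul_left _
  have hmain := hs1.tsum_le_tsum hpt (hs2'.add hs3)
  rw [hs2'.tsum_add hs3, tsum_mul_left, tsum_mul_left,
    Summable.tsum_finsetSum fun a _ => hsumm s hs a] at hmain
  have hfirst : ∑ a, ∑' v : Pl K, ((χ a).χ v.asIdeal).re * (nm v : ℝ) ^ (-s) ≤
      ∑ a, C a + Real.log (1 / (s - 1)) := by
    calc _ ≤ ∑ a : Fin m → ZMod p, (C a + if a = 0 then Real.log (1 / (s - 1)) else 0) :=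
          Finset.sum_le_sum fun a _ => hC a s hs hs2
      _ = _ := by
          rw [Finset.sum_add_distrib, Finset.sum_ite_eq' Finset.univ (0 : Fin m → ZMod p),
            if_pos (Finset.mem_univ _)]
  have hT := hCT s hs
  have hT' : (p : ℝ) ^ m * PZ {v : Pl K | v.asIdeal ∣ 𝔣} s ≤ (p : ℝ) ^ m * CT :=
    mul_le_mul_of_nonneg_left hT (by positivity)
  unfold PZ at hT' ⊢
  linarith

theorem den_fam_zero (p : ℕ) : IsFam (K := K) p fun _ _ => (0 : ZMod p) where
  mul := fun _ _ _ => by rw [add_zero]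
  above := fun _ _ _ => rfl
  one1 := fun _ _ _ => rfl
  unram := by
    convert Set.finite_empty
    ext v
    simp
  sum := fun _ => finsum_zero

theorem den_fam_sum {p : ℕ} {m : ℕ} (β : Fin m → Pl K → Kˣ → ZMod p)
    (hβ : ∀ i, IsFam p (β i)) (a : Fin m → ZMod p) (s : Finset (Fin m)) :
    IsFam p fun v x => ∑ i ∈ s, a i * β i v x := by
  classical
  induction s using Finset.induction_on with
  | empty =>
    simp only [Finset.sum_empty]
    exact den_fam_zero p
  | insert j s hj ih =>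
    have h := fam_lin (hβ j) ih (a j) 1
    have he : (fun v x => a j * β j v x + 1 * ∑ i ∈ s, a i * β i v x) =
        fun v x => ∑ i ∈ insert j s, a i * β i v x := by
      funext v x
      rw [Finset.sum_insert hj, one_mul]
    rwa [he] at h

theorem den_fam_zpow {p : ℕ} {β : Pl K → Kˣ → ZMod p} (h : IsFam p β) (v : Pl K) (x : Kˣ) (n : ℤ) :
    β v (x ^ n) = n * β v x := by
  let φ : Kˣ →* Multiplicative (ZMod p) :=
    MonoidHom.mk' (fun y => Multiplicative.ofAdd (β v y)) fun y z => by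
      rw [h.mul v y z, ofAdd_add]
  have h1 : φ (x ^ n) = φ x ^ n := map_zpow φ x n
  have h2 := congrArg Multiplicative.toAdd h1
  rw [toAdd_zpow] at h2
  have h3 : β v (x ^ n) = n • β v x := h2
  rw [h3, zsmul_eq_mul]

theorem den_fam {p : ℕ} (hp : p.Prime) {m : ℕ} (β : Fin m → Pl K → Kˣ → ZMod p)
    (hβ : ∀ i, IsFam p (β i))
    (hind : ∀ a : Fin m → ZMod p, (∀ v x, ∑ i, a i * β i v x = 0) → a = 0) :
    ∃ C : ℝ, ∀ s : ℝ, 1 < s → s ≤ 2 →
      (p : ℝ) ^ m * PZ {v : Pl K | ∀ i, ∀ x, β i v x = 0} s ≤ Real.log (1 / (s - 1)) + C := by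
  classical
  have hTfin : (⋃ i, {v : Pl K | ∃ x, ord v x = 0 ∧ β i v x ≠ 0}).Finite :=
    Set.finite_iUnion fun i => (hβ i).unram
  set T : Finset (Pl K) := hTfin.toFinset with hT
  set 𝔣 : Ideal (𝓞 K) := ∏ v ∈ T, v.asIdeal with h𝔣
  have h𝔣0 : 𝔣 ≠ ⊥ := by
    rw [h𝔣, ← Ideal.zero_eq_bot]
    exact Finset.prod_ne_zero_iff.2 fun v _ => v.ne_bot
  have hdvd : ∀ v : Pl K, v.asIdeal ∣ 𝔣 ↔ v ∈ T := by
    intro v
    constructor
    · intro h
      obtain ⟨w, hw, hvw⟩ := (v.prime.dvd_finsetProd_iff _).1 h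
      have h1 : v.asIdeal = w.asIdeal :=
        associated_iff_eq.1 (v.irreducible.associated_of_dvd w.irreducible hvw)
      have h2 : v = w := HeightOneSpectrum.ext h1
      rwa [h2]
    · intro h
      exact Finset.dvd_prod_of_mem (fun v : Pl K => v.asIdeal) h
  choose g hg using fun v : Pl K => exists_unif v
  have hun : ∀ i (v : Pl K), v ∉ T → ∀ x, β i v x = ord v x * β i v (g v) := by
    intro i v hv x
    have h1 : ord v (x * (g v ^ ord v x)⁻¹) = 0 := by
      rw [ord_mul, ord_inv, ord_zpow, hg]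
      ring
    have h2 : β i v (x * (g v ^ ord v x)⁻¹) = 0 := by
      by_contra hne
      apply hv
      rw [hT, Set.Finite.mem_toFinset, Set.mem_iUnion]
      exact ⟨i, _, h1, hne⟩
    have h3 : x = (x * (g v ^ ord v x)⁻¹) * g v ^ ord v x := by group
    calc β i v x = β i v ((x * (g v ^ ord v x)⁻¹) * g v ^ ord v x) := by rw [← h3]
      _ = ord v x * β i v (g v) := by
          rw [(hβ i).mul, h2, zero_add, den_fam_zpow (hβ i)]
  have hray : ∀ i, IsRay p 𝔣 fun v => if v ∈ T then 0 else β i v (g v) := by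
    intro i
    refine ⟨fun v hv => if_pos ((hdvd v).1 hv), fun x a hx ha => ?_⟩
    refine Eq.trans (finsum_congr fun v => ?_) ((hβ i).sum x)
    by_cases hv : v ∈ T
    · rw [if_pos hv, zero_mul]
      symm
      refine (hβ i).one1 v x ?_
      unfold One1
      have h1 : (x : K) - 1 = algebraMap (𝓞 K) K (a - 1) := by rw [hx, map_sub, map_one]
      rw [h1]
      refine (HeightOneSpectrum.valuation_lt_one_iff_mem (K := K) v (a - 1)).2 ?_
      have h2 := (hdvd v).2 hv
      rw [Ideal.dvd_iff_le] at h2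
      exact h2 ha
    · rw [if_neg hv, hun i v hv x, mul_comm]
  obtain ⟨C, hC⟩ := den_ray hp h𝔣0 (fun i v => if v ∈ T then 0 else β i v (g v)) hray (by
    intro a ha
    refine hind a fun v x => ?_
    refine fam_zero_of (den_fam_sum β hβ a Finset.univ) (T : Set (Pl K)) T.finite_toSet ?_ v x
    intro w hw y
    have hw' : w ∉ T := hw
    have h1 := ha w
    simp only [if_neg hw'] at h1
    calc ∑ i, a i * β i w y = ∑ i, (ord w y : ZMod p) * (a i * β i w (g w)) := by
          refine Finset.sum_congr rfl fun i _ => ?_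
          rw [hun i w hw' y]
          ring
      _ = 0 := by rw [← Finset.mul_sum, h1, mul_zero])
  refine ⟨C, fun s hs hs2 => ?_⟩
  refine le_trans ?_ (hC s hs hs2)
  refine mul_le_mul_of_nonneg_left (pz_mono ?_ hs) (by positivity)
  intro v hv i
  have hv' : ∀ i, ∀ x, β i v x = 0 := hv
  show (if v ∈ T then 0 else β i v (g v)) = 0
  rw [hv' i (g v), ite_self]

end H63.MA
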