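import Pool.Agent.H63.MA.IdPer

/-!
# MA-IDORTH: orthogonality for ray class characters

Let `s_j` be integral ideals such that for every `I ≠ 0` there is exactly one `j` with `I s_j` principal. If `χ` is not
trivial on the ideals prime to `𝔣` then `∑_j Mres χ (s_j) = 0`; for `𝔣 = ⊤` and `χ` trivial, `∑_j Mres χ (s_j) = #j > 0`
(each quotient `𝓞 K ⧸ s_j` has exactly one class in `s_j`, the value is `χ(n) = 1`).

Proof. Let `J ≠ 0` be prime to `𝔣` with `χ(J) ≠ 1`. For every `j` the ideal class of `J⁻¹ s_j` has a representative: there are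
`j'` and nonzero `a, b ∈ 𝓞 K` with `(b) J s_{j'} = (a) s_j` (`j'` is the index with: the class of `s_{j'}` is the class of
`s_j J^{-1}`; use the hypothesis for an ideal `I` in the class inverse to it). `j ↦ j'` is injective: if `j₁' = j₂'` then `s_{j₁}`
and `s_{j₂}` are in the same class, and the `j` is unique. So it is a bijection. Let
`X_j` = the residue classes modulo `s_j 𝔣` of elements `x ∈ s_j` with `(x) s_j^{-1}` prime to `𝔣` (only they contribute to `Mres`).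
For `x ∈ s_j` put `x' = (a/b) x ∈ J s_{j'}` (`(a) s_j = (b) J s_{j'}`, so `a x ∈ b J s_{j'}`); the map `x ↦ x'` is an additive
bijection `s_j → J s_{j'}` which maps `s_j 𝔣` onto `J s_{j'} 𝔣`, and `J s_{j'} / J s_{j'} 𝔣 → s_{j'} / s_{j'} 𝔣` is bijective as `J` is prime
to `𝔣` (`J s_{j'} ∩ s_{j'} 𝔣 = J s_{j'} 𝔣`, `J s_{j'} + s_{j'} 𝔣 = s_{j'}`). If `(x) = n s_j` then `(x') = n J s_{j'}`, so
`fj s_{j'} x' = χ(J) fj s_j x`. Hence `Mres χ s_{j'} = χ(J) Mres χ s_j` and the sum `M` over `j` satisfies `M = χ(J) M`.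
-/

set_option autoImplicit false

open scoped NumberField
open IsDedekindDomain
open scoped Classical

noncomputable section

namespace H63.MA

variable {K : Type} [Field K] [NumberField K] {𝔣 : Ideal (𝓞 K)}

theorem exists_reps (K : Type) [Field K] [NumberField K] :
    ∃ (h : ℕ) (s : Fin h → Ideal (𝓞 K)), 0 < h ∧ (∀ j, s j ≠ ⊥) ∧
      ∀ I : Ideal (𝓞 K), I ≠ ⊥ → ∃! j, (I * s j).IsPrincipal := by
  have e := Fintype.equivFin (ClassGroup (𝓞 K))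
  choose r hr using (ClassGroup.mk0_surjective (R := 𝓞 K))
  refine ⟨Fintype.card (ClassGroup (𝓞 K)), fun j => (r (e.symm j)).1, Fintype.card_pos,
    fun j => nonZeroDivisors.coe_ne_zero _, fun I hI => ?_⟩
  have hI' : I ∈ nonZeroDivisors (Ideal (𝓞 K)) := mem_nonZeroDivisors_of_ne_zero hI
  have key : ∀ j, (I * (r (e.symm j)).1).IsPrincipal ↔ j = e ((ClassGroup.mk0 ⟨I, hI'⟩)⁻¹) := by
    intro j
    have h2 := ClassGroup.mk0_eq_one_iff (mul_mem hI' (r (e.symm j)).2)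
    have h3 : ClassGroup.mk0 ⟨I * (r (e.symm j)).1, mul_mem hI' (r (e.symm j)).2⟩ =
        ClassGroup.mk0 ⟨I, hI'⟩ * e.symm j := by
      conv_rhs => rw [← hr (e.symm j), ← map_mul]
      rfl
    rw [← h2, h3, mul_comm, mul_eq_one_iff_eq_inv, Equiv.symm_apply_eq]
  refine ⟨e ((ClassGroup.mk0 ⟨I, hI'⟩)⁻¹), (key _).2 rfl, fun j hj => (key j).1 hj⟩

theorem idorth_compl {s : Ideal (𝓞 K)} (hs : s ≠ ⊥) :
    ∃ (a : 𝓞 K) (t : Ideal (𝓞 K)), a ≠ 0 ∧ t ≠ ⊥ ∧ Ideal.span {a} = t * s := by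
  obtain ⟨a, ha, ha0⟩ := Submodule.exists_mem_ne_zero_of_ne_bot hs
  obtain ⟨t, ht⟩ := Ideal.dvd_span_singleton.2 ha
  refine ⟨a, t, ha0, ?_, by rw [ht, mul_comm]⟩
  rintro rfl
  rw [Ideal.mul_bot, Ideal.span_singleton_eq_bot] at ht
  exact ha0 ht

omit [NumberField K] in
theorem idorth_span_ne {a : 𝓞 K} (ha : a ≠ 0) : (Ideal.span {a} : Ideal (𝓞 K)) ≠ ⊥ := by
  rw [Ne, Ideal.span_singleton_eq_bot]
  exact ha

omit [NumberField K] in
/-- `J s' ∩ s' 𝔣 ⊆ J s' 𝔣` for coprime `J`, `𝔣` -/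
theorem idorth_inter {J s' : Ideal (𝓞 K)} (hJ : IsCoprime J 𝔣) {z : 𝓞 K} (h1 : z ∈ J * s')
    (h2 : z ∈ s' * 𝔣) : z ∈ J * s' * 𝔣 := by
  obtain ⟨u, hu, v, hv, huv⟩ := Ideal.isCoprime_iff_exists.1 hJ
  have h3 : z = u * z + v * z := by rw [← add_mul, huv, one_mul]
  rw [h3]
  refine Ideal.add_mem _ ?_ ?_
  · rw [mul_assoc]
    exact Ideal.mul_mem_mul hu h2
  · rw [mul_comm (J * s') 𝔣]
    exact Ideal.mul_mem_mul hv h1

/-- the classes of the elements of `s` -/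
def idorthG (s 𝔣 : Ideal (𝓞 K)) : Set (𝓞 K ⧸ (s * 𝔣)) :=
  {r | ∃ x ∈ s, x ≠ 0 ∧ Ideal.Quotient.mk (s * 𝔣) x = r}

/-- the summand in `Mres` -/
def idorthF (χ : RC K 𝔣) (s : Ideal (𝓞 K)) (r : 𝓞 K ⧸ (s * 𝔣)) : ℂ :=
  if h : ∃ x ∈ s, x ≠ 0 ∧ Ideal.Quotient.mk (s * 𝔣) x = r then fj χ s h.choose else 0

theorem idorth_mres (χ : RC K 𝔣) (s : Ideal (𝓞 K)) :
    Mres χ s = ∑ᶠ r ∈ idorthG s 𝔣, idorthF χ s r := by
  rw [finsum_mem_def]
  have h1 : (idorthG s 𝔣).indicator (idorthF χ s) = idorthF χ s := by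
    rw [Set.indicator_eq_self]
    intro r hr
    by_contra hcon
    apply hr
    have hcon' : ¬ ∃ x ∈ s, x ≠ 0 ∧ Ideal.Quotient.mk (s * 𝔣) x = r := hcon
    unfold idorthF
    rw [dif_neg hcon']
  rw [h1]
  rfl

theorem idorthF_eq (h𝔣 : 𝔣 ≠ ⊥) (χ : RC K 𝔣) {s : Ideal (𝓞 K)} (hs : s ≠ ⊥) {x : 𝓞 K}
    (hx : x ∈ s) (hx0 : x ≠ 0) : idorthF χ s (Ideal.Quotient.mk (s * 𝔣) x) = fj χ s x := by
  unfold idorthF
  have h : ∃ y ∈ s, y ≠ 0 ∧ Ideal.Quotient.mk (s * 𝔣) y = Ideal.Quotient.mk (s * 𝔣) x :=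
    ⟨x, hx, hx0, rfl⟩
  rw [dif_pos h]
  obtain ⟨h1, h2, h3⟩ := h.choose_spec
  refine fj_per h𝔣 χ hs h1 h2 hx0 ?_
  rw [← Ideal.Quotient.eq]
  exact h3.symm

theorem idorth_key (h𝔣 : 𝔣 ≠ ⊥) (χ : RC K 𝔣) {s s' J : Ideal (𝓞 K)} (hs : s ≠ ⊥)
    (hs' : s' ≠ ⊥) (hJ : IsCoprime J 𝔣) {a b : 𝓞 K} (ha : a ≠ 0) (hb : b ≠ 0)
    (h : Ideal.span {a} * s = Ideal.span {b} * (J * s')) : Mres χ s' = χ.χ J * Mres χ s := by
  -- the map on elements
  have hψ : ∀ x ∈ s, ∃ y ∈ J * s', b * y = a * x := by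
    intro x hx
    have h1 : a * x ∈ Ideal.span {b} * (J * s') := by
      rw [← h]
      exact Ideal.mem_span_singleton_mul.2 ⟨x, hx, rfl⟩
    exact Ideal.mem_span_singleton_mul.1 h1
  have hψ' : ∀ y ∈ J * s', ∃ x ∈ s, b * y = a * x := by
    intro y hy
    have h1 : b * y ∈ Ideal.span {a} * s := by
      rw [h]
      exact Ideal.mem_span_singleton_mul.2 ⟨y, hy, rfl⟩
    obtain ⟨x, hx, hxy⟩ := Ideal.mem_span_singleton_mul.1 h1
    exact ⟨x, hx, hxy.symm⟩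
  have hJs' : J * s' ≤ s' := Ideal.mul_le_right
  have h𝔣' : Ideal.span {a} * (s * 𝔣) = Ideal.span {b} * (J * s' * 𝔣) := by
    rw [← mul_assoc, h, mul_assoc]
  -- differences
  have hfwd : ∀ x y : 𝓞 K, b * y = a * x → x ∈ s * 𝔣 → y ∈ J * s' * 𝔣 := by
    intro x y hxy hx
    have h1 : a * x ∈ Ideal.span {b} * (J * s' * 𝔣) := by
      rw [← h𝔣']
      exact Ideal.mem_span_singleton_mul.2 ⟨x, hx, rfl⟩
    obtain ⟨z, hz, hz'⟩ := Ideal.mem_span_singleton_mul.1 h1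
    have h2 : z = y := mul_left_cancel₀ hb (hz'.trans hxy.symm)
    rwa [h2] at hz
  have hbwd : ∀ x y : 𝓞 K, b * y = a * x → y ∈ J * s' * 𝔣 → x ∈ s * 𝔣 := by
    intro x y hxy hy
    have h1 : b * y ∈ Ideal.span {a} * (s * 𝔣) := by
      rw [h𝔣']
      exact Ideal.mem_span_singleton_mul.2 ⟨y, hy, rfl⟩
    obtain ⟨z, hz, hz'⟩ := Ideal.mem_span_singleton_mul.1 h1
    have h2 : z = x := mul_left_cancel₀ ha (hz'.trans hxy)
    rwa [h2] at hz
  have hle : J * s' * 𝔣 ≤ s' * 𝔣 := Ideal.mul_mono_left hJs'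
  -- the map on classes
  let e : 𝓞 K ⧸ (s * 𝔣) → 𝓞 K ⧸ (s' * 𝔣) := fun r =>
    if h : ∃ x ∈ s, x ≠ 0 ∧ Ideal.Quotient.mk (s * 𝔣) x = r then
      Ideal.Quotient.mk (s' * 𝔣) (hψ h.choose h.choose_spec.1).choose else 0
  have he : ∀ x y : 𝓞 K, x ∈ s → x ≠ 0 → b * y = a * x →
      e (Ideal.Quotient.mk (s * 𝔣) x) = Ideal.Quotient.mk (s' * 𝔣) y := by
    intro x y hx hx0 hxy
    have h1 : ∃ x' ∈ s, x' ≠ 0 ∧ Ideal.Quotient.mk (s * 𝔣) x' = Ideal.Quotient.mk (s * 𝔣) x :=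
      ⟨x, hx, hx0, rfl⟩
    have h2 : e (Ideal.Quotient.mk (s * 𝔣) x) =
        Ideal.Quotient.mk (s' * 𝔣) (hψ h1.choose h1.choose_spec.1).choose := dif_pos h1
    rw [h2, Ideal.Quotient.eq]
    obtain ⟨h3, h4⟩ := (hψ h1.choose h1.choose_spec.1).choose_spec
    obtain ⟨-, -, h5⟩ := h1.choose_spec
    rw [Ideal.Quotient.eq] at h5
    refine hle (hfwd _ _ ?_ h5)
    rw [mul_sub, mul_sub, h4, hxy]
  have hne : ∀ x y : 𝓞 K, x ≠ 0 → b * y = a * x → y ≠ 0 := by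
    rintro x y hx0 hxy rfl
    rw [mul_zero] at hxy
    exact mul_ne_zero ha hx0 hxy.symm
  have hbij : Set.BijOn e (idorthG s 𝔣) (idorthG s' 𝔣) := by
    refine ⟨?_, ?_, ?_⟩
    · rintro r ⟨x, hx, hx0, rfl⟩
      obtain ⟨y, hy, hxy⟩ := hψ x hx
      rw [he x y hx hx0 hxy]
      exact ⟨y, hJs' hy, hne x y hx0 hxy, rfl⟩
    · rintro r ⟨x, hx, hx0, rfl⟩ r' ⟨x', hx', hx0', rfl⟩ hrr
      obtain ⟨y, hy, hxy⟩ := hψ x hx
      obtain ⟨y', hy', hxy'⟩ := hψ x' hx'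
      rw [he x y hx hx0 hxy, he x' y' hx' hx0' hxy', Ideal.Quotient.eq] at hrr
      rw [Ideal.Quotient.eq]
      refine hbwd _ (y - y') ?_ (idorth_inter hJ ((J * s').sub_mem hy hy') hrr)
      rw [mul_sub, mul_sub, hxy, hxy']
    · rintro r ⟨z, hz, hz0, rfl⟩
      obtain ⟨u, hu, v, hv, huv⟩ := Ideal.isCoprime_iff_exists.1 hJ
      have h1 : u * z ∈ J * s' := Ideal.mul_mem_mul hu hz
      obtain ⟨x, hx, hxy⟩ := hψ' _ h1
      -- a nonzero representative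
      obtain ⟨x1, hx1, hx10, hx1x⟩ : ∃ x1 ∈ s, x1 ≠ 0 ∧ x1 - x ∈ s * 𝔣 := by
        by_cases hx0 : x = 0
        · obtain ⟨c, hc, hc0⟩ := Submodule.exists_mem_ne_zero_of_ne_bot
            (mul_ne_zero hs h𝔣 : s * 𝔣 ≠ 0)
          refine ⟨c, Ideal.mul_le_left hc, hc0, ?_⟩
          rw [hx0, sub_zero]
          exact hc
        · exact ⟨x, hx, hx0, by rw [sub_self]; exact Ideal.zero_mem _⟩
      obtain ⟨y1, hy1, hxy1⟩ := hψ x1 hx1
      refine ⟨Ideal.Quotient.mk (s * 𝔣) x1, ⟨x1, hx1, hx10, rfl⟩, ?_⟩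
      rw [he x1 y1 hx1 hx10 hxy1, Ideal.Quotient.eq]
      have h2 : y1 - u * z ∈ s' * 𝔣 := by
        refine hle (hfwd _ _ ?_ hx1x)
        rw [mul_sub, mul_sub, hxy1, hxy]
      have h3 : y1 - z = (y1 - u * z) + -(v * z) := by
        linear_combination z * huv
      rw [h3]
      refine Ideal.add_mem _ h2 (Ideal.neg_mem_iff _ |>.2 ?_)
      rw [mul_comm v z]
      exact Ideal.mul_mem_mul hz hv
  have hval : ∀ r ∈ idorthG s 𝔣, χ.χ J * idorthF χ s r = idorthF χ s' (e r) := by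
    rintro r ⟨x, hx, hx0, rfl⟩
    obtain ⟨y, hy, hxy⟩ := hψ x hx
    rw [he x y hx hx0 hxy, idorthF_eq h𝔣 χ hs hx hx0,
      idorthF_eq h𝔣 χ hs' (hJs' hy) (hne x y hx0 hxy)]
    obtain ⟨n, hn⟩ := Ideal.dvd_span_singleton.2 hx
    rw [mul_comm] at hn
    have h1 : Ideal.span {y} = n * J * s' := by
      refine mul_left_cancel₀ (idorth_span_ne hb) ?_
      rw [Ideal.span_singleton_mul_span_singleton, hxy,
        ← Ideal.span_singleton_mul_span_singleton, hn]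
      calc Ideal.span {a} * (n * s) = n * (Ideal.span {a} * s) := by ring
        _ = n * (Ideal.span {b} * (J * s')) := by rw [h]
        _ = Ideal.span {b} * (n * J * s') := by ring
    rw [fj_spec χ hs hn, fj_spec χ hs' h1, map_mul, mul_comm]
  rw [idorth_mres, idorth_mres, ← finsum_mem_eq_of_bijOn e hbij hval]
  exact (mul_finsum_mem (idorthF χ s) (χ.χ J)).symm

theorem orth_non (h𝔣 : 𝔣 ≠ ⊥) (χ : RC K 𝔣) (hχ : χ.Non) {h : ℕ} (s : Fin h → Ideal (𝓞 K))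
    (hs : ∀ j, s j ≠ ⊥)
    (hr : ∀ I : Ideal (𝓞 K), I ≠ ⊥ → ∃! j, (I * s j).IsPrincipal) :
    ∑ j, Mres χ (s j) = 0 := by
  obtain ⟨J, hJ0, hJc, hJ⟩ := hχ
  choose a t ha ht hat using fun j => idorth_compl (hs j)
  have h1 : ∀ j, ∃ j' b, b ≠ 0 ∧
      Ideal.span {b} * s j = Ideal.span {a j} * (J * s j') := by
    intro j
    obtain ⟨j', ⟨b, hb⟩, -⟩ := hr (J * t j) (mul_ne_zero hJ0 (ht j))
    rw [Ideal.submodule_span_eq] at hb
    refine ⟨j', b, ?_, ?_⟩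
    · rintro rfl
      rw [Ideal.span_singleton_eq_bot.2 rfl] at hb
      exact mul_ne_zero (mul_ne_zero hJ0 (ht j)) (hs j') hb
    · rw [← hb, hat]
      ring
  choose f b hb hf using h1
  have hinj : Function.Injective f := by
    intro j1 j2 hj
    have h2 := hf j1
    have h3 := hf j2
    rw [hj] at h2
    -- `(b1 a2) s_{j1} = (b2 a1) s_{j2}`
    have h4 : Ideal.span {b j1 * a j2} * s j1 = Ideal.span {b j2 * a j1} * s j2 := by
      rw [← Ideal.span_singleton_mul_span_singleton, ← Ideal.span_singleton_mul_span_singleton]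
      calc Ideal.span {b j1} * Ideal.span {a j2} * s j1 =
          Ideal.span {a j2} * (Ideal.span {b j1} * s j1) := by ring
        _ = Ideal.span {a j1} * (Ideal.span {a j2} * (J * s (f j2))) := by rw [h2]; ring
        _ = Ideal.span {a j1} * (Ideal.span {b j2} * s j2) := by rw [h3]
        _ = Ideal.span {b j2} * Ideal.span {a j1} * s j2 := by ring
    obtain ⟨j0, -, huniq⟩ := hr (t j1) (ht j1)
    have p1 : (t j1 * s j1).IsPrincipal := by
      rw [← hat]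
      exact ⟨a j1, rfl⟩
    have hc : b j2 * a j1 ≠ 0 := mul_ne_zero (hb j2) (ha j1)
    have h5 : Ideal.span {b j2 * a j1} * (t j1 * s j2) = Ideal.span {b j1 * a j2 * a j1} := by
      rw [← Ideal.span_singleton_mul_span_singleton (b j1 * a j2), hat j1]
      calc Ideal.span {b j2 * a j1} * (t j1 * s j2) =
          t j1 * (Ideal.span {b j2 * a j1} * s j2) := by ring
        _ = t j1 * (Ideal.span {b j1 * a j2} * s j1) := by rw [h4]
        _ = Ideal.span {b j1 * a j2} * (t j1 * s j1) := by ring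
    have p2 : (t j1 * s j2).IsPrincipal := by
      have h6 : b j1 * a j2 * a j1 ∈ Ideal.span {b j2 * a j1} * (t j1 * s j2) := by
        rw [h5]
        exact Ideal.mem_span_singleton_self _
      obtain ⟨z, -, hz⟩ := Ideal.mem_span_singleton_mul.1 h6
      refine ⟨z, ?_⟩
      rw [Ideal.submodule_span_eq]
      refine mul_left_cancel₀ (idorth_span_ne hc) ?_
      rw [h5, Ideal.span_singleton_mul_span_singleton, hz]
    rw [huniq j1 p1, huniq j2 p2]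
  have hbij : Function.Bijective f := Finite.injective_iff_bijective.1 hinj
  have h2 : ∑ j, Mres χ (s (f j)) = ∑ j, Mres χ (s j) :=
    hbij.sum_comp (fun j => Mres χ (s j))
  have h3 : ∀ j, Mres χ (s (f j)) = χ.χ J * Mres χ (s j) := fun j =>
    idorth_key h𝔣 χ (hs j) (hs (f j)) hJc (hb j) (ha j) (hf j)
  simp only [h3] at h2
  rw [← Finset.mul_sum] at h2
  have h4 : (χ.χ J - 1) * ∑ j, Mres χ (s j) = 0 := by
    rw [sub_mul, h2, one_mul, sub_self]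
  exact (mul_eq_zero.1 h4).resolve_left (sub_ne_zero.2 hJ)

theorem orth_one (χ : RC K (⊤ : Ideal (𝓞 K))) (hχ : ¬ χ.Non) {h : ℕ}
    (s : Fin h → Ideal (𝓞 K)) (hs : ∀ j, s j ≠ ⊥)
    (hr : ∀ I : Ideal (𝓞 K), I ≠ ⊥ → ∃! j, (I * s j).IsPrincipal) :
    ∑ j, Mres χ (s j) = h := by
  have h1 : ∀ j, Mres χ (s j) = 1 := by
    intro j
    obtain ⟨x, hx, hx0⟩ := Submodule.exists_mem_ne_zero_of_ne_bot (hs j)
    obtain ⟨n, hn⟩ := Ideal.dvd_span_singleton.2 hx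
    rw [mul_comm] at hn
    have hn0 : n ≠ ⊥ := by
      rintro rfl
      rw [Ideal.bot_mul, Ideal.span_singleton_eq_bot] at hn
      exact hx0 hn
    have hval : idorthF χ (s j) (Ideal.Quotient.mk (s j * ⊤) x) = 1 := by
      rw [idorthF_eq top_ne_bot χ (hs j) hx hx0, fj_spec χ (hs j) hn]
      by_contra hcon
      refine hχ ⟨n, hn0, ?_, hcon⟩
      rw [Ideal.isCoprime_iff_sup_eq]
      exact sup_top_eq n
    have hG : idorthG (s j) ⊤ = {Ideal.Quotient.mk (s j * ⊤) x} := by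
      apply Set.eq_singleton_iff_unique_mem.2
      refine ⟨⟨x, hx, hx0, rfl⟩, ?_⟩
      rintro r ⟨y, hy, hy0, rfl⟩
      rw [Ideal.Quotient.eq, Ideal.mul_top]
      exact (s j).sub_mem hy hx
    rw [idorth_mres, hG, finsum_mem_singleton, hval]
  simp only [h1, Finset.sum_const, Finset.card_univ, Fintype.card_fin, nsmul_eq_mul, mul_one]

end H63.MA
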