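import Pool.Agent.H63.MA.AFin

/-!
# MA-ADEF: definitions for the analytic part

`D : RD0 K p ζ` (or `RD`). `GF D y`: finite sets of good primes (outside `S0`, prime norm) of norm `≤ y`.
`J` a finite index set; `P : PD p m J` assigns to `a ∈ J` vectors `x a`, `θ a ∈ (ZMod p)^m` with `θ a · x a = 0`.
`ph D P b g` is the total phase of a family `g : J → Finset (Pl K)` with parameter `b : Fin m → Kˣ`:
`∑_a ∑_{v ∈ g a} θ_a · LL v (b) + ∑_{a,a'} (θ_a · x_{a'}) ∑_{v ∈ g a} LL v (∏_{w ∈ g a'} pi w)`.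
`lk a a' = θ_a · x_{a'} + θ_{a'} · x_a` is the linking number.
-/

set_option autoImplicit false

open scoped NumberField
open IsDedekindDomain
open scoped Classical

noncomputable section

namespace H63.MA

/-- scalar product on `(ZMod p)^m` -/
def dt {p m : ℕ} (θ x : Fin m → ZMod p) : ZMod p := ∑ k, θ k * x k

/-- phase data -/
structure PD (p m : ℕ) (J : Type) where
  x : J → Fin m → ZMod p
  θ : J → Fin m → ZMod p
  self : ∀ a, dt (θ a) (x a) = 0

/-- the linking number -/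
def PD.lk {p m : ℕ} {J : Type} (P : PD p m J) (a a' : J) : ZMod p :=
  dt (P.θ a) (P.x a') + dt (P.θ a') (P.x a)

variable {K : Type} [Field K] [NumberField K] {p : ℕ} {ζ : K}

/-- finite sets of good primes of norm at most `y` -/
def GF (D : RD0 K p ζ) (y : ℝ) : Finset (Finset (Pl K)) :=
  (AF K y).filter fun n => ∀ v ∈ n, D.Gd v

/-- the class of a finite set of primes -/
def qf (D : RD0 K p ζ) (n : Finset (Pl K)) : Fin D.r → ZMod p := ∑ v ∈ n, D.q v

/-- the product of the generators -/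
def pf (D : RD0 K p ζ) (n : Finset (Pl K)) : Kˣ := ∏ v ∈ n, D.pi v

/-- the symbol over a finite set of primes -/
def Lf (D : RD0 K p ζ) (n : Finset (Pl K)) (x : Kˣ) : ZMod p := ∑ v ∈ n, D.LL v x

/-- the total phase -/
def ph {m : ℕ} {J : Type} [Fintype J] (D : RD0 K p ζ) (P : PD p m J) (b : Fin m → Kˣ)
    (g : J → Finset (Pl K)) : ZMod p :=
  ∑ a, ∑ v ∈ g a, dt (P.θ a) (fun k => D.LL v (b k)) +
    ∑ a, ∑ a', dt (P.θ a) (P.x a') * Lf D (g a) (pf D (g a'))

/-- the parameter `b` is supported on `S0` and on a finite set `E` of primes which are not good -/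
def BSup {m : ℕ} (D : RD0 K p ζ) (b : Fin m → Kˣ) (E : Finset (Pl K)) : Prop :=
  (∀ v ∈ E, v ∉ D.S0 ∧ ¬ D.Gd v) ∧ ∀ k v, v ∉ D.S0 → v ∉ E → ord v (b k) = 0

/-- the element `b^θ` -/
def bp {m : ℕ} (b : Fin m → Kˣ) (θ : Fin m → ZMod p) : Kˣ := ∏ k, b k ^ (θ k).val

/-- the size and disjointness conditions -/
def Cond {J : Type} [Fintype J] {t : ℕ} (blk : J → Fin t) (Y : Fin t → ℝ) (Lg : Finset J) (z : ℝ)
    (g : J → Finset (Pl K)) : Prop :=
  (∀ a a', a ≠ a' → Disjoint (g a) (g a')) ∧ (∀ a ∈ Lg, z < nr (g a)) ∧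
    ∀ i, ∏ a ∈ Finset.univ.filter (fun a => blk a = i), nr (g a) ≤ Y i

/-- the sum over the large variables `a ∈ Lg`, the small variables being fixed -/
def TT {m t : ℕ} {J : Type} [Fintype J] (D : RD0 K p ζ) (P : PD p m J) (b : Fin m → Kˣ)
    (blk : J → Fin t) (Y : Fin t → ℝ) (X : ℝ) (Lg : Finset J) (z : ℝ) (s : J → Finset (Pl K))
    (h : (J → Fin D.r → ZMod p) → ℂ) : ℂ :=
  ∑ g ∈ Fintype.piFinset (fun a => if a ∈ Lg then GF D X else {s a}),
    if Cond blk Y Lg z g then h (fun a => qf D (g a)) * ep p (ph D P b g) else 0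

/-- the number of terms of `TT` -/
def TN {t : ℕ} {J : Type} [Fintype J] (D : RD0 K p ζ)
    (blk : J → Fin t) (Y : Fin t → ℝ) (X : ℝ) (Lg : Finset J) (z : ℝ) (s : J → Finset (Pl K)) : ℝ :=
  ∑ g ∈ Fintype.piFinset (fun a => if a ∈ Lg then GF D X else {s a}),
    if Cond blk Y Lg z g then 1 else 0

end H63.MA
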