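import Pool.Agent.H63.MA.ABilA

/-!
# MA-ABILB: Lemma B, rectangles and hyperbolic regions

* `lf_swap` (with `hp hζ`): for disjoint good `m, n`: `Lf m (pf n) = Lf n (pf m) + ∑ eta i j (qf n)_i (qf m)_j` (`rec2`, summed).
* `bilB`: for `z ≥ 1`, `M, N ≥ 1`, `e ≠ 0`, `|α|, |β| ≤ 1`:
  `|∑_{m ∈ GF M, n ∈ GF N, z < nr m, z < nr n, disjoint} α m β n ep(e Lf m (pf n))| ≤ C M N z^{-δ} (1 + log (M N))^A`.
  Proof: split into dyadic blocks `M_i < nr m ≤ 2 M_i`, `N_j < nr n ≤ 2 N_j` (`M_i = M 2^{-i}`, `N_j = N 2^{-j}`, those with `M_i, N_j ≥ 1/2`...;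
  start from `z`: `M_i = z 2^i` up to `M`; the last blocks are cut by the coefficients). Blocks with `M_i ≤ N_j`: `bilA`. Blocks with `M_i > N_j`:
  `lf_swap` turns `ep(e Lf m (pf n))` into `ep(e Lf n (pf m))` times a function of the classes `(qf m, qf n)`; split `α` and `β` according to
  the classes (`p^{2r}` combinations, each with a constant factor of absolute value `1`) and apply `bilA` with the roles exchanged. The blocks
  give `C M_i N_j min(M_i, N_j)^{-δ} (…)^A ≤ C M_i N_j z^{-δ}`, and `∑ M_i N_j ≤ 4 M N`.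
* `bilH`: for `Y ≥ 1`, the same with the condition `nr m * nr n ≤ Y`: bound `C Y z^{-δ'} (1 + log Y)^A`, and more generally for every
  condition `nr m * nr n ≤ Y`, `nr m ≤ M`, `nr n ≤ N`. Proof: dyadic blocks in `m`: `M_i < nr m ≤ 2 M_i`, subdivided into
  `M_i (1+θ)^k < nr m ≤ M_i (1+θ)^{k+1}`, `k ≤ C/θ`, `θ = z^{-δ/2}`. In such a piece replace the condition `nr n ≤ Y / nr m` by
  `nr n ≤ Y / (M_i (1+θ)^k)`; the error is at most the number of pairs with
  `Y/(M_i (1+θ)^{k+1}) < nr n ≤ Y/(M_i (1+θ)^k)`, summed over `k`: `≤ C M_i (θ Y/M_i + (Y/M_i)^{1-δ₁})` (`af_short`, `af_card`; here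
  `Y/M_i ≥ z` because `nr n > z`), total over the `log Y` values of `i`: `≤ C Y (θ + z^{-δ₁}) (1 + log Y)`. The pieces themselves: `bilB` with `α`
  restricted: `≤ C (2/θ) M_i (Y/M_i) z^{-δ} (…)^A`, total `C Y z^{-δ/2} (1 + log Y)^{A+1}`.
-/

set_option autoImplicit false

open scoped NumberField
open IsDedekindDomain
open scoped Classical

noncomputable section

namespace H63.MA

variable {K : Type} [Field K] [NumberField K] {p : ℕ} {ζ : K}

theorem lf_pf (hp : p.Prime) (hζ : IsPrimitiveRoot ζ p) (D : RD0 K p ζ) {m : Finset (Pl K)}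
    (hm : ∀ v ∈ m, v ∉ D.S0) (n : Finset (Pl K)) :
    Lf D m (pf D n) = ∑ v ∈ m, ∑ w ∈ n, D.LL v (D.pi w) := by
  unfold Lf pf
  refine Finset.sum_congr rfl fun v hv => ?_
  induction n using Finset.induction_on with
  | empty => rw [Finset.prod_empty, Finset.sum_empty, LL_one hp hζ D (hm v hv)]
  | insert a s ha ih =>
    rw [Finset.prod_insert ha, Finset.sum_insert ha, LL_mul hp hζ D (hm v hv), ih]

theorem lf_swap (hp : p.Prime) (hζ : IsPrimitiveRoot ζ p) (D : RD K p ζ) {m n : Finset (Pl K)}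
    (hm : ∀ v ∈ m, D.Gd v) (hn : ∀ v ∈ n, D.Gd v) (hd : Disjoint m n) :
    Lf D.toRD0 m (pf D.toRD0 n) = Lf D.toRD0 n (pf D.toRD0 m) +
      ∑ i, ∑ j, D.eta i j * qf D.toRD0 n i * qf D.toRD0 m j := by
  have h1 : ∑ i, ∑ j, D.eta i j * qf D.toRD0 n i * qf D.toRD0 m j =
      ∑ v ∈ m, ∑ w ∈ n, ∑ i, ∑ j, D.eta i j * D.q w i * D.q v j := by
    have h2 : ∀ i j, D.eta i j * qf D.toRD0 n i * qf D.toRD0 m j =
        ∑ v ∈ m, ∑ w ∈ n, D.eta i j * D.q w i * D.q v j := by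
      intro i j
      unfold qf
      rw [Finset.sum_apply, Finset.sum_apply, Finset.mul_sum]
      refine Finset.sum_congr rfl fun v _ => ?_
      rw [Finset.mul_sum, Finset.sum_mul]
    simp only [h2]
    calc ∑ i, ∑ j, ∑ v ∈ m, ∑ w ∈ n, D.eta i j * D.q w i * D.q v j
        = ∑ i, ∑ v ∈ m, ∑ j, ∑ w ∈ n, D.eta i j * D.q w i * D.q v j :=
          Finset.sum_congr rfl fun i _ => Finset.sum_comm
      _ = ∑ v ∈ m, ∑ i, ∑ j, ∑ w ∈ n, D.eta i j * D.q w i * D.q v j := Finset.sum_comm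
      _ = ∑ v ∈ m, ∑ i, ∑ w ∈ n, ∑ j, D.eta i j * D.q w i * D.q v j :=
          Finset.sum_congr rfl fun v _ => Finset.sum_congr rfl fun i _ => Finset.sum_comm
      _ = ∑ v ∈ m, ∑ w ∈ n, ∑ i, ∑ j, D.eta i j * D.q w i * D.q v j :=
          Finset.sum_congr rfl fun v _ => Finset.sum_comm
  rw [lf_pf hp hζ D.toRD0 (fun v hv => (hm v hv).1), lf_pf hp hζ D.toRD0 (fun v hv => (hn v hv).1),
    h1, Finset.sum_comm (s := n) (t := m), ← Finset.sum_add_distrib]
  refine Finset.sum_congr rfl fun v hv => ?_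
  rw [← Finset.sum_add_distrib]
  refine Finset.sum_congr rfl fun w hw => ?_
  have h3 : v ≠ w := by
    rintro rfl
    exact Finset.disjoint_left.1 hd hv hw
  rw [← D.rec2 v w (hm v hv) (hn w hw) h3]
  ring

theorem dy_one (z t q : ℝ) (hz : 0 ≤ z) (hq : 1 ≤ q) (x : ℂ) (L : ℕ) :
    ∑ i ∈ Finset.range L, (if z * q ^ i < t ∧ t ≤ z * q ^ (i + 1) then x else 0) =
      if z < t ∧ t ≤ z * q ^ L then x else 0 := by
  induction L with
  | zero =>
    rw [Finset.range_zero, Finset.sum_empty, pow_zero, mul_one, if_neg]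
    rintro ⟨h1, h2⟩
    linarith
  | succ L ih =>
    rw [Finset.sum_range_succ, ih]
    have h1 : z * q ^ L ≤ z * q ^ (L + 1) :=
      mul_le_mul_of_nonneg_left (pow_le_pow_right₀ hq (Nat.le_succ L)) hz
    have h2 : z ≤ z * q ^ L := le_mul_of_one_le_right hz (one_le_pow₀ hq)
    by_cases h3 : z < t
    · by_cases h4 : t ≤ z * q ^ L
      · rw [if_pos ⟨h3, h4⟩, if_neg (fun h => absurd h.1 (not_lt.2 h4)),
          if_pos ⟨h3, h4.trans h1⟩, add_zero]
      · rw [if_neg (fun h => h4 h.2), zero_add]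
        push Not at h4
        by_cases h5 : t ≤ z * q ^ (L + 1)
        · rw [if_pos ⟨h4, h5⟩, if_pos ⟨h3, h5⟩]
        · rw [if_neg (fun h => h5 h.2), if_neg (fun h => h5 h.2)]
    · rw [if_neg (fun h => h3 h.1), if_neg (fun h => h3 (h2.trans_lt h.1)),
        if_neg (fun h => h3 h.1), add_zero]

theorem dy_sum {ι : Type} (P : Finset ι) (ρ : ι → ℝ) (f : ι → ℂ) {z q : ℝ} (hz : 0 ≤ z)
    (hq : 1 ≤ q) (L : ℕ) (h : ∀ m ∈ P, z < ρ m ∧ ρ m ≤ z * q ^ L) :
    ∑ m ∈ P, f m = ∑ i ∈ Finset.range L,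
      ∑ m ∈ P.filter (fun m => z * q ^ i < ρ m ∧ ρ m ≤ z * q ^ (i + 1)), f m := by
  simp only [Finset.sum_filter]
  rw [Finset.sum_comm]
  refine Finset.sum_congr rfl fun m hm => ?_
  rw [dy_one z (ρ m) q hz hq (f m) L, if_pos (h m hm)]

/-- the bilinear sum over two finite sets -/
def BB (D : RD0 K p ζ) (e : ZMod p) (α β : Finset (Pl K) → ℂ) (PM PN : Finset (Finset (Pl K))) :
    ℂ :=
  ∑ m ∈ PM, ∑ n ∈ PN, if Disjoint m n then α m * β n * ep p (e * Lf D m (pf D n)) else 0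

theorem bb_GF (D : RD0 K p ζ) (e : ZMod p) (α β : Finset (Pl K) → ℂ)
    (PM PN : Finset (Finset (Pl K))) (a b M N : ℝ)
    (hM : ∀ m ∈ PM, (∀ v ∈ m, D.Gd v) ∧ a < nr m ∧ nr m ≤ M)
    (hN : ∀ m ∈ PN, (∀ v ∈ m, D.Gd v) ∧ b < nr m ∧ nr m ≤ N) :
    BB D e α β PM PN = ∑ m ∈ GF D M, ∑ n ∈ GF D N,
      if a < nr m ∧ b < nr n ∧ Disjoint m n then
        (if m ∈ PM then α m else 0) * (if n ∈ PN then β n else 0) *
          ep p (e * Lf D m (pf D n)) else 0 := by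
  have h1 : PM ⊆ GF D M := fun m hm =>
    Finset.mem_filter.2 ⟨mem_AF.2 (hM m hm).2.2, (hM m hm).1⟩
  have h2 : PN ⊆ GF D N := fun m hm =>
    Finset.mem_filter.2 ⟨mem_AF.2 (hN m hm).2.2, (hN m hm).1⟩
  unfold BB
  rw [← Finset.sum_subset h1]
  · refine Finset.sum_congr rfl fun m hm => ?_
    rw [← Finset.sum_subset h2]
    · refine Finset.sum_congr rfl fun n hn => ?_
      by_cases h3 : Disjoint m n
      · rw [if_pos h3, if_pos ⟨(hM m hm).2.1, (hN n hn).2.1, h3⟩, if_pos hm, if_pos hn]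
      · rw [if_neg h3, if_neg (fun h => h3 h.2.2)]
    · intro n _ hn
      rw [if_neg hn, mul_zero, zero_mul, ite_self]
  · intro m _ hm
    refine Finset.sum_eq_zero fun n _ => ?_
    rw [if_neg hm, zero_mul, zero_mul, ite_self]

theorem bb_swap (hp : p.Prime) (hζ : IsPrimitiveRoot ζ p) [Fintype (ZMod p)] (D : RD K p ζ)
    (e : ZMod p) (α β : Finset (Pl K) → ℂ) (PM PN : Finset (Finset (Pl K)))
    (hM : ∀ m ∈ PM, (∀ v ∈ m, D.Gd v)) (hN : ∀ m ∈ PN, (∀ v ∈ m, D.Gd v)) :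
    BB D.toRD0 e α β PM PN = ∑ c : Fin D.r → ZMod p,
      BB D.toRD0 e (fun n => β n * ep p (e * ∑ i, ∑ j, D.eta i j * qf D.toRD0 n i * c j))
        (fun m => if qf D.toRD0 m = c then α m else 0) PN PM := by
  unfold BB
  rw [Finset.sum_comm]
  rw [Finset.sum_comm (s := Finset.univ) (t := PN)]
  refine Finset.sum_congr rfl fun n hn => ?_
  rw [Finset.sum_comm (s := Finset.univ) (t := PM)]
  refine Finset.sum_congr rfl fun m hm => ?_
  rw [Finset.sum_eq_single (qf D.toRD0 m)]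
  · beta_reduce
    rw [if_pos (rfl : qf D.toRD0 m = qf D.toRD0 m)]
    by_cases h : Disjoint m n
    · rw [if_pos h, if_pos h.symm, lf_swap hp hζ D (hM m hm) (hN n hn) h, mul_add, ep_add hp]
      ring
    · rw [if_neg h, if_neg (fun h' => h (Disjoint.symm h'))]
  · intro c _ hc
    have h : ¬ qf D.toRD0 m = c := fun h => hc h.symm
    beta_reduce
    rw [if_neg h, mul_zero, zero_mul, ite_self]
  · intro h
    exact absurd (Finset.mem_univ _) h

theorem bil_block (hp : p.Prime) (hζ : IsPrimitiveRoot ζ p) (D : RD K p ζ) :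
    ∃ C A δ : ℝ, 0 < C ∧ 0 ≤ A ∧ 0 < δ ∧ δ < 1 ∧ ∀ (e : ZMod p), e ≠ 0 →
      ∀ (α β : Finset (Pl K) → ℂ), (∀ n, ‖α n‖ ≤ 1) → (∀ n, ‖β n‖ ≤ 1) →
        ∀ M N z : ℝ, 1 ≤ z → z ≤ M → z ≤ N → ∀ PM PN : Finset (Finset (Pl K)),
        (∀ m ∈ PM, (∀ v ∈ m, D.Gd v) ∧ M < nr m ∧ nr m ≤ 2 * M) →
        (∀ m ∈ PN, (∀ v ∈ m, D.Gd v) ∧ N < nr m ∧ nr m ≤ 2 * N) →
        ‖BB D.toRD0 e α β PM PN‖ ≤ C * M * N * z ^ (-δ) * (1 + Real.log (M * N)) ^ A := by
  obtain ⟨C, A, δ, hC, hA, hδ, hδ1, hb⟩ := bilA hp hζ D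
  haveI : NeZero p := ⟨hp.ne_zero⟩
  obtain ⟨Q, hQ⟩ : ∃ Q : ℝ, Q = (Fintype.card (Fin D.r → ZMod p) : ℝ) := ⟨_, rfl⟩
  have hQ0 : 0 ≤ Q := by rw [hQ]; exact Nat.cast_nonneg _
  refine ⟨C * (1 + Q), A, δ, by positivity, hA, hδ, hδ1, fun e he α β hα hβ M N z hz hzM hzN PM PN
    hM hN => ?_⟩
  have hz0 : 0 < z := by linarith
  have hM1 : 1 ≤ M := hz.trans hzM
  have hN1 : 1 ≤ N := hz.trans hzN
  have hM0 : 0 < M := by linarith
  have hN0 : 0 < N := by linarith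
  have hlM : 0 ≤ Real.log M := Real.log_nonneg hM1
  have hlN : 0 ≤ Real.log N := Real.log_nonneg hN1
  have hlMN : Real.log (M * N) = Real.log M + Real.log N := Real.log_mul hM0.ne' hN0.ne'
  have hgen : ∀ (a b : Finset (Pl K) → ℂ), (∀ n, ‖a n‖ ≤ 1) → (∀ n, ‖b n‖ ≤ 1) →
      ∀ (U V : ℝ), z ≤ U → U ≤ V → U * V = M * N → ∀ P Q : Finset (Finset (Pl K)),
      (∀ m ∈ P, (∀ v ∈ m, D.Gd v) ∧ U < nr m ∧ nr m ≤ 2 * U) →
      (∀ m ∈ Q, (∀ v ∈ m, D.Gd v) ∧ V < nr m ∧ nr m ≤ 2 * V) →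
      ‖BB D.toRD0 e a b P Q‖ ≤ C * M * N * z ^ (-δ) * (1 + Real.log (M * N)) ^ A := by
    intro a b ha hb' U V hzU hUV hprod P Q hP hQ
    rw [bb_GF D.toRD0 e a b P Q U V (2 * U) (2 * V) hP hQ]
    have hU1 : 1 ≤ U := hz.trans hzU
    have hU0 : 0 < U := by linarith
    have hV0 : 0 < V := by linarith
    refine (hb e he (fun m => if m ∈ P then a m else 0) (fun n => if n ∈ Q then b n else 0)
      (fun n => ?_) (fun n => ?_) U V hU1 hUV).trans ?_
    · split_ifs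
      · exact ha n
      · rw [norm_zero]; exact zero_le_one
    · split_ifs
      · exact hb' n
      · rw [norm_zero]; exact zero_le_one
    · have e1 : U ^ (-δ) ≤ z ^ (-δ) :=
        Real.rpow_le_rpow_of_nonpos hz0 hzU (by linarith)
      have e2 : Real.log V ≤ Real.log (M * N) := by
        rw [← hprod]
        exact Real.log_le_log hV0 (by nlinarith)
      have e3 : 0 ≤ Real.log V := Real.log_nonneg (hU1.trans hUV)
      have e4 : (1 + Real.log V) ^ A ≤ (1 + Real.log (M * N)) ^ A :=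
        Real.rpow_le_rpow (by linarith) (by linarith) hA
      have e5 : C * U * V = C * M * N := by rw [mul_assoc, hprod, mul_assoc]
      rw [e5]
      have e6 : 0 ≤ C * M * N := by positivity
      have e7 : 0 ≤ U ^ (-δ) := Real.rpow_nonneg hU0.le _
      have e8 : 0 ≤ (1 + Real.log V) ^ A := Real.rpow_nonneg (by linarith) _
      exact mul_le_mul (mul_le_mul_of_nonneg_left e1 e6) e4 e8
        (mul_nonneg e6 (Real.rpow_nonneg hz0.le _))
  have hB0 : 0 ≤ C * M * N * z ^ (-δ) * (1 + Real.log (M * N)) ^ A := by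
    have h1 : 0 ≤ z ^ (-δ) := Real.rpow_nonneg hz0.le _
    have h2 : 0 ≤ (1 + Real.log (M * N)) ^ A := Real.rpow_nonneg (by linarith) _
    positivity
  have hfin : C * (1 + Q) * M * N * z ^ (-δ) * (1 + Real.log (M * N)) ^ A =
      C * M * N * z ^ (-δ) * (1 + Real.log (M * N)) ^ A +
        Q * (C * M * N * z ^ (-δ) * (1 + Real.log (M * N)) ^ A) := by ring
  rw [hfin]
  rcases le_total M N with hMN | hNM
  · have := hgen α β hα hβ M N hzM hMN rfl PM PN hM hN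
    have h0 := mul_nonneg hQ0 hB0
    linarith
  · rw [bb_swap hp hζ D e α β PM PN (fun m hm => (hM m hm).1) (fun m hm => (hN m hm).1)]
    have h1 : ‖∑ c : Fin D.r → ZMod p,
        BB D.toRD0 e (fun n => β n * ep p (e * ∑ i, ∑ j, D.eta i j * qf D.toRD0 n i * c j))
        (fun m => if qf D.toRD0 m = c then α m else 0) PN PM‖ ≤
        Q * (C * M * N * z ^ (-δ) * (1 + Real.log (M * N)) ^ A) := by
      refine (norm_sum_le _ _).trans ?_
      rw [hQ, ← Finset.card_univ, ← nsmul_eq_mul]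
      refine Finset.sum_le_card_nsmul _ _ _ fun c _ => ?_
      refine hgen _ _ (fun n => ?_) (fun n => ?_) N M hzN hNM (mul_comm _ _) PN PM hN hM
      · rw [norm_mul, ep_norm, mul_one]
        exact hβ n
      · split_ifs
        · exact hα n
        · rw [norm_zero]; exact zero_le_one
    linarith

theorem bb_split (D : RD0 K p ζ) (e : ZMod p) (α β : Finset (Pl K) → ℂ)
    (PM PN : Finset (Finset (Pl K))) {z q : ℝ} (hz : 0 ≤ z) (hq : 1 ≤ q) (L : ℕ)
    (hM : ∀ m ∈ PM, z < nr m ∧ nr m ≤ z * q ^ L) :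
    BB D e α β PM PN = ∑ i ∈ Finset.range L, BB D e α β
      (PM.filter (fun m => z * q ^ i < nr m ∧ nr m ≤ z * q ^ (i + 1))) PN := by
  unfold BB
  exact dy_sum PM nr _ hz hq L hM

theorem bb_split' (D : RD0 K p ζ) (e : ZMod p) (α β : Finset (Pl K) → ℂ)
    (PM PN : Finset (Finset (Pl K))) {z q : ℝ} (hz : 0 ≤ z) (hq : 1 ≤ q) (L : ℕ)
    (hN : ∀ m ∈ PN, z < nr m ∧ nr m ≤ z * q ^ L) :
    BB D e α β PM PN = ∑ i ∈ Finset.range L, BB D e α β
      PM (PN.filter (fun m => z * q ^ i < nr m ∧ nr m ≤ z * q ^ (i + 1))) := by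
  unfold BB
  rw [Finset.sum_comm (s := Finset.range L) (t := PM)]
  exact Finset.sum_congr rfl fun m _ => dy_sum PN nr _ hz hq L hN

theorem dy_L {x θ : ℝ} (hx : 1 ≤ x) (hθ : 0 < θ) (hθ1 : θ ≤ 1) :
    ∃ L : ℕ, (L : ℝ) ≤ 2 * (1 + Real.log x) / θ ∧ x ≤ (1 + θ) ^ L := by
  have hl : 0 ≤ Real.log x := Real.log_nonneg hx
  refine ⟨⌈2 * Real.log x / θ⌉₊, ?_, ?_⟩
  · have h1 : ((⌈2 * Real.log x / θ⌉₊ : ℕ) : ℝ) < 2 * Real.log x / θ + 1 :=
      Nat.ceil_lt_add_one (by positivity)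
    have h2 : 2 * Real.log x / θ + 1 ≤ 2 * (1 + Real.log x) / θ := by
      rw [div_add_one hθ.ne']
      apply div_le_div_of_nonneg_right _ hθ.le
      linarith
    linarith
  · have h1 : 2 * Real.log x / θ ≤ (⌈2 * Real.log x / θ⌉₊ : ℕ) := Nat.le_ceil _
    have h2 : θ / 2 ≤ Real.log (1 + θ) := by
      have h3 := Real.one_sub_inv_le_log_of_pos (show 0 < 1 + θ by linarith)
      have h4 : θ / 2 ≤ 1 - (1 + θ)⁻¹ := by
        have h5 : 1 - (1 + θ)⁻¹ = θ / (1 + θ) := by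
          field_simp
          ring
        rw [h5]
        apply div_le_div_of_nonneg_left hθ.le (by linarith) (by linarith)
      linarith
    have h3 : Real.log x ≤ Real.log ((1 + θ) ^ ⌈2 * Real.log x / θ⌉₊) := by
      rw [Real.log_pow]
      calc Real.log x = (2 * Real.log x / θ) * (θ / 2) := by
            field_simp
        _ ≤ _ := mul_le_mul h1 h2 (by positivity) (Nat.cast_nonneg _)
    exact (Real.log_le_log_iff (by linarith) (by positivity)).1 h3

/-- Lemma B for rectangles, flexible form -/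
theorem bil_rect (hp : p.Prime) (hζ : IsPrimitiveRoot ζ p) (D : RD K p ζ) :
    ∃ C A δ : ℝ, 0 < C ∧ 0 ≤ A ∧ 0 < δ ∧ δ < 1 ∧ ∀ (e : ZMod p), e ≠ 0 →
      ∀ (α β : Finset (Pl K) → ℂ), (∀ n, ‖α n‖ ≤ 1) → (∀ n, ‖β n‖ ≤ 1) →
        ∀ M N z : ℝ, 1 ≤ M → 1 ≤ N → 1 ≤ z → ∀ PM PN : Finset (Finset (Pl K)),
        (∀ m ∈ PM, (∀ v ∈ m, D.Gd v) ∧ z < nr m ∧ nr m ≤ M) →
        (∀ m ∈ PN, (∀ v ∈ m, D.Gd v) ∧ z < nr m ∧ nr m ≤ N) →
        ‖BB D.toRD0 e α β PM PN‖ ≤ C * M * N * z ^ (-δ) * (1 + Real.log (M * N)) ^ A := by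
  obtain ⟨C, A, δ, hC, hA, hδ, hδ1, hb⟩ := bil_block hp hζ D
  refine ⟨4 * C, A + 2, δ, by positivity, by linarith, hδ, hδ1,
    fun e he α β hα hβ M N z hM1 hN1 hz PM PN hM hN => ?_⟩
  have hz0 : 0 < z := by linarith
  have hM0 : 0 < M := by linarith
  have hN0 : 0 < N := by linarith
  have hMN1 : 1 ≤ M * N := one_le_mul_of_one_le_of_one_le hM1 hN1
  have hl : 0 ≤ Real.log (M * N) := Real.log_nonneg hMN1
  obtain ⟨L, hL1, hL2⟩ := dy_L hMN1 zero_lt_one le_rfl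
  rw [div_one] at hL1
  rw [one_add_one_eq_two] at hL2
  have hzL : z * 1 ≤ z * 2 ^ L := mul_le_mul_of_nonneg_left (one_le_pow₀ (by norm_num)) hz0.le
  have h2L : (0 : ℝ) < 2 ^ L := by positivity
  have hML : M ≤ z * 2 ^ L := by nlinarith
  have hNL : N ≤ z * 2 ^ L := by nlinarith
  rw [bb_split D.toRD0 e α β PM PN hz0.le (show (1 : ℝ) ≤ 2 by norm_num) L
    (fun m hm => ⟨(hM m hm).2.1, (hM m hm).2.2.trans hML⟩)]
  have hB0 : 0 ≤ C * M * N * z ^ (-δ) * (1 + Real.log (M * N)) ^ A := by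
    have h1 : 0 ≤ z ^ (-δ) := Real.rpow_nonneg hz0.le _
    have h2 : 0 ≤ (1 + Real.log (M * N)) ^ A := Real.rpow_nonneg (by linarith) _
    positivity
  have hij : ∀ i j : ℕ, ‖BB D.toRD0 e α β
      (PM.filter (fun m => z * 2 ^ i < nr m ∧ nr m ≤ z * 2 ^ (i + 1)))
      (PN.filter (fun m => z * 2 ^ j < nr m ∧ nr m ≤ z * 2 ^ (j + 1)))‖ ≤
      C * M * N * z ^ (-δ) * (1 + Real.log (M * N)) ^ A := by
    intro i j
    have h2i : (1 : ℝ) ≤ 2 ^ i := one_le_pow₀ (by norm_num)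
    have h2j : (1 : ℝ) ≤ 2 ^ j := one_le_pow₀ (by norm_num)
    rcases Finset.eq_empty_or_nonempty
      (PM.filter (fun m => z * 2 ^ i < nr m ∧ nr m ≤ z * 2 ^ (i + 1))) with h1 | ⟨m, hm⟩
    · rw [h1, BB, Finset.sum_empty, norm_zero]
      exact hB0
    rcases Finset.eq_empty_or_nonempty
      (PN.filter (fun m => z * 2 ^ j < nr m ∧ nr m ≤ z * 2 ^ (j + 1))) with h2 | ⟨n, hn⟩
    · rw [h2, BB]
      simp only [Finset.sum_empty, Finset.sum_const_zero, norm_zero]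
      exact hB0
    rw [Finset.mem_filter] at hm hn
    have hMi : z * 2 ^ i ≤ M := hm.2.1.le.trans (hM m hm.1).2.2
    have hNj : z * 2 ^ j ≤ N := hn.2.1.le.trans (hN n hn.1).2.2
    have hzi : z ≤ z * 2 ^ i := le_mul_of_one_le_right hz0.le h2i
    have hzj : z ≤ z * 2 ^ j := le_mul_of_one_le_right hz0.le h2j
    refine (hb e he α β hα hβ (z * 2 ^ i) (z * 2 ^ j) z hz hzi hzj _ _ ?_ ?_).trans ?_
    · intro m hm
      rw [Finset.mem_filter] at hm
      refine ⟨(hM m hm.1).1, hm.2.1, hm.2.2.trans (le_of_eq ?_)⟩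
      rw [pow_succ]
      ring
    · intro m hm
      rw [Finset.mem_filter] at hm
      refine ⟨(hN m hm.1).1, hm.2.1, hm.2.2.trans (le_of_eq ?_)⟩
      rw [pow_succ]
      ring
    · have e1 : z * 2 ^ i * (z * 2 ^ j) ≤ M * N :=
        mul_le_mul hMi hNj (by positivity) hM0.le
      have e2 : 1 ≤ z * 2 ^ i * (z * 2 ^ j) :=
        one_le_mul_of_one_le_of_one_le (hz.trans hzi) (hz.trans hzj)
      have e3 : 0 ≤ Real.log (z * 2 ^ i * (z * 2 ^ j)) := Real.log_nonneg e2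
      have e4 : (1 + Real.log (z * 2 ^ i * (z * 2 ^ j))) ^ A ≤ (1 + Real.log (M * N)) ^ A := by
        refine Real.rpow_le_rpow (by linarith) ?_ hA
        have := Real.log_le_log (by linarith) e1
        linarith
      have e5 : C * (z * 2 ^ i) * (z * 2 ^ j) ≤ C * M * N := by
        rw [mul_assoc, mul_assoc C M N]
        exact mul_le_mul_of_nonneg_left e1 hC.le
      have e6 : 0 ≤ z ^ (-δ) := Real.rpow_nonneg hz0.le _
      have e7 : 0 ≤ (1 + Real.log (z * 2 ^ i * (z * 2 ^ j))) ^ A :=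
        Real.rpow_nonneg (by linarith) _
      exact mul_le_mul (mul_le_mul_of_nonneg_right e5 e6) e4 e7 (by positivity)
  have hi : ∀ i ∈ Finset.range L, ‖BB D.toRD0 e α β
      (PM.filter (fun m => z * 2 ^ i < nr m ∧ nr m ≤ z * 2 ^ (i + 1))) PN‖ ≤
      L * (C * M * N * z ^ (-δ) * (1 + Real.log (M * N)) ^ A) := by
    intro i _
    rw [bb_split' D.toRD0 e α β _ PN hz0.le (show (1 : ℝ) ≤ 2 by norm_num) L
      (fun m hm => ⟨(hN m hm).2.1, (hN m hm).2.2.trans hNL⟩)]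
    refine (norm_sum_le _ _).trans ((Finset.sum_le_card_nsmul _ _ _ fun j _ => hij i j).trans ?_)
    rw [Finset.card_range, nsmul_eq_mul]
  refine (norm_sum_le _ _).trans ((Finset.sum_le_card_nsmul _ _ _ hi).trans ?_)
  rw [Finset.card_range, nsmul_eq_mul]
  have hlog : (1 + Real.log (M * N)) ^ (A + 2) =
      (1 + Real.log (M * N)) ^ A * (1 + Real.log (M * N)) ^ 2 := by
    rw [Real.rpow_add (by linarith)]
    norm_num
  have hLL : (L : ℝ) * L ≤ 4 * (1 + Real.log (M * N)) ^ 2 := by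
    have h0 : (0 : ℝ) ≤ L := Nat.cast_nonneg _
    nlinarith
  rw [hlog]
  calc (L : ℝ) * (L * (C * M * N * z ^ (-δ) * (1 + Real.log (M * N)) ^ A))
      = (L * L) * (C * M * N * z ^ (-δ) * (1 + Real.log (M * N)) ^ A) := by ring
    _ ≤ (4 * (1 + Real.log (M * N)) ^ 2) *
        (C * M * N * z ^ (-δ) * (1 + Real.log (M * N)) ^ A) :=
      mul_le_mul_of_nonneg_right hLL hB0
    _ = _ := by ring

theorem bilB (hp : p.Prime) (hζ : IsPrimitiveRoot ζ p) (D : RD K p ζ) :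
    ∃ C A δ : ℝ, 0 < C ∧ 0 ≤ A ∧ 0 < δ ∧ δ < 1 ∧ ∀ (e : ZMod p), e ≠ 0 →
      ∀ (α β : Finset (Pl K) → ℂ), (∀ n, ‖α n‖ ≤ 1) → (∀ n, ‖β n‖ ≤ 1) →
        ∀ M N z : ℝ, 1 ≤ M → 1 ≤ N → 1 ≤ z →
        ‖∑ m ∈ GF D.toRD0 M, ∑ n ∈ GF D.toRD0 N,
          if z < nr m ∧ z < nr n ∧ Disjoint m n then
            α m * β n * ep p (e * Lf D.toRD0 m (pf D.toRD0 n)) else 0‖ ≤
          C * M * N * z ^ (-δ) * (1 + Real.log (M * N)) ^ A := by
  obtain ⟨C, A, δ, hC, hA, hδ, hδ1, hb⟩ := bil_rect hp hζ D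
  refine ⟨C, A, δ, hC, hA, hδ, hδ1, fun e he α β hα hβ M N z hM hN hz => ?_⟩
  have h1 := hb e he α β hα hβ M N z hM hN hz ((GF D.toRD0 M).filter fun m => z < nr m)
    ((GF D.toRD0 N).filter fun m => z < nr m) (fun m hm => ?_) (fun m hm => ?_)
  · refine (le_of_eq ?_).trans h1
    congr 1
    unfold BB
    rw [Finset.sum_filter]
    refine Finset.sum_congr rfl fun m _ => ?_
    by_cases h2 : z < nr m
    · rw [if_pos h2, Finset.sum_filter]
      refine Finset.sum_congr rfl fun n _ => ?_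
      by_cases h3 : z < nr n
      · rw [if_pos h3]
        by_cases h4 : Disjoint m n
        · rw [if_pos ⟨h2, h3, h4⟩, if_pos h4]
        · rw [if_neg (fun h => h4 h.2.2), if_neg h4]
      · rw [if_neg h3, if_neg (fun h => h3 h.2.1)]
    · rw [if_neg h2]
      exact Finset.sum_eq_zero fun n _ => if_neg fun h => h2 h.1
  · rw [Finset.mem_filter, GF, Finset.mem_filter, mem_AF] at hm
    exact ⟨hm.1.2, hm.2, hm.1.1⟩
  · rw [Finset.mem_filter, GF, Finset.mem_filter, mem_AF] at hm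
    exact ⟨hm.1.2, hm.2, hm.1.1⟩

theorem nr_lt_two {n : Finset (Pl K)} (h : nr n < 2) : nr n = 1 := by
  rcases Finset.eq_empty_or_nonempty n with h1 | h1
  · rw [h1, nr, Finset.prod_empty]
  · exfalso
    have h2 := two_pow_le_nr n
    have h3 : 1 ≤ n.card := Finset.Nonempty.card_pos h1
    have h4 : (2 : ℝ) ^ 1 ≤ 2 ^ n.card := pow_le_pow_right₀ (by norm_num) h3
    linarith

theorem bilH (hp : p.Prime) (hζ : IsPrimitiveRoot ζ p) (D : RD K p ζ) :
    ∃ C A δ : ℝ, 0 < C ∧ 0 ≤ A ∧ 0 < δ ∧ δ < 1 ∧ ∀ (e : ZMod p), e ≠ 0 →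
      ∀ (α β : Finset (Pl K) → ℂ), (∀ n, ‖α n‖ ≤ 1) → (∀ n, ‖β n‖ ≤ 1) →
        ∀ Y z : ℝ, 1 ≤ Y → 1 ≤ z →
        ‖∑ m ∈ GF D.toRD0 Y, ∑ n ∈ GF D.toRD0 Y,
          if z < nr m ∧ z < nr n ∧ nr m * nr n ≤ Y ∧ Disjoint m n then
            α m * β n * ep p (e * Lf D.toRD0 m (pf D.toRD0 n)) else 0‖ ≤
          C * Y * z ^ (-δ) * (1 + Real.log Y) ^ A := by
  obtain ⟨C, A, δ, hC, hA, hδ, hδ1, hb⟩ := bil_rect hp hζ D
  obtain ⟨C1, δ1, hC1, hδ1', hδ11, hsh⟩ := af_short K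
  obtain ⟨ε, hε⟩ : ∃ ε : ℝ, ε = min (δ / 2) δ1 := ⟨_, rfl⟩
  have hε0 : 0 < ε := by rw [hε]; exact lt_min (by linarith) hδ1'
  have hεδ : ε ≤ δ / 2 := by rw [hε]; exact min_le_left _ _
  have hεδ1 : ε ≤ δ1 := by rw [hε]; exact min_le_right _ _
  refine ⟨2 * (2 * C * 2 ^ A + 6 * C1 ^ 2), A + 1, ε, by positivity, by linarith, hε0,
    by linarith, fun e he α β hα hβ Y z hY hz => ?_⟩
  have hz0 : 0 < z := by linarith
  have hY0 : 0 < Y := by linarith
  have hl : 0 ≤ Real.log Y := Real.log_nonneg hY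
  obtain ⟨θ, hθ⟩ : ∃ θ : ℝ, θ = z ^ (-ε) := ⟨_, rfl⟩
  have hθ0 : 0 < θ := by rw [hθ]; exact Real.rpow_pos_of_pos hz0 _
  have hθ1 : θ ≤ 1 := by rw [hθ]; exact Real.rpow_le_one_of_one_le_of_nonpos hz (by linarith)
  have hq : 1 ≤ 1 + θ := by linarith
  obtain ⟨L, hL1, hL2⟩ := dy_L hY hθ0 hθ1
  obtain ⟨P, hP⟩ : ∃ P, P = (GF D.toRD0 Y).filter (fun m => z < nr m) := ⟨_, rfl⟩
  have hPm : ∀ m ∈ P, (∀ v ∈ m, D.Gd v) ∧ z < nr m ∧ nr m ≤ Y := by
    intro m hm
    rw [hP, Finset.mem_filter, GF, Finset.mem_filter, mem_AF] at hm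
    exact ⟨hm.1.2, hm.2, hm.1.1⟩
  obtain ⟨T, hT⟩ : ∃ T : Finset (Pl K) → Finset (Pl K) → ℂ, T = fun m n =>
      if Disjoint m n then α m * β n * ep p (e * Lf D.toRD0 m (pf D.toRD0 n)) else 0 := ⟨_, rfl⟩
  have hT1 : ∀ m n, ‖T m n‖ ≤ 1 := by
    intro m n
    rw [hT]
    dsimp only
    split_ifs
    · rw [norm_mul, norm_mul, ep_norm, mul_one]
      exact mul_le_one₀ (hα m) (norm_nonneg _) (hβ n)
    · rw [norm_zero]; exact zero_le_one
  have hS : (∑ m ∈ GF D.toRD0 Y, ∑ n ∈ GF D.toRD0 Y,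
          if z < nr m ∧ z < nr n ∧ nr m * nr n ≤ Y ∧ Disjoint m n then
            α m * β n * ep p (e * Lf D.toRD0 m (pf D.toRD0 n)) else 0) =
      ∑ m ∈ P, ∑ n ∈ P, if nr m * nr n ≤ Y then T m n else 0 := by
    rw [hP, Finset.sum_filter]
    refine Finset.sum_congr rfl fun m _ => ?_
    by_cases h2 : z < nr m
    · rw [if_pos h2, Finset.sum_filter]
      refine Finset.sum_congr rfl fun n _ => ?_
      by_cases h3 : z < nr n
      · rw [if_pos h3, hT]
        dsimp only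
        by_cases h4 : Disjoint m n
        · rw [if_pos h4]
          by_cases h5 : nr m * nr n ≤ Y
          · rw [if_pos ⟨h2, h3, h5, h4⟩, if_pos h5]
          · rw [if_neg (fun h => h5 h.2.2.1), if_neg h5]
        · rw [if_neg (fun h => h4 h.2.2.2), if_neg h4, ite_self]
      · rw [if_neg h3, if_neg (fun h => h3 h.2.1)]
    · rw [if_neg h2]
      exact Finset.sum_eq_zero fun n _ => if_neg fun h => h2 h.1
  rw [hS, dy_sum P nr _ hz0.le hq L (fun m hm => ⟨(hPm m hm).2.1, (hPm m hm).2.2.trans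
    (hL2.trans (le_mul_of_one_le_left (by positivity) hz))⟩)]
  have hzε : z ^ (-δ1) ≤ θ := by
    rw [hθ]
    exact Real.rpow_le_rpow_of_exponent_le hz (by linarith)
  have hmain : z ^ (-δ) ≤ θ * θ := by
    rw [hθ, ← Real.rpow_add hz0]
    exact Real.rpow_le_rpow_of_exponent_le hz (by linarith)
  have hk : ∀ k ∈ Finset.range L,
      ‖∑ m ∈ P.filter (fun m => z * (1 + θ) ^ k < nr m ∧ nr m ≤ z * (1 + θ) ^ (k + 1)),
        ∑ n ∈ P, if nr m * nr n ≤ Y then T m n else 0‖ ≤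
      (2 * C * 2 ^ A + 6 * C1 ^ 2) * Y * (θ * θ) * (1 + Real.log Y) ^ A := by
    intro k _
    obtain ⟨x, hx⟩ : ∃ x : ℝ, x = z * (1 + θ) ^ k := ⟨_, rfl⟩
    have hx1 : z * (1 + θ) ^ (k + 1) = (1 + θ) * x := by
      rw [hx, pow_succ]
      ring
    have hzx : z ≤ x := by
      rw [hx]
      exact le_mul_of_one_le_right hz0.le (one_le_pow₀ hq)
    have hx0 : 0 < x := by linarith
    rw [← hx, hx1]
    obtain ⟨Pk, hPk⟩ : ∃ Pk, Pk = P.filter (fun m => x < nr m ∧ nr m ≤ (1 + θ) * x) := ⟨_, rfl⟩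
    obtain ⟨Q, hQ⟩ : ∃ Q, Q = P.filter (fun n => nr n ≤ Y / x) := ⟨_, rfl⟩
    rw [← hPk]
    have hlA : 1 ≤ (1 + Real.log Y) ^ A := Real.one_le_rpow (by linarith) hA
    have hR0 : 0 ≤ (2 * C * 2 ^ A + 6 * C1 ^ 2) * Y * (θ * θ) * (1 + Real.log Y) ^ A := by
      positivity
    have hPkm : ∀ m ∈ Pk, ((∀ v ∈ m, D.Gd v) ∧ z < nr m ∧ nr m ≤ (1 + θ) * x) ∧ x < nr m := by
      intro m hm
      rw [hPk, Finset.mem_filter] at hm
      exact ⟨⟨(hPm m hm.1).1, (hPm m hm.1).2.1, hm.2.2⟩, hm.2.1⟩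
    have hsplit : ∀ m ∈ Pk, (∑ n ∈ P, if nr m * nr n ≤ Y then T m n else 0) =
        ∑ n ∈ Q, T m n - ∑ n ∈ Q, (if nr m * nr n ≤ Y then 0 else T m n) := by
      intro m hm
      rw [← Finset.sum_sub_distrib, hQ, Finset.sum_filter]
      refine Finset.sum_congr rfl fun n _ => ?_
      have h1 := (hPkm m hm).2
      by_cases h2 : nr m * nr n ≤ Y
      · rw [if_pos h2, if_pos h2, if_pos, sub_zero]
        rw [le_div_iff₀ hx0]
        have := one_le_nr n
        nlinarith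
      · rw [if_neg h2, if_neg h2, sub_self, ite_self]
    rw [Finset.sum_congr rfl hsplit, Finset.sum_sub_distrib]
    rcases Finset.eq_empty_or_nonempty Q with hQe | ⟨n0, hn0⟩
    · rw [hQe]
      simp only [Finset.sum_empty, Finset.sum_const_zero, sub_self, norm_zero]
      exact hR0
    rw [hQ, Finset.mem_filter] at hn0
    have hzY : z < Y / x := (hPm n0 hn0.1).2.1.trans_le hn0.2
    have h1Y : 1 ≤ Y / x := by linarith
    have hmainb : ‖∑ m ∈ Pk, ∑ n ∈ Q, T m n‖ ≤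
        2 * C * 2 ^ A * Y * (θ * θ) * (1 + Real.log Y) ^ A := by
      have h1 := hb e he α β hα hβ ((1 + θ) * x) (Y / x) z (by nlinarith) h1Y hz Pk Q
        (fun m hm => (hPkm m hm).1) (fun m hm => by
          rw [hQ, Finset.mem_filter] at hm
          exact ⟨(hPm m hm.1).1, (hPm m hm.1).2.1, hm.2⟩)
      have h2 : ∑ m ∈ Pk, ∑ n ∈ Q, T m n = BB D.toRD0 e α β Pk Q := by
        rw [hT]
        rfl
      rw [h2]
      refine h1.trans ?_
      have h3 : C * ((1 + θ) * x) * (Y / x) = C * (1 + θ) * Y := by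
        field_simp
      have h4 : (1 + θ) * x * (Y / x) = (1 + θ) * Y := by
        field_simp
      rw [h3, h4]
      have h5 : Real.log ((1 + θ) * Y) ≤ 1 + Real.log Y := by
        rw [Real.log_mul (by linarith) hY0.ne']
        have := Real.log_le_sub_one_of_pos (show 0 < 1 + θ by linarith)
        linarith
      have h6 : 0 ≤ Real.log ((1 + θ) * Y) := Real.log_nonneg (by nlinarith)
      have h7 : (1 + Real.log ((1 + θ) * Y)) ^ A ≤ 2 ^ A * (1 + Real.log Y) ^ A := by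
        rw [← Real.mul_rpow (by norm_num) (by linarith)]
        exact Real.rpow_le_rpow (by linarith) (by linarith) hA
      have h8 : 0 ≤ z ^ (-δ) := Real.rpow_nonneg hz0.le _
      have h9 : 0 ≤ (1 + Real.log ((1 + θ) * Y)) ^ A := Real.rpow_nonneg (by linarith) _
      have h10 : C * (1 + θ) * Y ≤ 2 * C * Y := by
        have : (1 + θ) * (C * Y) ≤ 2 * (C * Y) :=
          mul_le_mul_of_nonneg_right (by linarith) (by positivity)
        linarith
      calc C * (1 + θ) * Y * z ^ (-δ) * (1 + Real.log ((1 + θ) * Y)) ^ A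
          ≤ 2 * C * Y * (θ * θ) * (2 ^ A * (1 + Real.log Y) ^ A) :=
            mul_le_mul (mul_le_mul h10 hmain h8 (by positivity)) h7 h9 (by positivity)
        _ = _ := by ring
    have herr : ‖∑ m ∈ Pk, ∑ n ∈ Q, (if nr m * nr n ≤ Y then 0 else T m n)‖ ≤
        6 * C1 ^ 2 * Y * (θ * θ) := by
      obtain ⟨y, hy⟩ : ∃ y : ℝ, y = Y / ((1 + θ) * x) := ⟨_, rfl⟩
      have hyx : (1 + θ) * y = Y / x := by
        rw [hy]
        field_simp
      obtain ⟨R, hR⟩ : ∃ R, R = (AF K ((1 + θ) * y)).filter (fun n => y < nr n ∧ z < nr n) :=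
        ⟨_, rfl⟩
      have h1 : ∀ m ∈ Pk, ‖∑ n ∈ Q, (if nr m * nr n ≤ Y then 0 else T m n)‖ ≤ (R.card : ℝ) := by
        intro m hm
        have h2 : ∀ n ∈ Q, ‖(if nr m * nr n ≤ Y then 0 else T m n)‖ ≤
            if n ∈ R then (1 : ℝ) else 0 := by
          intro n hn
          rw [hQ, Finset.mem_filter] at hn
          by_cases h3 : nr m * nr n ≤ Y
          · rw [if_pos h3, norm_zero]
            split_ifs
            · exact zero_le_one
            · exact le_rfl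
          · rw [if_neg h3, if_pos]
            · exact hT1 m n
            · rw [hR, Finset.mem_filter, mem_AF, hyx]
              refine ⟨hn.2, ?_, (hPm n hn.1).2.1⟩
              push Not at h3
              rw [hy, div_lt_iff₀ (by positivity)]
              have h4 := (hPkm m hm).1.2.2
              have h5 := one_le_nr n
              calc Y < nr m * nr n := h3
                _ ≤ (1 + θ) * x * nr n := mul_le_mul_of_nonneg_right h4 (by linarith)
                _ = _ := by ring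
        refine (norm_sum_le _ _).trans ((Finset.sum_le_sum h2).trans ?_)
        rw [Finset.sum_ite_mem, Finset.sum_const, nsmul_eq_mul, mul_one]
        exact_mod_cast Finset.card_le_card Finset.inter_subset_right
      refine (norm_sum_le _ _).trans ((Finset.sum_le_card_nsmul _ _ _ h1).trans ?_)
      rw [nsmul_eq_mul]
      rcases Finset.eq_empty_or_nonempty R with hRe | ⟨n1, hn1⟩
      · rw [hRe, Finset.card_empty, Nat.cast_zero, mul_zero]
        positivity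
      rw [hR, Finset.mem_filter, mem_AF] at hn1
      have hy0 : 0 < y := by rw [hy]; positivity
      have hy1 : 1 ≤ y := by
        by_contra hlt
        push Not at hlt
        have h2 : nr n1 < 2 := by
          have : (1 + θ) * y ≤ 2 * y := mul_le_mul_of_nonneg_right (by linarith) hy0.le
          linarith [hn1.1]
        have h3 := nr_lt_two h2
        linarith [hn1.2.2]
      have hyz : z ≤ 2 * y := by
        have : (1 + θ) * y ≤ 2 * y := mul_le_mul_of_nonneg_right (by linarith) hy0.le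
        linarith [hn1.1, hn1.2.2]
      have hcR : (R.card : ℝ) ≤ C1 * (θ * y + y ^ (1 - δ1)) := by
        refine le_trans ?_ (hsh y θ hy1 hθ0.le hθ1)
        have : R.card ≤ ((AF K ((1 + θ) * y)).filter fun n => y < nr n).card := by
          apply Finset.card_le_card
          rw [hR]
          intro n hn
          rw [Finset.mem_filter] at hn ⊢
          exact ⟨hn.1, hn.2.1⟩
        exact_mod_cast this
      have hcP : (Pk.card : ℝ) ≤ C1 * (θ * x + x ^ (1 - δ1)) := by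
        refine le_trans ?_ (hsh x θ (hz.trans hzx) hθ0.le hθ1)
        have : Pk.card ≤ ((AF K ((1 + θ) * x)).filter fun n => x < nr n).card := by
          apply Finset.card_le_card
          intro n hn
          have := hPkm n hn
          rw [Finset.mem_filter, mem_AF]
          exact ⟨this.1.2.2, this.2⟩
        exact_mod_cast this
      have e1 : x ^ (1 - δ1) ≤ x * θ := by
        rw [sub_eq_add_neg, Real.rpow_add hx0, Real.rpow_one]
        refine mul_le_mul_of_nonneg_left ?_ hx0.le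
        exact (Real.rpow_le_rpow_of_nonpos hz0 hzx (by linarith)).trans hzε
      have e2 : y ^ (1 - δ1) ≤ y * (2 * θ) := by
        rw [sub_eq_add_neg, Real.rpow_add hy0, Real.rpow_one]
        refine mul_le_mul_of_nonneg_left ?_ hy0.le
        have h3 : y ^ (-δ1) ≤ (z / 2) ^ (-δ1) :=
          Real.rpow_le_rpow_of_nonpos (by linarith) (by linarith) (by linarith)
        have h4 : (z / 2) ^ (-δ1) = z ^ (-δ1) * 2 ^ δ1 := by
          rw [Real.div_rpow hz0.le (by norm_num), Real.rpow_neg (by norm_num : (0 : ℝ) ≤ 2) δ1,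
            div_inv_eq_mul]
        have h5 : (2 : ℝ) ^ δ1 ≤ 2 := by
          have := Real.rpow_le_rpow_of_exponent_le (show (1 : ℝ) ≤ 2 by norm_num) hδ11.le
          rwa [Real.rpow_one] at this
        have h6 : 0 ≤ z ^ (-δ1) := Real.rpow_nonneg hz0.le _
        have h7 : 0 ≤ (2 : ℝ) ^ δ1 := Real.rpow_nonneg (by norm_num) _
        rw [h4] at h3
        have h8 : z ^ (-δ1) * 2 ^ δ1 ≤ θ * 2 := mul_le_mul hzε h5 h7 hθ0.le
        linarith
      have e3 : (Pk.card : ℝ) ≤ C1 * (2 * θ * x) := by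
        refine hcP.trans (mul_le_mul_of_nonneg_left ?_ hC1.le)
        linarith
      have e4 : (R.card : ℝ) ≤ C1 * (3 * θ * y) := by
        refine hcR.trans (mul_le_mul_of_nonneg_left ?_ hC1.le)
        linarith
      have e5 : x * y ≤ Y := by
        have h3 : x * y = Y / (1 + θ) := by
          rw [hy]
          field_simp
        rw [h3]
        exact div_le_self hY0.le hq
      calc (Pk.card : ℝ) * R.card ≤ (C1 * (2 * θ * x)) * (C1 * (3 * θ * y)) :=
            mul_le_mul e3 e4 (Nat.cast_nonneg _) (by positivity)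
        _ = 6 * C1 ^ 2 * (θ * θ) * (x * y) := by ring
        _ ≤ 6 * C1 ^ 2 * (θ * θ) * Y := mul_le_mul_of_nonneg_left e5 (by positivity)
        _ = _ := by ring
    have h3 : 6 * C1 ^ 2 * Y * (θ * θ) ≤
        6 * C1 ^ 2 * Y * (θ * θ) * (1 + Real.log Y) ^ A :=
      le_mul_of_one_le_right (by positivity) hlA
    refine (norm_sub_le _ _).trans ?_
    have h4 : (2 * C * 2 ^ A + 6 * C1 ^ 2) * Y * (θ * θ) * (1 + Real.log Y) ^ A =
        2 * C * 2 ^ A * Y * (θ * θ) * (1 + Real.log Y) ^ A +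
          6 * C1 ^ 2 * Y * (θ * θ) * (1 + Real.log Y) ^ A := by ring
    linarith
  refine (norm_sum_le _ _).trans ((Finset.sum_le_card_nsmul _ _ _ hk).trans ?_)
  rw [Finset.card_range, nsmul_eq_mul, ← hθ]
  have hlog : (1 + Real.log Y) ^ (A + 1) = (1 + Real.log Y) ^ A * (1 + Real.log Y) := by
    rw [Real.rpow_add (by linarith), Real.rpow_one]
  rw [hlog]
  have hB0 : 0 ≤ (2 * C * 2 ^ A + 6 * C1 ^ 2) * Y * (θ * θ) * (1 + Real.log Y) ^ A := by
    have : 0 ≤ (1 + Real.log Y) ^ A := Real.rpow_nonneg (by linarith) _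
    positivity
  calc (L : ℝ) * ((2 * C * 2 ^ A + 6 * C1 ^ 2) * Y * (θ * θ) * (1 + Real.log Y) ^ A)
      ≤ (2 * (1 + Real.log Y) / θ) *
        ((2 * C * 2 ^ A + 6 * C1 ^ 2) * Y * (θ * θ) * (1 + Real.log Y) ^ A) :=
        mul_le_mul_of_nonneg_right hL1 hB0
    _ = _ := by
        field_simp

end H63.MA
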