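import Pool.Agent.H63.MA.ChevA

/-!
# MA-CHEVB: the norm index of a finitely generated module with an automorphism of order `p` and `Ĥ^{-1} = 0`

`M` finitely generated abelian group, `σ^p = 1`, `N = 1 + σ + ... + σ^(p-1)`, `F = ker (σ - 1)` and
`ker N = (σ - 1) M`. Suppose `rank F = a`, `rank M = a + (p-1) b`, and `F` has exactly `p` elements killed by `p`.
Then `[F : N M] p^b = p^a`.

Proof. Put `M' = ker N = (σ-1) M`. It is `σ`-stable, `N = 0` on it, `M / M' ≃ N M ≤ F` and
`N` is multiplication by `p` on `F`, so `N M ≥ p F` has finite index in `F`, `rank (N M) = a`, `rank M' = (p-1) b`.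
By `chevA`: `[M' : (σ-1) M'] = p^b * #ker (σ-1 on M')`, and `ker (σ - 1 on M') = M' ∩ F = {x ∈ F : p x = 0}` has `p`
elements. The map `σ - 1 : M → M'` is surjective with kernel `F` and maps `F + M'` onto `(σ-1) M'`, so
`[M : F + M'] = [M' : (σ-1) M'] = p^(b+1)`. The map `N : M → N M` is surjective with kernel `M'` and maps `F + M'`
onto `p F`, so `[N M : p F] = [M : F + M'] = p^(b+1)`. Finally `[F : p F] = p^(a+1)` (`F` finitely generated of rank `a`
and with `#F[p] = p`: `#F/pF = p^a #F[p]`), so `[F : N M] p^(b+1) = p^(a+1)`.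
-/

set_option autoImplicit false

namespace H63.MA

theorem chevB_rank {A B : Type} [AddCommGroup A] [AddCommGroup B] [Module.Finite ℤ A]
    (f : A →+ B) :
    Module.finrank ℤ f.range + Module.finrank ℤ f.ker = Module.finrank ℤ A := by
  have h := Submodule.finrank_quotient_add_finrank (LinearMap.ker f.toIntLinearMap)
  have e1 : (A ⧸ LinearMap.ker f.toIntLinearMap) ≃ₗ[ℤ] LinearMap.range f.toIntLinearMap :=
    f.toIntLinearMap.quotKerEquivRange
  have e2 : LinearMap.range f.toIntLinearMap ≃+ f.range :=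
    { toFun := fun x => ⟨x.1, x.2⟩
      invFun := fun x => ⟨x.1, x.2⟩
      left_inv := fun _ => rfl
      right_inv := fun _ => rfl
      map_add' := fun _ _ => rfl }
  have e3 : LinearMap.ker f.toIntLinearMap ≃+ f.ker :=
    { toFun := fun x => ⟨x.1, x.2⟩
      invFun := fun x => ⟨x.1, x.2⟩
      left_inv := fun _ => rfl
      right_inv := fun _ => rfl
      map_add' := fun _ _ => rfl }
  rw [← h, e1.finrank_eq, e2.toIntLinearEquiv.finrank_eq, e3.toIntLinearEquiv.finrank_eq]

theorem chevB_fin {M : Type} [AddCommGroup M] [Module.Finite ℤ M] (H : AddSubgroup M) :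
    Module.Finite ℤ H :=
  Module.Finite.of_injective H.subtype.toIntLinearMap Subtype.val_injective

theorem chevB_mono {M : Type} [AddCommGroup M] [Module.Finite ℤ M] {H K : AddSubgroup M}
    (h : H ≤ K) : Module.finrank ℤ H ≤ Module.finrank ℤ K := by
  have := chevB_fin K
  exact LinearMap.finrank_le_finrank_of_injective
    (f := (AddSubgroup.inclusion h).toIntLinearMap) (AddSubgroup.inclusion_injective h)

theorem chevB {M : Type} [AddCommGroup M] [Module.Finite ℤ M] {p : ℕ} (hp : p.Prime)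
    (σ N : M →+ M) (hσ : ∀ x, (σ^[p]) x = x) (hN : ∀ x, N x = ∑ i ∈ Finset.range p, (σ^[i]) x)
    (h1 : ∀ x, N x = 0 → ∃ y, x = σ y - y) (a b : ℕ)
    (ha : Module.finrank ℤ (σ - AddMonoidHom.id M).ker = a)
    (hb : Module.finrank ℤ M = a + (p - 1) * b)
    (ht : Nat.card {x : M // σ x = x ∧ p • x = 0} = p) :
    N.range ≤ (σ - AddMonoidHom.id M).ker ∧
      N.range.relIndex (σ - AddMonoidHom.id M).ker * p ^ b = p ^ a := by
  obtain ⟨D, hD⟩ : ∃ D, D = σ - AddMonoidHom.id M := ⟨_, rfl⟩
  rw [← hD] at ha ⊢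
  have hDx : ∀ x, D x = σ x - x := fun x => by rw [hD]; rfl
  have hmemF : ∀ x, x ∈ D.ker ↔ σ x = x := fun x => by
    rw [AddMonoidHom.mem_ker, hDx, sub_eq_zero]
  -- `N` commutes with `σ`
  have hit : ∀ (i : ℕ) (x : M), (σ^[i]) (σ x) = σ ((σ^[i]) x) := fun i x => by
    rw [← Function.iterate_succ_apply, Function.iterate_succ_apply']
  have hNσ : ∀ x, N (σ x) = N x := by
    intro x
    rw [hN, hN]
    have h2 : ∑ i ∈ Finset.range p, (σ^[i]) (σ x) = ∑ i ∈ Finset.range p, (σ^[i + 1]) x :=
      Finset.sum_congr rfl fun i _ => (Function.iterate_succ_apply _ _ _).symm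
    have h3 := Finset.sum_range_succ (fun i => (σ^[i]) x) p
    have h4 := Finset.sum_range_succ' (fun i => (σ^[i]) x) p
    rw [h2]
    rw [h3] at h4
    simp only [Function.iterate_zero, id_eq, hσ] at h4
    exact (add_right_cancel h4).symm
  have hσN : ∀ x, σ (N x) = N x := by
    intro x
    have h2 : σ (N x) = N (σ x) := by
      rw [hN x, hN (σ x), map_sum]
      exact Finset.sum_congr rfl fun i _ => (hit i x).symm
    rw [h2, hNσ]
  have hNF : ∀ x, σ x = x → N x = p • x := by
    intro x hx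
    rw [hN]
    have h2 : ∀ i, (σ^[i]) x = x := by
      intro i
      induction i with
      | zero => rfl
      | succ i ih => rw [Function.iterate_succ_apply, hx, ih]
    simp only [h2, Finset.sum_const, Finset.card_range]
  have hNr : N.range ≤ D.ker := by
    rintro _ ⟨x, rfl⟩
    rw [hmemF]
    exact hσN x
  refine ⟨hNr, ?_⟩
  have hDr : D.range = N.ker := by
    ext x
    constructor
    · rintro ⟨y, rfl⟩
      rw [AddMonoidHom.mem_ker, hDx, map_sub, hNσ, sub_self]
    · intro hx
      obtain ⟨y, hy⟩ := h1 x hx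
      exact ⟨y, by rw [hDx]; exact hy.symm⟩
  have hfF := chevB_fin D.ker
  have hfM' := chevB_fin N.ker
  -- ranks
  have hrN : Module.finrank ℤ N.range = a := by
    apply le_antisymm
    · rw [← ha]
      exact chevB_mono hNr
    · have h2 := chevB_rank (N.comp D.ker.subtype)
      have h3 : Module.finrank ℤ (N.comp D.ker.subtype).ker = 0 := by
        have := chevB_fin (N.comp D.ker.subtype).ker
        rw [Module.finrank_eq_zero_iff_isTorsion]
        intro x
        have hpz : (p : ℤ) ≠ 0 := by exact_mod_cast hp.ne_zero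
        refine ⟨⟨(p : ℤ), mem_nonZeroDivisors_of_ne_zero hpz⟩, ?_⟩
        apply Subtype.ext
        apply Subtype.ext
        show (p : ℤ) • ((x : D.ker) : M) = 0
        have h4 : N ((x : D.ker) : M) = 0 := x.2
        rw [natCast_zsmul, ← hNF _ ((hmemF _).1 (x : D.ker).2), h4]
      rw [h3, add_zero, ha] at h2
      rw [← h2]
      apply chevB_mono
      rintro _ ⟨x, rfl⟩
      exact ⟨x, rfl⟩
  have hrM' : Module.finrank ℤ N.ker = (p - 1) * b := by
    have h2 := chevB_rank N
    rw [hrN, hb] at h2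
    omega
  -- the restriction of `σ`
  let σ' : N.ker →+ N.ker :=
    { toFun := fun x => ⟨σ x, by rw [AddMonoidHom.mem_ker, hNσ]; exact x.2⟩
      map_zero' := Subtype.ext (map_zero σ)
      map_add' := fun x y => Subtype.ext (map_add σ _ _) }
  have hσ' : ∀ (i : ℕ) (x : N.ker), (((σ'^[i]) x : N.ker) : M) = (σ^[i]) (x : M) := by
    intro i
    induction i with
    | zero => intro x; rfl
    | succ i ih =>
      intro x
      rw [Function.iterate_succ_apply, Function.iterate_succ_apply, ih]
      rfl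
  obtain ⟨-, hA⟩ := chevA hp σ' (by
    intro x
    apply Subtype.ext
    rw [AddSubgroup.val_finsetSum]
    simp only [hσ']
    rw [← hN]
    exact x.2) b hrM'
  have hcardker : Nat.card (σ' - AddMonoidHom.id N.ker).ker = p := by
    rw [← ht]
    refine Nat.card_congr ⟨fun x => ⟨((x : N.ker) : M), ?_, ?_⟩, fun y => ⟨⟨y.1, ?_⟩, ?_⟩, ?_, ?_⟩
    · have h2 : σ' (x : N.ker) - (x : N.ker) = 0 := x.2
      exact congrArg Subtype.val (sub_eq_zero.1 h2)
    · have h2 : σ' (x : N.ker) - (x : N.ker) = 0 := x.2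
      have h3 : σ ((x : N.ker) : M) = ((x : N.ker) : M) := congrArg Subtype.val (sub_eq_zero.1 h2)
      rw [← hNF _ h3]
      exact (x : N.ker).2
    · rw [AddMonoidHom.mem_ker, hNF _ y.2.1]
      exact y.2.2
    · show σ' _ - _ = 0
      rw [sub_eq_zero]
      exact Subtype.ext y.2.1
    · intro x
      rfl
    · intro y
      rfl
  rw [hcardker] at hA
  -- indices
  have hB : (N.ker.map D).relIndex N.ker = p ^ b * p := by
    rw [← hA]
    show ((N.ker.map D).addSubgroupOf N.ker).index = _
    congr 1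
    ext x
    rw [AddSubgroup.mem_addSubgroupOf]
    constructor
    · rintro ⟨y, hy, hyx⟩
      refine ⟨⟨y, hy⟩, ?_⟩
      apply Subtype.ext
      show σ y - y = x
      rw [← hDx]
      exact hyx
    · rintro ⟨y, rfl⟩
      refine ⟨y, y.2, ?_⟩
      rw [hDx]
      rfl
  have hC : (N.ker ⊔ D.ker).index = p ^ b * p := by
    have h2 := AddSubgroup.relIndex_map_map D N.ker ⊤
    rw [← AddMonoidHom.range_eq_map, hDr, hB] at h2
    rw [h2, top_sup_eq, AddSubgroup.relIndex_top_right]
  have hE : (D.ker.map N).relIndex N.range = p ^ b * p := by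
    have h2 := AddSubgroup.relIndex_map_map N D.ker ⊤
    rw [← AddMonoidHom.range_eq_map, top_sup_eq, AddSubgroup.relIndex_top_right, sup_comm, hC] at h2
    exact h2
  obtain ⟨-, hP⟩ := chevA_p D.ker hp.pos
  have hPk : Nat.card (nsmulAddMonoidHom (α := D.ker) p).ker = p := by
    conv_rhs => rw [← ht]
    refine Nat.card_congr ⟨fun x => ⟨((x : D.ker) : M), ?_, ?_⟩, fun y => ⟨⟨y.1, ?_⟩, ?_⟩, ?_, ?_⟩
    · exact (hmemF _).1 (x : D.ker).2
    · have h2 : p • (x : D.ker) = 0 := x.2
      exact congrArg Subtype.val h2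
    · exact (hmemF _).2 y.2.1
    · exact Subtype.ext y.2.2
    · intro x
      rfl
    · intro y
      rfl
  rw [hPk, ha] at hP
  have hG : (D.ker.map N).relIndex D.ker = p ^ a * p := by
    rw [← hP]
    show ((D.ker.map N).addSubgroupOf D.ker).index = _
    congr 1
    ext x
    rw [AddSubgroup.mem_addSubgroupOf]
    constructor
    · rintro ⟨y, hy, hyx⟩
      refine ⟨⟨y, hy⟩, ?_⟩
      apply Subtype.ext
      show p • y = x
      rw [← hNF _ ((hmemF _).1 hy)]
      exact hyx
    · rintro ⟨y, rfl⟩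
      refine ⟨y, y.2, ?_⟩
      rw [hNF _ ((hmemF _).1 y.2)]
      rfl
  have hH : (D.ker.map N).relIndex N.range * N.range.relIndex D.ker =
      (D.ker.map N).relIndex D.ker := by
    apply AddSubgroup.relIndex_mul_relIndex _ _ _ _ hNr
    rintro _ ⟨x, -, rfl⟩
    exact ⟨x, rfl⟩
  rw [hE, hG] at hH
  apply mul_right_cancel₀ hp.ne_zero
  rw [← hH]
  ring

end H63.MA
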