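import Pool.Agent.H63.MA.KumB
import Pool.Agent.H63.MA.SUnit
import Pool.Agent.H63.MA.ClFin

/-!
# MA-KUME: Hilbert 90 for `T`-units, the unit ranks of `K` and `L`

`T` a finite set of primes of `K`, `TL` the set of primes of `L` over `T`.
* `h90_tunit`: suppose the class group of `K` is generated by `T` (`ClOne T`) and `e(w|v) = 1` for all `w` over `v ∉ T`.
  If `x` is a `TL`-unit of `L` with norm `1` then `x = σ u / u` with a `TL`-unit `u`. Proof: `x = σ y / y` (`kum_h90`); for `w`
  over `v ∉ T`: `ord w (σ y) = ord w y`, so (transitivity, `over_conj`: the same `σ`-step maps primes over `v` to primes over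
  `v`; from `ord w (σ y) = ord w y` for ALL `w` over `v` one gets that `ord w y` is the same for all `w` over `v`, by
  `over_conj` and iteration) `ord w y = m_v` depends only on `v`; finitely many `m_v ≠ 0`. By `ClOne T` there is `b ∈ K^*` with
  `ord v b = m_v` for all `v ∉ T` (product of the elements given by `ClOne`, `finite_ord`), and `u = y / b` works:
  `ord w u = m_v - ord v b = 0`, `σ u / u = σ y / y = x`.
* `units_rank`: `K ∋ ζ` has no real place (`p > 2`, `ζ ∉ ℝ`), nor has `L`, so `rank (𝓞 K)ˣ + 1 = #places = [K:ℚ]/2`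
  (`NumberField.Units.rank`, `NumberField.InfinitePlace.card_add_two_mul_card_eq_rank`), and `[L:ℚ] = p [K:ℚ]`.
-/

set_option autoImplicit false

open scoped NumberField
open IsDedekindDomain

noncomputable section

namespace H63.MA

section kumeaux

variable {L : Type} [Field L] [NumberField L]

theorem kume_inj {w w' : Pl L} (h : ∀ z : Lˣ, ord w z = ord w' z) : w = w' := by
  by_contra hne
  have h1 : ¬ w.asIdeal ≤ w'.asIdeal := by
    intro hle
    exact hne (HeightOneSpectrum.ext (w.isMaximal.eq_of_le w'.isPrime.ne_top hle))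
  obtain ⟨a, ha, ha'⟩ := SetLike.not_le_iff_exists.1 h1
  have ha0 : algebraMap (𝓞 L) L a ≠ 0 := by
    intro h0
    have h2 : a = 0 := by
      apply FaithfulSMul.algebraMap_injective (𝓞 L) L
      rw [h0, map_zero]
    rw [h2] at ha'
    exact ha' (Ideal.zero_mem _)
  have h2 : 0 < ord w (Units.mk0 _ ha0) :=
    (ord_pos_iff w (Units.mk0 _ ha0)).2 ((w.valuation_lt_one_iff_mem a).2 ha)
  rw [h] at h2
  have h3 := (ord_pos_iff w' (Units.mk0 _ ha0)).1 h2
  exact ha' ((w'.valuation_lt_one_iff_mem a).1 h3)

end kumeaux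

variable {K : Type} [Field K] [NumberField K] {L : Type} [Field L] [NumberField L] [Algebra K L]
  {p : ℕ} (hp : p.Prime) {ζ : K} (hζ : IsPrimitiveRoot ζ p) {c : Kˣ} (H : Kum p K ζ c L)

include hp hζ H

/-- if `ord w (σ y) = ord w y` for all `w` over `v` then `ord w y` depends on `v` only -/
theorem kume_const {v : Pl K} {w w' : Pl L} (h : Over w v) (h' : Over w' v) (y : Lˣ)
    (hy : ∀ w'' : Pl L, Over w'' v → ord w'' (au H.σ y) = ord w'' y) : ord w' y = ord w y := by
  classical
  rcases card_over hp hζ H v with h1 | h1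
  · rw [Set.ncard_eq_one] at h1
    obtain ⟨a, ha⟩ := h1
    have e1 : w ∈ ({a} : Set (Pl L)) := by rw [← ha]; exact h
    have e2 : w' ∈ ({a} : Set (Pl L)) := by rw [← ha]; exact h'
    rw [Set.mem_singleton_iff] at e1 e2
    rw [e1, e2]
  · have hconj : ∀ w'' : Pl L, ∃ j : ℕ, Over w'' v →
        (j < p ∧ ∀ z : Lˣ, ord w'' z = ord w (au (H.σ ^ j) z)) := by
      intro w''
      by_cases h2 : Over w'' v
      · obtain ⟨j, hj, hz⟩ := over_conj hp hζ H h h2
        exact ⟨j, fun _ => ⟨hj, hz⟩⟩
      · exact ⟨0, fun h3 => absurd h3 h2⟩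
    choose f hf using hconj
    have hfin : {w : Pl L | Over w v}.Finite := over_finite v
    have hinj : Set.InjOn f {w : Pl L | Over w v} := by
      intro a ha b hb hab
      apply kume_inj
      intro z
      rw [(hf a ha).2 z, (hf b hb).2 z, hab]
    have himg : f '' {w : Pl L | Over w v} = ((Finset.range p : Finset ℕ) : Set ℕ) := by
      apply Set.eq_of_subset_of_ncard_le
      · rintro _ ⟨a, ha, rfl⟩
        rw [Finset.mem_coe, Finset.mem_range]
        exact (hf a ha).1
      · rw [Set.ncard_coe_finset, Finset.card_range, hinj.ncard_image, h1]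
      · exact Finset.finite_toSet _
    have hstep : ∀ i < p, ord w (au (H.σ ^ (i + 1)) y) = ord w (au (H.σ ^ i) y) := by
      intro i hi
      have h2 : i ∈ f '' {w : Pl L | Over w v} := by
        rw [himg, Finset.mem_coe, Finset.mem_range]
        exact hi
      obtain ⟨a, ha, rfl⟩ := h2
      have h3 := hy a ha
      rw [(hf a ha).2, (hf a ha).2] at h3
      have h4 : au (H.σ ^ (f a + 1)) y = au (H.σ ^ f a) (au H.σ y) := by
        apply Units.ext
        show (H.σ ^ (f a + 1)) (y : L) = (H.σ ^ f a) (H.σ (y : L))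
        rw [pow_succ, AlgEquiv.mul_apply]
      rw [h4]
      exact h3
    have hall : ∀ i, i ≤ p → ord w (au (H.σ ^ i) y) = ord w y := by
      intro i
      induction i with
      | zero =>
        intro _
        congr 1
      | succ i ih =>
        intro hi
        rw [hstep i (by omega), ih (by omega)]
    rw [(hf w' h').2]
    exact hall _ (hf w' h').1.le

theorem h90_tunit (T : Finset (Pl K)) (TL : Finset (Pl L))
    (hTL : ∀ w : Pl L, w ∈ TL ↔ ∃ v ∈ T, Over w v) (hcl : ClOne T)
    (hun : ∀ (v : Pl K) (w : Pl L), v ∉ T → Over w v → ∀ x : Kˣ, ord w (inc K L x) = ord v x)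
    (x : Lˣ) (hx : x ∈ UT TL) (hN : Nm K L x = 1) : ∃ u ∈ UT TL, x = au H.σ u * u⁻¹ := by
  classical
  obtain ⟨y, hy⟩ := kum_h90 hp hζ H x hN
  have hsy : au H.σ y = x * y := by rw [hy]; group
  -- primes outside `TL`
  have hout : ∀ (v : Pl K) (w : Pl L), v ∉ T → Over w v → w ∉ TL := by
    intro v w hv hw hmem
    obtain ⟨v', hv', hw'⟩ := (hTL w).1 hmem
    rw [below_unique hw hw'] at hv
    exact hv hv'
  have hys : ∀ (v : Pl K) (w : Pl L), v ∉ T → Over w v → ord w (au H.σ y) = ord w y := by
    intro v w hv hw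
    rw [hsy, ord_mul, mem_UT.1 hx w (hout v w hv hw), zero_add]
  -- the common order
  have hex : ∀ v : Pl K, ∃ w : Pl L, Over w v := fun v => exists_over v
  choose W hW using hex
  obtain ⟨b, hb⟩ := clone_ord hcl (fun v => ord (W v) y) (by
    have h1 : {w : Pl L | ord w y ≠ 0}.Finite := finite_ord y
    refine Set.Finite.of_finite_image (f := W) (h1.subset ?_) ?_
    · rintro _ ⟨v, hv, rfl⟩
      exact hv
    · intro v _ v' _ hvv
      exact below_unique (hW v) (hvv ▸ hW v'))
  refine ⟨y * (inc K L b)⁻¹, ?_, ?_⟩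
  · rw [mem_UT]
    intro w hw
    obtain ⟨v, hv⟩ := exists_below (K := K) w
    have hvT : v ∉ T := by
      intro h
      exact hw ((hTL w).2 ⟨v, h, hv⟩)
    rw [ord_mul, ord_inv, hun v w hvT hv, hb v hvT,
      kume_const hp hζ H (hW v) hv y (fun w'' hw'' => hys v w'' hvT hw'')]
    ring
  · have h1 : au H.σ (inc K L b) = inc K L b := by
      apply Units.ext
      exact H.σ.commutes _
    rw [map_mul, map_inv, h1, hsy]
    group

theorem units_rank (hp2 : MOne p K) :
    NumberField.Units.rank L + 1 = p * (NumberField.Units.rank K + 1) := by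
  have hex : ∃ (n : ℕ) (z : K), 2 < n ∧ IsPrimitiveRoot z n := by
    by_cases h2 : p = 2
    · obtain ⟨i, hi⟩ := hp2
      subst h2
      refine ⟨4, i, by norm_num, ?_⟩
      have h3 : orderOf i = 2 ^ (1 + 1) := by
        refine orderOf_eq_prime_pow ?_ ?_
        · rw [pow_one, hi]
          intro h4
          have h5 : (2 : K) = 0 := by linear_combination -h4
          exact two_ne_zero h5
        · rw [pow_succ, pow_one, pow_mul, hi, neg_one_sq]
      have h6 := IsPrimitiveRoot.orderOf i
      rw [h3] at h6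
      exact h6
    · exact ⟨p, ζ, lt_of_le_of_ne hp.two_le (Ne.symm h2), hζ⟩
  obtain ⟨n, z, hp3, hzK⟩ := hex
  have hζL : IsPrimitiveRoot (algebraMap K L z) n :=
    hzK.map_of_injective (FaithfulSMul.algebraMap_injective K L)
  have hK0 : NumberField.InfinitePlace.nrRealPlaces K = 0 := NumberField.InfinitePlace.IsPrimitiveRoot.nrRealPlaces_eq_zero_of_two_lt hp3 hzK
  have hL0 : NumberField.InfinitePlace.nrRealPlaces L = 0 := NumberField.InfinitePlace.IsPrimitiveRoot.nrRealPlaces_eq_zero_of_two_lt hp3 hζL
  have hKr := NumberField.InfinitePlace.card_add_two_mul_card_eq_rank K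
  have hLr := NumberField.InfinitePlace.card_add_two_mul_card_eq_rank L
  have hKc := NumberField.InfinitePlace.card_eq_nrRealPlaces_add_nrComplexPlaces K
  have hLc := NumberField.InfinitePlace.card_eq_nrRealPlaces_add_nrComplexPlaces L
  have htower := Module.finrank_mul_finrank ℚ K L
  have hdeg := H.deg
  have hposK : 0 < Fintype.card (NumberField.InfinitePlace K) := Fintype.card_pos
  have hposL : 0 < Fintype.card (NumberField.InfinitePlace L) := Fintype.card_pos
  unfold NumberField.Units.rank
  rw [Nat.sub_add_cancel hposK, Nat.sub_add_cancel hposL, hKc, hLc, hK0, hL0, zero_add, zero_add]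
  rw [hK0, zero_add] at hKr
  rw [hL0, zero_add] at hLr
  rw [hdeg, ← hKr, ← hLr] at htower
  have : 2 * (p * NumberField.InfinitePlace.nrComplexPlaces K) =
      2 * NumberField.InfinitePlace.nrComplexPlaces L := by
    rw [← htower]; ring
  omega

end H63.MA
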