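import Pool.Agent.H63.MA.KumD
import Pool.Agent.H63.MA.KumE
import Pool.Agent.H63.MA.ChevB

/-!
# MA-KUMF: the index of the norm group of `T`-units (first inequality)

`c` locally primary at `p`, `T` contains the primes above `p`, the primes `v` with `p ∤ ord v c` and generates the class group.
`t` = number of `v ∈ T`, `v ∤ p`, not `Spl` (these are the primes of `T` which do not split in `L`). Then
`[U_T(K) : N U_T(L)] p = p^t`.

Proof. Apply `chevB` to `M = Additive (UT TL)`, the automorphism `σ` (it maps `UT TL` to itself: primes over `T` are permuted,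
`over_conj`) and `N = 1 + σ + ... + σ^(p-1)`, which is `inc ∘ Nm` (`kum_norm`).
`H^{-1} = 0`: `h90_tunit` (hypothesis `hun`: `unram_case` for `v ∉ T`). The fixed elements are the image of `UT T`
(`kum_fixed`; for `x ∈ K`, `ord w x = e ord v x`, `exists_over`), so `a = rank (𝓞 K)ˣ + #T` (`ut_rank`), they contain exactly `p`
elements killed by `p`, the powers of `ζ`. `rank M = rank (𝓞 L)ˣ + #TL`, `#TL = ∑_{v ∈ T} #{w | v} = p (#T - t) + t`
(`above_split`, `spl_split`, `split_spl`, `card_over`), `rank (𝓞 L)ˣ = p (rank (𝓞 K)ˣ + 1) - 1`. So with `r = rank (𝓞 K)ˣ + 1`: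
`a = r - 1 + #T`, `rank M = p r - 1 + p (#T - t) + t = a + (p-1)(r + #T - t)`, `b = r + #T - t`, `a - b = t - 1`, and the
index times `p^b` is `p^a`, i.e. index times `p` is `p^t` (note `b + t = a + 1`).
-/

set_option autoImplicit false

open scoped NumberField
open IsDedekindDomain

noncomputable section

namespace H63.MA

open Classical in
/-- the primes of `T` which do not split in `K(c^{1/p})` -/
def nsp {K : Type} [Field K] [NumberField K] (p : ℕ) (ζ : K) (c : Kˣ) (T : Finset (Pl K)) :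
    Finset (Pl K) :=
  T.filter fun v => ¬ Above p v ∧ ¬ Spl p ζ v c

/-! ### auxiliary lemmas -/

theorem kumF_sep {L : Type} [Field L] [NumberField L] {w w' : Pl L}
    (h : ∀ y : Lˣ, ord w y = ord w' y) : w = w' := by
  by_contra hne
  have h1 : ¬ w.asIdeal ≤ w'.asIdeal := by
    intro hle
    exact hne (HeightOneSpectrum.ext (w.isMaximal.eq_of_le w'.isPrime.ne_top hle))
  obtain ⟨x, hx, hx'⟩ := SetLike.not_le_iff_exists.1 h1
  have hx0 : x ≠ 0 := fun h0 => hx' (h0 ▸ w'.asIdeal.zero_mem)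
  have hx1 : (algebraMap (𝓞 L) L x) ≠ 0 := by
    simpa using hx0
  have h2 : 0 < ord w (Units.mk0 _ hx1) :=
    (ord_pos_iff w _).2 ((w.valuation_lt_one_iff_mem x).2 hx)
  rw [h, ord_pos_iff] at h2
  exact hx' ((w'.valuation_lt_one_iff_mem x).1 h2)

theorem kumF_au_one {K L : Type} [Field K] [Field L] [Algebra K L] (x : Lˣ) :
    au (1 : L ≃ₐ[K] L) x = x := by
  ext; rfl

theorem kumF_au_mul {K L : Type} [Field K] [Field L] [Algebra K L] (s t : L ≃ₐ[K] L) (x : Lˣ) :
    au (s * t) x = au s (au t x) := by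
  ext; rfl

section kumF_aux

variable {K : Type} [Field K] [NumberField K] {L : Type} [Field L] [NumberField L] [Algebra K L]
  {p : ℕ} (hp : p.Prime) {ζ : K} (hζ : IsPrimitiveRoot ζ p) {c : Kˣ} (H : Kum p K ζ c L)

include hp hζ H

theorem kumF_sigma {v : Pl K} {w : Pl L} (h : Over w v) :
    ∃ w' : Pl L, Over w' v ∧ ∀ y : Lˣ, ord w (au H.σ y) = ord w' y := by
  rcases card_over hp hζ H v with hg | hg
  · exact ⟨w, h, fun y => nonsplit_stable hp hζ H hg h y⟩
  · have hj : ∀ w' : {w' : Pl L // Over w' v}, ∃ j : Fin p, ∀ y : Lˣ,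
        ord w'.1 y = ord w (au (H.σ ^ (j : ℕ)) y) := by
      intro w'
      obtain ⟨j, hj, hy⟩ := over_conj hp hζ H h w'.2
      exact ⟨⟨j, hj⟩, hy⟩
    choose j hj using hj
    have hinj : Function.Injective j := by
      intro a b hab
      apply Subtype.ext
      apply kumF_sep
      intro y
      rw [hj a y, hj b y, hab]
    have hfin : Finite {w' : Pl L // Over w' v} := (over_finite v).to_subtype
    have hcard : Nat.card {w' : Pl L // Over w' v} = Nat.card (Fin p) := by
      rw [Nat.card_fin]; exact hg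
    have hbij : Function.Bijective j := by
      rw [Nat.bijective_iff_injective_and_card]
      exact ⟨hinj, hcard⟩
    obtain ⟨w', hw'⟩ := hbij.2 ⟨1, hp.one_lt⟩
    refine ⟨w'.1, w'.2, fun y => ?_⟩
    rw [hj w' y, hw']
    simp

theorem kumF_au_mem {T : Finset (Pl K)} {TL : Finset (Pl L)}
    (hTL : ∀ w : Pl L, w ∈ TL ↔ ∃ v ∈ T, Over w v) {x : Lˣ} (hx : x ∈ UT TL) :
    au H.σ x ∈ UT TL := by
  rw [mem_UT] at hx ⊢
  intro w hw
  obtain ⟨v, hv⟩ := exists_below (K := K) w
  obtain ⟨w', hw', hy⟩ := kumF_sigma hp hζ H hv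
  rw [hy]
  apply hx
  intro hw'T
  obtain ⟨v', hv'T, hv'⟩ := (hTL w').1 hw'T
  have := below_unique hw' hv'
  subst this
  exact hw ((hTL w).2 ⟨v, hv'T, hv⟩)

omit hp hζ H in
theorem kumF_inc_mem {T : Finset (Pl K)} {TL : Finset (Pl L)}
    (hTL : ∀ w : Pl L, w ∈ TL ↔ ∃ v ∈ T, Over w v) {x : Kˣ} :
    inc K L x ∈ UT TL ↔ x ∈ UT T := by
  rw [mem_UT, mem_UT]
  constructor
  · intro h v hv
    obtain ⟨w, hw⟩ := exists_over (L := L) v
    obtain ⟨e, he, hx⟩ := ord_inc hw
    have h1 : w ∉ TL := by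
      intro hwT
      obtain ⟨v', hv'T, hv'⟩ := (hTL w).1 hwT
      rw [below_unique hw hv'] at hv
      exact hv hv'T
    have h2 := h w h1
    rw [hx] at h2
    have h3 : (e : ℤ) ≠ 0 := by positivity
    exact (mul_eq_zero.1 h2).resolve_left h3
  · intro h w hw
    obtain ⟨v, hv⟩ := exists_below (K := K) w
    obtain ⟨e, he, hx⟩ := ord_inc hv
    have h1 : v ∉ T := fun hvT => hw ((hTL w).2 ⟨v, hvT, hv⟩)
    rw [hx, h v h1, mul_zero]

theorem kumF_nm_mem {T : Finset (Pl K)} {TL : Finset (Pl L)}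
    (hTL : ∀ w : Pl L, w ∈ TL ↔ ∃ v ∈ T, Over w v) {x : Lˣ} (hx : x ∈ UT TL) :
    Nm K L x ∈ UT T := by
  rw [← kumF_inc_mem hTL, kum_norm hp hζ H]
  apply Subgroup.prod_mem
  intro i hi
  clear hi
  induction i with
  | zero => rw [pow_zero, kumF_au_one]; exact hx
  | succ i ih => rw [pow_succ', kumF_au_mul]; exact kumF_au_mem hp hζ H hTL ih

/-- number of primes over `T` -/
theorem kumF_card (T : Finset (Pl K)) (TL : Finset (Pl L))
    (hTL : ∀ w : Pl L, w ∈ TL ↔ ∃ v ∈ T, Over w v)
    (hc : Prim p c) :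
    TL.card + p * (nsp p ζ c T).card = p * T.card + (nsp p ζ c T).card := by
  classical
  have h1 : TL = T.biUnion (fun v => (over_finite (L := L) v).toFinset) := by
    ext w
    rw [hTL w]
    simp
  have h2 : TL.card = ∑ v ∈ T, {w : Pl L | Over w v}.ncard := by
    rw [h1, Finset.card_biUnion]
    · refine Finset.sum_congr rfl (fun v _ => ?_)
      rw [Set.ncard_eq_toFinset_card _ (over_finite v)]
    · intro v _ v' _ hvv'
      rw [Function.onFun, Finset.disjoint_left]
      intro w hw hw'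
      simp only [Set.Finite.mem_toFinset, Set.mem_ofPred_eq] at hw hw'
      exact hvv' (below_unique hw hw')
  have h3 : ∀ v ∈ T, {w : Pl L | Over w v}.ncard + (if (¬ Above p v ∧ ¬ Spl p ζ v c) then p else 0)
      = p + (if (¬ Above p v ∧ ¬ Spl p ζ v c) then 1 else 0) := by
    intro v _
    by_cases hv : Above p v
    · rw [above_split hp hζ H hv (hc v hv)]
      simp [hv]
    · by_cases hs : Spl p ζ v c
      · rw [spl_split hp hζ H hv hs]
        simp [hs]
      · rcases card_over hp hζ H v with hg | hg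
        · rw [hg]; simp [hv, hs]; ring
        · exact absurd (split_spl hp hζ H hv hg) hs
  have h4 := Finset.sum_congr rfl h3
  rw [Finset.sum_add_distrib, Finset.sum_add_distrib, ← h2] at h4
  simp only [← Finset.sum_filter, Finset.sum_const, smul_eq_mul, mul_one] at h4
  have h5 : nsp p ζ c T = T.filter (fun v => ¬ Above p v ∧ ¬ Spl p ζ v c) := by
    unfold nsp
    congr 1
  rw [h5]
  linarith

end kumF_aux

variable {K : Type} [Field K] [NumberField K] {L : Type} [Field L] [NumberField L] [Algebra K L]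
  {p : ℕ} (hp : p.Prime) (hp2 : MOne p K) {ζ : K} (hζ : IsPrimitiveRoot ζ p) {c : Kˣ}
  (H : Kum p K ζ c L)

include hp hp2 hζ H

theorem norm_index (T : Finset (Pl K)) (TL : Finset (Pl L))
    (hTL : ∀ w : Pl L, w ∈ TL ↔ ∃ v ∈ T, Over w v) (hcl : ClOne T)
    (hT : ∀ v, Above p v → v ∈ T) (hr : ∀ v : Pl K, ¬ (p : ℤ) ∣ ord v c → v ∈ T)
    (hc : Prim p c) :
    (UT TL).map (Nm K L) ≤ UT T ∧
      ((UT TL).map (Nm K L)).relIndex (UT T) * p = p ^ (nsp p ζ c T).card := by
  classical
  have hle : (UT TL).map (Nm K L) ≤ UT T := by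
    rintro _ ⟨x, hx, rfl⟩
    exact kumF_nm_mem hp hζ H hTL hx
  refine ⟨hle, ?_⟩
  have hfm : Module.Finite ℤ (Additive (UT TL)) := ut_finite TL
  -- the automorphism
  let s' : UT TL →* UT TL := ((au H.σ).comp (UT TL).subtype).codRestrict (UT TL)
    (fun x => kumF_au_mem hp hζ H hTL x.2)
  let s : Additive (UT TL) →+ Additive (UT TL) := MonoidHom.toAdditive s'
  have hs : ∀ x : Additive (UT TL), ((s x).toMul : Lˣ) = au H.σ (x.toMul : Lˣ) := fun x => rfl
  have hsi : ∀ (i : ℕ) (x : Additive (UT TL)),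
      (((s^[i]) x).toMul : Lˣ) = au (H.σ ^ i) (x.toMul : Lˣ) := by
    intro i
    induction i with
    | zero => intro x; rw [pow_zero, kumF_au_one]; rfl
    | succ i ih =>
      intro x
      rw [Function.iterate_succ_apply', hs, ih, pow_succ', kumF_au_mul]
  -- the norm
  let sE : AddMonoid.End (Additive (UT TL)) := s
  let N : Additive (UT TL) →+ Additive (UT TL) := ∑ i ∈ Finset.range p, sE ^ i
  have hNs : ∀ x, N x = ∑ i ∈ Finset.range p, (s^[i]) x := by
    intro x
    rw [show N x = ∑ i ∈ Finset.range p, (sE ^ i) x from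
      AddMonoidHom.finsetSum_apply _ _ _]
    rfl
  have hNv : ∀ x : Additive (UT TL), ((N x).toMul : Lˣ) = inc K L (Nm K L (x.toMul : Lˣ)) := by
    intro x
    rw [hNs, toMul_sum, kum_norm hp hζ H, Subgroup.val_finsetProd]
    exact Finset.prod_congr rfl (fun i _ => hsi i x)
  -- the inclusion
  let f' : UT T →* UT TL := ((inc K L).comp (UT T).subtype).codRestrict (UT TL)
    (fun x => (kumF_inc_mem hTL).2 x.2)
  let f : Additive (UT T) →+ Additive (UT TL) := MonoidHom.toAdditive f'
  have hf : ∀ x : Additive (UT T), ((f x).toMul : Lˣ) = inc K L (x.toMul : Kˣ) := fun x => rfl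
  have hext : ∀ x y : Additive (UT TL), (x.toMul : Lˣ) = (y.toMul : Lˣ) → x = y := by
    intro x y h
    exact Additive.toMul.injective (Subtype.ext h)
  have hfinj : Function.Injective f := by
    intro x y h
    have h1 : (x.toMul : Kˣ) = (y.toMul : Kˣ) := by
      apply inc_injective K L
      rw [← hf, ← hf, h]
    exact Additive.toMul.injective (Subtype.ext h1)
  have hfr : f.range = (s - AddMonoidHom.id _).ker := by
    ext x
    rw [AddMonoidHom.mem_range, AddMonoidHom.mem_ker, AddMonoidHom.sub_apply, sub_eq_zero,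
      AddMonoidHom.id_apply]
    constructor
    · rintro ⟨y, rfl⟩
      apply hext
      rw [hs, hf]
      ext
      exact H.σ.commutes _
    · intro h
      have h1 : H.σ ((x.toMul : Lˣ) : L) = ((x.toMul : Lˣ) : L) := by
        have h0 : au H.σ (x.toMul : Lˣ) = (x.toMul : Lˣ) := by rw [← hs, h]
        exact congrArg Units.val h0
      obtain ⟨y, hy⟩ := kum_fixed hp hζ H _ h1
      have hy0 : y ≠ 0 := by
        rintro rfl
        rw [map_zero] at hy
        exact (x.toMul : Lˣ).ne_zero hy.symm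
      have h2 : inc K L (Units.mk0 y hy0) = (x.toMul : Lˣ) := by
        ext; exact hy
      have h3 : Units.mk0 y hy0 ∈ UT T := by
        rw [← kumF_inc_mem hTL, h2]
        exact x.toMul.2
      exact ⟨Additive.ofMul ⟨_, h3⟩, hext _ _ (by rw [hf]; exact h2)⟩
  have hσp : ∀ x, (s^[p]) x = x := by
    intro x
    apply hext
    rw [hsi, kum_σ_pow hp hζ H, kumF_au_one]
  have h90 : ∀ x, N x = 0 → ∃ y, x = s y - y := by
    intro x hx
    have h1 : Nm K L (x.toMul : Lˣ) = 1 := by
      apply inc_injective K L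
      rw [← hNv, hx, map_one]
      rfl
    obtain ⟨u, hu, hxu⟩ := h90_tunit hp hζ H T TL hTL hcl (fun v w hv hw x =>
      unram_case hp hζ H (fun h => hv (hT v h)) (by by_contra h; exact hv (hr v h)) hw x)
      (x.toMul : Lˣ) x.toMul.2 h1
    refine ⟨Additive.ofMul ⟨u, hu⟩, hext _ _ ?_⟩
    rw [toMul_sub, Subgroup.coe_div, hs, hxu]
    rw [div_eq_mul_inv]
    rfl
  have ha : Module.finrank ℤ (s - AddMonoidHom.id _).ker = NumberField.Units.rank K + T.card := by
    rw [← hfr, ← ut_rank T]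
    exact (LinearEquiv.finrank_eq (AddMonoidHom.ofInjective hfinj).toIntLinearEquiv).symm
  have hnsp : (nsp p ζ c T).card ≤ T.card := by
    unfold nsp; exact Finset.card_filter_le _ _
  have hcardTL := kumF_card hp hζ H T TL hTL hc
  obtain ⟨d, hd⟩ := Nat.exists_eq_add_of_le hnsp
  have hur := units_rank hp hζ H hp2
  have hb : Module.finrank ℤ (Additive (UT TL)) =
      (NumberField.Units.rank K + T.card) + (p - 1) * (NumberField.Units.rank K + 1 + d) := by
    rw [ut_rank TL]
    obtain ⟨q, rfl⟩ : ∃ q, p = q + 1 := ⟨p - 1, by have := hp.pos; omega⟩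
    rw [Nat.add_sub_cancel]
    rw [hd] at hcardTL ⊢
    nlinarith
  have ht : Nat.card {x : Additive (UT TL) // s x = x ∧ p • x = 0} = p := by
    have : NeZero p := ⟨hp.ne_zero⟩
    have hru : Nat.card (rootsOfUnity p K) = p := hζ.card_rootsOfUnity
    have hmem : ∀ u : rootsOfUnity p K, (u : Kˣ) ∈ UT T := by
      intro u
      rw [mem_UT]
      intro v _
      have h1 : (u : Kˣ) ^ p = 1 := by
        have := u.2
        rwa [mem_rootsOfUnity] at this
      have h2 : (p : ℤ) * ord v (u : Kˣ) = 0 := by rw [← ord_pow, h1, ord_one]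
      exact (mul_eq_zero.1 h2).resolve_left (by exact_mod_cast hp.ne_zero)
    have hpr : ∀ u : rootsOfUnity p K, (s (f (Additive.ofMul ⟨(u : Kˣ), hmem u⟩)) =
        f (Additive.ofMul ⟨(u : Kˣ), hmem u⟩)) ∧
        p • f (Additive.ofMul ⟨(u : Kˣ), hmem u⟩) = 0 := by
      intro u
      constructor
      · have h1 : f (Additive.ofMul ⟨(u : Kˣ), hmem u⟩) ∈ (s - AddMonoidHom.id _).ker := by
          rw [← hfr]; exact ⟨_, rfl⟩
        rwa [AddMonoidHom.mem_ker, AddMonoidHom.sub_apply, sub_eq_zero,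
          AddMonoidHom.id_apply] at h1
      · rw [← map_nsmul, ← ofMul_pow]
        have h1 : (⟨(u : Kˣ), hmem u⟩ : UT T) ^ p = 1 := by
          ext
          have := u.2
          rw [mem_rootsOfUnity] at this
          rw [Subgroup.coe_pow]
          simp [this]
        rw [h1, ofMul_one, map_zero]
    rw [← hru]
    symm
    refine Nat.card_eq_of_bijective (fun u : rootsOfUnity p K =>
      (⟨f (Additive.ofMul ⟨(u : Kˣ), hmem u⟩), ?_⟩ : {x : Additive (UT TL) // s x = x ∧
        (Nat.card (rootsOfUnity p K)) • x = 0})) ⟨?_, ?_⟩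
    · rw [hru]; exact hpr u
    · intro u u' h
      have h1 := hfinj (Subtype.mk.inj h)
      have h2 := congrArg (fun z : Additive (UT T) => (z.toMul : Kˣ)) h1
      exact Subtype.ext h2
    · rintro ⟨x, hx1, hx2⟩
      have h1 : x ∈ f.range := by
        rw [hfr, AddMonoidHom.mem_ker, AddMonoidHom.sub_apply, sub_eq_zero,
          AddMonoidHom.id_apply]
        exact hx1
      obtain ⟨y, rfl⟩ := h1
      have h2 : p • y = 0 := by
        apply hfinj
        rw [map_nsmul, map_zero, ← hx2, hru]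
      have h3 : (y.toMul : Kˣ) ∈ rootsOfUnity p K := by
        rw [mem_rootsOfUnity]
        have := congrArg (fun z : Additive (UT T) => (z.toMul : Kˣ)) h2
        simpa using this
      exact ⟨⟨_, h3⟩, rfl⟩
  have key := (chevB hp s N hσp hNs h90 _ _ ha hb ht).2
  have hidx : N.range.relIndex (s - AddMonoidHom.id _).ker =
      ((UT TL).map (Nm K L)).relIndex (UT T) := by
    rw [← hfr, AddMonoidHom.range_eq_map f, ← AddSubgroup.relIndex_comap,
      AddSubgroup.relIndex_top_right]
    have h1 : AddSubgroup.comap f N.range =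
        Subgroup.toAddSubgroup (((UT TL).map (Nm K L)).subgroupOf (UT T)) := by
      ext x
      rw [AddSubgroup.mem_comap, AddMonoidHom.mem_range]
      change _ ↔ x.toMul ∈ ((UT TL).map (Nm K L)).subgroupOf (UT T)
      rw [Subgroup.mem_subgroupOf, Subgroup.mem_map]
      constructor
      · rintro ⟨y, hy⟩
        refine ⟨(y.toMul : Lˣ), y.toMul.2, ?_⟩
        apply inc_injective K L
        rw [← hNv, hy, hf]
      · rintro ⟨y, hy, hy'⟩
        refine ⟨Additive.ofMul ⟨y, hy⟩, hext _ _ ?_⟩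
        rw [hNv, hf]
        exact congrArg _ hy'
    rw [h1, Subgroup.index_toAddSubgroup]
    rfl
  rw [hidx] at key
  have hppos : 0 < p ^ (NumberField.Units.rank K + 1 + d) := pow_pos hp.pos _
  have h5 : (((UT TL).map (Nm K L)).relIndex (UT T) * p) * p ^ (NumberField.Units.rank K + 1 + d) =
      p ^ (nsp p ζ c T).card * p ^ (NumberField.Units.rank K + 1 + d) := by
    calc (((UT TL).map (Nm K L)).relIndex (UT T) * p) * p ^ (NumberField.Units.rank K + 1 + d)
        = (((UT TL).map (Nm K L)).relIndex (UT T) * p ^ (NumberField.Units.rank K + 1 + d)) * p := by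
          ring
      _ = p ^ (NumberField.Units.rank K + T.card) * p := by rw [key]
      _ = _ := by
        rw [hd, ← pow_succ, ← pow_add]
        congr 1
        ring
  exact Nat.eq_of_mul_eq_mul_right hppos h5


omit hp hp2 hζ H in
theorem kumF_exTL (T : Finset (Pl K)) :
    ∃ TL : Finset (Pl L), ∀ w : Pl L, w ∈ TL ↔ ∃ v ∈ T, Over w v := by
  classical
  refine ⟨T.biUnion (fun v => (over_finite (L := L) v).toFinset), fun w => ?_⟩
  simp

omit hp hp2 hζ H in
theorem kumF_dual {ι : Type} (s : Finset ι) (f : Module.Dual (ZMod p) (s → ZMod p)) :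
    ∃ k : ι → ZMod p, (∀ v, v ∉ s → k v = 0) ∧
      ∀ y : ι → ZMod p, f (fun v => y v) = ∑ v ∈ s, k v * y v := by
  classical
  refine ⟨fun v => if h : v ∈ s then f (fun j => if (⟨v, h⟩ : s) = j then 1 else 0) else 0,
    fun v hv => dif_neg hv, fun y => ?_⟩
  rw [LinearMap.pi_apply_eq_sum_univ, ← Finset.sum_coe_sort s]
  refine Finset.sum_congr rfl (fun v _ => ?_)
  dsimp only
  rw [dif_pos v.2, smul_eq_mul, mul_comm]

theorem kumF_core (T : Finset (Pl K)) (hcl : ClOne T)
    (hT : ∀ v, Above p v → v ∈ T) (hr : ∀ v : Pl K, ¬ (p : ℤ) ∣ ord v c → v ∈ T)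
    (hc : Prim p c) :
    ∃ (φ : Additive (UT T) →+ (nsp p ζ c T → ZMod p)) (I : AddSubgroup (Additive (UT T))),
      (∀ x v, φ x v = B p ζ v.1 c (x.toMul : Kˣ)) ∧ I ≤ φ.ker ∧
      I.index * p = p ^ (nsp p ζ c T).card ∧
      ∀ x ∈ I, ∃ y : Lˣ, Nm K L y = (x.toMul : Kˣ) := by
  classical
  obtain ⟨TL, hTL⟩ := kumF_exTL (L := L) T
  obtain ⟨hle, hidx⟩ := norm_index hp hp2 hζ H T TL hTL hcl hT hr hc
  have hnA : ∀ v : nsp p ζ c T, ¬ Above p v.1 := by
    intro v
    have := v.2
    unfold nsp at this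
    exact (Finset.mem_filter.1 this).2.1
  let φ : Additive (UT T) →+ (nsp p ζ c T → ZMod p) :=
    { toFun := fun x v => B p ζ v.1 c (x.toMul : Kˣ)
      map_zero' := by
        funext v
        exact B_one_right hp hζ (hnA v) c
      map_add' := by
        intro x y
        funext v
        exact B_mul_right hp hζ (hnA v) c _ _ }
  refine ⟨φ, Subgroup.toAddSubgroup (((UT TL).map (Nm K L)).subgroupOf (UT T)),
    fun x v => rfl, ?_, ?_, ?_⟩
  · intro x hx
    change x.toMul ∈ ((UT TL).map (Nm K L)).subgroupOf (UT T) at hx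
    rw [Subgroup.mem_subgroupOf, Subgroup.mem_map] at hx
    obtain ⟨y, _, hy⟩ := hx
    rw [AddMonoidHom.mem_ker]
    funext v
    change B p ζ v.1 c (x.toMul : Kˣ) = 0
    rw [← hy]
    exact B_norm hp hp2 hζ H (hnA v) y
  · rw [Subgroup.index_toAddSubgroup]
    exact hidx
  · intro x hx
    change x.toMul ∈ ((UT TL).map (Nm K L)).subgroupOf (UT T) at hx
    rw [Subgroup.mem_subgroupOf, Subgroup.mem_map] at hx
    obtain ⟨y, _, hy⟩ := hx
    exact ⟨y, hy⟩

/-- at least one linear relation between the symbols of the `T`-units: the homomorphism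
`UT T → (nsp → ZMod p)`, `x ↦ (B v c x)_v` kills the norms (`B_norm`), so its image (an additive subgroup, hence a subspace of
`ZMod p ^ t`) has at most `p^(t-1)` elements and is annihilated by a nonzero vector `k`. -/
theorem rel_tunit (T : Finset (Pl K)) (hcl : ClOne T)
    (hT : ∀ v, Above p v → v ∈ T) (hr : ∀ v : Pl K, ¬ (p : ℤ) ∣ ord v c → v ∈ T)
    (hc : Prim p c) :
    ∃ k : Pl K → ZMod p, (∃ v ∈ nsp p ζ c T, k v ≠ 0) ∧ (∀ v, v ∉ nsp p ζ c T → k v = 0) ∧
      ∀ x ∈ UT T, ∑ v ∈ nsp p ζ c T, k v * B p ζ v c x = 0 := by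
  classical
  have : Fact p.Prime := ⟨hp⟩
  obtain ⟨φ, I, hφ, hI, hidx, -⟩ := kumF_core hp hp2 hζ H T hcl hT hr hc
  have hIpos : 0 < I.index := by
    rcases Nat.eq_zero_or_pos I.index with h | h
    · rw [h, zero_mul] at hidx
      exact absurd hidx.symm (pow_pos hp.pos _).ne'
    · exact h
  let W : Submodule (ZMod p) (nsp p ζ c T → ZMod p) := AddSubgroup.toZModSubmodule p φ.range
  have hW : W < ⊤ := by
    rw [lt_top_iff_ne_top]
    intro hWt
    have h1 : φ.range = ⊤ := by
      rw [eq_top_iff]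
      intro x _
      have h2 : x ∈ W := by rw [hWt]; trivial
      exact h2
    have h2 : Nat.card φ.range = p ^ (nsp p ζ c T).card := by
      rw [h1, Nat.card_congr (AddSubgroup.topEquiv (G := (nsp p ζ c T → ZMod p))).toEquiv,
        Nat.card_fun, Nat.card_zmod, Nat.card_eq_fintype_card, Fintype.card_coe]
    have h3 : Nat.card φ.range ∣ I.index := by
      rw [← AddSubgroup.index_ker]
      exact AddSubgroup.index_dvd_of_le hI
    have h4 := Nat.le_of_dvd hIpos h3
    rw [h2, ← hidx] at h4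
    have := hp.one_lt
    nlinarith
  obtain ⟨f, hf, hfW⟩ := Submodule.exists_le_ker_of_lt_top W hW
  obtain ⟨k, hk, hkf⟩ := kumF_dual (nsp p ζ c T) f
  refine ⟨k, ?_, hk, ?_⟩
  · by_contra hcon
    push Not at hcon
    apply hf
    ext1 v
    apply LinearMap.ext_ring
    have h1 := hkf (fun w => if w = v.1 then 1 else 0)
    rw [Finset.sum_eq_zero (fun v hv => by rw [hcon v hv, zero_mul])] at h1
    rw [LinearMap.comp_apply, LinearMap.zero_comp, LinearMap.zero_apply, ← h1]
    congr 1
    funext w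
    rw [LinearMap.single_apply, Pi.single_apply]
    simp only [Subtype.ext_iff]
  · intro x hx
    have h1 := hkf (fun v => B p ζ v c x)
    rw [← h1]
    have h2 : (fun v : nsp p ζ c T => B p ζ v c x) = φ (Additive.ofMul ⟨x, hx⟩) := by
      funext v
      rw [hφ]
      rfl
    rw [h2]
    have h3 : φ (Additive.ofMul ⟨x, hx⟩) ∈ W := ⟨_, rfl⟩
    exact hfW h3

/-- if all linear relations are proportional, the `T`-units with trivial symbols are norms: the image of
`UT T → (nsp → ZMod p)` then has dimension `≥ t - 1`, i.e. exactly `p^(t-1)` elements, which is the index of the norm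
group; the norm group is contained in the kernel, so it is the kernel. -/
theorem norm_of_rel (T : Finset (Pl K)) (hcl : ClOne T)
    (hT : ∀ v, Above p v → v ∈ T) (hr : ∀ v : Pl K, ¬ (p : ℤ) ∣ ord v c → v ∈ T)
    (hc : Prim p c)
    (h1 : ∀ k k' : Pl K → ZMod p,
      (∀ x ∈ UT T, ∑ v ∈ nsp p ζ c T, k v * B p ζ v c x = 0) →
      (∀ x ∈ UT T, ∑ v ∈ nsp p ζ c T, k' v * B p ζ v c x = 0) →
      ∃ a a' : ZMod p, (a ≠ 0 ∨ a' ≠ 0) ∧ ∀ v ∈ nsp p ζ c T, a * k v + a' * k' v = 0)
    (b : Kˣ) (hb : b ∈ UT T) (hB : ∀ v ∈ nsp p ζ c T, B p ζ v c b = 0) :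
    ∃ y : Lˣ, Nm K L y = b := by
  classical
  have : Fact p.Prime := ⟨hp⟩
  obtain ⟨φ, I, hφ, hI, hidx, hIy⟩ := kumF_core hp hp2 hζ H T hcl hT hr hc
  have hIpos : 0 < I.index := by
    rcases Nat.eq_zero_or_pos I.index with h | h
    · rw [h, zero_mul] at hidx
      exact absurd hidx.symm (pow_pos hp.pos _).ne'
    · exact h
  let W : Submodule (ZMod p) (nsp p ζ c T → ZMod p) := AddSubgroup.toZModSubmodule p φ.range
  have hrel : ∀ f ∈ W.dualAnnihilator, ∀ g ∈ W.dualAnnihilator,
      ∃ a a' : ZMod p, (a ≠ 0 ∨ a' ≠ 0) ∧ a • f + a' • g = 0 := by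
    intro f hf g hg
    obtain ⟨k, hk, hkf⟩ := kumF_dual (nsp p ζ c T) f
    obtain ⟨k', hk', hkg⟩ := kumF_dual (nsp p ζ c T) g
    have hz : ∀ (f : Module.Dual (ZMod p) (nsp p ζ c T → ZMod p)) (k : Pl K → ZMod p),
        f ∈ W.dualAnnihilator →
        (∀ y : Pl K → ZMod p, f (fun v => y v) = ∑ v ∈ nsp p ζ c T, k v * y v) →
        ∀ x ∈ UT T, ∑ v ∈ nsp p ζ c T, k v * B p ζ v c x = 0 := by
      intro f k hf hkf x hx
      have h1 := hkf (fun v => B p ζ v c x)
      rw [← h1]
      have h2 : (fun v : nsp p ζ c T => B p ζ v c x) = φ (Additive.ofMul ⟨x, hx⟩) := by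
        funext v
        rw [hφ]
        rfl
      rw [h2]
      rw [Submodule.mem_dualAnnihilator] at hf
      exact hf _ ⟨_, rfl⟩
    obtain ⟨a, a', haa, hrl⟩ := h1 k k' (hz f k hf hkf) (hz g k' hg hkg)
    refine ⟨a, a', haa, ?_⟩
    ext1 v
    apply LinearMap.ext_ring
    have e1 := hkf (fun w => if w = v.1 then 1 else 0)
    have e2 := hkg (fun w => if w = v.1 then 1 else 0)
    have e3 : (fun w : nsp p ζ c T => (if w.1 = v.1 then 1 else 0 : ZMod p)) =
        LinearMap.single (ZMod p) (fun _ => ZMod p) v 1 := by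
      funext w
      rw [LinearMap.single_apply, Pi.single_apply]
      simp only [Subtype.ext_iff]
    rw [e3] at e1 e2
    rw [LinearMap.comp_apply, LinearMap.zero_comp, LinearMap.zero_apply, LinearMap.add_apply,
      LinearMap.smul_apply, LinearMap.smul_apply, e1, e2]
    simp only [mul_ite, mul_one, mul_zero, Finset.sum_ite_eq', v.2, if_true, smul_eq_mul]
    exact hrl v.1 v.2
  have hdim : Module.finrank (ZMod p) W.dualAnnihilator ≤ 1 := by
    by_cases hbot : W.dualAnnihilator = ⊥
    · rw [hbot]; simp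
    · obtain ⟨f, hf, hf0⟩ := Submodule.exists_mem_ne_zero_of_ne_bot hbot
      refine finrank_le_one (⟨f, hf⟩ : W.dualAnnihilator) ?_
      rintro ⟨g, hg⟩
      obtain ⟨a, a', haa, h⟩ := hrel f hf g hg
      have ha' : a' ≠ 0 := by
        rintro rfl
        rw [zero_smul, add_zero] at h
        rcases haa with h3 | h3
        · exact hf0 ((smul_eq_zero.1 h).resolve_left h3)
        · exact h3 rfl
      refine ⟨-(a'⁻¹ * a), ?_⟩
      apply Subtype.ext
      change (-(a'⁻¹ * a)) • f = g
      have h4 : a' • g = -(a • f) := by rw [eq_neg_iff_add_eq_zero, add_comm]; exact h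
      have h5 : a'⁻¹ * a' = 1 := inv_mul_cancel₀ ha'
      apply LinearMap.ext
      intro z
      have h6 := congrArg (fun l : Module.Dual (ZMod p) (nsp p ζ c T → ZMod p) => l z) h4
      simp only [LinearMap.smul_apply, LinearMap.neg_apply, smul_eq_mul] at h6 ⊢
      linear_combination (-a'⁻¹) * h6 + (g z) * h5
  have hsum : Module.finrank (ZMod p) W + Module.finrank (ZMod p) W.dualAnnihilator =
      (nsp p ζ c T).card := by
    rw [Subspace.finrank_add_finrank_dualAnnihilator_eq, Module.finrank_fintype_fun_eq_card,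
      Fintype.card_coe]
  have hcardW : Nat.card φ.range = p ^ Module.finrank (ZMod p) W := by
    have := Module.natCard_eq_pow_finrank (K := ZMod p) (V := W)
    rw [Nat.card_zmod] at this
    exact this
  have h3 : Nat.card φ.range ∣ I.index := by
    rw [← AddSubgroup.index_ker]
    exact AddSubgroup.index_dvd_of_le hI
  have h4 : I.index * p ≤ Nat.card φ.range * p := by
    rw [hidx, hcardW, ← pow_succ]
    exact Nat.pow_le_pow_right hp.pos (by omega)
  have h5 : Nat.card φ.range = I.index :=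
    le_antisymm (Nat.le_of_dvd hIpos h3) (Nat.le_of_mul_le_mul_right h4 hp.pos)
  rw [← AddSubgroup.index_ker] at h5
  have h6 := AddSubgroup.relIndex_mul_index hI
  rw [h5] at h6
  have h7 : I.relIndex φ.ker = 1 := by
    have : I.relIndex φ.ker * I.index = 1 * I.index := by rw [h6, one_mul]
    exact Nat.eq_of_mul_eq_mul_right hIpos this
  rw [AddSubgroup.relIndex_eq_one] at h7
  have h8 : Additive.ofMul (⟨b, hb⟩ : UT T) ∈ φ.ker := by
    rw [AddMonoidHom.mem_ker]
    funext v
    rw [hφ]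
    exact hB v.1 v.2
  obtain ⟨y, hy⟩ := hIy _ (h7 h8)
  exact ⟨y, hy⟩

end H63.MA
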