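import Pool.Agent.H63.MA.Lin

/-!
# MA-SCAL: the reciprocity law with unknown constants

There is `lam : Pl K → ZMod p` with `∑_{v ∤ p} lam v * B v c x = 0` for all `c` locally primary at `p` and all `x ∈ K^*`; and for
every such `c` which is not a `p`-th power there is `v ∤ p` with `lam v ≠ 0` and not `Spl v c`.

Proof. Let `k` be as in `exists_lin`, `D_v(c, x) = k c v * B v c x`, additive in `c ∈ P` and in `x`. Fix `v ∤ p`. Choose
(`exists_pair`, `weak_approx_prim`, `B_of_one1`, `B_symm`) `c₁, c₂ ∈ P` with `B v c₁ c₂ = 1`. From `D(c₁c₂, c₂) = D(c₁, c₂) + D(c₂, c₂)`: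
`k (c₁c₂) v = k c₁ v`, and from `D(c₁c₂, c₁)`: `k (c₁ c₂) v = k c₂ v`. Put `lam v = k c₁ v = k c₂ v`. For `c ∈ P` let
`i = B v c c₂`, `j = B v c₁ c` (lifted to integers) and `c' = c c₁^{-i} c₂^{-j} ∈ P`: `B v c' c₁ = B v c' c₂ = 0`. As
`B v` on `Kˣ` (modulo local `p`-th powers) is nondegenerate alternating of rank `2`, `B v c' · = 0`: every `x ∈ Kˣ` is `c₁^a c₂^b` times
an element `x'` with `B v x' c₁ = B v x' c₂ = 0`, and such `x'` has `Spl v x'` (the pair `(ord, lg)` of `x'` is a multiple of the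
pairs of both `c₁` and `c₂`, which are linearly independent; write `B` as the determinant of the pairs
`(ord v, lg of the unit part)` with respect to a fixed uniformizer). So `D(c', x) = 0` for all `x` and
`D(c, x) = i D(c₁, x) + j D(c₂, x) = lam v (i B v c₁ x + j B v c₂ x) = lam v B v c x`.
Sum over `v ∤ p`: `∑_v D_v(c, x) = 0` because `k c` is a relation. If `c` is not a `p`-th power, `k c v ≠ 0` for some `v`, then `v ∤ p`, not
`Spl v c`, and `lam v = k c v` (`B v c x ≠ 0` for some `x`).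
-/

set_option autoImplicit false

open scoped NumberField
open IsDedekindDomain

noncomputable section

namespace H63.MA

/-- a reciprocity law with constants `lam` -/
structure IsRec {K : Type} [Field K] [NumberField K] (p : ℕ) (ζ : K) (lam : Pl K → ZMod p) : Prop where
  above : ∀ v, Above p v → lam v = 0
  sum : ∀ c, Prim p c → ∀ x : Kˣ, ∑ᶠ v, lam v * B p ζ v c x = 0
  non : ∀ c, Prim p c → ¬ IsPow p c → ∃ v, lam v ≠ 0 ∧ ¬ Spl p ζ v c

section loc

variable {K : Type} [Field K] [NumberField K] {p : ℕ} (hp : p.Prime) {ζ : K}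
  (hζ : IsPrimitiveRoot ζ p) {v : Pl K} (hv : ¬ Above p v)

include hp hζ hv

private theorem scal_pow_left (c x : Kˣ) (n : ℕ) : B p ζ v (c ^ n) x = n * B p ζ v c x := by
  have h := B_zpow_left hp hζ hv c x (n : ℤ)
  rw [zpow_natCast] at h
  rw [h, Int.cast_natCast]

/-- `B` as a determinant -/
private theorem scal_det {π : Kˣ} (hπ : ord v π = 1) (a b : Kˣ) :
    B p ζ v a b = (ord v b : ZMod p) * lg p ζ v (a * (π ^ ord v a)⁻¹) -
      (ord v a : ZMod p) * lg p ζ v (b * (π ^ ord v b)⁻¹) := by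
  have h0 : ∀ c : Kˣ, ord v (c * (π ^ ord v c)⁻¹) = 0 := by
    intro c
    rw [ord_mul, ord_inv, ord_zpow, hπ]
    ring
  have ha : a = a * (π ^ ord v a)⁻¹ * π ^ ord v a := by rw [inv_mul_cancel_right]
  have hb : b = b * (π ^ ord v b)⁻¹ * π ^ ord v b := by rw [inv_mul_cancel_right]
  have e1 : B p ζ v a b = B p ζ v (a * (π ^ ord v a)⁻¹) b + B p ζ v (π ^ ord v a) b := by
    conv_lhs => rw [ha]
    rw [B_mul_left hp hζ hv]
  have e2 : B p ζ v π b = -lg p ζ v (b * (π ^ ord v b)⁻¹) := by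
    conv_lhs => rw [hb]
    rw [B_mul_right hp hζ hv, B_zpow_right hp hζ hv, B_self hp hζ hv, mul_zero, add_zero,
      B_symm hp hζ hv, B_unit hp hζ hv (h0 b), hπ, Int.cast_one, one_mul]
  rw [e1, B_unit hp hζ hv (h0 a), B_zpow_left hp hζ hv, e2]
  ring

/-- an element orthogonal to a hyperbolic pair is orthogonal to everything -/
private theorem scal_orth {c₁ c₂ z : Kˣ} (h12 : B p ζ v c₁ c₂ = 1) (h1 : B p ζ v z c₁ = 0)
    (h2 : B p ζ v z c₂ = 0) (x : Kˣ) : B p ζ v z x = 0 := by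
  obtain ⟨π, hπ⟩ := exists_unif v
  rw [scal_det hp hζ hv hπ] at h12 h1 h2 ⊢
  set o1 : ZMod p := (ord v c₁ : ZMod p)
  set o2 : ZMod p := (ord v c₂ : ZMod p)
  set oz : ZMod p := (ord v z : ZMod p)
  set l1 := lg p ζ v (c₁ * (π ^ ord v c₁)⁻¹)
  set l2 := lg p ζ v (c₂ * (π ^ ord v c₂)⁻¹)
  set lz := lg p ζ v (z * (π ^ ord v z)⁻¹)
  have e1 : lz = 0 := by linear_combination (-lz) * h12 - l2 * h1 + l1 * h2
  have e2 : oz = 0 := by linear_combination (-oz) * h12 - o2 * h1 + o1 * h2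
  rw [e1, e2]
  ring

private theorem scal_local (hp2 : MOne p K) {k : Kˣ → ZMod p}
    (hk : ∀ c c', Prim p c → Prim p c' → ∀ x, k (c * c') * B p ζ v (c * c') x =
      k c * B p ζ v c x + k c' * B p ζ v c' x) :
    ∃ l : ZMod p, ∀ c, Prim p c → ∀ x, k c * B p ζ v c x = l * B p ζ v c x := by
  classical
  haveI : Fact p.Prime := ⟨hp⟩
  obtain ⟨d₁, d₂, hd⟩ := exists_pair hp hζ hv
  obtain ⟨c₁, hc₁, h1⟩ := weak_approx_prim hp.ne_zero {v}
    (fun w hw => by rw [Finset.mem_singleton.1 hw]; exact hv) (fun _ => d₁)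
  obtain ⟨c₂, hc₂, h2⟩ := weak_approx_prim hp.ne_zero {v}
    (fun w hw => by rw [Finset.mem_singleton.1 hw]; exact hv) (fun _ => d₂)
  have h1' := h1 v (Finset.mem_singleton_self v)
  have h2' := h2 v (Finset.mem_singleton_self v)
  have hone : ∀ {a b : Kˣ}, One1 v (a * b⁻¹) → ∀ x, B p ζ v a x = B p ζ v b x := by
    intro a b h x
    have e : a = a * b⁻¹ * b := by rw [inv_mul_cancel_right]
    rw [e, B_mul_left hp hζ hv, B_symm hp hζ hv, B_of_one1 hp hζ hv x h]
    ring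
  have h12 : B p ζ v c₁ c₂ = 1 := by
    rw [hone h1', B_symm hp hζ hv, hone h2', ← B_symm hp hζ hv, hd]
  have hk1 : k (c₁ * c₂) = k c₁ := by
    have h := hk c₁ c₂ hc₁ hc₂ c₂
    rw [B_mul_left hp hζ hv, B_self hp hζ hv, h12] at h
    linear_combination h
  have hk2 : k (c₁ * c₂) = k c₂ := by
    have h := hk c₁ c₂ hc₁ hc₂ c₁
    rw [B_mul_left hp hζ hv, B_self hp hζ hv, B_symm hp hζ hv c₂ c₁, h12] at h
    linear_combination -h
  have hone0 : ∀ x, k 1 * B p ζ v 1 x = 0 := by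
    intro x
    rw [B_one_left hp hζ hv, mul_zero]
  have hpP : ∀ {c : Kˣ}, Prim p c → ∀ n : ℕ, Prim p (c ^ n) := by
    intro c hc n
    have := prim_zpow hp hp2 hζ hc (n : ℤ)
    rwa [zpow_natCast] at this
  have hpow : ∀ (c : Kˣ), Prim p c → ∀ (n : ℕ) (x : Kˣ),
      k (c ^ n) * B p ζ v (c ^ n) x = n * (k c * B p ζ v c x) := by
    intro c hc n x
    induction n with
    | zero => rw [pow_zero, hone0, Nat.cast_zero, zero_mul]
    | succ n ih =>
      rw [pow_succ, hk _ _ (hpP hc n) hc, ih]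
      push_cast
      ring
  refine ⟨k c₁, fun c hc x => ?_⟩
  set i : ℕ := (B p ζ v c c₂).val with hi
  set j : ℕ := (B p ζ v c₁ c).val with hj
  have hi' : (i : ZMod p) = B p ζ v c c₂ := ZMod.natCast_zmod_val _
  have hj' : (j : ZMod p) = B p ζ v c₁ c := ZMod.natCast_zmod_val _
  set e : Kˣ := c₁ ^ i * c₂ ^ j with he
  have heP : Prim p e := prim_mul hp hp2 hζ (hpP hc₁ i) (hpP hc₂ j)
  have heiP : Prim p e⁻¹ := by
    have := prim_zpow hp hp2 hζ heP (-1)
    rwa [zpow_neg_one] at this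
  set c' : Kˣ := c * e⁻¹ with hc'
  have hc'P : Prim p c' := prim_mul hp hp2 hζ hc heiP
  have hcc : c = c' * e := by rw [hc', inv_mul_cancel_right]
  have hBe : ∀ y, B p ζ v e y = i * B p ζ v c₁ y + j * B p ζ v c₂ y := by
    intro y
    rw [he, B_mul_left hp hζ hv, scal_pow_left hp hζ hv, scal_pow_left hp hζ hv]
  have hc'1 : B p ζ v c' c₁ = 0 := by
    rw [hc', B_mul_left hp hζ hv, B_inv_left hp hζ hv, hBe, B_self hp hζ hv,
      B_symm hp hζ hv c₂ c₁, h12, hj', B_symm hp hζ hv c c₁]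
    ring
  have hc'2 : B p ζ v c' c₂ = 0 := by
    rw [hc', B_mul_left hp hζ hv, B_inv_left hp hζ hv, hBe, B_self hp hζ hv, h12, hi']
    ring
  have hc'0 := scal_orth hp hζ hv h12 hc'1 hc'2 x
  have e1 : k c * B p ζ v c x = k c' * B p ζ v c' x + k e * B p ζ v e x := by
    conv_lhs => rw [hcc]
    exact hk c' e hc'P heP x
  have e2 : k e * B p ζ v e x = k (c₁ ^ i) * B p ζ v (c₁ ^ i) x +
      k (c₂ ^ j) * B p ζ v (c₂ ^ j) x := hk _ _ (hpP hc₁ i) (hpP hc₂ j) x
  have e3 : B p ζ v c x = B p ζ v e x := by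
    conv_lhs => rw [hcc]
    rw [B_mul_left hp hζ hv, hc'0, zero_add]
  rw [e1, hc'0, mul_zero, zero_add, e2, hpow c₁ hc₁, hpow c₂ hc₂, e3, hBe]
  rw [← hk2, hk1]
  ring

end loc

theorem exists_rec {K : Type} [Field K] [NumberField K] {p : ℕ} (hp : p.Prime) (hp2 : MOne p K) {ζ : K}
    (hζ : IsPrimitiveRoot ζ p) : ∃ lam : Pl K → ZMod p, IsRec p ζ lam := by
  classical
  haveI : Fact p.Prime := ⟨hp⟩
  obtain ⟨k, hk1, hk2, hk3⟩ := exists_lin (K := K) hp hp2 hζ
  have hloc : ∀ v : Pl K, ∃ l : ZMod p, ¬ Above p v → ∀ c, Prim p c → ∀ x,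
      k c v * B p ζ v c x = l * B p ζ v c x := by
    intro v
    by_cases hv : Above p v
    · exact ⟨0, fun h => absurd hv h⟩
    · obtain ⟨l, hl⟩ := scal_local hp hζ hv hp2 (k := fun c => k c v)
        (fun c c' hc hc' x => hk3 c c' hc hc' v x)
      exact ⟨l, fun _ => hl⟩
  choose l hl using hloc
  have hD : ∀ c, Prim p c → ∀ v x, (if Above p v then 0 else l v) * B p ζ v c x =
      k c v * B p ζ v c x := by
    intro c hc v x
    by_cases hv : Above p v
    · rw [if_pos hv, (hk1 c hc).1 v (Or.inl hv)]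
    · rw [if_neg hv, hl v hv c hc x]
  refine ⟨fun v => if Above p v then 0 else l v, ⟨fun v hv => if_pos hv, fun c hc x => ?_,
    fun c hc hcp => ?_⟩⟩
  · exact (finsum_congr fun v => hD c hc v x).trans ((hk1 c hc).2 x)
  · obtain ⟨v, hv⟩ := hk2 c hc hcp
    have hvp : ¬ Above p v := fun h => hv ((hk1 c hc).1 v (Or.inl h))
    have hvs : ¬ Spl p ζ v c := fun h => hv ((hk1 c hc).1 v (Or.inr h))
    have hx : ∃ x, B p ζ v c x ≠ 0 := by
      by_contra h
      push Not at h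
      exact hvs h
    obtain ⟨x, hx⟩ := hx
    refine ⟨v, ?_, hvs⟩
    have h1 := hD c hc v x
    have h2 := mul_right_cancel₀ hx h1
    rw [h2]
    exact hv

end H63.MA
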