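import Pool.Agent.H63.MA.ALem
import Pool.Agent.H63.MA.ADivI
import Pool.Agent.H63.MA.RMkB

/-!
# MA-ABILA: Lemma B, dyadic blocks with the longer variable on top

`e ≠ 0` in `ZMod p`, `|α|, |β| ≤ 1`, `1 ≤ M ≤ N`:
`|∑_{m ∈ GF 2M, M < nr m} ∑_{n ∈ GF 2N, N < nr n, n ∩ m = ∅} α m β n ep(e Lf m (pf n))| ≤ C M N M^{-δ} (1 + log N)^A`.

Proof. For a finite set `m` of good primes let `χ_m` be the ray class character of modulus `𝔣_m = M0 ∏_{w ∈ m} w` belonging to `fE` with `E = m`,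
`μ = e`, `κ = 0` (`rayE`, `ray_rc`), so `χ_m(idl n) = ep(e Lf m (pf n))` if `n ∩ m = ∅` (good `n`), `0` otherwise. For `m ≠ m'` the character
`χ_m χ̄_{m'}` (modulus `M0 ∏_{w ∈ m ∪ m'} w`) is nontrivial: it belongs to `fE` with `μ = e` on `m ∖ m'`, `-e` on `m' ∖ m`, `0` on the
intersection. So by `pv`: `|∑_{N ν ≤ y} χ_m(ν) χ̄_{m'}(ν)| ≤ C (nr m nr m')^A y^{1-δ₀}` for `m ≠ m'`, `y ≥ 1`.
Let `z_m = ∑_n β n χ_m(idl n)`, `S = ∑_m α m z_m`, and let `s ≥ 1` be an integer with `s δ₀ ≥ 2 A + 2`. Hoelder: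
`|S|^s ≤ (C M)^{s-1} ∑_m |z_m|^s = (C M)^{s-1} ∑_m c_m z_m^s` with `|c_m| = 1` (`af_card`). `z_m^s = ∑_ν b_ν χ_m(ν)`, `ν` over the ideals with
`N ν ≤ (2N)^s`, `|b_ν| ≤ tau s ν`. Cauchy-Schwarz over `ν`: `∑_m c_m z_m^s ≤ (∑_ν |b_ν|²)^{1/2} (∑_ν |∑_m c_m χ_m(ν)|²)^{1/2}`; the first factor is
`≤ (C N^s (1 + log N)^A)^{1/2}` (`tau_sum_sq`), the second, after expanding the square, is
`≤ (C M N^s + C M² M^{4A} N^{s(1-δ₀)})^{1/2} ≤ (C M N^s)^{1/2}` since `M ≤ N` and `N^{s δ₀} ≥ N^{2A'+2}` (choose `s` with `s δ₀ ≥ 4A + 1`).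
So `|S|^s ≤ C M^{s-1} N^s M^{1/2} (1 + log N)^A = C (M N)^s M^{-1/2} (1 + log N)^A`, and `δ = 1/(2s)`.
-/

set_option autoImplicit false

open scoped NumberField
open IsDedekindDomain
open scoped Classical

noncomputable section

namespace H63.MA

section bilAchar

variable {K : Type} [Field K] [NumberField K] {p : ℕ} {ζ : K}

theorem bilA_ext (φ ψ : Ideal (𝓞 K) → ℂ) (h1 : φ 1 = ψ 1) (hφ : ∀ I J, φ (I * J) = φ I * φ J)
    (hψ : ∀ I J, ψ (I * J) = ψ I * ψ J) (h : ∀ v : Pl K, φ v.asIdeal = ψ v.asIdeal)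
    (I : Ideal (𝓞 K)) (hI : I ≠ ⊥) : φ I = ψ I := by
  induction I using UniqueFactorizationMonoid.induction_on_prime with
  | h₁ => exact absurd rfl hI
  | h₂ x hx =>
    have : x = 1 := by
      rw [Ideal.one_eq_top]
      exact Ideal.isUnit_iff.1 hx
    rw [this]
    exact h1
  | h₃ a q ha hq ih =>
    rw [hφ, hψ, ih ha]
    congr 1
    exact h ⟨q, Ideal.isPrime_of_prime hq, hq.ne_zero⟩

theorem bilA_dvd (v : Pl K) (E : Finset (Pl K)) : v.asIdeal ∣ idl E ↔ v ∈ E := by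
  constructor
  · intro h
    obtain ⟨w, hw, h1⟩ := (HeightOneSpectrum.prime v).exists_mem_finset_dvd h
    have h3 : w.asIdeal ≤ v.asIdeal := Ideal.le_of_dvd h1
    have h4 : w = v := HeightOneSpectrum.ext (w.isMaximal.eq_of_le v.isPrime.ne_top h3)
    rw [← h4]
    exact hw
  · intro h
    exact Finset.dvd_prod_of_mem _ h

theorem bilA_ep_neg (hp : p.Prime) (a : ZMod p) : (starRingEnd ℂ) (ep p a) = ep p (-a) := by
  have h1 : ep p a * ep p (-a) = 1 := by rw [← ep_add hp, add_neg_cancel, ep_zero]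
  have h2 : ep p a * (starRingEnd ℂ) (ep p a) = 1 := by
    rw [Complex.mul_conj, Complex.normSq_eq_norm_sq, ep_norm]
    norm_num
  have h3 : ep p a ≠ 0 := by
    intro h
    rw [h, zero_mul] at h1
    exact zero_ne_one h1
  exact mul_left_cancel₀ h3 (h2.trans h1.symm)

theorem bilA_chi (hp : p.Prime) (hζ : IsPrimitiveRoot ζ p) (D : RD K p ζ) (E : Finset (Pl K))
    (hE : ∀ w ∈ E, w ∉ D.S0) (μ : Pl K → ZMod p) :
    ∃ χ : RC K (D.M0 * idl E),
      (∀ v, v ∉ D.S0 → v ∉ E → χ.χ v.asIdeal = ep p (∑ w ∈ E, μ w * D.LL w (D.pi v))) ∧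
      (∀ v, v ∈ D.S0 ∨ v ∈ E → χ.χ v.asIdeal = 0) ∧ ((∃ w ∈ E, μ w ≠ 0) → χ.Non) := by
  obtain ⟨h1, h2⟩ := rayE hp hζ D E hE μ 0
  have hne : D.M0 * idl E ≠ ⊥ := mul_ne_zero D.M0_ne (idl_ne E)
  obtain ⟨χ, h3, h4⟩ := ray_rc hp hne h1
  have hdvd : ∀ v : Pl K, v.asIdeal ∣ D.M0 * idl E ↔ v ∈ D.S0 ∨ v ∈ E := by
    intro v
    rw [(HeightOneSpectrum.prime v).dvd_mul, D.M0_dvd, bilA_dvd]
  refine ⟨χ, fun v hv hvE => ?_, fun v hv => ?_, fun hμ => ?_⟩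
  · rw [h3 v (by rw [hdvd, not_or]; exact ⟨hv, hvE⟩), if_neg (by rw [not_or]; exact ⟨hv, hvE⟩), fE]
    congr 1
    rw [show dt (0 : Fin D.r → ZMod p) (D.q v) = 0 by simp [dt], add_zero]
  · apply χ.zero_of
    intro hcop
    have h5 := (hdvd v).2 hv
    have h6 : IsCoprime v.asIdeal v.asIdeal := hcop.of_isCoprime_of_dvd_right h5
    have h7 := Ideal.isCoprime_iff_sup_eq.1 h6
    rw [sup_idem] at h7
    exact v.isPrime.ne_top h7
  · obtain ⟨v, hv1, hv2, hv3⟩ := h2 (Or.inl hμ)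
    exact h4 ⟨v, by rw [if_neg (by rw [not_or]; exact ⟨hv1, hv2⟩)]; exact hv3⟩

theorem bilA_pair (hp : p.Prime) (hζ : IsPrimitiveRoot ζ p) (D : RD K p ζ) {e : ZMod p}
    (he : e ≠ 0) {m m' : Finset (Pl K)} (hm : ∀ w ∈ m, w ∉ D.S0) (hm' : ∀ w ∈ m', w ∉ D.S0)
    (hne : m ≠ m') (χ : RC K (D.M0 * idl m)) (χ' : RC K (D.M0 * idl m'))
    (h1 : ∀ v, v ∉ D.S0 → v ∉ m → χ.χ v.asIdeal = ep p (∑ w ∈ m, e * D.LL w (D.pi v)))
    (h2 : ∀ v, v ∈ D.S0 ∨ v ∈ m → χ.χ v.asIdeal = 0)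
    (h1' : ∀ v, v ∉ D.S0 → v ∉ m' → χ'.χ v.asIdeal = ep p (∑ w ∈ m', e * D.LL w (D.pi v)))
    (h2' : ∀ v, v ∈ D.S0 ∨ v ∈ m' → χ'.χ v.asIdeal = 0) :
    ∃ ψ : RC K (D.M0 * idl (m ∪ m')), ψ.Non ∧
      ∀ I, I ≠ ⊥ → χ.χ I * (starRingEnd ℂ) (χ'.χ I) = ψ.χ I := by
  obtain ⟨ψ, h3, h4, h5⟩ := bilA_chi hp hζ D (m ∪ m') (fun w hw => by
    rcases Finset.mem_union.1 hw with h | h
    · exact hm w h
    · exact hm' w h) (fun w => (if w ∈ m then e else 0) - (if w ∈ m' then e else 0))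
  refine ⟨ψ, h5 ?_, fun I hI => ?_⟩
  · by_contra hno
    push Not at hno
    apply hne
    ext w
    by_cases hw : w ∈ m <;> by_cases hw' : w ∈ m'
    · exact ⟨fun _ => hw', fun _ => hw⟩
    · exfalso
      have := hno w (Finset.mem_union_left _ hw)
      rw [if_pos hw, if_neg hw', sub_zero] at this
      exact he this
    · exfalso
      have := hno w (Finset.mem_union_right _ hw')
      rw [if_neg hw, if_pos hw', zero_sub, neg_eq_zero] at this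
      exact he this
    · exact ⟨fun h => absurd h hw, fun h => absurd h hw'⟩
  · refine bilA_ext (fun I => χ.χ I * (starRingEnd ℂ) (χ'.χ I)) (fun I => ψ.χ I) ?_ ?_ ?_ ?_ I hI
    · change χ.χ 1 * (starRingEnd ℂ) (χ'.χ 1) = ψ.χ 1
      rw [map_one, map_one, map_one, map_one, one_mul]
    · intro I J
      simp only [map_mul]
      ring
    · intro I J
      exact map_mul _ _ _
    · intro v
      beta_reduce
      by_cases hS : v ∈ D.S0
      · rw [h2 v (Or.inl hS), h4 v (Or.inl hS), zero_mul]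
      by_cases hv : v ∈ m
      · rw [h2 v (Or.inr hv), h4 v (Or.inr (Finset.mem_union_left _ hv)), zero_mul]
      by_cases hv' : v ∈ m'
      · rw [h2' v (Or.inr hv'), h4 v (Or.inr (Finset.mem_union_right _ hv')), map_zero, mul_zero]
      rw [h1 v hS hv, h1' v hS hv', h3 v hS (by rw [Finset.mem_union, not_or]; exact ⟨hv, hv'⟩),
        bilA_ep_neg hp, ← ep_add hp]
      congr 1
      simp only [sub_mul, ite_mul, zero_mul, Finset.sum_sub_distrib, Finset.sum_ite_mem]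
      rw [Finset.union_inter_cancel_left, Finset.union_inter_cancel_right]
      ring

theorem bilA_norm {𝔣 : Ideal (𝓞 K)} (χ : RC K 𝔣) {I : Ideal (𝓞 K)} (hI : I ≠ ⊥) :
    ‖χ.χ I‖ ≤ 1 := by
  by_cases h : IsCoprime I 𝔣
  · exact (χ.norm_one I hI h).le
  · rw [χ.zero_of I h, norm_zero]
    exact zero_le_one

/-- value on a finite set of good primes -/
theorem bilA_val (hp : p.Prime) (hζ : IsPrimitiveRoot ζ p) (D : RD K p ζ) (e : ZMod p)
    {m : Finset (Pl K)} (hm : ∀ w ∈ m, w ∉ D.S0) (χ : RC K (D.M0 * idl m))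
    (h1 : ∀ v, v ∉ D.S0 → v ∉ m → χ.χ v.asIdeal = ep p (∑ w ∈ m, e * D.LL w (D.pi v)))
    (h2 : ∀ v, v ∈ D.S0 ∨ v ∈ m → χ.χ v.asIdeal = 0) (n : Finset (Pl K))
    (hn : ∀ w ∈ n, w ∉ D.S0) :
    χ.χ (idl n) = if Disjoint m n then ep p (e * Lf D.toRD0 m (pf D.toRD0 n)) else 0 := by
  have hidl : idl n = ∏ v ∈ n, v.asIdeal := rfl
  by_cases hd : Disjoint m n
  · rw [if_pos hd, hidl, map_prod]
    have h3 : ∀ v ∈ n, χ.χ v.asIdeal = ep p (∑ w ∈ m, e * D.LL w (D.pi v)) := fun v hv =>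
      h1 v (hn v hv) (fun h => Finset.disjoint_left.1 hd h hv)
    rw [Finset.prod_congr rfl h3]
    have h4 : ∀ s : Finset (Pl K), ∏ v ∈ s, ep p (∑ w ∈ m, e * D.LL w (D.pi v)) =
        ep p (∑ v ∈ s, ∑ w ∈ m, e * D.LL w (D.pi v)) := by
      intro s
      induction s using Finset.induction_on with
      | empty => rw [Finset.prod_empty, Finset.sum_empty, ep_zero]
      | insert a s ha ih => rw [Finset.prod_insert ha, Finset.sum_insert ha, ep_add hp, ih]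
    rw [h4]
    congr 1
    rw [Finset.sum_comm, Lf, Finset.mul_sum]
    refine Finset.sum_congr rfl fun w hw => ?_
    rw [← Finset.mul_sum]
    congr 1
    rw [pf]
    have h5 : ∀ s : Finset (Pl K), D.LL w (∏ v ∈ s, D.pi v) = ∑ v ∈ s, D.LL w (D.pi v) := by
      intro s
      induction s using Finset.induction_on with
      | empty => rw [Finset.prod_empty, Finset.sum_empty, LL_one hp hζ D.toRD0 (hm w hw)]
      | insert a s ha ih =>
        rw [Finset.prod_insert ha, Finset.sum_insert ha, LL_mul hp hζ D.toRD0 (hm w hw), ih]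
    exact (h5 n).symm
  · rw [if_neg hd, hidl, map_prod]
    rw [Finset.not_disjoint_iff] at hd
    obtain ⟨v, hv1, hv2⟩ := hd
    exact Finset.prod_eq_zero hv2 (h2 v (Or.inr hv1))

theorem bilA_nr_union (m m' : Finset (Pl K)) : nr (m ∪ m') ≤ nr m * nr m' := by
  have h1 : m ∪ m' = m ∪ (m' \ m) := by
    ext w
    simp only [Finset.mem_union, Finset.mem_sdiff]
    tauto
  rw [h1, nr_union Finset.disjoint_sdiff]
  exact mul_le_mul_of_nonneg_left (nr_mono Finset.sdiff_subset) (by linarith [one_le_nr m])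

theorem bilA_expand {ι : Type} (S : Finset ι) (M : Finset (Finset (Pl K)))
    (c : Finset (Pl K) → ℂ) (χ : Finset (Pl K) → ι → ℂ) (hc : ∀ m ∈ M, ‖c m‖ ≤ 1) :
    ∑ I ∈ S, ‖∑ m ∈ M, c m * χ m I‖ ^ 2 ≤
      ∑ m ∈ M, ∑ m' ∈ M, ‖∑ I ∈ S, χ m I * (starRingEnd ℂ) (χ m' I)‖ := by
  have h1 : ((∑ I ∈ S, ‖∑ m ∈ M, c m * χ m I‖ ^ 2 : ℝ) : ℂ) =
      ∑ m ∈ M, ∑ m' ∈ M, c m * (starRingEnd ℂ) (c m') *
        ∑ I ∈ S, χ m I * (starRingEnd ℂ) (χ m' I) := by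
    push_cast
    have h2 : ∀ I ∈ S, ((‖∑ m ∈ M, c m * χ m I‖ : ℂ)) ^ 2 =
        ∑ m ∈ M, ∑ m' ∈ M, c m * (starRingEnd ℂ) (c m') *
          (χ m I * (starRingEnd ℂ) (χ m' I)) := by
      intro I _
      rw [← Complex.mul_conj', map_sum, Finset.sum_mul_sum]
      refine Finset.sum_congr rfl fun m _ => Finset.sum_congr rfl fun m' _ => ?_
      rw [map_mul]
      ring
    rw [Finset.sum_congr rfl h2, Finset.sum_comm]
    refine Finset.sum_congr rfl fun m _ => ?_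
    rw [Finset.sum_comm]
    refine Finset.sum_congr rfl fun m' _ => ?_
    rw [Finset.mul_sum]
  have h3 : ∑ I ∈ S, ‖∑ m ∈ M, c m * χ m I‖ ^ 2 =
      ‖((∑ I ∈ S, ‖∑ m ∈ M, c m * χ m I‖ ^ 2 : ℝ) : ℂ)‖ := by
    rw [Complex.norm_real, Real.norm_of_nonneg (Finset.sum_nonneg fun _ _ => sq_nonneg _)]
  rw [h3, h1]
  refine (norm_sum_le _ _).trans (Finset.sum_le_sum fun m hm => ?_)
  refine (norm_sum_le _ _).trans (Finset.sum_le_sum fun m' hm' => ?_)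
  rw [norm_mul, norm_mul, Complex.norm_conj]
  have h4 : ‖c m‖ * ‖c m'‖ ≤ 1 := mul_le_one₀ (hc m hm) (norm_nonneg _) (hc m' hm')
  exact mul_le_of_le_one_left (norm_nonneg _) h4

theorem bilA_ls (hp : p.Prime) (hζ : IsPrimitiveRoot ζ p) (D : RD K p ζ) :
    ∃ C A δ : ℝ, 0 < C ∧ 0 ≤ A ∧ 0 < δ ∧ δ < 1 ∧ ∀ (e : ZMod p), e ≠ 0 →
    ∃ χ : Finset (Pl K) → Ideal (𝓞 K) → ℂ,
      (∀ m, (∀ w ∈ m, w ∉ D.S0) → χ m 1 = 1 ∧ (∀ I J, χ m (I * J) = χ m I * χ m J) ∧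
        ∀ n : Finset (Pl K), (∀ w ∈ n, w ∉ D.S0) → χ m (idl n) =
          if Disjoint m n then ep p (e * Lf D.toRD0 m (pf D.toRD0 n)) else 0) ∧
      ∀ (M : Finset (Finset (Pl K))) (c : Finset (Pl K) → ℂ) (Y y : ℝ),
        (∀ m ∈ M, (∀ w ∈ m, w ∉ D.S0) ∧ nr m ≤ Y) → (∀ m ∈ M, ‖c m‖ ≤ 1) → 1 ≤ y → 1 ≤ Y →
        ∑ I ∈ IN K y, ‖∑ m ∈ M, c m * χ m I‖ ^ 2 ≤
          C * (M.card * y + (M.card : ℝ) ^ 2 * (Y ^ 2) ^ A * y ^ (1 - δ)) := by
  obtain ⟨κ, C0, δ0, hκ, hC0, hδ0, hδ01, hcnt⟩ := cnt K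
  obtain ⟨C1, A1, δ1, hC1, hA1, hδ1, hδ11, hpv⟩ := pv K
  have hN0 : (1 : ℝ) ≤ (Ideal.absNorm D.M0 : ℝ) := by
    have h1 : Ideal.absNorm D.M0 ≠ 0 := by
      rw [Ne, Ideal.absNorm_eq_zero_iff]
      exact D.M0_ne
    exact_mod_cast Nat.one_le_iff_ne_zero.2 h1
  set N0 : ℝ := (Ideal.absNorm D.M0 : ℝ) with hN0d
  have hN0A : 0 < N0 ^ A1 := Real.rpow_pos_of_pos (by linarith) _
  refine ⟨κ + C0 + C1 * N0 ^ A1, A1, δ1, by positivity, hA1, hδ1, hδ11, fun e he => ?_⟩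
  have hex : ∀ m : Finset (Pl K), ∃ χ : Ideal (𝓞 K) → ℂ, (∀ w ∈ m, w ∉ D.S0) →
      ∃ X : RC K (D.M0 * idl m), (∀ I, χ I = X.χ I) ∧
        (∀ v, v ∉ D.S0 → v ∉ m → X.χ v.asIdeal = ep p (∑ w ∈ m, e * D.LL w (D.pi v))) ∧
        (∀ v, v ∈ D.S0 ∨ v ∈ m → X.χ v.asIdeal = 0) := by
    intro m
    by_cases hm : ∀ w ∈ m, w ∉ D.S0
    · obtain ⟨X, h1, h2, -⟩ := bilA_chi hp hζ D m hm (fun _ => e)
      exact ⟨fun I => X.χ I, fun _ => ⟨X, fun _ => rfl, h1, h2⟩⟩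
    · exact ⟨fun _ => 0, fun h => absurd h hm⟩
  choose χ hχ using hex
  refine ⟨χ, fun m hm => ?_, fun M c Y y hM hc hy hY => ?_⟩
  · obtain ⟨X, h1, h2, h3⟩ := hχ m hm
    refine ⟨by rw [h1, map_one], fun I J => by rw [h1, h1, h1, map_mul], fun n hn => ?_⟩
    rw [h1]
    exact bilA_val hp hζ D e hm X h2 h3 n hn
  · refine (bilA_expand _ M c χ hc).trans ?_
    have hyp : 0 ≤ y ^ (1 - δ1) := Real.rpow_nonneg (by linarith) _
    have hYA : 0 ≤ (Y ^ 2) ^ A1 := Real.rpow_nonneg (by positivity) _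
    have hcard : ((IN K y).card : ℝ) ≤ (κ + C0) * y := by
      have h1 := (abs_le.1 (hcnt y hy)).2
      have h2 : y ^ (1 - δ0) ≤ y := by
        conv_rhs => rw [← Real.rpow_one y]
        exact Real.rpow_le_rpow_of_exponent_le hy (by linarith)
      have h3 := mul_le_mul_of_nonneg_left h2 hC0.le
      linarith
    have hT : ∀ m ∈ M, ∀ m' ∈ M, ‖∑ I ∈ IN K y, χ m I * (starRingEnd ℂ) (χ m' I)‖ ≤
        (if m = m' then (κ + C0) * y else 0) + C1 * N0 ^ A1 * ((Y ^ 2) ^ A1 * y ^ (1 - δ1)) := by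
      intro m hm m' hm'
      obtain ⟨hmS, hmY⟩ := hM m hm
      obtain ⟨hmS', hmY'⟩ := hM m' hm'
      obtain ⟨X, h1, h2, h3⟩ := hχ m hmS
      obtain ⟨X', h1', h2', h3'⟩ := hχ m' hmS'
      have hpos : 0 ≤ C1 * N0 ^ A1 * ((Y ^ 2) ^ A1 * y ^ (1 - δ1)) := by positivity
      by_cases hmm : m = m'
      · rw [if_pos hmm]
        have h4 : ‖∑ I ∈ IN K y, χ m I * (starRingEnd ℂ) (χ m' I)‖ ≤ ((IN K y).card : ℝ) := by
          refine (norm_sum_le _ _).trans ?_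
          rw [← nsmul_one, ← Finset.sum_const]
          refine Finset.sum_le_sum fun I hI => ?_
          have hI0 := ((mem_IN (by linarith)).1 hI).2
          rw [h1, h1', norm_mul, Complex.norm_conj]
          exact mul_le_one₀ (bilA_norm X hI0) (norm_nonneg _) (bilA_norm X' hI0)
        linarith
      · rw [if_neg hmm, zero_add]
        obtain ⟨ψ, hψ, hψ2⟩ := bilA_pair hp hζ D he hmS hmS' hmm X X' h2 h3 h2' h3'
        have h4 : ∑ I ∈ IN K y, χ m I * (starRingEnd ℂ) (χ m' I) = ∑ I ∈ IN K y, ψ.χ I := by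
          refine Finset.sum_congr rfl fun I hI => ?_
          have hI0 := ((mem_IN (by linarith)).1 hI).2
          rw [h1, h1', hψ2 I hI0]
        rw [h4]
        refine (hpv _ (mul_ne_zero D.M0_ne (idl_ne _)) ψ hψ y hy).trans ?_
        have h5 : (Ideal.absNorm (D.M0 * idl (m ∪ m')) : ℝ) ≤ N0 * Y ^ 2 := by
          rw [map_mul, Nat.cast_mul, idl_norm]
          refine mul_le_mul_of_nonneg_left ?_ (by linarith)
          refine (bilA_nr_union m m').trans ?_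
          rw [sq]
          exact mul_le_mul hmY hmY' (by linarith [one_le_nr m']) (by linarith)
        have h6 : (Ideal.absNorm (D.M0 * idl (m ∪ m')) : ℝ) ^ A1 ≤ N0 ^ A1 * (Y ^ 2) ^ A1 := by
          rw [← Real.mul_rpow (by linarith) (by positivity)]
          exact Real.rpow_le_rpow (by positivity) h5 hA1
        calc C1 * (Ideal.absNorm (D.M0 * idl (m ∪ m')) : ℝ) ^ A1 * y ^ (1 - δ1)
            ≤ C1 * (N0 ^ A1 * (Y ^ 2) ^ A1) * y ^ (1 - δ1) :=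
              mul_le_mul_of_nonneg_right (mul_le_mul_of_nonneg_left h6 hC1.le) hyp
          _ = _ := by ring
    refine (Finset.sum_le_sum fun m hm => Finset.sum_le_sum fun m' hm' => hT m hm m' hm').trans ?_
    simp only [Finset.sum_add_distrib, Finset.sum_const, Finset.sum_ite_eq, nsmul_eq_mul]
    have h7 : ∑ x ∈ M, (if x ∈ M then (κ + C0) * y else 0) = M.card * ((κ + C0) * y) := by
      rw [Finset.sum_congr rfl fun x hx => if_pos hx, Finset.sum_const, nsmul_eq_mul]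
    rw [h7]
    have g1 : 0 ≤ (M.card : ℝ) * y := by positivity
    have g2 : 0 ≤ (M.card : ℝ) ^ 2 * (Y ^ 2) ^ A1 * y ^ (1 - δ1) := by positivity
    have g3 : 0 ≤ C1 * N0 ^ A1 := by positivity
    have g4 := mul_nonneg g3 g1
    have g5 := mul_nonneg (by positivity : 0 ≤ κ + C0) g2
    linarith

theorem bilA_fin (s : ℕ) {I : Ideal (𝓞 K)} (hI : I ≠ ⊥) :
    {g : Fin s → Ideal (𝓞 K) | ∏ j, g j = I}.Finite := by
  have h1 : {J : Ideal (𝓞 K) | J ∣ I}.Finite := by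
    refine (Ideal.finite_setOfPred_absNorm_le (S := 𝓞 K) (Ideal.absNorm I)).subset fun J hJ => ?_
    exact Nat.le_of_dvd (Nat.pos_of_ne_zero (mt Ideal.absNorm_eq_zero_iff.1 hI))
      (map_dvd Ideal.absNorm hJ)
  refine (Set.Finite.pi' (fun _ : Fin s => h1)).subset fun g hg j => ?_
  have hg' : ∏ j, g j = I := hg
  change g j ∣ I
  rw [← hg']
  exact Finset.dvd_prod_of_mem g (Finset.mem_univ j)

/-- coefficients of the power -/
def bilAb (s : ℕ) (N : Finset (Finset (Pl K))) (β : Finset (Pl K) → ℂ) (I : Ideal (𝓞 K)) : ℂ :=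
  ∑ f ∈ (Fintype.piFinset fun _ : Fin s => N).filter (fun f => ∏ j, idl (f j) = I), ∏ j, β (f j)

theorem bilA_b_le (s : ℕ) (N : Finset (Finset (Pl K))) (β : Finset (Pl K) → ℂ)
    (hβ : ∀ n, ‖β n‖ ≤ 1) {I : Ideal (𝓞 K)} (hI : I ≠ ⊥) : ‖bilAb s N β I‖ ≤ tau s I := by
  refine (norm_sum_le _ _).trans ?_
  have h1 : ∀ f ∈ (Fintype.piFinset fun _ : Fin s => N).filter (fun f => ∏ j, idl (f j) = I),
      ‖∏ j, β (f j)‖ ≤ 1 := by
    intro f _
    rw [norm_prod]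
    exact Finset.prod_le_one (fun _ _ => norm_nonneg _) fun j _ => hβ _
  refine (Finset.sum_le_sum h1).trans ?_
  rw [Finset.sum_const, nsmul_eq_mul, mul_one]
  have h2 : tau s I = Set.ncard {g : Fin s → Ideal (𝓞 K) | ∏ j, g j = I} := rfl
  rw [h2]
  obtain ⟨F, hF⟩ : ∃ F : Finset (Fin s → Finset (Pl K)), F =
    (Fintype.piFinset fun _ : Fin s => N).filter (fun f => ∏ j, idl (f j) = I) := ⟨_, rfl⟩
  obtain ⟨G, hG⟩ : ∃ G : Finset (Fin s → Ideal (𝓞 K)), G = F.image fun f j => idl (f j) :=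
    ⟨_, rfl⟩
  rw [← hF]
  have h3 : G.card = F.card := by
    rw [hG]
    apply Finset.card_image_of_injective
    intro f g hfg
    funext j
    exact idl_inj (congrFun hfg j)
  rw [← h3, ← Set.ncard_coe_finset]
  have h4 : Set.ncard (G : Set (Fin s → Ideal (𝓞 K))) ≤
      Set.ncard {g : Fin s → Ideal (𝓞 K) | ∏ j, g j = I} := by
    apply Set.ncard_le_ncard _ (bilA_fin s hI)
    intro g hg
    rw [Finset.mem_coe, hG, Finset.mem_image] at hg
    obtain ⟨f, hf, rfl⟩ := hg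
    rw [hF] at hf
    exact (Finset.mem_filter.1 hf).2
  exact_mod_cast h4

theorem bilA_pow (s : ℕ) (N : Finset (Finset (Pl K))) (β : Finset (Pl K) → ℂ)
    (ψ : Ideal (𝓞 K) → ℂ) (h1 : ψ 1 = 1) (hmul : ∀ I J, ψ (I * J) = ψ I * ψ J) (Y : ℝ)
    (hN : ∀ n ∈ N, nr n ≤ Y) (hY : 0 ≤ Y) :
    (∑ n ∈ N, β n * ψ (idl n)) ^ s = ∑ I ∈ IN K (Y ^ s), bilAb s N β I * ψ I := by
  have hprod : ∀ (S : Finset (Fin s)) (g : Fin s → Ideal (𝓞 K)),
      ∏ j ∈ S, ψ (g j) = ψ (∏ j ∈ S, g j) := by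
    intro S g
    induction S using Finset.induction_on with
    | empty => rw [Finset.prod_empty, Finset.prod_empty, h1]
    | insert a S ha ih => rw [Finset.prod_insert ha, Finset.prod_insert ha, hmul, ih]
  have h2 : (∑ n ∈ N, β n * ψ (idl n)) ^ s =
      ∑ f ∈ Fintype.piFinset fun _ : Fin s => N, (∏ j, β (f j)) * ψ (∏ j, idl (f j)) := by
    have h3 : (∑ n ∈ N, β n * ψ (idl n)) ^ s = ∏ _j : Fin s, ∑ n ∈ N, β n * ψ (idl n) := by
      rw [Finset.prod_const, Finset.card_univ, Fintype.card_fin]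
    rw [h3, Finset.prod_univ_sum]
    refine Finset.sum_congr rfl fun f _ => ?_
    rw [Finset.prod_mul_distrib, hprod]
  rw [h2, ← Finset.sum_fiberwise_of_maps_to (s := Fintype.piFinset fun _ : Fin s => N)
    (t := IN K (Y ^ s)) (g := fun f => ∏ j, idl (f j))]
  · refine Finset.sum_congr rfl fun I _ => ?_
    rw [bilAb, Finset.sum_mul]
    refine Finset.sum_congr rfl fun f hf => ?_
    rw [(Finset.mem_filter.1 hf).2]
  · intro f hf
    rw [Fintype.mem_piFinset] at hf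
    rw [mem_IN (by positivity)]
    constructor
    · rw [map_prod, Nat.cast_prod]
      calc ∏ j : Fin s, (Ideal.absNorm (idl (f j)) : ℝ) ≤ ∏ _j : Fin s, Y := by
            refine Finset.prod_le_prod (fun _ _ => Nat.cast_nonneg _) fun j _ => ?_
            rw [idl_norm]
            exact hN _ (hf j)
        _ = Y ^ s := by rw [Finset.prod_const, Finset.card_univ, Fintype.card_fin]
    · exact Finset.prod_ne_zero_iff.2 fun j _ => idl_ne _

theorem bilA_holder (M : Finset (Finset (Pl K))) (α z : Finset (Pl K) → ℂ)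
    (hα : ∀ n, ‖α n‖ ≤ 1) (s : ℕ) : ∃ c : Finset (Pl K) → ℂ, (∀ m, ‖c m‖ ≤ 1) ∧
      ‖∑ m ∈ M, α m * z m‖ ^ (s + 1) ≤ (M.card : ℝ) ^ s * ‖∑ m ∈ M, c m * z m ^ (s + 1)‖ := by
  refine ⟨fun m => ((starRingEnd ℂ) (z m) / (‖z m‖ : ℂ)) ^ (s + 1), fun m => ?_, ?_⟩
  · rw [norm_pow, norm_div, Complex.norm_conj, Complex.norm_real, norm_norm]
    exact pow_le_one₀ (by positivity) (div_self_le_one _)
  · have h1 : ∀ m, ((starRingEnd ℂ) (z m) / (‖z m‖ : ℂ)) ^ (s + 1) * z m ^ (s + 1) =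
        ((‖z m‖ ^ (s + 1) : ℝ) : ℂ) := by
      intro m
      rw [← mul_pow]
      push_cast
      congr 1
      rcases eq_or_ne (z m) 0 with h | h
      · rw [h]
        simp
      · have h2 : (‖z m‖ : ℂ) ≠ 0 := by
          exact_mod_cast norm_ne_zero_iff.2 h
        rw [div_mul_eq_mul_div, div_eq_iff h2, ← sq, ← Complex.conj_mul']
    have h2 : ‖∑ m ∈ M, ((starRingEnd ℂ) (z m) / (‖z m‖ : ℂ)) ^ (s + 1) * z m ^ (s + 1)‖ =
        ∑ m ∈ M, ‖z m‖ ^ (s + 1) := by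
      rw [Finset.sum_congr rfl fun m _ => h1 m, ← Complex.ofReal_sum, Complex.norm_real,
        Real.norm_of_nonneg (Finset.sum_nonneg fun _ _ => by positivity)]
    rw [h2]
    have h3 : ‖∑ m ∈ M, α m * z m‖ ≤ ∑ m ∈ M, ‖z m‖ := by
      refine (norm_sum_le _ _).trans (Finset.sum_le_sum fun m _ => ?_)
      rw [norm_mul]
      exact mul_le_of_le_one_left (norm_nonneg _) (hα m)
    refine (pow_le_pow_left₀ (norm_nonneg _) h3 _).trans ?_
    rcases M.eq_empty_or_nonempty with hM | hM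
    · rw [hM]
      simp
    · have h4 := pow_sum_div_card_le_sum_pow (s := M) (f := fun m => ‖z m‖)
        (fun _ _ => norm_nonneg _) s
      have h5 : (0 : ℝ) < (M.card : ℝ) ^ s := by
        have : 0 < M.card := hM.card_pos
        positivity
      rw [div_le_iff₀ h5] at h4
      linarith

end bilAchar

theorem bilA {K : Type} [Field K] [NumberField K] {p : ℕ} {ζ : K} (hp : p.Prime)
    (hζ : IsPrimitiveRoot ζ p) (D : RD K p ζ) :
    ∃ C A δ : ℝ, 0 < C ∧ 0 ≤ A ∧ 0 < δ ∧ δ < 1 ∧ ∀ (e : ZMod p), e ≠ 0 →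
      ∀ (α β : Finset (Pl K) → ℂ), (∀ n, ‖α n‖ ≤ 1) → (∀ n, ‖β n‖ ≤ 1) → ∀ M N : ℝ, 1 ≤ M → M ≤ N →
        ‖∑ m ∈ GF D.toRD0 (2 * M), ∑ n ∈ GF D.toRD0 (2 * N),
          if M < nr m ∧ N < nr n ∧ Disjoint m n then
            α m * β n * ep p (e * Lf D.toRD0 m (pf D.toRD0 n)) else 0‖ ≤
          C * M * N * M ^ (-δ) * (1 + Real.log N) ^ A := by
  obtain ⟨C, A, δ, hC, hA, hδ, hδ1, hls⟩ := bilA_ls hp hζ D
  obtain ⟨Ca, hCa, haf⟩ := af_card K
  obtain ⟨t, ht⟩ := exists_nat_ge ((2 * A + 1) / δ)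
  obtain ⟨Ct, At, hCt, hAt, htau⟩ := tau_sum_sq K (t + 1)
  obtain ⟨C5, hC5⟩ : ∃ C5 : ℝ, C5 = C * (2 * Ca + (2 * Ca) ^ 2) := ⟨_, rfl⟩
  have hC5p : 0 < C5 := by rw [hC5]; positivity
  obtain ⟨C6, hC6⟩ : ∃ C6 : ℝ, C6 = (2 * Ca) ^ t * Real.sqrt (Ct * C5) * 2 ^ (t + 1) *
      ((t : ℝ) + 2) ^ (At / 2) := ⟨_, rfl⟩
  have ht0 : (0 : ℝ) ≤ t := Nat.cast_nonneg t
  have hC6p : 0 < C6 := by
    rw [hC6]
    have : 0 < Real.sqrt (Ct * C5) := Real.sqrt_pos.2 (by positivity)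
    have : 0 < ((t : ℝ) + 2) ^ (At / 2) := Real.rpow_pos_of_pos (by linarith) _
    positivity
  refine ⟨C6 ^ (1 / ((t : ℝ) + 1)), At / (2 * ((t : ℝ) + 1)), 1 / (2 * ((t : ℝ) + 1)),
    Real.rpow_pos_of_pos hC6p _, by positivity, by positivity, ?_, ?_⟩
  · rw [div_lt_one (by positivity)]
    linarith
  intro e he α β hα hβ M N hM hMN
  obtain ⟨χ, hχ1, hχ2⟩ := hls e he
  have hN : 1 ≤ N := hM.trans hMN
  have hM0 : 0 < M := by linarith
  have hN0 : 0 < N := by linarith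
  obtain ⟨MM, hMM⟩ : ∃ MM, MM = (GF D.toRD0 (2 * M)).filter (fun m => M < nr m) := ⟨_, rfl⟩
  obtain ⟨NN, hNN⟩ : ∃ NN, NN = (GF D.toRD0 (2 * N)).filter (fun n => N < nr n) := ⟨_, rfl⟩
  have hGF : ∀ (y : ℝ) (m : Finset (Pl K)), m ∈ GF D.toRD0 y → (∀ w ∈ m, w ∉ D.S0) ∧ nr m ≤ y := by
    intro y m hm
    rw [GF, Finset.mem_filter, mem_AF] at hm
    exact ⟨fun w hw => (hm.2 w hw).1, hm.1⟩
  have hS : (∑ m ∈ GF D.toRD0 (2 * M), ∑ n ∈ GF D.toRD0 (2 * N),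
          if M < nr m ∧ N < nr n ∧ Disjoint m n then
            α m * β n * ep p (e * Lf D.toRD0 m (pf D.toRD0 n)) else 0) =
      ∑ m ∈ MM, α m * (∑ n ∈ NN, β n * χ m (idl n)) := by
    rw [hMM, hNN, Finset.sum_filter]
    refine Finset.sum_congr rfl fun m hm => ?_
    by_cases h1 : M < nr m
    · rw [if_pos h1, Finset.sum_filter, Finset.mul_sum]
      refine Finset.sum_congr rfl fun n hn => ?_
      rw [(hχ1 m (hGF _ m hm).1).2.2 n (hGF _ n hn).1]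
      by_cases h2 : N < nr n
      · rw [if_pos h2]
        by_cases h3 : Disjoint m n
        · rw [if_pos ⟨h1, h2, h3⟩, if_pos h3]
          ring
        · rw [if_neg (fun h => h3 h.2.2), if_neg h3]
          ring
      · rw [if_neg (fun h => h2 h.2.1), if_neg h2, mul_zero]
    · rw [if_neg h1]
      exact Finset.sum_eq_zero fun n _ => if_neg fun h => h1 h.1
  rw [hS]
  have hMM1 : ∀ m ∈ MM, (∀ w ∈ m, w ∉ D.S0) ∧ nr m ≤ 2 * M := by
    intro m hm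
    rw [hMM] at hm
    exact hGF _ m (Finset.mem_filter.1 hm).1
  have hNN1 : ∀ n ∈ NN, nr n ≤ 2 * N := by
    intro n hn
    rw [hNN] at hn
    exact (hGF _ n (Finset.mem_filter.1 hn).1).2
  have hcard : (MM.card : ℝ) ≤ 2 * Ca * M := by
    have h1 : MM ⊆ AF K (2 * M) := fun m hm => mem_AF.2 (hMM1 m hm).2
    have h2 : (MM.card : ℝ) ≤ ((AF K (2 * M)).card : ℝ) := by
      exact_mod_cast Finset.card_le_card h1
    have h3 := haf (2 * M) (by linarith)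
    linarith
  obtain ⟨y, hyd⟩ : ∃ y : ℝ, y = (2 * N) ^ (t + 1) := ⟨_, rfl⟩
  have hy1 : 1 ≤ y := by
    rw [hyd]
    exact one_le_pow₀ (by linarith)
  have hy0 : 0 < y := by linarith
  obtain ⟨c, hc, hH⟩ := bilA_holder MM α (fun m => ∑ n ∈ NN, β n * χ m (idl n)) hα t
  have e1 : ∑ m ∈ MM, c m * (∑ n ∈ NN, β n * χ m (idl n)) ^ (t + 1) =
      ∑ I ∈ IN K y, bilAb (t + 1) NN β I * ∑ m ∈ MM, c m * χ m I := by
    have h1 : ∀ m ∈ MM, c m * (∑ n ∈ NN, β n * χ m (idl n)) ^ (t + 1) =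
        ∑ I ∈ IN K y, bilAb (t + 1) NN β I * (c m * χ m I) := by
      intro m hm
      obtain ⟨h2, h3, -⟩ := hχ1 m (hMM1 m hm).1
      rw [bilA_pow (t + 1) NN β (χ m) h2 h3 (2 * N) hNN1 (by linarith), ← hyd, Finset.mul_sum]
      refine Finset.sum_congr rfl fun I _ => ?_
      ring
    rw [Finset.sum_congr rfl h1, Finset.sum_comm]
    refine Finset.sum_congr rfl fun I _ => ?_
    rw [Finset.mul_sum]
  have hX1 : ∑ I ∈ IN K y, ‖bilAb (t + 1) NN β I‖ ^ 2 ≤ Ct * y * (1 + Real.log y) ^ At := by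
    refine (Finset.sum_le_sum fun I hI => ?_).trans (htau y hy1)
    exact pow_le_pow_left₀ (norm_nonneg _)
      (bilA_b_le (t + 1) NN β hβ ((mem_IN hy0.le).1 hI).2) 2
  have hX2 : ∑ I ∈ IN K y, ‖∑ m ∈ MM, c m * χ m I‖ ^ 2 ≤ C5 * (M * y) := by
    refine (hχ2 MM c (2 * M) y hMM1 (fun m _ => hc m) hy1 (by linarith)).trans ?_
    have h1 : ((2 * M) ^ 2) ^ A = (2 * M) ^ (2 * A) := by
      rw [← Real.rpow_natCast, ← Real.rpow_mul (by linarith)]
      norm_num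
    have h2 : M * (2 * M) ^ (2 * A) ≤ y ^ δ := by
      have h3 : (2 * M) ^ (2 * A + 1) = (2 * M) ^ (2 * A) * (2 * M) := by
        rw [Real.rpow_add (by linarith), Real.rpow_one]
      have h4 : 0 ≤ (2 * M) ^ (2 * A) := Real.rpow_nonneg (by linarith) _
      have h5 : (2 * M) ^ (2 * A + 1) ≤ (2 * N) ^ (2 * A + 1) :=
        Real.rpow_le_rpow (by linarith) (by linarith) (by linarith)
      have h6 : (2 * N) ^ (2 * A + 1) ≤ (2 * N) ^ (((t + 1 : ℕ) : ℝ) * δ) := by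
        apply Real.rpow_le_rpow_of_exponent_le (by linarith)
        rw [div_le_iff₀ hδ] at ht
        push_cast
        nlinarith
      have h7 : y ^ δ = (2 * N) ^ (((t + 1 : ℕ) : ℝ) * δ) := by
        rw [hyd, ← Real.rpow_natCast, ← Real.rpow_mul (by linarith)]
      rw [h7]
      nlinarith
    have h3 : (MM.card : ℝ) ^ 2 * ((2 * M) ^ 2) ^ A * y ^ (1 - δ) ≤ (2 * Ca) ^ 2 * (M * y) := by
      rw [h1]
      have h4 : (MM.card : ℝ) ^ 2 ≤ (2 * Ca * M) ^ 2 :=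
        pow_le_pow_left₀ (Nat.cast_nonneg _) hcard 2
      have h5 : 0 ≤ (2 * M) ^ (2 * A) := Real.rpow_nonneg (by linarith) _
      have h6 : 0 ≤ y ^ (1 - δ) := Real.rpow_nonneg hy0.le _
      have h7 : y ^ δ * y ^ (1 - δ) = y := by
        rw [← Real.rpow_add hy0]
        norm_num
      calc (MM.card : ℝ) ^ 2 * (2 * M) ^ (2 * A) * y ^ (1 - δ)
          ≤ (2 * Ca * M) ^ 2 * (2 * M) ^ (2 * A) * y ^ (1 - δ) := by gcongr
        _ = (2 * Ca) ^ 2 * M * (M * (2 * M) ^ (2 * A) * y ^ (1 - δ)) := by ring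
        _ ≤ (2 * Ca) ^ 2 * M * (y ^ δ * y ^ (1 - δ)) := by gcongr
        _ = _ := by rw [h7]; ring
    have h4 : (MM.card : ℝ) * y ≤ 2 * Ca * (M * y) := by
      have := mul_le_mul_of_nonneg_right hcard hy0.le
      linarith
    rw [hC5]
    calc C * (MM.card * y + (MM.card : ℝ) ^ 2 * ((2 * M) ^ 2) ^ A * y ^ (1 - δ))
        ≤ C * (2 * Ca * (M * y) + (2 * Ca) ^ 2 * (M * y)) :=
          mul_le_mul_of_nonneg_left (add_le_add h4 h3) hC.le
      _ = _ := by ring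
  have hlogN : 0 ≤ Real.log N := Real.log_nonneg hN
  have hlogy : 1 + Real.log y ≤ ((t : ℝ) + 2) * (1 + Real.log N) := by
    rw [hyd, Real.log_pow, Real.log_mul (by norm_num) hN0.ne']
    push_cast
    have h1 : Real.log 2 ≤ 1 := by
      have := Real.log_two_lt_d9
      linarith
    nlinarith
  have hlogy0 : 0 ≤ Real.log y := Real.log_nonneg hy1
  have hbd : ‖∑ m ∈ MM, c m * (∑ n ∈ NN, β n * χ m (idl n)) ^ (t + 1)‖ ≤
      Real.sqrt (Ct * C5) * y * Real.sqrt M *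
        (((t : ℝ) + 2) ^ (At / 2) * (1 + Real.log N) ^ (At / 2)) := by
    rw [e1]
    refine (norm_sum_le _ _).trans ?_
    rw [Finset.sum_congr rfl fun I _ => norm_mul _ _]
    refine (Real.sum_mul_le_sqrt_mul_sqrt _ _ _).trans ?_
    refine (mul_le_mul (Real.sqrt_le_sqrt hX1) (Real.sqrt_le_sqrt hX2) (Real.sqrt_nonneg _)
      (Real.sqrt_nonneg _)).trans ?_
    rw [← Real.sqrt_mul (by positivity)]
    have h1 : Ct * y * (1 + Real.log y) ^ At * (C5 * (M * y)) =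
        (Ct * C5) * y ^ 2 * M * (1 + Real.log y) ^ At := by ring
    have hLy : 0 ≤ (1 + Real.log y) ^ At := Real.rpow_nonneg (by linarith) _
    rw [h1, Real.sqrt_mul (by positivity), Real.sqrt_mul (by positivity),
      Real.sqrt_mul (by positivity), Real.sqrt_sq hy0.le]
    refine mul_le_mul_of_nonneg_left ?_ (by positivity)
    rw [← Real.mul_rpow (by linarith) (by linarith), Real.sqrt_eq_rpow,
      ← Real.rpow_mul (by linarith)]
    rw [show At * (1 / 2) = At / 2 by ring]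
    exact Real.rpow_le_rpow (by linarith) hlogy (by linarith)
  have hfin : ‖∑ m ∈ MM, α m * (∑ n ∈ NN, β n * χ m (idl n))‖ ^ (t + 1) ≤
      (C6 ^ (1 / ((t : ℝ) + 1)) * M * N * M ^ (-(1 / (2 * ((t : ℝ) + 1)))) *
        (1 + Real.log N) ^ (At / (2 * ((t : ℝ) + 1)))) ^ (t + 1) := by
    refine hH.trans ?_
    have h1 : (MM.card : ℝ) ^ t ≤ (2 * Ca * M) ^ t := pow_le_pow_left₀ (Nat.cast_nonneg _) hcard t
    refine (mul_le_mul h1 hbd (norm_nonneg _) (by positivity)).trans ?_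
    have hL0 : 0 < 1 + Real.log N := by linarith
    have ht1 : (0 : ℝ) < (t : ℝ) + 1 := by linarith
    have g1 : (C6 ^ (1 / ((t : ℝ) + 1))) ^ (t + 1) = C6 := by
      rw [← Real.rpow_natCast, ← Real.rpow_mul hC6p.le]
      push_cast
      rw [one_div, inv_mul_cancel₀ ht1.ne', Real.rpow_one]
    have g2 : (M ^ (-(1 / (2 * ((t : ℝ) + 1))))) ^ (t + 1) = M ^ (-(1 / 2 : ℝ)) := by
      rw [← Real.rpow_natCast, ← Real.rpow_mul hM0.le]
      congr 1
      push_cast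
      field_simp
    have g3 : ((1 + Real.log N) ^ (At / (2 * ((t : ℝ) + 1)))) ^ (t + 1) =
        (1 + Real.log N) ^ (At / 2) := by
      rw [← Real.rpow_natCast, ← Real.rpow_mul hL0.le]
      congr 1
      push_cast
      field_simp
    have g4 : M * M ^ (-(1 / 2 : ℝ)) = Real.sqrt M := by
      rw [Real.sqrt_eq_rpow]
      nth_rewrite 1 [← Real.rpow_one M]
      rw [← Real.rpow_add hM0]
      norm_num
    apply le_of_eq
    have gen : ∀ a b c d e : ℝ, (a * b * c * d * e) ^ (t + 1) =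
        a ^ (t + 1) * b ^ (t + 1) * c ^ (t + 1) * d ^ (t + 1) * e ^ (t + 1) := by
      intro a b c d e
      simp only [mul_pow]
    rw [gen, g1, g2, g3, hC6, hyd, ← g4]
    ring
  exact le_of_pow_le_pow_left₀ (by omega) (by positivity) hfin

end H63.MA
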