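import Pool.Agent.H63.MA.Uni

/-!
# MA-HASSE: Hasse norm theorem for `K(c^{1/p})`, `c` locally primary at `p`

If `Prim p c`, `L = K(c^{1/p})` of degree `p`, `b ∈ K^*` and `B v c b = 0` for all `v ∤ p`, then `b` is a norm from `L`.

Proof. Let `T` be finite with `ClOne T`, containing the primes above `p`, those with `p ∤ ord v c` and those with `ord v b ≠ 0`.
For a finite set `F` of primes `v ∤ p` with `Spl v c` consider `T ∪ F` (`nsp (T ∪ F) = nsp T`). If for some `F` any two relations on
`U_{T ∪ F}` (functions on `nsp T`) are proportional, `norm_of_rel` for `T ∪ F` finishes the proof. Otherwise for every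
`F` there is a pair `(k, k')` of non proportional relations on `U_{T ∪ F}`; finitely many pairs of functions on `nsp T`, decreasing sets:
some pair `(k, k')` (supported on `nsp T`) consists of relations for all `F`, that is: they kill all `x` with `ord v x = 0`
unless `v ∈ T` or `Spl v c`. By `rel_extend` they extend to relations `IsRel`, which are proportional by `rel_unique`
(`c` is not a `p`-th power: `kum_not_pow`). Contradiction.
-/

set_option autoImplicit false

open scoped NumberField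
open IsDedekindDomain

noncomputable section

namespace H63.MA

theorem hasse_norm {K : Type} [Field K] [NumberField K] {L : Type} [Field L] [NumberField L]
    [Algebra K L] {p : ℕ} (hp : p.Prime) (hp2 : MOne p K) {ζ : K} (hζ : IsPrimitiveRoot ζ p) {c : Kˣ}
    (H : Kum p K ζ c L) (hc : Prim p c) (b : Kˣ)
    (hb : ∀ v : Pl K, ¬ Above p v → B p ζ v c b = 0) : ∃ y : Lˣ, Nm K L y = b := by
  classical
  have hpf : Fact p.Prime := ⟨hp⟩
  by_contra hno
  obtain ⟨T0, hT0⟩ := exists_clone K
  obtain ⟨T, hTd⟩ : ∃ T : Finset (Pl K), T = T0 ∪ (finite_above (K := K) hp.ne_zero).toFinset ∪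
      (finite_ord c).toFinset ∪ (finite_ord b).toFinset := ⟨_, rfl⟩
  have hcl : ClOne T := by
    refine clone_mono hT0 ?_
    intro v hv
    rw [hTd]
    simp only [Finset.mem_union]
    exact Or.inl (Or.inl (Or.inl hv))
  have hT : ∀ v, Above p v → v ∈ T := by
    intro v hv
    rw [hTd]
    simp only [Finset.mem_union]
    exact Or.inl (Or.inl (Or.inr ((Set.Finite.mem_toFinset _).2 hv)))
  have hr : ∀ v : Pl K, ¬ (p : ℤ) ∣ ord v c → v ∈ T := by
    intro v hv
    rw [hTd]
    simp only [Finset.mem_union]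
    refine Or.inl (Or.inr ((Set.Finite.mem_toFinset _).2 ?_))
    intro h0
    exact hv (by rw [h0]; exact dvd_zero _)
  have hbT : ∀ v, v ∉ T → ord v b = 0 := by
    intro v hv
    by_contra h0
    apply hv
    rw [hTd]
    simp only [Finset.mem_union]
    exact Or.inr ((Set.Finite.mem_toFinset _).2 h0)
  obtain ⟨N, hNd⟩ : ∃ N : Finset (Pl K), N = nsp p ζ c T := ⟨_, rfl⟩
  have hN : ∀ F : Finset (Pl K), (∀ v ∈ F, Spl p ζ v c) → nsp p ζ c (T ∪ F) = N := by
    intro F hF
    rw [hNd]
    unfold nsp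
    ext v
    simp only [Finset.mem_filter, Finset.mem_union]
    constructor
    · rintro ⟨h | h, h1⟩
      · exact ⟨h, h1⟩
      · exact absurd (hF v h) h1.2
    · rintro ⟨h, h1⟩
      exact ⟨Or.inl h, h1⟩
  have hNa : ∀ v ∈ N, ¬ Above p v := by
    intro v hv
    rw [hNd] at hv
    unfold nsp at hv
    exact (Finset.mem_filter.1 hv).2.1
  have key : ∀ F : Finset (Pl K), (∀ v ∈ F, Spl p ζ v c) → ∃ k k' : N → ZMod p,
      (∀ x ∈ UT (T ∪ F), ∑ v : N, k v * B p ζ (v : Pl K) c x = 0) ∧
      (∀ x ∈ UT (T ∪ F), ∑ v : N, k' v * B p ζ (v : Pl K) c x = 0) ∧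
      ¬ ∃ a a' : ZMod p, (a ≠ 0 ∨ a' ≠ 0) ∧ ∀ v : N, a * k v + a' * k' v = 0 := by
    intro F hF
    by_contra hcon
    apply hno
    refine norm_of_rel hp hp2 hζ H (T ∪ F) (clone_mono hcl Finset.subset_union_left)
      (fun v hv => Finset.mem_union_left _ (hT v hv)) (fun v hv => Finset.mem_union_left _ (hr v hv))
      hc ?_ b (fun v hv => hbT v (fun h => hv (Finset.mem_union_left _ h))) ?_
    · intro k k' hk hk'
      by_contra hab
      rw [hN F hF] at hk hk' hab
      apply hcon
      refine ⟨fun v => k v, fun v => k' v, ?_, ?_, ?_⟩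
      · intro x hx
        rw [Finset.sum_coe_sort N (fun v => k v * B p ζ v c x)]
        exact hk x hx
      · intro x hx
        rw [Finset.sum_coe_sort N (fun v => k' v * B p ζ v c x)]
        exact hk' x hx
      · rintro ⟨a, a', h, h1⟩
        exact hab ⟨a, a', h, fun v hv => h1 ⟨v, hv⟩⟩
    · intro v hv
      rw [hN F hF] at hv
      exact hb v (hNa v hv)
  have key2 : ∃ k k' : N → ZMod p,
      (∀ F : Finset (Pl K), (∀ v ∈ F, Spl p ζ v c) → ∀ x ∈ UT (T ∪ F),
        ∑ v : N, k v * B p ζ (v : Pl K) c x = 0 ∧ ∑ v : N, k' v * B p ζ (v : Pl K) c x = 0) ∧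
      ¬ ∃ a a' : ZMod p, (a ≠ 0 ∨ a' ≠ 0) ∧ ∀ v : N, a * k v + a' * k' v = 0 := by
    by_contra hcon
    have h3 : ∀ q : (N → ZMod p) × (N → ZMod p), ∃ F : Finset (Pl K), (∀ v ∈ F, Spl p ζ v c) ∧
        ((∃ a a' : ZMod p, (a ≠ 0 ∨ a' ≠ 0) ∧ ∀ v : N, a * q.1 v + a' * q.2 v = 0) ∨
        ¬ ∀ x ∈ UT (T ∪ F),
          ∑ v : N, q.1 v * B p ζ (v : Pl K) c x = 0 ∧
            ∑ v : N, q.2 v * B p ζ (v : Pl K) c x = 0) := by
      intro q
      by_contra h4
      apply hcon
      refine ⟨q.1, q.2, ?_, ?_⟩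
      · intro F hF
        by_contra h5
        exact h4 ⟨F, hF, Or.inr h5⟩
      · intro h5
        exact h4 ⟨∅, fun v hv => absurd hv (Finset.notMem_empty _), Or.inl h5⟩
    choose G hG1 hG2 using h3
    obtain ⟨k, k', h1, h2, h5⟩ := key (Finset.univ.biUnion G) (by
      intro v hv
      obtain ⟨q, -, hq⟩ := Finset.mem_biUnion.1 hv
      exact hG1 q v hq)
    rcases hG2 (k, k') with h | h
    · exact h5 h
    · apply h
      intro x hx
      have hx' : x ∈ UT (T ∪ Finset.univ.biUnion G) := by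
        intro v hv
        refine hx v fun h6 => hv ?_
        rcases Finset.mem_union.1 h6 with h6 | h6
        · exact Finset.mem_union_left _ h6
        · exact Finset.mem_union_right _ (Finset.mem_biUnion.2 ⟨(k, k'), Finset.mem_univ _, h6⟩)
      exact ⟨h1 x hx', h2 x hx'⟩
  obtain ⟨k, k', hk, hnp⟩ := key2
  have hext : ∀ k : N → ZMod p, (∀ F : Finset (Pl K), (∀ v ∈ F, Spl p ζ v c) → ∀ x ∈ UT (T ∪ F),
        ∑ v : N, k v * B p ζ (v : Pl K) c x = 0) →
      ∃ k1 : Pl K → ZMod p, IsRel p ζ c k1 ∧ ∀ v : N, k1 v = k v := by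
    intro k hk
    obtain ⟨k1, hk1, hk2⟩ := rel_extend hp hζ T hcl hT hr
      (fun v => if h : v ∈ N then k ⟨v, h⟩ else 0) (by
        intro v hv
        rw [← hNd] at hv
        exact dif_neg hv) (by
        intro x hx
        rw [← hNd]
        have h1 := hk ((finite_ord x).toFinset.filter fun v => Spl p ζ v c)
          (fun v hv => (Finset.mem_filter.1 hv).2) x (by
            intro v hv
            by_contra h0
            have hvT : v ∉ T := fun h => hv (Finset.mem_union_left _ h)
            have hvS : ¬ Spl p ζ v c := fun h => hv (Finset.mem_union_right _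
              (Finset.mem_filter.2 ⟨(Set.Finite.mem_toFinset _).2 h0, h⟩))
            exact h0 (hx v hvT hvS))
        rw [← h1, ← Finset.sum_coe_sort N]
        refine Finset.sum_congr rfl fun v _ => ?_
        rw [dif_pos v.2])
    refine ⟨k1, hk1, fun v => ?_⟩
    rw [hk2 v (by rw [← hNd]; exact v.2), dif_pos v.2]
  obtain ⟨k1, hk1, hk2⟩ := hext k (fun F hF x hx => (hk F hF x hx).1)
  obtain ⟨k1', hk1', hk2'⟩ := hext k' (fun F hF x hx => (hk F hF x hx).2)
  obtain ⟨a, a', ha, hv⟩ := rel_unique hp hζ (kum_not_pow hp hζ H) hk1 hk1'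
  apply hnp
  refine ⟨a, a', ha, fun v => ?_⟩
  rw [← hk2 v, ← hk2' v]
  exact hv v

end H63.MA
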