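import Pool.Agent.H63.MA.ASq
import Pool.Agent.H63.MA.LBd

/-!
# MA-ACNTA: ideals prime to a finite set of primes; Mertens lower bound

* `cnt_cop`: for a finite set `F` of primes, with the `κ`, `δ` of `cnt`: `#{I ∈ IN y : no v ∈ F divides I} = κ ∏_{v ∈ F} (1 - 1/nm v) y + O_F(y^{1-δ})`,
  `y ≥ 1`: inclusion-exclusion over the subsets of `F` (`#{I ∈ IN y : v ∣ I for all v ∈ A} = #IN(y / nr A)`, and for `y < nr A` the error is
  `≤ κ y / nr A ≤ κ`), or induction on `F`: `#{…F ∪ {v}}(y) = #{…F}(y) - #{…F}(y / nm v)`.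
* `mert_low`: `∏_{v ∈ F} (1 - 1/nm v) ≥ c (log T)^{-3}` for every finite set `F` of primes of norm `≤ T`, `T ≥ 3`:
  `log (1 - x) ≥ -x - x²` for `0 ≤ x ≤ 1/2`, and `∑_{nm v ≤ T} 1/nm v ≤ e ∑_v (nm v)^{-1 - 1/log T} ≤ e (log log T + C)` by `pz_all` with
  `s = 1 + 1/log T` (for `T ≥ 3`, `s ≤ 2`), as `(nm v)^{1/log T} ≤ e` for `nm v ≤ T`; `e < 3`.
-/

set_option autoImplicit false

open scoped NumberField
open IsDedekindDomain
open scoped Classical

noncomputable section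

namespace H63.MA

variable {K : Type} [Field K] [NumberField K]

theorem acntA_prod_nonneg (F : Finset (Pl K)) : 0 ≤ ∏ v ∈ F, (1 - (nm v : ℝ)⁻¹) := by
  refine Finset.prod_nonneg fun v _ => ?_
  have h : (1 : ℝ) ≤ (nm v : ℝ) := by exact_mod_cast (one_lt_nm v).le
  have := inv_le_one_of_one_le₀ h
  linarith

theorem acntA_prod_le (F : Finset (Pl K)) : ∏ v ∈ F, (1 - (nm v : ℝ)⁻¹) ≤ 1 := by
  refine Finset.prod_le_one (fun v _ => ?_) fun v _ => ?_
  · have h : (1 : ℝ) ≤ (nm v : ℝ) := by exact_mod_cast (one_lt_nm v).le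
    have := inv_le_one_of_one_le₀ h
    linarith
  · have : (0 : ℝ) ≤ (nm v : ℝ)⁻¹ := inv_nonneg.2 (Nat.cast_nonneg _)
    linarith

theorem acntA_step (F : Finset (Pl K)) (v : Pl K) (hv : v ∉ F) (y : ℝ) (hy : 0 ≤ y) :
    (((IN K y).filter fun I => ∀ w ∈ insert v F, ¬ w.asIdeal ∣ I).card : ℝ) =
      (((IN K y).filter fun I => ∀ w ∈ F, ¬ w.asIdeal ∣ I).card : ℝ) -
        (((IN K (y / nm v)).filter fun I => ∀ w ∈ F, ¬ w.asIdeal ∣ I).card : ℝ) := by
  have hnm : (0 : ℝ) < (nm v : ℝ) := by exact_mod_cast (one_lt_nm v).le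
  have hy' : 0 ≤ y / (nm v : ℝ) := by positivity
  have h1 : ((IN K y).filter fun I => ∀ w ∈ F, ¬ w.asIdeal ∣ I).card =
      ((IN K y).filter fun I => ∀ w ∈ insert v F, ¬ w.asIdeal ∣ I).card +
        ((IN K y).filter fun I => (∀ w ∈ F, ¬ w.asIdeal ∣ I) ∧ v.asIdeal ∣ I).card := by
    rw [← Finset.card_union_of_disjoint]
    · congr 1
      ext I
      simp only [Finset.mem_filter, Finset.mem_union, Finset.mem_insert, forall_eq_or_imp]
      tauto
    · rw [Finset.disjoint_filter]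
      intro I _ h h'
      exact h v (Finset.mem_insert_self v F) h'.2
  have h2 : ((IN K y).filter fun I => (∀ w ∈ F, ¬ w.asIdeal ∣ I) ∧ v.asIdeal ∣ I).card =
      ((IN K (y / nm v)).filter fun I => ∀ w ∈ F, ¬ w.asIdeal ∣ I).card := by
    symm
    apply Finset.card_bij (fun J _ => v.asIdeal * J)
    · intro J hJ
      rw [Finset.mem_filter, mem_IN hy'] at hJ
      rw [Finset.mem_filter, mem_IN hy]
      obtain ⟨⟨hJ1, hJ2⟩, hJ3⟩ := hJ
      refine ⟨⟨?_, ?_⟩, ?_, dvd_mul_right _ _⟩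
      · rw [map_mul, Nat.cast_mul]
        have := (le_div_iff₀ hnm).1 hJ1
        change (nm v : ℝ) * _ ≤ y
        linarith
      · rw [Ne, Ideal.mul_eq_bot, not_or]
        exact ⟨v.ne_bot, hJ2⟩
      · intro w hw hwI
        rcases w.prime.dvd_or_dvd hwI with h | h
        · exact hv (asq_eq h ▸ hw)
        · exact hJ3 w hw h
    · intro J _ J' _ h
      exact mul_left_cancel₀ (by rw [Ne, Ideal.zero_eq_bot]; exact v.ne_bot) h
    · intro I hI
      rw [Finset.mem_filter, mem_IN hy] at hI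
      obtain ⟨⟨h1, h2⟩, h3, J, hJ⟩ := hI
      refine ⟨J, ?_, hJ.symm⟩
      rw [Finset.mem_filter, mem_IN hy']
      refine ⟨⟨?_, ?_⟩, ?_⟩
      · rw [le_div_iff₀ hnm]
        rw [hJ, map_mul, Nat.cast_mul] at h1
        change (nm v : ℝ) * _ ≤ y at h1
        linarith
      · rintro rfl
        rw [Ideal.mul_bot] at hJ
        exact h2 hJ
      · intro w hw hwJ
        exact h3 w hw (by rw [hJ]; exact hwJ.mul_left _)
  rw [h1, h2]
  push_cast
  ring

theorem acntA_empty (F : Finset (Pl K)) {y : ℝ} (hy : 0 ≤ y) (hy1 : y < 1) :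
    ((IN K y).filter fun I => ∀ w ∈ F, ¬ w.asIdeal ∣ I) = ∅ := by
  rw [Finset.eq_empty_iff_forall_notMem]
  intro J hJ
  rw [Finset.mem_filter, mem_IN hy] at hJ
  have := asq_norm_pos hJ.1.2
  linarith [hJ.1.1]

theorem acntA_log {x : ℝ} (hx : 0 ≤ x) (hx2 : x ≤ 1 / 2) : Real.exp (-(x + 2 * x ^ 2)) ≤ 1 - x := by
  have h1 := Real.abs_log_sub_add_sum_range_le (x := x) (by rw [abs_of_nonneg hx]; linarith) 1
  rw [Finset.sum_range_one, abs_of_nonneg hx] at h1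
  have h2 := neg_le_of_abs_le h1
  have h3 : x ^ (1 + 1) / (1 - x) ≤ 2 * x ^ 2 := by
    rw [one_add_one_eq_two, div_le_iff₀ (by linarith)]
    nlinarith [mul_nonneg (sq_nonneg x) (by linarith : (0 : ℝ) ≤ 1 / 2 - x)]
  have h4 : -(x + 2 * x ^ 2) ≤ Real.log (1 - x) := by
    norm_num at h2 h3
    linarith
  calc Real.exp (-(x + 2 * x ^ 2)) ≤ Real.exp (Real.log (1 - x)) := Real.exp_le_exp.2 h4
    _ = 1 - x := Real.exp_log (by linarith)

theorem cnt_cop (K : Type) [Field K] [NumberField K] :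
    ∃ κ δ : ℝ, 0 < κ ∧ 0 < δ ∧ δ < 1 ∧ ∀ F : Finset (Pl K), ∃ C : ℝ, 0 < C ∧ ∀ y : ℝ, 1 ≤ y →
      |(((IN K y).filter fun I => ∀ v ∈ F, ¬ v.asIdeal ∣ I).card : ℝ) -
        κ * (∏ v ∈ F, (1 - (nm v : ℝ)⁻¹)) * y| ≤ C * y ^ (1 - δ) := by
  obtain ⟨κ, C0, δ, hκ, hC0, hδ, hδ1, hcnt⟩ := cnt K
  refine ⟨κ, δ, hκ, hδ, hδ1, fun F => ?_⟩
  induction F using Finset.induction_on with
  | empty =>
    refine ⟨C0, hC0, fun y hy => ?_⟩
    have h1 : ((IN K y).filter fun I => ∀ v ∈ (∅ : Finset (Pl K)), ¬ v.asIdeal ∣ I) = IN K y := by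
      rw [Finset.filter_eq_self]
      intro I _ v hv
      exact absurd hv (Finset.notMem_empty v)
    rw [h1, Finset.prod_empty, mul_one]
    exact hcnt y hy
  | insert v F hv ih =>
    obtain ⟨C, hC, h⟩ := ih
    refine ⟨2 * C + κ, by linarith, fun y hy => ?_⟩
    have hy0 : (0 : ℝ) ≤ y := by linarith
    have hnm : (1 : ℝ) ≤ (nm v : ℝ) := by exact_mod_cast (one_lt_nm v).le
    have hnm0 : (0 : ℝ) < (nm v : ℝ) := by linarith
    have hy' : 0 ≤ y / (nm v : ℝ) := by positivity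
    rw [acntA_step F v hv y hy0, Finset.prod_insert hv]
    have h1 := h y hy
    have hP := acntA_prod_le F
    have hP0 := acntA_prod_nonneg F
    have hyd : (1 : ℝ) ≤ y ^ (1 - δ) := Real.one_le_rpow hy (by linarith)
    have h2 : |(((IN K (y / nm v)).filter fun I => ∀ w ∈ F, ¬ w.asIdeal ∣ I).card : ℝ) -
        κ * (∏ v ∈ F, (1 - (nm v : ℝ)⁻¹)) * (y / nm v)| ≤ (C + κ) * y ^ (1 - δ) := by
      by_cases h3 : 1 ≤ y / (nm v : ℝ)
      · refine (h _ h3).trans ?_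
        have h4 : (y / (nm v : ℝ)) ^ (1 - δ) ≤ y ^ (1 - δ) :=
          Real.rpow_le_rpow hy' (div_le_self hy0 hnm) (by linarith)
        have h5 := mul_le_mul_of_nonneg_left h4 hC.le
        nlinarith
      · rw [not_le] at h3
        rw [acntA_empty F hy' h3, Finset.card_empty, Nat.cast_zero, zero_sub, abs_neg, abs_of_nonneg
          (by positivity)]
        have h4 : κ * (∏ v ∈ F, (1 - (nm v : ℝ)⁻¹)) * (y / nm v) ≤ κ * 1 * 1 :=
          mul_le_mul (mul_le_mul_of_nonneg_left hP hκ.le) h3.le hy' (by linarith)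
        nlinarith
    have h3 : (((IN K y).filter fun I => ∀ w ∈ F, ¬ w.asIdeal ∣ I).card : ℝ) -
        (((IN K (y / nm v)).filter fun I => ∀ w ∈ F, ¬ w.asIdeal ∣ I).card : ℝ) -
        κ * ((1 - (nm v : ℝ)⁻¹) * ∏ v ∈ F, (1 - (nm v : ℝ)⁻¹)) * y =
        ((((IN K y).filter fun I => ∀ w ∈ F, ¬ w.asIdeal ∣ I).card : ℝ) -
          κ * (∏ v ∈ F, (1 - (nm v : ℝ)⁻¹)) * y) -
        ((((IN K (y / nm v)).filter fun I => ∀ w ∈ F, ¬ w.asIdeal ∣ I).card : ℝ) -
        κ * (∏ v ∈ F, (1 - (nm v : ℝ)⁻¹)) * (y / nm v)) := by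
      rw [div_eq_mul_inv]
      ring
    rw [h3]
    refine (abs_sub _ _).trans ?_
    nlinarith

theorem mert_low (K : Type) [Field K] [NumberField K] :
    ∃ c : ℝ, 0 < c ∧ ∀ T : ℝ, 3 ≤ T → ∀ F : Finset (Pl K), (∀ v ∈ F, (nm v : ℝ) ≤ T) →
      c * Real.log T ^ (-3 : ℝ) ≤ ∏ v ∈ F, (1 - (nm v : ℝ)⁻¹) := by
  obtain ⟨C, hC⟩ := pz_all K
  have hs2 := pz_summable K (s := 2) (by norm_num)
  refine ⟨Real.exp (-(3 * |C| + 2 * ∑' v : Pl K, (nm v : ℝ) ^ (-(2 : ℝ)))), Real.exp_pos _,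
    fun T hT F hF => ?_⟩
  have he : Real.exp 1 < 3 := by
    have := Real.exp_one_lt_d9
    linarith
  have hT0 : (0 : ℝ) < T := by linarith
  have hlog : 1 < Real.log T := by
    rw [Real.lt_log_iff_exp_lt hT0]
    linarith
  have hlog0 : 0 < Real.log T := by linarith
  obtain ⟨s, hs⟩ : ∃ s : ℝ, s = 1 + 1 / Real.log T := ⟨_, rfl⟩
  have hs1 : 1 < s := by
    rw [hs]
    have : 0 < 1 / Real.log T := by positivity
    linarith
  have hs2' : s ≤ 2 := by
    rw [hs]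
    have : 1 / Real.log T ≤ 1 := by
      rw [div_le_one hlog0]
      exact hlog.le
    linarith
  have h1 := hC s hs1 hs2'
  have h2 : 1 / (s - 1) = Real.log T := by
    rw [hs, add_sub_cancel_left, one_div_one_div]
  rw [h2] at h1
  have h3 : PZ (Set.univ : Set (Pl K)) s ≤ Real.log (Real.log T) + |C| := by
    have := (abs_le.1 h1).2
    have := le_abs_self C
    linarith
  have h4 : PZ (Set.univ : Set (Pl K)) s = ∑' v : Pl K, (nm v : ℝ) ^ (-s) := by
    unfold PZ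
    simp only [Set.indicator_univ]
  rw [h4] at h3
  have hsum := pz_summable K hs1
  have hnm : ∀ v : Pl K, (2 : ℝ) ≤ (nm v : ℝ) := fun v => by exact_mod_cast one_lt_nm v
  have h5 : ∑ v ∈ F, (nm v : ℝ)⁻¹ ≤ 3 * (Real.log (Real.log T) + |C|) := by
    calc ∑ v ∈ F, (nm v : ℝ)⁻¹ ≤ ∑ v ∈ F, Real.exp 1 * (nm v : ℝ) ^ (-s) := by
          refine Finset.sum_le_sum fun v hv => ?_
          have h0 : (0 : ℝ) < (nm v : ℝ) := by linarith [hnm v]
          have h6 : (nm v : ℝ) ^ (1 / Real.log T) ≤ Real.exp 1 := by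
            calc (nm v : ℝ) ^ (1 / Real.log T) ≤ T ^ (1 / Real.log T) :=
                  Real.rpow_le_rpow h0.le (hF v hv) (by positivity)
              _ = Real.exp 1 := by
                  rw [Real.rpow_def_of_pos hT0, mul_one_div_cancel hlog0.ne']
          have h7 : (nm v : ℝ)⁻¹ = (nm v : ℝ) ^ (1 / Real.log T) * (nm v : ℝ) ^ (-s) := by
            rw [← Real.rpow_add h0, hs, ← Real.rpow_neg_one]
            congr 1
            ring
          rw [h7]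
          exact mul_le_mul_of_nonneg_right h6 (pzb_nonneg v _)
      _ = Real.exp 1 * ∑ v ∈ F, (nm v : ℝ) ^ (-s) := by rw [Finset.mul_sum]
      _ ≤ Real.exp 1 * (Real.log (Real.log T) + |C|) := by
          refine mul_le_mul_of_nonneg_left ?_ (Real.exp_pos 1).le
          exact (hsum.sum_le_tsum F fun v _ => pzb_nonneg v _).trans h3
      _ ≤ _ := by
          refine mul_le_mul_of_nonneg_right he.le ?_
          have := Real.log_pos hlog
          have := abs_nonneg C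
          linarith
  have h6 : ∑ v ∈ F, ((nm v : ℝ)⁻¹) ^ 2 ≤ ∑' v : Pl K, (nm v : ℝ) ^ (-(2 : ℝ)) := by
    calc ∑ v ∈ F, ((nm v : ℝ)⁻¹) ^ 2 = ∑ v ∈ F, (nm v : ℝ) ^ (-(2 : ℝ)) := by
          refine Finset.sum_congr rfl fun v _ => ?_
          have h0 : (0 : ℝ) < (nm v : ℝ) := by linarith [hnm v]
          rw [Real.rpow_neg h0.le, inv_pow]
          congr 1
          exact (Real.rpow_two _).symm
      _ ≤ _ := hs2.sum_le_tsum F fun v _ => pzb_nonneg v _
  have h7 : Real.exp (-(∑ v ∈ F, (nm v : ℝ)⁻¹ + 2 * ∑ v ∈ F, ((nm v : ℝ)⁻¹) ^ 2)) ≤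
      ∏ v ∈ F, (1 - (nm v : ℝ)⁻¹) := by
    have h8 : -(∑ v ∈ F, (nm v : ℝ)⁻¹ + 2 * ∑ v ∈ F, ((nm v : ℝ)⁻¹) ^ 2) =
        ∑ v ∈ F, -((nm v : ℝ)⁻¹ + 2 * ((nm v : ℝ)⁻¹) ^ 2) := by
      rw [Finset.sum_neg_distrib, Finset.sum_add_distrib, Finset.mul_sum]
    rw [h8, Real.exp_sum]
    refine Finset.prod_le_prod (fun v _ => (Real.exp_pos _).le) fun v _ => ?_
    have h0 : (0 : ℝ) < (nm v : ℝ) := by linarith [hnm v]
    refine acntA_log (by positivity) ?_
    rw [inv_le_comm₀ h0 (by norm_num)]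
    norm_num
    exact one_lt_nm v
  refine le_trans ?_ h7
  have h8 : Real.log T ^ (-3 : ℝ) = Real.exp (-(3 * Real.log (Real.log T))) := by
    rw [Real.rpow_def_of_pos hlog0]
    congr 1
    ring
  rw [h8, ← Real.exp_add]
  apply Real.exp_le_exp.2
  linarith

end H63.MA
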