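import Pool.Agent.H63.MA.AExp
import Pool.Agent.H63.MA.AKA
import Pool.Agent.H63.MA.AKB

/-!
# MA-ALOWA: the block sums of the lower bound

`BT D c X Y Lg z s`: sum over the large variables (`s` fixed) of `ep(ph g)` (parameter `b = 1`) over disjoint `g` with `z < nr (g a)` for `a ∈ Lg`,
`Y i / 2 < bn_i ≤ Y i` (`bn_i` the product of the norms in the class `i`) and `∑_θ qf (g (i, θ)) = 0` for all `i`.
* `bt_small`: if two elements of `Lg` are linked, or an element of `Lg` is linked to a nonempty small one, then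
  `|BT| ≤ 2^N (∏ Y) / sn (log X)^{-A}`: write the indicator of `Y i / 2 < bn_i ≤ Y i` as `[bn_i ≤ Y i] - [bn_i ≤ Y i / 2]` and multiply out:
  `BT = ∑_{U ⊆ Fin N} (-1)^{#U} TT(Y^U)`, `Y^U i = Y i / 2` for `i ∈ U`, with `h` = the indicator function of `∀ i, ∑_θ q (i, θ) = 0`
  (`Finset.prod_sub` / `Finset.prod_one_sub...`), `blk = c.blk`; apply `kpa` or `kpb` (take the maximum of the two pairs `B₁, X₀`).
* `bt_phase`: suppose the elements of `Lg` are pairwise unlinked and unlinked to the nonempty small variables, and every class has an element in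
  `Lg`. By `comb_low`, `Lg` has exactly one element in every class and all small variables are empty. So for every `g` in the sum,
  `qf (g a) = 0` for all `a`, and by `ph_cls` (`b = 1`, `E = ∅`) `ph g = f 0 = ph (∅) = 0`. Hence `BT` is the number of the terms.
* `bt_empty`: if some class `i` has no element in `Lg` and `∏_{blk a = i} nr (s a) ≤ Y i / 2` then `BT = 0`.
-/

set_option autoImplicit false

open scoped NumberField
open IsDedekindDomain
open scoped Classical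

noncomputable section

namespace H63.MA

variable {K : Type} [Field K] [NumberField K] {p : ℕ} {ζ : K} {m N : ℕ}

/-- the conditions in a block of the lower bound -/
def BC [NeZero p] (D : RD0 K p ζ) (c : CD p m N) (Y : Fin N → ℝ) (Lg : Finset c.J) (z : ℝ)
    (g : c.J → Finset (Pl K)) : Prop :=
  Dj g ∧ (∀ a ∈ Lg, z < nr (g a)) ∧ (∀ i, Y i / 2 < bn c.blk i g ∧ bn c.blk i g ≤ Y i) ∧
    ∀ i, ∑ θ : {θ : Fin m → ZMod p // θ ∈ c.Θ i}, qf D (g ⟨i, θ⟩) = 0

/-- the block sums of the lower bound -/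
def BT [NeZero p] (D : RD0 K p ζ) (c : CD p m N) (X : ℝ) (Y : Fin N → ℝ) (Lg : Finset c.J) (z : ℝ)
    (s : c.J → Finset (Pl K)) : ℂ :=
  ∑ g ∈ Fintype.piFinset (fun a => if a ∈ Lg then GF D X else {s a}),
    if BC D c Y Lg z g then ep p (ph D c.pd (fun _ => 1) g) else 0

theorem alowa_bsup (D : RD0 K p ζ) : BSup (m := m) D (fun _ => 1) ∅ := by
  refine ⟨fun v hv => absurd hv (Finset.notMem_empty v), ?_⟩
  intro k v _ _
  exact ord_one v

/-- expansion of the indicator of the boxes -/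
theorem alowa_prod {N : ℕ} (Y B : Fin N → ℝ) (hY : ∀ i, 0 < Y i) :
    (if ∀ i, Y i / 2 < B i ∧ B i ≤ Y i then (1 : ℂ) else 0) =
      ∑ t ∈ (Finset.univ : Finset (Fin N)).powerset, (-1) ^ (Finset.univ \ t).card *
        (if ∀ i, B i ≤ (if i ∈ t then Y i else Y i / 2) then (1 : ℂ) else 0) := by
  have e1 : (if ∀ i, Y i / 2 < B i ∧ B i ≤ Y i then (1 : ℂ) else 0) =
      ∏ i, ((if B i ≤ Y i then (1 : ℂ) else 0) + -(if B i ≤ Y i / 2 then (1 : ℂ) else 0)) := by
    by_cases h : ∀ i, Y i / 2 < B i ∧ B i ≤ Y i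
    · rw [if_pos h]
      symm
      apply Finset.prod_eq_one
      intro i _
      rw [if_pos (h i).2, if_neg (not_le.2 (h i).1)]
      ring
    · rw [if_neg h]
      symm
      obtain ⟨i, hi⟩ := not_forall.1 h
      apply Finset.prod_eq_zero (Finset.mem_univ i)
      by_cases h1 : B i ≤ Y i / 2
      · have h2 : B i ≤ Y i := by
          have := hY i
          linarith
        rw [if_pos h1, if_pos h2]
        ring
      · by_cases h2 : B i ≤ Y i
        · exact absurd ⟨not_le.1 h1, h2⟩ hi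
        · rw [if_neg h1, if_neg h2]
          ring
  rw [e1, Finset.prod_add]
  apply Finset.sum_congr rfl
  intro t _
  have e2 : ∏ i ∈ Finset.univ \ t, -(if B i ≤ Y i / 2 then (1 : ℂ) else 0) =
      (-1) ^ (Finset.univ \ t).card * ∏ i ∈ Finset.univ \ t,
        (if B i ≤ Y i / 2 then (1 : ℂ) else 0) := by
    rw [Finset.prod_neg]
  rw [e2]
  have e3 : (∏ i ∈ t, (if B i ≤ Y i then (1 : ℂ) else 0)) * ∏ i ∈ Finset.univ \ t,
        (if B i ≤ Y i / 2 then (1 : ℂ) else 0) =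
      (if ∀ i, B i ≤ (if i ∈ t then Y i else Y i / 2) then (1 : ℂ) else 0) := by
    by_cases h : ∀ i, B i ≤ (if i ∈ t then Y i else Y i / 2)
    · rw [if_pos h, Finset.prod_eq_one, Finset.prod_eq_one, one_mul]
      · intro i hi
        have h1 := h i
        rw [if_neg (Finset.mem_sdiff.1 hi).2] at h1
        rw [if_pos h1]
      · intro i hi
        have h1 := h i
        rw [if_pos hi] at h1
        rw [if_pos h1]
    · rw [if_neg h]
      obtain ⟨i, hi⟩ := not_forall.1 h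
      by_cases hit : i ∈ t
      · rw [if_pos hit] at hi
        rw [Finset.prod_eq_zero hit (if_neg hi), zero_mul]
      · rw [if_neg hit] at hi
        rw [Finset.prod_eq_zero (Finset.mem_sdiff.2 ⟨Finset.mem_univ i, hit⟩) (if_neg hi),
          mul_zero]
  rw [← e3]
  ring

theorem bt_small [NeZero p] (hp : p.Prime) (hζ : IsPrimitiveRoot ζ p) (D : RD K p ζ)
    (c : CD p m N) (A : ℝ) (hA : 0 ≤ A) :
    ∃ (B₁ : ℕ) (X₀ : ℝ), 3 ≤ X₀ ∧ ∀ (X z₁ z₂ : ℝ), X₀ ≤ X → 1 ≤ z₁ → z₁ ^ B₁ ≤ z₂ →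
      Real.log X ^ B₁ ≤ z₂ → ∀ (Y : Fin N → ℝ), (∀ i, 0 < Y i ∧ Y i ≤ X) →
      ∀ (Lg : Finset c.J) (s : c.J → Finset (Pl K)),
        (∀ l, l ∉ Lg → (∀ v ∈ s l, D.Gd v) ∧ nr (s l) ≤ z₁) →
        ((∃ a ∈ Lg, ∃ a' ∈ Lg, c.pd.lk a a' ≠ 0) ∨
          (∃ a ∈ Lg, ∃ l, l ∉ Lg ∧ s l ≠ ∅ ∧ c.pd.lk a l ≠ 0)) →
        ‖BT D.toRD0 c X Y Lg z₂ s‖ ≤ 2 ^ N * ((∏ i, Y i) / sn Lg s) * Real.log X ^ (-A) := by
  obtain ⟨B, X₀, hX₀, hkA⟩ := kpa hp hζ D c.pd c.blk A
  obtain ⟨B', X₀', hX₀', hkB⟩ := kpb hp hζ D c.pd c.blk A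
  refine ⟨max B B', max X₀ X₀', hX₀.trans (le_max_left _ _), ?_⟩
  intro X z₁ z₂ hX hz₁ hB1 hB2 Y hY Lg s hs hlk
  have hX3 : 3 ≤ X := hX₀.trans ((le_max_left _ _).trans hX)
  have hlX : 1 ≤ Real.log X := by
    rw [Real.le_log_iff_exp_le (by linarith)]
    linarith [Real.exp_one_lt_d9]
  have hsn : 0 < sn Lg s := by
    unfold sn
    exact Finset.prod_pos fun l _ => akb_nr_pos _
  obtain ⟨h, hh⟩ : ∃ h : (c.J → Fin D.r → ZMod p) → ℂ, ∀ q, h q =
      if ∀ i, ∑ θ : {θ : Fin m → ZMod p // θ ∈ c.Θ i}, q ⟨i, θ⟩ = 0 then 1 else 0 :=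
    ⟨_, fun _ => rfl⟩
  have hh1 : ∀ q, ‖h q‖ ≤ 1 := by
    intro q
    rw [hh]
    split_ifs
    · rw [norm_one]
    · rw [norm_zero]
      exact zero_le_one
  have hnr0 : nr (∅ : Finset (Pl K)) ≤ z₁ := by
    unfold nr
    rw [Finset.prod_empty]
    exact hz₁
  -- one term
  have hT : ∀ Y' : Fin N → ℝ, (∀ i, 0 < Y' i ∧ Y' i ≤ X) →
      ‖TT D.toRD0 c.pd (fun _ => 1) c.blk Y' X Lg z₂ s h‖ ≤
        (∏ i, Y' i) / sn Lg s * Real.log X ^ (-A) := by
    intro Y' hY'
    by_cases hl : ∃ a ∈ Lg, ∃ a' ∈ Lg, c.pd.lk a a' ≠ 0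
    · exact hkA X z₁ z₂ ((le_max_left _ _).trans hX) hz₁
        ((pow_le_pow_right₀ hz₁ (le_max_left B B')).trans hB1)
        ((pow_le_pow_right₀ hlX (le_max_left B B')).trans hB2) Y' hY' (fun _ => 1) ∅
        (alowa_bsup D.toRD0) hnr0 Lg s hs h hh1 hl
    · have hl' : ∀ a ∈ Lg, ∀ a' ∈ Lg, c.pd.lk a a' = 0 := by
        intro a ha a' ha'
        by_contra hc
        exact hl ⟨a, ha, a', ha', hc⟩
      rcases hlk with hlk | hlk
      · exact absurd hlk hl
      · exact hkB X z₁ z₂ ((le_max_right _ _).trans hX) hz₁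
          ((pow_le_pow_right₀ hz₁ (le_max_right B B')).trans hB1)
          ((pow_le_pow_right₀ hlX (le_max_right B B')).trans hB2) Y' hY' (fun _ => 1) ∅
          (alowa_bsup D.toRD0) hnr0 Lg s hs h hh1 hl' hlk
  obtain ⟨YU, hYU⟩ : ∃ YU : Finset (Fin N) → Fin N → ℝ, ∀ t i, YU t i =
      if i ∈ t then Y i else Y i / 2 := ⟨_, fun _ _ => rfl⟩
  have hYU1 : ∀ t i, 0 < YU t i ∧ YU t i ≤ X := by
    intro t i
    have h1 := hY i
    rw [hYU]
    split_ifs
    · exact h1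
    · constructor <;> linarith [h1.1, h1.2]
  have hexp : BT D.toRD0 c X Y Lg z₂ s =
      ∑ t ∈ (Finset.univ : Finset (Fin N)).powerset, (-1) ^ (Finset.univ \ t).card *
        TT D.toRD0 c.pd (fun _ => 1) c.blk (YU t) X Lg z₂ s h := by
    unfold BT TT
    simp only [Finset.mul_sum]
    rw [Finset.sum_comm]
    apply Finset.sum_congr rfl
    intro g _
    have e1 := alowa_prod Y (fun i => bn c.blk i g) (fun i => (hY i).1)
    by_cases hd : Dj g ∧ (∀ a ∈ Lg, z₂ < nr (g a))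
    · have e2 : (if BC D.toRD0 c Y Lg z₂ g then
          ep p (ph D.toRD0 c.pd (fun _ => 1) g) else 0) =
          (if ∀ i, Y i / 2 < bn c.blk i g ∧ bn c.blk i g ≤ Y i then (1 : ℂ) else 0) *
          (h (fun a => qf D.toRD0 (g a)) * ep p (ph D.toRD0 c.pd (fun _ => 1) g)) := by
        rw [hh]
        by_cases h1 : ∀ i, Y i / 2 < bn c.blk i g ∧ bn c.blk i g ≤ Y i
        · by_cases h2 : ∀ i, ∑ θ : {θ : Fin m → ZMod p // θ ∈ c.Θ i},
              qf D.toRD0 (g ⟨i, θ⟩) = 0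
          · rw [if_pos h1, if_pos h2, if_pos ⟨hd.1, hd.2, h1, h2⟩]
            ring
          · rw [if_neg h2, if_neg (fun h3 : BC D.toRD0 c Y Lg z₂ g => h2 h3.2.2.2)]
            ring
        · rw [if_neg h1, if_neg (fun h3 : BC D.toRD0 c Y Lg z₂ g => h1 h3.2.2.1)]
          ring
      rw [e2, e1, Finset.sum_mul]
      apply Finset.sum_congr rfl
      intro t _
      rw [mul_assoc]
      congr 1
      by_cases h3 : ∀ i, bn c.blk i g ≤ (if i ∈ t then Y i else Y i / 2)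
      · have h4 : Cond c.blk (YU t) Lg z₂ g := by
          refine ⟨hd.1, hd.2, ?_⟩
          intro i
          rw [hYU]
          exact h3 i
        rw [if_pos h3, if_pos h4, one_mul]
      · have h4 : ¬ Cond c.blk (YU t) Lg z₂ g := by
          rintro ⟨_, _, h5⟩
          apply h3
          intro i
          have h6 := h5 i
          rw [hYU] at h6
          exact h6
        rw [if_neg h3, if_neg h4, zero_mul]
    · rw [if_neg (fun h3 : BC D.toRD0 c Y Lg z₂ g => hd ⟨h3.1, h3.2.1⟩)]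
      symm
      apply Finset.sum_eq_zero
      intro t _
      rw [if_neg (fun h3 : Cond c.blk (YU t) Lg z₂ g => hd ⟨h3.1, h3.2.1⟩), mul_zero]
  rw [hexp]
  have hpow : 0 ≤ Real.log X ^ (-A) := Real.rpow_nonneg (by linarith) _
  have hbd : ∀ t ∈ (Finset.univ : Finset (Fin N)).powerset, ‖(-1) ^ (Finset.univ \ t).card *
        TT D.toRD0 c.pd (fun _ => 1) c.blk (YU t) X Lg z₂ s h‖ ≤
      (∏ i, Y i) / sn Lg s * Real.log X ^ (-A) := by
    intro t _
    rw [norm_mul, norm_pow, norm_neg, norm_one, one_pow, one_mul]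
    refine (hT (YU t) (hYU1 t)).trans ?_
    have h1 : ∏ i, YU t i ≤ ∏ i, Y i := by
      apply Finset.prod_le_prod
      · intro i _
        exact (hYU1 t i).1.le
      · intro i _
        have := (hY i).1
        rw [hYU]
        split_ifs
        · exact le_rfl
        · linarith
    gcongr
  refine (norm_sum_le _ _).trans ((Finset.sum_le_sum hbd).trans (le_of_eq ?_))
  rw [Finset.sum_const, Finset.card_powerset, Finset.card_univ, Fintype.card_fin, nsmul_eq_mul]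
  push_cast
  ring

theorem alowa_qf_empty (D : RD0 K p ζ) : qf D (∅ : Finset (Pl K)) = 0 := by
  unfold qf
  rw [Finset.sum_empty]

theorem alowa_ph_empty {J : Type} [Fintype J] (D : RD0 K p ζ) (P : PD p m J) (b : Fin m → Kˣ) :
    ph D P b (fun _ : J => (∅ : Finset (Pl K))) = 0 := by
  unfold ph Lf
  simp

theorem bt_phase [NeZero p] (hp : p.Prime) (hp2 : MOne p K) (hζ : IsPrimitiveRoot ζ p)
    (D : RD K p ζ) (c : CD p m N) (X : ℝ) (Y : Fin N → ℝ) (Lg : Finset c.J) (z : ℝ)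
    (s : c.J → Finset (Pl K)) (hs : ∀ l, l ∉ Lg → ∀ v ∈ s l, D.Gd v)
    (h1 : ∀ a ∈ Lg, ∀ a' ∈ Lg, c.pd.lk a a' = 0)
    (h2 : ∀ a ∈ Lg, ∀ l, l ∉ Lg → s l ≠ ∅ → c.pd.lk a l = 0)
    (h3 : ∀ i, ∃ a ∈ Lg, c.blk a = i) :
    BT D.toRD0 c X Y Lg z s =
      (((Fintype.piFinset (fun a => if a ∈ Lg then GF D.toRD0 X else {s a})).filter
        (fun g => BC D.toRD0 c Y Lg z g)).card : ℂ) := by
  obtain ⟨hinj, hNe⟩ := comb_low c Lg (Finset.univ.filter fun l => l ∉ Lg ∧ s l ≠ ∅) h1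
    (fun a ha l hl => h2 a ha l (Finset.mem_filter.1 hl).2.1 (Finset.mem_filter.1 hl).2.2) h3
  have hsE : ∀ l, l ∉ Lg → s l = ∅ := by
    intro l hl
    by_contra hne
    exact hl (hNe (Finset.mem_filter.2 ⟨Finset.mem_univ l, hl, hne⟩))
  obtain ⟨f, hf, _⟩ := ph_cls hp hp2 hζ D c.pd (fun _ => 1) ∅ (alowa_bsup D.toRD0) Lg s h1 h2
    (fun a _ w hw => absurd hw (Finset.notMem_empty w))
  have hf0 : f (fun _ => 0) = 0 := by
    have e1 := hf (fun _ => ∅) ⟨fun a v hv => absurd hv (Finset.notMem_empty v),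
      fun a a' _ => Finset.disjoint_empty_left _⟩ (fun l hl => (hsE l hl).symm)
    rw [alowa_ph_empty] at e1
    rw [alowa_qf_empty] at e1
    exact e1.symm
  unfold BT
  rw [← Finset.sum_filter, Finset.card_eq_sum_ones, Nat.cast_sum]
  apply Finset.sum_congr rfl
  intro g hg
  rw [Finset.mem_filter, Fintype.mem_piFinset] at hg
  obtain ⟨hg1, hg2, hg3, hg4, hg5⟩ := hg
  have hgs : ∀ l, l ∉ Lg → g l = s l := by
    intro l hl
    have := hg1 l
    rwa [if_neg hl, Finset.mem_singleton] at this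
  have hadm : Adm D.toRD0 g := by
    refine ⟨?_, hg2⟩
    intro l v hv
    by_cases hl : l ∈ Lg
    · have := hg1 l
      rw [if_pos hl, akb_mem_GF] at this
      exact this.2 v hv
    · rw [hgs l hl] at hv
      exact hs l hl v hv
  have hq : ∀ a, qf D.toRD0 (g a) = 0 := by
    intro a
    by_cases ha : a ∈ Lg
    · obtain ⟨i, θ⟩ := a
      have h5 := hg5 i
      rw [Finset.sum_eq_single θ] at h5
      · exact h5
      · intro θ' _ hθ'
        have hnot : (⟨i, θ'⟩ : c.J) ∉ Lg := by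
          intro hin
          apply hθ'
          have h6 := hinj ⟨i, θ'⟩ hin ⟨i, θ⟩ ha rfl
          exact eq_of_heq (Sigma.mk.inj h6).2
        rw [hgs _ hnot, hsE _ hnot, alowa_qf_empty]
      · intro hθ
        exact absurd (Finset.mem_univ θ) hθ
    · rw [hgs a ha, hsE a ha, alowa_qf_empty]
  rw [hf g hadm hgs]
  have e2 : (fun a => qf D.toRD0 (g a)) = fun _ => 0 := funext hq
  rw [e2, hf0, ep_zero, Nat.cast_one]

theorem bt_empty [NeZero p] (D : RD0 K p ζ) (c : CD p m N) (X : ℝ) (Y : Fin N → ℝ)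
    (Lg : Finset c.J) (z : ℝ) (s : c.J → Finset (Pl K)) (i : Fin N)
    (hi : ∀ a ∈ Lg, c.blk a ≠ i)
    (h : ∏ a ∈ Finset.univ.filter (fun a => c.blk a = i), nr (s a) ≤ Y i / 2) :
    BT D c X Y Lg z s = 0 := by
  unfold BT
  apply Finset.sum_eq_zero
  intro g hg
  rw [Fintype.mem_piFinset] at hg
  rw [if_neg]
  rintro ⟨_, _, h3, _⟩
  have h4 := (h3 i).1
  have h5 : bn c.blk i g = ∏ a ∈ Finset.univ.filter (fun a => c.blk a = i), nr (s a) := by
    unfold bn
    apply Finset.prod_congr rfl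
    intro a ha
    rw [Finset.mem_filter] at ha
    have hn : a ∉ Lg := fun h => hi a h ha.2
    have := hg a
    rw [if_neg hn, Finset.mem_singleton] at this
    rw [this]
  rw [h5] at h4
  linarith

end H63.MA
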