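import Pool.Agent.H63.MA.ADef

/-!
# MA-ATHR: decomposition into large and small variables (finite combinatorics)

Let `z 0 ≤ z 1 ≤ ...` be thresholds, `z j ≤ X` for `j ≤ #J`. For every `g : J → GF X` the `#J + 1` intervals `(z j, z (j+1)]`,
`0 ≤ j ≤ #J`, are disjoint, so there is a least `j ≤ #J` such that no `nr (g a)` is in `(z j, z (j+1)]`. Put
`Lg = {a : z (j+1) < nr (g a)}`, `s a = ∅` for `a ∈ Lg`, `s a = g a` for `a ∉ Lg` (then `nr (s a) ≤ z j`). The triple `(j, Lg, s)` is
uniquely determined by: `s ∈ SmF D z j Lg` (here: for every `j' < j` there is `l ∉ Lg` with `nr (s l) ∈ (z j', z (j'+1)]`: since `z (j'+1) ≤ z j`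
the variable is small), `g a = s a` for `a ∉ Lg` and `z (j+1) < nr (g a)` for `a ∈ Lg`. So the sum over all `g` is the sum over the
triples (`athr`).
`smf_sum`: drop the gap condition; the sum is a product over `a ∉ Lg` of sums `∑_{n ∈ GF (z j)} 1 / nr n ≤ C (1 + log (z j))`.
-/

set_option autoImplicit false

open scoped NumberField
open IsDedekindDomain
open scoped Classical

noncomputable section

namespace H63.MA

variable {K : Type} [Field K] [NumberField K] {p : ℕ} {ζ : K} {J : Type} [Fintype J]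

/-- the families of small variables at level `j` (the large variables are `∅`) -/
def SmF (D : RD0 K p ζ) (z : ℕ → ℝ) (j : ℕ) (Lg : Finset J) : Finset (J → Finset (Pl K)) :=
  (Fintype.piFinset fun a => if a ∈ Lg then {∅} else GF D (z j)).filter fun s =>
    ∀ j', j' < j → ∃ l, l ∉ Lg ∧ z j' < nr (s l) ∧ nr (s l) ≤ z (j' + 1)

/-- some variable is in the interval number `j` -/
def athrQ (z : ℕ → ℝ) (g : J → Finset (Pl K)) (j : ℕ) : Prop :=
  ∃ a, z j < nr (g a) ∧ nr (g a) ≤ z (j + 1)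

theorem athr_ex (z : ℕ → ℝ) (hz : Monotone z) (g : J → Finset (Pl K)) :
    ∃ j, j ≤ Fintype.card J ∧ ¬ athrQ z g j := by
  by_contra hcon
  push Not at hcon
  have h : ∀ j : ℕ, ∃ a : J, j ≤ Fintype.card J → z j < nr (g a) ∧ nr (g a) ≤ z (j + 1) := by
    intro j
    by_cases hj : j ≤ Fintype.card J
    · obtain ⟨a, ha⟩ := hcon j hj
      exact ⟨a, fun _ => ha⟩
    · obtain ⟨a, ha⟩ := hcon 0 (Nat.zero_le _)
      exact ⟨a, fun h => absurd h hj⟩
  choose f hf using h
  have hinj : Set.InjOn f (Finset.range (Fintype.card J + 1) : Finset ℕ) := by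
    intro j hj j' hj' he
    rw [Finset.mem_coe, Finset.mem_range] at hj hj'
    have h1 := hf j (by omega)
    have h2 := hf j' (by omega)
    rcases lt_trichotomy j j' with hlt | heq | hlt
    · exfalso
      have h3 := hz (show j + 1 ≤ j' by omega)
      rw [← he] at h2
      linarith [h1.2, h2.1]
    · exact heq
    · exfalso
      have h3 := hz (show j' + 1 ≤ j by omega)
      rw [← he] at h2
      linarith [h1.1, h2.2]
  have h1 := Finset.card_le_card_of_injOn (s := Finset.range (Fintype.card J + 1))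
    (t := Finset.univ) f (fun _ _ => Finset.mem_coe.2 (Finset.mem_univ _)) hinj
  rw [Finset.card_range, Finset.card_univ] at h1
  omega

/-- the relation between `g` and the triple `(j, Lg, s)` -/
def athrA (z : ℕ → ℝ) (j : ℕ) (Lg : Finset J) (s g : J → Finset (Pl K)) : Prop :=
  (∀ a, a ∉ Lg → g a = s a) ∧ ∀ a ∈ Lg, z (j + 1) < nr (g a)

theorem athr_facts (D : RD0 K p ζ) (z : ℕ → ℝ) (hz : Monotone z) {j : ℕ} {Lg : Finset J}
    {s g : J → Finset (Pl K)} (hs : s ∈ SmF D z j Lg) (hA : athrA z j Lg s g) :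
    (¬ athrQ z g j) ∧ (∀ j', j' < j → athrQ z g j') ∧
      Lg = Finset.univ.filter (fun a => z (j + 1) < nr (g a)) ∧
      s = fun a => if a ∈ Lg then ∅ else g a := by
  unfold SmF at hs
  rw [Finset.mem_filter, Fintype.mem_piFinset] at hs
  obtain ⟨hs1, hs2⟩ := hs
  have hsm : ∀ a, a ∉ Lg → nr (g a) ≤ z j := by
    intro a ha
    have h1 := hs1 a
    rw [if_neg ha] at h1
    unfold GF at h1
    rw [Finset.mem_filter, mem_AF] at h1
    rw [hA.1 a ha]
    exact h1.1
  have hjj := hz (Nat.le_succ j)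
  refine ⟨?_, ?_, ?_, ?_⟩
  · rintro ⟨a, ha1, ha2⟩
    by_cases ha : a ∈ Lg
    · have := hA.2 a ha
      linarith
    · have := hsm a ha
      linarith
  · intro j' hj'
    obtain ⟨l, hl, h1, h2⟩ := hs2 j' hj'
    refine ⟨l, ?_, ?_⟩
    · rw [hA.1 l hl]
      exact h1
    · rw [hA.1 l hl]
      exact h2
  · ext a
    rw [Finset.mem_filter]
    constructor
    · intro ha
      exact ⟨Finset.mem_univ _, hA.2 a ha⟩
    · rintro ⟨-, ha⟩
      by_contra hn
      have h1 := hsm a hn
      have h2 : z j ≤ z (j + 1) := hjj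
      linarith
  · funext a
    by_cases ha : a ∈ Lg
    · rw [if_pos ha]
      have h1 := hs1 a
      rw [if_pos ha, Finset.mem_singleton] at h1
      exact h1
    · rw [if_neg ha]
      exact (hA.1 a ha).symm

theorem athr_GF_mono (D : RD0 K p ζ) {x y : ℝ} (h : x ≤ y) : GF D x ⊆ GF D y := by
  intro n hn
  unfold GF at hn ⊢
  rw [Finset.mem_filter, mem_AF] at hn ⊢
  exact ⟨hn.1.trans h, hn.2⟩

theorem athr (D : RD0 K p ζ) (z : ℕ → ℝ) (hz : Monotone z) (X : ℝ)
    (hX : ∀ j, j ≤ Fintype.card J → z j ≤ X) (w : (J → Finset (Pl K)) → ℂ) :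
    ∑ g ∈ Fintype.piFinset (fun _ : J => GF D X), w g =
      ∑ j ∈ Finset.range (Fintype.card J + 1), ∑ Lg : Finset J, ∑ s ∈ SmF D z j Lg,
        ∑ g ∈ Fintype.piFinset (fun a => if a ∈ Lg then GF D X else {s a}),
          if ∀ a ∈ Lg, z (j + 1) < nr (g a) then w g else 0 := by
  -- the inner sums as sums over all families
  have hin : ∀ j ∈ Finset.range (Fintype.card J + 1), ∀ (Lg : Finset J), ∀ s ∈ SmF D z j Lg,
      ∑ g ∈ Fintype.piFinset (fun a => if a ∈ Lg then GF D X else {s a}),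
        (if ∀ a ∈ Lg, z (j + 1) < nr (g a) then w g else 0) =
      ∑ g ∈ Fintype.piFinset (fun _ : J => GF D X), if athrA z j Lg s g then w g else 0 := by
    intro j hj Lg s hs
    rw [Finset.mem_range] at hj
    unfold SmF at hs
    rw [Finset.mem_filter, Fintype.mem_piFinset] at hs
    rw [← Finset.sum_filter, ← Finset.sum_filter]
    refine congrArg (fun S => ∑ g ∈ S, w g) ?_
    ext g
    rw [Finset.mem_filter, Finset.mem_filter, Fintype.mem_piFinset, Fintype.mem_piFinset]
    unfold athrA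
    constructor
    · rintro ⟨h1, h2⟩
      refine ⟨fun a => ?_, fun a ha => ?_, h2⟩
      · have h3 := h1 a
        by_cases ha : a ∈ Lg
        · rw [if_pos ha] at h3
          exact h3
        · rw [if_neg ha, Finset.mem_singleton] at h3
          have h4 := hs.1 a
          rw [if_neg ha] at h4
          rw [h3]
          exact athr_GF_mono D (hX j (by omega)) h4
      · have h3 := h1 a
        rw [if_neg ha, Finset.mem_singleton] at h3
        exact h3
    · rintro ⟨h1, h2, h3⟩
      refine ⟨fun a => ?_, h3⟩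
      by_cases ha : a ∈ Lg
      · rw [if_pos ha]
        exact h1 a
      · rw [if_neg ha, Finset.mem_singleton]
        exact h2 a ha
  have hR : ∑ j ∈ Finset.range (Fintype.card J + 1), ∑ Lg : Finset J, ∑ s ∈ SmF D z j Lg,
        ∑ g ∈ Fintype.piFinset (fun a => if a ∈ Lg then GF D X else {s a}),
          (if ∀ a ∈ Lg, z (j + 1) < nr (g a) then w g else 0) =
      ∑ g ∈ Fintype.piFinset (fun _ : J => GF D X),
        ∑ j ∈ Finset.range (Fintype.card J + 1), ∑ Lg : Finset J, ∑ s ∈ SmF D z j Lg,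
          if athrA z j Lg s g then w g else 0 := by
    symm
    rw [Finset.sum_comm]
    refine Finset.sum_congr rfl fun j hj => ?_
    rw [Finset.sum_comm]
    refine Finset.sum_congr rfl fun Lg _ => ?_
    rw [Finset.sum_comm]
    exact Finset.sum_congr rfl fun s hs => (hin j hj Lg s hs).symm
  rw [hR]
  refine Finset.sum_congr rfl fun g hg => ?_
  rw [Fintype.mem_piFinset] at hg
  have hex : ∃ j, ¬ athrQ z g j := by
    obtain ⟨j, -, hj⟩ := athr_ex z hz g
    exact ⟨j, hj⟩
  obtain ⟨j₀, hj₀, hmin, hle⟩ : ∃ j₀, ¬ athrQ z g j₀ ∧ (∀ j, j < j₀ → athrQ z g j) ∧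
      j₀ ≤ Fintype.card J := by
    refine ⟨Nat.find hex, Nat.find_spec hex, ?_, ?_⟩
    · intro j hj
      have := Nat.find_min hex hj
      exact not_not.1 this
    · obtain ⟨j, hj1, hj2⟩ := athr_ex z hz g
      exact (Nat.find_min' hex hj2).trans hj1
  obtain ⟨L₀, hL₀⟩ : ∃ L₀ : Finset J, L₀ = Finset.univ.filter (fun a => z (j₀ + 1) < nr (g a)) :=
    ⟨_, rfl⟩
  obtain ⟨s₀, hs₀⟩ : ∃ s₀ : J → Finset (Pl K), s₀ = fun a => if a ∈ L₀ then ∅ else g a :=
    ⟨_, rfl⟩
  have hmL : ∀ a, a ∈ L₀ ↔ z (j₀ + 1) < nr (g a) := by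
    intro a
    rw [hL₀, Finset.mem_filter]
    exact ⟨fun h => h.2, fun h => ⟨Finset.mem_univ _, h⟩⟩
  have hA : athrA z j₀ L₀ s₀ g := by
    constructor
    · intro a ha
      rw [hs₀]
      show g a = if a ∈ L₀ then ∅ else g a
      rw [if_neg ha]
    · intro a ha
      exact (hmL a).1 ha
  have hS : s₀ ∈ SmF D z j₀ L₀ := by
    unfold SmF
    rw [Finset.mem_filter, Fintype.mem_piFinset]
    constructor
    · intro a
      rw [hs₀]
      show (if a ∈ L₀ then ∅ else g a) ∈ (if a ∈ L₀ then {∅} else GF D (z j₀))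
      by_cases ha : a ∈ L₀
      · rw [if_pos ha, if_pos ha]
        exact Finset.mem_singleton_self _
      · rw [if_neg ha, if_neg ha]
        have h1 := hg a
        unfold GF at h1 ⊢
        rw [Finset.mem_filter, mem_AF] at h1 ⊢
        refine ⟨?_, h1.2⟩
        by_contra hn
        push Not at hn
        apply hj₀
        refine ⟨a, hn, ?_⟩
        by_contra hn2
        push Not at hn2
        exact ha ((hmL a).2 hn2)
    · intro j' hj'
      obtain ⟨l, hl1, hl2⟩ := hmin j' hj'
      have h3 : z (j' + 1) ≤ z (j₀ + 1) := hz (by omega)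
      have hl : l ∉ L₀ := by
        intro h
        have := (hmL l).1 h
        linarith
      refine ⟨l, hl, ?_, ?_⟩
      · rw [← hA.1 l hl]
        exact hl1
      · rw [← hA.1 l hl]
        exact hl2
  symm
  rw [Finset.sum_eq_single j₀]
  · rw [Finset.sum_eq_single L₀]
    · rw [Finset.sum_eq_single s₀]
      · rw [if_pos hA]
      · intro s hs hne
        rw [if_neg]
        intro hA'
        obtain ⟨-, -, -, h4⟩ := athr_facts D z hz hs hA'
        exact hne (h4.trans hs₀.symm)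
      · intro h
        exact absurd hS h
    · intro L _ hne
      refine Finset.sum_eq_zero fun s hs => ?_
      rw [if_neg]
      intro hA'
      obtain ⟨-, -, h3, -⟩ := athr_facts D z hz hs hA'
      exact hne (h3.trans hL₀.symm)
    · intro h
      exact absurd (Finset.mem_univ _) h
  · intro j _ hne
    refine Finset.sum_eq_zero fun L _ => Finset.sum_eq_zero fun s hs => ?_
    rw [if_neg]
    intro hA'
    obtain ⟨h1, h2, -, -⟩ := athr_facts D z hz hs hA'
    rcases lt_or_gt_of_ne hne with h | h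
    · exact h1 (hmin j h)
    · exact hj₀ (h2 j₀ h)
  · intro h
    exact absurd (Finset.mem_range.2 (by omega)) h

/-- the sum of `1 / sn` over the small families -/
theorem smf_sum (K : Type) [Field K] [NumberField K] {J : Type} [Fintype J]
    (hK : ∃ C : ℝ, 0 < C ∧ ∀ y : ℝ, 1 ≤ y → ∑ n ∈ AF K y, (nr n)⁻¹ ≤ C * (1 + Real.log y)) :
    ∃ C : ℝ, 0 < C ∧ ∀ (p : ℕ) (ζ : K) (D : RD0 K p ζ) (z : ℕ → ℝ) (j : ℕ) (Lg : Finset J),
      1 ≤ z j →
        ∑ s ∈ SmF D z j Lg, (∏ a ∈ Finset.univ.filter (fun a => a ∉ Lg), nr (s a))⁻¹ ≤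
          C * (1 + Real.log (z j)) ^ Fintype.card J := by
  obtain ⟨C, hC, h⟩ := hK
  refine ⟨(C + 1) ^ Fintype.card J, by positivity, ?_⟩
  intro p ζ D z j Lg hz
  have hlog : 0 ≤ Real.log (z j) := Real.log_nonneg hz
  have hnr : ∀ n : Finset (Pl K), 0 < nr n := fun n => lt_of_lt_of_le one_pos (one_le_nr n)
  have h1 : ∑ s ∈ SmF D z j Lg, (∏ a ∈ Finset.univ.filter (fun a => a ∉ Lg), nr (s a))⁻¹ ≤
      ∑ s ∈ Fintype.piFinset (fun a => if a ∈ Lg then {∅} else GF D (z j)),
        ∏ a, (if a ∉ Lg then (nr (s a))⁻¹ else 1) := by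
    unfold SmF
    refine (Finset.sum_le_sum_of_subset_of_nonneg (Finset.filter_subset _ _) fun s _ _ =>
      inv_nonneg.2 (Finset.prod_nonneg fun a _ => (hnr (s a)).le)).trans (le_of_eq ?_)
    refine Finset.sum_congr rfl fun s _ => ?_
    rw [← Finset.prod_inv_distrib, Finset.prod_filter]
  refine h1.trans ?_
  have h2 := Finset.prod_univ_sum (fun a : J => if a ∈ Lg then {∅} else GF D (z j))
    (fun (a : J) (n : Finset (Pl K)) => if a ∉ Lg then (nr n)⁻¹ else 1)
  rw [← h2]
  obtain ⟨B, hB⟩ : ∃ B : ℝ, B = (C + 1) * (1 + Real.log (z j)) := ⟨_, rfl⟩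
  have hB1 : 1 ≤ B := by
    rw [hB]
    nlinarith
  have h3 : ∀ a : J, ∑ n ∈ (if a ∈ Lg then {∅} else GF D (z j)),
      (if a ∉ Lg then (nr n)⁻¹ else 1) ≤ B := by
    intro a
    by_cases ha : a ∈ Lg
    · rw [if_pos ha, Finset.sum_singleton, if_neg (not_not.2 ha)]
      exact hB1
    · rw [if_neg ha]
      have h4 : ∑ n ∈ GF D (z j), (if a ∉ Lg then (nr n)⁻¹ else 1) ≤ ∑ n ∈ AF K (z j), (nr n)⁻¹ := by
        unfold GF
        rw [Finset.sum_congr rfl fun n _ => if_pos ha]
        exact Finset.sum_le_sum_of_subset_of_nonneg (Finset.filter_subset _ _) fun n _ _ =>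
          inv_nonneg.2 (hnr n).le
      refine h4.trans ((h (z j) hz).trans ?_)
      rw [hB]
      nlinarith
  have h5 : ∏ a : J, ∑ n ∈ (if a ∈ Lg then {∅} else GF D (z j)),
      (if a ∉ Lg then (nr n)⁻¹ else 1) ≤ ∏ _a : J, B := by
    refine Finset.prod_le_prod (fun a _ => ?_) fun a _ => h3 a
    refine Finset.sum_nonneg fun n _ => ?_
    split_ifs
    · exact zero_le_one
    · exact inv_nonneg.2 (hnr n).le
  refine h5.trans (le_of_eq ?_)
  rw [Finset.prod_const, Finset.card_univ, hB, mul_pow]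

end H63.MA
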