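import Pool.Agent.H63.MA.ALowA
import Pool.Agent.H63.MA.AThr

/-!
# MA-ALOWB: lower bound in a box

`alow`: for `X^{δ₀} ≤ Y i ≤ X`, `X ≥ X₀`: the weighted number of disjoint `f : Fin N → GF X` with `Y i / 2 < nr (f i) ≤ Y i`, `qf (f i) = 0` is at least
the number of these `f` minus `∏ Y i / log X`.

Proof. By `gexp` (`b = 1`, `Φ` the indicator of the box and class conditions), `un_nr`, `un_qf` the weighted number is
`∑_g ep(ph g)` over the disjoint `g : c.J → GF X` with `Y i / 2 < bn_i ≤ Y i`, `∑_θ qf (g (i, θ)) = 0` (`un g i ∈ GF X` is then automatic).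
Let `B = max 2 B₁` (`B₁` from `bt_small` with `A = 2`), `z j = (log X)^{B * B^j}`; for large `X`: `z` monotone, `z j ≤ X` and
`(z j)^{#J} ≤ X^{δ₀} / 2`, `z 1 ≤ X^{δ₀} / 2`, for `j ≤ #J + 1`. By `athr` the sum is `∑_j ∑_{Lg} ∑_{s ∈ SmF} BT D c X Y Lg (z (j+1)) s`.
(i) If some class has no element in `Lg`: `BT = 0` by `bt_empty`. (ii) Otherwise, if `Lg` has linked elements or an element linked to a nonempty small
variable: `bt_small` (`A = 2`, `z₁ = z j`, `z₂ = z (j+1)`): `|BT| ≤ 2^N ∏ Y / sn (log X)^{-2}`; the sum over `s` and `j, Lg` is `≤ ∏ Y / log X` for large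
`X` by `smf_sum` (`log (z j) = B^{j+1} log log X`). (iii) Otherwise `bt_phase`: `BT ≥ 0`; and for `j = 0`, `Lg = {(i, 0) : i}`, `s = ∅` (which is in
`SmF`; all linking numbers are `0`) it is the number of the `f` in the box (`f i = g (i, 0)`; `z 1 < nr (f i)` holds since `Y i / 2 ≥ z 1`).
Compare real parts.
-/

set_option autoImplicit false

open scoped NumberField
open IsDedekindDomain
open scoped Classical

noncomputable section

namespace H63.MA

variable {K : Type} [Field K] [NumberField K] {p : ℕ} {ζ : K} {m N : ℕ}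

/-- the box conditions -/
def Bx (D : RD0 K p ζ) (Y : Fin N → ℝ) (f : Fin N → Finset (Pl K)) : Prop :=
  (∀ a a', a ≠ a' → Disjoint (f a) (f a')) ∧
    ∀ i, Y i / 2 < nr (f i) ∧ nr (f i) ≤ Y i ∧ qf D (f i) = 0

/-! ### growth -/

theorem alowB_ev1 (P : ℕ) (δ₀ : ℝ) (hδ₀ : 0 < δ₀) :
    ∀ᶠ X : ℝ in Filter.atTop, Real.log X ^ P ≤ X ^ δ₀ / 2 := by
  have h1 := isLittleO_log_rpow_rpow_atTop (P : ℝ) hδ₀
  have h2 := h1.bound (show (0 : ℝ) < 1 / 2 by norm_num)
  filter_upwards [h2, Filter.eventually_ge_atTop 1] with X h3 h4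
  have h5 : 0 ≤ Real.log X := Real.log_nonneg h4
  have h6 : (0 : ℝ) < X := by linarith
  rw [Real.rpow_natCast, Real.norm_of_nonneg (pow_nonneg h5 P),
    Real.norm_of_nonneg (Real.rpow_nonneg h6.le _)] at h3
  linarith

theorem alowB_ev2 (C c : ℝ) (hC : 0 ≤ C) (hc : 0 ≤ c) (n : ℕ) :
    ∀ᶠ X : ℝ in Filter.atTop, C * (1 + c * Real.log (Real.log X)) ^ n ≤ Real.log X := by
  have h0 : ∀ᶠ y : ℝ in Filter.atTop, C * (1 + c * Real.log y) ^ n ≤ y := by
    have h1 := isLittleO_log_rpow_rpow_atTop (n : ℝ) (one_pos : (0 : ℝ) < 1)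
    have h2 := h1.bound (show (0 : ℝ) < 1 / (C * (1 + c) ^ n + 1) by positivity)
    filter_upwards [h2, Filter.eventually_ge_atTop (Real.exp 1)] with y h3 h4
    have h5 : 1 ≤ Real.log y := by
      have := Real.log_le_log (Real.exp_pos 1) h4
      rwa [Real.log_exp] at this
    have h6 : (0 : ℝ) < y := lt_of_lt_of_le (Real.exp_pos 1) h4
    rw [Real.rpow_natCast, Real.rpow_one, Real.norm_of_nonneg (pow_nonneg (by linarith) n),
      Real.norm_of_nonneg h6.le, one_div, inv_mul_eq_div, le_div_iff₀ (by positivity)] at h3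
    have h7 : (1 + c * Real.log y) ^ n ≤ (1 + c) ^ n * Real.log y ^ n := by
      rw [← mul_pow]
      apply pow_le_pow_left₀ (by positivity)
      nlinarith
    have h8 := mul_le_mul_of_nonneg_left h7 hC
    have h9 : 0 ≤ Real.log y ^ n := pow_nonneg (by linarith) n
    nlinarith
  exact Real.tendsto_log_atTop.eventually h0

/-! ### the expansion -/

theorem alowB_un_GF [NeZero p] (D : RD0 K p ζ) (c : CD p m N) {X : ℝ} {Y : Fin N → ℝ}
    (hY : ∀ i, Y i ≤ X) (g : c.J → Finset (Pl K)) (hg : ∀ a, g a ∈ GF D X) (hd : Dj g)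
    (hb : ∀ i, bn c.blk i g ≤ Y i) (i : Fin N) : un c g i ∈ GF D X := by
  rw [akb_mem_GF]
  refine ⟨?_, ?_⟩
  · rw [un_nr c g hd i]
    exact (hb i).trans (hY i)
  · intro v hv
    unfold un at hv
    rw [Finset.mem_biUnion] at hv
    obtain ⟨θ, _, hv⟩ := hv
    exact ((akb_mem_GF D).1 (hg ⟨i, θ⟩)).2 v hv

/-- the summand -/
def alowBW [NeZero p] (D : RD0 K p ζ) (c : CD p m N) (Y : Fin N → ℝ)
    (g : c.J → Finset (Pl K)) : ℂ :=
  if Dj g ∧ (∀ i, Y i / 2 < bn c.blk i g ∧ bn c.blk i g ≤ Y i) ∧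
    ∀ i, ∑ θ : {θ : Fin m → ZMod p // θ ∈ c.Θ i}, qf D (g ⟨i, θ⟩) = 0 then
    ep p (ph D c.pd (fun _ => 1) g) else 0

theorem alowB_exp [NeZero p] (hp : p.Prime) (hζ : IsPrimitiveRoot ζ p) (D : RD K p ζ)
    (c : CD p m N) (X : ℝ) (Y : Fin N → ℝ) (hY : ∀ i, Y i ≤ X) :
    (((∑ f ∈ Fintype.piFinset (fun _ : Fin N => GF D.toRD0 X),
        if Bx D.toRD0 Y f then
          wt c f (fun v k => D.LL v (ak D.toRD0 c (fun _ => 1) f k)) else 0 : ℝ)) : ℂ) =
      ∑ g ∈ Fintype.piFinset (fun _ : c.J => GF D.toRD0 X), alowBW D.toRD0 c Y g := by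
  have h1 := gexp hp hζ D c (fun _ => 1) X
    (fun f => if ∀ i, Y i / 2 < nr (f i) ∧ nr (f i) ≤ Y i ∧ qf D.toRD0 (f i) = 0 then 1 else 0)
  have h2 : (((∑ f ∈ Fintype.piFinset (fun _ : Fin N => GF D.toRD0 X),
        if Bx D.toRD0 Y f then
          wt c f (fun v k => D.LL v (ak D.toRD0 c (fun _ => 1) f k)) else 0 : ℝ)) : ℂ) =
      ∑ f ∈ Fintype.piFinset (fun _ : Fin N => GF D.toRD0 X),
        (if Dj f then (if ∀ i, Y i / 2 < nr (f i) ∧ nr (f i) ≤ Y i ∧ qf D.toRD0 (f i) = 0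
          then (1 : ℂ) else 0) *
          ((wt c f (fun v k => D.LL v (ak D.toRD0 c (fun _ => 1) f k)) : ℝ) : ℂ) else 0) := by
    rw [Complex.ofReal_sum]
    refine Finset.sum_congr rfl fun f _ => ?_
    unfold Bx Dj
    by_cases h3 : ∀ a a', a ≠ a' → Disjoint (f a) (f a')
    · by_cases h4 : ∀ i, Y i / 2 < nr (f i) ∧ nr (f i) ≤ Y i ∧ qf D.toRD0 (f i) = 0
      · rw [if_pos ⟨h3, h4⟩, if_pos h3, if_pos h4, one_mul]
      · rw [if_neg (fun h => h4 h.2), if_pos h3, if_neg h4, zero_mul, Complex.ofReal_zero]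
    · rw [if_neg (fun h => h3 h.1), if_neg h3, Complex.ofReal_zero]
  rw [h2, h1]
  refine Finset.sum_congr rfl fun g hg => ?_
  rw [Fintype.mem_piFinset] at hg
  unfold alowBW
  by_cases h3 : Dj g
  · have e1 : ∀ i, nr (un c g i) = bn c.blk i g := un_nr c g h3
    have e2 : ∀ i, qf D.toRD0 (un c g i) =
      ∑ θ : {θ : Fin m → ZMod p // θ ∈ c.Θ i}, qf D.toRD0 (g ⟨i, θ⟩) := un_qf D.toRD0 c g h3
    by_cases h4 : (∀ i, Y i / 2 < bn c.blk i g ∧ bn c.blk i g ≤ Y i) ∧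
        ∀ i, ∑ θ : {θ : Fin m → ZMod p // θ ∈ c.Θ i}, qf D.toRD0 (g ⟨i, θ⟩) = 0
    · have h5 : ∀ i, un c g i ∈ GF D.toRD0 X :=
        alowB_un_GF D.toRD0 c hY g hg h3 fun i => (h4.1 i).2
      have h6 : ∀ i, Y i / 2 < nr (un c g i) ∧ nr (un c g i) ≤ Y i ∧
          qf D.toRD0 (un c g i) = 0 := by
        intro i
        rw [e1, e2]
        exact ⟨(h4.1 i).1, (h4.1 i).2, h4.2 i⟩
      rw [if_pos ⟨h3, h5⟩, if_pos h6, if_pos ⟨h3, h4⟩, one_mul]
    · have h6 : ¬ ∀ i, Y i / 2 < nr (un c g i) ∧ nr (un c g i) ≤ Y i ∧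
          qf D.toRD0 (un c g i) = 0 := by
        intro h
        apply h4
        refine ⟨fun i => ?_, fun i => ?_⟩
        · rw [← e1]
          exact ⟨(h i).1, (h i).2.1⟩
        · rw [← e2]
          exact (h i).2.2
      rw [if_neg h6, zero_mul, ite_self, if_neg (fun h => h4 h.2)]
  · rw [if_neg (fun h => h3 h.1), if_neg (fun h => h3 h.1)]

theorem alowB_BT [NeZero p] (D : RD0 K p ζ) (c : CD p m N) (X : ℝ) (Y : Fin N → ℝ)
    (Lg : Finset c.J) (z : ℝ) (s : c.J → Finset (Pl K)) :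
    ∑ g ∈ Fintype.piFinset (fun a => if a ∈ Lg then GF D X else {s a}),
      (if ∀ a ∈ Lg, z < nr (g a) then alowBW D c Y g else 0) = BT D c X Y Lg z s := by
  unfold BT
  refine Finset.sum_congr rfl fun g _ => ?_
  unfold alowBW BC
  by_cases h1 : ∀ a ∈ Lg, z < nr (g a)
  · rw [if_pos h1]
    by_cases h2 : Dj g ∧ (∀ i, Y i / 2 < bn c.blk i g ∧ bn c.blk i g ≤ Y i) ∧
        ∀ i, ∑ θ : {θ : Fin m → ZMod p // θ ∈ c.Θ i}, qf D (g ⟨i, θ⟩) = 0
    · rw [if_pos h2, if_pos ⟨h2.1, h1, h2.2.1, h2.2.2⟩]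
    · rw [if_neg h2, if_neg (fun h => h2 ⟨h.1, h.2.2.1, h.2.2.2⟩)]
  · rw [if_neg h1, if_neg (fun h => h1 h.2.1)]

/-! ### the main block -/

theorem alowB_nr0 : nr (∅ : Finset (Pl K)) = 1 := by
  unfold nr
  rw [Finset.prod_empty]

/-- the zero element of a class -/
def alowBz (c : CD p m N) (i : Fin N) : c.J := ⟨i, ⟨0, (c.Θ i).zero_mem⟩⟩

/-- the family attached to `f` -/
def alowBg (c : CD p m N) (f : Fin N → Finset (Pl K)) (a : c.J) : Finset (Pl K) :=
  if c.pd.θ a = 0 then f (c.blk a) else ∅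

theorem alowB_z (c : CD p m N) (a : c.J) (ha : c.pd.θ a = 0) : a = alowBz c (c.blk a) :=
  acmb_ext c rfl ha

theorem alowB_gz (c : CD p m N) (f : Fin N → Finset (Pl K)) (i : Fin N) :
    alowBg c f (alowBz c i) = f i := by
  unfold alowBg
  rw [if_pos]
  · rfl
  · rfl

theorem alowB_bn [NeZero p] (c : CD p m N) (f : Fin N → Finset (Pl K)) (i : Fin N) :
    bn c.blk i (alowBg c f) = nr (f i) := by
  unfold bn
  rw [Finset.prod_eq_single (alowBz c i)]
  · rw [alowB_gz]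
  · intro a ha hne
    rw [Finset.mem_filter] at ha
    have h1 : c.pd.θ a ≠ 0 := by
      intro h
      apply hne
      rw [alowB_z c a h, ha.2]
    unfold alowBg
    rw [if_neg h1, alowB_nr0]
  · intro h
    have h2 : alowBz c i ∈ Finset.univ.filter (fun a => c.blk a = i) :=
      Finset.mem_filter.2 ⟨Finset.mem_univ _, rfl⟩
    exact absurd h2 h

theorem alowB_qf [NeZero p] (D : RD0 K p ζ) (c : CD p m N) (f : Fin N → Finset (Pl K))
    (i : Fin N) :
    ∑ θ : {θ : Fin m → ZMod p // θ ∈ c.Θ i}, qf D (alowBg c f ⟨i, θ⟩) = qf D (f i) := by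
  rw [Finset.sum_eq_single (⟨0, (c.Θ i).zero_mem⟩ : {θ : Fin m → ZMod p // θ ∈ c.Θ i})]
  · exact congrArg (qf D) (alowB_gz c f i)
  · intro θ _ hne
    have h1 : c.pd.θ (⟨i, θ⟩ : c.J) ≠ 0 := by
      intro h
      exact hne (Subtype.ext h)
    unfold alowBg
    rw [if_neg h1]
    unfold qf
    rw [Finset.sum_empty]
  · intro h
    exact absurd (Finset.mem_univ _) h

theorem alowB_Dj (c : CD p m N) (f : Fin N → Finset (Pl K))
    (hf : ∀ a a', a ≠ a' → Disjoint (f a) (f a')) : Dj (alowBg c f) := by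
  intro a a' hne
  unfold alowBg
  by_cases h1 : c.pd.θ a = 0
  · by_cases h2 : c.pd.θ a' = 0
    · rw [if_pos h1, if_pos h2]
      apply hf
      intro h3
      apply hne
      rw [alowB_z c a h1, alowB_z c a' h2, h3]
    · rw [if_neg h2]
      exact Finset.disjoint_empty_right _
  · rw [if_neg h1]
    exact Finset.disjoint_empty_left _

theorem alowB_special [NeZero p] (D : RD0 K p ζ) (c : CD p m N) (X : ℝ) (Y : Fin N → ℝ)
    (z : ℝ) (hz : ∀ i, z ≤ Y i / 2) (Lg : Finset c.J)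
    (hLg : Lg = Finset.univ.filter fun a => c.pd.θ a = 0) :
    ((Fintype.piFinset fun _ : Fin N => GF D X).filter fun f => Bx D Y f).card ≤
      ((Fintype.piFinset (fun a => if a ∈ Lg then GF D X else {(∅ : Finset (Pl K))})).filter
        (fun g => BC D c Y Lg z g)).card := by
  apply Finset.card_le_card_of_injOn (alowBg c)
  · intro f hf
    rw [Finset.mem_coe, Finset.mem_filter, Fintype.mem_piFinset] at hf
    obtain ⟨h1, h2, h3⟩ := hf
    rw [Finset.mem_coe, Finset.mem_filter, Fintype.mem_piFinset]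
    refine ⟨fun a => ?_, alowB_Dj c f h2, fun a ha => ?_, fun i => ?_, fun i => ?_⟩
    · by_cases ha : c.pd.θ a = 0
      · have h4 : a ∈ Lg := by rw [hLg, Finset.mem_filter]; exact ⟨Finset.mem_univ _, ha⟩
        rw [if_pos h4]
        unfold alowBg
        rw [if_pos ha]
        exact h1 _
      · have h4 : a ∉ Lg := by rw [hLg, Finset.mem_filter]; exact fun h => ha h.2
        rw [if_neg h4]
        unfold alowBg
        rw [if_neg ha]
        exact Finset.mem_singleton_self _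
    · rw [hLg, Finset.mem_filter] at ha
      unfold alowBg
      rw [if_pos ha.2]
      exact lt_of_le_of_lt (hz _) (h3 _).1
    · rw [alowB_bn]
      exact ⟨(h3 i).1, (h3 i).2.1⟩
    · rw [alowB_qf]
      exact (h3 i).2.2
  · intro f _ f' _ hff
    funext i
    have := congrFun hff (alowBz c i)
    rwa [alowB_gz, alowB_gz] at this

/-- the main block is at least the number of the families in the box -/
theorem alowB_main [NeZero p] (hp : p.Prime) (hp2 : MOne p K) (hζ : IsPrimitiveRoot ζ p)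
    (D : RD K p ζ) (c : CD p m N) (X : ℝ) (Y : Fin N → ℝ)
    (z : ℝ) (hz : ∀ i, z ≤ Y i / 2) :
    (((Fintype.piFinset fun _ : Fin N => GF D.toRD0 X).filter fun f =>
        Bx D.toRD0 Y f).card : ℝ) ≤
      (BT D.toRD0 c X Y (Finset.univ.filter fun a => c.pd.θ a = 0) z (fun _ => ∅)).re := by
  have h1 := alowB_special D.toRD0 c X Y z hz _ rfl
  have h0 : ∀ a ∈ (Finset.univ.filter fun a : c.J => c.pd.θ a = 0), c.pd.θ a = 0 := by
    intro a ha
    rw [Finset.mem_filter] at ha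
    exact ha.2
  have hdt : ∀ x : Fin m → ZMod p, dt 0 x = 0 := by
    intro x
    unfold dt
    simp
  have h2 := bt_phase hp hp2 hζ D c X Y (Finset.univ.filter fun a => c.pd.θ a = 0) z
    (fun _ => ∅) (fun l _ v hv => absurd hv (Finset.notMem_empty v))
    (fun a ha a' ha' => by
      unfold PD.lk
      rw [h0 a ha, h0 a' ha', hdt, hdt, add_zero])
    (fun a _ l _ h => absurd rfl h)
    (fun i => ⟨alowBz c i, Finset.mem_filter.2 ⟨Finset.mem_univ _, rfl⟩, rfl⟩)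
  rw [h2, Complex.natCast_re]
  exact_mod_cast h1

/-! ### the lower bound of the other blocks -/

theorem alowB_lb [NeZero p] (hp : p.Prime) (hp2 : MOne p K) (hζ : IsPrimitiveRoot ζ p)
    (D : RD K p ζ) (c : CD p m N) (X : ℝ) (Y : Fin N → ℝ) (Lg : Finset c.J) (z₁ z₂ : ℝ)
    (s : c.J → Finset (Pl K)) (hz1 : 1 ≤ z₁)
    (hs : ∀ l, l ∉ Lg → (∀ v ∈ s l, D.Gd v) ∧ nr (s l) ≤ z₁)
    (hY : ∀ i, z₁ ^ Fintype.card c.J ≤ Y i / 2) (E : ℝ) (hE : 0 ≤ E)
    (hsm : ((∃ a ∈ Lg, ∃ a' ∈ Lg, c.pd.lk a a' ≠ 0) ∨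
      (∃ a ∈ Lg, ∃ l, l ∉ Lg ∧ s l ≠ ∅ ∧ c.pd.lk a l ≠ 0)) →
      ‖BT D.toRD0 c X Y Lg z₂ s‖ ≤ E) :
    -E ≤ (BT D.toRD0 c X Y Lg z₂ s).re := by
  by_cases h1 : ∀ i, ∃ a ∈ Lg, c.blk a = i
  · by_cases h2 : (∃ a ∈ Lg, ∃ a' ∈ Lg, c.pd.lk a a' ≠ 0) ∨
      (∃ a ∈ Lg, ∃ l, l ∉ Lg ∧ s l ≠ ∅ ∧ c.pd.lk a l ≠ 0)
    · have h3 := hsm h2
      have h4 := Complex.abs_re_le_norm (BT D.toRD0 c X Y Lg z₂ s)
      have h5 := (abs_le.1 (h4.trans h3)).1
      exact h5
    · push Not at h2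
      rw [bt_phase hp hp2 hζ D c X Y Lg z₂ s (fun l hl => (hs l hl).1) h2.1
        (fun a ha l hl hne => h2.2 a ha l hl (Finset.nonempty_iff_ne_empty.2 hne)) h1,
        Complex.natCast_re]
      have : (0 : ℝ) ≤ (((Fintype.piFinset (fun a => if a ∈ Lg then GF D.toRD0 X
        else {s a})).filter (fun g => BC D.toRD0 c Y Lg z₂ g)).card : ℝ) := Nat.cast_nonneg _
      linarith
  · push Not at h1
    obtain ⟨i, hi⟩ := h1
    rw [bt_empty D.toRD0 c X Y Lg z₂ s i hi ?_, Complex.zero_re]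
    · linarith
    · refine le_trans ?_ (hY i)
      have h2 : ∀ a ∈ Finset.univ.filter (fun a : c.J => c.blk a = i), nr (s a) ≤ z₁ := by
        intro a ha
        rw [Finset.mem_filter] at ha
        exact (hs a fun h => hi a h ha.2).2
      calc ∏ a ∈ Finset.univ.filter (fun a : c.J => c.blk a = i), nr (s a)
          ≤ ∏ _a ∈ Finset.univ.filter (fun a : c.J => c.blk a = i), z₁ :=
            Finset.prod_le_prod (fun a _ => zero_le_one.trans (one_le_nr _)) h2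
        _ = z₁ ^ (Finset.univ.filter (fun a : c.J => c.blk a = i)).card := by
            rw [Finset.prod_const]
        _ ≤ z₁ ^ Fintype.card c.J := pow_le_pow_right₀ hz1 (Finset.card_le_univ _)

theorem alow [NeZero p] (hp : p.Prime) (hp2 : MOne p K) (hζ : IsPrimitiveRoot ζ p) (D : RD K p ζ)
    (c : CD p m N) (δ₀ : ℝ) (hδ₀ : 0 < δ₀) :
    ∃ X₀ : ℝ, 3 ≤ X₀ ∧ ∀ X : ℝ, X₀ ≤ X → ∀ Y : Fin N → ℝ, (∀ i, X ^ δ₀ ≤ Y i ∧ Y i ≤ X) →
      (((Fintype.piFinset fun _ : Fin N => GF D.toRD0 X).filter fun f =>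
        Bx D.toRD0 Y f).card : ℝ) - (∏ i, Y i) / Real.log X ≤
      ∑ f ∈ Fintype.piFinset (fun _ : Fin N => GF D.toRD0 X),
        if Bx D.toRD0 Y f then
          wt c f (fun v k => D.LL v (ak D.toRD0 c (fun _ => 1) f k)) else 0 := by
  obtain ⟨B₁, X₁, hX₁, hsmall⟩ := bt_small hp hζ D c 2 (by norm_num)
  obtain ⟨C, hC, hsmf⟩ := smf_sum K (J := c.J) (af_inv K)
  obtain ⟨B, hB⟩ : ∃ B : ℕ, B = max 2 B₁ := ⟨_, rfl⟩
  have hB2 : 2 ≤ B := by rw [hB]; exact le_max_left _ _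
  have hBB : B₁ ≤ B := by rw [hB]; exact le_max_right _ _
  obtain ⟨n, hn⟩ : ∃ n : ℕ, n = Fintype.card c.J := ⟨_, rfl⟩
  obtain ⟨L, hL⟩ : ∃ L : ℕ, L = B * B ^ (n + 1) := ⟨_, rfl⟩
  obtain ⟨P, hP⟩ : ∃ P : ℕ, P = L * (n + 1) := ⟨_, rfl⟩
  have hev := ((alowB_ev1 P δ₀ hδ₀).and (alowB_ev1 P 1 one_pos)).and
    (alowB_ev2 (((n : ℝ) + 1) * 2 ^ n * 2 ^ N * C) L (by positivity) (Nat.cast_nonneg _) n)
  obtain ⟨X₂, hX₂⟩ := Filter.eventually_atTop.1 hev
  refine ⟨max X₁ (max X₂ (Real.exp 1)), hX₁.trans (le_max_left _ _), fun X hX Y hY => ?_⟩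
  have hXX₁ : X₁ ≤ X := (le_max_left _ _).trans hX
  obtain ⟨⟨hev1, hev2⟩, hev3⟩ := hX₂ X ((le_max_left _ _).trans ((le_max_right _ _).trans hX))
  have hXe : Real.exp 1 ≤ X := (le_max_right _ _).trans ((le_max_right _ _).trans hX)
  have hX0 : 0 < X := lt_of_lt_of_le (Real.exp_pos 1) hXe
  have hlog1 : 1 ≤ Real.log X := by
    have := Real.log_le_log (Real.exp_pos 1) hXe
    rwa [Real.log_exp] at this
  have hlog0 : 0 < Real.log X := by linarith
  have hll : 0 ≤ Real.log (Real.log X) := Real.log_nonneg hlog1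
  -- the thresholds
  obtain ⟨z, hz⟩ : ∃ z : ℕ → ℝ, z = fun j => Real.log X ^ (B * B ^ j) := ⟨_, rfl⟩
  have hz1 : ∀ j, 1 ≤ z j := fun j => by rw [hz]; exact one_le_pow₀ hlog1
  have hexp : ∀ i j, i ≤ j → B * B ^ i ≤ B * B ^ j := fun i j hij =>
    Nat.mul_le_mul_left _ (Nat.pow_le_pow_right (by omega) hij)
  have hzmono : Monotone z := by
    intro i j hij
    rw [hz]
    exact pow_le_pow_right₀ hlog1 (hexp i j hij)
  have hzP : ∀ j, j ≤ n + 1 → z j ≤ Real.log X ^ P := by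
    intro j hj
    rw [hz]
    apply pow_le_pow_right₀ hlog1
    rw [hP, hL]
    calc B * B ^ j ≤ B * B ^ (n + 1) := hexp j (n + 1) hj
      _ = B * B ^ (n + 1) * 1 := (mul_one _).symm
      _ ≤ B * B ^ (n + 1) * (n + 1) := Nat.mul_le_mul_left _ (by omega)
  have hzn : ∀ j, j ≤ n + 1 → z j ^ n ≤ Real.log X ^ P := by
    intro j hj
    rw [hz]
    show (Real.log X ^ (B * B ^ j)) ^ n ≤ Real.log X ^ P
    rw [← pow_mul]
    apply pow_le_pow_right₀ hlog1
    rw [hP, hL]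
    exact Nat.mul_le_mul (hexp j (n + 1) hj) (by omega)
  have hYpos : ∀ i, 0 < Y i := fun i => lt_of_lt_of_le (Real.rpow_pos_of_pos hX0 _) (hY i).1
  have hYP : ∀ i, Real.log X ^ P ≤ Y i / 2 := fun i => by
    have := (hY i).1
    linarith
  have hzX : ∀ j, j ≤ Fintype.card c.J → z j ≤ X := by
    intro j hj
    have h1 := hzP j (by omega)
    rw [Real.rpow_one] at hev2
    linarith
  have hlogz : ∀ j, j ≤ n → Real.log (z j) ≤ L * Real.log (Real.log X) := by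
    intro j hj
    rw [hz]
    show Real.log (Real.log X ^ (B * B ^ j)) ≤ _
    rw [Real.log_pow]
    apply mul_le_mul_of_nonneg_right _ hll
    have h1 := hexp j (n + 1) (by omega)
    rw [← hL] at h1
    exact_mod_cast h1
  -- the expansion
  have hX' : ∀ i, Y i ≤ X := fun i => (hY i).2
  have hmain := alowB_exp hp hζ D c X Y hX'
  rw [athr D.toRD0 z hzmono X hzX] at hmain
  simp only [alowB_BT] at hmain
  have hre := congrArg Complex.re hmain
  rw [Complex.ofReal_re] at hre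
  simp only [Complex.re_sum] at hre
  rw [hre, ← hn]
  -- the error terms
  obtain ⟨F, hF⟩ : ∃ F : ℝ, F = 2 ^ N * (∏ i, Y i) * Real.log X ^ (-(2 : ℝ)) := ⟨_, rfl⟩
  have hprod : 0 < ∏ i, Y i := Finset.prod_pos fun i _ => hYpos i
  have hF0 : 0 ≤ F := by
    rw [hF]
    have := Real.rpow_nonneg hlog0.le (-(2 : ℝ))
    positivity
  have hsn : ∀ (Lg : Finset c.J) (s : c.J → Finset (Pl K)), 0 < sn Lg s := by
    intro Lg s
    exact Finset.prod_pos fun a _ => lt_of_lt_of_le one_pos (one_le_nr _)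
  have hlb : ∀ j, j ≤ n → ∀ (Lg : Finset c.J), ∀ s ∈ SmF D.toRD0 z j Lg,
      0 ≤ (BT D.toRD0 c X Y Lg (z (j + 1)) s).re + F * (sn Lg s)⁻¹ := by
    intro j hj Lg s hs
    unfold SmF at hs
    rw [Finset.mem_filter, Fintype.mem_piFinset] at hs
    have h1 : ∀ l, l ∉ Lg → (∀ v ∈ s l, D.Gd v) ∧ nr (s l) ≤ z j := by
      intro l hl
      have h2 := hs.1 l
      rw [if_neg hl, akb_mem_GF] at h2
      exact ⟨h2.2, h2.1⟩
    have h3 := alowB_lb hp hp2 hζ D c X Y Lg (z j) (z (j + 1)) s (hz1 j) h1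
      (fun i => by rw [← hn]; exact (hzn j (by omega)).trans (hYP i)) (F * (sn Lg s)⁻¹)
      (mul_nonneg hF0 (inv_nonneg.2 (hsn Lg s).le)) (fun h => by
        have e1 : z j ^ B₁ ≤ z (j + 1) := by
          rw [hz]
          show (Real.log X ^ (B * B ^ j)) ^ B₁ ≤ Real.log X ^ (B * B ^ (j + 1))
          rw [← pow_mul]
          apply pow_le_pow_right₀ hlog1
          calc B * B ^ j * B₁ ≤ B * B ^ j * B := Nat.mul_le_mul_left _ hBB
            _ = B * B ^ (j + 1) := by ring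
        have e2 : Real.log X ^ B₁ ≤ z (j + 1) := by
          rw [hz]
          apply pow_le_pow_right₀ hlog1
          calc B₁ ≤ B * 1 := by omega
            _ ≤ B * B ^ (j + 1) := Nat.mul_le_mul_left _ (Nat.one_le_pow _ _ (by omega))
        have e3 := hsmall X (z j) (z (j + 1)) hXX₁ (hz1 j) e1 e2 Y
          (fun i => ⟨hYpos i, (hY i).2⟩) Lg s h1 h
        refine e3.trans (le_of_eq ?_)
        rw [hF]
        ring)
    linarith
  have hsumE : ∀ j, j ≤ n → ∀ (Lg : Finset c.J),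
      ∑ s ∈ SmF D.toRD0 z j Lg, F * (sn Lg s)⁻¹ ≤
        F * (C * (1 + L * Real.log (Real.log X)) ^ n) := by
    intro j hj Lg
    rw [← Finset.mul_sum]
    apply mul_le_mul_of_nonneg_left _ hF0
    have h1 := hsmf p ζ D.toRD0 z j Lg (hz1 j)
    refine h1.trans ?_
    rw [← hn]
    apply mul_le_mul_of_nonneg_left _ hC.le
    apply pow_le_pow_left₀
    · have := Real.log_nonneg (hz1 j)
      linarith
    · have := hlogz j hj
      linarith
  have hcardL : (Finset.univ : Finset (Finset c.J)).card = 2 ^ n := by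
    rw [Finset.card_univ, Fintype.card_finset, ← hn]
  have htotE : ∑ j ∈ Finset.range (n + 1), ∑ Lg : Finset c.J,
      ∑ s ∈ SmF D.toRD0 z j Lg, F * (sn Lg s)⁻¹ ≤ (∏ i, Y i) / Real.log X := by
    have h1 : ∀ j ∈ Finset.range (n + 1), ∑ Lg : Finset c.J,
        ∑ s ∈ SmF D.toRD0 z j Lg, F * (sn Lg s)⁻¹ ≤
          (2 : ℝ) ^ n * (F * (C * (1 + L * Real.log (Real.log X)) ^ n)) := by
      intro j hj
      rw [Finset.mem_range] at hj
      have h2 := Finset.sum_le_sum fun (Lg : Finset c.J) (_ : Lg ∈ Finset.univ) =>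
        hsumE j (by omega) Lg
      refine h2.trans (le_of_eq ?_)
      rw [Finset.sum_const, hcardL, nsmul_eq_mul]
      push_cast
      ring
    have h3 := Finset.sum_le_sum h1
    refine h3.trans ?_
    rw [Finset.sum_const, Finset.card_range, nsmul_eq_mul, hF]
    have e1 : Real.log X ^ (-(2 : ℝ)) = (Real.log X ^ 2)⁻¹ := by
      rw [Real.rpow_neg hlog0.le]
      norm_num
    rw [e1]
    have e2 : ((n + 1 : ℕ) : ℝ) * ((2 : ℝ) ^ n * (2 ^ N * (∏ i, Y i) * (Real.log X ^ 2)⁻¹ *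
        (C * (1 + L * Real.log (Real.log X)) ^ n))) =
        ((((n : ℝ) + 1) * 2 ^ n * 2 ^ N * C) * (1 + L * Real.log (Real.log X)) ^ n) *
          ((∏ i, Y i) * (Real.log X ^ 2)⁻¹) := by
      push_cast
      ring
    rw [e2]
    calc ((((n : ℝ) + 1) * 2 ^ n * 2 ^ N * C) * (1 + L * Real.log (Real.log X)) ^ n) *
          ((∏ i, Y i) * (Real.log X ^ 2)⁻¹)
        ≤ Real.log X * ((∏ i, Y i) * (Real.log X ^ 2)⁻¹) :=
          mul_le_mul_of_nonneg_right hev3 (by positivity)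
      _ = (∏ i, Y i) / Real.log X := by field_simp
  -- the main term
  have hterm0 : ∀ (j : ℕ), j ≤ n → ∀ (Lg : Finset c.J), ∀ s ∈ SmF D.toRD0 z j Lg,
      0 ≤ (BT D.toRD0 c X Y Lg (z (j + 1)) s).re + F * (sn Lg s)⁻¹ := hlb
  have hbig : (((Fintype.piFinset fun _ : Fin N => GF D.toRD0 X).filter fun f =>
        Bx D.toRD0 Y f).card : ℝ) ≤
      ∑ j ∈ Finset.range (n + 1), ∑ Lg : Finset c.J, ∑ s ∈ SmF D.toRD0 z j Lg,
        ((BT D.toRD0 c X Y Lg (z (j + 1)) s).re + F * (sn Lg s)⁻¹) := by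
    have hmem : (fun _ => ∅ : c.J → Finset (Pl K)) ∈
        SmF D.toRD0 z 0 (Finset.univ.filter fun a : c.J => c.pd.θ a = 0) := by
      unfold SmF
      rw [Finset.mem_filter, Fintype.mem_piFinset]
      refine ⟨fun a => ?_, fun j' hj' => absurd hj' (Nat.not_lt_zero _)⟩
      split_ifs
      · exact Finset.mem_singleton_self _
      · rw [akb_mem_GF, alowB_nr0]
        exact ⟨hz1 0, fun v hv => absurd hv (Finset.notMem_empty v)⟩
    have h1 := alowB_main hp hp2 hζ D c X Y (z (0 + 1))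
      (fun i => (hzP (0 + 1) (by omega)).trans (hYP i))
    have h2 : 0 ≤ F * (sn (Finset.univ.filter fun a : c.J => c.pd.θ a = 0)
        (fun _ => (∅ : Finset (Pl K))))⁻¹ := mul_nonneg hF0 (inv_nonneg.2 (hsn _ _).le)
    have h3 : (((Fintype.piFinset fun _ : Fin N => GF D.toRD0 X).filter fun f =>
        Bx D.toRD0 Y f).card : ℝ) ≤
        (BT D.toRD0 c X Y (Finset.univ.filter fun a : c.J => c.pd.θ a = 0) (z (0 + 1))
          (fun _ => ∅)).re + F * (sn (Finset.univ.filter fun a : c.J => c.pd.θ a = 0)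
            (fun _ => (∅ : Finset (Pl K))))⁻¹ := by linarith
    refine h3.trans ?_
    have h4 := Finset.single_le_sum
      (f := fun s => (BT D.toRD0 c X Y (Finset.univ.filter fun a : c.J => c.pd.θ a = 0)
        (z (0 + 1)) s).re + F * (sn (Finset.univ.filter fun a : c.J => c.pd.θ a = 0) s)⁻¹)
      (fun s hs => hterm0 0 (Nat.zero_le _) _ s hs) hmem
    refine h4.trans ?_
    have h5 := Finset.single_le_sum
      (f := fun Lg : Finset c.J => ∑ s ∈ SmF D.toRD0 z 0 Lg,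
        ((BT D.toRD0 c X Y Lg (z (0 + 1)) s).re + F * (sn Lg s)⁻¹))
      (fun Lg _ => Finset.sum_nonneg fun s hs => hterm0 0 (Nat.zero_le _) Lg s hs)
      (Finset.mem_univ (Finset.univ.filter fun a : c.J => c.pd.θ a = 0))
    refine h5.trans ?_
    exact Finset.single_le_sum
      (f := fun j => ∑ Lg : Finset c.J, ∑ s ∈ SmF D.toRD0 z j Lg,
        ((BT D.toRD0 c X Y Lg (z (j + 1)) s).re + F * (sn Lg s)⁻¹))
      (fun j hj => Finset.sum_nonneg fun Lg _ => Finset.sum_nonneg fun s hs =>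
        hterm0 j (by rw [Finset.mem_range] at hj; omega) Lg s hs)
      (Finset.mem_range.2 (Nat.succ_pos n))
  simp only [Finset.sum_add_distrib] at hbig
  linarith

end H63.MA
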