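import Pool.Agent.H63.MA.ADef
import Pool.Agent.H63.MA.PZb

/-!
# MA-ASQ: character sums over good squarefree ideals prime to a finite set

There are `C, A, δ` (depending on `K` and `S0`) such that for every nontrivial ray class character `χ` of modulus `𝔣`, every
finite set of primes `F` and `y ≥ 1`: `|∑_{n ∈ GF y, n ∩ F = ∅} χ(idl n)| ≤ C (N 𝔣)^A 2^{#F} y^{1-δ}`.

Proof. Let `u(I) = 1` if `I` is squarefree with all prime factors good and outside `F`, `0` otherwise; the sum is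
`∑_{N I ≤ y} u(I) χ(I)`. Define the multiplicative function `g` on ideals by `g(v^k) = u(v^k) - u(v^{k-1})`: for `v` good, `v ∉ F`:
`g(v) = 0`, `g(v²) = -1`, `g(v^k) = 0` for `k ≥ 3`; for the other `v`: `g(v) = -1`, `g(v^k) = 0` for `k ≥ 2`. So `u = g * 1` (Dirichlet
convolution), i.e. `u(I) = ∑_{J ∣ I} g(J)`, with `|g| ≤ 1` and `g(J) ≠ 0` only if `J = J₁ J₂²` with `J₁` a squarefree product of primes
in `F ∪ S0` or of non prime norm, and `J₂` squarefree. Hence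
`∑_{N I ≤ y} u(I) χ(I) = ∑_J g(J) χ(J) ∑_{N I' ≤ y / N J} χ(I')`, at most `C (N 𝔣)^A ∑_J |g(J)| (y / N J)^{1-δ}` by `pv` (terms with
`N J ≤ y`), where one may assume `δ < 1/4`. `∑_J |g(J)| (N J)^{-(1-δ)} ≤ ∏_{v ∈ F ∪ S0} 2 * ∏_{deg ≥ 2} (1 + (nm v)^{-3/4}) * ∏_v (1 + (nm v)^{-3/2})`,
i.e. `≤ C 2^{#F}`: the sums `∑ (nm v)^{-3/4}` over the primes of non prime norm (`deg_summable`) and `∑_v (nm v)^{-3/2}` (`pz_summable`) are
finite; to avoid infinite products bound the sum over pairs `(J₁, J₂)` by (sum over subsets of `F ∪ S0`) × (sum over finite sets of primes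
of non prime norm, `≤ exp(∑ (nm v)^{-3/4})`) × (`∑_{J₂} (N J₂)^{-3/2} < ∞`, `ideal_summable`). No multiplicativity of `g` is needed
if one writes directly `u(I) = ∑_{(A, E, J₂)} (-1)^{...}` (Moebius inversion for the three conditions: no prime of `F ∪ S0` divides `I`,
no prime of non prime norm divides `I`, `I` is squarefree: `∑_{J₂² ∣ I} μ(J₂)`).
-/

set_option autoImplicit false

open scoped NumberField
open IsDedekindDomain
open scoped Classical

noncomputable section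

namespace H63.MA

section aux

variable {K : Type} [Field K] [NumberField K]

theorem asq_eq {v w : Pl K} (h : v.asIdeal ∣ w.asIdeal) : v = w := by
  rw [Ideal.dvd_iff_le] at h
  exact (HeightOneSpectrum.ext (w.isMaximal.eq_of_le v.isPrime.ne_top h)).symm

theorem asq_mem {v : Pl K} {n : Finset (Pl K)} : v.asIdeal ∣ idl n ↔ v ∈ n := by
  constructor
  · intro h
    obtain ⟨w, hw, hvw⟩ := v.prime.exists_mem_finset_dvd h
    rwa [asq_eq hvw]
  · intro h
    exact Finset.dvd_prod_of_mem (fun v : Pl K => v.asIdeal) h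

theorem asq_cop {v w : Pl K} (h : v ≠ w) (a b : ℕ) :
    IsCoprime (v.asIdeal ^ a) (w.asIdeal ^ b) := by
  apply IsCoprime.pow
  rw [Ideal.isCoprime_iff_sup_eq]
  exact Ideal.IsMaximal.coprime_of_ne v.isMaximal w.isMaximal
    (fun h' => h (HeightOneSpectrum.ext h'))

theorem asq_dvd (e : Pl K → ℕ) (T : Finset (Pl K)) (I : Ideal (𝓞 K)) :
    (∏ v ∈ T, v.asIdeal ^ e v) ∣ I ↔ ∀ v ∈ T, v.asIdeal ^ e v ∣ I := by
  constructor
  · intro h v hv
    exact (Finset.dvd_prod_of_mem (fun v : Pl K => v.asIdeal ^ e v) hv).trans h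
  · intro h
    exact Finset.prod_dvd_of_coprime (fun v _ w _ hvw => asq_cop hvw _ _) h

theorem asq_fin (I : Ideal (𝓞 K)) (hI : I ≠ ⊥) : {v : Pl K | v.asIdeal ∣ I}.Finite :=
  Ideal.finite_factors (by rwa [Ne, Ideal.zero_eq_bot])

theorem asq_moeb (e : Pl K → ℕ) (he : ∀ v, 1 ≤ e v) (I : Ideal (𝓞 K)) (hI : I ≠ ⊥)
    (T0 : Finset (Finset (Pl K))) (hT0 : ∀ T, (∏ v ∈ T, v.asIdeal ^ e v) ∣ I → T ∈ T0) :
    ∑ T ∈ T0.filter (fun T => (∏ v ∈ T, v.asIdeal ^ e v) ∣ I), (-1 : ℂ) ^ T.card =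
      if (∀ v : Pl K, ¬ v.asIdeal ^ e v ∣ I) then 1 else 0 := by
  obtain ⟨V, hV⟩ : ∃ V : Finset (Pl K), V = (asq_fin I hI).toFinset.filter
    fun v => v.asIdeal ^ e v ∣ I := ⟨_, rfl⟩
  have hmem : ∀ v, v ∈ V ↔ v.asIdeal ^ e v ∣ I := by
    intro v
    rw [hV, Finset.mem_filter, Set.Finite.mem_toFinset, Set.mem_setOf_eq]
    refine ⟨fun h => h.2, fun h => ⟨?_, h⟩⟩
    exact (dvd_pow_self _ (by have := he v; omega)).trans h
  have h1 : T0.filter (fun T => (∏ v ∈ T, v.asIdeal ^ e v) ∣ I) = V.powerset := by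
    ext T
    rw [Finset.mem_filter, Finset.mem_powerset]
    constructor
    · rintro ⟨_, h⟩ v hv
      exact (hmem v).2 ((asq_dvd e T I).1 h v hv)
    · intro h
      have h2 := (asq_dvd e T I).2 fun v hv => (hmem v).1 (h hv)
      exact ⟨hT0 T h2, h2⟩
  rw [h1]
  have h2 := congrArg (Int.cast : ℤ → ℂ) (Finset.sum_powerset_neg_one_pow_card (x := V))
  push_cast at h2
  rw [h2]
  by_cases h3 : V = ∅
  · rw [if_pos h3, if_pos]
    intro v hv
    have := (hmem v).2 hv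
    rw [h3] at this
    exact absurd this (Finset.notMem_empty v)
  · rw [if_neg h3, if_neg]
    intro h4
    obtain ⟨v, hv⟩ := Finset.nonempty_iff_ne_empty.2 h3
    exact h4 v ((hmem v).1 hv)

/-- the exponents of the sieve -/
def asq_e {p : ℕ} {ζ : K} (D : RD0 K p ζ) (F : Finset (Pl K)) (v : Pl K) : ℕ :=
  if v ∈ F ∨ ¬ D.Gd v then 1 else 2

theorem asq_e_pos {p : ℕ} {ζ : K} (D : RD0 K p ζ) (F : Finset (Pl K)) (v : Pl K) :
    1 ≤ asq_e D F v := by
  unfold asq_e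
  split_ifs <;> norm_num

theorem asq_e_le {p : ℕ} {ζ : K} (D : RD0 K p ζ) (F : Finset (Pl K)) (v : Pl K) :
    asq_e D F v ≤ 2 := by
  unfold asq_e
  split_ifs <;> norm_num

theorem asq_sqf {v : Pl K} {n : Finset (Pl K)} : ¬ v.asIdeal ^ 2 ∣ idl n := by
  intro h
  have h1 : v ∈ n := asq_mem.1 ((dvd_pow_self _ two_ne_zero).trans h)
  have h2 : idl n = v.asIdeal * idl (n.erase v) := by
    unfold idl
    rw [Finset.mul_prod_erase n (fun v : Pl K => v.asIdeal) h1]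
  rw [h2, pow_two] at h
  have h3 : v.asIdeal ∣ idl (n.erase v) :=
    (mul_dvd_mul_iff_left (by rw [Ideal.zero_eq_bot]; exact v.ne_bot)).1 h
  exact Finset.notMem_erase v n (asq_mem.1 h3)

theorem asq_norm_pos {I : Ideal (𝓞 K)} (hI : I ≠ ⊥) : (1 : ℝ) ≤ (Ideal.absNorm I : ℝ) := by
  have h : Ideal.absNorm I ≠ 0 := by
    rw [Ne, Ideal.absNorm_eq_zero_iff]
    exact hI
  have h1 : 1 ≤ Ideal.absNorm I := by omega
  exact_mod_cast h1

theorem asq_bij {p : ℕ} {ζ : K} (D : RD0 K p ζ) (F : Finset (Pl K)) (y : ℝ) (hy : 1 ≤ y)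
    (f : Ideal (𝓞 K) → ℂ) :
    ∑ n ∈ (GF D y).filter (fun n => Disjoint n F), f (idl n) =
      ∑ I ∈ (IN K y).filter (fun I => ∀ v : Pl K, ¬ v.asIdeal ^ asq_e D F v ∣ I), f I := by
  have hy0 : (0 : ℝ) ≤ y := by linarith
  apply Finset.sum_bij (fun n _ => idl n)
  · intro n hn
    rw [Finset.mem_filter] at hn
    obtain ⟨hn, hnF⟩ := hn
    unfold GF at hn
    rw [Finset.mem_filter, mem_AF] at hn
    rw [Finset.mem_filter, mem_IN hy0, idl_norm]
    refine ⟨⟨hn.1, idl_ne n⟩, fun v hv => ?_⟩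
    have hvn : v ∈ n :=
      asq_mem.1 ((dvd_pow_self _ (by have := asq_e_pos D F v; omega)).trans hv)
    have h1 : asq_e D F v = 2 := by
      unfold asq_e
      rw [if_neg]
      rintro (h | h)
      · exact Finset.disjoint_left.1 hnF hvn h
      · exact h (hn.2 v hvn)
    rw [h1] at hv
    exact asq_sqf hv
  · intro n _ n' _ h
    exact idl_inj h
  · intro I hI
    rw [Finset.mem_filter, mem_IN hy0] at hI
    obtain ⟨⟨hIy, hI0⟩, hIv⟩ := hI
    obtain ⟨n, hn⟩ : ∃ n : Finset (Pl K), n = (asq_fin I hI0).toFinset := ⟨_, rfl⟩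
    have hmem : ∀ v, v ∈ n ↔ v.asIdeal ∣ I := by
      intro v
      rw [hn, Set.Finite.mem_toFinset, Set.mem_setOf_eq]
    have hsq : ∀ v : Pl K, ¬ v.asIdeal ^ 2 ∣ I := by
      intro v hv
      exact hIv v ((pow_dvd_pow _ (asq_e_le D F v)).trans hv)
    have hdvd : idl n ∣ I := by
      have := (asq_dvd (fun _ => 1) n I).2 fun v hv => by
        rw [pow_one]
        exact (hmem v).1 hv
      simp only [pow_one] at this
      exact this
    have heq : idl n = I := by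
      obtain ⟨J, hJ⟩ := hdvd
      by_cases hJ1 : J = ⊤
      · rw [hJ, hJ1, Ideal.mul_top]
      · exfalso
        obtain ⟨M, hM, hJM⟩ := Ideal.exists_le_maximal J hJ1
        have hJ0 : J ≠ ⊥ := by
          rintro rfl
          rw [Ideal.mul_bot] at hJ
          exact hI0 hJ
        have hM0 : M ≠ ⊥ := by
          rintro rfl
          exact hJ0 (le_bot_iff.1 hJM)
        obtain ⟨v, hv⟩ : ∃ v : Pl K, v = ⟨M, hM.isPrime, hM0⟩ := ⟨_, rfl⟩
        have hvJ : v.asIdeal ∣ J := by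
          rw [Ideal.dvd_iff_le, hv]
          exact hJM
        have hvI : v.asIdeal ∣ I := by
          rw [hJ]
          exact hvJ.mul_left _
        have hvn : v.asIdeal ∣ idl n := asq_mem.2 ((hmem v).2 hvI)
        apply hsq v
        rw [pow_two, hJ]
        exact mul_dvd_mul hvn hvJ
    refine ⟨n, ?_, heq⟩
    rw [Finset.mem_filter]
    unfold GF
    rw [Finset.mem_filter, mem_AF, ← idl_norm, heq]
    have hgood : ∀ v ∈ n, ¬ (v ∈ F ∨ ¬ D.Gd v) := by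
      intro v hv h
      apply hIv v
      unfold asq_e
      rw [if_pos h, pow_one]
      exact (hmem v).1 hv
    refine ⟨⟨hIy, fun v hv => ?_⟩, ?_⟩
    · by_contra h
      exact hgood v hv (Or.inr h)
    · rw [Finset.disjoint_left]
      intro v hv h
      exact hgood v hv (Or.inl h)
  · intro n _
    rfl

theorem asq_inner {𝔣 : Ideal (𝓞 K)} (χ : RC K 𝔣) (c : Ideal (𝓞 K)) (hc : c ≠ ⊥) (y : ℝ)
    (hy : 0 ≤ y) :
    ∑ I ∈ (IN K y).filter (fun I => c ∣ I), χ.χ I =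
      χ.χ c * ∑ J ∈ IN K (y / (Ideal.absNorm c : ℝ)), χ.χ J := by
  have hN := asq_norm_pos hc
  have hN0 : (0 : ℝ) < (Ideal.absNorm c : ℝ) := by linarith
  have hy' : 0 ≤ y / (Ideal.absNorm c : ℝ) := by positivity
  rw [Finset.mul_sum]
  symm
  apply Finset.sum_bij (fun J _ => c * J)
  · intro J hJ
    rw [mem_IN hy'] at hJ
    rw [Finset.mem_filter, mem_IN hy]
    refine ⟨⟨?_, ?_⟩, dvd_mul_right _ _⟩
    · rw [map_mul, Nat.cast_mul]
      have := (le_div_iff₀ hN0).1 hJ.1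
      linarith
    · rw [Ne, Ideal.mul_eq_bot, not_or]
      exact ⟨hc, hJ.2⟩
  · intro J _ J' _ h
    exact mul_left_cancel₀ (by rwa [Ne, Ideal.zero_eq_bot]) h
  · intro I hI
    rw [Finset.mem_filter, mem_IN hy] at hI
    obtain ⟨⟨h1, h2⟩, J, hJ⟩ := hI
    refine ⟨J, ?_, hJ.symm⟩
    rw [mem_IN hy']
    constructor
    · rw [le_div_iff₀ hN0]
      rw [hJ, map_mul, Nat.cast_mul] at h1
      linarith
    · rintro rfl
      rw [Ideal.mul_bot] at hJ
      exact h2 hJ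
  · intro J _
    rw [map_mul]

theorem asq_chi_le {𝔣 : Ideal (𝓞 K)} (χ : RC K 𝔣) (c : Ideal (𝓞 K)) (hc : c ≠ ⊥) :
    ‖χ.χ c‖ ≤ 1 := by
  by_cases h : IsCoprime c 𝔣
  · exact (χ.norm_one c hc h).le
  · rw [χ.zero_of c h, norm_zero]
    exact zero_le_one

/-- the bound of the inner sum -/
theorem asq_innerB {𝔣 : Ideal (𝓞 K)} (χ : RC K 𝔣) (B δ : ℝ) (hB : 0 ≤ B) (δ' : ℝ) (hδ : δ' ≤ δ)
    (h : ∀ y : ℝ, 1 ≤ y → ‖∑ I ∈ IN K y, χ.χ I‖ ≤ B * y ^ (1 - δ))
    (c : Ideal (𝓞 K)) (hc : c ≠ ⊥) (y : ℝ) (hy : 0 ≤ y) :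
    ‖∑ I ∈ (IN K y).filter (fun I => c ∣ I), χ.χ I‖ ≤
      B * (y / (Ideal.absNorm c : ℝ)) ^ (1 - δ') := by
  have hN := asq_norm_pos hc
  have hN0 : (0 : ℝ) < (Ideal.absNorm c : ℝ) := by linarith
  have hy' : 0 ≤ y / (Ideal.absNorm c : ℝ) := by positivity
  rw [asq_inner χ c hc y hy, norm_mul]
  have h1 : ‖∑ J ∈ IN K (y / (Ideal.absNorm c : ℝ)), χ.χ J‖ ≤
      B * (y / (Ideal.absNorm c : ℝ)) ^ (1 - δ') := by
    by_cases h2 : 1 ≤ y / (Ideal.absNorm c : ℝ)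
    · refine (h _ h2).trans (mul_le_mul_of_nonneg_left ?_ hB)
      exact Real.rpow_le_rpow_of_exponent_le h2 (by linarith)
    · have h3 : IN K (y / (Ideal.absNorm c : ℝ)) = ∅ := by
        rw [Finset.eq_empty_iff_forall_notMem]
        intro J hJ
        rw [mem_IN hy'] at hJ
        have := asq_norm_pos hJ.2
        exact h2 (this.trans hJ.1)
      rw [h3, Finset.sum_empty, norm_zero]
      exact mul_nonneg hB (Real.rpow_nonneg hy' _)
  calc ‖χ.χ c‖ * ‖∑ J ∈ IN K (y / (Ideal.absNorm c : ℝ)), χ.χ J‖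
      ≤ 1 * (B * (y / (Ideal.absNorm c : ℝ)) ^ (1 - δ')) :=
        mul_le_mul (asq_chi_le χ c hc) h1 (norm_nonneg _) zero_le_one
    _ = _ := one_mul _

/-- the sum of the weights over any finite family of finite sets -/
theorem asq_wt {p : ℕ} {ζ : K} (D : RD0 K p ζ) :
    ∃ C : ℝ, 0 < C ∧ ∀ (σ : ℝ), 3 / 4 ≤ σ → ∀ (F : Finset (Pl K)) (T0 : Finset (Finset (Pl K))),
      ∑ T ∈ T0, ∏ v ∈ T, ((nm v : ℝ) ^ asq_e D F v) ^ (-σ) ≤ C * 2 ^ F.card := by
  have hs1 := pz_summable K (s := 3 / 2) (by norm_num)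
  have hs2 := deg_summable K (σ := 3 / 4) (by norm_num)
  refine ⟨Real.exp (D.S0.card + (∑' v : Pl K, Set.indicator {v : Pl K | ¬ (nm v).Prime}
    (fun v => (nm v : ℝ) ^ (-(3 / 4 : ℝ))) v) + ∑' v : Pl K, (nm v : ℝ) ^ (-(3 / 2 : ℝ))),
    Real.exp_pos _, fun σ hσ F T0 => ?_⟩
  obtain ⟨w, hw⟩ : ∃ w : Pl K → ℝ, w = fun v => ((nm v : ℝ) ^ asq_e D F v) ^ (-σ) := ⟨_, rfl⟩
  have hwv : ∀ v, w v = ((nm v : ℝ) ^ asq_e D F v) ^ (-σ) := fun v => by rw [hw]
  have hnm : ∀ v : Pl K, (1 : ℝ) ≤ (nm v : ℝ) := fun v => by exact_mod_cast (one_lt_nm v).le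
  have hw0 : ∀ v, 0 ≤ w v := by
    intro v
    rw [hwv]
    exact Real.rpow_nonneg (pow_nonneg (by linarith [hnm v]) _) _
  have hw1 : ∀ v, w v ≤ 1 := by
    intro v
    rw [hwv]
    exact Real.rpow_le_one_of_one_le_of_nonpos (one_le_pow₀ (hnm v)) (by linarith)
  obtain ⟨U, hU⟩ : ∃ U : Finset (Pl K), U = T0.biUnion id := ⟨_, rfl⟩
  have h1 : ∑ T ∈ T0, ∏ v ∈ T, ((nm v : ℝ) ^ asq_e D F v) ^ (-σ) ≤ ∏ v ∈ U, (1 + w v) := by
    rw [Finset.prod_one_add]
    have hsub : T0 ⊆ U.powerset := by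
      intro T hT
      rw [Finset.mem_powerset, hU]
      exact Finset.subset_biUnion_of_mem id hT
    calc ∑ T ∈ T0, ∏ v ∈ T, ((nm v : ℝ) ^ asq_e D F v) ^ (-σ) = ∑ T ∈ T0, ∏ v ∈ T, w v := by
          refine Finset.sum_congr rfl fun T _ => Finset.prod_congr rfl fun v _ => ?_
          rw [hwv]
      _ ≤ _ := Finset.sum_le_sum_of_subset_of_nonneg hsub
          fun T _ _ => Finset.prod_nonneg fun v _ => hw0 v
  obtain ⟨g, hg⟩ : ∃ g : Pl K → ℝ, g = fun v => (if v ∈ D.S0 then (1 : ℝ) else 0) +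
    Set.indicator {v : Pl K | ¬ (nm v).Prime} (fun v => (nm v : ℝ) ^ (-(3 / 4 : ℝ))) v +
      (nm v : ℝ) ^ (-(3 / 2 : ℝ)) := ⟨_, rfl⟩
  have hgv : ∀ v, g v = (if v ∈ D.S0 then (1 : ℝ) else 0) +
    Set.indicator {v : Pl K | ¬ (nm v).Prime} (fun v => (nm v : ℝ) ^ (-(3 / 4 : ℝ))) v +
      (nm v : ℝ) ^ (-(3 / 2 : ℝ)) := fun v => by rw [hg]
  have hi0 : ∀ v : Pl K, 0 ≤ Set.indicator {v : Pl K | ¬ (nm v).Prime}
      (fun v => (nm v : ℝ) ^ (-(3 / 4 : ℝ))) v := fun v =>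
    Set.indicator_nonneg (fun v _ => pzb_nonneg v _) v
  have hS0 : ∀ v, 0 ≤ (if v ∈ D.S0 then (1 : ℝ) else 0) := by
    intro v
    split_ifs <;> norm_num
  have hg0 : ∀ v, 0 ≤ g v := by
    intro v
    rw [hgv]
    have h2 := hi0 v
    have h3 := hS0 v
    have h4 := pzb_nonneg v (-(3 / 2 : ℝ))
    linarith
  have hwg : ∀ v, v ∉ F → w v ≤ g v := by
    intro v hv
    by_cases hS : v ∈ D.S0
    · have h2 := hi0 v
      have h4 := pzb_nonneg v (-(3 / 2 : ℝ))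
      have h5 := hw1 v
      rw [hgv, if_pos hS]
      linarith
    · by_cases hp : (nm v).Prime
      · have he : asq_e D F v = 2 := by
          unfold asq_e
          rw [if_neg]
          rintro (h | h)
          · exact hv h
          · exact h ⟨hS, hp⟩
        have h6 : w v ≤ (nm v : ℝ) ^ (-(3 / 2 : ℝ)) := by
          rw [hwv, he, ← Real.rpow_natCast, ← Real.rpow_mul (by linarith [hnm v])]
          exact Real.rpow_le_rpow_of_exponent_le (hnm v) (by push_cast; linarith)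
        have h2 := hi0 v
        have h3 := hS0 v
        rw [hgv]
        linarith
      · have h6 : w v ≤ (nm v : ℝ) ^ (-(3 / 4 : ℝ)) := by
          have he : asq_e D F v = 1 := by
            unfold asq_e
            rw [if_pos]
            right
            intro h
            exact hp h.2
          rw [hwv, he, pow_one]
          exact Real.rpow_le_rpow_of_exponent_le (hnm v) (by linarith)
        have h7 : Set.indicator {v : Pl K | ¬ (nm v).Prime}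
            (fun v => (nm v : ℝ) ^ (-(3 / 4 : ℝ))) v = (nm v : ℝ) ^ (-(3 / 4 : ℝ)) :=
          Set.indicator_of_mem hp _
        have h3 := hS0 v
        have h4 := pzb_nonneg v (-(3 / 2 : ℝ))
        rw [hgv, h7]
        linarith
  have h2 : ∏ v ∈ U, (1 + w v) ≤ ∏ v ∈ U, ((if v ∈ F then 2 else 1) * Real.exp (g v)) := by
    refine Finset.prod_le_prod (fun v _ => by linarith [hw0 v]) fun v _ => ?_
    by_cases hF : v ∈ F
    · rw [if_pos hF]
      have h3 := Real.one_le_exp (hg0 v)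
      have h4 := hw1 v
      linarith
    · rw [if_neg hF, one_mul]
      have h3 := Real.add_one_le_exp (g v)
      have h4 := hwg v hF
      linarith
  have h3 : ∏ v ∈ U, (if v ∈ F then (2 : ℝ) else 1) ≤ 2 ^ F.card := by
    rw [Finset.prod_ite_mem, Finset.prod_const]
    exact pow_le_pow_right₀ (by norm_num) (Finset.card_le_card Finset.inter_subset_right)
  have h4 : ∑ v ∈ U, g v ≤ D.S0.card + (∑' v : Pl K, Set.indicator {v : Pl K | ¬ (nm v).Prime}
    (fun v => (nm v : ℝ) ^ (-(3 / 4 : ℝ))) v) + ∑' v : Pl K, (nm v : ℝ) ^ (-(3 / 2 : ℝ)) := by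
    rw [Finset.sum_congr rfl fun v _ => hgv v, Finset.sum_add_distrib, Finset.sum_add_distrib]
    refine add_le_add (add_le_add ?_ ?_) ?_
    · rw [Finset.sum_ite_mem, Finset.sum_const, nsmul_eq_mul, mul_one]
      exact_mod_cast Finset.card_le_card Finset.inter_subset_right
    · exact hs2.sum_le_tsum U fun v _ => hi0 v
    · exact hs1.sum_le_tsum U fun v _ => pzb_nonneg v _
  calc _ ≤ _ := h1
    _ ≤ _ := h2
    _ = (∏ v ∈ U, (if v ∈ F then (2 : ℝ) else 1)) * Real.exp (∑ v ∈ U, g v) := by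
        rw [Finset.prod_mul_distrib, Real.exp_sum]
    _ ≤ 2 ^ F.card * Real.exp (D.S0.card + (∑' v : Pl K,
          Set.indicator {v : Pl K | ¬ (nm v).Prime} (fun v => (nm v : ℝ) ^ (-(3 / 4 : ℝ))) v) +
            ∑' v : Pl K, (nm v : ℝ) ^ (-(3 / 2 : ℝ))) := by
        refine mul_le_mul h3 (Real.exp_le_exp.2 h4) (Real.exp_pos _).le (by positivity)
    _ = _ := mul_comm _ _

end aux

theorem asq {K : Type} [Field K] [NumberField K] {p : ℕ} {ζ : K} (D : RD0 K p ζ) :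
    ∃ C A δ : ℝ, 0 < C ∧ 0 ≤ A ∧ 0 < δ ∧ δ < 1 ∧ ∀ (𝔣 : Ideal (𝓞 K)), 𝔣 ≠ ⊥ → ∀ χ : RC K 𝔣,
      χ.Non → ∀ (F : Finset (Pl K)) (y : ℝ), 1 ≤ y →
        ‖∑ n ∈ (GF D y).filter (fun n => Disjoint n F), χ.χ (idl n)‖ ≤
          C * (Ideal.absNorm 𝔣 : ℝ) ^ A * 2 ^ F.card * y ^ (1 - δ) := by
  obtain ⟨C, A, δ, hC, hA, hδ, hδ1, h⟩ := pv K
  obtain ⟨W, hW, hwt⟩ := asq_wt D
  obtain ⟨δ', hδ'⟩ : ∃ δ' : ℝ, δ' = min δ (1 / 4) := ⟨_, rfl⟩
  have hδ'0 : 0 < δ' := by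
    rw [hδ']
    exact lt_min hδ (by norm_num)
  have hδ'1 : δ' ≤ 1 / 4 := by
    rw [hδ']
    exact min_le_right _ _
  have hδ'2 : δ' ≤ δ := by
    rw [hδ']
    exact min_le_left _ _
  refine ⟨C * W, A, δ', by positivity, hA, hδ'0, by linarith, fun 𝔣 h𝔣 χ hχ F y hy => ?_⟩
  have hy0 : (0 : ℝ) ≤ y := by linarith
  obtain ⟨B, hB⟩ : ∃ B : ℝ, B = C * (Ideal.absNorm 𝔣 : ℝ) ^ A := ⟨_, rfl⟩
  have hB0 : 0 ≤ B := by
    rw [hB]
    positivity
  have hB1 : ∀ y : ℝ, 1 ≤ y → ‖∑ I ∈ IN K y, χ.χ I‖ ≤ B * y ^ (1 - δ) := by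
    intro y hy
    rw [hB]
    exact h 𝔣 h𝔣 χ hχ y hy
  obtain ⟨c, hc⟩ : ∃ c : Finset (Pl K) → Ideal (𝓞 K),
    c = fun T => ∏ v ∈ T, v.asIdeal ^ asq_e D F v := ⟨_, rfl⟩
  have hcT : ∀ T, c T = ∏ v ∈ T, v.asIdeal ^ asq_e D F v := fun T => by rw [hc]
  have hc0 : ∀ T, c T ≠ ⊥ := by
    intro T
    rw [hcT, ← Ideal.zero_eq_bot, Finset.prod_ne_zero_iff]
    intro v _
    exact pow_ne_zero _ (by rw [Ideal.zero_eq_bot]; exact v.ne_bot)
  have hcN : ∀ T, (Ideal.absNorm (c T) : ℝ) = ∏ v ∈ T, (nm v : ℝ) ^ asq_e D F v := by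
    intro T
    rw [hcT, map_prod, Nat.cast_prod]
    refine Finset.prod_congr rfl fun v _ => ?_
    rw [map_pow, Nat.cast_pow]
    rfl
  have hnm : ∀ v : Pl K, (1 : ℝ) ≤ (nm v : ℝ) := fun v => by exact_mod_cast (one_lt_nm v).le
  have hT : ∀ I ∈ IN K y, ∀ T, c T ∣ I → T ∈ AF K y := by
    intro I hI T hTI
    rw [mem_IN hy0] at hI
    rw [mem_AF]
    have h1 : (Ideal.absNorm (c T) : ℝ) ≤ (Ideal.absNorm I : ℝ) := by
      have h2 : Ideal.absNorm (c T) ∣ Ideal.absNorm I := map_dvd Ideal.absNorm hTI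
      have h3 : Ideal.absNorm I ≠ 0 := by
        rw [Ne, Ideal.absNorm_eq_zero_iff]
        exact hI.2
      exact_mod_cast Nat.le_of_dvd (Nat.pos_of_ne_zero h3) h2
    have h2 : nr T ≤ (Ideal.absNorm (c T) : ℝ) := by
      rw [hcN]
      unfold nr
      refine Finset.prod_le_prod (fun v _ => by linarith [hnm v]) fun v _ => ?_
      exact le_self_pow₀ (hnm v) (by have := asq_e_pos D F v; omega)
    linarith [hI.1]
  have hmain : ∑ n ∈ (GF D y).filter (fun n => Disjoint n F), χ.χ (idl n) =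
      ∑ T ∈ AF K y, (-1 : ℂ) ^ T.card * ∑ I ∈ (IN K y).filter (fun I => c T ∣ I), χ.χ I := by
    rw [asq_bij D F y hy, Finset.sum_filter]
    calc ∑ I ∈ IN K y, (if (∀ v : Pl K, ¬ v.asIdeal ^ asq_e D F v ∣ I) then χ.χ I else 0)
        = ∑ I ∈ IN K y, ∑ T ∈ AF K y, if c T ∣ I then (-1 : ℂ) ^ T.card * χ.χ I else 0 := by
          refine Finset.sum_congr rfl fun I hI => ?_
          have h1 := asq_moeb (asq_e D F) (asq_e_pos D F) I ((mem_IN hy0).1 hI).2 (AF K y)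
            (fun T hTI => hT I hI T (by rw [hcT]; exact hTI))
          rw [Finset.sum_filter] at h1
          have h2 : (if (∀ v : Pl K, ¬ v.asIdeal ^ asq_e D F v ∣ I) then χ.χ I else 0) =
              (if (∀ v : Pl K, ¬ v.asIdeal ^ asq_e D F v ∣ I) then 1 else 0) * χ.χ I := by
            split_ifs <;> simp
          rw [h2, ← h1, Finset.sum_mul]
          refine Finset.sum_congr rfl fun T _ => ?_
          rw [hcT]
          split_ifs <;> simp
      _ = ∑ T ∈ AF K y, ∑ I ∈ IN K y, if c T ∣ I then (-1 : ℂ) ^ T.card * χ.χ I else 0 :=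
          Finset.sum_comm
      _ = _ := by
          refine Finset.sum_congr rfl fun T _ => ?_
          rw [Finset.sum_filter, Finset.mul_sum]
          refine Finset.sum_congr rfl fun I _ => ?_
          split_ifs <;> simp
  rw [hmain]
  calc ‖∑ T ∈ AF K y, (-1 : ℂ) ^ T.card * ∑ I ∈ (IN K y).filter (fun I => c T ∣ I), χ.χ I‖
      ≤ ∑ T ∈ AF K y, B * (y / (Ideal.absNorm (c T) : ℝ)) ^ (1 - δ') := by
        refine (norm_sum_le _ _).trans (Finset.sum_le_sum fun T _ => ?_)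
        rw [norm_mul, norm_pow, norm_neg, norm_one, one_pow, one_mul]
        exact asq_innerB χ B δ hB0 δ' hδ'2 hB1 (c T) (hc0 T) y hy0
    _ = B * y ^ (1 - δ') *
          ∑ T ∈ AF K y, ∏ v ∈ T, ((nm v : ℝ) ^ asq_e D F v) ^ (-(1 - δ')) := by
        rw [Finset.mul_sum]
        refine Finset.sum_congr rfl fun T _ => ?_
        have h1 : (0 : ℝ) ≤ (Ideal.absNorm (c T) : ℝ) := Nat.cast_nonneg _
        rw [Real.finsetProd_rpow _ _ (fun v _ => pow_nonneg (by linarith [hnm v]) _), ← hcN T,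
          Real.rpow_neg h1, Real.div_rpow hy0 h1, div_eq_mul_inv, mul_assoc]
    _ ≤ B * y ^ (1 - δ') * (W * 2 ^ F.card) := by
        refine mul_le_mul_of_nonneg_left (hwt (1 - δ') (by linarith) F (AF K y)) ?_
        exact mul_nonneg hB0 (Real.rpow_nonneg hy0 _)
    _ = C * W * (Ideal.absNorm 𝔣 : ℝ) ^ A * 2 ^ F.card * y ^ (1 - δ') := by
        rw [hB]
        ring

end H63.MA
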