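import Pool.Agent.H63.MA.ATupA

/-!
# MA-ATUPB: upper bound for the weighted number of all families, with bad primes

`S`-units `ε k`, families `f : Fin N → AF X` of finite sets of primes outside `S0`, pairwise disjoint, `∏ nr (f i) ≤ X`, such that the
elements `a k = ak ε f k` are independent modulo `p`-th powers: the weighted number is `≤ C X (log X)^{N-1}`.

Proof. Split `f i = e i ∪ g i`, `e i` the primes which are not good, `g i` the good ones; `f ↔ (e, g)` is injective and `nr (f i) = nr (e i) nr (g i)`.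
Let `b = ak ε e`, `E = ⋃ e i`. Then `ak ε f = ak b g`, `BSup b E` (`ord` of `b k` outside `S0 ∪ E` is `0`: `pi_ne`), and
`wt c f F ≤ ∏_i P^{#(e i)} * wt c g F` with `P = p^m` (`#Θ_i ≤ P`). Independence of `ak ε f` implies `SpF c b g`: if `θ ≠ 0`, `θ · x i = 0` whenever
`g i ≠ ∅`, and `bp b θ` is a `p`-th power, then `bp (ak b g) θ = bp b θ * ∏_i ∏_{w ∈ g i} pi w ^ (∑_k (x i k).val (θ k).val)` and the exponents are
divisible by `p`. So the sum is at most `∑_e ∏_i P^{#(e i)} Sg D c b X (X / nr E)`, `e` over the disjoint families of finite sets of primes outside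
`S0` which are not good, with `nr E = ∏ nr (e i) ≤ X` (note that `g i ∈ GF X`).
* Let `A₁` be the exponent in `sg_triv` and `A = 4 A₁ + 4`. The terms with `nr E ≤ (log X)^A`: here `X / nr E ≥ √X` for large `X`, so `sg_up`
  gives `≤ C X (log X)^{N-1} ∑_e ∏_i P^{#(e i)} / nr (e i)`.
* The terms with `nr E > (log X)^A`: `sg_triv`: `≤ C X (1 + log X)^{A₁} ∑_e ∏_i P^{#(e i)} / nr (e i)`, and
  `1 / nr E ≤ (log X)^{-A/4} (nr E)^{-3/4}`.
* `∑_e ∏_i P^{#(e i)} (nr (e i))^{-3/4} ≤ (∑_{E} ∏_{v ∈ E} P (nm v)^{-3/4})^N ≤ exp(N P ∑_v (nm v)^{-3/4})`, `E` over the finite sets of primes which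
  are not of prime norm (or in `S0`), is finite by `deg_summable` (`∏ (1 + a_v) ≤ exp ∑ a_v`). Not good and outside `S0` means not of prime norm.
-/

set_option autoImplicit false

open scoped NumberField
open IsDedekindDomain
open scoped Classical

noncomputable section

namespace H63.MA

variable {K : Type} [Field K] [NumberField K] {p : ℕ} {ζ : K} {m N : ℕ}

/-- the part of a family which is not good -/
def atupbE (D : RD0 K p ζ) (f : Fin N → Finset (Pl K)) (i : Fin N) : Finset (Pl K) :=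
  (f i).filter fun v => ¬ D.Gd v

/-- the good part of a family -/
def atupbG (D : RD0 K p ζ) (f : Fin N → Finset (Pl K)) (i : Fin N) : Finset (Pl K) :=
  (f i).filter fun v => D.Gd v

theorem atupb_union (D : RD0 K p ζ) (f : Fin N → Finset (Pl K)) (i : Fin N) :
    atupbE D f i ∪ atupbG D f i = f i := by
  ext v
  simp only [atupbE, atupbG, Finset.mem_union, Finset.mem_filter]
  tauto

theorem atupb_disj (D : RD0 K p ζ) (f : Fin N → Finset (Pl K)) (i : Fin N) :
    Disjoint (atupbE D f i) (atupbG D f i) := by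
  rw [Finset.disjoint_left]
  intro v hv hv'
  exact (Finset.mem_filter.1 hv).2 (Finset.mem_filter.1 hv').2

theorem atupb_nr (D : RD0 K p ζ) (f : Fin N → Finset (Pl K)) (i : Fin N) :
    nr (f i) = nr (atupbE D f i) * nr (atupbG D f i) := by
  rw [← nr_union (atupb_disj D f i), atupb_union]

theorem atupb_ak (D : RD0 K p ζ) (c : CD p m N) (ε : Fin m → Kˣ) (f : Fin N → Finset (Pl K)) :
    ak D c ε f = ak D c (ak D c ε (atupbE D f)) (atupbG D f) := by
  funext k
  unfold ak
  rw [mul_assoc]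
  congr 1
  rw [← Finset.prod_mul_distrib]
  refine Finset.prod_congr rfl fun i _ => ?_
  rw [← Finset.prod_union (atupb_disj D f i), atupb_union]

theorem atupb_t (hp0 : p ≠ 0) (c : CD p m N) (i : Fin N) (y : Fin m → ZMod p) :
    0 ≤ (if ∀ θ ∈ c.Θ i, dt θ y = 0 then (Nat.card (c.Θ i) : ℝ) else 0) ∧
    (if ∀ θ ∈ c.Θ i, dt θ y = 0 then (Nat.card (c.Θ i) : ℝ) else 0) ≤
      (Nat.card (Fin m → ZMod p) : ℝ) := by
  split_ifs
  · haveI : NeZero p := ⟨hp0⟩
    refine ⟨Nat.cast_nonneg _, ?_⟩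
    exact_mod_cast Nat.card_le_card_of_injective _ (c.Θ i).injective_subtype
  · exact ⟨le_rfl, Nat.cast_nonneg _⟩

theorem atupb_wt_nonneg [NeZero p] (c : CD p m N) (f : Fin N → Finset (Pl K))
    (F : Pl K → Fin m → ZMod p) : 0 ≤ wt c f F :=
  Finset.prod_nonneg fun i _ => Finset.prod_nonneg fun v _ => (atupb_t (NeZero.ne p) c i (F v)).1

theorem atupb_wt [NeZero p] (D : RD0 K p ζ) (c : CD p m N) (f : Fin N → Finset (Pl K))
    (F : Pl K → Fin m → ZMod p) :
    wt c f F ≤ (∏ i, (Nat.card (Fin m → ZMod p) : ℝ) ^ (atupbE D f i).card) *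
      wt c (atupbG D f) F := by
  unfold wt
  rw [← Finset.prod_mul_distrib]
  refine Finset.prod_le_prod
    (fun i _ => Finset.prod_nonneg fun v _ => (atupb_t (NeZero.ne p) c i (F v)).1) fun i _ => ?_
  conv_lhs => rw [← atupb_union D f i, Finset.prod_union (atupb_disj D f i)]
  refine mul_le_mul_of_nonneg_right ?_
    (Finset.prod_nonneg fun v _ => (atupb_t (NeZero.ne p) c i (F v)).1)
  rw [← Finset.prod_const]
  exact Finset.prod_le_prod (fun v _ => (atupb_t (NeZero.ne p) c i (F v)).1) fun v _ => (atupb_t (NeZero.ne p) c i (F v)).2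

theorem atupb_bp [NeZero p] (D : RD0 K p ζ) (c : CD p m N) (b : Fin m → Kˣ)
    (g : Fin N → Finset (Pl K)) (θ : Fin m → ZMod p) :
    bp (ak D c b g) θ = bp b θ *
      ∏ i, ∏ w ∈ g i, D.pi w ^ (∑ k, (c.x i k).val * (θ k).val) := by
  unfold bp ak
  simp_rw [mul_pow]
  rw [Finset.prod_mul_distrib]
  congr 1
  simp_rw [← Finset.prod_pow, ← pow_mul]
  rw [Finset.prod_comm]
  refine Finset.prod_congr rfl fun i _ => ?_
  rw [Finset.prod_comm]
  refine Finset.prod_congr rfl fun w _ => ?_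
  rw [Finset.prod_pow_eq_pow_sum]

theorem atupb_spf [NeZero p] (D : RD0 K p ζ) (c : CD p m N) (ε : Fin m → Kˣ)
    (f : Fin N → Finset (Pl K))
    (h4 : ∀ θ : Fin m → ZMod p, θ ≠ 0 → ¬ IsPow p (bp (ak D c ε f) θ)) :
    SpF c (ak D c ε (atupbE D f)) (atupbG D f) := by
  intro θ hθ
  by_contra hcon
  push Not at hcon
  obtain ⟨h1, h2⟩ := hcon
  apply h4 θ hθ
  rw [atupb_ak, atupb_bp]
  obtain ⟨y, hy⟩ := h2
  refine ⟨y * ∏ i, ∏ w ∈ atupbG D f i, D.pi w ^ ((∑ k, (c.x i k).val * (θ k).val) / p), ?_⟩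
  rw [mul_pow, hy]
  congr 1
  rw [← Finset.prod_pow]
  refine Finset.prod_congr rfl fun i _ => ?_
  rw [← Finset.prod_pow]
  refine Finset.prod_congr rfl fun w hw => ?_
  have h3 := h1 i ⟨w, hw⟩
  have h5 : p ∣ ∑ k, (c.x i k).val * (θ k).val := by
    rw [← ZMod.natCast_eq_zero_iff]
    push_cast
    simp only [ZMod.natCast_zmod_val]
    rw [← h3, dt]
    exact Finset.sum_congr rfl fun k _ => mul_comm _ _
  rw [← pow_mul, Nat.div_mul_cancel h5]

theorem atupb_bsup (D : RD0 K p ζ) (c : CD p m N) (ε : Fin m → Kˣ)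
    (hε : ∀ k, TUnit D.S0 (ε k)) (e : Fin N → Finset (Pl K))
    (he : ∀ i, ∀ v ∈ e i, v ∉ D.S0 ∧ ¬ D.Gd v) :
    BSup D (ak D c ε e) (Finset.univ.biUnion e) := by
  constructor
  · intro v hv
    obtain ⟨i, -, hi⟩ := Finset.mem_biUnion.1 hv
    exact he i v hi
  · intro k v hv hv'
    unfold ak
    rw [ord_mul, hε k v hv, ord_prod, zero_add]
    refine Finset.sum_eq_zero fun i _ => ?_
    rw [ord_prod]
    refine Finset.sum_eq_zero fun w hw => ?_
    rw [ord_pow, D.pi_ne w v (he i w hw).1 hv ?_, mul_zero]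
    rintro rfl
    exact hv' (Finset.mem_biUnion.2 ⟨i, Finset.mem_univ i, hw⟩)

theorem atupb_nrU (e : Fin N → Finset (Pl K)) (he : Dj e) :
    nr (Finset.univ.biUnion e) = ∏ i, nr (e i) := by
  unfold nr
  rw [Finset.prod_biUnion]
  intro i _ j _ hij
  exact he i j hij

/-- the condition on the part which is not good -/
def atupbC (D : RD0 K p ζ) (X : ℝ) (e : Fin N → Finset (Pl K)) : Prop :=
  Dj e ∧ (∀ i, ∀ v ∈ e i, v ∉ D.S0 ∧ ¬ D.Gd v) ∧ ∏ i, nr (e i) ≤ X

theorem atupb_one_le (e : Fin N → Finset (Pl K)) : 1 ≤ ∏ i, nr (e i) := by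
  have : ∀ S : Finset (Fin N), 1 ≤ ∏ i ∈ S, nr (e i) := by
    intro S
    induction S using Finset.induction_on with
    | empty => simp
    | insert a S ha ih =>
      rw [Finset.prod_insert ha]
      have h1 := one_le_nr (e a)
      nlinarith
  exact this _

theorem atupb_main [NeZero p] (D : RD0 K p ζ) (c : CD p m N) (ε : Fin m → Kˣ) (X : ℝ) :
    ∑ f ∈ Fintype.piFinset (fun _ : Fin N => AF K X),
      (if Dj f ∧ (∀ i, ∀ v ∈ f i, v ∉ D.S0) ∧ ∏ i, nr (f i) ≤ X ∧
          (∀ θ : Fin m → ZMod p, θ ≠ 0 → ¬ IsPow p (bp (ak D c ε f) θ)) then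
        wt c f (fun v k => D.LL v (ak D c ε f k)) else 0) ≤
    ∑ e ∈ Fintype.piFinset (fun _ : Fin N => AF K X),
      if atupbC D X e then (∏ i, (Nat.card (Fin m → ZMod p) : ℝ) ^ (e i).card) *
        Sg D c (ak D c ε e) X (X / ∏ i, nr (e i)) else 0 := by
  set T : (Fin N → Finset (Pl K)) × (Fin N → Finset (Pl K)) → ℝ := fun x =>
    if atupbC D X x.1 then (∏ i, (Nat.card (Fin m → ZMod p) : ℝ) ^ (x.1 i).card) *
      (if Dj x.2 ∧ ∏ i, nr (x.2 i) ≤ X / ∏ i, nr (x.1 i) ∧ SpF c (ak D c ε x.1) x.2 then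
        wt c x.2 (fun v k => D.LL v (ak D c (ak D c ε x.1) x.2 k)) else 0) else 0 with hT
  have hT0 : ∀ x, 0 ≤ T x := by
    intro x
    rw [hT]
    dsimp only
    split_ifs
    · exact mul_nonneg (Finset.prod_nonneg fun i _ => by positivity) (atupb_wt_nonneg _ _ _)
    · simp
    · exact le_rfl
  have hR : ∑ e ∈ Fintype.piFinset (fun _ : Fin N => AF K X),
      (if atupbC D X e then (∏ i, (Nat.card (Fin m → ZMod p) : ℝ) ^ (e i).card) *
        Sg D c (ak D c ε e) X (X / ∏ i, nr (e i)) else 0) =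
      ∑ x ∈ Fintype.piFinset (fun _ : Fin N => AF K X) ×ˢ
        Fintype.piFinset (fun _ : Fin N => GF D X), T x := by
    rw [Finset.sum_product]
    refine Finset.sum_congr rfl fun e _ => ?_
    rw [hT]
    dsimp only
    split_ifs
    · rw [Sg, Finset.mul_sum]
    · rw [Finset.sum_const_zero]
  rw [hR]
  have hinj : Function.Injective fun f : Fin N → Finset (Pl K) => (atupbE D f, atupbG D f) := by
    intro f f' h
    simp only [Prod.mk.injEq] at h
    funext i
    rw [← atupb_union D f i, ← atupb_union D f' i, h.1, h.2]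
  have himg : ∑ f ∈ Fintype.piFinset (fun _ : Fin N => AF K X), T (atupbE D f, atupbG D f) =
      ∑ x ∈ (Fintype.piFinset (fun _ : Fin N => AF K X)).image
        (fun f => (atupbE D f, atupbG D f)), T x :=
    (Finset.sum_image fun f _ f' _ h => hinj h).symm
  calc _ ≤ ∑ f ∈ Fintype.piFinset (fun _ : Fin N => AF K X), T (atupbE D f, atupbG D f) := ?_
    _ = _ := himg
    _ ≤ _ := ?_
  · refine Finset.sum_le_sum fun f _ => ?_
    by_cases hf : Dj f ∧ (∀ i, ∀ v ∈ f i, v ∉ D.S0) ∧ ∏ i, nr (f i) ≤ X ∧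
          (∀ θ : Fin m → ZMod p, θ ≠ 0 → ¬ IsPow p (bp (ak D c ε f) θ))
    · rw [if_pos hf]
      obtain ⟨h1, h2, h3, h4⟩ := hf
      have hprod : ∏ i, nr (f i) = (∏ i, nr (atupbE D f i)) * ∏ i, nr (atupbG D f i) := by
        rw [← Finset.prod_mul_distrib]
        exact Finset.prod_congr rfl fun i _ => atupb_nr D f i
      have hE1 := atupb_one_le (atupbE D f)
      have hG1 := atupb_one_le (atupbG D f)
      have hC : atupbC D X (atupbE D f) := by
        refine ⟨fun i j hij => ?_, fun i v hv => ?_, ?_⟩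
        · exact (h1 i j hij).mono (Finset.filter_subset _ _) (Finset.filter_subset _ _)
        · exact ⟨h2 i v (Finset.mem_filter.1 hv).1, (Finset.mem_filter.1 hv).2⟩
        · rw [hprod] at h3
          nlinarith
      have hG : Dj (atupbG D f) ∧ ∏ i, nr (atupbG D f i) ≤ X / ∏ i, nr (atupbE D f i) ∧
          SpF c (ak D c ε (atupbE D f)) (atupbG D f) := by
        refine ⟨fun i j hij => ?_, ?_, atupb_spf D c ε f h4⟩
        · exact (h1 i j hij).mono (Finset.filter_subset _ _) (Finset.filter_subset _ _)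
        · rw [le_div_iff₀ (by linarith), mul_comm, ← hprod]
          exact h3
      rw [hT]
      dsimp only
      rw [if_pos hC, if_pos hG, ← atupb_ak]
      exact atupb_wt D c f _
    · rw [if_neg hf]
      exact hT0 _
  · refine Finset.sum_le_sum_of_subset_of_nonneg ?_ fun x _ _ => hT0 x
    intro x hx
    obtain ⟨f, hf, rfl⟩ := Finset.mem_image.1 hx
    rw [Fintype.mem_piFinset] at hf
    rw [Finset.mem_product, Fintype.mem_piFinset, Fintype.mem_piFinset]
    refine ⟨fun i => ?_, fun i => ?_⟩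
    · rw [mem_AF]
      exact (nr_mono (Finset.filter_subset _ _)).trans (mem_AF.1 (hf i))
    · rw [GF, Finset.mem_filter, mem_AF]
      exact ⟨(nr_mono (Finset.filter_subset _ _)).trans (mem_AF.1 (hf i)),
        fun v hv => (Finset.mem_filter.1 hv).2⟩

theorem atupb_conv (D : RD0 K p ζ) (N : ℕ) (P : ℝ) (hP : 0 ≤ P) : ∃ C : ℝ, 0 < C ∧ ∀ X : ℝ,
    ∑ e ∈ Fintype.piFinset (fun _ : Fin N => AF K X),
      (if atupbC D X e then ∏ i, (P ^ (e i).card * nr (e i) ^ (-(3 / 4) : ℝ)) else 0) ≤ C := by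
  set a : Pl K → ℝ := fun v => P * Set.indicator {v : Pl K | ¬ (nm v).Prime}
    (fun v => (nm v : ℝ) ^ (-(3 / 4) : ℝ)) v with ha
  have ha0 : ∀ v, 0 ≤ a v := fun v =>
    mul_nonneg hP (Set.indicator_nonneg (fun v _ => by positivity) v)
  have hsum : Summable a := (deg_summable K (σ := 3 / 4) (by norm_num)).mul_left P
  set h : Finset (Pl K) → ℝ := fun E =>
    if ∀ v ∈ E, ¬ (nm v).Prime then P ^ E.card * nr E ^ (-(3 / 4) : ℝ) else 0 with hh
  have hnr0 : ∀ E : Finset (Pl K), 0 ≤ nr E := fun E => by linarith [one_le_nr E]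
  have hh0 : ∀ E, 0 ≤ h E := by
    intro E
    rw [hh]
    dsimp only
    split_ifs
    · exact mul_nonneg (by positivity) (Real.rpow_nonneg (hnr0 E) _)
    · exact le_rfl
  have hha : ∀ E, h E ≤ ∏ v ∈ E, a v := by
    intro E
    rw [hh]
    dsimp only
    split_ifs with hE
    · apply le_of_eq
      rw [nr, ← Real.finset_prod_rpow _ _ (fun v _ => by positivity), ← Finset.prod_const,
        ← Finset.prod_mul_distrib]
      refine Finset.prod_congr rfl fun v hv => ?_
      rw [ha]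
      dsimp only
      rw [Set.indicator_of_mem]
      exact hE v hv
    · exact Finset.prod_nonneg fun v _ => ha0 v
  have h3 : ∀ X : ℝ, ∑ E ∈ AF K X, h E ≤ Real.exp (∑' v, a v) := by
    intro X
    set V : Finset (Pl K) := (AF K X).biUnion id with hV
    calc ∑ E ∈ AF K X, h E ≤ ∑ E ∈ AF K X, ∏ v ∈ E, a v := Finset.sum_le_sum fun E _ => hha E
      _ ≤ ∑ E ∈ V.powerset, ∏ v ∈ E, a v := by
          refine Finset.sum_le_sum_of_subset_of_nonneg ?_
            fun E _ _ => Finset.prod_nonneg fun v _ => ha0 v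
          intro E hE
          rw [Finset.mem_powerset]
          exact Finset.subset_biUnion_of_mem id hE
      _ = ∏ v ∈ V, (1 + a v) := (Finset.prod_one_add V).symm
      _ ≤ ∏ v ∈ V, Real.exp (a v) := by
          refine Finset.prod_le_prod (fun v _ => by linarith [ha0 v]) fun v _ => ?_
          linarith [Real.add_one_le_exp (a v)]
      _ = Real.exp (∑ v ∈ V, a v) := (Real.exp_sum V a).symm
      _ ≤ Real.exp (∑' v, a v) :=
          Real.exp_le_exp.2 (hsum.sum_le_tsum V fun v _ => ha0 v)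
  refine ⟨Real.exp (∑' v, a v) ^ N, by positivity, fun X => ?_⟩
  calc _ ≤ ∑ e ∈ Fintype.piFinset (fun _ : Fin N => AF K X), ∏ i, h (e i) := by
        refine Finset.sum_le_sum fun e _ => ?_
        split_ifs with hC
        · apply le_of_eq
          refine Finset.prod_congr rfl fun i _ => ?_
          rw [hh]
          dsimp only
          rw [if_pos]
          intro v hv hpr
          exact (hC.2.1 i v hv).2 ⟨(hC.2.1 i v hv).1, hpr⟩
        · exact Finset.prod_nonneg fun i _ => hh0 _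
    _ = ∏ _i : Fin N, ∑ E ∈ AF K X, h E := (Finset.prod_univ_sum _ _).symm
    _ = (∑ E ∈ AF K X, h E) ^ N := by rw [Finset.prod_const, Finset.card_univ, Fintype.card_fin]
    _ ≤ _ := pow_le_pow_left₀ (Finset.sum_nonneg fun E _ => hh0 E) (h3 X) N

theorem atup [NeZero p] (hp : p.Prime) (hp2 : MOne p K) (hζ : IsPrimitiveRoot ζ p) (D : RD K p ζ)
    (c : CD p m N) :
    ∃ C X₀ : ℝ, 0 < C ∧ 3 ≤ X₀ ∧ ∀ X : ℝ, X₀ ≤ X → ∀ ε : Fin m → Kˣ,
      (∀ k, TUnit D.S0 (ε k)) →
        ∑ f ∈ Fintype.piFinset (fun _ : Fin N => AF K X),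
          (if Dj f ∧ (∀ i, ∀ v ∈ f i, v ∉ D.S0) ∧ ∏ i, nr (f i) ≤ X ∧
              (∀ θ : Fin m → ZMod p, θ ≠ 0 → ¬ IsPow p (bp (ak D.toRD0 c ε f) θ)) then
            wt c f (fun v k => D.LL v (ak D.toRD0 c ε f k)) else 0) ≤
          C * X * Real.log X ^ (N - 1) := by
  obtain ⟨C2, A₁, hC2, htriv⟩ := sg_triv hp hζ D c
  obtain ⟨C1, X1, hC1, hX1, hup⟩ := sg_up hp hp2 hζ D c (4 * A₁)
  obtain ⟨C4, hC4, hconv⟩ := atupb_conv D.toRD0 N (Nat.card (Fin m → ZMod p) : ℝ)
    (Nat.cast_nonneg _)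
  have hev : ∀ᶠ X : ℝ in Filter.atTop, Real.log X ^ (8 * A₁) ≤ X := by
    have h1 := (Real.isLittleO_pow_log_id_atTop (n := 8 * A₁)).bound (show (0 : ℝ) < 1 by norm_num)
    filter_upwards [h1, Filter.eventually_ge_atTop 1] with X hX hX1
    simp only [id, one_mul, Real.norm_eq_abs] at hX
    rw [abs_of_nonneg (by linarith : (0 : ℝ) ≤ X)] at hX
    exact (le_abs_self _).trans hX
  obtain ⟨X2, hX2⟩ := Filter.eventually_atTop.1 hev
  set C3 : ℝ := C1 + C2 * 2 ^ A₁ with hC3
  have hC3' : 0 < C3 := by positivity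
  refine ⟨C3 * C4, max X1 X2, by positivity, hX1.trans (le_max_left _ _), fun X hX ε hε => ?_⟩
  have hXX1 : X1 ≤ X := (le_max_left _ _).trans hX
  have hXX2 : X2 ≤ X := (le_max_right _ _).trans hX
  have hX3 : 3 ≤ X := hX1.trans hXX1
  have hX0 : 0 < X := by linarith
  have hlog1 : 1 ≤ Real.log X := by
    rw [Real.le_log_iff_exp_le hX0]
    linarith [Real.exp_one_lt_d9]
  have hsq := hX2 X hXX2
  have hsqrt : Real.log X ^ (4 * A₁) ≤ Real.sqrt X := by
    apply Real.le_sqrt_of_sq_le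
    rw [← pow_mul]
    refine le_trans (le_of_eq ?_) hsq
    ring_nf
  refine (atupb_main D.toRD0 c ε X).trans ?_
  have hkey : ∀ e ∈ Fintype.piFinset (fun _ : Fin N => AF K X),
      (if atupbC D.toRD0 X e then (∏ i, (Nat.card (Fin m → ZMod p) : ℝ) ^ (e i).card) *
        Sg D.toRD0 c (ak D.toRD0 c ε e) X (X / ∏ i, nr (e i)) else 0) ≤
      C3 * X * Real.log X ^ (N - 1) * (if atupbC D.toRD0 X e then
        ∏ i, ((Nat.card (Fin m → ZMod p) : ℝ) ^ (e i).card * nr (e i) ^ (-(3 / 4) : ℝ)) else 0) := by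
    intro e _
    by_cases hC : atupbC D.toRD0 X e
    · rw [if_pos hC, if_pos hC]
      obtain ⟨h1, h2, h3⟩ := hC
      set n : ℝ := ∏ i, nr (e i) with hn
      have hn1 : 1 ≤ n := atupb_one_le e
      have hn0 : 0 < n := by linarith
      have hprod : ∏ i, ((Nat.card (Fin m → ZMod p) : ℝ) ^ (e i).card *
          nr (e i) ^ (-(3 / 4) : ℝ)) =
          (∏ i, (Nat.card (Fin m → ZMod p) : ℝ) ^ (e i).card) * n ^ (-(3 / 4) : ℝ) := by
        rw [Finset.prod_mul_distrib, hn, Real.finset_prod_rpow]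
        intro i _
        linarith [one_le_nr (e i)]
      rw [hprod]
      have hP0 : 0 ≤ ∏ i, (Nat.card (Fin m → ZMod p) : ℝ) ^ (e i).card :=
        Finset.prod_nonneg fun i _ => by positivity
      have hXn : X / n ≤ X := div_le_self hX0.le hn1
      have hXn0 : 0 < X / n := by positivity
      have hLN : 1 ≤ Real.log X ^ (N - 1) := one_le_pow₀ hlog1
      have hmain : Sg D.toRD0 c (ak D.toRD0 c ε e) X (X / n) ≤
          C3 * X * Real.log X ^ (N - 1) * n ^ (-(3 / 4) : ℝ) := by
        have hr0 : 0 < n ^ (-(3 / 4) : ℝ) := Real.rpow_pos_of_pos hn0 _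
        have hninv : 1 / n = n ^ (-(3 / 4) : ℝ) * n ^ (-(1 / 4) : ℝ) := by
          rw [← Real.rpow_add hn0, one_div, ← Real.rpow_neg_one]
          norm_num
        rcases le_or_gt n (Real.log X ^ (4 * A₁)) with hle | hgt
        · have hs : Real.sqrt X ≤ X / n := by
            rw [le_div_iff₀ hn0]
            calc Real.sqrt X * n ≤ Real.sqrt X * Real.sqrt X :=
                  mul_le_mul_of_nonneg_left (hle.trans hsqrt) (Real.sqrt_nonneg _)
              _ = X := Real.mul_self_sqrt hX0.le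
          have hb := atupb_bsup D.toRD0 c ε hε e h2
          have hb2 : nr (Finset.univ.biUnion e) ≤ Real.log X ^ (4 * A₁) := by
            rw [atupb_nrU e h1]
            exact hle
          refine (hup X (X / n) hXX1 hs hXn _ _ hb hb2).trans ?_
          have h14 : n ^ (-(1 / 4) : ℝ) ≤ 1 :=
            Real.rpow_le_one_of_one_le_of_nonpos hn1 (by norm_num)
          have hXn2 : X / n ≤ X * n ^ (-(3 / 4) : ℝ) := by
            rw [div_eq_mul_one_div, hninv]
            refine mul_le_mul_of_nonneg_left ?_ hX0.le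
            nlinarith
          have hC13 : C1 ≤ C3 := by
            rw [hC3]
            have : 0 < C2 * 2 ^ A₁ := by positivity
            linarith
          calc C1 * (X / n) * Real.log X ^ (N - 1)
              ≤ C3 * (X * n ^ (-(3 / 4) : ℝ)) * Real.log X ^ (N - 1) := by
                refine mul_le_mul_of_nonneg_right ?_ (by positivity)
                exact mul_le_mul hC13 hXn2 hXn0.le hC3'.le
            _ = _ := by ring
        · refine (htriv X (X / n) (by linarith) hXn0 hXn _).trans ?_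
          have h14 : Real.log X ^ A₁ * n ^ (-(1 / 4) : ℝ) ≤ 1 := by
            have h5 : Real.log X ^ A₁ ≤ n ^ ((1 / 4 : ℝ)) := by
              have h6 : (Real.log X ^ (4 * A₁)) ^ ((1 / 4 : ℝ)) ≤ n ^ ((1 / 4 : ℝ)) :=
                Real.rpow_le_rpow (by positivity) hgt.le (by norm_num)
              refine le_trans (le_of_eq ?_) h6
              rw [← Real.rpow_natCast, ← Real.rpow_natCast, ← Real.rpow_mul (by linarith)]
              congr 1
              push_cast
              ring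
            rw [Real.rpow_neg hn0.le]
            exact mul_inv_le_one_of_le₀ h5 (by positivity)
          have h2l : (1 + Real.log X) ^ A₁ ≤ 2 ^ A₁ * Real.log X ^ A₁ := by
            rw [← mul_pow]
            exact pow_le_pow_left₀ (by linarith) (by linarith) _
          have hC23 : C2 * 2 ^ A₁ ≤ C3 := by
            rw [hC3]
            linarith
          calc C2 * (X / n) * (1 + Real.log X) ^ A₁
              ≤ C2 * (X / n) * (2 ^ A₁ * Real.log X ^ A₁) :=
                mul_le_mul_of_nonneg_left h2l (by positivity)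
            _ = C2 * 2 ^ A₁ * (X * n ^ (-(3 / 4) : ℝ)) *
                  (Real.log X ^ A₁ * n ^ (-(1 / 4) : ℝ)) := by
                rw [div_eq_mul_one_div, hninv]
                ring
            _ ≤ C2 * 2 ^ A₁ * (X * n ^ (-(3 / 4) : ℝ)) * 1 :=
                mul_le_mul_of_nonneg_left h14 (by positivity)
            _ ≤ C3 * (X * n ^ (-(3 / 4) : ℝ)) * Real.log X ^ (N - 1) := by
                refine mul_le_mul ?_ hLN zero_le_one (by positivity)
                exact mul_le_mul_of_nonneg_right hC23 (by positivity)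
            _ = _ := by ring
      calc (∏ i, (Nat.card (Fin m → ZMod p) : ℝ) ^ (e i).card) *
            Sg D.toRD0 c (ak D.toRD0 c ε e) X (X / n)
          ≤ (∏ i, (Nat.card (Fin m → ZMod p) : ℝ) ^ (e i).card) *
            (C3 * X * Real.log X ^ (N - 1) * n ^ (-(3 / 4) : ℝ)) :=
            mul_le_mul_of_nonneg_left hmain hP0
        _ = _ := by ring
    · rw [if_neg hC, if_neg hC, mul_zero]
  refine (Finset.sum_le_sum hkey).trans ?_
  rw [← Finset.mul_sum]
  calc _ ≤ C3 * X * Real.log X ^ (N - 1) * C4 :=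
        mul_le_mul_of_nonneg_left (hconv X) (by positivity)
    _ = _ := by ring

end H63.MA
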