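import Mathlib

/-!
# MA-CHEVA: the index of `σ - 1` on a module over `ℤ[ζ_p]`

`M` finitely generated abelian group, `σ : M →+ M`, `p` prime, `1 + σ + ... + σ^(p-1) = 0` on `M`, `rank M = (p-1) b`.
Then `σ - 1` has finite kernel and cokernel, and `#coker = p^b * #ker`.

Proof. `(σ - 1) N = σ^p - 1` gives `σ^p = 1`, so `M` is a module over `R = ℤ[X]/(1 + X + ... + X^(p-1))`. In `R`:
`∏_{i=1}^{p-1} (1 - X^i) = p` (the polynomial identity `∏_{i=1}^{p-1} (Y - ζ^i) = 1 + Y + ... + Y^(p-1)` at `Y = 1`;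
a direct way to get it modulo `Φ_p`: both sides are in `ℤ[ζ_p]`, where
`Mathlib: IsPrimitiveRoot`/`Polynomial.cyclotomic` `eval_one_cyclotomic_prime`, and `ℤ[X]/Φ_p ≃ ℤ[ζ_p]`).
For `1 ≤ i ≤ p - 1`: `1 - X^i = (1 - X) u_i` with `u_i = 1 + X + ... + X^(i-1)` a unit of `R`: if `i j ≡ 1 (mod p)` then
`(1 - X) = 1 - X^(i j) = (1 - X^i) w`, and `u_i w = 1` since `1 - X` is a non zero divisor of `R`
(`R` is a domain). Hence `p = (1 - X)^(p-1) u` with a unit `u` of `R`.
For an endomorphism `D` of an abelian group with finite kernel and cokernel put `q(D) = #coker D / #ker D`. It is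
multiplicative, `q(D E) = q(D) q(E)` (exact sequence `0 → ker E → ker DE → ker D → coker E → coker DE → coker D → 0`
or counting: `[M : DE M] = [M : D M] [D M : D E M]` and `[D M : D E M] = [M : E M + ker D]`, and so on),
and `q(u) = 1` for an automorphism `u`.
Multiplication by `p` on `M`: `#coker = p^rank * #M[p]`, `#ker = #M[p]` (structure theorem, or: for the free part `p^rank`,
for the finite part both sides are equal as `#F/pF = #F[p]`), so `q(p) = p^((p-1) b)`.
`D = σ - 1`: `D^(p-1)` is `p` up to an automorphism, so kernel and cokernel of `D` are finite (ker `D` ≤ ker `p` on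
`M`; coker `D` is a quotient of coker `D^(p-1) = M/pM`), and `q(D)^(p-1) = q(p) = (p^b)^(p-1)`, so `q(D) = p^b`.
-/

set_option autoImplicit false

namespace H63.MA

theorem chevA_mul {M : Type} [AddCommGroup M] (f g : M →+ M) :
    (f.comp g).range.index * (Nat.card f.ker * Nat.card g.ker) =
      f.range.index * g.range.index * Nat.card (f.comp g).ker := by
  have h1 : (f.comp g).range = g.range.map f := by
    rw [AddMonoidHom.range_eq_map, AddMonoidHom.range_eq_map, AddSubgroup.map_map]
  have h2 : (g.range.map f).index = (g.range ⊔ f.ker).index * f.range.index :=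
    AddSubgroup.index_map _ _
  have h3 : g.range.relIndex (g.range ⊔ f.ker) * (g.range ⊔ f.ker).index = g.range.index :=
    AddSubgroup.relIndex_mul_index le_sup_left
  have h4 : g.range.relIndex (g.range ⊔ f.ker) = g.range.relIndex f.ker :=
    AddSubgroup.relIndex_sup_left _ _
  have h5 : Nat.card (g.range ⊓ f.ker : AddSubgroup M) * g.range.relIndex f.ker =
      Nat.card f.ker := by
    rw [← AddSubgroup.relIndex_bot_left, ← AddSubgroup.relIndex_bot_left,
      ← AddSubgroup.inf_relIndex_right g.range f.ker]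
    exact AddSubgroup.relIndex_mul_relIndex _ _ _ bot_le inf_le_right
  have h6 : Nat.card g.ker * Nat.card (g.range ⊓ f.ker : AddSubgroup M) =
      Nat.card (f.comp g).ker := by
    have h7 : (f.comp g).ker = f.ker.comap g := by
      rw [AddMonoidHom.comap_ker]
    have h8 : g.ker.relIndex (f.comp g).ker = Nat.card (g.range ⊓ f.ker : AddSubgroup M) := by
      rw [AddSubgroup.relIndex_ker, h7, AddSubgroup.map_comap_eq]
    rw [← h8, ← AddSubgroup.relIndex_bot_left, ← AddSubgroup.relIndex_bot_left]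
    refine AddSubgroup.relIndex_mul_relIndex _ _ _ bot_le ?_
    rw [h7]
    intro x hx
    rw [AddSubgroup.mem_comap, (AddMonoidHom.mem_ker).1 hx]
    exact zero_mem _
  rw [h1, h2, ← h3, h4, ← h5, ← h6]
  ring

theorem chevA_pow {M : Type} [AddCommGroup M] (D : AddMonoid.End M) (n : ℕ)
    (hfin : Nat.card (AddMonoidHom.ker (D ^ n : AddMonoid.End M)) ≠ 0) (k : ℕ) (hk : k ≤ n) :
    (AddMonoidHom.range (D ^ k : AddMonoid.End M)).index * Nat.card (AddMonoidHom.ker D) ^ k =
      (AddMonoidHom.range D).index ^ k *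
        Nat.card (AddMonoidHom.ker (D ^ k : AddMonoid.End M)) := by
  induction k with
  | zero =>
    have h1 : AddMonoidHom.range (D ^ 0 : AddMonoid.End M) = ⊤ := by
      rw [pow_zero]
      exact AddMonoidHom.range_eq_top.2 Function.surjective_id
    have h2 : AddMonoidHom.ker (D ^ 0 : AddMonoid.End M) = ⊥ := by
      rw [pow_zero]
      exact (AddMonoidHom.ker_eq_bot_iff _).2 Function.injective_id
    rw [h1, h2]
    simp
  | succ k ih =>
    have ih := ih (by omega)
    have hle : AddMonoidHom.ker (D ^ k : AddMonoid.End M) ≤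
        AddMonoidHom.ker (D ^ n : AddMonoid.End M) := by
      intro x hx
      have hx' : (D ^ k) x = 0 := hx
      show (D ^ n) x = 0
      obtain ⟨j, rfl⟩ := Nat.exists_eq_add_of_le' (show k ≤ n by omega)
      rw [pow_add]
      show (D ^ j) ((D ^ k) x) = 0
      rw [hx', map_zero]
    have hK : Nat.card (AddMonoidHom.ker (D ^ k : AddMonoid.End M)) ≠ 0 := by
      have : Finite (AddMonoidHom.ker (D ^ n : AddMonoid.End M)) := Nat.finite_of_card_ne_zero hfin
      have : Finite (AddMonoidHom.ker (D ^ k : AddMonoid.End M)) :=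
        Finite.of_injective _ (AddSubgroup.inclusion_injective hle)
      exact Nat.card_pos.ne'
    have h1 := chevA_mul (D ^ k : AddMonoid.End M) D
    have h2 : AddMonoidHom.comp (D ^ k : AddMonoid.End M) D = (D ^ (k + 1) : AddMonoid.End M) := by
      rw [pow_succ]
      rfl
    rw [h2] at h1
    apply mul_right_cancel₀ hK
    calc (AddMonoidHom.range (D ^ (k + 1) : AddMonoid.End M)).index *
          Nat.card (AddMonoidHom.ker D) ^ (k + 1) *
          Nat.card (AddMonoidHom.ker (D ^ k : AddMonoid.End M))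
        = ((AddMonoidHom.range (D ^ (k + 1) : AddMonoid.End M)).index *
          (Nat.card (AddMonoidHom.ker (D ^ k : AddMonoid.End M)) *
          Nat.card (AddMonoidHom.ker D))) * Nat.card (AddMonoidHom.ker D) ^ k := by ring
      _ = ((AddMonoidHom.range (D ^ k : AddMonoid.End M)).index *
          Nat.card (AddMonoidHom.ker D) ^ k) * (AddMonoidHom.range D).index *
          Nat.card (AddMonoidHom.ker (D ^ (k + 1) : AddMonoid.End M)) := by rw [h1]; ring
      _ = _ := by rw [ih]; ring

theorem chevA_pT (T : Type) [AddCommGroup T] [Finite T] (p : ℕ) :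
    (nsmulAddMonoidHom (α := T) p).range.index =
      Nat.card (nsmulAddMonoidHom (α := T) p).ker := by
  have h1 := AddSubgroup.card_mul_index (nsmulAddMonoidHom (α := T) p).range
  have h2 := AddSubgroup.card_mul_index (nsmulAddMonoidHom (α := T) p).ker
  rw [AddSubgroup.index_ker, ← h1, mul_comm] at h2
  exact (mul_left_cancel₀ Nat.card_pos.ne' h2).symm

theorem chevA_pF (n : ℕ) {p : ℕ} (hp : 0 < p) :
    (nsmulAddMonoidHom (α := Fin n → ℤ) p).ker = ⊥ ∧
      (nsmulAddMonoidHom (α := Fin n → ℤ) p).range.index = p ^ n := by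
  have : NeZero p := ⟨hp.ne'⟩
  constructor
  · rw [eq_bot_iff]
    intro x hx
    have h1 : p • x = 0 := hx
    have h2 : x = 0 := (smul_eq_zero.1 h1).resolve_left hp.ne'
    rw [h2]
    exact zero_mem _
  · let f : (Fin n → ℤ) →+ (Fin n → ZMod p) :=
      { toFun := fun x i => (x i : ZMod p)
        map_zero' := by ext i; simp
        map_add' := by intro x y; ext i; simp }
    have hf : Function.Surjective f := by
      intro y
      refine ⟨fun i => ((y i).val : ℤ), ?_⟩
      ext i
      show (((y i).val : ℤ) : ZMod p) = y i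
      simp
    have hk : (nsmulAddMonoidHom (α := Fin n → ℤ) p).range = f.ker := by
      ext x
      constructor
      · rintro ⟨y, rfl⟩
        show f (p • y) = 0
        ext i
        show (((p • y) i : ℤ) : ZMod p) = 0
        simp
      · intro hx
        have h1 : ∀ i, ((x i : ℤ) : ZMod p) = 0 := fun i => congrFun (show f x = 0 from hx) i
        have h2 : ∀ i, ∃ y : ℤ, x i = p * y := fun i =>
          (ZMod.intCast_zmod_eq_zero_iff_dvd (x i) p).1 (h1 i)
        choose y hy using h2
        refine ⟨y, ?_⟩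
        show p • y = x
        ext i
        rw [hy i]
        simp
    rw [hk, AddSubgroup.index_ker, AddMonoidHom.range_eq_top.2 hf]
    rw [AddSubgroup.card_top, Nat.card_fun]
    simp

/-- index of the multiples of `p` in a finitely generated abelian group -/
theorem chevA_p (M : Type) [AddCommGroup M] [Module.Finite ℤ M] {p : ℕ} (hp : 0 < p) :
    Finite (nsmulAddMonoidHom (α := M) p).ker ∧
      (nsmulAddMonoidHom (α := M) p).range.index =
        p ^ Module.finrank ℤ M * Nat.card (nsmulAddMonoidHom (α := M) p).ker := by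
  have hfg : AddGroup.FG M := Module.Finite.iff_addGroup_fg.1 inferInstance
  obtain ⟨n, ι, _, q, hq, e, ⟨ε0⟩⟩ := AddCommGroup.equiv_free_prod_directSum_zmod M
  obtain ⟨T, iT, fT, ⟨ε⟩⟩ : ∃ (T : Type) (_ : AddCommGroup T) (_ : Finite T),
      Nonempty (M ≃+ (Fin n → ℤ) × T) := by
    classical
    have : ∀ i, NeZero (q i ^ e i) := fun i => ⟨pow_ne_zero _ (hq i).ne_zero⟩
    refine ⟨∀ i, ZMod (q i ^ e i), inferInstance, inferInstance, ⟨?_⟩⟩
    exact ε0.trans (AddEquiv.prodCongr (Finsupp.linearEquivFunOnFinite ℤ ℤ (Fin n)).toAddEquiv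
      (DirectSum.addEquivProd _))
  obtain ⟨hF1, hF2⟩ := chevA_pF n hp
  have hT := chevA_pT T p
  have hr : (nsmulAddMonoidHom (α := (Fin n → ℤ) × T) p).range =
      (nsmulAddMonoidHom (α := Fin n → ℤ) p).range.prod (nsmulAddMonoidHom (α := T) p).range := by
    ext ⟨a, b⟩
    constructor
    · rintro ⟨⟨c, d⟩, h⟩
      have h' : (p • c, p • d) = (a, b) := h
      rw [Prod.mk.injEq] at h'
      exact ⟨⟨c, h'.1⟩, ⟨d, h'.2⟩⟩
    · rintro ⟨⟨c, hc⟩, ⟨d, hd⟩⟩
      exact ⟨(c, d), Prod.ext hc hd⟩
  have hk : (nsmulAddMonoidHom (α := (Fin n → ℤ) × T) p).ker =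
      (nsmulAddMonoidHom (α := Fin n → ℤ) p).ker.prod (nsmulAddMonoidHom (α := T) p).ker := by
    ext ⟨a, b⟩
    constructor
    · intro h
      have h' : (p • a, p • b) = (0, 0) := h
      rw [Prod.mk.injEq] at h'
      exact ⟨h'.1, h'.2⟩
    · rintro ⟨ha, hb⟩
      exact Prod.ext ha hb
  have hker : (nsmulAddMonoidHom (α := M) p).ker ≃ (nsmulAddMonoidHom (α := T) p).ker := by
    refine ⟨fun x => ⟨(ε x).2, ?_⟩, fun y => ⟨ε.symm (0, y), ?_⟩, ?_, ?_⟩
    · have h1 : p • (x : M) = 0 := x.2
      have h2 : p • (ε x) = 0 := by rw [← map_nsmul, h1, map_zero]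
      show p • (ε x).2 = 0
      rw [← Prod.smul_snd, h2]
      rfl
    · have h1 : p • (y : T) = 0 := y.2
      show p • (ε.symm (0, (y : T))) = 0
      rw [← map_nsmul]
      have h2 : p • ((0 : Fin n → ℤ), (y : T)) = 0 := Prod.ext (smul_zero p) h1
      rw [h2, map_zero]
    · intro x
      apply Subtype.ext
      show ε.symm (0, (ε x).2) = x
      have h1 : p • (x : M) = 0 := x.2
      have h2 : p • (ε x) = 0 := by rw [← map_nsmul, h1, map_zero]
      have h3 : (ε x).1 = 0 := by
        have h4 : (ε (x : M)).1 ∈ (nsmulAddMonoidHom (α := Fin n → ℤ) p).ker := by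
          show p • (ε (x : M)).1 = 0
          rw [← Prod.smul_fst, h2]
          rfl
        rw [hF1, AddSubgroup.mem_bot] at h4
        exact h4
      rw [← h3, Prod.mk.eta, AddEquiv.symm_apply_apply]
    · intro y
      apply Subtype.ext
      show (ε (ε.symm (0, (y : T)))).2 = y
      rw [AddEquiv.apply_symm_apply]
  have hrange : (nsmulAddMonoidHom (α := M) p).range.map (ε : M →+ (Fin n → ℤ) × T) =
      (nsmulAddMonoidHom (α := (Fin n → ℤ) × T) p).range := by
    ext y
    constructor
    · rintro ⟨_, ⟨x, rfl⟩, rfl⟩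
      refine ⟨ε x, ?_⟩
      show p • ε x = ε (p • x)
      rw [map_nsmul]
    · rintro ⟨x, rfl⟩
      refine ⟨p • ε.symm x, ⟨ε.symm x, rfl⟩, ?_⟩
      show ε (p • ε.symm x) = p • x
      rw [map_nsmul, AddEquiv.apply_symm_apply]
  have hidx : (nsmulAddMonoidHom (α := M) p).range.index =
      p ^ n * Nat.card (nsmulAddMonoidHom (α := T) p).ker := by
    rw [← AddSubgroup.index_map_equiv _ ε, hrange, hr, AddSubgroup.index_prod, hF2, hT]
  have hfr : Module.finrank ℤ M = n := by
    have h1 : Module.finrank ℤ M = Module.finrank ℤ ((Fin n → ℤ) × T) :=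
      LinearEquiv.finrank_eq ε.toIntLinearEquiv
    have hTf : Module.Finite ℤ T := inferInstance
    have h2 := Submodule.finrank_quotient_add_finrank
      (LinearMap.ker (LinearMap.fst ℤ (Fin n → ℤ) T))
    have h3 : Module.finrank ℤ (LinearMap.ker (LinearMap.fst ℤ (Fin n → ℤ) T)) = 0 := by
      rw [Module.finrank_eq_zero_iff_isTorsion]
      intro x
      have hcz : ((Nat.card T : ℕ) : ℤ) ≠ 0 := by exact_mod_cast Nat.card_pos.ne'
      refine ⟨⟨((Nat.card T : ℕ) : ℤ), mem_nonZeroDivisors_of_ne_zero hcz⟩, ?_⟩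
      apply Subtype.ext
      show ((Nat.card T : ℕ) : ℤ) • (x : (Fin n → ℤ) × T) = 0
      have hx1 : (x : (Fin n → ℤ) × T).1 = 0 := x.2
      refine Prod.ext ?_ ?_
      · rw [Prod.smul_fst, hx1, smul_zero]
        rfl
      · rw [Prod.smul_snd, natCast_zsmul, card_nsmul_eq_zero']
        rfl
    have h4 : Module.finrank ℤ (((Fin n → ℤ) × T) ⧸
        LinearMap.ker (LinearMap.fst ℤ (Fin n → ℤ) T)) = Module.finrank ℤ (Fin n → ℤ) :=
      LinearEquiv.finrank_eq (LinearMap.quotKerEquivOfSurjective _ LinearMap.fst_surjective)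
    rw [h3, h4, Module.finrank_fin_fun, add_zero] at h2
    rw [h1, ← h2]
  refine ⟨Finite.of_equiv _ hker.symm, ?_⟩
  rw [hidx, hfr, Nat.card_congr hker]

theorem chevA_unit {p : ℕ} (hp : p.Prime) :
    ∃ u v : AdjoinRoot (Polynomial.cyclotomic p ℤ), u * v = 1 ∧
      (AdjoinRoot.root (Polynomial.cyclotomic p ℤ) - 1) ^ (p - 1) * u = (p : ℕ) := by
  have : Fact p.Prime := ⟨hp⟩
  have hpr : Prime (Polynomial.cyclotomic p ℤ) :=
    (Polynomial.cyclotomic.irreducible hp.pos).prime
  have hdom : IsDomain (AdjoinRoot (Polynomial.cyclotomic p ℤ)) :=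
    AdjoinRoot.isDomain_of_prime hpr
  obtain ⟨x, hx⟩ : ∃ x, x = AdjoinRoot.root (Polynomial.cyclotomic p ℤ) := ⟨_, rfl⟩
  have hmk : ∀ f : Polynomial ℤ, AdjoinRoot.mk (Polynomial.cyclotomic p ℤ) f =
      Polynomial.aeval x f := by
    intro f
    rw [hx, AdjoinRoot.aeval_eq]
  have hxp : x ^ p = 1 := by
    have h1 : Polynomial.cyclotomic p ℤ ∣ Polynomial.X ^ p - 1 :=
      Polynomial.cyclotomic.dvd_X_pow_sub_one p ℤ
    have h2 := hmk (Polynomial.X ^ p - 1)
    rw [AdjoinRoot.mk_eq_zero.2 h1] at h2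
    simp only [map_sub, map_pow, Polynomial.aeval_X, map_one] at h2
    linear_combination -h2
  have hp0 : ((p : ℕ) : AdjoinRoot (Polynomial.cyclotomic p ℤ)) ≠ 0 := by
    intro h
    have h1 : AdjoinRoot.mk (Polynomial.cyclotomic p ℤ) (Polynomial.C (p : ℤ)) = 0 := by
      rw [hmk, Polynomial.aeval_C]
      simpa using h
    rw [AdjoinRoot.mk_eq_zero] at h1
    have hpz : (Polynomial.C (p : ℤ)) ≠ 0 := by
      rw [Ne, Polynomial.C_eq_zero]
      exact_mod_cast hp.ne_zero
    have h2 := Polynomial.natDegree_le_of_dvd h1 hpz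
    rw [Polynomial.natDegree_C, Polynomial.natDegree_cyclotomic, Nat.totient_prime hp] at h2
    have := hp.two_le
    omega
  have hx1 : x ≠ 1 := by
    intro h
    apply hp0
    have h1 := congrArg (Polynomial.aeval x) (Polynomial.cyclotomic_prime ℤ p)
    rw [← hmk, AdjoinRoot.mk_self] at h1
    simp only [map_sum, map_pow, Polynomial.aeval_X, h, one_pow, Finset.sum_const,
      Finset.card_range] at h1
    rw [nsmul_eq_mul, mul_one] at h1
    exact h1.symm
  have hprim : IsPrimitiveRoot x p := by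
    have h1 := IsPrimitiveRoot.orderOf x
    rwa [orderOf_eq_prime hxp hx1] at h1
  have hprod : ((p : ℕ) : AdjoinRoot (Polynomial.cyclotomic p ℤ)) =
      ∏ μ ∈ primitiveRoots p (AdjoinRoot (Polynomial.cyclotomic p ℤ)), (1 - μ) := by
    rw [← Polynomial.eval_one_cyclotomic_prime,
      Polynomial.cyclotomic_eq_prod_X_sub_primitiveRoots hprim, Polynomial.eval_prod]
    simp
  have hass : ∀ s : Finset (AdjoinRoot (Polynomial.cyclotomic p ℤ)),
      (∀ μ ∈ s, IsPrimitiveRoot μ p) → Associated ((x - 1) ^ s.card) (∏ μ ∈ s, (1 - μ)) := by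
    classical
    intro s
    induction s using Finset.induction_on with
    | empty => intro _; simp
    | insert μ s hμ ih =>
      intro h
      rw [Finset.card_insert_of_notMem hμ, Finset.prod_insert hμ, pow_succ, mul_comm]
      refine Associated.mul_mul ?_ (ih fun ν hν => h ν (Finset.mem_insert_of_mem hν))
      obtain ⟨j, -, hj, rfl⟩ := hprim.isPrimitiveRoot_iff.1 (h μ (Finset.mem_insert_self _ _))
      rw [← neg_sub (x ^ j) 1]
      exact (hprim.associated_sub_one_pow_sub_one_of_coprime hj).trans (Associated.neg_right (Associated.refl _))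
  have h1 := hass _ fun μ hμ => isPrimitiveRoot_of_mem_primitiveRoots hμ
  rw [hprim.card_primitiveRoots, Nat.totient_prime hp, ← hprod] at h1
  obtain ⟨u, hu⟩ := h1
  exact ⟨u, (u⁻¹ : (AdjoinRoot (Polynomial.cyclotomic p ℤ))ˣ), u.mul_inv, by rw [← hx]; exact hu⟩

theorem chevA {M : Type} [AddCommGroup M] [Module.Finite ℤ M] {p : ℕ} (hp : p.Prime)
    (σ : M →+ M) (hN : ∀ x, ∑ i ∈ Finset.range p, (σ^[i]) x = 0) (b : ℕ)
    (hb : Module.finrank ℤ M = (p - 1) * b) :
    Finite (σ - AddMonoidHom.id M).ker ∧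
      (σ - AddMonoidHom.id M).range.index = p ^ b * Nat.card (σ - AddMonoidHom.id M).ker := by
  have : Fact p.Prime := ⟨hp⟩
  let S : AddMonoid.End M := σ
  have hSp : ∀ (i : ℕ) (x : M), (S ^ i) x = (σ^[i]) x := by
    intro i
    induction i with
    | zero => intro x; rfl
    | succ i ih =>
      intro x
      rw [pow_succ, Function.iterate_succ_apply]
      show (S ^ i) (σ x) = _
      rw [ih]
  have hcyc : Polynomial.aeval S (Polynomial.cyclotomic p ℤ) = 0 := by
    rw [Polynomial.cyclotomic_prime, map_sum]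
    simp only [map_pow, Polynomial.aeval_X]
    ext x
    have hsum : ∀ s : Finset ℕ, (∑ i ∈ s, S ^ i : AddMonoid.End M) x = ∑ i ∈ s, (S ^ i) x := by
      classical
      intro s
      induction s using Finset.induction_on with
      | empty => rfl
      | insert a s ha ih =>
        rw [Finset.sum_insert ha, Finset.sum_insert ha, ← ih]
        rfl
    rw [hsum]
    simp only [hSp]
    exact hN x
  let φ : AdjoinRoot (Polynomial.cyclotomic p ℤ) →+* AddMonoid.End M :=
    Ideal.Quotient.lift (Ideal.span {Polynomial.cyclotomic p ℤ})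
      (Polynomial.aeval S : Polynomial ℤ →ₐ[ℤ] AddMonoid.End M).toRingHom (by
        intro a ha
        rw [Ideal.mem_span_singleton'] at ha
        obtain ⟨c, rfl⟩ := ha
        show Polynomial.aeval S (c * Polynomial.cyclotomic p ℤ) = 0
        rw [map_mul, hcyc, mul_zero])
  have hφ : φ (AdjoinRoot.root (Polynomial.cyclotomic p ℤ)) = S := by
    show Polynomial.aeval S Polynomial.X = S
    rw [Polynomial.aeval_X]
  obtain ⟨u, v, huv, hu⟩ := chevA_unit hp
  let D : AddMonoid.End M := S - 1
  have hD : φ (AdjoinRoot.root (Polynomial.cyclotomic p ℤ) - 1) = D := by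
    rw [map_sub, hφ, map_one]
  have e1 : D ^ (p - 1) * φ u = ((p : ℕ) : AddMonoid.End M) := by
    rw [← hD, ← map_pow, ← map_mul, hu, map_natCast]
  have e2 : φ u * D ^ (p - 1) = ((p : ℕ) : AddMonoid.End M) := by
    rw [← hD, ← map_pow, ← map_mul, mul_comm, hu, map_natCast]
  have e3 : φ u * φ v = 1 := by rw [← map_mul, huv, map_one]
  have e4 : φ v * φ u = 1 := by rw [← map_mul, mul_comm, huv, map_one]
  have hcast : ∀ x : M, ((p : ℕ) : AddMonoid.End M) x = p • x := fun x => rfl
  have hker : AddMonoidHom.ker (D ^ (p - 1) : AddMonoid.End M) =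
      (nsmulAddMonoidHom (α := M) p).ker := by
    ext x
    constructor
    · intro hx
      have hx' : (D ^ (p - 1)) x = 0 := hx
      show p • x = 0
      rw [← hcast, ← e2]
      show (φ u) ((D ^ (p - 1)) x) = 0
      rw [hx', map_zero]
    · intro hx
      have hx' : p • x = 0 := hx
      show (D ^ (p - 1)) x = 0
      rw [← hcast, ← e2] at hx'
      have h1 : (φ v * (φ u * D ^ (p - 1))) x = (D ^ (p - 1)) x := by
        rw [← mul_assoc, e4, one_mul]
      rw [← h1]
      show (φ v) ((φ u * D ^ (p - 1)) x) = 0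
      rw [hx', map_zero]
  have hrange : AddMonoidHom.range (D ^ (p - 1) : AddMonoid.End M) =
      (nsmulAddMonoidHom (α := M) p).range := by
    ext x
    constructor
    · rintro ⟨y, rfl⟩
      refine ⟨(φ v) y, ?_⟩
      show p • ((φ v) y) = (D ^ (p - 1)) y
      rw [← hcast, ← e1]
      show (D ^ (p - 1)) ((φ u * φ v) y) = _
      rw [e3]
      rfl
    · rintro ⟨y, rfl⟩
      refine ⟨(φ u) y, ?_⟩
      show (D ^ (p - 1)) ((φ u) y) = p • y
      rw [← hcast, ← e1]
      rfl
  obtain ⟨hfin, hidx⟩ := chevA_p M hp.pos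
  rw [← hker] at hfin hidx
  rw [← hrange] at hidx
  have hcard : Nat.card (AddMonoidHom.ker (D ^ (p - 1) : AddMonoid.End M)) ≠ 0 :=
    Nat.card_pos.ne'
  have hp1 : 1 ≤ p - 1 := by
    have := hp.two_le
    omega
  have hle : AddMonoidHom.ker (D : AddMonoid.End M) ≤
      AddMonoidHom.ker (D ^ (p - 1) : AddMonoid.End M) := by
    intro x hx
    have hx' : D x = 0 := hx
    show (D ^ (p - 1)) x = 0
    obtain ⟨j, hj⟩ := Nat.exists_eq_add_of_le' hp1
    rw [hj, pow_succ]
    show (D ^ j) (D x) = 0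
    rw [hx', map_zero]
  have hfD : Finite (AddMonoidHom.ker (D : AddMonoid.End M)) :=
    Finite.of_injective _ (AddSubgroup.inclusion_injective hle)
  refine ⟨hfD, ?_⟩
  have h1 := chevA_pow D (p - 1) hcard (p - 1) le_rfl
  rw [hidx, hb] at h1
  have h2 : (p ^ b * Nat.card (AddMonoidHom.ker (D : AddMonoid.End M))) ^ (p - 1) =
      (AddMonoidHom.range (D : AddMonoid.End M)).index ^ (p - 1) := by
    apply mul_right_cancel₀ hcard
    rw [← h1, mul_pow, ← pow_mul, mul_comm b]
    ring
  exact (Nat.pow_left_injective (by omega) h2).symm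

end H63.MA
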