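import Pool.Agent.H63.MA.ACmb
import Pool.Agent.H63.MA.GDef

/-!
# MA-GCD: the class data of a group, and local data at all primes outside `S0`
-/

set_option autoImplicit false

open scoped NumberField
open IsDedekindDomain

noncomputable section

namespace H63.MA

/-- the class datum of a group -/
def GD.cd {p m N : ℕ} {G : Type} [Group G] (D : GD p m N G) : CD p m N where
  x i := Multiplicative.toAdd (D.π (D.g i))
  Θ := D.Θ
  self i θ hθ := (D.mem i θ).1 hθ (D.g i) rfl
  all y hy := by
    obtain ⟨h, hh⟩ := D.sur (Multiplicative.ofAdd y)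
    have h1 : h ≠ 1 := by
      rintro rfl
      rw [map_one] at hh
      apply hy
      exact (Multiplicative.ofAdd.injective hh).symm
    obtain ⟨i, hi⟩ := D.cls h h1
    refine ⟨i, ?_⟩
    have h2 : IsConj (D.π h) (D.π (D.g i)) := MonoidHom.map_isConj D.π hi
    rw [isConj_iff_eq, hh] at h2
    rw [← h2]
    rfl

/-- local data at all primes outside `S0` -/
structure LDs {K : Type} [Field K] [NumberField K] {p : ℕ} {ζ : K} (D : RD0 K p ζ) (Ω : Type)
    [Field Ω] [Algebra K Ω] where
  ld : ∀ v : Pl K, v ∉ D.S0 → LD p ζ Ω v (D.pi v)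

open Classical in
/-- the inertia generators -/
def LDs.t {K : Type} [Field K] [NumberField K] {p : ℕ} {ζ : K} {D : RD0 K p ζ} {Ω : Type}
    [Field Ω] [Algebra K Ω] (L : LDs D Ω) (v : Pl K) : Gal(Ω/K) :=
  if h : v ∉ D.S0 then (L.ld v h).t else 1

end H63.MA
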