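import Pool.Agent.H63.MA.GLowA
import Pool.Agent.H63.MA.ALowC

/-!
# MA-GLOWB: lower bound for the number of homomorphisms

`lowb`: for `X ≥ X₀` there are at least `C X (log X)^{N-1}` surjective homomorphisms `φ : Γ → G` of finite type such that for some finite set `T` of primes outside `S0`, `∏_{v ∈ T} nm v ≤ X`, `φ (t v) = 1`
for all `v ∉ S0 ∪ T`. Proof: for every `f` in the sum of `atlow` (for `cd`) with nonzero weight take `Rs` from `lowa` (`T = ⋃ f i`, `∏_{v ∈ T} nm v = ∏ nr (f i)`). The sets `Rs` for different `f` are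
disjoint: `f i = {v ∉ S0 : φ (t v) conjugate to g i}` (`Dg.uni`, `Dg.ne`; good primes are outside `S0`). So the union has at least `∑_f wt ≥ C X (log X)^{N-1}` elements.
-/

set_option autoImplicit false

open scoped NumberField
open IsDedekindDomain
open scoped Classical

noncomputable section

namespace H63.MA

variable {K : Type} [Field K] [NumberField K] {Ω : Type} [Field Ω] [Algebra K Ω] [IsAlgClosure K Ω]
  {p : ℕ} {ζ : K} {m N : ℕ}

/-- the classes of the values on the inertia generators determine the family -/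
theorem lowb_sub {G : Type} [Group G] (Dg : GD p m N G) {S0 : Finset (Pl K)} (val : Pl K → G)
    (f f' : Fin N → Finset (Pl K)) (hf : ∀ i, ∀ v ∈ f i, v ∉ S0)
    (h : ∀ i, ∀ v ∈ f i, IsConj (val v) (Dg.g i))
    (h' : ∀ i, ∀ v ∈ f' i, IsConj (val v) (Dg.g i))
    (h1 : ∀ v, v ∉ S0 → (∀ i, v ∉ f' i) → val v = 1) (i : Fin N) : f i ⊆ f' i := by
  intro v hv
  by_contra hcon
  by_cases hex : ∃ j, v ∈ f' j
  · obtain ⟨j, hj⟩ := hex
    have h2 : IsConj (Dg.g i) (Dg.g j) := (h i v hv).symm.trans (h' j v hj)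
    have h3 := Dg.uni i j h2
    subst h3
    exact hcon hj
  · have h2 := h1 v (hf i v hv) fun j hj => hex ⟨j, hj⟩
    have h3 := h i v hv
    rw [h2] at h3
    exact Dg.ne i (isConj_one_left.1 h3.symm)

theorem lowb (hp : p.Prime) (hp2 : MOne p K) (hζ : IsPrimitiveRoot ζ p) (D : RD K p ζ)
    (L : LDs D.toRD0 Ω) {G : Type} [Group G] [Finite G] (hG : Ep p G) (Dg : GD p m N G)
    (hN : 1 ≤ N) :
    ∃ C X₀ : ℝ, 0 < C ∧ 3 ≤ X₀ ∧ ∀ X : ℝ, X₀ ≤ X → ∃ Rs : Finset (Gal(Ω/K) →* G),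
      C * X * Real.log X ^ (N - 1) ≤ (Rs.card : ℝ) ∧
      ∀ φ ∈ Rs, H38.ML.FT φ ∧ Function.Surjective φ ∧ ∃ T : Finset (Pl K),
        (∀ v ∈ T, v ∉ D.S0) ∧ ∏ v ∈ T, (nm v : ℝ) ≤ X ∧
        ∀ v, v ∉ D.S0 → v ∉ T → φ (L.t v) = 1 := by
  haveI : NeZero p := ⟨hp.ne_zero⟩
  obtain ⟨C, X₀, hC, hX₀, hmain⟩ := atlow hp hp2 hζ D Dg.cd hN
  refine ⟨C, X₀, hC, hX₀, fun X hX => ?_⟩
  have hex : ∀ f : Fin N → Finset (Pl K), ∃ Rs : Finset (Gal(Ω/K) →* G),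
      (f ∈ Fintype.piFinset (fun _ : Fin N => GF D.toRD0 X) →
        (if Dj f ∧ ∏ i, nr (f i) ≤ X ∧ ∀ i, qf D.toRD0 (f i) = 0 ∧ f i ≠ ∅ then
          wt Dg.cd f (fun v k => D.LL v (ak D.toRD0 Dg.cd (fun _ => 1) f k)) else 0) ≤
          (Rs.card : ℝ)) ∧
      ∀ φ ∈ Rs, (Dj f ∧ ∏ i, nr (f i) ≤ X ∧ ∀ i, ∀ v ∈ f i, v ∉ D.toRD0.S0) ∧
        H38.ML.FT φ ∧ Function.Surjective φ ∧
        (∀ i, ∀ v ∈ f i, IsConj (φ (L.t v)) (Dg.g i)) ∧
        ∀ v, v ∉ D.S0 → (∀ i, v ∉ f i) → φ (L.t v) = 1 := by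
    intro f
    by_cases hf : f ∈ Fintype.piFinset (fun _ : Fin N => GF D.toRD0 X) ∧
        (Dj f ∧ ∏ i, nr (f i) ≤ X ∧ ∀ i, qf D.toRD0 (f i) = 0 ∧ f i ≠ ∅) ∧
        wt Dg.cd f (fun v k => D.LL v (ak D.toRD0 Dg.cd (fun _ => 1) f k)) ≠ 0
    · obtain ⟨h1, h2, h3⟩ := hf
      have hg : ∀ i, ∀ v ∈ f i, D.Gd v := by
        intro i v hv
        have h4 := (Fintype.mem_piFinset.1 h1) i
        unfold GF at h4
        exact (Finset.mem_filter.1 h4).2 v hv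
      obtain ⟨Rs, hRs, hRs'⟩ := lowa hp hp2 hζ D L hG Dg f h2.1 hg (fun i => (h2.2.2 i).1)
        (fun i => (h2.2.2 i).2) h3
      refine ⟨Rs, fun _ => ?_, fun φ hφ => ⟨⟨h2.1, h2.2.1, fun i v hv => (hg i v hv).1⟩,
        hRs' φ hφ⟩⟩
      rw [if_pos h2]
      exact hRs
    · refine ⟨∅, fun h1 => ?_, fun φ hφ => absurd hφ (Finset.notMem_empty φ)⟩
      rw [Finset.card_empty, Nat.cast_zero]
      by_cases h2 : Dj f ∧ ∏ i, nr (f i) ≤ X ∧ ∀ i, qf D.toRD0 (f i) = 0 ∧ f i ≠ ∅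
      · rw [if_pos h2]
        have h3 : wt Dg.cd f (fun v k => D.LL v (ak D.toRD0 Dg.cd (fun _ => 1) f k)) = 0 := by
          by_contra h3
          exact hf ⟨h1, h2, h3⟩
        exact h3.le
      · rw [if_neg h2]
  choose R hR1 hR2 using hex
  refine ⟨(Fintype.piFinset (fun _ : Fin N => GF D.toRD0 X)).biUnion R, ?_, ?_⟩
  · rw [Finset.card_biUnion]
    · push_cast
      exact (hmain X hX).trans (Finset.sum_le_sum fun f hf => hR1 f hf)
    · intro f _ f' _ hff'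
      show Disjoint (R f) (R f')
      rw [Finset.disjoint_left]
      intro φ hφ hφ'
      obtain ⟨⟨-, -, a1⟩, -, -, a2, a3⟩ := hR2 f φ hφ
      obtain ⟨⟨-, -, b1⟩, -, -, b2, b3⟩ := hR2 f' φ hφ'
      apply hff'
      funext i
      exact Finset.Subset.antisymm
        (lowb_sub Dg (fun v => φ (L.t v)) f f' a1 a2 b2 b3 i)
        (lowb_sub Dg (fun v => φ (L.t v)) f' f b1 b2 a2 a3 i)
  · intro φ hφ
    obtain ⟨f, -, hf⟩ := Finset.mem_biUnion.1 hφ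
    obtain ⟨⟨h1, h2, h3⟩, h4, h5, h6, h7⟩ := hR2 f φ hf
    refine ⟨h4, h5, Finset.univ.biUnion f, ?_, ?_, ?_⟩
    · intro v hv
      obtain ⟨i, -, hi⟩ := Finset.mem_biUnion.1 hv
      exact h3 i v hi
    · rw [Finset.prod_biUnion (fun i _ j _ hij => h1 i j hij)]
      exact h2
    · intro v hv hvT
      refine h7 v hv fun i hi => hvT ?_
      exact Finset.mem_biUnion.2 ⟨i, Finset.mem_univ i, hi⟩

end H63.MA
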