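import Pool.Agent.H63.MA.GUpB
import Pool.Agent.H63.MA.ATupB

/-!
# MA-GUPC: upper bound for the number of homomorphisms

`upc`: for `X ≥ X₀` every finite set `Rs` of surjective homomorphisms `φ : Γ → G` of finite type such that `∏_{v ∈ T} nm v ≤ X` for every finite set `T` of primes `v ∉ S0` with `φ (t v) ≠ 1` has at most `C X (log X)^{N-1}` elements.
Proof. For `φ ∈ Rs` let `f_φ i = {v ∉ S0 : φ (t v) conjugate to g i}` (finite by `ram_finite`, `Dg.ne`), pairwise disjoint (`Dg.uni`), `∏ nr (f_φ i) ≤ X`, and `ε_φ` from `upb`. For given `(ε, f)` the set of the `φ ∈ Rs` with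
`ε_φ = ε`, `f_φ = f` has the same `π ∘ φ` (`σ ↦ kk (a k) σ`), so it has at most `C₁ ∏_i (#class_i)^{#(f i)} = C₁ wt cd f (…)` elements (`upa`), and `f` occurs in the sum of `atup` (`f i ∈ AF X`). Sum over `f` (`atup`, all its terms are
`≥ 0`) and over the finitely many `ε : Fin m → U`.
-/

set_option autoImplicit false

open scoped NumberField
open IsDedekindDomain
open scoped Classical

noncomputable section

namespace H63.MA

variable {K : Type} [Field K] [NumberField K] {Ω : Type} [Field Ω] [Algebra K Ω] [IsAlgClosure K Ω]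
  {p : ℕ} {ζ : K} {m N : ℕ}

omit [IsAlgClosure K Ω] in
theorem gupc_conj_ne {G : Type} [Group G] (Dg : GD p m N G) {h : G} {i : Fin N}
    (hc : IsConj h (Dg.g i)) : h ≠ 1 := by
  rintro rfl
  exact Dg.ne i (isConj_one_right.1 hc)

theorem gupc_ff (hp : p.Prime) (D : RD0 K p ζ) (L : LDs D Ω) {G : Type} [Group G]
    (Dg : GD p m N G) (φ : Gal(Ω/K) →* G) (hφ : H38.ML.FT φ) :
    ∃ f : Fin N → Finset (Pl K), ∀ i v, v ∈ f i ↔ v ∉ D.S0 ∧ IsConj (φ (L.t v)) (Dg.g i) := by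
  have h1 : ∀ i, {v : Pl K | v ∉ D.S0 ∧ IsConj (φ (L.t v)) (Dg.g i)}.Finite := fun i =>
    (ram_finite hp D L φ hφ).subset fun v hv => ⟨hv.1, gupc_conj_ne Dg hv.2⟩
  refine ⟨fun i => (h1 i).toFinset, fun i v => ?_⟩
  rw [Set.Finite.mem_toFinset]
  rfl

/-- the data attached to a homomorphism -/
def GupcP (D : RD0 K p ζ) (L : LDs D Ω) {G : Type} [Group G] (Dg : GD p m N G) (U : Finset Kˣ)
    (X : ℝ) (φ : Gal(Ω/K) →* G) (e : (Fin m → Kˣ) × (Fin N → Finset (Pl K))) : Prop :=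
  (∀ k, e.1 k ∈ U) ∧ (∀ i v, v ∈ e.2 i ↔ v ∉ D.S0 ∧ IsConj (φ (L.t v)) (Dg.g i)) ∧
    Dj e.2 ∧ ∏ i, nr (e.2 i) ≤ X ∧
    (∀ σ k, Multiplicative.toAdd (Dg.π (φ σ)) k = kk p ζ (ak D Dg.cd e.1 e.2 k) σ) ∧
    (∀ θ : Fin m → ZMod p, θ ≠ 0 → ¬ IsPow p (bp (ak D Dg.cd e.1 e.2) θ)) ∧
    wt Dg.cd e.2 (fun v k => D.LL v (ak D Dg.cd e.1 e.2 k)) =
      ∏ i, (Nat.card {h : G // IsConj h (Dg.g i)} : ℝ) ^ (e.2 i).card

theorem gupc_ex (hp : p.Prime) (hζ : IsPrimitiveRoot ζ p) (D : RD0 K p ζ) (L : LDs D Ω)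
    {G : Type} [Group G] [Finite G] (hG : Ep p G) (Dg : GD p m N G) (U : Finset Kˣ)
    (hU : ∀ x, TUnit D.S0 x → ∃ u ∈ U, ∃ y : Kˣ, x = u * y ^ p) (X : ℝ) (φ : Gal(Ω/K) →* G)
    (hφ : H38.ML.FT φ) (hs : Function.Surjective φ)
    (hX : ∀ T : Finset (Pl K), (∀ v ∈ T, v ∉ D.S0 ∧ φ (L.t v) ≠ 1) → ∏ v ∈ T, (nm v : ℝ) ≤ X) :
    ∃ e, GupcP D L Dg U X φ e := by
  obtain ⟨f, hf⟩ := gupc_ff hp D L Dg φ hφ
  obtain ⟨ε, h1, h2, h3, h4⟩ := upb hp hζ D L hG Dg U hU φ hφ hs f hf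
  have hdj : Dj f := by
    intro i j hij
    rw [Finset.disjoint_left]
    intro v hv hv'
    exact hij (Dg.uni i j (((hf i v).1 hv).2.symm.trans ((hf j v).1 hv').2))
  refine ⟨(ε, f), h1, hf, hdj, ?_, h2, h3, h4⟩
  rw [← atupb_nrU f hdj]
  refine hX _ fun v hv => ?_
  obtain ⟨i, -, hi⟩ := Finset.mem_biUnion.1 hv
  exact ⟨((hf i v).1 hi).1, gupc_conj_ne Dg ((hf i v).1 hi).2⟩

theorem gupc_AF {X : ℝ} (f : Fin N → Finset (Pl K)) (h : ∏ i, nr (f i) ≤ X) (i : Fin N) :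
    f i ∈ AF K X := by
  rw [mem_AF]
  refine le_trans ?_ h
  rw [← Finset.mul_prod_erase _ _ (Finset.mem_univ i)]
  have h1 : ∀ S : Finset (Fin N), 1 ≤ ∏ j ∈ S, nr (f j) := by
    intro S
    induction S using Finset.induction_on with
    | empty => simp
    | insert a S ha ih =>
      rw [Finset.prod_insert ha]
      have h1 := one_le_nr (f a)
      nlinarith
  have h2 := h1 (Finset.univ.erase i)
  have h3 := one_le_nr (f i)
  nlinarith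

theorem upc (hp : p.Prime) (hp2 : MOne p K) (hζ : IsPrimitiveRoot ζ p) (D : RD K p ζ)
    (L : LDs D.toRD0 Ω) {G : Type} [Group G] [Finite G] (hG : Ep p G) (Dg : GD p m N G) :
    ∃ C X₀ : ℝ, 0 < C ∧ 3 ≤ X₀ ∧ ∀ X : ℝ, X₀ ≤ X → ∀ Rs : Finset (Gal(Ω/K) →* G),
      (∀ φ ∈ Rs, H38.ML.FT φ ∧ Function.Surjective φ ∧
        ∀ T : Finset (Pl K), (∀ v ∈ T, v ∉ D.S0 ∧ φ (L.t v) ≠ 1) → ∏ v ∈ T, (nm v : ℝ) ≤ X) →
      (Rs.card : ℝ) ≤ C * X * Real.log X ^ (N - 1) := by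
  have : NeZero p := ⟨hp.ne_zero⟩
  obtain ⟨U, hU1, hU2⟩ := unit_reps hp D.S0
  obtain ⟨C₁, h1⟩ := upa hp hζ D.toRD0 L hG Dg
  obtain ⟨C, X₀, hC, hX₀, h2⟩ := atup hp hp2 hζ D Dg.cd
  refine ⟨(U.card : ℝ) ^ m * C₁ * C + 1, X₀, by positivity, hX₀, fun X hX Rs hRs => ?_⟩
  have hX0 : 0 < X := by linarith
  have hlog : 0 ≤ Real.log X := Real.log_nonneg (by linarith)
  have hP : 0 ≤ X * Real.log X ^ (N - 1) := by positivity
  have hex : ∀ φ : Gal(Ω/K) →* G, ∃ e, φ ∈ Rs → GupcP D.toRD0 L Dg U X φ e := by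
    intro φ
    by_cases hφ : φ ∈ Rs
    · obtain ⟨ha, hb, hc⟩ := hRs φ hφ
      obtain ⟨e, he⟩ := gupc_ex hp hζ D.toRD0 L hG Dg U hU2 X φ ha hb hc
      exact ⟨e, fun _ => he⟩
    · exact ⟨(fun _ => 1, fun _ => ∅), fun h => absurd h hφ⟩
  choose E hE using hex
  set P1 : Finset (Fin m → Kˣ) := Fintype.piFinset (fun _ : Fin m => U) with hP1
  set P2 : Finset (Fin N → Finset (Pl K)) := Fintype.piFinset (fun _ : Fin N => AF K X) with hP2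
  have hmap : ∀ φ ∈ Rs, E φ ∈ P1 ×ˢ P2 := by
    intro φ hφ
    have h := hE φ hφ
    rw [Finset.mem_product, hP1, hP2, Fintype.mem_piFinset, Fintype.mem_piFinset]
    exact ⟨h.1, fun i => gupc_AF _ h.2.2.2.1 i⟩
  have hcard := Finset.card_eq_sum_card_fiberwise (f := E) (s := Rs) (t := P1 ×ˢ P2)
    (fun φ hφ => hmap φ hφ)
  have hfib : ∀ e ∈ P1 ×ˢ P2, (((Rs.filter fun φ => E φ = e).card : ℕ) : ℝ) ≤
      (C₁ : ℝ) * (if Dj e.2 ∧ (∀ i, ∀ v ∈ e.2 i, v ∉ D.S0) ∧ ∏ i, nr (e.2 i) ≤ X ∧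
        (∀ θ : Fin m → ZMod p, θ ≠ 0 → ¬ IsPow p (bp (ak D.toRD0 Dg.cd e.1 e.2) θ)) then
          wt Dg.cd e.2 (fun v k => D.LL v (ak D.toRD0 Dg.cd e.1 e.2 k)) else 0) := by
    intro e he
    by_cases hne : (Rs.filter fun φ => E φ = e).Nonempty
    · obtain ⟨φ₀, hφ₀⟩ := hne
      rw [Finset.mem_filter] at hφ₀
      obtain ⟨hφ₀, rfl⟩ := hφ₀
      obtain ⟨-, a2, a3, a4, a5, a6, a7⟩ := hE φ₀ hφ₀
      rw [if_pos ⟨a3, fun i v hv => ((a2 i v).1 hv).1, a4, a6⟩, a7]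
      have h3 := h1 (E φ₀).2 (Rs.filter fun φ => E φ = E φ₀)
        (fun φ hφ => (hRs φ (Finset.mem_filter.1 hφ).1).1)
        (fun φ hφ φ' hφ' σ => by
          obtain ⟨b1, b2⟩ := Finset.mem_filter.1 hφ
          obtain ⟨c1, c2⟩ := Finset.mem_filter.1 hφ'
          obtain ⟨-, -, -, -, b5, -, -⟩ := hE φ b1
          obtain ⟨-, -, -, -, c5, -, -⟩ := hE φ' c1
          apply Multiplicative.toAdd.injective
          funext k
          rw [b5 σ k, c5 σ k, b2, c2])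
        (fun φ hφ i v => by
          obtain ⟨b1, b2⟩ := Finset.mem_filter.1 hφ
          obtain ⟨-, b3, -, -, -, -, -⟩ := hE φ b1
          rw [← b2]
          exact b3 i v)
      exact_mod_cast h3
    · rw [Finset.not_nonempty_iff_eq_empty] at hne
      rw [hne, Finset.card_empty, Nat.cast_zero]
      refine mul_nonneg (Nat.cast_nonneg _) ?_
      split_ifs
      · exact atupb_wt_nonneg _ _ _
      · exact le_rfl
  calc (Rs.card : ℝ) = ∑ e ∈ P1 ×ˢ P2, (((Rs.filter fun φ => E φ = e).card : ℕ) : ℝ) := by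
        rw [hcard]
        push_cast
        rfl
    _ ≤ ∑ e ∈ P1 ×ˢ P2, (C₁ : ℝ) *
        (if Dj e.2 ∧ (∀ i, ∀ v ∈ e.2 i, v ∉ D.S0) ∧ ∏ i, nr (e.2 i) ≤ X ∧
        (∀ θ : Fin m → ZMod p, θ ≠ 0 → ¬ IsPow p (bp (ak D.toRD0 Dg.cd e.1 e.2) θ)) then
          wt Dg.cd e.2 (fun v k => D.LL v (ak D.toRD0 Dg.cd e.1 e.2 k)) else 0) :=
        Finset.sum_le_sum hfib
    _ = (C₁ : ℝ) * ∑ ε ∈ P1, ∑ f ∈ P2,
        (if Dj f ∧ (∀ i, ∀ v ∈ f i, v ∉ D.S0) ∧ ∏ i, nr (f i) ≤ X ∧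
        (∀ θ : Fin m → ZMod p, θ ≠ 0 → ¬ IsPow p (bp (ak D.toRD0 Dg.cd ε f) θ)) then
          wt Dg.cd f (fun v k => D.LL v (ak D.toRD0 Dg.cd ε f k)) else 0) := by
        rw [← Finset.mul_sum, Finset.sum_product]
    _ ≤ (C₁ : ℝ) * ∑ ε ∈ P1, C * X * Real.log X ^ (N - 1) := by
        refine mul_le_mul_of_nonneg_left (Finset.sum_le_sum fun ε hε => ?_) (Nat.cast_nonneg _)
        rw [hP1, Fintype.mem_piFinset] at hε
        exact h2 X hX ε fun k => hU1 _ (hε k)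
    _ = ((U.card : ℝ) ^ m * C₁ * C) * (X * Real.log X ^ (N - 1)) := by
        rw [Finset.sum_const, hP1, Fintype.card_piFinset_const, nsmul_eq_mul]
        push_cast
        ring
    _ ≤ ((U.card : ℝ) ^ m * C₁ * C + 1) * (X * Real.log X ^ (N - 1)) := by nlinarith
    _ = ((U.card : ℝ) ^ m * C₁ * C + 1) * X * Real.log X ^ (N - 1) := by ring

end H63.MA
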