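import Pool.Agent.H63.MA.SymB

/-!
# MA-GAUSSA: Gauss sums give elements with a known residue symbol

`q` a prime number, `p ∣ q - 1`, `q ≠ p`, `θ : (ZMod q)ˣ → ZMod p` a surjective homomorphism (written additively). There is `a ∈ K^*` with
`ord v a = 0` and `lg v a = - θ(N v)` for all `v ∤ p q`; moreover, in a field `L ⊇ K` containing a primitive `q`-th root of
unity `ξ`, `a = g^p` with `g = ∑_{x ∈ (ZMod q)ˣ} ζ^{θ x} ξ^x`.

Proof. `L` = cyclotomic extension `K(ξ)` (Mathlib: `CyclotomicField q K`), Galois over `K`. An automorphism `τ` of `L/K` maps `ξ` to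
`ξ^t`, so `τ g = ζ^{-θ(t)} g` (substitute `x ↦ x/t`), so `g^p` is fixed by all `τ` and lies in `K`. `g ≠ 0`: with
`g' = ∑ ζ^{-θ x} ξ^x` (`θ` replaced by `-θ`) `g g' = ± q` (Mathlib `gaussSum_mul_gaussSum_eq_card`, `θ` is not trivial because it is
surjective; or: `g * ∑ ζ^{-θ x} ξ^{-x} = q`, direct computation). All of `g, g'` are algebraic integers, so at a prime `w ∤ q` of `L`
they are units, and `ord v a = 0` for `v ∤ q` (`a` is integral and divides a power of `q`).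
Let `v ∤ p q`, `w` a prime of `L` over `v` (`𝓞 L`), `N = nm v = ℓ^f`, `ℓ ∈ v`. `p ∣ N - 1` (`dvd_nm`). In the ring `𝓞 L / ℓ`
(characteristic `ℓ`) raising to the power `N` is additive: `g^N ≡ ∑ ζ^{N θ x} ξ^{N x} = ∑ ζ^{θ x} ξ^{N x} = ζ^{-θ(N)} g` modulo `ℓ`. So
modulo `w`: `g^{N-1} ≡ ζ^{-θ(N)}`, that is `a^{(N-1)/p} ≡ ζ^{-θ(N)}` modulo `w`, hence modulo `v` (both sides in `K`;
`w ∩ 𝓞 K = v`), and `lg v a = -θ(N)` by `lg_unique`.
-/

set_option autoImplicit false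

open scoped NumberField
open IsDedekindDomain

noncomputable section

namespace H63.MA

/-- the Gauss sum -/
def gs {L : Type} [Field L] (p q : ℕ) [NeZero q] (ζ ξ : L) (θ : (ZMod q)ˣ →* Multiplicative (ZMod p)) :
    L := ∑ x : (ZMod q)ˣ, ζ ^ (Multiplicative.toAdd (θ x)).val * ξ ^ (x : ZMod q).val

section gauss

variable {p q : ℕ} [NeZero p] [NeZero q]

theorem ga_pow_add {R : Type} [Monoid R] {Z : R} (hZ : Z ^ p = 1) (a b : ZMod p) :
    Z ^ (a + b).val = Z ^ a.val * Z ^ b.val := by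
  rw [ZMod.val_add, ← pow_eq_pow_mod _ hZ, pow_add]

/-- the homomorphism into the units -/
def gaHom {R : Type} [CommRing R] {Z : R} (hZ : Z ^ p = 1)
    (θ : (ZMod q)ˣ →* Multiplicative (ZMod p)) : (ZMod q)ˣ →* Rˣ where
  toFun x := (Units.ofPowEqOne Z p hZ (NeZero.ne p)) ^ (Multiplicative.toAdd (θ x)).val
  map_one' := by
    rw [map_one, toAdd_one, ZMod.val_zero, pow_zero]
  map_mul' x y := by
    rw [map_mul, toAdd_mul]
    exact ga_pow_add (Units.pow_ofPowEqOne hZ (NeZero.ne p)) _ _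

/-- the multiplicative character -/
def gaChi {R : Type} [CommRing R] {Z : R} (hZ : Z ^ p = 1)
    (θ : (ZMod q)ˣ →* Multiplicative (ZMod p)) : MulChar (ZMod q) R :=
  MulChar.ofUnitHom (gaHom hZ θ)

theorem gaChi_unit {R : Type} [CommRing R] {Z : R} (hZ : Z ^ p = 1)
    (θ : (ZMod q)ˣ →* Multiplicative (ZMod p)) (x : (ZMod q)ˣ) :
    gaChi hZ θ (x : ZMod q) = Z ^ (Multiplicative.toAdd (θ x)).val := by
  unfold gaChi
  rw [MulChar.ofUnitHom_coe]
  have h1 : gaHom hZ θ x =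
      (Units.ofPowEqOne Z p hZ (NeZero.ne p)) ^ (Multiplicative.toAdd (θ x)).val := rfl
  rw [h1, Units.val_pow_eq_pow_val]
  rfl

/-- the Gauss sum of Mathlib -/
def gaG {R : Type} [CommRing R] {Z X : R} (hZ : Z ^ p = 1) (hX : X ^ q = 1)
    (θ : (ZMod q)ˣ →* Multiplicative (ZMod p)) : R :=
  gaussSum (gaChi hZ θ) (AddChar.zmodChar q hX)

theorem ga_sum {R : Type} [CommRing R] (χ : MulChar (ZMod q) R) (ψ : AddChar (ZMod q) R) :
    gaussSum χ ψ = ∑ x : (ZMod q)ˣ, χ (x : ZMod q) * ψ (x : ZMod q) := by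
  unfold gaussSum
  symm
  refine Fintype.sum_of_injective (fun x : (ZMod q)ˣ => (x : ZMod q)) Units.val_injective _ _ ?_
    (fun x => rfl)
  intro a ha
  have h1 : ¬ IsUnit a := fun ⟨x, hx⟩ => ha ⟨x, hx⟩
  rw [MulChar.map_nonunit _ h1, zero_mul]

theorem gaG_sum {R : Type} [CommRing R] {Z X : R} (hZ : Z ^ p = 1) (hX : X ^ q = 1)
    (θ : (ZMod q)ˣ →* Multiplicative (ZMod p)) :
    gaG hZ hX θ = ∑ x : (ZMod q)ˣ, Z ^ (Multiplicative.toAdd (θ x)).val *
      X ^ (x : ZMod q).val := by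
  unfold gaG
  rw [ga_sum]
  refine Finset.sum_congr rfl fun x _ => ?_
  rw [gaChi_unit, AddChar.zmodChar_apply]

theorem gaG_map {R S : Type} [CommRing R] [CommRing S] (f : R →+* S) {Z X : R} (hZ : Z ^ p = 1)
    (hX : X ^ q = 1) {Z' X' : S} (hZ' : Z' ^ p = 1) (hX' : X' ^ q = 1)
    (eZ : f Z = Z') (eX : f X = X') (θ : (ZMod q)ˣ →* Multiplicative (ZMod p)) :
    f (gaG hZ hX θ) = gaG hZ' hX' θ := by
  rw [gaG_sum, gaG_sum, map_sum]
  refine Finset.sum_congr rfl fun x _ => ?_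
  rw [map_mul, map_pow, map_pow, eZ, eX]

/-- Galois action -/
theorem gaG_gal {L : Type} [Field L] {Z X : L} (hZ : Z ^ p = 1)
    (hX : X ^ q = 1) (σ : L →+* L) (hσZ : σ Z = Z) (i : ℕ) (hσX : σ X = X ^ i) (t : (ZMod q)ˣ)
    (ht : (t : ZMod q) = (i : ZMod q)) (θ : (ZMod q)ˣ →* Multiplicative (ZMod p)) :
    Z ^ (Multiplicative.toAdd (θ t)).val * σ (gaG hZ hX θ) = gaG hZ hX θ := by
  have h1 : σ (gaG hZ hX θ) =
      gaussSum (gaChi hZ θ) (AddChar.mulShift (AddChar.zmodChar q hX) (t : ZMod q)) := by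
    rw [gaG_sum, map_sum, ga_sum]
    refine Finset.sum_congr rfl fun x _ => ?_
    rw [map_mul, map_pow, map_pow, hσZ, hσX, gaChi_unit, ht, AddChar.mulShift_spec',
      AddChar.zmodChar_apply, ← pow_mul, ← pow_mul, mul_comm i]
  have h2 := gaussSum_mulShift (gaChi hZ θ) (AddChar.zmodChar q hX) t
  rw [← h1, gaChi_unit] at h2
  exact h2

theorem ga_frob_iter {F : Type} [Field F] (ℓ : ℕ) [Fact ℓ.Prime] [CharP F ℓ]
    (χ : MulChar (ZMod q) F) (ψ : AddChar (ZMod q) F) (n : ℕ) :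
    gaussSum χ ψ ^ ℓ ^ n = gaussSum (χ ^ ℓ ^ n) (ψ ^ ℓ ^ n) := by
  induction n with
  | zero => simp
  | succ n ih => rw [pow_succ, pow_mul, ih, gaussSum_frob ℓ, ← pow_mul, ← pow_mul]

theorem gaG_frob {F : Type} [Field F] (ℓ : ℕ) [Fact ℓ.Prime] [CharP F ℓ] {Z X : F}
    (hZ : Z ^ p = 1) (hX : X ^ q = 1) (θ : (ZMod q)ˣ →* Multiplicative (ZMod p)) (n : ℕ)
    (hN : p ∣ ℓ ^ n - 1) (t : (ZMod q)ˣ) (ht : (t : ZMod q) = ((ℓ ^ n : ℕ) : ZMod q)) :
    Z ^ (Multiplicative.toAdd (θ t)).val * gaG hZ hX θ ^ ℓ ^ n = gaG hZ hX θ := by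
  have h1 : gaG hZ hX θ ^ ℓ ^ n =
      gaussSum (gaChi hZ θ) (AddChar.mulShift (AddChar.zmodChar q hX) (t : ZMod q)) := by
    unfold gaG
    rw [ga_frob_iter, ga_sum, ga_sum]
    refine Finset.sum_congr rfl fun x _ => ?_
    rw [ht, ← AddChar.pow_mulShift]
    congr 1
    rw [MulChar.pow_apply_coe, gaChi_unit]
    obtain ⟨k, hk⟩ := hN
    have h2 : ℓ ^ n = p * k + 1 := by
      have := Nat.pos_of_ne_zero (pow_ne_zero n (Fact.out : ℓ.Prime).ne_zero)
      omega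
    rw [h2, pow_succ, ← pow_mul, mul_comm _ (p * k), mul_assoc, pow_mul, hZ, one_pow, one_mul]
  have h2 := gaussSum_mulShift (gaChi hZ θ) (AddChar.zmodChar q hX) t
  rw [← h1, gaChi_unit] at h2
  exact h2

end gauss

theorem gauss_exists {K : Type} [Field K] [NumberField K] {p : ℕ} (hp : p.Prime) (hp2 : MOne p K)
    {ζ : K} (hζ : IsPrimitiveRoot ζ p) (q : ℕ) (hq : q.Prime) [NeZero q] (hqp : q ≠ p)
    (θ : (ZMod q)ˣ →* Multiplicative (ZMod p)) (hθ : Function.Surjective θ) :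
    ∃ a : Kˣ, (∀ v : Pl K, ¬ Above p v → ¬ Above q v → ord v a = 0 ∧
      ∀ u : (ZMod q)ˣ, (u : ZMod q) = (nm v : ZMod q) →
        lg p ζ v a = -Multiplicative.toAdd (θ u)) ∧
      ∃ (L : Type) (_ : Field L) (_ : NumberField L) (_ : Algebra K L) (ξ : L),
        IsPrimitiveRoot ξ q ∧ algebraMap K L a = gs p q (algebraMap K L ζ) ξ θ ^ p ∧
          gs p q (algebraMap K L ζ) ξ θ ≠ 0 := by
  have hpne : NeZero p := ⟨hp.ne_zero⟩
  have hpF : Fact p.Prime := ⟨hp⟩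
  have hqF : Fact q.Prime := ⟨hq⟩
  have hqK : NeZero ((q : ℕ) : K) := ⟨by exact_mod_cast hq.ne_zero⟩
  obtain ⟨L, iF, iA, iC⟩ : ∃ (L : Type) (_ : Field L) (_ : Algebra K L),
      IsCyclotomicExtension {q} K L :=
    ⟨CyclotomicField q K, inferInstance, inferInstance, inferInstance⟩
  have hcz : CharZero L := charZero_of_injective_algebraMap (algebraMap K L).injective
  have hNF : NumberField L := IsCyclotomicExtension.numberField {q} K L
  have hGal : IsGalois K L := IsCyclotomicExtension.isGalois {q} K L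
  obtain ⟨ξ, hξ⟩ : ∃ ξ : L, IsPrimitiveRoot ξ q :=
    ⟨IsCyclotomicExtension.zeta q K L, IsCyclotomicExtension.zeta_spec q K L⟩
  have hζL : IsPrimitiveRoot (algebraMap K L ζ) p :=
    hζ.map_of_injective (algebraMap K L).injective
  -- the integral Gauss sum
  obtain ⟨Z, hZ⟩ : ∃ Z : 𝓞 L, Z = hζL.toInteger := ⟨_, rfl⟩
  obtain ⟨X, hX⟩ : ∃ X : 𝓞 L, X = hξ.toInteger := ⟨_, rfl⟩
  have hZp : IsPrimitiveRoot Z p := by rw [hZ]; exact hζL.toInteger_isPrimitiveRoot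
  have hXp : IsPrimitiveRoot X q := by rw [hX]; exact hξ.toInteger_isPrimitiveRoot
  have hZc : algebraMap (𝓞 L) L Z = algebraMap K L ζ := by rw [hZ]; rfl
  have hXc : algebraMap (𝓞 L) L X = ξ := by rw [hX]; rfl
  obtain ⟨G, hG⟩ : ∃ G : 𝓞 L, G = gaG hZp.pow_eq_one hXp.pow_eq_one θ := ⟨_, rfl⟩
  have hχ : gaChi hZp.pow_eq_one θ ≠ 1 := by
    obtain ⟨x, hx⟩ := hθ (Multiplicative.ofAdd 1)
    intro h
    have h1 := gaChi_unit hZp.pow_eq_one θ x
    rw [h, MulChar.one_apply_coe, hx, toAdd_ofAdd] at h1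
    have h2 : ((1 : ZMod p)).val = 1 := by
      rw [ZMod.val_one]
    rw [h2, pow_one] at h1
    exact hZp.ne_one hp.one_lt h1.symm
  obtain ⟨G', hGG⟩ : ∃ G' : 𝓞 L, G * G' = (q : 𝓞 L) := by
    have h1 := gaussSum_mul_gaussSum_eq_card hχ
      (AddChar.zmodChar_primitive_of_primitive_root q hXp)
    rw [ZMod.card] at h1
    exact ⟨_, by rw [hG]; exact h1⟩
  have hG0 : G ≠ 0 := by
    intro h0
    rw [h0, zero_mul] at hGG
    exact hq.ne_zero (by exact_mod_cast hGG.symm)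
  have hgsL : algebraMap (𝓞 L) L G = gaG hζL.pow_eq_one hξ.pow_eq_one θ := by
    rw [hG]
    exact gaG_map _ _ _ _ _ hZc hXc θ
  have hgs : algebraMap (𝓞 L) L G = gs p q (algebraMap K L ζ) ξ θ := by
    rw [hgsL, gaG_sum]
    rfl
  have hgL0 : algebraMap (𝓞 L) L G ≠ 0 := by
    intro h0
    apply hG0
    apply NumberField.RingOfIntegers.coe_injective
    rw [map_zero]
    exact h0
  -- the element of K
  have hfix : (algebraMap (𝓞 L) L G) ^ p ∈ Set.range (algebraMap K L) := by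
    rw [IsGalois.mem_range_algebraMap_iff_fixed]
    intro σ
    have h1 : IsPrimitiveRoot (σ ξ) q := hξ.map_of_injective σ.injective
    obtain ⟨i, hi, hiq, hσ⟩ := (hξ.isPrimitiveRoot_iff).1 h1
    have h2 := gaG_gal hζL.pow_eq_one hξ.pow_eq_one (σ : L →+* L) (σ.commutes ζ) i hσ.symm
      (ZMod.unitOfCoprime i hiq) (ZMod.coe_unitOfCoprime i hiq) θ
    rw [← hgsL] at h2
    have h3 := congrArg (fun z => z ^ p) h2
    change (_ * σ (algebraMap (𝓞 L) L G)) ^ p = (algebraMap (𝓞 L) L G) ^ p at h3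
    rw [mul_pow, ← pow_mul, mul_comm _ p, pow_mul, hζL.pow_eq_one, one_pow, one_mul] at h3
    rw [map_pow]
    exact h3
  obtain ⟨aK, haK⟩ := hfix
  have haK0 : aK ≠ 0 := by
    rintro rfl
    rw [map_zero] at haK
    exact pow_ne_zero p hgL0 haK.symm
  have hint : IsIntegral ℤ aK := by
    have h1 : IsIntegral ℤ (algebraMap K L aK) := by
      rw [haK]
      exact (NumberField.RingOfIntegers.isIntegral_coe G).pow p
    exact (isIntegral_algebraMap_iff (algebraMap K L).injective).1 h1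
  obtain ⟨A, hA⟩ : ∃ A : 𝓞 K, algebraMap (𝓞 K) K A = aK := ⟨⟨aK, hint⟩, rfl⟩
  have hAG : algebraMap (𝓞 K) (𝓞 L) A = G ^ p := by
    apply NumberField.RingOfIntegers.coe_injective
    rw [map_pow, ← IsScalarTower.algebraMap_apply (𝓞 K) (𝓞 L) L,
      IsScalarTower.algebraMap_apply (𝓞 K) K L, hA]
    exact haK
  refine ⟨Units.mk0 aK haK0, ?_, L, iF, hNF, iA, ξ, hξ, ?_, ?_⟩
  · intro v hvp hvq
    have hvmax : v.asIdeal.IsMaximal := v.isMaximal
    obtain ⟨w, hwmax, hw⟩ := Ideal.exists_ideal_over_maximal_of_isIntegral (S := 𝓞 L) v.asIdeal (by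
      rw [(RingHom.injective_iff_ker_eq_bot _).1 (FaithfulSMul.algebraMap_injective (𝓞 K) (𝓞 L))]
      exact bot_le)
    let _ : Field (𝓞 L ⧸ w) := Ideal.Quotient.field w
    let _ : Field (𝓞 K ⧸ v.asIdeal) := Ideal.Quotient.field v.asIdeal
    have : Finite (𝓞 K ⧸ v.asIdeal) := Ideal.finiteQuotientOfFreeOfNeBot _ v.ne_bot
    let _ : Fintype (𝓞 K ⧸ v.asIdeal) := Fintype.ofFinite _
    have hmem : ∀ x : 𝓞 K, algebraMap (𝓞 K) (𝓞 L) x ∈ w ↔ x ∈ v.asIdeal := by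
      intro x
      rw [← hw, Ideal.mem_comap]
    obtain ⟨ℓ, hℓC⟩ := CharP.exists (𝓞 K ⧸ v.asIdeal)
    obtain ⟨n, hℓ, hn⟩ := FiniteField.card (𝓞 K ⧸ v.asIdeal) ℓ
    have hℓF : Fact ℓ.Prime := ⟨hℓ⟩
    have hnm : nm v = ℓ ^ (n : ℕ) := by
      rw [← hn, ← symb_card v, Nat.card_eq_fintype_card]
    have hch : CharP (𝓞 L ⧸ w) ℓ :=
      charP_of_injective_ringHom (f := Ideal.quotientMap w (algebraMap (𝓞 K) (𝓞 L))
        (le_of_eq hw.symm)) (RingHom.injective _) ℓ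
    obtain ⟨φ, hφ⟩ : ∃ φ : 𝓞 L →+* 𝓞 L ⧸ w, ∀ x, φ x = 0 ↔ x ∈ w :=
      ⟨Ideal.Quotient.mk w, fun x => Ideal.Quotient.eq_zero_iff_mem⟩
    have hφG : φ G ≠ 0 := by
      intro h0
      have h1 := congrArg φ hGG
      rw [map_mul, h0, zero_mul] at h1
      have h2 : ((q : ℕ) : 𝓞 L) ∈ w := (hφ _).1 h1.symm
      apply hvq
      show ((q : ℕ) : 𝓞 K) ∈ v.asIdeal
      rw [← hmem, map_natCast]
      exact h2
    have hφZ : (φ Z) ^ p = 1 := by rw [← map_pow, hZp.pow_eq_one, map_one]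
    have hφX : (φ X) ^ q = 1 := by rw [← map_pow, hXp.pow_eq_one, map_one]
    have hφg : φ G = gaG hφZ hφX θ := by
      rw [hG]
      exact gaG_map φ _ _ _ _ rfl rfl θ
    have hord : ord v (Units.mk0 aK haK0) = 0 := by
      rw [ord_eq_zero_iff, Units.val_mk0, ← hA, HeightOneSpectrum.valuation_eq_one_iff_notMem]
      intro hAv
      rw [← hmem, hAG, ← hφ, map_pow] at hAv
      exact pow_ne_zero p hφG hAv
    refine ⟨hord, ?_⟩
    intro u hu
    apply lg_unique hp hζ hvp hord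
    rw [Units.val_mk0]
    have hdv := dvd_nm hp hζ hvp
    obtain ⟨E, hE⟩ : ∃ E : 𝓞 K, E = A ^ ((nm v - 1) / p) -
      hζ.toInteger ^ (-Multiplicative.toAdd (θ u)).val := ⟨_, rfl⟩
    have hEK : algebraMap (𝓞 K) K E = aK ^ ((nm v - 1) / p) -
        ζ ^ (-Multiplicative.toAdd (θ u)).val := by
      rw [hE, map_sub, map_pow, map_pow, hA]
      rfl
    rw [← hEK, HeightOneSpectrum.valuation_lt_one_iff_mem, ← hmem, ← hφ]
    have hζZ : algebraMap (𝓞 K) (𝓞 L) hζ.toInteger = Z := by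
      apply NumberField.RingOfIntegers.coe_injective
      rw [hZc]
      rfl
    rw [hE, map_sub, map_pow, map_pow, hAG, hζZ, map_sub, map_pow, map_pow, map_pow, ← pow_mul,
      Nat.mul_div_cancel' hdv]
    have hfr := gaG_frob ℓ hφZ hφX θ n (by rw [← hnm]; exact hdv) u (by rw [← hnm]; exact hu)
    rw [← hφg, ← hnm] at hfr
    have hN : nm v = (nm v - 1) + 1 := by
      have := one_lt_nm v
      omega
    have h5 : φ Z ^ (Multiplicative.toAdd (θ u)).val * φ G ^ (nm v - 1) = 1 := by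
      have h6 : (φ Z ^ (Multiplicative.toAdd (θ u)).val * φ G ^ (nm v - 1)) * φ G = 1 * φ G := by
        rw [mul_assoc, ← pow_succ, ← hN, one_mul]
        exact hfr
      exact mul_right_cancel₀ hφG h6
    have h7 : φ Z ^ (-Multiplicative.toAdd (θ u)).val * φ Z ^ (Multiplicative.toAdd (θ u)).val =
        1 := by
      rw [← ga_pow_add hφZ, neg_add_cancel, ZMod.val_zero, pow_zero]
    rw [sub_eq_zero]
    calc φ G ^ (nm v - 1) = (φ Z ^ (-Multiplicative.toAdd (θ u)).val *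
        φ Z ^ (Multiplicative.toAdd (θ u)).val) * φ G ^ (nm v - 1) := by rw [h7, one_mul]
      _ = φ Z ^ (-Multiplicative.toAdd (θ u)).val := by rw [mul_assoc, h5, mul_one]
  · rw [Units.val_mk0, haK, hgs]
  · rw [← hgs]
    exact hgL0

end H63.MA
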