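import Pool.Agent.H63.MA.Ray

/-!
# MA-IDPER: ray class characters on the elements of an ideal

`s ≠ 0` an ideal; for `x ∈ s`, `x ≠ 0` there is exactly one ideal `n` with `(x) = n s`; `fj χ s x = χ(n)`.
* `fj_per`: `fj χ s x` depends only on `x` modulo `s 𝔣` (for nonzero `x`). Proof. Let `x' - x ∈ s 𝔣`, `(x) = n s`,
  `(x') = n' s`. `n` is prime to `𝔣` iff `(x) + s 𝔣 = s`, iff `(x') + s 𝔣 = s`, iff `n'` is; if not, both values are `0`.
  If they are, choose `b ∈ n`, `b ≠ 0`, `b - 1 ∈ 𝔣` (`n + 𝔣 = 1`; if `b = 0` then `1 ∈ 𝔣`, and any nonzero element of `n` will do).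
  `(b x') ⊂ n n' s = n' (x)`, so `b x' = a x` with `a ∈ n'`. `(a - b) x = b (x' - x) ∈ n s 𝔣 = (x) 𝔣`, so `a - b ∈ 𝔣`,
  `a - 1 ∈ 𝔣`, `a ≠ 0`. `(a) n = (b) n'` (multiply by `s`), so `χ(n) = χ((a)) χ(n) = χ((b)) χ(n') = χ(n')`.
* `fj_unit`: invariant under multiplication by units. `fj_spec`: `fj χ s x = χ n` if `(x) = n s`.
-/

set_option autoImplicit false

open scoped NumberField
open IsDedekindDomain
open scoped Classical

noncomputable section

namespace H63.MA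

variable {K : Type} [Field K] [NumberField K] {𝔣 : Ideal (𝓞 K)}

/-- the value of `χ` at the ideal `n` with `(x) = n s` -/
def fj (χ : RC K 𝔣) (s : Ideal (𝓞 K)) (x : 𝓞 K) : ℂ :=
  if h : ∃ n, Ideal.span {x} = n * s then χ.χ h.choose else 0

theorem fj_spec (χ : RC K 𝔣) {s : Ideal (𝓞 K)} (hs : s ≠ ⊥) {x : 𝓞 K} {n : Ideal (𝓞 K)}
    (h : Ideal.span {x} = n * s) : fj χ s x = χ.χ n := by
  have hs0 : s ≠ 0 := by rwa [Ideal.zero_eq_bot]
  have h' : ∃ n, Ideal.span {x} = n * s := ⟨n, h⟩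
  unfold fj
  rw [dif_pos h']
  congr 1
  have h2 := h'.choose_spec
  exact (mul_right_cancel₀ hs0 (h.symm.trans h2)).symm

theorem fj_unit (χ : RC K 𝔣) {s : Ideal (𝓞 K)} (hs : s ≠ ⊥) (u : (𝓞 K)ˣ) (x : 𝓞 K) :
    fj χ s ((u : 𝓞 K) * x) = fj χ s x := by
  have hu : Ideal.span {(u : 𝓞 K) * x} = Ideal.span {x} :=
    Ideal.span_singleton_mul_left_unit u.isUnit x
  by_cases h : ∃ n, Ideal.span {x} = n * s
  · obtain ⟨n, hn⟩ := h
    rw [fj_spec χ hs hn, fj_spec χ hs (hu.trans hn)]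
  · have h' : ¬ ∃ n, Ideal.span {(u : 𝓞 K) * x} = n * s := by
      rw [hu]
      exact h
    unfold fj
    rw [dif_neg h, dif_neg h']

theorem idPer_exists {s : Ideal (𝓞 K)} {x : 𝓞 K} (hx : x ∈ s) :
    ∃ n, Ideal.span {x} = n * s := by
  obtain ⟨n, hn⟩ := Ideal.dvd_iff_le.2 ((Ideal.span_singleton_le_iff_mem s).2 hx)
  exact ⟨n, by rw [hn, mul_comm]⟩

theorem idPer_sup {I : Ideal (𝓞 K)} {x x' : 𝓞 K} (h : x' - x ∈ I) :
    Ideal.span {x} ⊔ I = Ideal.span {x'} ⊔ I := by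
  apply le_antisymm
  · apply sup_le _ le_sup_right
    rw [Ideal.span_singleton_le_iff_mem]
    have h1 : x = x' - (x' - x) := by ring
    rw [h1]
    exact Ideal.sub_mem _ (Ideal.mem_sup_left (Ideal.mem_span_singleton_self x'))
      (Ideal.mem_sup_right h)
  · apply sup_le _ le_sup_right
    rw [Ideal.span_singleton_le_iff_mem]
    have h1 : x' = x + (x' - x) := by ring
    rw [h1]
    exact Ideal.add_mem _ (Ideal.mem_sup_left (Ideal.mem_span_singleton_self x))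
      (Ideal.mem_sup_right h)

theorem idPer_ne_bot {s n : Ideal (𝓞 K)} {x : 𝓞 K} (hx : x ≠ 0) (h : Ideal.span {x} = n * s) :
    n ≠ ⊥ := by
  rintro rfl
  rw [Ideal.bot_mul, Ideal.span_singleton_eq_bot] at h
  exact hx h

/-- a nonzero element of `n`, congruent to `1` -/
theorem idPer_one {n : Ideal (𝓞 K)} (hn : n ≠ ⊥) (hc : IsCoprime n 𝔣) :
    ∃ b ∈ n, b ≠ 0 ∧ b - 1 ∈ 𝔣 := by
  obtain ⟨b, hb, c, hc', hbc⟩ := Ideal.isCoprime_iff_exists.1 hc
  by_cases hb0 : b = 0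
  · have h1 : (1 : 𝓞 K) ∈ 𝔣 := by
      rw [← hbc, hb0, zero_add]
      exact hc'
    obtain ⟨z, hz, hz0⟩ := Submodule.exists_mem_ne_zero_of_ne_bot hn
    refine ⟨z, hz, hz0, ?_⟩
    have := 𝔣.mul_mem_left (z - 1) h1
    rwa [mul_one] at this
  · refine ⟨b, hb, hb0, ?_⟩
    have h1 : b - 1 = -c := by
      rw [← hbc]
      ring
    rw [h1]
    exact 𝔣.neg_mem hc'

theorem fj_per (h𝔣 : 𝔣 ≠ ⊥) (χ : RC K 𝔣) {s : Ideal (𝓞 K)} (hs : s ≠ ⊥) {x x' : 𝓞 K}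
    (hx : x ∈ s) (hx0 : x ≠ 0) (hx' : x' ≠ 0) (h : x' - x ∈ s * 𝔣) : fj χ s x = fj χ s x' := by
  have hs0 : s ≠ 0 := by rwa [Ideal.zero_eq_bot]
  have hx's : x' ∈ s := by
    have h1 : x' = x + (x' - x) := by ring
    rw [h1]
    have h2 : s * 𝔣 ≤ s := Ideal.mul_le_left
    exact s.add_mem hx (h2 h)
  obtain ⟨n, hn⟩ := idPer_exists hx
  obtain ⟨n', hn'⟩ := idPer_exists hx's
  rw [fj_spec χ hs hn, fj_spec χ hs hn']
  have hsup : n ⊔ 𝔣 = n' ⊔ 𝔣 := by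
    have h1 := idPer_sup h
    rw [hn, hn', mul_comm n s, mul_comm n' s, ← Ideal.mul_sup, ← Ideal.mul_sup] at h1
    exact mul_left_cancel₀ hs0 h1
  by_cases hc : IsCoprime n 𝔣
  · obtain ⟨b, hb, hb0, hb1⟩ := idPer_one (idPer_ne_bot hx0 hn) hc
    have h1 : b * x' ∈ n' * Ideal.span {x} := by
      rw [hn, mul_left_comm, ← hn']
      exact Ideal.mul_mem_mul hb (Ideal.mem_span_singleton_self x')
    obtain ⟨a, ha, hab⟩ := Ideal.mem_mul_span_singleton.1 h1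
    have h2 : (a - b) * x ∈ 𝔣 * Ideal.span {x} := by
      have h3 : (a - b) * x = b * (x' - x) := by
        rw [sub_mul, hab]
        ring
      rw [h3, hn, mul_comm 𝔣, mul_assoc]
      exact Ideal.mul_mem_mul hb h
    obtain ⟨z, hz, hzx⟩ := Ideal.mem_mul_span_singleton.1 h2
    have h4 : z = a - b := mul_right_cancel₀ hx0 hzx
    have ha1 : a - 1 ∈ 𝔣 := by
      have h5 : a - 1 = z + (b - 1) := by
        rw [h4]
        ring
      rw [h5]
      exact 𝔣.add_mem hz hb1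
    have ha0 : a ≠ 0 := by
      rintro rfl
      rw [zero_mul] at hab
      exact mul_ne_zero hb0 hx' hab.symm
    have h6 : Ideal.span {a} * n = Ideal.span {b} * n' := by
      apply mul_right_cancel₀ hs0
      rw [mul_assoc, mul_assoc, ← hn, ← hn', Ideal.span_singleton_mul_span_singleton,
        Ideal.span_singleton_mul_span_singleton, hab]
    have h7 := congrArg χ.χ h6
    rw [map_mul, map_mul, χ.ray a ha0 ha1, χ.ray b hb0 hb1, one_mul, one_mul] at h7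
    exact h7
  · have hc' : ¬ IsCoprime n' 𝔣 := by
      rw [Ideal.isCoprime_iff_sup_eq, ← hsup, ← Ideal.isCoprime_iff_sup_eq]
      exact hc
    rw [χ.zero_of n hc, χ.zero_of n' hc']

/-- the sum of `fj` over the residue classes modulo `s 𝔣` in `s` -/
def Mres (χ : RC K 𝔣) (s : Ideal (𝓞 K)) : ℂ :=
  ∑ᶠ r : 𝓞 K ⧸ (s * 𝔣), if h : ∃ x ∈ s, x ≠ 0 ∧ Ideal.Quotient.mk (s * 𝔣) x = r
    then fj χ s h.choose else 0

end H63.MA
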