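import Mathlib

/-!
# MA-LATA: Riemann sums over the lattice `𝓞 K` for Lipschitz functions

`E = mixedSpace K` (real vector space of dimension `d = [K:ℚ]`), `ι = mixedEmbedding K`. There are `c₀ > 0` and `C` such that
for every `F : E → ℝ` which is `Lp`-Lipschitz and vanishes for `‖x‖ > R` (`R ≥ 1`), for every `k : ℕ`, `k ≥ 1`, and every
`a ∈ 𝓞 K`:
`|∑_{x ∈ 𝓞 K, x ≡ a mod k} F (ι x) - c₀ k^{-d} ∫ F| ≤ C k Lp (R / k + 1)^d`.

Proof. Let `b` be the basis `mixedEmbedding.latticeBasis K` of `E`, `D = {∑ t_i b_i : 0 ≤ t_i < 1}` (`ZSpan.fundamentalDomain`),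
`V = vol D`, `c₀ = 1/V`, `δ = diam D`, and suppose first that `a = ∑ a_i b_i` with `0 ≤ a_i < k` (replace `a` by its
representative, `‖ι a‖ ≤ C k`). The sets `ι a + k (ι x) + k D`, `x ∈ 𝓞 K`, are pairwise disjoint with union `E` and have volume
`k^d V`, so `∫ F = ∑_x ∫_{ι (a + k x) + k D} F` and each term differs from `k^d V F(ι (a + k x))` by at most
`k^d V Lp k δ`. Only the `x` for which `ι (a + k x) + k D` meets the ball of radius `R` contribute; for these
`‖ι x‖ ≤ R / k + C`, and there are at most `C' (R/k + 1)^d` of them (disjoint translates of `D` in a ball of radius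
`R/k + C''`, volume of balls: `Measure.addHaar_ball`). Divide by `k^d V`.
The sum over `x ≡ a mod k` is written as a `finsum` over `x : 𝓞 K` of `F (ι (a + k x))`.
-/

set_option autoImplicit false

open scoped NumberField NNReal
open NumberField MeasureTheory
open scoped Classical Pointwise

noncomputable section

namespace H63.MA

section

variable {E : Type} [NormedAddCommGroup E] [NormedSpace ℝ E] [FiniteDimensional ℝ E]
  [MeasurableSpace E] [BorelSpace E]

omit [NormedSpace ℝ E] [FiniteDimensional ℝ E] in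
private lemma lata_inv (Λ : Submodule ℤ E) (μ : Measure E) [μ.IsAddHaarMeasure] :
    VAddInvariantMeasure Λ E μ :=
  ⟨fun g s _ => measure_preimage_add μ (g : E) s⟩

/-- finitely many points of the lattice in a ball, with a bound for their number -/
private lemma lata_count (Λ : Submodule ℤ E) [Countable Λ] (D : Set E) (μ : Measure E)
    [μ.IsAddHaarMeasure] (hD : IsAddFundamentalDomain Λ D μ) (δ : ℝ)
    (hδ : ∀ x ∈ D, ‖x‖ ≤ δ) (c : E) (r : ℝ) (hr : 0 ≤ r) (hδ0 : 0 ≤ δ) (T : Finset Λ)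
    (hT : ∀ g ∈ T, ‖(g : E) - c‖ ≤ r) :
    (T.card : ENNReal) * μ D ≤ ENNReal.ofReal ((r + δ) ^ Module.finrank ℝ E) *
      μ (Metric.ball 0 1) := by
  have := lata_inv Λ μ
  rw [← Measure.addHaar_closedBall μ c (by linarith : 0 ≤ r + δ)]
  rw [hD.measure_eq_tsum' (Metric.closedBall c (r + δ))]
  calc (T.card : ENNReal) * μ D = ∑ g ∈ T, μ D := by rw [Finset.sum_const, nsmul_eq_mul]
    _ = ∑ g ∈ T, μ (Metric.closedBall c (r + δ) ∩ (g +ᵥ D)) := by
        refine Finset.sum_congr rfl fun g hg => ?_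
        rw [Set.inter_eq_self_of_subset_right, measure_vadd]
        rintro _ ⟨x, hx, rfl⟩
        show (g : E) + x ∈ _
        rw [Metric.mem_closedBall, dist_eq_norm]
        calc ‖(g : E) + x - c‖ = ‖((g : E) - c) + x‖ := by congr 1; abel
          _ ≤ ‖(g : E) - c‖ + ‖x‖ := norm_add_le _ _
          _ ≤ r + δ := add_le_add (hT g hg) (hδ x hx)
    _ ≤ ∑' g : Λ, μ (Metric.closedBall c (r + δ) ∩ (g +ᵥ D)) := ENNReal.sum_le_tsum T

private lemma lata_real (Λ : Submodule ℤ E) [Countable Λ] (D : Set E) (μ : Measure E)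
    [μ.IsAddHaarMeasure] (hD : IsAddFundamentalDomain Λ D μ) (hDt : μ D ≠ ⊤) (hD0 : μ D ≠ 0) (δ : ℝ)
    (hδ : ∀ x ∈ D, ‖x‖ ≤ δ) (c : E) (r : ℝ) (hr : 0 ≤ r) (hδ0 : 0 ≤ δ) (T : Finset Λ)
    (hT : ∀ g ∈ T, ‖(g : E) - c‖ ≤ r) :
    (T.card : ℝ) ≤ (r + δ) ^ Module.finrank ℝ E * (μ.real (Metric.ball 0 1) / μ.real D) := by
  have h := lata_count Λ D μ hD δ hδ c r hr hδ0 T hT
  have hb : μ (Metric.ball (0 : E) 1) ≠ ⊤ := measure_ball_lt_top.ne
  have h2 := ENNReal.toReal_mono (ENNReal.mul_ne_top ENNReal.ofReal_ne_top hb) h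
  rw [ENNReal.toReal_mul, ENNReal.toReal_mul, ENNReal.toReal_natCast, ENNReal.toReal_ofReal
    (pow_nonneg (by linarith) _)] at h2
  have hpos : 0 < μ.real D := ENNReal.toReal_pos hD0 hDt
  rw [← mul_div_assoc, le_div_iff₀ hpos]
  exact h2

private lemma lata_finite (Λ : Submodule ℤ E) [Countable Λ] (D : Set E) (μ : Measure E)
    [μ.IsAddHaarMeasure] (hD : IsAddFundamentalDomain Λ D μ) (hDt : μ D ≠ ⊤) (hD0 : μ D ≠ 0) (δ : ℝ)
    (hδ : ∀ x ∈ D, ‖x‖ ≤ δ) (c : E) (r : ℝ) (hr : 0 ≤ r) (hδ0 : 0 ≤ δ) :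
    {g : Λ | ‖(g : E) - c‖ ≤ r}.Finite := by
  by_contra hinf
  have hinf' : {g : Λ | ‖(g : E) - c‖ ≤ r}.Infinite := hinf
  obtain ⟨n, hn⟩ := exists_nat_gt ((r + δ) ^ Module.finrank ℝ E *
    (μ.real (Metric.ball (0 : E) 1) / μ.real D))
  obtain ⟨T, hT, hcard⟩ := hinf'.exists_subset_card_eq n
  have h := lata_real Λ D μ hD hDt hD0 δ hδ c r hr hδ0 T fun g hg => hT hg
  rw [hcard] at h
  linarith

/-- the Riemann sum over a lattice -/
private lemma lata_sum (Λ : Submodule ℤ E) [Countable Λ] (D : Set E) (μ : Measure E)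
    [μ.IsAddHaarMeasure] (hD : IsAddFundamentalDomain Λ D μ) (hDt : μ D ≠ ⊤) (hD0 : μ D ≠ 0) (δ : ℝ)
    (hδ : ∀ x ∈ D, ‖x‖ ≤ δ) (hδ0 : 0 ≤ δ) (c : E) (r : ℝ) (hr : 0 ≤ r) (G : E → ℝ) (Lp : ℝ≥0)
    (hG : LipschitzWith Lp G) (hG0 : ∀ x, r < ‖x - c‖ → G x = 0) :
    |∑ᶠ g : Λ, G g - (μ.real D)⁻¹ * ∫ x, G x ∂μ| ≤
      (r + δ + δ) ^ Module.finrank ℝ E * (μ.real (Metric.ball (0 : E) 1) / μ.real D) * (Lp * δ) := by
  have := lata_inv Λ μ
  have hfin := lata_finite Λ D μ hD hDt hD0 δ hδ c (r + δ) (by linarith) hδ0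
  set T : Finset Λ := hfin.toFinset with hTdef
  have hTmem : ∀ g : Λ, g ∈ T ↔ ‖(g : E) - c‖ ≤ r + δ := fun g => by
    rw [hTdef, Set.Finite.mem_toFinset]
    rfl
  have hpos : 0 < μ.real D := ENNReal.toReal_pos hD0 hDt
  have hcs : HasCompactSupport G := by
    refine HasCompactSupport.intro (isCompact_closedBall c r) fun x hx => ?_
    rw [Metric.mem_closedBall, dist_eq_norm, not_le] at hx
    exact hG0 x hx
  have hint : Integrable G μ := hG.continuous.integrable_of_hasCompactSupport hcs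
  have hsum : ∑ᶠ g : Λ, G g = ∑ g ∈ T, G g := by
    refine finsum_eq_sum_of_support_subset _ fun g hg => ?_
    rw [Finset.mem_coe, hTmem]
    by_contra h
    exact hg (hG0 _ (by linarith))
  have hzero : ∀ g : Λ, g ∉ T → ∫ x in D, G (g +ᵥ x) ∂μ = 0 := by
    intro g hg
    rw [hTmem, not_le] at hg
    have : ∀ x ∈ D, G (g +ᵥ x) = 0 := by
      intro x hx
      refine hG0 _ ?_
      have h1 : ‖(g : E) - c‖ ≤ ‖(g : E) + x - c‖ + ‖x‖ := by
        calc ‖(g : E) - c‖ = ‖((g : E) + x - c) - x‖ := by congr 1; abel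
          _ ≤ _ := norm_sub_le _ _
      have h2 := hδ x hx
      show r < ‖(g : E) + x - c‖
      linarith
    rw [setIntegral_eq_zero_of_forall_eq_zero this]
  have hI : ∫ x, G x ∂μ = ∑ g ∈ T, ∫ x in D, G (g +ᵥ x) ∂μ := by
    rw [hD.integral_eq_tsum'' G hint]
    exact tsum_eq_sum hzero
  have hcard := lata_real Λ D μ hD hDt hD0 δ hδ c (r + δ) (by linarith) hδ0 T
    fun g hg => (hTmem g).1 hg
  have hterm : ∀ g ∈ T, |G g - (μ.real D)⁻¹ * ∫ x in D, G (g +ᵥ x) ∂μ| ≤ Lp * δ := by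
    intro g _
    have h1 : G g - (μ.real D)⁻¹ * ∫ x in D, G (g +ᵥ x) ∂μ =
        (μ.real D)⁻¹ * ∫ x in D, (G g - G (g +ᵥ x)) ∂μ := by
      rw [integral_sub, setIntegral_const, smul_eq_mul, mul_sub, ← mul_assoc,
        inv_mul_cancel₀ hpos.ne', one_mul]
      · exact (integrableOn_const hDt)
      · have h2 : Integrable (fun x => G ((g : E) + x)) μ := hint.comp_add_left (g : E)
        exact h2.integrableOn
    rw [h1, abs_mul, abs_of_pos (inv_pos.2 hpos)]
    have h3 : |∫ x in D, (G g - G (g +ᵥ x)) ∂μ| ≤ Lp * δ * μ.real D := by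
      rw [← Real.norm_eq_abs]
      refine norm_setIntegral_le_of_norm_le_const (lt_top_iff_ne_top.2 hDt) fun x hx => ?_
      have h4 := hG.dist_le_mul (g : E) ((g : E) + x)
      rw [dist_eq_norm, dist_eq_norm] at h4
      have h5 : ‖(g : E) - ((g : E) + x)‖ ≤ δ := by
        have h6 : (g : E) - ((g : E) + x) = - x := by abel
        rw [h6, norm_neg]
        exact hδ x hx
      exact h4.trans (mul_le_mul_of_nonneg_left h5 Lp.2)
    calc (μ.real D)⁻¹ * |∫ x in D, (G g - G (g +ᵥ x)) ∂μ|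
        ≤ (μ.real D)⁻¹ * (Lp * δ * μ.real D) :=
          mul_le_mul_of_nonneg_left h3 (inv_nonneg.2 hpos.le)
      _ = Lp * δ := by field_simp
  rw [hsum, hI, Finset.mul_sum, ← Finset.sum_sub_distrib]
  calc |∑ g ∈ T, (G g - (μ.real D)⁻¹ * ∫ x in D, G (g +ᵥ x) ∂μ)|
      ≤ ∑ g ∈ T, |G g - (μ.real D)⁻¹ * ∫ x in D, G (g +ᵥ x) ∂μ| :=
        Finset.abs_sum_le_sum_abs _ _
    _ ≤ ∑ g ∈ T, Lp * δ := Finset.sum_le_sum hterm
    _ = T.card * (Lp * δ) := by rw [Finset.sum_const, nsmul_eq_mul]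
    _ ≤ _ := mul_le_mul_of_nonneg_right hcard (mul_nonneg Lp.2 hδ0)

end

/-- the identification of `𝓞 K` with its lattice -/
private def lataEquiv (K : Type) [Field K] [NumberField K] :
    𝓞 K ≃ mixedEmbedding.integerLattice K :=
  Equiv.ofBijective (fun x => ⟨mixedEmbedding K ((x : 𝓞 K) : K), ⟨x, rfl⟩⟩) (by
    constructor
    · intro x y h
      have h1 : mixedEmbedding K ((x : 𝓞 K) : K) = mixedEmbedding K ((y : 𝓞 K) : K) :=
        congrArg Subtype.val h
      exact RingOfIntegers.ext (mixedEmbedding_injective K h1)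
    · rintro ⟨_, ⟨x, rfl⟩⟩
      exact ⟨x, rfl⟩)

private lemma lataEquiv_apply (K : Type) [Field K] [NumberField K] (x : 𝓞 K) :
    ((lataEquiv K x : mixedEmbedding.integerLattice K) : mixedEmbedding.mixedSpace K) =
      mixedEmbedding K ((x : 𝓞 K) : K) := rfl

private lemma lata_emb (K : Type) [Field K] [NumberField K] (k : ℕ) (a x : 𝓞 K) :
    mixedEmbedding K ((a + k * x : 𝓞 K) : K) =
      mixedEmbedding K (a : K) + (k : ℝ) • mixedEmbedding K (x : K) := by
  have h : ((a + k * x : 𝓞 K) : K) = (a : K) + (k : K) * (x : K) := by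
    simp
  rw [h, map_add, map_mul, map_natCast]
  rw [Nat.cast_smul_eq_nsmul, nsmul_eq_mul]

private lemma lata_dom (K : Type) [Field K] [NumberField K] :
    ∃ δ : ℝ, 1 ≤ δ ∧ ∀ x ∈ ZSpan.fundamentalDomain (mixedEmbedding.latticeBasis K), ‖x‖ ≤ δ := by
  obtain ⟨δ, hδ⟩ := (ZSpan.fundamentalDomain_isBounded
    (mixedEmbedding.latticeBasis K)).exists_norm_le
  exact ⟨max 1 δ, le_max_left _ _, fun x hx => (hδ x hx).trans (le_max_right _ _)⟩

private lemma lata_countable (K : Type) [Field K] [NumberField K] :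
    Countable (mixedEmbedding.integerLattice K) := by
  have : Countable (𝓞 K) := (RingOfIntegers.basis K).repr.injective.countable
  exact Countable.of_equiv _ (lataEquiv K)

theorem lat_sum (K : Type) [Field K] [NumberField K] :
    ∃ c₀ C : ℝ, 0 < c₀ ∧ 0 < C ∧ ∀ (F : mixedEmbedding.mixedSpace K → ℝ) (Lp : ℝ≥0) (R : ℝ), 1 ≤ R →
      LipschitzWith Lp F → (∀ x, R < ‖x‖ → F x = 0) → ∀ (k : ℕ), 1 ≤ k → ∀ a : 𝓞 K,
        |∑ᶠ x : 𝓞 K, F (mixedEmbedding K ((a + k * x : 𝓞 K) : K)) -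
            c₀ * ((k : ℝ) ^ Module.finrank ℚ K)⁻¹ * ∫ x, F x| ≤
          C * k * Lp * (R / k + 1) ^ Module.finrank ℚ K := by
  obtain ⟨δ, hδ1, hδ⟩ := lata_dom K
  have hcount := lata_countable K
  have hD := mixedEmbedding.fundamentalDomain_integerLattice K
  set D := ZSpan.fundamentalDomain (mixedEmbedding.latticeBasis K) with hDdef
  have hDt : volume D ≠ ⊤ := (ZSpan.fundamentalDomain_isBounded _).measure_lt_top.ne
  have hD0 : volume D ≠ 0 := ZSpan.measure_fundamentalDomain_ne_zero _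
  have hpos : 0 < volume.real D := ENNReal.toReal_pos hD0 hDt
  have hB : 0 ≤ volume.real (Metric.ball (0 : mixedEmbedding.mixedSpace K) 1) := measureReal_nonneg
  set d := Module.finrank ℚ K with hd
  refine ⟨(volume.real D)⁻¹, (2 * δ) ^ d * (volume.real
    (Metric.ball (0 : mixedEmbedding.mixedSpace K) 1) / volume.real D) * δ + 1,
    inv_pos.2 hpos, by positivity, fun F Lp R hR hF hF0 k hk a => ?_⟩
  have hk0 : (0 : ℝ) < k := by exact_mod_cast hk
  set ya := mixedEmbedding K (a : K) with hya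
  set G : mixedEmbedding.mixedSpace K → ℝ := fun y => F (ya + (k : ℝ) • y) with hGdef
  have hGL : LipschitzWith (Lp * k) G := by
    refine LipschitzWith.of_dist_le_mul fun x y => ?_
    refine (hF.dist_le_mul _ _).trans (le_of_eq ?_)
    rw [dist_add_left, dist_smul₀, Real.norm_of_nonneg hk0.le, NNReal.coe_mul, NNReal.coe_natCast]
    ring
  have hG0 : ∀ x, R / k < ‖x - (-((k : ℝ)⁻¹ • ya))‖ → G x = 0 := by
    intro x hx
    refine hF0 _ ?_
    have h1 : ya + (k : ℝ) • x = (k : ℝ) • (x - (-((k : ℝ)⁻¹ • ya))) := by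
      rw [sub_neg_eq_add, smul_add, smul_smul, mul_inv_cancel₀ hk0.ne', one_smul, add_comm]
    rw [h1, norm_smul, Real.norm_of_nonneg hk0.le]
    rwa [div_lt_iff₀ hk0, mul_comm] at hx
  have hmain := lata_sum (mixedEmbedding.integerLattice K) D volume hD hDt hD0 δ hδ (by linarith)
    (-((k : ℝ)⁻¹ • ya)) (R / k) (by positivity) G (Lp * k) hGL hG0
  have hs : ∑ᶠ x : 𝓞 K, F (mixedEmbedding K ((a + k * x : 𝓞 K) : K)) =
      ∑ᶠ g : mixedEmbedding.integerLattice K, G g := by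
    rw [← finsum_comp_equiv (lataEquiv K)]
    refine finsum_congr fun x => ?_
    rw [lataEquiv_apply, lata_emb]
  have hi : ∫ x, G x = ((k : ℝ) ^ d)⁻¹ * ∫ x, F x := by
    rw [hGdef, Measure.integral_comp_smul_of_nonneg volume (fun y => F (ya + y)) (k : ℝ)
      (hR := hk0.le), integral_add_left_eq_self F ya, smul_eq_mul, mixedEmbedding.finrank]
  rw [hs, mul_assoc, ← hi]
  refine hmain.trans ?_
  rw [mixedEmbedding.finrank, NNReal.coe_mul, NNReal.coe_natCast]
  have h1 : R / k + δ + δ ≤ 2 * δ * (R / k + 1) := by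
    have h2 : 0 ≤ R / k := by positivity
    nlinarith
  have h3 : (R / k + δ + δ) ^ d ≤ (2 * δ) ^ d * (R / k + 1) ^ d := by
    rw [← mul_pow]
    exact pow_le_pow_left₀ (by positivity) h1 d
  have hQ : 0 ≤ volume.real (Metric.ball (0 : mixedEmbedding.mixedSpace K) 1) / volume.real D :=
    div_nonneg hB hpos.le
  calc (R / k + δ + δ) ^ d * (volume.real (Metric.ball (0 : mixedEmbedding.mixedSpace K) 1) /
          volume.real D) * ((Lp : ℝ) * k * δ)
      ≤ ((2 * δ) ^ d * (R / k + 1) ^ d) * (volume.real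
          (Metric.ball (0 : mixedEmbedding.mixedSpace K) 1) / volume.real D) *
          ((Lp : ℝ) * k * δ) := by
        gcongr
    _ = ((2 * δ) ^ d * (volume.real (Metric.ball (0 : mixedEmbedding.mixedSpace K) 1) /
          volume.real D) * δ) * k * Lp * (R / k + 1) ^ d := by ring
    _ ≤ _ := by
        gcongr
        linarith

/-- the sum has only finitely many nonzero terms -/
theorem lat_fin (K : Type) [Field K] [NumberField K] (F : mixedEmbedding.mixedSpace K → ℝ) (R : ℝ)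
    (hR : ∀ x, R < ‖x‖ → F x = 0) (k : ℕ) (hk : 1 ≤ k) (a : 𝓞 K) :
    {x : 𝓞 K | F (mixedEmbedding K ((a + k * x : 𝓞 K) : K)) ≠ 0}.Finite := by
  obtain ⟨δ, hδ1, hδ⟩ := lata_dom K
  have hcount := lata_countable K
  have hD := mixedEmbedding.fundamentalDomain_integerLattice K
  have hDt : volume (ZSpan.fundamentalDomain (mixedEmbedding.latticeBasis K)) ≠ ⊤ :=
    (ZSpan.fundamentalDomain_isBounded _).measure_lt_top.ne
  have hD0 : volume (ZSpan.fundamentalDomain (mixedEmbedding.latticeBasis K)) ≠ 0 :=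
    ZSpan.measure_fundamentalDomain_ne_zero _
  have hk0 : (0 : ℝ) < k := by exact_mod_cast hk
  have hfin := lata_finite (mixedEmbedding.integerLattice K) _ volume hD hDt hD0 δ hδ
    (-((k : ℝ)⁻¹ • mixedEmbedding K (a : K))) (max R 0 / k)
    (div_nonneg (le_max_right _ _) hk0.le) (by linarith)
  refine Set.Finite.subset (hfin.preimage (f := lataEquiv K) (lataEquiv K).injective.injOn)
    fun x hx => ?_
  rw [Set.mem_preimage, Set.mem_ofPred_eq, lataEquiv_apply]
  by_contra h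
  rw [not_le] at h
  refine hx (hR _ ?_)
  rw [lata_emb]
  have h1 : mixedEmbedding K (a : K) + (k : ℝ) • mixedEmbedding K (x : K) = (k : ℝ) •
      (mixedEmbedding K (x : K) - (-((k : ℝ)⁻¹ • mixedEmbedding K (a : K)))) := by
    rw [sub_neg_eq_add, smul_add, smul_smul, mul_inv_cancel₀ hk0.ne', one_smul, add_comm]
  rw [h1, norm_smul, Real.norm_of_nonneg hk0.le]
  rw [div_lt_iff₀ hk0, mul_comm] at h
  exact lt_of_le_of_lt (le_max_left _ _) h

end H63.MA
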