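import Mathlib

/-!
# MA-PHI: a Lipschitz partition of unity modulo units

There is `Φ : E → ℝ` (`E = mixedSpace K`) with `0 ≤ Φ ≤ 1`, `Φ (t • x) = Φ x` for `t > 0`, `Φ x = 0` if `N x = 0`
(`N = mixedEmbedding.norm`), `∑_{u ∈ (𝓞 K)ˣ} Φ (u x) = 1` if `N x ≠ 0`, and a constant `C` with `‖x‖^d ≤ C N x` whenever
`Φ x ≠ 0`, such that for every `L`-Lipschitz `g : ℝ → ℝ` with `|g| ≤ 1` and support in `[1,4]` the function
`w x = Φ x * g (N x)` is `C (1 + L)`-Lipschitz.

Proof. For `N x ≠ 0` put `ℓ_w x = log ‖x_w‖ - (1/d) log (N x)` for the infinite places `w` (`‖x_w‖ = normAtPlace w x`), so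
`∑_w m_w ℓ_w = 0` and `ℓ (u x) = ℓ x + (log ‖u‖_w)_w`. Let `Φ₁ x = max 0 (A - max_w |ℓ_w x|)`. By Dirichlet's unit theorem
(`NumberField.Units.unitLattice_span_eq_top`, the unit lattice is a full lattice in the hyperplane; the last coordinate is
determined by the others) there is `A` such that every vector of the hyperplane `∑ m_w ℓ_w = 0` is at distance `≤ A/2` (max
norm) from the lattice, so `S x := ∑_u Φ₁ (u x) ≥ A/2`; only boundedly many `u` (`≤ M`, uniformly in `x`) contribute: the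
kernel of the logarithmic embedding is finite (torsion) and the lattice is discrete. Put `Φ = Φ₁ / S` if `N x ≠ 0`,
and `0` otherwise. If `Φ x ≠ 0` then `|ℓ_w x| < A`, so `‖x‖ ≤ e^A (N x)^{1/d}`.
Lipschitz: let `g` be as above. On `Ω = {x : 1/2 < N x < 8, |ℓ_w x| < A + 1}`, an open bounded set on which all `‖x_w‖` are
between two positive constants, `ℓ_w` is `C`-Lipschitz along segments contained in `Ω`, `Φ₁` and `S` (a sum of at most `M`
nonzero `C`-Lipschitz terms on a small ball) also, `S ≥ A/2`, so `Φ` is locally `C`-Lipschitz on `Ω`; `N` is locally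
`C`-Lipschitz on bounded sets, so `w` is locally `C (1 + L)`-Lipschitz on `Ω`, and it is `0` in a neighbourhood of every
point outside the closed set `{1 ≤ N x ≤ 4, |ℓ_w| ≤ A} ⊂ Ω`. A function on a normed space (convex) which is locally
`C'`-Lipschitz at every point (uniform constant) is `C'`-Lipschitz (segments).
Alternatively one may use smooth functions: `Φ₁ = ∏_w ρ (ℓ_w)` with a smooth bump `ρ`; then `Φ` is `C^1` on `{N ≠ 0}`.
-/

set_option autoImplicit false

open scoped NumberField NNReal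
open NumberField MeasureTheory
open scoped Classical

noncomputable section

namespace H63.MA

/-- properties of the partition of unity modulo units -/
structure UnitPart (K : Type) [Field K] [NumberField K] (Φ : mixedEmbedding.mixedSpace K → ℝ)
    (C : ℝ) : Prop where
  pos : 0 < C
  nonneg : ∀ x, 0 ≤ Φ x
  le_one : ∀ x, Φ x ≤ 1
  hom : ∀ (t : ℝ) x, 0 < t → Φ (t • x) = Φ x
  fin : ∀ x, mixedEmbedding.norm x ≠ 0 →
    {u : (𝓞 K)ˣ | Φ (mixedEmbedding K ((u : 𝓞 K) : K) * x) ≠ 0}.Finite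
  sum : ∀ x, mixedEmbedding.norm x ≠ 0 →
    ∑ᶠ u : (𝓞 K)ˣ, Φ (mixedEmbedding K ((u : 𝓞 K) : K) * x) = 1
  bound : ∀ x, Φ x ≠ 0 → mixedEmbedding.norm x ≠ 0 ∧
    ‖x‖ ^ Module.finrank ℚ K ≤ C * mixedEmbedding.norm x
  lip : ∀ (g : ℝ → ℝ) (L : ℝ≥0), LipschitzWith L g → (∀ t, |g t| ≤ 1) →
    (∀ t, t < 1 ∨ 4 < t → g t = 0) →
    LipschitzWith (Real.toNNReal (C * (1 + L))) fun x => Φ x * g (mixedEmbedding.norm x)

section BL

variable {E : Type} [NormedAddCommGroup E]

/-- bounded Lipschitz functions on a set -/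
private def BL (Ω : Set E) (f : E → ℝ) : Prop :=
  ∃ M c : ℝ, 0 ≤ M ∧ 0 ≤ c ∧ (∀ x ∈ Ω, |f x| ≤ M) ∧ ∀ x ∈ Ω, ∀ y ∈ Ω, |f x - f y| ≤ c * ‖x - y‖

private lemma BL.congr {Ω : Set E} {f g : E → ℝ} (hg : BL Ω g) (h : ∀ x ∈ Ω, f x = g x) :
    BL Ω f := by
  obtain ⟨M, c, hM, hc, h1, h2⟩ := hg
  refine ⟨M, c, hM, hc, fun x hx => by rw [h x hx]; exact h1 x hx, fun x hx y hy => ?_⟩
  rw [h x hx, h y hy]
  exact h2 x hx y hy

private lemma BL.const (Ω : Set E) (r : ℝ) : BL Ω (fun _ => r) :=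
  ⟨|r|, 0, abs_nonneg _, le_rfl, fun _ _ => le_rfl, fun x _ y _ => by simp⟩

private lemma BL.mul {Ω : Set E} {f g : E → ℝ} (hf : BL Ω f) (hg : BL Ω g) :
    BL Ω (fun x => f x * g x) := by
  obtain ⟨M, c, hM, hc, h1, h2⟩ := hf
  obtain ⟨N, e, hN, he, h3, h4⟩ := hg
  refine ⟨M * N, M * e + c * N, by positivity, by positivity, fun x hx => ?_, fun x hx y hy => ?_⟩
  · rw [abs_mul]
    exact mul_le_mul (h1 x hx) (h3 x hx) (abs_nonneg _) hM
  · have h5 : f x * g x - f y * g y = f x * (g x - g y) + (f x - f y) * g y := by ring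
    rw [h5]
    refine (abs_add_le _ _).trans ?_
    rw [abs_mul, abs_mul, add_mul]
    refine add_le_add ?_ ?_
    · rw [mul_assoc]
      exact mul_le_mul (h1 x hx) (h4 x hx y hy) (abs_nonneg _) hM
    · rw [mul_right_comm]
      exact mul_le_mul (h2 x hx y hy) (h3 y hy) (abs_nonneg _) (by positivity)

private lemma BL.add {Ω : Set E} {f g : E → ℝ} (hf : BL Ω f) (hg : BL Ω g) :
    BL Ω (fun x => f x + g x) := by
  obtain ⟨M, c, hM, hc, h1, h2⟩ := hf
  obtain ⟨N, e, hN, he, h3, h4⟩ := hg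
  refine ⟨M + N, c + e, by positivity, by positivity, fun x hx => ?_, fun x hx y hy => ?_⟩
  · exact (abs_add_le _ _).trans (add_le_add (h1 x hx) (h3 x hx))
  · have h5 : f x + g x - (f y + g y) = (f x - f y) + (g x - g y) := by ring
    rw [h5, add_mul]
    exact (abs_add_le _ _).trans (add_le_add (h2 x hx y hy) (h4 x hx y hy))

private lemma BL.sum {Ω : Set E} {J : Type} (s : Finset J) (f : J → E → ℝ)
    (h : ∀ i ∈ s, BL Ω (f i)) : BL Ω (fun x => ∑ i ∈ s, f i x) := by
  induction s using Finset.induction_on with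
  | empty => simpa using BL.const Ω 0
  | insert a s ha ih =>
    refine BL.congr (BL.add (h a (Finset.mem_insert_self a s))
      (ih fun i hi => h i (Finset.mem_insert_of_mem hi))) fun x _ => ?_
    rw [Finset.sum_insert ha]

private lemma BL.prod {Ω : Set E} {J : Type} (s : Finset J) (f : J → E → ℝ)
    (h : ∀ i ∈ s, BL Ω (f i)) : BL Ω (fun x => ∏ i ∈ s, f i x) := by
  induction s using Finset.induction_on with
  | empty => simpa using BL.const Ω 1
  | insert a s ha ih =>
    refine BL.congr (BL.mul (h a (Finset.mem_insert_self a s))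
      (ih fun i hi => h i (Finset.mem_insert_of_mem hi))) fun x _ => ?_
    rw [Finset.prod_insert ha]

private lemma BL.pow {Ω : Set E} {f : E → ℝ} (h : BL Ω f) (n : ℕ) : BL Ω (fun x => f x ^ n) := by
  refine BL.congr (BL.prod (Finset.range n) (fun _ => f) fun _ _ => h) fun x _ => ?_
  rw [Finset.prod_const, Finset.card_range]

private lemma BL.max0 {Ω : Set E} {f : E → ℝ} (h : BL Ω f) : BL Ω (fun x => max 0 (f x)) := by
  obtain ⟨M, c, hM, hc, h1, h2⟩ := h
  refine ⟨M, c, hM, hc, fun x hx => ?_, fun x hx y hy => ?_⟩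
  · rw [abs_of_nonneg (le_max_left _ _)]
    exact max_le hM ((le_abs_self _).trans (h1 x hx))
  · refine le_trans ?_ (h2 x hx y hy)
    have := abs_max_sub_max_le_max 0 (f x) 0 (f y)
    simpa using this

private lemma BL.inv {Ω : Set E} {f : E → ℝ} (h : BL Ω f) (η : ℝ) (hη : 0 < η)
    (hf : ∀ x ∈ Ω, η ≤ f x) : BL Ω (fun x => (f x)⁻¹) := by
  obtain ⟨M, c, hM, hc, h1, h2⟩ := h
  refine ⟨η⁻¹, η⁻¹ * η⁻¹ * c, by positivity, by positivity, fun x hx => ?_, fun x hx y hy => ?_⟩
  · have := hf x hx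
    rw [abs_of_nonneg (inv_nonneg.2 (by linarith))]
    exact inv_anti₀ hη this
  · have hx' := hf x hx
    have hy' := hf y hy
    have hx0 : 0 < f x := by linarith
    have hy0 : 0 < f y := by linarith
    have h5 : (f x)⁻¹ - (f y)⁻¹ = (f x)⁻¹ * (f y)⁻¹ * (f y - f x) := by
      field_simp
    rw [h5, abs_mul, abs_of_nonneg (by positivity), abs_sub_comm, mul_assoc (η⁻¹ * η⁻¹)]
    refine mul_le_mul (mul_le_mul (inv_anti₀ hη hx') (inv_anti₀ hη hy') (by positivity)
      (by positivity)) (h2 x hx y hy) (abs_nonneg _) (by positivity)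

end BL

section

variable {K : Type} [Field K] [NumberField K]

private abbrev EE (K : Type) [Field K] [NumberField K] : Type := mixedEmbedding.mixedSpace K

private lemma phi_place_le (w : InfinitePlace K) (x : EE K) :
    mixedEmbedding.normAtPlace w x ≤ ‖x‖ := by
  rw [mixedEmbedding.norm_eq_sup'_normAtPlace]
  exact Finset.le_sup' (fun w => mixedEmbedding.normAtPlace w x) (Finset.mem_univ w)

private lemma phi_place_lip (w : InfinitePlace K) (x y : EE K) :
    |mixedEmbedding.normAtPlace w x - mixedEmbedding.normAtPlace w y| ≤ ‖x - y‖ := by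
  have h1 := mixedEmbedding.normAtPlace_add_le w (x - y) y
  have h2 := mixedEmbedding.normAtPlace_add_le w (y - x) x
  rw [sub_add_cancel] at h1 h2
  have h3 : mixedEmbedding.normAtPlace w (y - x) = mixedEmbedding.normAtPlace w (x - y) := by
    rw [← neg_sub, mixedEmbedding.normAtPlace_neg]
  have h4 := phi_place_le w (x - y)
  rw [abs_le]
  constructor <;> linarith

private lemma phi_mul_norm (z x : EE K) : ‖z * x‖ ≤ ‖z‖ * ‖x‖ := by
  rw [mixedEmbedding.norm_eq_sup'_normAtPlace (z * x)]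
  refine Finset.sup'_le _ _ fun w _ => ?_
  rw [map_mul]
  exact mul_le_mul (phi_place_le w z) (phi_place_le w x) (mixedEmbedding.normAtPlace_nonneg _ _)
    (norm_nonneg _)

/-- the norm is bounded and Lipschitz on bounded sets -/
private lemma phi_BL_norm (R : ℝ) (hR : 0 ≤ R) :
    BL {x : EE K | ‖x‖ ≤ R} (fun x => mixedEmbedding.norm x) := by
  refine BL.congr (BL.prod Finset.univ
    (fun (w : InfinitePlace K) x => (mixedEmbedding.normAtPlace w x) ^ w.mult)
    fun w _ => BL.pow ⟨R, 1, hR, zero_le_one, fun x hx => ?_, fun x _ y _ => ?_⟩ _) fun x _ => ?_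
  · rw [abs_of_nonneg (mixedEmbedding.normAtPlace_nonneg _ _)]
    exact (phi_place_le w x).trans hx
  · rw [one_mul]
    exact phi_place_lip w x y
  · exact mixedEmbedding.norm_apply x

private lemma phi_BL_mulnorm (R : ℝ) (hR : 0 ≤ R) (z : EE K) :
    BL {x : EE K | ‖x‖ ≤ R} (fun x => ‖z * x‖) := by
  refine ⟨‖z‖ * R, ‖z‖, by positivity, norm_nonneg _, fun x hx => ?_, fun x _ y _ => ?_⟩
  · rw [abs_of_nonneg (norm_nonneg _)]
    exact (phi_mul_norm z x).trans (mul_le_mul_of_nonneg_left hx (norm_nonneg _))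
  · refine (abs_norm_sub_norm_le _ _).trans ?_
    rw [← mul_sub]
    exact phi_mul_norm z _

/-- all places of a vector are bounded below in terms of the norm -/
private lemma phi_lower (R : ℝ) (hR : 1 ≤ R) :
    ∃ Q : ℝ, 0 < Q ∧ ∀ (x : EE K), ‖x‖ ≤ R → ∀ w : InfinitePlace K,
      mixedEmbedding.norm x ≤ mixedEmbedding.normAtPlace w x * Q := by
  refine ⟨R * (R ^ 2) ^ (Fintype.card (InfinitePlace K)), by positivity, fun x hx w => ?_⟩
  have hR0 : 0 ≤ R := by linarith
  have hpl : ∀ v : InfinitePlace K, mixedEmbedding.normAtPlace v x ≤ R := fun v =>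
    (phi_place_le v x).trans hx
  have hnn : ∀ v : InfinitePlace K, 0 ≤ mixedEmbedding.normAtPlace v x := fun v =>
    mixedEmbedding.normAtPlace_nonneg v x
  have hm : ∀ v : InfinitePlace K, v.mult = 1 ∨ v.mult = 2 := by
    intro v
    unfold InfinitePlace.mult
    split_ifs
    · exact Or.inl rfl
    · exact Or.inr rfl
  rw [mixedEmbedding.norm_apply, ← Finset.mul_prod_erase _ _ (Finset.mem_univ w)]
  have h1 : mixedEmbedding.normAtPlace w x ^ w.mult ≤ mixedEmbedding.normAtPlace w x * R := by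
    rcases hm w with h | h
    · rw [h, pow_one]
      exact le_mul_of_one_le_right (hnn w) hR
    · rw [h, sq]
      exact mul_le_mul_of_nonneg_left (hpl w) (hnn w)
  have h2 : ∏ v ∈ Finset.univ.erase w, mixedEmbedding.normAtPlace v x ^ v.mult ≤
      (R ^ 2) ^ (Fintype.card (InfinitePlace K)) := by
    calc ∏ v ∈ Finset.univ.erase w, mixedEmbedding.normAtPlace v x ^ v.mult
        ≤ ∏ v ∈ Finset.univ.erase w, R ^ 2 := by
          refine Finset.prod_le_prod (fun v _ => pow_nonneg (hnn v) _) fun v _ => ?_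
          refine (pow_le_pow_left₀ (hnn v) (hpl v) _).trans ?_
          refine pow_le_pow_right₀ hR ?_
          rcases hm v with h | h <;> omega
      _ = (R ^ 2) ^ (Finset.univ.erase w).card := by rw [Finset.prod_const]
      _ ≤ (R ^ 2) ^ (Fintype.card (InfinitePlace K)) :=
          pow_le_pow_right₀ (one_le_pow₀ hR) (Finset.card_le_univ _)
  calc mixedEmbedding.normAtPlace w x ^ w.mult *
        ∏ v ∈ Finset.univ.erase w, mixedEmbedding.normAtPlace v x ^ v.mult
      ≤ (mixedEmbedding.normAtPlace w x * R) * (R ^ 2) ^ (Fintype.card (InfinitePlace K)) :=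
        mul_le_mul h1 h2 (Finset.prod_nonneg fun v _ => pow_nonneg (hnn v) _)
          (mul_nonneg (hnn w) hR0)
    _ = _ := by ring

/-- Dirichlet: a unit multiple is balanced -/
private lemma phi_dirichlet (K : Type) [Field K] [NumberField K] :
    ∃ A : ℝ, 0 < A ∧ ∀ x : EE K, mixedEmbedding.norm x ≠ 0 → ∃ u : (𝓞 K)ˣ,
      ‖mixedEmbedding K ((u : 𝓞 K) : K) * x‖ ^ Module.finrank ℚ K ≤
        A / 2 * mixedEmbedding.norm x := by
  obtain ⟨C, hC⟩ := isBounded_iff_forall_norm_le.mp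
    (mixedEmbedding.fundamentalCone.isBounded_normLeOne K)
  set d := Module.finrank ℚ K with hd
  have hdpos : 0 < d := Module.finrank_pos
  refine ⟨2 * (max 1 C) ^ d, by positivity, fun x hx => ?_⟩
  have hNpos : 0 < mixedEmbedding.norm x := lt_of_le_of_ne (mixedEmbedding.norm_nonneg x) hx.symm
  obtain ⟨u, hu⟩ := mixedEmbedding.fundamentalCone.exists_unit_smul_mem hx
  refine ⟨u, ?_⟩
  set t : ℝ := (mixedEmbedding.norm x) ^ (-(1 / (d : ℝ))) with ht
  have htpos : 0 < t := Real.rpow_pos_of_pos hNpos _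
  have htd : t ^ d * mixedEmbedding.norm x = 1 := by
    rw [ht, ← Real.rpow_natCast, ← Real.rpow_mul hNpos.le, neg_mul, one_div,
      inv_mul_cancel₀ (by exact_mod_cast hdpos.ne'), Real.rpow_neg_one,
      inv_mul_cancel₀ hNpos.ne']
  have hmem : t • (u • x) ∈ mixedEmbedding.fundamentalCone.normLeOne K := by
    refine ⟨mixedEmbedding.fundamentalCone.smul_mem_of_mem hu htpos.ne', ?_⟩
    rw [Set.mem_ofPred_eq, mixedEmbedding.norm_smul, mixedEmbedding.norm_unit_smul,
      abs_of_pos htpos, htd]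
  have h1 := hC _ hmem
  rw [norm_smul, Real.norm_of_nonneg htpos.le] at h1
  have h2 : u • x = mixedEmbedding K ((u : 𝓞 K) : K) * x := rfl
  rw [h2] at h1
  have h3 : t ^ d * ‖mixedEmbedding K ((u : 𝓞 K) : K) * x‖ ^ d ≤ (max 1 C) ^ d := by
    rw [← mul_pow]
    exact pow_le_pow_left₀ (by positivity) (h1.trans (le_max_right _ _)) d
  have h4 : ‖mixedEmbedding K ((u : 𝓞 K) : K) * x‖ ^ d =
      (t ^ d * ‖mixedEmbedding K ((u : 𝓞 K) : K) * x‖ ^ d) * mixedEmbedding.norm x := by
    rw [mul_right_comm, htd, one_mul]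
  rw [h4]
  calc (t ^ d * ‖mixedEmbedding K ((u : 𝓞 K) : K) * x‖ ^ d) * mixedEmbedding.norm x
      ≤ (max 1 C) ^ d * mixedEmbedding.norm x := mul_le_mul_of_nonneg_right h3 hNpos.le
    _ = 2 * (max 1 C) ^ d / 2 * mixedEmbedding.norm x := by ring

/-- the balanced bump -/
private def P1 (A : ℝ) (x : EE K) : ℝ :=
  if mixedEmbedding.norm x = 0 then 0
  else max 0 (1 - ‖x‖ ^ Module.finrank ℚ K * (A * mixedEmbedding.norm x)⁻¹)

private lemma P1_nonneg (A : ℝ) (x : EE K) : 0 ≤ P1 A x := by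
  unfold P1
  split_ifs
  · exact le_rfl
  · exact le_max_left _ _

private lemma P1_of_ne (A : ℝ) (x : EE K) (h : mixedEmbedding.norm x ≠ 0) :
    P1 A x = max 0 (1 - ‖x‖ ^ Module.finrank ℚ K * (A * mixedEmbedding.norm x)⁻¹) := by
  unfold P1
  rw [if_neg h]

private lemma P1_ne_zero (A : ℝ) (hA : 0 < A) (x : EE K) (h : P1 A x ≠ 0) :
    mixedEmbedding.norm x ≠ 0 ∧ ‖x‖ ^ Module.finrank ℚ K ≤ A * mixedEmbedding.norm x := by
  have h0 : mixedEmbedding.norm x ≠ 0 := by
    intro h0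
    apply h
    unfold P1
    rw [if_pos h0]
  have hNpos : 0 < mixedEmbedding.norm x := lt_of_le_of_ne (mixedEmbedding.norm_nonneg x) h0.symm
  refine ⟨h0, ?_⟩
  by_contra hlt
  rw [not_le] at hlt
  apply h
  rw [P1_of_ne A x h0]
  refine max_eq_left ?_
  have h1 : 1 ≤ ‖x‖ ^ Module.finrank ℚ K * (A * mixedEmbedding.norm x)⁻¹ := by
    rw [← div_eq_mul_inv, le_div_iff₀ (by positivity), one_mul]
    exact hlt.le
  linarith

private lemma P1_hom (A : ℝ) (t : ℝ) (ht : 0 < t) (x : EE K) : P1 A (t • x) = P1 A x := by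
  have h1 : mixedEmbedding.norm (t • x) = t ^ Module.finrank ℚ K * mixedEmbedding.norm x := by
    rw [mixedEmbedding.norm_smul, abs_of_pos ht]
  have htd : (0 : ℝ) < t ^ Module.finrank ℚ K := pow_pos ht _
  by_cases h : mixedEmbedding.norm x = 0
  · unfold P1
    rw [if_pos h, if_pos (by rw [h1, h, mul_zero])]
  · rw [P1_of_ne A x h, P1_of_ne A (t • x) (by rw [h1]; exact mul_ne_zero htd.ne' h), h1,
      norm_smul, Real.norm_of_nonneg ht.le, mul_pow]
    congr 2
    rw [mul_left_comm, mul_inv (t ^ Module.finrank ℚ K)]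
    field_simp

private lemma phi_unit_norm (u : (𝓞 K)ˣ) (x : EE K) :
    mixedEmbedding.norm (mixedEmbedding K ((u : 𝓞 K) : K) * x) = mixedEmbedding.norm x := by
  rw [map_mul, mixedEmbedding.norm_unit, one_mul]

/-- finitely many units with bounded conjugates -/
private lemma phi_units_finite (B : ℝ) :
    {u : (𝓞 K)ˣ | ∀ w : InfinitePlace K, w ((u : 𝓞 K) : K) ≤ B}.Finite := by
  have h := Embeddings.finite_of_norm_le K ℂ B
  refine Set.Finite.of_finite_image (f := fun u : (𝓞 K)ˣ => ((u : 𝓞 K) : K)) (h.subset ?_) ?_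
  · rintro _ ⟨u, hu, rfl⟩
    exact ⟨RingOfIntegers.isIntegral_coe _, (InfinitePlace.le_iff_le _ _).1 hu⟩
  · intro u _ v _ huv
    exact Units.ext (RingOfIntegers.ext huv)

/-- only finitely many units matter, uniformly -/
private lemma phi_uniform (A : ℝ) (hA : 0 < A) (R η : ℝ) (hR : 1 ≤ R) (hη : 0 < η) :
    ∃ U : Finset (𝓞 K)ˣ, ∀ x : EE K, ‖x‖ ≤ R → η ≤ mixedEmbedding.norm x →
      ∀ u : (𝓞 K)ˣ, P1 A (mixedEmbedding K ((u : 𝓞 K) : K) * x) ≠ 0 → u ∈ U := by
  obtain ⟨Q, hQ, hlow⟩ := phi_lower (K := K) R hR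
  refine ⟨(phi_units_finite (K := K) ((1 + A * (R * Q)) * (Q / η))).toFinset,
    fun x hx hN u hu => ?_⟩
  rw [Set.Finite.mem_toFinset]
  intro w
  obtain ⟨_, h1⟩ := P1_ne_zero A hA _ hu
  rw [phi_unit_norm] at h1
  have hNle : mixedEmbedding.norm x ≤ R * Q := (hlow x hx w).trans
    (mul_le_mul_of_nonneg_right ((phi_place_le w x).trans hx) hQ.le)
  have hd : Module.finrank ℚ K ≠ 0 := (Module.finrank_pos).ne'
  have h2 : ‖mixedEmbedding K ((u : 𝓞 K) : K) * x‖ ≤ 1 + A * (R * Q) := by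
    have h3 : ∀ s : ℝ, 0 ≤ s → s ≤ 1 + s ^ Module.finrank ℚ K := by
      intro s hs
      rcases le_total s 1 with h | h
      · have := pow_nonneg hs (Module.finrank ℚ K)
        linarith
      · have := le_self_pow₀ h hd
        linarith
    refine (h3 _ (norm_nonneg _)).trans ?_
    have h4 : A * mixedEmbedding.norm x ≤ A * (R * Q) := mul_le_mul_of_nonneg_left hNle hA.le
    linarith
  have h5 := (phi_place_le w (mixedEmbedding K ((u : 𝓞 K) : K) * x)).trans h2
  rw [map_mul, mixedEmbedding.normAtPlace_apply] at h5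
  have h6 : η / Q ≤ mixedEmbedding.normAtPlace w x := by
    rw [div_le_iff₀ hQ]
    exact hN.trans (hlow x hx w)
  have h7 : w ((u : 𝓞 K) : K) * (η / Q) ≤ 1 + A * (R * Q) :=
    (mul_le_mul_of_nonneg_left h6 (apply_nonneg w _)).trans h5
  rw [← le_div_iff₀ (by positivity)] at h7
  refine h7.trans (le_of_eq ?_)
  field_simp

private lemma phi_fin (A : ℝ) (hA : 0 < A) (x : EE K) (hx : mixedEmbedding.norm x ≠ 0) :
    {u : (𝓞 K)ˣ | P1 A (mixedEmbedding K ((u : 𝓞 K) : K) * x) ≠ 0}.Finite := by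
  have hNpos : 0 < mixedEmbedding.norm x := lt_of_le_of_ne (mixedEmbedding.norm_nonneg x) hx.symm
  obtain ⟨U, hU⟩ := phi_uniform (K := K) A hA (max 1 ‖x‖) _ (le_max_left _ _) hNpos
  exact U.finite_toSet.subset fun u hu => hU x (le_max_right _ _) le_rfl u hu

/-- the sum over all units -/
private def SS (A : ℝ) (x : EE K) : ℝ :=
  ∑ᶠ u : (𝓞 K)ˣ, P1 A (mixedEmbedding K ((u : 𝓞 K) : K) * x)

private lemma SS_unit (A : ℝ) (v : (𝓞 K)ˣ) (x : EE K) :
    SS A (mixedEmbedding K ((v : 𝓞 K) : K) * x) = SS A x := by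
  unfold SS
  rw [← finsum_comp_equiv (Equiv.mulRight v)
    (f := fun u : (𝓞 K)ˣ => P1 A (mixedEmbedding K ((u : 𝓞 K) : K) * x))]
  refine finsum_congr fun u => ?_
  have h : (((u * v : (𝓞 K)ˣ) : 𝓞 K) : K) = ((u : 𝓞 K) : K) * ((v : 𝓞 K) : K) := by
    simp
  show _ = P1 A (mixedEmbedding K (((u * v : (𝓞 K)ˣ) : 𝓞 K) : K) * x)
  rw [h, map_mul, mul_assoc]

private lemma SS_hom (A : ℝ) (t : ℝ) (ht : 0 < t) (x : EE K) : SS A (t • x) = SS A x := by
  unfold SS
  refine finsum_congr fun u => ?_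
  rw [mul_smul_comm, P1_hom A t ht]

private lemma SS_nonneg (A : ℝ) (x : EE K) : 0 ≤ SS A x :=
  finsum_nonneg fun _ => P1_nonneg A _

private lemma SS_half (A : ℝ) (hA : 0 < A) (hdir : ∀ x : EE K, mixedEmbedding.norm x ≠ 0 →
    ∃ u : (𝓞 K)ˣ, ‖mixedEmbedding K ((u : 𝓞 K) : K) * x‖ ^ Module.finrank ℚ K ≤
        A / 2 * mixedEmbedding.norm x) (x : EE K) (hx : mixedEmbedding.norm x ≠ 0) :
    1 / 2 ≤ SS A x := by
  have hNpos : 0 < mixedEmbedding.norm x := lt_of_le_of_ne (mixedEmbedding.norm_nonneg x) hx.symm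
  obtain ⟨u, hu⟩ := hdir x hx
  have h1 : 1 / 2 ≤ P1 A (mixedEmbedding K ((u : 𝓞 K) : K) * x) := by
    rw [P1_of_ne A _ (by rw [phi_unit_norm]; exact hx), phi_unit_norm]
    refine le_max_of_le_right ?_
    have h2 : ‖mixedEmbedding K ((u : 𝓞 K) : K) * x‖ ^ Module.finrank ℚ K *
        (A * mixedEmbedding.norm x)⁻¹ ≤ 1 / 2 := by
      rw [← div_eq_mul_inv, div_le_iff₀ (by positivity)]
      linarith
    linarith
  exact h1.trans (single_le_finsum u (phi_fin A hA x hx) fun _ => P1_nonneg A _)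

private lemma SS_ge (A : ℝ) (hA : 0 < A) (x : EE K) (hx : mixedEmbedding.norm x ≠ 0) :
    P1 A x ≤ SS A x := by
  have h := single_le_finsum (1 : (𝓞 K)ˣ) (phi_fin A hA x hx) fun _ => P1_nonneg A _
  unfold SS
  simpa using h

/-- the partition of unity -/
private def PH (A : ℝ) (x : EE K) : ℝ := P1 A x * (SS A x)⁻¹

private lemma PH_nonneg (A : ℝ) (x : EE K) : 0 ≤ PH A x :=
  mul_nonneg (P1_nonneg A x) (inv_nonneg.2 (SS_nonneg A x))

private lemma PH_le_one (A : ℝ) (hA : 0 < A) (x : EE K) : PH A x ≤ 1 := by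
  unfold PH
  by_cases h : mixedEmbedding.norm x = 0
  · have : P1 A x = 0 := by
      unfold P1
      rw [if_pos h]
    rw [this, zero_mul]
    exact zero_le_one
  · rw [← div_eq_mul_inv]
    exact div_le_one_of_le₀ (SS_ge A hA x h) (SS_nonneg A x)

private lemma PH_BL (A : ℝ) (hA : 0 < A) (hdir : ∀ x : EE K, mixedEmbedding.norm x ≠ 0 →
    ∃ u : (𝓞 K)ˣ, ‖mixedEmbedding K ((u : 𝓞 K) : K) * x‖ ^ Module.finrank ℚ K ≤
        A / 2 * mixedEmbedding.norm x) (R : ℝ) (hR : 1 ≤ R) :
    BL {x : EE K | ‖x‖ ≤ R ∧ 1 / 2 ≤ mixedEmbedding.norm x} (PH A) := by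
  obtain ⟨U, hU⟩ := phi_uniform (K := K) A hA R (1 / 2) hR (by norm_num)
  have hsub : {x : EE K | ‖x‖ ≤ R ∧ 1 / 2 ≤ mixedEmbedding.norm x} ⊆ {x : EE K | ‖x‖ ≤ R} :=
    fun x hx => hx.1
  have hmono : ∀ f : EE K → ℝ, BL {x : EE K | ‖x‖ ≤ R} f →
      BL {x : EE K | ‖x‖ ≤ R ∧ 1 / 2 ≤ mixedEmbedding.norm x} f := by
    rintro f ⟨M, c, hM, hc, h1, h2⟩
    exact ⟨M, c, hM, hc, fun x hx => h1 x (hsub hx),
      fun x hx y hy => h2 x (hsub hx) y (hsub hy)⟩
  have hN := hmono _ (phi_BL_norm (K := K) R (by linarith))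
  have hinv : BL {x : EE K | ‖x‖ ≤ R ∧ 1 / 2 ≤ mixedEmbedding.norm x}
      (fun x => (A * mixedEmbedding.norm x)⁻¹) := by
    refine BL.inv (BL.mul (BL.const _ A) hN) (A * (1 / 2)) (by positivity) fun x hx => ?_
    exact mul_le_mul_of_nonneg_left hx.2 hA.le
  have hP : ∀ z : EE K, mixedEmbedding.norm z = 1 →
      BL {x : EE K | ‖x‖ ≤ R ∧ 1 / 2 ≤ mixedEmbedding.norm x} (fun x => P1 A (z * x)) := by
    intro z hz
    have h1 := hmono _ (phi_BL_mulnorm R (by linarith) z)
    have h2 := BL.max0 (BL.add (BL.const _ 1) (BL.mul (BL.const _ (-1))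
      (BL.mul (BL.pow h1 (Module.finrank ℚ K)) hinv)))
    refine BL.congr h2 fun x hx => ?_
    have hxpos : 0 < mixedEmbedding.norm x := by
      have := hx.2
      linarith
    have h3 : mixedEmbedding.norm (z * x) = mixedEmbedding.norm x := by rw [map_mul, hz, one_mul]
    rw [P1_of_ne A _ (by rw [h3]; exact hxpos.ne'), h3]
    congr 1
    ring
  have hS : BL {x : EE K | ‖x‖ ≤ R ∧ 1 / 2 ≤ mixedEmbedding.norm x} (SS A) := by
    refine BL.congr (BL.sum U (fun u x => P1 A (mixedEmbedding K ((u : 𝓞 K) : K) * x))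
      fun u _ => hP _ (mixedEmbedding.norm_unit u)) fun x hx => ?_
    unfold SS
    exact finsum_eq_sum_of_support_subset _ fun u hu => hU x hx.1 hx.2 u hu
  have hP1 := hP 1 (map_one _)
  refine BL.congr (BL.mul hP1 (BL.inv hS (1 / 2) (by norm_num) fun x hx => ?_)) fun x _ => ?_
  · have hxpos : 0 < mixedEmbedding.norm x := by
      have := hx.2
      linarith
    exact SS_half A hA hdir x hxpos.ne'
  · rw [one_mul]
    rfl

end

theorem exists_unitPart (K : Type) [Field K] [NumberField K] :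
    ∃ Φ C, UnitPart K Φ C := by
  obtain ⟨A, hA, hdir⟩ := phi_dirichlet K
  set R : ℝ := 1 + A * 4 with hR
  have hR1 : 1 ≤ R + 1 := by rw [hR]; linarith
  obtain ⟨MΦ, cΦ, hMΦ, hcΦ, _, hΦ2⟩ := PH_BL A hA hdir (R + 1) hR1
  obtain ⟨MN, cN, hMN, hcN, _, hN2⟩ := phi_BL_norm (K := K) (R + 1) (by linarith)
  have hd : Module.finrank ℚ K ≠ 0 := (Module.finrank_pos).ne'
  set C : ℝ := A + cΦ + 5 * cN + 2 with hC
  have hCpos : 0 < C := by rw [hC]; linarith
  refine ⟨PH A, C, hCpos, PH_nonneg A, PH_le_one A hA, fun t x ht => ?_, fun x hx => ?_,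
    fun x hx => ?_, fun x hx => ?_, fun g L hg hg1 hg0 => ?_⟩
  · unfold PH
    rw [P1_hom A t ht, SS_hom A t ht]
  · refine (phi_fin A hA x hx).subset fun u hu => ?_
    intro h
    apply hu
    unfold PH
    rw [h, zero_mul]
  · have h1 : ∀ u : (𝓞 K)ˣ, PH A (mixedEmbedding K ((u : 𝓞 K) : K) * x) =
        P1 A (mixedEmbedding K ((u : 𝓞 K) : K) * x) * (SS A x)⁻¹ := by
      intro u
      unfold PH
      rw [SS_unit]
    rw [finsum_congr h1, ← finsum_mul]
    have h2 := SS_half A hA hdir x hx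
    exact mul_inv_cancel₀ (by linarith : (0 : ℝ) < SS A x).ne'
  · have h1 : P1 A x ≠ 0 := by
      intro h
      apply hx
      unfold PH
      rw [h, zero_mul]
    obtain ⟨h2, h3⟩ := P1_ne_zero A hA x h1
    refine ⟨h2, h3.trans (mul_le_mul_of_nonneg_right ?_ (mixedEmbedding.norm_nonneg x))⟩
    rw [hC]
    linarith
  · have hL : (0 : ℝ) ≤ L := L.2
    have hw1 : ∀ x : EE K, |PH A x * g (mixedEmbedding.norm x)| ≤ 1 := by
      intro x
      rw [abs_mul, abs_of_nonneg (PH_nonneg A x)]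
      exact mul_le_one₀ (PH_le_one A hA x) (abs_nonneg _) (hg1 _)
    -- the one-sided statement
    have key : ∀ x y : EE K, PH A x * g (mixedEmbedding.norm x) ≠ 0 →
        |PH A x * g (mixedEmbedding.norm x) - PH A y * g (mixedEmbedding.norm y)| ≤
          C * (1 + L) * ‖x - y‖ := by
      intro x y hne
      have hxy : 0 ≤ ‖x - y‖ := norm_nonneg _
      have hΦx : PH A x ≠ 0 := fun h => hne (by rw [h, zero_mul])
      have hgx : g (mixedEmbedding.norm x) ≠ 0 := fun h => hne (by rw [h, mul_zero])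
      have hNx : 1 ≤ mixedEmbedding.norm x ∧ mixedEmbedding.norm x ≤ 4 := by
        constructor
        · by_contra h
          exact hgx (hg0 _ (Or.inl (not_le.1 h)))
        · by_contra h
          exact hgx (hg0 _ (Or.inr (not_le.1 h)))
      have hxR : ‖x‖ ≤ R := by
        have h1 : P1 A x ≠ 0 := by
          intro h
          apply hΦx
          unfold PH
          rw [h, zero_mul]
        obtain ⟨_, h3⟩ := P1_ne_zero A hA x h1
        have h4 : ∀ s : ℝ, 0 ≤ s → s ≤ 1 + s ^ Module.finrank ℚ K := by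
          intro s hs
          rcases le_total s 1 with h | h
          · have := pow_nonneg hs (Module.finrank ℚ K)
            linarith
          · have := le_self_pow₀ h hd
            linarith
        have h5 := h4 ‖x‖ (norm_nonneg x)
        have h6 : A * mixedEmbedding.norm x ≤ A * 4 := mul_le_mul_of_nonneg_left hNx.2 hA.le
        rw [hR]
        linarith
      have htwo : |PH A x * g (mixedEmbedding.norm x) - PH A y * g (mixedEmbedding.norm y)| ≤ 2 := by
        refine (abs_sub _ _).trans ?_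
        have h1 := hw1 x
        have h2 := hw1 y
        linarith
      have hCL : C ≤ C * (1 + L) := by nlinarith
      by_cases hy : ‖y‖ ≤ R + 1
      · by_cases hNy : 1 / 2 ≤ mixedEmbedding.norm y
        · have h1 := hΦ2 x ⟨by linarith, by linarith [hNx.1]⟩ y ⟨hy, hNy⟩
          have h2 := hN2 x (show ‖x‖ ≤ R + 1 by linarith) y hy
          have h3 := hg.dist_le_mul (mixedEmbedding.norm x) (mixedEmbedding.norm y)
          rw [Real.dist_eq, Real.dist_eq] at h3
          have h4 : PH A x * g (mixedEmbedding.norm x) - PH A y * g (mixedEmbedding.norm y) =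
              (PH A x - PH A y) * g (mixedEmbedding.norm x) +
              PH A y * (g (mixedEmbedding.norm x) - g (mixedEmbedding.norm y)) := by ring
          rw [h4]
          refine (abs_add_le _ _).trans ?_
          rw [abs_mul, abs_mul, abs_of_nonneg (PH_nonneg A y)]
          have h5 : |PH A x - PH A y| * |g (mixedEmbedding.norm x)| ≤ cΦ * ‖x - y‖ * 1 :=
            mul_le_mul h1 (hg1 _) (abs_nonneg _) (by positivity)
          have h6 : PH A y * |g (mixedEmbedding.norm x) - g (mixedEmbedding.norm y)| ≤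
              1 * (L * (cN * ‖x - y‖)) :=
            mul_le_mul (PH_le_one A hA y) (h3.trans (mul_le_mul_of_nonneg_left h2 hL))
              (abs_nonneg _) zero_le_one
          have h7 : cΦ * ‖x - y‖ * 1 + 1 * (L * (cN * ‖x - y‖)) ≤ C * (1 + L) * ‖x - y‖ := by
            have h8 : cΦ + L * cN ≤ C * (1 + L) := by
              have h9 : L * cN ≤ L * C := mul_le_mul_of_nonneg_left (by rw [hC]; linarith) hL
              have h10 : cΦ ≤ C := by rw [hC]; linarith
              linarith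
            have h11 := mul_le_mul_of_nonneg_right h8 hxy
            linarith
          linarith
        · rw [not_le] at hNy
          have h2 := hN2 x (show ‖x‖ ≤ R + 1 by linarith) y hy
          have h3 : 1 / 2 ≤ cN * ‖x - y‖ := by
            refine le_trans ?_ h2
            refine le_trans ?_ (le_abs_self _)
            linarith [hNx.1]
          have h4 : 4 * cN * ‖x - y‖ ≤ C * (1 + L) * ‖x - y‖ :=
            mul_le_mul_of_nonneg_right (le_trans (by rw [hC]; linarith) hCL) hxy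
          linarith
      · rw [not_le] at hy
        have h1 : 1 ≤ ‖x - y‖ := by
          have h2 : ‖y‖ ≤ ‖x‖ + ‖x - y‖ := by
            calc ‖y‖ = ‖x - (x - y)‖ := by rw [sub_sub_cancel]
              _ ≤ _ := norm_sub_le _ _
          linarith
        have h3 : 2 * ‖x - y‖ ≤ C * (1 + L) * ‖x - y‖ :=
          mul_le_mul_of_nonneg_right (le_trans (by rw [hC]; linarith) hCL) hxy
        linarith
    refine LipschitzWith.of_dist_le_mul fun x y => ?_
    rw [Real.dist_eq, dist_eq_norm, Real.coe_toNNReal _ (by positivity)]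
    by_cases hx : PH A x * g (mixedEmbedding.norm x) = 0
    · by_cases hy : PH A y * g (mixedEmbedding.norm y) = 0
      · rw [hx, hy, sub_zero, abs_zero]
        positivity
      · rw [abs_sub_comm, norm_sub_rev]
        exact key y x hy
    · exact key x y hx

end H63.MA
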