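import Pool.Agent.H63.MA.IdOrth
import Pool.Agent.H63.MA.LatA
import Pool.Agent.H63.MA.Phi

/-!
# MA-IDSUM: smooth sums of ray class characters over ideals

`d = [K:ℚ]`. For a Lipschitz `g` with support in `[1,4]` put `μ(g) = c₀ ∫ Φ x g (N x) dx` (`c₀` from `lat_sum`, `Φ` from
`exists_unitPart`). There is a number `M χ` for every ray class character `χ` of modulus `𝔣 ≠ 0` such that
`|∑_I χ(I) g(N I / Y) - μ(g) Y M χ| ≤ C (N 𝔣)^A (1 + L) Y^{1 - 1/d}` for `Y ≥ 1`, with `C`, `A` depending only on `K`;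
`M χ = 0` if `χ` is not trivial on the ideals prime to `𝔣`; for the trivial character `1` of modulus `⊤`, `M = h` (class
number) `> 0` (here only: `M > 0`).

Proof. Let `s_1, ..., s_h` be as in `exists_reps` (depending only on `K`). For `I ≠ 0` there is exactly
one `j` with `I s_j` principal, and the generators `x ∈ s_j` of `I s_j` form one orbit of `(𝓞 K)ˣ`, with
`N (ι x) = N I N s_j`. By the partition of unity
`∑_I χ(I) g(N I/Y) = ∑_j ∑_{x ∈ s_j, x ≠ 0} fj(x) Φ(ι x) g(N(ι x) / (Y N s_j))` (`fj χ s_j`, `fj_unit`, `fj_spec`).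
Let `k_j = N(s_j 𝔣) ∈ s_j 𝔣`. The function `w x = Φ x g(N x)` scaled by `T = (Y N s_j)^{1/d}`: `F x = w (x / T)` is
`C (1+L) / T`-Lipschitz (`lip`, `hom`, and `norm` is homogeneous of degree `d`) with support in `‖x‖ ≤ C' T`,
`∫ F = T^d ∫ w`. `fj` is constant on the residue classes modulo `k_j` in `s_j` (`fj_per`; `0` contributes nothing since
`Φ 0 g(0) = 0`), there are at most `k_j^d` of them, and `lat_sum` for each of them gives
`Y N(s_j) μ(g) k_j^{-d} ∑_{a ∈ s_j mod k_j} fj(a)` with error `≤ k_j^d C k_j (1+L) T^{-1} (C' T/k_j + 1)^d ≤ C'' k_j^{d+1} (1+L) T^{d-1}`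
(`T ≥ 1`). As `[s_j 𝔣 : k_j 𝓞 K] = k_j^d / N(s_j 𝔣)`, the main term is `Y μ(g) (1/N 𝔣) ∑_j Mres χ (s_j)`; so
`M = (1/N 𝔣) ∑_j Mres χ (s_j)` and `orth_non`, `orth_one`. `μ(g) = c₀ ∫ w` with the `c₀` of `lat_sum`.
-/

set_option autoImplicit false

open scoped NumberField NNReal
open NumberField MeasureTheory
open scoped Classical

noncomputable section

namespace H63.MA

/-- smooth sum of a function on ideals; only ideals of norm at most `4 Y` contribute -/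
def smo {K : Type} [Field K] [NumberField K] (f : Ideal (𝓞 K) → ℂ) (g : ℝ → ℝ) (Y : ℝ) : ℂ :=
  ∑ I ∈ IN K (4 * Y), f I * (g ((Ideal.absNorm I : ℝ) / Y) : ℂ)


section idsum

variable {K : Type} [Field K] [NumberField K] {𝔣 : Ideal (𝓞 K)}

/-- weights on the residue classes -/
private def idsV (χ : RC K 𝔣) (s : Ideal (𝓞 K)) (r : 𝓞 K ⧸ (s * 𝔣)) : ℂ :=
  if h : ∃ x ∈ s, x ≠ 0 ∧ Ideal.Quotient.mk (s * 𝔣) x = r then fj χ s h.choose else 0

private lemma ids_mres (χ : RC K 𝔣) (s : Ideal (𝓞 K)) : Mres χ s = ∑ᶠ r, idsV χ s r := rfl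

private lemma ids_chi_le (χ : RC K 𝔣) (I : Ideal (𝓞 K)) : ‖χ.χ I‖ ≤ 1 := by
  by_cases hI : I = ⊥
  · subst hI
    have h : χ.χ (⊥ : Ideal (𝓞 K)) = 0 := map_zero χ.χ
    rw [h, norm_zero]
    exact zero_le_one
  · by_cases hc : IsCoprime I 𝔣
    · exact (χ.norm_one I hI hc).le
    · rw [χ.zero_of I hc, norm_zero]
      exact zero_le_one

private lemma ids_fj_le (χ : RC K 𝔣) (s : Ideal (𝓞 K)) (x : 𝓞 K) : ‖fj χ s x‖ ≤ 1 := by
  unfold fj
  split_ifs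
  · exact ids_chi_le _ _
  · rw [norm_zero]
    exact zero_le_one

private lemma ids_V_le (χ : RC K 𝔣) (s : Ideal (𝓞 K)) (r : 𝓞 K ⧸ (s * 𝔣)) :
    ‖idsV χ s r‖ ≤ 1 := by
  unfold idsV
  split_ifs
  · exact ids_fj_le _ _ _
  · rw [norm_zero]
    exact zero_le_one

private lemma ids_V_eq (h𝔣 : 𝔣 ≠ ⊥) (χ : RC K 𝔣) {s : Ideal (𝓞 K)} (hs : s ≠ ⊥) {x : 𝓞 K}
    (hx : x ∈ s) (hx0 : x ≠ 0) : idsV χ s (Ideal.Quotient.mk (s * 𝔣) x) = fj χ s x := by
  unfold idsV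
  have h : ∃ x' ∈ s, x' ≠ 0 ∧ Ideal.Quotient.mk (s * 𝔣) x' = Ideal.Quotient.mk (s * 𝔣) x :=
    ⟨x, hx, hx0, rfl⟩
  rw [dif_pos h]
  refine fj_per h𝔣 χ hs h.choose_spec.1 h.choose_spec.2.1 hx0 ?_
  exact Ideal.Quotient.eq.1 h.choose_spec.2.2.symm

private lemma ids_V_zero (χ : RC K 𝔣) {s : Ideal (𝓞 K)} {x : 𝓞 K} (hx : x ∉ s) :
    idsV χ s (Ideal.Quotient.mk (s * 𝔣) x) = 0 := by
  unfold idsV
  rw [dif_neg]
  rintro ⟨x', hx', -, h⟩
  have h0 : x' - x ∈ s * 𝔣 := Ideal.Quotient.eq.1 h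
  have hle : s * 𝔣 ≤ s := Ideal.mul_le_left
  have h1 : x' - x ∈ s := hle h0
  have h2 : x = x' - (x' - x) := (sub_sub_cancel x' x).symm
  exact hx (h2 ▸ s.sub_mem hx' h1)

private lemma ids_norm_emb (x : 𝓞 K) : mixedEmbedding.norm (mixedEmbedding K (x : K)) =
    (Ideal.absNorm (Ideal.span {x}) : ℝ) := by
  rw [mixedEmbedding.norm_eq_norm, Ideal.absNorm_span_singleton, ← Algebra.coe_norm_int]
  rw [Nat.cast_natAbs, Int.cast_abs]
  simp

private lemma ids_emb_mul (u : (𝓞 K)ˣ) (x : 𝓞 K) :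
    mixedEmbedding K (((u : 𝓞 K) * x : 𝓞 K) : K) =
      mixedEmbedding K ((u : 𝓞 K) : K) * mixedEmbedding K (x : K) := by
  rw [← map_mul]
  rfl

/-- the sum over the generators -/
private lemma ids_gen (Φ : mixedEmbedding.mixedSpace K → ℝ) (C₁ : ℝ) (hΦ : UnitPart K Φ C₁)
    (h𝔣 : 𝔣 ≠ ⊥) (χ : RC K 𝔣) {s : Ideal (𝓞 K)} (hs : s ≠ ⊥) (g : ℝ → ℝ)
    (hg : ∀ t, t < 1 ∨ 4 < t → g t = 0) (Y : ℝ) (hY : 1 ≤ Y)
    (F : mixedEmbedding.mixedSpace K → ℝ)
    (hF : ∀ x, F x = Φ x * g (mixedEmbedding.norm x / (Y * Ideal.absNorm s)))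
    (hfin : {x : 𝓞 K | F (mixedEmbedding K (x : K)) ≠ 0}.Finite) :
    ∑ᶠ x : 𝓞 K, idsV χ s (Ideal.Quotient.mk (s * 𝔣) x) * (F (mixedEmbedding K (x : K)) : ℂ) =
      ∑ I ∈ IN K (4 * Y), if (I * s).IsPrincipal then
        χ.χ I * (g ((Ideal.absNorm I : ℝ) / Y) : ℂ) else 0 := by
  have hNs : (0 : ℝ) < Ideal.absNorm s := by
    have : Ideal.absNorm s ≠ 0 := fun h => hs (Ideal.absNorm_eq_zero_iff.1 h)
    exact_mod_cast Nat.pos_of_ne_zero this
  set S : Finset (𝓞 K) := hfin.toFinset.filter fun x => x ∈ s with hSdef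
  have hSmem : ∀ x, x ∈ S ↔ F (mixedEmbedding K (x : K)) ≠ 0 ∧ x ∈ s := fun x => by
    rw [hSdef, Finset.mem_filter, Set.Finite.mem_toFinset]
    rfl
  set q : 𝓞 K → Ideal (𝓞 K) := fun x =>
    if h : ∃ n, Ideal.span {x} = n * s then h.choose else ⊥ with hqdef
  have hq : ∀ x, x ∈ s → Ideal.span {x} = q x * s := by
    intro x hx
    have h : ∃ n, Ideal.span {x} = n * s := by
      have h1 : s ∣ Ideal.span {x} := Ideal.dvd_span_singleton.2 hx
      obtain ⟨n, hn⟩ := h1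
      exact ⟨n, by rw [hn, mul_comm]⟩
    rw [hqdef]
    simp only
    rw [dif_pos h]
    exact h.choose_spec
  have hnz : ∀ x : 𝓞 K, F (mixedEmbedding K (x : K)) ≠ 0 → x ≠ 0 := by
    rintro x hx rfl
    rw [hF] at hx
    have h1 := (hΦ.bound _ (left_ne_zero_of_mul hx)).1
    apply h1
    rw [ids_norm_emb]
    simp
  have hnorm : ∀ x : 𝓞 K, x ∈ s → mixedEmbedding.norm (mixedEmbedding K (x : K)) /
      (Y * Ideal.absNorm s) = (Ideal.absNorm (q x) : ℝ) / Y := by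
    intro x hx
    rw [ids_norm_emb, hq x hx, map_mul, Nat.cast_mul]
    field_simp
  have h1 : ∑ᶠ x : 𝓞 K, idsV χ s (Ideal.Quotient.mk (s * 𝔣) x) *
      (F (mixedEmbedding K (x : K)) : ℂ) = ∑ x ∈ S, idsV χ s (Ideal.Quotient.mk (s * 𝔣) x) *
      (F (mixedEmbedding K (x : K)) : ℂ) := by
    refine finsum_eq_sum_of_support_subset _ fun x hx => ?_
    rw [Finset.mem_coe, hSmem]
    have hx' : idsV χ s (Ideal.Quotient.mk (s * 𝔣) x) * (F (mixedEmbedding K (x : K)) : ℂ) ≠ 0 :=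
      hx
    refine ⟨fun h => hx' (by rw [h]; simp), ?_⟩
    by_contra h
    exact hx' (by rw [ids_V_zero χ h, zero_mul])
  have h2 : ∀ x ∈ S, q x ∈ IN K (4 * Y) := by
    intro x hx
    rw [hSmem] at hx
    rw [mem_IN (by linarith)]
    have h3 : g ((Ideal.absNorm (q x) : ℝ) / Y) ≠ 0 := by
      rw [← hnorm x hx.2]
      have := hx.1
      rw [hF] at this
      exact right_ne_zero_of_mul this
    constructor
    · by_contra h4
      rw [not_le] at h4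
      refine h3 (hg _ (Or.inr ?_))
      rw [lt_div_iff₀ (by linarith)]
      exact h4
    · intro h4
      refine hnz x hx.1 ?_
      have h5 := hq x hx.2
      rw [h4, Ideal.bot_mul, Ideal.span_singleton_eq_bot] at h5
      exact h5
  rw [h1, ← Finset.sum_fiberwise_of_maps_to h2]
  refine Finset.sum_congr rfl fun I hI => ?_
  rw [mem_IN (by linarith)] at hI
  have h3 : ∀ x ∈ S.filter (fun x => q x = I), idsV χ s (Ideal.Quotient.mk (s * 𝔣) x) *
      (F (mixedEmbedding K (x : K)) : ℂ) = χ.χ I * (F (mixedEmbedding K (x : K)) : ℂ) := by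
    intro x hx
    rw [Finset.mem_filter, hSmem] at hx
    rw [ids_V_eq h𝔣 χ hs hx.1.2 (hnz x hx.1.1), fj_spec χ hs (hq x hx.1.2), hx.2]
  rw [Finset.sum_congr rfl h3]
  split_ifs with hp
  · obtain ⟨x₀, hx₀⟩ := hp.principal
    have hx₀' : I * s = Ideal.span {x₀} := hx₀
    rw [← Finset.mul_sum]
    congr 1
    rw [← Complex.ofReal_sum]
    congr 1
    have hx₀0 : x₀ ≠ 0 := by
      rintro rfl
      have h5 : I * s = ⊥ := by rw [hx₀']; simp
      rcases Ideal.mul_eq_bot.1 h5 with h6 | h6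
      · exact hI.2 h6
      · exact hs h6
    have hn0 : mixedEmbedding.norm (mixedEmbedding K (x₀ : K)) ≠ 0 := by
      rw [ids_norm_emb]
      have h7 : Ideal.absNorm (Ideal.span {x₀}) ≠ 0 := by
        rw [Ne, Ideal.absNorm_eq_zero_iff, Ideal.span_singleton_eq_bot]
        exact hx₀0
      exact_mod_cast h7
    have hinj : Function.Injective fun u : (𝓞 K)ˣ => (u : 𝓞 K) * x₀ := by
      intro u v huv
      exact Units.ext (mul_right_cancel₀ hx₀0 huv)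
    have hcanc : ∀ x : 𝓞 K, x ∈ s → Ideal.span {x} = I * s → q x = I := by
      intro x hx h
      rw [hq x hx] at h
      exact mul_right_cancel₀ (b := s) (fun h0 => hs h0) h
    have hxs : ∀ x : 𝓞 K, Ideal.span {x} = I * s → x ∈ s := by
      intro x hx
      have hle : I * s ≤ s := Ideal.mul_le_right
      refine hle ?_
      rw [← hx]
      exact Ideal.mem_span_singleton_self x
    have h4 : ∑ᶠ x ∈ Set.range (fun u : (𝓞 K)ˣ => (u : 𝓞 K) * x₀),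
        F (mixedEmbedding K (x : K)) = ∑ x ∈ S.filter (fun x => q x = I),
        F (mixedEmbedding K (x : K)) := by
      refine finsum_mem_eq_sum_of_inter_support_eq _ ?_
      ext x
      rw [Set.mem_inter_iff, Set.mem_inter_iff, Finset.mem_coe, Finset.mem_filter, hSmem,
        Function.mem_support]
      constructor
      · rintro ⟨⟨u, rfl⟩, hx⟩
        have h8 : Ideal.span {(u : 𝓞 K) * x₀} = I * s := by
          rw [hx₀']
          refine Ideal.span_singleton_eq_span_singleton.2 ?_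
          exact associated_unit_mul_left x₀ _ u.isUnit
        exact ⟨⟨⟨hx, hxs _ h8⟩, hcanc _ (hxs _ h8) h8⟩, hx⟩
      · rintro ⟨⟨⟨hx, hx2⟩, hx3⟩, -⟩
        refine ⟨?_, hx⟩
        have h8 : Ideal.span {x₀} = Ideal.span {x} := by
          rw [hq x hx2, hx3, hx₀']
        obtain ⟨u, hu⟩ := Ideal.span_singleton_eq_span_singleton.1 h8
        exact ⟨u, by rw [← hu, mul_comm]⟩
    rw [← h4, finsum_mem_range hinj]
    have h9 : ∀ u : (𝓞 K)ˣ, F (mixedEmbedding K (((u : 𝓞 K) * x₀ : 𝓞 K) : K)) =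
        Φ (mixedEmbedding K ((u : 𝓞 K) : K) * mixedEmbedding K (x₀ : K)) *
          g ((Ideal.absNorm I : ℝ) / Y) := by
      intro u
      have h8 : Ideal.span {(u : 𝓞 K) * x₀} = I * s := by
        rw [hx₀']
        refine Ideal.span_singleton_eq_span_singleton.2 ?_
        exact associated_unit_mul_left x₀ _ u.isUnit
      rw [hF, hnorm _ (hxs _ h8), hcanc _ (hxs _ h8) h8, ids_emb_mul]
    rw [finsum_congr h9, ← finsum_mul, hΦ.sum _ hn0, one_mul]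
  · refine Finset.sum_eq_zero fun x hx => ?_
    exfalso
    rw [Finset.mem_filter, hSmem] at hx
    refine hp ⟨x, ?_⟩
    rw [← hx.2, ← hq x hx.1.2]

/-- decomposition into residue classes -/
private lemma ids_res (k : ℕ) (hk : 1 ≤ k) (G : 𝓞 K → ℂ) (hG : (Function.support G).Finite) :
    ∑ᶠ x, G x = ∑ᶠ r : 𝓞 K ⧸ Ideal.span {(k : 𝓞 K)}, ∑ᶠ y : 𝓞 K,
      G (Quotient.out r + k * y) := by
  have hk0 : (k : 𝓞 K) ≠ 0 := by
    exact_mod_cast (show k ≠ 0 by omega)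
  have hout : ∀ r : 𝓞 K ⧸ Ideal.span {(k : 𝓞 K)},
      Ideal.Quotient.mk (Ideal.span {(k : 𝓞 K)}) (Quotient.out r) = r := fun r =>
    Quotient.out_eq' r
  have hmk : ∀ (r : 𝓞 K ⧸ Ideal.span {(k : 𝓞 K)}) (y : 𝓞 K),
      Ideal.Quotient.mk (Ideal.span {(k : 𝓞 K)}) (Quotient.out r + k * y) = r := by
    intro r y
    rw [map_add, hout, map_mul]
    have : Ideal.Quotient.mk (Ideal.span {(k : 𝓞 K)}) (k : 𝓞 K) = 0 :=
      Ideal.Quotient.eq_zero_iff_mem.2 (Ideal.mem_span_singleton_self _)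
    rw [this, zero_mul, add_zero]
  have hb : Function.Bijective (fun p : (𝓞 K ⧸ Ideal.span {(k : 𝓞 K)}) × 𝓞 K =>
      (Quotient.out p.1 + k * p.2 : 𝓞 K)) := by
    constructor
    · rintro ⟨r, y⟩ ⟨r', y'⟩ h
      simp only at h
      have h1 : r = r' := by rw [← hmk r y, h, hmk r' y']
      subst h1
      have h2 : (k : 𝓞 K) * y = k * y' := add_left_cancel h
      rw [mul_left_cancel₀ hk0 h2]
    · intro x
      have h1 : x - Quotient.out (Ideal.Quotient.mk (Ideal.span {(k : 𝓞 K)}) x) ∈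
          Ideal.span {(k : 𝓞 K)} := by
        rw [← Ideal.Quotient.eq, hout]
      obtain ⟨y, hy⟩ := Ideal.mem_span_singleton.1 h1
      refine ⟨(Ideal.Quotient.mk _ x, y), ?_⟩
      simp only
      rw [← hy]
      ring
  set e := Equiv.ofBijective _ hb with he
  rw [← finsum_comp_equiv e, finsum_curry]
  · rfl
  · exact hG.preimage e.injective.injOn

private lemma ids_fiber {A B : Type} [AddCommGroup A] [AddCommGroup B] [Fintype A] [Fintype B]
    (f : A →+ B) (hf : Function.Surjective f) (V : B → ℂ) :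
    ∑ a, V (f a) = ((Fintype.card A : ℂ) / Fintype.card B) * ∑ b, V b := by
  have h1 : ∀ b : B, (Finset.univ.filter fun a : A => f a = b).card =
      (Finset.univ.filter fun a : A => f a = 0).card := fun b =>
    AddMonoidHom.card_fiber_eq_of_mem_range f (hf b) (hf 0)
  set c := (Finset.univ.filter fun a : A => f a = 0).card with hc
  have h2 : Fintype.card A = Fintype.card B * c := by
    have h3 : Fintype.card A = ∑ b : B, (Finset.univ.filter fun a : A => f a = b).card := by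
      rw [← Finset.card_univ]
      exact Finset.card_eq_sum_card_fiberwise fun _ _ => Finset.mem_coe.2 (Finset.mem_univ _)
    rw [h3, Finset.sum_congr rfl fun b _ => h1 b, Finset.sum_const, smul_eq_mul,
      Finset.card_univ]
  have hB : (Fintype.card B : ℂ) ≠ 0 := by
    exact_mod_cast Fintype.card_ne_zero
  have h4 : ∑ a, V (f a) = ∑ b, ∑ a ∈ Finset.univ.filter (fun a : A => f a = b), V (f a) :=
    (Finset.sum_fiberwise_of_maps_to (fun _ _ => Finset.mem_univ _) _).symm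
  rw [h4]
  have h5 : ∀ b : B, ∑ a ∈ Finset.univ.filter (fun a : A => f a = b), V (f a) = c * V b := by
    intro b
    rw [Finset.sum_congr rfl (g := fun _ => V b) fun a ha => by
      rw [(Finset.mem_filter.1 ha).2], Finset.sum_const, h1 b, nsmul_eq_mul]
  rw [Finset.sum_congr rfl fun b _ => h5 b, ← Finset.mul_sum, h2, Nat.cast_mul]
  field_simp

private lemma ids_card (k : ℕ) : Nat.card (𝓞 K ⧸ Ideal.span {(k : 𝓞 K)}) =
    k ^ Module.finrank ℚ K := by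
  have h : Nat.card (𝓞 K ⧸ Ideal.span {(k : 𝓞 K)}) = Ideal.absNorm (Ideal.span {(k : 𝓞 K)}) := rfl
  rw [h, Ideal.absNorm_span_singleton]
  have h1 : (k : 𝓞 K) = algebraMap ℤ (𝓞 K) k := by simp
  rw [h1, Algebra.norm_algebraMap, RingOfIntegers.rank, Int.natAbs_pow]
  simp

/-- the scaled function -/
private lemma ids_scale (Φ : mixedEmbedding.mixedSpace K → ℝ) (C₁ : ℝ) (hΦ : UnitPart K Φ C₁)
    (g : ℝ → ℝ) (L : ℝ≥0) (hL : LipschitzWith L g) (hb : ∀ t, |g t| ≤ 1)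
    (hg : ∀ t, t < 1 ∨ 4 < t → g t = 0) (X T : ℝ) (hX : 1 ≤ X) (hT : 1 ≤ T)
    (hTX : T ^ Module.finrank ℚ K = X) :
    ∃ (F : mixedEmbedding.mixedSpace K → ℝ) (Lp : ℝ≥0),
      (∀ x, F x = Φ x * g (mixedEmbedding.norm x / X)) ∧ (Lp : ℝ) = C₁ * (1 + L) * T⁻¹ ∧
      LipschitzWith Lp F ∧ (∀ x, T * max 1 (4 * C₁) < ‖x‖ → F x = 0) ∧
      ∫ x, F x = X * ∫ x, Φ x * g (mixedEmbedding.norm x) := by
  have hT0 : 0 < T := by linarith
  have hd : Module.finrank ℚ K ≠ 0 := Module.finrank_pos.ne'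
  have hC := hΦ.pos
  have hn : ∀ x : mixedEmbedding.mixedSpace K,
      mixedEmbedding.norm (T⁻¹ • x) = mixedEmbedding.norm x / X := by
    intro x
    rw [mixedEmbedding.norm_smul, abs_of_pos (inv_pos.2 hT0), inv_pow, hTX]
    field_simp
  refine ⟨fun x => (fun z => Φ z * g (mixedEmbedding.norm z)) (T⁻¹ • x),
    Real.toNNReal (C₁ * (1 + L)) * ‖T⁻¹‖₊, fun x => ?_, ?_, ?_, fun x hx => ?_, ?_⟩
  · simp only
    rw [hn, hΦ.hom _ _ (inv_pos.2 hT0)]
  · rw [NNReal.coe_mul, coe_nnnorm, Real.norm_of_nonneg (inv_nonneg.2 hT0.le),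
      Real.coe_toNNReal _ (by positivity)]
  · exact (hΦ.lip g L hL hb hg).comp (lipschitzWith_smul T⁻¹)
  · simp only
    by_contra h
    have h1 := left_ne_zero_of_mul h
    have h2 := right_ne_zero_of_mul h
    have h3 : mixedEmbedding.norm (T⁻¹ • x) ≤ 4 := by
      by_contra h4
      rw [not_le] at h4
      exact h2 (hg _ (Or.inr h4))
    have h4 := (hΦ.bound _ h1).2
    have h5 : ‖T⁻¹ • x‖ ^ Module.finrank ℚ K ≤ (max 1 (4 * C₁)) ^ Module.finrank ℚ K := by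
      calc ‖T⁻¹ • x‖ ^ Module.finrank ℚ K ≤ C₁ * mixedEmbedding.norm (T⁻¹ • x) := h4
        _ ≤ C₁ * 4 := mul_le_mul_of_nonneg_left h3 hC.le
        _ = 4 * C₁ := mul_comm _ _
        _ ≤ max 1 (4 * C₁) := le_max_right _ _
        _ ≤ _ := le_self_pow₀ (le_max_left _ _) hd
    have h6 : ‖T⁻¹ • x‖ ≤ max 1 (4 * C₁) :=
      le_of_pow_le_pow_left₀ hd (le_trans zero_le_one (le_max_left _ _)) h5
    rw [norm_smul, Real.norm_of_nonneg (inv_nonneg.2 hT0.le), inv_mul_le_iff₀ hT0] at h6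
    linarith
  · rw [Measure.integral_comp_inv_smul_of_nonneg volume
      (fun z => Φ z * g (mixedEmbedding.norm z)) hT0.le, mixedEmbedding.finrank, hTX,
      smul_eq_mul]

private lemma ids_one (c₀ Cl : ℝ) (hCl : 0 < Cl)
    (hlat : ∀ (F : mixedEmbedding.mixedSpace K → ℝ) (Lp : ℝ≥0) (R : ℝ), 1 ≤ R →
      LipschitzWith Lp F → (∀ x, R < ‖x‖ → F x = 0) → ∀ (k : ℕ), 1 ≤ k → ∀ a : 𝓞 K,
        |∑ᶠ x : 𝓞 K, F (mixedEmbedding K ((a + k * x : 𝓞 K) : K)) -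
            c₀ * ((k : ℝ) ^ Module.finrank ℚ K)⁻¹ * ∫ x, F x| ≤
          Cl * k * Lp * (R / k + 1) ^ Module.finrank ℚ K)
    (Φ : mixedEmbedding.mixedSpace K → ℝ) (C₁ : ℝ) (hΦ : UnitPart K Φ C₁)
    (h𝔣 : 𝔣 ≠ ⊥) (χ : RC K 𝔣) {s : Ideal (𝓞 K)} (hs : s ≠ ⊥)
    (g : ℝ → ℝ) (L : ℝ≥0) (hL : LipschitzWith L g) (hb : ∀ t, |g t| ≤ 1)
    (hg : ∀ t, t < 1 ∨ 4 < t → g t = 0) (Y : ℝ) (hY : 1 ≤ Y) :
    ‖(∑ I ∈ IN K (4 * Y), if (I * s).IsPrincipal then
        χ.χ I * (g ((Ideal.absNorm I : ℝ) / Y) : ℂ) else 0) -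
        (c₀ * ∫ x, Φ x * g (mixedEmbedding.norm x) : ℝ) * Y *
          ((Ideal.absNorm 𝔣 : ℂ)⁻¹ * Mres χ s)‖ ≤
      Cl * 2 ^ Module.finrank ℚ K * C₁ * (max 1 (4 * C₁)) ^ Module.finrank ℚ K *
        (Ideal.absNorm s : ℝ) ^ (Module.finrank ℚ K + 2) *
        ((Ideal.absNorm 𝔣 : ℝ) ^ (Module.finrank ℚ K + 1) * (1 + L) *
          Y ^ (1 - 1 / (Module.finrank ℚ K : ℝ))) := by
  have hC := hΦ.pos
  have hd : 1 ≤ Module.finrank ℚ K := Module.finrank_pos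
  set d := Module.finrank ℚ K with hddef
  have hd0 : (0 : ℝ) < d := by exact_mod_cast hd
  have hNs1 : 1 ≤ Ideal.absNorm s :=
    Nat.pos_of_ne_zero fun h => hs (Ideal.absNorm_eq_zero_iff.1 h)
  have hNf1 : 1 ≤ Ideal.absNorm 𝔣 :=
    Nat.pos_of_ne_zero fun h => h𝔣 (Ideal.absNorm_eq_zero_iff.1 h)
  have hNs : (1 : ℝ) ≤ Ideal.absNorm s := by exact_mod_cast hNs1
  have hNf : (1 : ℝ) ≤ Ideal.absNorm 𝔣 := by exact_mod_cast hNf1
  set k : ℕ := Ideal.absNorm (s * 𝔣) with hkdef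
  have hkeq : k = Ideal.absNorm s * Ideal.absNorm 𝔣 := map_mul _ _ _
  have hk1 : 1 ≤ k := by
    rw [hkeq]
    exact Nat.mul_pos hNs1 hNf1
  have hk0 : (0 : ℝ) < k := by exact_mod_cast hk1
  have hkR : (k : ℝ) = Ideal.absNorm s * Ideal.absNorm 𝔣 := by
    rw [hkeq, Nat.cast_mul]
  have hkmem : (k : 𝓞 K) ∈ s * 𝔣 := Ideal.absNorm_mem _
  have hkle : Ideal.span {(k : 𝓞 K)} ≤ s * 𝔣 := by
    rw [Ideal.span_singleton_le_iff_mem]
    exact hkmem
  have hkK0 : (k : 𝓞 K) ≠ 0 := by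
    exact_mod_cast (show k ≠ 0 by omega)
  have hX : (1 : ℝ) ≤ Y * Ideal.absNorm s := one_le_mul_of_one_le_of_one_le hY hNs
  set X : ℝ := Y * Ideal.absNorm s with hXdef
  set T : ℝ := X ^ (1 / (d : ℝ)) with hTdef
  have hX0 : 0 < X := by linarith
  have hT1 : 1 ≤ T := Real.one_le_rpow hX (by positivity)
  have hT0 : 0 < T := by linarith
  have hTX : T ^ d = X := by
    rw [hTdef, ← Real.rpow_natCast, ← Real.rpow_mul hX0.le, one_div,
      inv_mul_cancel₀ hd0.ne', Real.rpow_one]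
  obtain ⟨F, Lp, hF, hLp, hFL, hF0, hFint⟩ :=
    ids_scale Φ C₁ hΦ g L hL hb hg X T hX hT1 hTX
  have hfin : {x : 𝓞 K | F (mixedEmbedding K (x : K)) ≠ 0}.Finite := by
    have h := lat_fin K F _ hF0 1 le_rfl 0
    simpa using h
  rw [← ids_gen Φ C₁ hΦ h𝔣 χ hs g hg Y hY F hF hfin]
  have hfs : Finite (𝓞 K ⧸ (s * 𝔣)) :=
    Ideal.finiteQuotientOfFreeOfNeBot _ fun h => by
      rcases Ideal.mul_eq_bot.1 h with h | h
      · exact hs h
      · exact h𝔣 h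
  have hfk : Finite (𝓞 K ⧸ Ideal.span {(k : 𝓞 K)}) :=
    Ideal.finiteQuotientOfFreeOfNeBot _ fun h =>
      hkK0 (Ideal.span_singleton_eq_bot.1 h)
  have : Fintype (𝓞 K ⧸ (s * 𝔣)) := Fintype.ofFinite _
  have : Fintype (𝓞 K ⧸ Ideal.span {(k : 𝓞 K)}) := Fintype.ofFinite _
  have hsum : ∑ᶠ x : 𝓞 K, idsV χ s (Ideal.Quotient.mk (s * 𝔣) x) *
      (F (mixedEmbedding K (x : K)) : ℂ) =
      ∑ r : 𝓞 K ⧸ Ideal.span {(k : 𝓞 K)},
        idsV χ s (Ideal.Quotient.factor hkle r) *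
          ((∑ᶠ y : 𝓞 K, F (mixedEmbedding K ((Quotient.out r + k * y : 𝓞 K) : K)) : ℝ) : ℂ) := by
    rw [ids_res k hk1, finsum_eq_sum_of_fintype]
    · refine Finset.sum_congr rfl fun r _ => ?_
      have h1 : ∀ y : 𝓞 K, Ideal.Quotient.mk (s * 𝔣) (Quotient.out r + k * y) =
          Ideal.Quotient.factor hkle r := by
        intro y
        have h2 : r = Ideal.Quotient.mk (Ideal.span {(k : 𝓞 K)}) (Quotient.out r) :=
          (Quotient.out_eq' r).symm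
        conv_rhs => rw [h2]
        rw [Ideal.Quotient.factor_mk, Ideal.Quotient.eq]
        have h3 : Quotient.out r + (k : 𝓞 K) * y - Quotient.out r = y * k := by ring
        rw [h3]
        exact Ideal.mul_mem_left _ _ hkmem
      have h4 : ((∑ᶠ y : 𝓞 K, F (mixedEmbedding K
          ((Quotient.out r + k * y : 𝓞 K) : K)) : ℝ) : ℂ) =
          ∑ᶠ y : 𝓞 K, (F (mixedEmbedding K ((Quotient.out r + k * y : 𝓞 K) : K)) : ℂ) :=
        Complex.ofRealHom.toAddMonoidHom.map_finsum (lat_fin K F _ hF0 k hk1 _)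
      rw [h4, mul_finsum]
      exact finsum_congr fun y => by rw [h1]
    · refine hfin.subset fun x hx => ?_
      intro h
      refine hx ?_
      simp only
      rw [h]
      simp
  have hMres : Mres χ s = ∑ r, idsV χ s r := by
    rw [ids_mres, finsum_eq_sum_of_fintype]
  have hcardk : (Fintype.card (𝓞 K ⧸ Ideal.span {(k : 𝓞 K)})) = k ^ d := by
    rw [← Nat.card_eq_fintype_card, ids_card]
  have hcards : (Fintype.card (𝓞 K ⧸ (s * 𝔣))) = k := by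
    rw [← Nat.card_eq_fintype_card]
    rfl
  have hfib := ids_fiber (Ideal.Quotient.factor hkle : 𝓞 K ⧸ Ideal.span {(k : 𝓞 K)} →+*
    𝓞 K ⧸ (s * 𝔣)).toAddMonoidHom (Ideal.Quotient.factor_surjective hkle) (idsV χ s)
  rw [hcardk, hcards, ← hMres] at hfib
  have hkC : (k : ℂ) ≠ 0 := by exact_mod_cast hk0.ne'
  have hNsC : (Ideal.absNorm s : ℂ) ≠ 0 := by
    exact_mod_cast (show Ideal.absNorm s ≠ 0 by omega)
  have hNfC : (Ideal.absNorm 𝔣 : ℂ) ≠ 0 := by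
    exact_mod_cast (show Ideal.absNorm 𝔣 ≠ 0 by omega)
  have hmain : ((c₀ * ∫ x, Φ x * g (mixedEmbedding.norm x) : ℝ) : ℂ) * Y *
      ((Ideal.absNorm 𝔣 : ℂ)⁻¹ * Mres χ s) =
      ∑ r : 𝓞 K ⧸ Ideal.span {(k : 𝓞 K)}, idsV χ s (Ideal.Quotient.factor hkle r) *
        ((c₀ * ((k : ℝ) ^ d)⁻¹ * ∫ x, F x : ℝ) : ℂ) := by
    rw [← Finset.sum_mul]
    have h5 : ∑ r : 𝓞 K ⧸ Ideal.span {(k : 𝓞 K)}, idsV χ s (Ideal.Quotient.factor hkle r) =
        ((k ^ d : ℕ) : ℂ) / k * Mres χ s := hfib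
    have hkC2 : (k : ℂ) = Ideal.absNorm s * Ideal.absNorm 𝔣 := by
      rw [hkeq, Nat.cast_mul]
    rw [h5, hFint, hXdef]
    push_cast
    generalize (∫ x, Φ x * g (mixedEmbedding.norm x)) = W
    have h6 : ((k : ℂ) ^ d) * ((k : ℂ) ^ d)⁻¹ = 1 := mul_inv_cancel₀ (pow_ne_zero _ hkC)
    calc (c₀ : ℂ) * W * Y * ((Ideal.absNorm 𝔣 : ℂ)⁻¹ * Mres χ s)
        = 1 * (c₀ * W * Y * ((Ideal.absNorm 𝔣 : ℂ)⁻¹ * Mres χ s)) := by ring
      _ = (((k : ℂ) ^ d) * ((k : ℂ) ^ d)⁻¹) * (c₀ * W * Y *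
          ((Ideal.absNorm s : ℂ) / k * Mres χ s)) := by
          rw [h6]
          congr 3
          rw [hkC2]
          field_simp
      _ = _ := by ring
  rw [hsum, hmain, ← Finset.sum_sub_distrib]
  have hm1 : 1 ≤ max 1 (4 * C₁) := le_max_left _ _
  set m := max 1 (4 * C₁) with hmdef
  have hterm : ∀ r : 𝓞 K ⧸ Ideal.span {(k : 𝓞 K)},
      ‖idsV χ s (Ideal.Quotient.factor hkle r) *
          ((∑ᶠ y : 𝓞 K, F (mixedEmbedding K ((Quotient.out r + k * y : 𝓞 K) : K)) : ℝ) : ℂ) -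
        idsV χ s (Ideal.Quotient.factor hkle r) *
          ((c₀ * ((k : ℝ) ^ d)⁻¹ * ∫ x, F x : ℝ) : ℂ)‖ ≤
      Cl * k * Lp * (T * m / k + 1) ^ d := by
    intro r
    rw [← mul_sub, norm_mul, ← Complex.ofReal_sub, Complex.norm_real, Real.norm_eq_abs]
    have h7 := hlat F Lp (T * m) (one_le_mul_of_one_le_of_one_le hT1 hm1) hFL hF0 k hk1
      (Quotient.out r)
    calc _ ≤ 1 * |∑ᶠ y : 𝓞 K, F (mixedEmbedding K ((Quotient.out r + k * y : 𝓞 K) : K)) -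
          c₀ * ((k : ℝ) ^ d)⁻¹ * ∫ x, F x| :=
          mul_le_mul_of_nonneg_right (ids_V_le _ _ _) (abs_nonneg _)
      _ ≤ _ := by rw [one_mul]; exact h7
  refine (norm_sum_le _ _).trans ((Finset.sum_le_sum fun r _ => hterm r).trans ?_)
  rw [Finset.sum_const, Finset.card_univ, hcardk, nsmul_eq_mul, Nat.cast_pow, hLp]
  have hk1R : (1 : ℝ) ≤ k := by exact_mod_cast hk1
  have hTd : T⁻¹ * T ^ d ≤ Y ^ (1 - 1 / (d : ℝ)) * Ideal.absNorm s := by
    have h8 : T⁻¹ * T ^ d = X ^ (1 - 1 / (d : ℝ)) := by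
      rw [hTX, hTdef, ← Real.rpow_neg hX0.le]
      nth_rewrite 2 [← Real.rpow_one X]
      rw [← Real.rpow_add hX0]
      congr 1
      ring
    rw [h8, hXdef, Real.mul_rpow (by linarith) (by linarith)]
    refine mul_le_mul_of_nonneg_left ?_ (by positivity)
    calc (Ideal.absNorm s : ℝ) ^ (1 - 1 / (d : ℝ)) ≤ (Ideal.absNorm s : ℝ) ^ (1 : ℝ) :=
          Real.rpow_le_rpow_of_exponent_le hNs (by
            have : 0 ≤ 1 / (d : ℝ) := by positivity
            linarith)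
      _ = _ := Real.rpow_one _
  have hpow : (k : ℝ) ^ d * (T * m / k + 1) ^ d ≤ 2 ^ d * m ^ d * k ^ d * T ^ d := by
    rw [← mul_pow, ← mul_pow, ← mul_pow, ← mul_pow]
    refine pow_le_pow_left₀ (by positivity) ?_ _
    have h9 : (k : ℝ) * (T * m / k + 1) = T * m + k := by field_simp
    rw [h9]
    have h10 : T * m ≤ m * k * T := by
      have : m * T ≤ m * T * k := le_mul_of_one_le_right (by positivity) hk1R
      linarith [this]
    have h11 : (k : ℝ) ≤ m * k * T := by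
      have : (k : ℝ) * 1 ≤ k * (m * T) :=
        mul_le_mul_of_nonneg_left (one_le_mul_of_one_le_of_one_le hm1 hT1) hk0.le
      linarith [this]
    linarith
  calc (k : ℝ) ^ d * (Cl * k * (C₁ * (1 + L) * T⁻¹) * (T * m / k + 1) ^ d)
      = (Cl * k * (C₁ * (1 + L) * T⁻¹)) * ((k : ℝ) ^ d * (T * m / k + 1) ^ d) := by ring
    _ ≤ (Cl * k * (C₁ * (1 + L) * T⁻¹)) * (2 ^ d * m ^ d * k ^ d * T ^ d) :=
        mul_le_mul_of_nonneg_left hpow (by positivity)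
    _ = (Cl * k * (C₁ * (1 + L)) * (2 ^ d * m ^ d * k ^ d)) * (T⁻¹ * T ^ d) := by ring
    _ ≤ (Cl * k * (C₁ * (1 + L)) * (2 ^ d * m ^ d * k ^ d)) *
        (Y ^ (1 - 1 / (d : ℝ)) * Ideal.absNorm s) :=
        mul_le_mul_of_nonneg_left hTd (by positivity)
    _ = _ := by
        rw [hkR]
        ring

end idsum

theorem smo_ray {K : Type} [Field K] [NumberField K] (Φ : mixedEmbedding.mixedSpace K → ℝ) (C₁ : ℝ)
    (hΦ : UnitPart K Φ C₁) :
    ∃ c₀ C A : ℝ, 0 < c₀ ∧ 0 < C ∧ 0 ≤ A ∧ ∀ (𝔣 : Ideal (𝓞 K)), 𝔣 ≠ ⊥ → ∀ χ : RC K 𝔣,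
      ∃ M : ℂ, (χ.Non → M = 0) ∧ (𝔣 = ⊤ → ¬ χ.Non → ∃ m : ℝ, 0 < m ∧ M = m) ∧
        ∀ (g : ℝ → ℝ) (L : ℝ≥0), LipschitzWith L g → (∀ t, |g t| ≤ 1) →
          (∀ t, t < 1 ∨ 4 < t → g t = 0) → ∀ Y : ℝ, 1 ≤ Y →
            ‖smo χ.χ g Y - (c₀ * ∫ x, Φ x * g (mixedEmbedding.norm x) : ℝ) * Y * M‖ ≤
              C * (Ideal.absNorm 𝔣 : ℝ) ^ A * (1 + L) *
                Y ^ (1 - 1 / (Module.finrank ℚ K : ℝ)) := by
  obtain ⟨c₀, Cl, hc₀, hCl, hlat⟩ := lat_sum K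
  obtain ⟨h, s, hh, hs, hr⟩ := exists_reps K
  have hC := hΦ.pos
  have hd : 1 ≤ Module.finrank ℚ K := Module.finrank_pos
  set B : ℝ := Cl * 2 ^ Module.finrank ℚ K * C₁ * (max 1 (4 * C₁)) ^ Module.finrank ℚ K with hB
  have hB0 : 0 < B := by
    have : 0 < max 1 (4 * C₁) := lt_of_lt_of_le zero_lt_one (le_max_left _ _)
    positivity
  refine ⟨c₀, ∑ j, B * (Ideal.absNorm (s j) : ℝ) ^ (Module.finrank ℚ K + 2),
    ((Module.finrank ℚ K + 1 : ℕ) : ℝ), hc₀, ?_, by positivity, fun 𝔣 h𝔣 χ =>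
    ⟨(Ideal.absNorm 𝔣 : ℂ)⁻¹ * ∑ j, Mres χ (s j), fun hχ => ?_, fun htop hχ => ?_,
      fun g L hL hb hg Y hY => ?_⟩⟩
  · have : Nonempty (Fin h) := ⟨⟨0, hh⟩⟩
    refine Finset.sum_pos (fun j _ => ?_) Finset.univ_nonempty
    have h1 : Ideal.absNorm (s j) ≠ 0 := fun h0 => hs j (Ideal.absNorm_eq_zero_iff.1 h0)
    have h2 : (0 : ℝ) < Ideal.absNorm (s j) := by exact_mod_cast Nat.pos_of_ne_zero h1
    positivity
  · rw [orth_non h𝔣 χ hχ s hs hr, mul_zero]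
  · subst htop
    rw [orth_one χ hχ s hs hr]
    refine ⟨h, by exact_mod_cast hh, ?_⟩
    rw [Ideal.absNorm_top]
    simp
  · have h1 : smo χ.χ g Y = ∑ j, ∑ I ∈ IN K (4 * Y), if (I * s j).IsPrincipal then
        χ.χ I * (g ((Ideal.absNorm I : ℝ) / Y) : ℂ) else 0 := by
      unfold smo
      rw [Finset.sum_comm]
      refine Finset.sum_congr rfl fun I hI => ?_
      rw [mem_IN (by linarith)] at hI
      obtain ⟨j, hj, hj2⟩ := hr I hI.2
      rw [Finset.sum_eq_single j]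
      · rw [if_pos hj]
      · intro j' _ hne
        rw [if_neg]
        intro hp
        exact hne (hj2 j' hp)
      · intro hj'
        exact absurd (Finset.mem_univ j) hj'
    have h2 : ((c₀ * ∫ x, Φ x * g (mixedEmbedding.norm x) : ℝ) : ℂ) * Y *
        ((Ideal.absNorm 𝔣 : ℂ)⁻¹ * ∑ j, Mres χ (s j)) =
        ∑ j, ((c₀ * ∫ x, Φ x * g (mixedEmbedding.norm x) : ℝ) : ℂ) * Y *
          ((Ideal.absNorm 𝔣 : ℂ)⁻¹ * Mres χ (s j)) := by
      rw [Finset.mul_sum, Finset.mul_sum]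
    rw [h1, h2, ← Finset.sum_sub_distrib]
    refine (norm_sum_le _ _).trans ((Finset.sum_le_sum fun j _ =>
      ids_one c₀ Cl hCl hlat Φ C₁ hΦ h𝔣 χ (hs j) g L hL hb hg Y hY).trans (le_of_eq ?_))
    rw [Finset.sum_mul, Finset.sum_mul, Finset.sum_mul, Real.rpow_natCast]
    refine Finset.sum_congr rfl fun j _ => ?_
    rw [hB]
    ring

end H63.MA
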